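import Pool.Agent.EU.Defs

/-!
Area formula with multiplicity and constancy of the degree, for maps of the plane.
-/

set_option autoImplicit false
open scoped ContDiff Topology ENNReal
open Real Set MeasureTheory Filter

namespace Pool.Agent.EU

theorem critical_values_null {f : P → P} (hf : ContDiff ℝ 1 f) :
    volume (f '' {x | (fderiv ℝ f x).det = 0}) = 0 :=
  addHaar_image_eq_zero_of_det_fderivWithin_eq_zero volume
    (fun x _ => (hf.differentiable (by norm_num) x).hasFDerivAt.hasFDerivWithinAt)
    (fun _ hx => hx)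

theorem continuous_det_fderiv {f : P → P} (hf : ContDiff ℝ 1 f) :
    Continuous fun x => (fderiv ℝ f x).det :=
  ContinuousLinearMap.continuous_det.comp (hf.continuous_fderiv (by norm_num))

/-- near a point where the determinant is nonzero the map is injective. -/
theorem exists_injOn_nhds {f : P → P} (hf : ContDiff ℝ 1 f) {x : P}
    (hx : (fderiv ℝ f x).det ≠ 0) : ∃ U ∈ 𝓝 x, InjOn f U := by
  have hs : HasStrictFDerivAt f
      ((fderiv ℝ f x).toContinuousLinearEquivOfDetNeZero hx : P →L[ℝ] P) x := by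
    rw [ContinuousLinearMap.coe_toContinuousLinearEquivOfDetNeZero]
    exact hf.contDiffAt.hasStrictFDerivAt (by norm_num)
  refine ⟨(hs.toOpenPartialHomeomorph f).source,
    (hs.toOpenPartialHomeomorph f).open_source.mem_nhds
      hs.mem_toOpenPartialHomeomorph_source, ?_⟩
  have := (hs.toOpenPartialHomeomorph f).injOn
  rwa [hs.toOpenPartialHomeomorph_coe] at this

/-- The set of regular points is a countable disjoint union of measurable sets on which the map
is injective. -/
theorem exists_injOn_partition {f : P → P} (hf : ContDiff ℝ 1 f) :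
    ∃ K : ℕ → Set P, (∀ n, MeasurableSet (K n)) ∧ Pairwise (Function.onFun Disjoint K) ∧
      (∀ n, InjOn f (K n)) ∧ ⋃ n, K n = {x | (fderiv ℝ f x).det ≠ 0} := by
  classical
  have hopen : IsOpen {x | (fderiv ℝ f x).det ≠ 0} :=
    (continuous_det_fderiv hf).isOpen_preimage _ isOpen_ne
  have h1 : ∀ x ∈ {x | (fderiv ℝ f x).det ≠ 0}, ∃ U : Set P, IsOpen U ∧ x ∈ U ∧ InjOn f U := by
    intro x hx
    obtain ⟨U, hU, hi⟩ := exists_injOn_nhds hf hx
    obtain ⟨V, hVU, hV, hxV⟩ := mem_nhds_iff.1 hU
    exact ⟨V, hV, hxV, hi.mono hVU⟩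
  choose! U hUo hxU hUi using h1
  obtain ⟨t, hts, htc, hcov⟩ := TopologicalSpace.countable_cover_nhdsWithin
    (s := {x | (fderiv ℝ f x).det ≠ 0}) (f := U)
    (fun x hx => mem_nhdsWithin_of_mem_nhds ((hUo x hx).mem_nhds (hxU x hx)))
  by_cases hte : t.Nonempty
  · obtain ⟨g, hg⟩ := htc.exists_eq_range hte
    have hgt : ∀ n, g n ∈ {x | (fderiv ℝ f x).det ≠ 0} := fun n =>
      hts (by rw [hg]; exact mem_range_self n)
    refine ⟨disjointed fun n => U (g n) ∩ {x | (fderiv ℝ f x).det ≠ 0}, ?_, ?_, ?_, ?_⟩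
    · exact MeasurableSet.disjointed fun n => ((hUo _ (hgt n)).inter hopen).measurableSet
    · exact disjoint_disjointed _
    · exact fun n => (hUi _ (hgt n)).mono
        ((disjointed_subset _ n).trans inter_subset_left)
    · rw [iUnion_disjointed]
      apply Subset.antisymm
      · exact iUnion_subset fun n => inter_subset_right
      · intro x hx
        obtain ⟨y, hy, hxy⟩ := mem_iUnion₂.1 (hcov hx)
        rw [hg] at hy
        obtain ⟨n, rfl⟩ := hy
        exact mem_iUnion.2 ⟨n, hxy, hx⟩
  · rw [not_nonempty_iff_eq_empty] at hte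
    refine ⟨fun _ => ∅, fun _ => MeasurableSet.empty, fun _ _ _ => disjoint_bot_left,
      fun _ => injOn_empty f, ?_⟩
    rw [iUnion_empty]
    symm
    rw [← subset_empty_iff]
    intro x hx
    have := hcov hx
    rw [hte] at this
    simp at this

/-- multiplicity of `w` as a value of `f` on `K`. -/
noncomputable def mult (f : P → P) (K : Set P) (w : P) : ℝ≥0∞ :=
  (({x | x ∈ K ∧ f x = w}.encard : ℕ∞) : ℝ≥0∞)

theorem encard_injOn {f : P → P} {K : Set P} (hi : InjOn f K) (w : P) :
    (({x | x ∈ K ∧ f x = w}.encard : ℕ∞) : ℝ≥0∞) = (f '' K).indicator 1 w := by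
  classical
  by_cases hw : w ∈ f '' K
  · obtain ⟨x, hx, rfl⟩ := hw
    have : {y | y ∈ K ∧ f y = f x} = {x} := by
      ext y
      simp only [mem_ofPred_eq, mem_singleton_iff]
      constructor
      · rintro ⟨hy, hyx⟩
        exact hi hy hx hyx
      · rintro rfl
        exact ⟨hx, rfl⟩
    rw [this, encard_singleton, indicator_of_mem (mem_image_of_mem f hx)]
    simp
  · have : {y | y ∈ K ∧ f y = w} = ∅ := by
      ext y
      simp only [mem_ofPred_eq, mem_empty_iff_false, iff_false]
      rintro ⟨hy, hyw⟩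
      exact hw ⟨y, hy, hyw⟩
    rw [this, encard_empty, indicator_of_notMem hw]
    simp

theorem encard_iUnion_coe {S : ℕ → Set P} (hd : Pairwise (Function.onFun Disjoint S)) :
    (((⋃ n, S n).encard : ℕ∞) : ℝ≥0∞) = ∑' n, (((S n).encard : ℕ∞) : ℝ≥0∞) := by
  classical
  let _ : MeasurableSpace P := ⊤
  have h := Measure.count_apply (α := P) (s := ⋃ n, S n) (by trivial)
  have h' : ∀ n, Measure.count (S n) = (((S n).encard : ℕ∞) : ℝ≥0∞) := fun n =>
    Measure.count_apply (by trivial)
  rw [← h, measure_iUnion hd (fun _ => by trivial)]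
  exact tsum_congr h'

theorem mult_ae_eq {f : P → P} (hf : ContDiff ℝ 1 f) {K : Set P} {S : ℕ → Set P}
    (hd : Pairwise (Function.onFun Disjoint S)) (hi : ∀ n, InjOn f (S n))
    (hu : ⋃ n, S n = {x | (fderiv ℝ f x).det ≠ 0}) :
    ∀ᵐ w : P, (({x | x ∈ K ∧ f x = w}.encard : ℕ∞) : ℝ≥0∞) =
      ∑' n, (f '' (K ∩ S n)).indicator 1 w := by
  have h0 : ∀ᵐ w : P, w ∉ f '' {x | (fderiv ℝ f x).det = 0} :=
    measure_eq_zero_iff_ae_notMem.1 (critical_values_null hf)
  filter_upwards [h0] with w hw
  have e : {x | x ∈ K ∧ f x = w} = ⋃ n, {x | x ∈ K ∩ S n ∧ f x = w} := by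
    ext x
    simp only [mem_ofPred_eq, mem_iUnion, mem_inter_iff]
    constructor
    · rintro ⟨hx, hxw⟩
      have hdx : (fderiv ℝ f x).det ≠ 0 := fun h => hw ⟨x, h, hxw⟩
      have : x ∈ ⋃ n, S n := by rw [hu]; exact hdx
      obtain ⟨n, hn⟩ := mem_iUnion.1 this
      exact ⟨n, ⟨hx, hn⟩, hxw⟩
    · rintro ⟨n, ⟨hx, _⟩, hxw⟩
      exact ⟨hx, hxw⟩
  rw [e, encard_iUnion_coe]
  · exact tsum_congr fun n => encard_injOn ((hi n).mono inter_subset_right) w
  · intro i j hij
    refine (hd hij).mono ?_ ?_
    · rintro x ⟨⟨_, hx⟩, _⟩; exact hx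
    · rintro x ⟨⟨_, hx⟩, _⟩; exact hx

theorem measurableSet_image_injOn {f : P → P} (hf : ContDiff ℝ 1 f) {K : Set P}
    (hK : MeasurableSet K) (hi : InjOn f K) : MeasurableSet (f '' K) :=
  hK.image_of_continuousOn_injOn hf.continuous.continuousOn hi

theorem aemeasurable_encard {f : P → P} (hf : ContDiff ℝ 1 f) {K : Set P}
    (hK : MeasurableSet K) :
    AEMeasurable (fun w : P => (({x | x ∈ K ∧ f x = w}.encard : ℕ∞) : ℝ≥0∞)) := by
  obtain ⟨S, hSm, hd, hi, hu⟩ := exists_injOn_partition hf
  refine ⟨fun w => ∑' n, (f '' (K ∩ S n)).indicator 1 w, ?_, mult_ae_eq hf hd hi hu⟩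
  refine Measurable.tsum fun n => ?_
  exact measurable_one.indicator
    (measurableSet_image_injOn hf (hK.inter (hSm n)) ((hi n).mono inter_subset_right))

theorem area_formula {f : P → P} (hf : ContDiff ℝ 1 f) {K : Set P} (hK : MeasurableSet K)
    {h : P → ℝ≥0∞} (hh : Measurable h) :
    ∫⁻ x in K, h (f x) * ENNReal.ofReal |(fderiv ℝ f x).det| =
      ∫⁻ w, h w * (({x | x ∈ K ∧ f x = w}.encard : ℕ∞) : ℝ≥0∞) := by
  obtain ⟨S, hSm, hd, hi, hu⟩ := exists_injOn_partition hf
  have hR : ∫⁻ w, h w * (({x | x ∈ K ∧ f x = w}.encard : ℕ∞) : ℝ≥0∞) =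
      ∑' n, ∫⁻ w in f '' (K ∩ S n), h w := by
    have e1 : ∫⁻ w, h w * (({x | x ∈ K ∧ f x = w}.encard : ℕ∞) : ℝ≥0∞) =
        ∫⁻ w, ∑' n, (f '' (K ∩ S n)).indicator h w := by
      apply lintegral_congr_ae
      filter_upwards [mult_ae_eq (K := K) hf hd hi hu] with w hw
      rw [hw, ← ENNReal.tsum_mul_left]
      refine tsum_congr fun n => ?_
      by_cases hwn : w ∈ f '' (K ∩ S n)
      · simp [indicator_of_mem hwn]
      · simp [indicator_of_notMem hwn]
    rw [e1, lintegral_tsum]
    · refine tsum_congr fun n => ?_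
      rw [lintegral_indicator (measurableSet_image_injOn hf (hK.inter (hSm n))
        ((hi n).mono inter_subset_right))]
    · intro n
      exact (hh.indicator (measurableSet_image_injOn hf (hK.inter (hSm n))
        ((hi n).mono inter_subset_right))).aemeasurable
  have hL : ∫⁻ x in K, h (f x) * ENNReal.ofReal |(fderiv ℝ f x).det| =
      ∑' n, ∫⁻ x in K ∩ S n, ENNReal.ofReal |(fderiv ℝ f x).det| * h (f x) := by
    have e1 : ∫⁻ x in K, h (f x) * ENNReal.ofReal |(fderiv ℝ f x).det| =
        ∫⁻ x in K ∩ ⋃ n, S n, ENNReal.ofReal |(fderiv ℝ f x).det| * h (f x) := by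
      rw [← lintegral_indicator hK, ← lintegral_indicator
        (hK.inter (MeasurableSet.iUnion hSm))]
      congr 1
      ext x
      by_cases hx : x ∈ K
      · by_cases hxu : x ∈ ⋃ n, S n
        · rw [indicator_of_mem hx, indicator_of_mem (show x ∈ K ∩ ⋃ n, S n from ⟨hx, hxu⟩),
            mul_comm]
        · rw [indicator_of_mem hx, indicator_of_notMem (fun h : x ∈ K ∩ ⋃ n, S n => hxu h.2)]
          rw [hu] at hxu
          have : (fderiv ℝ f x).det = 0 := by
            by_contra h
            exact hxu h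
          simp [this]
      · rw [indicator_of_notMem hx, indicator_of_notMem (fun h : x ∈ K ∩ ⋃ n, S n => hx h.1)]
    rw [e1, inter_iUnion, lintegral_iUnion (fun n => hK.inter (hSm n))]
    intro i j hij
    exact (hd hij).mono inter_subset_right inter_subset_right
  rw [hR, hL]
  refine tsum_congr fun n => ?_
  rw [lintegral_image_eq_lintegral_abs_det_fderiv_mul volume (hK.inter (hSm n))
    (fun x _ => (hf.differentiable (by norm_num) x).hasFDerivAt.hasFDerivWithinAt)
    ((hi n).mono inter_subset_right)]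


/-! ### constancy of the degree -/

/-- the integral of a partial derivative of a compactly supported function is zero. -/
theorem integral_fderiv_zero {g : P → ℝ} (hg : ContDiff ℝ 1 g) (hc : HasCompactSupport g)
    (e : P) : ∫ x, fderiv ℝ g x e = 0 := by
  have h := integral_mul_fderiv_eq_neg_fderiv_mul_of_integrable (μ := (volume : Measure P))
    (f := fun _ : P => (1 : ℝ)) (g := g) (v := e) ?_ ?_ ?_ ?_ ?_
  · simpa using h
  · simp
  · simp only [one_mul]
    exact ((hg.continuous_fderiv (by norm_num)).clm_apply continuous_const).integrable_of_hasCompactSupport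
      (hc.fderiv_apply ℝ e)
  · simpa using hg.continuous.integrable_of_hasCompactSupport hc
  · intro x _; exact differentiableAt_const _
  · intro x _; exact hg.differentiable (by norm_num) x

/-- determinant in terms of partial derivatives -/
theorem det_eq {f : P → P} {x : P} :
    (fderiv ℝ f x).det = (d1 f x).1 * (d2 f x).2 - (d2 f x).1 * (d1 f x).2 := by
  have h := LinearMap.det_toLin (Module.Basis.finTwoProd ℝ)
    (!![(d1 f x).1, (d2 f x).1; (d1 f x).2, (d2 f x).2])
  have e : Matrix.toLin (Module.Basis.finTwoProd ℝ) (Module.Basis.finTwoProd ℝ)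
      (!![(d1 f x).1, (d2 f x).1; (d1 f x).2, (d2 f x).2]) = (fderiv ℝ f x : P →ₗ[ℝ] P) := by
    apply LinearMap.ext
    intro y
    have hy := fderiv_apply_eq f x y
    rw [Matrix.toLin_finTwoProd_apply]
    show _ = fderiv ℝ f x y
    rw [hy]
    ext <;> simp [mul_comm]
  rw [e, Matrix.det_fin_two] at h
  show LinearMap.det (fderiv ℝ f x : P →ₗ[ℝ] P) = _
  rw [h]
  simp

/-- `∫ (∂_e ρ)(f x) det Df(x) dx = 0`. -/
theorem integral_deriv_comp_det {f : P → P} (hf : ContDiff ℝ 2 f)
    (hp : Tendsto f (cocompact P) (cocompact P)) {ρ : P → ℝ} (hρ : ContDiff ℝ 1 ρ)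
    (hc : HasCompactSupport ρ) (e : P) :
    ∫ x, fderiv ℝ ρ (f x) e * (fderiv ℝ f x).det = 0 := by
  have hf1 : ContDiff ℝ 1 f := hf.of_le (by norm_num)
  have hR : ContDiff ℝ 1 (fun x => ρ (f x)) := hρ.comp hf1
  have hRc : HasCompactSupport (fun x => ρ (f x)) := by
    have hK : IsCompact (f ⁻¹' tsupport ρ) := by
      have hcl : IsClosed (f ⁻¹' tsupport ρ) := (isClosed_tsupport ρ).preimage hf1.continuous
      have := hp hc.compl_mem_cocompact
      obtain ⟨t, ht, hts⟩ := mem_cocompact.1 this
      refine ht.of_isClosed_subset hcl ?_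
      intro x hx
      by_contra hxt
      exact hts hxt hx
    refine HasCompactSupport.intro hK ?_
    intro x hx
    exact image_eq_zero_of_notMem_tsupport hx
  have hfst : ContDiff ℝ 2 (fun x => (f x).1) := hf.fst
  have hsnd : ContDiff ℝ 2 (fun x => (f x).2) := hf.snd
  -- general divergence identity
  have key : ∀ φ : P → ℝ, ContDiff ℝ 2 φ →
      ∫ x, (d1 (fun x => ρ (f x)) x * d2 φ x - d2 (fun x => ρ (f x)) x * d1 φ x) = 0 := by
    intro φ hφ
    have hφ1 : ContDiff ℝ 1 (d1 φ) := contDiff_d1 hφ (by norm_num)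
    have hφ2 : ContDiff ℝ 1 (d2 φ) := contDiff_d2 hφ (by norm_num)
    have i1 := integral_fderiv_zero (hR.mul hφ2) (hRc.mul_right) (1, 0)
    have i2 := integral_fderiv_zero (hR.mul hφ1) (hRc.mul_right) (0, 1)
    have c1 : ∀ x, fderiv ℝ (fun x => ρ (f x) * d2 φ x) x (1, 0) =
        d1 (fun x => ρ (f x)) x * d2 φ x + ρ (f x) * d1 (d2 φ) x := by
      intro x
      rw [fderiv_fun_mul (hR.differentiable (by norm_num) x) (hφ2.differentiable (by norm_num) x)]
      simp only [_root_.add_apply, _root_.smul_apply, smul_eq_mul, d1]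
      ring
    have c2 : ∀ x, fderiv ℝ (fun x => ρ (f x) * d1 φ x) x (0, 1) =
        d2 (fun x => ρ (f x)) x * d1 φ x + ρ (f x) * d2 (d1 φ) x := by
      intro x
      rw [fderiv_fun_mul (hR.differentiable (by norm_num) x) (hφ1.differentiable (by norm_num) x)]
      simp only [_root_.add_apply, _root_.smul_apply, smul_eq_mul, d2]
      ring
    have j1 : Integrable (fun x => fderiv ℝ (fun x => ρ (f x) * d2 φ x) x (1, 0)) :=
      (((hR.mul hφ2).continuous_fderiv (by norm_num)).clm_apply
        continuous_const).integrable_of_hasCompactSupport ((hRc.mul_right).fderiv_apply ℝ _)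
    have j2 : Integrable (fun x => fderiv ℝ (fun x => ρ (f x) * d1 φ x) x (0, 1)) :=
      (((hR.mul hφ1).continuous_fderiv (by norm_num)).clm_apply
        continuous_const).integrable_of_hasCompactSupport ((hRc.mul_right).fderiv_apply ℝ _)
    have h3 := integral_sub j1 j2
    rw [i1, i2, sub_zero] at h3
    rw [← h3]
    refine integral_congr_ae (Eventually.of_forall fun x => ?_)
    simp only
    rw [c1, c2, d1_d2_comm hφ x]
    ring
  -- chain rule
  have ch : ∀ x u, fderiv ℝ (fun x => ρ (f x)) x u = fderiv ℝ ρ (f x) (fderiv ℝ f x u) := by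
    intro x u
    have := fderiv_comp x (hρ.differentiable (by norm_num) (f x))
      (hf1.differentiable (by norm_num) x)
    have e2 : fderiv ℝ (fun x => ρ (f x)) x = (fderiv ℝ ρ (f x)).comp (fderiv ℝ f x) := this
    rw [e2]; rfl
  have hd1 : ∀ x, d1 (fun x => ρ (f x)) x =
      (d1 f x).1 * d1 ρ (f x) + (d1 f x).2 * d2 ρ (f x) := by
    intro x
    have := ch x (1, 0)
    rw [d1, this, fderiv_apply_eq]
    rfl
  have hd2 : ∀ x, d2 (fun x => ρ (f x)) x =
      (d2 f x).1 * d1 ρ (f x) + (d2 f x).2 * d2 ρ (f x) := by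
    intro x
    have := ch x (0, 1)
    rw [d2, this, fderiv_apply_eq]
    rfl
  have hpd : ∀ x, d1 (fun x => (f x).1) x = (d1 f x).1 ∧ d2 (fun x => (f x).1) x = (d2 f x).1 ∧
      d1 (fun x => (f x).2) x = (d1 f x).2 ∧ d2 (fun x => (f x).2) x = (d2 f x).2 := by
    intro x
    have hx := hf1.differentiable (by norm_num) x
    have e1 : fderiv ℝ (fun x => (f x).1) x = (ContinuousLinearMap.fst ℝ ℝ ℝ).comp (fderiv ℝ f x) :=
      hx.hasFDerivAt.fst.fderiv
    have e2 : fderiv ℝ (fun x => (f x).2) x = (ContinuousLinearMap.snd ℝ ℝ ℝ).comp (fderiv ℝ f x) :=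
      hx.hasFDerivAt.snd.fderiv
    refine ⟨?_, ?_, ?_, ?_⟩ <;> simp [d1, d2, e1, e2]
  have k1 := key _ hsnd
  have k2 := key _ hfst
  have hcont1 : Integrable (fun x => d1 (fun x => ρ (f x)) x * d2 (fun x => (f x).2) x -
      d2 (fun x => ρ (f x)) x * d1 (fun x => (f x).2) x) := by
    refine Continuous.integrable_of_hasCompactSupport ?_ ?_
    · exact ((contDiff_d1 (m := 0) hR (by norm_num)).continuous.mul
        (contDiff_d2 (m := 1) hsnd (by norm_num)).continuous).sub
        ((contDiff_d2 (m := 0) hR (by norm_num)).continuous.mul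
        (contDiff_d1 (m := 1) hsnd (by norm_num)).continuous)
    · exact ((hRc.fderiv_apply ℝ (1, 0)).mul_right).sub ((hRc.fderiv_apply ℝ (0, 1)).mul_right)
  have hcont2 : Integrable (fun x => d1 (fun x => ρ (f x)) x * d2 (fun x => (f x).1) x -
      d2 (fun x => ρ (f x)) x * d1 (fun x => (f x).1) x) := by
    refine Continuous.integrable_of_hasCompactSupport ?_ ?_
    · exact ((contDiff_d1 (m := 0) hR (by norm_num)).continuous.mul
        (contDiff_d2 (m := 1) hfst (by norm_num)).continuous).sub
        ((contDiff_d2 (m := 0) hR (by norm_num)).continuous.mul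
        (contDiff_d1 (m := 1) hfst (by norm_num)).continuous)
    · exact ((hRc.fderiv_apply ℝ (1, 0)).mul_right).sub ((hRc.fderiv_apply ℝ (0, 1)).mul_right)
  have hsum : ∫ x, (e.1 * (d1 (fun x => ρ (f x)) x * d2 (fun x => (f x).2) x -
      d2 (fun x => ρ (f x)) x * d1 (fun x => (f x).2) x) -
      e.2 * (d1 (fun x => ρ (f x)) x * d2 (fun x => (f x).1) x -
      d2 (fun x => ρ (f x)) x * d1 (fun x => (f x).1) x)) = 0 := by
    rw [integral_sub (hcont1.const_mul _) (hcont2.const_mul _), integral_const_mul,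
      integral_const_mul, k1, k2]
    simp
  rw [← hsum]
  refine integral_congr_ae (Eventually.of_forall fun x => ?_)
  obtain ⟨p1, p2, p3, p4⟩ := hpd x
  simp only
  rw [det_eq, fderiv_apply_eq, hd1, hd2, p1, p2, p3, p4]
  simp only [smul_eq_mul]
  ring

theorem isCompact_preimage_of_proper {f : P → P} (hf : Continuous f)
    (hp : Tendsto f (cocompact P) (cocompact P)) {K : Set P} (hK : IsCompact K) :
    IsCompact (f ⁻¹' K) := by
  have hcl : IsClosed (f ⁻¹' K) := hK.isClosed.preimage hf
  have := hp hK.compl_mem_cocompact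
  obtain ⟨t, ht, hts⟩ := mem_cocompact.1 this
  refine ht.of_isClosed_subset hcl ?_
  intro x hx
  by_contra hxt
  exact hts hxt hx

theorem degree_const {f : P → P} (hf : ContDiff ℝ ∞ f) (hp : Tendsto f (cocompact P) (cocompact P))
    (hJ : ∀ x, 0 ≤ (fderiv ℝ f x).det) :
    ∃ d : ℕ, ∀ᵐ w : P, {x | f x = w}.encard = d := by
  have hf1 : ContDiff ℝ 1 f := hf.of_le (by norm_num)
  have hf2 : ContDiff ℝ 2 f := hf.of_le (by norm_cast)
  set N : P → ℝ≥0∞ := fun w => (({x | x ∈ (univ : Set P) ∧ f x = w}.encard : ℕ∞) : ℝ≥0∞) with hN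
  have hNm : AEMeasurable N := aemeasurable_encard hf1 MeasurableSet.univ
  have hdm : Measurable fun x => ENNReal.ofReal |(fderiv ℝ f x).det| :=
    ((continuous_det_fderiv hf1).abs.measurable).ennreal_ofReal
  set μ' : Measure P := volume.withDensity fun x => ENNReal.ofReal |(fderiv ℝ f x).det| with hμ'
  have hν : Measure.map f μ' = volume.withDensity N := by
    ext B hB
    rw [Measure.map_apply hf1.continuous.measurable hB,
      withDensity_apply _ (hf1.continuous.measurable hB), withDensity_apply _ hB]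
    have := area_formula hf1 MeasurableSet.univ (h := B.indicator 1)
      (measurable_one.indicator hB)
    rw [Measure.restrict_univ] at this
    rw [← lintegral_indicator hB, ← lintegral_indicator (hf1.continuous.measurable hB)]
    convert this using 1
    · refine lintegral_congr fun x => ?_
      by_cases hx : x ∈ f ⁻¹' B
      · rw [indicator_of_mem hx, indicator_of_mem (show f x ∈ B from hx)]
        simp
      · rw [indicator_of_notMem hx, indicator_of_notMem (show f x ∉ B from hx)]
        simp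
    · refine lintegral_congr fun x => ?_
      by_cases hx : x ∈ B
      · rw [indicator_of_mem hx, indicator_of_mem hx]
        simp [hN]
      · rw [indicator_of_notMem hx, indicator_of_notMem hx]
        simp
  -- finiteness on compact sets
  have hfin : ∀ K : Set P, IsCompact K → ∫⁻ w in K, N w < ⊤ := by
    intro K hK
    rw [← withDensity_apply _ hK.measurableSet, ← hν,
      Measure.map_apply hf1.continuous.measurable hK.measurableSet,
      withDensity_apply _ (hf1.continuous.measurable hK.measurableSet)]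
    have hK' := isCompact_preimage_of_proper hf1.continuous hp hK
    have hi : IntegrableOn (fun x => |(fderiv ℝ f x).det|) (f ⁻¹' K) :=
      (continuous_det_fderiv hf1).abs.continuousOn.integrableOn_compact hK'
    have := hi.2
    rw [HasFiniteIntegral] at this
    convert this using 1
    refine lintegral_congr fun x => ?_
    rw [← ofReal_norm, Real.norm_eq_abs, abs_abs]
  have hNfin : ∀ᵐ w : P, N w < ⊤ := by
    have h1 : ∀ n : ℕ, ∀ᵐ w ∂(volume.restrict (Metric.closedBall (0 : P) n)), N w < ⊤ := by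
      intro n
      exact ae_lt_top' hNm.restrict (hfin _ (isCompact_closedBall _ _)).ne
    have h2 : ∀ᵐ w : P, ∀ n : ℕ, w ∈ Metric.closedBall (0 : P) n → N w < ⊤ := by
      rw [ae_all_iff]
      intro n
      exact (ae_restrict_iff' measurableSet_closedBall).1 (h1 n)
    filter_upwards [h2] with w hw
    obtain ⟨n, hn⟩ := exists_nat_ge ‖w‖
    exact hw n (by simpa using hn)
  set Nr : P → ℝ := fun w => (N w).toReal with hNr
  have hloc : LocallyIntegrable Nr := by
    rw [locallyIntegrable_iff]
    intro K hK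
    refine ⟨hNm.ennreal_toReal.restrict.aestronglyMeasurable, ?_⟩
    rw [HasFiniteIntegral]
    refine lt_of_le_of_lt (lintegral_mono fun w => ?_) (hfin K hK)
    rw [hNr, ← ofReal_norm, Real.norm_of_nonneg ENNReal.toReal_nonneg]
    exact ENNReal.ofReal_toReal_le
  -- change of variables for real functions
  have hcv : ∀ ρ : P → ℝ, Continuous ρ → ∫ w, Nr w * ρ w = ∫ x, ρ (f x) * (fderiv ℝ f x).det := by
    intro ρ hρ
    have e1 := integral_withDensity_eq_integral_toReal_smul₀ hNm hNfin ρ
    rw [← hν] at e1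
    have e2 := integral_map (μ := μ') (φ := f) hf1.continuous.aemeasurable (f := ρ)
      hρ.aestronglyMeasurable
    have e3 := integral_withDensity_eq_integral_toReal_smul (μ := (volume : Measure P)) hdm
      (Eventually.of_forall fun x => ENNReal.ofReal_lt_top) (fun x => ρ (f x))
    rw [← hμ'] at e3
    rw [e2, e3] at e1
    simp only [smul_eq_mul] at e1
    rw [← e1]
    refine integral_congr_ae (Eventually.of_forall fun x => ?_)
    simp only
    rw [ENNReal.toReal_ofReal (abs_nonneg _), abs_of_nonneg (hJ x), mul_comm]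
  -- the convolution with a test function is constant
  have hconst : ∀ ρ : P → ℝ, ContDiff ℝ ∞ ρ → HasCompactSupport ρ → ∀ a : P,
      ∫ w, Nr w * ρ (a - w) = ∫ w, Nr w * ρ (0 - w) := by
    intro ρ hρ hρc a
    have hρ1 : ContDiff ℝ 1 ρ := hρ.of_le (by norm_num)
    have hd := fun x₀ => hρc.hasFDerivAt_convolution_right (μ := (volume : Measure P))
      (ContinuousLinearMap.lsmul ℝ ℝ) hloc hρ1 x₀
    have hz : ∀ x₀, fderiv ℝ (convolution Nr ρ (ContinuousLinearMap.lsmul ℝ ℝ) volume) x₀ = 0 := by
      intro x₀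
      rw [(hd x₀).fderiv]
      refine ContinuousLinearMap.ext fun e => ?_
      rw [convolution_precompR_apply _ hloc (hρc.fderiv ℝ) (hρ1.continuous_fderiv (by norm_num))]
      rw [convolution_def]
      simp only [ContinuousLinearMap.lsmul_apply, smul_eq_mul, _root_.zero_apply]
      rw [hcv (fun t => fderiv ℝ ρ (x₀ - t) e)
        (((hρ1.continuous_fderiv (by norm_num)).comp (by fun_prop)).clm_apply continuous_const)]
      have hσ : ContDiff ℝ 1 (fun t => ρ (x₀ - t)) := hρ1.comp (contDiff_const.sub contDiff_id)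
      have hσc : HasCompactSupport (fun t => ρ (x₀ - t)) :=
        hρc.comp_homeomorph (Homeomorph.subLeft x₀)
      have h0 := integral_deriv_comp_det hf2 hp hσ hσc e
      have hch : ∀ t, fderiv ℝ (fun t => ρ (x₀ - t)) t e = - fderiv ℝ ρ (x₀ - t) e := by
        intro t
        have h1 : HasFDerivAt (fun t : P => x₀ - t) (-ContinuousLinearMap.id ℝ P) t :=
          (hasFDerivAt_id t).const_sub x₀
        have h2 := ((hρ1.differentiable (by norm_num)) (x₀ - t)).hasFDerivAt.comp t h1
        have h3 : fderiv ℝ (fun t => ρ (x₀ - t)) t = _ := h2.fderiv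
        rw [h3]
        simp
      have e4 : ∫ x, fderiv ℝ ρ (x₀ - f x) e * (fderiv ℝ f x).det =
          - ∫ x, fderiv ℝ (fun t => ρ (x₀ - t)) (f x) e * (fderiv ℝ f x).det := by
        rw [← integral_neg]
        refine integral_congr_ae (Eventually.of_forall fun x => ?_)
        simp only
        rw [hch]; ring
      rw [e4, h0, neg_zero]
    have hdiff : Differentiable ℝ (convolution Nr ρ (ContinuousLinearMap.lsmul ℝ ℝ) volume) :=
      fun x₀ => (hd x₀).differentiableAt
    have := is_const_of_fderiv_eq_zero hdiff hz a 0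
    simpa [convolution_def] using this
  -- translation invariance almost everywhere
  have hinv : ∀ a : P, ∀ᵐ w : P, Nr w = Nr (a + w) := by
    intro a
    have hloc' : LocallyIntegrable (fun w => Nr (a + w)) := by
      rw [locallyIntegrable_iff]
      intro K hK
      have hK' : IsCompact ((fun w => a + w) '' K) := hK.image (by fun_prop)
      have h1 := (locallyIntegrable_iff.1 hloc) _ hK'
      have := (measurePreserving_add_left (volume : Measure P) a).integrableOn_image
        (measurableEmbedding_addLeft a) (f := Nr) (s := K)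
      exact this.1 h1
    apply ae_eq_of_integral_contDiff_smul_eq hloc hloc'
    intro g hg hgc
    simp only [smul_eq_mul]
    have hr : ContDiff ℝ ∞ (fun y => g (-y)) := hg.comp contDiff_neg
    have hrc : HasCompactSupport (fun y => g (-y)) := hgc.comp_homeomorph (Homeomorph.neg P)
    have h1 := hconst _ hr hrc a
    simp only [zero_sub, neg_neg, neg_sub] at h1
    have e1 : ∫ w, g w * Nr (a + w) = ∫ w, g (w - a) * Nr w := by
      rw [← integral_add_left_eq_self (μ := (volume : Measure P)) (fun w => g (w - a) * Nr w) a]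
      refine integral_congr_ae (Eventually.of_forall fun x => ?_)
      simp
    rw [e1]
    calc ∫ w, g w * Nr w = ∫ w, Nr w * g w := by simp_rw [mul_comm]
      _ = ∫ w, Nr w * g (w - a) := h1.symm
      _ = _ := by simp_rw [mul_comm]
  have hinv' : ∀ a : P, ∀ᵐ w : P, N (a + w) = N w := by
    intro a
    have h1 : ∀ᵐ w : P, N (a + w) < ⊤ :=
      (measurePreserving_add_left (volume : Measure P) a).quasiMeasurePreserving.ae hNfin
    filter_upwards [hinv a, hNfin, h1] with w h2 h3 h4
    exact ((ENNReal.toReal_eq_toReal_iff' h3.ne h4.ne).1 h2).symm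
  -- the measure is translation invariant
  set ν : Measure P := volume.withDensity N with hνd
  have inst1 : IsFiniteMeasureOnCompacts ν := ⟨fun K hK => by
    rw [hνd, withDensity_apply _ hK.measurableSet]; exact hfin K hK⟩
  have inst2 : ν.IsAddLeftInvariant := ⟨fun a => by
    ext B hB
    rw [Measure.map_apply (by fun_prop) hB, hνd, withDensity_apply _ hB,
      withDensity_apply _ ((measurable_const_add a) hB)]
    have h1 : ∫⁻ w in (fun w => a + w) ⁻¹' B, N w = ∫⁻ w in (fun w => a + w) ⁻¹' B, N (a + w) := by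
      apply lintegral_congr_ae
      filter_upwards [ae_restrict_of_ae (hinv' a)] with w hw
      exact hw.symm
    rw [h1]
    rw [← lintegral_indicator ((measurable_const_add a) hB), ← lintegral_indicator hB]
    have h2 : ∀ w, ((fun w => a + w) ⁻¹' B).indicator (fun w => N (a + w)) w =
        B.indicator N (a + w) := fun w => rfl
    simp_rw [h2]
    exact lintegral_add_left_eq_self (μ := (volume : Measure P)) (B.indicator N) a⟩
  have hsm := Measure.isAddLeftInvariant_eq_smul ν (volume : Measure P)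
  set c := Measure.addHaarScalarFactor ν (volume : Measure P) with hc
  have hNc : ∀ᵐ w : P, N w = c := by
    have e : ν = volume.withDensity (fun _ : P => (c : ℝ≥0∞)) := by
      rw [withDensity_const]
      exact hsm
    rw [hνd] at e
    exact (withDensity_eq_iff_of_sigmaFinite hNm aemeasurable_const).1 e
  obtain ⟨w0, hw0⟩ := hNc.exists
  have hw0' : (({x | x ∈ (univ : Set P) ∧ f x = w0}.encard : ℕ∞) : ℝ≥0∞) ≠ ⊤ := by
    have : N w0 ≠ ⊤ := by rw [hw0]; exact ENNReal.coe_ne_top
    exact this
  have hfin0 : {x | x ∈ (univ : Set P) ∧ f x = w0}.encard ≠ ⊤ := by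
    intro h
    rw [h] at hw0'
    exact hw0' rfl
  obtain ⟨d, hd⟩ := ENat.ne_top_iff_exists.1 hfin0
  refine ⟨d, ?_⟩
  filter_upwards [hNc] with w hw
  have h1 : N w = N w0 := by rw [hw, hw0]
  have h2 : {x | x ∈ (univ : Set P) ∧ f x = w}.encard = {x | x ∈ (univ : Set P) ∧ f x = w0}.encard :=
    ENat.toENNReal_inj.1 h1
  rw [← hd] at h2
  rw [← h2]
  congr 1
  ext x
  simp

end Pool.Agent.EU
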