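import Pool.Agent.EU.Defs

/-!
Module B: maximum principles and barrier.
-/

set_option autoImplicit false
open scoped ContDiff Topology ENNReal
open Real Set MeasureTheory Filter

namespace Pool.Agent.EU

/-- necessary conditions at a local maximum -/
theorem second_test {g g' : ℝ → ℝ} {x c : ℝ} (hmax : IsLocalMax g x)
    (h1 : ∀ᶠ t in 𝓝 x, HasDerivAt g (g' t) t) (h2 : HasDerivAt g' c x) : g' x = 0 ∧ c ≤ 0 := by
  have hx : HasDerivAt g (g' x) x := h1.self_of_nhds
  refine ⟨hmax.hasDerivAt_eq_zero hx, ?_⟩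
  by_contra hc
  have hc' : 0 < c := not_le.1 hc
  have he : deriv g =ᶠ[𝓝 x] g' := h1.mono fun t ht => ht.deriv
  have hd : deriv (deriv g) x = c := by
    rw [he.deriv_eq]
    exact h2.deriv
  have hmin : IsLocalMin g x :=
    isLocalMin_of_deriv_deriv_pos (by rw [hd]; exact hc')
      (by rw [hx.deriv]; exact hmax.hasDerivAt_eq_zero hx) hx.continuousAt
  have hconst : g =ᶠ[𝓝 x] fun _ => g x := by
    filter_upwards [hmin, hmax] with t ht1 ht2
    exact le_antisymm ht2 ht1
  have hd0 : deriv g =ᶠ[𝓝 x] fun _ => 0 := by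
    filter_upwards [hconst.eventuallyEq_nhds] with t ht
    rw [ht.deriv_eq]
    simp
  have : deriv (deriv g) x = 0 := by
    rw [hd0.deriv_eq]
    simp
  rw [hd] at this
  exact absurd this (ne_of_gt hc')

/-- restriction to a horizontal line -/
theorem hline {w : P → ℝ} {y : P} (h : ContDiffAt ℝ 2 w y) :
    (∀ᶠ t in 𝓝 y.1, HasDerivAt (fun s => w (s, y.2)) (d1 w (t, y.2)) t) ∧
      HasDerivAt (fun s => d1 w (s, y.2)) (d1 (d1 w) y) y.1 := by
  constructor
  · have h1 : ∀ᶠ x in 𝓝 y, DifferentiableAt ℝ w x := by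
      have := h.eventually (by simp)
      exact this.mono fun x hx => hx.differentiableAt (by simp)
    have hc : Tendsto (fun t : ℝ => ((t, y.2) : P)) (𝓝 y.1) (𝓝 y) := by
      have : Continuous fun t : ℝ => ((t, y.2) : P) := by fun_prop
      exact this.tendsto y.1
    exact (hc.eventually h1).mono fun t ht => hasDerivAt_d1 ht
  · have h2 : DifferentiableAt ℝ (d1 w) y := by
      have h3 : ContDiffAt ℝ 1 (fderiv ℝ w) y := h.fderiv_right (by norm_num)
      exact ((h3.clm_apply contDiffAt_const).differentiableAt (by simp))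
    exact hasDerivAt_d1 h2

/-- restriction to a vertical line -/
theorem vline {w : P → ℝ} {y : P} (h : ContDiffAt ℝ 2 w y) :
    (∀ᶠ t in 𝓝 y.2, HasDerivAt (fun s => w (y.1, s)) (d2 w (y.1, t)) t) ∧
      HasDerivAt (fun s => d2 w (y.1, s)) (d2 (d2 w) y) y.2 := by
  constructor
  · have h1 : ∀ᶠ x in 𝓝 y, DifferentiableAt ℝ w x := by
      have := h.eventually (by simp)
      exact this.mono fun x hx => hx.differentiableAt (by simp)
    have hc : Tendsto (fun t : ℝ => ((y.1, t) : P)) (𝓝 y.2) (𝓝 y) := by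
      have : Continuous fun t : ℝ => ((y.1, t) : P) := by fun_prop
      exact this.tendsto y.2
    exact (hc.eventually h1).mono fun t ht => hasDerivAt_d2 ht
  · have h2 : DifferentiableAt ℝ (d2 w) y := by
      have h3 : ContDiffAt ℝ 1 (fderiv ℝ w) y := h.fderiv_right (by norm_num)
      exact ((h3.clm_apply contDiffAt_const).differentiableAt (by simp))
    exact hasDerivAt_d2 h2

theorem max_principle {Ω : Set P} (hΩ : IsOpen Ω) (hb : Bornology.IsBounded Ω)
    {w a b c d : P → ℝ} (p : P) (hw : ContinuousOn w (closure Ω))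
    (hw2 : ∀ x ∈ Ω, x ≠ p → ContDiffAt ℝ 2 w x) (hwp : p ∈ Ω → ContDiffAt ℝ 1 w p)
    (ha : Continuous a) (_hb' : Continuous b) (hc : Continuous c) (_hd : Continuous d)
    (ha0 : ∀ x, 0 < a x) (hb0 : ∀ x, 0 < b x)
    (h : ∀ x ∈ Ω, x ≠ p → 0 ≤ a x * d1 (d1 w) x + b x * d2 (d2 w) x + c x * d1 w x + d x * d2 w x)
    {M : ℝ} (hM : ∀ x ∈ frontier Ω, w x ≤ M) : ∀ x ∈ closure Ω, w x ≤ M := by
  intro x0 hx0
  by_contra hlt
  push Not at hlt
  have hK : IsCompact (closure Ω) := hb.isCompact_closure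
  have hne : (closure Ω).Nonempty := ⟨x0, hx0⟩
  -- bounds of the coefficients
  obtain ⟨xa, -, hxa⟩ := hK.exists_isMinOn hne ha.continuousOn
  obtain ⟨xc, -, hxc⟩ := hK.exists_isMaxOn hne (f := fun x => |c x|) (by fun_prop)
  obtain ⟨xr, -, hxr⟩ := hK.exists_isMaxOn hne (f := fun x => |x.1|) (by fun_prop)
  set a0 := a xa with ha0'
  set C0 := |c xc| with hC0
  set R := |xr.1| with hR
  have ha0p : 0 < a0 := ha0 xa
  have hC0' : 0 ≤ C0 := abs_nonneg _
  have hR0 : 0 ≤ R := abs_nonneg _
  set lam := C0 / a0 + 1 with hlam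
  have hlam0 : 0 < lam := by positivity
  have hlam1 : a0 * lam - C0 = a0 := by rw [hlam]; field_simp; ring
  have hcoef : ∀ x ∈ closure Ω, lam * a0 ≤ a x * lam ^ 2 + c x * lam := by
    intro x hx
    have h1 : a0 ≤ a x := hxa hx
    have h2 : |c x| ≤ C0 := hxc hx
    have h3 : -C0 ≤ c x := by have := neg_abs_le (c x); linarith
    have h4 : a0 * lam - C0 ≤ a x * lam + c x := by nlinarith
    rw [hlam1] at h4
    nlinarith
  -- bounds of the exponential
  have hexp : ∀ x ∈ closure Ω, rexp (-(lam * R)) ≤ rexp (lam * x.1) ∧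
      rexp (lam * x.1) ≤ rexp (lam * R) := by
    intro x hx
    have h1 : |x.1| ≤ R := hxr hx
    have h2 := abs_le.1 h1
    constructor <;> apply Real.exp_le_exp.2 <;> nlinarith
  set gap := w x0 - M with hgap
  have hgap0 : 0 < gap := by rw [hgap]; linarith
  set eps := gap / (4 * rexp (lam * R)) with heps
  have heps0 : 0 < eps := by positivity
  have heps1 : eps * rexp (lam * R) = gap / 4 := by
    rw [heps]; field_simp
  -- the linear perturbation
  set kap := eps * (lam * a0) * rexp (-(lam * R)) with hkap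
  have hkap0 : 0 < kap := by positivity
  set eta := min (gap / (8 * (R + 1))) (kap / (2 * (C0 + 1))) with heta
  have heta0 : 0 < eta := by
    rw [heta]; positivity
  have heta1 : eta * R ≤ gap / 8 := by
    have h1 : eta ≤ gap / (8 * (R + 1)) := min_le_left _ _
    calc eta * R ≤ gap / (8 * (R + 1)) * (R + 1) := by
          apply mul_le_mul h1 (by linarith) hR0 (by positivity)
      _ = gap / 8 := by field_simp
  have heta2 : C0 * eta < kap := by
    have h1 : eta ≤ kap / (2 * (C0 + 1)) := min_le_right _ _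
    calc C0 * eta ≤ (C0 + 1) * (kap / (2 * (C0 + 1))) := by
          apply mul_le_mul (by linarith) h1 heta0.le (by positivity)
      _ = kap / 2 := by field_simp
      _ < kap := by linarith
  obtain ⟨l, hl0, hleta, hl⟩ : ∃ l : ℝ, 0 ≤ l ∧ l ≤ eta ∧
      d1 w p + eps * (lam * rexp (lam * p.1)) + l ≠ 0 := by
    by_cases h0 : d1 w p + eps * (lam * rexp (lam * p.1)) = 0
    · exact ⟨eta, heta0.le, le_rfl, by rw [h0, zero_add]; exact heta0.ne'⟩
    · exact ⟨0, le_rfl, heta0.le, by rw [add_zero]; exact h0⟩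
  -- the perturbed function
  set W : P → ℝ := fun x => w x + eps * rexp (lam * x.1) + l * x.1 with hW
  have hWc : ContinuousOn W (closure Ω) := by
    refine (hw.add ?_).add ?_
    · exact (by fun_prop : Continuous fun x : P => eps * rexp (lam * x.1)).continuousOn
    · exact (by fun_prop : Continuous fun x : P => l * x.1).continuousOn
  obtain ⟨y, hyK, hymax⟩ := hK.exists_isMaxOn hne hWc
  have hlx : ∀ x ∈ closure Ω, |l * x.1| ≤ gap / 8 := by
    intro x hx
    rw [abs_mul, abs_of_nonneg hl0]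
    have h1 : |x.1| ≤ R := hxr hx
    calc l * |x.1| ≤ eta * R := mul_le_mul hleta h1 (abs_nonneg _) heta0.le
      _ ≤ gap / 8 := heta1
  -- `y` is interior
  have hyΩ : y ∈ Ω := by
    by_contra hy
    have hyf : y ∈ frontier Ω := by
      rw [frontier, hΩ.interior_eq]
      exact ⟨hyK, hy⟩
    have h1 : W x0 ≤ W y := hymax hx0
    have h2 := hM y hyf
    have h3 := (hexp y hyK).2
    have h4 := abs_le.1 (hlx y hyK)
    have h5 := abs_le.1 (hlx x0 hx0)
    have h6 : 0 < eps * rexp (lam * x0.1) := by positivity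
    have h7 : eps * rexp (lam * y.1) ≤ gap / 4 := by
      rw [← heps1]; exact mul_le_mul_of_nonneg_left h3 heps0.le
    simp only [hW] at h1
    have : w x0 - M = gap := rfl
    linarith
  have hloc : IsLocalMax W y := by
    have : Ω ∈ 𝓝 y := hΩ.mem_nhds hyΩ
    filter_upwards [this] with x hx
    exact hymax (subset_closure hx)
  -- restrictions to lines
  have hloc1 : IsLocalMax (fun t => W (t, y.2)) y.1 := by
    have hct : Tendsto (fun t : ℝ => ((t, y.2) : P)) (𝓝 y.1) (𝓝 y) := by
      have : Continuous fun t : ℝ => ((t, y.2) : P) := by fun_prop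
      exact this.tendsto y.1
    exact hct.eventually hloc
  have hloc2 : IsLocalMax (fun t => W (y.1, t)) y.2 := by
    have hct : Tendsto (fun t : ℝ => ((y.1, t) : P)) (𝓝 y.2) (𝓝 y) := by
      have : Continuous fun t : ℝ => ((y.1, t) : P) := by fun_prop
      exact this.tendsto y.2
    exact hct.eventually hloc
  have hexpd : ∀ t : ℝ, HasDerivAt (fun s => eps * rexp (lam * s)) (eps * (lam * rexp (lam * t))) t := by
    intro t
    have := (((hasDerivAt_id t).const_mul lam).exp).const_mul eps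
    refine this.congr_deriv ?_
    simp only [id_eq]; ring
  have hlind : ∀ t : ℝ, HasDerivAt (fun s => l * s) l t := by
    intro t
    simpa using (hasDerivAt_id t).const_mul l
  by_cases hyp : y = p
  · -- at the exceptional point
    subst hyp
    have hd1 : DifferentiableAt ℝ w y := (hwp hyΩ).differentiableAt (by simp)
    have h1 : HasDerivAt (fun t => W (t, y.2)) (d1 w y + eps * (lam * rexp (lam * y.1)) + l) y.1 :=
      ((hasDerivAt_d1 hd1).add (hexpd y.1)).add (hlind y.1)
    exact hl (hloc1.hasDerivAt_eq_zero h1)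
  · have hC2 := hw2 y hyΩ hyp
    obtain ⟨q1, q2⟩ := hline hC2
    obtain ⟨r1, r2⟩ := vline hC2
    have t1 := second_test (g' := fun t => d1 w (t, y.2) + eps * (lam * rexp (lam * t)) + l)
      (c := d1 (d1 w) y + eps * (lam * (lam * rexp (lam * y.1)))) hloc1
      (q1.mono fun t ht => (ht.add (hexpd t)).add (hlind t)) (by
        have h2 : HasDerivAt (fun t => eps * (lam * rexp (lam * t)))
            (eps * (lam * (lam * rexp (lam * y.1)))) y.1 := by
          have := ((((hasDerivAt_id y.1).const_mul lam).exp).const_mul lam).const_mul eps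
          refine this.congr_deriv ?_
          simp only [id_eq]; ring
        simpa using (q2.add h2).add_const l)
    have t2 := second_test (g := fun t => W (y.1, t)) (g' := fun t => d2 w (y.1, t))
      (c := d2 (d2 w) y) hloc2
      (r1.mono fun t ht => by
        have := (ht.add_const (eps * rexp (lam * y.1))).add_const (l * y.1)
        simpa [hW] using this) r2
    obtain ⟨e1, f1⟩ := t1
    obtain ⟨e2, f2⟩ := t2
    simp only [Prod.mk.eta] at e1 e2
    have hL := h y hyΩ hyp
    rw [e2] at hL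
    have e1' : d1 w y = -(eps * (lam * rexp (lam * y.1))) - l := by linarith
    have g1 : b y * d2 (d2 w) y ≤ 0 := mul_nonpos_of_nonneg_of_nonpos (hb0 y).le f2
    have g2 : a y * d1 (d1 w) y ≤ -(a y * (eps * (lam * (lam * rexp (lam * y.1))))) := by
      have : d1 (d1 w) y ≤ -(eps * (lam * (lam * rexp (lam * y.1)))) := by linarith
      have := mul_le_mul_of_nonneg_left this (ha0 y).le
      linarith
    have g3 : c y * d1 w y = -(c y * (eps * (lam * rexp (lam * y.1)))) - c y * l := by
      rw [e1']; ring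
    have g4 : -(c y * l) < kap := by
      have h1 : |c y| ≤ C0 := hxc hyK
      calc -(c y * l) ≤ |c y * l| := neg_le_abs _
        _ = |c y| * l := by rw [abs_mul, abs_of_nonneg hl0]
        _ ≤ C0 * eta := mul_le_mul h1 hleta hl0 hC0'
        _ < kap := heta2
    have g5 : kap ≤ eps * rexp (lam * y.1) * (a y * lam ^ 2 + c y * lam) := by
      have h1 := hcoef y hyK
      have h2 := (hexp y hyK).1
      calc kap = eps * (rexp (-(lam * R)) * (lam * a0)) := by rw [hkap]; ring
        _ ≤ eps * (rexp (lam * y.1) * (a y * lam ^ 2 + c y * lam)) := by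
            apply mul_le_mul_of_nonneg_left _ heps0.le
            exact mul_le_mul h2 h1 (by positivity) (by positivity)
        _ = _ := by ring
    have g6 : eps * rexp (lam * y.1) * (a y * lam ^ 2 + c y * lam) =
        a y * (eps * (lam * (lam * rexp (lam * y.1)))) + c y * (eps * (lam * rexp (lam * y.1))) := by
      ring
    linarith


/-! ### the operator -/

theorem d1_eq {f : P → ℝ} {x : P} (hf : DifferentiableAt ℝ f x) {c : ℝ}
    (h : HasDerivAt (fun s => f (s, x.2)) c x.1) : d1 f x = c := (hasDerivAt_d1 hf).unique h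

theorem d2_eq {f : P → ℝ} {x : P} (hf : DifferentiableAt ℝ f x) {c : ℝ}
    (h : HasDerivAt (fun s => f (x.1, s)) c x.2) : d2 f x = c := (hasDerivAt_d2 hf).unique h

section sol
variable {A v : P → ℝ}

theorem diffA (hs : Sol A v) (x : P) : DifferentiableAt ℝ A x :=
  (hs.cA.differentiable (by simp)).differentiableAt

theorem diffv (hs : Sol A v) (x : P) : DifferentiableAt ℝ v x :=
  (hs.cv.differentiable (by simp)).differentiableAt

theorem diffA1 (hs : Sol A v) (x : P) : DifferentiableAt ℝ (d1 A) x :=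
  ((smooth_d1 hs.cA).differentiable (by simp)).differentiableAt

theorem diffA2 (hs : Sol A v) (x : P) : DifferentiableAt ℝ (d2 A) x :=
  ((smooth_d2 hs.cA).differentiable (by simp)).differentiableAt

theorem diffv1 (hs : Sol A v) (x : P) : DifferentiableAt ℝ (d1 v) x :=
  ((smooth_d1 hs.cv).differentiable (by simp)).differentiableAt

theorem diffv2 (hs : Sol A v) (x : P) : DifferentiableAt ℝ (d2 v) x :=
  ((smooth_d2 hs.cv).differentiable (by simp)).differentiableAt

/-- second derivatives of `v` -/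
theorem v_second (hs : Sol A v) (x : P) :
    d1 (d1 v) x = rexp (-(A x)) * (d1 A x * d2 A x - d1 (d2 A) x) ∧
    d2 (d2 v) x = rexp (A x) * (d1 A x * d2 A x + d2 (d1 A) x) ∧
    d2 (d1 v) x = rexp (-(A x)) * (d2 A x * d2 A x - d2 (d2 A) x) ∧
    d1 (d2 v) x = rexp (A x) * (d1 A x * d1 A x + d1 (d1 A) x) := by
  have e1 : d1 v = fun x => -(rexp (-(A x)) * d2 A x) := funext hs.h1
  have e2 : d2 v = fun x => rexp (A x) * d1 A x := funext hs.h2
  refine ⟨?_, ?_, ?_, ?_⟩
  · refine d1_eq (diffv1 hs x) ?_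
    rw [e1]
    have := ((((hasDerivAt_d1 (diffA hs x)).neg).exp).mul (hasDerivAt_d1 (diffA2 hs x))).neg
    refine this.congr_deriv ?_
    simp only [Pi.neg_apply, Prod.mk.eta]
    ring
  · refine d2_eq (diffv2 hs x) ?_
    rw [e2]
    have := (((hasDerivAt_d2 (diffA hs x))).exp).mul (hasDerivAt_d2 (diffA1 hs x))
    refine this.congr_deriv ?_
    ring
  · refine d2_eq (diffv1 hs x) ?_
    rw [e1]
    have := ((((hasDerivAt_d2 (diffA hs x)).neg).exp).mul (hasDerivAt_d2 (diffA2 hs x))).neg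
    refine this.congr_deriv ?_
    simp only [Pi.neg_apply, Prod.mk.eta]
    ring
  · refine d1_eq (diffv2 hs x) ?_
    rw [e2]
    have := (((hasDerivAt_d1 (diffA hs x))).exp).mul (hasDerivAt_d1 (diffA1 hs x))
    refine this.congr_deriv ?_
    ring

theorem exp_mul_neg (t : ℝ) : rexp t * rexp (-t) = 1 := by
  rw [← Real.exp_add]; simp

/-- the equation for `A` -/
theorem eqA (hs : Sol A v) (x : P) :
    rexp (A x) * (d1 (d1 A) x + d1 A x * d1 A x) +
      rexp (-(A x)) * (d2 (d2 A) x - d2 A x * d2 A x) = 0 := by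
  obtain ⟨-, -, h3, h4⟩ := v_second hs x
  have h := d1_d2_comm (hs.cv.of_le (by norm_cast)) x
  rw [h3, h4] at h
  linarith

/-- the equation for `v` -/
theorem eqv (hs : Sol A v) (x : P) :
    rexp (A x) * d1 (d1 v) x + rexp (-(A x)) * d2 (d2 v) x +
      rexp (A x) * d1 A x * d1 v x + -(rexp (-(A x)) * d2 A x) * d2 v x = 0 := by
  obtain ⟨h1, h2, -, -⟩ := v_second hs x
  have h := d1_d2_comm (hs.cA.of_le (by norm_cast)) x
  rw [h1, h2, hs.h1, hs.h2, h]
  have he := exp_mul_neg (A x)
  linear_combination (2 * d1 A x * d2 A x - d1 A x * d2 A x - d1 A x * d2 A x +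
    0 * d2 (d1 A) x) * he

theorem cont_a (hs : Sol A v) : Continuous fun x => rexp (A x) :=
  Real.continuous_exp.comp hs.cA.continuous

theorem cont_b (hs : Sol A v) : Continuous fun x => rexp (-(A x)) :=
  Real.continuous_exp.comp hs.cA.continuous.neg

theorem cont_c (hs : Sol A v) : Continuous fun x => rexp (A x) * d1 A x :=
  (cont_a hs).mul (smooth_d1 hs.cA).continuous

theorem cont_d (hs : Sol A v) : Continuous fun x => -(rexp (-(A x)) * d2 A x) :=
  ((cont_b hs).mul (smooth_d2 hs.cA).continuous).neg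

theorem max_A (hs : Sol A v) {Ω : Set P} (hΩ : IsOpen Ω)
    (hb : Bornology.IsBounded Ω) {M : ℝ} (hM : ∀ x ∈ frontier Ω, A x ≤ M) :
    ∀ x ∈ closure Ω, A x ≤ M := by
  have h2 : ∀ x, ContDiffAt ℝ 2 A x := fun x => (hs.cA.of_le (by norm_cast)).contDiffAt
  refine max_principle hΩ hb (a := fun x => rexp (A x)) (b := fun x => rexp (-(A x)))
    (c := fun x => rexp (A x) * d1 A x) (d := fun x => -(rexp (-(A x)) * d2 A x)) 0
    hs.cA.continuous.continuousOn (fun x _ _ => h2 x) (fun _ => (h2 0).of_le (by norm_num))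
    (cont_a hs) (cont_b hs) (cont_c hs) (cont_d hs) (fun x => Real.exp_pos _)
    (fun x => Real.exp_pos _) (fun x _ _ => ?_) hM
  have := eqA hs x
  nlinarith

theorem d1_neg' (f : P → ℝ) (x : P) : d1 (fun y => -(f y)) x = -(d1 f x) := by
  unfold d1
  rw [fderiv_fun_neg]; rfl

theorem d2_neg' (f : P → ℝ) (x : P) : d2 (fun y => -(f y)) x = -(d2 f x) := by
  unfold d2
  rw [fderiv_fun_neg]; rfl

theorem min_A (hs : Sol A v) {Ω : Set P} (hΩ : IsOpen Ω)
    (hb : Bornology.IsBounded Ω) {M : ℝ} (hM : ∀ x ∈ frontier Ω, M ≤ A x) :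
    ∀ x ∈ closure Ω, M ≤ A x := by
  have h2 : ∀ x, ContDiffAt ℝ 2 (fun y => -(A y)) x :=
    fun x => (hs.cA.of_le (by norm_cast)).neg.contDiffAt
  have key := max_principle hΩ hb (a := fun x => rexp (A x)) (b := fun x => rexp (-(A x)))
    (c := fun x => rexp (A x) * d1 A x) (d := fun x => -(rexp (-(A x)) * d2 A x))
    (w := fun y => -(A y)) 0
    hs.cA.continuous.neg.continuousOn (fun x _ _ => h2 x) (fun _ => (h2 0).of_le (by norm_num))
    (cont_a hs) (cont_b hs) (cont_c hs) (cont_d hs) (fun x => Real.exp_pos _)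
    (fun x => Real.exp_pos _) (fun x _ _ => by
      have := eqA hs x
      have e1 : d1 (fun y => -(A y)) = fun y => -(d1 A y) := funext (d1_neg' A)
      have e2 : d2 (fun y => -(A y)) = fun y => -(d2 A y) := funext (d2_neg' A)
      rw [e1, e2, d1_neg', d2_neg']
      nlinarith) (M := -M) (fun x hx => by have := hM x hx; linarith)
  intro x hx
  have := key x hx
  linarith

/-! ### modulus -/

/-- the squared distance to a value -/
noncomputable def sq (A v : P → ℝ) (z : ℂ) (x : P) : ℝ := (A x - z.re) ^ 2 + (v x - z.im) ^ 2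

theorem sq_eq (z : ℂ) (x : P) : sq A v z x = ‖cpair A v x - z‖ ^ 2 := by
  rw [← Complex.normSq_eq_norm_sq, Complex.normSq_apply]
  simp only [sq, cpair, Complex.sub_re, Complex.sub_im]
  ring

theorem smooth_sq (hs : Sol A v) (z : ℂ) : ContDiff ℝ ∞ (sq A v z) :=
  ((hs.cA.sub contDiff_const).pow 2).add ((hs.cv.sub contDiff_const).pow 2)

theorem d1_sq (hs : Sol A v) (z : ℂ) (x : P) :
    d1 (sq A v z) x = 2 * (A x - z.re) * d1 A x + 2 * (v x - z.im) * d1 v x := by
  refine d1_eq ((smooth_sq hs z).differentiable (by simp)).differentiableAt ?_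
  have := (((hasDerivAt_d1 (diffA hs x)).sub_const z.re).pow 2).add
    (((hasDerivAt_d1 (diffv hs x)).sub_const z.im).pow 2)
  refine this.congr_deriv ?_
  simp

theorem d2_sq (hs : Sol A v) (z : ℂ) (x : P) :
    d2 (sq A v z) x = 2 * (A x - z.re) * d2 A x + 2 * (v x - z.im) * d2 v x := by
  refine d2_eq ((smooth_sq hs z).differentiable (by simp)).differentiableAt ?_
  have := (((hasDerivAt_d2 (diffA hs x)).sub_const z.re).pow 2).add
    (((hasDerivAt_d2 (diffv hs x)).sub_const z.im).pow 2)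
  refine this.congr_deriv ?_
  simp

theorem d11_sq (hs : Sol A v) (z : ℂ) (x : P) :
    d1 (d1 (sq A v z)) x = 2 * (d1 A x) ^ 2 + 2 * (A x - z.re) * d1 (d1 A) x +
      (2 * (d1 v x) ^ 2 + 2 * (v x - z.im) * d1 (d1 v) x) := by
  refine d1_eq ((smooth_d1 (smooth_sq hs z)).differentiable (by simp)).differentiableAt ?_
  have e : d1 (sq A v z) = fun x => 2 * (A x - z.re) * d1 A x + 2 * (v x - z.im) * d1 v x :=
    funext (d1_sq hs z)
  rw [e]
  have := ((((hasDerivAt_d1 (diffA hs x)).sub_const z.re).const_mul 2).mul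
    (hasDerivAt_d1 (diffA1 hs x))).add
    ((((hasDerivAt_d1 (diffv hs x)).sub_const z.im).const_mul 2).mul
    (hasDerivAt_d1 (diffv1 hs x)))
  refine this.congr_deriv ?_
  ring

theorem d22_sq (hs : Sol A v) (z : ℂ) (x : P) :
    d2 (d2 (sq A v z)) x = 2 * (d2 A x) ^ 2 + 2 * (A x - z.re) * d2 (d2 A) x +
      (2 * (d2 v x) ^ 2 + 2 * (v x - z.im) * d2 (d2 v) x) := by
  refine d2_eq ((smooth_d2 (smooth_sq hs z)).differentiable (by simp)).differentiableAt ?_
  have e : d2 (sq A v z) = fun x => 2 * (A x - z.re) * d2 A x + 2 * (v x - z.im) * d2 v x :=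
    funext (d2_sq hs z)
  rw [e]
  have := ((((hasDerivAt_d2 (diffA hs x)).sub_const z.re).const_mul 2).mul
    (hasDerivAt_d2 (diffA2 hs x))).add
    ((((hasDerivAt_d2 (diffv hs x)).sub_const z.im).const_mul 2).mul
    (hasDerivAt_d2 (diffv2 hs x)))
  refine this.congr_deriv ?_
  ring

theorem jac_nonneg (x : P) : 0 ≤ jac A x := by
  unfold jac; positivity

/-- the operator applied to the squared modulus -/
theorem L_sq (hs : Sol A v) (z : ℂ) (x : P) :
    rexp (A x) * d1 (d1 (sq A v z)) x + rexp (-(A x)) * d2 (d2 (sq A v z)) x +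
      rexp (A x) * d1 A x * d1 (sq A v z) x + -(rexp (-(A x)) * d2 A x) * d2 (sq A v z) x =
      4 * jac A x := by
  rw [d11_sq hs, d22_sq hs, d1_sq hs, d2_sq hs]
  have h1 := eqA hs x
  have h2 := eqv hs x
  have h3 : rexp (A x) * (d1 v x) ^ 2 = rexp (-(A x)) * (d2 A x) ^ 2 := by
    rw [hs.h1]
    have he := exp_mul_neg (A x)
    linear_combination (rexp (-(A x)) * (d2 A x) ^ 2) * he
  have h4 : rexp (-(A x)) * (d2 v x) ^ 2 = rexp (A x) * (d1 A x) ^ 2 := by
    rw [hs.h2]
    have he := exp_mul_neg (A x)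
    linear_combination (rexp (A x) * (d1 A x) ^ 2) * he
  unfold jac
  linear_combination (2 * (A x - z.re)) * h1 + (2 * (v x - z.im)) * h2 + 2 * h3 + 2 * h4

/-- the gradient of the squared modulus -/
theorem grad_sq (hs : Sol A v) (z : ℂ) (x : P) :
    rexp (A x) * (d1 (sq A v z) x) ^ 2 + rexp (-(A x)) * (d2 (sq A v z) x) ^ 2 =
      4 * sq A v z x * jac A x := by
  rw [d1_sq hs, d2_sq hs, hs.h1, hs.h2]
  have he := exp_mul_neg (A x)
  unfold jac sq
  have h1 : rexp (A x) * rexp (-(A x)) * rexp (-(A x)) = rexp (-(A x)) := by rw [he, one_mul]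
  have h2 : rexp (A x) * rexp (-(A x)) * rexp (A x) = rexp (A x) := by rw [he, one_mul]
  generalize rexp (A x) = a at *
  generalize rexp (-(A x)) = b at *
  linear_combination (4 * (v x - z.im) ^ 2 * (d2 A x) ^ 2) * h1 +
    (4 * (v x - z.im) ^ 2 * (d1 A x) ^ 2) * h2 +
    (8 * (A x - z.re) * (v x - z.im) * d1 A x * d2 A x * 0) * he

theorem max_modulus (hs : Sol A v) {Ω : Set P} (hΩ : IsOpen Ω)
    (hb : Bornology.IsBounded Ω) {z : ℂ} {δ : ℝ}
    (hδ : ∀ x ∈ frontier Ω, ‖cpair A v x - z‖ ≤ δ) :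
    ∀ x ∈ closure Ω, ‖cpair A v x - z‖ ≤ δ := by
  intro x0 hx0
  by_cases hδ0 : δ < 0
  · -- the frontier is empty
    have hf : ∀ x ∈ frontier Ω, sq A v z x ≤ -1 := by
      intro x hx
      have := hδ x hx
      have := norm_nonneg (cpair A v x - z)
      linarith
    have h2 : ∀ x, ContDiffAt ℝ 2 (sq A v z) x :=
      fun x => ((smooth_sq hs z).of_le (by norm_cast)).contDiffAt
    have key := max_principle hΩ hb (a := fun x => rexp (A x)) (b := fun x => rexp (-(A x)))
      (c := fun x => rexp (A x) * d1 A x) (d := fun x => -(rexp (-(A x)) * d2 A x))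
      (w := sq A v z) 0
      (smooth_sq hs z).continuous.continuousOn (fun x _ _ => h2 x)
      (fun _ => (h2 0).of_le (by norm_num))
      (cont_a hs) (cont_b hs) (cont_c hs) (cont_d hs) (fun x => Real.exp_pos _)
      (fun x => Real.exp_pos _) (fun x _ _ => by
        rw [L_sq hs z x]
        have := jac_nonneg (A := A) x
        linarith) hf x0 hx0
    have : 0 ≤ sq A v z x0 := by unfold sq; positivity
    linarith
  · push Not at hδ0
    have hf : ∀ x ∈ frontier Ω, sq A v z x ≤ δ ^ 2 := by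
      intro x hx
      rw [sq_eq]
      exact pow_le_pow_left₀ (norm_nonneg _) (hδ x hx) 2
    have h2 : ∀ x, ContDiffAt ℝ 2 (sq A v z) x :=
      fun x => ((smooth_sq hs z).of_le (by norm_cast)).contDiffAt
    have key := max_principle hΩ hb (a := fun x => rexp (A x)) (b := fun x => rexp (-(A x)))
      (c := fun x => rexp (A x) * d1 A x) (d := fun x => -(rexp (-(A x)) * d2 A x))
      (w := sq A v z) 0
      (smooth_sq hs z).continuous.continuousOn (fun x _ _ => h2 x)
      (fun _ => (h2 0).of_le (by norm_num))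
      (cont_a hs) (cont_b hs) (cont_c hs) (cont_d hs) (fun x => Real.exp_pos _)
      (fun x => Real.exp_pos _) (fun x _ _ => by
        rw [L_sq hs z x]
        have := jac_nonneg (A := A) x
        linarith) hf x0 hx0
    rw [sq_eq] at key
    exact le_of_sq_le_sq key hδ0

theorem d1_inv_sq (hs : Sol A v) (z : ℂ) {x : P} (hx : sq A v z x ≠ 0) :
    d1 (fun y => (sq A v z y)⁻¹) x = -d1 (sq A v z) x / (sq A v z x) ^ 2 := by
  have hd : DifferentiableAt ℝ (sq A v z) x :=
    ((smooth_sq hs z).differentiable (by simp)).differentiableAt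
  exact d1_eq (hd.inv hx) ((hasDerivAt_d1 hd).inv hx)

theorem d2_inv_sq (hs : Sol A v) (z : ℂ) {x : P} (hx : sq A v z x ≠ 0) :
    d2 (fun y => (sq A v z y)⁻¹) x = -d2 (sq A v z) x / (sq A v z x) ^ 2 := by
  have hd : DifferentiableAt ℝ (sq A v z) x :=
    ((smooth_sq hs z).differentiable (by simp)).differentiableAt
  exact d2_eq (hd.inv hx) ((hasDerivAt_d2 hd).inv hx)

theorem d11_inv_sq (hs : Sol A v) (z : ℂ) {x : P} (hx : sq A v z x ≠ 0) :
    d1 (d1 (fun y => (sq A v z y)⁻¹)) x =
      -d1 (d1 (sq A v z)) x / (sq A v z x) ^ 2 +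
        2 * (d1 (sq A v z) x) ^ 2 / (sq A v z x) ^ 3 := by
  have hd : DifferentiableAt ℝ (sq A v z) x :=
    ((smooth_sq hs z).differentiable (by simp)).differentiableAt
  have hd' : DifferentiableAt ℝ (d1 (sq A v z)) x :=
    ((smooth_d1 (smooth_sq hs z)).differentiable (by simp)).differentiableAt
  have he : d1 (fun y => (sq A v z y)⁻¹) =ᶠ[𝓝 x]
      fun y => -d1 (sq A v z) y / (sq A v z y) ^ 2 := by
    have : ∀ᶠ y in 𝓝 x, sq A v z y ≠ 0 :=
      (smooth_sq hs z).continuous.continuousAt.eventually_ne hx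
    exact this.mono fun y hy => d1_inv_sq hs z hy
  have h1 : d1 (d1 (fun y => (sq A v z y)⁻¹)) x =
      d1 (fun y => -d1 (sq A v z) y / (sq A v z y) ^ 2) x := by
    unfold d1 at he ⊢
    rw [he.fderiv_eq]
  rw [h1]
  have h6 : DifferentiableAt ℝ (fun y => sq A v z y ^ 2) x := hd.fun_pow 2
  have h7 : DifferentiableAt ℝ (fun y => -d1 (sq A v z) y) x := hd'.fun_neg
  have h8 : DifferentiableAt ℝ (fun y => -d1 (sq A v z) y / (sq A v z y) ^ 2) x := by
    have h5 := h7.mul (h6.inv (pow_ne_zero 2 hx))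
    simp only [div_eq_mul_inv]
    exact h5
  refine d1_eq h8 ?_
  have := ((hasDerivAt_d1 hd').neg).div ((hasDerivAt_d1 hd).pow 2) (pow_ne_zero 2 hx)
  refine this.congr_deriv ?_
  simp only [Pi.neg_apply, Prod.mk.eta, Pi.pow_apply]
  field_simp
  ring

theorem d22_inv_sq (hs : Sol A v) (z : ℂ) {x : P} (hx : sq A v z x ≠ 0) :
    d2 (d2 (fun y => (sq A v z y)⁻¹)) x =
      -d2 (d2 (sq A v z)) x / (sq A v z x) ^ 2 +
        2 * (d2 (sq A v z) x) ^ 2 / (sq A v z x) ^ 3 := by
  have hd : DifferentiableAt ℝ (sq A v z) x :=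
    ((smooth_sq hs z).differentiable (by simp)).differentiableAt
  have hd' : DifferentiableAt ℝ (d2 (sq A v z)) x :=
    ((smooth_d2 (smooth_sq hs z)).differentiable (by simp)).differentiableAt
  have he : d2 (fun y => (sq A v z y)⁻¹) =ᶠ[𝓝 x]
      fun y => -d2 (sq A v z) y / (sq A v z y) ^ 2 := by
    have : ∀ᶠ y in 𝓝 x, sq A v z y ≠ 0 :=
      (smooth_sq hs z).continuous.continuousAt.eventually_ne hx
    exact this.mono fun y hy => d2_inv_sq hs z hy
  have h1 : d2 (d2 (fun y => (sq A v z y)⁻¹)) x =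
      d2 (fun y => -d2 (sq A v z) y / (sq A v z y) ^ 2) x := by
    unfold d2 at he ⊢
    rw [he.fderiv_eq]
  rw [h1]
  have h6 : DifferentiableAt ℝ (fun y => sq A v z y ^ 2) x := hd.fun_pow 2
  have h7 : DifferentiableAt ℝ (fun y => -d2 (sq A v z) y) x := hd'.fun_neg
  have h8 : DifferentiableAt ℝ (fun y => -d2 (sq A v z) y / (sq A v z y) ^ 2) x := by
    have h5 := h7.mul (h6.inv (pow_ne_zero 2 hx))
    simp only [div_eq_mul_inv]
    exact h5
  refine d2_eq h8 ?_
  have := ((hasDerivAt_d2 hd').neg).div ((hasDerivAt_d2 hd).pow 2) (pow_ne_zero 2 hx)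
  refine this.congr_deriv ?_
  simp only [Pi.neg_apply, Prod.mk.eta, Pi.pow_apply]
  field_simp
  ring

theorem min_modulus (hs : Sol A v) {Ω : Set P} (hΩ : IsOpen Ω)
    (hb : Bornology.IsBounded Ω) {z : ℂ} (hz : ∀ x ∈ closure Ω, cpair A v x ≠ z) {δ : ℝ}
    (hδ : ∀ x ∈ frontier Ω, δ ≤ ‖cpair A v x - z‖) :
    ∀ x ∈ closure Ω, δ ≤ ‖cpair A v x - z‖ := by
  intro x0 hx0
  by_cases hδ0 : δ ≤ 0
  · exact hδ0.trans (norm_nonneg _)
  push Not at hδ0
  have hR : ∀ x ∈ closure Ω, 0 < sq A v z x := by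
    intro x hx
    rw [sq_eq]
    have : 0 < ‖cpair A v x - z‖ := norm_pos_iff.2 (sub_ne_zero.2 (hz x hx))
    positivity
  have h2 : ∀ x ∈ Ω, ContDiffAt ℝ 2 (fun y => (sq A v z y)⁻¹) x := by
    intro x hx
    have : ContDiffAt ℝ 2 (sq A v z) x := ((smooth_sq hs z).of_le (by norm_cast)).contDiffAt
    exact this.inv (hR x (subset_closure hx)).ne'
  have hf : ∀ x ∈ frontier Ω, (sq A v z x)⁻¹ ≤ (δ ^ 2)⁻¹ := by
    intro x hx
    rw [sq_eq]
    exact inv_anti₀ (by positivity) (pow_le_pow_left₀ hδ0.le (hδ x hx) 2)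
  have key := max_principle hΩ hb (a := fun x => rexp (A x)) (b := fun x => rexp (-(A x)))
    (c := fun x => rexp (A x) * d1 A x) (d := fun x => -(rexp (-(A x)) * d2 A x))
    (w := fun y => (sq A v z y)⁻¹) 0
    ((smooth_sq hs z).continuous.continuousOn.inv₀ (fun x hx => (hR x hx).ne'))
    (fun x hx _ => h2 x hx)
    (fun h => (h2 0 h).of_le (by norm_num))
    (cont_a hs) (cont_b hs) (cont_c hs) (cont_d hs) (fun x => Real.exp_pos _)
    (fun x => Real.exp_pos _) (fun x hx _ => by
      have hRx := hR x (subset_closure hx)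
      rw [d11_inv_sq hs z hRx.ne', d22_inv_sq hs z hRx.ne', d1_inv_sq hs z hRx.ne',
        d2_inv_sq hs z hRx.ne']
      have e1 := L_sq hs z x
      have e2 := grad_sq hs z x
      have e3 := jac_nonneg (A := A) x
      have e4 : rexp (A x) * (-d1 (d1 (sq A v z)) x / (sq A v z x) ^ 2 +
          2 * (d1 (sq A v z) x) ^ 2 / (sq A v z x) ^ 3) +
          rexp (-(A x)) * (-d2 (d2 (sq A v z)) x / (sq A v z x) ^ 2 +
          2 * (d2 (sq A v z) x) ^ 2 / (sq A v z x) ^ 3) +
          rexp (A x) * d1 A x * (-d1 (sq A v z) x / (sq A v z x) ^ 2) +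
          -(rexp (-(A x)) * d2 A x) * (-d2 (sq A v z) x / (sq A v z x) ^ 2) =
          4 * jac A x / (sq A v z x) ^ 2 := by
        have e5 : rexp (A x) * (-d1 (d1 (sq A v z)) x / (sq A v z x) ^ 2 +
          2 * (d1 (sq A v z) x) ^ 2 / (sq A v z x) ^ 3) +
          rexp (-(A x)) * (-d2 (d2 (sq A v z)) x / (sq A v z x) ^ 2 +
          2 * (d2 (sq A v z) x) ^ 2 / (sq A v z x) ^ 3) +
          rexp (A x) * d1 A x * (-d1 (sq A v z) x / (sq A v z x) ^ 2) +
          -(rexp (-(A x)) * d2 A x) * (-d2 (sq A v z) x / (sq A v z x) ^ 2) =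
          -(rexp (A x) * d1 (d1 (sq A v z)) x + rexp (-(A x)) * d2 (d2 (sq A v z)) x +
      rexp (A x) * d1 A x * d1 (sq A v z) x + -(rexp (-(A x)) * d2 A x) * d2 (sq A v z) x) /
          (sq A v z x) ^ 2 + 2 * (rexp (A x) * (d1 (sq A v z) x) ^ 2 +
            rexp (-(A x)) * (d2 (sq A v z) x) ^ 2) / (sq A v z x) ^ 3 := by ring
        rw [e5, e1, e2]
        field_simp
        ring
      rw [e4]
      positivity) hf x0 hx0
  have h3 : δ ^ 2 ≤ sq A v z x0 := by
    have := hR x0 hx0
    exact (inv_le_inv₀ this (by positivity)).1 key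
  rw [sq_eq] at h3
  exact le_of_sq_le_sq h3 (norm_nonneg _)

/-! ### the barrier -/

theorem hasDerivAt_logcos {p c t : ℝ} (h : cos (p * (t - c)) ≠ 0) :
    HasDerivAt (fun s => Real.log (cos (p * (s - c)))) (-(p * tan (p * (t - c)))) t := by
  have h1 : HasDerivAt (fun s => p * (s - c)) p t := by
    simpa using ((hasDerivAt_id t).sub_const c).const_mul p
  have h2 := (h1.cos).log h
  refine h2.congr_deriv ?_
  rw [tan_eq_sin_div_cos]
  ring

theorem hasDerivAt_tan' {p c t : ℝ} (h : cos (p * (t - c)) ≠ 0) :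
    HasDerivAt (fun s => p * tan (p * (s - c))) (p ^ 2 * (1 + tan (p * (t - c)) ^ 2)) t := by
  have h1 : HasDerivAt (fun s => p * (s - c)) p t := by
    simpa using ((hasDerivAt_id t).sub_const c).const_mul p
  have h2 := (((Real.hasDerivAt_tan h).comp t h1)).const_mul p
  refine h2.congr_deriv ?_
  have h3 : 1 / cos (p * (t - c)) ^ 2 = 1 + tan (p * (t - c)) ^ 2 := by
    rw [tan_eq_sin_div_cos]
    have := sin_sq_add_cos_sq (p * (t - c))
    field_simp
    linarith
  rw [h3]; ring

theorem barrier (hs : Sol A v) {x0 : P} {m K T : ℝ} (hm : 0 < m) (hK : 0 < K)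
    (hT : 0 < T) (hE : 2 * max m (3 * K / (2 * T)) < Real.exp (A x0)) {K' : ℝ} (hK' : K' < K) :
    ∃ y ∈ connectedComponentIn
      ({y : P | m < Real.exp (A y)} ∩ {y : P | |y.1 - x0.1| < K ∧ |y.2 - x0.2| < T}) x0,
      K' < |y.1 - x0.1| := by
  set S : Set P := {y : P | m < Real.exp (A y)} ∩
    {y : P | |y.1 - x0.1| < K ∧ |y.2 - x0.2| < T} with hS
  by_contra hcon
  push Not at hcon
  have hEc : Continuous fun x => rexp (A x) := cont_a hs
  have hSo : IsOpen S := by
    refine (isOpen_lt continuous_const hEc).inter ?_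
    have c1 : Continuous fun y : P => |y.1 - x0.1| := by fun_prop
    have c2 : Continuous fun y : P => |y.2 - x0.2| := by fun_prop
    exact (isOpen_lt c1 continuous_const).inter (isOpen_lt c2 continuous_const)
  set B := max m (3 * K / (2 * T)) with hB
  have hm1 : m ≤ B := le_max_left _ _
  have hm2 : 3 * K / (2 * T) ≤ B := le_max_right _ _
  have hx0S : x0 ∈ S := by
    refine ⟨?_, ?_, ?_⟩
    · show m < rexp (A x0)
      linarith
    · simpa using hK
    · simpa using hT
  set U := connectedComponentIn S x0 with hU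
  have hUo : IsOpen U := hSo.connectedComponentIn
  have hx0U : x0 ∈ U := mem_connectedComponentIn hx0S
  have hUS : U ⊆ S := connectedComponentIn_subset _ _
  have hK'0 : 0 ≤ K' := by simpa using hcon x0 hx0U
  have hbd : Bornology.IsBounded U := by
    refine (Metric.isBounded_closedBall (x := x0) (r := max K T)).subset ?_
    intro y hy
    obtain ⟨-, h1, h2⟩ := hUS hy
    rw [Metric.mem_closedBall, Prod.dist_eq, Real.dist_eq, Real.dist_eq]
    exact max_le_max h1.le h2.le
  have hcl : closure U ⊆ {y : P | |y.1 - x0.1| ≤ K' ∧ |y.2 - x0.2| ≤ T} := by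
    apply closure_minimal
    · intro y hy
      exact ⟨hcon y hy, (hUS hy).2.2.le⟩
    · have c1 : Continuous fun y : P => |y.1 - x0.1| := by fun_prop
      have c2 : Continuous fun y : P => |y.2 - x0.2| := by fun_prop
      exact (isClosed_le c1 continuous_const).inter (isClosed_le c2 continuous_const)
  set p := π / (3 * K) with hp
  set q := π / (2 * T) with hq
  have hp0 : 0 < p := by positivity
  have hq0 : 0 < q := by positivity
  have hpK : p * K = π / 3 := by rw [hp]; field_simp
  have hqT : q * T = π / 2 := by rw [hq]; field_simp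
  have hcp : ∀ y : P, |y.1 - x0.1| < K → 1 / 2 < cos (p * (y.1 - x0.1)) := by
    intro y hy
    rw [← cos_pi_div_three, ← cos_abs (p * (y.1 - x0.1))]
    apply cos_lt_cos_of_nonneg_of_le_pi (abs_nonneg _)
    · linarith [pi_pos]
    · rw [abs_mul, abs_of_pos hp0, ← hpK]
      exact mul_lt_mul_of_pos_left hy hp0
  have hcq : ∀ y : P, |y.2 - x0.2| < T → 0 < cos (q * (y.2 - x0.2)) := by
    intro y hy
    have h1 := abs_lt.1 hy
    apply cos_pos_of_mem_Ioo
    constructor
    · rw [← hqT]; nlinarith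
    · rw [← hqT]; nlinarith
  have hcqT : ∀ y : P, |y.2 - x0.2| = T → cos (q * (y.2 - x0.2)) = 0 := by
    intro y hy
    rw [← cos_abs, abs_mul, abs_of_pos hq0, hy, hqT, cos_pi_div_two]
  set w : P → ℝ := fun y => rexp (A y) * cos (q * (y.2 - x0.2)) / cos (p * (y.1 - x0.1)) with hw
  have hwc : ContinuousOn w (closure U) := by
    apply ContinuousOn.div
    · exact (hEc.mul (by fun_prop)).continuousOn
    · exact (by fun_prop : Continuous fun y : P => cos (p * (y.1 - x0.1))).continuousOn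
    · intro y hy
      have := hcp y ((hcl hy).1.trans_lt hK')
      linarith
  obtain ⟨y, hyK, hymax⟩ := hbd.isCompact_closure.exists_isMaxOn ⟨x0, subset_closure hx0U⟩ hwc
  have hwx0 : w x0 = rexp (A x0) := by simp [hw]
  have hwy : 2 * B < w y := by
    have := hymax (subset_closure hx0U)
    have h2 : w x0 ≤ w y := this
    linarith
  have hBpos : 0 < B := by linarith
  have hyK1 : |y.1 - x0.1| < K := (hcl hyK).1.trans_lt hK'
  have hc1 := hcp y hyK1
  have hyT : |y.2 - x0.2| < T := by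
    refine lt_of_le_of_ne (hcl hyK).2 fun h => ?_
    have : w y = 0 := by simp [hw, hcqT y h]
    linarith
  have hc2 := hcq y hyT
  have hEy : B < rexp (A y) := by
    have h1 : w y * cos (p * (y.1 - x0.1)) = rexp (A y) * cos (q * (y.2 - x0.2)) := by
      simp only [hw]; field_simp
    have h2 : rexp (A y) * cos (q * (y.2 - x0.2)) ≤ rexp (A y) :=
      mul_le_of_le_one_right (Real.exp_pos _).le (cos_le_one _)
    nlinarith
  have hyS : y ∈ S := ⟨lt_of_le_of_lt hm1 hEy, hyK1, hyT⟩
  have hyU : y ∈ U := by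
    have hsub : insert y U ⊆ S := insert_subset hyS hUS
    have hpre : IsPreconnected (insert y U) :=
      isPreconnected_connectedComponentIn.subset_closure (subset_insert _ _)
        (insert_subset hyK subset_closure)
    exact hpre.subset_connectedComponentIn (mem_insert_of_mem _ hx0U) hsub (mem_insert _ _)
  -- local maximum of the logarithm
  set G : P → ℝ := fun x => A x + Real.log (cos (q * (x.2 - x0.2))) -
    Real.log (cos (p * (x.1 - x0.1))) with hG
  have hGw : ∀ x ∈ U, rexp (G x) = w x := by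
    intro x hx
    obtain ⟨-, h1, h2⟩ := hUS hx
    have e1 := hcp x h1
    have e2 := hcq x h2
    simp only [hG, hw]
    rw [Real.exp_sub, Real.exp_add, Real.exp_log e2, Real.exp_log (by linarith)]
  have hloc : IsLocalMax G y := by
    filter_upwards [hUo.mem_nhds hyU] with x hx
    rw [← Real.exp_le_exp, hGw x hx, hGw y hyU]
    exact hymax (subset_closure hx)
  have hloc1 : IsLocalMax (fun t => G (t, y.2)) y.1 := by
    have hct : Tendsto (fun t : ℝ => ((t, y.2) : P)) (𝓝 y.1) (𝓝 y) := by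
      have : Continuous fun t : ℝ => ((t, y.2) : P) := by fun_prop
      exact this.tendsto y.1
    exact hct.eventually hloc
  have hloc2 : IsLocalMax (fun t => G (y.1, t)) y.2 := by
    have hct : Tendsto (fun t : ℝ => ((y.1, t) : P)) (𝓝 y.2) (𝓝 y) := by
      have : Continuous fun t : ℝ => ((y.1, t) : P) := by fun_prop
      exact this.tendsto y.2
    exact hct.eventually hloc
  have hC2 : ContDiffAt ℝ 2 A y := (hs.cA.of_le (by norm_cast)).contDiffAt
  obtain ⟨q1, q2⟩ := hline hC2
  obtain ⟨r1, r2⟩ := vline hC2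
  have hn1 : ∀ᶠ t in 𝓝 y.1, cos (p * (t - x0.1)) ≠ 0 := by
    have : ContinuousAt (fun t : ℝ => cos (p * (t - x0.1))) y.1 := by fun_prop
    exact this.eventually_ne (by linarith)
  have hn2 : ∀ᶠ t in 𝓝 y.2, cos (q * (t - x0.2)) ≠ 0 := by
    have : ContinuousAt (fun t : ℝ => cos (q * (t - x0.2))) y.2 := by fun_prop
    exact this.eventually_ne hc2.ne'
  have t1 := second_test (g' := fun t => d1 A (t, y.2) + p * tan (p * (t - x0.1)))
    (c := d1 (d1 A) y + p ^ 2 * (1 + tan (p * (y.1 - x0.1)) ^ 2)) hloc1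
    ((q1.and hn1).mono fun t ht => by
      have := (ht.1.add_const (Real.log (cos (q * (y.2 - x0.2))))).sub (hasDerivAt_logcos ht.2)
      refine this.congr_deriv ?_
      ring)
    (q2.add (hasDerivAt_tan' (by linarith)))
  have t2 := second_test (g' := fun t => d2 A (y.1, t) - q * tan (q * (t - x0.2)))
    (c := d2 (d2 A) y - q ^ 2 * (1 + tan (q * (y.2 - x0.2)) ^ 2)) hloc2
    ((r1.and hn2).mono fun t ht => by
      have := (ht.1.add (hasDerivAt_logcos ht.2)).sub_const (Real.log (cos (p * (y.1 - x0.1))))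
      refine this.congr_deriv ?_
      ring)
    (r2.sub (hasDerivAt_tan' hc2.ne'))
  obtain ⟨e1, f1⟩ := t1
  obtain ⟨e2, f2⟩ := t2
  simp only [Prod.mk.eta] at e1 e2
  have g1 : d1 (d1 A) y + d1 A y * d1 A y ≤ -p ^ 2 := by
    have : d1 A y = -(p * tan (p * (y.1 - x0.1))) := by linarith
    rw [this]; nlinarith
  have g2 : d2 (d2 A) y - d2 A y * d2 A y ≤ q ^ 2 := by
    have : d2 A y = q * tan (q * (y.2 - x0.2)) := by linarith
    rw [this]; nlinarith
  have g3 := eqA hs y
  have g4 : rexp (A y) * p ^ 2 ≤ rexp (-(A y)) * q ^ 2 := by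
    have h1 := mul_le_mul_of_nonneg_left g1 (Real.exp_pos (A y)).le
    have h2 := mul_le_mul_of_nonneg_left g2 (Real.exp_pos (-(A y))).le
    nlinarith
  have g5 : (rexp (A y) * p) ^ 2 ≤ q ^ 2 := by
    have h1 := mul_le_mul_of_nonneg_left g4 (Real.exp_pos (A y)).le
    have h2 := exp_mul_neg (A y)
    calc (rexp (A y) * p) ^ 2 = rexp (A y) * (rexp (A y) * p ^ 2) := by ring
      _ ≤ rexp (A y) * (rexp (-(A y)) * q ^ 2) := h1
      _ = (rexp (A y) * rexp (-(A y))) * q ^ 2 := by ring
      _ = q ^ 2 := by rw [h2, one_mul]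
  have g6 : rexp (A y) * p ≤ q := le_of_sq_le_sq g5 hq0.le
  have g7 : q = 3 * K / (2 * T) * p := by rw [hp, hq]; field_simp
  rw [g7] at g6
  have g8 : rexp (A y) ≤ 3 * K / (2 * T) := le_of_mul_le_mul_right g6 hp0
  linarith

end sol

end Pool.Agent.EU
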