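import Pool.Agent.EU.Types

/-!
Module C012: kernels, smoothness of the parametric integrals, existence of the maps of type I, II.
-/

set_option autoImplicit false
open scoped ContDiff Topology ENNReal
open Real Set MeasureTheory Filter

namespace Pool.Agent.EU.C0

open Pool.Agent.EU

section param

variable {H : Type} [NormedAddCommGroup H] [NormedSpace ℝ H] [ProperSpace H]

theorem ae_mem {M : Measure ℝ} {a b : ℝ} (hs : M (Icc a b)ᶜ = 0) : ∀ᵐ ν ∂M, ν ∈ Icc a b :=
  mem_ae_iff.2 hs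

omit [ProperSpace H] in
theorem smooth_partial {E : Type} [NormedAddCommGroup E] [NormedSpace ℝ E]
    {f : ℝ → H → E} (hf : ContDiff ℝ ∞ (fun x : ℝ × H => f x.1 x.2)) :
    ContDiff ℝ ∞ (fun x : ℝ × H => fderiv ℝ (f x.1) x.2) := by
  have h : ContDiff ℝ ∞ (Function.uncurry (fun (x : ℝ × H) (y : H) => f x.1 y)) :=
    hf.comp ((contDiff_fst.comp contDiff_fst).prodMk contDiff_snd)
  exact ContDiff.fderiv (f := fun (x : ℝ × H) (y : H) => f x.1 y) (g := fun x : ℝ × H => x.2)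
    (m := ∞) (n := ∞) h contDiff_snd (by simp)

theorem hasFDerivAt_param {E : Type} [NormedAddCommGroup E] [NormedSpace ℝ E] [CompleteSpace E]
    (M : Measure ℝ) [IsFiniteMeasure M] {a b : ℝ} (hs : M (Icc a b)ᶜ = 0)
    {f : ℝ → H → E} (hf : ContDiff ℝ ∞ (fun x : ℝ × H => f x.1 x.2)) (q : H) :
    Integrable (fun ν => fderiv ℝ (f ν) q) M ∧ Integrable (fun ν => f ν q) M ∧
    HasFDerivAt (fun q => ∫ ν, f ν q ∂M) (∫ ν, fderiv ℝ (f ν) q ∂M) q := by
  have hf' := smooth_partial hf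
  have hcf : ∀ x : H, Continuous (fun ν => f ν x) := fun x =>
    hf.continuous.comp (by fun_prop : Continuous (fun ν : ℝ => ((ν, x) : ℝ × H)))
  have hcf' : ∀ x : H, Continuous (fun ν => fderiv ℝ (f ν) x) := fun x =>
    hf'.continuous.comp (by fun_prop : Continuous (fun ν : ℝ => ((ν, x) : ℝ × H)))
  obtain ⟨C, hC⟩ := (isCompact_Icc.prod (isCompact_closedBall q 1)).exists_bound_of_continuousOn
    (f := fun x : ℝ × H => fderiv ℝ (f x.1) x.2) (s := Icc a b ×ˢ Metric.closedBall q 1)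
    hf'.continuous.continuousOn
  obtain ⟨C0, hC0⟩ := (isCompact_Icc (a := a) (b := b)).exists_bound_of_continuousOn
    (f := fun ν : ℝ => f ν q) (hcf q).continuousOn
  have hint : Integrable (fun ν => f ν q) M := by
    refine Integrable.of_bound (hcf q).aestronglyMeasurable C0 ?_
    filter_upwards [ae_mem hs] with ν hν using hC0 ν hν
  have hint' : Integrable (fun ν => fderiv ℝ (f ν) q) M := by
    refine Integrable.of_bound (hcf' q).aestronglyMeasurable C ?_
    filter_upwards [ae_mem hs] with ν hν using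
      hC (ν, q) ⟨hν, Metric.mem_closedBall_self zero_le_one⟩
  refine ⟨hint', hint, ?_⟩
  refine hasFDerivAt_integral_of_dominated_of_fderiv_le (𝕜 := ℝ) (F := fun x ν => f ν x)
    (F' := fun x ν => fderiv ℝ (f ν) x) (bound := fun _ => C)
    (Metric.ball_mem_nhds q one_pos) ?_ hint ?_ ?_ (integrable_const C) ?_
  · exact Eventually.of_forall fun x => (hcf x).aestronglyMeasurable
  · exact (hcf' q).aestronglyMeasurable
  · filter_upwards [ae_mem hs] with ν hν x hx using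
      hC (ν, x) ⟨hν, Metric.ball_subset_closedBall hx⟩
  · refine Eventually.of_forall fun ν x _ => ?_
    have h1 : ContDiff ℝ ∞ (f ν) :=
      hf.comp (contDiff_const.prodMk contDiff_id : ContDiff ℝ ∞ (fun y : H => ((ν, y) : ℝ × H)))
    exact ((h1.differentiable (by simp)) x).hasFDerivAt

theorem contDiff_param_nat (M : Measure ℝ) [IsFiniteMeasure M] {a b : ℝ} (hs : M (Icc a b)ᶜ = 0)
    (n : ℕ) : ∀ {E : Type} [NormedAddCommGroup E] [NormedSpace ℝ E] [CompleteSpace E]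
    {f : ℝ → H → E}, ContDiff ℝ ∞ (fun x : ℝ × H => f x.1 x.2) →
    ContDiff ℝ n (fun q => ∫ ν, f ν q ∂M) := by
  induction n with
  | zero =>
    intro E _ _ _ f hf
    rw [Nat.cast_zero, contDiff_zero]
    exact continuous_iff_continuousAt.2 fun q => (hasFDerivAt_param M hs hf q).2.2.continuousAt
  | succ n ih =>
    intro E _ _ _ f hf
    rw [Nat.cast_succ, contDiff_succ_iff_fderiv]
    refine ⟨fun q => (hasFDerivAt_param M hs hf q).2.2.differentiableAt, by simp, ?_⟩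
    have h1 : fderiv ℝ (fun q => ∫ ν, f ν q ∂M) = fun q => ∫ ν, fderiv ℝ (f ν) q ∂M := by
      ext1 q
      exact (hasFDerivAt_param M hs hf q).2.2.fderiv
    rw [h1]
    exact ih (smooth_partial hf)

theorem contDiff_param {E : Type} [NormedAddCommGroup E] [NormedSpace ℝ E] [CompleteSpace E]
    (M : Measure ℝ) [IsFiniteMeasure M] {a b : ℝ} (hs : M (Icc a b)ᶜ = 0)
    {f : ℝ → H → E} (hf : ContDiff ℝ ∞ (fun x : ℝ × H => f x.1 x.2)) :
    ContDiff ℝ ∞ (fun q => ∫ ν, f ν q ∂M) :=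
  contDiff_infty.2 fun n => contDiff_param_nat M hs n hf

end param

/-- derivative of the parametric integral along a vector -/
theorem fderiv_param_apply (M : Measure ℝ) [IsFiniteMeasure M] {a b : ℝ} (hs : M (Icc a b)ᶜ = 0)
    {f : ℝ → P → ℝ} (hf : ContDiff ℝ ∞ (fun x : ℝ × P => f x.1 x.2)) (q h : P) :
    fderiv ℝ (fun q => ∫ ν, f ν q ∂M) q h = ∫ ν, fderiv ℝ (f ν) q h ∂M := by
  obtain ⟨h1, -, h2⟩ := hasFDerivAt_param M hs hf q
  rw [h2.fderiv, ContinuousLinearMap.integral_apply h1]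

theorem integrable_fderiv_apply (M : Measure ℝ) [IsFiniteMeasure M] {a b : ℝ}
    (hs : M (Icc a b)ᶜ = 0)
    {f : ℝ → P → ℝ} (hf : ContDiff ℝ ∞ (fun x : ℝ × P => f x.1 x.2)) (q h : P) :
    Integrable (fun ν => fderiv ℝ (f ν) q h) M := by
  obtain ⟨h1, -, -⟩ := hasFDerivAt_param M hs hf q
  exact h1.apply_continuousLinearMap h

/-! ### the kernels -/

theorem smooth_EE : ContDiff ℝ ∞ (fun x : ℝ × P => EE x.1 x.2) := by
  unfold EE
  fun_prop

/-- `h(x) = ∫₀¹ e^{r x} dr` -/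
noncomputable def hh (x : ℝ) : ℝ := ∫ r in (0:ℝ)..1, Real.exp (r * x)

theorem supp01 : (volume.restrict (Ioc (0:ℝ) 1)) (Icc (0:ℝ) 1)ᶜ = 0 := by
  rw [Measure.restrict_apply measurableSet_Icc.compl]
  have : (Icc (0:ℝ) 1)ᶜ ∩ Ioc 0 1 = ∅ := by
    rw [Set.eq_empty_iff_forall_notMem]
    rintro x ⟨h1, h2⟩
    exact h1 ⟨h2.1.le, h2.2⟩
  rw [this, measure_empty]

theorem smooth_hh : ContDiff ℝ ∞ hh := by
  have h := contDiff_param (H := ℝ) (volume.restrict (Ioc (0:ℝ) 1)) supp01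
    (f := fun r x => Real.exp (r * x)) (by fun_prop)
  have : hh = fun x => ∫ r, Real.exp (r * x) ∂(volume.restrict (Ioc (0:ℝ) 1)) := by
    ext x
    rw [hh, intervalIntegral.integral_of_le zero_le_one]
  rw [this]; exact h

theorem hh_mul (x : ℝ) : x * hh x = Real.exp x - 1 := by
  rw [hh, ← intervalIntegral.integral_const_mul]
  have h : ∀ r ∈ uIcc (0:ℝ) 1, HasDerivAt (fun r => Real.exp (r * x)) (x * Real.exp (r * x)) r := by
    intro r _
    have := ((hasDerivAt_id r).mul_const x).exp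
    simpa [mul_comm] using this
  rw [intervalIntegral.integral_eq_sub_of_hasDerivAt h
    ((by fun_prop : Continuous fun r : ℝ => x * Real.exp (r * x)).intervalIntegrable _ _)]
  simp

theorem kk_eq (γ ν : ℝ) (q : P) : kk γ ν q = sin (ν / 2 - γ) * Real.exp (-(ta γ q * sin γ)) *
    ((sg γ q * cos (ν / 2) + ta γ q * sin (ν / 2)) *
      hh ((sg γ q * cos (ν / 2) + ta γ q * sin (ν / 2)) * cos (ν / 2 - γ))) := by
  rw [kk, hh, intervalIntegral.integral_const_mul]

theorem smooth_kk (γ : ℝ) : ContDiff ℝ ∞ (fun x : ℝ × P => kk γ x.1 x.2) := by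
  have : (fun x : ℝ × P => kk γ x.1 x.2) = fun x : ℝ × P =>
      sin (x.1 / 2 - γ) * Real.exp (-(ta γ x.2 * sin γ)) *
      ((sg γ x.2 * cos (x.1 / 2) + ta γ x.2 * sin (x.1 / 2)) *
      hh ((sg γ x.2 * cos (x.1 / 2) + ta γ x.2 * sin (x.1 / 2)) * cos (x.1 / 2 - γ))) := by
    ext x; exact kk_eq γ x.1 x.2
  rw [this]
  unfold sg ta
  have := smooth_hh
  fun_prop


theorem hasFDerivAt_EE (ν : ℝ) (q h : P) :
    fderiv ℝ (EE ν) q h = EE ν q * ((h.1 * (1 + cos ν) + h.2 * sin ν) / 2) := by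
  have h1 : HasFDerivAt (fun q : P => (q.1 * (1 + cos ν) + q.2 * sin ν) / 2)
      (((1 + cos ν) / 2) • ContinuousLinearMap.fst ℝ ℝ ℝ +
        (sin ν / 2) • ContinuousLinearMap.snd ℝ ℝ ℝ) q := by
    have h2 := ((((1 + cos ν) / 2) • ContinuousLinearMap.fst ℝ ℝ ℝ +
        (sin ν / 2) • ContinuousLinearMap.snd ℝ ℝ ℝ : P →L[ℝ] ℝ)).hasFDerivAt (x := q)
    refine h2.congr_of_eventuallyEq (Eventually.of_forall fun y => ?_)
    simp
    ring
  have h3 := h1.exp
  have h4 : EE ν = fun q : P => Real.exp ((q.1 * (1 + cos ν) + q.2 * sin ν) / 2) := rfl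
  rw [h4, h3.fderiv]
  simp
  ring

/-- derivative of `s ↦ s h(s c)` -/
theorem hasDerivAt_g (c s : ℝ) : HasDerivAt (fun s => s * hh (s * c)) (Real.exp (s * c)) s := by
  have hd : Differentiable ℝ hh := smooth_hh.differentiable (by simp)
  have h1 : HasDerivAt (fun s => hh (s * c)) (deriv hh (s * c) * c) s := by
    have := HasDerivAt.comp s (hd (s * c)).hasDerivAt ((hasDerivAt_id s).mul_const c)
    rw [one_mul] at this
    exact this
  have h2 : HasDerivAt (fun s => s * hh (s * c)) (1 * hh (s * c) + s * (deriv hh (s * c) * c)) s :=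
    (hasDerivAt_id s).mul h1
  have key : ∀ x : ℝ, hh x + x * deriv hh x = Real.exp x := by
    intro x
    have e1 : HasDerivAt (fun x => x * hh x) (1 * hh x + x * deriv hh x) x :=
      (hasDerivAt_id x).mul (hd x).hasDerivAt
    have e2 : HasDerivAt (fun x => x * hh x) (Real.exp x) x := by
      have : (fun x => x * hh x) = fun x => Real.exp x - 1 := by
        ext y; exact hh_mul y
      rw [this]
      exact (Real.hasDerivAt_exp x).sub_const 1
    have := e1.unique e2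
    linarith
  have h3 : Real.exp (s * c) = 1 * hh (s * c) + s * (deriv hh (s * c) * c) := by
    have := key (s * c)
    linarith
  rw [h3]
  exact h2

theorem exp_identity (γ ν : ℝ) (q : P) :
    Real.exp (-(ta γ q * sin γ)) *
      Real.exp ((sg γ q * cos (ν / 2) + ta γ q * sin (ν / 2)) * cos (ν / 2 - γ)) = EE ν q := by
  rw [← Real.exp_add, EE]
  congr 1
  have hν : ν = 2 * (ν / 2) := by ring
  have h1 : cos ν = 2 * cos (ν / 2) ^ 2 - 1 := by
    conv_lhs => rw [hν]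
    exact Real.cos_two_mul _
  have h2 : sin ν = 2 * sin (ν / 2) * cos (ν / 2) := by
    conv_lhs => rw [hν]
    exact Real.sin_two_mul _
  rw [h1, h2, Real.cos_sub, sg, ta]
  have hφ := Real.sin_sq_add_cos_sq (ν / 2)
  have hγ := Real.sin_sq_add_cos_sq γ
  set cφ := cos (ν / 2)
  set sφ := sin (ν / 2)
  set cγ := cos γ
  set sγ := sin γ
  linear_combination (-(q.1 * sγ) + q.2 * cγ) * sγ * hφ +
    (q.1 * cφ ^ 2 + q.2 * sφ * cφ) * hγ

theorem fderiv_kk (γ ν : ℝ) (q h : P) :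
    fderiv ℝ (kk γ ν) q h = -(sin γ) * ta γ h * kk γ ν q +
      sin (ν / 2 - γ) * EE ν q * (sg γ h * cos (ν / 2) + ta γ h * sin (ν / 2)) := by
  set S := sin (ν / 2 - γ) with hS
  set c := cos (ν / 2 - γ) with hc
  let lt : P →L[ℝ] ℝ := (-sin γ) • ContinuousLinearMap.fst ℝ ℝ ℝ +
    (cos γ) • ContinuousLinearMap.snd ℝ ℝ ℝ
  let ls : P →L[ℝ] ℝ := (cos γ) • ContinuousLinearMap.fst ℝ ℝ ℝ +
    (sin γ) • ContinuousLinearMap.snd ℝ ℝ ℝ
  have hlt : ∀ y, lt y = ta γ y := by intro y; simp [lt, ta]; ring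
  have hls : ∀ y, ls y = sg γ y := by intro y; simp [ls, sg]; ring
  have h1 : HasFDerivAt (fun q => Real.exp (-(ta γ q * sin γ)))
      (Real.exp (-(ta γ q * sin γ)) • ((-sin γ) • lt)) q := by
    have e1 : HasFDerivAt (fun q => -(ta γ q * sin γ)) ((-sin γ) • lt) q := by
      have := ((-sin γ) • lt).hasFDerivAt (x := q)
      refine this.congr_of_eventuallyEq (Eventually.of_forall fun y => ?_)
      simp [hlt]; ring
    exact e1.exp
  have h2 : HasFDerivAt (fun q => sg γ q * cos (ν / 2) + ta γ q * sin (ν / 2))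
      (cos (ν / 2) • ls + sin (ν / 2) • lt) q := by
    have := (cos (ν / 2) • ls + sin (ν / 2) • lt).hasFDerivAt (x := q)
    refine this.congr_of_eventuallyEq (Eventually.of_forall fun y => ?_)
    simp [hlt, hls]; ring
  have h3 : HasFDerivAt (fun q => (sg γ q * cos (ν / 2) + ta γ q * sin (ν / 2)) *
      hh ((sg γ q * cos (ν / 2) + ta γ q * sin (ν / 2)) * c))
      (Real.exp ((sg γ q * cos (ν / 2) + ta γ q * sin (ν / 2)) * c) •
        (cos (ν / 2) • ls + sin (ν / 2) • lt)) q :=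
    HasDerivAt.comp_hasFDerivAt (h₂ := fun s => s * hh (s * c)) q
      (hasDerivAt_g c (sg γ q * cos (ν / 2) + ta γ q * sin (ν / 2))) h2
  have h4 : HasFDerivAt (fun q => (S * Real.exp (-(ta γ q * sin γ))) *
      ((sg γ q * cos (ν / 2) + ta γ q * sin (ν / 2)) *
      hh ((sg γ q * cos (ν / 2) + ta γ q * sin (ν / 2)) * c))) _ q := (h1.const_mul S).mul h3
  have h5 : kk γ ν = fun q => (S * Real.exp (-(ta γ q * sin γ))) *
      ((sg γ q * cos (ν / 2) + ta γ q * sin (ν / 2)) *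
      hh ((sg γ q * cos (ν / 2) + ta γ q * sin (ν / 2)) * c)) := by
    ext y; rw [kk_eq]
  have h6 : fderiv ℝ (kk γ ν) q = _ := (h5 ▸ h4 : HasFDerivAt (kk γ ν) _ q).fderiv
  rw [h6, kk_eq]
  simp only [_root_.add_apply, _root_.smul_apply,
    hlt, hls, smul_eq_mul, ← exp_identity γ ν q, ← hS, ← hc]
  ring

/-! ### W1, K1 -/

theorem W1_smooth (M : Measure ℝ) [IsFiniteMeasure M] (hs : M (Icc (-π) π)ᶜ = 0) :
    ContDiff ℝ ∞ (W1 M) := contDiff_param M hs smooth_EE

theorem K1_smooth (γ b : ℝ) (M : Measure ℝ) [IsFiniteMeasure M] (hs : M (Icc (-π) π)ᶜ = 0) :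
    ContDiff ℝ ∞ (K1 γ b M) := by
  have h1 := contDiff_param M hs (smooth_kk γ)
  unfold K1
  refine ContDiff.add ?_ h1
  unfold ta
  fun_prop

theorem fderiv_W1 (M : Measure ℝ) [IsFiniteMeasure M] (hs : M (Icc (-π) π)ᶜ = 0) (q h : P) :
    fderiv ℝ (W1 M) q h = ∫ ν, EE ν q * ((h.1 * (1 + cos ν) + h.2 * sin ν) / 2) ∂M := by
  unfold W1
  rw [fderiv_param_apply M hs smooth_EE]
  simp_rw [hasFDerivAt_EE]

theorem fderiv_K1 (γ b : ℝ) (M : Measure ℝ) [IsFiniteMeasure M] (hs : M (Icc (-π) π)ᶜ = 0)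
    (q h : P) :
    fderiv ℝ (K1 γ b M) q h = -(sin γ) * ta γ h * (b * Real.exp (-(ta γ q * sin γ))) +
      ∫ ν, fderiv ℝ (kk γ ν) q h ∂M := by
  have h1 := (hasFDerivAt_param M hs (smooth_kk γ) q).2.2
  let lt : P →L[ℝ] ℝ := (-sin γ) • ContinuousLinearMap.fst ℝ ℝ ℝ +
    (cos γ) • ContinuousLinearMap.snd ℝ ℝ ℝ
  have hlt : ∀ y, lt y = ta γ y := by intro y; simp [lt, ta]; ring
  have h2 : HasFDerivAt (fun q => b * Real.exp (-(ta γ q * sin γ)))
      (b • (Real.exp (-(ta γ q * sin γ)) • ((-sin γ) • lt))) q := by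
    have e1 : HasFDerivAt (fun q => -(ta γ q * sin γ)) ((-sin γ) • lt) q := by
      have := ((-sin γ) • lt).hasFDerivAt (x := q)
      refine this.congr_of_eventuallyEq (Eventually.of_forall fun y => ?_)
      simp [hlt]; ring
    exact e1.exp.const_mul b
  have h3 : HasFDerivAt (K1 γ b M) _ q := h2.add h1
  rw [h3.fderiv, _root_.add_apply,
    ContinuousLinearMap.integral_apply (hasFDerivAt_param M hs (smooth_kk γ) q).1]
  congr 1
  simp only [_root_.smul_apply, hlt, smul_eq_mul]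
  ring

theorem comb (f : P → ℝ) (q h : P) : fderiv ℝ f q h = h.1 * d1 f q + h.2 * d2 f q := by
  rw [fderiv_apply_eq]; simp

theorem K1_relations (γ b : ℝ) (M : Measure ℝ) [IsFiniteMeasure M] (hs : M (Icc (-π) π)ᶜ = 0)
    (q : P) :
    (cos γ * d1 (K1 γ b M) q + sin γ * d2 (K1 γ b M) q =
      -(sin γ) * d1 (W1 M) q + cos γ * d2 (W1 M) q) ∧
    (-(sin γ) * d1 (K1 γ b M) q + cos γ * d2 (K1 γ b M) q + sin γ * K1 γ b M q =
      cos γ * W1 M q - (cos γ * d1 (W1 M) q + sin γ * d2 (W1 M) q)) := by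
  have hγ := Real.sin_sq_add_cos_sq γ
  have hsg1 : sg γ ((cos γ, sin γ) : P) = 1 := by simp only [sg]; linarith [hγ]
  have hta1 : ta γ ((cos γ, sin γ) : P) = 0 := by simp only [ta]; ring
  have hsg2 : sg γ ((-sin γ, cos γ) : P) = 0 := by simp only [sg]; ring
  have hta2 : ta γ ((-sin γ, cos γ) : P) = 1 := by simp only [ta]; linarith [hγ]
  have e1 := comb (K1 γ b M) q (cos γ, sin γ)
  have e2 := comb (K1 γ b M) q (-sin γ, cos γ)
  have e3 := comb (W1 M) q (cos γ, sin γ)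
  have e4 := comb (W1 M) q (-sin γ, cos γ)
  simp only at e1 e2 e3 e4
  have trig : ∀ ν : ℝ, cos ν = 2 * cos (ν / 2) ^ 2 - 1 ∧ sin ν = 2 * sin (ν / 2) * cos (ν / 2) := by
    intro ν
    have hν : ν = 2 * (ν / 2) := by ring
    constructor
    · conv_lhs => rw [hν]
      exact Real.cos_two_mul _
    · conv_lhs => rw [hν]
      exact Real.sin_two_mul _
  refine ⟨?_, ?_⟩
  · rw [← e1, ← e4, fderiv_K1 γ b M hs, fderiv_W1 M hs, hta1, mul_zero, zero_mul, zero_add]
    congr 1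
    ext ν
    rw [fderiv_kk, hsg1, hta1]
    obtain ⟨h1, h2⟩ := trig ν
    rw [h1, h2, Real.sin_sub]
    ring
  · rw [← e2, ← e3, fderiv_K1 γ b M hs, fderiv_W1 M hs, hta2]
    have i1 := integrable_fderiv_apply M hs (smooth_kk γ) q (-sin γ, cos γ)
    have i2 := (hasFDerivAt_param M hs (smooth_kk γ) q).2.1
    have i3 := (hasFDerivAt_param M hs smooth_EE q).2.1
    have i4 : Integrable (fun ν => EE ν q * ((cos γ * (1 + cos ν) + sin γ * sin ν) / 2)) M := by
      have := integrable_fderiv_apply M hs smooth_EE q (cos γ, sin γ)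
      simpa only [hasFDerivAt_EE] using this
    have h3 : ∫ ν, fderiv ℝ (kk γ ν) q (-sin γ, cos γ) ∂M + sin γ * ∫ ν, kk γ ν q ∂M =
        cos γ * ∫ ν, EE ν q ∂M - ∫ ν, EE ν q * ((cos γ * (1 + cos ν) + sin γ * sin ν) / 2) ∂M := by
      rw [← integral_const_mul, ← integral_const_mul, ← integral_add i1 (i2.const_mul _),
        ← integral_sub (i3.const_mul _) i4]
      congr 1
      ext ν
      rw [fderiv_kk, hsg2, hta2]
      obtain ⟨h1, h2⟩ := trig ν
      have hφ := Real.sin_sq_add_cos_sq (ν / 2)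
      rw [h1, h2, Real.sin_sub]
      linear_combination (EE ν q * cos γ) * hφ
    have h4 : K1 γ b M q = b * Real.exp (-(ta γ q * sin γ)) + ∫ ν, kk γ ν q ∂M := rfl
    have h5 : W1 M q = ∫ ν, EE ν q ∂M := rfl
    rw [h4, h5]
    linear_combination h3

/-! ### the functions `N`, `Θ` -/

/-- `∫_{-∞}^t e^{-s²}` -/
noncomputable def GG (t : ℝ) : ℝ := ∫ s in Iic t, Real.exp (-s ^ 2)

theorem int_gauss : Integrable (fun s : ℝ => Real.exp (-s ^ 2)) := by
  have := integrable_exp_neg_mul_sq (b := 1) one_pos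
  simpa using this

theorem hasDerivAt_GG (t : ℝ) : HasDerivAt GG (Real.exp (-t ^ 2)) t := by
  have h1 : GG = fun t => (∫ s in (0:ℝ)..t, Real.exp (-s ^ 2)) + GG 0 := by
    ext t
    have := intervalIntegral.integral_Iic_sub_Iic (a := 0) (b := t) int_gauss.integrableOn
      int_gauss.integrableOn
    rw [← this]
    simp only [GG]; ring
  rw [h1]
  refine HasDerivAt.add_const _ ?_
  exact intervalIntegral.integral_hasDerivAt_right
    ((by fun_prop : Continuous fun s : ℝ => Real.exp (-s ^ 2)).intervalIntegrable _ _)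
    ((by fun_prop : Continuous fun s : ℝ => Real.exp (-s ^ 2)).stronglyMeasurableAtFilter _ _)
    ((by fun_prop : Continuous fun s : ℝ => Real.exp (-s ^ 2)).continuousAt)

theorem smooth_GG : ContDiff ℝ ∞ GG := by
  rw [contDiff_infty_iff_deriv]
  refine ⟨fun t => (hasDerivAt_GG t).differentiableAt, ?_⟩
  have : deriv GG = fun t => Real.exp (-t ^ 2) := by
    ext t; exact (hasDerivAt_GG t).deriv
  rw [this]
  fun_prop

theorem Nf_eq (t : ℝ) : Nf t = Real.exp (t ^ 2) * GG t := rfl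

theorem smooth_Nf : ContDiff ℝ ∞ Nf := by
  have : Nf = fun t => Real.exp (t ^ 2) * GG t := rfl
  rw [this]
  have := smooth_GG
  fun_prop

theorem smooth_Th : ContDiff ℝ ∞ Th := by
  have : Th = fun t => 1 + 2 * t * Nf t := rfl
  rw [this]
  have := smooth_Nf
  fun_prop

theorem hasDerivAt_Nf (t : ℝ) : HasDerivAt Nf (Th t) t := by
  have h1 : HasDerivAt (fun t : ℝ => Real.exp (t ^ 2)) (Real.exp (t ^ 2) * (2 * t)) t := by
    have := ((hasDerivAt_id t).pow 2).exp
    simpa using this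
  have h2 := h1.mul (hasDerivAt_GG t)
  have h3 : Real.exp (t ^ 2) * Real.exp (-t ^ 2) = 1 := by
    rw [← Real.exp_add]; simp
  have h4 : Real.exp (t ^ 2) * (2 * t) * GG t + Real.exp (t ^ 2) * Real.exp (-t ^ 2) = Th t := by
    rw [h3, Th, Nf_eq]; ring
  rw [h4] at h2
  exact h2

theorem hasDerivAt_Th (t : ℝ) : HasDerivAt Th (2 * Nf t + 2 * t * Th t) t := by
  have h1 : HasDerivAt (fun t : ℝ => 1 + 2 * t * Nf t) (2 * 1 * Nf t + 2 * t * Th t) t :=
    (((hasDerivAt_id t).const_mul 2).mul (hasDerivAt_Nf t)).const_add 1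
  rw [mul_one] at h1
  exact h1

theorem deriv_Th : deriv Th = fun t => 2 * Nf t + 2 * t * Th t := by
  ext t; exact (hasDerivAt_Th t).deriv

theorem deriv2_Th (t : ℝ) : deriv (deriv Th) t = 2 * 1 * t * deriv Th t + 4 * Th t := by
  rw [deriv_Th]
  have h1 : HasDerivAt (fun t : ℝ => 2 * Nf t + 2 * t * Th t)
      (2 * Th t + (2 * 1 * Th t + 2 * t * (2 * Nf t + 2 * t * Th t))) t :=
    ((hasDerivAt_Nf t).const_mul 2).add (((hasDerivAt_id t).const_mul 2).mul (hasDerivAt_Th t))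
  rw [h1.deriv]
  ring

/-! decay at `-∞` -/

theorem GG_nonneg (t : ℝ) : 0 ≤ GG t := setIntegral_nonneg measurableSet_Iic fun _ _ => (Real.exp_pos _).le

theorem exp_sq_le {s : ℝ} (h : s ≤ -1) : Real.exp (-s ^ 2) ≤ Real.exp s := by
  apply Real.exp_le_exp.2
  nlinarith

theorem GG_le {t : ℝ} (h : t ≤ -1) : GG t ≤ Real.exp t := by
  rw [← integral_exp_Iic t]
  refine setIntegral_mono_on int_gauss.integrableOn (integrableOn_exp_Iic t) measurableSet_Iic ?_
  intro s hs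
  exact exp_sq_le (le_trans hs h)

theorem tendsto_pow_exp (n : ℕ) : Tendsto (fun t : ℝ => t ^ n * Real.exp t) atBot (𝓝 0) := by
  have h1 := (Real.tendsto_pow_mul_exp_neg_atTop_nhds_zero n).comp tendsto_neg_atBot_atTop
  have h2 := h1.const_mul ((-1) ^ n)
  rw [mul_zero] at h2
  refine h2.congr fun t => ?_
  simp only [Function.comp_apply, neg_neg]
  rw [neg_pow t n, ← mul_assoc, ← mul_assoc, ← pow_add, ← two_mul, pow_mul]
  norm_num

theorem tendsto_mul_GG (n : ℕ) : Tendsto (fun t : ℝ => t ^ n * GG t) atBot (𝓝 0) := by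
  rw [tendsto_zero_iff_norm_tendsto_zero]
  have h1 := (tendsto_pow_exp n).norm
  rw [norm_zero] at h1
  refine squeeze_zero' (Eventually.of_forall fun t => norm_nonneg _) ?_ h1
  filter_upwards [eventually_le_atBot (-1 : ℝ)] with t ht
  rw [norm_mul, norm_mul, Real.norm_eq_abs (GG t), Real.norm_eq_abs (Real.exp t),
    abs_of_nonneg (GG_nonneg t), abs_of_pos (Real.exp_pos t)]
  exact mul_le_mul_of_nonneg_left (GG_le ht) (norm_nonneg _)

theorem tendsto_mul_gauss (n : ℕ) : Tendsto (fun t : ℝ => t ^ n * Real.exp (-t ^ 2)) atBot (𝓝 0) := by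
  rw [tendsto_zero_iff_norm_tendsto_zero]
  have h1 := (tendsto_pow_exp n).norm
  rw [norm_zero] at h1
  refine squeeze_zero' (Eventually.of_forall fun t => norm_nonneg _) ?_ h1
  filter_upwards [eventually_le_atBot (-1 : ℝ)] with t ht
  rw [norm_mul, norm_mul, Real.norm_eq_abs (Real.exp (-t ^ 2)), Real.norm_eq_abs (Real.exp t),
    abs_of_pos (Real.exp_pos _), abs_of_pos (Real.exp_pos t)]
  exact mul_le_mul_of_nonneg_left (exp_sq_le ht) (norm_nonneg _)

theorem pos_of_deriv_pos {f f' : ℝ → ℝ} (hf : ∀ t, HasDerivAt f (f' t) t) (hp : ∀ t, 0 < f' t)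
    (hl : Tendsto f atBot (𝓝 0)) (t : ℝ) : 0 < f t := by
  have hm : StrictMono f := strictMono_of_deriv_pos fun t => by rw [(hf t).deriv]; exact hp t
  have h1 : 0 ≤ f (t - 1) := hm.monotone.le_of_tendsto hl (t - 1)
  have h2 : f (t - 1) < f t := hm (by linarith)
  linarith

theorem GG_pos (t : ℝ) : 0 < GG t :=
  pos_of_deriv_pos hasDerivAt_GG (fun _ => Real.exp_pos _) (by simpa using tendsto_mul_GG 0) t

/-- `φ(t) = e^{-t²} Θ(t)` -/
noncomputable def ph (t : ℝ) : ℝ := Real.exp (-t ^ 2) + 2 * t * GG t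

theorem hasDerivAt_ph (t : ℝ) : HasDerivAt ph (2 * GG t) t := by
  have h1 : HasDerivAt (fun t : ℝ => Real.exp (-t ^ 2)) (Real.exp (-t ^ 2) * (-(2 * t))) t := by
    have := (((hasDerivAt_id t).pow 2).neg).exp
    simpa using this
  have h2 : HasDerivAt (fun t : ℝ => Real.exp (-t ^ 2) + 2 * t * GG t)
      (Real.exp (-t ^ 2) * (-(2 * t)) + (2 * 1 * GG t + 2 * t * Real.exp (-t ^ 2))) t :=
    h1.add (((hasDerivAt_id t).const_mul 2).mul (hasDerivAt_GG t))
  have h3 : Real.exp (-t ^ 2) * (-(2 * t)) + (2 * 1 * GG t + 2 * t * Real.exp (-t ^ 2)) =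
      2 * GG t := by ring
  rw [h3] at h2
  exact h2

theorem ph_pos (t : ℝ) : 0 < ph t := by
  refine pos_of_deriv_pos hasDerivAt_ph (fun t => by have := GG_pos t; positivity) ?_ t
  have h1 := (tendsto_mul_gauss 0).add ((tendsto_mul_GG 1).const_mul 2)
  simp only [pow_zero, one_mul, pow_one, mul_zero, add_zero] at h1
  refine h1.congr fun t => ?_
  rw [ph]; ring

theorem Th_eq (t : ℝ) : Th t = Real.exp (t ^ 2) * ph t := by
  have h3 : Real.exp (t ^ 2) * Real.exp (-t ^ 2) = 1 := by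
    rw [← Real.exp_add]; simp
  rw [ph, mul_add, h3, Th, Nf_eq]; ring

theorem Th_pos (t : ℝ) : 0 < Th t := by
  rw [Th_eq]
  have := ph_pos t
  positivity

theorem Nf_pos (t : ℝ) : 0 < Nf t := by
  rw [Nf_eq]
  have := GG_pos t
  positivity

/-- `ψ(t) = e^{-t²} Θ'(t)` -/
noncomputable def ps (t : ℝ) : ℝ := 2 * GG t + 2 * t * ph t

theorem hasDerivAt_ps (t : ℝ) : HasDerivAt ps (4 * ph t) t := by
  have h2 : HasDerivAt (fun t : ℝ => 2 * GG t + 2 * t * ph t)
      (2 * Real.exp (-t ^ 2) + (2 * 1 * ph t + 2 * t * (2 * GG t))) t :=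
    ((hasDerivAt_GG t).const_mul 2).add (((hasDerivAt_id t).const_mul 2).mul (hasDerivAt_ph t))
  have h3 : 2 * Real.exp (-t ^ 2) + (2 * 1 * ph t + 2 * t * (2 * GG t)) = 4 * ph t := by
    rw [ph]; ring
  rw [h3] at h2
  exact h2

theorem ps_pos (t : ℝ) : 0 < ps t := by
  refine pos_of_deriv_pos hasDerivAt_ps (fun t => by have := ph_pos t; positivity) ?_ t
  have h1 := (((tendsto_mul_GG 0).const_mul 2).add ((tendsto_mul_gauss 1).const_mul 2)).add
    ((tendsto_mul_GG 2).const_mul 4)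
  simp only [pow_zero, one_mul, pow_one, mul_zero, add_zero] at h1
  refine h1.congr fun t => ?_
  rw [ps, ph]; ring

theorem deriv_Th_pos (t : ℝ) : 0 < deriv Th t := by
  rw [deriv_Th]
  have h1 : 2 * Nf t + 2 * t * Th t = Real.exp (t ^ 2) * ps t := by
    rw [Nf_eq, Th_eq, ps]; ring
  simp only [h1]
  have := ps_pos t
  positivity

theorem Th_mono : Monotone Th := (strictMono_of_deriv_pos deriv_Th_pos).monotone

theorem GG_mono : Monotone GG :=
  (strictMono_of_deriv_pos fun t => by rw [(hasDerivAt_GG t).deriv]; exact Real.exp_pos _).monotone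

theorem GG_bdd : ∃ C, 0 < C ∧ ∀ t, GG t ≤ C := by
  refine ⟨(∫ s, Real.exp (-s ^ 2)) + 1, ?_, fun t => ?_⟩
  · have : 0 ≤ ∫ s : ℝ, Real.exp (-s ^ 2) := integral_nonneg fun _ => (Real.exp_pos _).le
    linarith
  · have := setIntegral_le_integral (s := Iic t) int_gauss
      (Eventually.of_forall fun _ => (Real.exp_pos _).le)
    rw [GG]; linarith

theorem Th_conc (κ : ℝ) (h0 : 0 < κ) (h1 : κ < 1) :
    Tendsto (fun r => Th (κ * r) / Th r) atTop (𝓝 0) := by
  obtain ⟨C, hC, hGC⟩ := GG_bdd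
  set K := (1 + 2 * C) / (2 * GG 0) with hK
  have hlim : Tendsto (fun r : ℝ => K * Real.exp (-((1 - κ ^ 2) * r ^ 2))) atTop (𝓝 0) := by
    have e1 : Tendsto (fun r : ℝ => (1 - κ ^ 2) * r ^ 2) atTop atTop := by
      refine Tendsto.const_mul_atTop (by nlinarith) (tendsto_pow_atTop (by norm_num))
    have e2 := (Real.tendsto_exp_neg_atTop_nhds_zero.comp e1).const_mul K
    rw [mul_zero] at e2
    exact e2
  refine squeeze_zero' ?_ ?_ hlim
  · exact Eventually.of_forall fun r => (div_pos (Th_pos _) (Th_pos _)).le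
  · filter_upwards [eventually_ge_atTop (1 : ℝ)] with r hr
    have hr0 : 0 < r := by linarith
    have hG0 := GG_pos 0
    have a1 : Th (κ * r) ≤ (1 + 2 * C) * (r * Real.exp ((κ * r) ^ 2)) := by
      have b1 : 1 ≤ r * Real.exp ((κ * r) ^ 2) := by
        have := Real.one_le_exp (sq_nonneg (κ * r))
        nlinarith
      have b2 : 2 * (κ * r) * (Real.exp ((κ * r) ^ 2) * GG (κ * r)) ≤
          2 * C * (r * Real.exp ((κ * r) ^ 2)) := by
        have b3 : GG (κ * r) ≤ C := hGC _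
        have b4 : κ * r ≤ r := by nlinarith
        have b5 : 0 ≤ κ * r := by positivity
        have b6 := GG_nonneg (κ * r)
        have b7 := Real.exp_pos ((κ * r) ^ 2)
        calc 2 * (κ * r) * (Real.exp ((κ * r) ^ 2) * GG (κ * r))
            ≤ 2 * r * (Real.exp ((κ * r) ^ 2) * C) := by
              apply mul_le_mul (by linarith) (mul_le_mul_of_nonneg_left b3 b7.le)
                (by positivity) (by positivity)
          _ = 2 * C * (r * Real.exp ((κ * r) ^ 2)) := by ring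
      rw [Th, Nf_eq]
      nlinarith
    have a2 : 2 * r * (Real.exp (r ^ 2) * GG 0) ≤ Th r := by
      rw [Th, Nf_eq]
      have b1 : GG 0 ≤ GG r := GG_mono hr0.le
      have b2 := Real.exp_pos (r ^ 2)
      have b3 : 2 * r * (Real.exp (r ^ 2) * GG 0) ≤ 2 * r * (Real.exp (r ^ 2) * GG r) :=
        mul_le_mul_of_nonneg_left (mul_le_mul_of_nonneg_left b1 b2.le) (by positivity)
      linarith
    have a3 : 0 < 2 * r * (Real.exp (r ^ 2) * GG 0) := by positivity
    calc Th (κ * r) / Th r ≤ ((1 + 2 * C) * (r * Real.exp ((κ * r) ^ 2))) /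
          (2 * r * (Real.exp (r ^ 2) * GG 0)) :=
          div_le_div₀ (by positivity) a1 a3 a2
      _ = K * Real.exp (-((1 - κ ^ 2) * r ^ 2)) := by
          have e1 : Real.exp (-((1 - κ ^ 2) * r ^ 2)) =
              Real.exp ((κ * r) ^ 2) / Real.exp (r ^ 2) := by
            rw [← Real.exp_sub]; congr 1; ring
          rw [e1, hK]
          have := Real.exp_pos (r ^ 2)
          field_simp

theorem Th_facts : ContDiff ℝ ∞ Th ∧ ContDiff ℝ ∞ Nf ∧ (∀ t, 0 < Th t) ∧ (∀ t, 0 < Nf t) ∧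
    Monotone Th ∧ (∀ t, HasDerivAt Nf (Th t) t) ∧
    (∀ t, deriv (deriv Th) t = 2 * 1 * t * deriv Th t + 4 * Th t) ∧
    (∀ t, deriv Th t - 2 * t * Th t = 2 * Nf t) ∧
    (∀ κ : ℝ, 0 < κ → κ < 1 → Tendsto (fun r => Th (κ * r) / Th r) atTop (𝓝 0)) := by
  refine ⟨smooth_Th, smooth_Nf, Th_pos, Nf_pos, Th_mono, hasDerivAt_Nf, deriv2_Th, fun t => ?_,
    Th_conc⟩
  rw [deriv_Th]; ring

/-! ### W2, K2 -/

noncomputable def k2 (ν : ℝ) (q : P) : ℝ :=
  2 * (q.1 * sin ν - q.2 * cos ν) * Nf (q.1 * cos ν + q.2 * sin ν)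

noncomputable def w2 (ν : ℝ) (q : P) : ℝ := Th (q.1 * cos ν + q.2 * sin ν)

theorem smooth_w2 : ContDiff ℝ ∞ (fun x : ℝ × P => w2 x.1 x.2) := by
  unfold w2
  have := smooth_Th
  fun_prop

theorem smooth_k2 : ContDiff ℝ ∞ (fun x : ℝ × P => k2 x.1 x.2) := by
  unfold k2
  have := smooth_Nf
  fun_prop

theorem W2_smooth (M : Measure ℝ) [IsFiniteMeasure M] (hs : M (Icc (-π) π)ᶜ = 0) :
    ContDiff ℝ ∞ (W2 M) := contDiff_param M hs smooth_w2

theorem K2_smooth (b : ℝ) (M : Measure ℝ) [IsFiniteMeasure M] (hs : M (Icc (-π) π)ᶜ = 0) :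
    ContDiff ℝ ∞ (K2 b M) := contDiff_const.add (contDiff_param M hs smooth_k2)

theorem hasFDerivAt_lin (a b : ℝ) (q : P) : HasFDerivAt (fun q : P => q.1 * a + q.2 * b)
    (a • ContinuousLinearMap.fst ℝ ℝ ℝ + b • ContinuousLinearMap.snd ℝ ℝ ℝ) q := by
  have := (a • ContinuousLinearMap.fst ℝ ℝ ℝ + b • ContinuousLinearMap.snd ℝ ℝ ℝ :
    P →L[ℝ] ℝ).hasFDerivAt (x := q)
  refine this.congr_of_eventuallyEq (Eventually.of_forall fun y => ?_)
  simp; ring

theorem fderiv_w2 (ν : ℝ) (q h : P) : fderiv ℝ (w2 ν) q h =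
    deriv Th (q.1 * cos ν + q.2 * sin ν) * (h.1 * cos ν + h.2 * sin ν) := by
  have h1 := hasFDerivAt_lin (cos ν) (sin ν) q
  have h2 : HasDerivAt Th (deriv Th (q.1 * cos ν + q.2 * sin ν)) (q.1 * cos ν + q.2 * sin ν) :=
    ((smooth_Th.differentiable (by simp)) _).hasDerivAt
  have h3 : HasFDerivAt (w2 ν) _ q := HasDerivAt.comp_hasFDerivAt (h₂ := Th) q h2 h1
  rw [h3.fderiv]
  simp
  ring

theorem fderiv_k2 (ν : ℝ) (q h : P) : fderiv ℝ (k2 ν) q h =
    2 * (h.1 * sin ν - h.2 * cos ν) * Nf (q.1 * cos ν + q.2 * sin ν) +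
    2 * (q.1 * sin ν - q.2 * cos ν) * Th (q.1 * cos ν + q.2 * sin ν) *
      (h.1 * cos ν + h.2 * sin ν) := by
  have h1 := hasFDerivAt_lin (cos ν) (sin ν) q
  have h2 : HasFDerivAt (fun q : P => Nf (q.1 * cos ν + q.2 * sin ν)) _ q :=
    HasDerivAt.comp_hasFDerivAt (h₂ := Nf) q (hasDerivAt_Nf _) h1
  have h3 : HasFDerivAt (fun q : P => 2 * (q.1 * sin ν - q.2 * cos ν))
      ((2 * sin ν) • ContinuousLinearMap.fst ℝ ℝ ℝ +
        (-2 * cos ν) • ContinuousLinearMap.snd ℝ ℝ ℝ) q := by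
    refine (hasFDerivAt_lin (2 * sin ν) (-2 * cos ν) q).congr_of_eventuallyEq
      (Eventually.of_forall fun y => ?_)
    ring
  have h4 : HasFDerivAt (k2 ν) _ q := h3.mul h2
  rw [h4.fderiv]
  simp
  ring

theorem K2_relations (b : ℝ) (M : Measure ℝ) [IsFiniteMeasure M] (hs : M (Icc (-π) π)ᶜ = 0)
    (q : P) :
    d1 (K2 b M) q = d2 (W2 M) q - 2 * q.2 * W2 M q ∧
    d2 (K2 b M) q = -(d1 (W2 M) q) + 2 * q.1 * W2 M q := by
  have hW : ∀ h : P, fderiv ℝ (W2 M) q h = ∫ ν, deriv Th (q.1 * cos ν + q.2 * sin ν) *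
      (h.1 * cos ν + h.2 * sin ν) ∂M := by
    intro h
    have h1 : W2 M = fun q => ∫ ν, w2 ν q ∂M := rfl
    rw [h1, fderiv_param_apply M hs smooth_w2]
    simp_rw [fderiv_w2]
  have hWi : ∀ h : P, Integrable (fun ν => deriv Th (q.1 * cos ν + q.2 * sin ν) *
      (h.1 * cos ν + h.2 * sin ν)) M := by
    intro h
    have := integrable_fderiv_apply M hs smooth_w2 q h
    simpa only [fderiv_w2] using this
  have hwi : Integrable (fun ν => w2 ν q) M := (hasFDerivAt_param M hs smooth_w2 q).2.1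
  have hK : ∀ h : P, fderiv ℝ (K2 b M) q h = ∫ ν, (2 * (h.1 * sin ν - h.2 * cos ν) *
      Nf (q.1 * cos ν + q.2 * sin ν) +
      2 * (q.1 * sin ν - q.2 * cos ν) * Th (q.1 * cos ν + q.2 * sin ν) *
      (h.1 * cos ν + h.2 * sin ν)) ∂M := by
    intro h
    have h1 : K2 b M = fun q => b + ∫ ν, k2 ν q ∂M := rfl
    rw [h1, fderiv_const_add, fderiv_param_apply M hs smooth_k2]
    simp_rw [fderiv_k2]
  have hTh : ∀ t, deriv Th t = 2 * Nf t + 2 * t * Th t := fun t => by rw [deriv_Th]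
  have hW2 : W2 M q = ∫ ν, w2 ν q ∂M := rfl
  constructor
  · rw [d1, d2, hK, hW, hW2, ← integral_const_mul, ← integral_sub (hWi _) (hwi.const_mul _)]
    congr 1
    ext ν
    have hν := Real.sin_sq_add_cos_sq ν
    rw [hTh, w2]
    simp only
    linear_combination (-2 * q.2 * Th (q.1 * cos ν + q.2 * sin ν)) * hν
  · rw [d1, d2, hK, hW, hW2, neg_add_eq_sub, ← integral_const_mul,
      ← integral_sub (hwi.const_mul _) (hWi _)]
    congr 1
    ext ν
    have hν := Real.sin_sq_add_cos_sq ν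
    rw [hTh, w2]
    simp only
    linear_combination (2 * q.1 * Th (q.1 * cos ν + q.2 * sin ν)) * hν

/-! ### primitives -/

theorem fd_mul {f g : P → ℝ} {q : P} (hf : DifferentiableAt ℝ f q) (hg : DifferentiableAt ℝ g q)
    (h : P) : fderiv ℝ (fun q => f q * g q) q h = f q * fderiv ℝ g q h + g q * fderiv ℝ f q h := by
  have h3 : HasFDerivAt (fun q => f q * g q) _ q := hf.hasFDerivAt.mul hg.hasFDerivAt
  rw [h3.fderiv]
  simp

theorem fd_lin {f g : P → ℝ} {q : P} (hf : DifferentiableAt ℝ f q) (hg : DifferentiableAt ℝ g q)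
    (c1 c2 : ℝ) (h : P) : fderiv ℝ (fun q => c1 * f q + c2 * g q) q h =
      c1 * fderiv ℝ f q h + c2 * fderiv ℝ g q h := by
  have h3 : HasFDerivAt (fun q => c1 * f q + c2 * g q) _ q :=
    (hf.hasFDerivAt.const_mul c1).add (hg.hasFDerivAt.const_mul c2)
  rw [h3.fderiv]
  simp

theorem fd_exp {f : P → ℝ} {q : P} (hf : DifferentiableAt ℝ f q)
    (h : P) : fderiv ℝ (fun q => Real.exp (f q)) q h = Real.exp (f q) * fderiv ℝ f q h := by
  rw [hf.hasFDerivAt.exp.fderiv]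
  simp

theorem exists_primitive {a b : P → ℝ} (ha : ContDiff ℝ ∞ a) (hb : ContDiff ℝ ∞ b)
    (hc : ∀ q, fderiv ℝ a q (0, 1) = fderiv ℝ b q (1, 0)) (c : ℝ) :
    ∃ f : P → ℝ, ContDiff ℝ ∞ f ∧ f 0 = c ∧ ∀ q h, fderiv ℝ f q h = a q * h.1 + b q * h.2 := by
  let w : P → P →L[ℝ] ℝ := fun q => a q • ContinuousLinearMap.fst ℝ ℝ ℝ +
    b q • ContinuousLinearMap.snd ℝ ℝ ℝ
  have hw : ContDiff ℝ ∞ w := (ha.smul contDiff_const).add (hb.smul contDiff_const)
  have hfd : ∀ q x y, fderiv ℝ w q x y = fderiv ℝ a q x * y.1 + fderiv ℝ b q x * y.2 := by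
    intro q x y
    have h1 : HasFDerivAt a (fderiv ℝ a q) q := ((ha.differentiable (by simp)) q).hasFDerivAt
    have h2 : HasFDerivAt b (fderiv ℝ b q) q := ((hb.differentiable (by simp)) q).hasFDerivAt
    have h3 : HasFDerivAt w _ q := (h1.smul_const (ContinuousLinearMap.fst ℝ ℝ ℝ)).add
      (h2.smul_const (ContinuousLinearMap.snd ℝ ℝ ℝ))
    rw [h3.fderiv]
    simp
  have hwd : DifferentiableOn ℝ w univ := (hw.differentiable (by simp)).differentiableOn
  obtain ⟨f, hf⟩ := convex_univ.exists_forall_hasFDerivAt_of_fderiv_symmetric isOpen_univ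
    hwd (by
      intro q _ x y
      rw [hfd, hfd]
      have h1 := comb a q x
      have h2 := comb a q y
      have h3 := comb b q x
      have h4 := comb b q y
      have h5 : d2 a q = d1 b q := hc q
      rw [h1, h2, h3, h4, h5]
      ring)
  have hf' : ∀ q, HasFDerivAt f (w q) q := fun q => hf q (mem_univ q)
  have hfs : ContDiff ℝ ∞ f := by
    rw [contDiff_infty_iff_fderiv]
    refine ⟨fun q => (hf' q).differentiableAt, ?_⟩
    have : fderiv ℝ f = w := by ext1 q; exact (hf' q).fderiv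
    rw [this]; exact hw
  refine ⟨fun q => f q + (c - f 0), hfs.add contDiff_const, by ring, fun q h => ?_⟩
  rw [fderiv_add_const, (hf' q).fderiv]
  simp [w]

theorem typeI_exists (γ b : ℝ) (M : Measure ℝ) [IsFiniteMeasure M] (hs : M (Icc (-π) π)ᶜ = 0)
    (hM : M ≠ 0) (p0 : P) : ∃ F : P → P, ContDiff ℝ ∞ F ∧ F 0 = p0 ∧ TypeI γ b M F := by
  have hW := W1_smooth M hs
  have hK := K1_smooth γ b M hs
  have dW : ∀ q, DifferentiableAt ℝ (W1 M) q := fun q => hW.differentiable (by simp) q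
  have dK : ∀ q, DifferentiableAt ℝ (K1 γ b M) q := fun q => hK.differentiable (by simp) q
  obtain ⟨f, f1, f2, f3⟩ := exists_primitive
    (a := fun q => cos γ * W1 M q + (-sin γ) * K1 γ b M q)
    (b := fun q => sin γ * W1 M q + cos γ * K1 γ b M q) (by fun_prop) (by fun_prop) (by
      intro q
      rw [fd_lin (dW q) (dK q), fd_lin (dW q) (dK q)]
      have := (K1_relations γ b M hs q).1
      simp only [d1, d2] at this
      linarith) p0.1
  have dE : ∀ q : P, DifferentiableAt ℝ (fun q : P => Real.exp (-q.1)) q := fun q => by fun_prop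
  have fdE : ∀ q h : P, fderiv ℝ (fun q : P => Real.exp (-q.1)) q h = Real.exp (-q.1) * (-h.1) := by
    intro q h
    rw [fd_exp (by fun_prop)]
    congr 1
    have : HasFDerivAt (fun q : P => -q.1) (-ContinuousLinearMap.fst ℝ ℝ ℝ) q :=
      (-ContinuousLinearMap.fst ℝ ℝ ℝ).hasFDerivAt
    rw [this.fderiv]; simp
  obtain ⟨g, g1, g2, g3⟩ := exists_primitive
    (a := fun q => Real.exp (-q.1) * ((-sin γ) * W1 M q + (-cos γ) * K1 γ b M q))
    (b := fun q => Real.exp (-q.1) * (cos γ * W1 M q + (-sin γ) * K1 γ b M q))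
    (by fun_prop) (by fun_prop) (by
      intro q
      rw [fd_mul (dE q) (by have := dW q; have := dK q; fun_prop), fd_mul (dE q)
        (by have := dW q; have := dK q; fun_prop), fd_lin (dW q) (dK q), fd_lin (dW q) (dK q),
        fdE, fdE]
      have := (K1_relations γ b M hs q).2
      simp only [d1, d2] at this
      linear_combination (-Real.exp (-q.1)) * this) p0.2
  refine ⟨fun q => (f q, g q), f1.prodMk g1, Prod.ext f2 g2, inferInstance, hs, hM, ?_, ?_⟩
  · exact (f1.differentiable (by simp)).prodMk (g1.differentiable (by simp))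
  · intro q h
    have h1 : HasFDerivAt f (fderiv ℝ f q) q := ((f1.differentiable (by simp)) q).hasFDerivAt
    have h2 : HasFDerivAt g (fderiv ℝ g q) q := ((g1.differentiable (by simp)) q).hasFDerivAt
    have h3 : HasFDerivAt (fun q => (f q, g q)) _ q := h1.prodMk h2
    rw [h3.fderiv]
    simp only [ContinuousLinearMap.prod_apply, f3, g3, sg, ta]
    refine Prod.ext ?_ ?_
    · ring
    · ring

theorem typeII_exists (h0 b : ℝ) (M : Measure ℝ) [IsFiniteMeasure M] (hs : M (Icc (-π) π)ᶜ = 0)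
    (hM : M ≠ 0) (p0 : P) : ∃ F : P → P, ContDiff ℝ ∞ F ∧ F 0 = p0 ∧ TypeII h0 b M F := by
  have hW := W2_smooth M hs
  have hK := K2_smooth b M hs
  have dW : ∀ q, DifferentiableAt ℝ (W2 M) q := fun q => hW.differentiable (by simp) q
  have dK : ∀ q, DifferentiableAt ℝ (K2 b M) q := fun q => hK.differentiable (by simp) q
  have dE : ∀ q : P, DifferentiableAt ℝ (fun q : P => Real.exp (-q.2 ^ 2)) q := fun q => by fun_prop
  have fdE : ∀ q h : P, fderiv ℝ (fun q : P => Real.exp (-q.2 ^ 2)) q h =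
      Real.exp (-q.2 ^ 2) * (-2 * q.2 * h.2) := by
    intro q h
    rw [fd_exp (by fun_prop)]
    congr 1
    have h1 : HasFDerivAt (fun q : P => q.2) (ContinuousLinearMap.snd ℝ ℝ ℝ) q :=
      (ContinuousLinearMap.snd ℝ ℝ ℝ).hasFDerivAt
    have h2 : HasFDerivAt (fun q : P => -q.2 ^ 2) _ q := (h1.pow 2).neg
    rw [h2.fderiv]; simp
  obtain ⟨f, f1, f2, f3⟩ := exists_primitive
    (a := fun q => Real.exp (-q.2 ^ 2) * W2 M q)
    (b := fun q => Real.exp (-q.2 ^ 2) * K2 b M q) (by fun_prop) (by fun_prop) (by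
      intro q
      rw [fd_mul (dE q) (dW q), fd_mul (dE q) (dK q), fdE, fdE]
      have := (K2_relations b M hs q).1
      simp only [d1, d2] at this
      rw [this]
      simp only
      ring) p0.1
  have dE' : ∀ q : P, DifferentiableAt ℝ (fun q : P => Real.exp (-h0 - q.1 ^ 2)) q :=
    fun q => by fun_prop
  have fdE' : ∀ q h : P, fderiv ℝ (fun q : P => Real.exp (-h0 - q.1 ^ 2)) q h =
      Real.exp (-h0 - q.1 ^ 2) * (-2 * q.1 * h.1) := by
    intro q h
    rw [fd_exp (by fun_prop)]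
    congr 1
    have h1 : HasFDerivAt (fun q : P => q.1) (ContinuousLinearMap.fst ℝ ℝ ℝ) q :=
      (ContinuousLinearMap.fst ℝ ℝ ℝ).hasFDerivAt
    have h2 : HasFDerivAt (fun q : P => -h0 - q.1 ^ 2) _ q := (h1.pow 2).const_sub (-h0)
    rw [h2.fderiv]; simp
  obtain ⟨g, g1, g2, g3⟩ := exists_primitive
    (a := fun q => Real.exp (-h0 - q.1 ^ 2) * (0 * W2 M q + (-1) * K2 b M q))
    (b := fun q => Real.exp (-h0 - q.1 ^ 2) * W2 M q)
    (by fun_prop) (by fun_prop) (by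
      intro q
      rw [fd_mul (dE' q) (by have := dW q; have := dK q; fun_prop), fd_mul (dE' q) (dW q),
        fd_lin (dW q) (dK q), fdE', fdE']
      have := (K2_relations b M hs q).2
      simp only [d1, d2] at this
      rw [this]
      simp only
      ring) p0.2
  refine ⟨fun q => (f q, g q), f1.prodMk g1, Prod.ext f2 g2, inferInstance, hs, hM, ?_, ?_⟩
  · exact (f1.differentiable (by simp)).prodMk (g1.differentiable (by simp))
  · intro q h
    have h1 : HasFDerivAt f (fderiv ℝ f q) q := ((f1.differentiable (by simp)) q).hasFDerivAt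
    have h2 : HasFDerivAt g (fderiv ℝ g q) q := ((g1.differentiable (by simp)) q).hasFDerivAt
    have h3 : HasFDerivAt (fun q => (f q, g q)) _ q := h1.prodMk h2
    rw [h3.fderiv]
    simp only [ContinuousLinearMap.prod_apply, f3, g3]
    refine Prod.ext ?_ ?_
    · ring
    · ring

end Pool.Agent.EU.C0

namespace Pool.Agent.EU

theorem Th_facts : ContDiff ℝ ∞ Th ∧ ContDiff ℝ ∞ Nf ∧ (∀ t, 0 < Th t) ∧ (∀ t, 0 < Nf t) ∧
    Monotone Th ∧ (∀ t, HasDerivAt Nf (Th t) t) ∧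
    (∀ t, deriv (deriv Th) t = 2 * 1 * t * deriv Th t + 4 * Th t) ∧
    (∀ t, deriv Th t - 2 * t * Th t = 2 * Nf t) ∧
    (∀ κ : ℝ, 0 < κ → κ < 1 → Tendsto (fun r => Th (κ * r) / Th r) atTop (𝓝 0)) := C0.Th_facts

theorem typeI_exists (γ b : ℝ) (M : Measure ℝ) [IsFiniteMeasure M] (hs : M (Icc (-π) π)ᶜ = 0)
    (hM : M ≠ 0) (p0 : P) : ∃ F : P → P, ContDiff ℝ ∞ F ∧ F 0 = p0 ∧ TypeI γ b M F :=
  C0.typeI_exists γ b M hs hM p0

theorem W1_smooth (M : Measure ℝ) [IsFiniteMeasure M] (hs : M (Icc (-π) π)ᶜ = 0) :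
    ContDiff ℝ ∞ (W1 M) := C0.W1_smooth M hs

theorem K1_smooth (γ b : ℝ) (M : Measure ℝ) [IsFiniteMeasure M] (hs : M (Icc (-π) π)ᶜ = 0) :
    ContDiff ℝ ∞ (K1 γ b M) := C0.K1_smooth γ b M hs

theorem typeII_exists (h0 b : ℝ) (M : Measure ℝ) [IsFiniteMeasure M] (hs : M (Icc (-π) π)ᶜ = 0)
    (hM : M ≠ 0) (p0 : P) : ∃ F : P → P, ContDiff ℝ ∞ F ∧ F 0 = p0 ∧ TypeII h0 b M F :=
  C0.typeII_exists h0 b M hs hM p0

theorem W2_smooth (M : Measure ℝ) [IsFiniteMeasure M] (hs : M (Icc (-π) π)ᶜ = 0) :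
    ContDiff ℝ ∞ (W2 M) := C0.W2_smooth M hs

theorem K2_smooth (b : ℝ) (M : Measure ℝ) [IsFiniteMeasure M] (hs : M (Icc (-π) π)ᶜ = 0) :
    ContDiff ℝ ∞ (K2 b M) := C0.K2_smooth b M hs

/-- relations between `W1` and `K1` : partial derivatives in the rotated frame. -/
theorem K1_relations (γ b : ℝ) (M : Measure ℝ) [IsFiniteMeasure M] (hs : M (Icc (-π) π)ᶜ = 0)
    (q : P) :
    (cos γ * d1 (K1 γ b M) q + sin γ * d2 (K1 γ b M) q =
      -(sin γ) * d1 (W1 M) q + cos γ * d2 (W1 M) q) ∧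
    (-(sin γ) * d1 (K1 γ b M) q + cos γ * d2 (K1 γ b M) q + sin γ * K1 γ b M q =
      cos γ * W1 M q - (cos γ * d1 (W1 M) q + sin γ * d2 (W1 M) q)) :=
  C0.K1_relations γ b M hs q

theorem K2_relations (b : ℝ) (M : Measure ℝ) [IsFiniteMeasure M] (hs : M (Icc (-π) π)ᶜ = 0)
    (q : P) :
    d1 (K2 b M) q = d2 (W2 M) q - 2 * q.2 * W2 M q ∧
    d2 (K2 b M) q = -(d1 (W2 M) q) + 2 * q.1 * W2 M q := C0.K2_relations b M hs q

end Pool.Agent.EU
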