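import Pool.Agent.EU.Types
import Pool.Agent.EU.Area

/-!
Modules C3, C4, C5: injectivity, existence and uniqueness of `u`.
-/

set_option autoImplicit false
open scoped ContDiff Topology ENNReal
open Real Set MeasureTheory Filter

namespace Pool.Agent.EU.C3

/-! ## C3: injectivity -/

section inj

variable {f g : P → ℝ}

/-- local monotonicity along level sets of `f` -/
theorem local_level {a b a' b' : ℝ} {z : P} (ha : 0 < a) (hdet : 0 < a * b' - a' * b)
    (hf : HasFDerivAt f (a • ContinuousLinearMap.fst ℝ ℝ ℝ + b • ContinuousLinearMap.snd ℝ ℝ ℝ) z)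
    (hg : HasFDerivAt g (a' • ContinuousLinearMap.fst ℝ ℝ ℝ + b' • ContinuousLinearMap.snd ℝ ℝ ℝ) z) :
    ∃ ρ > 0, ∀ w : P, |w.1 - z.1| < ρ → |w.2 - z.2| < ρ → f w = f z →
      (z.2 < w.2 → g z < g w) ∧ (w.2 < z.2 → g w < g z) := by
  set C : ℝ := 1 + 2 * |b| / a with hC
  have hC1 : 1 ≤ C := by
    have : 0 ≤ 2 * |b| / a := by positivity
    linarith
  set D : ℝ := a * b' - a' * b with hD
  set η : ℝ := min (a / 2) (D / (2 * ((|a'| + a) * C))) with hη
  have hden : 0 < 2 * ((|a'| + a) * C) := by positivity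
  have hη0 : 0 < η := lt_min (by positivity) (by positivity)
  have hη1 : η ≤ a / 2 := min_le_left _ _
  have hη2 : η * ((|a'| + a) * C) ≤ D / 2 := by
    have : η ≤ D / (2 * ((|a'| + a) * C)) := min_le_right _ _
    calc η * ((|a'| + a) * C) ≤ D / (2 * ((|a'| + a) * C)) * ((|a'| + a) * C) :=
          mul_le_mul_of_nonneg_right this (by positivity)
      _ = D / 2 := by field_simp
  have e1 := (hasFDerivAt_iff_isLittleO.1 hf).def hη0
  have e2 := (hasFDerivAt_iff_isLittleO.1 hg).def hη0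
  obtain ⟨ρ, hρ, hball⟩ := Metric.eventually_nhds_iff.1 (e1.and e2)
  refine ⟨ρ, hρ, fun w h1 h2 hw => ?_⟩
  have hdist : dist w z < ρ := by
    rw [Prod.dist_eq, Real.dist_eq, Real.dist_eq]
    exact max_lt h1 h2
  obtain ⟨k1, k2⟩ := hball hdist
  set s := w.1 - z.1 with hs
  set t := w.2 - z.2 with ht
  set m := max |s| |t| with hm
  have hnorm : ‖w - z‖ = m := by
    rw [Prod.norm_def]; simp [hm, hs, ht, Real.norm_eq_abs]
  have hk1 : |a * s + b * t| ≤ η * m := by
    have : f w - f z - (a • ContinuousLinearMap.fst ℝ ℝ ℝ + b • ContinuousLinearMap.snd ℝ ℝ ℝ) (w - z)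
        = -(a * s + b * t) := by
      rw [hw]
      simp [hs, ht]
    rw [this, norm_neg, hnorm, Real.norm_eq_abs] at k1
    exact k1
  have hk2 : |g w - g z - (a' * s + b' * t)| ≤ η * m := by
    have : g w - g z - (a' • ContinuousLinearMap.fst ℝ ℝ ℝ + b' • ContinuousLinearMap.snd ℝ ℝ ℝ) (w - z)
        = g w - g z - (a' * s + b' * t) := by
      simp [hs, ht]
    rw [this, hnorm, Real.norm_eq_abs] at k2
    exact k2
  have hm0 : 0 ≤ m := le_max_of_le_left (abs_nonneg _)
  have hmC : m ≤ C * |t| := by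
    rcases le_total |s| |t| with h | h
    · have : m = |t| := max_eq_right h
      rw [this]
      nlinarith [abs_nonneg t]
    · have hms : m = |s| := max_eq_left h
      rw [hms] at hk1 ⊢
      have h3 : a * |s| ≤ |b| * |t| + η * |s| := by
        have h4 : |a * s| ≤ |a * s + b * t| + |b * t| := by
          have : a * s = (a * s + b * t) - b * t := by ring
          calc |a * s| = |(a * s + b * t) - b * t| := by rw [← this]
            _ ≤ |a * s + b * t| + |b * t| := abs_sub _ _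
        rw [abs_mul, abs_of_pos ha, abs_mul] at h4
        linarith
      have h5 : η * |s| ≤ a / 2 * |s| := mul_le_mul_of_nonneg_right hη1 (abs_nonneg _)
      have h6 : a / 2 * |s| ≤ |b| * |t| := by linarith
      have h7 : |s| ≤ 2 * |b| / a * |t| := by
        have : |s| = 2 / a * (a / 2 * |s|) := by field_simp
        rw [this]
        calc 2 / a * (a / 2 * |s|) ≤ 2 / a * (|b| * |t|) :=
              mul_le_mul_of_nonneg_left h6 (by positivity)
          _ = 2 * |b| / a * |t| := by ring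
      rw [hC]
      nlinarith [abs_nonneg t]
  -- main estimate
  have hmain : |a * (g w - g z) - D * t| ≤ D / 2 * |t| := by
    have h3 : a * (g w - g z) - D * t =
        a * (g w - g z - (a' * s + b' * t)) + a' * (a * s + b * t) := by
      rw [hD]; ring
    rw [h3]
    calc |a * (g w - g z - (a' * s + b' * t)) + a' * (a * s + b * t)|
        ≤ |a * (g w - g z - (a' * s + b' * t))| + |a' * (a * s + b * t)| := abs_add_le _ _
      _ = a * |g w - g z - (a' * s + b' * t)| + |a'| * |a * s + b * t| := by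
          rw [abs_mul, abs_mul, abs_of_pos ha]
      _ ≤ a * (η * m) + |a'| * (η * m) := by
          gcongr
      _ = η * (|a'| + a) * m := by ring
      _ ≤ η * (|a'| + a) * (C * |t|) := by gcongr
      _ = η * ((|a'| + a) * C) * |t| := by ring
      _ ≤ D / 2 * |t| := by gcongr
  have hb := abs_le.1 hmain
  constructor
  · intro hlt
    have ht0 : 0 < t := by rw [ht]; linarith
    rw [abs_of_pos ht0] at hb
    have : 0 < a * (g w - g z) := by nlinarith [hb.1]
    have := (mul_pos_iff_of_pos_left ha).1 this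
    linarith
  · intro hlt
    have ht0 : t < 0 := by rw [ht]; linarith
    rw [abs_of_neg ht0] at hb
    have : 0 < a * (g z - g w) := by nlinarith [hb.2]
    have := (mul_pos_iff_of_pos_left ha).1 this
    linarith

/-- the level set of `f` near `z` is trapped -/
theorem trap (hf : Continuous f) (hmono : ∀ t, StrictMono fun s => f (s, t)) (z : P) {ρ : ℝ}
    (hρ : 0 < ρ) : ∃ ε > 0, ∀ t, |t - z.2| < ε →
      (∃ s, |s - z.1| < ρ ∧ f (s, t) = f z) ∧ ∀ s, f (s, t) = f z → |s - z.1| < ρ := by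
  have h1 : f z < f (z.1 + ρ / 2, z.2) := hmono z.2 (show z.1 < z.1 + ρ / 2 by linarith)
  have h2 : f (z.1 - ρ / 2, z.2) < f z := hmono z.2 (show z.1 - ρ / 2 < z.1 by linarith)
  have c1 : Continuous fun t : ℝ => f (z.1 + ρ / 2, t) := by fun_prop
  have c2 : Continuous fun t : ℝ => f (z.1 - ρ / 2, t) := by fun_prop
  have e1 : ∀ᶠ t in 𝓝 z.2, f z < f (z.1 + ρ / 2, t) := c1.continuousAt.eventually_const_lt h1
  have e2 : ∀ᶠ t in 𝓝 z.2, f (z.1 - ρ / 2, t) < f z := c2.continuousAt.eventually_lt_const h2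
  obtain ⟨ε, hε, hball⟩ := Metric.eventually_nhds_iff.1 (e1.and e2)
  refine ⟨ε, hε, fun t ht => ?_⟩
  obtain ⟨k1, k2⟩ := hball (by rw [Real.dist_eq]; exact ht : dist t z.2 < ε)
  have key : ∀ s, f (s, t) = f z → |s - z.1| < ρ := by
    intro s hs
    have l1 : s < z.1 + ρ / 2 := by
      by_contra hc
      have := (hmono t).monotone (not_lt.1 hc)
      linarith
    have l2 : z.1 - ρ / 2 < s := by
      by_contra hc
      have := (hmono t).monotone (not_lt.1 hc)
      linarith
    rw [abs_lt]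
    constructor <;> linarith
  refine ⟨?_, key⟩
  have c3 : ContinuousOn (fun s : ℝ => f (s, t)) (Icc (z.1 - ρ / 2) (z.1 + ρ / 2)) := by
    have : Continuous fun s : ℝ => f (s, t) := by fun_prop
    exact this.continuousOn
  obtain ⟨s, -, hs⟩ := intermediate_value_Icc (by linarith) c3 ⟨k2.le, k1.le⟩
  exact ⟨s, key s hs, hs⟩

/-- the second coordinate increases along the level sets of the first one, also across gaps -/
theorem level_mono (hf : Continuous f) (hmono : ∀ t, StrictMono fun s => f (s, t))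
    (hgmono : ∀ s, StrictMono fun t => g (s, t))
    (hloc : ∀ z : P, ∃ ρ > 0, ∀ w : P, |w.1 - z.1| < ρ → |w.2 - z.2| < ρ → f w = f z →
      (z.2 < w.2 → g z < g w) ∧ (w.2 < z.2 → g w < g z))
    {z0 z1 : P} (hz : f z0 = f z1) (hlt : z0.2 < z1.2) : g z0 < g z1 := by
  by_contra hcon
  push Not at hcon
  set c := f z0 with hc
  set Bad : Set ℝ := {t | z0.2 < t ∧ ∃ s, f (s, t) = c ∧ g (s, t) ≤ g z0} with hBad
  have hne : Bad.Nonempty := ⟨z1.2, hlt, z1.1, hz.symm, hcon⟩
  have hbdd : BddBelow Bad := ⟨z0.2, fun t ht => ht.1.le⟩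
  set τ := sInf Bad with hτ
  have hτ0 : z0.2 ≤ τ := le_csInf hne fun t ht => ht.1.le
  have hgood : ∀ t, z0.2 < t → t < τ → ∀ s, f (s, t) = c → g z0 < g (s, t) := by
    intro t h1 h2 s hs
    by_contra h
    exact absurd (csInf_le hbdd (⟨h1, s, hs, not_lt.1 h⟩ : t ∈ Bad)) (not_le.2 h2)
  have happ : ∀ ε > 0, ∃ t ∈ Bad, t < τ + ε := by
    intro ε hε
    exact exists_lt_of_csInf_lt hne (by linarith)
  by_cases hI : ∃ σ, f (σ, τ) = c
  · obtain ⟨σ, hσ⟩ := hI
    obtain ⟨ρ, hρ, hl⟩ := hloc (σ, τ)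
    obtain ⟨ε, hε, htrap⟩ := trap hf hmono (σ, τ) hρ
    simp only at hl htrap
    by_cases hbad : z0.2 < τ ∧ g (σ, τ) ≤ g z0
    · -- a smaller bad point
      set t := max ((z0.2 + τ) / 2) (τ - min (ε / 2) (ρ / 2)) with ht
      have hmin : 0 < min (ε / 2) (ρ / 2) := lt_min (by linarith) (by linarith)
      have t1 : z0.2 < t := lt_of_lt_of_le (by linarith [hbad.1]) (le_max_left _ _)
      have t2 : t < τ := max_lt (by linarith [hbad.1]) (by linarith)
      have t3 : τ - min (ε / 2) (ρ / 2) ≤ t := le_max_right _ _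
      have t4 : |t - τ| < ε := by
        rw [abs_lt]
        have := min_le_left (ε / 2) (ρ / 2)
        constructor <;> linarith
      have t5 : |t - τ| < ρ := by
        rw [abs_lt]
        have := min_le_right (ε / 2) (ρ / 2)
        constructor <;> linarith
      obtain ⟨⟨s, hs1, hs2⟩, -⟩ := htrap t t4
      have h3 := (hl (s, t) hs1 t5 hs2).2 t2
      have h4 := hgood t t1 t2 s (hs2.trans hσ)
      linarith [hbad.2]
    · -- no bad points near
      have hge : g z0 ≤ g (σ, τ) := by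
        rcases hτ0.eq_or_lt with h | h
        · have : σ = z0.1 := by
            have h0 : f (σ, z0.2) = c := by rw [h]; exact hσ
            have h1 : f (σ, z0.2) = f (z0.1, z0.2) := h0
            exact (hmono z0.2).injective h1
          rw [this, ← h]
        · by_contra hc'
          exact hbad ⟨h, (not_le.1 hc').le⟩
      obtain ⟨t, ⟨ht0, s, hs, hgs⟩, htlt⟩ := happ (min ε ρ) (lt_min hε hρ)
      have hle : τ ≤ t := csInf_le hbdd ⟨ht0, s, hs, hgs⟩
      rcases hle.eq_or_lt with h | h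
      · have : s = σ := by
          have h1 : f (s, τ) = f (σ, τ) := by rw [hσ, h, hs]
          exact (hmono τ).injective h1
        rw [this, ← h] at hgs
        exact hbad ⟨h ▸ ht0, hgs⟩
      · have h1 := min_le_left ε ρ
        have h2 := min_le_right ε ρ
        have h3 : |t - τ| < ε := by rw [abs_lt]; constructor <;> linarith
        have h4 : |t - τ| < ρ := by rw [abs_lt]; constructor <;> linarith
        have h5 := (htrap t h3).2 s (hs.trans hσ.symm)
        have h6 := (hl (s, t) h5 h4 (hs.trans hσ.symm)).1 h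
        linarith
  · -- `τ` is in a gap
    push Not at hI
    have hlt0 : z0.2 < τ := by
      refine lt_of_le_of_ne hτ0 fun h => hI z0.1 ?_
      rw [← h]
    have hcont : Continuous fun s : ℝ => f (s, τ) := by fun_prop
    -- a common way to conclude
    have fin : ∀ t s, t ∈ Bad → f (s, t) = c → g (s, t) ≤ g z0 → τ < t →
        (∃ t' ∈ Ioo z0.2 τ, f (s, t') = c) → False := by
      rintro t s - hs hgs ht ⟨t', ⟨h1, h2⟩, h3⟩
      have h4 := hgood t' h1 h2 s h3
      have h5 : g (s, t') < g (s, t) := hgmono s (show t' < t by linarith)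
      linarith
    have hcase : (∀ s, f (s, τ) < c) ∨ (∀ s, c < f (s, τ)) := by
      by_contra hh
      push Not at hh
      obtain ⟨⟨s1, h1⟩, s2, h2⟩ := hh
      obtain ⟨s, hs⟩ := mem_range_of_exists_le_of_exists_ge hcont ⟨s2, h2⟩ ⟨s1, h1⟩
      exact hI s hs
    have hvert : ∀ s, Continuous fun t : ℝ => f (s, t) := fun s => by fun_prop
    rcases hcase with hneg | hpos
    · have h1 := hneg (z0.1 + 1)
      have e1 : ∀ᶠ t in 𝓝 τ, f (z0.1 + 1, t) < c :=
        (hvert (z0.1 + 1)).continuousAt.eventually_lt_const h1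
      obtain ⟨ε, hε, hball⟩ := Metric.eventually_nhds_iff.1 e1
      obtain ⟨t, hb, htlt⟩ := happ ε hε
      obtain ⟨ht0, s, hs, hgs⟩ := hb
      have hle : τ ≤ t := csInf_le hbdd ⟨ht0, s, hs, hgs⟩
      have hlt' : τ < t := lt_of_le_of_ne hle fun h => hI s (by rw [h]; exact hs)
      have h2 : f (z0.1 + 1, t) < c := hball (by rw [Real.dist_eq, abs_lt]; constructor <;> linarith)
      have h3 : z0.1 + 1 < s := by
        by_contra hc'
        have := (hmono t).monotone (not_lt.1 hc')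
        linarith
      refine fin t s ⟨ht0, s, hs, hgs⟩ hs hgs hlt' ?_
      have h4 : c < f (s, z0.2) := by
        have : f (z0.1, z0.2) < f (s, z0.2) := hmono z0.2 (show z0.1 < s by linarith)
        exact this
      have h5 : f (s, τ) < c := hneg s
      obtain ⟨t', ht', h6⟩ := intermediate_value_Ioo' hlt0.le (hvert s).continuousOn ⟨h5, h4⟩
      exact ⟨t', ht', h6⟩
    · have h1 := hpos (z0.1 - 1)
      have e1 : ∀ᶠ t in 𝓝 τ, c < f (z0.1 - 1, t) :=
        (hvert (z0.1 - 1)).continuousAt.eventually_const_lt h1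
      obtain ⟨ε, hε, hball⟩ := Metric.eventually_nhds_iff.1 e1
      obtain ⟨t, hb, htlt⟩ := happ ε hε
      obtain ⟨ht0, s, hs, hgs⟩ := hb
      have hle : τ ≤ t := csInf_le hbdd ⟨ht0, s, hs, hgs⟩
      have hlt' : τ < t := lt_of_le_of_ne hle fun h => hI s (by rw [h]; exact hs)
      have h2 : c < f (z0.1 - 1, t) := hball (by rw [Real.dist_eq, abs_lt]; constructor <;> linarith)
      have h3 : s < z0.1 - 1 := by
        by_contra hc'
        have := (hmono t).monotone (not_lt.1 hc')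
        linarith
      refine fin t s ⟨ht0, s, hs, hgs⟩ hs hgs hlt' ?_
      have h4 : f (s, z0.2) < c := by
        have : f (s, z0.2) < f (z0.1, z0.2) := hmono z0.2 (show s < z0.1 by linarith)
        exact this
      have h5 : c < f (s, τ) := hpos s
      obtain ⟨t', ht', h6⟩ := intermediate_value_Ioo hlt0.le (hvert s).continuousOn ⟨h4, h5⟩
      exact ⟨t', ht', h6⟩

end inj


/-- the rotation by the angle `γ` -/
noncomputable def rot (γ : ℝ) (z : P) : P := (z.1 * cos γ - z.2 * sin γ, z.1 * sin γ + z.2 * cos γ)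

theorem rot_sg_ta (γ : ℝ) (q : P) : rot γ (sg γ q, ta γ q) = q := by
  have h := sin_sq_add_cos_sq γ
  apply Prod.ext
  · simp only [rot, sg, ta]
    linear_combination q.1 * h
  · simp only [rot, sg, ta]
    linear_combination q.2 * h

theorem hasDerivAt_rot1 (γ s t : ℝ) :
    HasDerivAt (fun s => rot γ (s, t)) ((cos γ, sin γ) : P) s := by
  have h1 : HasDerivAt (fun s : ℝ => s * cos γ - t * sin γ) (cos γ) s := by
    simpa using ((hasDerivAt_id s).mul_const (cos γ)).sub_const (t * sin γ)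
  have h2 : HasDerivAt (fun s : ℝ => s * sin γ + t * cos γ) (sin γ) s := by
    simpa using ((hasDerivAt_id s).mul_const (sin γ)).add_const (t * cos γ)
  exact h1.prodMk h2

theorem hasDerivAt_rot2 (γ s t : ℝ) :
    HasDerivAt (fun t => rot γ (s, t)) ((-(sin γ), cos γ) : P) t := by
  have h1 : HasDerivAt (fun t : ℝ => s * cos γ - t * sin γ) (-(sin γ)) t := by
    simpa using ((hasDerivAt_id t).mul_const (sin γ)).const_sub (s * cos γ)
  have h2 : HasDerivAt (fun t : ℝ => s * sin γ + t * cos γ) (cos γ) t := by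
    simpa using ((hasDerivAt_id t).mul_const (cos γ)).const_add (s * sin γ)
  exact h1.prodMk h2

/-- the rotation as a linear map -/
noncomputable def rotL (γ : ℝ) : P →L[ℝ] P :=
  (cos γ • ContinuousLinearMap.fst ℝ ℝ ℝ - sin γ • ContinuousLinearMap.snd ℝ ℝ ℝ).prod
    (sin γ • ContinuousLinearMap.fst ℝ ℝ ℝ + cos γ • ContinuousLinearMap.snd ℝ ℝ ℝ)

theorem rotL_apply (γ : ℝ) (z : P) : rotL γ z = rot γ z := by
  apply Prod.ext
  · simp [rotL, rot]; ring
  · simp [rotL, rot]; ring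

theorem rot_eq (γ : ℝ) : rot γ = rotL γ := funext fun z => (rotL_apply γ z).symm

theorem injective_of_pos {F : P → P} (hF : ContDiff ℝ 1 F) (γ : ℝ)
    (h1 : ∀ q, 0 < (fderiv ℝ F q (cos γ, sin γ)).1)
    (h2 : ∀ q, 0 < (fderiv ℝ F q (-(sin γ), cos γ)).2)
    (hJ : ∀ q, 0 < (fderiv ℝ F q).det) : Function.Injective F := by
  set f : P → ℝ := fun z => (F (rot γ z)).1 with hf
  set g : P → ℝ := fun z => (F (rot γ z)).2 with hg
  have hFd : ∀ q, HasFDerivAt F (fderiv ℝ F q) q :=
    fun q => ((hF.differentiable (by simp)) q).hasFDerivAt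
  have hrc : Continuous (rot γ) := by rw [rot_eq]; exact (rotL γ).continuous
  have hfc : Continuous f := continuous_fst.comp (hF.continuous.comp hrc)
  have e1 : ∀ z : P, HasDerivAt (fun s => F (rot γ (s, z.2)))
      (fderiv ℝ F (rot γ z) (cos γ, sin γ)) z.1 :=
    fun z => (hFd (rot γ z)).comp_hasDerivAt z.1 (hasDerivAt_rot1 γ z.1 z.2)
  have e2 : ∀ z : P, HasDerivAt (fun t => F (rot γ (z.1, t)))
      (fderiv ℝ F (rot γ z) (-(sin γ), cos γ)) z.2 :=
    fun z => (hFd (rot γ z)).comp_hasDerivAt z.2 (hasDerivAt_rot2 γ z.1 z.2)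
  have hmono : ∀ t, StrictMono fun s => f (s, t) := by
    intro t
    apply strictMono_of_deriv_pos
    intro s
    have : HasDerivAt (fun s => f (s, t)) (fderiv ℝ F (rot γ (s, t)) (cos γ, sin γ)).1 s :=
      (ContinuousLinearMap.fst ℝ ℝ ℝ).hasFDerivAt.comp_hasDerivAt s (e1 (s, t))
    rw [this.deriv]
    exact h1 _
  have hgmono : ∀ s, StrictMono fun t => g (s, t) := by
    intro s
    apply strictMono_of_deriv_pos
    intro t
    have : HasDerivAt (fun t => g (s, t)) (fderiv ℝ F (rot γ (s, t)) (-(sin γ), cos γ)).2 t :=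
      (ContinuousLinearMap.snd ℝ ℝ ℝ).hasFDerivAt.comp_hasDerivAt t (e2 (s, t))
    rw [this.deriv]
    exact h2 _
  have hloc : ∀ z : P, ∃ ρ > 0, ∀ w : P, |w.1 - z.1| < ρ → |w.2 - z.2| < ρ → f w = f z →
      (z.2 < w.2 → g z < g w) ∧ (w.2 < z.2 → g w < g z) := by
    intro z
    have hr : HasFDerivAt (rot γ) (rotL γ) z := by rw [rot_eq]; exact (rotL γ).hasFDerivAt
    have hG := (hFd (rot γ z)).comp z hr
    set L := fderiv ℝ F (rot γ z) with hL
    have hdec : ∀ h : P, L (rotL γ h) = h.1 • L (cos γ, sin γ) + h.2 • L (-(sin γ), cos γ) := by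
      intro h
      rw [← map_smul, ← map_smul, ← map_add, rotL_apply]
      congr 1
      apply Prod.ext <;> simp [rot] <;> ring
    have k1 : HasFDerivAt f ((L (cos γ, sin γ)).1 • ContinuousLinearMap.fst ℝ ℝ ℝ +
        (L (-(sin γ), cos γ)).1 • ContinuousLinearMap.snd ℝ ℝ ℝ) z := by
      have := hG.fst
      refine this.congr_fderiv ?_
      ext <;> simp [hdec]
    have k2 : HasFDerivAt g ((L (cos γ, sin γ)).2 • ContinuousLinearMap.fst ℝ ℝ ℝ +
        (L (-(sin γ), cos γ)).2 • ContinuousLinearMap.snd ℝ ℝ ℝ) z := by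
      have := hG.snd
      refine this.congr_fderiv ?_
      ext <;> simp [hdec]
    refine local_level (h1 _) ?_ k1 k2
    have hd := hJ (rot γ z)
    rw [det_eq] at hd
    have p1 : L (cos γ, sin γ) = cos γ • d1 F (rot γ z) + sin γ • d2 F (rot γ z) :=
      fderiv_apply_eq F (rot γ z) (cos γ, sin γ)
    have p2 : L (-(sin γ), cos γ) = (-(sin γ)) • d1 F (rot γ z) + cos γ • d2 F (rot γ z) :=
      fderiv_apply_eq F (rot γ z) (-(sin γ), cos γ)
    rw [p1, p2]
    simp only [Prod.fst_add, Prod.snd_add, Prod.smul_fst, Prod.smul_snd, smul_eq_mul]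
    have hsc := sin_sq_add_cos_sq γ
    have : (cos γ * (d1 F (rot γ z)).1 + sin γ * (d2 F (rot γ z)).1) *
        (-sin γ * (d1 F (rot γ z)).2 + cos γ * (d2 F (rot γ z)).2) -
        (cos γ * (d1 F (rot γ z)).2 + sin γ * (d2 F (rot γ z)).2) *
        (-sin γ * (d1 F (rot γ z)).1 + cos γ * (d2 F (rot γ z)).1) =
        (d1 F (rot γ z)).1 * (d2 F (rot γ z)).2 - (d2 F (rot γ z)).1 * (d1 F (rot γ z)).2 := by
      linear_combination ((d1 F (rot γ z)).1 * (d2 F (rot γ z)).2 -
        (d2 F (rot γ z)).1 * (d1 F (rot γ z)).2) * hsc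
    rw [this]
    exact hd
  intro x y hxy
  set z0 : P := (sg γ x, ta γ x) with hz0
  set z1 : P := (sg γ y, ta γ y) with hz1
  have hx : rot γ z0 = x := rot_sg_ta γ x
  have hy : rot γ z1 = y := rot_sg_ta γ y
  have hfz : f z0 = f z1 := by simp only [hf]; rw [hx, hy, hxy]
  have hgz : g z0 = g z1 := by simp only [hg]; rw [hx, hy, hxy]
  have hz : z0 = z1 := by
    rcases lt_trichotomy z0.2 z1.2 with h | h | h
    · exact absurd hgz (ne_of_lt (level_mono hfc hmono hgmono hloc hfz h))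
    · apply Prod.ext _ h
      have h3 : f (z0.1, z0.2) = f (z1.1, z0.2) := by
        rw [show ((z1.1, z0.2) : P) = z1 from Prod.ext rfl h]
        exact hfz
      exact (hmono z0.2).injective h3
    · exact absurd hgz.symm (ne_of_lt (level_mono hfc hmono hgmono hloc hfz.symm h))
  rw [← hx, ← hy, hz]

/-! ## C4: existence of `u`, C5: uniqueness -/

/-- Poincare lemma in the plane -/
theorem poincare {p q : P → ℝ} (hp : ContDiff ℝ 1 p) (hq : ContDiff ℝ 1 q)
    (h : ∀ x, d2 p x = d1 q x) :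
    ∃ g : P → ℝ, ∀ x, HasFDerivAt g
      (p x • ContinuousLinearMap.fst ℝ ℝ ℝ + q x • ContinuousLinearMap.snd ℝ ℝ ℝ) x := by
  set om : P → P →L[ℝ] ℝ := fun x =>
    p x • ContinuousLinearMap.fst ℝ ℝ ℝ + q x • ContinuousLinearMap.snd ℝ ℝ ℝ with hom
  have hpd : ∀ x, DifferentiableAt ℝ p x := fun x => (hp.differentiable (by simp)) x
  have hqd : ∀ x, DifferentiableAt ℝ q x := fun x => (hq.differentiable (by simp)) x
  have homd : ∀ x, HasFDerivAt om ((fderiv ℝ p x).smulRight (ContinuousLinearMap.fst ℝ ℝ ℝ) +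
      (fderiv ℝ q x).smulRight (ContinuousLinearMap.snd ℝ ℝ ℝ)) x := by
    intro x
    have a1 : HasFDerivAt (fun x => p x • ContinuousLinearMap.fst ℝ ℝ ℝ)
        ((fderiv ℝ p x).smulRight (ContinuousLinearMap.fst ℝ ℝ ℝ)) x :=
      (hpd x).hasFDerivAt.smul_const (ContinuousLinearMap.fst ℝ ℝ ℝ)
    have a2 : HasFDerivAt (fun x => q x • ContinuousLinearMap.snd ℝ ℝ ℝ)
        ((fderiv ℝ q x).smulRight (ContinuousLinearMap.snd ℝ ℝ ℝ)) x :=
      (hqd x).hasFDerivAt.smul_const (ContinuousLinearMap.snd ℝ ℝ ℝ)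
    exact a1.add a2
  have hdo : DifferentiableOn ℝ om univ :=
    fun x _ => (homd x).differentiableAt.differentiableWithinAt
  have hsym : ∀ x ∈ (univ : Set P), ∀ a b, fderiv ℝ om x a b = fderiv ℝ om x b a := by
    intro x _ a b
    rw [(homd x).fderiv]
    simp only [add_apply, ContinuousLinearMap.smulRight_apply,
      smul_apply, ContinuousLinearMap.coe_fst', ContinuousLinearMap.coe_snd',
      smul_eq_mul]
    rw [fderiv_apply_eq p x a, fderiv_apply_eq p x b, fderiv_apply_eq q x a,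
      fderiv_apply_eq q x b]
    simp only [smul_eq_mul]
    rw [h x]
    ring
  obtain ⟨g, hg⟩ := convex_univ.exists_forall_hasFDerivAt_of_fderiv_symmetric
    isOpen_univ hdo hsym
  exact ⟨g, fun x => hg x (mem_univ x)⟩

theorem d1_of_fderiv {g : P → ℝ} {a b : ℝ} {x : P} (h : HasFDerivAt g
    (a • ContinuousLinearMap.fst ℝ ℝ ℝ + b • ContinuousLinearMap.snd ℝ ℝ ℝ) x) : d1 g x = a := by
  unfold d1; rw [h.fderiv]; simp

theorem d2_of_fderiv {g : P → ℝ} {a b : ℝ} {x : P} (h : HasFDerivAt g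
    (a • ContinuousLinearMap.fst ℝ ℝ ℝ + b • ContinuousLinearMap.snd ℝ ℝ ℝ) x) : d2 g x = b := by
  unfold d2; rw [h.fderiv]; simp

theorem contDiff_of_fderiv {g p q : P → ℝ} {n : ℕ} (hp : ContDiff ℝ n p) (hq : ContDiff ℝ n q)
    (h : ∀ x, HasFDerivAt g
    (p x • ContinuousLinearMap.fst ℝ ℝ ℝ + q x • ContinuousLinearMap.snd ℝ ℝ ℝ) x) :
    ContDiff ℝ (n + 1) g := by
  rw [contDiff_succ_iff_fderiv]
  refine ⟨fun x => (h x).differentiableAt, by simp, ?_⟩
  have : fderiv ℝ g = fun x =>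
      p x • ContinuousLinearMap.fst ℝ ℝ ℝ + q x • ContinuousLinearMap.snd ℝ ℝ ℝ :=
    funext fun x => (h x).fderiv
  rw [this]
  exact (hp.smul contDiff_const).add (hq.smul contDiff_const)

theorem exists_u {A v : P → ℝ} (hA : ContDiff ℝ 1 A) (hv : ContDiff ℝ 1 v)
    (h1 : ∀ x, d1 v x = -(Real.exp (-(A x)) * d2 A x)) (h2 : ∀ x, d2 v x = Real.exp (A x) * d1 A x) :
    ∃ u : P → ℝ, ContDiff ℝ 3 u ∧ (∀ x, d1 (d1 u) x = Real.exp (-(A x))) ∧
      (∀ x, d2 (d1 u) x = v x) ∧ (∀ x, d2 (d2 u) x = Real.exp (A x)) := by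
  have hAd : ∀ x, DifferentiableAt ℝ A x := fun x => (hA.differentiable (by simp)) x
  have hE : ContDiff ℝ 1 fun x => Real.exp (A x) := Real.contDiff_exp.comp hA
  have hE' : ContDiff ℝ 1 fun x => Real.exp (-(A x)) := Real.contDiff_exp.comp hA.neg
  have k1 : ∀ x, d2 (fun x => Real.exp (-(A x))) x = -(Real.exp (-(A x)) * d2 A x) := by
    intro x
    have := (hAd x).hasFDerivAt.fun_neg.exp
    unfold d2
    rw [this.fderiv]
    simp
  have k2 : ∀ x, d1 (fun x => Real.exp (A x)) x = Real.exp (A x) * d1 A x := by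
    intro x
    have := (hAd x).hasFDerivAt.exp
    unfold d1
    rw [this.fderiv]
    simp
  obtain ⟨g1, hg1⟩ := poincare hE' hv (fun x => by rw [k1, h1])
  obtain ⟨g2, hg2⟩ := poincare hv hE (fun x => by rw [k2, h2])
  have c1 : ContDiff ℝ 2 g1 := contDiff_of_fderiv (n := 1) hE' hv hg1
  have c2 : ContDiff ℝ 2 g2 := contDiff_of_fderiv (n := 1) hv hE hg2
  obtain ⟨u, hu⟩ := poincare (c1.of_le (by norm_num)) (c2.of_le (by norm_num))
    (fun x => by rw [d2_of_fderiv (hg1 x), d1_of_fderiv (hg2 x)])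
  have cu : ContDiff ℝ 3 u := contDiff_of_fderiv (n := 2) c1 c2 hu
  have du1 : d1 u = g1 := funext fun x => d1_of_fderiv (hu x)
  have du2 : d2 u = g2 := funext fun x => d2_of_fderiv (hu x)
  refine ⟨u, cu, ?_, ?_, ?_⟩
  · intro x; rw [du1]; exact d1_of_fderiv (hg1 x)
  · intro x; rw [du1]; exact d2_of_fderiv (hg1 x)
  · intro x; rw [du2]; exact d2_of_fderiv (hg2 x)

theorem const_of_partials {f : P → ℝ} (hf : Differentiable ℝ f) (h1 : ∀ x, d1 f x = 0)
    (h2 : ∀ x, d2 f x = 0) : ∀ x, f x = f 0 := by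
  intro x
  apply is_const_of_fderiv_eq_zero hf
  intro y
  ext
  · have := h1 y
    unfold d1 at this
    simpa using this
  · have := h2 y
    unfold d2 at this
    simpa using this

theorem affine_of_hess_eq {u w : P → ℝ} (hu : ContDiff ℝ 2 u) (hw : ContDiff ℝ 2 w)
    (h11 : ∀ x, d1 (d1 u) x = d1 (d1 w) x) (h12 : ∀ x, d2 (d1 u) x = d2 (d1 w) x)
    (h22 : ∀ x, d2 (d2 u) x = d2 (d2 w) x) :
    ∃ a b c : ℝ, ∀ x : P, u x = w x + a * x.1 + b * x.2 + c := by
  have hu1 : ContDiff ℝ 1 (d1 u) := contDiff_d1 hu (by norm_num)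
  have hu2 : ContDiff ℝ 1 (d2 u) := contDiff_d2 hu (by norm_num)
  have hw1 : ContDiff ℝ 1 (d1 w) := contDiff_d1 hw (by norm_num)
  have hw2 : ContDiff ℝ 1 (d2 w) := contDiff_d2 hw (by norm_num)
  have hsub1 : ∀ {f g : P → ℝ} (x : P), DifferentiableAt ℝ f x → DifferentiableAt ℝ g x →
      d1 (fun y => f y - g y) x = d1 f x - d1 g x := by
    intro f g x hf hg
    unfold d1
    rw [fderiv_fun_sub hf hg]; rfl
  have hsub2 : ∀ {f g : P → ℝ} (x : P), DifferentiableAt ℝ f x → DifferentiableAt ℝ g x →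
      d2 (fun y => f y - g y) x = d2 f x - d2 g x := by
    intro f g x hf hg
    unfold d2
    rw [fderiv_fun_sub hf hg]; rfl
  have hd : ∀ {f : P → ℝ}, ContDiff ℝ 1 f → ∀ x, DifferentiableAt ℝ f x :=
    fun h x => (h.differentiable (by simp)) x
  have k1 := const_of_partials (f := fun x => d1 u x - d1 w x)
    (hu1.sub hw1 |>.differentiable (by simp))
    (fun x => by rw [hsub1 x (hd hu1 x) (hd hw1 x), h11, sub_self])
    (fun x => by rw [hsub2 x (hd hu1 x) (hd hw1 x), h12, sub_self])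
  have k2 := const_of_partials (f := fun x => d2 u x - d2 w x)
    (hu2.sub hw2 |>.differentiable (by simp))
    (fun x => by
      rw [hsub1 x (hd hu2 x) (hd hw2 x), d1_d2_comm hu, d1_d2_comm hw, h12, sub_self])
    (fun x => by rw [hsub2 x (hd hu2 x) (hd hw2 x), h22, sub_self])
  set a := d1 u 0 - d1 w 0 with ha
  set b := d2 u 0 - d2 w 0 with hb
  have hu0 : Differentiable ℝ u := hu.differentiable (by norm_num)
  have hw0 : Differentiable ℝ w := hw.differentiable (by norm_num)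
  have hlin : ∀ x : P, HasFDerivAt (fun y : P => a * y.1 + b * y.2)
      (a • ContinuousLinearMap.fst ℝ ℝ ℝ + b • ContinuousLinearMap.snd ℝ ℝ ℝ) x := by
    intro x
    exact (hasFDerivAt_fst.const_mul a).add (hasFDerivAt_snd.const_mul b)
  have k3 := const_of_partials (f := fun x => (u x - w x) - (a * x.1 + b * x.2))
    ((hu0.sub hw0).sub (fun x => (hlin x).differentiableAt))
    (fun x => by
      rw [hsub1 x ((hu0 x).fun_sub (hw0 x)) (hlin x).differentiableAt, d1_of_fderiv (hlin x),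
        hsub1 x (hu0 x) (hw0 x), k1 x, sub_self])
    (fun x => by
      rw [hsub2 x ((hu0 x).fun_sub (hw0 x)) (hlin x).differentiableAt, d2_of_fderiv (hlin x),
        hsub2 x (hu0 x) (hw0 x), k2 x, sub_self])
  refine ⟨a, b, (u 0 - w 0) - (a * (0 : P).1 + b * (0 : P).2), fun x => ?_⟩
  have := k3 x
  linarith

theorem sol_of_u {u : P → ℝ} (hu : ContDiff ℝ ∞ u) (hpos : ∀ x, 0 < d1 (d1 u) x)
    (h : ∀ x, d1 (d1 u) x * d2 (d2 u) x = 1) :
    Sol (fun x => Real.log (d2 (d2 u) x)) (d2 (d1 u)) := by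
  have hpos2 : ∀ x, 0 < d2 (d2 u) x := by
    intro x
    have h1 := hpos x
    have h2 := h x
    by_contra hc
    have : d1 (d1 u) x * d2 (d2 u) x ≤ 0 := mul_nonpos_of_nonneg_of_nonpos h1.le (not_lt.1 hc)
    linarith
  have s1 := smooth_d1 hu
  have s2 := smooth_d2 hu
  have s11 := smooth_d1 s1
  have s22 := smooth_d2 s2
  have e1 : ∀ x, Real.exp (Real.log (d2 (d2 u) x)) = d2 (d2 u) x :=
    fun x => Real.exp_log (hpos2 x)
  have e2 : ∀ x, Real.exp (-Real.log (d2 (d2 u) x)) = d1 (d1 u) x := by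
    intro x
    rw [Real.exp_neg, e1]
    have h2 := h x
    have := (hpos2 x).ne'
    field_simp
    linarith
  have hd : ∀ x, DifferentiableAt ℝ (d2 (d2 u)) x := fun x => (s22.differentiable (by simp)) x
  have cA : ContDiff ℝ ∞ fun x => Real.log (d2 (d2 u) x) := s22.log fun x => (hpos2 x).ne'
  have l1 : ∀ x, d1 (fun x => Real.log (d2 (d2 u) x)) x = (d2 (d2 u) x)⁻¹ * d1 (d2 (d2 u)) x := by
    intro x
    have := (hd x).hasFDerivAt.log (hpos2 x).ne'
    show fderiv ℝ (fun x => Real.log (d2 (d2 u) x)) x (1, 0) = _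
    rw [this.fderiv]; rfl
  have l2 : ∀ x, d2 (fun x => Real.log (d2 (d2 u) x)) x = (d2 (d2 u) x)⁻¹ * d2 (d2 (d2 u)) x := by
    intro x
    have := (hd x).hasFDerivAt.log (hpos2 x).ne'
    show fderiv ℝ (fun x => Real.log (d2 (d2 u) x)) x (0, 1) = _
    rw [this.fderiv]; rfl
  refine ⟨cA, smooth_d2 s1, ?_, ?_⟩
  · intro x
    have k1 : d1 (d2 (d1 u)) x = d2 (d1 (d1 u)) x := d1_d2_comm (s1.of_le (by norm_cast)) x
    have k2 : d1 (d1 u) = fun x => Real.exp (-Real.log (d2 (d2 u) x)) := (funext e2).symm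
    have k3 : d2 (fun x => Real.exp (-Real.log (d2 (d2 u) x))) x =
        -(Real.exp (-Real.log (d2 (d2 u) x)) * d2 (fun x => Real.log (d2 (d2 u) x)) x) := by
      have := ((cA.differentiable (by simp)) x).hasFDerivAt.fun_neg.exp
      show fderiv ℝ (fun x => Real.exp (-Real.log (d2 (d2 u) x))) x (0, 1) =
        -(Real.exp (-Real.log (d2 (d2 u) x)) *
          fderiv ℝ (fun x => Real.log (d2 (d2 u) x)) x (0, 1))
      rw [this.fderiv]
      simp
    rw [k1, k2, k3]
  · intro x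
    have k0 : d2 (d1 u) = d1 (d2 u) := by
      funext y
      exact (d1_d2_comm (hu.of_le (by norm_cast)) y).symm
    have k1 : d2 (d2 (d1 u)) x = d1 (d2 (d2 u)) x := by
      rw [k0]
      exact (d1_d2_comm (s2.of_le (by norm_cast)) x).symm
    rw [k1, e1, l1]
    have := (hpos2 x).ne'
    field_simp


/-! ### the inverse map -/

theorem det_frame {F : P → P} {γ a b c d : ℝ} {q : P}
    (h1 : fderiv ℝ F q (cos γ, sin γ) = (a, c)) (h2 : fderiv ℝ F q (-(sin γ), cos γ) = (b, d)) :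
    (fderiv ℝ F q).det = a * d - b * c := by
  have hsc := sin_sq_add_cos_sq γ
  set L := fderiv ℝ F q with hL
  have e1 : d1 F q = cos γ • L (cos γ, sin γ) - sin γ • L (-(sin γ), cos γ) := by
    rw [← map_smul, ← map_smul, ← map_sub]
    show L (1, 0) = _
    congr 1
    apply Prod.ext
    · simp; linear_combination -hsc
    · simp; ring
  have e2 : d2 F q = sin γ • L (cos γ, sin γ) + cos γ • L (-(sin γ), cos γ) := by
    rw [← map_smul, ← map_smul, ← map_add]
    show L (0, 1) = _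
    congr 1
    apply Prod.ext
    · simp; ring
    · simp; linear_combination -hsc
  rw [hL, det_eq, e1, e2, h1, h2]
  simp only [Prod.fst_add, Prod.snd_add, Prod.smul_fst, Prod.smul_snd, smul_eq_mul, Prod.fst_sub,
    Prod.snd_sub]
  linear_combination (a * d - b * c) * hsc

/-- From a surjective map to a solution. -/
theorem u_of_map {F : P → P} (hF : ContDiff ℝ 1 F) (hsurj : Function.Surjective F) (γ : ℝ)
    {a b W κ : P → ℝ} (ha : ∀ q, 0 < a q) (hb : ∀ q, 0 < b q) (hW : ∀ q, 0 < W q)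
    (h1 : ∀ q, fderiv ℝ F q (cos γ, sin γ) = (a q * W q, -(b q * κ q)))
    (h2 : ∀ q, fderiv ℝ F q (-(sin γ), cos γ) = (a q * κ q, b q * W q))
    {α β : P → ℝ} (hα : ContDiff ℝ 1 α) (hβ : ContDiff ℝ 1 β)
    (hab : ∀ q, Real.exp (α q) * b q = a q)
    (c1 : ∀ q, fderiv ℝ α q (-(sin γ), cos γ) = -(fderiv ℝ β q (cos γ, sin γ)))
    (c2 : ∀ q, fderiv ℝ α q (cos γ, sin γ) = fderiv ℝ β q (-(sin γ), cos γ)) :
    Function.Injective F ∧ ∃ u : P → ℝ, ContDiff ℝ 3 u ∧ ∀ q : P,
      d1 (d1 u) (F q) = Real.exp (-(α q)) ∧ d2 (d1 u) (F q) = β q ∧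
      d2 (d2 u) (F q) = Real.exp (α q) := by
  have hdet : ∀ q, 0 < (fderiv ℝ F q).det := by
    intro q
    rw [det_frame (h1 q) (h2 q)]
    have h3 := ha q
    have h4 := hb q
    have h5 := hW q
    have : a q * W q * (b q * W q) - a q * κ q * -(b q * κ q) =
        a q * b q * (W q ^ 2 + κ q ^ 2) := by ring
    rw [this]
    positivity
  have hinj : Function.Injective F := by
    apply injective_of_pos hF γ
    · intro q; rw [h1 q]; exact mul_pos (ha q) (hW q)
    · intro q; rw [h2 q]; exact mul_pos (hb q) (hW q)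
    · exact hdet
  refine ⟨hinj, ?_⟩
  set F' : P → P ≃L[ℝ] P := fun q =>
    (fderiv ℝ F q).toContinuousLinearEquivOfDetNeZero (hdet q).ne' with hF'
  have hst : ∀ q, HasStrictFDerivAt F (F' q : P →L[ℝ] P) q := by
    intro q
    have h3 : (F' q : P →L[ℝ] P) = fderiv ℝ F q :=
      ContinuousLinearMap.coe_toContinuousLinearEquivOfDetNeZero _ _
    rw [h3]
    exact hF.contDiffAt.hasStrictFDerivAt (by simp)
  have hopen : IsOpenMap F := isOpenMap_of_hasStrictFDerivAt_equiv hst
  set e : P ≃ₜ P := (Equiv.ofBijective F ⟨hinj, hsurj⟩).toHomeomorphOfContinuousOpen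
    hF.continuous hopen with he
  have heF : ∀ q, e q = F q := fun q => rfl
  have hG : ContDiff ℝ 1 e.symm := e.contDiff_symm (fun q => (hst q).hasFDerivAt) hF
  have hGF : ∀ q, e.symm (F q) = q := fun q => e.symm_apply_apply q
  set A : P → ℝ := fun x => α (e.symm x) with hA
  set v : P → ℝ := fun x => β (e.symm x) with hv
  have cA : ContDiff ℝ 1 A := hα.comp hG
  have cv : ContDiff ℝ 1 v := hβ.comp hG
  have chain : ∀ (φ : P → ℝ), ContDiff ℝ 1 φ → ∀ q h : P,
      (fderiv ℝ F q h).1 * d1 (fun x => φ (e.symm x)) (F q) +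
        (fderiv ℝ F q h).2 * d2 (fun x => φ (e.symm x)) (F q) = fderiv ℝ φ q h := by
    intro φ hφ q h
    have k1 : HasFDerivAt (fun x => φ (e.symm x)) (fderiv ℝ (fun x => φ (e.symm x)) (F q)) (F q) :=
      (((hφ.comp hG).differentiable (by simp)) (F q)).hasFDerivAt
    have k2 : HasFDerivAt F (fderiv ℝ F q) q := ((hF.differentiable (by simp)) q).hasFDerivAt
    have k3 := k1.comp q k2
    have k4 : (fun x => φ (e.symm x)) ∘ F = φ := by
      funext y
      simp only [Function.comp_apply, hGF]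
    rw [k4] at k3
    rw [k3.fderiv]
    simp only [ContinuousLinearMap.comp_apply]
    rw [fderiv_apply_eq (fun x => φ (e.symm x)) (F q)]
    simp only [smul_eq_mul]
  have main : ∀ q, d1 v (F q) = -(Real.exp (-(A (F q))) * d2 A (F q)) ∧
      d2 v (F q) = Real.exp (A (F q)) * d1 A (F q) := by
    intro q
    have p1 := chain α hα q (cos γ, sin γ)
    have p2 := chain α hα q (-(sin γ), cos γ)
    have p3 := chain β hβ q (cos γ, sin γ)
    have p4 := chain β hβ q (-(sin γ), cos γ)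
    rw [h1 q] at p1 p3
    rw [h2 q] at p2 p4
    rw [c1 q, ← p3] at p2
    rw [c2 q, ← p4] at p1
    have hAq : A (F q) = α q := by simp only [hA, hGF]
    rw [hAq, Real.exp_neg]
    have hE := hab q
    have hEpos := Real.exp_pos (α q)
    have ha0 := ha q
    have hb0 := hb q
    have hW0 := hW q
    change a q * W q * d1 A (F q) + -(b q * κ q) * d2 A (F q) =
      a q * κ q * d1 v (F q) + b q * W q * d2 v (F q) at p1
    change a q * κ q * d1 A (F q) + b q * W q * d2 A (F q) =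
      -(a q * W q * d1 v (F q) + -(b q * κ q) * d2 v (F q)) at p2
    rw [← hE] at p1 p2
    set E := Real.exp (α q) with hEdef
    have hD : 0 < W q ^ 2 + κ q ^ 2 := by positivity
    have r1 : E * d1 v (F q) + d2 A (F q) = 0 := by
      have : b q * (W q ^ 2 + κ q ^ 2) * (E * d1 v (F q) + d2 A (F q)) = 0 := by
        linear_combination (W q) * p2 - (κ q) * p1
      rcases mul_eq_zero.1 this with h | h
      · exact absurd h (by positivity)
      · exact h
    have r2 : d2 v (F q) - E * d1 A (F q) = 0 := by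
      have : b q * (W q ^ 2 + κ q ^ 2) * (d2 v (F q) - E * d1 A (F q)) = 0 := by
        linear_combination -(W q) * p1 - (κ q) * p2
      rcases mul_eq_zero.1 this with h | h
      · exact absurd h (by positivity)
      · exact h
    constructor
    · have : d1 v (F q) = -(E⁻¹ * d2 A (F q)) := by
        field_simp
        linarith
      exact this
    · linarith
  obtain ⟨u, hu, hu1, hu2, hu3⟩ := exists_u cA cv
    (fun x => by
      obtain ⟨q, rfl⟩ := hsurj x
      exact (main q).1)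
    (fun x => by
      obtain ⟨q, rfl⟩ := hsurj x
      exact (main q).2)
  refine ⟨u, hu, fun q => ⟨?_, ?_, ?_⟩⟩
  · rw [hu1]; simp only [hA, hGF]
  · rw [hu2]; simp only [hv, hGF]
  · rw [hu3]; simp only [hA, hGF]

/-- a map with the given continuous derivative is `C¹` -/
theorem contDiff_one_of_dF {F : P → P} (hd : Differentiable ℝ F)
    (h : ∀ y : P, Continuous fun q => fderiv ℝ F q y) : ContDiff ℝ 1 F := by
  rw [contDiff_one_iff_fderiv]
  exact ⟨hd, continuous_clm_apply.2 h⟩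

theorem integral_pos_of_pos {M : Measure ℝ} [IsFiniteMeasure M] (hs : M (Icc (-π) π)ᶜ = 0)
    (hM : M ≠ 0) {f : ℝ → ℝ} (hf : Continuous f) (hpos : ∀ t, 0 < f t) : 0 < ∫ t, f t ∂M := by
  have hr : M.restrict (Icc (-π) π) = M := by
    rw [Measure.restrict_eq_self_of_ae_mem]
    rw [ae_iff]
    exact hs
  have hint : Integrable f M := by
    have := hf.integrableOn_Icc (μ := M) (a := -π) (b := π)
    rw [IntegrableOn, hr] at this
    exact this
  rw [integral_pos_iff_support_of_nonneg (fun t => (hpos t).le) hint]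
  have : Function.support f = univ := by
    ext t; simp [(hpos t).ne']
  rw [this]
  exact (Measure.measure_univ_pos).2 hM

theorem sg_cs (γ : ℝ) : sg γ (cos γ, sin γ) = 1 := by
  have := sin_sq_add_cos_sq γ
  simp only [sg]; linarith

theorem ta_cs (γ : ℝ) : ta γ (cos γ, sin γ) = 0 := by
  simp only [ta]; ring

theorem sg_sc (γ : ℝ) : sg γ (-(sin γ), cos γ) = 0 := by
  simp only [sg]; ring

theorem ta_sc (γ : ℝ) : ta γ (-(sin γ), cos γ) = 1 := by
  have := sin_sq_add_cos_sq γ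
  simp only [ta]; linarith

/-- From a surjective `TypeI` map to a solution, given continuity of `W` and `κ`. -/
theorem u_of_typeI_aux {γ b : ℝ} {M : Measure ℝ} {F : P → P} (hF : TypeI γ b M F)
    (hsurj : Function.Surjective F) (cW : Continuous (W1 M)) (cK : Continuous (K1 γ b M)) :
    Function.Injective F ∧ ∃ u : P → ℝ, ContDiff ℝ 3 u ∧ ∀ q : P, d1 (d1 u) (F q) = Real.exp (-q.1) ∧
      d2 (d1 u) (F q) = q.2 ∧ d2 (d2 u) (F q) = Real.exp q.1 := by
  haveI := hF.fin
  have hWpos : ∀ q, 0 < W1 M q := by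
    intro q
    refine integral_pos_of_pos hF.supp hF.nz ?_ (fun ν => Real.exp_pos _)
    unfold EE
    fun_prop
  have hC1 : ContDiff ℝ 1 F := by
    refine contDiff_one_of_dF hF.diff fun y => ?_
    have : (fun q => fderiv ℝ F q y) = fun q => (W1 M q * sg γ y + K1 γ b M q * ta γ y,
      Real.exp (-q.1) * (W1 M q * ta γ y - K1 γ b M q * sg γ y)) := funext fun q => hF.dF q y
    rw [this]
    fun_prop
  have dfst : ∀ q h : P, fderiv ℝ (fun q : P => q.1) q h = h.1 := by
    intro q h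
    rw [(hasFDerivAt_fst (𝕜 := ℝ) (p := q)).fderiv]; rfl
  have dsnd : ∀ q h : P, fderiv ℝ (fun q : P => q.2) q h = h.2 := by
    intro q h
    rw [(hasFDerivAt_snd (𝕜 := ℝ) (p := q)).fderiv]; rfl
  exact u_of_map hC1 hsurj γ (a := fun _ => 1) (b := fun q => Real.exp (-q.1)) (W := W1 M)
    (κ := K1 γ b M) (α := fun q => q.1) (β := fun q => q.2)
    (fun q => one_pos) (fun q => Real.exp_pos _) hWpos
    (fun q => by rw [hF.dF, sg_cs, ta_cs]; apply Prod.ext <;> simp)
    (fun q => by rw [hF.dF, sg_sc, ta_sc]; apply Prod.ext <;> simp)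
    contDiff_fst contDiff_snd
    (fun q => by rw [← Real.exp_add]; simp)
    (fun q => by rw [dfst, dsnd])
    (fun q => by rw [dfst, dsnd])

/-- From a surjective `TypeII` map to a solution, given continuity of `W` and `κ`. -/
theorem u_of_typeII_aux {h0 v0 b : ℝ} {M : Measure ℝ} {F : P → P} (hF : TypeII h0 b M F)
    (hsurj : Function.Surjective F) (cT : Continuous Th) (hT : ∀ t, 0 < Th t)
    (cW : Continuous (W2 M)) (cK : Continuous (K2 b M)) :
    Function.Injective F ∧ ∃ u : P → ℝ, ContDiff ℝ 3 u ∧ ∀ q : P,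
      d1 (d1 u) (F q) = Real.exp (-(h0 + q.1 ^ 2 - q.2 ^ 2)) ∧
      d2 (d1 u) (F q) = v0 + 2 * q.1 * q.2 ∧ d2 (d2 u) (F q) = Real.exp (h0 + q.1 ^ 2 - q.2 ^ 2) := by
  haveI := hF.fin
  have hWpos : ∀ q, 0 < W2 M q := by
    intro q
    refine integral_pos_of_pos hF.supp hF.nz (cT.comp (by fun_prop)) (fun ν => hT _)
  have hC1 : ContDiff ℝ 1 F := by
    refine contDiff_one_of_dF hF.diff fun y => ?_
    have : (fun q => fderiv ℝ F q y) = fun q =>
      (Real.exp (-q.2 ^ 2) * (W2 M q * y.1 + K2 b M q * y.2),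
      Real.exp (-h0 - q.1 ^ 2) * (W2 M q * y.2 - K2 b M q * y.1)) := funext fun q => hF.dF q y
    rw [this]
    fun_prop
  have dA : ∀ q : P, HasFDerivAt (fun q : P => h0 + q.1 ^ 2 - q.2 ^ 2)
      ((2 * q.1) • ContinuousLinearMap.fst ℝ ℝ ℝ + (-(2 * q.2)) • ContinuousLinearMap.snd ℝ ℝ ℝ) q := by
    intro q
    have k1 := ((hasFDerivAt_fst (𝕜 := ℝ) (p := q)).pow 2).const_add h0
    have k2 := k1.sub ((hasFDerivAt_snd (𝕜 := ℝ) (p := q)).pow 2)
    refine k2.congr_fderiv ?_
    ext <;> simp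
  have dB : ∀ q : P, HasFDerivAt (fun q : P => v0 + 2 * q.1 * q.2)
      ((2 * q.2) • ContinuousLinearMap.fst ℝ ℝ ℝ + (2 * q.1) • ContinuousLinearMap.snd ℝ ℝ ℝ) q := by
    intro q
    have k1 := (((hasFDerivAt_fst (𝕜 := ℝ) (p := q)).const_mul 2).mul
      (hasFDerivAt_snd (𝕜 := ℝ) (p := q))).const_add v0
    refine k1.congr_fderiv ?_
    ext <;> simp [mul_comm]
  have cA : ContDiff ℝ 1 fun q : P => h0 + q.1 ^ 2 - q.2 ^ 2 := by fun_prop
  have cB : ContDiff ℝ 1 fun q : P => v0 + 2 * q.1 * q.2 := by fun_prop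
  exact u_of_map hC1 hsurj 0 (a := fun q => Real.exp (-q.2 ^ 2))
    (b := fun q => Real.exp (-h0 - q.1 ^ 2)) (W := W2 M)
    (κ := K2 b M) (α := fun q => h0 + q.1 ^ 2 - q.2 ^ 2) (β := fun q => v0 + 2 * q.1 * q.2)
    (fun q => Real.exp_pos _) (fun q => Real.exp_pos _) hWpos
    (fun q => by rw [hF.dF]; apply Prod.ext <;> simp)
    (fun q => by rw [hF.dF]; apply Prod.ext <;> simp)
    cA cB
    (fun q => by rw [← Real.exp_add]; congr 1; ring)
    (fun q => by rw [(dA q).fderiv, (dB q).fderiv]; simp)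
    (fun q => by rw [(dA q).fderiv, (dB q).fderiv]; simp)

end Pool.Agent.EU.C3

namespace Pool.Agent.EU

theorem injective_of_pos {F : P → P} (hF : ContDiff ℝ 1 F) (γ : ℝ)
    (h1 : ∀ q, 0 < (fderiv ℝ F q (cos γ, sin γ)).1)
    (h2 : ∀ q, 0 < (fderiv ℝ F q (-(sin γ), cos γ)).2)
    (hJ : ∀ q, 0 < (fderiv ℝ F q).det) : Function.Injective F :=
  C3.injective_of_pos hF γ h1 h2 hJ

theorem exists_u {A v : P → ℝ} (hA : ContDiff ℝ 1 A) (hv : ContDiff ℝ 1 v)
    (h1 : ∀ x, d1 v x = -(Real.exp (-(A x)) * d2 A x)) (h2 : ∀ x, d2 v x = Real.exp (A x) * d1 A x) :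
    ∃ u : P → ℝ, ContDiff ℝ 3 u ∧ (∀ x, d1 (d1 u) x = Real.exp (-(A x))) ∧
      (∀ x, d2 (d1 u) x = v x) ∧ (∀ x, d2 (d2 u) x = Real.exp (A x)) :=
  C3.exists_u hA hv h1 h2

theorem affine_of_hess_eq {u w : P → ℝ} (hu : ContDiff ℝ 2 u) (hw : ContDiff ℝ 2 w)
    (h11 : ∀ x, d1 (d1 u) x = d1 (d1 w) x) (h12 : ∀ x, d2 (d1 u) x = d2 (d1 w) x)
    (h22 : ∀ x, d2 (d2 u) x = d2 (d2 w) x) :
    ∃ a b c : ℝ, ∀ x : P, u x = w x + a * x.1 + b * x.2 + c :=
  C3.affine_of_hess_eq hu hw h11 h12 h22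

/-- For a `C²` solution: `A = log u₂₂`, `v = u₁₂` satisfy `Sol`, once `u` is smooth. -/
theorem sol_of_u {u : P → ℝ} (hu : ContDiff ℝ ∞ u) (hpos : ∀ x, 0 < d1 (d1 u) x)
    (h : ∀ x, d1 (d1 u) x * d2 (d2 u) x = 1) :
    Sol (fun x => Real.log (d2 (d2 u) x)) (d2 (d1 u)) :=
  C3.sol_of_u hu hpos h

end Pool.Agent.EU
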