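import Pool.Agent.EU.Defs

/-!
Module L (energy) of the classification of the entire solutions of `u₁₁ u₂₂ = 1`.
-/

set_option autoImplicit false
open scoped ContDiff Topology ENNReal
open Real Set MeasureTheory Filter

namespace Pool.Agent.EU

namespace LAux

/-- The truncation `1_D f_+`. -/
noncomputable def w (D : Set P) (f : P → ℝ) (x : P) : ℝ := D.indicator (fun x => max (f x) 0) x

theorem w_nonneg (D : Set P) (f : P → ℝ) (x : P) : 0 ≤ w D f x := by
  unfold w
  exact indicator_nonneg (fun _ _ => le_max_right _ _) x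

theorem w_of_mem {D : Set P} {f : P → ℝ} {x : P} (h : x ∈ D) : w D f x = max (f x) 0 := by
  simp [w, h]

theorem w_of_notMem {D : Set P} {f : P → ℝ} {x : P} (h : x ∉ D) : w D f x = 0 := by
  simp [w, h]

theorem w_of_nonpos {D : Set P} {f : P → ℝ} {x : P} (h : f x ≤ 0) : w D f x = 0 := by
  by_cases hx : x ∈ D
  · rw [w_of_mem hx, max_eq_right h]
  · exact w_of_notMem hx

theorem indicator_pow {D : Set P} {f : P → ℝ} (k : ℕ) (x : P) :
    D.indicator (fun x => (max (f x) 0) ^ (k + 1)) x = (w D f x) ^ (k + 1) := by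
  by_cases hx : x ∈ D
  · rw [w_of_mem hx, indicator_of_mem hx]
  · rw [w_of_notMem hx, indicator_of_notMem hx]; simp

theorem w_le_abs {D : Set P} {f : P → ℝ} {x y : P} (h : f x ≤ 0) : |w D f y| ≤ |f y - f x| := by
  rw [abs_of_nonneg (w_nonneg _ _ _)]
  by_cases hy : y ∈ D
  · rw [w_of_mem hy]
    refine max_le ?_ (abs_nonneg _)
    exact le_trans (by linarith) (le_abs_self _)
  · rw [w_of_notMem hy]; exact abs_nonneg _

theorem w_cases {f : P → ℝ} {D S : Set P} (h1 : IsOpen (S ∩ (D ∩ {x | 0 < f x})))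
    (h2 : IsOpen (S ∩ ({x | 0 < f x} \ D))) {x : P} (hx : x ∈ S) :
    (w D f =ᶠ[𝓝 x] f ∧ 0 < f x ∧ x ∈ D) ∨ (w D f =ᶠ[𝓝 x] fun _ => 0) ∨ (f x ≤ 0) := by
  rcases lt_or_ge 0 (f x) with hf | hf
  · by_cases hD : x ∈ D
    · left
      refine ⟨?_, hf, hD⟩
      filter_upwards [h1.mem_nhds ⟨hx, hD, hf⟩] with y hy
      rw [w_of_mem hy.2.1, max_eq_left (le_of_lt hy.2.2)]
    · right; left
      filter_upwards [h2.mem_nhds ⟨hx, hf, hD⟩] with y hy
      exact w_of_notMem hy.2.2
  · right; right; exact hf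

theorem w_continuousAt {f : P → ℝ} {D S : Set P} (h1 : IsOpen (S ∩ (D ∩ {x | 0 < f x})))
    (h2 : IsOpen (S ∩ ({x | 0 < f x} \ D))) {x : P} (hx : x ∈ S) (hf : ContinuousAt f x) :
    ContinuousAt (w D f) x := by
  rcases w_cases h1 h2 hx with ⟨h, -, -⟩ | h | h
  · exact hf.congr h.symm
  · exact (continuousAt_const (y := (0:ℝ))).congr h.symm
  · have hw : w D f x = 0 := w_of_nonpos h
    rw [ContinuousAt, hw]
    have : Tendsto (fun y => |f y - f x|) (𝓝 x) (𝓝 0) := by
      have := (hf.sub (continuousAt_const (y := f x))).abs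
      simpa [ContinuousAt] using this
    exact squeeze_zero_norm (fun y => by simpa using w_le_abs h) this

theorem w_hasFDerivAt {f : P → ℝ} {D S : Set P} (h1 : IsOpen (S ∩ (D ∩ {x | 0 < f x})))
    (h2 : IsOpen (S ∩ ({x | 0 < f x} \ D))) {x : P} (hx : x ∈ S) (hf : DifferentiableAt ℝ f x)
    (k : ℕ) :
    HasFDerivAt (fun y => w D f y ^ (k + 2)) (((k + 2 : ℕ) * w D f x ^ (k + 1)) • fderiv ℝ f x) x := by
  rcases w_cases h1 h2 hx with ⟨h, -, -⟩ | h | h
  · have h3 := hf.hasFDerivAt.pow (k + 2)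
    have h4 : (fun y => w D f y ^ (k + 2)) =ᶠ[𝓝 x] fun y => f y ^ (k + 2) := by
      filter_upwards [h] with y hy
      rw [hy]
    rw [h.eq_of_nhds]
    refine (h3.congr_of_eventuallyEq h4).congr_fderiv ?_
    simp
  · have h4 : (fun y => w D f y ^ (k + 2)) =ᶠ[𝓝 x] fun y => 0 := by
      filter_upwards [h] with y hy
      rw [hy]; simp
    rw [h.eq_of_nhds]
    refine ((hasFDerivAt_const (0 : ℝ) x).congr_of_eventuallyEq h4).congr_fderiv ?_
    simp
  · rw [w_of_nonpos h]
    have e : (((k + 2 : ℕ) : ℝ) * (0:ℝ) ^ (k + 1)) • fderiv ℝ f x = 0 := by simp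
    rw [e, hasFDerivAt_iff_isLittleO]
    have hO : (fun y => w D f y) =O[𝓝 x] fun y => y - x := by
      refine Asymptotics.IsBigO.trans ?_ hf.hasFDerivAt.isBigO_sub
      refine Asymptotics.IsBigO.of_bound 1 (Eventually.of_forall fun y => ?_)
      simpa using w_le_abs (D := D) (f := f) (y := y) h
    have hc : (fun y => w D f y ^ (k + 1)) =o[𝓝 x] fun _ => (1 : ℝ) := by
      rw [Asymptotics.isLittleO_one_iff]
      have := (w_continuousAt h1 h2 hx hf.continuousAt).tendsto.pow (k + 1)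
      rw [w_of_nonpos h] at this
      simpa using this
    have := hc.mul_isBigO hO.norm_right
    refine Asymptotics.IsLittleO.congr_left (f₁ := fun y => w D f y ^ (k + 1) * w D f y) ?_ ?_
    · rw [← Asymptotics.isLittleO_norm_right]
      simpa using this
    · intro y
      rw [w_of_nonpos (D := D) h]
      simp [pow_succ]

end LAux

open LAux

/-- cube lemma, global version: `D` is a clopen part of `{f > 0}`. -/
theorem cube_lemma {f : P → ℝ} (hf : ContDiff ℝ 2 f) {D : Set P}
    (hD : IsOpen (D ∩ {x | 0 < f x})) (hD' : IsOpen ({x | 0 < f x} \ D)) :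
    ContDiff ℝ 2 (D.indicator fun x => (max (f x) 0) ^ 3) ∧
    (∀ x, d1 (D.indicator fun x => (max (f x) 0) ^ 3) x =
      D.indicator (fun x => 3 * (max (f x) 0) ^ 2 * d1 f x) x) ∧
    (∀ x, d2 (D.indicator fun x => (max (f x) 0) ^ 3) x =
      D.indicator (fun x => 3 * (max (f x) 0) ^ 2 * d2 f x) x) ∧
    (∀ x, d1 (d1 (D.indicator fun x => (max (f x) 0) ^ 3)) x =
      D.indicator (fun x => 6 * max (f x) 0 * (d1 f x) ^ 2 + 3 * (max (f x) 0) ^ 2 * d1 (d1 f) x) x) ∧
    (∀ x, d2 (d2 (D.indicator fun x => (max (f x) 0) ^ 3)) x =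
      D.indicator (fun x => 6 * max (f x) 0 * (d2 f x) ^ 2 + 3 * (max (f x) 0) ^ 2 * d2 (d2 f) x) x) := by
  have h1 : IsOpen (univ ∩ (D ∩ {x | 0 < f x})) := by simpa using hD
  have h2 : IsOpen (univ ∩ ({x | 0 < f x} \ D)) := by simpa using hD'
  have hfd : Differentiable ℝ f := hf.differentiable (by norm_num)
  have e3 : (D.indicator fun x => (max (f x) 0) ^ 3) = fun x => w D f x ^ 3 := by
    funext x; exact indicator_pow 2 x
  have D3 : ∀ x, HasFDerivAt (fun y => w D f y ^ 3) ((3 * w D f x ^ 2) • fderiv ℝ f x) x := by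
    intro x
    have := w_hasFDerivAt h1 h2 (mem_univ x) (hfd x) 1
    norm_num at this
    exact this
  have D2 : ∀ x, HasFDerivAt (fun y => w D f y ^ 2) ((2 * w D f x) • fderiv ℝ f x) x := by
    intro x
    have := w_hasFDerivAt h1 h2 (mem_univ x) (hfd x) 0
    norm_num at this
    exact this
  have cw : Continuous (w D f) := continuous_iff_continuousAt.2 fun x =>
    w_continuousAt h1 h2 (mem_univ x) hf.continuous.continuousAt
  have F3 : fderiv ℝ (fun y => w D f y ^ 3) = fun x => (3 * w D f x ^ 2) • fderiv ℝ f x :=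
    funext fun x => (D3 x).fderiv
  have F2 : fderiv ℝ (fun y => w D f y ^ 2) = fun x => (2 * w D f x) • fderiv ℝ f x :=
    funext fun x => (D2 x).fderiv
  have cf' : ContDiff ℝ 1 (fderiv ℝ f) := hf.fderiv_right (by norm_num)
  have C2 : ContDiff ℝ 1 (fun y => w D f y ^ 2) := by
    rw [contDiff_one_iff_fderiv]
    refine ⟨fun x => (D2 x).differentiableAt, ?_⟩
    rw [F2]
    exact (continuous_const.mul cw).smul cf'.continuous
  have C3 : ContDiff ℝ 2 (fun y => w D f y ^ 3) := by
    have : (2 : WithTop ℕ∞) = 1 + 1 := by norm_num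
    rw [this, contDiff_succ_iff_fderiv]
    refine ⟨fun x => (D3 x).differentiableAt, by simp, ?_⟩
    rw [F3]
    exact (contDiff_const.mul C2).smul cf'
  have E1 : d1 (fun y => w D f y ^ 3) = fun x => 3 * w D f x ^ 2 * d1 f x := by
    funext x
    simp [d1, F3]
  have E2 : d2 (fun y => w D f y ^ 3) = fun x => 3 * w D f x ^ 2 * d2 f x := by
    funext x
    simp [d2, F3]
  have cd1 : ContDiff ℝ 1 (d1 f) := contDiff_d1 hf (by norm_num)
  have cd2 : ContDiff ℝ 1 (d2 f) := contDiff_d2 hf (by norm_num)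
  rw [e3]
  refine ⟨C3, ?_, ?_, ?_, ?_⟩
  · intro x
    rw [E1]
    by_cases hx : x ∈ D
    · simp [hx, w_of_mem hx]
    · simp [hx, w_of_notMem hx]
  · intro x
    rw [E2]
    by_cases hx : x ∈ D
    · simp [hx, w_of_mem hx]
    · simp [hx, w_of_notMem hx]
  · intro x
    have h3 := ((D2 x).const_mul 3).fun_mul ((cd1.differentiable (by norm_num)) x).hasFDerivAt
    have : d1 (d1 (fun y => w D f y ^ 3)) x =
        3 * w D f x ^ 2 * d1 (d1 f) x + d1 f x * (3 * (2 * w D f x * d1 f x)) := by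
      rw [E1]
      show fderiv ℝ (fun x => 3 * w D f x ^ 2 * d1 f x) x (1, 0) = _
      rw [h3.fderiv]
      simp [d1]
    rw [this]
    by_cases hx : x ∈ D
    · rw [w_of_mem hx, indicator_of_mem hx]; ring
    · rw [w_of_notMem hx, indicator_of_notMem hx]; ring
  · intro x
    have h3 := ((D2 x).const_mul 3).fun_mul ((cd2.differentiable (by norm_num)) x).hasFDerivAt
    have : d2 (d2 (fun y => w D f y ^ 3)) x =
        3 * w D f x ^ 2 * d2 (d2 f) x + d2 f x * (3 * (2 * w D f x * d2 f x)) := by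
      rw [E2]
      show fderiv ℝ (fun x => 3 * w D f x ^ 2 * d2 f x) x (0, 1) = _
      rw [h3.fderiv]
      simp [d2]
    rw [this]
    by_cases hx : x ∈ D
    · rw [w_of_mem hx, indicator_of_mem hx]; ring
    · rw [w_of_notMem hx, indicator_of_notMem hx]; ring

/-- weak form of the equation. -/
theorem weak_form {A v : P → ℝ} (hs : Sol A v) {ψ : P → ℝ} (hψ : ContDiff ℝ 1 ψ)
    (hc : HasCompactSupport ψ) :
    ∫ x, (Real.exp (A x) * d1 A x * d1 ψ x + Real.exp (-(A x)) * d2 A x * d2 ψ x) = 0 := by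
  have e : ∀ x, Real.exp (A x) * d1 A x * d1 ψ x + Real.exp (-(A x)) * d2 A x * d2 ψ x =
      d2 v x * d1 ψ x - d1 v x * d2 ψ x := by
    intro x
    rw [hs.h1, hs.h2]; ring
  simp_rw [e]
  have cv1 : ContDiff ℝ ∞ (d1 v) := smooth_d1 hs.cv
  have cv2 : ContDiff ℝ ∞ (d2 v) := smooth_d2 hs.cv
  have cψ1 : Continuous (d1 ψ) := (contDiff_d1 (m := 0) hψ (by norm_num)).continuous
  have cψ2 : Continuous (d2 ψ) := (contDiff_d2 (m := 0) hψ (by norm_num)).continuous
  have sψ1 : HasCompactSupport (d1 ψ) := (hc.fderiv_apply (𝕜 := ℝ) (1, 0))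
  have sψ2 : HasCompactSupport (d2 ψ) := (hc.fderiv_apply (𝕜 := ℝ) (0, 1))
  have i1 : Integrable (fun x => d2 v x * d1 ψ x) :=
    (cv2.continuous.mul cψ1).integrable_of_hasCompactSupport sψ1.mul_left
  have i2 : Integrable (fun x => d1 v x * d2 ψ x) :=
    (cv1.continuous.mul cψ2).integrable_of_hasCompactSupport sψ2.mul_left
  rw [integral_sub i1 i2]
  have dv1 : Differentiable ℝ (d1 v) := cv1.differentiable (by simp)
  have dv2 : Differentiable ℝ (d2 v) := cv2.differentiable (by simp)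
  have dψ : Differentiable ℝ ψ := hψ.differentiable (by norm_num)
  have p1 : ∫ x, d2 v x * d1 ψ x = -∫ x, d1 (d2 v) x * ψ x := by
    refine integral_mul_fderiv_eq_neg_fderiv_mul_of_integrable (v := ((1:ℝ), (0:ℝ))) ?_ i1 ?_
      (fun x _ => dv2 x) (fun x _ => dψ x)
    · exact ((smooth_d1 cv2).continuous.mul hψ.continuous).integrable_of_hasCompactSupport hc.mul_left
    · exact (cv2.continuous.mul hψ.continuous).integrable_of_hasCompactSupport hc.mul_left
  have p2 : ∫ x, d1 v x * d2 ψ x = -∫ x, d2 (d1 v) x * ψ x := by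
    refine integral_mul_fderiv_eq_neg_fderiv_mul_of_integrable (v := ((0:ℝ), (1:ℝ))) ?_ i2 ?_
      (fun x _ => dv1 x) (fun x _ => dψ x)
    · exact ((smooth_d2 cv1).continuous.mul hψ.continuous).integrable_of_hasCompactSupport hc.mul_left
    · exact (cv1.continuous.mul hψ.continuous).integrable_of_hasCompactSupport hc.mul_left
  have hcv2 : ContDiff ℝ 2 v := hs.cv.of_le (by norm_cast)
  rw [p1, p2]
  simp_rw [d1_d2_comm hcv2]
  ring

namespace LAux

theorem continuous_of_local {E : Type*} [TopologicalSpace E] [Zero E] {F : P → E} {S : Set P}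
    (h : ∀ x ∈ S, ContinuousAt F x) (h0 : ∀ x, x ∉ S → F =ᶠ[𝓝 x] fun _ => 0) : Continuous F := by
  rw [continuous_iff_continuousAt]
  intro x
  by_cases hx : x ∈ S
  · exact h x hx
  · exact continuousAt_const.congr (h0 x hx).symm

/-- The basic energy inequality. -/
theorem energy {A v : P → ℝ} (hs : Sol A v) {σ c : ℝ} (hσ : σ ^ 2 = 1) {D S : Set P}
    (h1 : IsOpen (S ∩ (D ∩ {x | 0 < σ * (A x - c)})))
    (h2 : IsOpen (S ∩ ({x | 0 < σ * (A x - c)} \ D)))
    {η : P → ℝ} (hη : ContDiff ℝ 1 η) (hηS : ∀ x, x ∉ S → η =ᶠ[𝓝 x] fun _ => 0)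
    {K : Set P} (hK : IsCompact K)
    (hKη : ∀ x, x ∉ K → (w D (fun x => σ * (A x - c)) x = 0) ∨ η =ᶠ[𝓝 x] fun _ => 0) :
    ∫ x, η x ^ 2 * w D (fun x => σ * (A x - c)) x ^ 2 * jac A x ≤
      4 / 9 * ∫ x, w D (fun x => σ * (A x - c)) x ^ 4 *
        (Real.exp (A x) * d1 η x ^ 2 + Real.exp (-(A x)) * d2 η x ^ 2) := by
  set f : P → ℝ := fun x => σ * (A x - c) with hf
  set W : P → ℝ := w D f with hW
  have cA : Continuous A := hs.cA.continuous
  have cd1A : Continuous (d1 A) := (smooth_d1 hs.cA).continuous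
  have cd2A : Continuous (d2 A) := (smooth_d2 hs.cA).continuous
  have dA : Differentiable ℝ A := hs.cA.differentiable (by simp)
  have df : ∀ x, HasFDerivAt f (σ • fderiv ℝ A x) x := fun x =>
    ((dA x).hasFDerivAt.sub_const c).const_mul σ
  have ff : ∀ x, fderiv ℝ f x = σ • fderiv ℝ A x := fun x => (df x).fderiv
  have cf : Continuous f := continuous_const.mul (cA.sub continuous_const)
  have cW : ∀ x ∈ S, ContinuousAt W x := fun x hx => w_continuousAt h1 h2 hx cf.continuousAt
  have dη : Differentiable ℝ η := hη.differentiable (by norm_num)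
  have cη : Continuous η := hη.continuous
  have cd1η : Continuous (d1 η) := (contDiff_d1 (m := 0) hη (by norm_num)).continuous
  have cd2η : Continuous (d2 η) := (contDiff_d2 (m := 0) hη (by norm_num)).continuous
  have cfη : Continuous (fderiv ℝ η) := hη.continuous_fderiv (by norm_num)
  have cfA : Continuous (fderiv ℝ A) := hs.cA.continuous_fderiv (by simp)
  have cjac : Continuous (jac A) := by
    unfold jac
    exact ((cA.rexp.mul (cd1A.pow 2)).add (cA.neg.rexp.mul (cd2A.pow 2)))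
  -- vanishing of derivatives where `η` vanishes locally
  have z1 : ∀ x, (η =ᶠ[𝓝 x] fun _ => 0) → d1 η x = 0 := by
    intro x hx
    have : fderiv ℝ η x = 0 := by rw [hx.fderiv_eq]; simp
    simp [d1, this]
  have z2 : ∀ x, (η =ᶠ[𝓝 x] fun _ => 0) → d2 η x = 0 := by
    intro x hx
    have : fderiv ℝ η x = 0 := by rw [hx.fderiv_eq]; simp
    simp [d2, this]
  have ze : ∀ x, (η =ᶠ[𝓝 x] fun _ => 0) → ∀ᶠ y in 𝓝 x, η y = 0 ∧ d1 η y = 0 ∧ d2 η y = 0 := by
    intro x hx
    filter_upwards [hx, hx.eventuallyEq_nhds] with y hy hy'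
    exact ⟨hy, z1 y hy', z2 y hy'⟩
  -- the test function
  set ψ : P → ℝ := fun x => η x ^ 2 * W x ^ 3 with hψ
  have Dψ : ∀ x, HasFDerivAt ψ ((2 * η x * W x ^ 3) • fderiv ℝ η x +
      (3 * η x ^ 2 * W x ^ 2 * σ) • fderiv ℝ A x) x := by
    intro x
    by_cases hx : x ∈ S
    · have e1 : HasFDerivAt (fun y => W y ^ 3) ((3 * W x ^ 2) • fderiv ℝ f x) x := by
        have := w_hasFDerivAt h1 h2 hx (df x).differentiableAt 1
        norm_num at this
        exact this
      have e2 : HasFDerivAt (fun y => η y ^ 2) ((2 * η x) • fderiv ℝ η x) x := by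
        have := (dη x).hasFDerivAt.pow 2
        simpa using this
      refine (e2.fun_mul e1).congr_fderiv ?_
      rw [ff]
      ext <;> simp <;> ring
    · have hz := hηS x hx
      have e0 : ψ =ᶠ[𝓝 x] fun _ => 0 := by
        filter_upwards [hz] with y hy
        simp [ψ, hy]
      refine ((hasFDerivAt_const (0 : ℝ) x).congr_of_eventuallyEq e0).congr_fderiv ?_
      rw [hz.eq_of_nhds]
      simp
  have cDψ : Continuous (fderiv ℝ ψ) := by
    have e : fderiv ℝ ψ = fun x => (2 * η x * W x ^ 3) • fderiv ℝ η x +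
      (3 * η x ^ 2 * W x ^ 2 * σ) • fderiv ℝ A x := funext fun x => (Dψ x).fderiv
    rw [e]
    refine continuous_of_local (S := S) ?_ ?_
    · intro x hx
      have := cW x hx
      exact (((continuousAt_const.mul cη.continuousAt).mul (this.pow 3)).smul cfη.continuousAt).add
        ((((continuousAt_const.mul (cη.continuousAt.pow 2)).mul (this.pow 2)).mul
          continuousAt_const).smul cfA.continuousAt)
    · intro x hx
      filter_upwards [hηS x hx] with y hy
      rw [hy]; simp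
  have c1ψ : ContDiff ℝ 1 ψ := contDiff_one_iff_fderiv.2 ⟨fun x => (Dψ x).differentiableAt, cDψ⟩
  have hcψ : HasCompactSupport ψ := by
    refine HasCompactSupport.intro hK fun x hx => ?_
    rcases hKη x hx with h | h
    · show η x ^ 2 * W x ^ 3 = 0
      rw [h]; simp
    · show η x ^ 2 * W x ^ 3 = 0
      rw [h.eq_of_nhds]; simp
  have hweak := weak_form hs c1ψ hcψ
  -- integrands
  have cI1 : Continuous fun x => η x ^ 2 * W x ^ 2 * jac A x := by
    refine continuous_of_local (S := S) ?_ ?_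
    · intro x hx
      exact ((cη.continuousAt.pow 2).mul ((cW x hx).pow 2)).mul cjac.continuousAt
    · intro x hx
      filter_upwards [hηS x hx] with y hy
      rw [hy]; simp
  have iI1 : Integrable fun x => η x ^ 2 * W x ^ 2 * jac A x := by
    refine cI1.integrable_of_hasCompactSupport (HasCompactSupport.intro hK fun x hx => ?_)
    rcases hKη x hx with h | h
    · rw [h]; simp
    · rw [h.eq_of_nhds]; simp
  have cI3 : Continuous fun x => W x ^ 4 *
      (Real.exp (A x) * d1 η x ^ 2 + Real.exp (-(A x)) * d2 η x ^ 2) := by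
    refine continuous_of_local (S := S) ?_ ?_
    · intro x hx
      exact ((cW x hx).pow 4).mul ((cA.rexp.mul (cd1η.pow 2)).add
        (cA.neg.rexp.mul (cd2η.pow 2))).continuousAt
    · intro x hx
      filter_upwards [ze x (hηS x hx)] with y hy
      rw [hy.2.1, hy.2.2]; simp
  have iI3 : Integrable fun x => W x ^ 4 *
      (Real.exp (A x) * d1 η x ^ 2 + Real.exp (-(A x)) * d2 η x ^ 2) := by
    refine cI3.integrable_of_hasCompactSupport (HasCompactSupport.intro hK fun x hx => ?_)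
    rcases hKη x hx with h | h
    · rw [h]; simp
    · rw [z1 x h, z2 x h]; simp
  have cd1ψ : Continuous (d1 ψ) := (contDiff_d1 (m := 0) c1ψ (by norm_num)).continuous
  have cd2ψ : Continuous (d2 ψ) := (contDiff_d2 (m := 0) c1ψ (by norm_num)).continuous
  have iI0 : Integrable fun x =>
      Real.exp (A x) * d1 A x * d1 ψ x + Real.exp (-(A x)) * d2 A x * d2 ψ x := by
    refine Integrable.add ?_ ?_
    · exact ((cA.rexp.mul cd1A).mul cd1ψ).integrable_of_hasCompactSupport
        (hcψ.fderiv_apply (𝕜 := ℝ) (1, 0)).mul_left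
    · exact ((cA.neg.rexp.mul cd2A).mul cd2ψ).integrable_of_hasCompactSupport
        (hcψ.fderiv_apply (𝕜 := ℝ) (0, 1)).mul_left
  have e1 : ∀ x, d1 ψ x = 2 * η x * W x ^ 3 * d1 η x + 3 * η x ^ 2 * W x ^ 2 * σ * d1 A x := by
    intro x
    simp [d1, (Dψ x).fderiv]
  have e2 : ∀ x, d2 ψ x = 2 * η x * W x ^ 3 * d2 η x + 3 * η x ^ 2 * W x ^ 2 * σ * d2 A x := by
    intro x
    simp [d2, (Dψ x).fderiv]
  have key : ∀ x, 0 ≤ σ * (Real.exp (A x) * d1 A x * d1 ψ x + Real.exp (-(A x)) * d2 A x * d2 ψ x)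
      - 3 / 2 * (η x ^ 2 * W x ^ 2 * jac A x) + 2 / 3 * (W x ^ 4 *
      (Real.exp (A x) * d1 η x ^ 2 + Real.exp (-(A x)) * d2 η x ^ 2)) := by
    intro x
    have : σ * (Real.exp (A x) * d1 A x * d1 ψ x + Real.exp (-(A x)) * d2 A x * d2 ψ x)
      - 3 / 2 * (η x ^ 2 * W x ^ 2 * jac A x) + 2 / 3 * (W x ^ 4 *
      (Real.exp (A x) * d1 η x ^ 2 + Real.exp (-(A x)) * d2 η x ^ 2)) =
      3 / 2 * (Real.exp (A x) * (η x * W x * d1 A x + 2 / 3 * σ * (W x ^ 2 * d1 η x)) ^ 2 +
        Real.exp (-(A x)) * (η x * W x * d2 A x + 2 / 3 * σ * (W x ^ 2 * d2 η x)) ^ 2) := by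
      rw [e1, e2, jac]
      linear_combination (3 * η x ^ 2 * W x ^ 2 * (Real.exp (A x) * d1 A x ^ 2 +
        Real.exp (-(A x)) * d2 A x ^ 2) - 2 / 3 * W x ^ 4 *
        (Real.exp (A x) * d1 η x ^ 2 + Real.exp (-(A x)) * d2 η x ^ 2)) * hσ
    rw [this]
    positivity
  have hint : 0 ≤ ∫ x, (σ * (Real.exp (A x) * d1 A x * d1 ψ x + Real.exp (-(A x)) * d2 A x * d2 ψ x)
      - 3 / 2 * (η x ^ 2 * W x ^ 2 * jac A x) + 2 / 3 * (W x ^ 4 *
      (Real.exp (A x) * d1 η x ^ 2 + Real.exp (-(A x)) * d2 η x ^ 2))) :=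
    integral_nonneg fun x => key x
  rw [integral_add, integral_sub, integral_const_mul, integral_const_mul, integral_const_mul,
    hweak] at hint
  · linarith
  · exact iI0.const_mul _
  · exact iI1.const_mul _
  · exact (iI0.const_mul _).sub (iI1.const_mul _)
  · exact iI3.const_mul _

/-- Logarithmic cutoff functions: `η = 1` on a big ball with arbitrarily small Dirichlet energy. -/
theorem cutoff (R : ℝ) {ε : ℝ} (hε : 0 < ε) : ∃ η : P → ℝ, ContDiff ℝ 1 η ∧ HasCompactSupport η ∧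
    (∀ x, ‖x‖ ≤ R → η x = 1) ∧ ∫ x, (d1 η x ^ 2 + d2 η x ^ 2) ≤ ε := by
  let χ : ContDiffBump (0 : P) := ⟨1, 2, by norm_num, by norm_num⟩
  have cχ : ContDiff ℝ 1 χ := χ.contDiff
  have dχ : Differentiable ℝ χ := cχ.differentiable (by norm_num)
  have hχc : HasCompactSupport χ := χ.hasCompactSupport
  have cd1 : Continuous (d1 χ) := (contDiff_d1 (m := 0) cχ (by norm_num)).continuous
  have cd2 : Continuous (d2 χ) := (contDiff_d2 (m := 0) cχ (by norm_num)).continuous
  have sd1 : HasCompactSupport (d1 χ) := hχc.fderiv_apply (𝕜 := ℝ) (1, 0)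
  have sd2 : HasCompactSupport (d2 χ) := hχc.fderiv_apply (𝕜 := ℝ) (0, 1)
  have hin : ∀ y : P, ‖y‖ < 1 → fderiv ℝ χ y = 0 := by
    intro y hy
    have : (χ : P → ℝ) =ᶠ[𝓝 y] fun _ => 1 := by
      have : Metric.ball (0 : P) 1 ∈ 𝓝 y := Metric.isOpen_ball.mem_nhds (by simpa using hy)
      filter_upwards [this] with z hz
      exact χ.one_of_mem_closedBall (Metric.ball_subset_closedBall hz)
    rw [this.fderiv_eq]; simp
  have hout : ∀ y : P, 2 < ‖y‖ → fderiv ℝ χ y = 0 := by
    intro y hy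
    have : (χ : P → ℝ) =ᶠ[𝓝 y] fun _ => 0 := by
      have : (Metric.closedBall (0 : P) 2)ᶜ ∈ 𝓝 y :=
        Metric.isClosed_closedBall.isOpen_compl.mem_nhds (by simpa using hy)
      filter_upwards [this] with z hz
      refine χ.zero_of_le_dist ?_
      simp only [mem_compl_iff, Metric.mem_closedBall, not_le] at hz
      exact hz.le
    rw [this.fderiv_eq]; simp
  obtain ⟨m, hm⟩ : ∃ m : ℕ, R ≤ 4 ^ m := by
    obtain ⟨m, hm⟩ := pow_unbounded_of_one_lt R (by norm_num : (1:ℝ) < 4)
    exact ⟨m, hm.le⟩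
  set C0 : ℝ := ∫ x, (d1 χ x ^ 2 + d2 χ x ^ 2) with hC0
  have hC0n : 0 ≤ C0 := integral_nonneg fun x => by positivity
  obtain ⟨n, hn⟩ := exists_nat_gt (C0 / ε)
  have hn0 : 0 < (n : ℝ) := lt_of_le_of_lt (by positivity) hn
  -- the scaled bumps
  let r : ℕ → ℝ := fun j => ((4 : ℝ) ^ (m + j))⁻¹
  have hr0 : ∀ j, 0 < r j := fun j => by positivity
  let χj : ℕ → P → ℝ := fun j x => χ (r j • x)
  have Dj : ∀ j x, HasFDerivAt (χj j) (r j • fderiv ℝ χ (r j • x)) x := by
    intro j x
    have h1 : HasFDerivAt (fun x : P => r j • x) (r j • ContinuousLinearMap.id ℝ P) x :=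
      (hasFDerivAt_id x).const_smul (r j)
    have := (dχ (r j • x)).hasFDerivAt.comp x h1
    refine this.congr_fderiv ?_
    ext <;> simp
  let η : P → ℝ := fun x => (n : ℝ)⁻¹ * ∑ j ∈ Finset.range n, χj j x
  have Dη : ∀ x, HasFDerivAt η ((n : ℝ)⁻¹ • ∑ j ∈ Finset.range n, r j • fderiv ℝ χ (r j • x)) x := by
    intro x
    exact (HasFDerivAt.fun_sum fun j _ => Dj j x).const_mul _
  have e1 : ∀ x, d1 η x = (n : ℝ)⁻¹ * ∑ j ∈ Finset.range n, r j * d1 χ (r j • x) := by
    intro x
    simp [d1, (Dη x).fderiv]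
  have e2 : ∀ x, d2 η x = (n : ℝ)⁻¹ * ∑ j ∈ Finset.range n, r j * d2 χ (r j • x) := by
    intro x
    simp [d2, (Dη x).fderiv]
  -- disjoint supports
  have hdisj : ∀ x : P, ∀ i j : ℕ, fderiv ℝ χ (r i • x) ≠ 0 → fderiv ℝ χ (r j • x) ≠ 0 → i = j := by
    have key : ∀ x : P, ∀ i j : ℕ, fderiv ℝ χ (r i • x) ≠ 0 → fderiv ℝ χ (r j • x) ≠ 0 → ¬ i < j := by
      intro x i j hi hj hij
      have h1 : ‖r i • x‖ ≤ 2 := by
        by_contra h; exact hi (hout _ (not_le.1 h))
      have h2 : 1 ≤ ‖r j • x‖ := by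
        by_contra h; exact hj (hin _ (not_le.1 h))
      rw [norm_smul, Real.norm_of_nonneg (hr0 _).le] at h1 h2
      have h3 : 4 * r j ≤ r i := by
        obtain ⟨k, rfl⟩ := Nat.exists_eq_add_of_lt hij
        show 4 * ((4 : ℝ) ^ (m + (i + k + 1)))⁻¹ ≤ ((4 : ℝ) ^ (m + i))⁻¹
        have : (4 : ℝ) ^ (m + (i + k + 1)) = 4 ^ (m + i) * 4 ^ k * 4 := by ring
        rw [this, mul_inv, mul_inv]
        have h4 : ((4:ℝ) ^ k)⁻¹ ≤ 1 := inv_le_one_of_one_le₀ (one_le_pow₀ (by norm_num))
        have h5 : 0 < ((4 : ℝ) ^ (m + i))⁻¹ := by positivity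
        calc 4 * (((4:ℝ) ^ (m + i))⁻¹ * (4 ^ k)⁻¹ * 4⁻¹) = ((4:ℝ) ^ (m + i))⁻¹ * (4 ^ k)⁻¹ := by ring
          _ ≤ ((4:ℝ) ^ (m + i))⁻¹ * 1 := mul_le_mul_of_nonneg_left h4 h5.le
          _ = _ := mul_one _
      have h6 : 4 * (r j * ‖x‖) ≤ r i * ‖x‖ := by
        have := mul_le_mul_of_nonneg_right h3 (norm_nonneg x)
        linarith
      linarith
    intro x i j hi hj
    rcases lt_trichotomy i j with h | h | h
    · exact absurd h (key x i j hi hj)
    · exact h
    · exact absurd h (key x j i hj hi)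
  have sq_sum : ∀ (g : ℕ → ℝ), (∀ i j, g i ≠ 0 → g j ≠ 0 → i = j) →
      (∑ j ∈ Finset.range n, g j) ^ 2 = ∑ j ∈ Finset.range n, g j ^ 2 := by
    intro g hg
    by_cases h : ∃ i ∈ Finset.range n, g i ≠ 0
    · obtain ⟨i, hi, hi0⟩ := h
      rw [Finset.sum_eq_single_of_mem i hi, Finset.sum_eq_single_of_mem i hi]
      · intro j _ hji
        by_contra h
        exact hji (hg j i (by intro h0; exact h (by rw [h0]; simp)) hi0)
      · intro j _ hji
        by_contra h
        exact hji (hg j i h hi0)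
    · push Not at h
      rw [Finset.sum_eq_zero h, Finset.sum_eq_zero]
      · simp
      · intro j hj; rw [h j hj]; simp
  have s1 : ∀ x, d1 η x ^ 2 = (n : ℝ)⁻¹ ^ 2 * ∑ j ∈ Finset.range n, (r j * d1 χ (r j • x)) ^ 2 := by
    intro x
    rw [e1, mul_pow, sq_sum]
    intro i j hi hj
    refine hdisj x i j ?_ ?_
    · intro h; apply hi; simp [d1, h]
    · intro h; apply hj; simp [d1, h]
  have s2 : ∀ x, d2 η x ^ 2 = (n : ℝ)⁻¹ ^ 2 * ∑ j ∈ Finset.range n, (r j * d2 χ (r j • x)) ^ 2 := by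
    intro x
    rw [e2, mul_pow, sq_sum]
    intro i j hi hj
    refine hdisj x i j ?_ ?_
    · intro h; apply hi; simp [d2, h]
    · intro h; apply hj; simp [d2, h]
  refine ⟨η, ?_, ?_, ?_, ?_⟩
  · refine contDiff_const.mul (ContDiff.sum fun j _ => ?_)
    exact cχ.comp (contDiff_const_smul _)
  · refine HasCompactSupport.intro (isCompact_closedBall (0 : P) (2 * 4 ^ (m + n))) fun x hx => ?_
    have : ∀ j ∈ Finset.range n, χj j x = 0 := by
      intro j hj
      refine χ.zero_of_le_dist ?_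
      simp only [Metric.mem_closedBall, dist_zero_right, not_le] at hx
      show (2:ℝ) ≤ dist (r j • x) 0
      rw [dist_zero_right, norm_smul, Real.norm_of_nonneg (hr0 _).le]
      have h1 : (4:ℝ) ^ (m + j) ≤ 4 ^ (m + n) := by
        apply pow_le_pow_right₀ (by norm_num)
        have := Finset.mem_range.1 hj
        omega
      have h2 : (2 : ℝ) * 4 ^ (m + j) ≤ ‖x‖ := by linarith
      have h3 : (2:ℝ) = ((4:ℝ) ^ (m + j))⁻¹ * (2 * 4 ^ (m + j)) := by
        field_simp
      calc (2:ℝ) = ((4:ℝ) ^ (m + j))⁻¹ * (2 * 4 ^ (m + j)) := h3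
        _ ≤ ((4:ℝ) ^ (m + j))⁻¹ * ‖x‖ := mul_le_mul_of_nonneg_left h2 (by positivity)
    show (n : ℝ)⁻¹ * ∑ j ∈ Finset.range n, χj j x = 0
    rw [Finset.sum_eq_zero this, mul_zero]
  · intro x hx
    have : ∀ j ∈ Finset.range n, χj j x = 1 := by
      intro j hj
      refine χ.one_of_mem_closedBall ?_
      show r j • x ∈ Metric.closedBall (0 : P) 1
      rw [Metric.mem_closedBall, dist_zero_right, norm_smul, Real.norm_of_nonneg (hr0 _).le]
      have h1 : (4:ℝ) ^ m ≤ 4 ^ (m + j) := pow_le_pow_right₀ (by norm_num) (by omega)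
      have h2 : ‖x‖ ≤ 4 ^ (m + j) := by linarith
      calc ((4:ℝ) ^ (m + j))⁻¹ * ‖x‖ ≤ ((4:ℝ) ^ (m + j))⁻¹ * 4 ^ (m + j) :=
            mul_le_mul_of_nonneg_left h2 (by positivity)
        _ = 1 := inv_mul_cancel₀ (by positivity)
    show (n : ℝ)⁻¹ * ∑ j ∈ Finset.range n, χj j x = 1
    rw [Finset.sum_congr rfl this]
    simp [hn0.ne']
  · have heq : ∀ x, d1 η x ^ 2 + d2 η x ^ 2 = (n : ℝ)⁻¹ ^ 2 * ∑ j ∈ Finset.range n,
        (r j ^ 2 * ((fun y => d1 χ y ^ 2 + d2 χ y ^ 2) (r j • x))) := by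
      intro x
      rw [s1, s2, ← mul_add, ← Finset.sum_add_distrib]
      congr 1
      refine Finset.sum_congr rfl fun j _ => ?_
      ring
    have hI : ∀ j, ∫ x, (r j ^ 2 * ((fun y => d1 χ y ^ 2 + d2 χ y ^ 2) (r j • x))) = C0 := by
      intro j
      rw [integral_const_mul, MeasureTheory.Measure.integral_comp_smul volume
        (fun y => d1 χ y ^ 2 + d2 χ y ^ 2) (r j)]
      have : Module.finrank ℝ P = 2 := by simp [P]
      rw [this, abs_of_pos (by have := hr0 j; positivity), smul_eq_mul, ← mul_assoc,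
        mul_inv_cancel₀ (by have := hr0 j; positivity), one_mul]
    have cg : Continuous fun y => d1 χ y ^ 2 + d2 χ y ^ 2 := (cd1.pow 2).add (cd2.pow 2)
    have sg : HasCompactSupport fun y => d1 χ y ^ 2 + d2 χ y ^ 2 := by
      refine HasCompactSupport.intro (isCompact_closedBall (0 : P) 2) fun x hx => ?_
      simp only [Metric.mem_closedBall, dist_zero_right, not_le] at hx
      simp [d1, d2, hout x hx]
    simp_rw [heq]
    rw [integral_const_mul, integral_finsetSum]
    · rw [Finset.sum_congr rfl fun j _ => hI j]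
      simp only [Finset.sum_const, Finset.card_range, nsmul_eq_mul]
      have : (n : ℝ)⁻¹ ^ 2 * (n * C0) = C0 / n := by field_simp
      rw [this, div_le_iff₀ hn0]
      rw [div_lt_iff₀ hε] at hn
      linarith
    · intro j _
      refine Integrable.const_mul ?_ _
      have := (cg.integrable_of_hasCompactSupport sg (μ := volume)).comp_smul (hr0 j).ne'
      exact this

/-- A clopen part of `{σ (A - c) > 0}` on which `A` is bounded has zero energy. -/
theorem jac_zero {A v : P → ℝ} (hs : Sol A v) {σ c : ℝ} (hσ : σ ^ 2 = 1) {D : Set P}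
    (hD : IsOpen D) (hDp : ∀ x ∈ D, 0 < σ * (A x - c))
    (hD' : IsOpen ({x | 0 < σ * (A x - c)} \ D)) {M : ℝ} (hM : ∀ x ∈ D, |A x| ≤ M) :
    ∀ x ∈ D, jac A x = 0 := by
  intro x0 hx0
  have hDe : D ∩ {x | 0 < σ * (A x - c)} = D := inter_eq_left.2 hDp
  have h1 : IsOpen (univ ∩ (D ∩ {x | 0 < σ * (A x - c)})) := by rw [univ_inter, hDe]; exact hD
  have h2 : IsOpen (univ ∩ ({x | 0 < σ * (A x - c)} \ D)) := by rw [univ_inter]; exact hD'
  have cA : Continuous A := hs.cA.continuous
  have cd1A : Continuous (d1 A) := (smooth_d1 hs.cA).continuous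
  have cd2A : Continuous (d2 A) := (smooth_d2 hs.cA).continuous
  have cjac : Continuous (jac A) := by
    unfold jac
    exact ((cA.rexp.mul (cd1A.pow 2)).add (cA.neg.rexp.mul (cd2A.pow 2)))
  have jn : ∀ x, 0 ≤ jac A x := by intro x; unfold jac; positivity
  have cf : Continuous (fun x => σ * (A x - c)) := continuous_const.mul (cA.sub continuous_const)
  set W : P → ℝ := w D (fun x => σ * (A x - c)) with hWdef
  have cW : Continuous W := continuous_iff_continuousAt.2 fun x =>
    w_continuousAt h1 h2 (mem_univ x) cf.continuousAt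
  have W0 : ∀ x, 0 ≤ W x := fun x => w_nonneg _ _ _
  have hM0 : 0 ≤ M := le_trans (abs_nonneg _) (hM x0 hx0)
  have hσa : |σ| = 1 := by
    have : |σ| ^ 2 = 1 := by rw [sq_abs]; exact hσ
    have h0 := abs_nonneg σ
    nlinarith [sq_nonneg (|σ| - 1)]
  have WB : ∀ x, W x ≤ M + |c| := by
    intro x
    by_cases hx : x ∈ D
    · rw [hWdef, w_of_mem hx]
      refine max_le ?_ (by positivity)
      calc σ * (A x - c) ≤ |σ * (A x - c)| := le_abs_self _
        _ = |A x - c| := by rw [abs_mul, hσa, one_mul]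
        _ ≤ |A x| + |c| := abs_sub _ _
        _ ≤ M + |c| := by have := hM x hx; linarith
    · rw [hWdef, w_of_notMem hx]; positivity
  by_contra hj
  have hj' : 0 < jac A x0 := lt_of_le_of_ne (jn x0) (Ne.symm hj)
  let χ : ContDiffBump x0 := ⟨1, 2, by norm_num, by norm_num⟩
  have cχ : Continuous χ := χ.continuous
  have hχc : HasCompactSupport χ := χ.hasCompactSupport
  have cF : Continuous fun x => χ x ^ 2 * W x ^ 2 * jac A x :=
    ((cχ.pow 2).mul (cW.pow 2)).mul cjac
  have hFc : HasCompactSupport fun x => χ x ^ 2 * W x ^ 2 * jac A x := by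
    refine HasCompactSupport.intro (isCompact_closedBall x0 2) fun x hx => ?_
    simp only [Metric.mem_closedBall, not_le] at hx
    rw [χ.zero_of_le_dist (show χ.rOut ≤ dist x x0 from hx.le)]
    simp
  have hWx0 : 0 < W x0 := by
    rw [hWdef, w_of_mem hx0]
    exact lt_max_of_lt_left (hDp x0 hx0)
  have hpos : 0 < ∫ x, χ x ^ 2 * W x ^ 2 * jac A x := by
    refine cF.integral_pos_of_hasCompactSupport_nonneg_nonzero hFc (x := x0) ?_ ?_
    · intro x
      exact mul_nonneg (mul_nonneg (sq_nonneg _) (sq_nonneg _)) (jn x)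
    · have : χ x0 = 1 := χ.one_of_mem_closedBall (Metric.mem_closedBall_self (by
        show (0:ℝ) ≤ 1; norm_num))
      rw [this]
      positivity
  set μ0 := ∫ x, χ x ^ 2 * W x ^ 2 * jac A x with hμ0
  set C : ℝ := (M + |c|) ^ 4 * Real.exp M with hC
  have hC0 : 0 ≤ C := by positivity
  obtain ⟨η, cη, sη, hη1, hηe⟩ := cutoff (‖x0‖ + 2) (ε := μ0 / (C + 1)) (by positivity)
  have hen := energy hs hσ h1 h2 cη (fun x hx => absurd (mem_univ x) hx) (K := tsupport η) sη
    (fun x hx => Or.inr (notMem_tsupport_iff_eventuallyEq.1 hx))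
  have cd1η : Continuous (d1 η) := (contDiff_d1 (m := 0) cη (by norm_num)).continuous
  have cd2η : Continuous (d2 η) := (contDiff_d2 (m := 0) cη (by norm_num)).continuous
  have sd1 : HasCompactSupport (d1 η) := sη.fderiv_apply (𝕜 := ℝ) (1, 0)
  have sd2 : HasCompactSupport (d2 η) := sη.fderiv_apply (𝕜 := ℝ) (0, 1)
  have hle1 : μ0 ≤ ∫ x, η x ^ 2 * W x ^ 2 * jac A x := by
    refine integral_mono (cF.integrable_of_hasCompactSupport hFc) ?_ ?_
    · refine (((cη.continuous.pow 2).mul (cW.pow 2)).mul cjac).integrable_of_hasCompactSupport ?_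
      refine HasCompactSupport.intro sη fun x hx => ?_
      show η x ^ 2 * W x ^ 2 * jac A x = 0
      rw [image_eq_zero_of_notMem_tsupport hx]; simp
    · intro x
      refine mul_le_mul_of_nonneg_right (mul_le_mul_of_nonneg_right ?_ (sq_nonneg _)) (jn x)
      by_cases hx : ‖x‖ ≤ ‖x0‖ + 2
      · rw [hη1 x hx]
        have h3 := χ.le_one (x := x)
        have h4 := χ.nonneg (x := x)
        nlinarith
      · have : χ x = 0 := by
          refine χ.zero_of_le_dist ?_
          show (2:ℝ) ≤ dist x x0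
          rw [dist_eq_norm]
          have := norm_sub_norm_le x x0
          linarith [not_le.1 hx]
        rw [this]
        have := sq_nonneg (η x)
        linarith
  have hle2 : ∫ x, W x ^ 4 * (Real.exp (A x) * d1 η x ^ 2 + Real.exp (-(A x)) * d2 η x ^ 2) ≤
      ∫ x, C * (d1 η x ^ 2 + d2 η x ^ 2) := by
    have sg : ∀ x, x ∉ tsupport η → d1 η x = 0 ∧ d2 η x = 0 := by
      intro x hx
      have hx' : x ∉ tsupport (d1 η) := fun h => hx (tsupport_fderiv_apply_subset ℝ (1, 0) h)
      have hx'' : x ∉ tsupport (d2 η) := fun h => hx (tsupport_fderiv_apply_subset ℝ (0, 1) h)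
      exact ⟨image_eq_zero_of_notMem_tsupport hx', image_eq_zero_of_notMem_tsupport hx''⟩
    refine integral_mono ?_ ?_ ?_
    · refine ((cW.pow 4).mul ((cA.rexp.mul (cd1η.pow 2)).add
        (cA.neg.rexp.mul (cd2η.pow 2)))).integrable_of_hasCompactSupport ?_
      refine HasCompactSupport.intro sη fun x hx => ?_
      show W x ^ 4 * (Real.exp (A x) * d1 η x ^ 2 + Real.exp (-(A x)) * d2 η x ^ 2) = 0
      rw [(sg x hx).1, (sg x hx).2]; simp
    · refine (continuous_const.mul ((cd1η.pow 2).add (cd2η.pow 2))).integrable_of_hasCompactSupport ?_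
      refine HasCompactSupport.intro sη fun x hx => ?_
      show C * (d1 η x ^ 2 + d2 η x ^ 2) = 0
      rw [(sg x hx).1, (sg x hx).2]; simp
    · intro x
      show W x ^ 4 * (Real.exp (A x) * d1 η x ^ 2 + Real.exp (-(A x)) * d2 η x ^ 2) ≤
        C * (d1 η x ^ 2 + d2 η x ^ 2)
      by_cases hx : x ∈ D
      · have hA := hM x hx
        rw [abs_le] at hA
        have e1 : Real.exp (A x) ≤ Real.exp M := Real.exp_le_exp.2 hA.2
        have e2 : Real.exp (-(A x)) ≤ Real.exp M := Real.exp_le_exp.2 (by linarith)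
        have e3 : W x ^ 4 ≤ (M + |c|) ^ 4 := pow_le_pow_left₀ (W0 x) (WB x) 4
        have e4 : Real.exp (A x) * d1 η x ^ 2 + Real.exp (-(A x)) * d2 η x ^ 2 ≤
            Real.exp M * (d1 η x ^ 2 + d2 η x ^ 2) := by
          have := mul_le_mul_of_nonneg_right e1 (sq_nonneg (d1 η x))
          have := mul_le_mul_of_nonneg_right e2 (sq_nonneg (d2 η x))
          linarith
        calc W x ^ 4 * (Real.exp (A x) * d1 η x ^ 2 + Real.exp (-(A x)) * d2 η x ^ 2)
            ≤ (M + |c|) ^ 4 * (Real.exp M * (d1 η x ^ 2 + d2 η x ^ 2)) :=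
              mul_le_mul e3 e4 (by positivity) (by positivity)
          _ = C * (d1 η x ^ 2 + d2 η x ^ 2) := by rw [hC]; ring
      · have : W x = 0 := w_of_notMem hx
        rw [this]
        have : 0 ≤ C * (d1 η x ^ 2 + d2 η x ^ 2) := by positivity
        simpa using this
  rw [integral_const_mul] at hle2
  have hfin : μ0 ≤ 4 / 9 * (C * (μ0 / (C + 1))) := by
    refine hle1.trans (hen.trans ?_)
    refine mul_le_mul_of_nonneg_left (hle2.trans ?_) (by norm_num)
    exact mul_le_mul_of_nonneg_left hηe hC0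
  have : C * (μ0 / (C + 1)) ≤ μ0 := by
    rw [mul_div_assoc', div_le_iff₀ (by positivity)]
    nlinarith
  linarith

/-- `A` is constant if it is bounded on a clopen connected part of `{σ (A - c) > 0}`. -/
theorem comp_const {A v : P → ℝ} (hs : Sol A v) {σ c : ℝ} (hσ : σ ^ 2 = 1) {D : Set P}
    (hD : IsOpen D) (hDc : IsPreconnected D) (hDp : ∀ x ∈ D, 0 < σ * (A x - c))
    (hD' : IsOpen ({x | 0 < σ * (A x - c)} \ D)) {M : ℝ} (hM : ∀ x ∈ D, |A x| ≤ M)
    {x0 : P} (hx0 : x0 ∈ D) : ∀ x, A x = A x0 := by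
  have hj := jac_zero hs hσ hD hDp hD' hM
  have hder : EqOn (fderiv ℝ A) 0 D := by
    intro x hx
    have h := hj x hx
    unfold jac at h
    have p1 := Real.exp_pos (A x)
    have p2 := Real.exp_pos (-(A x))
    have q1 : 0 ≤ Real.exp (A x) * d1 A x ^ 2 := by positivity
    have q2 : 0 ≤ Real.exp (-(A x)) * d2 A x ^ 2 := by positivity
    have r1 : Real.exp (A x) * d1 A x ^ 2 = 0 := by linarith
    have r2 : Real.exp (-(A x)) * d2 A x ^ 2 = 0 := by linarith
    have s1 : d1 A x = 0 := by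
      rcases mul_eq_zero.1 r1 with h | h
      · exact absurd h p1.ne'
      · exact pow_eq_zero_iff (by norm_num) |>.1 h
    have s2 : d2 A x = 0 := by
      rcases mul_eq_zero.1 r2 with h | h
      · exact absurd h p2.ne'
      · exact pow_eq_zero_iff (by norm_num) |>.1 h
    ext
    · simpa [d1] using s1
    · simpa [d2] using s2
  have hconst : ∀ x ∈ D, A x = A x0 := fun x hx =>
    hD.is_const_of_fderiv_eq_zero (𝕜 := ℝ) hDc
      ((hs.cA.differentiable (by simp)).differentiableOn) hder hx hx0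
  have hclosed : IsClosed D := by
    rw [← closure_subset_iff_isClosed]
    intro y hy
    have hAy : A y = A x0 := by
      have hcl : IsClosed {y | A y = A x0} := isClosed_eq hs.cA.continuous continuous_const
      exact closure_minimal (fun x hx => hconst x hx) hcl hy
    by_contra hyD
    have hmem : y ∈ {x | 0 < σ * (A x - c)} \ D := by
      refine ⟨?_, hyD⟩
      show 0 < σ * (A y - c)
      rw [hAy]; exact hDp x0 hx0
    obtain ⟨z, hz1, hz2⟩ := mem_closure_iff.1 hy _ hD' hmem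
    exact hz1.2 hz2
  have huniv : D = univ := IsClopen.eq_univ ⟨hclosed, hD⟩ ⟨x0, hx0⟩
  intro x
  exact hconst x (by rw [huniv]; trivial)

/-- The rest of an open set after removing one component is open. -/
theorem isOpen_diff_comp {U : Set P} (hU : IsOpen U) (x0 : P) :
    IsOpen (U \ connectedComponentIn U x0) := by
  rw [isOpen_iff_mem_nhds]
  rintro x ⟨hxU, hx⟩
  have : connectedComponentIn U x ∈ 𝓝 x :=
    (hU.connectedComponentIn).mem_nhds (mem_connectedComponentIn hxU)
  filter_upwards [this] with y hy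
  refine ⟨connectedComponentIn_subset U x hy, fun h => hx ?_⟩
  have e1 := connectedComponentIn_eq h
  have e2 := connectedComponentIn_eq hy
  rw [e1, ← e2]
  exact mem_connectedComponentIn hxU

end LAux

theorem comp_unbdd {A v : P → ℝ} (hs : Sol A v) (hne : ∃ x y, A x ≠ A y) {a : ℝ} {x0 : P}
    (hx0 : a < A x0) (M : ℝ) : ∃ y ∈ connectedComponentIn {y | a < A y} x0, M < A y := by
  by_contra hcon
  push Not at hcon
  have hU : IsOpen {y | a < A y} := isOpen_lt continuous_const hs.cA.continuous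
  have hset : {x | 0 < (1:ℝ) * (A x - a)} = {y | a < A y} := by
    ext x; simp
  have hsub := connectedComponentIn_subset {y | a < A y} x0
  have hmem : x0 ∈ connectedComponentIn {y | a < A y} x0 := mem_connectedComponentIn hx0
  have key := comp_const hs (σ := 1) (c := a) (by norm_num) (hU.connectedComponentIn)
    isPreconnected_connectedComponentIn
    (fun x hx => by have := hsub hx; simp only [mem_ofPred_eq] at this; linarith)
    (by rw [hset]; exact isOpen_diff_comp hU x0) (M := max |a| |M|)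
    (fun x hx => by
      have h1 := hsub hx
      simp only [mem_ofPred_eq] at h1
      have h2 := hcon x hx
      rw [abs_le]
      constructor
      · have := le_max_left |a| |M|
        have := neg_abs_le a
        linarith
      · have := le_max_right |a| |M|
        have := le_abs_self M
        linarith) hmem
  obtain ⟨x, y, hxy⟩ := hne
  exact hxy ((key x).trans (key y).symm)

theorem comp_unbdd' {A v : P → ℝ} (hs : Sol A v) (hne : ∃ x y, A x ≠ A y) {a : ℝ} {x0 : P}
    (hx0 : A x0 < a) (M : ℝ) : ∃ y ∈ connectedComponentIn {y | A y < a} x0, A y < M := by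
  by_contra hcon
  push Not at hcon
  have hU : IsOpen {y | A y < a} := isOpen_lt hs.cA.continuous continuous_const
  have hset : {x | 0 < (-1:ℝ) * (A x - a)} = {y | A y < a} := by
    ext x; simp
  have hsub := connectedComponentIn_subset {y | A y < a} x0
  have hmem : x0 ∈ connectedComponentIn {y | A y < a} x0 := mem_connectedComponentIn hx0
  have key := comp_const hs (σ := -1) (c := a) (by norm_num) (hU.connectedComponentIn)
    isPreconnected_connectedComponentIn
    (fun x hx => by have := hsub hx; simp only [mem_ofPred_eq] at this; linarith)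
    (by rw [hset]; exact isOpen_diff_comp hU x0) (M := max |a| |M|)
    (fun x hx => by
      have h1 := hsub hx
      simp only [mem_ofPred_eq] at h1
      have h2 := hcon x hx
      rw [abs_le]
      constructor
      · have := le_max_right |a| |M|
        have := neg_abs_le M
        linarith
      · have := le_max_left |a| |M|
        have := le_abs_self a
        linarith) hmem
  obtain ⟨x, y, hxy⟩ := hne
  exact hxy ((key x).trans (key y).symm)

/-- `A` bounded on one side implies constant. -/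
theorem liouville {A v : P → ℝ} (hs : Sol A v) {M : ℝ} (h : ∀ x, A x ≤ M) : ∀ x y, A x = A y := by
  intro x y
  by_contra hne
  obtain ⟨z, -, hz⟩ := comp_unbdd hs ⟨x, y, hne⟩ (a := A x - 1) (x0 := x) (by linarith) M
  exact absurd (h z) (not_le.2 hz)

theorem LAux.pow_four_le {s : ℝ} (hs : 0 ≤ s) : s ^ 4 ≤ 5 * Real.exp s := by
  have h1 : s / 4 ≤ Real.exp (s / 4 - 1) := by
    have := Real.add_one_le_exp (s / 4 - 1)
    linarith
  have h2 : (s / 4) ^ 4 ≤ Real.exp (s / 4 - 1) ^ 4 := pow_le_pow_left₀ (by positivity) h1 4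
  have h3 : Real.exp (s / 4 - 1) ^ 4 = Real.exp s / Real.exp 4 := by
    rw [← Real.exp_nat_mul, ← Real.exp_sub]
    congr 1
    push_cast
    ring
  have h4 : (53 : ℝ) ≤ Real.exp 4 := by
    have h5 : Real.exp 4 = Real.exp 1 ^ 4 := by
      rw [← Real.exp_nat_mul]; norm_num
    have h6 := Real.exp_one_gt_d9
    have h7 : (2.7 : ℝ) ^ 4 ≤ Real.exp 1 ^ 4 := pow_le_pow_left₀ (by norm_num) (by linarith) 4
    rw [h5]
    norm_num at h7 ⊢
    linarith
  rw [h3, le_div_iff₀ (Real.exp_pos 4)] at h2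
  have h8 : (s / 4) ^ 4 * 53 ≤ (s / 4) ^ 4 * Real.exp 4 :=
    mul_le_mul_of_nonneg_left h4 (by positivity)
  have h9 : s ^ 4 = 256 * (s / 4) ^ 4 := by ring
  have := Real.exp_pos s
  rw [h9]
  nlinarith [h2, h8]

/-- Caccioppoli in a strip. -/
theorem caccioppoli_strip {A v : P → ℝ} (hs : Sol A v) {b l r y0 h : ℝ} (hlr : l < r) (hh : 0 < h)
    {D : Set P} (hDs : D ⊆ {x | l < x.1 ∧ x.1 < r ∧ |x.2 - y0| ≤ h}) (hDb : ∀ x ∈ D, A x < b)
    (hD : IsOpen D) (hD' : IsOpen ({x : P | A x < b ∧ l < x.1 ∧ x.1 < r} \ D))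
    {η : ℝ → ℝ} (hη : ContDiff ℝ 1 η) (hηs : ∀ t, t ≤ l + (r - l) / 16 ∨ r - (r - l) / 16 ≤ t → η t = 0) :
    ∫ x in D, (η x.1) ^ 2 * (b - A x) ^ 2 * jac A x ≤
      10 * Real.exp b * h * ∫ t in Icc l r, (deriv η t) ^ 2 := by
  set S : Set P := {x | l < x.1 ∧ x.1 < r} with hS
  have h1 : IsOpen (S ∩ (D ∩ {x | 0 < (-1 : ℝ) * (A x - b)})) := by
    have : S ∩ (D ∩ {x | 0 < (-1 : ℝ) * (A x - b)}) = D := by
      ext x
      constructor
      · rintro ⟨-, h, -⟩; exact h
      · intro hx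
        refine ⟨⟨(hDs hx).1, (hDs hx).2.1⟩, hx, ?_⟩
        have := hDb x hx
        show 0 < (-1 : ℝ) * (A x - b)
        linarith
    rw [this]; exact hD
  have h2 : IsOpen (S ∩ ({x | 0 < (-1 : ℝ) * (A x - b)} \ D)) := by
    have : S ∩ ({x | 0 < (-1 : ℝ) * (A x - b)} \ D) =
        {x : P | A x < b ∧ l < x.1 ∧ x.1 < r} \ D := by
      ext x
      constructor
      · rintro ⟨⟨h1, h2⟩, h3, h4⟩
        refine ⟨⟨?_, h1, h2⟩, h4⟩
        have : 0 < (-1 : ℝ) * (A x - b) := h3
        linarith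
      · rintro ⟨⟨h1, h2, h3⟩, h4⟩
        refine ⟨⟨h2, h3⟩, ?_, h4⟩
        show 0 < (-1 : ℝ) * (A x - b)
        linarith
    rw [this]; exact hD'
  have cη : ContDiff ℝ 1 (fun x : P => η x.1) := hη.comp contDiff_fst
  have hηS : ∀ x : P, x ∉ S → (fun x : P => η x.1) =ᶠ[𝓝 x] fun _ => 0 := by
    intro x hx
    have hx' : x.1 ≤ l ∨ r ≤ x.1 := by
      by_contra hc
      push Not at hc
      exact hx ⟨hc.1, hc.2⟩
    rcases hx' with hx' | hx'
    · have : {y : P | y.1 < l + (r - l) / 16} ∈ 𝓝 x :=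
        (isOpen_lt continuous_fst continuous_const).mem_nhds (by
          show x.1 < l + (r - l) / 16
          linarith)
      filter_upwards [this] with y hy
      exact hηs _ (Or.inl (le_of_lt hy))
    · have : {y : P | r - (r - l) / 16 < y.1} ∈ 𝓝 x :=
        (isOpen_lt continuous_const continuous_fst).mem_nhds (by
          show r - (r - l) / 16 < x.1
          linarith)
      filter_upwards [this] with y hy
      exact hηs _ (Or.inr (le_of_lt hy))
  set K : Set P := Icc l r ×ˢ Icc (y0 - h) (y0 + h) with hK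
  have hKc : IsCompact K := isCompact_Icc.prod isCompact_Icc
  have hDK : D ⊆ K := by
    intro x hx
    obtain ⟨a1, a2, a3⟩ := hDs hx
    rw [abs_le] at a3
    exact ⟨⟨a1.le, a2.le⟩, ⟨by linarith [a3.1], by linarith [a3.2]⟩⟩
  have hen := energy hs (σ := -1) (c := b) (by norm_num) h1 h2 cη hηS hKc
    (fun x hx => Or.inl (w_of_notMem fun h => hx (hDK h)))
  set W : P → ℝ := w D (fun x => (-1 : ℝ) * (A x - b)) with hW
  have eL : ∫ x in D, (η x.1) ^ 2 * (b - A x) ^ 2 * jac A x =
      ∫ x, η x.1 ^ 2 * W x ^ 2 * jac A x := by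
    rw [← integral_indicator hD.measurableSet]
    refine integral_congr_ae (Eventually.of_forall fun x => ?_)
    show D.indicator (fun x => (η x.1) ^ 2 * (b - A x) ^ 2 * jac A x) x = η x.1 ^ 2 * W x ^ 2 * jac A x
    by_cases hx : x ∈ D
    · rw [indicator_of_mem hx, hW, w_of_mem hx, max_eq_left (by linarith [hDb x hx])]
      ring
    · rw [indicator_of_notMem hx, hW, w_of_notMem hx]; ring
  have dη : Differentiable ℝ η := hη.differentiable (by norm_num)
  have hDd : ∀ x : P, HasFDerivAt (fun x : P => η x.1)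
      ((deriv η x.1) • ContinuousLinearMap.fst ℝ ℝ ℝ) x := by
    intro x
    have := (dη x.1).hasDerivAt.comp_hasFDerivAt x (hasFDerivAt_fst (𝕜 := ℝ) (E := ℝ) (F := ℝ) (p := x))
    exact this
  have e1 : ∀ x, d1 (fun x : P => η x.1) x = deriv η x.1 := by
    intro x; simp [d1, (hDd x).fderiv]
  have e2 : ∀ x, d2 (fun x : P => η x.1) x = 0 := by
    intro x; simp [d2, (hDd x).fderiv]
  have cdη : Continuous (deriv η) := hη.continuous_deriv (by norm_num)
  have hI2 : Integrable (K.indicator fun x : P => 5 * Real.exp b * (deriv η x.1 ^ 2 * 1)) := by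
    rw [integrable_indicator_iff hKc.measurableSet]
    refine ContinuousOn.integrableOn_compact hKc ?_
    exact (continuous_const.mul (((cdη.comp continuous_fst).pow 2).mul continuous_const)).continuousOn
  have hR : ∫ x, W x ^ 4 * (Real.exp (A x) * d1 (fun x : P => η x.1) x ^ 2 +
      Real.exp (-(A x)) * d2 (fun x : P => η x.1) x ^ 2) ≤
      ∫ x, (K.indicator fun x : P => 5 * Real.exp b * (deriv η x.1 ^ 2 * 1)) x := by
    refine integral_mono_of_nonneg (Eventually.of_forall fun x => ?_) hI2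
      (Eventually.of_forall fun x => ?_)
    · show 0 ≤ W x ^ 4 * (Real.exp (A x) * d1 (fun x : P => η x.1) x ^ 2 +
        Real.exp (-(A x)) * d2 (fun x : P => η x.1) x ^ 2)
      positivity
    · show W x ^ 4 * (Real.exp (A x) * d1 (fun x : P => η x.1) x ^ 2 +
        Real.exp (-(A x)) * d2 (fun x : P => η x.1) x ^ 2) ≤
        (K.indicator fun x : P => 5 * Real.exp b * (deriv η x.1 ^ 2 * 1)) x
      rw [e1, e2]
      by_cases hx : x ∈ D
      · rw [indicator_of_mem (hDK hx), hW, w_of_mem hx, max_eq_left (by linarith [hDb x hx])]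
        have hp := pow_four_le (s := b - A x) (by linarith [hDb x hx])
        have he : Real.exp b = Real.exp (b - A x) * Real.exp (A x) := by
          rw [← Real.exp_add]; congr 1; ring
        have e3 : ((-1 : ℝ) * (A x - b)) ^ 4 * (Real.exp (A x) * deriv η x.1 ^ 2 +
            Real.exp (-(A x)) * 0 ^ 2) = (b - A x) ^ 4 * (Real.exp (A x) * deriv η x.1 ^ 2) := by
          ring
        rw [e3, he]
        have := mul_le_mul_of_nonneg_right hp
          (show 0 ≤ Real.exp (A x) * deriv η x.1 ^ 2 by positivity)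
        linarith
      · rw [hW, w_of_notMem hx]
        have : 0 ≤ (K.indicator fun x : P => 5 * Real.exp b * (deriv η x.1 ^ 2 * 1)) x :=
          indicator_nonneg (fun x _ => by positivity) x
        simpa using this
  have hR2 : ∫ x, (K.indicator fun x : P => 5 * Real.exp b * (deriv η x.1 ^ 2 * 1)) x =
      5 * Real.exp b * ((∫ t in Icc l r, (deriv η t) ^ 2) * (2 * h)) := by
    rw [integral_indicator hKc.measurableSet, integral_const_mul]
    congr 1
    have := setIntegral_prod_mul (μ := (volume : Measure ℝ)) (ν := (volume : Measure ℝ))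
      (fun t : ℝ => deriv η t ^ 2) (fun _ : ℝ => (1 : ℝ)) (Icc l r) (Icc (y0 - h) (y0 + h))
    rw [hK, Measure.volume_eq_prod, this]
    congr 1
    rw [setIntegral_const]
    simp only [smul_eq_mul, mul_one]
    rw [Measure.real, Real.volume_Icc, ENNReal.toReal_ofReal (by linarith)]
    ring
  have hI0 : 0 ≤ ∫ t in Icc l r, (deriv η t) ^ 2 :=
    integral_nonneg fun t => sq_nonneg _
  rw [eL]
  refine hen.trans ?_
  rw [hR2] at hR
  have hp : 0 ≤ Real.exp b * h * ∫ t in Icc l r, (deriv η t) ^ 2 := by positivity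
  calc 4 / 9 * ∫ x, W x ^ 4 * (Real.exp (A x) * d1 (fun x : P => η x.1) x ^ 2 +
      Real.exp (-(A x)) * d2 (fun x : P => η x.1) x ^ 2)
      ≤ 4 / 9 * (5 * Real.exp b * ((∫ t in Icc l r, (deriv η t) ^ 2) * (2 * h))) :=
        mul_le_mul_of_nonneg_left hR (by norm_num)
    _ = 40 / 9 * (Real.exp b * h * ∫ t in Icc l r, (deriv η t) ^ 2) := by ring
    _ ≤ 10 * (Real.exp b * h * ∫ t in Icc l r, (deriv η t) ^ 2) :=
        mul_le_mul_of_nonneg_right (by norm_num) hp
    _ = 10 * Real.exp b * h * ∫ t in Icc l r, (deriv η t) ^ 2 := by ring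

end Pool.Agent.EU
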