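import Pool.Agent.EU.B

/-!
Module PT: `sup s + sup s' ≤ sup (s + s')` for bounded subsolutions of `Δ + n·∇` in the plane
(mirror coupling / doubling of variables and the maximum principle).
-/

set_option autoImplicit false
open scoped ContDiff Topology
open Real Set Filter

namespace Pool.Agent.EU

/-- penalty function -/
noncomputable def pen (t : ℝ) : ℝ := Real.log (1 + t ^ 2)

theorem pen_nonneg (t : ℝ) : 0 ≤ pen t := Real.log_nonneg (by nlinarith [sq_nonneg t])

theorem hasDerivAt_pen (t : ℝ) : HasDerivAt pen (2 * t / (1 + t ^ 2)) t := by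
  have h1 : HasDerivAt (fun t : ℝ => 1 + t ^ 2) (2 * t) t := by
    simpa using (hasDerivAt_pow 2 t).const_add 1
  exact h1.log (by nlinarith [sq_nonneg t])

theorem hasDerivAt_pen' (t : ℝ) :
    HasDerivAt (fun t : ℝ => 2 * t / (1 + t ^ 2)) ((2 - 2 * t ^ 2) / (1 + t ^ 2) ^ 2) t := by
  have h1 : HasDerivAt (fun t : ℝ => 1 + t ^ 2) (2 * t) t := by
    simpa using (hasDerivAt_pow 2 t).const_add 1
  have h2 : HasDerivAt (fun t : ℝ => 2 * t) 2 t := by
    simpa using (hasDerivAt_id t).const_mul (2:ℝ)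
  have h3 := h2.div h1 (by nlinarith [sq_nonneg t])
  refine h3.congr_deriv ?_
  congr 1
  ring

theorem pen'_le (t : ℝ) : |2 * t / (1 + t ^ 2)| ≤ 1 := by
  have h : 0 < 1 + t ^ 2 := by nlinarith [sq_nonneg t]
  rw [abs_div, abs_of_pos h, div_le_one h, abs_le]
  constructor <;> nlinarith [sq_nonneg (t - 1), sq_nonneg (t + 1)]

theorem pen''_le (t : ℝ) : (2 - 2 * t ^ 2) / (1 + t ^ 2) ^ 2 ≤ 2 := by
  have h : 0 < (1 + t ^ 2) ^ 2 := by positivity
  rw [div_le_iff₀ h]
  nlinarith [sq_nonneg t, sq_nonneg (t ^ 2)]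

theorem continuous_pen : Continuous pen :=
  continuous_iff_continuousAt.2 fun t => (hasDerivAt_pen t).continuousAt

theorem pen_big {T R : ℝ} (hT : 0 ≤ T) {t : ℝ} (ht : |t| = R) (hR : Real.exp T ≤ R) : T ≤ pen t := by
  rw [pen, ← sq_abs, ht, Real.le_log_iff_exp_le (by positivity)]
  have h1 : 1 ≤ Real.exp T := Real.one_le_exp hT
  nlinarith

theorem couple_one {α β : ℝ} (hα : |α| ≤ 1) (hβ : |β| ≤ 1) {s s' : P → ℝ} (hs : ContDiff ℝ 2 s)
    (hs' : ContDiff ℝ 2 s') {B : ℝ} (hb : ∀ x, |s x| ≤ B) (hb' : ∀ x, |s' x| ≤ B)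
    (hL : ∀ x, 0 ≤ d1 (d1 s) x + d2 (d2 s) x + α * d1 s x + β * d2 s x)
    (hL' : ∀ x, 0 ≤ d1 (d1 s') x + d2 (d2 s') x + α * d1 s' x + β * d2 s' x)
    {c : ℝ} (hc : ∀ x, s x + s' x ≤ c) {x0 y0 m0 : ℝ} (hxy : y0 ≤ x0) :
    s (x0, m0) + s' (y0, m0) ≤ c := by
  by_contra hcon
  have hcon' : c < s (x0, m0) + s' (y0, m0) := not_le.1 hcon
  have hB0 : 0 ≤ B := (abs_nonneg _).trans (hb 0)
  set ε : ℝ := s (x0, m0) + s' (y0, m0) - c with hε
  have hε0 : 0 < ε := by rw [hε]; linarith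
  set ρ0 : ℝ := x0 - y0 with hρ0
  have hρ00 : 0 ≤ ρ0 := by rw [hρ0]; linarith
  set δ : ℝ := ε / (3 * (ρ0 + 1)) with hδ
  have hδ0 : 0 < δ := by positivity
  have hδρ : δ * ρ0 < ε / 3 := by
    rw [hδ, div_mul_eq_mul_div, div_lt_div_iff₀ (by positivity) (by norm_num)]
    nlinarith
  set N : ℝ := 2 * B + |c| + 1 with hN
  have hN0 : 0 < N := by positivity
  set ρ1 : ℝ := ρ0 + N / δ with hρ1
  have hρ01 : ρ0 ≤ ρ1 := by rw [hρ1]; have : 0 ≤ N / δ := by positivity
                            linarith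
  have hδρ1 : N ≤ δ * ρ1 := by
    rw [hρ1, mul_add, mul_div_cancel₀ _ hδ0.ne']
    nlinarith
  set a0 : ℝ := (x0 + y0) / 2 with ha0
  set Q0 : ℝ := ρ0 * (2 * ρ1 - ρ0) + (pen a0 + pen m0) with hQ0
  have hQ00 : 0 ≤ Q0 := by
    have h1 : 0 ≤ ρ0 * (2 * ρ1 - ρ0) := mul_nonneg hρ00 (by linarith)
    have := pen_nonneg a0
    have := pen_nonneg m0
    rw [hQ0]; linarith
  set η : ℝ := ε / (3 * (Q0 + 1)) with hη
  have hη0 : 0 < η := by positivity
  have hηQ : η * Q0 < ε / 3 := by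
    rw [hη, div_mul_eq_mul_div, div_lt_div_iff₀ (by positivity) (by norm_num)]
    nlinarith
  set T : ℝ := N / η with hT
  have hT0 : 0 ≤ T := by positivity
  have hηT : η * T = N := by rw [hT]; exact mul_div_cancel₀ _ hη0.ne'
  set R : ℝ := Real.exp T + |a0| + |m0| with hR
  have hRT : Real.exp T ≤ R := by rw [hR]; have := abs_nonneg a0; have := abs_nonneg m0; linarith
  have hRpos : 0 < R := lt_of_lt_of_le (Real.exp_pos T) hRT
  set G : ℝ × ℝ × ℝ → ℝ := fun p => s (p.1 + p.2.1 / 2, p.2.2) + s' (p.1 - p.2.1 / 2, p.2.2) - c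
    - δ * p.2.1 - η * (p.2.1 * (2 * ρ1 - p.2.1)) - η * (pen p.1 + pen p.2.2) with hG
  have hGc : Continuous G := by
    have := hs.continuous
    have := hs'.continuous
    have := continuous_pen
    rw [hG]
    fun_prop
  set K : Set (ℝ × ℝ × ℝ) := Icc (-R) R ×ˢ (Icc 0 ρ1 ×ˢ Icc (-R) R) with hK
  have hKc : IsCompact K := isCompact_Icc.prod (isCompact_Icc.prod isCompact_Icc)
  have hp0 : ((a0, ρ0, m0) : ℝ × ℝ × ℝ) ∈ K := by
    have h1 : |a0| ≤ R := by
      rw [hR]; have := abs_nonneg m0; have := Real.exp_pos T; linarith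
    have h2 : |m0| ≤ R := by
      rw [hR]; have := abs_nonneg a0; have := Real.exp_pos T; linarith
    exact ⟨abs_le.1 h1, ⟨hρ00, hρ01⟩, abs_le.1 h2⟩
  obtain ⟨p, hpK, hpmax⟩ := hKc.exists_isMaxOn ⟨_, hp0⟩ hGc.continuousOn
  obtain ⟨a, ρ, b⟩ := p
  have hG0 : 0 < G (a0, ρ0, m0) := by
    simp only [hG]
    have e1 : a0 + ρ0 / 2 = x0 := by rw [ha0, hρ0]; ring
    have e2 : a0 - ρ0 / 2 = y0 := by rw [ha0, hρ0]; ring
    rw [e1, e2]
    have e3 : η * (ρ0 * (2 * ρ1 - ρ0)) + η * (pen a0 + pen m0) = η * Q0 := by rw [hQ0]; ring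
    have e4 : s (x0, m0) + s' (y0, m0) - c = ε := rfl
    linarith
  have hGp : 0 < G (a, ρ, b) := lt_of_lt_of_le hG0 (hpmax hp0)
  obtain ⟨⟨ha1, ha2⟩, ⟨hr1, hr2⟩, hb1, hb2⟩ := hpK
  simp only at ha1 ha2 hr1 hr2 hb1 hb2
  have hρnn : 0 ≤ ρ * (2 * ρ1 - ρ) := mul_nonneg hr1 (by linarith)
  have hsb : ∀ x y : P, s x + s' y ≤ 2 * B := fun x y => by
    have := (abs_le.1 (hb x)).2; have := (abs_le.1 (hb' y)).2; linarith
  have hGexp : G (a, ρ, b) = s (a + ρ / 2, b) + s' (a - ρ / 2, b) - c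
    - δ * ρ - η * (ρ * (2 * ρ1 - ρ)) - η * (pen a + pen b) := rfl
  have hnc := neg_abs_le c
  have h1 : 0 ≤ η * (ρ * (2 * ρ1 - ρ)) := mul_nonneg hη0.le hρnn
  have h2 : 0 ≤ δ * ρ := mul_nonneg hδ0.le hr1
  have hpa := mul_nonneg hη0.le (pen_nonneg a)
  have hpb := mul_nonneg hη0.le (pen_nonneg b)
  have habs_a : |a| < R := by
    refine lt_of_le_of_ne (abs_le.2 ⟨ha1, ha2⟩) fun heq => ?_
    have h3 := mul_le_mul_of_nonneg_left (pen_big hT0 heq hRT) hη0.le
    have := hsb (a + ρ / 2, b) (a - ρ / 2, b)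
    rw [hηT] at h3
    rw [hGexp] at hGp
    linarith
  have habs_b : |b| < R := by
    refine lt_of_le_of_ne (abs_le.2 ⟨hb1, hb2⟩) fun heq => ?_
    have h3 := mul_le_mul_of_nonneg_left (pen_big hT0 heq hRT) hη0.le
    have := hsb (a + ρ / 2, b) (a - ρ / 2, b)
    rw [hηT] at h3
    rw [hGexp] at hGp
    linarith
  have hρpos : 0 < ρ := by
    refine lt_of_le_of_ne hr1 fun heq => ?_
    rw [hGexp, ← heq] at hGp
    have := hc (a, b)
    simp only [zero_div, add_zero, sub_zero, mul_zero, zero_mul] at hGp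
    linarith
  have hρlt : ρ < ρ1 := by
    refine lt_of_le_of_ne hr2 fun heq => ?_
    have := hsb (a + ρ / 2, b) (a - ρ / 2, b)
    rw [hGexp] at hGp
    rw [heq] at hGp h1
    rw [heq] at this
    linarith
  rw [abs_lt] at habs_a habs_b
  have hnhds : K ∈ 𝓝 ((a, ρ, b) : ℝ × ℝ × ℝ) := by
    rw [nhds_prod_eq, nhds_prod_eq]
    exact prod_mem_prod (Icc_mem_nhds habs_a.1 habs_a.2)
      (prod_mem_prod (Icc_mem_nhds hρpos hρlt) (Icc_mem_nhds habs_b.1 habs_b.2))
  have hloc : IsLocalMax G (a, ρ, b) := hpmax.isLocalMax hnhds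
  have comp : ∀ (γ : ℝ → ℝ × ℝ × ℝ) (t : ℝ), Continuous γ → γ t = (a, ρ, b) →
      IsLocalMax (fun t => G (γ t)) t := by
    intro γ t hγ ht
    have h3 : Tendsto γ (𝓝 t) (𝓝 (a, ρ, b)) := by rw [← ht]; exact hγ.tendsto t
    have := h3.eventually hloc
    refine this.mono fun u hu => ?_
    show G (γ u) ≤ G (γ t)
    rw [ht]; exact hu
  have dS : Differentiable ℝ s := hs.differentiable (by norm_num)
  have dS' : Differentiable ℝ s' := hs'.differentiable (by norm_num)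
  have dS1 : Differentiable ℝ (d1 s) := (contDiff_d1 (m := 1) hs (by norm_num)).differentiable (by norm_num)
  have dS1' : Differentiable ℝ (d1 s') := (contDiff_d1 (m := 1) hs' (by norm_num)).differentiable (by norm_num)
  have dS2 : Differentiable ℝ (d2 s) := (contDiff_d2 (m := 1) hs (by norm_num)).differentiable (by norm_num)
  have dS2' : Differentiable ℝ (d2 s') := (contDiff_d2 (m := 1) hs' (by norm_num)).differentiable (by norm_num)
  -- direction rho
  have aff1 : ∀ t : ℝ, HasDerivAt (fun t : ℝ => a + t / 2) (1 / 2) t := fun t => by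
    simpa using ((hasDerivAt_id t).div_const 2).const_add a
  have aff2 : ∀ t : ℝ, HasDerivAt (fun t : ℝ => a - t / 2) (-(1 / 2)) t := fun t => by
    simpa using ((hasDerivAt_id t).div_const 2).const_sub a
  have i1 : ∀ (w : P → ℝ), Differentiable ℝ w → ∀ t : ℝ,
      HasDerivAt (fun t : ℝ => w (a + t / 2, b)) (d1 w (a + t / 2, b) * (1 / 2)) t := by
    intro w hw t
    exact (hasDerivAt_d1 (x := (a + t / 2, b)) (hw _)).comp t (aff1 t)
  have i2 : ∀ (w : P → ℝ), Differentiable ℝ w → ∀ t : ℝ,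
      HasDerivAt (fun t : ℝ => w (a - t / 2, b)) (d1 w (a - t / 2, b) * (-(1 / 2))) t := by
    intro w hw t
    exact (hasDerivAt_d1 (x := (a - t / 2, b)) (hw _)).comp t (aff2 t)
  have t1 := second_test (g := fun t => G (a, t, b))
    (g' := fun t => d1 s (a + t / 2, b) * (1 / 2) + d1 s' (a - t / 2, b) * (-(1 / 2)) - δ
      - η * (2 * ρ1 - 2 * t))
    (x := ρ) (c := d1 (d1 s) (a + ρ / 2, b) * (1 / 2) * (1 / 2) +
      d1 (d1 s') (a - ρ / 2, b) * (-(1 / 2)) * (-(1 / 2)) + 2 * η)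
    (comp (fun t => (a, t, b)) ρ (by fun_prop) rfl)
    (Eventually.of_forall fun t => by
      have e1 := i1 s dS t
      have e2 := i2 s' dS' t
      have e3 : HasDerivAt (fun t : ℝ => δ * t) δ t := by
        simpa using (hasDerivAt_id t).const_mul δ
      have e4 : HasDerivAt (fun t : ℝ => η * (t * (2 * ρ1 - t))) (η * (2 * ρ1 - 2 * t)) t := by
        have := (((hasDerivAt_id t).mul ((hasDerivAt_id t).const_sub (2 * ρ1))).const_mul η)
        refine this.congr_deriv ?_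
        simp only [id]
        ring
      have := ((((e1.add e2).sub_const c).sub e3).sub e4).sub_const (η * (pen a + pen b))
      exact this)
    (by
      have e1 := (i1 (d1 s) dS1 ρ).mul_const (1 / 2)
      have e2 := (i2 (d1 s') dS1' ρ).mul_const (-(1 / 2))
      have e4 : HasDerivAt (fun t : ℝ => η * (2 * ρ1 - 2 * t)) (-(2 * η)) ρ := by
        have := (((hasDerivAt_id ρ).const_mul (2:ℝ)).const_sub (2 * ρ1)).const_mul η
        refine this.congr_deriv ?_
        ring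
      have := ((e1.add e2).sub_const δ).sub e4
      refine this.congr_deriv ?_
      ring)
  -- direction m2
  have t2 := second_test (g := fun t => G (a, ρ, t))
    (g' := fun t => d2 s (a + ρ / 2, t) + d2 s' (a - ρ / 2, t) - η * (2 * t / (1 + t ^ 2)))
    (x := b) (c := d2 (d2 s) (a + ρ / 2, b) + d2 (d2 s') (a - ρ / 2, b)
      - η * ((2 - 2 * b ^ 2) / (1 + b ^ 2) ^ 2))
    (comp (fun t => (a, ρ, t)) b (by fun_prop) rfl)
    (Eventually.of_forall fun t => by
      have e1 := hasDerivAt_d2 (x := (a + ρ / 2, t)) (dS _)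
      have e2 := hasDerivAt_d2 (x := (a - ρ / 2, t)) (dS' _)
      have e3 : HasDerivAt (fun t : ℝ => η * (pen a + pen t)) (η * (2 * t / (1 + t ^ 2))) t :=
        ((hasDerivAt_pen t).const_add (pen a)).const_mul η
      have := ((((e1.add e2).sub_const c).sub_const (δ * ρ)).sub_const
        (η * (ρ * (2 * ρ1 - ρ)))).sub e3
      exact this)
    (by
      have e1 := hasDerivAt_d2 (x := (a + ρ / 2, b)) (dS2 _)
      have e2 := hasDerivAt_d2 (x := (a - ρ / 2, b)) (dS2' _)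
      exact (e1.add e2).sub ((hasDerivAt_pen' b).const_mul η))
  -- drift direction
  have t3 : α * d1 s (a + ρ / 2, b) + β * d2 s (a + ρ / 2, b) +
      (α * d1 s' (a - ρ / 2, b) + β * d2 s' (a - ρ / 2, b)) -
      η * (2 * a / (1 + a ^ 2) * α + 2 * b / (1 + b ^ 2) * β) = 0 := by
    have hm := comp (fun t => (a + t * α, ρ, b + t * β)) 0 (by fun_prop) (by simp)
    refine hm.hasDerivAt_eq_zero ?_
    have l1 : ∀ (w : P → ℝ) (z : ℝ), Differentiable ℝ w →
        HasDerivAt (fun t : ℝ => w (z + t * α, b + t * β)) (α * d1 w (z, b) + β * d2 w (z, b)) 0 := by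
      intro w z hw
      have g1 : HasDerivAt (fun t : ℝ => z + t * α) α 0 := by
        simpa using ((hasDerivAt_id (0:ℝ)).mul_const α).const_add z
      have g2 : HasDerivAt (fun t : ℝ => b + t * β) β 0 := by
        simpa using ((hasDerivAt_id (0:ℝ)).mul_const β).const_add b
      have g3 := g1.prodMk g2
      have g4 : HasFDerivAt w (fderiv ℝ w (z, b)) ((fun t : ℝ => (z + t * α, b + t * β)) 0) := by
        simpa using (hw (z, b)).hasFDerivAt
      have g5 := g4.comp_hasDerivAt 0 g3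
      rw [fderiv_apply_eq] at g5
      exact g5
    have e1 := l1 s (a + ρ / 2) dS
    have e2 := l1 s' (a - ρ / 2) dS'
    have e3 : HasDerivAt (fun t : ℝ => pen (a + t * α)) (2 * a / (1 + a ^ 2) * α) 0 := by
      have g1 : HasDerivAt (fun t : ℝ => a + t * α) α 0 := by
        simpa using ((hasDerivAt_id (0:ℝ)).mul_const α).const_add a
      have g4 : HasDerivAt pen (2 * a / (1 + a ^ 2)) ((fun t : ℝ => a + t * α) 0) := by
        simpa using hasDerivAt_pen a
      exact HasDerivAt.comp (h₂ := pen) (0:ℝ) g4 g1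
    have e4 : HasDerivAt (fun t : ℝ => pen (b + t * β)) (2 * b / (1 + b ^ 2) * β) 0 := by
      have g1 : HasDerivAt (fun t : ℝ => b + t * β) β 0 := by
        simpa using ((hasDerivAt_id (0:ℝ)).mul_const β).const_add b
      have g4 : HasDerivAt pen (2 * b / (1 + b ^ 2)) ((fun t : ℝ => b + t * β) 0) := by
        simpa using hasDerivAt_pen b
      exact HasDerivAt.comp (h₂ := pen) (0:ℝ) g4 g1
    have := ((((e1.add e2).sub_const c).sub_const (δ * ρ)).sub_const
        (η * (ρ * (2 * ρ1 - ρ)))).sub ((e3.add e4).const_mul η)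
    refine this.congr_of_eventuallyEq (Eventually.of_forall fun t => ?_)
    simp only [hG, Pi.add_apply, Pi.sub_apply]
    have q1 : a + t * α + ρ / 2 = a + ρ / 2 + t * α := by ring
    have q2 : a + t * α - ρ / 2 = a - ρ / 2 + t * α := by ring
    rw [q1, q2]
  have c1 := t1.2
  have c2 := t2.2
  have L1 := hL (a + ρ / 2, b)
  have L2 := hL' (a - ρ / 2, b)
  have p1 : |2 * a / (1 + a ^ 2) * α| ≤ 1 := by
    rw [abs_mul]
    calc |2 * a / (1 + a ^ 2)| * |α| ≤ 1 * 1 :=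
          mul_le_mul (pen'_le a) hα (abs_nonneg _) zero_le_one
      _ = 1 := one_mul 1
  have p2 : |2 * b / (1 + b ^ 2) * β| ≤ 1 := by
    rw [abs_mul]
    calc |2 * b / (1 + b ^ 2)| * |β| ≤ 1 * 1 :=
          mul_le_mul (pen'_le b) hβ (abs_nonneg _) zero_le_one
      _ = 1 := one_mul 1
  have p3 := mul_le_mul_of_nonneg_left (pen''_le b) hη0.le
  have p4 := mul_le_mul_of_nonneg_left (abs_le.1 p1).2 hη0.le
  have p5 := mul_le_mul_of_nonneg_left (abs_le.1 p2).2 hη0.le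
  linarith

/-- coupling in the first direction, without ordering. -/
theorem couple_one' {α β : ℝ} (hα : |α| ≤ 1) (hβ : |β| ≤ 1) {s s' : P → ℝ} (hs : ContDiff ℝ 2 s)
    (hs' : ContDiff ℝ 2 s') {B : ℝ} (hb : ∀ x, |s x| ≤ B) (hb' : ∀ x, |s' x| ≤ B)
    (hL : ∀ x, 0 ≤ d1 (d1 s) x + d2 (d2 s) x + α * d1 s x + β * d2 s x)
    (hL' : ∀ x, 0 ≤ d1 (d1 s') x + d2 (d2 s') x + α * d1 s' x + β * d2 s' x)
    {c : ℝ} (hc : ∀ x, s x + s' x ≤ c) (x0 y0 m0 : ℝ) :
    s (x0, m0) + s' (y0, m0) ≤ c := by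
  rcases le_total y0 x0 with h | h
  · exact couple_one hα hβ hs hs' hb hb' hL hL' hc h
  · have hc' : ∀ x, s' x + s x ≤ c := fun x => by linarith [hc x]
    have := couple_one hα hβ hs' hs hb' hb hL' hL hc' h (m0 := m0)
    linarith

theorem fderiv_comp_swap {w : P → ℝ} (x v : P) :
    fderiv ℝ (fun y : P => w y.swap) x v = fderiv ℝ w x.swap v.swap := by
  have h := (ContinuousLinearEquiv.prodComm ℝ ℝ ℝ).comp_right_fderiv (f := w) (x := x)
  have h' : fderiv ℝ (fun y : P => w y.swap) x =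
      (fderiv ℝ w x.swap).comp (ContinuousLinearEquiv.prodComm ℝ ℝ ℝ : P →L[ℝ] P) := h
  rw [h']; rfl

theorem d1_comp_swap (w : P → ℝ) : d1 (fun y : P => w y.swap) = fun y => d2 w y.swap :=
  funext fun x => fderiv_comp_swap x _

theorem d2_comp_swap (w : P → ℝ) : d2 (fun y : P => w y.swap) = fun y => d1 w y.swap :=
  funext fun x => fderiv_comp_swap x _

theorem d1_comp_add (w : P → ℝ) (a : P) : d1 (fun y : P => w (y + a)) = fun y => d1 w (y + a) := by
  funext x
  simp only [d1]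
  rw [fderiv_comp_add_right]

theorem d2_comp_add (w : P → ℝ) (a : P) : d2 (fun y : P => w (y + a)) = fun y => d2 w (y + a) := by
  funext x
  simp only [d2]
  rw [fderiv_comp_add_right]

theorem sup_add {ν : ℝ} {s s' : P → ℝ} (hs : ContDiff ℝ 2 s) (hs' : ContDiff ℝ 2 s')
    (hb : ∃ C, ∀ x, |s x| ≤ C) (hb' : ∃ C, ∀ x, |s' x| ≤ C)
    (hL : ∀ x, 0 ≤ d1 (d1 s) x + d2 (d2 s) x + cos ν * d1 s x + sin ν * d2 s x)
    (hL' : ∀ x, 0 ≤ d1 (d1 s') x + d2 (d2 s') x + cos ν * d1 s' x + sin ν * d2 s' x)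
    {c : ℝ} (hc : ∀ x, s x + s' x ≤ c) (x y : P) : s x + s' y ≤ c := by
  obtain ⟨C, hC⟩ := hb
  obtain ⟨C', hC'⟩ := hb'
  have hB : ∀ x, |s x| ≤ max C C' := fun x => (hC x).trans (le_max_left _ _)
  have hB' : ∀ x, |s' x| ≤ max C C' := fun x => (hC' x).trans (le_max_right _ _)
  have step1 : ∀ x0 y0 m0 : ℝ, s (x0, m0) + s' (y0, m0) ≤ c :=
    couple_one' (abs_cos_le_one ν) (abs_sin_le_one ν) hs hs' hB hB' hL hL' hc
  -- translate `s'` in the first direction
  set a : P := (y.1 - x.1, 0) with ha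
  set r : P → ℝ := fun z => s' (z + a) with hr
  have hr2 : ContDiff ℝ 2 r := hs'.comp (contDiff_id.add contDiff_const)
  have hrc : ∀ z, s z + r z ≤ c := by
    intro z
    have := step1 z.1 (z.1 + (y.1 - x.1)) z.2
    have e : z + a = (z.1 + (y.1 - x.1), z.2) := by rw [ha]; ext <;> simp
    rw [hr]; simp only; rw [e]; exact this
  have hrL : ∀ x, 0 ≤ d1 (d1 r) x + d2 (d2 r) x + cos ν * d1 r x + sin ν * d2 r x := by
    intro z
    have := hL' (z + a)
    rw [hr, d1_comp_add, d1_comp_add, d2_comp_add, d2_comp_add]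
    exact this
  -- swap
  have k := couple_one' (s := fun z => s z.swap) (s' := fun z => r z.swap) (α := sin ν) (β := cos ν)
    (B := max C C') (abs_sin_le_one ν) (abs_cos_le_one ν)
    (hs.comp (ContinuousLinearEquiv.prodComm ℝ ℝ ℝ).contDiff)
    (hr2.comp (ContinuousLinearEquiv.prodComm ℝ ℝ ℝ).contDiff)
    (fun z => hB _) (fun z => hB' _)
    (fun z => by
      rw [d1_comp_swap, d2_comp_swap, d1_comp_swap, d2_comp_swap]
      have := hL z.swap
      linarith)
    (fun z => by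
      rw [d1_comp_swap, d2_comp_swap, d1_comp_swap, d2_comp_swap]
      have := hrL z.swap
      linarith) (fun z => hrc z.swap) x.2 y.2 x.1
  simp only [Prod.swap_prod_mk] at k
  have e : ((x.1, y.2) : P) + a = y := by rw [ha]; ext <;> simp
  rw [hr] at k
  simp only at k
  rw [e] at k
  exact k

end Pool.Agent.EU
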