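import Pool.Agent.EU.T
import Pool.Agent.EU.B
import Pool.Agent.EU.L
import Pool.Agent.EU.PT

/-!
Module POS1: positivity for degree one.  `F = (X, Y)` a smooth homeomorphism of the plane with
`Y₁ = -e^{-q₁} X₂`, `Y₂ = e^{-q₁} X₁`, `∇X ≠ 0`; then some directional derivative of `X` is
nonnegative.
-/

set_option autoImplicit false

open scoped ContDiff Topology
open Real Set MeasureTheory Filter

namespace Pool.Agent.EU
namespace PosOne

/-! ### one-dimensional strict second derivative test -/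

theorem strict_min {g g' : ℝ → ℝ} {g'' : ℝ} (h : ∀ s, HasDerivAt g (g' s) s)
    (h' : HasDerivAt g' g'' 0) (h0 : g' 0 = 0) (hpos : 0 < g'') :
    ∃ ε > 0, ∀ s, s ≠ 0 → |s| ≤ ε → g 0 < g s := by
  have hsl := hasDerivAt_iff_tendsto_slope.1 h'
  have hev : ∀ᶠ s in 𝓝[≠] (0:ℝ), 0 < slope g' 0 s := hsl.eventually (lt_mem_nhds hpos)
  rw [eventually_nhdsWithin_iff, Metric.eventually_nhds_iff] at hev
  obtain ⟨δ, hδ, hd⟩ := hev
  have hd' : ∀ s, s ≠ 0 → |s| < δ → 0 < s * g' s := by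
    intro s hs hsd
    have := hd (y := s) (by simpa [Real.dist_eq] using hsd) hs
    rw [slope_def_field, h0, sub_zero, sub_zero] at this
    have hs2 : 0 < s ^ 2 := by positivity
    calc (0:ℝ) < s ^ 2 * (g' s / s) := mul_pos hs2 this
      _ = s * g' s := by field_simp
  have hdiff : Differentiable ℝ g := fun s => (h s).differentiableAt
  refine ⟨δ / 2, by positivity, fun s hs hsd => ?_⟩
  rcases lt_or_gt_of_ne hs with hneg | hpos'
  · obtain ⟨c, hc, hce⟩ := exists_hasDerivAt_eq_slope g g' hneg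
      (hdiff.continuous.continuousOn) (fun x _ => h x)
    have hc0 : c ≠ 0 := hc.2.ne
    have habs : |c| < δ := by
      rw [abs_of_neg hc.2]
      rw [abs_of_neg hneg] at hsd
      linarith [hc.1]
    have h3 := hd' c hc0 habs
    have h4 : g' c < 0 := by
      by_contra hcon
      push Not at hcon
      nlinarith [hc.2]
    rw [hce] at h4
    have h5 : 0 < 0 - s := by linarith
    rw [div_lt_iff₀ h5] at h4
    linarith
  · obtain ⟨c, hc, hce⟩ := exists_hasDerivAt_eq_slope g g' hpos'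
      (hdiff.continuous.continuousOn) (fun x _ => h x)
    have hc0 : c ≠ 0 := hc.1.ne'
    have habs : |c| < δ := by
      rw [abs_of_pos hc.1]
      rw [abs_of_pos hpos'] at hsd
      linarith [hc.2]
    have h3 := hd' c hc0 habs
    have h4 : 0 < g' c := by
      by_contra hcon
      push Not at hcon
      nlinarith [hc.1]
    rw [hce] at h4
    have h5 : 0 < s - 0 := by linarith
    rw [lt_div_iff₀ h5] at h4
    linarith

theorem c2 {H : P → ℝ} (hH : ContDiff ℝ ∞ H) : ContDiff ℝ 2 H := by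
  exact_mod_cast contDiff_infty.1 hH 2

theorem dir_deriv {H : P → ℝ} (hH : Differentiable ℝ H) (p e : P) (s : ℝ) :
    HasDerivAt (fun s : ℝ => H (p + s • e)) (e.1 * d1 H (p + s • e) + e.2 * d2 H (p + s • e)) s := by
  have h1 : HasDerivAt (fun s : ℝ => p + s • e) e s := by
    simpa using ((hasDerivAt_id s).smul_const e).const_add p
  have h2 := ((hH (p + s • e)).hasFDerivAt).comp_hasDerivAt s h1
  rw [fderiv_apply_eq] at h2
  simp only [smul_eq_mul] at h2
  exact h2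

/-- second derivative along a line through a critical point -/
theorem line_min {H : P → ℝ} (hH : ContDiff ℝ ∞ H) {p : P} (h1 : d1 H p = 0) (h2 : d2 H p = 0)
    (e : P) (hq : 0 < e.1 * (e.1 * d1 (d1 H) p + e.2 * d2 (d1 H) p) +
      e.2 * (e.1 * d1 (d2 H) p + e.2 * d2 (d2 H) p)) :
    ∃ ε > 0, ∀ s : ℝ, s ≠ 0 → |s| ≤ ε → H p < H (p + s • e) := by
  have hd : Differentiable ℝ H := hH.differentiable (by simp)
  have hd1 : Differentiable ℝ (d1 H) := (smooth_d1 hH).differentiable (by simp)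
  have hd2 : Differentiable ℝ (d2 H) := (smooth_d2 hH).differentiable (by simp)
  have ha := fun s => dir_deriv hd p e s
  have hb := (((dir_deriv hd1 p e 0).const_mul e.1).add ((dir_deriv hd2 p e 0).const_mul e.2))
  simp only [zero_smul, add_zero] at hb
  obtain ⟨ε, hε, h⟩ := strict_min ha hb (by simp [h1, h2]) hq
  refine ⟨ε, hε, fun s hs hs' => ?_⟩
  have := h s hs hs'
  simpa using this

theorem saddle {H : P → ℝ} (hH : ContDiff ℝ ∞ H) {p : P} (h1 : d1 H p = 0) (h2 : d2 H p = 0)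
    (ht : d1 (d1 H) p + d2 (d2 H) p = 0) (hne : ¬ (d1 (d1 H) p = 0 ∧ d2 (d1 H) p = 0)) :
    ∃ (e : P) (ε : ℝ), e.1 ^ 2 + e.2 ^ 2 = 1 ∧ 0 < ε ∧
      (∀ s : ℝ, s ≠ 0 → |s| ≤ ε → H p < H (p + s • e)) ∧
      (∀ s : ℝ, s ≠ 0 → |s| ≤ ε → H (p + s • ((-e.2, e.1) : P)) < H p) := by
  set α := d1 (d1 H) p with hα
  set β := d2 (d1 H) p with hβ
  have hβ' : d1 (d2 H) p = β := d1_d2_comm (c2 hH) p
  have h22 : d2 (d2 H) p = -α := by linarith
  set z : ℂ := ⟨α, β⟩ with hz
  have hz0 : z ≠ 0 := by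
    intro h
    apply hne
    rw [Complex.ext_iff] at h
    exact ⟨h.1, h.2⟩
  set r := ‖z‖ with hr
  have hr0 : 0 < r := norm_pos_iff.2 hz0
  set φ := Complex.arg z / 2 with hφ
  have hc : α = r * cos (2 * φ) := by
    have := Complex.norm_mul_cos_arg z
    rw [hφ, show 2 * (Complex.arg z / 2) = Complex.arg z by ring]
    exact this.symm
  have hs : β = r * sin (2 * φ) := by
    have := Complex.norm_mul_sin_arg z
    rw [hφ, show 2 * (Complex.arg z / 2) = Complex.arg z by ring]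
    exact this.symm
  have hcs : sin φ ^ 2 + cos φ ^ 2 = 1 := sin_sq_add_cos_sq φ
  have hcs2 : sin (2*φ) ^ 2 + cos (2*φ) ^ 2 = 1 := sin_sq_add_cos_sq (2*φ)
  have hcos2 : cos (2 * φ) = cos φ ^ 2 - sin φ ^ 2 := cos_two_mul' φ
  have hsin2 : sin (2 * φ) = 2 * sin φ * cos φ := sin_two_mul φ
  have hq1 : cos φ * (cos φ * α + sin φ * β) + sin φ * (cos φ * β + sin φ * (-α)) = r := by
    calc _ = α * (cos φ ^ 2 - sin φ ^ 2) + β * (2 * sin φ * cos φ) := by ring
      _ = α * cos (2 * φ) + β * sin (2 * φ) := by rw [hcos2, hsin2]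
      _ = r * (sin (2*φ) ^ 2 + cos (2*φ) ^ 2) := by rw [hc, hs]; ring
      _ = r := by rw [hcs2, mul_one]
  obtain ⟨ε1, hε1, H1⟩ := line_min hH h1 h2 ((cos φ, sin φ) : P) (by
    show 0 < cos φ * (cos φ * α + sin φ * β) + sin φ * (cos φ * d1 (d2 H) p + sin φ * d2 (d2 H) p)
    rw [hβ', h22, hq1]
    exact hr0)
  -- minus H
  have hHn : ContDiff ℝ ∞ (fun x => -H x) := hH.neg
  have n1 : ∀ x, d1 (fun x => -H x) x = - d1 H x := by
    intro x
    unfold d1
    rw [show (fun x => -H x) = -H from rfl, fderiv_neg]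
    rfl
  have n2 : ∀ x, d2 (fun x => -H x) x = - d2 H x := by
    intro x
    unfold d2
    rw [show (fun x => -H x) = -H from rfl, fderiv_neg]
    rfl
  have n11 : d1 (d1 (fun x => -H x)) p = -α := by
    rw [show d1 (fun x => -H x) = fun x => - d1 H x from funext n1]
    unfold d1
    rw [show (fun x => -(fderiv ℝ H x) (1, 0)) = -(fun x => (fderiv ℝ H x) (1, 0)) from rfl,
      fderiv_neg]
    rfl
  have n21 : d2 (d1 (fun x => -H x)) p = -β := by
    rw [show d1 (fun x => -H x) = fun x => - d1 H x from funext n1]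
    unfold d2
    rw [show (fun x => -(d1 H x)) = -(d1 H) from rfl, fderiv_neg]
    rfl
  have n12 : d1 (d2 (fun x => -H x)) p = -β := by
    rw [← hβ', show d2 (fun x => -H x) = fun x => - d2 H x from funext n2]
    unfold d1
    rw [show (fun x => -(d2 H x)) = -(d2 H) from rfl, fderiv_neg]
    rfl
  have n22 : d2 (d2 (fun x => -H x)) p = α := by
    have : d2 (d2 (fun x => -H x)) p = - d2 (d2 H) p := by
      rw [show d2 (fun x => -H x) = fun x => - d2 H x from funext n2]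
      unfold d2
      rw [show (fun x => -(fderiv ℝ H x) (0, 1)) = -(fun x => (fderiv ℝ H x) (0, 1)) from rfl,
        fderiv_neg]
      rfl
    rw [this, h22, neg_neg]
  obtain ⟨ε2, hε2, H2⟩ := line_min hHn (p := p) (by rw [n1, h1, neg_zero]) (by rw [n2, h2, neg_zero])
    ((-sin φ, cos φ) : P) (by
    show 0 < (-sin φ) * ((-sin φ) * d1 (d1 (fun x => -H x)) p + cos φ * d2 (d1 (fun x => -H x)) p)
      + cos φ * ((-sin φ) * d1 (d2 (fun x => -H x)) p + cos φ * d2 (d2 (fun x => -H x)) p)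
    rw [n11, n21, n12, n22]
    have : (-sin φ) * ((-sin φ) * (-α) + cos φ * (-β)) + cos φ * ((-sin φ) * (-β) + cos φ * α) = r := by
      rw [← hq1]; ring
    rw [this]
    exact hr0)
  refine ⟨(cos φ, sin φ), min ε1 ε2, by show cos φ ^ 2 + sin φ ^ 2 = 1; linarith,
    lt_min hε1 hε2, fun s hs hs' => H1 s hs (hs'.trans (min_le_left _ _)), fun s hs hs' => ?_⟩
  have := H2 s hs (hs'.trans (min_le_right _ _))
  show H (p + s • ((-sin φ, cos φ) : P)) < H p
  linarith

/-! ### calculus helpers -/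

theorem d1L {f g : P → ℝ} (hf : Differentiable ℝ f) (hg : Differentiable ℝ g) (a b : ℝ) :
    d1 (fun y => a * f y + b * g y) = fun y => a * d1 f y + b * d1 g y := by
  funext x
  have : HasFDerivAt (fun y => a * f y + b * g y) (a • fderiv ℝ f x + b • fderiv ℝ g x) x :=
    ((hf x).hasFDerivAt.const_mul a).add ((hg x).hasFDerivAt.const_mul b)
  show fderiv ℝ (fun y => a * f y + b * g y) x (1, 0) = _
  rw [this.fderiv]
  simp [d1]

theorem d2L {f g : P → ℝ} (hf : Differentiable ℝ f) (hg : Differentiable ℝ g) (a b : ℝ) :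
    d2 (fun y => a * f y + b * g y) = fun y => a * d2 f y + b * d2 g y := by
  funext x
  have : HasFDerivAt (fun y => a * f y + b * g y) (a • fderiv ℝ f x + b • fderiv ℝ g x) x :=
    ((hf x).hasFDerivAt.const_mul a).add ((hg x).hasFDerivAt.const_mul b)
  show fderiv ℝ (fun y => a * f y + b * g y) x (0, 1) = _
  rw [this.fderiv]
  simp [d2]

theorem d1C {f : P → ℝ} (hf : Differentiable ℝ f) (a : ℝ) :
    d1 (fun y => a * f y) = fun y => a * d1 f y := by
  have := d1L hf hf a 0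
  simpa using this

theorem d2C {f : P → ℝ} (hf : Differentiable ℝ f) (a : ℝ) :
    d2 (fun y => a * f y) = fun y => a * d2 f y := by
  have := d2L hf hf a 0
  simpa using this

theorem d1M {f g : P → ℝ} (hf : Differentiable ℝ f) (hg : Differentiable ℝ g) :
    d1 (fun y => f y * g y) = fun y => d1 f y * g y + f y * d1 g y := by
  funext x
  have : HasFDerivAt (fun y => f y * g y) (f x • fderiv ℝ g x + g x • fderiv ℝ f x) x :=
    ((hf x).hasFDerivAt.mul (hg x).hasFDerivAt)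
  show fderiv ℝ (fun y => f y * g y) x (1, 0) = _
  rw [this.fderiv]
  simp [d1]
  ring

theorem d2M {f g : P → ℝ} (hf : Differentiable ℝ f) (hg : Differentiable ℝ g) :
    d2 (fun y => f y * g y) = fun y => d2 f y * g y + f y * d2 g y := by
  funext x
  have : HasFDerivAt (fun y => f y * g y) (f x • fderiv ℝ g x + g x • fderiv ℝ f x) x :=
    ((hf x).hasFDerivAt.mul (hg x).hasFDerivAt)
  show fderiv ℝ (fun y => f y * g y) x (0, 1) = _
  rw [this.fderiv]
  simp [d2]
  ring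

/-- exponentials -/
noncomputable def ge (b1 b2 : ℝ) (x : P) : ℝ := Real.exp (b1 * x.1 + b2 * x.2)

theorem ge_pos (b1 b2 : ℝ) (x : P) : 0 < ge b1 b2 x := Real.exp_pos _

theorem ge_smooth (b1 b2 : ℝ) : ContDiff ℝ ∞ (ge b1 b2) := by
  unfold ge
  fun_prop

theorem ge_mul_neg (b1 b2 : ℝ) (x : P) : ge b1 b2 x * ge (-b1) (-b2) x = 1 := by
  unfold ge
  rw [← Real.exp_add]
  simp
  ring

theorem ge_fderiv (b1 b2 : ℝ) (x : P) : HasFDerivAt (ge b1 b2)
    (ge b1 b2 x • (b1 • ContinuousLinearMap.fst ℝ ℝ ℝ + b2 • ContinuousLinearMap.snd ℝ ℝ ℝ)) x := by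
  have h : HasFDerivAt (fun x : P => b1 * x.1 + b2 * x.2)
      (b1 • ContinuousLinearMap.fst ℝ ℝ ℝ + b2 • ContinuousLinearMap.snd ℝ ℝ ℝ) x :=
    (hasFDerivAt_fst.const_mul b1).add (hasFDerivAt_snd.const_mul b2)
  exact h.exp

theorem d1_ge (b1 b2 : ℝ) : d1 (ge b1 b2) = fun x => b1 * ge b1 b2 x := by
  funext x
  unfold d1
  rw [(ge_fderiv b1 b2 x).fderiv]
  simp
  ring

theorem d2_ge (b1 b2 : ℝ) : d2 (ge b1 b2) = fun x => b2 * ge b1 b2 x := by
  funext x
  unfold d2
  rw [(ge_fderiv b1 b2 x).fderiv]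
  simp
  ring

/-! ### normalised subsolutions -/

/-- a normalised bounded nonnegative subsolution of `Δ + (cos ν, sin ν)·∇` -/
def Good (ν : ℝ) (s : P → ℝ) : Prop :=
  ContDiff ℝ 2 s ∧ (∀ x, 0 ≤ s x) ∧ (∀ x, s x ≤ 1) ∧ (∀ t < 1, ∃ x, t < s x) ∧
  ∀ x, 0 ≤ d1 (d1 s) x + d2 (d2 s) x + cos ν * d1 s x + sin ν * d2 s x

theorem diff_comp_open {V : Set P} (hV : IsOpen V) (x0 : P) :
    IsOpen (V \ connectedComponentIn V x0) := by
  rw [isOpen_iff_mem_nhds]
  rintro x ⟨hxV, hxC⟩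
  have hop : IsOpen (connectedComponentIn V x) := hV.connectedComponentIn
  refine mem_of_superset (hop.mem_nhds (mem_connectedComponentIn hxV)) ?_
  intro y hy
  refine ⟨connectedComponentIn_subset V x hy, fun hy' => hxC ?_⟩
  have e1 := connectedComponentIn_eq hy
  have e2 := connectedComponentIn_eq hy'
  rw [e2, ← e1]
  exact mem_connectedComponentIn hxV

theorem comp_fn {Z H : P → ℝ} {κ ν a c b1 b2 : ℝ} (hHs : ContDiff ℝ ∞ H)
    (ha : 0 < a) (hH : ∀ x, H x = Z x + a * ge b1 b2 x)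
    (p : P) (hc : H p = c) (h1 : d1 H p = 0) (h2 : d2 H p = 0)
    (hne : ¬ (d1 (d1 H) p = 0 ∧ d2 (d1 H) p = 0))
    (hpde : ∀ x, d1 (d1 H) x + d2 (d2 H) x = κ * d1 H x)
    (hb : b1 ^ 2 + b2 ^ 2 = κ * b1) (hν1 : 2 * b1 - κ = cos ν) (hν2 : 2 * b2 = sin ν)
    (hpre : IsPreconnected {x | c < Z x}) (hnon : {x | c < Z x}.Nonempty) :
    ∃ s, Good ν s ∧ ∀ x, 0 < s x → Z x ≤ c := by
  have hd : Differentiable ℝ H := hHs.differentiable (by simp)
  have hd1 : Differentiable ℝ (d1 H) := (smooth_d1 hHs).differentiable (by simp)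
  have hd2 : Differentiable ℝ (d2 H) := (smooth_d2 hHs).differentiable (by simp)
  obtain ⟨e, ε, he, hε, hp, hn⟩ := saddle hHs h1 h2 (by rw [hpde, h1, mul_zero]) hne
  have hnp : ¬ IsPreconnected {x | H p < H x} := by
    refine not_preconn hHs.continuous he ?_ hε hp hn
    intro Ω hΩ hbd hfr y hy
    have hwc : ContDiff ℝ ∞ (fun x => (-1) * H x) := contDiff_const.mul hHs
    have e1 : d1 (fun x => (-1) * H x) = fun x => (-1) * d1 H x := d1C hd (-1)
    have e2 : d2 (fun x => (-1) * H x) = fun x => (-1) * d2 H x := d2C hd (-1)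
    have key := max_principle hΩ hbd (w := fun x => (-1) * H x) (a := fun _ => 1) (b := fun _ => 1)
      (c := fun _ => -κ) (d := fun _ => 0) p hwc.continuous.continuousOn
      (fun x _ _ => (c2 hwc).contDiffAt)
      (fun _ => ((c2 hwc).of_le (by norm_num)).contDiffAt)
      continuous_const continuous_const continuous_const continuous_const
      (fun _ => one_pos) (fun _ => one_pos)
      (fun x _ _ => by
        rw [e1, e2, d1C hd1, d2C hd2]
        have := hpde x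
        show (0:ℝ) ≤ 1 * ((-1) * d1 (d1 H) x) + 1 * ((-1) * d2 (d2 H) x) + (-κ) * ((-1) * d1 H x)
          + 0 * ((-1) * d2 H x)
        apply le_of_eq
        linarith)
      (M := -(H p)) (fun x hx => by
        have := hfr x hx
        show (-1) * H x ≤ -(H p)
        linarith) y (subset_closure hy)
    have key' : (-1) * H y ≤ -(H p) := key
    linarith
  rw [hc] at hnp
  obtain ⟨x0, hx0⟩ := hnon
  have hx0' : c < Z x0 := hx0
  set V : Set P := {x | c < H x} with hV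
  have hVo : IsOpen V := isOpen_lt continuous_const hHs.continuous
  have hZV : {x | c < Z x} ⊆ V := by
    intro x hx
    have hx' : c < Z x := hx
    show c < H x
    rw [hH]
    have := mul_pos ha (ge_pos b1 b2 x)
    linarith
  set C := connectedComponentIn V x0 with hC
  have hCo : IsOpen C := hVo.connectedComponentIn
  have hCs : {x | c < Z x} ⊆ C := hpre.subset_connectedComponentIn hx0 hZV
  set U := V \ C with hU
  have hUo : IsOpen U := diff_comp_open hVo x0
  have hCV : C ⊆ V := connectedComponentIn_subset V x0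
  have hUne : U.Nonempty := by
    by_contra hcon
    rw [Set.not_nonempty_iff_eq_empty, hU, Set.sdiff_eq_empty] at hcon
    have : V = C := le_antisymm hcon hCV
    apply hnp
    rw [this]
    exact isPreconnected_connectedComponentIn
  have hUZ : ∀ x ∈ U, Z x ≤ c := by
    intro x hx
    by_contra hcon
    push Not at hcon
    exact hx.2 (hCs hcon)
  -- the function
  set g := ge (-b1) (-b2) with hg
  have hgs : ContDiff ℝ ∞ g := ge_smooth _ _
  have hgp : ∀ x, 0 < g x := ge_pos _ _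
  have hgd : Differentiable ℝ g := hgs.differentiable (by simp)
  set f : P → ℝ := fun x => (H x - c) * g x with hf
  have hHc : ContDiff ℝ ∞ (fun x => H x - c) := hHs.sub contDiff_const
  have hHcd : Differentiable ℝ (fun x => H x - c) := hHc.differentiable (by simp)
  have hfs : ContDiff ℝ ∞ f := hHc.mul hgs
  have hd1Hc : d1 (fun x => H x - c) = d1 H := by
    funext x; unfold d1; rw [fderiv_sub_const]
  have hd2Hc : d2 (fun x => H x - c) = d2 H := by
    funext x; unfold d2; rw [fderiv_sub_const]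
  have hf1 : d1 f = fun x => (d1 H x + (-b1) * (H x - c)) * g x := by
    rw [hf, d1M hHcd hgd, hd1Hc, hg, d1_ge]
    funext x; ring
  have hf2 : d2 f = fun x => (d2 H x + (-b2) * (H x - c)) * g x := by
    rw [hf, d2M hHcd hgd, hd2Hc, hg, d2_ge]
    funext x; ring
  have hk1 : Differentiable ℝ (fun x => d1 H x + (-b1) * (H x - c)) :=
    hd1.add (hHcd.const_mul _)
  have hk2 : Differentiable ℝ (fun x => d2 H x + (-b2) * (H x - c)) :=
    hd2.add (hHcd.const_mul _)
  have hf11 : ∀ x, d1 (d1 f) x =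
      (d1 (d1 H) x - 2 * b1 * d1 H x + b1 ^ 2 * (H x - c)) * g x := by
    intro x
    rw [hf1, d1M hk1 hgd]
    have := d1L hd1 hHcd 1 (-b1)
    simp only [one_mul] at this
    rw [this, hd1Hc, hg, d1_ge]
    ring
  have hf22 : ∀ x, d2 (d2 f) x =
      (d2 (d2 H) x - 2 * b2 * d2 H x + b2 ^ 2 * (H x - c)) * g x := by
    intro x
    rw [hf2, d2M hk2 hgd]
    have := d2L hd2 hHcd 1 (-b2)
    simp only [one_mul] at this
    rw [this, hd2Hc, hg, d2_ge]
    ring
  have hLf : ∀ x, d1 (d1 f) x + d2 (d2 f) x + cos ν * d1 f x + sin ν * d2 f x = 0 := by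
    intro x
    rw [hf11, hf22, hf1, hf2, ← hν1, ← hν2]
    have e1 := hpde x
    have : (d1 (d1 H) x - 2 * b1 * d1 H x + b1 ^ 2 * (H x - c)) * g x +
        (d2 (d2 H) x - 2 * b2 * d2 H x + b2 ^ 2 * (H x - c)) * g x +
        (2 * b1 - κ) * ((d1 H x + (-b1) * (H x - c)) * g x) +
        2 * b2 * ((d2 H x + (-b2) * (H x - c)) * g x) =
        ((d1 (d1 H) x + d2 (d2 H) x - κ * d1 H x) - ((b1 ^ 2 + b2 ^ 2) - κ * b1) * (H x - c)) * g x := by
      ring
    show (d1 (d1 H) x - 2 * b1 * d1 H x + b1 ^ 2 * (H x - c)) * g x +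
        (d2 (d2 H) x - 2 * b2 * d2 H x + b2 ^ 2 * (H x - c)) * g x +
        (2 * b1 - κ) * ((d1 H x + (-b1) * (H x - c)) * g x) +
        2 * b2 * ((d2 H x + (-b2) * (H x - c)) * g x) = 0
    rw [this, e1, hb]
    ring
  have hfV : {x | 0 < f x} = V := by
    ext x
    show 0 < (H x - c) * g x ↔ c < H x
    rw [mul_pos_iff_of_pos_right (hgp x)]
    constructor <;> intro h <;> linarith
  obtain ⟨hsC, hs1, hs2, hs11, hs22⟩ := cube_lemma (c2 hfs) (D := U)
    (by rw [hfV, inter_eq_left.2 sdiff_subset]; exact hUo)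
    (by rw [hfV, hU, sdiff_sdiff_cancel_left hCV]; exact hCo)
  set s0 : P → ℝ := U.indicator fun x => (max (f x) 0) ^ 3 with hs0
  have hfU : ∀ x ∈ U, 0 < f x := fun x hx => by
    have : x ∈ {x | 0 < f x} := by rw [hfV]; exact hx.1
    exact this
  have hs0n : ∀ x, 0 ≤ s0 x := by
    intro x
    rw [hs0]
    apply indicator_nonneg
    intro y _
    positivity
  have hs0L : ∀ x, 0 ≤ d1 (d1 s0) x + d2 (d2 s0) x + cos ν * d1 s0 x + sin ν * d2 s0 x := by
    intro x
    rw [hs11, hs22, hs1, hs2]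
    by_cases hx : x ∈ U
    · simp only [indicator_of_mem hx]
      have hfx := hfU x hx
      rw [max_eq_left hfx.le]
      have e : 6 * f x * d1 f x ^ 2 + 3 * f x ^ 2 * d1 (d1 f) x +
          (6 * f x * d2 f x ^ 2 + 3 * f x ^ 2 * d2 (d2 f) x) + cos ν * (3 * f x ^ 2 * d1 f x) +
          sin ν * (3 * f x ^ 2 * d2 f x) =
          6 * f x * (d1 f x ^ 2 + d2 f x ^ 2) +
          3 * f x ^ 2 * (d1 (d1 f) x + d2 (d2 f) x + cos ν * d1 f x + sin ν * d2 f x) := by ring
      rw [e, hLf x]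
      positivity
    · simp only [indicator_of_notMem hx]
      simp
  have hs0b : ∀ x, s0 x ≤ a ^ 3 := by
    intro x
    rw [hs0]
    by_cases hx : x ∈ U
    · rw [indicator_of_mem hx]
      have hfx := hfU x hx
      rw [max_eq_left hfx.le]
      apply pow_le_pow_left₀ hfx.le
      have hz := hUZ x hx
      show (H x - c) * g x ≤ a
      rw [hH]
      have h3 := ge_mul_neg b1 b2 x
      have h4 : (Z x + a * ge b1 b2 x - c) * g x = a * (ge b1 b2 x * ge (-b1) (-b2) x) + (Z x - c) * g x := by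
        rw [hg]; ring
      rw [h4, h3]
      have : (Z x - c) * g x ≤ 0 := mul_nonpos_of_nonpos_of_nonneg (by linarith) (hgp x).le
      linarith
    · rw [indicator_of_notMem hx]
      positivity
  obtain ⟨u, hu⟩ := hUne
  have hbdd : BddAbove (range s0) := ⟨a ^ 3, by rintro _ ⟨x, rfl⟩; exact hs0b x⟩
  set m := sSup (range s0) with hm
  have hs0m : ∀ x, s0 x ≤ m := fun x => le_csSup hbdd (mem_range_self x)
  have hs0u : 0 < s0 u := by
    rw [hs0, indicator_of_mem hu]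
    have hfx := hfU u hu
    rw [max_eq_left hfx.le]
    positivity
  have hm0 : 0 < m := lt_of_lt_of_le hs0u (hs0m u)
  have hs0d : Differentiable ℝ s0 := hsC.differentiable (by norm_num)
  have hs0d1 : Differentiable ℝ (d1 s0) := (contDiff_d1 hsC (m := 1) (by norm_num)).differentiable (by norm_num)
  have hs0d2 : Differentiable ℝ (d2 s0) := (contDiff_d2 hsC (m := 1) (by norm_num)).differentiable (by norm_num)
  refine ⟨fun x => m⁻¹ * s0 x, ⟨contDiff_const.mul hsC, fun x => mul_nonneg (inv_nonneg.2 hm0.le) (hs0n x),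
    fun x => ?_, fun t ht => ?_, fun x => ?_⟩, fun x hx => ?_⟩
  · rw [inv_mul_le_iff₀ hm0, mul_one]
    exact hs0m x
  · have : m * t < sSup (range s0) := by
      rw [← hm]
      nlinarith
    obtain ⟨_, ⟨x, rfl⟩, hx⟩ := exists_lt_of_lt_csSup ⟨s0 u, mem_range_self u⟩ this
    refine ⟨x, ?_⟩
    rw [lt_inv_mul_iff₀ hm0]
    exact hx
  · rw [d1C hs0d, d2C hs0d, d1C hs0d1, d2C hs0d2]
    have : m⁻¹ * d1 (d1 s0) x + m⁻¹ * d2 (d2 s0) x + cos ν * (m⁻¹ * d1 s0 x) + sin ν * (m⁻¹ * d2 s0 x)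
      = m⁻¹ * (d1 (d1 s0) x + d2 (d2 s0) x + cos ν * d1 s0 x + sin ν * d2 s0 x) := by ring
    show 0 ≤ m⁻¹ * d1 (d1 s0) x + m⁻¹ * d2 (d2 s0) x + cos ν * (m⁻¹ * d1 s0 x) + sin ν * (m⁻¹ * d2 s0 x)
    rw [this]
    exact mul_nonneg (inv_nonneg.2 hm0.le) (hs0L x)
  · by_cases hxU : x ∈ U
    · exact hUZ x hxU
    · exfalso
      have hx' : 0 < m⁻¹ * s0 x := hx
      rw [hs0, indicator_of_notMem hxU, mul_zero] at hx'
      exact lt_irrefl _ hx'

/-! ### adding up -/

theorem add_sub {ν : ℝ} {s s' : P → ℝ} (h : ContDiff ℝ 2 s) (h' : ContDiff ℝ 2 s')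
    (hL : ∀ x, 0 ≤ d1 (d1 s) x + d2 (d2 s) x + cos ν * d1 s x + sin ν * d2 s x)
    (hL' : ∀ x, 0 ≤ d1 (d1 s') x + d2 (d2 s') x + cos ν * d1 s' x + sin ν * d2 s' x) (x : P) :
    0 ≤ d1 (d1 (fun x => s x + s' x)) x + d2 (d2 (fun x => s x + s' x)) x +
      cos ν * d1 (fun x => s x + s' x) x + sin ν * d2 (fun x => s x + s' x) x := by
  have hd : Differentiable ℝ s := h.differentiable (by norm_num)
  have hd' : Differentiable ℝ s' := h'.differentiable (by norm_num)
  have hd1 : Differentiable ℝ (d1 s) := (contDiff_d1 h (m := 1) (by norm_num)).differentiable (by norm_num)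
  have hd1' : Differentiable ℝ (d1 s') := (contDiff_d1 h' (m := 1) (by norm_num)).differentiable (by norm_num)
  have hd2 : Differentiable ℝ (d2 s) := (contDiff_d2 h (m := 1) (by norm_num)).differentiable (by norm_num)
  have hd2' : Differentiable ℝ (d2 s') := (contDiff_d2 h' (m := 1) (by norm_num)).differentiable (by norm_num)
  have e1 := d1L hd hd' 1 1
  have e2 := d2L hd hd' 1 1
  have e3 := d1L hd1 hd1' 1 1
  have e4 := d2L hd2 hd2' 1 1
  simp only [one_mul] at e1 e2 e3 e4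
  rw [e1, e2, e3, e4]
  have a := hL x
  have b := hL' x
  show 0 ≤ (d1 (d1 s) x + d1 (d1 s') x) + (d2 (d2 s) x + d2 (d2 s') x) +
    cos ν * (d1 s x + d1 s' x) + sin ν * (d2 s x + d2 s' x)
  linarith

theorem drop {ν : ℝ} {s s' : P → ℝ} (h : ContDiff ℝ 2 s) (hb : ∃ C, ∀ x, |s x| ≤ C)
    (hL : ∀ x, 0 ≤ d1 (d1 s) x + d2 (d2 s) x + cos ν * d1 s x + sin ν * d2 s x)
    (hg : Good ν s') {c : ℝ} (hc : ∀ x, s x + s' x ≤ c) : ∀ x, s x ≤ c - 1 := by
  intro x
  by_contra hcon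
  push Not at hcon
  obtain ⟨y, hy⟩ := hg.2.2.2.1 (c - s x) (by linarith)
  have := sup_add h hg.1 hb ⟨1, fun x => by
    rw [abs_of_nonneg (hg.2.1 x)]; exact hg.2.2.1 x⟩ hL hg.2.2.2.2 hc x y
  linarith

theorem four {ν : ℝ} {s1 s2 s3 s4 : P → ℝ} (h1 : Good ν s1) (h2 : Good ν s2) (h3 : Good ν s3)
    (h4 : Good ν s4) {K : Set P} (hK : IsCompact K)
    (h : ∀ x, 0 < s1 x → 0 < s2 x → 0 < s3 x → 0 < s4 x → x ∈ K) : False := by
  obtain ⟨c1, n1, b1, t1, L1⟩ := h1
  obtain ⟨c2', n2, b2, t2, L2⟩ := h2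
  obtain ⟨c3, n3, b3, t3, L3⟩ := h3
  have h4' := h4
  obtain ⟨c4, n4, b4, t4, L4⟩ := h4
  have L12 := add_sub c1 c2' L1 L2
  have c12 : ContDiff ℝ 2 (fun x => s1 x + s2 x) := c1.add c2'
  have L123 := add_sub c12 c3 L12 L3
  have c123 : ContDiff ℝ 2 (fun x => (s1 x + s2 x) + s3 x) := c12.add c3
  have L1234 := add_sub c123 c4 L123 L4
  have c1234 : ContDiff ℝ 2 (fun x => ((s1 x + s2 x) + s3 x) + s4 x) := c123.add c4
  -- outside K
  have hout : ∀ x, x ∉ K → s1 x + s2 x + s3 x + s4 x ≤ 3 := by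
    intro x hx
    by_contra hcon
    push Not at hcon
    have := b1 x
    have := b2 x
    have := b3 x
    have := b4 x
    exact hx (h x (by linarith) (by linarith) (by linarith) (by linarith))
  have hall : ∀ x, s1 x + s2 x + s3 x + s4 x ≤ 3 := by
    obtain ⟨R, hR⟩ := hK.isBounded.subset_ball (0 : P)
    intro x
    by_cases hx : x ∈ Metric.ball (0:P) R
    · refine max_principle (Ω := Metric.ball (0:P) R) Metric.isOpen_ball Metric.isBounded_ball
        (w := fun x => ((s1 x + s2 x) + s3 x) + s4 x) (a := fun _ => 1) (b := fun _ => 1)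
        (c := fun _ => cos ν) (d := fun _ => sin ν) 0 c1234.continuous.continuousOn
        (fun x _ _ => c1234.contDiffAt) (fun _ => (c1234.of_le (by norm_num)).contDiffAt)
        continuous_const continuous_const continuous_const continuous_const
        (fun _ => one_pos) (fun _ => one_pos) (fun x _ _ => ?_) (M := 3) (fun x hx => ?_) x
        (subset_closure hx)
      · have := L1234 x
        simpa only [one_mul] using this
      · apply hout
        intro hxK
        have h5 := hR hxK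
        have h6 : x ∉ Metric.ball (0:P) R := by
          have := hx.2
          rwa [Metric.isOpen_ball.interior_eq] at this
        exact h6 h5
    · exact hout x (fun hxK => hx (hR hxK))
  have bd : ∀ (u : P → ℝ) (C : ℝ), (∀ x, 0 ≤ u x) → (∀ x, u x ≤ C) → ∃ C, ∀ x, |u x| ≤ C := by
    intro u C hu hC
    exact ⟨C, fun x => by rw [abs_of_nonneg (hu x)]; exact hC x⟩
  have r1 := drop (s := fun x => (s1 x + s2 x) + s3 x) c123 (bd _ 3 (fun x => by
    have := n1 x; have := n2 x; have := n3 x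
    show 0 ≤ (s1 x + s2 x) + s3 x
    linarith) (fun x => by
    have := b1 x; have := b2 x; have := b3 x
    show (s1 x + s2 x) + s3 x ≤ 3
    linarith)) L123 h4' (c := 3) hall
  have r2 := drop (s := fun x => (s1 x + s2 x)) c12 (bd _ 2 (fun x => by
    have := n1 x; have := n2 x
    show 0 ≤ (s1 x + s2 x)
    linarith) (fun x => by
    have := b1 x; have := b2 x
    show (s1 x + s2 x) ≤ 2
    linarith)) L12 ⟨c3, n3, b3, t3, L3⟩ (c := 3 - 1) r1
  have r3 := drop (s := s1) c1 (bd _ 1 n1 b1) L1 ⟨c2', n2, b2, t2, L2⟩ (c := 3 - 1 - 1) r2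
  obtain ⟨y, hy⟩ := t1 0 (by norm_num)
  have := r3 y
  linarith

/-! ### half planes -/

theorem half (F : P ≃ₜ P) (α β : ℝ) (c : ℝ) :
    IsPreconnected {x | c < α * (F x).1 + β * (F x).2} := by
  have hconv : Convex ℝ {y : P | c < α * y.1 + β * y.2} := by
    intro x hx y hy a b ha hb hab
    have hx' : c < α * x.1 + β * x.2 := hx
    have hy' : c < α * y.1 + β * y.2 := hy
    show c < α * (a * x.1 + b * y.1) + β * (a * x.2 + b * y.2)
    have h1 : a * (α * x.1 + β * x.2) + b * (α * y.1 + β * y.2) =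
      α * (a * x.1 + b * y.1) + β * (a * x.2 + b * y.2) := by ring
    rw [← h1]
    rcases ha.eq_or_lt with h0 | h0
    · subst h0
      have : b = 1 := by linarith
      subst this
      linarith
    · have e1 : a * c < a * (α * x.1 + β * x.2) := mul_lt_mul_of_pos_left hx' h0
      have e2 : b * c ≤ b * (α * y.1 + β * y.2) := mul_le_mul_of_nonneg_left hy'.le hb
      have e3 : c = a * c + b * c := by rw [← add_mul, hab, one_mul]
      linarith
  have : {x | c < α * (F x).1 + β * (F x).2} = F.symm '' {y : P | c < α * y.1 + β * y.2} := by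
    ext x
    constructor
    · intro hx
      exact ⟨F x, hx, F.symm_apply_apply x⟩
    · rintro ⟨y, hy, rfl⟩
      show c < α * (F (F.symm y)).1 + β * (F (F.symm y)).2
      rw [F.apply_symm_apply]
      exact hy
  rw [this]
  exact hconv.isPreconnected.image _ F.symm.continuous.continuousOn

theorem half_ne (F : P ≃ₜ P) (α β : ℝ) (h : α ^ 2 + β ^ 2 = 1) (c : ℝ) :
    {x | c < α * (F x).1 + β * (F x).2}.Nonempty := by
  refine ⟨F.symm ((|c| + 1) • (α, β)), ?_⟩
  show c < α * (F (F.symm _)).1 + β * (F (F.symm _)).2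
  rw [F.apply_symm_apply]
  show c < α * ((|c| + 1) * α) + β * ((|c| + 1) * β)
  have : α * ((|c| + 1) * α) + β * ((|c| + 1) * β) = (|c| + 1) * (α ^ 2 + β ^ 2) := by ring
  rw [this, h, mul_one]
  linarith [le_abs_self c]

/-! ### the four subsolutions -/

theorem pdes {X Y : P → ℝ} (hX : ContDiff ℝ ∞ X) (hY : ContDiff ℝ ∞ Y)
    (h1 : ∀ q : P, d1 Y q = -(Real.exp (-q.1) * d2 X q))
    (h2 : ∀ q : P, d2 Y q = Real.exp (-q.1) * d1 X q) :
    (∀ q, d1 (d1 X) q + d2 (d2 X) q = d1 X q) ∧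
    (∀ q, d1 (d1 Y) q = Real.exp (-q.1) * (d2 X q - d1 (d2 X) q)) ∧
    (∀ q, d2 (d1 Y) q = -(Real.exp (-q.1) * d2 (d2 X) q)) ∧
    (∀ q, d1 (d1 Y) q + d2 (d2 Y) q = (-1) * d1 Y q) := by
  have hX1 : Differentiable ℝ (d1 X) := (smooth_d1 hX).differentiable (by simp)
  have hX2 : Differentiable ℝ (d2 X) := (smooth_d2 hX).differentiable (by simp)
  have em : ∀ q : P, Real.exp (-q.1) = ge (-1) 0 q := by
    intro q; unfold ge; congr 1; ring
  have hem : Differentiable ℝ (ge (-1) 0) := (ge_smooth _ _).differentiable (by simp)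
  have e1 : d1 Y = fun q => (-1) * (ge (-1) 0 q * d2 X q) := by
    funext q; rw [h1, em]; ring
  have e2 : d2 Y = fun q => ge (-1) 0 q * d1 X q := by
    funext q; rw [h2, em]
  have e11 : ∀ q, d1 (d1 Y) q = Real.exp (-q.1) * (d2 X q - d1 (d2 X) q) := by
    intro q
    rw [e1, d1C (f := fun q => ge (-1) 0 q * d2 X q) (hem.mul hX2), d1M hem hX2, d1_ge, em]
    ring
  have e21 : ∀ q, d2 (d1 Y) q = -(Real.exp (-q.1) * d2 (d2 X) q) := by
    intro q
    rw [e1, d2C (f := fun q => ge (-1) 0 q * d2 X q) (hem.mul hX2), d2M hem hX2, d2_ge, em]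
    ring
  have e12 : ∀ q, d1 (d2 Y) q = Real.exp (-q.1) * (d1 (d1 X) q - d1 X q) := by
    intro q
    rw [e2, d1M hem hX1, d1_ge, em]
    ring
  have e22 : ∀ q, d2 (d2 Y) q = Real.exp (-q.1) * d2 (d1 X) q := by
    intro q
    rw [e2, d2M hem hX1, d2_ge, em]
    ring
  refine ⟨fun q => ?_, e11, e21, fun q => ?_⟩
  · have h := d1_d2_comm (c2 hY) q
    rw [e12, e21] at h
    have hp := Real.exp_pos (-q.1)
    have h' : Real.exp (-q.1) * (d1 (d1 X) q - d1 X q + d2 (d2 X) q) = 0 := by linarith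
    rcases mul_eq_zero.1 h' with h0 | h0
    · exact absurd h0 hp.ne'
    · linarith
  · have h := d1_d2_comm (c2 hX) q
    rw [e11, e22, h1, h]
    ring

theorem X_type (F : P ≃ₜ P) {X : P → ℝ} (hXF : ∀ q, X q = (F q).1) (hX : ContDiff ℝ ∞ X)
    (hp : ∀ q, d1 (d1 X) q + d2 (d2 X) q = d1 X q)
    {θ σ τ r : ℝ} (hσ : σ ^ 2 = 1) (hτ : τ ^ 2 = 1) (hpos : 0 < τ * σ * cos θ)
    (hr : 0 < r) {z : P} (hz1 : d1 X z = r * (σ * cos θ)) (hz2 : d2 X z = r * (σ * sin θ))
    (hM : ¬ (d1 (d1 X) z = σ * r * cos θ * (cos θ * cos θ) ∧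
      d2 (d1 X) z = σ * r * cos θ * (cos θ * sin θ))) :
    ∃ s c, Good (2 * θ) s ∧ ∀ x, 0 < s x → (-τ) * X x ≤ c := by
  set E := ge (cos θ ^ 2) (sin θ * cos θ) with hE
  have hEs : ContDiff ℝ ∞ E := ge_smooth _ _
  have hEd : Differentiable ℝ E := hEs.differentiable (by simp)
  have hEz : 0 < E z := ge_pos _ _ _
  have hXd : Differentiable ℝ X := hX.differentiable (by simp)
  have hX1 : Differentiable ℝ (d1 X) := (smooth_d1 hX).differentiable (by simp)
  have hX2 : Differentiable ℝ (d2 X) := (smooth_d2 hX).differentiable (by simp)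
  set a := r / (E z * (τ * σ * cos θ)) with ha
  have ha0 : 0 < a := by positivity
  have haE : a * E z * (τ * σ * cos θ) = r := by
    rw [ha, mul_assoc, div_mul_cancel₀ _ (mul_pos hEz hpos).ne']
  have haE' : a * E z * cos θ = τ * σ * r := by
    have : (τ * σ) * (a * E z * (τ * σ * cos θ)) = a * E z * cos θ * (τ ^ 2 * σ ^ 2) := by ring
    rw [hσ, hτ] at this
    rw [← haE, this]; ring
  have hsc : cos θ ^ 2 + sin θ ^ 2 = 1 := cos_sq_add_sin_sq θ
  have d1H := d1L hXd hEd (-τ) a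
  have d2H := d2L hXd hEd (-τ) a
  have hE1 : d1 E = fun x => cos θ ^ 2 * E x := d1_ge _ _
  have hE2 : d2 E = fun x => sin θ * cos θ * E x := d2_ge _ _
  rw [hE1] at d1H
  rw [hE2] at d2H
  have hE1d : Differentiable ℝ (fun x => cos θ ^ 2 * E x) := hEd.const_mul _
  have hE2d : Differentiable ℝ (fun x => sin θ * cos θ * E x) := hEd.const_mul _
  have d11H := d1L hX1 hE1d (-τ) a
  have d21H := d2L hX1 hE1d (-τ) a
  have d22H := d2L hX2 hE2d (-τ) a
  rw [d1C hEd, hE1] at d11H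
  rw [d2C hEd, hE2] at d21H d22H
  obtain ⟨s, hs, hs'⟩ := comp_fn (Z := fun x => (-τ) * X x) (H := fun x => (-τ) * X x + a * E x)
    (κ := 1) (ν := 2 * θ) (a := a) (c := (-τ) * X z + a * E z) (b1 := cos θ ^ 2)
    (b2 := sin θ * cos θ)
    ((contDiff_const.mul hX).add (contDiff_const.mul hEs)) ha0 (fun x => rfl) z rfl
    (by
      rw [d1H]
      show (-τ) * d1 X z + a * (cos θ ^ 2 * E z) = 0
      rw [hz1]
      linear_combination cos θ * haE')
    (by
      rw [d2H]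
      show (-τ) * d2 X z + a * (sin θ * cos θ * E z) = 0
      rw [hz2]
      linear_combination sin θ * haE')
    (by
      rw [d1H, d11H, d21H]
      show ¬ ((-τ) * d1 (d1 X) z + a * (cos θ ^ 2 * (cos θ ^ 2 * E z)) = 0 ∧
        (-τ) * d2 (d1 X) z + a * (cos θ ^ 2 * (sin θ * cos θ * E z)) = 0)
      rintro ⟨k1, k2⟩
      apply hM
      constructor
      · linear_combination (-τ) * k1 + τ * cos θ ^ 3 * haE' +
          (σ * r * cos θ ^ 3 - d1 (d1 X) z) * hτ
      · linear_combination (-τ) * k2 + τ * cos θ ^ 2 * sin θ * haE' +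
          (σ * r * cos θ ^ 2 * sin θ - d2 (d1 X) z) * hτ)
    (by
      intro x
      rw [d1H, d2H, d11H, d22H]
      show ((-τ) * d1 (d1 X) x + a * (cos θ ^ 2 * (cos θ ^ 2 * E x))) +
        ((-τ) * d2 (d2 X) x + a * (sin θ * cos θ * (sin θ * cos θ * E x))) =
        1 * ((-τ) * d1 X x + a * (cos θ ^ 2 * E x))
      linear_combination (-τ) * hp x + a * cos θ ^ 2 * E x * hsc)
    (by linear_combination cos θ ^ 2 * hsc)
    (by rw [cos_two_mul]) (by rw [sin_two_mul]; ring)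
    (by
      have := half F (-τ) 0 ((-τ) * X z + a * E z)
      simpa only [zero_mul, add_zero, ← hXF] using this)
    (by
      have := half_ne F (-τ) 0 (by nlinarith) ((-τ) * X z + a * E z)
      simpa only [zero_mul, add_zero, ← hXF] using this)
  exact ⟨s, _, hs, hs'⟩

theorem Y_type (F : P ≃ₜ P) {X Y : P → ℝ} (hYF : ∀ q, Y q = (F q).2) (hX : ContDiff ℝ ∞ X)
    (hY : ContDiff ℝ ∞ Y)
    (h1 : ∀ q : P, d1 Y q = -(Real.exp (-q.1) * d2 X q))
    (h2 : ∀ q : P, d2 Y q = Real.exp (-q.1) * d1 X q)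
    {θ σ τ r : ℝ} (hσ : σ ^ 2 = 1) (hτ : τ ^ 2 = 1) (hpos : 0 < τ * σ * sin θ)
    (hr : 0 < r) {z : P} (hz1 : d1 X z = r * (σ * cos θ)) (hz2 : d2 X z = r * (σ * sin θ))
    (hM : ¬ (d1 (d1 X) z = σ * r * cos θ * (cos θ * cos θ) ∧
      d2 (d1 X) z = σ * r * cos θ * (cos θ * sin θ))) :
    ∃ s c, Good (2 * θ) s ∧ ∀ x, 0 < s x → (-τ) * Y x ≤ c := by
  obtain ⟨hpX, hY11, hY21, hpY⟩ := pdes hX hY h1 h2
  set E := ge (-(sin θ ^ 2)) (sin θ * cos θ) with hE
  have hEs : ContDiff ℝ ∞ E := ge_smooth _ _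
  have hEd : Differentiable ℝ E := hEs.differentiable (by simp)
  have hEz : 0 < E z := ge_pos _ _ _
  have hYd : Differentiable ℝ Y := hY.differentiable (by simp)
  have hY1 : Differentiable ℝ (d1 Y) := (smooth_d1 hY).differentiable (by simp)
  have hY2 : Differentiable ℝ (d2 Y) := (smooth_d2 hY).differentiable (by simp)
  set ez := Real.exp (-z.1) with hez
  have hez0 : 0 < ez := Real.exp_pos _
  set a := ez * r / (E z * (τ * σ * sin θ)) with ha
  have ha0 : 0 < a := by positivity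
  have haE : a * E z * (τ * σ * sin θ) = ez * r := by
    rw [ha, mul_assoc, div_mul_cancel₀ _ (mul_pos hEz hpos).ne']
  have haE' : a * E z * sin θ = τ * σ * (ez * r) := by
    have : (τ * σ) * (a * E z * (τ * σ * sin θ)) = a * E z * sin θ * (τ ^ 2 * σ ^ 2) := by ring
    rw [hσ, hτ] at this
    rw [← haE, this]; ring
  have hsc : cos θ ^ 2 + sin θ ^ 2 = 1 := cos_sq_add_sin_sq θ
  have d1H := d1L hYd hEd (-τ) a
  have d2H := d2L hYd hEd (-τ) a
  have hE1 : d1 E = fun x => (-(sin θ ^ 2)) * E x := d1_ge _ _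
  have hE2 : d2 E = fun x => sin θ * cos θ * E x := d2_ge _ _
  rw [hE1] at d1H
  rw [hE2] at d2H
  have hE1d : Differentiable ℝ (fun x => (-(sin θ ^ 2)) * E x) := hEd.const_mul _
  have hE2d : Differentiable ℝ (fun x => sin θ * cos θ * E x) := hEd.const_mul _
  have d11H := d1L hY1 hE1d (-τ) a
  have d21H := d2L hY1 hE1d (-τ) a
  have d22H := d2L hY2 hE2d (-τ) a
  rw [d1C hEd, hE1] at d11H
  rw [d2C hEd, hE2] at d21H d22H
  have hY1z : d1 Y z = -(ez * (r * (σ * sin θ))) := by rw [h1, hz2]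
  have hY2z : d2 Y z = ez * (r * (σ * cos θ)) := by rw [h2, hz1]
  obtain ⟨s, hs, hs'⟩ := comp_fn (Z := fun x => (-τ) * Y x) (H := fun x => (-τ) * Y x + a * E x)
    (κ := -1) (ν := 2 * θ) (a := a) (c := (-τ) * Y z + a * E z) (b1 := -(sin θ ^ 2))
    (b2 := sin θ * cos θ)
    ((contDiff_const.mul hY).add (contDiff_const.mul hEs)) ha0 (fun x => rfl) z rfl
    (by
      rw [d1H]
      show (-τ) * d1 Y z + a * ((-(sin θ ^ 2)) * E z) = 0
      rw [hY1z]
      linear_combination (-sin θ) * haE')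
    (by
      rw [d2H]
      show (-τ) * d2 Y z + a * (sin θ * cos θ * E z) = 0
      rw [hY2z]
      linear_combination cos θ * haE')
    (by
      rw [d1H, d11H, d21H]
      show ¬ ((-τ) * d1 (d1 Y) z + a * ((-(sin θ ^ 2)) * ((-(sin θ ^ 2)) * E z)) = 0 ∧
        (-τ) * d2 (d1 Y) z + a * ((-(sin θ ^ 2)) * (sin θ * cos θ * E z)) = 0)
      rintro ⟨k1, k2⟩
      rw [hY11, hz2, d1_d2_comm (c2 hX)] at k1
      rw [hY21] at k2
      have hx := hpX z
      rw [hz1] at hx
      have k1' : ez * (d2 (d1 X) z - σ * r * cos θ * (cos θ * sin θ)) = 0 := by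
        linear_combination τ * k1 - τ * sin θ ^ 3 * haE' +
          (-(σ * r * ez * sin θ ^ 3) + ez * (r * σ * sin θ) - ez * d2 (d1 X) z) * hτ
          - ez * σ * r * sin θ * hsc
      have k2' : ez * (d1 (d1 X) z - σ * r * cos θ * (cos θ * cos θ)) = 0 := by
        linear_combination (-τ) * k2 - τ * sin θ ^ 2 * cos θ * haE' +
          (-(σ * r * ez * sin θ ^ 2 * cos θ) + ez * d2 (d2 X) z) * hτ
          + ez * hx - ez * σ * r * cos θ * hsc
      apply hM
      constructor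
      · rcases mul_eq_zero.1 k2' with h | h
        · exact absurd h hez0.ne'
        · linarith
      · rcases mul_eq_zero.1 k1' with h | h
        · exact absurd h hez0.ne'
        · linarith)
    (by
      intro x
      rw [d1H, d2H, d11H, d22H]
      show ((-τ) * d1 (d1 Y) x + a * ((-(sin θ ^ 2)) * ((-(sin θ ^ 2)) * E x))) +
        ((-τ) * d2 (d2 Y) x + a * (sin θ * cos θ * (sin θ * cos θ * E x))) =
        (-1) * ((-τ) * d1 Y x + a * ((-(sin θ ^ 2)) * E x))
      linear_combination (-τ) * hpY x + a * sin θ ^ 2 * E x * hsc)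
    (by linear_combination sin θ ^ 2 * hsc)
    (by rw [cos_two_mul]; linear_combination (-2) * hsc) (by rw [sin_two_mul]; ring)
    (by
      have := half F 0 (-τ) ((-τ) * Y z + a * E z)
      simpa only [zero_mul, zero_add, ← hYF] using this)
    (by
      have := half_ne F 0 (-τ) (by nlinarith) ((-τ) * Y z + a * E z)
      simpa only [zero_mul, zero_add, ← hYF] using this)
  exact ⟨s, _, hs, hs'⟩

/-! ### the angle -/

theorem angle {X : P → ℝ} (hX : ContDiff ℝ ∞ X) (h0 : ∀ q : P, d1 X q ≠ 0 ∨ d2 X q ≠ 0) :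
    ∃ (ψ r : P → ℝ), ContDiff ℝ ∞ ψ ∧ (∀ q, 0 < r q) ∧ (∀ q, d1 X q = r q * cos (ψ q)) ∧
      (∀ q, d2 X q = r q * sin (ψ q)) ∧
      (∀ q, r q * d1 ψ q = cos (ψ q) * d1 (d2 X) q - sin (ψ q) * d1 (d1 X) q) ∧
      (∀ q, r q * d2 ψ q = cos (ψ q) * d2 (d2 X) q - sin (ψ q) * d2 (d1 X) q) := by
  have hX1 := smooth_d1 hX
  have hX2 := smooth_d2 hX
  have hX1d : Differentiable ℝ (d1 X) := hX1.differentiable (by simp)
  have hX2d : Differentiable ℝ (d2 X) := hX2.differentiable (by simp)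
  set f : P → ℂ := fun q => ((d1 X q : ℝ) : ℂ) + ((d2 X q : ℝ) : ℂ) * Complex.I with hf
  have hfs : ContDiff ℝ ∞ f :=
    (Complex.ofRealCLM.contDiff.comp hX1).add ((Complex.ofRealCLM.contDiff.comp hX2).mul contDiff_const)
  have hf0 : ∀ q, f q ≠ 0 := by
    intro q h
    have hre : (f q).re = d1 X q := by simp [hf]
    have him : (f q).im = d2 X q := by simp [hf]
    rw [h] at hre him
    simp only [Complex.zero_re, Complex.zero_im] at hre him
    rcases h0 q with h | h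
    · exact h hre.symm
    · exact h him.symm
  obtain ⟨g, hg, hge⟩ := exists_clog_smooth hfs hf0
  have hψs : ContDiff ℝ ∞ (fun q => (g q).im) := Complex.imCLM.contDiff.comp hg
  have hre : ∀ q, d1 X q = Real.exp (g q).re * cos (g q).im := by
    intro q
    have := congrArg Complex.re (hge q)
    rw [Complex.exp_re] at this
    rw [this]
    simp [hf]
  have him : ∀ q, d2 X q = Real.exp (g q).re * sin (g q).im := by
    intro q
    have := congrArg Complex.im (hge q)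
    rw [Complex.exp_im] at this
    rw [this]
    simp [hf]
  set ψ : P → ℝ := fun q => (g q).im with hψ
  have hψd : Differentiable ℝ ψ := hψs.differentiable (by simp)
  have key : ∀ q (w : P), Real.exp (g q).re * fderiv ℝ ψ q w =
      cos (ψ q) * fderiv ℝ (d2 X) q w - sin (ψ q) * fderiv ℝ (d1 X) q w := by
    intro q w
    have hc : HasFDerivAt (fun q => cos (ψ q)) (-(sin (ψ q)) • fderiv ℝ ψ q) q :=
      (hψd q).hasFDerivAt.cos
    have hs : HasFDerivAt (fun q => sin (ψ q)) (cos (ψ q) • fderiv ℝ ψ q) q :=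
      (hψd q).hasFDerivAt.sin
    have h1 := (hs.mul (hX1d q).hasFDerivAt).sub (hc.mul (hX2d q).hasFDerivAt)
    have hz : ((fun q => sin (ψ q)) * (d1 X) - (fun q => cos (ψ q)) * (d2 X)) = fun _ => (0:ℝ) := by
      funext y
      show sin (ψ y) * d1 X y - cos (ψ y) * d2 X y = 0
      rw [hre, him]
      ring
    have hz' : HasFDerivAt (fun _ : P => (0:ℝ))
        (sin (ψ q) • fderiv ℝ (d1 X) q + d1 X q • (cos (ψ q) • fderiv ℝ ψ q) -
          (cos (ψ q) • fderiv ℝ (d2 X) q + d2 X q • (-(sin (ψ q)) • fderiv ℝ ψ q))) q := by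
      rw [← hz]
      exact h1
    have h2 := hz'.unique (hasFDerivAt_const (0:ℝ) q)
    have h3 := congrArg (fun L : P →L[ℝ] ℝ => L w) h2
    simp only [sub_apply, add_apply,
      smul_apply, smul_eq_mul, zero_apply] at h3
    rw [hre, him] at h3
    have hsc := sin_sq_add_cos_sq (ψ q)
    have h4 : sin (ψ q) * fderiv ℝ (d1 X) q w +
        Real.exp (g q).re * cos (g q).im * (cos (ψ q) * fderiv ℝ ψ q w) -
        (cos (ψ q) * fderiv ℝ (d2 X) q w +
        Real.exp (g q).re * sin (g q).im * (-(sin (ψ q)) * fderiv ℝ ψ q w)) =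
        sin (ψ q) * fderiv ℝ (d1 X) q w - cos (ψ q) * fderiv ℝ (d2 X) q w +
        Real.exp (g q).re * fderiv ℝ ψ q w * (sin (ψ q) ^ 2 + cos (ψ q) ^ 2) := by
      show sin (ψ q) * fderiv ℝ (d1 X) q w +
        Real.exp (g q).re * cos (ψ q) * (cos (ψ q) * fderiv ℝ ψ q w) -
        (cos (ψ q) * fderiv ℝ (d2 X) q w +
        Real.exp (g q).re * sin (ψ q) * (-(sin (ψ q)) * fderiv ℝ ψ q w)) = _
      ring
    rw [h4, hsc] at h3
    linarith
  exact ⟨ψ, fun q => Real.exp (g q).re, hψs, fun q => Real.exp_pos _, hre, him,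
    fun q => key q (1, 0), fun q => key q (0, 1)⟩

/-- one-dimensional Sard -/
theorem sard {φ : ℝ → ℝ} (hφ : Differentiable ℝ φ) : volume (φ '' {t | deriv φ t = 0}) = 0 := by
  refine addHaar_image_eq_zero_of_det_fderivWithin_eq_zero volume (f' := fun _ => 0) ?_ ?_
  · intro x hx
    have hx' : deriv φ x = 0 := hx
    have h1 := (hφ x).hasDerivAt
    rw [hx'] at h1
    have h2 : HasFDerivAt φ (0 : ℝ →L[ℝ] ℝ) x := by
      have := h1.hasFDerivAt
      simpa using this
    exact h2.hasFDerivWithinAt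
  · intro x _
    simp [ContinuousLinearMap.det]

theorem good_angle {φ : ℝ → ℝ} (hφ : Differentiable ℝ φ) (h : φ 0 + π < φ 1) :
    ∃ θ s t, φ s = θ ∧ φ t = θ + π ∧ deriv φ s ≠ 0 ∧ deriv φ t ≠ 0 ∧ cos θ ≠ 0 ∧ sin θ ≠ 0 := by
  have hs := sard hφ
  set B := φ '' {t | deriv φ t = 0} with hB
  have hs' : volume ((fun x => x + π) ⁻¹' B) = 0 := by
    rw [measure_preimage_add_right]
    exact hs
  have hcnt : volume (range (fun k : ℤ => (k : ℝ) * (π / 2))) = 0 :=
    (countable_range _).measure_zero _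
  have hz : volume ((B ∪ (fun x => x + π) ⁻¹' B) ∪ range (fun k : ℤ => (k : ℝ) * (π / 2))) = 0 := by
    rw [measure_union_null_iff, measure_union_null_iff]
    exact ⟨⟨hs, hs'⟩, hcnt⟩
  have hpos : 0 < volume (Ioo (φ 0) (φ 1 - π)) := by
    rw [Real.volume_Ioo]
    simp only [ENNReal.ofReal_pos]
    linarith
  have hns : ¬ (Ioo (φ 0) (φ 1 - π) ⊆ (B ∪ (fun x => x + π) ⁻¹' B) ∪ range (fun k : ℤ => (k : ℝ) * (π / 2))) := by
    intro hsub
    have := measure_mono (μ := volume) hsub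
    rw [hz] at this
    exact absurd hpos (not_lt.2 this)
  rw [Set.not_subset] at hns
  obtain ⟨θ, hθ, hθB⟩ := hns
  simp only [mem_union, mem_preimage, not_or] at hθB
  obtain ⟨⟨hB1, hB2⟩, hB3⟩ := hθB
  have hπ := pi_pos
  have hc : ContinuousOn φ (Icc 0 1) := hφ.continuous.continuousOn
  have hi := intermediate_value_Icc (zero_le_one' ℝ) hc
  obtain ⟨s, -, hs1⟩ := hi ⟨hθ.1.le, by linarith [hθ.2]⟩
  obtain ⟨t, -, ht1⟩ := hi (show θ + π ∈ Icc (φ 0) (φ 1) from ⟨by linarith [hθ.1], by linarith [hθ.2]⟩)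
  refine ⟨θ, s, t, hs1, ht1, fun h => hB1 ⟨s, h, hs1⟩, fun h => hB2 ⟨t, h, ht1⟩, fun h => ?_, fun h => ?_⟩
  · apply hB3
    rw [cos_eq_zero_iff] at h
    obtain ⟨k, hk⟩ := h
    refine ⟨2 * k + 1, ?_⟩
    rw [hk]
    push_cast
    ring
  · apply hB3
    rw [sin_eq_zero_iff] at h
    obtain ⟨k, hk⟩ := h
    refine ⟨2 * k, ?_⟩
    rw [← hk]
    push_cast
    ring

theorem exists_sign {x : ℝ} (hx : x ≠ 0) : ∃ τ : ℝ, τ ^ 2 = 1 ∧ (τ = 1 ∨ τ = -1) ∧ 0 < τ * x := by
  rcases lt_or_gt_of_ne hx with h | h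
  · exact ⟨-1, by norm_num, Or.inr rfl, by linarith⟩
  · exact ⟨1, by norm_num, Or.inl rfl, by linarith⟩

theorem not_osc (F : P ≃ₜ P) {X Y : P → ℝ} (hXF : ∀ q, X q = (F q).1) (hYF : ∀ q, Y q = (F q).2)
    (hX : ContDiff ℝ ∞ X) (hY : ContDiff ℝ ∞ Y)
    (h1 : ∀ q : P, d1 Y q = -(Real.exp (-q.1) * d2 X q))
    (h2 : ∀ q : P, d2 Y q = Real.exp (-q.1) * d1 X q)
    {ψ r : P → ℝ} (hψ : ContDiff ℝ ∞ ψ) (hr : ∀ q, 0 < r q) (e1 : ∀ q, d1 X q = r q * cos (ψ q))
    (e2 : ∀ q, d2 X q = r q * sin (ψ q))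
    (e3 : ∀ q, r q * d1 ψ q = cos (ψ q) * d1 (d2 X) q - sin (ψ q) * d1 (d1 X) q)
    (e4 : ∀ q, r q * d2 ψ q = cos (ψ q) * d2 (d2 X) q - sin (ψ q) * d2 (d1 X) q)
    {q0 q1 : P} (h : ψ q0 + π < ψ q1) : False := by
  obtain ⟨hpX, -, -, -⟩ := pdes hX hY h1 h2
  have hψd : Differentiable ℝ ψ := hψ.differentiable (by simp)
  have hφ : Differentiable ℝ (fun t : ℝ => ψ (q0 + t • (q1 - q0))) := fun t =>
    (dir_deriv hψd q0 (q1 - q0) t).differentiableAt
  obtain ⟨θ, s, t, hs, ht, hds, hdt, hcθ, hsθ⟩ := good_angle hφ (by simpa using h)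
  set zp := q0 + s • (q1 - q0) with hzp
  set zm := q0 + t • (q1 - q0) with hzm
  have hsp : ψ zp = θ := hs
  have hsm : ψ zm = θ + π := ht
  have hdp : ¬ (d1 ψ zp = 0 ∧ d2 ψ zp = 0) := by
    rintro ⟨k1, k2⟩
    apply hds
    rw [(dir_deriv hψd q0 (q1 - q0) s).deriv, ← hzp, k1, k2]
    ring
  have hdm : ¬ (d1 ψ zm = 0 ∧ d2 ψ zm = 0) := by
    rintro ⟨k1, k2⟩
    apply hdt
    rw [(dir_deriv hψd q0 (q1 - q0) t).deriv, ← hzm, k1, k2]
    ring
  have hM : ∀ (z : P) (σ : ℝ), σ ^ 2 = 1 → d1 X z = r z * (σ * cos θ) → d2 X z = r z * (σ * sin θ) →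
      cos (ψ z) = σ * cos θ → sin (ψ z) = σ * sin θ → ¬ (d1 ψ z = 0 ∧ d2 ψ z = 0) →
      ¬ (d1 (d1 X) z = σ * r z * cos θ * (cos θ * cos θ) ∧
        d2 (d1 X) z = σ * r z * cos θ * (cos θ * sin θ)) := by
    rintro z σ hσ k1 k2 k3 k4 hn ⟨m1, m2⟩
    apply hn
    have m3 : d1 (d2 X) z = σ * r z * cos θ * (cos θ * sin θ) := by
      rw [d1_d2_comm (c2 hX), m2]
    have m4 : d2 (d2 X) z = σ * r z * cos θ * (sin θ * sin θ) := by
      have := hpX z
      rw [m1, k1] at this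
      have hsc : cos θ ^ 2 + sin θ ^ 2 = 1 := cos_sq_add_sin_sq θ
      linear_combination this - σ * r z * cos θ * hsc
    have a1 := e3 z
    have a2 := e4 z
    rw [k3, k4, m1, m3] at a1
    rw [k3, k4, m2, m4] at a2
    have hrz := (hr z).ne'
    constructor
    · have : r z * d1 ψ z = 0 := by rw [a1]; ring
      exact (mul_eq_zero.1 this).resolve_left hrz
    · have : r z * d2 ψ z = 0 := by rw [a2]; ring
      exact (mul_eq_zero.1 this).resolve_left hrz
  have p1 : d1 X zp = r zp * (1 * cos θ) := by rw [e1, hsp, one_mul]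
  have p2 : d2 X zp = r zp * (1 * sin θ) := by rw [e2, hsp, one_mul]
  have n1 : d1 X zm = r zm * ((-1) * cos θ) := by rw [e1, hsm, cos_add_pi]; ring
  have n2 : d2 X zm = r zm * ((-1) * sin θ) := by rw [e2, hsm, sin_add_pi]; ring
  have Mp := hM zp 1 (by norm_num) p1 p2 (by rw [hsp, one_mul]) (by rw [hsp, one_mul]) hdp
  have Mm := hM zm (-1) (by norm_num) n1 n2 (by rw [hsm, cos_add_pi]; ring)
    (by rw [hsm, sin_add_pi]; ring) hdm
  obtain ⟨τ, hτ2, hτ, hτp⟩ := exists_sign hcθ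
  obtain ⟨τ', hτ2', hτ', hτp'⟩ := exists_sign hsθ
  obtain ⟨s1, c1, g1, u1⟩ := X_type F hXF hX hpX (θ := θ) (σ := 1) (τ := τ) (by norm_num) hτ2
    (by linarith) (hr zp) p1 p2 Mp
  obtain ⟨s2, c2', g2, u2⟩ := X_type F hXF hX hpX (θ := θ) (σ := -1) (τ := -τ) (by norm_num)
    (by nlinarith) (by linarith) (hr zm) n1 n2 Mm
  obtain ⟨s3, c3, g3, u3⟩ := Y_type F hYF hX hY h1 h2 (θ := θ) (σ := 1) (τ := τ') (by norm_num) hτ2'
    (by linarith) (hr zp) p1 p2 Mp
  obtain ⟨s4, c4, g4, u4⟩ := Y_type F hYF hX hY h1 h2 (θ := θ) (σ := -1) (τ := -τ') (by norm_num)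
    (by nlinarith) (by linarith) (hr zm) n1 n2 Mm
  set M := |c1| + |c2'| + |c3| + |c4| with hMM
  refine four g1 g2 g3 g4 (K := F.symm '' (Icc (-M) M ×ˢ Icc (-M) M))
    ((isCompact_Icc.prod isCompact_Icc).image F.symm.continuous) ?_
  intro x v1 v2 v3 v4
  have w1 := u1 x v1
  have w2 := u2 x v2
  have w3 := u3 x v3
  have w4 := u4 x v4
  have a1 := le_abs_self c1
  have a2 := le_abs_self c2'
  have a3 := le_abs_self c3
  have a4 := le_abs_self c4
  have b1 := abs_nonneg c1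
  have b2 := abs_nonneg c2'
  have b3 := abs_nonneg c3
  have b4 := abs_nonneg c4
  refine ⟨F x, ⟨?_, ?_⟩, F.symm_apply_apply x⟩
  · rw [← hXF]
    rcases hτ with h | h <;> subst h <;> constructor <;> linarith
  · rw [← hYF]
    rcases hτ' with h | h <;> subst h <;> constructor <;> linarith

end PosOne

open PosOne in
theorem pos_one (F : P ≃ₜ P) (hF : ContDiff ℝ ∞ F)
    (h1 : ∀ q : P, d1 (fun q => (F q).2) q = -(Real.exp (-q.1) * d2 (fun q => (F q).1) q))
    (h2 : ∀ q : P, d2 (fun q => (F q).2) q = Real.exp (-q.1) * d1 (fun q => (F q).1) q)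
    (h0 : ∀ q : P, d1 (fun q => (F q).1) q ≠ 0 ∨ d2 (fun q => (F q).1) q ≠ 0) :
    ∃ γ : ℝ, ∀ q : P, 0 ≤ cos γ * d1 (fun q => (F q).1) q + sin γ * d2 (fun q => (F q).1) q := by
  have hX : ContDiff ℝ ∞ (fun q => (F q).1) := contDiff_fst.comp hF
  have hY : ContDiff ℝ ∞ (fun q => (F q).2) := contDiff_snd.comp hF
  obtain ⟨ψ, r, hψ, hr, e1, e2, e3, e4⟩ := angle hX h0
  have hosc : ∀ q0 q1, ψ q1 ≤ ψ q0 + π := by
    intro q0 q1
    by_contra hcon
    push Not at hcon
    exact not_osc F (fun _ => rfl) (fun _ => rfl) hX hY h1 h2 hψ hr e1 e2 e3 e4 hcon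
  have hbdd : BddAbove (range ψ) := ⟨ψ 0 + π, by rintro _ ⟨x, rfl⟩; exact hosc 0 x⟩
  refine ⟨sSup (range ψ) - π / 2, fun q => ?_⟩
  have k1 : ψ q ≤ sSup (range ψ) := le_csSup hbdd (mem_range_self q)
  have k2 : sSup (range ψ) ≤ ψ q + π := by
    apply csSup_le (range_nonempty ψ)
    rintro _ ⟨x, rfl⟩
    exact hosc q x
  rw [e1, e2]
  have : cos (sSup (range ψ) - π / 2) * (r q * cos (ψ q)) + sin (sSup (range ψ) - π / 2) * (r q * sin (ψ q))
    = r q * cos (sSup (range ψ) - π / 2 - ψ q) := by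
    rw [cos_sub (sSup (range ψ) - π / 2) (ψ q)]
    ring
  rw [this]
  exact mul_nonneg (hr q).le (cos_nonneg_of_mem_Icc ⟨by linarith, by linarith⟩)

end Pool.Agent.EU
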