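import Pool.Agent.EU.Area

/-!
Module DEGB: for `b : P → P` of class `C¹` and bounded, and `ρ` continuous with compact support,
`∫ ρ (x + b x) det D(x + b) = ∫ ρ`.
-/

set_option autoImplicit false
open scoped ContDiff Topology ENNReal
open Real Set MeasureTheory Filter Metric

namespace Pool.Agent.EU
namespace DegB

/-- chain rule for partial derivatives -/
theorem chain {F : P → ℝ} {g1 g2 : P → ℝ} (hF : Differentiable ℝ F) (h1 : Differentiable ℝ g1)
    (h2 : Differentiable ℝ g2) (x : P) :
    d1 (fun x => F (g1 x, g2 x)) x =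
        d1 F (g1 x, g2 x) * d1 g1 x + d2 F (g1 x, g2 x) * d1 g2 x ∧
      d2 (fun x => F (g1 x, g2 x)) x =
        d1 F (g1 x, g2 x) * d2 g1 x + d2 F (g1 x, g2 x) * d2 g2 x := by
  have hg : HasFDerivAt (fun x => ((g1 x, g2 x) : P)) ((fderiv ℝ g1 x).prod (fderiv ℝ g2 x)) x :=
    (h1 x).hasFDerivAt.prodMk (h2 x).hasFDerivAt
  have hc : HasFDerivAt (fun x => F (g1 x, g2 x))
      ((fderiv ℝ F (g1 x, g2 x)).comp ((fderiv ℝ g1 x).prod (fderiv ℝ g2 x))) x :=
    (hF (g1 x, g2 x)).hasFDerivAt.comp x hg
  have he := hc.fderiv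
  constructor
  · rw [d1, he]
    show fderiv ℝ F (g1 x, g2 x) (fderiv ℝ g1 x (1, 0), fderiv ℝ g2 x (1, 0)) = _
    rw [fderiv_apply_eq]
    simp only [smul_eq_mul, d1]
    ring
  · rw [d2, he]
    show fderiv ℝ F (g1 x, g2 x) (fderiv ℝ g1 x (0, 1), fderiv ℝ g2 x (0, 1)) = _
    rw [fderiv_apply_eq]
    simp only [smul_eq_mul, d2]
    ring

/-- translated function -/
theorem d1_shift {φ : P → ℝ} (hφ : Differentiable ℝ φ) (a x : P) :
    d1 (fun x => φ (x + a)) x = d1 φ (x + a) := by
  have h : HasFDerivAt (fun x => φ (x + a)) (fderiv ℝ φ (x + a)) x := by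
    have h0 : HasFDerivAt (fun x : P => x + a) (ContinuousLinearMap.id ℝ P) x :=
      (hasFDerivAt_id x).add_const a
    have := (hφ (x + a)).hasFDerivAt.comp x h0
    rw [ContinuousLinearMap.comp_id] at this
    exact this
  rw [d1, h.fderiv, d1]

theorem support_ball {G : P → ℝ} (hGc : HasCompactSupport G) :
    ∃ R : ℝ, 0 < R ∧ ∀ x : P, R < ‖x‖ → G x = 0 := by
  obtain ⟨R, hR⟩ := (hGc.isCompact.isBounded).subset_closedBall (0 : P)
  refine ⟨max R 1, lt_of_lt_of_le one_pos (le_max_right _ _), fun x hx => ?_⟩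
  apply image_eq_zero_of_notMem_tsupport
  intro h
  have := hR h
  rw [mem_closedBall, dist_zero_right] at this
  exact absurd (lt_of_le_of_lt (le_trans this (le_max_left _ _)) hx) (lt_irrefl _)

/-- bound for difference quotients in the second direction on a ball -/
theorem quot_bound {φ : P → ℝ} (hφ : ContDiff ℝ 1 φ) (R : ℝ) :
    ∃ M : ℝ, 0 ≤ M ∧ ∀ x : P, ‖x‖ ≤ R → ∀ h : ℝ, |h| ≤ 1 →
      |φ (x + (0, h)) - φ x| ≤ M * |h| := by
  have hcpt : IsCompact (closedBall (0 : P) (R + 1)) := isCompact_closedBall _ _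
  obtain ⟨M, hM⟩ := hcpt.exists_bound_of_continuousOn
    ((hφ.continuous_fderiv (by norm_num)).continuousOn)
  refine ⟨max M 0, le_max_right _ _, fun x hx h hh => ?_⟩
  have hx' : x ∈ closedBall (0 : P) (R + 1) := by
    rw [mem_closedBall, dist_zero_right]; linarith
  have hn : ‖((0, h) : P)‖ = |h| := by
    rw [Prod.norm_def]; simp
  have hy' : x + (0, h) ∈ closedBall (0 : P) (R + 1) := by
    rw [mem_closedBall, dist_zero_right]
    calc ‖x + (0, h)‖ ≤ ‖x‖ + ‖((0, h) : P)‖ := norm_add_le _ _
      _ ≤ R + 1 := by rw [hn]; linarith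
  have := (convex_closedBall (0 : P) (R + 1)).norm_image_sub_le_of_norm_fderiv_le
    (f := φ) (C := max M 0) (fun z _ => hφ.differentiable (by norm_num) z)
    (fun z hz => le_trans (hM z hz) (le_max_left _ _)) hx' hy'
  rw [Real.norm_eq_abs] at this
  calc |φ (x + (0, h)) - φ x| ≤ max M 0 * ‖x + (0, h) - x‖ := this
    _ = max M 0 * |h| := by rw [add_sub_cancel_left, hn]

/-- difference quotients converge to the partial derivative -/
theorem quot_tendsto {φ : P → ℝ} (hφ : Differentiable ℝ φ) (x : P) {h : ℕ → ℝ}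
    (h0 : ∀ n, h n ≠ 0) (hh : Tendsto h atTop (𝓝 0)) :
    Tendsto (fun n => (φ (x + (0, h n)) - φ x) / h n) atTop (𝓝 (d2 φ x)) := by
  have hd := hasDerivAt_d2 (hφ x)
  have hs := hd.tendsto_slope
  have ht : Tendsto (fun n => x.2 + h n) atTop (𝓝[≠] x.2) := by
    refine tendsto_nhdsWithin_iff.2 ⟨?_, Eventually.of_forall fun n => ?_⟩
    · simpa using hh.const_add x.2
    · simp [h0 n]
  have := hs.comp ht
  refine this.congr fun n => ?_
  simp only [Function.comp, slope, vsub_eq_sub, smul_eq_mul]
  have e : x + (0, h n) = (x.1, x.2 + h n) := by ext <;> simp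
  rw [e, add_sub_cancel_left]
  show (h n)⁻¹ * (φ (x.1, x.2 + h n) - φ (x.1, x.2)) = _
  rw [Prod.mk.eta]
  field_simp

/-- `∫ (∂₁G ∂₂φ - ∂₂G ∂₁φ) = 0` for `G ∈ C¹_c`, `φ ∈ C¹`. -/
theorem curl_zero {G φ : P → ℝ} (hG : ContDiff ℝ 1 G) (hGc : HasCompactSupport G)
    (hφ : ContDiff ℝ 1 φ) : ∫ x, (d1 G x * d2 φ x - d2 G x * d1 φ x) = 0 := by
  obtain ⟨R, hR0, hR⟩ := support_ball hGc
  have hGd := hG.differentiable (by norm_num)
  have hφd := hφ.differentiable (by norm_num)
  have cd1G : Continuous (d1 G) := (contDiff_d1 (m := 0) hG (by norm_num)).continuous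
  have cd2G : Continuous (d2 G) := (contDiff_d2 (m := 0) hG (by norm_num)).continuous
  have cd1φ : Continuous (d1 φ) := (contDiff_d1 (m := 0) hφ (by norm_num)).continuous
  have cd2φ : Continuous (d2 φ) := (contDiff_d2 (m := 0) hφ (by norm_num)).continuous
  have s1 : HasCompactSupport (d1 G) := hGc.fderiv_apply ℝ _
  have s2 : HasCompactSupport (d2 G) := hGc.fderiv_apply ℝ _
  have z1 : ∀ x : P, R < ‖x‖ → d1 G x = 0 := by
    intro x hx
    have : G =ᶠ[𝓝 x] fun _ => 0 := by
      filter_upwards [(isOpen_lt continuous_const continuous_norm).mem_nhds hx] with y hy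
      exact hR y hy
    rw [d1, this.fderiv_eq]; simp
  set h : ℕ → ℝ := fun n => 1 / ((n : ℝ) + 1) with hh
  have h0 : ∀ n, h n ≠ 0 := fun n => by simp only [hh]; positivity
  have hpos : ∀ n, 0 < h n := fun n => by simp only [hh]; positivity
  have hle : ∀ n, |h n| ≤ 1 := fun n => by
    rw [abs_of_pos (hpos n)]
    simp only [hh]
    rw [div_le_one (by positivity)]
    linarith [(Nat.cast_nonneg n : (0:ℝ) ≤ n)]
  have hlim : Tendsto h atTop (𝓝 0) := tendsto_one_div_add_atTop_nhds_zero_nat
  have hnlim : Tendsto (fun n => -h n) atTop (𝓝 0) := by simpa using hlim.neg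
  -- the exact identity
  have hid : ∀ n, ∫ x, d1 G x * ((φ (x + (0, h n)) - φ x) / h n) =
      ∫ x, ((G (x + (0, -h n)) - G x) / (-h n)) * d1 φ x := by
    intro n
    have cs : ContDiff ℝ 1 (fun x : P => φ (x + (0, h n))) :=
      hφ.comp (contDiff_id.add contDiff_const)
    have hcd : ContDiff ℝ 1 (fun x => (φ (x + (0, h n)) - φ x) / h n) :=
      (cs.sub hφ).div_const _
    have i0 := integral_fderiv_zero (hG.mul hcd) (hGc.mul_right) (1, 0)
    have e0 : ∀ x, fderiv ℝ (fun x => G x * ((φ (x + (0, h n)) - φ x) / h n)) x (1, 0) =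
        d1 G x * ((φ (x + (0, h n)) - φ x) / h n) +
          G x * ((d1 φ (x + (0, h n)) - d1 φ x) / h n) := by
      intro x
      rw [fderiv_fun_mul (hGd x) (hcd.differentiable (by norm_num) x)]
      have e1 : fderiv ℝ (fun x => (φ (x + (0, h n)) - φ x) / h n) x (1, 0) =
          (d1 φ (x + (0, h n)) - d1 φ x) / h n := by
        have a1 : HasFDerivAt (fun x => φ (x + (0, h n))) (fderiv ℝ (fun x => φ (x + (0, h n))) x) x :=
          (cs.differentiable (by norm_num) x).hasFDerivAt
        have a2 := (hφd x).hasFDerivAt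
        have a3 : HasFDerivAt (fun x => (φ (x + (0, h n)) - φ x) * (h n)⁻¹)
            ((h n)⁻¹ • (fderiv ℝ (fun x => φ (x + (0, h n))) x - fderiv ℝ φ x)) x :=
          (a1.sub a2).mul_const ((h n)⁻¹)
        have a4 : fderiv ℝ (fun x => (φ (x + (0, h n)) - φ x) / h n) x =
            (h n)⁻¹ • (fderiv ℝ (fun x => φ (x + (0, h n))) x - fderiv ℝ φ x) := by
          simp only [div_eq_mul_inv]
          exact a3.fderiv
        rw [a4, ← d1_shift hφd (0, h n) x]
        simp only [_root_.smul_apply, _root_.sub_apply, smul_eq_mul, d1]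
        field_simp
      simp only [_root_.add_apply, _root_.smul_apply, smul_eq_mul, e1, d1]
      ring
    have j1 : Integrable (fun x => d1 G x * ((φ (x + (0, h n)) - φ x) / h n)) :=
      (cd1G.mul hcd.continuous).integrable_of_hasCompactSupport s1.mul_right
    have cj : Continuous (fun x => (d1 φ (x + (0, h n)) - d1 φ x) / h n) :=
      ((cd1φ.comp (continuous_id.add continuous_const)).sub cd1φ).div_const _
    have j2 : Integrable (fun x => G x * ((d1 φ (x + (0, h n)) - d1 φ x) / h n)) :=
      (hG.continuous.mul cj).integrable_of_hasCompactSupport hGc.mul_right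
    have i1 : ∫ x, (d1 G x * ((φ (x + (0, h n)) - φ x) / h n) +
          G x * ((d1 φ (x + (0, h n)) - d1 φ x) / h n)) = 0 := by
      refine Eq.trans ?_ i0
      exact integral_congr_ae (Eventually.of_forall fun x => (e0 x).symm)
    rw [integral_add j1 j2] at i1
    -- translation
    have sh : ∀ x : P, x + (0, -h n) + (0, h n) = x := by intro x; ext <;> simp
    have k1 : Integrable (fun x => G x * d1 φ (x + (0, h n))) :=
      (hG.continuous.mul (cd1φ.comp (continuous_id.add continuous_const))).integrable_of_hasCompactSupport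
        hGc.mul_right
    have k2 : Integrable (fun x => G x * d1 φ x) :=
      (hG.continuous.mul cd1φ).integrable_of_hasCompactSupport hGc.mul_right
    have k3 : Integrable (fun x => G (x + (0, -h n)) * d1 φ x) := by
      have := k1.comp_add_right (0, -h n)
      refine this.congr (Eventually.of_forall fun x => ?_)
      show G (x + (0, -h n)) * d1 φ (x + (0, -h n) + (0, h n)) = _
      rw [sh]
    have tr : ∫ x, G x * d1 φ (x + (0, h n)) = ∫ x, G (x + (0, -h n)) * d1 φ x := by
      rw [← integral_add_right_eq_self (fun x => G x * d1 φ (x + (0, h n))) (0, -h n)]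
      refine integral_congr_ae (Eventually.of_forall fun x => ?_)
      show G (x + (0, -h n)) * d1 φ (x + (0, -h n) + (0, h n)) = _
      rw [sh]
    have e3 : ∫ x, G x * ((d1 φ (x + (0, h n)) - d1 φ x) / h n) =
        (1 / h n) * ((∫ x, G x * d1 φ (x + (0, h n))) - ∫ x, G x * d1 φ x) := by
      rw [← integral_sub k1 k2, ← integral_const_mul]
      refine integral_congr_ae (Eventually.of_forall fun x => ?_)
      simp only
      ring
    have e4 : ∫ x, ((G (x + (0, -h n)) - G x) / (-h n)) * d1 φ x =
        (1 / (-h n)) * ((∫ x, G (x + (0, -h n)) * d1 φ x) - ∫ x, G x * d1 φ x) := by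
      rw [← integral_sub k3 k2, ← integral_const_mul]
      refine integral_congr_ae (Eventually.of_forall fun x => ?_)
      simp only
      ring
    rw [e4, ← tr]
    have := i1
    rw [e3] at this
    have h00 := h0 n
    field_simp at this ⊢
    linarith
  -- limits
  obtain ⟨M, hM0, hM⟩ := quot_bound hφ R
  obtain ⟨N, hN0, hN⟩ := quot_bound hG (R + 1)
  obtain ⟨K, hK⟩ := (isCompact_closedBall (0 : P) (R + 1)).exists_bound_of_continuousOn
    cd1φ.continuousOn
  have l1 : Tendsto (fun n => ∫ x, d1 G x * ((φ (x + (0, h n)) - φ x) / h n)) atTop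
      (𝓝 (∫ x, d1 G x * d2 φ x)) := by
    refine tendsto_integral_of_dominated_convergence (fun x => |d1 G x| * M) ?_ ?_ ?_ ?_
    · intro n
      exact (cd1G.mul (((hφ.continuous.comp (continuous_id.add continuous_const)).sub
        hφ.continuous).div_const _)).aestronglyMeasurable
    · exact ((cd1G.integrable_of_hasCompactSupport s1).abs).mul_const M
    · intro n
      refine Eventually.of_forall fun x => ?_
      rw [norm_mul, Real.norm_eq_abs, Real.norm_eq_abs]
      by_cases hx : ‖x‖ ≤ R
      · refine mul_le_mul_of_nonneg_left ?_ (abs_nonneg _)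
        rw [abs_div, div_le_iff₀ (abs_pos.2 (h0 n))]
        exact hM x hx (h n) (hle n)
      · rw [z1 x (not_le.1 hx)]; simp
    · refine Eventually.of_forall fun x => ?_
      exact (quot_tendsto hφd x h0 hlim).const_mul _
  have l2 : Tendsto (fun n => ∫ x, ((G (x + (0, -h n)) - G x) / (-h n)) * d1 φ x) atTop
      (𝓝 (∫ x, d2 G x * d1 φ x)) := by
    refine tendsto_integral_of_dominated_convergence
      ((closedBall (0 : P) (R + 1)).indicator (fun _ => N * K)) ?_ ?_ ?_ ?_
    · intro n
      exact ((((hG.continuous.comp (continuous_id.add continuous_const)).sub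
        hG.continuous).div_const _).mul cd1φ).aestronglyMeasurable
    · rw [integrable_indicator_iff measurableSet_closedBall]
      exact integrableOn_const (isCompact_closedBall _ _).measure_lt_top.ne
    · intro n
      refine Eventually.of_forall fun x => ?_
      by_cases hx : ‖x‖ ≤ R + 1
      · have hxm : x ∈ closedBall (0 : P) (R + 1) := by
          rw [mem_closedBall, dist_zero_right]; exact hx
        rw [indicator_of_mem hxm, norm_mul, Real.norm_eq_abs]
        refine mul_le_mul ?_ (hK x hxm) (norm_nonneg _) hN0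
        rw [abs_div, div_le_iff₀ (abs_pos.2 (neg_ne_zero.2 (h0 n)))]
        exact hN x hx (-h n) (by rw [abs_neg]; exact hle n)
      · have hx' := not_le.1 hx
        have hxm : x ∉ closedBall (0 : P) (R + 1) := by
          rw [mem_closedBall, dist_zero_right]; exact hx
        have g1 : G x = 0 := hR x (by linarith)
        have g2 : G (x + (0, -h n)) = 0 := by
          refine hR _ ?_
          have hn : ‖((0, -h n) : P)‖ ≤ 1 := by
            rw [Prod.norm_def]; simp only [norm_zero, norm_neg, Real.norm_eq_abs]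
            exact max_le (by norm_num) (hle n)
          have : ‖x‖ ≤ ‖x + (0, -h n)‖ + ‖((0, -h n) : P)‖ := by
            have := norm_sub_le (x + (0, -h n)) (0, -h n)
            simpa using this
          linarith
        rw [indicator_of_notMem hxm, g1, g2]; simp
    · refine Eventually.of_forall fun x => ?_
      exact (quot_tendsto hGd x (fun n => neg_ne_zero.2 (h0 n)) hnlim).mul_const _
  have heq : ∫ x, d1 G x * d2 φ x = ∫ x, d2 G x * d1 φ x := by
    refine tendsto_nhds_unique l1 ?_
    simp only [hid]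
    exact l2
  rw [integral_sub, heq, sub_self]
  · exact (cd1G.mul cd2φ).integrable_of_hasCompactSupport s1.mul_right
  · exact (cd2G.mul cd1φ).integrable_of_hasCompactSupport s2.mul_right

/-! ### the antiderivative in the first variable -/

/-- Lebesgue measure on the first coordinate axis. -/
noncomputable def axis : Measure P := (volume : Measure ℝ).map (fun s : ℝ => ((s, 0) : P))

theorem isClosedEmbedding_axis : Topology.IsClosedEmbedding (fun s : ℝ => ((s, 0) : P)) := by
  refine Topology.IsClosedEmbedding.of_continuous_injective_isClosedMap (by fun_prop) ?_ ?_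
  · intro a b hab
    exact (Prod.mk.inj hab).1
  · intro C hC
    have : (fun s : ℝ => ((s, 0) : P)) '' C = {x : P | x.1 ∈ C} ∩ {x : P | x.2 = 0} := by
      ext ⟨u, v⟩
      simp only [mem_image, Prod.mk.injEq, mem_inter_iff, mem_ofPred_eq]
      constructor
      · rintro ⟨s, hs, rfl, rfl⟩; exact ⟨hs, rfl⟩
      · rintro ⟨hu, rfl⟩; exact ⟨u, hu, rfl, rfl⟩
    rw [this]
    exact (hC.preimage continuous_fst).inter (isClosed_eq continuous_snd continuous_const)

/-- `∫_{-∞}^{y₁} ρ (s, y₂) ds` -/
noncomputable def prim (ρ : P → ℝ) : P → ℝ :=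
  MeasureTheory.convolution (fun t : P => if 0 ≤ t.1 then (1 : ℝ) else 0) ρ
    (ContinuousLinearMap.lsmul ℝ ℝ) axis

theorem locInt : LocallyIntegrable (fun t : P => if 0 ≤ t.1 then (1 : ℝ) else 0) axis := by
  intro x
  refine ⟨ball x 1, ball_mem_nhds x one_pos, ?_⟩
  have hfin : axis (ball x 1) < ⊤ := by
    rw [axis, Measure.map_apply (by fun_prop) measurableSet_ball]
    have hb : Bornology.IsBounded ((fun s : ℝ => ((s, 0) : P)) ⁻¹' ball x 1) := by
      refine (isBounded_ball (x := x.1) (r := 1)).subset fun s hs => ?_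
      have : dist ((s, 0) : P) x < 1 := hs
      rw [Prod.dist_eq] at this
      exact lt_of_le_of_lt (le_max_left _ _) this
    exact hb.measure_lt_top
  have hm : Measurable (fun t : P => if 0 ≤ t.1 then (1 : ℝ) else 0) :=
    Measurable.ite (measurableSet_le measurable_const measurable_fst) measurable_const
      measurable_const
  refine Measure.integrableOn_of_bounded (M := 1) hfin.ne hm.aestronglyMeasurable ?_
  refine Eventually.of_forall fun t => ?_
  split_ifs <;> simp

theorem contDiff_prim {ρ : P → ℝ} (hρ : ContDiff ℝ 1 ρ) (hc : HasCompactSupport ρ) :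
    ContDiff ℝ 1 (prim ρ) :=
  HasCompactSupport.contDiff_convolution_right (n := 1) (ContinuousLinearMap.lsmul ℝ ℝ) hc locInt hρ

theorem prim_eq {ρ : P → ℝ} (hρ : Continuous ρ) {R : ℝ} (hR : ∀ x : P, R < ‖x‖ → ρ x = 0)
    (hR0 : 0 < R) {a : ℝ} (ha : a < -R) (y : P) : prim ρ y = ∫ u in a..y.1, ρ (u, y.2) := by
  have e1 : prim ρ y = ∫ s in Ici (0:ℝ), ρ (y.1 - s, y.2) := by
    rw [prim, convolution_def, axis, isClosedEmbedding_axis.measurableEmbedding.integral_map,
      ← integral_indicator measurableSet_Ici]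
    refine integral_congr_ae (Eventually.of_forall fun s => ?_)
    by_cases hs : 0 ≤ s
    · have : s ∈ Ici (0:ℝ) := hs
      rw [indicator_of_mem this]
      simp [hs]
      congr 1
      ext <;> simp
    · have : s ∉ Ici (0:ℝ) := hs
      rw [indicator_of_notMem this]
      simp [hs]
  set T : ℝ := |y.1| + |a| + 1 with hT
  have hT0 : 0 ≤ T := by positivity
  have z : ∀ u v : ℝ, u < -R → ρ (u, v) = 0 := by
    intro u v hu
    apply hR
    have h1 : |u| ≤ ‖((u, v) : P)‖ := by
      rw [Prod.norm_def]; exact le_max_left _ _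
    have h2 : R < |u| := by
      rw [abs_of_neg (by linarith)]; linarith
    linarith
  have e2 : ∫ s in Ici (0:ℝ), ρ (y.1 - s, y.2) = ∫ s in (0:ℝ)..T, ρ (y.1 - s, y.2) := by
    rw [integral_Ici_eq_integral_Ioi, intervalIntegral.integral_of_le hT0]
    refine setIntegral_eq_of_subset_of_forall_sdiff_eq_zero measurableSet_Ioi ?_ ?_
    · exact Ioc_subset_Ioi_self
    · intro s hs
      have hs1 : 0 < s := hs.1
      have hs2 : T < s := by
        by_contra hle
        exact hs.2 ⟨hs1, not_lt.1 hle⟩
      apply z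
      have := le_abs_self y.1
      have h3 := neg_abs_le a
      linarith
  rw [e1, e2]
  have e3 : ∫ s in (0:ℝ)..T, ρ (y.1 - s, y.2) = ∫ u in (y.1 - T)..(y.1 - 0), ρ (u, y.2) :=
    intervalIntegral.integral_comp_sub_left (fun u => ρ (u, y.2)) y.1
  rw [e3, sub_zero]
  have ci : ∀ c d : ℝ, IntervalIntegrable (fun u => ρ (u, y.2)) volume c d := fun c d =>
    (hρ.comp (by fun_prop : Continuous fun u : ℝ => ((u, y.2) : P))).intervalIntegrable c d
  rw [← intervalIntegral.integral_add_adjacent_intervals (ci (y.1 - T) a) (ci a y.1)]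
  have e4 : ∫ u in (y.1 - T)..a, ρ (u, y.2) = 0 := by
    rw [← intervalIntegral.integral_zero (μ := volume) (a := y.1 - T) (b := a)]
    apply intervalIntegral.integral_congr
    intro u hu
    have : u ≤ a := by
      rw [uIcc_of_le (by have := le_abs_self y.1; have := neg_abs_le a; linarith)] at hu
      exact hu.2
    exact z u y.2 (by linarith)
  rw [e4, zero_add]

theorem d1_prim {ρ : P → ℝ} (hρ : ContDiff ℝ 1 ρ) (hc : HasCompactSupport ρ) (y : P) :
    d1 (prim ρ) y = ρ y := by
  obtain ⟨R, hR0, hR⟩ := support_ball hc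
  have h1 := hasDerivAt_d1 ((contDiff_prim hρ hc).differentiable (by norm_num) y)
  have h2 : HasDerivAt (fun s => prim ρ (s, y.2)) (ρ (y.1, y.2)) y.1 := by
    have hcont : Continuous fun u : ℝ => ρ (u, y.2) := hρ.continuous.comp (by fun_prop)
    have := intervalIntegral.integral_hasDerivAt_right
      (hcont.intervalIntegrable (-R - 1) y.1) (hcont.stronglyMeasurableAtFilter volume (𝓝 y.1))
      hcont.continuousAt
    refine this.congr_of_eventuallyEq (Eventually.of_forall fun s => ?_)
    exact prim_eq hρ.continuous hR hR0 (by linarith) (s, y.2)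
  exact h1.unique h2

/-! ### one dimensional change of variables -/

theorem one_dim {c c' : ℝ → ℝ} (hc : ∀ t, HasDerivAt c (c' t) t) (hc' : Continuous c') {C : ℝ}
    (hC : ∀ t, |c t - t| ≤ C) {g : ℝ → ℝ} (hg : Continuous g) {R : ℝ} (hR0 : 0 < R)
    (hR : ∀ u, R < |u| → g u = 0) : ∫ t, g (c t) * c' t = ∫ u, g u := by
  have hC0 : 0 ≤ C := le_trans (abs_nonneg _) (hC 0)
  set T : ℝ := R + C + 1 with hT
  have hT0 : -T ≤ T := by linarith
  have full : ∀ (f : ℝ → ℝ) (a b : ℝ), a ≤ b → (∀ u, u ≤ a → f u = 0) → (∀ u, b < u → f u = 0) →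
      ∫ u in a..b, f u = ∫ u, f u := by
    intro f a b hab ha hb
    rw [intervalIntegral.integral_of_le hab]
    refine setIntegral_eq_integral_of_forall_compl_eq_zero fun u hu => ?_
    by_cases h : u ≤ a
    · exact ha u h
    · exact hb u (by
        by_contra hle
        exact hu ⟨not_le.1 h, not_lt.1 hle⟩)
  have zc : ∀ t, R + C < |t| → g (c t) = 0 := by
    intro t ht
    apply hR
    have h1 := hC t
    have h2 : |t| ≤ |c t| + |c t - t| := by
      have := abs_sub_abs_le_abs_sub t (c t)
      rw [abs_sub_comm] at this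
      linarith
    linarith
  have i1 : ∫ t, g (c t) * c' t = ∫ t in (-T)..T, g (c t) * c' t := by
    symm
    refine full _ _ _ hT0 ?_ ?_
    · intro u hu
      rw [zc u, zero_mul]
      rw [abs_of_nonpos (by linarith)]; linarith
    · intro u hu
      rw [zc u, zero_mul]
      rw [abs_of_pos (by linarith)]; linarith
  have i2 : ∫ t in (-T)..T, g (c t) * c' t = ∫ u in (c (-T))..(c T), g u := by
    have := intervalIntegral.integral_comp_mul_deriv (a := -T) (b := T) (f := c) (f' := c')
      (g := g) (fun x _ => hc x) hc'.continuousOn hg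
    simpa only [Function.comp] using this
  have b1 : c (-T) < -R := by
    have := hC (-T)
    have := le_abs_self (c (-T) - -T)
    linarith
  have b2 : R < c T := by
    have := hC T
    have := neg_abs_le (c T - T)
    linarith
  have i3 : ∫ u in (c (-T))..(c T), g u = ∫ u, g u := by
    refine full _ _ _ (by linarith) ?_ ?_
    · intro u hu
      apply hR
      rw [abs_of_neg (by linarith)]; linarith
    · intro u hu
      apply hR
      rw [abs_of_pos (by linarith)]; linarith
  rw [i1, i2, i3]

/-! ### the main identity -/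

theorem norm_gt_cases {x : P} {r : ℝ} (h : r < ‖x‖) : r < |x.1| ∨ r < |x.2| := by
  rw [Prod.norm_def, lt_max_iff] at h
  simpa [Real.norm_eq_abs] using h

theorem comp_le {x : P} : |x.1| ≤ ‖x‖ ∧ |x.2| ≤ ‖x‖ := by
  rw [Prod.norm_def]
  exact ⟨le_max_left _ _, le_max_right _ _⟩

theorem norm_gt_of {u v r : ℝ} (h : r < |u| ∨ r < |v|) : r < ‖((u, v) : P)‖ := by
  rw [Prod.norm_def, lt_max_iff]
  simpa [Real.norm_eq_abs] using h

theorem deg_C1 {b : P → P} (hb : ContDiff ℝ 1 b) {C : ℝ} (hC : ∀ x, ‖b x‖ ≤ C)
    {ρ : P → ℝ} (hρ : ContDiff ℝ 1 ρ) (hc : HasCompactSupport ρ) :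
    ∫ x, ρ (x + b x) * (fderiv ℝ (fun x => x + b x) x).det = ∫ x, ρ x := by
  obtain ⟨R, hR0, hR⟩ := support_ball hc
  have hC0 : 0 ≤ C := le_trans (norm_nonneg _) (hC 0)
  have hf : ContDiff ℝ 1 (fun x : P => x + b x) := contDiff_id.add hb
  have hf1 : ContDiff ℝ 1 (fun x : P => (x + b x).1) := hf.fst
  have hf2 : ContDiff ℝ 1 (fun x : P => (x + b x).2) := hf.snd
  have hF := contDiff_prim hρ hc
  have hx1 : ContDiff ℝ 1 (fun x : P => x.1) := contDiff_fst
  set F := prim ρ with hFdef
  have hb1 : ∀ x, |(b x).1| ≤ C := fun x => le_trans comp_le.1 (hC x)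
  have hb2 : ∀ x, |(b x).2| ≤ C := fun x => le_trans comp_le.2 (hC x)
  have hG : ContDiff ℝ 1 (fun x : P => F ((x + b x).1, (x + b x).2) - F (x.1, (x + b x).2)) :=
    (hF.comp (hf1.prodMk hf2)).sub (hF.comp (hx1.prodMk hf2))
  have far2 : ∀ x : P, R + C < |x.2| → R < |(x + b x).2| := by
    intro x hx
    have h1 : |x.2| ≤ |(x + b x).2| + |(b x).2| := by
      have := abs_sub ((x + b x).2) ((b x).2)
      have e : (x + b x).2 - (b x).2 = x.2 := by simp
      rwa [e] at this
    have := hb2 x
    linarith
  have hGc : HasCompactSupport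
      (fun x : P => F ((x + b x).1, (x + b x).2) - F (x.1, (x + b x).2)) := by
    refine HasCompactSupport.intro (isCompact_closedBall (0 : P) (R + C)) fun x hx => ?_
    rw [mem_closedBall, dist_zero_right, not_le] at hx
    have ha : -R - 1 < -R := by linarith
    have e1 := prim_eq hρ.continuous hR hR0 ha ((x + b x).1, (x + b x).2)
    have e2 := prim_eq hρ.continuous hR hR0 ha (x.1, (x + b x).2)
    have hcont : Continuous fun u : ℝ => ρ (u, (x + b x).2) := hρ.continuous.comp (by fun_prop)
    rw [hFdef, e1, e2]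
    simp only
    rw [intervalIntegral.integral_interval_sub_left (hcont.intervalIntegrable _ _)
      (hcont.intervalIntegrable _ _), ← intervalIntegral.integral_zero (μ := volume) (a := x.1)
      (b := (x + b x).1)]
    apply intervalIntegral.integral_congr
    intro u hu
    apply hR
    rcases norm_gt_cases hx with h | h
    · refine norm_gt_of (Or.inl ?_)
      have h1 : |u - x.1| ≤ |(x + b x).1 - x.1| := by
        have := abs_sub_left_of_mem_uIcc hu
        exact this
      have e : (x + b x).1 - x.1 = (b x).1 := by simp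
      rw [e] at h1
      have h2 := hb1 x
      have h3 : |x.1| ≤ |u| + |u - x.1| := by
        have := abs_sub u (u - x.1)
        have e : u - (u - x.1) = x.1 := by ring
        rwa [e] at this
      linarith
    · exact norm_gt_of (Or.inr (far2 x h))
  have hcurl := curl_zero hG hGc hf2
  -- partial derivatives of the components
  have hpd : ∀ x, d1 (fun x : P => (x + b x).1) x = (d1 (fun x : P => x + b x) x).1 ∧
      d2 (fun x : P => (x + b x).1) x = (d2 (fun x : P => x + b x) x).1 ∧
      d1 (fun x : P => (x + b x).2) x = (d1 (fun x : P => x + b x) x).2 ∧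
      d2 (fun x : P => (x + b x).2) x = (d2 (fun x : P => x + b x) x).2 := by
    intro x
    have hx := hf.differentiable (by norm_num) x
    have e1 : fderiv ℝ (fun x : P => (x + b x).1) x =
        (ContinuousLinearMap.fst ℝ ℝ ℝ).comp (fderiv ℝ (fun x : P => x + b x) x) :=
      hx.hasFDerivAt.fst.fderiv
    have e2 : fderiv ℝ (fun x : P => (x + b x).2) x =
        (ContinuousLinearMap.snd ℝ ℝ ℝ).comp (fderiv ℝ (fun x : P => x + b x) x) :=
      hx.hasFDerivAt.snd.fderiv
    refine ⟨?_, ?_, ?_, ?_⟩
    · rw [d1, e1]; rfl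
    · rw [d2, e1]; rfl
    · rw [d1, e2]; rfl
    · rw [d2, e2]; rfl
  have hd11 : ∀ x : P, d1 (fun x : P => x.1) x = 1 := by
    intro x
    have : fderiv ℝ (fun x : P => x.1) x = ContinuousLinearMap.fst ℝ ℝ ℝ := fderiv_fst
    rw [d1, this]; rfl
  have hd21 : ∀ x : P, d2 (fun x : P => x.1) x = 0 := by
    intro x
    have : fderiv ℝ (fun x : P => x.1) x = ContinuousLinearMap.fst ℝ ℝ ℝ := fderiv_fst
    rw [d2, this]; rfl
  have pt : ∀ x : P,
      d1 (fun x : P => F ((x + b x).1, (x + b x).2) - F (x.1, (x + b x).2)) x *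
        d2 (fun x : P => (x + b x).2) x -
      d2 (fun x : P => F ((x + b x).1, (x + b x).2) - F (x.1, (x + b x).2)) x *
        d1 (fun x : P => (x + b x).2) x =
      ρ (x + b x) * (fderiv ℝ (fun x => x + b x) x).det -
        ρ (x.1, (x + b x).2) * d2 (fun x : P => (x + b x).2) x := by
    intro x
    have hFd := hF.differentiable (by norm_num)
    have hf1d := hf1.differentiable (by norm_num)
    have hf2d := hf2.differentiable (by norm_num)
    have hx1d := hx1.differentiable (by norm_num)
    obtain ⟨c1, c2⟩ := chain hFd hf1d hf2d x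
    obtain ⟨c3, c4⟩ := chain hFd hx1d hf2d x
    have s : fderiv ℝ (fun x : P => F ((x + b x).1, (x + b x).2) - F (x.1, (x + b x).2)) x =
        fderiv ℝ (fun x : P => F ((x + b x).1, (x + b x).2)) x -
          fderiv ℝ (fun x : P => F (x.1, (x + b x).2)) x :=
      fderiv_fun_sub ((hF.comp (hf1.prodMk hf2)).differentiable (by norm_num) x)
        ((hF.comp (hx1.prodMk hf2)).differentiable (by norm_num) x)
    have s1 : d1 (fun x : P => F ((x + b x).1, (x + b x).2) - F (x.1, (x + b x).2)) x =
        d1 (fun x : P => F ((x + b x).1, (x + b x).2)) x -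
          d1 (fun x : P => F (x.1, (x + b x).2)) x := by
      rw [d1, s]; rfl
    have s2 : d2 (fun x : P => F ((x + b x).1, (x + b x).2) - F (x.1, (x + b x).2)) x =
        d2 (fun x : P => F ((x + b x).1, (x + b x).2)) x -
          d2 (fun x : P => F (x.1, (x + b x).2)) x := by
      rw [d2, s]; rfl
    obtain ⟨p1, p2, p3, p4⟩ := hpd x
    rw [s1, s2, c1, c2, c3, c4, hd11, hd21, det_eq, ← p1, ← p2, ← p3, ← p4, hFdef,
      d1_prim hρ hc, d1_prim hρ hc]
    simp only [Prod.mk.eta]
    ring
  have cpt1 : HasCompactSupport (fun x : P => ρ (x + b x)) := by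
    refine HasCompactSupport.intro (isCompact_closedBall (0 : P) (R + C)) fun x hx => ?_
    rw [mem_closedBall, dist_zero_right, not_le] at hx
    apply hR
    have h1 : ‖x‖ ≤ ‖x + b x‖ + ‖b x‖ := by
      have := norm_sub_le (x + b x) (b x)
      rwa [add_sub_cancel_right] at this
    have := hC x
    linarith
  have cpt2 : HasCompactSupport (fun x : P => ρ (x.1, (x + b x).2)) := by
    refine HasCompactSupport.intro (isCompact_closedBall (0 : P) (R + C)) fun x hx => ?_
    rw [mem_closedBall, dist_zero_right, not_le] at hx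
    apply hR
    rcases norm_gt_cases hx with h | h
    · exact norm_gt_of (Or.inl (by linarith))
    · exact norm_gt_of (Or.inr (far2 x h))
  have cd22 : Continuous (d2 (fun x : P => (x + b x).2)) :=
    (contDiff_d2 (m := 0) hf2 (by norm_num)).continuous
  have int1 : Integrable (fun x : P => ρ (x + b x) * (fderiv ℝ (fun x => x + b x) x).det) :=
    ((hρ.continuous.comp hf.continuous).mul (continuous_det_fderiv hf)).integrable_of_hasCompactSupport
      cpt1.mul_right
  have int2 : Integrable (fun x : P => ρ (x.1, (x + b x).2) * d2 (fun x : P => (x + b x).2) x) :=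
    ((hρ.continuous.comp (continuous_fst.prodMk hf2.continuous)).mul
      cd22).integrable_of_hasCompactSupport cpt2.mul_right
  have e5 : ∫ x, ρ (x + b x) * (fderiv ℝ (fun x => x + b x) x).det =
      ∫ x : P, ρ (x.1, (x + b x).2) * d2 (fun x : P => (x + b x).2) x := by
    have h := integral_sub int1 int2
    have h0 : ∫ x : P, (ρ (x + b x) * (fderiv ℝ (fun x => x + b x) x).det -
        ρ (x.1, (x + b x).2) * d2 (fun x : P => (x + b x).2) x) = 0 := by
      refine Eq.trans ?_ hcurl
      exact integral_congr_ae (Eventually.of_forall fun x => (pt x).symm)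
    rw [h0] at h
    linarith
  rw [e5]
  have i3 : Integrable ρ (volume : Measure P) := hρ.continuous.integrable_of_hasCompactSupport hc
  have hvol : (volume : Measure P) = (volume : Measure ℝ).prod (volume : Measure ℝ) := rfl
  rw [hvol] at int2 i3 ⊢
  rw [integral_prod _ int2, integral_prod _ i3]
  refine integral_congr_ae (Eventually.of_forall fun s => ?_)
  simp only
  refine one_dim (c := fun t => ((s, t) + b (s, t)).2) (C := C) (g := fun u => ρ (s, u)) (R := R)
    ?_ ?_ ?_ ?_ hR0 ?_
  · intro t
    exact hasDerivAt_d2 (hf2.differentiable (by norm_num) (s, t))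
  · exact cd22.comp (by fun_prop)
  · intro t
    have := hb2 (s, t)
    simpa using this
  · exact hρ.continuous.comp (by fun_prop)
  · intro u hu
    exact hR _ (norm_gt_of (Or.inr hu))

end DegB

theorem degree_bounded {b : P → P} (hb : ContDiff ℝ 1 b) (hbd : ∃ C, ∀ x, ‖b x‖ ≤ C)
    {ρ : P → ℝ} (hρ : Continuous ρ) (hc : HasCompactSupport ρ) :
    ∫ x, ρ (x + b x) * (fderiv ℝ (fun x => x + b x) x).det = ∫ x, ρ x := by
  obtain ⟨C, hC⟩ := hbd
  obtain ⟨R, hR0, hR⟩ := DegB.support_ball hc
  have hC0 : 0 ≤ C := le_trans (norm_nonneg _) (hC 0)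
  have hf : ContDiff ℝ 1 (fun x : P => x + b x) := contDiff_id.add hb
  have hdet : Continuous fun x : P => (fderiv ℝ (fun x => x + b x) x).det :=
    continuous_det_fderiv hf
  have hcomp : ∀ (g : P → ℝ), (∀ x : P, R + 1 < ‖x‖ → g x = 0) →
      HasCompactSupport (fun x : P => g (x + b x)) := by
    intro g hg
    refine HasCompactSupport.intro (isCompact_closedBall (0 : P) (R + 1 + C)) fun x hx => ?_
    rw [mem_closedBall, dist_zero_right, not_le] at hx
    apply hg
    have h1 : ‖x‖ ≤ ‖x + b x‖ + ‖b x‖ := by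
      have := norm_sub_le (x + b x) (b x)
      rwa [add_sub_cancel_right] at this
    have := hC x
    linarith
  have hcs : ∀ (g : P → ℝ), (∀ x : P, R + 1 < ‖x‖ → g x = 0) → HasCompactSupport g := by
    intro g hg
    refine HasCompactSupport.intro (isCompact_closedBall (0 : P) (R + 1)) fun x hx => ?_
    rw [mem_closedBall, dist_zero_right, not_le] at hx
    exact hg x hx
  have hR' : ∀ x : P, R + 1 < ‖x‖ → ρ x = 0 := fun x hx => hR x (by linarith)
  have hint : ∀ (g : P → ℝ), Continuous g → (∀ x : P, R + 1 < ‖x‖ → g x = 0) →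
      Integrable (fun x : P => g (x + b x) * (fderiv ℝ (fun x => x + b x) x).det) := by
    intro g hg hg0
    exact ((hg.comp hf.continuous).mul hdet).integrable_of_hasCompactSupport
      (hcomp g hg0).mul_right
  set K1 : ℝ := ∫ x in closedBall (0 : P) (R + 1 + C), |(fderiv ℝ (fun x => x + b x) x).det|
    with hK1
  set K2 : ℝ := ∫ x in closedBall (0 : P) (R + 1), (1 : ℝ) with hK2
  have iK1 : IntegrableOn (fun x : P => |(fderiv ℝ (fun x => x + b x) x).det|)
      (closedBall (0 : P) (R + 1 + C)) :=
    hdet.abs.continuousOn.integrableOn_compact (isCompact_closedBall _ _)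
  have iK2 : IntegrableOn (fun _ : P => (1 : ℝ)) (closedBall (0 : P) (R + 1)) :=
    continuousOn_const.integrableOn_compact (isCompact_closedBall _ _)
  have hK1n : 0 ≤ K1 := setIntegral_nonneg measurableSet_closedBall fun x _ => abs_nonneg _
  have hK2n : 0 ≤ K2 := setIntegral_nonneg measurableSet_closedBall fun x _ => zero_le_one
  have main : ∀ ε : ℝ, 0 < ε →
      |(∫ x, ρ (x + b x) * (fderiv ℝ (fun x => x + b x) x).det) - ∫ x, ρ x| ≤ ε * (K1 + K2) := by
    intro ε hε
    have huc : UniformContinuous ρ := hc.uniformContinuous_of_continuous hρ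
    obtain ⟨δ, hδ, hρδ⟩ := Metric.uniformContinuous_iff.mp huc ε hε
    obtain ⟨g, hgc, hg⟩ := hρ.exists_contDiff_dist_le_of_forall_mem_ball_dist_le
      (ε := min 1 δ) (lt_min one_pos hδ)
    have hclose : ∀ a, |g a - ρ a| ≤ ε := by
      intro a
      have := hg a ε fun x hx => (hρδ (lt_of_lt_of_le (mem_ball.1 hx) (min_le_right _ _))).le
      rwa [Real.dist_eq] at this
    have hg0 : ∀ x : P, R + 1 < ‖x‖ → g x = 0 := by
      intro a ha
      have hρa : ρ a = 0 := hR' a ha
      have := hg a 0 fun x hx => by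
        have hx' : dist x a < 1 := lt_of_lt_of_le (mem_ball.1 hx) (min_le_left _ _)
        have : R < ‖x‖ := by
          have h1 : ‖a‖ ≤ ‖x‖ + dist x a := by
            rw [dist_eq_norm]
            have := norm_sub_le x (x - a)
            rwa [sub_sub_cancel] at this
          linarith
        rw [hR x this, hρa, dist_self]
      rw [hρa, dist_zero_right, norm_le_zero_iff] at this
      exact this
    have hg1 : ContDiff ℝ 1 g := hgc.of_le (by exact_mod_cast le_top)
    have hgcs := hcs g hg0
    have hgmain := DegB.deg_C1 hb hC hg1 hgcs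
    have a1 : |(∫ x, ρ (x + b x) * (fderiv ℝ (fun x => x + b x) x).det) -
        ∫ x, g (x + b x) * (fderiv ℝ (fun x => x + b x) x).det| ≤ ε * K1 := by
      rw [← integral_sub (hint ρ hρ hR') (hint g hg1.continuous hg0)]
      have hz : ∀ x ∉ closedBall (0 : P) (R + 1 + C),
          ρ (x + b x) * (fderiv ℝ (fun x => x + b x) x).det -
            g (x + b x) * (fderiv ℝ (fun x => x + b x) x).det = 0 := by
        intro x hx
        rw [mem_closedBall, dist_zero_right, not_le] at hx
        have h1 : ‖x‖ ≤ ‖x + b x‖ + ‖b x‖ := by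
          have := norm_sub_le (x + b x) (b x)
          rwa [add_sub_cancel_right] at this
        have h2 := hC x
        rw [hR' _ (by linarith), hg0 _ (by linarith)]
        ring
      rw [← setIntegral_eq_integral_of_forall_compl_eq_zero hz, hK1, ← integral_const_mul]
      refine le_trans (abs_integral_le_integral_abs) ?_
      refine setIntegral_mono_on ?_ (iK1.const_mul ε) measurableSet_closedBall ?_
      · exact ((((hρ.comp hf.continuous).mul hdet).sub
          ((hg1.continuous.comp hf.continuous).mul hdet)).abs).continuousOn.integrableOn_compact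
          (isCompact_closedBall _ _)
      · intro x _
        rw [← sub_mul, abs_mul]
        refine mul_le_mul_of_nonneg_right ?_ (abs_nonneg _)
        rw [abs_sub_comm]
        exact hclose _
    have a2 : |(∫ x, g x) - ∫ x, ρ x| ≤ ε * K2 := by
      rw [← integral_sub (hg1.continuous.integrable_of_hasCompactSupport hgcs)
        (hρ.integrable_of_hasCompactSupport hc)]
      have hz : ∀ x ∉ closedBall (0 : P) (R + 1), g x - ρ x = 0 := by
        intro x hx
        rw [mem_closedBall, dist_zero_right, not_le] at hx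
        rw [hg0 x hx, hR' x hx, sub_zero]
      rw [← setIntegral_eq_integral_of_forall_compl_eq_zero hz, hK2, ← integral_const_mul]
      refine le_trans (abs_integral_le_integral_abs) ?_
      refine setIntegral_mono_on ?_ (iK2.const_mul ε) measurableSet_closedBall ?_
      · exact ((hg1.continuous.sub hρ).abs).continuousOn.integrableOn_compact
          (isCompact_closedBall _ _)
      · intro x _
        rw [mul_one]
        exact hclose x
    rw [hgmain] at a1
    calc |(∫ x, ρ (x + b x) * (fderiv ℝ (fun x => x + b x) x).det) - ∫ x, ρ x|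
        ≤ |(∫ x, ρ (x + b x) * (fderiv ℝ (fun x => x + b x) x).det) - ∫ x, g x| +
          |(∫ x, g x) - ∫ x, ρ x| := abs_sub_le _ _ _
      _ ≤ ε * (K1 + K2) := by linarith
  have hfin : |(∫ x, ρ (x + b x) * (fderiv ℝ (fun x => x + b x) x).det) - ∫ x, ρ x| ≤ 0 := by
    refine le_of_forall_pos_le_add fun η hη => ?_
    rw [zero_add]
    have hpos : 0 < K1 + K2 + 1 := by linarith
    refine le_trans (main (η / (K1 + K2 + 1)) (div_pos hη hpos)) ?_
    rw [div_mul_eq_mul_div, div_le_iff₀ hpos]
    nlinarith
  have := abs_nonpos_iff.1 hfin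
  linarith

end Pool.Agent.EU
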