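import Pool.Agent.EU.Defs
import Pool.Agent.EU.B
import Pool.Agent.EU.Area
import Pool.Agent.EU.DegB

/-!
Module POS2 (positivity for the degree two case).  `pos_two_of_degree` proves the statement of the
interface from the degree formula for bounded perturbations of the identity (module DEGB).
-/

set_option autoImplicit false
open scoped ContDiff Topology ENNReal NNReal
open Real Set MeasureTheory Filter

namespace Pool.Agent.EU.PosTwo

theorem surj_side {g : P → P} {q0 e : P} (he : ‖e‖ = 1) {B : P →L[ℝ] P →L[ℝ] P} (T : P ≃L[ℝ] P)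
    (hT : ∀ y, B e y = T y) {M κ η δ t : ℝ} (hM : ∀ y, ‖T.symm y‖ ≤ M * ‖y‖) (hM0 : 0 < M)
    (hκ0 : 0 < κ) (hκ : κ ≤ 1/2) (hη : 0 ≤ η) (h1 : ‖B‖ * κ + 2 * η ≤ 1/(4*M))
    (hδ : ∀ h : P, ‖h‖ < δ → DifferentiableAt ℝ g (q0 + h) ∧ ‖fderiv ℝ g (q0+h) - B h‖ ≤ η * ‖h‖)
    (ht : t ≠ 0) (ht' : 2 * |t| < δ) :
    SurjOn g (Metric.closedBall (q0 + t • e) (κ * |t|))
      (Metric.closedBall (g (q0 + t • e)) (3/4 * κ / M * t^2)) := by
  have ht0 : 0 < |t| := abs_pos.2 ht
  set c : ℝ≥0 := Real.toNNReal (|t| / (4 * M)) with hc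
  have hcc : (c : ℝ) = |t| / (4 * M) := Real.coe_toNNReal _ (by positivity)
  have happ : ApproximatesLinearOn g (t • (T : P →L[ℝ] P)) (Metric.closedBall (q0 + t • e) (κ * |t|)) c := by
    intro x hx y hy
    have key : ∀ z ∈ Metric.closedBall (q0 + t • e) (κ * |t|),
        DifferentiableAt ℝ g z ∧ ‖fderiv ℝ g z - t • (T : P →L[ℝ] P)‖ ≤ c := by
      intro z hz
      rw [Metric.mem_closedBall, dist_eq_norm] at hz
      set w : P := z - (q0 + t • e) with hw
      have hzw : z = q0 + (t • e + w) := by rw [hw]; abel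
      have hn : ‖t • e + w‖ ≤ |t| + κ * |t| := by
        refine (norm_add_le _ _).trans ?_
        rw [norm_smul, he, mul_one, Real.norm_eq_abs]
        linarith
      have hn2 : ‖t • e + w‖ ≤ 2 * |t| := by nlinarith
      have h2 := hδ (t • e + w) (lt_of_le_of_lt hn2 ht')
      rw [← hzw] at h2
      refine ⟨h2.1, ?_⟩
      have e1 : fderiv ℝ g z - t • (T : P →L[ℝ] P) = (fderiv ℝ g z - B (t • e + w)) + B w := by
        have : B (t • e) = t • (T : P →L[ℝ] P) := by
          rw [map_smul]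
          congr 1
          exact ContinuousLinearMap.ext fun y => hT y
        rw [map_add, this]
        abel
      rw [e1]
      have h3 : ‖B w‖ ≤ ‖B‖ * (κ * |t|) := (B.le_opNorm w).trans (mul_le_mul_of_nonneg_left hz (norm_nonneg _))
      calc ‖(fderiv ℝ g z - B (t • e + w)) + B w‖ ≤ η * ‖t • e + w‖ + ‖B‖ * (κ * |t|) :=
            (norm_add_le _ _).trans (add_le_add h2.2 h3)
        _ ≤ η * (2 * |t|) + ‖B‖ * (κ * |t|) := by gcongr
        _ = (‖B‖ * κ + 2 * η) * |t| := by ring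
        _ ≤ (1/(4*M)) * |t| := by gcongr
        _ = c := by rw [hcc]; ring
    exact (convex_closedBall _ _).norm_image_sub_le_of_norm_fderiv_le' (fun z hz => (key z hz).1)
      (fun z hz => (key z hz).2) hy hx
  let R : (t • (T : P →L[ℝ] P)).NonlinearRightInverse :=
    { toFun := fun y => t⁻¹ • T.symm y
      nnnorm := Real.toNNReal (M / |t|)
      bound' := by
        intro y
        rw [Real.coe_toNNReal _ (by positivity), norm_smul, norm_inv, Real.norm_eq_abs]
        calc |t|⁻¹ * ‖T.symm y‖ ≤ |t|⁻¹ * (M * ‖y‖) := by gcongr; exact hM y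
          _ = _ := by ring
      right_inv' := by
        intro y
        show t • T (t⁻¹ • T.symm y) = y
        rw [map_smul, smul_smul, mul_inv_cancel₀ ht, one_smul, T.apply_symm_apply] }
  have hR : ((R.nnnorm : ℝ)) = M / |t| := Real.coe_toNNReal _ (by positivity)
  have := happ.surjOn_closedBall_of_nonlinearRightInverse R (ε := κ * |t|) (b := q0 + t • e)
    (by positivity) Subset.rfl
  rw [hR, hcc] at this
  have e2 : ((M / |t|)⁻¹ - |t| / (4 * M)) * (κ * |t|) = 3/4 * κ / M * t^2 := by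
    rw [← sq_abs t]
    field_simp
    ring
  rwa [e2] at this

theorem diff_sq {g : P → P} {q0 e : P} (he : ‖e‖ = 1) {B : P →L[ℝ] P →L[ℝ] P}
    {η δ t : ℝ} (hη : 0 ≤ η)
    (hδ : ∀ h : P, ‖h‖ < δ → DifferentiableAt ℝ g (q0 + h) ∧ ‖fderiv ℝ g (q0+h) - B h‖ ≤ η * ‖h‖)
    (ht : 0 < t) (ht' : 2 * t < δ) :
    ‖g (q0 + t • e) - g (q0 + (-t) • e)‖ ≤ 2 * η * t ^ 2 := by
  have hd : ∀ s ∈ Icc (0:ℝ) t, HasDerivWithinAt (fun s => g (q0 + s • e) - g (q0 + (-s) • e))
      (fderiv ℝ g (q0 + s • e) e + fderiv ℝ g (q0 + (-s) • e) e) (Icc 0 t) s := by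
    intro s hs
    have n1 : ‖s • e‖ < δ := by
      rw [norm_smul, he, mul_one, Real.norm_eq_abs, abs_of_nonneg hs.1]
      linarith [hs.2]
    have n2 : ‖(-s) • e‖ < δ := by
      rw [norm_smul, he, mul_one, Real.norm_eq_abs, abs_neg, abs_of_nonneg hs.1]
      linarith [hs.2]
    have a1 : HasDerivAt (fun s : ℝ => q0 + s • e) e s := by
      simpa using ((hasDerivAt_id s).smul_const e).const_add q0
    have a2 : HasDerivAt (fun s : ℝ => q0 + (-s) • e) (-e) s := by
      have := ((hasDerivAt_id s).neg.smul_const e).const_add q0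
      simpa using this
    have b1 := (hδ _ n1).1.hasFDerivAt.comp_hasDerivAt s a1
    have b2 := (hδ _ n2).1.hasFDerivAt.comp_hasDerivAt s a2
    have := b1.sub b2
    rw [map_neg, sub_neg_eq_add] at this
    exact this.hasDerivWithinAt
  have hb : ∀ s ∈ Ico (0:ℝ) t, ‖fderiv ℝ g (q0 + s • e) e + fderiv ℝ g (q0 + (-s) • e) e‖ ≤ 2 * η * t := by
    intro s hs
    have n1 : ‖s • e‖ = s := by
      rw [norm_smul, he, mul_one, Real.norm_eq_abs, abs_of_nonneg hs.1]
    have n2 : ‖(-s) • e‖ = s := by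
      rw [norm_smul, he, mul_one, Real.norm_eq_abs, abs_neg, abs_of_nonneg hs.1]
    have c1 := (hδ (s • e) (by rw [n1]; linarith [hs.2])).2
    have c2 := (hδ ((-s) • e) (by rw [n2]; linarith [hs.2])).2
    rw [n1] at c1
    rw [n2] at c2
    have e1 : fderiv ℝ g (q0 + s • e) e + fderiv ℝ g (q0 + (-s) • e) e =
        (fderiv ℝ g (q0 + s • e) - B (s • e)) e + (fderiv ℝ g (q0 + (-s) • e) - B ((-s) • e)) e := by
      simp
    rw [e1]
    have d1' := ((fderiv ℝ g (q0 + s • e) - B (s • e)).le_opNorm e)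
    have d2' := ((fderiv ℝ g (q0 + (-s) • e) - B ((-s) • e)).le_opNorm e)
    rw [he, mul_one] at d1' d2'
    refine (norm_add_le _ _).trans ?_
    have : η * s ≤ η * t := by gcongr; exact hs.2.le
    linarith
  have := norm_image_sub_le_of_norm_deriv_le_segment' hd hb t ⟨ht.le, le_rfl⟩
  simp only [zero_smul, neg_zero, sub_self, sub_zero] at this
  calc _ ≤ 2 * η * t * t := this
    _ = _ := by ring

/-- near a critical point with nondegenerate second derivative the map is two to one. -/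
theorem two_to_one {g : P → P} {q0 e : P} (he : ‖e‖ = 1) {B : P →L[ℝ] P →L[ℝ] P} (T : P ≃L[ℝ] P)
    (hT : ∀ y, B e y = T y) (hg : ∀ᶠ x in 𝓝 q0, DifferentiableAt ℝ g x) (hg0 : fderiv ℝ g q0 = 0)
    (hB : HasFDerivAt (fderiv ℝ g) B q0) :
    ∃ (c : P) (r : ℝ), 0 < r ∧ ∀ y ∈ Metric.closedBall c r, ∃ x x', x ≠ x' ∧ g x = y ∧ g x' = y := by
  obtain ⟨M, hM0, hM⟩ : ∃ M : ℝ, 0 < M ∧ ∀ y, ‖T.symm y‖ ≤ M * ‖y‖ := by
    refine ⟨‖(T.symm : P →L[ℝ] P)‖ + 1, by positivity, fun y => ?_⟩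
    refine ((T.symm : P →L[ℝ] P).le_opNorm y).trans ?_
    gcongr
    linarith
  set κ : ℝ := min (1/2) (1 / (8 * M * (‖B‖ + 1))) with hκd
  have hκ0 : 0 < κ := by
    rw [hκd]
    refine lt_min (by norm_num) (by positivity)
  have hκ : κ ≤ 1/2 := min_le_left _ _
  have hκ2 : κ ≤ 1 / (8 * M * (‖B‖ + 1)) := min_le_right _ _
  set η : ℝ := κ / (16 * M) with hηd
  have hη : 0 < η := by positivity
  have h1 : ‖B‖ * κ + 2 * η ≤ 1/(4*M) := by
    have a1 : ‖B‖ * κ ≤ 1 / (8 * M) := by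
      calc ‖B‖ * κ ≤ (‖B‖ + 1) * (1 / (8 * M * (‖B‖ + 1))) := by
            gcongr
            linarith
        _ = 1 / (8 * M) := by
            have : ‖B‖ + 1 ≠ 0 := by positivity
            field_simp
    have a2 : 2 * η ≤ 1 / (16 * M) := by
      rw [hηd]
      calc 2 * (κ / (16 * M)) ≤ 2 * ((1/2) / (16 * M)) := by gcongr
        _ = 1 / (16 * M) := by ring
    have a3 : 1 / (8 * M) + 1 / (16 * M) ≤ 1 / (4 * M) := by
      have : 1 / (4 * M) - (1 / (8 * M) + 1 / (16 * M)) = 1 / (16 * M) := by field_simp; norm_num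
      have h : 0 < 1 / (16 * M) := by positivity
      linarith
    linarith
  obtain ⟨δ, hδ0, hδ⟩ : ∃ δ > 0, ∀ h : P, ‖h‖ < δ → DifferentiableAt ℝ g (q0 + h) ∧
      ‖fderiv ℝ g (q0+h) - B h‖ ≤ η * ‖h‖ := by
    have l1 := hB.isLittleO
    have l2 := l1.def hη
    obtain ⟨δ, hδ0, hδ⟩ := Metric.eventually_nhds_iff.1 (hg.and l2)
    refine ⟨δ, hδ0, fun h hh => ?_⟩
    have := hδ (y := q0 + h) (by rw [dist_eq_norm]; simpa using hh)
    rw [hg0] at this
    simpa using this
  set t : ℝ := δ / 4 with ht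
  have ht0 : 0 < t := by positivity
  have ht2 : 2 * t < δ := by rw [ht]; linarith
  have s1 := surj_side he T hT hM hM0 hκ0 hκ hη.le h1 hδ (t := t) ht0.ne' (by rwa [abs_of_pos ht0])
  have s2 := surj_side he T hT hM hM0 hκ0 hκ hη.le h1 hδ (t := -t) (neg_ne_zero.2 ht0.ne')
    (by rwa [abs_neg, abs_of_pos ht0])
  rw [abs_of_pos ht0] at s1
  rw [abs_neg, abs_of_pos ht0, neg_sq] at s2
  have s3 := diff_sq he hη.le hδ ht0 ht2
  refine ⟨g (q0 + t • e), 1/2 * κ / M * t^2, by positivity, fun y hy => ?_⟩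
  have hκM : 0 < κ / M * t ^ 2 := by positivity
  rw [Metric.mem_closedBall, dist_eq_norm] at hy
  obtain ⟨x, hx, hxy⟩ := s1 (a := y) (by
    rw [Metric.mem_closedBall, dist_eq_norm]
    refine hy.trans ?_
    have : 3/4 * κ / M * t^2 - 1/2 * κ / M * t^2 = 1/4 * (κ / M * t ^ 2) := by ring
    linarith)
  obtain ⟨x', hx', hxy'⟩ := s2 (a := y) (by
    rw [Metric.mem_closedBall, dist_eq_norm]
    have e3 : y - g (q0 + (-t) • e) = (y - g (q0 + t • e)) + (g (q0 + t • e) - g (q0 + (-t) • e)) := by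
      abel
    rw [e3]
    refine (norm_add_le _ _).trans ?_
    have e4 : 2 * η * t ^ 2 = 1/8 * (κ / M * t ^ 2) := by rw [hηd]; ring
    have : 3/4 * κ / M * t^2 - 1/2 * κ / M * t^2 = 1/4 * (κ / M * t ^ 2) := by ring
    linarith)
  refine ⟨x, x', ?_, hxy, hxy'⟩
  rintro rfl
  rw [Metric.mem_closedBall, dist_eq_norm] at hx hx'
  have e5 : (2 * t) • e = (x - (q0 + (-t) • e)) - (x - (q0 + t • e)) := by
    rw [two_mul, add_smul, neg_smul]
    abel
  have e6 : ‖(2 * t) • e‖ = 2 * t := by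
    rw [norm_smul, he, mul_one, Real.norm_eq_abs, abs_of_pos (by positivity)]
  have e7 : ‖(2 * t) • e‖ ≤ κ * t + κ * t := by
    rw [e5]
    exact (norm_sub_le _ _).trans (add_le_add hx' hx)
  nlinarith


section basics
variable {E : Type*} [NormedAddCommGroup E] [NormedSpace ℝ E]

theorem d1_d2_comm_at {f : P → E} {x : P} (h : ContDiffAt ℝ 2 f x) : d1 (d2 f) x = d2 (d1 f) x := by
  have hs : IsSymmSndFDerivAt ℝ f x := h.isSymmSndFDerivAt (by simp)
  have hd : DifferentiableAt ℝ (fderiv ℝ f) x :=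
    ((h.fderiv_right (m := 1) (by norm_num)).differentiableAt (by norm_num))
  have e1 : d1 (d2 f) x = fderiv ℝ (fderiv ℝ f) x (1, 0) (0, 1) := by
    have : HasFDerivAt (fun y => fderiv ℝ f y (0, 1))
        ((ContinuousLinearMap.apply ℝ E ((0 : ℝ), (1 : ℝ))).comp (fderiv ℝ (fderiv ℝ f) x)) x :=
      (ContinuousLinearMap.apply ℝ E ((0 : ℝ), (1 : ℝ))).hasFDerivAt.comp x hd.hasFDerivAt
    show fderiv ℝ (fun y => fderiv ℝ f y (0, 1)) x (1, 0) = _
    rw [this.fderiv]; rfl
  have e2 : d2 (d1 f) x = fderiv ℝ (fderiv ℝ f) x (0, 1) (1, 0) := by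
    have : HasFDerivAt (fun y => fderiv ℝ f y (1, 0))
        ((ContinuousLinearMap.apply ℝ E ((1 : ℝ), (0 : ℝ))).comp (fderiv ℝ (fderiv ℝ f) x)) x :=
      (ContinuousLinearMap.apply ℝ E ((1 : ℝ), (0 : ℝ))).hasFDerivAt.comp x hd.hasFDerivAt
    show fderiv ℝ (fun y => fderiv ℝ f y (1, 0)) x (0, 1) = _
    rw [this.fderiv]; rfl
  rw [e1, e2]
  exact hs _ _

theorem cda_d1 {f : P → E} {x : P} {n m : WithTop ℕ∞} (h : ContDiffAt ℝ n f x) (hmn : m + 1 ≤ n) :
    ContDiffAt ℝ m (d1 f) x := (h.fderiv_right hmn).clm_apply contDiffAt_const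

theorem cda_d2 {f : P → E} {x : P} {n m : WithTop ℕ∞} (h : ContDiffAt ℝ n f x) (hmn : m + 1 ≤ n) :
    ContDiffAt ℝ m (d2 f) x := (h.fderiv_right hmn).clm_apply contDiffAt_const

theorem d1_lin {f g : P → ℝ} {x : P} (hf : DifferentiableAt ℝ f x) (hg : DifferentiableAt ℝ g x)
    (a b : ℝ) : d1 (fun y => a * f y + b * g y) x = a * d1 f x + b * d1 g x := by
  have : HasFDerivAt (fun y => a * f y + b * g y) (a • fderiv ℝ f x + b • fderiv ℝ g x) x :=
    (hf.hasFDerivAt.const_mul a).add (hg.hasFDerivAt.const_mul b)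
  show fderiv ℝ (fun y => a * f y + b * g y) x (1, 0) = _
  rw [this.fderiv]
  simp [d1]

theorem d2_lin {f g : P → ℝ} {x : P} (hf : DifferentiableAt ℝ f x) (hg : DifferentiableAt ℝ g x)
    (a b : ℝ) : d2 (fun y => a * f y + b * g y) x = a * d2 f x + b * d2 g x := by
  have : HasFDerivAt (fun y => a * f y + b * g y) (a • fderiv ℝ f x + b • fderiv ℝ g x) x :=
    (hf.hasFDerivAt.const_mul a).add (hg.hasFDerivAt.const_mul b)
  show fderiv ℝ (fun y => a * f y + b * g y) x (0, 1) = _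
  rw [this.fderiv]
  simp [d2]

theorem d1_congr {f g : P → E} {x : P} (h : f =ᶠ[𝓝 x] g) : d1 f x = d1 g x := by
  show fderiv ℝ f x (1, 0) = fderiv ℝ g x (1, 0)
  rw [h.fderiv_eq]

theorem d2_congr {f g : P → E} {x : P} (h : f =ᶠ[𝓝 x] g) : d2 f x = d2 g x := by
  show fderiv ℝ f x (0, 1) = fderiv ℝ g x (0, 1)
  rw [h.fderiv_eq]

theorem ev_diff {f : P → E} {x : P} (h : ContDiffAt ℝ 2 f x) : ∀ᶠ y in 𝓝 x, DifferentiableAt ℝ f y :=
  (h.eventually (by simp)).mono fun _ hy => hy.differentiableAt (by simp)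

theorem d11_lin {f g : P → ℝ} {x : P} (hf : ContDiffAt ℝ 2 f x) (hg : ContDiffAt ℝ 2 g x)
    (a b : ℝ) : d1 (d1 (fun y => a * f y + b * g y)) x = a * d1 (d1 f) x + b * d1 (d1 g) x := by
  have : d1 (fun y => a * f y + b * g y) =ᶠ[𝓝 x] fun y => a * d1 f y + b * d1 g y := by
    filter_upwards [ev_diff hf, ev_diff hg] with y h1 h2
    exact d1_lin h1 h2 a b
  rw [d1_congr this]
  exact d1_lin ((cda_d1 hf (m := 1) (by norm_num)).differentiableAt (by simp))
    ((cda_d1 hg (m := 1) (by norm_num)).differentiableAt (by simp)) a b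

theorem d22_lin {f g : P → ℝ} {x : P} (hf : ContDiffAt ℝ 2 f x) (hg : ContDiffAt ℝ 2 g x)
    (a b : ℝ) : d2 (d2 (fun y => a * f y + b * g y)) x = a * d2 (d2 f) x + b * d2 (d2 g) x := by
  have : d2 (fun y => a * f y + b * g y) =ᶠ[𝓝 x] fun y => a * d2 f y + b * d2 g y := by
    filter_upwards [ev_diff hf, ev_diff hg] with y h1 h2
    exact d2_lin h1 h2 a b
  rw [d2_congr this]
  exact d2_lin ((cda_d2 hf (m := 1) (by norm_num)).differentiableAt (by simp))
    ((cda_d2 hg (m := 1) (by norm_num)).differentiableAt (by simp)) a b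

end basics

/-- Euclidean distance squared -/
def ed (x y : P) : ℝ := (y.1 - x.1) ^ 2 + (y.2 - x.2) ^ 2

theorem continuous_ed (x : P) : Continuous (ed x) := by unfold ed; fun_prop

theorem ed_nonneg (x y : P) : 0 ≤ ed x y := by unfold ed; positivity

theorem isCompact_ed (x : P) {s : Set ℝ} (hs : IsClosed s) {R : ℝ} (hR : ∀ t ∈ s, t ≤ R) :
    IsCompact {y | ed x y ∈ s} := by
  refine Metric.isCompact_of_isClosed_isBounded (hs.preimage (continuous_ed x)) ?_
  refine (Metric.isBounded_closedBall (x := x) (r := R + 1)).subset fun y hy => ?_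
  have h1 : ed x y ≤ R := hR _ hy
  have hR0 : 0 ≤ R := (ed_nonneg x y).trans h1
  unfold ed at h1
  rw [Metric.mem_closedBall, Prod.dist_eq, Real.dist_eq, Real.dist_eq]
  refine max_le ?_ ?_
  · rw [abs_le]
    constructor <;> nlinarith [sq_nonneg (y.2 - x.2), sq_nonneg (y.1 - x.1), sq_nonneg (y.1 - x.1 - 1), sq_nonneg (y.1 - x.1 + 1)]
  · rw [abs_le]
    constructor <;> nlinarith [sq_nonneg (y.2 - x.2), sq_nonneg (y.1 - x.1), sq_nonneg (y.2 - x.2 - 1), sq_nonneg (y.2 - x.2 + 1)]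

theorem frontier_annulus {x : P} {a b : ℝ} {y : P} (hy : y ∈ frontier {y | a < ed x y ∧ ed x y < b}) :
    ed x y = a ∨ ed x y = b := by
  have hO : IsOpen {y | a < ed x y ∧ ed x y < b} :=
    (isOpen_lt continuous_const (continuous_ed x)).inter (isOpen_lt (continuous_ed x) continuous_const)
  have h1 : y ∈ closure {y | a < ed x y ∧ ed x y < b} := frontier_subset_closure hy
  have h2 : y ∉ {y | a < ed x y ∧ ed x y < b} := by
    rw [frontier, hO.interior_eq] at hy
    exact hy.2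
  have h3 : a ≤ ed x y ∧ ed x y ≤ b := by
    have hc : IsClosed {y | a ≤ ed x y ∧ ed x y ≤ b} :=
      (isClosed_le continuous_const (continuous_ed x)).inter (isClosed_le (continuous_ed x) continuous_const)
    exact closure_minimal (t := {y | a ≤ ed x y ∧ ed x y ≤ b})
      (fun z (hz : a < ed x z ∧ ed x z < b) => ⟨hz.1.le, hz.2.le⟩) hc h1
  by_contra hcon
  push Not at hcon
  exact h2 ⟨lt_of_le_of_ne h3.1 (Ne.symm hcon.1), lt_of_le_of_ne h3.2 hcon.2⟩

theorem deriv_nonneg_of {f : ℝ → ℝ} {f' : ℝ} (h : HasDerivAt f f' 0) (h0 : f 0 = 0)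
    (hpos : ∀ s, 0 < s → s ≤ 1/4 → 0 ≤ f s) : 0 ≤ f' := by
  have h1 := (hasDerivWithinAt_iff_tendsto_slope' (s := Ioi (0:ℝ)) (by simp)).1 h.hasDerivWithinAt
  refine ge_of_tendsto h1 ?_
  have : Ioc (0:ℝ) (1/4) ∈ 𝓝[>] (0:ℝ) := Ioc_mem_nhdsGT (by norm_num)
  filter_upwards [this] with s hs
  rw [slope_def_field, h0, sub_zero, sub_zero]
  exact div_nonneg (hpos s hs.1 hs.2) hs.1.le

/-- the barrier -/
noncomputable def bar (x : P) (lam : ℝ) (y : P) : ℝ := Real.exp (-(lam * ed x y))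

theorem contDiff_bar (x : P) (lam : ℝ) : ContDiff ℝ ∞ (bar x lam) := by
  unfold bar ed
  fun_prop

theorem d1_bar (x : P) (lam : ℝ) (y : P) :
    d1 (bar x lam) y = -(2 * lam * (y.1 - x.1)) * bar x lam y := by
  refine d1_eq ((contDiff_bar x lam).differentiable (by simp) y) ?_
  have h1 : HasDerivAt (fun s : ℝ => -(lam * ((s - x.1) ^ 2 + (y.2 - x.2) ^ 2)))
      (-(lam * (2 * (y.1 - x.1)))) y.1 := by
    have := (((((hasDerivAt_id y.1).sub_const x.1).pow 2).add_const ((y.2 - x.2) ^ 2)).const_mul lam).fun_neg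
    simpa using this
  have := h1.exp
  unfold bar ed
  convert this using 1
  ring

theorem d2_bar (x : P) (lam : ℝ) (y : P) :
    d2 (bar x lam) y = -(2 * lam * (y.2 - x.2)) * bar x lam y := by
  refine d2_eq ((contDiff_bar x lam).differentiable (by simp) y) ?_
  have h1 : HasDerivAt (fun s : ℝ => -(lam * ((y.1 - x.1) ^ 2 + (s - x.2) ^ 2)))
      (-(lam * (2 * (y.2 - x.2)))) y.2 := by
    have := (((((hasDerivAt_id y.2).sub_const x.2).pow 2).const_add ((y.1 - x.1) ^ 2)).const_mul lam).fun_neg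
    simpa using this
  have := h1.exp
  unfold bar ed
  convert this using 1
  ring

theorem d11_bar (x : P) (lam : ℝ) (y : P) :
    d1 (d1 (bar x lam)) y = (4 * lam ^ 2 * (y.1 - x.1) ^ 2 - 2 * lam) * bar x lam y := by
  refine d1_eq ((smooth_d1 (contDiff_bar x lam)).differentiable (by simp) y) ?_
  have e : (fun s => d1 (bar x lam) (s, y.2)) = fun s => -(2 * lam * (s - x.1)) * bar x lam (s, y.2) := by
    funext s
    exact d1_bar x lam (s, y.2)
  rw [e]
  have h1 := hasDerivAt_d1 ((contDiff_bar x lam).differentiable (by simp) y)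
  rw [d1_bar] at h1
  have h2 : HasDerivAt (fun s : ℝ => -(2 * lam * (s - x.1))) (-(2 * lam)) y.1 := by
    have := (((hasDerivAt_id y.1).sub_const x.1).const_mul (2 * lam)).fun_neg
    simpa using this
  refine (h2.mul h1).congr_deriv ?_
  ring

theorem d22_bar (x : P) (lam : ℝ) (y : P) :
    d2 (d2 (bar x lam)) y = (4 * lam ^ 2 * (y.2 - x.2) ^ 2 - 2 * lam) * bar x lam y := by
  refine d2_eq ((smooth_d2 (contDiff_bar x lam)).differentiable (by simp) y) ?_
  have e : (fun s => d2 (bar x lam) (y.1, s)) = fun s => -(2 * lam * (s - x.2)) * bar x lam (y.1, s) := by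
    funext s
    exact d2_bar x lam (y.1, s)
  rw [e]
  have h1 := hasDerivAt_d2 ((contDiff_bar x lam).differentiable (by simp) y)
  rw [d2_bar] at h1
  have h2 : HasDerivAt (fun s : ℝ => -(2 * lam * (s - x.2))) (-(2 * lam)) y.2 := by
    have := (((hasDerivAt_id y.2).sub_const x.2).const_mul (2 * lam)).fun_neg
    simpa using this
  refine (h2.mul h1).congr_deriv ?_
  ring

/-- the Hopf boundary point lemma for `Δ + 2 q·∇`. -/
theorem hopf_touch {w : P → ℝ} (hc : Continuous w) {x q0 : P} {R : ℝ} (hR : 0 < R)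
    (h2 : ∀ q, ed x q ≤ R → ContDiffAt ℝ 2 w q)
    (hL : ∀ q, ed x q ≤ R → d1 (d1 w) q + d2 (d2 w) q + 2 * q.1 * d1 w q + 2 * q.2 * d2 w q = 0)
    (hpos : ∀ y, ed x y < R → 0 < w y) (hq : ed x q0 = R) (hq0 : w q0 = 0) :
    d1 w q0 ≠ 0 ∨ d2 w q0 ≠ 0 := by
  by_contra hcon
  push Not at hcon
  obtain ⟨m, hm0, hm⟩ : ∃ m, 0 < m ∧ ∀ y ∈ {y | ed x y ∈ ({R/4} : Set ℝ)}, m ≤ w y := by
    have hK : IsCompact {y | ed x y ∈ ({R/4} : Set ℝ)} :=
      isCompact_ed x isClosed_singleton (R := R/4) (by simp)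
    refine hK.exists_forall_le' (f := w) (a := 0) hc.continuousOn fun y hy => hpos y ?_
    have : ed x y = R/4 := hy
    rw [this]; linarith
  have hnn : ∀ y, ed x y = R → 0 ≤ w y := by
    intro y hy
    have hcont : Continuous fun s : ℝ => w (y + s • (x - y)) := by fun_prop
    have ht : Tendsto (fun s : ℝ => w (y + s • (x - y))) (𝓝[>] 0) (𝓝 (w y)) := by
      have := (hcont.tendsto 0).mono_left (nhdsWithin_le_nhds (s := Ioi (0:ℝ)))
      simpa using this
    refine ge_of_tendsto ht ?_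
    filter_upwards [Ioc_mem_nhdsGT (show (0:ℝ) < 1 by norm_num)] with s hs
    refine (hpos _ ?_).le
    have : ed x (y + s • (x - y)) = (1 - s) ^ 2 * ed x y := by
      unfold ed
      simp
      ring
    rw [this, hy]
    have h7 : (1 - s) ^ 2 < 1 := by nlinarith [hs.1, hs.2]
    nlinarith
  set C : ℝ := (3 * R + (x.1 ^ 2 + x.2 ^ 2)) / 2 with hC
  have hC0 : 0 ≤ C := by positivity
  set lam : ℝ := 4 * (1 + C) / R with hlam
  have hlam0 : 0 < lam := by positivity
  set u : P → ℝ := fun y => m * bar x lam y + (-1) * w y with hu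
  set Ω : Set P := {y | R/4 < ed x y ∧ ed x y < R} with hΩ
  have hO : IsOpen Ω :=
    (isOpen_lt continuous_const (continuous_ed x)).inter (isOpen_lt (continuous_ed x) continuous_const)
  have hbd : Bornology.IsBounded Ω := by
    refine (isCompact_ed x (s := Iic R) isClosed_Iic (R := R) (fun t ht => ht)).isBounded.subset ?_
    intro y hy
    exact hy.2.le
  have hmain : ∀ y ∈ closure Ω, u y ≤ m * Real.exp (-(lam * R)) := by
    refine max_principle hO hbd (a := fun _ => 1) (b := fun _ => 1) (c := fun y => 2 * y.1)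
      (d := fun y => 2 * y.2) x ?_ ?_ ?_ continuous_const continuous_const (by fun_prop) (by fun_prop)
      (by simp) (by simp) ?_ ?_
    · have := (contDiff_bar x lam).continuous
      exact (by fun_prop : Continuous u).continuousOn
    · intro y hy _
      have h3 := h2 y hy.2.le
      have h4 : ContDiffAt ℝ 2 (bar x lam) y := ContDiff.contDiffAt (by exact_mod_cast contDiff_infty.1 (contDiff_bar x lam) 2)
      exact (contDiffAt_const.mul h4).add (contDiffAt_const.mul h3)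
    · intro hx
      exfalso
      have := hx.1
      have h0 : ed x x = 0 := by simp [ed]
      rw [h0] at this
      linarith
    · intro y hy _
      have h3 := h2 y hy.2.le
      have h4 : ContDiffAt ℝ 2 (bar x lam) y := ContDiff.contDiffAt (by exact_mod_cast contDiff_infty.1 (contDiff_bar x lam) 2)
      have h5 := h3.differentiableAt (by simp)
      have h6 := h4.differentiableAt (by simp)
      have hl := hL y hy.2.le
      rw [hu, d11_lin h4 h3, d22_lin h4 h3, d1_lin h6 h5, d2_lin h6 h5, d11_bar, d22_bar, d1_bar, d2_bar]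
      have e1 : (1:ℝ) * (m * ((4 * lam ^ 2 * (y.1 - x.1) ^ 2 - 2 * lam) * bar x lam y) + -1 * d1 (d1 w) y) +
          1 * (m * ((4 * lam ^ 2 * (y.2 - x.2) ^ 2 - 2 * lam) * bar x lam y) + -1 * d2 (d2 w) y) +
          2 * y.1 * (m * (-(2 * lam * (y.1 - x.1)) * bar x lam y) + -1 * d1 w y) +
          2 * y.2 * (m * (-(2 * lam * (y.2 - x.2)) * bar x lam y) + -1 * d2 w y) =
          4 * m * lam * bar x lam y * (lam * ed x y - 1 - (y.1 * (y.1 - x.1) + y.2 * (y.2 - x.2))) -
          (d1 (d1 w) y + d2 (d2 w) y + 2 * y.1 * d1 w y + 2 * y.2 * d2 w y) := by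
        unfold ed; ring
      rw [e1, hl, sub_zero]
      have hb : 0 < bar x lam y := Real.exp_pos _
      have h7 : 1 + C ≤ lam * ed x y := by
        have : lam * (R/4) = 1 + C := by rw [hlam]; field_simp
        rw [← this]
        gcongr
        exact hy.1.le
      have h8 : y.1 * (y.1 - x.1) + y.2 * (y.2 - x.2) ≤ C := by
        have h9 : (y.1 - x.1) ^ 2 + (y.2 - x.2) ^ 2 ≤ R := hy.2.le
        rw [hC]
        nlinarith [sq_nonneg (y.1 - x.1 - x.1), sq_nonneg (y.2 - x.2 - x.2)]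
      have : 0 ≤ lam * ed x y - 1 - (y.1 * (y.1 - x.1) + y.2 * (y.2 - x.2)) := by linarith
      positivity
    · intro y hy
      rcases frontier_annulus hy with h | h
      · have h3 := hm y h
        have h4 : bar x lam y ≤ 1 := by
          unfold bar
          rw [Real.exp_le_one_iff]
          have := ed_nonneg x y
          have : 0 ≤ lam * ed x y := by positivity
          linarith
        have h5 : 0 < m * Real.exp (-(lam * R)) := by positivity
        have h6 : m * bar x lam y ≤ m * 1 := by gcongr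
        show m * bar x lam y + (-1) * w y ≤ _
        linarith
      · have h3 := hnn y h
        show m * bar x lam y + (-1) * w y ≤ _
        have h4 : bar x lam y = Real.exp (-(lam * R)) := by unfold bar; rw [h]
        rw [h4]
        linarith
  have hwd : HasFDerivAt w (fderiv ℝ w q0) q0 := ((h2 q0 hq.le).differentiableAt (by simp)).hasFDerivAt
  have hline : HasDerivAt (fun s : ℝ => q0 + s • (x - q0)) (x - q0) 0 := by
    simpa using ((hasDerivAt_id (0:ℝ)).smul_const (x - q0)).const_add q0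
  have hφ : HasDerivAt (fun s : ℝ => w (q0 + s • (x - q0))) 0 0 := by
    have hwd' : HasFDerivAt w (fderiv ℝ w q0) (q0 + (0:ℝ) • (x - q0)) := by simpa using hwd
    have := hwd'.comp_hasDerivAt (0:ℝ) hline
    have e : fderiv ℝ w q0 (x - q0) = 0 := by
      rw [fderiv_apply_eq, hcon.1, hcon.2]
      simp
    rw [e] at this
    exact this
  have hψ : HasDerivAt (fun s : ℝ => m * (Real.exp (-(lam * ((1 - s) ^ 2 * R))) - Real.exp (-(lam * R))))
      (m * (2 * lam * R * Real.exp (-(lam * R)))) 0 := by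
    have h1 : HasDerivAt (fun s : ℝ => -(lam * ((1 - s) ^ 2 * R))) (2 * lam * R) 0 := by
      have := (((((hasDerivAt_id (0:ℝ)).const_sub 1).pow 2).mul_const R).const_mul lam).fun_neg
      refine this.congr_deriv ?_
      simp
      ring
    have := ((h1.exp).sub_const (Real.exp (-(lam * R)))).const_mul m
    refine this.congr_deriv ?_
    have e : (1 - (0:ℝ)) ^ 2 * R = R := by ring
    rw [e]
    ring
  have hfin := deriv_nonneg_of (hφ.sub hψ) (by simp [hq0]) (by
    intro s hs0 hs1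
    have e1 : ed x (q0 + s • (x - q0)) = (1 - s) ^ 2 * R := by
      rw [← hq]
      unfold ed
      simp
      ring
    have hmem : q0 + s • (x - q0) ∈ closure Ω := by
      apply subset_closure
      refine ⟨?_, ?_⟩
      · rw [e1]
        have h7 : 1/2 ≤ (1 - s) ^ 2 := by nlinarith
        nlinarith
      · rw [e1]
        have h7 : (1 - s) ^ 2 < 1 := by nlinarith
        nlinarith
    have := hmain _ hmem
    show 0 ≤ w (q0 + s • (x - q0)) - m * (Real.exp (-(lam * ((1 - s) ^ 2 * R))) - Real.exp (-(lam * R)))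
    have e2 : u (q0 + s • (x - q0)) = m * Real.exp (-(lam * ((1 - s) ^ 2 * R))) + (-1) * w (q0 + s • (x - q0)) := by
      show m * bar x lam _ + (-1) * w _ = _
      unfold bar
      rw [e1]
    rw [e2] at this
    linarith)
  have : 0 < m * (2 * lam * R * Real.exp (-(lam * R))) := by positivity
  linarith

theorem ed_zero_pos {y : P} (hy : y ≠ 0) : 0 < ed 0 y := by
  have : y.1 ≠ 0 ∨ y.2 ≠ 0 := by
    by_contra h
    push Not at h
    exact hy (Prod.ext h.1 h.2)
  unfold ed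
  simp only [Prod.fst_zero, Prod.snd_zero, sub_zero]
  rcases this with h | h <;> positivity

theorem ed_zero_ne {y : P} (hy : 0 < ed 0 y) : y ≠ 0 := by
  rintro rfl
  simp [ed] at hy

noncomputable def lg (y : P) : ℝ := Real.log (ed 0 y)

theorem cda_lg {y : P} (hy : y ≠ 0) : ContDiffAt ℝ ∞ lg y := by
  have h1 : ContDiff ℝ ∞ (ed 0) := by unfold ed; fun_prop
  exact h1.contDiffAt.log (ed_zero_pos hy).ne'

theorem cda_lg2 {y : P} (hy : y ≠ 0) : ContDiffAt ℝ 2 lg y := by
  have h1 : ContDiff ℝ 2 (ed 0) := by unfold ed; fun_prop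
  exact h1.contDiffAt.log (ed_zero_pos hy).ne'

theorem d1_lg {y : P} (hy : y ≠ 0) : d1 lg y = 2 * y.1 / ed 0 y := by
  refine d1_eq ((cda_lg hy).differentiableAt (by simp)) ?_
  have h1 : HasDerivAt (fun s : ℝ => ed 0 (s, y.2)) (2 * y.1) y.1 := by
    have := (((hasDerivAt_id y.1).pow 2).add_const (y.2 ^ 2))
    unfold ed
    simp only [Prod.fst_zero, Prod.snd_zero, sub_zero]
    refine this.congr_deriv ?_
    simp
  exact h1.log (ed_zero_pos hy).ne'

theorem d2_lg {y : P} (hy : y ≠ 0) : d2 lg y = 2 * y.2 / ed 0 y := by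
  refine d2_eq ((cda_lg hy).differentiableAt (by simp)) ?_
  have h1 : HasDerivAt (fun s : ℝ => ed 0 (y.1, s)) (2 * y.2) y.2 := by
    have := (((hasDerivAt_id y.2).pow 2).const_add (y.1 ^ 2))
    unfold ed
    simp only [Prod.fst_zero, Prod.snd_zero, sub_zero]
    refine this.congr_deriv ?_
    simp
  exact h1.log (ed_zero_pos hy).ne'

theorem ev_ne {y : P} (hy : y ≠ 0) : ∀ᶠ z in 𝓝 y, z ≠ 0 := isOpen_ne.mem_nhds hy

theorem d11_lg {y : P} (hy : y ≠ 0) :
    d1 (d1 lg) y = 2 / ed 0 y - 4 * y.1 ^ 2 / (ed 0 y) ^ 2 := by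
  have h0 : ContDiffAt ℝ 2 lg y := cda_lg2 hy
  refine d1_eq ((cda_d1 h0 (m := 1) (by norm_num)).differentiableAt (by simp)) ?_
  have hc : Continuous fun t : ℝ => ((t, y.2) : P) := by fun_prop
  have e : (fun s => d1 lg (s, y.2)) =ᶠ[𝓝 y.1] fun s => 2 * s / ed 0 (s, y.2) := by
    have := (hc.tendsto y.1).eventually (ev_ne hy)
    filter_upwards [this] with s hs
    exact d1_lg hs
  refine HasDerivAt.congr_of_eventuallyEq ?_ e
  have h1 : HasDerivAt (fun s : ℝ => ed 0 (s, y.2)) (2 * y.1) y.1 := by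
    have := (((hasDerivAt_id y.1).pow 2).add_const (y.2 ^ 2))
    unfold ed
    simp only [Prod.fst_zero, Prod.snd_zero, sub_zero]
    refine this.congr_deriv ?_
    simp
  have h2 : HasDerivAt (fun s : ℝ => 2 * s) 2 y.1 := by simpa using (hasDerivAt_id y.1).const_mul 2
  have hp := (ed_zero_pos hy).ne'
  refine (h2.div h1 hp).congr_deriv ?_
  field_simp
  ring

theorem d22_lg {y : P} (hy : y ≠ 0) :
    d2 (d2 lg) y = 2 / ed 0 y - 4 * y.2 ^ 2 / (ed 0 y) ^ 2 := by
  have h0 : ContDiffAt ℝ 2 lg y := cda_lg2 hy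
  refine d2_eq ((cda_d2 h0 (m := 1) (by norm_num)).differentiableAt (by simp)) ?_
  have hc : Continuous fun t : ℝ => ((y.1, t) : P) := by fun_prop
  have e : (fun s => d2 lg (y.1, s)) =ᶠ[𝓝 y.2] fun s => 2 * s / ed 0 (y.1, s) := by
    have := (hc.tendsto y.2).eventually (ev_ne hy)
    filter_upwards [this] with s hs
    exact d2_lg hs
  refine HasDerivAt.congr_of_eventuallyEq ?_ e
  have h1 : HasDerivAt (fun s : ℝ => ed 0 (y.1, s)) (2 * y.2) y.2 := by
    have := (((hasDerivAt_id y.2).pow 2).const_add (y.1 ^ 2))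
    unfold ed
    simp only [Prod.fst_zero, Prod.snd_zero, sub_zero]
    refine this.congr_deriv ?_
    simp
  have h2 : HasDerivAt (fun s : ℝ => 2 * s) 2 y.2 := by simpa using (hasDerivAt_id y.2).const_mul 2
  have hp := (ed_zero_pos hy).ne'
  refine (h2.div h1 hp).congr_deriv ?_
  field_simp
  ring

theorem no_isolated_zero {w : P → ℝ} (hc : Continuous w) (h2 : ∀ q, q ≠ 0 → ContDiffAt ℝ 2 w q)
    (hL : ∀ q : P, q ≠ 0 → d1 (d1 w) q + d2 (d2 w) q + 2 * q.1 * d1 w q + 2 * q.2 * d2 w q = 0)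
    (hpos : ∀ y, y ≠ 0 → 0 < w y) : 0 < w 0 := by
  by_contra hcon
  push Not at hcon
  obtain ⟨m, hm0, hm⟩ : ∃ m, 0 < m ∧ ∀ y ∈ {y | ed 0 y ∈ ({1} : Set ℝ)}, m ≤ w y := by
    have hK : IsCompact {y | ed 0 y ∈ ({1} : Set ℝ)} :=
      isCompact_ed 0 isClosed_singleton (R := 1) (by simp)
    refine hK.exists_forall_le' (f := w) (a := 0) hc.continuousOn fun y hy => hpos y ?_
    have : ed 0 y = 1 := hy
    exact ed_zero_ne (by rw [this]; norm_num)
  obtain ⟨q, hq0, hq1, hq2⟩ : ∃ q : P, q ≠ 0 ∧ ed 0 q < 1 ∧ w q < m / 2 := by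
    have h1 : ∀ᶠ q in 𝓝 (0 : P), w q < m / 2 := hc.continuousAt.eventually_lt_const (by linarith)
    have h3 : ∀ᶠ q in 𝓝 (0 : P), ed 0 q < 1 := by
      refine (continuous_ed 0).continuousAt.eventually_lt_const ?_
      simp [ed]
    have h4 : ∀ᶠ q in 𝓝[≠] (0 : P), q ≠ 0 ∧ ed 0 q < 1 ∧ w q < m / 2 := by
      filter_upwards [self_mem_nhdsWithin, mem_nhdsWithin_of_mem_nhds h1,
        mem_nhdsWithin_of_mem_nhds h3] with q a b c
      exact ⟨a, c, b⟩
    exact h4.exists
  have hqp := ed_zero_pos hq0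
  set L : ℝ := -Real.log (ed 0 q) with hLd
  have hL0 : 0 < L := by
    rw [hLd]
    have := Real.log_neg hqp hq1
    linarith
  set ε : ℝ := m / (4 * L) with hε
  have hε0 : 0 < ε := by positivity
  set ρ : ℝ := min (ed 0 q / 2) (Real.exp (-(m / ε))) with hρ
  have hρ0 : 0 < ρ := lt_min (by positivity) (Real.exp_pos _)
  have hρ1 : ρ < ed 0 q := lt_of_le_of_lt (min_le_left _ _) (by linarith)
  have hρ2 : ε * Real.log ρ ≤ -m := by
    have h1 : Real.log ρ ≤ -(m / ε) := by
      rw [Real.log_le_iff_le_exp hρ0]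
      exact min_le_right _ _
    calc ε * Real.log ρ ≤ ε * (-(m / ε)) := by gcongr
      _ = -m := by field_simp
  set u : P → ℝ := fun y => ε * lg y + (-1) * w y with hu
  set Ω : Set P := {y | ρ < ed 0 y ∧ ed 0 y < 1} with hΩ
  have hO : IsOpen Ω :=
    (isOpen_lt continuous_const (continuous_ed 0)).inter (isOpen_lt (continuous_ed 0) continuous_const)
  have hbd : Bornology.IsBounded Ω := by
    refine (isCompact_ed 0 (s := Iic 1) isClosed_Iic (R := 1) (fun t ht => ht)).isBounded.subset ?_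
    intro y hy
    exact hy.2.le
  have hmain : ∀ y ∈ closure Ω, u y ≤ -m := by
    refine max_principle hO hbd (a := fun _ => 1) (b := fun _ => 1) (c := fun y => 2 * y.1)
      (d := fun y => 2 * y.2) 0 ?_ ?_ ?_ continuous_const continuous_const (by fun_prop) (by fun_prop)
      (by simp) (by simp) ?_ ?_
    · intro y hy
      have hy1 : ρ ≤ ed 0 y := by
        have hcl : IsClosed {y | ρ ≤ ed 0 y} := isClosed_le continuous_const (continuous_ed 0)
        exact closure_minimal (t := {y | ρ ≤ ed 0 y}) (fun z (hz : ρ < ed 0 z ∧ ed 0 z < 1) => hz.1.le) hcl hy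
      have hy0 : y ≠ 0 := ed_zero_ne (lt_of_lt_of_le hρ0 hy1)
      have h5 : ContinuousAt u y :=
        (continuousAt_const.mul (cda_lg hy0).continuousAt).add (continuousAt_const.mul hc.continuousAt)
      exact h5.continuousWithinAt
    · intro y hy hy0
      have h4 : ContDiffAt ℝ 2 lg y := cda_lg2 hy0
      exact (contDiffAt_const.mul h4).add (contDiffAt_const.mul (h2 y hy0))
    · intro hx
      exfalso
      have := hx.1
      have h0 : ed 0 (0 : P) = 0 := by simp [ed]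
      rw [h0] at this
      linarith
    · intro y hy hy0
      have h3 := h2 y hy0
      have h4 : ContDiffAt ℝ 2 lg y := cda_lg2 hy0
      have h5 := h3.differentiableAt (by simp)
      have h6 := h4.differentiableAt (by simp)
      have hl := hL y hy0
      have hp := ed_zero_pos hy0
      rw [hu, d11_lin h4 h3, d22_lin h4 h3, d1_lin h6 h5, d2_lin h6 h5, d11_lg hy0, d22_lg hy0,
        d1_lg hy0, d2_lg hy0]
      have e0 : y.1 ^ 2 + y.2 ^ 2 = ed 0 y := by simp [ed]
      have e2 : 4 * y.1 ^ 2 / (ed 0 y) ^ 2 + 4 * y.2 ^ 2 / (ed 0 y) ^ 2 = 4 / ed 0 y := by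
        rw [← add_div, ← mul_add, e0]
        field_simp
      have e3 : 2 * y.1 * (2 * y.1 / ed 0 y) + 2 * y.2 * (2 * y.2 / ed 0 y) = 4 := by
        have : 2 * y.1 * (2 * y.1 / ed 0 y) + 2 * y.2 * (2 * y.2 / ed 0 y) = 4 * (y.1 ^ 2 + y.2 ^ 2) / ed 0 y := by ring
        rw [this, e0]
        field_simp
      have e1 : (1:ℝ) * (ε * (2 / ed 0 y - 4 * y.1 ^ 2 / (ed 0 y) ^ 2) + -1 * d1 (d1 w) y) +
          1 * (ε * (2 / ed 0 y - 4 * y.2 ^ 2 / (ed 0 y) ^ 2) + -1 * d2 (d2 w) y) +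
          2 * y.1 * (ε * (2 * y.1 / ed 0 y) + -1 * d1 w y) +
          2 * y.2 * (ε * (2 * y.2 / ed 0 y) + -1 * d2 w y) =
          ε * (4 / ed 0 y - (4 * y.1 ^ 2 / (ed 0 y) ^ 2 + 4 * y.2 ^ 2 / (ed 0 y) ^ 2)) +
          ε * (2 * y.1 * (2 * y.1 / ed 0 y) + 2 * y.2 * (2 * y.2 / ed 0 y)) -
          (d1 (d1 w) y + d2 (d2 w) y + 2 * y.1 * d1 w y + 2 * y.2 * d2 w y) := by
        ring
      rw [e1, hl, e2, e3]
      linarith
    · intro y hy
      rcases frontier_annulus hy with h | h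
      · have hy0 : y ≠ 0 := ed_zero_ne (by rw [h]; exact hρ0)
        have h3 := hpos y hy0
        show ε * Real.log (ed 0 y) + (-1) * w y ≤ _
        rw [h]
        linarith
      · have h3 := hm y h
        show ε * Real.log (ed 0 y) + (-1) * w y ≤ _
        rw [h, Real.log_one]
        linarith
  have h7 := hmain q (subset_closure ⟨hρ1, hq1⟩)
  have h8 : ε * Real.log (ed 0 q) = -(m / 4) := by
    have : Real.log (ed 0 q) = -L := by rw [hLd]; ring
    rw [this, hε]
    field_simp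
  have h9 : u q = -(m/4) + (-1) * w q := by
    show ε * Real.log (ed 0 q) + (-1) * w q = _
    rw [h8]
  rw [h9] at h7
  linarith

/-- a sign changing solution of `Δw + 2 q·∇w = 0` has a nondegenerate zero away from the origin. -/
theorem hopf_point {w : P → ℝ} (hc : Continuous w) (h2 : ∀ q, q ≠ 0 → ContDiffAt ℝ 2 w q)
    (hL : ∀ q : P, q ≠ 0 → d1 (d1 w) q + d2 (d2 w) q + 2 * q.1 * d1 w q + 2 * q.2 * d2 w q = 0)
    {z y : P} (hz : w z = 0) (hy : 0 < w y) :
    ∃ q0, q0 ≠ 0 ∧ w q0 = 0 ∧ (d1 w q0 ≠ 0 ∨ d2 w q0 ≠ 0) := by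
  set O : Set P := {q | 0 < w q} with hO
  have hOo : IsOpen O := isOpen_lt continuous_const hc
  have hyO : y ∈ O := hy
  -- a boundary point different from 0
  obtain ⟨p, hpc, hpO, hp0⟩ : ∃ p, p ∈ closure O ∧ p ∉ O ∧ p ≠ 0 := by
    by_contra hcon
    push Not at hcon
    have hS : IsPreconnected ({0}ᶜ : Set P) := by
      have hr : 1 < Module.rank ℝ P := by
        rw [rank_prod']
        simp
        norm_num
      exact (isConnected_compl_singleton_of_one_lt_rank hr 0).isPreconnected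
    have hsub : ({0}ᶜ : Set P) ⊆ O := by
      have h1 := isPreconnected_iff_subset_of_disjoint.1 hS O (closure O)ᶜ hOo isClosed_closure.isOpen_compl
      have h3 := h1 (by
        intro q hq
        by_cases hqc : q ∈ closure O
        · left
          by_contra hqO
          exact hq (hcon q hqc hqO)
        · right; exact hqc) (by
        ext q
        simp only [mem_inter_iff, mem_compl_iff, mem_empty_iff_false, iff_false]
        rintro ⟨-, ha, hb⟩
        exact hb (subset_closure ha))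
      rcases h3 with h3 | h3
      · exact h3
      · exfalso
        -- O is open and nonempty, it contains a point different from 0
        have h4 : ∀ᶠ q in 𝓝[≠] y, q ∈ O := mem_nhdsWithin_of_mem_nhds (hOo.mem_nhds hyO)
        by_cases hy0 : y = 0
        · subst hy0
          have h5 : ∀ᶠ q in 𝓝[≠] (0 : P), q ∈ O ∧ q ≠ 0 := by
            filter_upwards [h4, self_mem_nhdsWithin] with q a b
            exact ⟨a, b⟩
          obtain ⟨q, hqO, hq0⟩ := h5.exists
          exact h3 hq0 (subset_closure hqO)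
        · exact h3 (by simpa using hy0) (subset_closure hyO)
    have h5 := no_isolated_zero hc h2 hL fun q hq => hsub (by simpa using hq)
    by_cases hz0 : z = 0
    · rw [hz0] at hz; linarith
    · have : 0 < w z := hsub (by simpa using hz0)
      linarith
  -- a nearby point of O
  have hpp := ed_zero_pos hp0
  obtain ⟨x, hxO, hxp⟩ : ∃ x, x ∈ O ∧ ed x p < ed 0 p / 16 := by
    have h1 : ∀ᶠ x in 𝓝 p, ed x p < ed 0 p / 16 := by
      have hcont : Continuous fun x => ed x p := by unfold ed; fun_prop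
      refine hcont.continuousAt.eventually_lt_const ?_
      simp only [ed, sub_self] at hpp ⊢
      simpa using hpp
    obtain ⟨x, hx1, hx2⟩ := (mem_closure_iff_frequently.1 hpc).and_eventually h1 |>.exists
    exact ⟨x, hx1, hx2⟩
  -- closest point of the complement
  obtain ⟨q0, ⟨hq0O, hq0p⟩, hmin⟩ : ∃ q0 ∈ Oᶜ ∩ {q | ed x q ∈ Iic (ed x p)},
      ∀ q ∈ Oᶜ ∩ {q | ed x q ∈ Iic (ed x p)}, ed x q0 ≤ ed x q := by
    have hK : IsCompact (Oᶜ ∩ {q | ed x q ∈ Iic (ed x p)}) :=
      (isCompact_ed x isClosed_Iic (R := ed x p) (fun t ht => ht)).inter_left hOo.isClosed_compl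
    obtain ⟨q0, hq0, hmin⟩ := hK.exists_isMinOn ⟨p, hpO, (le_refl (ed x p) : ed x p ≤ ed x p)⟩ (continuous_ed x).continuousOn
    exact ⟨q0, hq0, fun q hq => hmin hq⟩
  have hR0 : 0 < ed x q0 := by
    rcases (ed_nonneg x q0).lt_or_eq with h | h
    · exact h
    · exfalso
      have : q0 = x := by
        have h6 : (q0.1 - x.1) ^ 2 + (q0.2 - x.2) ^ 2 = 0 := h.symm
        have h7 : q0.1 - x.1 = 0 := by nlinarith [sq_nonneg (q0.1 - x.1), sq_nonneg (q0.2 - x.2)]
        have h8 : q0.2 - x.2 = 0 := by nlinarith [sq_nonneg (q0.1 - x.1), sq_nonneg (q0.2 - x.2)]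
        exact Prod.ext (by linarith) (by linarith)
      rw [this] at hq0O
      exact hq0O hxO
  have hlt : ∀ q, ed x q < ed x q0 → 0 < w q := by
    intro q hq
    by_contra hqO
    have := hmin q ⟨hqO, (hq.le.trans hq0p)⟩
    linarith
  have hne0 : ∀ q, ed x q ≤ ed x q0 → q ≠ 0 := by
    rintro q hq rfl
    have h6 : ed x 0 < ed 0 p / 16 := lt_of_le_of_lt (hq.trans hq0p) hxp
    unfold ed at h6 hxp hpp
    simp only [Prod.fst_zero, Prod.snd_zero, sub_zero, zero_sub] at h6 hxp hpp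
    nlinarith [sq_nonneg (p.1 - x.1 - x.1), sq_nonneg (p.2 - x.2 - x.2),
      sq_nonneg (p.1 - 2 * x.1), sq_nonneg (p.2 - 2 * x.2)]
  have hq00 : q0 ≠ 0 := hne0 q0 le_rfl
  have hwq0 : w q0 = 0 := by
    refine le_antisymm (not_lt.1 hq0O) ?_
    have hcont : Continuous fun s : ℝ => w (q0 + s • (x - q0)) := by fun_prop
    have ht : Tendsto (fun s : ℝ => w (q0 + s • (x - q0))) (𝓝[>] 0) (𝓝 (w q0)) := by
      have := (hcont.tendsto 0).mono_left (nhdsWithin_le_nhds (s := Ioi (0:ℝ)))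
      simpa using this
    refine ge_of_tendsto ht ?_
    filter_upwards [Ioc_mem_nhdsGT (show (0:ℝ) < 1 by norm_num)] with s hs
    refine (hlt _ ?_).le
    have : ed x (q0 + s • (x - q0)) = (1 - s) ^ 2 * ed x q0 := by
      unfold ed
      simp
      ring
    rw [this]
    have h7 : (1 - s) ^ 2 < 1 := by nlinarith [hs.1, hs.2]
    nlinarith
  exact ⟨q0, hq00, hwq0, hopf_touch hc hR0 (fun q hq => h2 q (hne0 q hq))
    (fun q hq => hL q (hne0 q hq)) hlt rfl hwq0⟩

end Pool.Agent.EU.PosTwo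

namespace Pool.Agent.EU

namespace PosTwo

/-- the conclusion of module DEGB -/
def DegBdd : Prop := ∀ b : P → P, ContDiff ℝ 1 b → (∃ C, ∀ x, ‖b x‖ ≤ C) →
  ∀ ρ : P → ℝ, Continuous ρ → HasCompactSupport ρ →
    ∫ x, ρ (x + b x) * (fderiv ℝ (fun x => x + b x) x).det = ∫ x, ρ x

/-- `G t = ∫₀ᵗ exp(-s²) ds` -/
noncomputable def Gf (t : ℝ) : ℝ := ∫ s in (0:ℝ)..t, Real.exp (-(s ^ 2))

theorem hasDerivAt_Gf (t : ℝ) : HasDerivAt Gf (Real.exp (-(t ^ 2))) t := by
  have hc : Continuous fun s : ℝ => Real.exp (-(s ^ 2)) := by fun_prop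
  exact intervalIntegral.integral_hasDerivAt_right (hc.intervalIntegrable _ _)
    hc.aestronglyMeasurable.stronglyMeasurableAtFilter hc.continuousAt

theorem contDiff_Gf : ContDiff ℝ ∞ Gf := by
  rw [contDiff_infty_iff_deriv]
  refine ⟨fun t => (hasDerivAt_Gf t).differentiableAt, ?_⟩
  have : deriv Gf = fun t => Real.exp (-(t ^ 2)) := by
    funext t
    exact (hasDerivAt_Gf t).deriv
  rw [this]
  fun_prop

theorem Gf_bdd : ∃ C, ∀ t, |Gf t| ≤ C := by
  refine ⟨∫ s : ℝ, Real.exp (-(s ^ 2)), fun t => ?_⟩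
  have hint : Integrable fun s : ℝ => Real.exp (-(s ^ 2)) := by
    have := integrable_exp_neg_mul_sq (b := 1) one_pos
    simpa using this
  have h1 := intervalIntegral.norm_integral_le_integral_norm_uIoc (a := 0) (b := t)
    (f := fun s : ℝ => Real.exp (-(s ^ 2))) (μ := volume)
  have h2 : ∫ s in Set.uIoc (0:ℝ) t, ‖Real.exp (-(s ^ 2))‖ ≤ ∫ s : ℝ, Real.exp (-(s ^ 2)) := by
    have e : (fun s : ℝ => ‖Real.exp (-(s ^ 2))‖) = fun s => Real.exp (-(s ^ 2)) := by
      funext s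
      rw [Real.norm_eq_abs, abs_of_pos (Real.exp_pos _)]
    rw [e]
    exact setIntegral_le_integral hint (Eventually.of_forall fun s => (Real.exp_pos _).le)
  exact h1.trans h2

theorem d1_mul {f g : P → ℝ} {x : P} (hf : DifferentiableAt ℝ f x) (hg : DifferentiableAt ℝ g x) :
    d1 (fun y => f y * g y) x = d1 f x * g x + f x * d1 g x := by
  refine d1_eq (hf.mul hg) ?_
  exact (hasDerivAt_d1 hf).mul (hasDerivAt_d1 hg)

theorem d2_mul {f g : P → ℝ} {x : P} (hf : DifferentiableAt ℝ f x) (hg : DifferentiableAt ℝ g x) :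
    d2 (fun y => f y * g y) x = d2 f x * g x + f x * d2 g x := by
  refine d2_eq (hf.mul hg) ?_
  exact (hasDerivAt_d2 hf).mul (hasDerivAt_d2 hg)

theorem fst_d1 {f : P → P} {x : P} (hf : DifferentiableAt ℝ f x) :
    (d1 f x).1 = d1 (fun q => (f q).1) x := by
  unfold d1
  rw [fderiv.fst hf]
  rfl

theorem snd_d1 {f : P → P} {x : P} (hf : DifferentiableAt ℝ f x) :
    (d1 f x).2 = d1 (fun q => (f q).2) x := by
  unfold d1
  rw [fderiv.snd hf]
  rfl

theorem fst_d2 {f : P → P} {x : P} (hf : DifferentiableAt ℝ f x) :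
    (d2 f x).1 = d2 (fun q => (f q).1) x := by
  unfold d2
  rw [fderiv.fst hf]
  rfl

theorem snd_d2 {f : P → P} {x : P} (hf : DifferentiableAt ℝ f x) :
    (d2 f x).2 = d2 (fun q => (f q).2) x := by
  unfold d2
  rw [fderiv.snd hf]
  rfl

/-- the weight `e^{-H}` -/
noncomputable def wt (h0 : ℝ) (q : P) : ℝ := Real.exp (-(h0 + q.1 ^ 2 - q.2 ^ 2))

theorem contDiff_wt (h0 : ℝ) : ContDiff ℝ ∞ (wt h0) := by unfold wt; fun_prop

theorem d1_wt (h0 : ℝ) (q : P) : d1 (wt h0) q = -(2 * q.1) * wt h0 q := by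
  refine d1_eq ((contDiff_wt h0).differentiable (by simp) q) ?_
  have h1 : HasDerivAt (fun s : ℝ => -(h0 + s ^ 2 - q.2 ^ 2)) (-(2 * q.1)) q.1 := by
    have := ((((hasDerivAt_id q.1).pow 2).const_add h0).sub_const (q.2 ^ 2)).fun_neg
    refine this.congr_deriv ?_
    simp
  refine h1.exp.congr_deriv ?_
  unfold wt
  ring

theorem d2_wt (h0 : ℝ) (q : P) : d2 (wt h0) q = 2 * q.2 * wt h0 q := by
  refine d2_eq ((contDiff_wt h0).differentiable (by simp) q) ?_
  have h1 : HasDerivAt (fun s : ℝ => -(h0 + q.1 ^ 2 - s ^ 2)) (2 * q.2) q.2 := by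
    have := (((hasDerivAt_id q.2).pow 2).const_sub (h0 + q.1 ^ 2)).fun_neg
    refine this.congr_deriv ?_
    simp
  refine h1.exp.congr_deriv ?_
  unfold wt
  ring

noncomputable def ex (q : P) : ℝ := Real.exp (-(q.1 ^ 2))

theorem contDiff_ex : ContDiff ℝ ∞ ex := by unfold ex; fun_prop

theorem d1_ex (q : P) : d1 ex q = -(2 * q.1) * ex q := by
  refine d1_eq (contDiff_ex.differentiable (by simp) q) ?_
  have h1 : HasDerivAt (fun s : ℝ => -(s ^ 2)) (-(2 * q.1)) q.1 := by
    have := (((hasDerivAt_id q.1).pow 2)).fun_neg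
    refine this.congr_deriv ?_
    simp
  refine h1.exp.congr_deriv ?_
  unfold ex
  ring

theorem d2_ex (q : P) : d2 ex q = 0 := by
  refine d2_eq (contDiff_ex.differentiable (by simp) q) ?_
  exact hasDerivAt_const q.2 (Real.exp (-(q.1 ^ 2)))

section sys
variable {X Y : P → ℝ} {h0 : ℝ}

theorem pde_X (hX : ∀ q, q ≠ 0 → ContDiffAt ℝ ∞ X q) (hY : ∀ q, q ≠ 0 → ContDiffAt ℝ ∞ Y q)
    (h1 : ∀ q : P, d1 Y q = -(wt h0 q * d2 X q)) (h2 : ∀ q : P, d2 Y q = wt h0 q * d1 X q)
    {q : P} (hq : q ≠ 0) :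
    d1 (d1 X) q + d2 (d2 X) q = 2 * q.1 * d1 X q - 2 * q.2 * d2 X q := by
  have hX2 : ContDiffAt ℝ 2 X q := by exact_mod_cast contDiffAt_infty.1 (hX q hq) 2
  have hY2 : ContDiffAt ℝ 2 Y q := by exact_mod_cast contDiffAt_infty.1 (hY q hq) 2
  have hs := d1_d2_comm_at hY2
  have e1 : d1 Y = fun q => -(wt h0 q * d2 X q) := funext h1
  have e2 : d2 Y = fun q => wt h0 q * d1 X q := funext h2
  have dX1 : DifferentiableAt ℝ (d1 X) q := (cda_d1 hX2 (m := 1) (by norm_num)).differentiableAt (by simp)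
  have dX2 : DifferentiableAt ℝ (d2 X) q := (cda_d2 hX2 (m := 1) (by norm_num)).differentiableAt (by simp)
  have dw : DifferentiableAt ℝ (wt h0) q := (contDiff_wt h0).differentiable (by simp) q
  rw [e1, e2, d2_neg', d2_mul dw dX2, d1_mul dw dX1, d1_wt, d2_wt] at hs
  have hp : 0 < wt h0 q := Real.exp_pos _
  have : wt h0 q * (d1 (d1 X) q + d2 (d2 X) q - (2 * q.1 * d1 X q - 2 * q.2 * d2 X q)) = 0 := by
    linear_combination hs
  rcases mul_eq_zero.1 this with h | h
  · exact absurd h hp.ne'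
  · linarith

/-- `w = e^{-q₁²} X₁` -/
noncomputable def ww (X : P → ℝ) (q : P) : ℝ := ex q * d1 X q
/-- `s = e^{-q₁²} X₂` -/
noncomputable def ss (X : P → ℝ) (q : P) : ℝ := ex q * d2 X q

theorem rel1 (hX : ∀ q, q ≠ 0 → ContDiffAt ℝ ∞ X q) {q : P} (hq : q ≠ 0) :
    d2 (ww X) q = d1 (ss X) q + 2 * q.1 * ss X q := by
  have hX2 : ContDiffAt ℝ 2 X q := by exact_mod_cast contDiffAt_infty.1 (hX q hq) 2
  have dX1 : DifferentiableAt ℝ (d1 X) q := (cda_d1 hX2 (m := 1) (by norm_num)).differentiableAt (by simp)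
  have dX2 : DifferentiableAt ℝ (d2 X) q := (cda_d2 hX2 (m := 1) (by norm_num)).differentiableAt (by simp)
  have de : DifferentiableAt ℝ ex q := contDiff_ex.differentiable (by simp) q
  unfold ww ss
  rw [d2_mul de dX1, d1_mul de dX2, d1_ex, d2_ex, d1_d2_comm_at hX2]
  ring

theorem rel2 (hX : ∀ q, q ≠ 0 → ContDiffAt ℝ ∞ X q)
    (hpde : ∀ q, q ≠ 0 → d1 (d1 X) q + d2 (d2 X) q = 2 * q.1 * d1 X q - 2 * q.2 * d2 X q)
    {q : P} (hq : q ≠ 0) :
    d1 (ww X) q = -(d2 (ss X) q) - 2 * q.2 * ss X q := by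
  have hX2 : ContDiffAt ℝ 2 X q := by exact_mod_cast contDiffAt_infty.1 (hX q hq) 2
  have dX1 : DifferentiableAt ℝ (d1 X) q := (cda_d1 hX2 (m := 1) (by norm_num)).differentiableAt (by simp)
  have dX2 : DifferentiableAt ℝ (d2 X) q := (cda_d2 hX2 (m := 1) (by norm_num)).differentiableAt (by simp)
  have de : DifferentiableAt ℝ ex q := contDiff_ex.differentiable (by simp) q
  unfold ww ss
  rw [d1_mul de dX1, d2_mul de dX2, d1_ex, d2_ex]
  linear_combination ex q * hpde q hq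

theorem cda_ww (hX : ∀ q, q ≠ 0 → ContDiffAt ℝ ∞ X q) {q : P} (hq : q ≠ 0) :
    ContDiffAt ℝ ∞ (ww X) q := contDiff_ex.contDiffAt.mul (cda_d1 (hX q hq) (by simp))

theorem cda_ss (hX : ∀ q, q ≠ 0 → ContDiffAt ℝ ∞ X q) {q : P} (hq : q ≠ 0) :
    ContDiffAt ℝ ∞ (ss X) q := contDiff_ex.contDiffAt.mul (cda_d2 (hX q hq) (by simp))

theorem pde_ww (hX : ∀ q, q ≠ 0 → ContDiffAt ℝ ∞ X q)
    (hpde : ∀ q, q ≠ 0 → d1 (d1 X) q + d2 (d2 X) q = 2 * q.1 * d1 X q - 2 * q.2 * d2 X q)
    {q : P} (hq : q ≠ 0) :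
    d1 (d1 (ww X)) q + d2 (d2 (ww X)) q + 2 * q.1 * d1 (ww X) q + 2 * q.2 * d2 (ww X) q = 0 := by
  have hs2 : ContDiffAt ℝ 2 (ss X) q := by exact_mod_cast contDiffAt_infty.1 (cda_ss hX hq) 2
  have e1 : d1 (ww X) =ᶠ[𝓝 q] fun q => -(d2 (ss X) q) - 2 * q.2 * ss X q := by
    filter_upwards [ev_ne hq] with y hy
    exact rel2 hX hpde hy
  have e2 : d2 (ww X) =ᶠ[𝓝 q] fun q => d1 (ss X) q + 2 * q.1 * ss X q := by
    filter_upwards [ev_ne hq] with y hy
    exact rel1 hX hy
  have ds : DifferentiableAt ℝ (ss X) q := hs2.differentiableAt (by simp)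
  have ds1 : DifferentiableAt ℝ (d1 (ss X)) q := (cda_d1 hs2 (m := 1) (by norm_num)).differentiableAt (by simp)
  have ds2 : DifferentiableAt ℝ (d2 (ss X)) q := (cda_d2 hs2 (m := 1) (by norm_num)).differentiableAt (by simp)
  have f1 : d1 (fun q => -(d2 (ss X) q) - 2 * q.2 * ss X q) q = -(d1 (d2 (ss X)) q) - 2 * q.2 * d1 (ss X) q := by
    refine d1_eq (by fun_prop) ?_
    exact (hasDerivAt_d1 ds2).neg.sub ((hasDerivAt_d1 ds).const_mul (2 * q.2))
  have f2 : d2 (fun q => d1 (ss X) q + 2 * q.1 * ss X q) q = d2 (d1 (ss X)) q + 2 * q.1 * d2 (ss X) q := by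
    refine d2_eq (by fun_prop) ?_
    exact (hasDerivAt_d2 ds1).add ((hasDerivAt_d2 ds).const_mul (2 * q.1))
  rw [d1_congr e1, d2_congr e2, f1, f2, rel1 hX hq, rel2 hX hpde hq, d1_d2_comm_at hs2]
  ring

/-- `X₁ ≡ 0` implies that `X` is bounded. -/
theorem bdd_of_zero (hXc : ContDiff ℝ 1 X) (hX : ∀ q, q ≠ 0 → ContDiffAt ℝ ∞ X q)
    (hpde : ∀ q, q ≠ 0 → d1 (d1 X) q + d2 (d2 X) q = 2 * q.1 * d1 X q - 2 * q.2 * d2 X q)
    (hz : ∀ q, ww X q = 0) : ∃ C, ∀ q, |X q| ≤ C := by
  have hz1 : ∀ q, d1 X q = 0 := by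
    intro q
    have := hz q
    unfold ww at this
    rcases mul_eq_zero.1 this with h | h
    · exact absurd h (Real.exp_pos _).ne'
    · exact h
  have hdX : Differentiable ℝ X := hXc.differentiable (by simp)
  have hone : ∀ t : ℝ, ((1, t) : P) ≠ 0 := by
    intro t h
    have := congrArg Prod.fst h
    simp at this
  have hS : ∀ t, HasDerivAt (fun t => Real.exp (t ^ 2) * ss X (1, t)) 0 t := by
    intro t
    have hs2 : ContDiffAt ℝ 2 (ss X) (1, t) := by exact_mod_cast contDiffAt_infty.1 (cda_ss hX (hone t)) 2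
    have h1 : HasDerivAt (fun t => ss X (1, t)) (d2 (ss X) (1, t)) t :=
      hasDerivAt_d2 (x := ((1, t) : P)) (hs2.differentiableAt (by simp))
    have h2 := rel2 hX hpde (hone t)
    have h3 : d1 (ww X) (1, t) = 0 := by
      have : ww X = fun _ => 0 := funext hz
      rw [this]
      simp [d1]
    rw [h3] at h2
    have h4 : HasDerivAt (fun t : ℝ => Real.exp (t ^ 2)) (2 * t * Real.exp (t ^ 2)) t := by
      have h5 : HasDerivAt (fun t : ℝ => t ^ 2) (2 * t) t := by
        refine ((hasDerivAt_id t).pow 2).congr_deriv ?_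
        simp
      refine h5.exp.congr_deriv ?_
      ring
    refine (h4.mul h1).congr_deriv ?_
    simp only at h2 ⊢
    linear_combination Real.exp (t ^ 2) * h2
  obtain ⟨C, hC⟩ := Gf_bdd
  set K : ℝ := Real.exp 1 * ss X (1, 0) with hK
  have hX2 : ∀ t : ℝ, d2 X (1, t) = K * Real.exp (-(t ^ 2)) := by
    intro t
    have h1 := is_const_of_deriv_eq_zero (f := fun t => Real.exp (t ^ 2) * ss X (1, t))
      (fun t => (hS t).differentiableAt) (fun t => (hS t).deriv) t 0
    have h2 : ss X (1, t) = Real.exp (-(1:ℝ)) * d2 X (1, t) := by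
      unfold ss ex
      norm_num
    have h3 : Real.exp (0 ^ 2) = (1:ℝ) := by simp
    rw [h3, one_mul] at h1
    rw [hK, ← h1, h2]
    have e1 : Real.exp 1 * Real.exp (-(1:ℝ)) = 1 := by rw [← Real.exp_add]; simp
    have e2 : Real.exp (t ^ 2) * Real.exp (-(t ^ 2)) = 1 := by rw [← Real.exp_add]; simp
    linear_combination (-d2 X (1, t)) * e1 * Real.exp (t ^ 2) * Real.exp (-(t ^ 2)) - d2 X (1, t) * e2
  have hXt : ∀ t : ℝ, X (1, t) = X (1, 0) + K * Gf t := by
    intro t
    have hd : ∀ t, HasDerivAt (fun t => X (1, t) - K * Gf t) 0 t := by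
      intro t
      have h1 : HasDerivAt (fun t => X (1, t)) (d2 X (1, t)) t := hasDerivAt_d2 (x := ((1, t) : P)) (hdX _)
      refine (h1.sub ((hasDerivAt_Gf t).const_mul K)).congr_deriv ?_
      rw [hX2]
      ring
    have h1 := is_const_of_deriv_eq_zero (f := fun t => X (1, t) - K * Gf t)
      (fun t => (hd t).differentiableAt) (fun t => (hd t).deriv) t 0
    have h2 : Gf 0 = 0 := by simp [Gf]
    rw [h2] at h1
    linarith
  refine ⟨|X (1, 0)| + |K| * C, fun q => ?_⟩
  have h1 : X q = X (1, q.2) := by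
    have hd : ∀ t, HasDerivAt (fun t => X (t, q.2)) 0 t := by
      intro t
      have := hasDerivAt_d1 (x := ((t, q.2) : P)) (hdX _)
      rw [hz1] at this
      exact this
    exact is_const_of_deriv_eq_zero (f := fun t => X (t, q.2))
      (fun t => (hd t).differentiableAt) (fun t => (hd t).deriv) q.1 1
  rw [h1, hXt]
  refine (abs_add_le _ _).trans ?_
  rw [abs_mul]
  gcongr
  exact hC _

/-- the bounded perturbation with a nondegenerate critical point. -/
theorem no_critical (hDB : DegBdd) (F : P ≃ₜ P) (hF : ContDiff ℝ 1 F) (hF' : ContDiff ℝ 1 F.symm)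
    (hFs : ∀ q, q ≠ 0 → ContDiffAt ℝ ∞ F q) (h0 : ℝ)
    (h1 : ∀ q : P, d1 (fun q => (F q).2) q = -(wt h0 q * d2 (fun q => (F q).1) q))
    (h2 : ∀ q : P, d2 (fun q => (F q).2) q = wt h0 q * d1 (fun q => (F q).1) q)
    {q0 : P} (hq0 : q0 ≠ 0) (hz : d1 (fun q => (F q).1) q0 = 0)
    (hnd : d1 (d1 (fun q => (F q).1)) q0 ≠ 0 ∨ d1 (d2 (fun q => (F q).1)) q0 ≠ 0) : False := by
  set X : P → ℝ := fun q => (F q).1 with hX
  set Y : P → ℝ := fun q => (F q).2 with hY
  have hXc : ContDiff ℝ 1 X := contDiff_fst.comp hF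
  have hYc : ContDiff ℝ 1 Y := contDiff_snd.comp hF
  have hXs : ContDiffAt ℝ 2 X q0 := by
    have : ContDiffAt ℝ ∞ X q0 := contDiff_fst.contDiffAt.comp q0 (hFs q0 hq0)
    exact_mod_cast contDiffAt_infty.1 this 2
  have hYs : ContDiffAt ℝ 2 Y q0 := by
    have : ContDiffAt ℝ ∞ Y q0 := contDiff_snd.contDiffAt.comp q0 (hFs q0 hq0)
    exact_mod_cast contDiffAt_infty.1 this 2
  have hXd : Differentiable ℝ X := hXc.differentiable (by simp)
  have hYd : Differentiable ℝ Y := hYc.differentiable (by simp)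
  obtain ⟨C, hC⟩ := Gf_bdd
  have hG1 : ContDiff ℝ 1 Gf := by exact_mod_cast contDiff_infty.1 contDiff_Gf 1
  have hG2 : ContDiff ℝ 2 Gf := by exact_mod_cast contDiff_infty.1 contDiff_Gf 2
  have hGd : Differentiable ℝ Gf := hG1.differentiable (by simp)
  set k : ℝ := Real.exp (q0.2 ^ 2) * d2 X q0 with hk
  set g : P → P := fun q => (X q - k * Gf q.2, Y q + k * Real.exp (-h0) * Gf q.1) with hg
  have hgc : ContDiff ℝ 1 g :=
    (hXc.sub (contDiff_const.mul (hG1.comp contDiff_snd))).prodMk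
      (hYc.add (contDiff_const.mul (hG1.comp contDiff_fst)))
  have hgs : ContDiffAt ℝ 2 g q0 :=
    (hXs.sub (contDiffAt_const.mul (hG2.comp contDiff_snd).contDiffAt)).prodMk
      (hYs.add (contDiffAt_const.mul (hG2.comp contDiff_fst).contDiffAt))
  have hgd : Differentiable ℝ g := hgc.differentiable (by simp)
  set m : P → ℝ := fun q => d2 X q - k * Real.exp (-(q.2 ^ 2)) with hm
  have d1g1 : ∀ q, (d1 g q).1 = d1 X q := by
    intro q
    rw [fst_d1 (hgd q)]
    refine d1_eq (by fun_prop) ?_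
    refine ((hasDerivAt_d1 (hXd q)).sub (hasDerivAt_const q.1 (k * Gf q.2))).congr_deriv ?_
    ring
  have d2g1 : ∀ q, (d2 g q).1 = m q := by
    intro q
    rw [fst_d2 (hgd q)]
    refine d2_eq (by fun_prop) ?_
    exact ((hasDerivAt_d2 (hXd q)).sub ((hasDerivAt_Gf q.2).const_mul k))
  have d1g2 : ∀ q, (d1 g q).2 = -(wt h0 q * m q) := by
    intro q
    rw [snd_d1 (hgd q)]
    refine d1_eq (by fun_prop) ?_
    refine ((hasDerivAt_d1 (hYd q)).add ((hasDerivAt_Gf q.1).const_mul (k * Real.exp (-h0)))).congr_deriv ?_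
    rw [h1 q, hm]
    have : wt h0 q * Real.exp (-(q.2 ^ 2)) = Real.exp (-h0) * Real.exp (-(q.1 ^ 2)) := by
      unfold wt
      rw [← Real.exp_add, ← Real.exp_add]
      congr 1
      ring
    linear_combination (-k) * this
  have d2g2 : ∀ q, (d2 g q).2 = wt h0 q * d1 X q := by
    intro q
    rw [snd_d2 (hgd q)]
    refine d2_eq (by fun_prop) ?_
    refine ((hasDerivAt_d2 (hYd q)).add (hasDerivAt_const q.2 (k * Real.exp (-h0) * Gf q.1))).congr_deriv ?_
    rw [h2 q]
    ring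
  have hmq : m q0 = 0 := by
    rw [hm]
    simp only
    rw [hk]
    have e2 : Real.exp (q0.2 ^ 2) * Real.exp (-(q0.2 ^ 2)) = 1 := by rw [← Real.exp_add]; simp
    linear_combination (-d2 X q0) * e2
  have e1g : d1 g = fun q => (d1 X q, -(wt h0 q * m q)) := funext fun q => Prod.ext (d1g1 q) (d1g2 q)
  have e2g : d2 g = fun q => (m q, wt h0 q * d1 X q) := funext fun q => Prod.ext (d2g1 q) (d2g2 q)
  have hg0 : fderiv ℝ g q0 = 0 := by
    refine ContinuousLinearMap.ext fun y => ?_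
    rw [fderiv_apply_eq, e1g, e2g]
    simp only
    rw [hmq, hz]
    simp
  have hBd : HasFDerivAt (fderiv ℝ g) (fderiv ℝ (fderiv ℝ g) q0) q0 :=
    ((hgs.fderiv_right (m := 1) (by norm_num)).differentiableAt (by simp)).hasFDerivAt
  set B := fderiv ℝ (fderiv ℝ g) q0 with hB
  have dX1 : DifferentiableAt ℝ (d1 X) q0 := (cda_d1 hXs (m := 1) (by norm_num)).differentiableAt (by simp)
  have dX2 : DifferentiableAt ℝ (d2 X) q0 := (cda_d2 hXs (m := 1) (by norm_num)).differentiableAt (by simp)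
  have dm : DifferentiableAt ℝ m q0 := by
    rw [hm]
    fun_prop
  have dw : DifferentiableAt ℝ (wt h0) q0 := (contDiff_wt h0).differentiable (by simp) q0
  have dm1 : d1 m q0 = d1 (d2 X) q0 := by
    refine d1_eq dm ?_
    refine ((hasDerivAt_d1 dX2).sub (hasDerivAt_const q0.1 (k * Real.exp (-(q0.2 ^ 2))))).congr_deriv ?_
    ring
  have b11 : B (1, 0) (1, 0) = (d1 (d1 X) q0, -(wt h0 q0 * d1 (d2 X) q0)) := by
    have e : B (1, 0) (1, 0) = d1 (d1 g) q0 := by
      have : HasFDerivAt (fun y => fderiv ℝ g y (1, 0))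
          ((ContinuousLinearMap.apply ℝ P ((1 : ℝ), (0 : ℝ))).comp B) q0 :=
        (ContinuousLinearMap.apply ℝ P ((1 : ℝ), (0 : ℝ))).hasFDerivAt.comp q0 hBd
      show _ = fderiv ℝ (fun y => fderiv ℝ g y (1, 0)) q0 (1, 0)
      rw [this.fderiv]; rfl
    have hd : DifferentiableAt ℝ (d1 g) q0 :=
      (cda_d1 hgs (m := 1) (by norm_num)).differentiableAt (by simp)
    rw [e]
    refine Prod.ext ?_ ?_
    · rw [fst_d1 hd, e1g]
    · rw [snd_d1 hd, e1g]
      simp only
      rw [d1_neg', d1_mul dw dm, hmq, dm1]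
      ring
  have b12 : B (1, 0) (0, 1) = (d1 (d2 X) q0, wt h0 q0 * d1 (d1 X) q0) := by
    have e : B (1, 0) (0, 1) = d1 (d2 g) q0 := by
      have : HasFDerivAt (fun y => fderiv ℝ g y (0, 1))
          ((ContinuousLinearMap.apply ℝ P ((0 : ℝ), (1 : ℝ))).comp B) q0 :=
        (ContinuousLinearMap.apply ℝ P ((0 : ℝ), (1 : ℝ))).hasFDerivAt.comp q0 hBd
      show _ = fderiv ℝ (fun y => fderiv ℝ g y (0, 1)) q0 (1, 0)
      rw [this.fderiv]; rfl
    have hd : DifferentiableAt ℝ (d2 g) q0 :=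
      (cda_d2 hgs (m := 1) (by norm_num)).differentiableAt (by simp)
    rw [e]
    refine Prod.ext ?_ ?_
    · rw [fst_d1 hd, e2g]
      exact dm1
    · rw [snd_d1 hd, e2g]
      simp only
      rw [d1_mul dw dX1, hz]
      ring
  set a : ℝ := d1 (d1 X) q0 with ha
  set b : ℝ := d1 (d2 X) q0 with hb
  have hab : 0 < a ^ 2 + b ^ 2 := by
    rcases hnd with h | h <;> positivity
  have hE : 0 < wt h0 q0 := Real.exp_pos _
  have hinj : Function.Injective (B (1, 0)) := by
    rw [injective_iff_map_eq_zero]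
    intro y hy
    have ey : B (1, 0) y = y.1 • B (1, 0) (1, 0) + y.2 • B (1, 0) (0, 1) := by
      have : y = y.1 • ((1 : ℝ), (0 : ℝ)) + y.2 • ((0 : ℝ), (1 : ℝ)) := by ext <;> simp
      conv_lhs => rw [this, map_add, map_smul, map_smul]
    rw [ey, b11, b12] at hy
    have c1 : y.1 * a + y.2 * b = 0 := by simpa using congrArg Prod.fst hy
    have c2 : y.1 * -(wt h0 q0 * b) + y.2 * (wt h0 q0 * a) = 0 := by simpa using congrArg Prod.snd hy
    have c3 : y.2 * a - y.1 * b = 0 := by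
      have : wt h0 q0 * (y.2 * a - y.1 * b) = 0 := by linear_combination c2
      rcases mul_eq_zero.1 this with h | h
      · exact absurd h hE.ne'
      · exact h
    have c4 : y.1 * (a ^ 2 + b ^ 2) = 0 := by linear_combination a * c1 - b * c3
    have c5 : y.2 * (a ^ 2 + b ^ 2) = 0 := by linear_combination b * c1 + a * c3
    refine Prod.ext ?_ ?_
    · simpa using (mul_eq_zero.1 c4).resolve_right hab.ne'
    · simpa using (mul_eq_zero.1 c5).resolve_right hab.ne'
  let T : P ≃L[ℝ] P := (LinearEquiv.ofInjectiveEndo (B (1, 0) : P →ₗ[ℝ] P) hinj).toContinuousLinearEquiv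
  have hT : ∀ y, B (1, 0) y = T y := fun y => rfl
  obtain ⟨c, r, hr, hcr⟩ := two_to_one (g := g) (q0 := q0) (e := ((1 : ℝ), (0 : ℝ)))
    (by simp) T hT (Eventually.of_forall fun x => hgd x) hg0 hBd
  -- degree
  set bb : P → P := fun x => (-(k * Gf (F.symm x).2), k * Real.exp (-h0) * Gf (F.symm x).1) with hbb
  have hbbc : ContDiff ℝ 1 bb :=
    (contDiff_const.mul (hG1.comp (contDiff_snd.comp hF'))).neg.prodMk
      (contDiff_const.mul (hG1.comp (contDiff_fst.comp hF')))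
  have hbbd : ∃ C, ∀ x, ‖bb x‖ ≤ C := by
    refine ⟨max (|k| * C) (|k * Real.exp (-h0)| * C), fun x => ?_⟩
    rw [Prod.norm_def]
    refine max_le_max ?_ ?_
    · show ‖-(k * Gf (F.symm x).2)‖ ≤ _
      rw [norm_neg, Real.norm_eq_abs, abs_mul]
      gcongr
      exact hC _
    · show ‖k * Real.exp (-h0) * Gf (F.symm x).1‖ ≤ _
      rw [Real.norm_eq_abs, abs_mul]
      gcongr
      exact hC _
  have hfg : (fun x => x + bb x) = fun x => g (F.symm x) := by
    funext x
    rw [hbb, hg]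
    refine Prod.ext ?_ ?_
    · show x.1 + -(k * Gf (F.symm x).2) = (F (F.symm x)).1 - k * Gf (F.symm x).2
      rw [F.apply_symm_apply]
      ring
    · show x.2 + k * Real.exp (-h0) * Gf (F.symm x).1 = (F (F.symm x)).2 + k * Real.exp (-h0) * Gf (F.symm x).1
      rw [F.apply_symm_apply]
  set f : P → P := fun x => g (F.symm x) with hf
  have hfc : ContDiff ℝ 1 f := hgc.comp hF'
  have hFd : Differentiable ℝ F := hF.differentiable (by simp)
  have hFd' : Differentiable ℝ F.symm := hF'.differentiable (by simp)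
  have hdet : ∀ x, 0 ≤ (fderiv ℝ f x).det := by
    intro x
    have e1 : fderiv ℝ f x = (fderiv ℝ g (F.symm x)).comp (fderiv ℝ F.symm x) :=
      fderiv_comp x (hgd _) (hFd' x)
    have e2 : (fderiv ℝ F (F.symm x)).comp (fderiv ℝ F.symm x) = ContinuousLinearMap.id ℝ P := by
      rw [← fderiv_comp x (hFd _) (hFd' x)]
      have : (F ∘ F.symm) = id := by
        funext y
        simp
      rw [this, fderiv_id]
    have e3 : (fderiv ℝ F (F.symm x)).det * (fderiv ℝ F.symm x).det = 1 := by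
      have := congrArg ContinuousLinearMap.det e2
      simpa [ContinuousLinearMap.det] using this
    have e4 : (fderiv ℝ f x).det = (fderiv ℝ g (F.symm x)).det * (fderiv ℝ F.symm x).det := by
      rw [e1]
      simp [ContinuousLinearMap.det]
    have e5 : 0 ≤ (fderiv ℝ F (F.symm x)).det := by
      rw [det_eq, fst_d1 (hFd _), snd_d1 (hFd _), fst_d2 (hFd _), snd_d2 (hFd _)]
      show 0 ≤ d1 X _ * d2 Y _ - d2 X _ * d1 Y _
      rw [h1, h2]
      have hE : 0 < wt h0 (F.symm x) := Real.exp_pos _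
      have : d1 X (F.symm x) * (wt h0 (F.symm x) * d1 X (F.symm x)) - d2 X (F.symm x) * -(wt h0 (F.symm x) * d2 X (F.symm x)) =
        wt h0 (F.symm x) * ((d1 X (F.symm x)) ^ 2 + (d2 X (F.symm x)) ^ 2) := by ring
      rw [this]
      positivity
    have e6 : 0 ≤ (fderiv ℝ g (F.symm x)).det := by
      rw [det_eq, d1g1, d1g2, d2g1, d2g2]
      have hE : 0 < wt h0 (F.symm x) := Real.exp_pos _
      have : d1 X (F.symm x) * (wt h0 (F.symm x) * d1 X (F.symm x)) - m (F.symm x) * -(wt h0 (F.symm x) * m (F.symm x)) =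
        wt h0 (F.symm x) * ((d1 X (F.symm x)) ^ 2 + (m (F.symm x)) ^ 2) := by ring
      rw [this]
      positivity
    rw [e4]
    refine mul_nonneg e6 ?_
    by_contra hneg
    push Not at hneg
    have := mul_nonneg e5 (neg_pos.2 hneg).le
    linarith
  -- the test function
  set ρ : P → ℝ := fun y => max (r - dist y c) 0 with hρ
  have hρc : Continuous ρ := by fun_prop
  have hρ0 : ∀ y, 0 ≤ ρ y := fun y => le_max_right _ _
  have hρs : ∀ y, ρ y ≠ 0 → y ∈ Metric.closedBall c r := by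
    intro y hy
    rw [Metric.mem_closedBall]
    by_contra h
    push Not at h
    exact hy (max_eq_right (by linarith))
  have hρcs : HasCompactSupport ρ :=
    HasCompactSupport.intro (isCompact_closedBall c r) fun y hy => by
      by_contra h
      exact hy (hρs y h)
  have hρi : 0 < ∫ x, ρ x := by
    refine hρc.integral_pos_of_hasCompactSupport_nonneg_nonzero hρcs hρ0 (x := c) ?_
    simp [hρ, hr.ne', hr.le]
  have hdeg := hDB bb hbbc hbbd ρ hρc hρcs
  have hdeg' : ∫ x, ρ (f x) * (fderiv ℝ f x).det = ∫ x, ρ x := by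
    rw [← hdeg]
    refine integral_congr_ae (Eventually.of_forall fun x => ?_)
    simp only
    rw [hfg]
    have : x + bb x = f x := congrFun hfg x
    rw [this]
  have harea := area_formula hfc (K := univ) MeasurableSet.univ (h := fun y => ENNReal.ofReal (ρ y))
    (hρc.measurable.ennreal_ofReal)
  have hge : 2 * ∫⁻ w, ENNReal.ofReal (ρ w) ≤ ∫⁻ w, ENNReal.ofReal (ρ w) *
      (({x | x ∈ (univ : Set P) ∧ f x = w}.encard : ℕ∞) : ℝ≥0∞) := by
    rw [← lintegral_const_mul _ hρc.measurable.ennreal_ofReal]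
    refine lintegral_mono fun w => ?_
    rw [mul_comm]
    by_cases hw : ρ w = 0
    · simp [hw]
    · gcongr
      obtain ⟨x, x', hne, hx, hx'⟩ := hcr w (hρs w hw)
      have h2 : (2 : ℕ∞) ≤ {x | x ∈ (univ : Set P) ∧ f x = w}.encard := by
        have hsub : {F x, F x'} ⊆ {x | x ∈ (univ : Set P) ∧ f x = w} := by
          rintro y (rfl | rfl)
          · refine ⟨mem_univ _, ?_⟩
            show g (F.symm (F x)) = w
            rw [F.symm_apply_apply, hx]
          · refine ⟨mem_univ _, ?_⟩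
            show g (F.symm (F x')) = w
            rw [F.symm_apply_apply, hx']
        have hc2 : ({F x, F x'} : Set P).encard = 2 := Set.encard_pair (F.injective.ne hne)
        rw [← hc2]
        exact Set.encard_le_encard hsub
      have h3 := ENat.toENNReal_le.2 h2
      simpa using h3
  rw [← harea, setLIntegral_univ] at hge
  have hint : ∫ x, ρ (f x) * (fderiv ℝ f x).det =
      (∫⁻ x, ENNReal.ofReal (ρ (f x)) * ENNReal.ofReal |(fderiv ℝ f x).det|).toReal := by
    rw [integral_eq_lintegral_of_nonneg_ae]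
    · congr 1
      refine lintegral_congr fun x => ?_
      rw [abs_of_nonneg (hdet x), ENNReal.ofReal_mul (hρ0 _)]
    · exact Eventually.of_forall fun x => mul_nonneg (hρ0 _) (hdet x)
    · exact ((hρc.comp hfc.continuous).mul (continuous_det_fderiv hfc)).aestronglyMeasurable
  have hint2 : ∫ x, ρ x = (∫⁻ x, ENNReal.ofReal (ρ x)).toReal :=
    integral_eq_lintegral_of_nonneg_ae (Eventually.of_forall hρ0) hρc.aestronglyMeasurable
  set J := ∫⁻ x, ENNReal.ofReal (ρ (f x)) * ENNReal.ofReal |(fderiv ℝ f x).det| with hJ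
  set I := ∫⁻ x, ENNReal.ofReal (ρ x) with hI
  have hJI : J.toReal = I.toReal := by rw [← hint, hdeg', hint2]
  have hI0 : 0 < I.toReal := by rw [← hint2]; exact hρi
  have hJt : J ≠ ⊤ := by
    intro h
    rw [h] at hJI
    simp at hJI
    rw [← hJI] at hI0
    simp at hI0
  have := ENNReal.toReal_mono hJt hge
  rw [ENNReal.toReal_mul] at this
  simp at this
  linarith

end sys

end PosTwo

open PosTwo in
theorem pos_two_of_degree (hDB : PosTwo.DegBdd) (F : P ≃ₜ P) (hF : ContDiff ℝ 1 F) (hF' : ContDiff ℝ 1 F.symm)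
    (hFs : ∀ q, q ≠ 0 → ContDiffAt ℝ ∞ F q) (h0 : ℝ)
    (h1 : ∀ q : P, d1 (fun q => (F q).2) q =
      -(Real.exp (-(h0 + q.1 ^ 2 - q.2 ^ 2)) * d2 (fun q => (F q).1) q))
    (h2 : ∀ q : P, d2 (fun q => (F q).2) q =
      Real.exp (-(h0 + q.1 ^ 2 - q.2 ^ 2)) * d1 (fun q => (F q).1) q) :
    (∀ q : P, 0 < d1 (fun q => (F q).1) q) ∨ (∀ q : P, d1 (fun q => (F q).1) q < 0) := by
  by_contra hcon
  push Not at hcon
  obtain ⟨⟨z1, hz1⟩, ⟨z2, hz2⟩⟩ := hcon
  set X : P → ℝ := fun q => (F q).1 with hX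
  set Y : P → ℝ := fun q => (F q).2 with hY
  have hXc : ContDiff ℝ 1 X := contDiff_fst.comp hF
  have hXs : ∀ q, q ≠ 0 → ContDiffAt ℝ ∞ X q := fun q hq => contDiff_fst.contDiffAt.comp q (hFs q hq)
  have hYs : ∀ q, q ≠ 0 → ContDiffAt ℝ ∞ Y q := fun q hq => contDiff_snd.contDiffAt.comp q (hFs q hq)
  have hc1 : Continuous (d1 X) := (contDiff_d1 hXc (m := 0) (by simp)).continuous
  have hpde : ∀ q, q ≠ 0 → d1 (d1 X) q + d2 (d2 X) q = 2 * q.1 * d1 X q - 2 * q.2 * d2 X q :=
    fun q hq => pde_X (h0 := h0) hXs hYs h1 h2 hq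
  obtain ⟨z, hz⟩ := mem_range_of_exists_le_of_exists_ge hc1 ⟨z1, hz1⟩ ⟨z2, hz2⟩
  have hwc : Continuous (ww X) := by
    have : Continuous ex := contDiff_ex.continuous
    unfold ww
    fun_prop
  have hw2 : ∀ q, q ≠ 0 → ContDiffAt ℝ 2 (ww X) q := fun q hq => by
    exact_mod_cast contDiffAt_infty.1 (cda_ww hXs hq) 2
  have hwz : ww X z = 0 := by unfold ww; rw [hz]; ring
  have hwL := fun q (hq : q ≠ 0) => pde_ww hXs hpde hq
  -- a nondegenerate zero
  obtain ⟨q0, hq0, hwq0, hnd⟩ : ∃ q0, q0 ≠ 0 ∧ ww X q0 = 0 ∧ (d1 (ww X) q0 ≠ 0 ∨ d2 (ww X) q0 ≠ 0) := by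
    by_cases hall : ∀ q, ww X q = 0
    · exfalso
      obtain ⟨C, hC⟩ := bdd_of_zero hXc hXs hpde hall
      have h3 := hC (F.symm (C + 1, 0))
      have h4 : X (F.symm (C + 1, 0)) = C + 1 := by
        show (F (F.symm (C + 1, 0))).1 = C + 1
        rw [F.apply_symm_apply]
      rw [h4] at h3
      have := le_abs_self (C + 1)
      linarith
    · push Not at hall
      obtain ⟨y, hy⟩ := hall
      rcases lt_or_gt_of_ne hy with hy | hy
      · have hn : ∀ q, d1 (fun q => -(ww X q)) q = -(d1 (ww X) q) := fun q => d1_neg' _ q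
        have hn' : ∀ q, d2 (fun q => -(ww X q)) q = -(d2 (ww X) q) := fun q => d2_neg' _ q
        have hnn : ∀ q, d1 (d1 (fun q => -(ww X q))) q = -(d1 (d1 (ww X)) q) := fun q => by
          rw [funext hn, d1_neg']
        have hnn' : ∀ q, d2 (d2 (fun q => -(ww X q))) q = -(d2 (d2 (ww X)) q) := fun q => by
          rw [funext hn', d2_neg']
        obtain ⟨q0, hq0, hwq0, hnd⟩ := hopf_point (w := fun q => -(ww X q)) hwc.neg
          (fun q hq => (hw2 q hq).neg) (fun q hq => by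
            rw [hnn, hnn', hn, hn']
            have := hwL q hq
            linarith) (z := z) (y := y) (by simp [hwz]) (by simpa using hy)
        rw [hn, hn'] at hnd
        exact ⟨q0, hq0, by simpa using hwq0, by simpa using hnd⟩
      · exact hopf_point hwc hw2 hwL hwz hy
  have hex : 0 < ex q0 := Real.exp_pos _
  have hX10 : d1 X q0 = 0 := by
    unfold ww at hwq0
    exact (mul_eq_zero.1 hwq0).resolve_left hex.ne'
  have hX2 : ContDiffAt ℝ 2 X q0 := by exact_mod_cast contDiffAt_infty.1 (hXs q0 hq0) 2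
  have dX1 : DifferentiableAt ℝ (d1 X) q0 := (cda_d1 hX2 (m := 1) (by norm_num)).differentiableAt (by simp)
  have de : DifferentiableAt ℝ ex q0 := contDiff_ex.differentiable (by simp) q0
  refine no_critical hDB F hF hF' hFs h0 h1 h2 hq0 hX10 ?_
  rcases hnd with h | h
  · left
    intro h5
    apply h
    show d1 (fun q => ex q * d1 X q) q0 = 0
    rw [d1_mul de dX1, hX10, h5]
    ring
  · right
    intro h5
    apply h
    show d2 (fun q => ex q * d1 X q) q0 = 0
    rw [d2_mul de dX1, hX10, ← d1_d2_comm_at hX2, h5]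
    ring

theorem pos_two (F : P ≃ₜ P) (hF : ContDiff ℝ 1 F) (hF' : ContDiff ℝ 1 F.symm)
    (hFs : ∀ q, q ≠ 0 → ContDiffAt ℝ ∞ F q) (h0 : ℝ)
    (h1 : ∀ q : P, d1 (fun q => (F q).2) q =
      -(Real.exp (-(h0 + q.1 ^ 2 - q.2 ^ 2)) * d2 (fun q => (F q).1) q))
    (h2 : ∀ q : P, d2 (fun q => (F q).2) q =
      Real.exp (-(h0 + q.1 ^ 2 - q.2 ^ 2)) * d1 (fun q => (F q).1) q) :
    (∀ q : P, 0 < d1 (fun q => (F q).1) q) ∨ (∀ q : P, d1 (fun q => (F q).1) q < 0) :=
  pos_two_of_degree (fun _ hb hbd _ hρ hc => degree_bounded hb hbd hρ hc) F hF hF' hFs h0 h1 h2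

end Pool.Agent.EU
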