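import Mathlib

/-!
Module REP-C: uniqueness of Fourier coefficients, concentration of `Θ (r cos b)` at `b = 0`
and existence of a measure with given limit moments.
-/

set_option autoImplicit false

open Filter Topology Set Real MeasureTheory intervalIntegral
open scoped BoundedContinuousFunction NNReal ENNReal

namespace Pool.Agent.EU.RepC

lemma fourier_unique {D : ℝ → ℝ} (hD : Continuous D) (hper : Function.Periodic D (2 * π))
    (hc : ∀ n : ℕ, ∫ b in (-π)..π, D b * cos (n * b) = 0)
    (hs : ∀ n : ℕ, ∫ b in (-π)..π, D b * sin (n * b) = 0) (b : ℝ) : D b = 0 := by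
  have : Fact (0 < 2 * π) := ⟨by positivity⟩
  have hper' : Function.Periodic (fun b => (D b : ℂ)) (2 * π) := fun x => by
    simp only [hper x]
  have hcont : Continuous hper'.lift := by
    apply continuous_coinduced_dom.2
    show Continuous fun b : ℝ => (D b : ℂ)
    exact Complex.continuous_ofReal.comp hD
  let g : C(AddCircle (2 * π), ℂ) := ⟨hper'.lift, hcont⟩
  have hg : ∀ x : ℝ, g (x : AddCircle (2 * π)) = (D x : ℂ) := fun x => rfl
  have hcz : ∀ n : ℤ, ∫ b in (-π)..π, D b * cos (n * b) = 0 := by
    intro n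
    obtain ⟨m, rfl | rfl⟩ := n.eq_nat_or_neg
    · simpa using hc m
    · have := hc m
      simpa [neg_mul, cos_neg] using this
  have hsz : ∀ n : ℤ, ∫ b in (-π)..π, D b * sin (n * b) = 0 := by
    intro n
    obtain ⟨m, rfl | rfl⟩ := n.eq_nat_or_neg
    · simpa using hs m
    · have := hs m
      simp only [Int.cast_neg, Int.cast_natCast, neg_mul, sin_neg, mul_neg,
        intervalIntegral.integral_neg, this, neg_zero]
  have hcoef : ∀ n : ℤ, fourierCoeff g n = 0 := by
    intro n
    rw [fourierCoeff_eq_intervalIntegral g n (-π)]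
    have e1 : -π + 2 * π = π := by ring
    rw [e1]
    have e2 : ∀ x : ℝ, (fourier (-n) (x : AddCircle (2 * π)) : ℂ) • g (x : AddCircle (2 * π))
        = ((D x * cos (n * x) : ℝ) : ℂ) - Complex.I * ((D x * sin (n * x) : ℝ) : ℂ) := by
      intro x
      rw [hg, fourier_coe_apply]
      have e3 : (2 * (π : ℂ) * Complex.I * ((-n : ℤ) : ℂ) * (x : ℂ) / ((2 * π : ℝ) : ℂ))
          = ((-(n * x) : ℝ) : ℂ) * Complex.I := by
        have : (π : ℂ) ≠ 0 := by exact_mod_cast pi_ne_zero
        push_cast
        field_simp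
      rw [e3, Complex.exp_mul_I, ← Complex.ofReal_cos, ← Complex.ofReal_sin, cos_neg, sin_neg]
      simp only [smul_eq_mul]
      push_cast
      ring
    have i1 : IntervalIntegrable (fun x : ℝ => ((D x * cos (n * x) : ℝ) : ℂ)) volume (-π) π := by
      apply Continuous.intervalIntegrable
      exact Complex.continuous_ofReal.comp (hD.mul (by fun_prop))
    have i2 : IntervalIntegrable (fun x : ℝ => Complex.I * ((D x * sin (n * x) : ℝ) : ℂ))
        volume (-π) π := by
      apply Continuous.intervalIntegrable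
      exact continuous_const.mul (Complex.continuous_ofReal.comp (hD.mul (by fun_prop)))
    have e4 : ∫ x in (-π)..π, (fourier (-n) (x : AddCircle (2 * π)) : ℂ) •
        g (x : AddCircle (2 * π)) = 0 := by
      calc ∫ x in (-π)..π, (fourier (-n) (x : AddCircle (2 * π)) : ℂ) • g (x : AddCircle (2 * π))
          = ∫ x in (-π)..π, (((D x * cos (n * x) : ℝ) : ℂ)
              - Complex.I * ((D x * sin (n * x) : ℝ) : ℂ)) :=
            intervalIntegral.integral_congr fun x _ => e2 x
        _ = 0 := by
            rw [intervalIntegral.integral_sub i1 i2, intervalIntegral.integral_ofReal,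
              intervalIntegral.integral_const_mul, intervalIntegral.integral_ofReal,
              hcz, hsz]
            simp
    rw [e4, smul_zero]
  have hsum : Summable (fourierCoeff g) := by
    have : fourierCoeff g = fun _ => 0 := funext hcoef
    rw [this]
    exact summable_zero
  have h1 := has_pointwise_sum_fourier_series_of_summable hsum (b : AddCircle (2 * π))
  simp only [hcoef, zero_smul] at h1
  have h2 := h1.unique hasSum_zero
  rw [hg] at h2
  exact_mod_cast h2

section conc

variable {Θ : ℝ → ℝ}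

lemma conc (hc : Continuous Θ) (hpos : ∀ t, 0 < Θ t) (hmono : Monotone Θ)
    (hconc : ∀ κ : ℝ, 0 < κ → κ < 1 → Tendsto (fun r => Θ (κ * r) / Θ r) atTop (𝓝 0)) (n : ℕ) :
    Tendsto (fun r => (∫ b in (-π)..π, Θ (r * cos b) * cos (n * b)) /
      (∫ b in (-π)..π, Θ (r * cos b))) atTop (𝓝 1) := by
  have hcr : ∀ r : ℝ, Continuous fun b => Θ (r * cos b) := fun r => hc.comp (by fun_prop)
  have hR0 : ∀ r : ℝ, 0 < ∫ b in (-π)..π, Θ (r * cos b) := by
    intro r
    apply intervalIntegral.intervalIntegral_pos_of_pos_on ((hcr r).intervalIntegrable _ _)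
    · intro x _
      exact hpos _
    · linarith [pi_pos]
  rw [Metric.tendsto_atTop]
  intro ε hε
  -- choose δ
  obtain ⟨δ, hδ0, hδ1, hδ2⟩ : ∃ δ : ℝ, 0 < δ ∧ δ < π / 2 ∧
      ∀ b : ℝ, |b| ≤ δ → |cos (n * b) - 1| ≤ ε / 2 := by
    have h1 : Tendsto (fun b : ℝ => |cos (n * b) - 1|) (𝓝 0) (𝓝 0) := by
      have : Continuous (fun b : ℝ => |cos (n * b) - 1|) := by fun_prop
      have h := this.tendsto 0
      simpa using h
    have h2 := h1.eventually (ge_mem_nhds (by linarith : (0 : ℝ) < ε / 2))
    rw [Metric.eventually_nhds_iff] at h2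
    obtain ⟨δ, hδ, h3⟩ := h2
    refine ⟨min (δ / 2) (π / 4), lt_min (by linarith) (by positivity), ?_, ?_⟩
    · exact (min_le_right _ _).trans_lt (by linarith [pi_pos])
    · intro b hb
      apply h3
      rw [Real.dist_eq, sub_zero]
      exact lt_of_le_of_lt (hb.trans (min_le_left _ _)) (by linarith)
  set η : ℝ := δ / 2 with hη
  have hη0 : 0 < η := by rw [hη]; linarith
  have hcη : 0 < cos η := cos_pos_of_mem_Ioo ⟨by linarith [pi_pos], by linarith [pi_pos]⟩
  have hcδ : 0 < cos δ := cos_pos_of_mem_Ioo ⟨by linarith [pi_pos], by linarith [pi_pos]⟩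
  have hlt : cos δ < cos η := by
    apply cos_lt_cos_of_nonneg_of_le_pi hη0.le (by linarith [pi_pos])
    rw [hη]; linarith
  have hκ0 : 0 < cos δ / cos η := by positivity
  have hκ1 : cos δ / cos η < 1 := (div_lt_one hcη).2 hlt
  have hlim := hconc _ hκ0 hκ1
  have hlim2 : Tendsto (fun r : ℝ => Θ (r * cos δ) / Θ (r * cos η)) atTop (𝓝 0) := by
    have h1 : Tendsto (fun r : ℝ => r * cos η) atTop atTop :=
      tendsto_id.atTop_mul_const hcη
    have h2 := hlim.comp h1
    refine h2.congr fun r => ?_
    simp only [Function.comp]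
    congr 2
    field_simp
  have hlim3 : Tendsto (fun r : ℝ => (4 * π) / (2 * η) * (Θ (r * cos δ) / Θ (r * cos η)))
      atTop (𝓝 0) := by
    simpa using hlim2.const_mul ((4 * π) / (2 * η))
  obtain ⟨N, hN⟩ := (Metric.tendsto_atTop.1 hlim3) (ε / 2) (by linarith)
  refine ⟨max N 1, fun r hr => ?_⟩
  have hr1 : 0 < r := lt_of_lt_of_le one_pos ((le_max_right _ _).trans hr)
  have hNr := hN r ((le_max_left _ _).trans hr)
  rw [Real.dist_eq, sub_zero] at hNr
  have hRr := hR0 r
  set R := ∫ b in (-π)..π, Θ (r * cos b) with hR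
  -- lower bound of R
  have hlow : 2 * η * Θ (r * cos η) ≤ R := by
    have h1 : ∫ b in (-η)..η, Θ (r * cos η) ≤ ∫ b in (-η)..η, Θ (r * cos b) := by
      apply intervalIntegral.integral_mono_on (by linarith) intervalIntegrable_const
        ((hcr r).intervalIntegrable _ _)
      intro b hb
      apply hmono
      apply mul_le_mul_of_nonneg_left _ hr1.le
      rw [← cos_abs b]
      apply cos_le_cos_of_nonneg_of_le_pi (abs_nonneg b) (by linarith [pi_pos])
      exact abs_le.2 ⟨hb.1, hb.2⟩
    rw [intervalIntegral.integral_const, smul_eq_mul] at h1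
    have h2 : ∫ b in (-η)..η, Θ (r * cos b) ≤ R := by
      apply intervalIntegral.integral_mono_interval (by linarith [pi_pos]) (by linarith)
        (by linarith [pi_pos]) _ ((hcr r).intervalIntegrable _ _)
      exact ae_of_all _ fun x => (hpos _).le
    calc 2 * η * Θ (r * cos η) = (η - -η) * Θ (r * cos η) := by ring
      _ ≤ _ := h1
      _ ≤ R := h2
  -- the difference
  have hdiff : |(∫ b in (-π)..π, Θ (r * cos b) * cos (n * b)) - R| ≤
      ε / 2 * R + 4 * π * Θ (r * cos δ) := by
    have e1 : (∫ b in (-π)..π, Θ (r * cos b) * cos (n * b)) - R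
        = ∫ b in (-π)..π, Θ (r * cos b) * (cos (n * b) - 1) := by
      rw [hR, ← intervalIntegral.integral_sub]
      · apply intervalIntegral.integral_congr
        intro b _
        simp only
        ring
      · exact ((hcr r).mul (by fun_prop)).intervalIntegrable _ _
      · exact (hcr r).intervalIntegrable _ _
    rw [e1, ← Real.norm_eq_abs]
    have e2 : ∫ b in (-π)..π, (ε / 2 * Θ (r * cos b) + 2 * Θ (r * cos δ))
        = ε / 2 * R + 4 * π * Θ (r * cos δ) := by
      rw [intervalIntegral.integral_add (((hcr r).intervalIntegrable _ _).const_mul _)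
        intervalIntegrable_const, intervalIntegral.integral_const_mul,
        intervalIntegral.integral_const, smul_eq_mul]
      ring
    rw [← e2]
    apply intervalIntegral.norm_integral_le_of_norm_le (by linarith [pi_pos])
    · refine ae_of_all _ fun b hb => ?_
      rw [Real.norm_eq_abs, abs_mul, abs_of_pos (hpos _)]
      rcases le_or_gt |b| δ with h | h
      · have := hδ2 b h
        have h3 : Θ (r * cos b) * |cos (n * b) - 1| ≤ Θ (r * cos b) * (ε / 2) :=
          mul_le_mul_of_nonneg_left this (hpos _).le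
        have h4 := hpos (r * cos δ)
        linarith
      · have h5 : |cos (n * b) - 1| ≤ 2 := by
          rw [abs_le]
          constructor <;> linarith [neg_one_le_cos (n * b), cos_le_one (n * b)]
        have h6 : Θ (r * cos b) ≤ Θ (r * cos δ) := by
          apply hmono
          apply mul_le_mul_of_nonneg_left _ hr1.le
          rw [← cos_abs b]
          apply cos_le_cos_of_nonneg_of_le_pi hδ0.le _ h.le
          exact abs_le.2 ⟨by linarith [hb.1], hb.2⟩
        have h7 := hpos (r * cos b)
        have h8 : Θ (r * cos b) * |cos (n * b) - 1| ≤ Θ (r * cos δ) * 2 :=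
          mul_le_mul h6 h5 (abs_nonneg _) (hpos _).le
        have h9 : 0 < ε / 2 * Θ (r * cos b) := by positivity
        linarith
    · apply Continuous.intervalIntegrable
      exact (continuous_const.mul (hcr r)).add continuous_const
  rw [Real.dist_eq]
  have e3 : (∫ b in (-π)..π, Θ (r * cos b) * cos (n * b)) / R - 1
      = ((∫ b in (-π)..π, Θ (r * cos b) * cos (n * b)) - R) / R := by
    field_simp
  rw [e3, abs_div, abs_of_pos hRr, div_lt_iff₀ hRr]
  have h10 : 4 * π * Θ (r * cos δ) < ε / 2 * R := by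
    have hpe := hpos (r * cos η)
    have h11 : (4 * π) / (2 * η) * (Θ (r * cos δ) / Θ (r * cos η)) < ε / 2 :=
      (abs_lt.1 hNr).2
    have h12 : (4 * π) / (2 * η) * (Θ (r * cos δ) / Θ (r * cos η)) * (2 * η * Θ (r * cos η))
        = 4 * π * Θ (r * cos δ) := by
      field_simp
    rw [← h12]
    calc (4 * π) / (2 * η) * (Θ (r * cos δ) / Θ (r * cos η)) * (2 * η * Θ (r * cos η))
        < ε / 2 * (2 * η * Θ (r * cos η)) := by
          apply mul_lt_mul_of_pos_right h11 (by positivity)
      _ ≤ ε / 2 * R := by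
          apply mul_le_mul_of_nonneg_left hlow (by linarith)
  linarith

end conc

/-- existence of a measure with the limit moments -/
lemma exists_moment_measure {F : ℝ → ℝ → ℝ} {C : ℝ} (hF0 : ∀ r, 0 < r → ∀ b, 0 ≤ F r b)
    (hFc : ∀ r, 0 < r → Continuous (F r)) (hmass : ∀ r, 0 < r → ∫ b in (-π)..π, F r b ≤ C)
    {ι : Type} (φ : ι → ℝ →ᵇ ℝ) (c : ι → ℝ)
    (hlim : ∀ i, Tendsto (fun r => ∫ b in (-π)..π, F r b * φ i b) atTop (𝓝 (c i))) :
    ∃ M : Measure ℝ, IsFiniteMeasure M ∧ M (Icc (-π) π)ᶜ = 0 ∧ ∀ i, ∫ ν, φ i ν ∂M = c i := by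
  have hππ : -π ≤ π := by linarith [pi_pos]
  -- truncated family
  let G : ℝ → ℝ → ℝ := fun r b => if 0 < r then F r b else 0
  have hG0 : ∀ r b, 0 ≤ G r b := by
    intro r b
    by_cases hr : 0 < r
    · simp only [G, hr, if_true]; exact hF0 r hr b
    · simp only [G, hr, if_false]; exact le_rfl
  have hGc : ∀ r, Continuous (G r) := by
    intro r
    by_cases hr : 0 < r
    · have : G r = F r := by funext b; simp only [G, hr, if_true]
      rw [this]; exact hFc r hr
    · have : G r = fun _ => 0 := by funext b; simp only [G, hr, if_false]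
      rw [this]; exact continuous_const
  have hC0 : 0 ≤ C := by
    refine le_trans ?_ (hmass 1 one_pos)
    exact intervalIntegral.integral_nonneg hππ fun b _ => hF0 1 one_pos b
  have hGm : ∀ r, ∫ b in (-π)..π, G r b ≤ C := by
    intro r
    by_cases hr : 0 < r
    · have : G r = F r := by funext b; simp only [G, hr, if_true]
      rw [this]; exact hmass r hr
    · have : G r = fun _ => 0 := by funext b; simp only [G, hr, if_false]
      rw [this]; simpa using hC0
  let μr : ℝ → Measure ℝ := fun r =>
    (volume.restrict (Ioc (-π) π)).withDensity (fun b => ENNReal.ofReal (G r b))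
  have hint : ∀ r, Integrable (G r) (volume.restrict (Ioc (-π) π)) := by
    intro r
    have := (hGc r).intervalIntegrable (μ := volume) (-π) π
    rwa [intervalIntegrable_iff_integrableOn_Ioc_of_le hππ] at this
  have hfin : ∀ r, IsFiniteMeasure (μr r) := fun r =>
    isFiniteMeasure_withDensity_ofReal (hint r).hasFiniteIntegral
  let m : ℝ → FiniteMeasure ℝ := fun r => ⟨μr r, hfin r⟩
  have hmm : ∀ r, ((m r : FiniteMeasure ℝ) : Measure ℝ) = μr r := fun r => rfl
  have huniv : ∀ r, μr r univ = ENNReal.ofReal (∫ b in (-π)..π, G r b) := by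
    intro r
    simp only [μr]
    rw [withDensity_apply _ MeasurableSet.univ, Measure.restrict_univ,
      intervalIntegral.integral_of_le hππ, ofReal_integral_eq_lintegral_ofReal (hint r)
        (ae_of_all _ fun b => hG0 r b)]
  have hK : IsCompact {μ : FiniteMeasure ℝ | μ.mass ≤ C.toNNReal ∧ μ (Icc (-π) π)ᶜ = 0} :=
    isCompact_setOfPred_finiteMeasure_le_of_isCompact C.toNNReal isCompact_Icc
  have hmem : ∀ r, m r ∈ {μ : FiniteMeasure ℝ | μ.mass ≤ C.toNNReal ∧ μ (Icc (-π) π)ᶜ = 0} := by
    intro r
    refine ⟨?_, ?_⟩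
    · rw [← ENNReal.coe_le_coe, FiniteMeasure.ennreal_mass, hmm, huniv]
      exact ENNReal.ofReal_le_ofReal (hGm r)
    · rw [← ENNReal.coe_eq_zero, FiniteMeasure.ennreal_coeFn_eq_coeFn_toMeasure, hmm]
      have h1 : (volume.restrict (Ioc (-π) π)) (Icc (-π) π)ᶜ = 0 := by
        rw [Measure.restrict_apply measurableSet_Icc.compl]
        have : (Icc (-π) π)ᶜ ∩ Ioc (-π) π = ∅ := by
          ext x
          simp only [mem_inter_iff, mem_compl_iff, mem_Icc, mem_Ioc, mem_empty_iff_false, iff_false]
          rintro ⟨h1, h2⟩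
          exact h1 ⟨h2.1.le, h2.2⟩
        rw [this]; simp
      exact withDensity_absolutelyContinuous _ _ h1
  let g : Ultrafilter ℝ := Ultrafilter.of atTop
  have hg : (g : Filter ℝ) ≤ atTop := Ultrafilter.of_le atTop
  obtain ⟨M, hMK, hMlim⟩ := hK.ultrafilter_le_nhds (g.map m)
    (by
      rw [Filter.le_principal_iff]
      exact Filter.mem_map.2 (Filter.univ_mem' hmem))
  have hMt : Tendsto m g (𝓝 M) := hMlim
  rw [FiniteMeasure.tendsto_iff_forall_integral_tendsto] at hMt
  refine ⟨(M : Measure ℝ), inferInstance, ?_, ?_⟩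
  · have := hMK.2
    rwa [← ENNReal.coe_eq_zero, FiniteMeasure.ennreal_coeFn_eq_coeFn_toMeasure] at this
  · intro i
    have h1 := hMt (φ i)
    have h2 : Tendsto (fun r => ∫ x, φ i x ∂((m r : FiniteMeasure ℝ) : Measure ℝ)) g (𝓝 (c i)) := by
      refine ((hlim i).mono_left hg).congr' ?_
      have h3 : ∀ᶠ r in (g : Filter ℝ), (0 : ℝ) < r := hg (eventually_gt_atTop 0)
      filter_upwards [h3] with r hr
      rw [hmm]
      have hmeas : Measurable (fun b => ENNReal.ofReal (G r b)) :=
        ENNReal.measurable_ofReal.comp (hGc r).measurable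
      simp only [μr]
      rw [integral_withDensity_eq_integral_toReal_smul hmeas
        (ae_of_all _ fun x => ENNReal.ofReal_lt_top), intervalIntegral.integral_of_le hππ]
      apply MeasureTheory.integral_congr_ae
      refine ae_of_all _ fun b => ?_
      simp only [smul_eq_mul]
      rw [ENNReal.toReal_ofReal (hG0 r b)]
      simp only [G, hr, if_true]
    exact tendsto_nhds_unique h1 h2

end Pool.Agent.EU.RepC
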