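import Pool.Agent.EU.RepB
import Pool.Agent.EU.RepC

/-!
Module REP: the representation theorem.
-/

set_option autoImplicit false

open Filter Topology Set Real MeasureTheory intervalIntegral
open scoped BoundedContinuousFunction

namespace Pool.Agent.EU

namespace Rep

open RepB

lemma norm_pol_le {r : ℝ} (hr : 0 ≤ r) (b : ℝ) : ‖pol r b‖ ≤ r := by
  unfold pol
  rw [Prod.norm_def]
  apply max_le
  · show ‖r * cos b‖ ≤ r
    rw [Real.norm_eq_abs, abs_mul, abs_of_nonneg hr]
    exact mul_le_of_le_one_right hr (abs_cos_le_one b)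
  · show ‖r * sin b‖ ≤ r
    rw [Real.norm_eq_abs, abs_mul, abs_of_nonneg hr]
    exact mul_le_of_le_one_right hr (abs_sin_le_one b)

lemma coef_bdd {Y : P → ℝ} (hYc : Continuous Y) : ∃ B : ℝ, ∀ φ : ℝ → ℝ, (∀ b, |φ b| ≤ 1) →
    ∀ r, 0 < r → r ≤ 1 → |∫ b in (-π)..π, Y (pol r b) * φ b| ≤ B := by
  obtain ⟨C, hC⟩ := (isCompact_closedBall (0 : P) 1).exists_bound_of_continuousOn hYc.continuousOn
  refine ⟨C * |π - -π|, fun φ hφ r hr hr1 => ?_⟩
  rw [← Real.norm_eq_abs]
  apply intervalIntegral.norm_integral_le_of_norm_le_const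
  intro b _
  rw [norm_mul]
  have h1 : ‖Y (pol r b)‖ ≤ C := by
    apply hC
    rw [mem_closedBall_zero_iff]
    exact (norm_pol_le hr.le b).trans hr1
  have h2 : ‖φ b‖ ≤ 1 := hφ b
  have h3 : 0 ≤ ‖Y (pol r b)‖ := norm_nonneg _
  calc ‖Y (pol r b)‖ * ‖φ b‖ ≤ ‖Y (pol r b)‖ * 1 := mul_le_mul_of_nonneg_left h2 h3
    _ ≤ C := by linarith

section phi

lemma hasDeriv_cos_n (n : ℕ) (b : ℝ) :
    HasDerivAt (fun b : ℝ => cos (n * b)) (-(n * sin (n * b))) b := by
  have h1 : HasDerivAt (fun b : ℝ => (n : ℝ) * b) n b := by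
    simpa using (hasDerivAt_id b).const_mul (n : ℝ)
  refine h1.cos.congr_deriv ?_
  ring

lemma hasDeriv_sin_n (n : ℕ) (b : ℝ) :
    HasDerivAt (fun b : ℝ => sin (n * b)) (n * cos (n * b)) b := by
  have h1 : HasDerivAt (fun b : ℝ => (n : ℝ) * b) n b := by
    simpa using (hasDerivAt_id b).const_mul (n : ℝ)
  refine h1.sin.congr_deriv ?_
  ring

end phi

section

variable {lam μ : ℝ} {Y : P → ℝ}

lemma sol_cos (hY2 : ∀ q, q ≠ 0 → ContDiffAt ℝ 2 Y q)
    (hY : ∀ q : P, q ≠ 0 →
      d1 (d1 Y) q + d2 (d2 Y) q - 2 * lam * (q.1 * d1 Y q + q.2 * d2 Y q) = μ * Y q) (n : ℕ) :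
    ∃ z, RepA.Sol (fun r => r * exp (-(lam * r ^ 2))) (fun r => μ + (n : ℝ) ^ 2 / r ^ 2)
      (fun r => ∫ b in (-π)..π, Y (pol r b) * cos (n * b)) z := by
  refine ⟨_, fourier_sol hY2 hY (κ := (n : ℝ)) (φ := fun b => cos (n * b))
    (φ' := fun b => -(n * sin (n * b))) (fun b => hasDeriv_cos_n n b) (fun b => ?_) ?_ ?_⟩
  · have := ((hasDeriv_sin_n n b).const_mul (n : ℝ)).neg
    refine this.congr_deriv ?_
    ring
  · rw [mul_neg, cos_neg]
  · rw [mul_neg, sin_neg, sin_nat_mul_pi]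
    simp

lemma sol_sin (hY2 : ∀ q, q ≠ 0 → ContDiffAt ℝ 2 Y q)
    (hY : ∀ q : P, q ≠ 0 →
      d1 (d1 Y) q + d2 (d2 Y) q - 2 * lam * (q.1 * d1 Y q + q.2 * d2 Y q) = μ * Y q) (n : ℕ) :
    ∃ z, RepA.Sol (fun r => r * exp (-(lam * r ^ 2))) (fun r => μ + (n : ℝ) ^ 2 / r ^ 2)
      (fun r => ∫ b in (-π)..π, Y (pol r b) * sin (n * b)) z := by
  refine ⟨_, fourier_sol hY2 hY (κ := (n : ℝ)) (φ := fun b => sin (n * b))
    (φ' := fun b => n * cos (n * b)) (fun b => hasDeriv_sin_n n b) (fun b => ?_) ?_ ?_⟩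
  · have := ((hasDeriv_cos_n n b).const_mul (n : ℝ))
    refine this.congr_deriv ?_
    ring
  · rw [mul_neg, sin_neg, sin_nat_mul_pi]
    simp
  · rw [mul_neg, cos_neg]

end

section theta

variable {Θ : ℝ → ℝ}

lemma odd_zero (r : ℝ) (n : ℕ) :
    ∫ b in (-π)..π, Θ (r * cos b) * sin (n * b) = 0 := by
  have h1 := intervalIntegral.integral_comp_neg (a := -π) (b := π)
    (fun b => Θ (r * cos b) * sin (n * b))
  simp only [cos_neg, mul_neg, sin_neg, neg_neg, intervalIntegral.integral_neg] at h1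
  linarith

lemma shift_periodic {g : ℝ → ℝ} (hg : Function.Periodic g (2 * π)) (ν : ℝ) :
    ∫ b in (-π)..π, g (b - ν) = ∫ b in (-π)..π, g b := by
  rw [intervalIntegral.integral_comp_sub_right]
  have h1 := hg.intervalIntegral_add_eq (-π - ν) (-π)
  have e1 : -π - ν + 2 * π = π - ν := by ring
  have e2 : -π + 2 * π = π := by ring
  rw [e1, e2] at h1
  exact h1

lemma conv_cos (hc : Continuous Θ) (r : ℝ) (n : ℕ) (ν : ℝ) :
    ∫ b in (-π)..π, Θ (r * cos (b - ν)) * cos (n * b)
      = cos (n * ν) * ∫ b in (-π)..π, Θ (r * cos b) * cos (n * b) := by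
  have hcr : Continuous fun b => Θ (r * cos b) := hc.comp (by fun_prop)
  have hper : Function.Periodic (fun b => Θ (r * cos b) * cos (n * (b + ν))) (2 * π) := by
    intro b
    simp only
    have e : (n : ℝ) * (b + 2 * π + ν) = n * (b + ν) + n * (2 * π) := by ring
    rw [cos_add_two_pi, e, cos_add_nat_mul_two_pi]
  have h1 := shift_periodic hper ν
  have h2 : ∫ b in (-π)..π, Θ (r * cos (b - ν)) * cos (n * b)
      = ∫ b in (-π)..π, Θ (r * cos (b - ν)) * cos (n * (b - ν + ν)) := by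
    simp only [sub_add_cancel]
  rw [h2, h1]
  have h3 : ∀ b : ℝ, Θ (r * cos b) * cos (n * (b + ν)) =
      cos (n * ν) * (Θ (r * cos b) * cos (n * b)) - sin (n * ν) * (Θ (r * cos b) * sin (n * b)) := by
    intro b
    rw [mul_add, cos_add]
    ring
  simp only [h3]
  rw [intervalIntegral.integral_sub, intervalIntegral.integral_const_mul,
    intervalIntegral.integral_const_mul, odd_zero]
  · ring
  · exact (continuous_const.mul (hcr.mul (by fun_prop))).intervalIntegrable _ _
  · exact (continuous_const.mul (hcr.mul (by fun_prop))).intervalIntegrable _ _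

lemma conv_sin (hc : Continuous Θ) (r : ℝ) (n : ℕ) (ν : ℝ) :
    ∫ b in (-π)..π, Θ (r * cos (b - ν)) * sin (n * b)
      = sin (n * ν) * ∫ b in (-π)..π, Θ (r * cos b) * cos (n * b) := by
  have hcr : Continuous fun b => Θ (r * cos b) := hc.comp (by fun_prop)
  have hper : Function.Periodic (fun b => Θ (r * cos b) * sin (n * (b + ν))) (2 * π) := by
    intro b
    simp only
    have e : (n : ℝ) * (b + 2 * π + ν) = n * (b + ν) + n * (2 * π) := by ring
    rw [cos_add_two_pi, e, sin_add_nat_mul_two_pi]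
  have h1 := shift_periodic hper ν
  have h2 : ∫ b in (-π)..π, Θ (r * cos (b - ν)) * sin (n * b)
      = ∫ b in (-π)..π, Θ (r * cos (b - ν)) * sin (n * (b - ν + ν)) := by
    simp only [sub_add_cancel]
  rw [h2, h1]
  have h3 : ∀ b : ℝ, Θ (r * cos b) * sin (n * (b + ν)) =
      cos (n * ν) * (Θ (r * cos b) * sin (n * b)) + sin (n * ν) * (Θ (r * cos b) * cos (n * b)) := by
    intro b
    rw [mul_add, sin_add]
    ring
  simp only [h3]
  rw [intervalIntegral.integral_add, intervalIntegral.integral_const_mul,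
    intervalIntegral.integral_const_mul, odd_zero]
  · ring
  · exact (continuous_const.mul (hcr.mul (by fun_prop))).intervalIntegrable _ _
  · exact (continuous_const.mul (hcr.mul (by fun_prop))).intervalIntegrable _ _

/-- the candidate -/
noncomputable def YM (Θ : ℝ → ℝ) (M : Measure ℝ) (q : P) : ℝ :=
  ∫ ν, Θ (q.1 * cos ν + q.2 * sin ν) ∂M

lemma arg_le (q : P) (ν : ℝ) : q.1 * cos ν + q.2 * sin ν ≤ 2 * ‖q‖ := by
  have h1 : |q.1| ≤ ‖q‖ := norm_fst_le q
  have h2 : |q.2| ≤ ‖q‖ := norm_snd_le q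
  have h3 : q.1 * cos ν ≤ |q.1| := by
    calc q.1 * cos ν ≤ |q.1 * cos ν| := le_abs_self _
      _ = |q.1| * |cos ν| := abs_mul _ _
      _ ≤ |q.1| := mul_le_of_le_one_right (abs_nonneg _) (abs_cos_le_one ν)
  have h4 : q.2 * sin ν ≤ |q.2| := by
    calc q.2 * sin ν ≤ |q.2 * sin ν| := le_abs_self _
      _ = |q.2| * |sin ν| := abs_mul _ _
      _ ≤ |q.2| := mul_le_of_le_one_right (abs_nonneg _) (abs_sin_le_one ν)
  linarith

lemma continuous_YM (hc : Continuous Θ) (hpos : ∀ t, 0 < Θ t) (hmono : Monotone Θ)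
    (M : Measure ℝ) [IsFiniteMeasure M] : Continuous (YM Θ M) := by
  rw [continuous_iff_continuousAt]
  intro q
  unfold YM
  apply continuousAt_of_dominated (bound := fun _ => Θ (2 * (‖q‖ + 1)))
  · refine Eventually.of_forall fun x => ?_
    exact (hc.comp (by fun_prop)).aestronglyMeasurable
  · have : ∀ᶠ x : P in 𝓝 q, ‖x‖ < ‖q‖ + 1 :=
      continuous_norm.continuousAt.eventually (gt_mem_nhds (by linarith))
    filter_upwards [this] with x hx
    refine ae_of_all _ fun ν => ?_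
    rw [Real.norm_eq_abs, abs_of_pos (hpos _)]
    apply hmono
    have := arg_le x ν
    linarith
  · exact integrable_const _
  · refine ae_of_all _ fun ν => ?_
    exact (hc.comp (by fun_prop)).continuousAt

lemma YM_pol (M : Measure ℝ) (r b : ℝ) : YM Θ M (pol r b) = ∫ ν, Θ (r * cos (b - ν)) ∂M := by
  unfold YM pol
  congr 1
  funext ν
  rw [cos_sub]
  congr 1
  ring

lemma fubini (hc : Continuous Θ) (hpos : ∀ t, 0 < Θ t) (hmono : Monotone Θ)
    (M : Measure ℝ) [IsFiniteMeasure M] {r : ℝ} (hr : 0 < r) {φ : ℝ → ℝ} (hφ : Continuous φ)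
    (hφ1 : ∀ b, |φ b| ≤ 1) :
    ∫ b in (-π)..π, YM Θ M (pol r b) * φ b
      = ∫ ν, (∫ b in (-π)..π, Θ (r * cos (b - ν)) * φ b) ∂M := by
  have hππ : -π ≤ π := by linarith [pi_pos]
  have e : ∀ b, YM Θ M (pol r b) * φ b = ∫ ν, Θ (r * cos (b - ν)) * φ b ∂M := fun b => by
    rw [YM_pol]
    exact (MeasureTheory.integral_mul_const _ _).symm
  simp only [e, intervalIntegral.integral_of_le hππ]
  apply integral_integral_swap
  apply Integrable.of_bound (C := Θ r)
  · apply Continuous.aestronglyMeasurable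
    unfold Function.uncurry
    exact (hc.comp (by fun_prop)).mul (hφ.comp continuous_fst)
  · refine ae_of_all _ fun x => ?_
    unfold Function.uncurry
    rw [norm_mul, Real.norm_eq_abs, abs_of_pos (hpos _), Real.norm_eq_abs]
    have h1 : Θ (r * cos (x.1 - x.2)) ≤ Θ r := by
      apply hmono
      exact mul_le_of_le_one_right hr.le (cos_le_one _)
    calc Θ (r * cos (x.1 - x.2)) * |φ x.1| ≤ Θ r * 1 :=
          mul_le_mul h1 (hφ1 _) (abs_nonneg _) (hpos _).le
      _ = Θ r := mul_one _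

end theta

lemma exists_pol {q : P} (hq : q ≠ 0) : ∃ r b : ℝ, 0 < r ∧ pol r b = q := by
  let z : ℂ := ⟨q.1, q.2⟩
  have hz : z ≠ 0 := by
    intro h
    apply hq
    have h1 : q.1 = 0 := congrArg Complex.re h
    have h2 : q.2 = 0 := congrArg Complex.im h
    exact Prod.ext h1 h2
  refine ⟨‖z‖, z.arg, norm_pos_iff.2 hz, ?_⟩
  unfold pol
  rw [Complex.norm_mul_cos_arg, Complex.norm_mul_sin_arg]

end Rep

open Pool.Agent.EU.Rep Pool.Agent.EU.RepB

theorem representation {lam μ : ℝ} (hlam : 0 ≤ lam) (hμ : 0 < μ) {Θ : ℝ → ℝ}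
    (hΘ : ContDiff ℝ 2 Θ) (hpos : ∀ t, 0 < Θ t) (hmono : Monotone Θ)
    (hode : ∀ t, deriv (deriv Θ) t = 2 * lam * t * deriv Θ t + μ * Θ t)
    (hconc : ∀ κ : ℝ, 0 < κ → κ < 1 → Tendsto (fun r => Θ (κ * r) / Θ r) atTop (𝓝 0))
    {Y : P → ℝ} (hY0 : ∀ q, 0 ≤ Y q) (hYc : Continuous Y) (hY2 : ∀ q, q ≠ 0 → ContDiffAt ℝ 2 Y q)
    (hY : ∀ q : P, q ≠ 0 →
      d1 (d1 Y) q + d2 (d2 Y) q - 2 * lam * (q.1 * d1 Y q + q.2 * d2 Y q) = μ * Y q) :
    ∃ M : Measure ℝ, IsFiniteMeasure M ∧ M (Icc (-π) π)ᶜ = 0 ∧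
      ∀ q : P, Y q = ∫ ν, Θ (q.1 * cos ν + q.2 * sin ν) ∂M := by
  have hc : Continuous Θ := hΘ.continuous
  -- the model solution
  let T0 : P → ℝ := fun q => Θ q.1
  have hT2 : ContDiff ℝ 2 T0 := hΘ.comp contDiff_fst
  have hΘd : Differentiable ℝ Θ := hΘ.differentiable (by norm_num)
  have hΘ1 : ContDiff ℝ 1 (deriv Θ) := by
    have : ContDiff ℝ (1 + 1) Θ := by
      convert hΘ using 1
      norm_num
    exact (contDiff_succ_iff_deriv.1 this).2.2
  have hΘ1d : Differentiable ℝ (deriv Θ) := hΘ1.differentiable (by norm_num)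
  have hfst : ∀ {f : ℝ → ℝ} (hf : Differentiable ℝ f) (q : P),
      HasFDerivAt (fun q : P => f q.1)
        ((ContinuousLinearMap.toSpanSingleton ℝ (deriv f q.1)).comp
          (ContinuousLinearMap.fst ℝ ℝ ℝ)) q := by
    intro f hf q
    have h1 : HasFDerivAt f (ContinuousLinearMap.toSpanSingleton ℝ (deriv f q.1)) q.1 :=
      (hf q.1).hasDerivAt.hasFDerivAt
    exact h1.comp q hasFDerivAt_fst
  have hd1 : ∀ {f : ℝ → ℝ} (hf : Differentiable ℝ f) (q : P),
      d1 (fun q : P => f q.1) q = deriv f q.1 := by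
    intro f hf q
    unfold d1
    rw [(hfst hf q).fderiv]
    simp
  have hd2 : ∀ {f : ℝ → ℝ} (hf : Differentiable ℝ f) (q : P),
      d2 (fun q : P => f q.1) q = 0 := by
    intro f hf q
    unfold d2
    rw [(hfst hf q).fderiv]
    simp
  have hTd1 : d1 T0 = fun q => deriv Θ q.1 := funext fun q => hd1 hΘd q
  have hTd2 : d2 T0 = fun _ => 0 := funext fun q => hd2 hΘd q
  have hTd22 : ∀ q, d2 (d2 T0) q = 0 := by
    intro q
    rw [hTd2]
    unfold d2
    simp
  have hTpde : ∀ q : P, q ≠ 0 →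
      d1 (d1 T0) q + d2 (d2 T0) q - 2 * lam * (q.1 * d1 T0 q + q.2 * d2 T0 q) = μ * T0 q := by
    intro q _
    rw [hTd22, hTd1, hTd2, hd1 hΘ1d, hode]
    show 2 * lam * q.1 * deriv Θ q.1 + μ * Θ q.1 + 0
      - 2 * lam * (q.1 * deriv Θ q.1 + q.2 * 0) = μ * Θ q.1
    ring
  -- abbreviations
  set R : ℕ → ℝ → ℝ := fun n r => ∫ b in (-π)..π, Θ (r * cos b) * cos (n * b) with hR
  set R0 : ℝ → ℝ := fun r => ∫ b in (-π)..π, Θ (r * cos b) with hR0
  have hcr : ∀ r : ℝ, Continuous fun b => Θ (r * cos b) := fun r => hc.comp (by fun_prop)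
  have hR0pos : ∀ r : ℝ, 0 < R0 r := by
    intro r
    apply intervalIntegral.intervalIntegral_pos_of_pos_on ((hcr r).intervalIntegrable _ _)
    · intro x _
      exact hpos _
    · linarith [pi_pos]
  have hR00 : ∀ r, R 0 r = R0 r := by
    intro r
    simp only [hR, hR0]
    congr 1
    funext b
    simp
  have hRlim : ∀ n, Tendsto (fun r => R n r / R0 r) atTop (𝓝 1) := fun n =>
    RepC.conc hc hpos hmono hconc n
  -- proportionality
  obtain ⟨B1, hB1⟩ := coef_bdd hYc
  obtain ⟨B2, hB2⟩ := coef_bdd hT2.continuous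
  have hcos1 : ∀ (n : ℕ) (b : ℝ), |cos (n * b)| ≤ 1 := fun n b => abs_cos_le_one _
  have hsin1 : ∀ (n : ℕ) (b : ℝ), |sin (n * b)| ≤ 1 := fun n b => abs_sin_le_one _
  have hprop : ∀ (n : ℕ) (w z : ℝ → ℝ), RepA.Sol (fun r => r * exp (-(lam * r ^ 2)))
      (fun r => μ + (n : ℝ) ^ 2 / r ^ 2) w z → (∀ r, 0 < r → r ≤ 1 → |w r| ≤ B1) →
      ∃ c, ∀ r, 0 < r → w r = c * R n r := by
    intro n w z hw hwB
    obtain ⟨y, hy⟩ := sol_cos (fun q _ => hT2.contDiffAt) hTpde n
    have hev : ∀ᶠ r in atTop, 0 < R n r := by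
      have h1 := (hRlim n).eventually (lt_mem_nhds (zero_lt_one (α := ℝ)))
      filter_upwards [h1] with r hr
      have h2 := hR0pos r
      have h3 : R n r = R n r / R0 r * R0 r := by field_simp
      rw [h3]
      positivity
    obtain ⟨r₀, hr₀⟩ := eventually_atTop.1 hev
    refine RepA.proportional hw hy ?_ ?_ ?_ (B := max B1 B2) ?_ ?_ (r₀ := r₀) ?_
    · intro r hr
      positivity
    · intro r hr
      positivity
    · intro r hr _
      have : exp (-(lam * r ^ 2)) ≤ 1 := by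
        rw [exp_le_one_iff]
        have : 0 ≤ lam * r ^ 2 := by positivity
        linarith
      exact mul_le_of_le_one_right hr.le this
    · intro r hr hr1
      exact (hwB r hr hr1).trans (le_max_left _ _)
    · intro r hr hr1
      exact (hB2 _ (hcos1 n) r hr hr1).trans (le_max_right _ _)
    · exact hr₀
  have hcn : ∀ n : ℕ, ∃ c, ∀ r, 0 < r → ∫ b in (-π)..π, Y (pol r b) * cos (n * b) = c * R n r := by
    intro n
    obtain ⟨z, hz⟩ := sol_cos hY2 hY n
    exact hprop n _ z hz fun r hr hr1 => hB1 _ (hcos1 n) r hr hr1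
  have hsn : ∀ n : ℕ, ∃ c, ∀ r, 0 < r → ∫ b in (-π)..π, Y (pol r b) * sin (n * b) = c * R n r := by
    intro n
    obtain ⟨z, hz⟩ := sol_sin hY2 hY n
    exact hprop n _ z hz fun r hr hr1 => hB1 _ (hsin1 n) r hr hr1
  choose c hc' using hcn
  choose s hs' using hsn
  have hYpol : ∀ r, Continuous fun b => Y (pol r b) := by
    intro r
    exact hYc.comp (continuous_pol.comp (by fun_prop : Continuous fun b : ℝ => (r, b)))
  -- the measure
  let φc : ℕ → ℝ →ᵇ ℝ := fun n =>
    BoundedContinuousFunction.ofNormedAddCommGroup (fun b => cos (n * b)) (by fun_prop) 1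
      (fun b => hcos1 n b)
  let φs : ℕ → ℝ →ᵇ ℝ := fun n =>
    BoundedContinuousFunction.ofNormedAddCommGroup (fun b => sin (n * b)) (by fun_prop) 1
      (fun b => hsin1 n b)
  have hlimc : ∀ n : ℕ, Tendsto (fun r => ∫ b in (-π)..π, Y (pol r b) / R0 r * cos (n * b)) atTop
      (𝓝 (c n)) := by
    intro n
    have h1 : Tendsto (fun r => c n * (R n r / R0 r)) atTop (𝓝 (c n * 1)) :=
      (hRlim n).const_mul (c n)
    rw [mul_one] at h1
    refine h1.congr' ?_
    filter_upwards [eventually_gt_atTop 0] with r hr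
    have e : ∀ b : ℝ, Y (pol r b) / R0 r * cos (n * b) = (R0 r)⁻¹ * (Y (pol r b) * cos (n * b)) := by
      intro b; ring
    simp only [e]
    rw [intervalIntegral.integral_const_mul, hc' n r hr]
    ring
  have hlims : ∀ n : ℕ, Tendsto (fun r => ∫ b in (-π)..π, Y (pol r b) / R0 r * sin (n * b)) atTop
      (𝓝 (s n)) := by
    intro n
    have h1 : Tendsto (fun r => s n * (R n r / R0 r)) atTop (𝓝 (s n * 1)) :=
      (hRlim n).const_mul (s n)
    rw [mul_one] at h1
    refine h1.congr' ?_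
    filter_upwards [eventually_gt_atTop 0] with r hr
    have e : ∀ b : ℝ, Y (pol r b) / R0 r * sin (n * b) = (R0 r)⁻¹ * (Y (pol r b) * sin (n * b)) := by
      intro b; ring
    simp only [e]
    rw [intervalIntegral.integral_const_mul, hs' n r hr]
    ring
  obtain ⟨M, hM1, hM2, hM3⟩ := RepC.exists_moment_measure
    (F := fun r b => Y (pol r b) / R0 r) (C := c 0)
    (fun r _ b => div_nonneg (hY0 _) (hR0pos r).le)
    (fun r _ => (hYpol r).div_const _)
    (fun r hr => by
      rw [intervalIntegral.integral_div]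
      have h1 := hc' 0 r hr
      rw [hR00] at h1
      have h2 : ∫ b in (-π)..π, Y (pol r b) = c 0 * R0 r := by
        rw [← h1]
        congr 1
        funext b
        simp
      rw [h2, mul_div_assoc, div_self (hR0pos r).ne', mul_one])
    (ι := ℕ ⊕ ℕ) (Sum.elim φc φs) (Sum.elim c s)
    (by
      rintro (n | n)
      · exact hlimc n
      · exact hlims n)
  have hMc : ∀ n : ℕ, ∫ ν, cos (n * ν) ∂M = c n := fun n => hM3 (Sum.inl n)
  have hMs : ∀ n : ℕ, ∫ ν, sin (n * ν) ∂M = s n := fun n => hM3 (Sum.inr n)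
  refine ⟨M, hM1, hM2, ?_⟩
  have hYM := continuous_YM hc hpos hmono M
  have hne : ∀ q : P, q ≠ 0 → Y q = YM Θ M q := by
    intro q hq
    obtain ⟨r, b₀, hr, rfl⟩ := exists_pol hq
    have hYMpol : Continuous fun b => YM Θ M (pol r b) :=
      hYM.comp (continuous_pol.comp (by fun_prop : Continuous fun b : ℝ => (r, b)))
    have hper : Function.Periodic (fun b => Y (pol r b) - YM Θ M (pol r b)) (2 * π) := by
      intro b
      have : pol r (b + 2 * π) = pol r b := by
        unfold pol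
        rw [cos_add_two_pi, sin_add_two_pi]
      simp only [this]
    have hz := RepC.fourier_unique (D := fun b => Y (pol r b) - YM Θ M (pol r b))
      ((hYpol r).sub hYMpol) hper
      (by
        intro n
        have hcn : Continuous fun b : ℝ => cos (n * b) := by fun_prop
        have i1 : IntervalIntegrable (fun b => Y (pol r b) * cos (n * b)) volume (-π) π :=
          ((hYpol r).mul hcn).intervalIntegrable _ _
        have i2 : IntervalIntegrable (fun b => YM Θ M (pol r b) * cos (n * b)) volume (-π) π :=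
          (hYMpol.mul hcn).intervalIntegrable _ _
        simp only [sub_mul]
        rw [intervalIntegral.integral_sub i1 i2, hc' n r hr,
          fubini hc hpos hmono M hr hcn (hcos1 n)]
        simp only [conv_cos hc r n]
        rw [MeasureTheory.integral_mul_const, hMc]
        ring)
      (by
        intro n
        have hsn : Continuous fun b : ℝ => sin (n * b) := by fun_prop
        have i1 : IntervalIntegrable (fun b => Y (pol r b) * sin (n * b)) volume (-π) π :=
          ((hYpol r).mul hsn).intervalIntegrable _ _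
        have i2 : IntervalIntegrable (fun b => YM Θ M (pol r b) * sin (n * b)) volume (-π) π :=
          (hYMpol.mul hsn).intervalIntegrable _ _
        simp only [sub_mul]
        rw [intervalIntegral.integral_sub i1 i2, hs' n r hr,
          fubini hc hpos hmono M hr hsn (hsin1 n)]
        simp only [conv_sin hc r n]
        rw [MeasureTheory.integral_mul_const, hMs]
        ring) b₀
    linarith
  have hall : Y = YM Θ M := by
    apply Continuous.ext_on (dense_compl_singleton (0 : P)) hYc hYM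
    intro q hq
    exact hne q hq
  intro q
  rw [hall]
  rfl

end Pool.Agent.EU
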