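import Pool.Agent.EU.B
import Pool.Agent.EU.C012
import Pool.Agent.EU.Pos1
import Pool.Agent.EU.Pos2
import Pool.Agent.EU.Rep

set_option autoImplicit false
open scoped ContDiff Topology ENNReal
open Real Set MeasureTheory Filter

namespace Pool.Agent.EU

theorem two_le_inf : (2 : WithTop ℕ∞) ≤ ((⊤ : ℕ∞) : WithTop ℕ∞) := by norm_cast

/-! ### calculus of `d1`, `d2` at a point -/

section calcrules

variable {f g : P → ℝ} {x : P}

theorem d1_mulAt (hf : DifferentiableAt ℝ f x) (hg : DifferentiableAt ℝ g x) :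
    d1 (fun q => f q * g q) x = d1 f x * g x + f x * d1 g x := by
  have h : HasFDerivAt (fun q => f q * g q) (f x • fderiv ℝ g x + g x • fderiv ℝ f x) x :=
    hf.hasFDerivAt.mul hg.hasFDerivAt
  unfold d1
  rw [h.fderiv]
  simp only [_root_.add_apply, _root_.smul_apply, smul_eq_mul]
  ring

theorem d2_mulAt (hf : DifferentiableAt ℝ f x) (hg : DifferentiableAt ℝ g x) :
    d2 (fun q => f q * g q) x = d2 f x * g x + f x * d2 g x := by
  have h : HasFDerivAt (fun q => f q * g q) (f x • fderiv ℝ g x + g x • fderiv ℝ f x) x :=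
    hf.hasFDerivAt.mul hg.hasFDerivAt
  unfold d2
  rw [h.fderiv]
  simp only [_root_.add_apply, _root_.smul_apply, smul_eq_mul]
  ring

theorem d1_addAt (hf : DifferentiableAt ℝ f x) (hg : DifferentiableAt ℝ g x) :
    d1 (fun q => f q + g q) x = d1 f x + d1 g x := by
  have h : HasFDerivAt (fun q => f q + g q) (fderiv ℝ f x + fderiv ℝ g x) x :=
    hf.hasFDerivAt.add hg.hasFDerivAt
  unfold d1
  rw [h.fderiv]; rfl

theorem d2_addAt (hf : DifferentiableAt ℝ f x) (hg : DifferentiableAt ℝ g x) :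
    d2 (fun q => f q + g q) x = d2 f x + d2 g x := by
  have h : HasFDerivAt (fun q => f q + g q) (fderiv ℝ f x + fderiv ℝ g x) x :=
    hf.hasFDerivAt.add hg.hasFDerivAt
  unfold d2
  rw [h.fderiv]; rfl

theorem d1_subAt (hf : DifferentiableAt ℝ f x) (hg : DifferentiableAt ℝ g x) :
    d1 (fun q => f q - g q) x = d1 f x - d1 g x := by
  have h : HasFDerivAt (fun q => f q - g q) (fderiv ℝ f x - fderiv ℝ g x) x :=
    hf.hasFDerivAt.sub hg.hasFDerivAt
  unfold d1
  rw [h.fderiv]; rfl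

theorem d2_subAt (hf : DifferentiableAt ℝ f x) (hg : DifferentiableAt ℝ g x) :
    d2 (fun q => f q - g q) x = d2 f x - d2 g x := by
  have h : HasFDerivAt (fun q => f q - g q) (fderiv ℝ f x - fderiv ℝ g x) x :=
    hf.hasFDerivAt.sub hg.hasFDerivAt
  unfold d2
  rw [h.fderiv]; rfl

theorem d1_cmul (c : ℝ) (f : P → ℝ) (x : P) : d1 (fun q => c * f q) x = c * d1 f x := by
  unfold d1
  rw [show (fun q => c * f q) = c • f from rfl, fderiv_const_smul_field]; rfl

theorem d2_cmul (c : ℝ) (f : P → ℝ) (x : P) : d2 (fun q => c * f q) x = c * d2 f x := by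
  unfold d2
  rw [show (fun q => c * f q) = c • f from rfl, fderiv_const_smul_field]; rfl

/-- exponential of a function depending on the coordinates -/
theorem d1_expAt (hf : DifferentiableAt ℝ f x) :
    d1 (fun q => Real.exp (f q)) x = Real.exp (f x) * d1 f x := by
  have h : HasFDerivAt (fun q => Real.exp (f q)) (Real.exp (f x) • fderiv ℝ f x) x :=
    hf.hasFDerivAt.exp
  unfold d1
  rw [h.fderiv]; rfl

theorem d2_expAt (hf : DifferentiableAt ℝ f x) :
    d2 (fun q => Real.exp (f q)) x = Real.exp (f x) * d2 f x := by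
  have h : HasFDerivAt (fun q => Real.exp (f q)) (Real.exp (f x) • fderiv ℝ f x) x :=
    hf.hasFDerivAt.exp
  unfold d2
  rw [h.fderiv]; rfl

theorem d1_eqOf {φ : ℝ → ℝ} {c : ℝ} (hf : DifferentiableAt ℝ f x)
    (h : ∀ s, f (s, x.2) = φ s) (hφ : HasDerivAt φ c x.1) : d1 f x = c := by
  have h1 := hasDerivAt_d1 hf
  have h2 : (fun s => f (s, x.2)) = φ := funext h
  rw [h2] at h1
  exact h1.unique hφ

theorem d2_eqOf {φ : ℝ → ℝ} {c : ℝ} (hf : DifferentiableAt ℝ f x)
    (h : ∀ s, f (x.1, s) = φ s) (hφ : HasDerivAt φ c x.2) : d2 f x = c := by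
  have h1 := hasDerivAt_d2 hf
  have h2 : (fun s => f (x.1, s)) = φ := funext h
  rw [h2] at h1
  exact h1.unique hφ

theorem contDiffAt_d1 {E : Type*} [NormedAddCommGroup E] [NormedSpace ℝ E] {f : P → E} {x : P}
    (h : ContDiffAt ℝ ∞ f x) : ContDiffAt ℝ ∞ (d1 f) x :=
  (h.fderiv_right (m := ∞) (by simp)).clm_apply contDiffAt_const

theorem contDiffAt_d2 {E : Type*} [NormedAddCommGroup E] [NormedSpace ℝ E] {f : P → E} {x : P}
    (h : ContDiffAt ℝ ∞ f x) : ContDiffAt ℝ ∞ (d2 f) x :=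
  (h.fderiv_right (m := ∞) (by simp)).clm_apply contDiffAt_const

theorem d1_d2_commAt {f : P → ℝ} {x : P} (h : ContDiffAt ℝ ∞ f x) : d1 (d2 f) x = d2 (d1 f) x := by
  have hs : IsSymmSndFDerivAt ℝ f x := h.isSymmSndFDerivAt (by simpa using two_le_inf)
  have hd : DifferentiableAt ℝ (fderiv ℝ f) x :=
    (h.fderiv_right (m := 1) (by norm_cast)).differentiableAt (by norm_num)
  have e1 : d1 (d2 f) x = fderiv ℝ (fderiv ℝ f) x (1, 0) (0, 1) := by
    have : HasFDerivAt (fun y => fderiv ℝ f y (0, 1))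
        ((ContinuousLinearMap.apply ℝ ℝ ((0 : ℝ), (1 : ℝ))).comp (fderiv ℝ (fderiv ℝ f) x)) x :=
      (ContinuousLinearMap.apply ℝ ℝ ((0 : ℝ), (1 : ℝ))).hasFDerivAt.comp x hd.hasFDerivAt
    show fderiv ℝ (fun y => fderiv ℝ f y (0, 1)) x (1, 0) = _
    rw [this.fderiv]; rfl
  have e2 : d2 (d1 f) x = fderiv ℝ (fderiv ℝ f) x (0, 1) (1, 0) := by
    have : HasFDerivAt (fun y => fderiv ℝ f y (1, 0))
        ((ContinuousLinearMap.apply ℝ ℝ ((1 : ℝ), (0 : ℝ))).comp (fderiv ℝ (fderiv ℝ f) x)) x :=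
      (ContinuousLinearMap.apply ℝ ℝ ((1 : ℝ), (0 : ℝ))).hasFDerivAt.comp x hd.hasFDerivAt
    show fderiv ℝ (fun y => fderiv ℝ f y (1, 0)) x (0, 1) = _
    rw [this.fderiv]; rfl
  rw [e1, e2]
  exact hs _ _

end calcrules

/-- a function with vanishing partial derivatives off the line `q₂ = 0`, and the line `q₁ = 1`,
is constant -/
theorem const_of_partials {D : P → ℝ} (hD : Continuous D) (hd : ∀ q, q ≠ 0 → DifferentiableAt ℝ D q)
    (h1 : ∀ q, q ≠ 0 → d1 D q = 0) (h2 : ∀ q, q ≠ 0 → d2 D q = 0) : ∀ q, D q = D (1, 1) := by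
  have hmain : ∀ q : P, q.2 ≠ 0 → D q = D (1, 1) := by
    intro q hq
    have e1 : D (q.1, q.2) = D (1, q.2) := by
      refine is_const_of_deriv_eq_zero (f := fun s => D (s, q.2)) ?_ ?_ _ _
      · intro s
        exact (hasDerivAt_d1 (x := (s, q.2)) (hd _ fun h => hq (congrArg Prod.snd h))).differentiableAt
      · intro s
        rw [(hasDerivAt_d1 (x := (s, q.2)) (hd _ fun h => hq (congrArg Prod.snd h))).deriv]
        exact h1 _ fun h => hq (congrArg Prod.snd h)
    have e2 : D (1, q.2) = D (1, 1) := by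
      refine is_const_of_deriv_eq_zero (f := fun s => D (1, s)) ?_ ?_ _ _
      · intro s
        exact (hasDerivAt_d2 (x := (1, s)) (hd _ fun h => one_ne_zero (congrArg Prod.fst h))).differentiableAt
      · intro s
        rw [(hasDerivAt_d2 (x := (1, s)) (hd _ fun h => one_ne_zero (congrArg Prod.fst h))).deriv]
        exact h2 _ fun h => one_ne_zero (congrArg Prod.fst h)
    rw [← e2, ← e1]
  intro q
  by_cases hq : q.2 = 0
  · have hc1 : Tendsto (fun t : ℝ => D (q.1, t)) (𝓝[≠] 0) (𝓝 (D (q.1, 0))) := by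
      have : Continuous fun t : ℝ => D (q.1, t) := hD.comp (by fun_prop)
      exact (this.tendsto 0).mono_left nhdsWithin_le_nhds
    have hc2 : Tendsto (fun t : ℝ => D (q.1, t)) (𝓝[≠] 0) (𝓝 (D (1, 1))) := by
      refine tendsto_const_nhds.congr' ?_
      filter_upwards [self_mem_nhdsWithin] with t ht
      exact (hmain (q.1, t) ht).symm
    have := tendsto_nhds_unique hc1 hc2
    rw [← this, ← hq]
  · exact hmain q hq

theorem sg_diff (γ : ℝ) : ContDiff ℝ ∞ (sg γ) := by unfold sg; fun_prop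
theorem ta_diff (γ : ℝ) : ContDiff ℝ ∞ (ta γ) := by unfold ta; fun_prop

theorem d1_ta (γ : ℝ) (q : P) : d1 (ta γ) q = -(sin γ) := by
  refine d1_eqOf ((ta_diff γ).differentiable (by simp) q) (φ := fun s => -(s * sin γ) + q.2 * cos γ)
    (fun s => rfl) ?_
  have := (((hasDerivAt_id q.1).mul_const (sin γ)).neg).add_const (q.2 * cos γ)
  simpa using this

theorem d2_ta (γ : ℝ) (q : P) : d2 (ta γ) q = cos γ := by
  refine d2_eqOf ((ta_diff γ).differentiable (by simp) q) (φ := fun s => -(q.1 * sin γ) + s * cos γ)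
    (fun s => rfl) ?_
  have := ((hasDerivAt_id q.2).mul_const (cos γ)).const_add (-(q.1 * sin γ))
  simpa using this

theorem rep_exp {V : P → ℝ} (hV0 : ∀ q, 0 ≤ V q) (hV : ContDiff ℝ ∞ V)
    (hE : ∀ q, d1 (d1 V) q + d2 (d2 V) q = V q / 4) :
    ∃ M : Measure ℝ, IsFiniteMeasure M ∧ M (Icc (-π) π)ᶜ = 0 ∧
      ∀ q : P, V q = ∫ ν, Real.exp ((q.1 * cos ν + q.2 * sin ν) / 2) ∂M := by
  have hder : ∀ t : ℝ, HasDerivAt (fun t => Real.exp (t / 2)) (Real.exp (t / 2) / 2) t := by
    intro t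
    have : HasDerivAt (fun t => Real.exp (t / 2)) (Real.exp (t / 2) * (1 / 2)) t :=
      ((hasDerivAt_id t).div_const 2).exp
    convert this using 1
    ring
  have hd1 : deriv (fun t => Real.exp (t / 2)) = fun t => Real.exp (t / 2) / 2 :=
    funext fun t => (hder t).deriv
  refine representation (lam := 0) (μ := 1 / 4) le_rfl (by norm_num) (Θ := fun t => Real.exp (t / 2))
    (by fun_prop) (fun t => Real.exp_pos _) ?_ ?_ ?_ hV0 hV.continuous
    (fun q _ => (hV.of_le two_le_inf).contDiffAt) ?_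
  · intro s t hst
    exact Real.exp_le_exp.2 (by linarith)
  · intro t
    rw [hd1]
    have : deriv (fun t => Real.exp (t / 2) / 2) t = Real.exp (t / 2) / 2 / 2 :=
      ((hder t).div_const 2).deriv
    rw [this]; ring
  · intro κ hκ hκ1
    have h1 : (fun r => Real.exp (κ * r / 2) / Real.exp (r / 2)) = fun r => Real.exp (-((1 - κ) / 2 * r)) := by
      funext r
      rw [← Real.exp_sub]; congr 1; ring
    rw [h1]
    refine Real.tendsto_exp_neg_atTop_nhds_zero.comp ?_
    exact tendsto_id.const_mul_atTop (by linarith : (0:ℝ) < (1 - κ) / 2)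
  · intro q _
    rw [hE q]; ring

theorem typeI_of_pos (F : P ≃ₜ P) (hF : ContDiff ℝ ∞ F)
    (h1 : ∀ q : P, d1 (fun q => (F q).2) q = -(Real.exp (-q.1) * d2 (fun q => (F q).1) q))
    (h2 : ∀ q : P, d2 (fun q => (F q).2) q = Real.exp (-q.1) * d1 (fun q => (F q).1) q)
    (h0 : ∀ q : P, d1 (fun q => (F q).1) q ≠ 0 ∨ d2 (fun q => (F q).1) q ≠ 0)
    (γ : ℝ) (hγ : ∀ q : P, 0 ≤ cos γ * d1 (fun q => (F q).1) q + sin γ * d2 (fun q => (F q).1) q) :
    ∃ (b : ℝ) (M : Measure ℝ), TypeI γ b M F := by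
  set X : P → ℝ := fun q => (F q).1 with hXdef
  set Y : P → ℝ := fun q => (F q).2 with hYdef
  have hX : ContDiff ℝ ∞ X := hF.fst
  have hY : ContDiff ℝ ∞ Y := hF.snd
  have hX1 : ContDiff ℝ ∞ (d1 X) := smooth_d1 hX
  have hX2 : ContDiff ℝ ∞ (d2 X) := smooth_d2 hX
  have dif : ∀ {f : P → ℝ}, ContDiff ℝ ∞ f → ∀ q, DifferentiableAt ℝ f q :=
    fun h q => h.differentiable (by simp) q
  have hcs : cos γ ^ 2 + sin γ ^ 2 = 1 := Real.cos_sq_add_sin_sq γ
  -- the equation `X₁₁ + X₂₂ = X₁`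
  have hq1 : ContDiff ℝ ∞ (fun q : P => Real.exp (-q.1)) := by fun_prop
  have hex1 : ∀ q, d1 (fun q : P => Real.exp (-q.1)) q = -(Real.exp (-q.1)) := by
    intro q
    refine d1_eqOf (dif hq1 q) (φ := fun s => Real.exp (-s)) (fun s => rfl) ?_
    have := (hasDerivAt_neg q.1).exp
    simpa using this
  have hex2 : ∀ q, d2 (fun q : P => Real.exp (-q.1)) q = 0 :=
    fun q => d2_eqOf (dif hq1 q) (φ := fun s => Real.exp (-q.1)) (fun s => rfl) (hasDerivAt_const _ _)
  have hlap : ∀ q, d1 (d1 X) q + d2 (d2 X) q = d1 X q := by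
    intro q
    have hc := d1_d2_comm (hY.of_le two_le_inf) q
    have e1 : d2 Y = fun q => Real.exp (-q.1) * d1 X q := funext h2
    have e2 : d1 Y = fun q => -(Real.exp (-q.1) * d2 X q) := funext h1
    rw [e1, e2, d1_mulAt (dif hq1 q) (dif hX1 q), d2_neg', d2_mulAt (dif hq1 q) (dif hX2 q),
      hex1, hex2] at hc
    have hpos := Real.exp_pos (-q.1)
    have : Real.exp (-q.1) * (d1 (d1 X) q + d2 (d2 X) q - d1 X q) = 0 := by linarith
    rcases mul_eq_zero.1 this with h | h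
    · exact absurd h hpos.ne'
    · linarith
  -- `W` and `κ`
  set W : P → ℝ := fun q => cos γ * d1 X q + sin γ * d2 X q with hW
  set κ : P → ℝ := fun q => -(sin γ) * d1 X q + cos γ * d2 X q with hκ
  have hWs : ContDiff ℝ ∞ W := by unfold W; fun_prop
  have hκs : ContDiff ℝ ∞ κ := by unfold κ; fun_prop
  have hX11 := smooth_d1 hX1
  have hX12 := smooth_d1 hX2
  have hX21 := smooth_d2 hX1
  have hX22 := smooth_d2 hX2
  have dW1 : ∀ q, d1 W q = cos γ * d1 (d1 X) q + sin γ * d1 (d2 X) q := by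
    intro q
    rw [hW, d1_addAt ((dif hX1 q).const_mul _) ((dif hX2 q).const_mul _), d1_cmul, d1_cmul]
  have dW2 : ∀ q, d2 W q = cos γ * d2 (d1 X) q + sin γ * d2 (d2 X) q := by
    intro q
    rw [hW, d2_addAt ((dif hX1 q).const_mul _) ((dif hX2 q).const_mul _), d2_cmul, d2_cmul]
  have dκ1 : ∀ q, d1 κ q = -(sin γ) * d1 (d1 X) q + cos γ * d1 (d2 X) q := by
    intro q
    rw [hκ, d1_addAt ((dif hX1 q).const_mul _) ((dif hX2 q).const_mul _), d1_cmul, d1_cmul]
  have dκ2 : ∀ q, d2 κ q = -(sin γ) * d2 (d1 X) q + cos γ * d2 (d2 X) q := by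
    intro q
    rw [hκ, d2_addAt ((dif hX1 q).const_mul _) ((dif hX2 q).const_mul _), d2_cmul, d2_cmul]
  have hcomm : ∀ q, d1 (d2 X) q = d2 (d1 X) q := d1_d2_comm (hX.of_le two_le_inf)
  -- Laplace equation for `W`
  have hWlap : ∀ q, d1 (d1 W) q + d2 (d2 W) q = d1 W q := by
    intro q
    have e1 : d1 W = fun q => cos γ * d1 (d1 X) q + sin γ * d1 (d2 X) q := funext dW1
    have e2 : d2 W = fun q => cos γ * d2 (d1 X) q + sin γ * d2 (d2 X) q := funext dW2
    have t1 : d1 (d1 W) q = cos γ * d1 (d1 (d1 X)) q + sin γ * d1 (d1 (d2 X)) q := by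
      rw [e1, d1_addAt ((dif hX11 q).const_mul _) ((dif hX12 q).const_mul _), d1_cmul, d1_cmul]
    have t2 : d2 (d2 W) q = cos γ * d2 (d2 (d1 X)) q + sin γ * d2 (d2 (d2 X)) q := by
      rw [e2, d2_addAt ((dif hX21 q).const_mul _) ((dif hX22 q).const_mul _), d2_cmul, d2_cmul]
    have l1 : d1 (fun q => d1 (d1 X) q + d2 (d2 X) q) q = d1 (d1 X) q := by
      rw [show (fun q => d1 (d1 X) q + d2 (d2 X) q) = d1 X from funext hlap]
    have l2 : d2 (fun q => d1 (d1 X) q + d2 (d2 X) q) q = d2 (d1 X) q := by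
      rw [show (fun q => d1 (d1 X) q + d2 (d2 X) q) = d1 X from funext hlap]
    rw [d1_addAt (dif hX11 q) (dif hX22 q)] at l1
    rw [d2_addAt (dif hX11 q) (dif hX22 q)] at l2
    have c1 : d1 (d2 (d2 X)) q = d2 (d2 (d1 X)) q := by
      rw [d1_d2_comm (hX2.of_le two_le_inf) q, show d1 (d2 X) = d2 (d1 X) from funext hcomm]
    have c2 : d2 (d1 (d1 X)) q = d1 (d1 (d2 X)) q := by
      rw [← d1_d2_comm (hX1.of_le two_le_inf) q, show d1 (d2 X) = d2 (d1 X) from funext hcomm]
    rw [t1, t2, dW1, ← c1, ← c2, hcomm]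
    linear_combination cos γ * l1 + sin γ * l2
  -- `V = exp(-q₁/2) W`
  set V : P → ℝ := fun q => Real.exp (-(q.1 / 2)) * W q with hV
  have hg : ContDiff ℝ ∞ (fun q : P => Real.exp (-(q.1 / 2))) := by fun_prop
  have hg1 : ∀ q, d1 (fun q : P => Real.exp (-(q.1 / 2))) q = -(1/2) * Real.exp (-(q.1 / 2)) := by
    intro q
    refine d1_eqOf (dif hg q) (φ := fun s => Real.exp (-(s / 2))) (fun s => rfl) ?_
    have : HasDerivAt (fun s => Real.exp (-(s / 2))) (Real.exp (-(q.1 / 2)) * -(1 / 2)) q.1 :=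
      (((hasDerivAt_id q.1).div_const 2).neg).exp
    convert this using 1
    ring
  have hg2 : ∀ q, d2 (fun q : P => Real.exp (-(q.1 / 2))) q = 0 :=
    fun q => d2_eqOf (dif hg q) (φ := fun s => Real.exp (-(q.1 / 2))) (fun s => rfl) (hasDerivAt_const _ _)
  have hVs : ContDiff ℝ ∞ V := hg.mul hWs
  have hW1 := smooth_d1 hWs
  have hW2 := smooth_d2 hWs
  have hVlap : ∀ q, d1 (d1 V) q + d2 (d2 V) q = V q / 4 := by
    intro q
    have e1 : d1 V = fun q => Real.exp (-(q.1 / 2)) * (d1 W q - W q / 2) := by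
      funext q
      rw [hV, d1_mulAt (dif hg q) (dif hWs q), hg1]; ring
    have e2 : d2 V = fun q => Real.exp (-(q.1 / 2)) * d2 W q := by
      funext q
      rw [hV, d2_mulAt (dif hg q) (dif hWs q), hg2]; ring
    have hw2 : ∀ q, d1 (fun q => W q / 2) q = d1 W q / 2 := by
      intro q
      have : (fun q => W q / 2) = fun q => (1/2) * W q := by funext q; ring
      rw [this, d1_cmul]; ring
    have hWd : ∀ q, DifferentiableAt ℝ (fun q => W q / 2) q := by
      intro q
      have h3 : (fun q => W q / 2) = fun q => (1/2) * W q := by funext q; ring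
      rw [h3]; exact (dif hWs q).const_mul _
    have t1 : d1 (fun q => d1 W q - W q / 2) q = d1 (d1 W) q - d1 W q / 2 := by
      rw [d1_subAt (dif hW1 q) (hWd q), hw2]
    have hdd : DifferentiableAt ℝ (fun q => d1 W q - W q / 2) q :=
      (dif hW1 q).sub (hWd q)
    rw [e1, e2, d1_mulAt (dif hg q) hdd, d2_mulAt (dif hg q) (dif hW2 q), hg1, hg2, t1]
    have := hWlap q
    rw [hV]
    linear_combination Real.exp (-(q.1 / 2)) * this
  have hV0 : ∀ q, 0 ≤ V q := fun q => mul_nonneg (Real.exp_pos _).le (hγ q)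
  obtain ⟨M, hMf, hMs, hMr⟩ := rep_exp hV0 hVs hVlap
  have hWM : ∀ q, W q = W1 M q := by
    intro q
    have h3 := hMr q
    have h4 : W q = Real.exp (q.1 / 2) * V q := by
      rw [hV]
      rw [← mul_assoc, ← Real.exp_add]; simp
    rw [h4, h3, W1, ← integral_const_mul]
    refine integral_congr_ae (Eventually.of_forall fun ν => ?_)
    simp only [EE]
    rw [← Real.exp_add]; congr 1; ring
  have hWfun : W = W1 M := funext hWM
  -- determination of `κ`
  have hK0s : ContDiff ℝ ∞ (K1 γ 0 M) := K1_smooth γ 0 M hMs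
  set G : P → ℝ := fun q => Real.exp (ta γ q * sin γ) * (κ q - K1 γ 0 M q) with hG
  have hta : ContDiff ℝ ∞ (ta γ) := ta_diff γ
  have hEs : ContDiff ℝ ∞ (fun q => Real.exp (ta γ q * sin γ)) := (hta.mul contDiff_const).exp
  have hE1 : ∀ q, d1 (fun q => Real.exp (ta γ q * sin γ)) q =
      -(sin γ) * sin γ * Real.exp (ta γ q * sin γ) := by
    intro q
    rw [d1_expAt ((dif hta q).mul_const _)]
    have : (fun q => ta γ q * sin γ) = fun q => sin γ * ta γ q := by funext q; ring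
    rw [this, d1_cmul, d1_ta]; ring
  have hE2 : ∀ q, d2 (fun q => Real.exp (ta γ q * sin γ)) q =
      cos γ * sin γ * Real.exp (ta γ q * sin γ) := by
    intro q
    rw [d2_expAt ((dif hta q).mul_const _)]
    have : (fun q => ta γ q * sin γ) = fun q => sin γ * ta γ q := by funext q; ring
    rw [this, d2_cmul, d2_ta]; ring
  have hDs : ContDiff ℝ ∞ (fun q => κ q - K1 γ 0 M q) := hκs.sub hK0s
  have hGs : ContDiff ℝ ∞ G := hEs.mul hDs
  have hrel : ∀ q, d1 (fun q => κ q - K1 γ 0 M q) q = sin γ * sin γ * (κ q - K1 γ 0 M q) ∧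
      d2 (fun q => κ q - K1 γ 0 M q) q = -(cos γ * sin γ * (κ q - K1 γ 0 M q)) := by
    intro q
    rw [d1_subAt (dif hκs q) (dif hK0s q), d2_subAt (dif hκs q) (dif hK0s q)]
    obtain ⟨r1, r2⟩ := K1_relations γ 0 M hMs q
    rw [← hWfun] at r1 r2
    -- the same relations for `κ`
    have s1 : cos γ * d1 κ q + sin γ * d2 κ q = -(sin γ) * d1 W q + cos γ * d2 W q := by
      rw [dκ1, dκ2, dW1, dW2, hcomm]; ring
    have s2 : -(sin γ) * d1 κ q + cos γ * d2 κ q + sin γ * κ q =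
        cos γ * W q - (cos γ * d1 W q + sin γ * d2 W q) := by
      rw [dκ1, dκ2, dW1, dW2, hcomm]
      have := hlap q
      simp only [hκ, hW]
      linear_combination (cos γ ^ 2 + sin γ ^ 2) * this
    have u1 : cos γ * (d1 κ q - d1 (K1 γ 0 M) q) + sin γ * (d2 κ q - d2 (K1 γ 0 M) q) = 0 := by
      linear_combination s1 - r1
    have u2 : -(sin γ) * (d1 κ q - d1 (K1 γ 0 M) q) + cos γ * (d2 κ q - d2 (K1 γ 0 M) q) =
        -(sin γ * (κ q - K1 γ 0 M q)) := by
      linear_combination s2 - r2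
    constructor
    · linear_combination cos γ * u1 - sin γ * u2 - (d1 κ q - d1 (K1 γ 0 M) q) * hcs
    · linear_combination sin γ * u1 + cos γ * u2 - (d2 κ q - d2 (K1 γ 0 M) q) * hcs
  have hGc : ∀ q, G q = G (1, 1) := by
    refine const_of_partials hGs.continuous (fun q _ => dif hGs q) (fun q _ => ?_) (fun q _ => ?_)
    · rw [hG, d1_mulAt (dif hEs q) (dif hDs q), hE1, (hrel q).1]; ring
    · rw [hG, d2_mulAt (dif hEs q) (dif hDs q), hE2, (hrel q).2]; ring
  set b : ℝ := G (1, 1) with hb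
  have hκM : ∀ q, κ q = K1 γ b M q := by
    intro q
    have h3 := hGc q
    simp only [hG] at h3
    have h4 : Real.exp (-(ta γ q * sin γ)) * Real.exp (ta γ q * sin γ) = 1 := by
      rw [← Real.exp_add]; simp
    have h5 : κ q - K1 γ 0 M q = b * Real.exp (-(ta γ q * sin γ)) := by
      calc κ q - K1 γ 0 M q = (Real.exp (-(ta γ q * sin γ)) * Real.exp (ta γ q * sin γ)) *
            (κ q - K1 γ 0 M q) := by rw [h4, one_mul]
        _ = Real.exp (-(ta γ q * sin γ)) * (Real.exp (ta γ q * sin γ) * (κ q - K1 γ 0 M q)) := by ring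
        _ = b * Real.exp (-(ta γ q * sin γ)) := by rw [h3]; ring
    have h6 : K1 γ b M q = b * Real.exp (-(ta γ q * sin γ)) + K1 γ 0 M q := by
      unfold K1; ring
    rw [h6, ← h5]; ring
  have hdF : ∀ q h : P, fderiv ℝ F q h = (W q * sg γ h + κ q * ta γ h,
      Real.exp (-q.1) * (W q * ta γ h - κ q * sg γ h)) := by
    intro q h
    have hFq : DifferentiableAt ℝ F q := hF.differentiable (by simp) q
    have e1 : (fderiv ℝ F q h).1 = fderiv ℝ X q h := by
      have : HasFDerivAt X ((ContinuousLinearMap.fst ℝ ℝ ℝ).comp (fderiv ℝ F q)) q :=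
        (ContinuousLinearMap.fst ℝ ℝ ℝ).hasFDerivAt.comp q hFq.hasFDerivAt
      rw [this.fderiv]; rfl
    have e2 : (fderiv ℝ F q h).2 = fderiv ℝ Y q h := by
      have : HasFDerivAt Y ((ContinuousLinearMap.snd ℝ ℝ ℝ).comp (fderiv ℝ F q)) q :=
        (ContinuousLinearMap.snd ℝ ℝ ℝ).hasFDerivAt.comp q hFq.hasFDerivAt
      rw [this.fderiv]; rfl
    apply Prod.ext
    · rw [e1, fderiv_apply_eq]
      simp only [smul_eq_mul, hW, hκ, sg, ta]
      linear_combination (-h.1 * d1 X q - h.2 * d2 X q) * hcs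
    · rw [e2, fderiv_apply_eq, h1, h2]
      simp only [smul_eq_mul, hW, hκ, sg, ta]
      linear_combination (-Real.exp (-q.1)) * (h.2 * d1 X q - h.1 * d2 X q) * hcs
  refine ⟨b, M, hMf, hMs, ?_, hF.differentiable (by simp), fun q h => ?_⟩
  · -- `M ≠ 0`
    intro hM0
    have hW0 : ∀ q, W q = 0 := by
      intro q; rw [hWM q, W1, hM0]; simp
    have hκ0 : ∀ q, κ q = b * Real.exp (-(ta γ q * sin γ)) := by
      intro q; rw [hκM q, K1, hM0]; simp
    -- `X₁ = -sin γ κ`, `X₂ = cos γ κ`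
    have x1 : ∀ q, d1 X q = -(sin γ) * (b * Real.exp (-(ta γ q * sin γ))) := by
      intro q
      have a1 := hW0 q
      have a2 := hκ0 q
      simp only [hW] at a1
      simp only [hκ] at a2
      linear_combination cos γ * a1 - sin γ * a2 - d1 X q * hcs
    have x2 : ∀ q, d2 X q = cos γ * (b * Real.exp (-(ta γ q * sin γ))) := by
      intro q
      have a1 := hW0 q
      have a2 := hκ0 q
      simp only [hW] at a1
      simp only [hκ] at a2
      linear_combination sin γ * a1 + cos γ * a2 - d2 X q * hcs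
    have hb0 : b ≠ 0 := by
      intro hb0
      rcases h0 0 with h | h
      · exact h (by rw [x1, hb0]; ring)
      · exact h (by rw [x2, hb0]; ring)
    by_cases hs : sin γ = 0
    · -- then `Y` is bounded on one side
      have hc0 : cos γ ≠ 0 := by
        intro hc; rw [hc, hs] at hcs; norm_num at hcs
      have y1 : ∀ q, d1 Y q = -(Real.exp (-q.1) * (cos γ * b)) := by
        intro q
        rw [h1, x2, hs]; simp
      have y2 : ∀ q, d2 Y q = 0 := by
        intro q
        rw [h2, x1, hs]; simp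
      have hcst : ∀ q, Y q - Real.exp (-q.1) * (cos γ * b) = Y (1, 1) - Real.exp (-(1:ℝ)) * (cos γ * b) := by
        have hh : ContDiff ℝ ∞ (fun q => Y q - (cos γ * b) * Real.exp (-q.1)) :=
          hY.sub (contDiff_const.mul hq1)
        have := const_of_partials (D := fun q => Y q - (cos γ * b) * Real.exp (-q.1)) hh.continuous
          (fun q _ => dif hh q)
          (fun q _ => by
            rw [d1_subAt (dif hY q) ((dif hq1 q).const_mul _), d1_cmul, y1, hex1]; ring)
          (fun q _ => by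
            rw [d2_subAt (dif hY q) ((dif hq1 q).const_mul _), d2_cmul, y2, hex2]; ring)
        intro q
        have h3 := this q
        simp only at h3
        linarith
      set C := Y (1, 1) - Real.exp (-(1:ℝ)) * (cos γ * b) with hC
      obtain ⟨q, hq⟩ := F.surjective (0, C)
      have hYq : Y q = C := by simp only [hYdef]; rw [hq]
      have h3 := hcst q
      rw [hYq] at h3
      have : Real.exp (-q.1) * (cos γ * b) = 0 := by linarith
      rcases mul_eq_zero.1 this with h | h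
      · exact (Real.exp_pos _).ne' h
      · exact (mul_ne_zero hc0 hb0) h
    · -- then `X` is bounded on one side
      have hNs : ContDiff ℝ ∞ (fun q => Real.exp (-(ta γ q * sin γ))) := (hta.mul contDiff_const).neg.exp
      have hN1 : ∀ q, d1 (fun q => Real.exp (-(ta γ q * sin γ))) q =
          sin γ * sin γ * Real.exp (-(ta γ q * sin γ)) := by
        intro q
        rw [d1_expAt (f := fun q => -(ta γ q * sin γ)) (((dif hta q).mul_const _).neg)]
        have : (fun q => -(ta γ q * sin γ)) = fun q => (-(sin γ)) * ta γ q := by funext q; ring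
        rw [this, d1_cmul, d1_ta]; ring
      have hN2 : ∀ q, d2 (fun q => Real.exp (-(ta γ q * sin γ))) q =
          -(cos γ * sin γ * Real.exp (-(ta γ q * sin γ))) := by
        intro q
        rw [d2_expAt (f := fun q => -(ta γ q * sin γ)) (((dif hta q).mul_const _).neg)]
        have : (fun q => -(ta γ q * sin γ)) = fun q => (-(sin γ)) * ta γ q := by funext q; ring
        rw [this, d2_cmul, d2_ta]; ring
      have hh : ContDiff ℝ ∞ (fun q => X q - (-(b / sin γ)) * Real.exp (-(ta γ q * sin γ))) :=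
        hX.sub (contDiff_const.mul hNs)
      have hcst := const_of_partials
        (D := fun q => X q - (-(b / sin γ)) * Real.exp (-(ta γ q * sin γ))) hh.continuous
        (fun q _ => dif hh q)
        (fun q _ => by
          rw [d1_subAt (dif hX q) ((dif hNs q).const_mul _), d1_cmul, x1, hN1]; field_simp; ring)
        (fun q _ => by
          rw [d2_subAt (dif hX q) ((dif hNs q).const_mul _), d2_cmul, x2, hN2]; field_simp; ring)
      set C := X (1, 1) - (-(b / sin γ)) * Real.exp (-(ta γ (1, 1) * sin γ)) with hC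
      obtain ⟨q, hq⟩ := F.surjective (C, 0)
      have hXq : X q = C := by simp only [hXdef]; rw [hq]
      have h3 : X q - (-(b / sin γ)) * Real.exp (-(ta γ q * sin γ)) = C := hcst q
      rw [hXq] at h3
      have : (b / sin γ) * Real.exp (-(ta γ q * sin γ)) = 0 := by linarith
      rcases mul_eq_zero.1 this with h | h
      · exact (div_ne_zero hb0 hs) h
      · exact (Real.exp_pos _).ne' h
  · rw [hdF q h, hWM q, hκM q]


theorem typeII_of_pos (F : P ≃ₜ P) (hF : ContDiff ℝ 1 F)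
    (hFs : ∀ q, q ≠ 0 → ContDiffAt ℝ ∞ F q) (h0 : ℝ)
    (h1 : ∀ q : P, d1 (fun q => (F q).2) q =
      -(Real.exp (-(h0 + q.1 ^ 2 - q.2 ^ 2)) * d2 (fun q => (F q).1) q))
    (h2 : ∀ q : P, d2 (fun q => (F q).2) q =
      Real.exp (-(h0 + q.1 ^ 2 - q.2 ^ 2)) * d1 (fun q => (F q).1) q)
    (hpos : ∀ q : P, 0 < d1 (fun q => (F q).1) q) :
    ∃ (b : ℝ) (M : Measure ℝ), TypeII h0 b M F := by
  set X : P → ℝ := fun q => (F q).1 with hXdef
  set Y : P → ℝ := fun q => (F q).2 with hYdef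
  have hX : ContDiff ℝ 1 X := hF.fst
  have hXs : ∀ q, q ≠ 0 → ContDiffAt ℝ ∞ X q := fun q hq => (hFs q hq).fst
  have hYs : ∀ q, q ≠ 0 → ContDiffAt ℝ ∞ Y q := fun q hq => (hFs q hq).snd
  have hX1c : Continuous (d1 X) := (contDiff_d1 hX (m := 0) (by simp)).continuous
  have hX2c : Continuous (d2 X) := (contDiff_d2 hX (m := 0) (by simp)).continuous
  have dif : ∀ {f : P → ℝ} {q : P}, ContDiffAt ℝ ∞ f q → DifferentiableAt ℝ f q :=
    fun h => h.differentiableAt (by simp)
  have hX1 : ∀ q, q ≠ 0 → ContDiffAt ℝ ∞ (d1 X) q := fun q hq => contDiffAt_d1 (hXs q hq)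
  have hX2 : ∀ q, q ≠ 0 → ContDiffAt ℝ ∞ (d2 X) q := fun q hq => contDiffAt_d2 (hXs q hq)
  have hopen : ∀ q : P, q ≠ 0 → ∀ᶠ y in 𝓝 q, y ≠ 0 := fun q hq => isOpen_ne.mem_nhds hq
  -- weight
  have hwt : ContDiff ℝ ∞ (fun q : P => Real.exp (q.2 ^ 2)) := by fun_prop
  have hwt1 : ∀ q, d1 (fun q : P => Real.exp (q.2 ^ 2)) q = 0 :=
    fun q => d1_eqOf (dif hwt.contDiffAt) (φ := fun s => Real.exp (q.2 ^ 2)) (fun s => rfl)
      (hasDerivAt_const _ _)
  have hwt2 : ∀ q, d2 (fun q : P => Real.exp (q.2 ^ 2)) q = 2 * q.2 * Real.exp (q.2 ^ 2) := by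
    intro q
    refine d2_eqOf (dif hwt.contDiffAt) (φ := fun s => Real.exp (s ^ 2)) (fun s => rfl) ?_
    have : HasDerivAt (fun s => Real.exp (s ^ 2)) (Real.exp (q.2 ^ 2) * (2 * q.2)) q.2 := by
      simpa using (hasDerivAt_pow 2 q.2).exp
    convert this using 1
    ring
  set W : P → ℝ := fun q => Real.exp (q.2 ^ 2) * d1 X q with hW
  set κ : P → ℝ := fun q => Real.exp (q.2 ^ 2) * d2 X q with hκ
  have hWc : Continuous W := hwt.continuous.mul hX1c
  have hκc : Continuous κ := hwt.continuous.mul hX2c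
  have hWs : ∀ q, q ≠ 0 → ContDiffAt ℝ ∞ W q := fun q hq => hwt.contDiffAt.mul (hX1 q hq)
  have hκs : ∀ q, q ≠ 0 → ContDiffAt ℝ ∞ κ q := fun q hq => hwt.contDiffAt.mul (hX2 q hq)
  -- first order relations off the origin
  have r1 : ∀ q, q ≠ 0 → d1 κ q = d2 W q - 2 * q.2 * W q := by
    intro q hq
    have hc := d1_d2_commAt (hXs q hq)
    have a1 : d1 κ q = Real.exp (q.2 ^ 2) * d1 (d2 X) q := by
      rw [hκ, d1_mulAt (dif hwt.contDiffAt) (dif (hX2 q hq)), hwt1]; ring
    have a2 : d2 W q = 2 * q.2 * Real.exp (q.2 ^ 2) * d1 X q + Real.exp (q.2 ^ 2) * d2 (d1 X) q := by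
      rw [hW, d2_mulAt (dif hwt.contDiffAt) (dif (hX1 q hq)), hwt2]
    rw [a1, a2, hc]
    simp only [hW]
    ring
  have hH : ContDiff ℝ ∞ (fun q : P => Real.exp (-(h0 + q.1 ^ 2 - q.2 ^ 2))) := by fun_prop
  have hH1 : ∀ q, d1 (fun q : P => Real.exp (-(h0 + q.1 ^ 2 - q.2 ^ 2))) q =
      -(2 * q.1) * Real.exp (-(h0 + q.1 ^ 2 - q.2 ^ 2)) := by
    intro q
    refine d1_eqOf (dif hH.contDiffAt) (φ := fun s => Real.exp (-(h0 + s ^ 2 - q.2 ^ 2)))
      (fun s => rfl) ?_
    have : HasDerivAt (fun s => Real.exp (-(h0 + s ^ 2 - q.2 ^ 2)))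
        (Real.exp (-(h0 + q.1 ^ 2 - q.2 ^ 2)) * (-(2 * q.1))) q.1 := by
      have := ((((hasDerivAt_pow 2 q.1).const_add h0).sub_const (q.2 ^ 2)).neg).exp
      simpa using this
    convert this using 1
    ring
  have hH2 : ∀ q, d2 (fun q : P => Real.exp (-(h0 + q.1 ^ 2 - q.2 ^ 2))) q =
      (2 * q.2) * Real.exp (-(h0 + q.1 ^ 2 - q.2 ^ 2)) := by
    intro q
    refine d2_eqOf (dif hH.contDiffAt) (φ := fun s => Real.exp (-(h0 + q.1 ^ 2 - s ^ 2)))
      (fun s => rfl) ?_
    have : HasDerivAt (fun s => Real.exp (-(h0 + q.1 ^ 2 - s ^ 2)))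
        (Real.exp (-(h0 + q.1 ^ 2 - q.2 ^ 2)) * (2 * q.2)) q.2 := by
      have := (((hasDerivAt_pow 2 q.2).const_sub (h0 + q.1 ^ 2)).neg).exp
      simpa using this
    convert this using 1
    ring
  have r2 : ∀ q, q ≠ 0 → d2 κ q = -(d1 W q) + 2 * q.1 * W q := by
    intro q hq
    have hc := d1_d2_commAt (hYs q hq)
    have e1 : d2 Y = fun q => Real.exp (-(h0 + q.1 ^ 2 - q.2 ^ 2)) * d1 X q := funext h2
    have e2 : d1 Y = fun q => -(Real.exp (-(h0 + q.1 ^ 2 - q.2 ^ 2)) * d2 X q) := funext h1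
    rw [e1, e2, d1_mulAt (dif hH.contDiffAt) (dif (hX1 q hq)), d2_neg',
      d2_mulAt (dif hH.contDiffAt) (dif (hX2 q hq)), hH1, hH2] at hc
    have a1 : d2 κ q = 2 * q.2 * Real.exp (q.2 ^ 2) * d2 X q + Real.exp (q.2 ^ 2) * d2 (d2 X) q := by
      rw [hκ, d2_mulAt (dif hwt.contDiffAt) (dif (hX2 q hq)), hwt2]
    have a2 : d1 W q = Real.exp (q.2 ^ 2) * d1 (d1 X) q := by
      rw [hW, d1_mulAt (dif hwt.contDiffAt) (dif (hX1 q hq)), hwt1]; ring
    have hep := Real.exp_pos (-(h0 + q.1 ^ 2 - q.2 ^ 2))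
    have h3 : Real.exp (-(h0 + q.1 ^ 2 - q.2 ^ 2)) * (d1 (d1 X) q - 2 * q.1 * d1 X q +
        2 * q.2 * d2 X q + d2 (d2 X) q) = 0 := by linarith
    have h4 : d1 (d1 X) q - 2 * q.1 * d1 X q + 2 * q.2 * d2 X q + d2 (d2 X) q = 0 := by
      rcases mul_eq_zero.1 h3 with h | h
      · exact absurd h hep.ne'
      · exact h
    rw [a1, a2]
    simp only [hW]
    linear_combination Real.exp (q.2 ^ 2) * h4
  -- the equation for `W`
  have hWlap : ∀ q, q ≠ 0 → d1 (d1 W) q + d2 (d2 W) q - 2 * 1 * (q.1 * d1 W q + q.2 * d2 W q) =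
      4 * W q := by
    intro q hq
    have hc := d1_d2_commAt (hκs q hq)
    have hW1 := contDiffAt_d1 (hWs q hq)
    have hW2 := contDiffAt_d2 (hWs q hq)
    have e1 : d2 (d1 κ) q = d2 (fun q => d2 W q - (2 * q.2) * W q) q := by
      unfold d2
      rw [Filter.EventuallyEq.fderiv_eq]
      filter_upwards [hopen q hq] with y hy
      have := r1 y hy
      unfold d2 at this
      exact this
    have e2 : d1 (d2 κ) q = d1 (fun q => -(d1 W q) + (2 * q.1) * W q) q := by
      unfold d1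
      rw [Filter.EventuallyEq.fderiv_eq]
      filter_upwards [hopen q hq] with y hy
      have := r2 y hy
      unfold d1 at this
      exact this
    have c1 : ContDiff ℝ ∞ (fun q : P => 2 * q.1) := by fun_prop
    have c2 : ContDiff ℝ ∞ (fun q : P => 2 * q.2) := by fun_prop
    have c11 : d1 (fun q : P => 2 * q.1) q = 2 := by
      refine d1_eqOf (dif c1.contDiffAt) (φ := fun s => 2 * s) (fun s => rfl) ?_
      simpa using (hasDerivAt_id q.1).const_mul (2:ℝ)
    have c22 : d2 (fun q : P => 2 * q.2) q = 2 := by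
      refine d2_eqOf (dif c2.contDiffAt) (φ := fun s => 2 * s) (fun s => rfl) ?_
      simpa using (hasDerivAt_id q.2).const_mul (2:ℝ)
    rw [d2_subAt (g := fun q => (2 * q.2) * W q) (dif hW2)
        ((dif c2.contDiffAt).mul (dif (hWs q hq))),
      d2_mulAt (dif c2.contDiffAt) (dif (hWs q hq)), c22] at e1
    rw [d1_addAt (f := fun q => -(d1 W q)) (g := fun q => (2 * q.1) * W q) (dif hW1).neg
        ((dif c1.contDiffAt).mul (dif (hWs q hq))),
      d1_mulAt (dif c1.contDiffAt) (dif (hWs q hq)), c11, d1_neg'] at e2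
    rw [e1, e2] at hc
    linarith
  obtain ⟨f1, f2, f3, f4, f5, f6, f7, f8, f9⟩ := Th_facts
  obtain ⟨M, hMf, hMs, hMr⟩ := representation (lam := 1) (μ := 4) zero_le_one (by norm_num) (Θ := Th)
    (f1.of_le two_le_inf) f3 f5 f7 f9 (fun q => (mul_pos (Real.exp_pos _) (hpos q)).le) hWc
    (fun q hq => (hWs q hq).of_le two_le_inf) hWlap
  have hWM : W = W2 M := funext fun q => hMr q
  -- determination of `κ`
  have hK0s : ContDiff ℝ ∞ (K2 0 M) := K2_smooth 0 M hMs
  have hcst := const_of_partials (D := fun q => κ q - K2 0 M q) (hκc.sub hK0s.continuous)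
    (fun q hq => (dif (hκs q hq)).sub (dif hK0s.contDiffAt))
    (fun q hq => by
      rw [d1_subAt (dif (hκs q hq)) (dif hK0s.contDiffAt), r1 q hq, (K2_relations 0 M hMs q).1, hWM]
      ring)
    (fun q hq => by
      rw [d2_subAt (dif (hκs q hq)) (dif hK0s.contDiffAt), r2 q hq, (K2_relations 0 M hMs q).2, hWM]
      ring)
  set b : ℝ := κ (1, 1) - K2 0 M (1, 1) with hb
  have hκM : ∀ q, κ q = K2 b M q := by
    intro q
    have h3 : κ q - K2 0 M q = b := hcst q
    have h4 : K2 b M q = b + K2 0 M q := by unfold K2; ring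
    rw [h4, ← h3]; ring
  refine ⟨b, M, hMf, hMs, ?_, hF.differentiable (by norm_num), ?_⟩
  · intro hM0
    have h3 : W 0 = 0 := by rw [hWM, W2, hM0]; simp
    have h4 : 0 < W 0 := mul_pos (Real.exp_pos _) (hpos 0)
    linarith
  · intro q h
    have hFq : DifferentiableAt ℝ F q := hF.differentiable (by norm_num) q
    have e1 : (fderiv ℝ F q h).1 = fderiv ℝ X q h := by
      have : HasFDerivAt X ((ContinuousLinearMap.fst ℝ ℝ ℝ).comp (fderiv ℝ F q)) q :=
        (ContinuousLinearMap.fst ℝ ℝ ℝ).hasFDerivAt.comp q hFq.hasFDerivAt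
      rw [this.fderiv]; rfl
    have e2 : (fderiv ℝ F q h).2 = fderiv ℝ Y q h := by
      have : HasFDerivAt Y ((ContinuousLinearMap.snd ℝ ℝ ℝ).comp (fderiv ℝ F q)) q :=
        (ContinuousLinearMap.snd ℝ ℝ ℝ).hasFDerivAt.comp q hFq.hasFDerivAt
      rw [this.fderiv]; rfl
    have x1 : d1 X q = Real.exp (-q.2 ^ 2) * W q := by
      simp only [hW]
      rw [← mul_assoc, ← Real.exp_add]; simp
    have x2 : d2 X q = Real.exp (-q.2 ^ 2) * κ q := by
      simp only [hκ]
      rw [← mul_assoc, ← Real.exp_add]; simp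
    have x3 : Real.exp (-(h0 + q.1 ^ 2 - q.2 ^ 2)) * Real.exp (-q.2 ^ 2) = Real.exp (-h0 - q.1 ^ 2) := by
      rw [← Real.exp_add]; congr 1; ring
    apply Prod.ext
    · rw [e1, fderiv_apply_eq, x1, x2, ← hκM, ← hWM]
      simp only [smul_eq_mul]
      ring
    · rw [e2, fderiv_apply_eq, h1, h2, x1, x2, ← hκM, ← hWM]
      simp only [smul_eq_mul]
      linear_combination (h.2 * W q - h.1 * κ q) * x3

theorem typeII_of_sys (F : P ≃ₜ P) (hF : ContDiff ℝ 1 F) (hF' : ContDiff ℝ 1 F.symm)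
    (hFs : ∀ q, q ≠ 0 → ContDiffAt ℝ ∞ F q) (h0 : ℝ)
    (h1 : ∀ q : P, d1 (fun q => (F q).2) q =
      -(Real.exp (-(h0 + q.1 ^ 2 - q.2 ^ 2)) * d2 (fun q => (F q).1) q))
    (h2 : ∀ q : P, d2 (fun q => (F q).2) q =
      Real.exp (-(h0 + q.1 ^ 2 - q.2 ^ 2)) * d1 (fun q => (F q).1) q) :
    ∃ (b : ℝ) (M : Measure ℝ), TypeII h0 b M F ∨ TypeII h0 b M (fun q => F (-q)) := by
  rcases pos_two F hF hF' hFs h0 h1 h2 with hp | hn
  · obtain ⟨b, M, h⟩ := typeII_of_pos F hF hFs h0 h1 h2 hp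
    exact ⟨b, M, Or.inl h⟩
  · let G : P ≃ₜ P := (Homeomorph.neg P).trans F
    have hG : ∀ q, G q = F (-q) := fun q => rfl
    have hneg : ∀ q : P, HasFDerivAt (fun q : P => -q) (-(ContinuousLinearMap.id ℝ P)) q :=
      fun q => (hasFDerivAt_id q).neg
    have hX : Differentiable ℝ (fun q => (F q).1) := hF.fst.differentiable (by norm_num)
    have hY : Differentiable ℝ (fun q => (F q).2) := hF.snd.differentiable (by norm_num)
    have gen : ∀ {f : P → ℝ}, Differentiable ℝ f → ∀ q, d1 (fun q => f (-q)) q = -(d1 f (-q)) ∧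
        d2 (fun q => f (-q)) q = -(d2 f (-q)) := by
      intro f hf q
      have h3 : HasFDerivAt (fun q => f (-q)) ((fderiv ℝ f (-q)).comp (-(ContinuousLinearMap.id ℝ P))) q :=
        (hf (-q)).hasFDerivAt.comp q (hneg q)
      constructor
      · unfold d1; rw [h3.fderiv]; simp
      · unfold d2; rw [h3.fderiv]; simp
    obtain ⟨b, M, h⟩ := typeII_of_pos G (hF.comp contDiff_neg)
      (fun q hq => (hFs (-q) (neg_ne_zero.2 hq)).comp q contDiff_neg.contDiffAt) h0
      (fun q => by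
        simp only [hG]
        rw [(gen hY q).1, (gen hX q).2, h1]
        simp)
      (fun q => by
        simp only [hG]
        rw [(gen hY q).2, (gen hX q).1, h2]
        simp)
      (fun q => by
        simp only [hG]
        rw [(gen hX q).1]
        linarith [hn (-q)])
    exact ⟨b, M, Or.inr h⟩

end Pool.Agent.EU
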