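import Pool.Agent.EU.Defs
import Pool.Agent.EU.Area
import Pool.Agent.EU.B

/-!
Capacity lemma: a locally injective `Φ = (A, v)` has nonzero Jacobian, and if `Φ` is locally at most
two-to-one then the second derivatives do not all vanish at a critical point.
-/

set_option autoImplicit false
open scoped ContDiff Topology ENNReal
open Real Set MeasureTheory Filter

namespace Pool.Agent.EU
namespace Cap

/-- the crossing times of a continuous function -/
theorem exists_cross {g : ℝ → ℝ} (hg : Continuous g) {r0 R u w : ℝ} (hR : r0 < R) (huw : u < w)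
    (h0 : g r0 ≤ u) (h1 : w ≤ g R) :
    ∃ s t, r0 ≤ s ∧ s < t ∧ t ≤ R ∧ g s = u ∧ g t = w ∧ ∀ x ∈ Ioo s t, u < g x ∧ g x < w := by
  have hc1 : IsCompact (Icc r0 R ∩ {x | w ≤ g x}) :=
    isCompact_Icc.inter_right (isClosed_le continuous_const hg)
  obtain ⟨t, ht, htl⟩ := hc1.exists_isLeast ⟨R, ⟨hR.le, le_rfl⟩, h1⟩
  have hr0t : r0 < t := by
    rcases eq_or_lt_of_le ht.1.1 with h | h
    · exfalso
      have := ht.2
      simp only [mem_ofPred_eq] at this
      rw [← h] at this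
      linarith
    · exact h
  have hlt : ∀ x, r0 ≤ x → x < t → g x < w := by
    intro x hx hxt
    by_contra hcon
    push Not at hcon
    exact absurd (htl ⟨⟨hx, (hxt.le.trans ht.1.2)⟩, hcon⟩) (not_le.2 hxt)
  have hgt : g t = w := by
    refine le_antisymm ?_ ht.2
    by_contra hcon
    push Not at hcon
    have hiv := intermediate_value_Ico hr0t.le (f := g) hg.continuousOn (a := r0) (b := t)
    obtain ⟨x, hx, hxw⟩ := hiv ⟨(h0.trans huw.le), hcon⟩
    exact absurd (hlt x hx.1 hx.2) (by rw [hxw]; exact lt_irrefl _)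
  have hc2 : IsCompact (Icc r0 t ∩ {x | g x ≤ u}) :=
    isCompact_Icc.inter_right (isClosed_le hg continuous_const)
  obtain ⟨s, hs, hsl⟩ := hc2.exists_isGreatest ⟨r0, ⟨le_rfl, hr0t.le⟩, h0⟩
  have hst : s < t := by
    rcases eq_or_lt_of_le hs.1.2 with h | h
    · exfalso
      have := hs.2
      simp only [mem_ofPred_eq] at this
      rw [h, hgt] at this
      linarith
    · exact h
  have hlt2 : ∀ x, s < x → x ≤ t → u < g x := by
    intro x hx hxt
    by_contra hcon
    push Not at hcon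
    exact absurd (hsl ⟨⟨hs.1.1.trans hx.le, hxt⟩, hcon⟩) (not_le.2 hx)
  have hgs : g s = u := by
    refine le_antisymm hs.2 ?_
    by_contra hcon
    push Not at hcon
    have hiv := intermediate_value_Ioc hst.le (f := g) hg.continuousOn (a := s) (b := t)
    obtain ⟨x, hx, hxw⟩ := hiv ⟨hcon, (huw.le.trans hgt.ge)⟩
    exact absurd (hlt2 x hx.1 hx.2) (by rw [hxw]; exact lt_irrefl _)
  exact ⟨s, t, hs.1.1, hst, ht.1.2, hgs, hgt, fun x hx =>
    ⟨hlt2 x hx.1 hx.2.le, hlt x (hs.1.1.trans hx.1.le) hx.2⟩⟩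

/-- the weight -/
noncomputable def wt (M m : ℝ) (w : P) : ℝ≥0∞ :=
  {x : P | M ^ 2 < x.1 ^ 2 + x.2 ^ 2 ∧ x.1 ^ 2 + x.2 ^ 2 < m ^ 2}.indicator
    (fun x => ENNReal.ofReal (1 / (x.1 ^ 2 + x.2 ^ 2))) w

theorem measurable_wt (M m : ℝ) : Measurable (wt M m) := by
  unfold wt
  refine Measurable.indicator (by fun_prop) ?_
  refine MeasurableSet.inter ?_ ?_
  · exact measurableSet_lt (f := fun _ : P => M ^ 2) (g := fun x : P => x.1 ^ 2 + x.2 ^ 2)
      measurable_const (by fun_prop)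
  · exact measurableSet_lt (f := fun x : P => x.1 ^ 2 + x.2 ^ 2) (g := fun _ : P => m ^ 2)
      (by fun_prop) measurable_const

/-- one radial line -/
theorem one_dim {a b a' b' : ℝ → ℝ} (ha : ∀ x, HasDerivAt a (a' x) x)
    (hb : ∀ x, HasDerivAt b (b' x) x) (ha' : Continuous a') (hb' : Continuous b')
    {r0 R M m lam : ℝ} (hr0 : 0 < r0) (hR : r0 < R) (hM : 0 < M) (hm : M < m) (hl : 0 < lam)
    (h0 : a r0 ^ 2 + b r0 ^ 2 ≤ M ^ 2) (h1 : m ^ 2 ≤ a R ^ 2 + b R ^ 2) :
    ENNReal.ofReal (Real.log (m / M)) ≤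
      (∫⁻ r in Ioo r0 R, wt M m (a r, b r) *
        ENNReal.ofReal (lam / 2 * r * (a' r ^ 2 + b' r ^ 2))) +
      ENNReal.ofReal (Real.log (R / r0) / (2 * lam)) := by
  have hac : Continuous a := continuous_iff_continuousAt.2 fun x => (ha x).continuousAt
  have hbc : Continuous b := continuous_iff_continuousAt.2 fun x => (hb x).continuousAt
  have hm0 : 0 < m := hM.trans hm
  have hMm : M ^ 2 < m ^ 2 := by nlinarith
  obtain ⟨s, t, hrs, hst, htR, hgs, hgt, hin⟩ :=
    exists_cross (g := fun x => a x ^ 2 + b x ^ 2) (by fun_prop) hR hMm h0 h1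
  have hs0 : 0 < s := hr0.trans_le hrs
  have ht0 : 0 < t := hs0.trans hst
  have hM2 : 0 < M ^ 2 := by positivity
  have hpos : ∀ x ∈ Icc s t, 0 < a x ^ 2 + b x ^ 2 := by
    intro x hx
    rcases eq_or_lt_of_le hx.1 with h | h
    · rw [← h, hgs]; exact hM2
    · rcases eq_or_lt_of_le hx.2 with h' | h'
      · rw [h', hgt]; positivity
      · exact hM2.trans (hin x ⟨h, h'⟩).1
  -- the derivative of the logarithm
  have hder : ∀ x ∈ uIcc s t, HasDerivAt (fun x => Real.log (a x ^ 2 + b x ^ 2) / 2)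
      ((a x * a' x + b x * b' x) / (a x ^ 2 + b x ^ 2)) x := by
    intro x hx
    rw [uIcc_of_le hst.le] at hx
    have h := ((((ha x).pow 2).add ((hb x).pow 2)).log (hpos x hx).ne').div_const 2
    refine h.congr_deriv ?_
    simp only [Nat.cast_ofNat, Nat.add_one_sub_one, pow_one, Pi.add_apply, Pi.pow_apply]
    field_simp
  have hcF : ContinuousOn (fun x => (a x * a' x + b x * b' x) / (a x ^ 2 + b x ^ 2)) (Icc s t) := by
    refine ContinuousOn.div (by fun_prop) (by fun_prop) fun x hx => (hpos x hx).ne'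
  have hcF1 : ContinuousOn (fun x => lam / 2 * x * ((a' x ^ 2 + b' x ^ 2) / (a x ^ 2 + b x ^ 2)))
      (Icc s t) := by
    refine ContinuousOn.mul (by fun_prop) ?_
    refine ContinuousOn.div (by fun_prop) (by fun_prop) fun x hx => (hpos x hx).ne'
  have hcF2 : ContinuousOn (fun x : ℝ => 1 / (2 * lam) * x⁻¹) (Icc s t) := by
    refine ContinuousOn.mul continuousOn_const ?_
    exact ContinuousOn.inv₀ continuousOn_id fun x hx => (hs0.trans_le hx.1).ne'
  have hF : IntervalIntegrable (fun x => (a x * a' x + b x * b' x) / (a x ^ 2 + b x ^ 2))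
      volume s t := by
    apply ContinuousOn.intervalIntegrable; rwa [uIcc_of_le hst.le]
  have hF1 : IntervalIntegrable
      (fun x => lam / 2 * x * ((a' x ^ 2 + b' x ^ 2) / (a x ^ 2 + b x ^ 2))) volume s t := by
    apply ContinuousOn.intervalIntegrable; rwa [uIcc_of_le hst.le]
  have hF2 : IntervalIntegrable (fun x : ℝ => 1 / (2 * lam) * x⁻¹) volume s t := by
    apply ContinuousOn.intervalIntegrable; rwa [uIcc_of_le hst.le]
  have hI : ∫ x in s..t, (a x * a' x + b x * b' x) / (a x ^ 2 + b x ^ 2) = Real.log (m / M) := by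
    rw [intervalIntegral.integral_eq_sub_of_hasDerivAt hder hF]
    rw [hgt, hgs, Real.log_div hm0.ne' hM.ne', Real.log_pow, Real.log_pow]
    push_cast
    ring
  have hpt : ∀ x ∈ Icc s t, (a x * a' x + b x * b' x) / (a x ^ 2 + b x ^ 2) ≤
      lam / 2 * x * ((a' x ^ 2 + b' x ^ 2) / (a x ^ 2 + b x ^ 2)) + 1 / (2 * lam) * x⁻¹ := by
    intro x hx
    have hx0 : 0 < x := hs0.trans_le hx.1
    have hg := hpos x hx
    set g := a x ^ 2 + b x ^ 2 with hgdef
    set q := (a x * a' x + b x * b' x) / g with hq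
    have hq2 : q ^ 2 ≤ (a' x ^ 2 + b' x ^ 2) / g := by
      rw [hq, div_pow, div_le_div_iff₀ (by positivity) hg]
      have : (a x * a' x + b x * b' x) ^ 2 ≤ (a' x ^ 2 + b' x ^ 2) * g := by
        rw [hgdef]; nlinarith [sq_nonneg (a x * b' x - b x * a' x)]
      nlinarith [mul_le_mul_of_nonneg_right this hg.le]
    have h1 : q ≤ lam / 2 * x * q ^ 2 + 1 / (2 * lam) * x⁻¹ := by
      have hlx : 0 < lam * x := by positivity
      have e : lam / 2 * x * q ^ 2 + 1 / (2 * lam) * x⁻¹ - q =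
          (lam * x * q - 1) ^ 2 / (2 * (lam * x)) := by
        field_simp
        ring
      have : 0 ≤ (lam * x * q - 1) ^ 2 / (2 * (lam * x)) := by positivity
      linarith
    have h2 : lam / 2 * x * q ^ 2 ≤ lam / 2 * x * ((a' x ^ 2 + b' x ^ 2) / g) := by
      apply mul_le_mul_of_nonneg_left hq2; positivity
    linarith
  have hreal : Real.log (m / M) ≤
      (∫ x in s..t, lam / 2 * x * ((a' x ^ 2 + b' x ^ 2) / (a x ^ 2 + b x ^ 2))) +
      Real.log (R / r0) / (2 * lam) := by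
    rw [← hI]
    have h := intervalIntegral.integral_mono_on hst.le hF (hF1.add hF2) hpt
    rw [intervalIntegral.integral_add hF1 hF2] at h
    have h2 : ∫ x in s..t, 1 / (2 * lam) * x⁻¹ ≤ Real.log (R / r0) / (2 * lam) := by
      rw [intervalIntegral.integral_const_mul, integral_inv_of_pos hs0 ht0]
      have : Real.log (t / s) ≤ Real.log (R / r0) := by
        apply Real.log_le_log (by positivity)
        exact div_le_div₀ (hr0.trans hR).le htR hr0 hrs
      calc 1 / (2 * lam) * Real.log (t / s) ≤ 1 / (2 * lam) * Real.log (R / r0) := by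
            apply mul_le_mul_of_nonneg_left this; positivity
        _ = _ := by ring
    linarith
  refine (ENNReal.ofReal_le_ofReal hreal).trans (ENNReal.ofReal_add_le.trans ?_)
  gcongr
  rw [intervalIntegral.integral_of_le hst.le,
    ofReal_integral_eq_lintegral_ofReal]
  · rw [← setLIntegral_congr (Ioo_ae_eq_Ioc (a := s) (b := t))]
    refine le_trans ?_ (lintegral_mono_set (Ioo_subset_Ioo hrs htR))
    refine setLIntegral_mono' measurableSet_Ioo fun x hx => ?_
    have hg := hpos x (Ioo_subset_Icc_self hx)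
    have hw : wt M m (a x, b x) = ENNReal.ofReal (1 / (a x ^ 2 + b x ^ 2)) := by
      unfold wt
      rw [indicator_of_mem]
      exact hin x hx
    rw [hw, ← ENNReal.ofReal_mul (by positivity)]
    apply ENNReal.ofReal_le_ofReal
    apply le_of_eq
    ring
  · exact (intervalIntegrable_iff_integrableOn_Ioc_of_le hst.le).1 hF1
  · refine (ae_restrict_iff' measurableSet_Ioc).2 (Eventually.of_forall fun x hx => ?_)
    have hx0 : 0 < x := hs0.trans hx.1
    have hg := hpos x (Ioc_subset_Icc_self hx)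
    show 0 ≤ lam / 2 * x * ((a' x ^ 2 + b' x ^ 2) / (a x ^ 2 + b x ^ 2))
    positivity


/-- Tonelli in polar coordinates, angles outside. -/
theorem lintegral_polar {F : P → ℝ≥0∞} (hF : Measurable F) :
    ∫⁻ y, F y = ∫⁻ φ in Ioo (-π) π, ∫⁻ r in Ioi (0 : ℝ),
      ENNReal.ofReal r * F (r * cos φ, r * sin φ) := by
  rw [← lintegral_comp_polarCoord_symm]
  have e : polarCoord.target = Ioi (0 : ℝ) ×ˢ Ioo (-π) π := rfl
  rw [e, Measure.volume_eq_prod, setLIntegral_prod_symm]
  · rfl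
  · refine Measurable.aemeasurable ?_
    refine Measurable.smul (ENNReal.measurable_ofReal.comp measurable_fst) ?_
    exact hF.comp continuous_polarCoord_symm.measurable

theorem volume_angle : volume (Ioo (-π) π) = ENNReal.ofReal (2 * π) := by
  rw [Real.volume_Ioo]; congr 1; ring

/-- the integral of the weight -/
theorem lintegral_wt {M m : ℝ} (hM : 0 < M) (hm : M < m) :
    ∫⁻ w, wt M m w = ENNReal.ofReal (2 * π * Real.log (m / M)) := by
  have hm0 : 0 < m := hM.trans hm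
  have hL : 0 ≤ Real.log (m / M) := Real.log_nonneg (by rw [one_le_div hM]; exact hm.le)
  rw [lintegral_polar (measurable_wt M m)]
  have e : ∀ φ : ℝ, ∫⁻ r in Ioi (0 : ℝ), ENNReal.ofReal r * wt M m (r * cos φ, r * sin φ) =
      ENNReal.ofReal (Real.log (m / M)) := by
    intro φ
    have h1 : ∀ r ∈ Ioi (0 : ℝ), ENNReal.ofReal r * wt M m (r * cos φ, r * sin φ) =
        (Ioo M m).indicator (fun r => ENNReal.ofReal (r⁻¹)) r := by
      intro r hr
      have hr0 : (0 : ℝ) < r := hr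
      have hsq : (r * cos φ) ^ 2 + (r * sin φ) ^ 2 = r ^ 2 := by
        nlinarith [sin_sq_add_cos_sq φ]
      unfold wt
      by_cases hrm : r ∈ Ioo M m
      · rw [indicator_of_mem hrm, indicator_of_mem, ← ENNReal.ofReal_mul hr0.le]
        · simp only
          rw [hsq]
          congr 1
          field_simp
        · show M ^ 2 < (r * cos φ) ^ 2 + (r * sin φ) ^ 2 ∧
            (r * cos φ) ^ 2 + (r * sin φ) ^ 2 < m ^ 2
          rw [hsq]
          exact ⟨by nlinarith [hrm.1], by nlinarith [hrm.2]⟩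
      · rw [indicator_of_notMem hrm, indicator_of_notMem, mul_zero]
        intro hcon
        have hcon' : M ^ 2 < (r * cos φ) ^ 2 + (r * sin φ) ^ 2 ∧
            (r * cos φ) ^ 2 + (r * sin φ) ^ 2 < m ^ 2 := hcon
        rw [hsq] at hcon'
        apply hrm
        exact ⟨lt_of_pow_lt_pow_left₀ 2 hr0.le hcon'.1, lt_of_pow_lt_pow_left₀ 2 hm0.le hcon'.2⟩
    rw [setLIntegral_congr_fun measurableSet_Ioi h1, ← lintegral_indicator measurableSet_Ioi,
      indicator_indicator, lintegral_indicator (measurableSet_Ioi.inter measurableSet_Ioo)]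
    have hsub : Ioi (0 : ℝ) ∩ Ioo M m = Ioo M m := by
      apply inter_eq_right.2
      intro x hx
      exact hM.trans hx.1
    rw [hsub, setLIntegral_congr (Ioo_ae_eq_Ioc (a := M) (b := m)),
      ← ofReal_integral_eq_lintegral_ofReal, ← intervalIntegral.integral_of_le hm.le,
      integral_inv_of_pos hM hm0]
    · refine (intervalIntegrable_iff_integrableOn_Ioc_of_le hm.le).1 ?_
      apply ContinuousOn.intervalIntegrable
      rw [uIcc_of_le hm.le]
      exact ContinuousOn.inv₀ continuousOn_id fun x hx => (hM.trans_le hx.1).ne'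
    · refine (ae_restrict_iff' measurableSet_Ioc).2 (Eventually.of_forall fun x hx => ?_)
      have : 0 < x := hM.trans hx.1
      show 0 ≤ x⁻¹
      positivity
  simp_rw [e]
  rw [setLIntegral_const, volume_angle, ← ENNReal.ofReal_mul hL]
  congr 1
  ring

/-- the capacity inequality -/
theorem cap_ineq {G : P → P} (hG : ContDiff ℝ 1 G) {r0 R M m K : ℝ} {n : ℕ} (hr0 : 0 < r0)
    (hR : r0 < R) (hM : 0 < M) (hm : M < m) (hK : 0 < K) (hn : 0 < n)
    (hrad : ∀ r φ : ℝ, 0 < r → r < R →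
      (fderiv ℝ G (r * cos φ, r * sin φ) (cos φ, sin φ)).1 ^ 2 +
      (fderiv ℝ G (r * cos φ, r * sin φ) (cos φ, sin φ)).2 ^ 2 ≤
        K * |(fderiv ℝ G (r * cos φ, r * sin φ)).det|)
    (h0 : ∀ φ : ℝ, (G (r0 * cos φ, r0 * sin φ)).1 ^ 2 + (G (r0 * cos φ, r0 * sin φ)).2 ^ 2 ≤ M ^ 2)
    (h1 : ∀ φ : ℝ, m ^ 2 ≤ (G (R * cos φ, R * sin φ)).1 ^ 2 + (G (R * cos φ, R * sin φ)).2 ^ 2)
    (hmult : ∀ w, {y | y ∈ {y : P | y.1 ^ 2 + y.2 ^ 2 < R ^ 2} ∧ G y = w}.encard ≤ n) :
    Real.log (m / M) ≤ K * n * Real.log (R / r0) := by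
  have hm0 : 0 < m := hM.trans hm
  have hR0 : 0 < R := hr0.trans hR
  have hn' : (0 : ℝ) < n := by exact_mod_cast hn
  set L := Real.log (m / M) with hLdef
  have hL : 0 ≤ L := Real.log_nonneg (by rw [one_le_div hM]; exact hm.le)
  have hQ : 0 ≤ Real.log (R / r0) := Real.log_nonneg (by rw [one_le_div hr0]; exact hR.le)
  set lam := 1 / (K * n) with hlam
  have hl : 0 < lam := by positivity
  set D : Set P := {y : P | y.1 ^ 2 + y.2 ^ 2 < R ^ 2} with hD
  have hDm : MeasurableSet D :=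
    measurableSet_lt (f := fun x : P => x.1 ^ 2 + x.2 ^ 2) (g := fun _ : P => R ^ 2)
      (by fun_prop) measurable_const
  have hdetc : Continuous fun y => (fderiv ℝ G y).det := continuous_det_fderiv hG
  set F0 : P → ℝ≥0∞ := fun y => wt M m (G y) * ENNReal.ofReal |(fderiv ℝ G y).det| with hF0
  have hF0m : Measurable F0 :=
    ((measurable_wt M m).comp hG.continuous.measurable).mul
      (ENNReal.measurable_ofReal.comp hdetc.abs.measurable)
  set F : P → ℝ≥0∞ := fun y => ENNReal.ofReal (lam / 2 * K) * D.indicator F0 y with hF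
  have hFm : Measurable F := (hF0m.indicator hDm).const_mul _
  have hFint : ∫⁻ y, F y ≤ ENNReal.ofReal (lam / 2 * K) *
      (ENNReal.ofReal (2 * π * L) * n) := by
    rw [hF, lintegral_const_mul _ (hF0m.indicator hDm), lintegral_indicator hDm, hF0,
      area_formula hG hDm (measurable_wt M m), ← lintegral_wt hM hm,
      ← lintegral_mul_const _ (measurable_wt M m)]
    gcongr with w
    exact_mod_cast hmult w
  rw [lintegral_polar hFm] at hFint
  -- one line
  have hline : ∀ φ : ℝ, ENNReal.ofReal L ≤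
      (∫⁻ r in Ioi (0 : ℝ), ENNReal.ofReal r * F (r * cos φ, r * sin φ)) +
      ENNReal.ofReal (Real.log (R / r0) / (2 * lam)) := by
    intro φ
    have hc : ∀ r : ℝ, HasDerivAt (fun r : ℝ => ((r * cos φ, r * sin φ) : P)) (cos φ, sin φ) r := by
      intro r
      have h1 : HasDerivAt (fun r : ℝ => r * cos φ) (1 * cos φ) r :=
        (hasDerivAt_id r).mul_const _
      have h2 : HasDerivAt (fun r : ℝ => r * sin φ) (1 * sin φ) r :=
        (hasDerivAt_id r).mul_const _
      simpa using h1.prodMk h2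
    have hγ : ∀ r : ℝ, HasDerivAt (fun r : ℝ => G (r * cos φ, r * sin φ))
        (fderiv ℝ G (r * cos φ, r * sin φ) (cos φ, sin φ)) r := by
      intro r
      exact (hG.differentiable (by norm_num) _).hasFDerivAt.comp_hasDerivAt r (hc r)
    have hcont : Continuous fun r : ℝ => fderiv ℝ G (r * cos φ, r * sin φ) (cos φ, sin φ) := by
      refine ((hG.continuous_fderiv (by norm_num)).comp (by fun_prop)).clm_apply continuous_const
    have hone := one_dim (a := fun r => (G (r * cos φ, r * sin φ)).1)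
      (b := fun r => (G (r * cos φ, r * sin φ)).2)
      (a' := fun r => (fderiv ℝ G (r * cos φ, r * sin φ) (cos φ, sin φ)).1)
      (b' := fun r => (fderiv ℝ G (r * cos φ, r * sin φ) (cos φ, sin φ)).2)
      (fun r => (hγ r).fst) (fun r => (hγ r).snd)
      (continuous_fst.comp hcont) (continuous_snd.comp hcont) hr0 hR hM hm hl (h0 φ) (h1 φ)
    refine hone.trans (add_le_add ?_ le_rfl)
    have hss : Ioo r0 R ⊆ Ioi (0 : ℝ) := fun x hx => hr0.trans hx.1
    refine le_trans ?_ (lintegral_mono_set hss)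
    refine setLIntegral_mono' measurableSet_Ioo fun r hr => ?_
    have hrp : 0 < r := hr0.trans hr.1
    have hmem : ((r * cos φ, r * sin φ) : P) ∈ D := by
      show (r * cos φ) ^ 2 + (r * sin φ) ^ 2 < R ^ 2
      have : (r * cos φ) ^ 2 + (r * sin φ) ^ 2 = r ^ 2 := by nlinarith [sin_sq_add_cos_sq φ]
      rw [this]; nlinarith [hr.2]
    simp only [hF, hF0]
    rw [indicator_of_mem hmem]
    have hh := hrad r φ hrp hr.2
    have e : ENNReal.ofReal r * (ENNReal.ofReal (lam / 2 * K) *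
        (wt M m (G (r * cos φ, r * sin φ)) *
          ENNReal.ofReal |(fderiv ℝ G (r * cos φ, r * sin φ)).det|)) =
        wt M m (G (r * cos φ, r * sin φ)) *
          ENNReal.ofReal (lam / 2 * r * (K * |(fderiv ℝ G (r * cos φ, r * sin φ)).det|)) := by
      rw [show lam / 2 * r * (K * |(fderiv ℝ G (r * cos φ, r * sin φ)).det|) =
        r * ((lam / 2 * K) * |(fderiv ℝ G (r * cos φ, r * sin φ)).det|) by ring,
        ENNReal.ofReal_mul hrp.le, ENNReal.ofReal_mul (p := lam / 2 * K) (by positivity)]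
      ring
    rw [e]
    gcongr
  have hsum : ENNReal.ofReal L * ENNReal.ofReal (2 * π) ≤
      ENNReal.ofReal (lam / 2 * K) * (ENNReal.ofReal (2 * π * L) * n) +
      ENNReal.ofReal (Real.log (R / r0) / (2 * lam)) * ENNReal.ofReal (2 * π) := by
    calc ENNReal.ofReal L * ENNReal.ofReal (2 * π)
        = ∫⁻ φ in Ioo (-π) π, ENNReal.ofReal L := by rw [setLIntegral_const, volume_angle]
      _ ≤ ∫⁻ φ in Ioo (-π) π,
          ((∫⁻ r in Ioi (0 : ℝ), ENNReal.ofReal r * F (r * cos φ, r * sin φ)) +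
            ENNReal.ofReal (Real.log (R / r0) / (2 * lam))) :=
          lintegral_mono fun φ => hline φ
      _ = (∫⁻ φ in Ioo (-π) π,
          (∫⁻ r in Ioi (0 : ℝ), ENNReal.ofReal r * F (r * cos φ, r * sin φ))) +
            ENNReal.ofReal (Real.log (R / r0) / (2 * lam)) * ENNReal.ofReal (2 * π) := by
          rw [lintegral_add_right _ measurable_const, setLIntegral_const, volume_angle]
      _ ≤ _ := by gcongr
  have hfin : L * (2 * π) ≤ lam / 2 * K * (2 * π * L * n) +
      Real.log (R / r0) / (2 * lam) * (2 * π) := by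
    have hn2 : (n : ℝ≥0∞) = ENNReal.ofReal (n : ℝ) := by simp
    rw [hn2, ← ENNReal.ofReal_mul hL, ← ENNReal.ofReal_mul (by positivity),
      ← ENNReal.ofReal_mul (by positivity), ← ENNReal.ofReal_mul (by positivity),
      ← ENNReal.ofReal_add (by positivity) (by positivity)] at hsum
    exact (ENNReal.ofReal_le_ofReal_iff (by positivity)).1 hsum
  have hpi := Real.pi_pos
  have e1 : lam / 2 * K * (2 * π * L * n) = π * L := by
    rw [hlam]; field_simp
  have e2 : Real.log (R / r0) / (2 * lam) * (2 * π) = π * (K * n * Real.log (R / r0)) := by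
    rw [hlam]; field_simp
  rw [e1, e2] at hfin
  have : π * L ≤ π * (K * n * Real.log (R / r0)) := by linarith
  exact le_of_mul_le_mul_left this hpi


/-! ### Taylor bounds -/

/-- vanishing of order `k` at `p` -/
def Van (k : ℕ) (f : P → ℝ) (p : P) : Prop :=
  ∃ C : ℝ, 0 ≤ C ∧ ∀ x ∈ Metric.ball p 1, |f x| ≤ C * ‖x - p‖ ^ k

theorem van_zero {f : P → ℝ} (hf : Continuous f) (p : P) : Van 0 f p := by
  obtain ⟨C, hC⟩ := (isCompact_closedBall p 1).exists_bound_of_continuousOn hf.continuousOn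
  refine ⟨|C|, abs_nonneg _, fun x hx => ?_⟩
  have := hC x (Metric.ball_subset_closedBall hx)
  rw [Real.norm_eq_abs] at this
  simpa using this.trans (le_abs_self C)

theorem norm_fderiv_le (f : P → ℝ) (x : P) : ‖fderiv ℝ f x‖ ≤ |d1 f x| + |d2 f x| := by
  refine ContinuousLinearMap.opNorm_le_bound _ (by positivity) fun y => ?_
  rw [fderiv_apply_eq, smul_eq_mul, smul_eq_mul, Real.norm_eq_abs]
  have h1 : |y.1| ≤ ‖y‖ := norm_fst_le y
  have h2 : |y.2| ≤ ‖y‖ := norm_snd_le y
  calc |y.1 * d1 f x + y.2 * d2 f x| ≤ |y.1 * d1 f x| + |y.2 * d2 f x| := abs_add_le _ _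
    _ = |y.1| * |d1 f x| + |y.2| * |d2 f x| := by rw [abs_mul, abs_mul]
    _ ≤ ‖y‖ * |d1 f x| + ‖y‖ * |d2 f x| := by gcongr
    _ = (|d1 f x| + |d2 f x|) * ‖y‖ := by ring

theorem van_succ {f : P → ℝ} (hf : Differentiable ℝ f) {p : P} {k : ℕ}
    (h1 : Van k (d1 f) p) (h2 : Van k (d2 f) p) : Van (k + 1) (fun x => f x - f p) p := by
  obtain ⟨C1, hC1, hb1⟩ := h1
  obtain ⟨C2, hC2, hb2⟩ := h2
  refine ⟨C1 + C2, by positivity, fun x hx => ?_⟩
  have hxr : ‖x - p‖ < 1 := by rwa [← dist_eq_norm]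
  have hbound : ∀ y ∈ Metric.closedBall p ‖x - p‖, ‖fderiv ℝ f y‖ ≤ (C1 + C2) * ‖x - p‖ ^ k := by
    intro y hy
    have hyn : ‖y - p‖ ≤ ‖x - p‖ := by rwa [Metric.mem_closedBall, dist_eq_norm] at hy
    have hyb : y ∈ Metric.ball p 1 := by
      rw [Metric.mem_ball, dist_eq_norm]; exact hyn.trans_lt hxr
    refine (norm_fderiv_le f y).trans ?_
    calc |d1 f y| + |d2 f y| ≤ C1 * ‖y - p‖ ^ k + C2 * ‖y - p‖ ^ k :=
          add_le_add (hb1 y hyb) (hb2 y hyb)
      _ ≤ C1 * ‖x - p‖ ^ k + C2 * ‖x - p‖ ^ k := by gcongr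
      _ = _ := by ring
  have h := (convex_closedBall p ‖x - p‖).norm_image_sub_le_of_norm_fderiv_le
    (fun y _ => hf y) hbound (x := p) (y := x) (Metric.mem_closedBall_self (norm_nonneg _))
    (by rw [Metric.mem_closedBall, dist_eq_norm])
  rw [Real.norm_eq_abs] at h
  calc |f x - f p| ≤ (C1 + C2) * ‖x - p‖ ^ k * ‖x - p‖ := h
    _ = _ := by ring

theorem van_succ0 {f : P → ℝ} (hf : Differentiable ℝ f) {p : P} {k : ℕ} (h0 : f p = 0)
    (h1 : Van k (d1 f) p) (h2 : Van k (d2 f) p) : Van (k + 1) f p := by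
  have h := van_succ hf h1 h2
  simpa [h0] using h

/-! ### the map `G` -/

theorem d1_pair {A v : P → ℝ} (hs : Sol A v) (x : P) : d1 (pair A v) x = (d1 A x, d1 v x) := by
  have hf : fderiv ℝ (pair A v) x = (fderiv ℝ A x).prod (fderiv ℝ v x) :=
    (diffA hs x).fderiv_prodMk (diffv hs x)
  unfold d1; rw [hf]; rfl

theorem d2_pair {A v : P → ℝ} (hs : Sol A v) (x : P) : d2 (pair A v) x = (d2 A x, d2 v x) := by
  have hf : fderiv ℝ (pair A v) x = (fderiv ℝ A x).prod (fderiv ℝ v x) :=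
    (diffA hs x).fderiv_prodMk (diffv hs x)
  unfold d2; rw [hf]; rfl

/-- the change of variables -/
noncomputable def X (p : P) (α : ℝ) (y : P) : P := (p.1 + α * y.1, p.2 + α⁻¹ * y.2)

/-- the rescaled map -/
noncomputable def G (A v : P → ℝ) (p : P) (α : ℝ) (y : P) : P :=
  pair A v (X p α y) - pair A v p

theorem hasFDerivAt_X (p : P) (α : ℝ) (y : P) : HasFDerivAt (X p α)
    ((α • ContinuousLinearMap.fst ℝ ℝ ℝ).prod (α⁻¹ • ContinuousLinearMap.snd ℝ ℝ ℝ)) y := by
  unfold X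
  refine HasFDerivAt.prodMk ?_ ?_
  · exact ((hasFDerivAt_fst (p := y)).const_mul α).const_add p.1
  · exact ((hasFDerivAt_snd (p := y)).const_mul α⁻¹).const_add p.2

theorem contDiff_X (p : P) (α : ℝ) : ContDiff ℝ ∞ (X p α) := by
  unfold X
  fun_prop

theorem contDiff_G {A v : P → ℝ} (hs : Sol A v) (p : P) (α : ℝ) : ContDiff ℝ ∞ (G A v p α) := by
  unfold G
  exact ((hs.cA.prodMk hs.cv).comp (contDiff_X p α)).sub contDiff_const

theorem fderiv_G {A v : P → ℝ} (hs : Sol A v) (p : P) (α : ℝ) (y e : P) :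
    fderiv ℝ (G A v p α) y e =
      (e.1 * α) • (d1 A (X p α y), d1 v (X p α y)) +
      (e.2 * α⁻¹) • (d2 A (X p α y), d2 v (X p α y)) := by
  have hd : DifferentiableAt ℝ (pair A v) (X p α y) := (diffA hs _).prodMk (diffv hs _)
  have h := (hd.hasFDerivAt.comp y (hasFDerivAt_X p α y)).sub_const (pair A v p)
  have h' : fderiv ℝ (G A v p α) y = _ := h.fderiv
  rw [h', ContinuousLinearMap.comp_apply, fderiv_apply_eq, d1_pair hs, d2_pair hs]
  simp [mul_comm]

theorem det_G {A v : P → ℝ} (hs : Sol A v) (p : P) {α : ℝ} (hα : 0 < α) (y : P) :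
    (fderiv ℝ (G A v p α) y).det = jac A (X p α y) := by
  rw [det_eq]
  unfold d1 d2
  rw [fderiv_G hs, fderiv_G hs]
  simp only [one_mul, zero_mul, zero_smul, add_zero, zero_add, Prod.smul_mk, smul_eq_mul]
  have h1 := hs.h1 (X p α y)
  have h2 := hs.h2 (X p α y)
  rw [h1, h2]
  unfold jac
  field_simp
  ring

theorem rad_G {A v : P → ℝ} (hs : Sol A v) (p : P) {α K : ℝ} (hα : 0 < α) {y : P} {c s : ℝ}
    (hcs : c ^ 2 + s ^ 2 = 1) (h1 : α ^ 2 ≤ K * rexp (A (X p α y)))
    (h2 : rexp (A (X p α y)) ≤ K * α ^ 2) :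
    (fderiv ℝ (G A v p α) y (c, s)).1 ^ 2 + (fderiv ℝ (G A v p α) y (c, s)).2 ^ 2 ≤
      K * |(fderiv ℝ (G A v p α) y).det| := by
  rw [det_G hs p hα, abs_of_nonneg (jac_nonneg _), fderiv_G hs]
  simp only [Prod.smul_mk, smul_eq_mul, Prod.mk_add_mk]
  rw [hs.h1, hs.h2]
  unfold jac
  rw [Real.exp_neg]
  set E := rexp (A (X p α y)) with hE
  have hE0 : 0 < E := Real.exp_pos _
  set a := d1 A (X p α y)
  set b := d2 A (X p α y)
  have e : (c * α * a + s * α⁻¹ * b) ^ 2 + (c * α * -(E⁻¹ * b) + s * α⁻¹ * (E * a)) ^ 2 =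
      (E * a ^ 2 + E⁻¹ * b ^ 2) * (c ^ 2 * (α ^ 2 / E) + s ^ 2 * (E / α ^ 2)) := by
    field_simp
    ring
  rw [e, mul_comm K]
  have hj : 0 ≤ E * a ^ 2 + E⁻¹ * b ^ 2 := by positivity
  refine mul_le_mul_of_nonneg_left ?_ hj
  have h3 : α ^ 2 / E ≤ K := by rw [div_le_iff₀ hE0]; exact h1
  have h4 : E / α ^ 2 ≤ K := by rw [div_le_iff₀ (by positivity)]; exact h2
  calc c ^ 2 * (α ^ 2 / E) + s ^ 2 * (E / α ^ 2) ≤ c ^ 2 * K + s ^ 2 * K := by gcongr
    _ = K := by rw [← add_mul, hcs, one_mul]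

theorem norm_X_sub {p : P} {α : ℝ} (hα : 0 < α) {y : P} {q : ℝ} (hq : 0 ≤ q)
    (hy : y.1 ^ 2 + y.2 ^ 2 ≤ q ^ 2) : ‖X p α y - p‖ ≤ (α + α⁻¹) * q := by
  have h1 : |y.1| ≤ q := abs_le_of_sq_le_sq (by nlinarith [sq_nonneg y.2]) hq
  have h2 : |y.2| ≤ q := abs_le_of_sq_le_sq (by nlinarith [sq_nonneg y.1]) hq
  have hi : 0 < α⁻¹ := inv_pos.2 hα
  have e : X p α y - p = (α * y.1, α⁻¹ * y.2) := by
    unfold X; ext <;> simp
  rw [e, Prod.norm_def]
  refine max_le ?_ ?_
  · rw [Real.norm_eq_abs, abs_mul, abs_of_pos hα]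
    calc α * |y.1| ≤ α * q := by gcongr
      _ ≤ (α + α⁻¹) * q := by nlinarith [mul_nonneg hi.le hq]
  · rw [Real.norm_eq_abs, abs_mul, abs_of_pos hi]
    calc α⁻¹ * |y.2| ≤ α⁻¹ * q := by gcongr
      _ ≤ (α + α⁻¹) * q := by nlinarith [mul_nonneg hα.le hq]

theorem injective_X (p : P) {α : ℝ} (hα : 0 < α) : Function.Injective (X p α) := by
  intro y z h
  unfold X at h
  have h1 := congrArg Prod.fst h
  have h2 := congrArg Prod.snd h
  simp only at h1 h2
  have hi : α⁻¹ ≠ 0 := (inv_pos.2 hα).ne'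
  ext
  · exact mul_left_cancel₀ hα.ne' (add_left_cancel h1)
  · exact mul_left_cancel₀ hi (add_left_cancel h2)

theorem exists_isolated {f : P → P} {p : P} {r : ℝ} (hr : 0 < r) {n : ℕ}
    (hi : ∀ z, {x | x ∈ Metric.ball p r ∧ f x = z}.encard ≤ n) :
    ∃ ρ > 0, ρ ≤ r ∧ ∀ x ∈ Metric.ball p ρ, f x = f p → x = p := by
  have hfin : {x | x ∈ Metric.ball p r ∧ f x = f p}.Finite := by
    apply Set.finite_of_encard_le_coe (hi (f p))
  have hcl : IsClosed ({x | x ∈ Metric.ball p r ∧ f x = f p} \ {p}) :=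
    (hfin.subset sdiff_subset).isClosed
  have hp : p ∈ ({x | x ∈ Metric.ball p r ∧ f x = f p} \ {p})ᶜ := by simp
  obtain ⟨ρ, hρ, hsub⟩ := Metric.isOpen_iff.1 hcl.isOpen_compl p hp
  refine ⟨min ρ r, lt_min hρ hr, min_le_right _ _, fun x hx hfx => ?_⟩
  by_contra hne
  have h1 : x ∈ Metric.ball p ρ := Metric.ball_subset_ball (min_le_left _ _) hx
  have h2 : x ∈ Metric.ball p r := Metric.ball_subset_ball (min_le_right _ _) hx
  exact hsub h1 ⟨⟨h2, hfx⟩, hne⟩

theorem polar_sq (q φ : ℝ) : (q * cos φ) ^ 2 + (q * sin φ) ^ 2 = q ^ 2 := by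
  rw [mul_pow, mul_pow, ← mul_add, cos_sq_add_sin_sq, mul_one]

theorem exists_T (a b c : ℝ) {k d : ℝ} (hk : 0 < k) (hd : 0 < d) :
    ∃ T : ℝ, a < T ∧ b < k * T ∧ c < d * T := by
  refine ⟨max a (max (b / k) (c / d)) + 1, ?_, ?_, ?_⟩
  · have := le_max_left a (max (b / k) (c / d)); linarith
  · have h1 : b / k ≤ max a (max (b / k) (c / d)) := (le_max_left _ _).trans (le_max_right _ _)
    have : b / k < max a (max (b / k) (c / d)) + 1 := by linarith
    rw [div_lt_iff₀ hk] at this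
    linarith
  · have h1 : c / d ≤ max a (max (b / k) (c / d)) := (le_max_right _ _).trans (le_max_right _ _)
    have : c / d < max a (max (b / k) (c / d)) + 1 := by linarith
    rw [div_lt_iff₀ hd] at this
    linarith

set_option maxHeartbeats 1600000 in
theorem cap_main {A v : P → ℝ} (hs : Sol A v) {p : P} {r : ℝ} (hr : 0 < r) {n k : ℕ} {K : ℝ}
    (hK1 : 1 < K) (hn : 0 < n) (hKn : K * n < k)
    (hi : ∀ z, {x | x ∈ Metric.ball p r ∧ pair A v x = z}.encard ≤ n)
    (hA : Van k (fun x => A x - A p) p) (hv : Van k (fun x => v x - v p) p) : False := by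
  have hK0 : 0 < K := by linarith
  have hn' : (0 : ℝ) < n := by exact_mod_cast hn
  have hk' : (0 : ℝ) < k := lt_trans (by positivity) hKn
  obtain ⟨CA, hCA, hbA⟩ := hA
  obtain ⟨Cv, hCv, hbv⟩ := hv
  obtain ⟨r1, hr1, hr1r, hiso⟩ := exists_isolated hr hi
  have hlogK : 0 < Real.log K := Real.log_pos hK1
  have hcAt : ContinuousAt A p := hs.cA.continuous.continuousAt
  obtain ⟨r2, hr2, hcont⟩ := Metric.continuousAt_iff.1 hcAt (Real.log K) hlogK
  set α := rexp (A p / 2) with hα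
  have hα0 : 0 < α := Real.exp_pos _
  have hα2 : α ^ 2 = rexp (A p) := by
    rw [hα, ← Real.exp_nat_mul]; congr 1; push_cast; ring
  set β := α + α⁻¹ with hβ
  have hβ0 : 0 < β := by positivity
  set r3 := min r1 (min r2 1) with hr3
  have hr30 : 0 < r3 := lt_min hr1 (lt_min hr2 one_pos)
  set R := r3 / (2 * β) with hRdef
  have hR0 : 0 < R := by positivity
  have hβR : β * R < r3 := by
    rw [hRdef]; field_simp; linarith
  -- points of the closed disc
  have hball : ∀ y : P, y.1 ^ 2 + y.2 ^ 2 ≤ R ^ 2 → X p α y ∈ Metric.ball p r3 := by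
    intro y hy
    rw [Metric.mem_ball, dist_eq_norm]
    exact (norm_X_sub hα0 hR0.le hy).trans_lt hβR
  set g : P → ℝ := fun y => (G A v p α y).1 ^ 2 + (G A v p α y).2 ^ 2 with hg
  have hGc : Continuous (G A v p α) := (contDiff_G hs p α).continuous
  have hgc : Continuous g :=
    ((continuous_fst.comp hGc).pow 2).add ((continuous_snd.comp hGc).pow 2)
  -- the circle
  have hS : IsCompact {y : P | y.1 ^ 2 + y.2 ^ 2 = R ^ 2} := by
    refine Metric.isCompact_of_isClosed_isBounded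
      (isClosed_eq (by fun_prop) continuous_const) ?_
    refine (Metric.isBounded_closedBall (x := (0 : P)) (r := R)).subset fun y hy => ?_
    have hy' : y.1 ^ 2 + y.2 ^ 2 = R ^ 2 := hy
    rw [mem_closedBall_zero_iff, Prod.norm_def]
    exact max_le (abs_le_of_sq_le_sq (by nlinarith [sq_nonneg y.2]) hR0.le)
      (abs_le_of_sq_le_sq (by nlinarith [sq_nonneg y.1]) hR0.le)
  obtain ⟨y0, hy0, hmin⟩ := hS.exists_isMinOn ⟨(R, 0), by simp⟩ hgc.continuousOn
  have hy0' : y0.1 ^ 2 + y0.2 ^ 2 = R ^ 2 := hy0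
  have hXp : X p α 0 = p := by unfold X; simp
  have hgpos : 0 < g y0 := by
    have hne : G A v p α y0 ≠ 0 := by
      intro h0
      have h1 : pair A v (X p α y0) = pair A v p := sub_eq_zero.1 h0
      have h2 := hiso _ (Metric.ball_subset_ball (min_le_left _ _) (hball y0 hy0'.le)) h1
      have h3 := injective_X p hα0 (h2.trans hXp.symm)
      rw [h3] at hy0'
      simp only [Prod.fst_zero, Prod.snd_zero] at hy0'
      nlinarith
    rcases (lt_or_eq_of_le (show 0 ≤ g y0 by rw [hg]; positivity)) with h | h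
    · exact h
    · exfalso
      apply hne
      have h1 : (G A v p α y0).1 ^ 2 + (G A v p α y0).2 ^ 2 = 0 := h.symm
      have h2 : (G A v p α y0).1 = 0 := by nlinarith [sq_nonneg (G A v p α y0).1, sq_nonneg (G A v p α y0).2]
      have h3 : (G A v p α y0).2 = 0 := by nlinarith [sq_nonneg (G A v p α y0).1, sq_nonneg (G A v p α y0).2]
      exact Prod.ext h2 h3
  set m := Real.sqrt (g y0) with hm
  have hm0 : 0 < m := Real.sqrt_pos.2 hgpos
  have hm2 : m ^ 2 = g y0 := Real.sq_sqrt hgpos.le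
  set C := CA + Cv + 1 with hC
  have hC0 : 0 < C := by positivity
  set D := 2 * C * β ^ k with hD
  have hD0 : 0 < D := by positivity
  -- choice of the radius
  obtain ⟨T, hT1, hT2, hT3⟩ := exists_T (-Real.log R) (Real.log D - Real.log m)
    (K * n * Real.log R - Real.log m + Real.log D) hk' (sub_pos.2 hKn)
  set r0 := rexp (-T) with hr0
  have hr00 : 0 < r0 := Real.exp_pos _
  have hlog0 : Real.log r0 = -T := by rw [hr0, Real.log_exp]
  have hr0R : r0 < R := by
    rw [← Real.log_lt_log_iff hr00 hR0, hlog0]; linarith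
  set M := D * r0 ^ k with hM
  have hM0 : 0 < M := by positivity
  have hlogM : Real.log M = Real.log D - k * T := by
    rw [hM, Real.log_mul hD0.ne' (by positivity), Real.log_pow, hlog0]; ring
  have hMm : M < m := by
    rw [← Real.log_lt_log_iff hM0 hm0, hlogM]; linarith
  have key := cap_ineq (G := G A v p α) ((contDiff_G hs p α).of_le (by simp)) (n := n) hr00 hr0R
    hM0 hMm hK0 hn ?_ ?_ ?_ ?_
  · rw [Real.log_div hm0.ne' hM0.ne', Real.log_div hR0.ne' hr00.ne', hlogM, hlog0] at key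
    linarith
  · -- radial bound
    intro q φ hq hqR
    have hmem : X p α (q * cos φ, q * sin φ) ∈ Metric.ball p r3 := by
      apply hball
      show (q * cos φ) ^ 2 + (q * sin φ) ^ 2 ≤ R ^ 2
      rw [polar_sq]; exact pow_le_pow_left₀ hq.le hqR.le 2
    have hd : dist (A (X p α (q * cos φ, q * sin φ))) (A p) < Real.log K :=
      hcont (Metric.ball_subset_ball ((min_le_right _ _).trans (min_le_left _ _)) hmem)
    rw [Real.dist_eq, abs_lt] at hd
    have hKe : K = rexp (Real.log K) := (Real.exp_log hK0).symm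
    refine rad_G hs p hα0 (by rw [add_comm]; exact sin_sq_add_cos_sq φ) ?_ ?_
    · rw [hα2, hKe, ← Real.exp_add]
      apply Real.exp_le_exp.2
      linarith [hd.1]
    · rw [hα2, hKe, ← Real.exp_add]
      apply Real.exp_le_exp.2
      linarith [hd.2]
  · -- small circle
    intro φ
    have hsq := polar_sq r0 φ
    have hmem : X p α (r0 * cos φ, r0 * sin φ) ∈ Metric.ball p r3 := by
      apply hball
      show (r0 * cos φ) ^ 2 + (r0 * sin φ) ^ 2 ≤ R ^ 2
      rw [hsq]; exact pow_le_pow_left₀ hr00.le hr0R.le 2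
    have hmem1 : X p α (r0 * cos φ, r0 * sin φ) ∈ Metric.ball p 1 :=
      Metric.ball_subset_ball ((min_le_right _ _).trans (min_le_right _ _)) hmem
    have hnorm : ‖X p α (r0 * cos φ, r0 * sin φ) - p‖ ≤ β * r0 :=
      norm_X_sub hα0 hr00.le (y := (r0 * cos φ, r0 * sin φ)) hsq.le
    have hpow : ‖X p α (r0 * cos φ, r0 * sin φ) - p‖ ^ k ≤ (β * r0) ^ k := by gcongr
    have h1 : |A (X p α (r0 * cos φ, r0 * sin φ)) - A p| ≤ C * (β * r0) ^ k := by
      refine (hbA _ hmem1).trans ?_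
      exact mul_le_mul (by rw [hC]; linarith) hpow (by positivity) hC0.le
    have h2 : |v (X p α (r0 * cos φ, r0 * sin φ)) - v p| ≤ C * (β * r0) ^ k := by
      refine (hbv _ hmem1).trans ?_
      exact mul_le_mul (by rw [hC]; linarith) hpow (by positivity) hC0.le
    have h1' := sq_le_sq' (by linarith [abs_le.1 h1]) (abs_le.1 h1).2
    have h2' := sq_le_sq' (by linarith [abs_le.1 h2]) (abs_le.1 h2).2
    show (A (X p α (r0 * cos φ, r0 * sin φ)) - A p) ^ 2 +
      (v (X p α (r0 * cos φ, r0 * sin φ)) - v p) ^ 2 ≤ M ^ 2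
    have hMe : M = 2 * (C * (β * r0) ^ k) := by rw [hM, hD, mul_pow]; ring
    rw [hMe]
    nlinarith [sq_nonneg (C * (β * r0) ^ k)]
  · -- large circle
    intro φ
    rw [hm2]
    have hsq := polar_sq R φ
    exact hmin (show ((R * cos φ, R * sin φ) : P) ∈ {y : P | y.1 ^ 2 + y.2 ^ 2 = R ^ 2} from hsq)
  · -- multiplicity
    intro w
    refine le_trans ?_ (hi (w + pair A v p))
    have hinj := (injective_X p hα0).injOn (s := {y | y ∈ {y : P | y.1 ^ 2 + y.2 ^ 2 < R ^ 2} ∧
      G A v p α y = w})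
    rw [← hinj.encard_image]
    apply encard_le_encard
    rintro x ⟨y, ⟨hy, hyw⟩, rfl⟩
    have hy' : y.1 ^ 2 + y.2 ^ 2 < R ^ 2 := hy
    refine ⟨Metric.ball_subset_ball ((min_le_left _ _).trans hr1r) (hball y hy'.le), ?_⟩
    rw [← hyw]; unfold G; abel

end Cap

open Cap

theorem jac_zero_iff {A : P → ℝ} {p : P} (hj : jac A p = 0) : d1 A p = 0 ∧ d2 A p = 0 := by
  unfold jac at hj
  have h1 : 0 < rexp (A p) := Real.exp_pos _
  have h2 : 0 < rexp (-(A p)) := Real.exp_pos _
  have h3 : 0 ≤ rexp (A p) * d1 A p ^ 2 := by positivity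
  have h4 : 0 ≤ rexp (-(A p)) * d2 A p ^ 2 := by positivity
  have h5 : rexp (A p) * d1 A p ^ 2 = 0 := by linarith
  have h6 : rexp (-(A p)) * d2 A p ^ 2 = 0 := by linarith
  refine ⟨?_, ?_⟩
  · have := (mul_eq_zero.1 h5).resolve_left h1.ne'
    exact pow_eq_zero_iff (two_ne_zero) |>.1 this
  · have := (mul_eq_zero.1 h6).resolve_left h2.ne'
    exact pow_eq_zero_iff (two_ne_zero) |>.1 this

theorem jac_ne_zero_of_inj {A v : P → ℝ} (hs : Sol A v) {p : P} {r : ℝ} (hr : 0 < r)
    (hi : InjOn (pair A v) (Metric.ball p r)) : jac A p ≠ 0 := by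
  intro hj
  obtain ⟨ha, hb⟩ := jac_zero_iff hj
  have hva : d1 v p = 0 := by rw [hs.h1, hb]; simp
  have hvb : d2 v p = 0 := by rw [hs.h2, ha]; simp
  have sA1 := smooth_d1 hs.cA
  have sA2 := smooth_d2 hs.cA
  have sv1 := smooth_d1 hs.cv
  have sv2 := smooth_d2 hs.cv
  have dd : ∀ {f : P → ℝ}, ContDiff ℝ ∞ f → Differentiable ℝ f :=
    fun h => h.differentiable (by simp)
  refine cap_main hs (p := p) hr (n := 1) (k := 2) (K := 4 / 3) (by norm_num) one_pos (by norm_num) ?_ ?_ ?_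
  · intro z
    rw [Nat.cast_one, Set.encard_le_one_iff]
    intro a b ha hb
    exact hi ha.1 hb.1 (ha.2.trans hb.2.symm)
  · exact van_succ (dd hs.cA)
      (van_succ0 (dd sA1) ha (van_zero (smooth_d1 sA1).continuous p)
        (van_zero (smooth_d2 sA1).continuous p))
      (van_succ0 (dd sA2) hb (van_zero (smooth_d1 sA2).continuous p)
        (van_zero (smooth_d2 sA2).continuous p))
  · exact van_succ (dd hs.cv)
      (van_succ0 (dd sv1) hva (van_zero (smooth_d1 sv1).continuous p)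
        (van_zero (smooth_d2 sv1).continuous p))
      (van_succ0 (dd sv2) hvb (van_zero (smooth_d1 sv2).continuous p)
        (van_zero (smooth_d2 sv2).continuous p))

theorem second_ne_zero {A v : P → ℝ} (hs : Sol A v) {p : P} {r : ℝ} (hr : 0 < r)
    (hi : ∀ z, {x | x ∈ Metric.ball p r ∧ pair A v x = z}.encard ≤ 2) (hj : jac A p = 0) :
    ¬ (d1 (d1 A) p = 0 ∧ d1 (d1 v) p = 0) := by
  rintro ⟨h11, hv11⟩
  obtain ⟨ha, hb⟩ := jac_zero_iff hj
  have hva : d1 v p = 0 := by rw [hs.h1, hb]; simp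
  have hvb : d2 v p = 0 := by rw [hs.h2, ha]; simp
  have he1 : rexp (A p) ≠ 0 := (Real.exp_pos _).ne'
  have he2 : rexp (-(A p)) ≠ 0 := (Real.exp_pos _).ne'
  obtain ⟨e1, e2, e3, e4⟩ := v_second hs p
  have hcA := d1_d2_comm (hs.cA.of_le (by norm_cast)) p
  have hcv := d1_d2_comm (hs.cv.of_le (by norm_cast)) p
  have eA := eqA hs p
  have h12 : d1 (d2 A) p = 0 := by
    rw [hv11, ha, hb] at e1
    have h := (mul_eq_zero.1 e1.symm).resolve_left he2
    linarith
  have h21 : d2 (d1 A) p = 0 := by rw [← hcA]; exact h12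
  have h22 : d2 (d2 A) p = 0 := by
    rw [h11, ha, hb] at eA
    have h : rexp (-(A p)) * d2 (d2 A) p = 0 := by linarith
    exact (mul_eq_zero.1 h).resolve_left he2
  have hv22 : d2 (d2 v) p = 0 := by rw [e2, ha, h21]; simp
  have hv21 : d2 (d1 v) p = 0 := by rw [e3, hb, h22]; simp
  have hv12 : d1 (d2 v) p = 0 := by rw [e4, ha, h11]; simp
  have sA1 := smooth_d1 hs.cA
  have sA2 := smooth_d2 hs.cA
  have sv1 := smooth_d1 hs.cv
  have sv2 := smooth_d2 hs.cv
  have dd : ∀ {f : P → ℝ}, ContDiff ℝ ∞ f → Differentiable ℝ f :=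
    fun h => h.differentiable (by simp)
  have one : ∀ {f : P → ℝ}, ContDiff ℝ ∞ f → f p = 0 → Van 1 f p := fun h h0 =>
    van_succ0 (dd h) h0 (van_zero (smooth_d1 h).continuous p) (van_zero (smooth_d2 h).continuous p)
  refine cap_main hs (p := p) hr (n := 2) (k := 3) (K := 5 / 4) (by norm_num) two_pos (by norm_num) hi ?_ ?_
  · exact van_succ (dd hs.cA)
      (van_succ0 (dd sA1) ha (one (smooth_d1 sA1) h11) (one (smooth_d2 sA1) h21))
      (van_succ0 (dd sA2) hb (one (smooth_d1 sA2) h12) (one (smooth_d2 sA2) h22))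
  · exact van_succ (dd hs.cv)
      (van_succ0 (dd sv1) hva (one (smooth_d1 sv1) hv11) (one (smooth_d2 sv1) hv21))
      (van_succ0 (dd sv2) hvb (one (smooth_d1 sv2) hv12) (one (smooth_d2 sv2) hv22))

end Pool.Agent.EU
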