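import Pool.Agent.EU.OntoDefs

/-!
The definitions used in the statement of the classification of the entire solutions
of `u₁₁ u₂₂ = 1` (together with those of `Defs`, `Types` and `OntoDefs`).
-/

set_option autoImplicit false
open scoped ContDiff Topology ENNReal
open Real Set MeasureTheory Filter

namespace Pool.Agent.EU

/-- An entire solution of `u₁₁ u₂₂ = 1`: a `C²` function on the plane, convex on every line
parallel to a coordinate axis, with `u₁₁ u₂₂ = 1` everywhere. -/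
structure IsEntireSolution (u : P → ℝ) : Prop where
  smooth : ContDiff ℝ 2 u
  conv1 : ∀ t : ℝ, ConvexOn ℝ univ fun s : ℝ => u (s, t)
  conv2 : ∀ s : ℝ, ConvexOn ℝ univ fun t : ℝ => u (s, t)
  eq : ∀ x, d1 (d1 u) x * d2 (d2 u) x = 1

/-- a quadratic polynomial with `u₁₁ = a > 0`, `u₂₂ = 1 / a` -/
def IsQuadratic (u : P → ℝ) : Prop := ∃ a c l m n : ℝ, 0 < a ∧
  ∀ x : P, u x = (a * x.1 ^ 2 + a⁻¹ * x.2 ^ 2) / 2 + c * x.1 * x.2 + l * x.1 + m * x.2 + n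

/-- rotation of the plane by a quarter turn -/
def rot (x : P) : P := (-x.2, x.1)

/-- `F` carries the Hessian of `u` to `(e^{-q₁}, q₂, e^{q₁})`:
`u₁₁ = e^{-q₁}`, `u₁₂ = q₂`, `u₂₂ = e^{q₁}` at the point `F q`. -/
structure HessI (F : P → P) (u : P → ℝ) : Prop where
  c2 : ContDiff ℝ 2 u
  h11 : ∀ q, d1 (d1 u) (F q) = Real.exp (-q.1)
  h12 : ∀ q, d2 (d1 u) (F q) = q.2
  h22 : ∀ q, d2 (d2 u) (F q) = Real.exp q.1

/-- `u₁₁ = e^{-H}`, `u₁₂ = v₀ + 2 q₁ q₂`, `u₂₂ = e^H` at the point `F q`,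
with `H = h₀ + q₁² - q₂²`. -/
structure HessII (h0 v0 : ℝ) (F : P → P) (u : P → ℝ) : Prop where
  c2 : ContDiff ℝ 2 u
  h11 : ∀ q, d1 (d1 u) (F q) = Real.exp (-(h0 + q.1 ^ 2 - q.2 ^ 2))
  h12 : ∀ q, d2 (d1 u) (F q) = v0 + 2 * q.1 * q.2
  h22 : ∀ q, d2 (d2 u) (F q) = Real.exp (h0 + q.1 ^ 2 - q.2 ^ 2)

/-- criterion for surjectivity of the maps of the first family, `0 ≤ γ < π / 2` -/
def OntoI (γ b : ℝ) (M : Measure ℝ) : Prop := (γ = 0 ∧ OntoI0 b M) ∨ (0 < γ ∧ OntoIpos γ b M)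

/-- the point of the unit circle with angle `ν` -/
noncomputable def circ (ν : ℝ) : P := (cos ν, sin ν)

end Pool.Agent.EU
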