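import Pool.Agent.EU.ClassDefs

/-!
Entire solutions of `u₁₁ u₂₂ = 1`: convexity along the axes and the sign of `u₁₁`.
-/

set_option autoImplicit false
open scoped ContDiff Topology
open Real Set

namespace Pool.Agent.EU

/-- a convex function with derivative `g'` and second derivative `g''` -/
theorem second_nonneg {g g' : ℝ → ℝ} {c s : ℝ} (hc : ConvexOn ℝ univ g)
    (h1 : ∀ s, HasDerivAt g (g' s) s) (h2 : HasDerivAt g' c s) : 0 ≤ c := by
  have hm : MonotoneOn (derivWithin g univ) univ :=
    hc.monotoneOn_derivWithin fun x _ => (h1 x).differentiableAt.differentiableWithinAt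
  have hm' : Monotone g' := by
    intro a b hab
    have := hm (mem_univ a) (mem_univ b) hab
    rwa [derivWithin_univ, (h1 a).deriv, (h1 b).deriv] at this
  exact h2.nonneg_of_monotone hm'

theorem convexOn_of_second {g g' g'' : ℝ → ℝ} (h1 : ∀ s, HasDerivAt g (g' s) s)
    (h2 : ∀ s, HasDerivAt g' (g'' s) s) (h : ∀ s, 0 ≤ g'' s) : ConvexOn ℝ univ g := by
  have e1 : deriv g = g' := funext fun s => (h1 s).deriv
  have e2 : deriv g' = g'' := funext fun s => (h2 s).deriv
  refine convexOn_univ_of_deriv2_nonneg (fun s => (h1 s).differentiableAt) ?_ ?_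
  · rw [e1]; exact fun s => (h2 s).differentiableAt
  · intro s
    show 0 ≤ deriv (deriv g) s
    rw [e1, e2]; exact h s

theorem isEntireSolution_iff {u : P → ℝ} : IsEntireSolution u ↔
    ContDiff ℝ 2 u ∧ (∀ x, 0 < d1 (d1 u) x) ∧ ∀ x, d1 (d1 u) x * d2 (d2 u) x = 1 := by
  have key1 : ContDiff ℝ 2 u → ∀ x : P, HasDerivAt (fun s => u (s, x.2)) (d1 u x) x.1 ∧
      HasDerivAt (fun s => d1 u (s, x.2)) (d1 (d1 u) x) x.1 := fun h x =>
    ⟨hasDerivAt_d1 (h.differentiable (by norm_num) x),
      hasDerivAt_d1 ((contDiff_d1 h (m := 1) (by norm_num)).differentiable (by norm_num) x)⟩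
  have key2 : ContDiff ℝ 2 u → ∀ x : P, HasDerivAt (fun s => u (x.1, s)) (d2 u x) x.2 ∧
      HasDerivAt (fun s => d2 u (x.1, s)) (d2 (d2 u) x) x.2 := fun h x =>
    ⟨hasDerivAt_d2 (h.differentiable (by norm_num) x),
      hasDerivAt_d2 ((contDiff_d2 h (m := 1) (by norm_num)).differentiable (by norm_num) x)⟩
  constructor
  · intro h
    refine ⟨h.smooth, fun x => ?_, h.eq⟩
    have h0 : 0 ≤ d1 (d1 u) x := second_nonneg (h.conv1 x.2)
      (fun s => (key1 h.smooth (s, x.2)).1) (key1 h.smooth x).2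
    refine lt_of_le_of_ne h0 fun h1 => ?_
    have := h.eq x
    rw [← h1, zero_mul] at this
    exact zero_ne_one this
  · rintro ⟨hs, hp, he⟩
    have hp2 : ∀ x, 0 ≤ d2 (d2 u) x := by
      intro x
      by_contra hc
      push Not at hc
      have h1 := mul_neg_of_pos_of_neg (hp x) hc
      rw [he x] at h1
      linarith
    refine ⟨hs, fun t => ?_, fun s => ?_, he⟩
    · exact convexOn_of_second (fun s => (key1 hs (s, t)).1) (fun s => (key1 hs (s, t)).2)
        fun s => (hp _).le
    · exact convexOn_of_second (fun t => (key2 hs (s, t)).1) (fun t => (key2 hs (s, t)).2)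
        fun t => hp2 _

end Pool.Agent.EU
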