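import Pool.Agent.EU.D0b

/-!
Module D0: topology for the surjectivity criteria (`onto_of_quadrants` is in `D0b`).
-/

set_option autoImplicit false
open scoped ContDiff Topology ENNReal
open Real Set MeasureTheory Filter

namespace Pool.Agent.EU.D0

theorem pair_aux {g : P → ℝ} (hg : Continuous g)
    (hm : ∀ τ, Monotone fun σ => g (σ, τ)) {c : ℝ} (hI : OrdConnected {τ | ∃ σ, c < g (σ, τ)})
    {s1 t1 s2 t2 : ℝ} (h1 : c < g (s1, t1)) (h2 : c < g (s2, t2)) (ht : t1 ≤ t2) :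
    ∃ t : Set P, t ⊆ {p : P | c < g p} ∧ (s1, t1) ∈ t ∧ (s2, t2) ∈ t ∧ IsPreconnected t := by
  have hcov : Icc t1 t2 ⊆ ⋃ n : ℕ, {t : ℝ | c < g ((n : ℝ), t)} := by
    intro t htt
    obtain ⟨σ, hσ⟩ := hI.out (⟨s1, h1⟩ : t1 ∈ {τ | ∃ σ, c < g (σ, τ)})
      (⟨s2, h2⟩ : t2 ∈ {τ | ∃ σ, c < g (σ, τ)}) htt
    obtain ⟨n, hn⟩ := exists_nat_ge σ
    exact mem_iUnion.2 ⟨n, lt_of_lt_of_le hσ (hm t hn)⟩
  obtain ⟨n, hn⟩ := isCompact_Icc.elim_directed_cover (fun n : ℕ => {t : ℝ | c < g ((n : ℝ), t)})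
    (fun n => isOpen_lt continuous_const (hg.comp (by fun_prop))) hcov
    (directed_of_isDirected_le (fun a b hab t hta =>
      lt_of_lt_of_le hta (hm t (by exact_mod_cast hab))))
  set m : ℝ := max (n : ℝ) (max s1 s2) with hmdef
  have hmn : (n : ℝ) ≤ m := le_max_left _ _
  have hms1 : s1 ≤ m := (le_max_left _ _).trans (le_max_right _ _)
  have hms2 : s2 ≤ m := (le_max_right _ _).trans (le_max_right _ _)
  have hA : IsPreconnected ((fun s : ℝ => ((s, t1) : P)) '' Icc s1 m) :=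
    isPreconnected_Icc.image _ (by fun_prop)
  have hB : IsPreconnected ((fun t : ℝ => ((m, t) : P)) '' Icc t1 t2) :=
    isPreconnected_Icc.image _ (by fun_prop)
  have hC : IsPreconnected ((fun s : ℝ => ((s, t2) : P)) '' Icc s2 m) :=
    isPreconnected_Icc.image _ (by fun_prop)
  have m1 : ((m, t1) : P) ∈ (fun s : ℝ => ((s, t1) : P)) '' Icc s1 m := ⟨m, ⟨hms1, le_rfl⟩, rfl⟩
  have m2 : ((m, t1) : P) ∈ (fun t : ℝ => ((m, t) : P)) '' Icc t1 t2 := ⟨t1, ⟨le_rfl, ht⟩, rfl⟩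
  have m3 : ((m, t2) : P) ∈ (fun t : ℝ => ((m, t) : P)) '' Icc t1 t2 := ⟨t2, ⟨ht, le_rfl⟩, rfl⟩
  have m4 : ((m, t2) : P) ∈ (fun s : ℝ => ((s, t2) : P)) '' Icc s2 m := ⟨m, ⟨hms2, le_rfl⟩, rfl⟩
  have hAB := IsPreconnected.union _ m1 m2 hA hB
  have m5 : ((m, t2) : P) ∈ (fun s : ℝ => ((s, t1) : P)) '' Icc s1 m ∪
      (fun t : ℝ => ((m, t) : P)) '' Icc t1 t2 := Or.inr m3
  have hABC := IsPreconnected.union _ m5 m4 hAB hC
  refine ⟨_, ?_, Or.inl (Or.inl ⟨s1, ⟨le_rfl, hms1⟩, rfl⟩), Or.inr ⟨s2, ⟨le_rfl, hms2⟩, rfl⟩, hABC⟩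
  rintro p ((⟨s, hs, rfl⟩ | ⟨t, ht', rfl⟩) | ⟨s, hs, rfl⟩)
  · exact lt_of_lt_of_le h1 (hm t1 hs.1)
  · exact lt_of_lt_of_le (hn ht') (hm t hmn)
  · exact lt_of_lt_of_le h2 (hm t2 hs.1)

end Pool.Agent.EU.D0

namespace Pool.Agent.EU

theorem preconn_of_mono {g : P → ℝ} (hg : Continuous g)
    (hm : ∀ τ, Monotone fun σ => g (σ, τ)) {c : ℝ} (hI : OrdConnected {τ | ∃ σ, c < g (σ, τ)}) :
    IsPreconnected {p : P | c < g p} := by
  apply isPreconnected_of_forall_pair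
  rintro ⟨s1, t1⟩ h1 ⟨s2, t2⟩ h2
  rcases le_total t1 t2 with h | h
  · obtain ⟨t, ht, a, b, hp⟩ := D0.pair_aux hg hm hI h1 h2 h
    exact ⟨t, ht, a, b, hp⟩
  · obtain ⟨t, ht, a, b, hp⟩ := D0.pair_aux hg hm hI h2 h1 h
    exact ⟨t, ht, b, a, hp⟩

theorem bounded_preimage {F : P → P} (hc : Continuous F) (hi : Function.Injective F)
    (hs : Function.Surjective F) (ho : IsOpenMap F) (R : ℝ) :
    Bornology.IsBounded {q | ‖F q‖ ≤ R} := by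
  set e : P ≃ₜ P := (Equiv.ofBijective F ⟨hi, hs⟩).toHomeomorphOfContinuousOpen hc ho with he
  have h : {q | ‖F q‖ ≤ R} = e ⁻¹' (Metric.closedBall (0 : P) R) := by
    ext q
    simp only [mem_ofPred_eq, mem_preimage, mem_closedBall_zero_iff]
    rfl
  rw [h]
  exact (e.isCompact_preimage.2 (isCompact_closedBall _ _)).isBounded

end Pool.Agent.EU
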