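import Pool.Agent.EU.T

/-!
A topological criterion for surjectivity of a map of the plane.
-/

set_option autoImplicit false
open scoped ContDiff Topology ENNReal
open Real Set MeasureTheory Filter

namespace Pool.Agent.EU.D0b

theorem arg_close {S : Set P} (hS : IsPreconnected S) {θ : P → ℝ} (hθ : Continuous θ) {a : ℝ}
    (h : ∀ x ∈ S, 0 < sin (θ x + a)) {x y : P} (hx : x ∈ S) (hy : y ∈ S) : θ y - θ x < π := by
  by_contra hcon
  push Not at hcon
  have hI : IsPreconnected ((fun x => θ x + a) '' S) := hS.image _ (by fun_prop)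
  have hO := hI.ordConnected
  have h1 : θ x + a ∈ (fun x => θ x + a) '' S := ⟨x, hx, rfl⟩
  have h2 : θ y + a ∈ (fun x => θ x + a) '' S := ⟨y, hy, rfl⟩
  have hpi := Real.pi_pos
  have h3 : (⌈(θ x + a) / π⌉ : ℝ) * π ∈ Icc (θ x + a) (θ y + a) := by
    constructor
    · have := Int.le_ceil ((θ x + a) / π)
      rwa [div_le_iff₀ hpi] at this
    · have h4 := (Int.ceil_lt_add_one ((θ x + a) / π)).le
      have h5 : (⌈(θ x + a) / π⌉ : ℝ) * π ≤ ((θ x + a) / π + 1) * π :=
        mul_le_mul_of_nonneg_right h4 hpi.le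
      have h6 : ((θ x + a) / π + 1) * π = θ x + a + π := by field_simp
      linarith
  obtain ⟨z, hz, hz2⟩ := hO.out h1 h2 h3
  have h7 := h z hz
  simp only at hz2
  rw [hz2, Real.sin_int_mul_pi] at h7
  exact lt_irrefl _ h7

theorem step {S : Set P} (hS : IsPreconnected S) {θ : P → ℝ} (hθ : Continuous θ) {a : ℝ}
    (h : ∀ x ∈ S, 0 < sin (θ x + a)) {x y : P} (hx : x ∈ S) (hy : y ∈ S)
    (hs : 0 < sin (θ y) * cos (θ x) - cos (θ y) * sin (θ x)) : 0 < θ y - θ x := by
  have h1 := arg_close hS hθ h hy hx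
  rw [← Real.sin_sub] at hs
  by_contra hcon
  push Not at hcon
  have h2 : sin (θ y - θ x) ≤ 0 := Real.sin_nonpos_of_nonpos_of_neg_pi_le hcon (by linarith)
  linarith

end Pool.Agent.EU.D0b

namespace Pool.Agent.EU

theorem onto_of_quadrants {F : P → P} (hF : Continuous F)
    (h1 : ∀ c, IsPreconnected {q | c < (F q).1}) (h2 : ∀ c, IsPreconnected {q | (F q).1 < c})
    (h3 : ∀ c, IsPreconnected {q | c < (F q).2}) (h4 : ∀ c, IsPreconnected {q | (F q).2 < c})
    (u0 : ∀ N : ℝ, ∃ q, N < (F q).1 ∧ N < (F q).2)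
    (u1 : ∀ N : ℝ, ∃ q, (F q).1 < -N ∧ N < (F q).2)
    (u2 : ∀ N : ℝ, ∃ q, (F q).1 < -N ∧ (F q).2 < -N)
    (u3 : ∀ N : ℝ, ∃ q, N < (F q).1 ∧ (F q).2 < -N) : Function.Surjective F := by
  intro p
  by_contra hcon
  push Not at hcon
  set f : P → ℂ := fun q => ⟨(F q).1 - p.1, (F q).2 - p.2⟩ with hf
  have hfc : Continuous f := by
    have : f = fun q => ((((F q).1 - p.1 : ℝ) : ℂ) + (((F q).2 - p.2 : ℝ) : ℂ) * Complex.I) := by
      funext q
      apply Complex.ext <;> simp [hf]
    rw [this]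
    fun_prop
  have hf0 : ∀ q, f q ≠ 0 := by
    intro q h
    apply hcon q
    have hr : (F q).1 - p.1 = 0 := congrArg Complex.re h
    have hi : (F q).2 - p.2 = 0 := congrArg Complex.im h
    apply Prod.ext <;> linarith
  obtain ⟨g, hg, hgf⟩ := exists_clog hfc hf0
  set θ : P → ℝ := fun q => (g q).im with hθ
  have hθc : Continuous θ := Complex.continuous_im.comp hg
  have hre : ∀ q, (F q).1 - p.1 = Real.exp (g q).re * cos (θ q) := by
    intro q
    have : (f q).re = (Complex.exp (g q)).re := by rw [hgf]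
    rw [Complex.exp_re] at this
    exact this
  have him : ∀ q, (F q).2 - p.2 = Real.exp (g q).re * sin (θ q) := by
    intro q
    have : (f q).im = (Complex.exp (g q)).im := by rw [hgf]
    rw [Complex.exp_im] at this
    exact this
  have hpos : ∀ q, 0 < Real.exp (g q).re := fun q => Real.exp_pos _
  have r1 : ∀ q, p.1 < (F q).1 → 0 < cos (θ q) := by
    intro q hq
    have := hre q
    exact pos_of_mul_pos_right (by linarith : 0 < Real.exp (g q).re * cos (θ q)) (hpos q).le
  have r2 : ∀ q, (F q).1 < p.1 → cos (θ q) < 0 := by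
    intro q hq
    have := hre q
    by_contra hc
    have := mul_nonneg (hpos q).le (not_lt.1 hc)
    linarith
  have r3 : ∀ q, p.2 < (F q).2 → 0 < sin (θ q) := by
    intro q hq
    have := him q
    exact pos_of_mul_pos_right (by linarith : 0 < Real.exp (g q).re * sin (θ q)) (hpos q).le
  have r4 : ∀ q, (F q).2 < p.2 → sin (θ q) < 0 := by
    intro q hq
    have := him q
    by_contra hc
    have := mul_nonneg (hpos q).le (not_lt.1 hc)
    linarith
  set N : ℝ := |p.1| + |p.2| with hN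
  have n1 := abs_nonneg p.1
  have n2 := abs_nonneg p.2
  have n3 := le_abs_self p.1
  have n4 := le_abs_self p.2
  have n5 := neg_abs_le p.1
  have n6 := neg_abs_le p.2
  obtain ⟨q0, a0, b0⟩ := u0 N
  obtain ⟨q1, a1, b1⟩ := u1 N
  obtain ⟨q2, a2, b2⟩ := u2 N
  obtain ⟨q3, a3, b3⟩ := u3 N
  have A0 : p.1 < (F q0).1 := by linarith
  have B0 : p.2 < (F q0).2 := by linarith
  have A1 : (F q1).1 < p.1 := by linarith
  have B1 : p.2 < (F q1).2 := by linarith
  have A2 : (F q2).1 < p.1 := by linarith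
  have B2 : (F q2).2 < p.2 := by linarith
  have A3 : p.1 < (F q3).1 := by linarith
  have B3 : (F q3).2 < p.2 := by linarith
  have c0 := r1 q0 A0
  have s0 := r3 q0 B0
  have c1 := r2 q1 A1
  have s1 := r3 q1 B1
  have c2 := r2 q2 A2
  have s2 := r4 q2 B2
  have c3 := r1 q3 A3
  have s3 := r4 q3 B3
  have t1 : 0 < θ q1 - θ q0 := by
    refine D0b.step (h3 p.2) hθc (a := 0) (fun x hx => ?_) B0 B1 (by nlinarith)
    rw [add_zero]; exact r3 x hx
  have t2 : 0 < θ q2 - θ q1 := by
    refine D0b.step (h2 p.1) hθc (a := -(π / 2)) (fun x hx => ?_) A1 A2 (by nlinarith)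
    have := r2 x hx
    rw [← sub_eq_add_neg, Real.sin_sub_pi_div_two]; linarith
  have t3 : 0 < θ q3 - θ q2 := by
    refine D0b.step (h4 p.2) hθc (a := π) (fun x hx => ?_) B2 B3 (by nlinarith)
    have := r4 x hx
    rw [Real.sin_add_pi]; linarith
  have t4 : 0 < θ q0 - θ q3 := by
    refine D0b.step (h1 p.1) hθc (a := π / 2) (fun x hx => ?_) A3 A0 (by nlinarith)
    have := r1 x hx
    rw [Real.sin_add_pi_div_two]; exact this
  linarith

end Pool.Agent.EU
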