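import Pool.Agent.EU.OntoDefs
import Pool.Agent.EU.C012
import Pool.Agent.EU.C345
import Pool.Agent.EU.D0

/-!
Surjectivity criterion for the second family.
-/

set_option autoImplicit false
open scoped ContDiff Topology ENNReal
open Real Set MeasureTheory Filter

namespace Pool.Agent.EU.D1

open Pool.Agent.EU.C0

/-! ### the functions `N`, `Θ`, `GG` -/

theorem GG0_pos : 0 < GG 0 := GG_pos 0

theorem Nf_zero : Nf 0 = GG 0 := by rw [Nf_eq]; simp

theorem Nf_mono : Monotone Nf :=
  (strictMono_of_deriv_pos fun t => by rw [(hasDerivAt_Nf t).deriv]; exact Th_pos t).monotone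

theorem Nf_le_of_nonpos {t : ℝ} (h : t ≤ 0) : Nf t ≤ GG 0 := by
  rw [← Nf_zero]; exact Nf_mono h

theorem Nf_ge_of_nonneg {t : ℝ} (h : 0 ≤ t) : GG 0 * Real.exp (t ^ 2) ≤ Nf t := by
  rw [Nf_eq, mul_comm]
  exact mul_le_mul_of_nonneg_left (GG_mono h) (Real.exp_pos _).le

theorem Th_ge_one {t : ℝ} (h : 0 ≤ t) : 1 ≤ Th t := by
  have := (Nf_pos t).le
  have : 0 ≤ 2 * t * Nf t := by positivity
  rw [Th]; linarith

theorem Th_ge {t : ℝ} (h : 0 ≤ t) : 2 * t * (GG 0 * Real.exp (t ^ 2)) ≤ Th t := by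
  have h1 := Nf_ge_of_nonneg h
  have : 2 * t * (GG 0 * Real.exp (t ^ 2)) ≤ 2 * t * Nf t :=
    mul_le_mul_of_nonneg_left h1 (by positivity)
  rw [Th]; linarith

theorem continuous_Nf : Continuous Nf := smooth_Nf.continuous
theorem continuous_Th : Continuous Th := smooth_Th.continuous
theorem continuous_GG : Continuous GG := smooth_GG.continuous

theorem Nf_atBot : Tendsto Nf atBot (𝓝 0) := by
  have h1 : ∀ t : ℝ, t < 0 → Nf t ≤ 1 / (2 * (-t)) := by
    intro t ht
    have h2 := (Th_pos t).le
    rw [Th] at h2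
    rw [le_div_iff₀ (by linarith)]
    linarith
  have h3 : Tendsto (fun t : ℝ => 1 / (2 * (-t))) atBot (𝓝 0) := by
    have : Tendsto (fun t : ℝ => 2 * (-t)) atBot atTop :=
      Tendsto.const_mul_atTop (by norm_num) tendsto_neg_atBot_atTop
    refine this.inv_tendsto_atTop.congr fun t => ?_
    simp only [Pi.inv_apply, one_div]
  refine squeeze_zero' (Eventually.of_forall fun t => (Nf_pos t).le) ?_ h3
  filter_upwards [eventually_lt_atBot (0 : ℝ)] with t ht using h1 t ht

/-! ### one dimensional integrals -/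

theorem integral_two_mul_exp {p : ℝ} (hp : p ≠ 0) (r : ℝ) :
    ∫ t in (0:ℝ)..r, 2 * t * Real.exp (-(p * t ^ 2)) = (1 - Real.exp (-(p * r ^ 2))) / p := by
  have h : ∀ t ∈ uIcc (0:ℝ) r, HasDerivAt (fun t : ℝ => -(Real.exp (-(p * t ^ 2)) / p))
      (2 * t * Real.exp (-(p * t ^ 2))) t := by
    intro t _
    have h1 : HasDerivAt (fun t : ℝ => -(p * t ^ 2)) (-(p * (2 * t))) t := by
      have h0 : HasDerivAt (fun t : ℝ => t ^ 2) (2 * t) t := by
        simpa using hasDerivAt_pow 2 t
      exact (h0.const_mul p).neg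
    have h2 := (h1.exp.div_const p).neg
    refine h2.congr_deriv ?_
    field_simp
  rw [intervalIntegral.integral_eq_sub_of_hasDerivAt h
    ((by fun_prop : Continuous fun t : ℝ => 2 * t * Real.exp (-(p * t ^ 2))).intervalIntegrable _ _)]
  simp
  ring

theorem integral_two_mul_exp_le {p : ℝ} (hp : 0 < p) (r : ℝ) :
    ∫ t in (0:ℝ)..r, 2 * t * Real.exp (-(p * t ^ 2)) ≤ 1 / p := by
  rw [integral_two_mul_exp hp.ne']
  apply div_le_div_of_nonneg_right _ hp.le
  have := Real.exp_pos (-(p * r ^ 2))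
  linarith

/-- fundamental theorem of calculus and Fubini -/
theorem ftc {μ : Measure ℝ} [IsFiniteMeasure μ] {f : ℝ → ℝ} {h : ℝ → ℝ → ℝ} {a r C : ℝ}
    (har : a ≤ r) (hm : Measurable (Function.uncurry h))
    (hb : ∀ t ∈ Icc a r, ∀ w, |h t w| ≤ C)
    (hd : ∀ t, HasDerivAt f (∫ w, h t w ∂μ) t) :
    f r - f a = ∫ w, (∫ t in a..r, h t w) ∂μ ∧ Integrable (fun w => ∫ t in a..r, h t w) μ := by
  have hint : Integrable (Function.uncurry h) ((volume.restrict (uIoc a r)).prod μ) := by
    have h1 : Integrable (fun _ : ℝ × ℝ => C) ((volume.restrict (uIoc a r)).prod μ) := by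
      have : IsFiniteMeasure (volume.restrict (uIoc a r)) := by
        rw [uIoc_of_le har]
        infer_instance
      exact integrable_const C
    refine h1.mono' hm.aestronglyMeasurable ?_
    have h2 : ∀ᵐ z : ℝ × ℝ ∂((volume.restrict (uIoc a r)).prod μ), z.1 ∈ uIoc a r := by
      have : (volume.restrict (uIoc a r)).prod μ =
          (volume.prod μ).restrict (uIoc a r ×ˢ univ) := by
        rw [← Measure.prod_restrict, Measure.restrict_univ]
      rw [this]
      filter_upwards [ae_restrict_mem (measurableSet_uIoc.prod MeasurableSet.univ)] with z hz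
      exact hz.1
    filter_upwards [h2] with z hz
    rw [uIoc_of_le har] at hz
    exact hb z.1 ⟨hz.1.le, hz.2⟩ z.2
  constructor
  · rw [← intervalIntegral_integral_swap hint]
    symm
    apply intervalIntegral.integral_eq_sub_of_hasDerivAt (fun t _ => hd t)
    rw [intervalIntegrable_iff]
    exact hint.integral_prod_left
  · have := hint.integral_prod_right
    refine this.congr (Eventually.of_forall fun w => ?_)
    simp only [intervalIntegral.integral_of_le har, uIoc_of_le har]
    rfl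

/-! ### the general system -/

noncomputable def W (μ : Measure ℝ) (c s : ℝ → ℝ) (x y : ℝ) : ℝ :=
  ∫ w, Th (x * c w + y * s w) ∂μ

noncomputable def K (μ : Measure ℝ) (c s : ℝ → ℝ) (b : ℝ) (x y : ℝ) : ℝ :=
  b + ∫ w, 2 * (x * s w - y * c w) * Nf (x * c w + y * s w) ∂μ

/-- the second family in a form which is invariant under the symmetries -/
structure Sys (μ : Measure ℝ) (c s : ℝ → ℝ) (b : ℝ) (X Y : P → ℝ) : Prop where
  fin : IsFiniteMeasure μ
  mc : Measurable c
  ms : Measurable s
  cs : ∀ w, c w ^ 2 + s w ^ 2 = 1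
  nz : μ ≠ 0
  cX : Continuous X
  cY : Continuous Y
  dX : ∀ (u v : ℝ → ℝ) (u' v' t : ℝ), HasDerivAt u u' t → HasDerivAt v v' t →
    HasDerivAt (fun t => X (u t, v t)) (Real.exp (-(v t) ^ 2) *
      (W μ c s (u t) (v t) * u' + K μ c s b (u t) (v t) * v')) t
  dY : ∀ (u v : ℝ → ℝ) (u' v' t : ℝ), HasDerivAt u u' t → HasDerivAt v v' t →
    HasDerivAt (fun t => Y (u t, v t)) (Real.exp (-(u t) ^ 2) *
      (W μ c s (u t) (v t) * v' - K μ c s b (u t) (v t) * u')) t

variable {μ : Measure ℝ} {c s : ℝ → ℝ} {b : ℝ} {X Y : P → ℝ}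

theorem Sys.swap (h : Sys μ c s b X Y) :
    Sys μ s c (-b) (fun q => Y (q.2, q.1)) (fun q => X (q.2, q.1)) where
  fin := h.fin
  mc := h.ms
  ms := h.mc
  cs := fun w => by rw [add_comm]; exact h.cs w
  nz := h.nz
  cX := h.cY.comp (by fun_prop)
  cY := h.cX.comp (by fun_prop)
  dX := by
    intro u v u' v' t hu hv
    have hW : W μ s c (u t) (v t) = W μ c s (v t) (u t) := by
      simp only [W]
      congr 1; ext w; congr 1; ring
    have hK : K μ s c (-b) (u t) (v t) = -K μ c s b (v t) (u t) := by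
      simp only [K]
      rw [neg_add, ← integral_neg]
      congr 2; ext w
      rw [show u t * s w + v t * c w = v t * c w + u t * s w by ring]
      ring
    rw [hW, hK]
    refine (h.dY v u v' u' t hv hu).congr_deriv ?_
    ring
  dY := by
    intro u v u' v' t hu hv
    have hW : W μ s c (u t) (v t) = W μ c s (v t) (u t) := by
      simp only [W]
      congr 1; ext w; congr 1; ring
    have hK : K μ s c (-b) (u t) (v t) = -K μ c s b (v t) (u t) := by
      simp only [K]
      rw [neg_add, ← integral_neg]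
      congr 2; ext w
      rw [show u t * s w + v t * c w = v t * c w + u t * s w by ring]
      ring
    rw [hW, hK]
    refine (h.dX v u v' u' t hv hu).congr_deriv ?_
    ring

theorem Sys.sgn (h : Sys μ c s b X Y) {s1 s2 : ℝ} (h1 : s1 = 1 ∨ s1 = -1)
    (h2 : s2 = 1 ∨ s2 = -1) :
    Sys μ (fun w => s1 * c w) (fun w => s2 * s w) (s1 * s2 * b)
      (fun q => s1 * X (s1 * q.1, s2 * q.2)) (fun q => s2 * Y (s1 * q.1, s2 * q.2)) := by
  have e1 : s1 ^ 2 = 1 := by rcases h1 with h | h <;> rw [h] <;> norm_num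
  have e2 : s2 ^ 2 = 1 := by rcases h2 with h | h <;> rw [h] <;> norm_num
  have hW : ∀ x y, W μ (fun w => s1 * c w) (fun w => s2 * s w) x y =
      W μ c s (s1 * x) (s2 * y) := by
    intro x y
    simp only [W]
    congr 1; ext w; congr 1; ring
  have hK : ∀ x y, K μ (fun w => s1 * c w) (fun w => s2 * s w) (s1 * s2 * b) x y =
      s1 * s2 * K μ c s b (s1 * x) (s2 * y) := by
    intro x y
    simp only [K]
    rw [mul_add, ← integral_const_mul]
    congr 2; ext w
    rw [show x * (s1 * c w) + y * (s2 * s w) = s1 * x * c w + s2 * y * s w by ring]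
    linear_combination (-2 * x * s2 * s w * Nf (s1 * x * c w + s2 * y * s w)) * e1 +
      (2 * y * s1 * c w * Nf (s1 * x * c w + s2 * y * s w)) * e2
  refine ⟨h.fin, h.mc.const_mul _, h.ms.const_mul _, ?_, h.nz, ?_, ?_, ?_, ?_⟩
  · intro w
    have := h.cs w
    rw [mul_pow, mul_pow, e1, e2]; linarith
  · exact (h.cX.comp (by fun_prop)).const_mul _ |>.congr fun _ => rfl
  · exact (h.cY.comp (by fun_prop)).const_mul _ |>.congr fun _ => rfl
  · intro u v u' v' t hu hv
    rw [hW, hK]
    have := (h.dX (fun t => s1 * u t) (fun t => s2 * v t) _ _ t (hu.const_mul s1)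
      (hv.const_mul s2)).const_mul s1
    refine this.congr_deriv ?_
    have e3 : (-(s2 * v t) ^ 2) = -(v t) ^ 2 := by rw [mul_pow, e2]; ring
    rw [e3]
    linear_combination (Real.exp (-(v t) ^ 2) * W μ c s (s1 * u t) (s2 * v t) * u') * e1
  · intro u v u' v' t hu hv
    rw [hW, hK]
    have := (h.dY (fun t => s1 * u t) (fun t => s2 * v t) _ _ t (hu.const_mul s1)
      (hv.const_mul s2)).const_mul s2
    refine this.congr_deriv ?_
    have e3 : (-(s1 * u t) ^ 2) = -(u t) ^ 2 := by rw [mul_pow, e1]; ring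
    rw [e3]
    linear_combination (Real.exp (-(u t) ^ 2) * W μ c s (s1 * u t) (s2 * v t) * v') * e2

theorem abs_c (h : Sys μ c s b X Y) (w : ℝ) : |c w| ≤ 1 := by
  have := h.cs w
  rw [abs_le]
  constructor <;> nlinarith [sq_nonneg (s w), sq_nonneg (c w)]

theorem abs_s (h : Sys μ c s b X Y) (w : ℝ) : |s w| ≤ 1 := abs_c h.swap w

theorem int_cs (h : Sys μ c s b X Y) {φ : ℝ → ℝ → ℝ}
    (hφ : Continuous fun z : ℝ × ℝ => φ z.1 z.2) : Integrable (fun w => φ (c w) (s w)) μ := by
  have := h.fin
  obtain ⟨C, hC⟩ := (isCompact_Icc (a := ((-1 : ℝ), (-1 : ℝ))) (b := (1, 1))).exists_bound_of_continuousOn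
    hφ.continuousOn
  refine Integrable.of_bound (C := C) ?_ (Eventually.of_forall fun w => ?_)
  · exact (hφ.measurable.comp (h.mc.prodMk h.ms)).aestronglyMeasurable
  · have h1 := abs_le.1 (abs_c h w)
    have h2 := abs_le.1 (abs_s h w)
    exact hC (c w, s w) ⟨⟨h1.1, h2.1⟩, ⟨h1.2, h2.2⟩⟩

theorem ftc_cs (h : Sys μ c s b X Y) {φ : ℝ → ℝ → ℝ → ℝ}
    (hφ : Continuous fun z : ℝ × ℝ × ℝ => φ z.1 z.2.1 z.2.2) {f : ℝ → ℝ} {a r : ℝ}
    (har : a ≤ r) (hd : ∀ t, HasDerivAt f (∫ w, φ t (c w) (s w) ∂μ) t) :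
    f r - f a = ∫ w, (∫ t in a..r, φ t (c w) (s w)) ∂μ ∧
      Integrable (fun w => ∫ t in a..r, φ t (c w) (s w)) μ := by
  have := h.fin
  obtain ⟨C, hC⟩ := (isCompact_Icc (a := (a, (-1 : ℝ), (-1 : ℝ)))
    (b := (r, 1, 1))).exists_bound_of_continuousOn hφ.continuousOn
  refine ftc (C := C) har ?_ (fun t ht w => ?_) hd
  · exact hφ.measurable.comp (measurable_fst.prodMk
      ((h.mc.comp measurable_snd).prodMk (h.ms.comp measurable_snd)))
  · have h1 := abs_le.1 (abs_c h w)
    have h2 := abs_le.1 (abs_s h w)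
    exact hC (t, c w, s w) ⟨⟨ht.1, h1.1, h2.1⟩, ⟨ht.2, h1.2, h2.2⟩⟩

theorem int_Th (h : Sys μ c s b X Y) (x y : ℝ) :
    Integrable (fun w => Th (x * c w + y * s w)) μ := by
  have := continuous_Th
  exact int_cs h (φ := fun c s => Th (x * c + y * s)) (by fun_prop)

theorem int_Nf (h : Sys μ c s b X Y) (x y : ℝ) :
    Integrable (fun w => 2 * (x * s w - y * c w) * Nf (x * c w + y * s w)) μ := by
  have := continuous_Nf
  exact int_cs h (φ := fun c s => 2 * (x * s - y * c) * Nf (x * c + y * s)) (by fun_prop)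

theorem W_add_K (h : Sys μ c s b X Y) (t : ℝ) :
    W μ c s t t + K μ c s b t t = b + ∫ w, (1 + 4 * t * s w * Nf (t * (c w + s w))) ∂μ := by
  simp only [W, K]
  rw [add_left_comm, ← integral_add (int_Th h t t) (int_Nf h t t)]
  congr 2; ext w
  rw [Th, show t * c w + t * s w = t * (c w + s w) by ring]
  ring

theorem deriv_diag (h : Sys μ c s b X Y) (t : ℝ) :
    HasDerivAt (fun t => X (t, t) - b * GG t)
      (∫ w, Real.exp (-t ^ 2) * (1 + 4 * t * s w * Nf (t * (c w + s w))) ∂μ) t := by
  have h1 := (h.dX id id 1 1 t (hasDerivAt_id t) (hasDerivAt_id t)).sub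
    ((hasDerivAt_GG t).const_mul b)
  refine h1.congr_deriv ?_
  have h2 := W_add_K h t
  rw [integral_const_mul]
  simp only [id]
  rw [mul_one, mul_one, h2]
  ring

/-- the contribution of a single charge on the diagonal -/
noncomputable def Z (c s r : ℝ) : ℝ :=
  ∫ t in (0:ℝ)..r, Real.exp (-t ^ 2) * (1 + 4 * t * s * Nf (t * (c + s)))

theorem diag (h : Sys μ c s b X Y) {r : ℝ} (hr : 0 ≤ r) :
    X (r, r) = X (0, 0) + b * (GG r - GG 0) + ∫ w, Z (c w) (s w) r ∂μ ∧
      Integrable (fun w => Z (c w) (s w) r) μ := by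
  have hN := continuous_Nf
  have h1 := ftc_cs h (φ := fun t c s => Real.exp (-t ^ 2) * (1 + 4 * t * s * Nf (t * (c + s))))
    (by fun_prop) hr (deriv_diag h)
  refine ⟨?_, h1.2⟩
  have h2 := h1.1
  have h3 : (∫ w, Z (c w) (s w) r ∂μ) = ∫ w, (∫ t in (0:ℝ)..r, Real.exp (-t ^ 2) *
    (1 + 4 * t * s w * Nf (t * (c w + s w)))) ∂μ := rfl
  rw [h3, ← h2]
  ring

/-! ### bounds for the diagonal -/

/-- the main part of `Z` -/
noncomputable def U (c s r : ℝ) : ℝ :=
  ∫ t in (0:ℝ)..r, 4 * t * (Real.exp (-t ^ 2) * Nf (t * (c + s)))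

theorem Z_eq (c s r : ℝ) : Z c s r = (GG r - GG 0) + s * U c s r := by
  have hN := continuous_Nf
  have h1 : ∫ t in (0:ℝ)..r, Real.exp (-t ^ 2) = GG r - GG 0 :=
    intervalIntegral.integral_eq_sub_of_hasDerivAt (fun t _ => hasDerivAt_GG t)
      ((by fun_prop : Continuous fun t : ℝ => Real.exp (-t ^ 2)).intervalIntegrable _ _)
  rw [Z, U, ← h1, ← intervalIntegral.integral_const_mul, ← intervalIntegral.integral_add]
  · congr 1; ext t; ring
  · exact (by fun_prop : Continuous fun t : ℝ => Real.exp (-t ^ 2)).intervalIntegrable _ _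
  · exact (by fun_prop : Continuous fun t : ℝ =>
      s * (4 * t * (Real.exp (-t ^ 2) * Nf (t * (c + s))))).intervalIntegrable _ _

theorem U_nonneg (c s : ℝ) {r : ℝ} (hr : 0 ≤ r) : 0 ≤ U c s r := by
  apply intervalIntegral.integral_nonneg hr
  intro t ht
  have := (Nf_pos (t * (c + s))).le
  have := ht.1
  positivity

theorem U_lower {c s r : ℝ} (hcs : c ^ 2 + s ^ 2 = 1) (hr : 0 ≤ r) (hc : 0 ≤ c) (hs : 0 ≤ s) :
    2 * GG 0 * r ^ 2 ≤ U c s r := by
  have hN := continuous_Nf
  have h1 : ∫ t in (0:ℝ)..r, 4 * t * GG 0 = 2 * GG 0 * r ^ 2 := by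
    have : ∀ t ∈ uIcc (0:ℝ) r, HasDerivAt (fun t : ℝ => 2 * GG 0 * t ^ 2) (4 * t * GG 0) t := by
      intro t _
      have h0 : HasDerivAt (fun t : ℝ => t ^ 2) (2 * t) t := by
        simpa using hasDerivAt_pow 2 t
      refine (h0.const_mul (2 * GG 0)).congr_deriv ?_
      ring
    rw [intervalIntegral.integral_eq_sub_of_hasDerivAt this
      ((by fun_prop : Continuous fun t : ℝ => 4 * t * GG 0).intervalIntegrable _ _)]
    simp
  rw [← h1, U]
  apply intervalIntegral.integral_mono_on hr
  · exact (by fun_prop : Continuous fun t : ℝ => 4 * t * GG 0).intervalIntegrable _ _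
  · exact (by fun_prop : Continuous fun t : ℝ =>
      4 * t * (Real.exp (-t ^ 2) * Nf (t * (c + s)))).intervalIntegrable _ _
  · intro t ht
    have ht0 := ht.1
    have h2 := Nf_ge_of_nonneg (t := t * (c + s)) (by positivity)
    apply mul_le_mul_of_nonneg_left _ (by positivity)
    have h3 : 1 ≤ Real.exp (-t ^ 2) * Real.exp ((t * (c + s)) ^ 2) := by
      rw [← Real.exp_add]
      apply Real.one_le_exp
      have : -t ^ 2 + (t * (c + s)) ^ 2 = 2 * (c * s) * t ^ 2 := by
        linear_combination (t ^ 2) * hcs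
      rw [this]
      positivity
    have h4 := GG0_pos.le
    have h5 : Real.exp (-t ^ 2) * (GG 0 * Real.exp ((t * (c + s)) ^ 2)) ≤
        Real.exp (-t ^ 2) * Nf (t * (c + s)) := mul_le_mul_of_nonneg_left h2 (Real.exp_pos _).le
    nlinarith

theorem U_upper1 {c s r : ℝ} (hr : 0 ≤ r) (h : c + s ≤ 0) : U c s r ≤ 2 * GG 0 := by
  have hN := continuous_Nf
  have h1 := integral_two_mul_exp_le one_pos r
  have h2 : U c s r ≤ ∫ t in (0:ℝ)..r, 2 * GG 0 * (2 * t * Real.exp (-(1 * t ^ 2))) := by
    apply intervalIntegral.integral_mono_on hr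
    · exact (by fun_prop : Continuous fun t : ℝ =>
        4 * t * (Real.exp (-t ^ 2) * Nf (t * (c + s)))).intervalIntegrable _ _
    · exact (by fun_prop : Continuous fun t : ℝ =>
        2 * GG 0 * (2 * t * Real.exp (-(1 * t ^ 2)))).intervalIntegrable _ _
    · intro t ht
      have ht0 := ht.1
      have h3 : Nf (t * (c + s)) ≤ GG 0 := Nf_le_of_nonpos (mul_nonpos_of_nonneg_of_nonpos ht0 h)
      rw [one_mul]
      have h4 : 4 * t * (Real.exp (-t ^ 2) * Nf (t * (c + s))) ≤
          4 * t * (Real.exp (-t ^ 2) * GG 0) :=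
        mul_le_mul_of_nonneg_left (mul_le_mul_of_nonneg_left h3 (Real.exp_pos _).le) (by positivity)
      linarith
  rw [intervalIntegral.integral_const_mul] at h2
  have := GG0_pos
  nlinarith

theorem U_upper2 {C c s r : ℝ} (hC : ∀ t, GG t ≤ C) (hcs : c ^ 2 + s ^ 2 = 1) (hr : 0 ≤ r)
    (h : c * s < 0) : U c s r ≤ C / |c * s| := by
  have hN := continuous_Nf
  have hC0 : 0 < C := lt_of_lt_of_le GG0_pos (hC 0)
  have hp : 0 < 2 * |c * s| := by have := abs_pos.2 h.ne; positivity
  have h1 := integral_two_mul_exp_le hp r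
  have h2 : U c s r ≤ ∫ t in (0:ℝ)..r, 2 * C * (2 * t * Real.exp (-((2 * |c * s|) * t ^ 2))) := by
    apply intervalIntegral.integral_mono_on hr
    · exact (by fun_prop : Continuous fun t : ℝ =>
        4 * t * (Real.exp (-t ^ 2) * Nf (t * (c + s)))).intervalIntegrable _ _
    · exact (by fun_prop : Continuous fun t : ℝ =>
        2 * C * (2 * t * Real.exp (-((2 * |c * s|) * t ^ 2)))).intervalIntegrable _ _
    · intro t ht
      have ht0 := ht.1
      have h3 : Real.exp (-t ^ 2) * Nf (t * (c + s)) ≤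
          Real.exp (-((2 * |c * s|) * t ^ 2)) * C := by
        rw [Nf_eq, ← mul_assoc, ← Real.exp_add]
        have : -t ^ 2 + (t * (c + s)) ^ 2 = -((2 * |c * s|) * t ^ 2) := by
          rw [abs_of_neg h]
          linear_combination (t ^ 2) * hcs
        rw [this]
        exact mul_le_mul_of_nonneg_left (hC _) (Real.exp_pos _).le
      have h4 : 4 * t * (Real.exp (-t ^ 2) * Nf (t * (c + s))) ≤
          4 * t * (Real.exp (-((2 * |c * s|) * t ^ 2)) * C) :=
        mul_le_mul_of_nonneg_left h3 (by positivity)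
      linarith
  rw [intervalIntegral.integral_const_mul] at h2
  have h5 : 2 * C * (∫ t in (0:ℝ)..r, 2 * t * Real.exp (-((2 * |c * s|) * t ^ 2))) ≤
      2 * C * (1 / (2 * |c * s|)) := mul_le_mul_of_nonneg_left h1 (by positivity)
  refine (h2.trans h5).trans (le_of_eq ?_)
  have := abs_pos.2 h.ne
  field_simp

/-- `|s| U` is bounded by `2 G(0) + C / |c|` if `c s < 0` or `c + s ≤ 0` -/
theorem sU_upper {C c s r : ℝ} (hC : ∀ t, GG t ≤ C) (hcs : c ^ 2 + s ^ 2 = 1) (hr : 0 ≤ r)
    (h : c < 0 ∨ s < 0) : |s| * U c s r ≤ 2 * GG 0 ∨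
      (c * s < 0 ∧ 0 < c + s ∧ |s| * U c s r ≤ C / |c|) := by
  have hU := U_nonneg c s hr
  have hs1 : |s| ≤ 1 := by rw [abs_le]; constructor <;> nlinarith [sq_nonneg c, sq_nonneg s]
  by_cases h1 : c + s ≤ 0
  · left
    have := U_upper1 hr h1
    nlinarith [abs_nonneg s]
  · right
    push Not at h1
    have h2 : c * s < 0 := by
      rcases h with h | h
      · exact mul_neg_of_neg_of_pos h (by linarith)
      · exact mul_neg_of_pos_of_neg (by linarith) h
    refine ⟨h2, h1, ?_⟩
    have h3 := U_upper2 hC hcs hr h2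
    have hs0 : 0 < |s| := abs_pos.2 (right_ne_zero_of_mul h2.ne)
    have hc0 : 0 < |c| := abs_pos.2 (left_ne_zero_of_mul h2.ne)
    calc |s| * U c s r ≤ |s| * (C / |c * s|) := mul_le_mul_of_nonneg_left h3 hs0.le
      _ = C / |c| := by rw [abs_mul]; field_simp

theorem Z_lower {C c s r : ℝ} (hC : ∀ t, GG t ≤ C) (hcs : c ^ 2 + s ^ 2 = 1) (hr : 0 ≤ r) :
    -(2 * GG 0 + 2 * C) ≤ Z c s r := by
  have hC0 : 0 < C := lt_of_lt_of_le GG0_pos (hC 0)
  have h0 := GG0_pos
  have hG : GG 0 ≤ GG r := GG_mono hr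
  have hU := U_nonneg c s hr
  rw [Z_eq]
  rcases le_or_gt 0 s with hs | hs
  · have : 0 ≤ s * U c s r := mul_nonneg hs hU
    linarith
  · have h1 : s * U c s r = -(|s| * U c s r) := by rw [abs_of_neg hs]; ring
    rcases sU_upper hC hcs hr (Or.inr hs) with h2 | ⟨h2, h3, h4⟩
    · linarith
    · have hc : 1 / 2 ≤ c := by nlinarith
      have h5 : C / |c| ≤ 2 * C := by
        rw [abs_of_pos (by linarith), div_le_iff₀ (by linarith)]
        nlinarith
      linarith

theorem Z_upper {C c s r : ℝ} (hC : ∀ t, GG t ≤ C) (hcs : c ^ 2 + s ^ 2 = 1) (hr : 0 ≤ r)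
    (h : 0 < max (-c) (-s)) : |Z c s r| ≤ (2 * GG 0 + 3 * C) / max (-c) (-s) := by
  have hC0 : 0 < C := lt_of_lt_of_le GG0_pos (hC 0)
  have h0 := GG0_pos
  have hG : GG 0 ≤ GG r := GG_mono hr
  have hG2 := hC r
  have hU := U_nonneg c s hr
  have hm1 : max (-c) (-s) ≤ 1 := max_le (by nlinarith [sq_nonneg c, sq_nonneg s])
    (by nlinarith [sq_nonneg c, sq_nonneg s])
  rw [le_div_iff₀ h]
  have hcs' : c < 0 ∨ s < 0 := by
    rcases lt_max_iff.1 h with h | h
    · left; linarith
    · right; linarith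
  have h1 : |Z c s r| ≤ C + |s| * U c s r := by
    rw [Z_eq]
    refine (abs_add_le _ _).trans (add_le_add ?_ ?_)
    · rw [abs_of_nonneg (by linarith)]; linarith
    · rw [abs_mul, abs_of_nonneg hU]
  have h1' : |Z c s r| * max (-c) (-s) ≤ (C + |s| * U c s r) * max (-c) (-s) :=
    mul_le_mul_of_nonneg_right h1 h.le
  refine h1'.trans ?_
  have hsU : 0 ≤ |s| * U c s r := by positivity
  rcases sU_upper hC hcs hr hcs' with h2 | ⟨h2, h3, h4⟩
  · nlinarith
  · rcases hcs' with hc | hs
    · have hs : 0 < s := by linarith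
      have hmax : max (-c) (-s) = -c := max_eq_left (by linarith)
      rw [hmax, abs_of_neg hc] at *
      have h5 : C / -c * -c = C := div_mul_cancel₀ C (neg_ne_zero.2 hc.ne)
      have : |s| * U c s r * -c ≤ C := by
        calc |s| * U c s r * -c ≤ C / -c * -c := mul_le_mul_of_nonneg_right h4 (by linarith)
          _ = C := h5
      nlinarith
    · have hc : 1 / 2 ≤ c := by nlinarith
      have h5 : C / |c| ≤ 2 * C := by
        rw [abs_of_pos (by linarith), div_le_iff₀ (by linarith)]
        nlinarith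
      nlinarith

/-- case (a) -/
theorem case_a (h : Sys μ c s b X Y) (hm : μ {w | 0 < c w ∧ 0 < s w} ≠ 0) :
    Tendsto (fun r : ℝ => X (r, r)) atTop atTop := by
  have hfin := h.fin
  obtain ⟨C, hC0, hC⟩ := GG_bdd
  have h0 := GG0_pos
  have hmeas : MeasurableSet {w | 0 < c w ∧ 0 < s w} :=
    (measurableSet_lt measurable_const h.mc).inter (measurableSet_lt measurable_const h.ms)
  set Q := {w | 0 < c w ∧ 0 < s w} with hQ
  have hint : Integrable (Q.indicator s) μ := by
    have h1 : Integrable s μ := int_cs h (φ := fun c s => s) (by fun_prop)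
    exact h1.indicator hmeas
  set κ := ∫ w, Q.indicator s w ∂μ with hκ
  have hκ0 : 0 < κ := by
    rw [hκ, integral_pos_iff_support_of_nonneg ?_ hint]
    · have : Function.support (Q.indicator s) = Q := by
        ext w
        simp only [Function.mem_support, ne_eq, indicator_apply_eq_zero, hQ, mem_ofPred_eq]
        constructor
        · intro h; by_contra hc; exact h fun h2 => absurd h2 hc
        · intro h h2; exact h.2.ne' (h2 h)
      rw [this]
      exact pos_iff_ne_zero.2 hm
    · intro w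
      apply indicator_nonneg
      intro w hw
      exact hw.2.le
  have key : ∀ r : ℝ, 0 ≤ r → X (0, 0) - |b| * C - (2 * GG 0 + 2 * C) * μ.real univ +
      2 * GG 0 * κ * r ^ 2 ≤ X (r, r) := by
    intro r hr
    obtain ⟨h1, h2⟩ := diag h hr
    have h3 : ∫ w, (-(2 * GG 0 + 2 * C) + 2 * GG 0 * r ^ 2 * Q.indicator s w) ∂μ ≤
        ∫ w, Z (c w) (s w) r ∂μ := by
      apply integral_mono ((integrable_const _).add (hint.const_mul _)) h2
      intro w
      simp only [Pi.add_apply]
      by_cases hw : w ∈ Q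
      · rw [indicator_of_mem hw, Z_eq]
        have h4 := U_lower (h.cs w) hr hw.1.le hw.2.le
        have h5 : GG 0 ≤ GG r := GG_mono hr
        have h6 := mul_le_mul_of_nonneg_left h4 hw.2.le
        linarith
      · rw [indicator_of_notMem hw]
        have := Z_lower hC (h.cs w) hr
        linarith
    rw [integral_add (integrable_const _) (hint.const_mul _), integral_const, integral_const_mul,
      smul_eq_mul] at h3
    have h4 : -(|b| * C) ≤ b * (GG r - GG 0) := by
      have h5 : 0 ≤ GG r - GG 0 := sub_nonneg.2 (GG_mono hr)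
      have h6 : GG r - GG 0 ≤ C := by have := hC r; linarith
      have h7 := neg_abs_le b
      have h8 : |b| * (GG r - GG 0) ≤ |b| * C := mul_le_mul_of_nonneg_left h6 (abs_nonneg b)
      have h9 : -|b| * (GG r - GG 0) ≤ b * (GG r - GG 0) := mul_le_mul_of_nonneg_right h7 h5
      linarith
    rw [h1]
    linarith
  refine tendsto_atTop_mono' atTop ?_ ?_ (f₁ := fun r : ℝ => X (0, 0) - |b| * C -
    (2 * GG 0 + 2 * C) * μ.real univ + 2 * GG 0 * κ * r ^ 2)
  · filter_upwards [eventually_ge_atTop (0 : ℝ)] with r hr using key r hr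
  · apply tendsto_atTop_add_const_left
    exact Tendsto.const_mul_atTop (by positivity) (tendsto_pow_atTop (by norm_num))

/-- the integrand of the criterion -/
noncomputable def gc (c s : ℝ) : ℝ≥0∞ := (ENNReal.ofReal (max (-c) (-s)))⁻¹

/-- necessity -/
theorem bounded_diag (h : Sys μ c s b X Y) (hm : ∫⁻ w, gc (c w) (s w) ∂μ ≠ ⊤) :
    ∃ R : ℝ, ∀ r : ℝ, 0 ≤ r → |X (r, r)| ≤ R := by
  have hfin := h.fin
  obtain ⟨C, hC0, hC⟩ := GG_bdd
  have h0 := GG0_pos
  have hmg : Measurable fun w => gc (c w) (s w) := by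
    unfold gc
    exact ((h.mc.neg.max h.ms.neg).ennreal_ofReal).inv
  have hae : ∀ᵐ w ∂μ, gc (c w) (s w) < ⊤ := ae_lt_top hmg hm
  have hpos : ∀ᵐ w ∂μ, 0 < max (-(c w)) (-(s w)) := by
    filter_upwards [hae] with w hw
    by_contra hcon
    push Not at hcon
    rw [gc, ENNReal.ofReal_of_nonpos hcon] at hw
    simp at hw
  have hint : Integrable (fun w => (gc (c w) (s w)).toReal) μ :=
    integrable_toReal_of_lintegral_ne_top hmg.aemeasurable hm
  have hval : ∀ᵐ w ∂μ, (gc (c w) (s w)).toReal = 1 / max (-(c w)) (-(s w)) := by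
    filter_upwards [hpos] with w hw
    rw [gc, ENNReal.toReal_inv, ENNReal.toReal_ofReal hw.le, one_div]
  refine ⟨|X (0, 0)| + |b| * C + ∫ w, (2 * GG 0 + 3 * C) * (gc (c w) (s w)).toReal ∂μ,
    fun r hr => ?_⟩
  obtain ⟨h1, h2⟩ := diag h hr
  rw [h1]
  have h3 : |∫ w, Z (c w) (s w) r ∂μ| ≤ ∫ w, (2 * GG 0 + 3 * C) * (gc (c w) (s w)).toReal ∂μ := by
    refine (abs_integral_le_integral_abs).trans ?_
    apply integral_mono_ae h2.abs (hint.const_mul _)
    filter_upwards [hpos, hval] with w hw hv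
    rw [hv]
    have := Z_upper hC (h.cs w) hr hw
    rw [mul_one_div]
    exact this
  have h4 : |b * (GG r - GG 0)| ≤ |b| * C := by
    rw [abs_mul]
    apply mul_le_mul_of_nonneg_left _ (abs_nonneg b)
    have h5 : 0 ≤ GG r - GG 0 := sub_nonneg.2 (GG_mono hr)
    rw [abs_of_nonneg h5]
    have := hC r; linarith
  have h5 := abs_add_le (X (0, 0) + b * (GG r - GG 0)) (∫ w, Z (c w) (s w) r ∂μ)
  have h6 := abs_add_le (X (0, 0)) (b * (GG r - GG 0))
  linarith

theorem fatou {μ : Measure ℝ} [IsFiniteMeasure μ] {F : ℕ → ℝ → ℝ} {k : ℝ} {g : ℝ → ℝ≥0∞}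
    (hI : ∀ n, Integrable (F n) μ) (hlow : ∀ n, ∀ᵐ w ∂μ, -k ≤ F n w)
    (hg : ∀ᵐ w ∂μ, g w ≤ liminf (fun n => ENNReal.ofReal (F n w + k)) atTop)
    (hT : ∫⁻ w, g w ∂μ = ⊤) : Tendsto (fun n => ∫ w, F n w ∂μ) atTop atTop := by
  have h1 : ∫⁻ w, liminf (fun n => ENNReal.ofReal (F n w + k)) atTop ∂μ ≤
      liminf (fun n => ∫⁻ w, ENNReal.ofReal (F n w + k) ∂μ) atTop :=
    lintegral_liminf_le' fun n => ((hI n).add (integrable_const k)).aemeasurable.ennreal_ofReal
  have h2 : liminf (fun n => ∫⁻ w, ENNReal.ofReal (F n w + k) ∂μ) atTop = ⊤ := by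
    rw [← top_le_iff, ← hT]
    exact (lintegral_mono_ae hg).trans h1
  have h3 : ∀ n, ∫⁻ w, ENNReal.ofReal (F n w + k) ∂μ =
      ENNReal.ofReal (∫ w, F n w ∂μ + μ.real univ * k) := by
    intro n
    have e1 := ofReal_integral_eq_lintegral_ofReal (μ := μ) (f := fun w => F n w + k)
      ((hI n).add (integrable_const k)) (by
        filter_upwards [hlow n] with w hw
        simp only [Pi.zero_apply]
        linarith)
    rw [← e1, integral_add (hI n) (integrable_const k), integral_const, smul_eq_mul]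
  rw [tendsto_atTop]
  intro B
  have h4 : ∀ᶠ n in atTop, ENNReal.ofReal (B + μ.real univ * k) <
      ∫⁻ w, ENNReal.ofReal (F n w + k) ∂μ :=
    eventually_lt_of_lt_liminf (by rw [h2]; exact ENNReal.ofReal_lt_top)
  filter_upwards [h4] with n hn
  rw [h3] at hn
  have := (ENNReal.ofReal_lt_ofReal_iff'.1 hn).1
  linarith

theorem growth {f f' : ℝ → ℝ} (hd : ∀ t, HasDerivAt f (f' t) t) {a r k : ℝ} (har : a ≤ r)
    (hk : ∀ t ∈ Icc a r, k ≤ f' t) : f a + k * (r - a) ≤ f r := by
  have := (convex_Icc a r).mul_sub_le_image_sub_of_le_deriv (f := f) (C := k)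
    (fun t _ => (hd t).continuousAt.continuousWithinAt)
    (fun t _ => (hd t).differentiableAt.differentiableWithinAt)
    (fun t ht => by rw [(hd t).deriv]; exact hk t (interior_subset ht))
    a (left_mem_Icc.2 har) r (right_mem_Icc.2 har) har
  linarith

theorem W_ge (h : Sys μ c s b X Y) {A : Set ℝ} (hA : MeasurableSet A) {x y k : ℝ}
    (hk : ∀ w ∈ A, k ≤ Th (x * c w + y * s w)) : μ.real A * k ≤ W μ c s x y := by
  have hfin := h.fin
  have h1 : ∫ w, A.indicator (fun _ => k) w ∂μ ≤ W μ c s x y := by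
    apply integral_mono ((integrable_const k).indicator hA) (int_Th h x y)
    intro w
    by_cases hw : w ∈ A
    · rw [indicator_of_mem hw]; exact hk w hw
    · rw [indicator_of_notMem hw]; exact (Th_pos _).le
  rw [integral_indicator_const k hA, smul_eq_mul] at h1
  exact h1

theorem c_eq_zero_of_s (h : Sys μ c s b X Y) {w : ℝ} (hw : c w = 1) : s w = 0 := by
  have := h.cs w
  rw [hw] at this
  have h2 : s w ^ 2 = 0 := by linarith
  exact pow_eq_zero_iff (two_ne_zero) |>.1 h2

theorem abs_b_le {C r b : ℝ} (hC : ∀ t, GG t ≤ C) (hr : 0 ≤ r) : |b * (GG r - GG 0)| ≤ |b| * C := by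
  rw [abs_mul]
  apply mul_le_mul_of_nonneg_left _ (abs_nonneg b)
  have h5 : 0 ≤ GG r - GG 0 := sub_nonneg.2 (GG_mono hr)
  rw [abs_of_nonneg h5]
  have := hC r
  have := GG0_pos
  linarith

/-- case (b) -/
theorem case_b (h : Sys μ c s b X Y) (hQ : μ {w | 0 < c w ∧ 0 < s w} = 0)
    (hm : μ {w | c w = 1} ≠ 0) :
    Tendsto (fun r : ℝ => X (r, 1)) atTop atTop ∧ Tendsto (fun r : ℝ => Y (r, 1)) atTop atTop := by
  have hfin := h.fin
  obtain ⟨C, hC0, hC⟩ := GG_bdd
  have h0 := GG0_pos
  have hN := continuous_Nf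
  have hA : MeasurableSet {w | c w = 1} := h.mc (measurableSet_singleton 1)
  set A := {w | c w = 1} with hAdef
  set m := μ.real A with hmdef
  have hm0 : 0 < m := by
    rw [hmdef, Measure.real]
    exact ENNReal.toReal_pos hm (measure_ne_top _ _)
  have hTh : ∀ x y, ∀ w ∈ A, Th (x * c w + y * s w) = Th x := by
    intro x y w hw
    have h1 : c w = 1 := hw
    rw [c_eq_zero_of_s h h1, h1]; simp
  constructor
  · have key : ∀ r : ℝ, 0 ≤ r → X (0, 1) + Real.exp (-1 ^ 2) * m * (r - 0) ≤ X (r, 1) := by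
      intro r hr
      refine growth (f := fun t => X (t, 1)) (f' := fun t => Real.exp (-1 ^ 2) *
        (W μ c s t 1 * 1 + K μ c s b t 1 * 0))
        (fun t => h.dX id (fun _ => 1) 1 0 t (hasDerivAt_id t) (hasDerivAt_const t 1)) hr ?_
      intro t ht
      have h1 : m * 1 ≤ W μ c s t 1 := W_ge h hA fun w hw => by
        rw [hTh t 1 w hw]; exact Th_ge_one ht.1
      rw [mul_zero, add_zero, mul_one]
      rw [mul_one] at h1
      exact mul_le_mul_of_nonneg_left h1 (Real.exp_pos _).le
    refine tendsto_atTop_mono' atTop ?_ ?_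
      (f₁ := fun r : ℝ => X (0, 1) + Real.exp (-1 ^ 2) * m * (r - 0))
    · filter_upwards [eventually_ge_atTop (0 : ℝ)] with r hr using key r hr
    · apply tendsto_atTop_add_const_left
      have : 0 < Real.exp (-1 ^ 2) * m := mul_pos (Real.exp_pos _) hm0
      refine Tendsto.const_mul_atTop this ?_
      simp only [sub_zero]
      exact tendsto_id
  · have k1 : ∀ r : ℝ, 0 ≤ r → Y (0, 0) - |b| * C - GG 0 * μ.real univ ≤ Y (r, 0) := by
      intro r hr
      have hd : ∀ t, HasDerivAt (fun t => Y (t, 0) + b * GG t)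
          (∫ w, -(Real.exp (-t ^ 2) * (2 * t * s w) * Nf (t * c w)) ∂μ) t := by
        intro t
        have h1 := (h.dY id (fun _ => 0) 1 0 t (hasDerivAt_id t) (hasDerivAt_const t 0)).add
          ((hasDerivAt_GG t).const_mul b)
        refine h1.congr_deriv ?_
        simp only [id, K]
        rw [integral_neg]
        have h2 : ∫ w, Real.exp (-t ^ 2) * (2 * t * s w) * Nf (t * c w) ∂μ =
            Real.exp (-t ^ 2) * ∫ w, 2 * (t * s w - 0 * c w) * Nf (t * c w + 0 * s w) ∂μ := by
          rw [← integral_const_mul]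
          congr 1; ext w
          rw [zero_mul, zero_mul, add_zero, sub_zero]; ring
        rw [h2]
        ring
      obtain ⟨h1, h2⟩ := ftc_cs h
        (φ := fun t c s => -(Real.exp (-t ^ 2) * (2 * t * s) * Nf (t * c))) (by fun_prop) hr hd
      have h3 : ∫ w, -GG 0 ∂μ ≤ ∫ w, (∫ t in (0:ℝ)..r,
          -(Real.exp (-t ^ 2) * (2 * t * s w) * Nf (t * c w))) ∂μ := by
        apply integral_mono_ae (integrable_const _) h2
        have hae : ∀ᵐ w ∂μ, ¬(0 < c w ∧ 0 < s w) := by
          rw [ae_iff]; simpa using hQ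
        filter_upwards [hae] with w hw
        rcases le_or_gt (s w) 0 with hs | hs
        · have : 0 ≤ ∫ t in (0:ℝ)..r, -(Real.exp (-t ^ 2) * (2 * t * s w) * Nf (t * c w)) := by
            apply intervalIntegral.integral_nonneg hr
            intro t ht
            have e1 := (Nf_pos (t * c w)).le
            have e2 := ht.1
            have e3 : Real.exp (-t ^ 2) * (2 * t * s w) * Nf (t * c w) ≤ 0 := by
              apply mul_nonpos_of_nonpos_of_nonneg _ e1
              apply mul_nonpos_of_nonneg_of_nonpos (Real.exp_pos _).le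
              exact mul_nonpos_of_nonneg_of_nonpos (by positivity) hs
            linarith
          linarith
        · have hc : c w ≤ 0 := by
            by_contra hc
            exact hw ⟨not_le.1 hc, hs⟩
          have e4 := integral_two_mul_exp_le one_pos r
          have e5 : ∫ t in (0:ℝ)..r, -GG 0 * (2 * t * Real.exp (-(1 * t ^ 2))) ≤
              ∫ t in (0:ℝ)..r, -(Real.exp (-t ^ 2) * (2 * t * s w) * Nf (t * c w)) := by
            apply intervalIntegral.integral_mono_on hr
            · exact (by fun_prop : Continuous fun t : ℝ =>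
                -GG 0 * (2 * t * Real.exp (-(1 * t ^ 2)))).intervalIntegrable _ _
            · exact (by fun_prop : Continuous fun t : ℝ =>
                -(Real.exp (-t ^ 2) * (2 * t * s w) * Nf (t * c w))).intervalIntegrable _ _
            · intro t ht
              have ht0 := ht.1
              have e6 : Nf (t * c w) ≤ GG 0 :=
                Nf_le_of_nonpos (mul_nonpos_of_nonneg_of_nonpos ht0 hc)
              have e7 : s w ≤ 1 := (abs_le.1 (abs_s h w)).2
              have e8 : s w * Nf (t * c w) ≤ 1 * GG 0 :=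
                mul_le_mul e7 e6 (Nf_pos _).le zero_le_one
              have e9 : Real.exp (-t ^ 2) * (2 * t) * (s w * Nf (t * c w)) ≤
                  Real.exp (-t ^ 2) * (2 * t) * (1 * GG 0) :=
                mul_le_mul_of_nonneg_left e8 (by positivity)
              rw [one_mul]
              linarith
          rw [intervalIntegral.integral_const_mul] at e5
          nlinarith
      rw [← h1, integral_const, smul_eq_mul] at h3
      have h4 := neg_abs_le (b * (GG r - GG 0))
      have h5 := abs_le.1 (abs_b_le (b := b) hC hr)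
      linarith [h5.2]
    have k2 : ∀ r : ℝ, 0 ≤ r → Y (r, 0) + m * (2 * r * GG 0) * (1 - 0) ≤ Y (r, 1) := by
      intro r hr
      refine growth (f := fun t => Y (r, t)) (f' := fun t => Real.exp (-r ^ 2) *
        (W μ c s r t * 1 - K μ c s b r t * 0))
        (fun t => h.dY (fun _ => r) id 0 1 t (hasDerivAt_const t r) (hasDerivAt_id t))
        zero_le_one ?_
      intro t ht
      have h1 : m * (2 * r * (GG 0 * Real.exp (r ^ 2))) ≤ W μ c s r t := W_ge h hA fun w hw => by
        rw [hTh r t w hw]; exact Th_ge hr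
      rw [mul_zero, sub_zero, mul_one]
      have h2 := mul_le_mul_of_nonneg_left h1 (Real.exp_pos (-r ^ 2)).le
      have h3 : Real.exp (-r ^ 2) * Real.exp (r ^ 2) = 1 := by rw [← Real.exp_add]; simp
      calc m * (2 * r * GG 0) = Real.exp (-r ^ 2) * (m * (2 * r * (GG 0 * Real.exp (r ^ 2)))) := by
            linear_combination (-(m * (2 * r * GG 0))) * h3
        _ ≤ _ := h2
    refine tendsto_atTop_mono' atTop ?_ ?_ (f₁ := fun r : ℝ => Y (0, 0) - |b| * C -
      GG 0 * μ.real univ + m * (2 * GG 0) * r)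
    · filter_upwards [eventually_ge_atTop (0 : ℝ)] with r hr
      have := k1 r hr
      have := k2 r hr
      linarith
    · apply tendsto_atTop_add_const_left
      exact Tendsto.const_mul_atTop (by positivity) tendsto_id

/-- the contribution of a single charge on the vertical axis -/
noncomputable def V (c s r : ℝ) : ℝ :=
  ∫ t in (0:ℝ)..r, Real.exp (-t ^ 2) * (-(2 * t * c)) * Nf (t * s)

theorem cont_V (c s : ℝ) : Continuous fun t : ℝ => Real.exp (-t ^ 2) * (-(2 * t * c)) * Nf (t * s) := by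
  have hN := continuous_Nf
  fun_prop

theorem V_nonneg {c s r : ℝ} (hr : 0 ≤ r) (hc : c ≤ 0) : 0 ≤ V c s r := by
  apply intervalIntegral.integral_nonneg hr
  intro t ht
  have e1 := (Nf_pos (t * s)).le
  have e2 := ht.1
  have e3 : 0 ≤ -(2 * t * c) := by
    have := mul_nonpos_of_nonneg_of_nonpos (a := 2 * t) (by positivity) hc
    linarith
  positivity

theorem V_lower {c s r : ℝ} (hr : 0 ≤ r) (hc1 : c ≤ 1) (hcs : c ≤ 0 ∨ s ≤ 0) :
    -GG 0 ≤ V c s r := by
  have h0 := GG0_pos
  rcases le_or_gt c 0 with hc | hc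
  · linarith [V_nonneg (s := s) hr hc]
  · have hs : s ≤ 0 := by
      rcases hcs with h | h
      · linarith
      · exact h
    have e4 := integral_two_mul_exp_le one_pos r
    have e5 : ∫ t in (0:ℝ)..r, -GG 0 * (2 * t * Real.exp (-(1 * t ^ 2))) ≤ V c s r := by
      apply intervalIntegral.integral_mono_on hr
      · exact (by fun_prop : Continuous fun t : ℝ =>
          -GG 0 * (2 * t * Real.exp (-(1 * t ^ 2)))).intervalIntegrable _ _
      · exact (cont_V c s).intervalIntegrable _ _
      · intro t ht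
        have ht0 := ht.1
        have e6 : Nf (t * s) ≤ GG 0 := Nf_le_of_nonpos (mul_nonpos_of_nonneg_of_nonpos ht0 hs)
        have e8 : c * Nf (t * s) ≤ 1 * GG 0 := mul_le_mul hc1 e6 (Nf_pos _).le zero_le_one
        have e9 : Real.exp (-t ^ 2) * (2 * t) * (c * Nf (t * s)) ≤
            Real.exp (-t ^ 2) * (2 * t) * (1 * GG 0) :=
          mul_le_mul_of_nonneg_left e8 (by positivity)
        rw [one_mul]
        linarith
    rw [intervalIntegral.integral_const_mul] at e5
    nlinarith

theorem V_lower2 {c s r : ℝ} (hcs : c ^ 2 + s ^ 2 = 1) (hr : 0 ≤ r) (hc : c < 0) (hs : 0 ≤ s) :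
    GG 0 * (1 - Real.exp (-(c ^ 2 * r ^ 2))) / (-c) ≤ V c s r := by
  have h0 := GG0_pos
  have hc2 : c ^ 2 ≠ 0 := pow_ne_zero 2 hc.ne
  have e4 := integral_two_mul_exp hc2 r
  have e5 : ∫ t in (0:ℝ)..r, (-c * GG 0) * (2 * t * Real.exp (-(c ^ 2 * t ^ 2))) ≤ V c s r := by
    apply intervalIntegral.integral_mono_on hr
    · exact (by fun_prop : Continuous fun t : ℝ =>
        (-c * GG 0) * (2 * t * Real.exp (-(c ^ 2 * t ^ 2)))).intervalIntegrable _ _
    · exact (cont_V c s).intervalIntegrable _ _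
    · intro t ht
      have ht0 := ht.1
      have e6 : GG 0 * Real.exp ((t * s) ^ 2) ≤ Nf (t * s) := Nf_ge_of_nonneg (by positivity)
      have e7 : Real.exp (-(c ^ 2 * t ^ 2)) = Real.exp (-t ^ 2) * Real.exp ((t * s) ^ 2) := by
        rw [← Real.exp_add]
        congr 1
        linear_combination (-t ^ 2) * hcs
      have e8 : 0 ≤ Real.exp (-t ^ 2) * (-(2 * t * c)) := by
        apply mul_nonneg (Real.exp_pos _).le
        have := mul_nonpos_of_nonneg_of_nonpos (a := 2 * t) (by positivity) hc.le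
        linarith
      have e9 := mul_le_mul_of_nonneg_left e6 e8
      rw [e7]
      linarith
  rw [intervalIntegral.integral_const_mul, e4] at e5
  refine le_trans (le_of_eq ?_) e5
  have := hc.ne
  field_simp

/-- case (c) -/
theorem case_c (h : Sys μ c s b X Y) (hQ : μ {w | 0 ≤ c w ∧ 0 ≤ s w} = 0)
    (hi : ∫⁻ w in {w | c w < 0 ∧ 0 < s w}, (ENNReal.ofReal (-(c w)))⁻¹ ∂μ = ⊤) :
    Tendsto (fun n : ℕ => X (0, n)) atTop atTop ∧
      Tendsto (fun n : ℕ => Y (0, n)) atTop atTop := by
  have hfin := h.fin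
  obtain ⟨C, hC0, hC⟩ := GG_bdd
  have h0 := GG0_pos
  have hN := continuous_Nf
  have hA : MeasurableSet {w | c w < 0 ∧ 0 < s w} :=
    (measurableSet_lt h.mc measurable_const).inter (measurableSet_lt measurable_const h.ms)
  set A := {w | c w < 0 ∧ 0 < s w} with hAdef
  have hae : ∀ᵐ w ∂μ, c w ≤ 0 ∨ s w ≤ 0 := by
    have : ∀ᵐ w ∂μ, ¬(0 ≤ c w ∧ 0 ≤ s w) := by
      rw [ae_iff]; simpa using hQ
    filter_upwards [this] with w hw
    by_contra hcon
    push Not at hcon
    exact hw ⟨hcon.1.le, hcon.2.le⟩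
  constructor
  · have hd : ∀ t, HasDerivAt (fun t => X (0, t) - b * GG t)
        (∫ w, Real.exp (-t ^ 2) * (-(2 * t * c w)) * Nf (t * s w) ∂μ) t := by
      intro t
      have h1 := (h.dX (fun _ => 0) id 0 1 t (hasDerivAt_const t 0) (hasDerivAt_id t)).sub
        ((hasDerivAt_GG t).const_mul b)
      refine h1.congr_deriv ?_
      simp only [id, K]
      have h2 : ∫ w, Real.exp (-t ^ 2) * (-(2 * t * c w)) * Nf (t * s w) ∂μ =
          Real.exp (-t ^ 2) * ∫ w, 2 * (0 * s w - t * c w) * Nf (0 * c w + t * s w) ∂μ := by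
        rw [← integral_const_mul]
        congr 1; ext w
        rw [zero_mul, zero_mul, zero_add, zero_sub]; ring
      rw [h2]
      ring
    have hV : ∀ n : ℕ, X (0, n) - b * GG n - (X (0, 0) - b * GG 0) =
        ∫ w, V (c w) (s w) n ∂μ ∧ Integrable (fun w => V (c w) (s w) n) μ := fun n =>
      ftc_cs h (φ := fun t c s => Real.exp (-t ^ 2) * (-(2 * t * c)) * Nf (t * s))
        (by fun_prop) (Nat.cast_nonneg n) hd
    have hlim : Tendsto (fun n : ℕ => ∫ w, V (c w) (s w) n ∂μ) atTop atTop := by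
      refine fatou (k := GG 0) (g := A.indicator fun w =>
        ENNReal.ofReal (GG 0) * (ENNReal.ofReal (-(c w)))⁻¹) (fun n => (hV n).2) ?_ ?_ ?_
      · intro n
        filter_upwards [hae] with w hw
        exact V_lower (Nat.cast_nonneg n) (abs_le.1 (abs_c h w)).2 hw
      · refine Eventually.of_forall fun w => ?_
        by_cases hw : w ∈ A
        · rw [indicator_of_mem hw]
          have hc : c w < 0 := hw.1
          have l1 : Tendsto (fun n : ℕ => ENNReal.ofReal
              (GG 0 * (1 - Real.exp (-((c w) ^ 2 * (n:ℝ) ^ 2))) / (-(c w)))) atTop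
              (𝓝 (ENNReal.ofReal (GG 0 * (1 - 0) / (-(c w))))) := by
            apply ENNReal.tendsto_ofReal
            apply Tendsto.div_const
            apply Tendsto.const_mul
            apply Tendsto.const_sub
            apply Real.tendsto_exp_neg_atTop_nhds_zero.comp
            apply Tendsto.const_mul_atTop (by have := hc.ne; positivity)
            exact (tendsto_pow_atTop (by norm_num)).comp tendsto_natCast_atTop_atTop
          have l2 : ENNReal.ofReal (GG 0) * (ENNReal.ofReal (-(c w)))⁻¹ =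
              ENNReal.ofReal (GG 0 * (1 - 0) / (-(c w))) := by
            rw [sub_zero, mul_one, ENNReal.ofReal_div_of_pos (by linarith), div_eq_mul_inv]
          rw [l2, ← l1.liminf_eq]
          refine liminf_le_liminf (Eventually.of_forall fun n => ENNReal.ofReal_le_ofReal ?_)
          have := V_lower2 (h.cs w) (Nat.cast_nonneg n) hw.1 hw.2.le
          linarith
        · rw [indicator_of_notMem hw]
          exact bot_le
      · rw [lintegral_indicator hA, lintegral_const_mul']
        · rw [hi, ENNReal.mul_top]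
          simpa using h0
        · exact ENNReal.ofReal_ne_top
    refine tendsto_atTop_mono (f := fun n : ℕ => (X (0, 0) - |b| * C) +
      ∫ w, V (c w) (s w) n ∂μ) (fun n => ?_) (tendsto_atTop_add_const_left _ _ hlim)
    have h1 := (hV n).1
    have h5 := abs_le.1 (abs_b_le (b := b) hC (Nat.cast_nonneg (α := ℝ) n))
    linarith [h5.1]
  · have hm : μ A ≠ 0 := by
      intro h1
      rw [setLIntegral_measure_zero _ _ h1] at hi
      exact ENNReal.zero_ne_top hi
    have hm0 : 0 < μ.real A := by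
      rw [Measure.real]
      exact ENNReal.toReal_pos hm (measure_ne_top _ _)
    have key : ∀ n : ℕ, Y (0, 0) + μ.real A * n ≤ Y (0, n) := by
      intro n
      have := growth (f := fun t => Y (0, t)) (f' := fun t => Real.exp (-0 ^ 2) *
        (W μ c s 0 t * 1 - K μ c s b 0 t * 0)) (a := 0) (r := n) (k := μ.real A)
        (fun t => h.dY (fun _ => 0) id 0 1 t (hasDerivAt_const t 0) (hasDerivAt_id t))
        (Nat.cast_nonneg n) (fun t ht => ?_)
      · simpa using this
      have h1 : μ.real A * 1 ≤ W μ c s 0 t := W_ge h hA fun w hw => by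
        apply Th_ge_one
        rw [zero_mul, zero_add]
        exact mul_nonneg ht.1 hw.2.le
      simpa using h1
    refine tendsto_atTop_mono key ?_
    apply tendsto_atTop_add_const_left
    exact Tendsto.const_mul_atTop hm0 tendsto_natCast_atTop_atTop

/-- the first quadrant -/
theorem quad0 (h : Sys μ c s b X Y) (hT : ∫⁻ w, gc (c w) (s w) ∂μ = ⊤) (N : ℝ) :
    ∃ q, N < X q ∧ N < Y q := by
  have hfin := h.fin
  by_cases ha : μ {w | 0 < c w ∧ 0 < s w} = 0
  swap
  · -- case (a)
    have h1 := case_a h ha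
    have ha' : μ {w | 0 < s w ∧ 0 < c w} ≠ 0 := by
      simpa only [and_comm] using ha
    have h2 := case_a h.swap ha'
    obtain ⟨r, hr1, hr2⟩ := ((h1.eventually_gt_atTop N).and (h2.eventually_gt_atTop N)).exists
    exact ⟨(r, r), hr1, hr2⟩
  by_cases hb1 : μ {w | c w = 1} = 0
  swap
  · obtain ⟨h1, h2⟩ := case_b h ha hb1
    obtain ⟨r, hr1, hr2⟩ := ((h1.eventually_gt_atTop N).and (h2.eventually_gt_atTop N)).exists
    exact ⟨(r, 1), hr1, hr2⟩
  by_cases hb2 : μ {w | s w = 1} = 0
  swap
  · have ha' : μ {w | 0 < s w ∧ 0 < c w} = 0 := by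
      simpa only [and_comm] using ha
    obtain ⟨h1, h2⟩ := case_b h.swap ha' hb2
    obtain ⟨r, hr1, hr2⟩ := ((h1.eventually_gt_atTop N).and (h2.eventually_gt_atTop N)).exists
    exact ⟨(1, r), hr2, hr1⟩
  have hQ : μ {w | 0 ≤ c w ∧ 0 ≤ s w} = 0 := by
    refine measure_mono_null (t := {w | 0 < c w ∧ 0 < s w} ∪ ({w | c w = 1} ∪ {w | s w = 1})) ?_
      (measure_union_null ha (measure_union_null hb1 hb2))
    rintro w ⟨h1, h2⟩
    rcases h1.eq_or_lt with h3 | h3
    · right; right
      have := h.cs w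
      rw [← h3] at this
      have h4 : (s w - 1) * (s w + 1) = 0 := by linarith
      rcases mul_eq_zero.1 h4 with h5 | h5
      · show s w = 1
        linarith
      · linarith
    · rcases h2.eq_or_lt with h4 | h4
      · right; left
        have := h.cs w
        rw [← h4] at this
        have h5 : (c w - 1) * (c w + 1) = 0 := by linarith
        rcases mul_eq_zero.1 h5 with h5 | h5
        · show c w = 1
          linarith
        · linarith
      · left; exact ⟨h3, h4⟩
  have hae : ∀ᵐ w ∂μ, ¬(0 ≤ c w ∧ 0 ≤ s w) := by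
    rw [ae_iff]; simpa using hQ
  have hA1 : MeasurableSet {w | c w < 0 ∧ 0 < s w} :=
    (measurableSet_lt h.mc measurable_const).inter (measurableSet_lt measurable_const h.ms)
  have hA2 : MeasurableSet {w | s w < 0 ∧ 0 < c w} :=
    (measurableSet_lt h.ms measurable_const).inter (measurableSet_lt measurable_const h.mc)
  by_cases hi1 : ∫⁻ w in {w | c w < 0 ∧ 0 < s w}, (ENNReal.ofReal (-(c w)))⁻¹ ∂μ = ⊤
  · obtain ⟨h1, h2⟩ := case_c h hQ hi1
    obtain ⟨r, hr1, hr2⟩ := ((h1.eventually_gt_atTop N).and (h2.eventually_gt_atTop N)).exists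
    exact ⟨(0, r), hr1, hr2⟩
  by_cases hi2 : ∫⁻ w in {w | s w < 0 ∧ 0 < c w}, (ENNReal.ofReal (-(s w)))⁻¹ ∂μ = ⊤
  · have hQ' : μ {w | 0 ≤ s w ∧ 0 ≤ c w} = 0 := by
      simpa only [and_comm] using hQ
    obtain ⟨h1, h2⟩ := case_c h.swap hQ' hi2
    obtain ⟨r, hr1, hr2⟩ := ((h1.eventually_gt_atTop N).and (h2.eventually_gt_atTop N)).exists
    exact ⟨(r, 0), hr2, hr1⟩
  exfalso
  have hle : ∫⁻ w, gc (c w) (s w) ∂μ ≤
      ∫⁻ w, ({w | c w < 0 ∧ 0 < s w}.indicator (fun w => (ENNReal.ofReal (-(c w)))⁻¹) w +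
        ({w | s w < 0 ∧ 0 < c w}.indicator (fun w => (ENNReal.ofReal (-(s w)))⁻¹) w + 2)) ∂μ := by
    apply lintegral_mono_ae
    filter_upwards [hae] with w hw
    by_cases h1 : w ∈ {w | c w < 0 ∧ 0 < s w}
    · rw [indicator_of_mem h1]
      refine le_trans ?_ le_self_add
      have : max (-(c w)) (-(s w)) = -(c w) := max_eq_left (by linarith [h1.1, h1.2])
      rw [gc, this]
    · by_cases h2 : w ∈ {w | s w < 0 ∧ 0 < c w}
      · rw [indicator_of_notMem h1, indicator_of_mem h2, zero_add]
        refine le_trans ?_ le_self_add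
        have : max (-(c w)) (-(s w)) = -(s w) := max_eq_right (by linarith [h2.1, h2.2])
        rw [gc, this]
      · rw [indicator_of_notMem h1, indicator_of_notMem h2, zero_add, zero_add]
        have h3 : c w ≤ 0 ∧ s w ≤ 0 := by
          have e1 : ¬(c w < 0 ∧ 0 < s w) := h1
          have e2 : ¬(s w < 0 ∧ 0 < c w) := h2
          constructor
          · by_contra hc
            push Not at hc
            by_cases hs : s w < 0
            · exact e2 ⟨hs, hc⟩
            · exact hw ⟨hc.le, not_lt.1 hs⟩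
          · by_contra hs
            push Not at hs
            by_cases hc : c w < 0
            · exact e1 ⟨hc, hs⟩
            · exact hw ⟨not_lt.1 hc, hs.le⟩
        have h4 : 1 / 2 ≤ max (-(c w)) (-(s w)) := by
          by_contra hcon
          push Not at hcon
          have h5 := (le_max_left (-(c w)) (-(s w))).trans_lt hcon
          have h6 := (le_max_right (-(c w)) (-(s w))).trans_lt hcon
          have := h.cs w
          nlinarith [h3.1, h3.2]
        rw [gc, ENNReal.inv_le_iff_inv_le]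
        have h5 : (2 : ℝ≥0∞)⁻¹ = ENNReal.ofReal (1 / 2) := by
          rw [one_div, ENNReal.ofReal_inv_of_pos (by norm_num)]
          simp
        rw [h5]
        exact ENNReal.ofReal_le_ofReal h4
  have hm1 : Measurable fun w => (ENNReal.ofReal (-(c w)))⁻¹ := h.mc.neg.ennreal_ofReal.inv
  have hm2 : Measurable fun w => (ENNReal.ofReal (-(s w)))⁻¹ := h.ms.neg.ennreal_ofReal.inv
  rw [hT, lintegral_add_left (hm1.indicator hA1), lintegral_add_left (hm2.indicator hA2),
    lintegral_indicator hA1, lintegral_indicator hA2, lintegral_const, top_le_iff] at hle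
  have h1 : (2 : ℝ≥0∞) * μ univ ≠ ⊤ := ENNReal.mul_ne_top (by norm_num) (measure_ne_top _ _)
  exact (ENNReal.add_ne_top.2 ⟨hi1, ENNReal.add_ne_top.2 ⟨hi2, h1⟩⟩) hle

/-! ### connectivity -/

/-- closed form of the contribution of a single charge, `c ≠ 0` -/
noncomputable def XX (c s x y : ℝ) : ℝ :=
  (GG 0 + s * (GG y - GG 0) - Real.exp (-y ^ 2) * Nf (x * c + y * s)) / (-c)

theorem XX_zero (c s : ℝ) : XX c s 0 0 = 0 := by
  rw [XX, zero_mul, zero_mul, add_zero, Nf_zero]; simp

theorem deriv_XX {c s : ℝ} (hcs : c ^ 2 + s ^ 2 = 1) (hc : c ≠ 0) (x y t : ℝ) :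
    HasDerivAt (fun t => XX c s (t * x) (t * y)) (Real.exp (-(t * y) ^ 2) *
      (x * Th (t * (x * c + y * s)) + 2 * t * y * (x * s - y * c) * Nf (t * (x * c + y * s)))) t := by
  have e1 : HasDerivAt (fun t => t * y) y t := by simpa using (hasDerivAt_id t).mul_const y
  have e2 : HasDerivAt (fun t => GG (t * y)) (Real.exp (-(t * y) ^ 2) * y) t :=
    HasDerivAt.comp (h₂ := GG) t (hasDerivAt_GG (t * y)) e1
  have e3 : HasDerivAt (fun t => t * x * c + t * y * s) (x * c + y * s) t := by
    exact ((((hasDerivAt_id t).mul_const x).mul_const c).add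
      (((hasDerivAt_id t).mul_const y).mul_const s)).congr_deriv (by simp)
  have e4 : HasDerivAt (fun t => Nf (t * x * c + t * y * s))
      (Th (t * x * c + t * y * s) * (x * c + y * s)) t :=
    HasDerivAt.comp (h₂ := Nf) t (hasDerivAt_Nf _) e3
  have e5 : HasDerivAt (fun t => Real.exp (-(t * y) ^ 2))
      (Real.exp (-(t * y) ^ 2) * (-(2 * (t * y) * y))) t := by
    have h0 : HasDerivAt (fun t => -(t * y) ^ 2) (-(2 * (t * y) * y)) t := by
      exact ((e1.pow 2).neg).congr_deriv (by simp)
    exact h0.exp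
  have e6 := ((((e2.sub_const (GG 0)).const_mul s).const_add (GG 0)).sub (e5.mul e4)).div_const (-c)
  refine e6.congr_deriv ?_
  rw [show t * x * c + t * y * s = t * (x * c + y * s) by ring, Th]
  rw [div_eq_iff (neg_ne_zero.2 hc)]
  linear_combination (-(2 * t * y ^ 2 * Nf (t * (x * c + y * s)) * Real.exp (-(t * y) ^ 2))) * hcs

theorem explicit (h : Sys μ c s b X Y) (hc : ∀ᵐ w ∂μ, c w ≠ 0) (x y : ℝ) :
    X (x, y) = X (0, 0) + b * (GG y - GG 0) + ∫ w, XX (c w) (s w) x y ∂μ ∧
      Integrable (fun w => XX (c w) (s w) x y) μ := by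
  have hN := continuous_Nf
  have hTh := continuous_Th
  have hd : ∀ t, HasDerivAt (fun t => X (t * x, t * y) - b * GG (t * y))
      (∫ w, Real.exp (-(t * y) ^ 2) * (x * Th (t * (x * c w + y * s w)) +
        2 * t * y * (x * s w - y * c w) * Nf (t * (x * c w + y * s w))) ∂μ) t := by
    intro t
    have ex : HasDerivAt (fun t => t * x) x t := by simpa using (hasDerivAt_id t).mul_const x
    have ey : HasDerivAt (fun t => t * y) y t := by simpa using (hasDerivAt_id t).mul_const y
    have e2 : HasDerivAt (fun t => GG (t * y)) (Real.exp (-(t * y) ^ 2) * y) t :=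
      HasDerivAt.comp (h₂ := GG) t (hasDerivAt_GG (t * y)) ey
    have h1 := (h.dX _ _ _ _ t ex ey).sub (e2.const_mul b)
    refine h1.congr_deriv ?_
    rw [integral_const_mul]
    simp only [W, K]
    have h2 : ∫ w, (x * Th (t * (x * c w + y * s w)) +
        2 * t * y * (x * s w - y * c w) * Nf (t * (x * c w + y * s w))) ∂μ =
        (∫ w, Th (t * x * c w + t * y * s w) ∂μ) * x +
        (∫ w, 2 * (t * x * s w - t * y * c w) * Nf (t * x * c w + t * y * s w) ∂μ) * y := by
      rw [← integral_mul_const, ← integral_mul_const,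
        ← integral_add ((int_Th h (t * x) (t * y)).mul_const x)
          ((int_Nf h (t * x) (t * y)).mul_const y)]
      congr 1; ext w
      rw [show t * x * c w + t * y * s w = t * (x * c w + y * s w) by ring]
      ring
    rw [h2]
    ring
  obtain ⟨h1, h2⟩ := ftc_cs h (φ := fun t c s => Real.exp (-(t * y) ^ 2) *
    (x * Th (t * (x * c + y * s)) + 2 * t * y * (x * s - y * c) * Nf (t * (x * c + y * s))))
    (by fun_prop) zero_le_one hd
  have h3 : ∀ᵐ w ∂μ, (∫ t in (0:ℝ)..1, Real.exp (-(t * y) ^ 2) *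
      (x * Th (t * (x * c w + y * s w)) +
        2 * t * y * (x * s w - y * c w) * Nf (t * (x * c w + y * s w)))) =
      XX (c w) (s w) x y := by
    filter_upwards [hc] with w hw
    rw [intervalIntegral.integral_eq_sub_of_hasDerivAt
      (fun t _ => deriv_XX (h.cs w) hw x y t)]
    · rw [one_mul, one_mul, zero_mul, zero_mul, XX_zero, sub_zero]
    · exact (by fun_prop : Continuous fun t : ℝ => Real.exp (-(t * y) ^ 2) *
        (x * Th (t * (x * c w + y * s w)) + 2 * t * y * (x * s w - y * c w) *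
          Nf (t * (x * c w + y * s w)))).intervalIntegrable _ _
  constructor
  · rw [← integral_congr_ae h3, ← h1]
    simp only [one_mul, zero_mul]
    ring
  · exact h2.congr h3

theorem mono_X (h : Sys μ c s b X Y) (y : ℝ) : Monotone fun x => X (x, y) := by
  have hd : ∀ t, HasDerivAt (fun t => X (t, y)) (Real.exp (-y ^ 2) *
      (W μ c s t y * 1 + K μ c s b t y * 0)) t :=
    fun t => h.dX id (fun _ => y) 1 0 t (hasDerivAt_id t) (hasDerivAt_const t y)
  apply monotone_of_deriv_nonneg (fun t => (hd t).differentiableAt)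
  intro t
  rw [(hd t).deriv, mul_zero, add_zero, mul_one]
  exact mul_nonneg (Real.exp_pos _).le (integral_nonneg fun w => (Th_pos _).le)

theorem unbounded_X (h : Sys μ c s b X Y) (hT : ∫⁻ w, (ENNReal.ofReal (-(c w)))⁻¹ ∂μ = ⊤)
    (y : ℝ) : Tendsto (fun n : ℕ => X (n, y)) atTop atTop := by
  have hfin := h.fin
  have hTh := continuous_Th
  have hd : ∀ t, HasDerivAt (fun t => X (t, y))
      (∫ w, Real.exp (-y ^ 2) * Th (t * c w + y * s w) ∂μ) t := by
    intro t
    have h1 := h.dX id (fun _ => y) 1 0 t (hasDerivAt_id t) (hasDerivAt_const t y)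
    refine h1.congr_deriv ?_
    rw [mul_zero, add_zero, mul_one, integral_const_mul]
    rfl
  have hV : ∀ n : ℕ, X (n, y) - X (0, y) =
      ∫ w, (∫ t in (0:ℝ)..n, Real.exp (-y ^ 2) * Th (t * c w + y * s w)) ∂μ ∧
      Integrable (fun w => ∫ t in (0:ℝ)..n, Real.exp (-y ^ 2) * Th (t * c w + y * s w)) μ :=
    fun n => ftc_cs h (φ := fun t c s => Real.exp (-y ^ 2) * Th (t * c + y * s))
        (by fun_prop) (Nat.cast_nonneg n) hd
  have hNy : 0 < Real.exp (-y ^ 2) * Nf (-|y|) := mul_pos (Real.exp_pos _) (Nf_pos _)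
  have hys : ∀ w, -|y| ≤ y * s w := by
    intro w
    have h1 := neg_abs_le (y * s w)
    rw [abs_mul] at h1
    have h2 : |y| * |s w| ≤ |y| * 1 := mul_le_mul_of_nonneg_left (abs_s h w) (abs_nonneg y)
    linarith
  have hlim : Tendsto (fun n : ℕ => ∫ w, (∫ t in (0:ℝ)..n,
      Real.exp (-y ^ 2) * Th (t * c w + y * s w)) ∂μ) atTop atTop := by
    refine fatou (k := 0) (g := fun w =>
      ENNReal.ofReal (Real.exp (-y ^ 2) * Nf (-|y|)) * (ENNReal.ofReal (-(c w)))⁻¹)
      (fun n => (hV n).2) ?_ ?_ ?_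
    · intro n
      refine Eventually.of_forall fun w => ?_
      rw [neg_zero]
      apply intervalIntegral.integral_nonneg (Nat.cast_nonneg n)
      intro t _
      exact mul_nonneg (Real.exp_pos _).le (Th_pos _).le
    · refine Eventually.of_forall fun w => ?_
      simp only [add_zero]
      rcases lt_or_ge (c w) 0 with hc | hc
      · have e1 : ∀ n : ℕ, (∫ t in (0:ℝ)..n, Real.exp (-y ^ 2) * Th (t * c w + y * s w)) =
            Real.exp (-y ^ 2) * (Nf (y * s w) - Nf (n * c w + y * s w)) / (-(c w)) := by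
          intro n
          have e2 : ∀ t : ℝ, HasDerivAt
              (fun t : ℝ => Real.exp (-y ^ 2) * Nf (t * c w + y * s w) / c w)
              (Real.exp (-y ^ 2) * Th (t * c w + y * s w)) t := by
            intro t
            have e3 : HasDerivAt (fun t : ℝ => t * c w + y * s w) (c w) t := by
              simpa using ((hasDerivAt_id t).mul_const (c w)).add_const (y * s w)
            have e4 := (HasDerivAt.comp (h₂ := Nf) t (hasDerivAt_Nf _) e3).const_mul
              (Real.exp (-y ^ 2)) |>.div_const (c w)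
            refine e4.congr_deriv ?_
            have := hc.ne
            field_simp
          rw [intervalIntegral.integral_eq_sub_of_hasDerivAt (fun t _ => e2 t)]
          · rw [zero_mul, zero_add]
            have := hc.ne
            field_simp
            ring
          · exact (by fun_prop : Continuous fun t : ℝ =>
              Real.exp (-y ^ 2) * Th (t * c w + y * s w)).intervalIntegrable _ _
        simp only [e1]
        have l1 : Tendsto (fun n : ℕ => ENNReal.ofReal
            (Real.exp (-y ^ 2) * (Nf (y * s w) - Nf (n * c w + y * s w)) / (-(c w)))) atTop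
            (𝓝 (ENNReal.ofReal (Real.exp (-y ^ 2) * (Nf (y * s w) - 0) / (-(c w))))) := by
          apply ENNReal.tendsto_ofReal
          apply Tendsto.div_const
          apply Tendsto.const_mul
          apply Tendsto.const_sub
          apply Nf_atBot.comp
          apply tendsto_atBot_add_const_right
          exact Tendsto.atTop_mul_const_of_neg hc tendsto_natCast_atTop_atTop
        rw [l1.liminf_eq, sub_zero, ← div_eq_mul_inv, ← ENNReal.ofReal_div_of_pos (by linarith)]
        apply ENNReal.ofReal_le_ofReal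
        apply div_le_div_of_nonneg_right _ (by linarith)
        exact mul_le_mul_of_nonneg_left (Nf_mono (hys w)) (Real.exp_pos _).le
      · have e1 : liminf (fun n : ℕ => ENNReal.ofReal
            (∫ t in (0:ℝ)..n, Real.exp (-y ^ 2) * Th (t * c w + y * s w))) atTop = ⊤ := by
          apply Tendsto.liminf_eq
          rw [ENNReal.tendsto_nhds_top_iff_nnreal]
          intro M
          have hp : 0 < Real.exp (-y ^ 2) * Th (-|y|) := mul_pos (Real.exp_pos _) (Th_pos _)
          have l2 : Tendsto (fun n : ℕ => (n : ℝ) * (Real.exp (-y ^ 2) * Th (-|y|))) atTop atTop :=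
            Tendsto.atTop_mul_const hp tendsto_natCast_atTop_atTop
          filter_upwards [l2.eventually_gt_atTop (M : ℝ)] with n hn
          have e5 : ∫ t in (0:ℝ)..n, Real.exp (-y ^ 2) * Th (-|y|) ≤
              ∫ t in (0:ℝ)..n, Real.exp (-y ^ 2) * Th (t * c w + y * s w) := by
            apply intervalIntegral.integral_mono_on (Nat.cast_nonneg n)
            · exact (continuous_const).intervalIntegrable _ _
            · exact (by fun_prop : Continuous fun t : ℝ =>
                Real.exp (-y ^ 2) * Th (t * c w + y * s w)).intervalIntegrable _ _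
            · intro t ht
              apply mul_le_mul_of_nonneg_left _ (Real.exp_pos _).le
              apply Th_mono
              have := mul_nonneg ht.1 hc
              have := hys w
              linarith
          rw [intervalIntegral.integral_const, smul_eq_mul, sub_zero] at e5
          rw [← ENNReal.ofReal_coe_nnreal]
          exact (ENNReal.ofReal_lt_ofReal_iff'.2 ⟨by linarith, by
            have := M.2
            linarith [show (0:ℝ) ≤ M from M.2]⟩)
        rw [e1]
        exact le_top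
    · rw [lintegral_const_mul' _ _ ENNReal.ofReal_ne_top, hT, ENNReal.mul_top]
      simpa using hNy
  refine (tendsto_atTop_add_const_left _ (X (0, y)) hlim).congr fun n => ?_
  rw [← (hV n).1]; ring

theorem bounded_X (h : Sys μ c s b X Y) (hT : ∫⁻ w, (ENNReal.ofReal (-(c w)))⁻¹ ∂μ ≠ ⊤) :
    ∃ A B : ℝ, ∀ y, (∀ x, X (x, y) ≤ A + B * GG y) ∧
      Tendsto (fun n : ℕ => X (n, y)) atTop (𝓝 (A + B * GG y)) := by
  have hfin := h.fin
  have hN := continuous_Nf
  have hmg : Measurable fun w => (ENNReal.ofReal (-(c w)))⁻¹ := h.mc.neg.ennreal_ofReal.inv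
  have hneg : ∀ᵐ w ∂μ, c w < 0 := by
    filter_upwards [ae_lt_top hmg hT] with w hw
    by_contra hcon
    push Not at hcon
    rw [ENNReal.ofReal_of_nonpos (by linarith)] at hw
    simp at hw
  have hint : Integrable (fun w => 1 / (-(c w))) μ := by
    have h1 := integrable_toReal_of_lintegral_ne_top hmg.aemeasurable hT
    refine h1.congr ?_
    filter_upwards [hneg] with w hw
    rw [ENNReal.toReal_inv, ENNReal.toReal_ofReal (by linarith), one_div]
  have hmul : ∀ f : ℝ → ℝ, Measurable f → (∃ C, ∀ w, |f w| ≤ C) →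
      Integrable (fun w => f w / (-(c w))) μ := by
    intro f hf ⟨C, hC⟩
    have h1 : Integrable (fun w => f w * (1 / (-(c w)))) μ :=
      hint.bdd_mul (c := C) hf.aestronglyMeasurable (Eventually.of_forall hC)
    simpa only [mul_one_div] using h1
  have i1 : Integrable (fun w => (GG 0 - s w * GG 0) / (-(c w))) μ := by
    apply hmul _ ((h.ms.mul_const _).const_sub _)
    refine ⟨2 * GG 0, fun w => ?_⟩
    have h1 := abs_le.1 (abs_s h w)
    have h0 := GG0_pos
    rw [abs_le]
    constructor <;> nlinarith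
  have i2 : Integrable (fun w => s w / (-(c w))) μ := hmul _ h.ms ⟨1, abs_s h⟩
  have i3 : ∀ x y, Integrable (fun w => Real.exp (-y ^ 2) * Nf (x * c w + y * s w) / (-(c w))) μ := by
    intro x y
    apply hmul
    · exact (hN.measurable.comp ((h.mc.const_mul x).add (h.ms.const_mul y))).const_mul _
    · refine ⟨Real.exp (-y ^ 2) * Nf (|x| + |y|), fun w => ?_⟩
      have e1 := (Nf_pos (x * c w + y * s w)).le
      rw [abs_of_nonneg (by positivity)]
      apply mul_le_mul_of_nonneg_left _ (Real.exp_pos _).le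
      apply Nf_mono
      have e2 : x * c w ≤ |x| := by
        have := le_abs_self (x * c w)
        rw [abs_mul] at this
        nlinarith [abs_c h w, abs_nonneg x]
      have e3 : y * s w ≤ |y| := by
        have := le_abs_self (y * s w)
        rw [abs_mul] at this
        nlinarith [abs_s h w, abs_nonneg y]
      linarith
  refine ⟨X (0, 0) - b * GG 0 + ∫ w, (GG 0 - s w * GG 0) / (-(c w)) ∂μ,
    b + ∫ w, s w / (-(c w)) ∂μ, fun y => ?_⟩
  have key : ∀ x, X (x, y) = (X (0, 0) - b * GG 0 + ∫ w, (GG 0 - s w * GG 0) / (-(c w)) ∂μ) +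
      (b + ∫ w, s w / (-(c w)) ∂μ) * GG y -
      ∫ w, Real.exp (-y ^ 2) * Nf (x * c w + y * s w) / (-(c w)) ∂μ := by
    intro x
    rw [(explicit h (hneg.mono fun w hw => hw.ne) x y).1]
    have e1 : ∫ w, XX (c w) (s w) x y ∂μ = ∫ w, (GG 0 - s w * GG 0) / (-(c w)) ∂μ +
        (∫ w, s w / (-(c w)) ∂μ) * GG y -
        ∫ w, Real.exp (-y ^ 2) * Nf (x * c w + y * s w) / (-(c w)) ∂μ := by
      have e0 : Integrable (fun w => (GG 0 - s w * GG 0) / (-(c w)) +
        s w / (-(c w)) * GG y) μ := i1.add (i2.mul_const _)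
      rw [← integral_mul_const, ← integral_add i1 (i2.mul_const _), ← integral_sub e0 (i3 x y)]
      congr 1; ext w
      rw [XX]
      ring
    rw [e1]; ring
  constructor
  · intro x
    rw [key x]
    have : 0 ≤ ∫ w, Real.exp (-y ^ 2) * Nf (x * c w + y * s w) / (-(c w)) ∂μ := by
      apply integral_nonneg_of_ae
      filter_upwards [hneg] with w hw
      have e1 := (Nf_pos (x * c w + y * s w)).le
      have e2 : 0 < -(c w) := by linarith
      simp only [Pi.zero_apply]
      positivity
    linarith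
  · have l1 : Tendsto (fun n : ℕ => ∫ w, Real.exp (-y ^ 2) * Nf (n * c w + y * s w) / (-(c w)) ∂μ)
        atTop (𝓝 (∫ w, (0 : ℝ) ∂μ)) := by
      apply tendsto_integral_of_dominated_convergence
        (fun w => Real.exp (-y ^ 2) * Nf (0 * c w + |y| * 1) * |1 / (-(c w))|)
      · intro n; exact (i3 n y).aestronglyMeasurable
      · simp only [zero_mul, zero_add, mul_one]
        exact hint.abs.const_mul _
      · intro n
        filter_upwards [hneg] with w hw
        have e1 := (Nf_pos (n * c w + y * s w)).le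
        have e2 : 0 < -(c w) := by linarith
        have e5 : |1 / (-(c w))| = 1 / (-(c w)) := abs_of_nonneg (by positivity)
        rw [e5, Real.norm_eq_abs, abs_of_nonneg (by positivity), mul_one_div]
        apply div_le_div_of_nonneg_right _ e2.le
        apply mul_le_mul_of_nonneg_left _ (Real.exp_pos _).le
        apply Nf_mono
        have e3 : y * s w ≤ |y| := by
          have := le_abs_self (y * s w)
          rw [abs_mul] at this
          nlinarith [abs_s h w, abs_nonneg y]
        have e4 : (n : ℝ) * c w ≤ 0 := mul_nonpos_of_nonneg_of_nonpos (Nat.cast_nonneg n) hw.le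
        linarith
      · filter_upwards [hneg] with w hw
        have l2 : Tendsto (fun n : ℕ => Nf (n * c w + y * s w)) atTop (𝓝 0) := by
          apply Nf_atBot.comp
          apply tendsto_atBot_add_const_right
          exact Tendsto.atTop_mul_const_of_neg hw tendsto_natCast_atTop_atTop
        have l3 := (l2.const_mul (Real.exp (-y ^ 2))).div_const (-(c w))
        simpa using l3
    rw [integral_zero] at l1
    have l2 := l1.const_sub ((X (0, 0) - b * GG 0 + ∫ w, (GG 0 - s w * GG 0) / (-(c w)) ∂μ) +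
      (b + ∫ w, s w / (-(c w)) ∂μ) * GG y)
    rw [sub_zero] at l2
    exact l2.congr fun n => (key n).symm

theorem ordConn_X (h : Sys μ c s b X Y) (k : ℝ) : OrdConnected {y | ∃ x, k < X (x, y)} := by
  by_cases hT : ∫⁻ w, (ENNReal.ofReal (-(c w)))⁻¹ ∂μ = ⊤
  · have : {y | ∃ x, k < X (x, y)} = univ := by
      rw [eq_univ_iff_forall]
      intro y
      obtain ⟨n, hn⟩ := ((unbounded_X h hT y).eventually_gt_atTop k).exists
      exact ⟨n, hn⟩
    rw [this]
    exact ordConnected_univ
  · obtain ⟨A, B, hAB⟩ := bounded_X h hT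
    have : {y | ∃ x, k < X (x, y)} = (fun y => A + B * GG y) ⁻¹' Ioi k := by
      ext y
      constructor
      · rintro ⟨x, hx⟩
        exact lt_of_lt_of_le hx ((hAB y).1 x)
      · intro hy
        obtain ⟨n, hn⟩ := ((hAB y).2.eventually (lt_mem_nhds hy)).exists
        exact ⟨n, hn⟩
    rw [this]
    rcases le_total 0 B with hB | hB
    · apply ordConnected_Ioi.preimage_mono
      intro x y hxy
      have := mul_le_mul_of_nonneg_left (GG_mono hxy) hB
      simp only
      linarith
    · apply ordConnected_Ioi.preimage_anti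
      intro x y hxy
      have := mul_le_mul_of_nonpos_left (GG_mono hxy) hB
      simp only
      linarith

theorem conn_X (h : Sys μ c s b X Y) (k : ℝ) : IsPreconnected {q : P | k < X q} :=
  preconn_of_mono h.cX (fun y => mono_X h y) (ordConn_X h k)

theorem conn_X' (h : Sys μ c s b X Y) (k : ℝ) : IsPreconnected {q : P | X q < k} := by
  have h1 := conn_X (h.sgn (s1 := -1) (s2 := 1) (Or.inr rfl) (Or.inl rfl)) (-k)
  have h2 := h1.image (fun q : P => (-q.1, q.2)) (by fun_prop)
  convert h2 using 1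
  ext q
  constructor
  · intro hq
    refine ⟨(-q.1, q.2), ?_, by simp⟩
    have : X q < k := hq
    simp only [mem_ofPred_eq, neg_mul, one_mul, neg_neg]
    linarith
  · rintro ⟨p, hp, rfl⟩
    have hp' : -k < -1 * X (-1 * p.1, 1 * p.2) := hp
    simp only [neg_mul, one_mul] at hp'
    show X (-p.1, p.2) < k
    linarith

theorem conn_swap {f : P → ℝ} {S : Set ℝ} (h : IsPreconnected {q : P | f (q.2, q.1) ∈ S}) :
    IsPreconnected {q : P | f q ∈ S} := by
  have h2 := h.image (fun q : P => (q.2, q.1)) (by fun_prop)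
  convert h2 using 1
  ext q
  constructor
  · intro hq
    exact ⟨(q.2, q.1), hq, rfl⟩
  · rintro ⟨p, hp, rfl⟩
    exact hp

theorem conn_Y (h : Sys μ c s b X Y) (k : ℝ) : IsPreconnected {q : P | k < Y q} :=
  conn_swap (f := Y) (S := Ioi k) (conn_X h.swap k)

theorem conn_Y' (h : Sys μ c s b X Y) (k : ℝ) : IsPreconnected {q : P | Y q < k} :=
  conn_swap (f := Y) (S := Iio k) (conn_X' h.swap k)

theorem sys_of_typeII {h0 b : ℝ} {M : Measure ℝ} {F : P → P} (hF : TypeII h0 b M F) :
    Sys M cos sin b (fun q => (F q).1) (fun q => Real.exp h0 * (F q).2) where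
  fin := hF.fin
  mc := Real.measurable_cos
  ms := Real.measurable_sin
  cs := fun w => Real.cos_sq_add_sin_sq w
  nz := hF.nz
  cX := continuous_fst.comp hF.diff.continuous
  cY := continuous_const.mul (continuous_snd.comp hF.diff.continuous)
  dX := by
    intro u v u' v' t hu hv
    have h1 := (hF.diff (u t, v t)).hasFDerivAt.comp_hasDerivAt t (hu.prodMk hv)
    rw [hF.dF] at h1
    exact (ContinuousLinearMap.fst ℝ ℝ ℝ).hasFDerivAt.comp_hasDerivAt t h1
  dY := by
    intro u v u' v' t hu hv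
    have h1 := (hF.diff (u t, v t)).hasFDerivAt.comp_hasDerivAt t (hu.prodMk hv)
    rw [hF.dF] at h1
    have h2 := ((ContinuousLinearMap.snd ℝ ℝ ℝ).hasFDerivAt.comp_hasDerivAt t h1).const_mul
      (Real.exp h0)
    refine h2.congr_deriv ?_
    have h3 : Real.exp h0 * Real.exp (-h0 - u t ^ 2) = Real.exp (-(u t) ^ 2) := by
      rw [← Real.exp_add]; congr 1; ring
    show Real.exp h0 * (Real.exp (-h0 - u t ^ 2) * (W2 M (u t, v t) * v' - K2 b M (u t, v t) * u')) =
      Real.exp (-(u t) ^ 2) * (W2 M (u t, v t) * v' - K2 b M (u t, v t) * u')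
    rw [← mul_assoc, h3]

theorem contDiff_typeII {h0 b : ℝ} {M : Measure ℝ} {F : P → P} (hF : TypeII h0 b M F) :
    ContDiff ℝ 1 F := by
  have := hF.fin
  have cW : Continuous (W2 M) := (W2_smooth M hF.supp).continuous
  have cK : Continuous (K2 b M) := (K2_smooth b M hF.supp).continuous
  refine C3.contDiff_one_of_dF hF.diff fun y => ?_
  have : (fun q => fderiv ℝ F q y) = fun q =>
    (Real.exp (-q.2 ^ 2) * (W2 M q * y.1 + K2 b M q * y.2),
    Real.exp (-h0 - q.1 ^ 2) * (W2 M q * y.2 - K2 b M q * y.1)) := funext fun q => hF.dF q y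
  rw [this]
  fun_prop

theorem isOpenMap_typeII {h0 b : ℝ} {M : Measure ℝ} {F : P → P} (hF : TypeII h0 b M F) :
    IsOpenMap F := by
  have := hF.fin
  have hC1 := contDiff_typeII hF
  have hWpos : ∀ q, 0 < W2 M q := by
    intro q
    refine C3.integral_pos_of_pos hF.supp hF.nz (continuous_Th.comp (by fun_prop))
      (fun ν => Th_pos _)
  have hdet : ∀ q, 0 < (fderiv ℝ F q).det := by
    intro q
    rw [C3.det_frame (γ := 0) (a := Real.exp (-q.2 ^ 2) * W2 M q)
      (c := -(Real.exp (-h0 - q.1 ^ 2) * K2 b M q))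
      (b := Real.exp (-q.2 ^ 2) * K2 b M q) (d := Real.exp (-h0 - q.1 ^ 2) * W2 M q)
      (by rw [hF.dF]; apply Prod.ext <;> simp) (by rw [hF.dF]; apply Prod.ext <;> simp)]
    have h5 := hWpos q
    have h6 := Real.exp_pos (-q.2 ^ 2)
    have h7 := Real.exp_pos (-h0 - q.1 ^ 2)
    have : Real.exp (-q.2 ^ 2) * W2 M q * (Real.exp (-h0 - q.1 ^ 2) * W2 M q) -
        Real.exp (-q.2 ^ 2) * K2 b M q * -(Real.exp (-h0 - q.1 ^ 2) * K2 b M q) =
        Real.exp (-q.2 ^ 2) * Real.exp (-h0 - q.1 ^ 2) * (W2 M q ^ 2 + K2 b M q ^ 2) := by ring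
    rw [this]
    positivity
  set F' : P → P ≃L[ℝ] P := fun q =>
    (fderiv ℝ F q).toContinuousLinearEquivOfDetNeZero (hdet q).ne' with hF'
  have hst : ∀ q, HasStrictFDerivAt F (F' q : P →L[ℝ] P) q := by
    intro q
    have h3 : (F' q : P →L[ℝ] P) = fderiv ℝ F q :=
      ContinuousLinearMap.coe_toContinuousLinearEquivOfDetNeZero _ _
    rw [h3]
    exact hC1.contDiffAt.hasStrictFDerivAt (by simp)
  exact isOpenMap_of_hasStrictFDerivAt_equiv hst

end Pool.Agent.EU.D1

namespace Pool.Agent.EU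

open D1 C0

theorem typeII_onto_iff {h0 b : ℝ} {M : Measure ℝ} {F : P → P} (hF : TypeII h0 b M F) :
    Function.Surjective F ↔ OntoII M := by
  have hfin := hF.fin
  have hS := sys_of_typeII hF
  have he := Real.exp_pos h0
  have he2 := Real.exp_pos (-h0)
  have hee : Real.exp (-h0) * Real.exp h0 = 1 := by rw [← Real.exp_add]; simp
  have hgc : ∀ s1 s2 : ℝ, (∫⁻ ν, (ENNReal.ofReal (max (-(s1 * cos ν)) (-(s2 * sin ν))))⁻¹ ∂M) =
      ∫⁻ ν, gc (s1 * cos ν) (s2 * sin ν) ∂M := fun _ _ => rfl
  constructor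
  · intro hsurj s1 s2 h1 h2
    by_contra hcon
    rw [hgc] at hcon
    have hinj : Function.Injective F :=
      (C3.u_of_typeII_aux (v0 := 0) hF hsurj continuous_Th Th_pos
        (W2_smooth M hF.supp).continuous (K2_smooth b M hF.supp).continuous).1
    have hS' := hS.sgn h1 h2
    obtain ⟨R1, hR1⟩ := bounded_diag hS' hcon
    have hcon2 : ∫⁻ ν, gc (s2 * sin ν) (s1 * cos ν) ∂M ≠ ⊤ := by
      have : ∀ x y, gc x y = gc y x := fun x y => by rw [gc, gc, max_comm]
      simp_rw [this (s2 * sin _) (s1 * cos _)]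
      exact hcon
    obtain ⟨R2, hR2⟩ := bounded_diag hS'.swap hcon2
    have a1 : |s1| = 1 := by rcases h1 with h | h <;> rw [h] <;> norm_num
    have a2 : |s2| = 1 := by rcases h2 with h | h <;> rw [h] <;> norm_num
    have hb := bounded_preimage hF.diff.continuous hinj hsurj (isOpenMap_typeII hF)
      (max R1 (Real.exp (-h0) * R2))
    obtain ⟨B, hB⟩ := hb.exists_norm_le
    have hmem : ((s1 * (|B| + 1), s2 * (|B| + 1)) : P) ∈
        {q : P | ‖F q‖ ≤ max R1 (Real.exp (-h0) * R2)} := by
      have hr : (0 : ℝ) ≤ |B| + 1 := by positivity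
      have k1 := hR1 _ hr
      have k2 := hR2 _ hr
      simp only [abs_mul, a1, a2, one_mul, abs_of_pos he] at k1 k2
      show ‖F (s1 * (|B| + 1), s2 * (|B| + 1))‖ ≤ _
      rw [Prod.norm_def, Real.norm_eq_abs, Real.norm_eq_abs]
      apply max_le_max k1
      have k3 := mul_le_mul_of_nonneg_left k2 he2.le
      rw [← mul_assoc, hee, one_mul] at k3
      exact k3
    have h3 := hB _ hmem
    rw [Prod.norm_def] at h3
    have h4 : |s1 * (|B| + 1)| ≤ B := (le_max_left _ _).trans h3
    rw [abs_mul, a1, one_mul, abs_of_nonneg (by positivity)] at h4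
    linarith [le_abs_self B]
  · intro hO
    have key : ∀ s1 s2 : ℝ, (s1 = 1 ∨ s1 = -1) → (s2 = 1 ∨ s2 = -1) → ∀ N : ℝ,
        ∃ q, N < s1 * (F q).1 ∧ N < s2 * (F q).2 := by
      intro s1 s2 h1 h2 N
      have hT := hO s1 s2 h1 h2
      rw [hgc] at hT
      obtain ⟨q, hq1, hq2⟩ := quad0 (hS.sgn h1 h2) hT (max N (Real.exp h0 * N))
      refine ⟨(s1 * q.1, s2 * q.2), lt_of_le_of_lt (le_max_left _ _) hq1, ?_⟩
      have h3 := lt_of_le_of_lt (le_max_right _ _) hq2
      have h4 : Real.exp h0 * N < Real.exp h0 * (s2 * (F (s1 * q.1, s2 * q.2)).2) := by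
        linarith
      exact lt_of_mul_lt_mul_left h4 he.le
    refine onto_of_quadrants hF.diff.continuous (fun c => conn_X hS c) (fun c => conn_X' hS c)
      (fun c => ?_) (fun c => ?_) ?_ ?_ ?_ ?_
    · have := conn_Y hS (Real.exp h0 * c)
      convert this using 1
      ext q
      exact (mul_lt_mul_iff_right₀ he).symm
    · have := conn_Y' hS (Real.exp h0 * c)
      convert this using 1
      ext q
      exact (mul_lt_mul_iff_right₀ he).symm
    · intro N
      obtain ⟨q, h1, h2⟩ := key 1 1 (Or.inl rfl) (Or.inl rfl) N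
      exact ⟨q, by linarith, by linarith⟩
    · intro N
      obtain ⟨q, h1, h2⟩ := key (-1) 1 (Or.inr rfl) (Or.inl rfl) N
      exact ⟨q, by linarith, by linarith⟩
    · intro N
      obtain ⟨q, h1, h2⟩ := key (-1) (-1) (Or.inr rfl) (Or.inr rfl) N
      exact ⟨q, by linarith, by linarith⟩
    · intro N
      obtain ⟨q, h1, h2⟩ := key 1 (-1) (Or.inl rfl) (Or.inr rfl) N
      exact ⟨q, by linarith, by linarith⟩

end Pool.Agent.EU
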