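import Pool.Agent.EU.Types

/-!
The criteria for surjectivity of the maps `F` of the two families.
-/

set_option autoImplicit false
open scoped ContDiff Topology ENNReal
open Real Set MeasureTheory Filter

namespace Pool.Agent.EU

/-- criterion for the second family: for each of the four closed quadrant arcs of the circle, the
integral of `1 / (distance to the arc)` against `M` is infinite. -/
def OntoII (M : Measure ℝ) : Prop :=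
  ∀ s1 s2 : ℝ, (s1 = 1 ∨ s1 = -1) → (s2 = 1 ∨ s2 = -1) →
    ∫⁻ ν, (ENNReal.ofReal (max (-(s1 * cos ν)) (-(s2 * sin ν))))⁻¹ ∂M = ⊤

/-- `cos φ cos (φ - γ)`, `φ = ν / 2` -/
noncomputable def chX (γ ν : ℝ) : ℝ := cos (ν / 2) * cos (ν / 2 - γ)

/-- `sin φ cos (φ - γ)`, `φ = ν / 2` -/
noncomputable def chY (γ ν : ℝ) : ℝ := sin (ν / 2) * cos (ν / 2 - γ)

/-- the reduced constant `b' = b - ∫ tan (φ - γ) dM` (used only if the integral converges) -/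
noncomputable def bp (γ b : ℝ) (M : Measure ℝ) : ℝ := b - ∫ ν, tan (ν / 2 - γ) ∂M

/-- criterion for the first family, `γ = 0` -/
structure OntoI0 (b : ℝ) (M : Measure ℝ) : Prop where
  h1 : ∫⁻ ν, (ENNReal.ofReal (chX 0 ν))⁻¹ ∂M = ⊤ ∨ bp 0 b M ≠ 0
  h2 : ∫⁻ ν, (ENNReal.ofReal (chY 0 ν))⁻¹ ∂M = ⊤ ∨ bp 0 b M < 0
  h3 : ∫⁻ ν, (ENNReal.ofReal (-(chY 0 ν)))⁻¹ ∂M = ⊤ ∨ 0 < bp 0 b M

/-- criterion for the first family, `0 < γ < π / 2` -/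
structure OntoIpos (γ b : ℝ) (M : Measure ℝ) : Prop where
  h1 : ∫⁻ ν, (ENNReal.ofReal (chX γ ν))⁻¹ ∂M = ⊤ ∨ 0 < bp γ b M
  h2 : ∫⁻ ν, (ENNReal.ofReal (chY γ ν))⁻¹ ∂M = ⊤ ∨ bp γ b M < 0
  h3 : ∫⁻ ν in {ν | cos (ν / 2 - γ) ≠ 0},
    (ENNReal.ofReal (max (-(chX γ ν)) (-(chY γ ν)) / |cos (ν / 2 - γ)|))⁻¹ ∂M = ⊤

/-- `(E - 1) / cos φ`, `E = exp (cos φ (q · φ))`, singularity removed -/
noncomputable def kx (φ : ℝ) (q : P) : ℝ :=
  (q.1 * cos φ + q.2 * sin φ) * ∫ r in (0:ℝ)..1, Real.exp (r * (cos φ * (q.1 * cos φ + q.2 * sin φ)))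

/-- `(e^{-q₁} E - 1) / sin φ`, singularity removed -/
noncomputable def ky (φ : ℝ) (q : P) : ℝ :=
  (-(q.1 * sin φ) + q.2 * cos φ) *
    ∫ r in (0:ℝ)..1, Real.exp (r * (sin φ * (-(q.1 * sin φ) + q.2 * cos φ)))

/-- `∫₀^τ e^{-t sin γ} dt` -/
noncomputable def gt (a τ : ℝ) : ℝ := ∫ t in (0:ℝ)..τ, Real.exp (-(t * a))

end Pool.Agent.EU
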