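import Pool.Agent.EU.C012
import Pool.Agent.EU.OntoDefs

/-!
Part D2a: algebra of the kernels, formulas for the first family.
-/

set_option autoImplicit false
open scoped ContDiff Topology ENNReal
open Real Set MeasureTheory Filter

namespace Pool.Agent.EU.D2a

open Pool.Agent.EU Pool.Agent.EU.C0

theorem kx_eq (φ : ℝ) (q : P) : kx φ q = (q.1 * cos φ + q.2 * sin φ) *
    hh ((q.1 * cos φ + q.2 * sin φ) * cos φ) := by
  rw [kx, hh, mul_comm (cos φ)]

theorem ky_eq (φ : ℝ) (q : P) : ky φ q = (-(q.1 * sin φ) + q.2 * cos φ) *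
    hh ((-(q.1 * sin φ) + q.2 * cos φ) * sin φ) := by
  rw [ky, hh, mul_comm (sin φ)]

theorem smooth_kx : ContDiff ℝ ∞ (fun x : ℝ × P => kx (x.1 / 2) x.2) := by
  have : (fun x : ℝ × P => kx (x.1 / 2) x.2) = fun x : ℝ × P =>
      (x.2.1 * cos (x.1 / 2) + x.2.2 * sin (x.1 / 2)) *
      hh ((x.2.1 * cos (x.1 / 2) + x.2.2 * sin (x.1 / 2)) * cos (x.1 / 2)) := by
    ext x; exact kx_eq _ _
  rw [this]
  have := smooth_hh
  fun_prop

theorem smooth_ky : ContDiff ℝ ∞ (fun x : ℝ × P => ky (x.1 / 2) x.2) := by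
  have : (fun x : ℝ × P => ky (x.1 / 2) x.2) = fun x : ℝ × P =>
      (-(x.2.1 * sin (x.1 / 2)) + x.2.2 * cos (x.1 / 2)) *
      hh ((-(x.2.1 * sin (x.1 / 2)) + x.2.2 * cos (x.1 / 2)) * sin (x.1 / 2)) := by
    ext x; exact ky_eq _ _
  rw [this]
  have := smooth_hh
  fun_prop

theorem trig (ν : ℝ) : cos ν = 2 * cos (ν / 2) ^ 2 - 1 ∧ sin ν = 2 * sin (ν / 2) * cos (ν / 2) := by
  have hν : ν = 2 * (ν / 2) := by ring
  constructor
  · conv_lhs => rw [hν]
    exact Real.cos_two_mul _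
  · conv_lhs => rw [hν]
    exact Real.sin_two_mul _

theorem EE_eq (ν : ℝ) (q : P) :
    EE ν q = Real.exp ((q.1 * cos (ν / 2) + q.2 * sin (ν / 2)) * cos (ν / 2)) := by
  rw [EE]
  congr 1
  obtain ⟨h1, h2⟩ := trig ν
  rw [h1, h2]; ring

theorem EE_eq' (ν : ℝ) (q : P) : Real.exp (-q.1) * EE ν q =
    Real.exp ((-(q.1 * sin (ν / 2)) + q.2 * cos (ν / 2)) * sin (ν / 2)) := by
  rw [EE_eq, ← Real.exp_add]
  congr 1
  have := Real.sin_sq_add_cos_sq (ν / 2)
  linear_combination q.1 * this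

theorem hasFDerivAt_lin (a b : ℝ) (q : P) : HasFDerivAt (fun q : P => q.1 * a + q.2 * b)
    (a • ContinuousLinearMap.fst ℝ ℝ ℝ + b • ContinuousLinearMap.snd ℝ ℝ ℝ) q := by
  have := (a • ContinuousLinearMap.fst ℝ ℝ ℝ + b • ContinuousLinearMap.snd ℝ ℝ ℝ :
    P →L[ℝ] ℝ).hasFDerivAt (x := q)
  refine this.congr_of_eventuallyEq (Eventually.of_forall fun y => ?_)
  simp; ring

theorem fderiv_kx (ν : ℝ) (q h : P) : fderiv ℝ (kx (ν / 2)) q h =
    EE ν q * (h.1 * cos (ν / 2) + h.2 * sin (ν / 2)) := by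
  have h3 : HasFDerivAt (fun q : P => (q.1 * cos (ν / 2) + q.2 * sin (ν / 2)) *
      hh ((q.1 * cos (ν / 2) + q.2 * sin (ν / 2)) * cos (ν / 2))) _ q :=
    HasDerivAt.comp_hasFDerivAt (h₂ := fun s => s * hh (s * cos (ν / 2))) q
      (hasDerivAt_g (cos (ν / 2)) (q.1 * cos (ν / 2) + q.2 * sin (ν / 2)))
      (hasFDerivAt_lin (cos (ν / 2)) (sin (ν / 2)) q)
  have h4 : kx (ν / 2) = fun q : P => (q.1 * cos (ν / 2) + q.2 * sin (ν / 2)) *
      hh ((q.1 * cos (ν / 2) + q.2 * sin (ν / 2)) * cos (ν / 2)) := by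
    ext y; exact kx_eq _ _
  rw [h4, h3.fderiv, EE_eq]
  simp
  ring

theorem fderiv_ky (ν : ℝ) (q h : P) : fderiv ℝ (ky (ν / 2)) q h =
    Real.exp (-q.1) * EE ν q * (-(h.1 * sin (ν / 2)) + h.2 * cos (ν / 2)) := by
  have h3 : HasFDerivAt (fun q : P => (q.1 * (-sin (ν / 2)) + q.2 * cos (ν / 2)) *
      hh ((q.1 * (-sin (ν / 2)) + q.2 * cos (ν / 2)) * sin (ν / 2))) _ q :=
    HasDerivAt.comp_hasFDerivAt (h₂ := fun s => s * hh (s * sin (ν / 2))) q
      (hasDerivAt_g (sin (ν / 2)) (q.1 * (-sin (ν / 2)) + q.2 * cos (ν / 2)))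
      (hasFDerivAt_lin (-sin (ν / 2)) (cos (ν / 2)) q)
  have h4 : ky (ν / 2) = fun q : P => (q.1 * (-sin (ν / 2)) + q.2 * cos (ν / 2)) *
      hh ((q.1 * (-sin (ν / 2)) + q.2 * cos (ν / 2)) * sin (ν / 2)) := by
    ext y; rw [ky_eq]; simp only [mul_neg]
  rw [h4, h3.fderiv, EE_eq']
  simp
  ring

/-- two functions with the same derivative and the same value at `0` -/
theorem eq_of_fderiv {f g : P → ℝ} (hf : Differentiable ℝ f) (hg : Differentiable ℝ g)
    (h : ∀ q h, fderiv ℝ f q h = fderiv ℝ g q h) (h0 : f 0 = g 0) (q : P) : f q = g q := by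
  have h1 : ∀ x, fderiv ℝ (fun q => f q - g q) x = 0 := by
    intro x
    rw [fderiv_fun_sub (hf x) (hg x)]
    refine ContinuousLinearMap.ext fun y => ?_
    rw [_root_.sub_apply, h x y, sub_self]
    rfl
  have h2 := is_const_of_fderiv_eq_zero (𝕜 := ℝ) (f := fun q => f q - g q) (hf.sub hg) h1 q 0
  linarith

section weight

variable {H : Type} [NormedAddCommGroup H] [NormedSpace ℝ H] [ProperSpace H]

/-- differentiation under the integral with an integrable weight -/
theorem hasFDerivAt_weight (M : Measure ℝ) [IsFiniteMeasure M] {a b : ℝ} (hs : M (Icc a b)ᶜ = 0)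
    {f : ℝ → H → ℝ} (hf : ContDiff ℝ ∞ (fun x : ℝ × H => f x.1 x.2)) {w : ℝ → ℝ}
    (hw : Integrable w M) (q : H) :
    Integrable (fun ν => w ν • fderiv ℝ (f ν) q) M ∧ Integrable (fun ν => w ν * f ν q) M ∧
    HasFDerivAt (fun q => ∫ ν, w ν * f ν q ∂M) (∫ ν, w ν • fderiv ℝ (f ν) q ∂M) q := by
  have hf' := smooth_partial hf
  have hcf : ∀ x : H, Continuous (fun ν => f ν x) := fun x =>
    hf.continuous.comp (by fun_prop : Continuous (fun ν : ℝ => ((ν, x) : ℝ × H)))
  have hcf' : ∀ x : H, Continuous (fun ν => fderiv ℝ (f ν) x) := fun x =>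
    hf'.continuous.comp (by fun_prop : Continuous (fun ν : ℝ => ((ν, x) : ℝ × H)))
  obtain ⟨C, hC⟩ := (isCompact_Icc.prod (isCompact_closedBall q 1)).exists_bound_of_continuousOn
    (f := fun x : ℝ × H => fderiv ℝ (f x.1) x.2) (s := Icc a b ×ˢ Metric.closedBall q 1)
    hf'.continuous.continuousOn
  obtain ⟨C0, hC0⟩ := (isCompact_Icc (a := a) (b := b)).exists_bound_of_continuousOn
    (f := fun ν : ℝ => f ν q) (hcf q).continuousOn
  have hint : Integrable (fun ν => w ν * f ν q) M := by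
    refine (hw.norm.mul_const C0).mono' (hw.1.mul (hcf q).aestronglyMeasurable) ?_
    filter_upwards [ae_mem hs] with ν hν
    rw [norm_mul]
    exact mul_le_mul_of_nonneg_left (hC0 ν hν) (norm_nonneg _)
  have hint' : Integrable (fun ν => w ν • fderiv ℝ (f ν) q) M := by
    refine (hw.norm.mul_const C).mono' (hw.1.smul (hcf' q).aestronglyMeasurable) ?_
    filter_upwards [ae_mem hs] with ν hν
    rw [norm_smul]
    exact mul_le_mul_of_nonneg_left (hC (ν, q) ⟨hν, Metric.mem_closedBall_self zero_le_one⟩)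
      (norm_nonneg _)
  refine ⟨hint', hint, ?_⟩
  refine hasFDerivAt_integral_of_dominated_of_fderiv_le (𝕜 := ℝ) (F := fun x ν => w ν * f ν x)
    (F' := fun x ν => w ν • fderiv ℝ (f ν) x) (bound := fun ν => ‖w ν‖ * C)
    (Metric.ball_mem_nhds q one_pos) ?_ hint ?_ ?_ (hw.norm.mul_const C) ?_
  · exact Eventually.of_forall fun x => hw.1.mul (hcf x).aestronglyMeasurable
  · exact hw.1.smul (hcf' q).aestronglyMeasurable
  · filter_upwards [ae_mem hs] with ν hν x hx
    rw [norm_smul]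
    exact mul_le_mul_of_nonneg_left (hC (ν, x) ⟨hν, Metric.ball_subset_closedBall hx⟩)
      (norm_nonneg _)
  · refine Eventually.of_forall fun ν x _ => ?_
    have h1 : ContDiff ℝ ∞ (f ν) :=
      hf.comp (contDiff_const.prodMk contDiff_id : ContDiff ℝ ∞ (fun y : H => ((ν, y) : ℝ × H)))
    exact ((h1.differentiable (by simp)) x).hasFDerivAt.const_mul (w ν)

end weight

theorem kk_zero (γ ν : ℝ) : kk γ ν 0 = 0 := by
  rw [kk_eq]; simp [sg, ta]

theorem kx_zero (φ : ℝ) : kx φ 0 = 0 := by rw [kx_eq]; simp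

theorem ky_zero (φ : ℝ) : ky φ 0 = 0 := by rw [ky_eq]; simp

theorem K1_zero (γ b : ℝ) (M : Measure ℝ) : K1 γ b M 0 = b := by
  simp [K1, kk_zero, ta]

theorem fderiv_F1 {γ b : ℝ} {M : Measure ℝ} {F : P → P} (hF : TypeI γ b M F) (q h : P) :
    fderiv ℝ (fun q => (F q).1) q h = W1 M q * sg γ h + K1 γ b M q * ta γ h := by
  have := (hF.diff q).hasFDerivAt.fst.fderiv
  rw [this]
  show (fderiv ℝ F q h).1 = _
  rw [hF.dF]

theorem fderiv_F2 {γ b : ℝ} {M : Measure ℝ} {F : P → P} (hF : TypeI γ b M F) (q h : P) :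
    fderiv ℝ (fun q => (F q).2) q h =
      Real.exp (-q.1) * (W1 M q * ta γ h - K1 γ b M q * sg γ h) := by
  have := (hF.diff q).hasFDerivAt.snd.fderiv
  rw [this]
  show (fderiv ℝ F q h).2 = _
  rw [hF.dF]

theorem diff_F1 {γ b : ℝ} {M : Measure ℝ} {F : P → P} (hF : TypeI γ b M F) :
    Differentiable ℝ fun q => (F q).1 := fun q => (hF.diff q).fst

theorem diff_F2 {γ b : ℝ} {M : Measure ℝ} {F : P → P} (hF : TypeI γ b M F) :
    Differentiable ℝ fun q => (F q).2 := fun q => (hF.diff q).snd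

/-- coordinates of `h` -/
theorem coord (γ : ℝ) (h : P) : h.1 = sg γ h * cos γ - ta γ h * sin γ ∧
    h.2 = sg γ h * sin γ + ta γ h * cos γ := by
  have := Real.sin_sq_add_cos_sq γ
  constructor
  · unfold sg ta; linear_combination (-h.1) * this
  · unfold sg ta; linear_combination (-h.2) * this

theorem smooth_skx : ContDiff ℝ ∞ (fun x : ℝ × P => sin (x.1 / 2) * kx (x.1 / 2) x.2) := by
  have := smooth_kx
  fun_prop

theorem smooth_cky : ContDiff ℝ ∞ (fun x : ℝ × P => cos (x.1 / 2) * ky (x.1 / 2) x.2) := by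
  have := smooth_ky
  fun_prop

theorem diff_of_smooth {f : ℝ → P → ℝ} (hf : ContDiff ℝ ∞ (fun x : ℝ × P => f x.1 x.2)) (ν : ℝ) :
    Differentiable ℝ (f ν) := by
  have h1 : ContDiff ℝ ∞ (f ν) :=
    hf.comp (contDiff_const.prodMk contDiff_id : ContDiff ℝ ∞ (fun y : P => ((ν, y) : ℝ × P)))
  exact h1.differentiable (by simp)

theorem int_EE (M : Measure ℝ) [IsFiniteMeasure M] (hs : M (Icc (-π) π)ᶜ = 0) (q : P) :
    Integrable (fun ν => EE ν q) M := (hasFDerivAt_param M hs smooth_EE q).2.1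

/-- `EE` times a continuous function of `ν` -/
theorem int_EE_mul (M : Measure ℝ) [IsFiniteMeasure M] (hs : M (Icc (-π) π)ᶜ = 0) (q : P)
    {f : ℝ → ℝ} (hf : Continuous f) : Integrable (fun ν => f ν * EE ν q) M := by
  have hc : Continuous fun ν => f ν * EE ν q := by
    have : Continuous fun ν => EE ν q := by unfold EE; fun_prop
    fun_prop
  obtain ⟨C, hC⟩ := (isCompact_Icc (a := -π) (b := π)).exists_bound_of_continuousOn
    hc.continuousOn
  refine Integrable.of_bound hc.aestronglyMeasurable C ?_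
  filter_upwards [ae_mem hs] with ν hν using hC ν hν

end Pool.Agent.EU.D2a

namespace Pool.Agent.EU

open C0 D2a

theorem cos_mul_kx (φ : ℝ) (q : P) :
    cos φ * kx φ q = Real.exp (cos φ * (q.1 * cos φ + q.2 * sin φ)) - 1 := by
  have := hh_mul ((q.1 * cos φ + q.2 * sin φ) * cos φ)
  rw [kx_eq, mul_comm (cos φ) (q.1 * cos φ + q.2 * sin φ), ← this]; ring

theorem sin_mul_ky (φ : ℝ) (q : P) :
    sin φ * ky φ q = Real.exp (sin φ * (-(q.1 * sin φ) + q.2 * cos φ)) - 1 := by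
  have := hh_mul ((-(q.1 * sin φ) + q.2 * cos φ) * sin φ)
  rw [ky_eq, mul_comm (sin φ) (-(q.1 * sin φ) + q.2 * cos φ), ← this]; ring

theorem cos_mul_kk (γ ν : ℝ) (q : P) :
    cos (ν / 2 - γ) * kk γ ν q =
      sin (ν / 2 - γ) * (EE ν q - Real.exp (-(ta γ q * sin γ))) := by
  have := hh_mul ((sg γ q * cos (ν / 2) + ta γ q * sin (ν / 2)) * cos (ν / 2 - γ))
  rw [kk_eq, ← exp_identity γ ν q]
  linear_combination (sin (ν / 2 - γ) * Real.exp (-(ta γ q * sin γ))) * this

/-- integrability of all the kernels (finite compactly supported `M`) -/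
theorem integrable_kernels {γ : ℝ} {M : Measure ℝ} [IsFiniteMeasure M] (hs : M (Icc (-π) π)ᶜ = 0)
    (q : P) : Integrable (fun ν => EE ν q) M ∧ Integrable (fun ν => kk γ ν q) M ∧
      Integrable (fun ν => kx (ν / 2) q) M ∧ Integrable (fun ν => ky (ν / 2) q) M :=
  ⟨(hasFDerivAt_param M hs smooth_EE q).2.1, (hasFDerivAt_param M hs (smooth_kk γ) q).2.1,
    (hasFDerivAt_param (f := fun ν q => kx (ν / 2) q) M hs smooth_kx q).2.1,
    (hasFDerivAt_param (f := fun ν q => ky (ν / 2) q) M hs smooth_ky q).2.1⟩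

theorem typeI_star1 {γ b : ℝ} {M : Measure ℝ} {F : P → P} (hF : TypeI γ b M F) (q : P) :
    sin γ * ((F q).1 - (F 0).1) =
      -(K1 γ b M q) + b + ∫ ν, sin (ν / 2) * kx (ν / 2) q ∂M := by
  have hfin := hF.fin
  have hs := hF.supp
  have hK : Differentiable ℝ (K1 γ b M) := (K1_smooth γ b M hs).differentiable (by simp)
  have hI : ∀ q, HasFDerivAt (fun q => ∫ ν, sin (ν / 2) * kx (ν / 2) q ∂M) _ q := fun q =>
    (hasFDerivAt_param (f := fun ν q => sin (ν / 2) * kx (ν / 2) q) M hs smooth_skx q).2.2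
  refine eq_of_fderiv (f := fun q => sin γ * ((F q).1 - (F 0).1))
    (g := fun q => -(K1 γ b M q) + b + ∫ ν, sin (ν / 2) * kx (ν / 2) q ∂M)
    (((diff_F1 hF).sub_const _).const_mul _)
    ((hK.neg.add_const b).add fun q => (hI q).differentiableAt) ?_ ?_ q
  · intro q h
    have e1 : HasFDerivAt (fun q => sin γ * ((F q).1 - (F 0).1))
      (sin γ • fderiv ℝ (fun q => (F q).1) q) q :=
      ((diff_F1 hF q).hasFDerivAt.sub_const _).const_mul _
    have e2 : HasFDerivAt (fun q => -(K1 γ b M q) + b + ∫ ν, sin (ν / 2) * kx (ν / 2) q ∂M)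
      (-(fderiv ℝ (K1 γ b M) q) + fderiv ℝ (fun q => ∫ ν, sin (ν / 2) * kx (ν / 2) q ∂M) q) q :=
      ((hK q).hasFDerivAt.neg.add_const b).add (hI q).differentiableAt.hasFDerivAt
    rw [e1.fderiv, e2.fderiv, _root_.smul_apply, _root_.add_apply, _root_.neg_apply, fderiv_F1 hF,
      fderiv_K1 γ b M hs, fderiv_param_apply (f := fun ν q => sin (ν / 2) * kx (ν / 2) q) M hs
      smooth_skx, smul_eq_mul]
    have d1 : ∀ ν, fderiv ℝ (fun q => sin (ν / 2) * kx (ν / 2) q) q h =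
        sin (ν / 2) * (EE ν q * (h.1 * cos (ν / 2) + h.2 * sin (ν / 2))) := by
      intro ν
      have := ((diff_of_smooth (f := fun ν q => kx (ν / 2) q) smooth_kx ν) q).hasFDerivAt.const_mul
        (sin (ν / 2))
      rw [this.fderiv, _root_.smul_apply, smul_eq_mul]
      rw [fderiv_kx]
    simp only [d1, fderiv_kk]
    obtain ⟨c1, c2⟩ := coord γ h
    have i1 : Integrable (fun ν => sin γ * sg γ h * EE ν q) M := (int_EE M hs q).const_mul _
    have i2 : Integrable (fun ν => -(sin γ) * ta γ h * kk γ ν q) M :=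
      ((integrable_kernels (γ := γ) hs q).2.1).const_mul _
    have i3 : Integrable (fun ν => sin (ν / 2 - γ) * EE ν q *
        (sg γ h * cos (ν / 2) + ta γ h * sin (ν / 2))) M := by
      refine (int_EE_mul M hs q (f := fun ν => sin (ν / 2 - γ) *
        (sg γ h * cos (ν / 2) + ta γ h * sin (ν / 2))) (by fun_prop)).congr
        (Eventually.of_forall fun ν => ?_)
      simp only; ring
    have e3 : ∫ ν, sin (ν / 2) * (EE ν q * (h.1 * cos (ν / 2) + h.2 * sin (ν / 2))) ∂M =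
        ∫ ν, sin γ * sg γ h * EE ν q ∂M + ∫ ν, sin (ν / 2 - γ) * EE ν q *
        (sg γ h * cos (ν / 2) + ta γ h * sin (ν / 2)) ∂M := by
      rw [← integral_add i1 i3]
      refine integral_congr_ae (Eventually.of_forall fun ν => ?_)
      simp only
      rw [c1, c2, Real.sin_sub]
      have h1 := Real.sin_sq_add_cos_sq (ν / 2)
      linear_combination (EE ν q * sin γ * sg γ h) * h1
    rw [e3, integral_add i2 i3, integral_const_mul, integral_const_mul]
    have e4 : K1 γ b M q = b * Real.exp (-(ta γ q * sin γ)) + ∫ ν, kk γ ν q ∂M := rfl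
    have e5 : W1 M q = ∫ ν, EE ν q ∂M := rfl
    rw [e4, e5]; ring
  · simp [K1_zero, kx_zero]

theorem typeI_star2 {γ b : ℝ} {M : Measure ℝ} {F : P → P} (hF : TypeI γ b M F) (q : P) :
    cos γ * ((F q).2 - (F 0).2) =
      Real.exp (-q.1) * K1 γ b M q - b + ∫ ν, cos (ν / 2) * ky (ν / 2) q ∂M := by
  have hfin := hF.fin
  have hs := hF.supp
  have hK : Differentiable ℝ (K1 γ b M) := (K1_smooth γ b M hs).differentiable (by simp)
  have hI : ∀ q, HasFDerivAt (fun q => ∫ ν, cos (ν / 2) * ky (ν / 2) q ∂M) _ q := fun q =>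
    (hasFDerivAt_param (f := fun ν q => cos (ν / 2) * ky (ν / 2) q) M hs smooth_cky q).2.2
  have hE : ∀ q : P, HasFDerivAt (fun q : P => Real.exp (-q.1))
      (Real.exp (-q.1) • (-ContinuousLinearMap.fst ℝ ℝ ℝ)) q := fun q =>
    hasFDerivAt_fst.neg.exp
  refine eq_of_fderiv (f := fun q => cos γ * ((F q).2 - (F 0).2))
    (g := fun q => Real.exp (-q.1) * K1 γ b M q - b + ∫ ν, cos (ν / 2) * ky (ν / 2) q ∂M)
    (((diff_F2 hF).sub_const _).const_mul _)
    (((Differentiable.mul (fun q => (hE q).differentiableAt) hK).sub_const b).add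
      fun q => (hI q).differentiableAt) ?_ ?_ q
  · intro q h
    have e1 : HasFDerivAt (fun q => cos γ * ((F q).2 - (F 0).2))
      (cos γ • fderiv ℝ (fun q => (F q).2) q) q :=
      ((diff_F2 hF q).hasFDerivAt.sub_const _).const_mul _
    have e2 : HasFDerivAt (fun q => Real.exp (-q.1) * K1 γ b M q - b +
        ∫ ν, cos (ν / 2) * ky (ν / 2) q ∂M)
      ((Real.exp (-q.1) • fderiv ℝ (K1 γ b M) q +
        K1 γ b M q • (Real.exp (-q.1) • (-ContinuousLinearMap.fst ℝ ℝ ℝ))) +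
        fderiv ℝ (fun q => ∫ ν, cos (ν / 2) * ky (ν / 2) q ∂M) q) q :=
      (((hE q).mul (hK q).hasFDerivAt).sub_const b).add (hI q).differentiableAt.hasFDerivAt
    rw [e1.fderiv, e2.fderiv]
    simp only [_root_.smul_apply, _root_.add_apply, _root_.neg_apply, fderiv_F2 hF,
      fderiv_K1 γ b M hs, smul_eq_mul]
    rw [fderiv_param_apply (f := fun ν q => cos (ν / 2) * ky (ν / 2) q) M hs
      smooth_cky]
    have d1 : ∀ ν, fderiv ℝ (fun q => cos (ν / 2) * ky (ν / 2) q) q h =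
        cos (ν / 2) * (Real.exp (-q.1) * EE ν q *
          (-(h.1 * sin (ν / 2)) + h.2 * cos (ν / 2))) := by
      intro ν
      have := ((diff_of_smooth (f := fun ν q => ky (ν / 2) q) smooth_ky ν) q).hasFDerivAt.const_mul
        (cos (ν / 2))
      rw [this.fderiv, _root_.smul_apply, smul_eq_mul]
      rw [fderiv_ky]
    simp only [d1, fderiv_kk]
    obtain ⟨c1, c2⟩ := coord γ h
    have i1 : Integrable (fun ν => Real.exp (-q.1) * cos γ * ta γ h * EE ν q) M :=
      (int_EE M hs q).const_mul _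
    have i2 : Integrable (fun ν => -(sin γ) * ta γ h * kk γ ν q) M :=
      ((integrable_kernels (γ := γ) hs q).2.1).const_mul _
    have i3 : Integrable (fun ν => sin (ν / 2 - γ) * EE ν q *
        (sg γ h * cos (ν / 2) + ta γ h * sin (ν / 2))) M := by
      refine (int_EE_mul M hs q (f := fun ν => sin (ν / 2 - γ) *
        (sg γ h * cos (ν / 2) + ta γ h * sin (ν / 2))) (by fun_prop)).congr
        (Eventually.of_forall fun ν => ?_)
      simp only; ring
    have e3 : ∫ ν, cos (ν / 2) * (Real.exp (-q.1) * EE ν q *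
          (-(h.1 * sin (ν / 2)) + h.2 * cos (ν / 2))) ∂M =
        ∫ ν, Real.exp (-q.1) * cos γ * ta γ h * EE ν q ∂M -
        Real.exp (-q.1) * ∫ ν, sin (ν / 2 - γ) * EE ν q *
        (sg γ h * cos (ν / 2) + ta γ h * sin (ν / 2)) ∂M := by
      rw [← integral_const_mul, ← integral_sub i1 (i3.const_mul _)]
      refine integral_congr_ae (Eventually.of_forall fun ν => ?_)
      simp only
      rw [c1, c2, Real.sin_sub]
      have h1 := Real.sin_sq_add_cos_sq (ν / 2)
      linear_combination (Real.exp (-q.1) * EE ν q * cos γ * ta γ h) * h1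
    rw [e3, integral_add i2 i3, integral_const_mul, integral_const_mul]
    have e4 : K1 γ b M q = b * Real.exp (-(ta γ q * sin γ)) + ∫ ν, kk γ ν q ∂M := rfl
    have e5 : W1 M q = ∫ ν, EE ν q ∂M := rfl
    have e6 : (ContinuousLinearMap.fst ℝ ℝ ℝ) h = h.1 := rfl
    rw [e4, e5, e6, c1]; ring
  · simp [K1_zero, ky_zero]

end Pool.Agent.EU

namespace Pool.Agent.EU.D2a

open Pool.Agent.EU Pool.Agent.EU.C0

/-- the inverse cosine is integrable -/
theorem int_inv_cos {γ : ℝ} {M : Measure ℝ}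
    (h0 : ∫⁻ ν, (ENNReal.ofReal |cos (ν / 2 - γ)|)⁻¹ ∂M ≠ ⊤) :
    Integrable (fun ν => (cos (ν / 2 - γ))⁻¹) M ∧ ∀ᵐ ν ∂M, cos (ν / 2 - γ) ≠ 0 := by
  have hm : Measurable fun ν : ℝ => cos (ν / 2 - γ) := by fun_prop
  have hmm : Measurable fun ν : ℝ => (ENNReal.ofReal |cos (ν / 2 - γ)|)⁻¹ := by fun_prop
  refine ⟨⟨hm.inv.aestronglyMeasurable, ?_⟩, ?_⟩
  · refine lt_of_le_of_lt (lintegral_mono fun ν => ?_) (lt_top_iff_ne_top.mpr h0)
    by_cases hc : cos (ν / 2 - γ) = 0
    · simp [hc]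
    · have hpos : 0 < |cos (ν / 2 - γ)| := abs_pos.mpr hc
      rw [← ENNReal.ofReal_inv_of_pos hpos, ← ofReal_norm, norm_inv, Real.norm_eq_abs]
  · have := ae_lt_top hmm h0
    filter_upwards [this] with ν hν hc
    simp [hc] at hν

theorem int_weight {M : Measure ℝ} (hs : M (Icc (-π) π)ᶜ = 0) {w f : ℝ → ℝ}
    (hw : Integrable w M) (hf : Continuous f) : Integrable (fun ν => w ν * f ν) M := by
  obtain ⟨C, hC⟩ := (isCompact_Icc (a := -π) (b := π)).exists_bound_of_continuousOn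
    hf.continuousOn
  refine (hw.norm.mul_const C).mono' (hw.1.mul hf.aestronglyMeasurable) ?_
  filter_upwards [ae_mem hs] with ν hν
  rw [norm_mul]
  exact mul_le_mul_of_nonneg_left (hC ν hν) (norm_nonneg _)

theorem hasDerivAt_gt (a τ : ℝ) : HasDerivAt (gt a) (Real.exp (-(τ * a))) τ := by
  have hc : Continuous fun t : ℝ => Real.exp (-(t * a)) := by fun_prop
  exact intervalIntegral.integral_hasDerivAt_right (hc.intervalIntegrable _ _)
    (hc.stronglyMeasurableAtFilter _ _) hc.continuousAt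

theorem cont_EE (q : P) : Continuous fun ν => EE ν q := by unfold EE; fun_prop

/-- differentiation under the integral with the weight, along a vector -/
theorem fderiv_weight_apply (M : Measure ℝ) [IsFiniteMeasure M] (hs : M (Icc (-π) π)ᶜ = 0)
    {f : ℝ → P → ℝ} (hf : ContDiff ℝ ∞ (fun x : ℝ × P => f x.1 x.2)) {w : ℝ → ℝ}
    (hw : Integrable w M) (q h : P) :
    fderiv ℝ (fun q => ∫ ν, w ν * f ν q ∂M) q h = ∫ ν, w ν * fderiv ℝ (f ν) q h ∂M := by
  obtain ⟨h1, -, h2⟩ := hasFDerivAt_weight M hs hf hw q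
  rw [h2.fderiv, ContinuousLinearMap.integral_apply h1]
  rfl

theorem hasFDerivAt_gt_ta (γ a : ℝ) (q h : P) :
    DifferentiableAt ℝ (fun q => gt a (ta γ q)) q ∧
    fderiv ℝ (fun q => gt a (ta γ q)) q h = Real.exp (-(ta γ q * a)) * ta γ h := by
  have h1 : HasFDerivAt (ta γ) ((-sin γ) • ContinuousLinearMap.fst ℝ ℝ ℝ +
    (cos γ) • ContinuousLinearMap.snd ℝ ℝ ℝ) q := by
    have := ((-sin γ) • ContinuousLinearMap.fst ℝ ℝ ℝ +
      (cos γ) • ContinuousLinearMap.snd ℝ ℝ ℝ : P →L[ℝ] ℝ).hasFDerivAt (x := q)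
    refine this.congr_of_eventuallyEq (Eventually.of_forall fun y => ?_)
    simp [ta]; ring
  have h2 := (hasDerivAt_gt a (ta γ q)).comp_hasFDerivAt q h1
  refine ⟨h2.differentiableAt, ?_⟩
  have h3 : fderiv ℝ (fun q => gt a (ta γ q)) q = _ := h2.fderiv
  rw [h3]
  simp [ta]
  ring

theorem hasFDerivAt_gt_sg (γ a : ℝ) (q h : P) :
    DifferentiableAt ℝ (fun q => gt a (sg γ q)) q ∧
    fderiv ℝ (fun q => gt a (sg γ q)) q h = Real.exp (-(sg γ q * a)) * sg γ h := by
  have h1 : HasFDerivAt (sg γ) ((cos γ) • ContinuousLinearMap.fst ℝ ℝ ℝ +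
    (sin γ) • ContinuousLinearMap.snd ℝ ℝ ℝ) q := by
    have := ((cos γ) • ContinuousLinearMap.fst ℝ ℝ ℝ +
      (sin γ) • ContinuousLinearMap.snd ℝ ℝ ℝ : P →L[ℝ] ℝ).hasFDerivAt (x := q)
    refine this.congr_of_eventuallyEq (Eventually.of_forall fun y => ?_)
    simp [sg]; ring
  have h2 := (hasDerivAt_gt a (sg γ q)).comp_hasFDerivAt q h1
  refine ⟨h2.differentiableAt, ?_⟩
  have h3 : fderiv ℝ (fun q => gt a (sg γ q)) q = _ := h2.fderiv
  rw [h3]
  simp [sg]
  ring

theorem gt_zero (a : ℝ) : gt a 0 = 0 := by simp [gt]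

end Pool.Agent.EU.D2a

namespace Pool.Agent.EU

open C0 D2a

/-- formulas if `∫ dM / |cos δ| < ∞` -/
theorem typeI_finite {γ b : ℝ} {M : Measure ℝ} {F : P → P} (hF : TypeI γ b M F)
    (h0 : ∫⁻ ν, (ENNReal.ofReal |cos (ν / 2 - γ)|)⁻¹ ∂M ≠ ⊤) (q : P) :
    Integrable (fun ν => tan (ν / 2 - γ)) M ∧
    Integrable (fun ν => kx (ν / 2) q / cos (ν / 2 - γ)) M ∧
    Integrable (fun ν => ky (ν / 2) q / cos (ν / 2 - γ)) M ∧
    (F q).1 - (F 0).1 = bp γ b M * gt (sin γ) (ta γ q) + ∫ ν, kx (ν / 2) q / cos (ν / 2 - γ) ∂M ∧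
    (F q).2 - (F 0).2 = -(bp γ b M * gt (cos γ) (sg γ q)) +
      ∫ ν, ky (ν / 2) q / cos (ν / 2 - γ) ∂M ∧
    K1 γ b M q = bp γ b M * Real.exp (-(ta γ q * sin γ)) + ∫ ν, tan (ν / 2 - γ) * EE ν q ∂M := by
  have hfin := hF.fin
  have hs := hF.supp
  obtain ⟨hw, hne⟩ := int_inv_cos h0
  have htan : Integrable (fun ν => tan (ν / 2 - γ)) M := by
    refine (int_weight hs hw (f := fun ν => sin (ν / 2 - γ)) (by fun_prop)).congr
      (Eventually.of_forall fun ν => ?_)
    simp only [Real.tan_eq_sin_div_cos]; ring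
  have htanf : ∀ {f : ℝ → ℝ}, Continuous f → Integrable (fun ν => tan (ν / 2 - γ) * f ν) M :=
    fun hf => int_weight hs htan hf
  have hxe : ∀ q : P, (fun ν => kx (ν / 2) q / cos (ν / 2 - γ)) =
      fun ν => (cos (ν / 2 - γ))⁻¹ * kx (ν / 2) q := fun q => by
    funext ν; rw [div_eq_mul_inv, mul_comm]
  have hye : ∀ q : P, (fun ν => ky (ν / 2) q / cos (ν / 2 - γ)) =
      fun ν => (cos (ν / 2 - γ))⁻¹ * ky (ν / 2) q := fun q => by
    funext ν; rw [div_eq_mul_inv, mul_comm]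
  -- the formula for `K1`
  have hK : ∀ q : P, K1 γ b M q = bp γ b M * Real.exp (-(ta γ q * sin γ)) +
      ∫ ν, tan (ν / 2 - γ) * EE ν q ∂M := by
    intro q
    have e1 : ∫ ν, kk γ ν q ∂M = ∫ ν, tan (ν / 2 - γ) * EE ν q ∂M -
        (∫ ν, tan (ν / 2 - γ) ∂M) * Real.exp (-(ta γ q * sin γ)) := by
      rw [← integral_mul_const, ← integral_sub (htanf (cont_EE q)) (htan.mul_const _)]
      refine integral_congr_ae ?_
      filter_upwards [hne] with ν hν
      have := cos_mul_kk γ ν q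
      rw [Real.tan_eq_sin_div_cos]
      generalize cos (ν / 2 - γ) = c at hν this ⊢
      generalize sin (ν / 2 - γ) = s at this ⊢
      have h2 : kk γ ν q = s * (EE ν q - Real.exp (-(ta γ q * sin γ))) / c := by
        rw [eq_div_iff hν]; linarith
      rw [h2]; ring
    show b * Real.exp (-(ta γ q * sin γ)) + ∫ ν, kk γ ν q ∂M = _
    rw [e1, bp]; ring
  refine ⟨htan, ?_, ?_, ?_, ?_, hK q⟩
  · rw [hxe]
    exact (hasFDerivAt_weight (f := fun ν q => kx (ν / 2) q) M hs smooth_kx hw q).2.1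
  · rw [hye]
    exact (hasFDerivAt_weight (f := fun ν q => ky (ν / 2) q) M hs smooth_ky hw q).2.1
  · simp only [hxe]
    have hI : ∀ q, DifferentiableAt ℝ (fun q => ∫ ν, (cos (ν / 2 - γ))⁻¹ * kx (ν / 2) q ∂M) q :=
      fun q => (hasFDerivAt_weight (f := fun ν q => kx (ν / 2) q) M hs smooth_kx hw q).2.2
        |>.differentiableAt
    have hG : ∀ q, DifferentiableAt ℝ (fun q => gt (sin γ) (ta γ q)) q := fun q =>
      (hasFDerivAt_gt_ta γ (sin γ) q 0).1
    refine eq_of_fderiv (f := fun q => (F q).1 - (F 0).1)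
      (g := fun q => bp γ b M * gt (sin γ) (ta γ q) + ∫ ν, (cos (ν / 2 - γ))⁻¹ * kx (ν / 2) q ∂M)
      ((diff_F1 hF).sub_const _) (fun q => ((hG q).const_mul _).add (hI q)) ?_ ?_ q
    · intro q h
      have e0 := ((hG q).hasFDerivAt.const_mul (bp γ b M)).add (hI q).hasFDerivAt
      have e0' : fderiv ℝ (fun q => bp γ b M * gt (sin γ) (ta γ q) +
        ∫ ν, (cos (ν / 2 - γ))⁻¹ * kx (ν / 2) q ∂M) q = _ := e0.fderiv
      rw [fderiv_sub_const, fderiv_F1 hF, e0', _root_.add_apply, _root_.smul_apply,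
        (hasFDerivAt_gt_ta γ (sin γ) q h).2,
        fderiv_weight_apply (f := fun ν q => kx (ν / 2) q) M hs smooth_kx hw, smul_eq_mul, hK q]
      simp only [fderiv_kx]
      obtain ⟨c1, c2⟩ := coord γ h
      have e1 : ∫ ν, (cos (ν / 2 - γ))⁻¹ * (EE ν q * (h.1 * cos (ν / 2) + h.2 * sin (ν / 2))) ∂M =
          sg γ h * ∫ ν, EE ν q ∂M + ta γ h * ∫ ν, tan (ν / 2 - γ) * EE ν q ∂M := by
        rw [← integral_const_mul, ← integral_const_mul, ← integral_add
          ((int_EE M hs q).const_mul _) ((htanf (cont_EE q)).const_mul _)]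
        refine integral_congr_ae ?_
        filter_upwards [hne] with ν hν
        have e2 : h.1 * cos (ν / 2) + h.2 * sin (ν / 2) =
            sg γ h * cos (ν / 2 - γ) + ta γ h * sin (ν / 2 - γ) := by
          rw [Real.cos_sub, Real.sin_sub, c1, c2]
          simp only [sg, ta]
          ring
        rw [e2, Real.tan_eq_sin_div_cos]
        generalize cos (ν / 2 - γ) = c at hν ⊢
        generalize sin (ν / 2 - γ) = s
        field_simp
      rw [e1]
      have e5 : W1 M q = ∫ ν, EE ν q ∂M := rfl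
      rw [e5]; ring
    · simp [kx_zero, ta, gt_zero]
  · simp only [hye]
    have hI : ∀ q, DifferentiableAt ℝ (fun q => ∫ ν, (cos (ν / 2 - γ))⁻¹ * ky (ν / 2) q ∂M) q :=
      fun q => (hasFDerivAt_weight (f := fun ν q => ky (ν / 2) q) M hs smooth_ky hw q).2.2
        |>.differentiableAt
    have hG : ∀ q, DifferentiableAt ℝ (fun q => gt (cos γ) (sg γ q)) q := fun q =>
      (hasFDerivAt_gt_sg γ (cos γ) q 0).1
    refine eq_of_fderiv (f := fun q => (F q).2 - (F 0).2)
      (g := fun q => -(bp γ b M * gt (cos γ) (sg γ q)) +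
        ∫ ν, (cos (ν / 2 - γ))⁻¹ * ky (ν / 2) q ∂M)
      ((diff_F2 hF).sub_const _) (fun q => ((hG q).const_mul _).neg.add (hI q)) ?_ ?_ q
    · intro q h
      have e0 := ((hG q).hasFDerivAt.const_mul (bp γ b M)).neg.add (hI q).hasFDerivAt
      have e0' : fderiv ℝ (fun q => -(bp γ b M * gt (cos γ) (sg γ q)) +
        ∫ ν, (cos (ν / 2 - γ))⁻¹ * ky (ν / 2) q ∂M) q = _ := e0.fderiv
      rw [fderiv_sub_const, fderiv_F2 hF, e0', _root_.add_apply, _root_.neg_apply,
        _root_.smul_apply, (hasFDerivAt_gt_sg γ (cos γ) q h).2,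
        fderiv_weight_apply (f := fun ν q => ky (ν / 2) q) M hs smooth_ky hw, smul_eq_mul, hK q]
      simp only [fderiv_ky]
      obtain ⟨c1, c2⟩ := coord γ h
      have e1 : ∫ ν, (cos (ν / 2 - γ))⁻¹ * (Real.exp (-q.1) * EE ν q *
          (-(h.1 * sin (ν / 2)) + h.2 * cos (ν / 2))) ∂M =
          Real.exp (-q.1) * (ta γ h * ∫ ν, EE ν q ∂M - sg γ h *
            ∫ ν, tan (ν / 2 - γ) * EE ν q ∂M) := by
        rw [← integral_const_mul, ← integral_const_mul, ← integral_sub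
          ((int_EE M hs q).const_mul _) ((htanf (cont_EE q)).const_mul _), ← integral_const_mul]
        refine integral_congr_ae ?_
        filter_upwards [hne] with ν hν
        have e2 : -(h.1 * sin (ν / 2)) + h.2 * cos (ν / 2) =
            ta γ h * cos (ν / 2 - γ) - sg γ h * sin (ν / 2 - γ) := by
          rw [Real.cos_sub, Real.sin_sub, c1, c2]
          simp only [sg, ta]
          ring
        rw [e2, Real.tan_eq_sin_div_cos]
        generalize cos (ν / 2 - γ) = c at hν ⊢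
        generalize sin (ν / 2 - γ) = s
        field_simp
      have e3 : Real.exp (-(sg γ q * cos γ)) = Real.exp (-q.1) * Real.exp (-(ta γ q * sin γ)) := by
        rw [← Real.exp_add]
        congr 1
        have := (coord γ q).1
        linarith
      rw [e1, e3]
      have e5 : W1 M q = ∫ ν, EE ν q ∂M := rfl
      rw [e5]; ring
    · simp [ky_zero, sg, gt_zero]

end Pool.Agent.EU

namespace Pool.Agent.EU.D2a

open Pool.Agent.EU Pool.Agent.EU.C0

/-- `∫₀¹ (1 - r) e^{r x} dr` -/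
noncomputable def mm (x : ℝ) : ℝ := ∫ r in (0:ℝ)..1, (1 - r) * Real.exp (r * x)

theorem smooth_mm : ContDiff ℝ ∞ mm := by
  have h := contDiff_param (H := ℝ) (volume.restrict (Ioc (0:ℝ) 1)) supp01
    (f := fun r x => (1 - r) * Real.exp (r * x)) (by fun_prop)
  have : mm = fun x => ∫ r, (1 - r) * Real.exp (r * x) ∂(volume.restrict (Ioc (0:ℝ) 1)) := by
    ext x
    rw [mm, intervalIntegral.integral_of_le zero_le_one]
  rw [this]; exact h

theorem mm_zero : mm 0 = 1 / 2 := by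
  have : ∀ r ∈ uIcc (0:ℝ) 1, HasDerivAt (fun r : ℝ => r - r ^ 2 / 2) (1 - r) r := by
    intro r _
    have := (hasDerivAt_id r).sub ((hasDerivAt_pow 2 r).div_const 2)
    refine this.congr_deriv ?_
    norm_num
  unfold mm
  simp only [mul_zero, Real.exp_zero, mul_one]
  rw [intervalIntegral.integral_eq_sub_of_hasDerivAt this
    ((by fun_prop : Continuous fun r : ℝ => 1 - r).intervalIntegrable _ _)]
  norm_num

theorem mm_mul (x : ℝ) : x ^ 2 * mm x = Real.exp x - 1 - x := by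
  have h : ∀ r ∈ uIcc (0:ℝ) 1, HasDerivAt
      (fun r => (1 - r) * x * Real.exp (r * x) + Real.exp (r * x))
      (x ^ 2 * ((1 - r) * Real.exp (r * x))) r := by
    intro r _
    have h1 : HasDerivAt (fun r : ℝ => Real.exp (r * x)) (Real.exp (r * x) * x) r := by
      have := ((hasDerivAt_id r).mul_const x).exp
      simpa using this
    have h2 : HasDerivAt (fun r : ℝ => (1 - r) * x) (-1 * x) r := by
      have := ((hasDerivAt_id r).const_sub 1).mul_const x
      simpa using this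
    have h3 := (h2.mul h1).add h1
    refine h3.congr_deriv ?_
    ring
  have h4 := intervalIntegral.integral_eq_sub_of_hasDerivAt h
    ((by fun_prop : Continuous fun r : ℝ =>
      x ^ 2 * ((1 - r) * Real.exp (r * x))).intervalIntegrable _ _)
  rw [intervalIntegral.integral_const_mul] at h4
  show x ^ 2 * mm x = _
  rw [mm, h4]; simp; ring

/-- derivative of `y ↦ y² m(y c)` -/
theorem hasDerivAt_mm (c y : ℝ) : HasDerivAt (fun y => y ^ 2 * mm (y * c)) (y * hh (y * c)) y := by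
  have hd : Differentiable ℝ mm := smooth_mm.differentiable (by simp)
  have key : ∀ x : ℝ, 2 * mm x + x * deriv mm x = hh x := by
    intro x
    by_cases hx : x = 0
    · subst hx
      rw [mm_zero]
      simp [hh]
    have e1 : HasDerivAt (fun x => x ^ 2 * mm x) ((2 * x) * mm x + x ^ 2 * deriv mm x) x := by
      have := (hasDerivAt_pow 2 x).mul (hd x).hasDerivAt
      refine this.congr_deriv ?_
      norm_num
    have e2 : HasDerivAt (fun x => x ^ 2 * mm x) (Real.exp x - 1) x := by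
      have : (fun x => x ^ 2 * mm x) = fun x => Real.exp x - 1 - x := by
        ext y; exact mm_mul y
      rw [this]
      exact ((Real.hasDerivAt_exp x).sub_const 1).sub (hasDerivAt_id x)
    have e3 := e1.unique e2
    rw [← hh_mul x] at e3
    have e4 : x * (2 * mm x + x * deriv mm x) = x * hh x := by linarith
    exact mul_left_cancel₀ hx e4
  have h1 : HasDerivAt (fun s => mm (s * c)) (deriv mm (y * c) * c) y := by
    have := HasDerivAt.comp y (hd (y * c)).hasDerivAt ((hasDerivAt_id y).mul_const c)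
    rw [one_mul] at this
    exact this
  have h2 := (hasDerivAt_pow 2 y).mul h1
  refine h2.congr_deriv ?_
  rw [← key (y * c)]
  simp
  ring

/-- the kernel of the formula for `γ = 0` -/
noncomputable def k0 (φ : ℝ) (q : P) : ℝ := (q.1 * cos φ + q.2 * sin φ) ^ 2 *
  ∫ r in (0:ℝ)..1, (1 - r) * Real.exp (r * (cos φ * (q.1 * cos φ + q.2 * sin φ)))

theorem k0_eq (φ : ℝ) (q : P) : k0 φ q = (q.1 * cos φ + q.2 * sin φ) ^ 2 *
    mm ((q.1 * cos φ + q.2 * sin φ) * cos φ) := by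
  rw [k0, mm, mul_comm (cos φ)]

theorem smooth_k0 : ContDiff ℝ ∞ (fun x : ℝ × P => k0 (x.1 / 2) x.2) := by
  have : (fun x : ℝ × P => k0 (x.1 / 2) x.2) = fun x : ℝ × P =>
      (x.2.1 * cos (x.1 / 2) + x.2.2 * sin (x.1 / 2)) ^ 2 *
      mm ((x.2.1 * cos (x.1 / 2) + x.2.2 * sin (x.1 / 2)) * cos (x.1 / 2)) := by
    ext x; exact k0_eq _ _
  rw [this]
  have := smooth_mm
  fun_prop

theorem fderiv_k0 (ν : ℝ) (q h : P) : fderiv ℝ (k0 (ν / 2)) q h =
    kx (ν / 2) q * (h.1 * cos (ν / 2) + h.2 * sin (ν / 2)) := by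
  have h3 : HasFDerivAt (fun q : P => (q.1 * cos (ν / 2) + q.2 * sin (ν / 2)) ^ 2 *
      mm ((q.1 * cos (ν / 2) + q.2 * sin (ν / 2)) * cos (ν / 2))) _ q :=
    HasDerivAt.comp_hasFDerivAt (h₂ := fun s => s ^ 2 * mm (s * cos (ν / 2))) q
      (hasDerivAt_mm (cos (ν / 2)) (q.1 * cos (ν / 2) + q.2 * sin (ν / 2)))
      (hasFDerivAt_lin (cos (ν / 2)) (sin (ν / 2)) q)
  have h4 : k0 (ν / 2) = fun q : P => (q.1 * cos (ν / 2) + q.2 * sin (ν / 2)) ^ 2 *
      mm ((q.1 * cos (ν / 2) + q.2 * sin (ν / 2)) * cos (ν / 2)) := by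
    ext y; exact k0_eq _ _
  rw [h4, h3.fderiv, kx_eq]
  simp
  ring

theorem cont_kx (q : P) : Continuous fun ν => kx (ν / 2) q :=
  smooth_kx.continuous.comp (by fun_prop : Continuous (fun ν : ℝ => ((ν, q) : ℝ × P)))

end Pool.Agent.EU.D2a

namespace Pool.Agent.EU

open C0 D2a

/-- `γ = 0`: formula for the first component -/
theorem typeI_zero_X {b : ℝ} {M : Measure ℝ} {F : P → P} (hF : TypeI 0 b M F) (q : P) :
    (F q).1 - (F 0).1 = b * q.2 + q.1 * M.real univ +
      ∫ ν, (q.1 * cos (ν / 2) + q.2 * sin (ν / 2)) ^ 2 *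
      (∫ r in (0:ℝ)..1, (1 - r) *
        Real.exp (r * (cos (ν / 2) * (q.1 * cos (ν / 2) + q.2 * sin (ν / 2))))) ∂M := by
  have hfin := hF.fin
  have hs := hF.supp
  show (F q).1 - (F 0).1 = b * q.2 + q.1 * M.real univ + ∫ ν, k0 (ν / 2) q ∂M
  have hI : ∀ q, HasFDerivAt (fun q => ∫ ν, k0 (ν / 2) q ∂M) _ q := fun q =>
    (hasFDerivAt_param (f := fun ν q => k0 (ν / 2) q) M hs smooth_k0 q).2.2
  have hL : ∀ q : P, HasFDerivAt (fun q : P => b * q.2 + q.1 * M.real univ)
      (b • ContinuousLinearMap.snd ℝ ℝ ℝ + M.real univ • ContinuousLinearMap.fst ℝ ℝ ℝ) q := by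
    intro q
    have := (b • ContinuousLinearMap.snd ℝ ℝ ℝ + M.real univ • ContinuousLinearMap.fst ℝ ℝ ℝ :
      P →L[ℝ] ℝ).hasFDerivAt (x := q)
    refine this.congr_of_eventuallyEq (Eventually.of_forall fun y => ?_)
    simp; ring
  refine eq_of_fderiv (f := fun q => (F q).1 - (F 0).1)
    (g := fun q => b * q.2 + q.1 * M.real univ + ∫ ν, k0 (ν / 2) q ∂M)
    ((diff_F1 hF).sub_const _)
    (fun q => (hL q).differentiableAt.add (hI q).differentiableAt) ?_ ?_ q
  · intro q h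
    have e0 : fderiv ℝ (fun q => b * q.2 + q.1 * M.real univ + ∫ ν, k0 (ν / 2) q ∂M) q = _ :=
      ((hL q).add (hI q).differentiableAt.hasFDerivAt).fderiv
    rw [fderiv_sub_const, fderiv_F1 hF, e0, _root_.add_apply,
      fderiv_param_apply (f := fun ν q => k0 (ν / 2) q) M hs smooth_k0]
    simp only [fderiv_k0]
    have i1 : Integrable (fun ν => cos (ν / 2) * kx (ν / 2) q) M := by
      refine (int_weight hs (integrable_const 1) (f := fun ν => cos (ν / 2) * kx (ν / 2) q) ?_).congr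
        (Eventually.of_forall fun ν => by simp)
      exact (by fun_prop : Continuous fun ν : ℝ => cos (ν / 2)).mul (cont_kx q)
    have i2 : Integrable (fun ν => sin (ν / 2) * kx (ν / 2) q) M := by
      refine (int_weight hs (integrable_const 1) (f := fun ν => sin (ν / 2) * kx (ν / 2) q) ?_).congr
        (Eventually.of_forall fun ν => by simp)
      exact (by fun_prop : Continuous fun ν : ℝ => sin (ν / 2)).mul (cont_kx q)
    have e1 : ∫ ν, kx (ν / 2) q * (h.1 * cos (ν / 2) + h.2 * sin (ν / 2)) ∂M =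
        h.1 * ∫ ν, cos (ν / 2) * kx (ν / 2) q ∂M + h.2 * ∫ ν, sin (ν / 2) * kx (ν / 2) q ∂M := by
      rw [← integral_const_mul, ← integral_const_mul, ← integral_add (i1.const_mul _)
        (i2.const_mul _)]
      refine integral_congr_ae (Eventually.of_forall fun ν => ?_)
      simp only; ring
    have e2 : ∫ ν, cos (ν / 2) * kx (ν / 2) q ∂M = ∫ ν, EE ν q ∂M - M.real univ := by
      have : M.real univ = ∫ _ν : ℝ, (1 : ℝ) ∂M := by simp
      rw [this, ← integral_sub (int_EE M hs q) (integrable_const 1)]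
      refine integral_congr_ae (Eventually.of_forall fun ν => ?_)
      simp only
      rw [cos_mul_kx, EE_eq, mul_comm (cos (ν / 2))]
    have e3 : ∀ ν, kk 0 ν q = sin (ν / 2) * kx (ν / 2) q := by
      intro ν
      rw [kk_eq, kx_eq]
      simp [sg, ta]
    have e4 : K1 0 b M q = b + ∫ ν, sin (ν / 2) * kx (ν / 2) q ∂M := by
      have : K1 0 b M q = b * Real.exp (-(ta 0 q * sin 0)) + ∫ ν, kk 0 ν q ∂M := rfl
      rw [this]
      simp [e3]
    have e5 : W1 M q = ∫ ν, EE ν q ∂M := rfl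
    have e6 : sg 0 h = h.1 := by simp [sg]
    have e7 : ta 0 h = h.2 := by simp [ta]
    rw [e1, e2, e4, e5, e6, e7]
    simp
    ring
  · simp [k0]

end Pool.Agent.EU
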