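import Pool.Agent.EU.D2a

/-!
Part D2b: connectedness of the preimages of half planes, symmetries of the first family.
-/

set_option autoImplicit false
open scoped ContDiff Topology ENNReal
open Real Set MeasureTheory Filter

namespace Pool.Agent.EU

/-- `2π`-periodic reduction to `[-π, π]` -/
noncomputable def red (ν : ℝ) : ℝ := Complex.arg (Complex.exp (ν * Complex.I))

end Pool.Agent.EU

namespace Pool.Agent.EU.D2b

open Pool.Agent.EU Pool.Agent.EU.C0 Pool.Agent.EU.D2a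

theorem red_mem (ν : ℝ) : red ν ∈ Icc (-π) π :=
  ⟨(Complex.neg_pi_lt_arg _).le, Complex.arg_le_pi _⟩

theorem meas_red : Measurable red := by
  unfold red
  exact Complex.measurable_arg.comp (by fun_prop)

theorem red_eq (ν : ℝ) : ∃ k : ℤ, red ν = ν + k * (2 * π) := by
  refine ⟨-(toIocDiv (mul_pos two_pos Real.pi_pos) (-π) ν), ?_⟩
  rw [red, Complex.arg_exp_mul_I]
  have := toIocMod_add_toIocDiv_zsmul (mul_pos two_pos Real.pi_pos) (-π) ν
  rw [zsmul_eq_mul] at this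
  push_cast
  linarith

/-- half of `red ν` and half of `ν` differ by a multiple of `π` -/
theorem red_half (ν : ℝ) : ∃ k : ℤ, red ν / 2 = ν / 2 + k * π := by
  obtain ⟨k, hk⟩ := red_eq ν
  exact ⟨k, by rw [hk]; ring⟩

theorem trig_red (ν : ℝ) : ∃ e : ℝ, e * e = 1 ∧ ∀ γ, cos (red ν / 2 - γ) = e * cos (ν / 2 - γ) ∧
    sin (red ν / 2 - γ) = e * sin (ν / 2 - γ) := by
  obtain ⟨k, hk⟩ := red_half ν
  refine ⟨(-1) ^ k, ?_, fun γ => ⟨?_, ?_⟩⟩
  · rw [← mul_zpow]; simp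
  · rw [hk, show ν / 2 + k * π - γ = ν / 2 - γ + k * π by ring, Real.cos_add_int_mul_pi]
  · rw [hk, show ν / 2 + k * π - γ = ν / 2 - γ + k * π by ring, Real.sin_add_int_mul_pi]

theorem trig_red0 (ν : ℝ) : ∃ e : ℝ, e * e = 1 ∧ (∀ γ, cos (red ν / 2 - γ) = e * cos (ν / 2 - γ) ∧
    sin (red ν / 2 - γ) = e * sin (ν / 2 - γ)) ∧ cos (red ν / 2) = e * cos (ν / 2) ∧
    sin (red ν / 2) = e * sin (ν / 2) := by
  obtain ⟨e, he, h⟩ := trig_red ν
  have h0 := h 0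
  simp only [sub_zero] at h0
  exact ⟨e, he, h, h0⟩

theorem EE_red (ν : ℝ) (q : P) : EE (red ν) q = EE ν q := by
  obtain ⟨e, he, -, h1, h2⟩ := trig_red0 ν
  rw [EE_eq, EE_eq, h1, h2]
  congr 1
  linear_combination (q.1 * cos (ν / 2) + q.2 * sin (ν / 2)) * cos (ν / 2) * he

theorem kk_red (γ ν : ℝ) (q : P) : kk γ (red ν) q = kk γ ν q := by
  obtain ⟨e, he, h, h1, h2⟩ := trig_red0 ν
  rw [kk_eq, kk_eq, h1, h2, (h γ).1, (h γ).2]
  have : (sg γ q * (e * cos (ν / 2)) + ta γ q * (e * sin (ν / 2))) * (e * cos (ν / 2 - γ)) =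
      (sg γ q * cos (ν / 2) + ta γ q * sin (ν / 2)) * cos (ν / 2 - γ) := by
    linear_combination ((sg γ q * cos (ν / 2) + ta γ q * sin (ν / 2)) * cos (ν / 2 - γ)) * he
  rw [this]
  linear_combination (sin (ν / 2 - γ) * Real.exp (-(ta γ q * sin γ)) *
    ((sg γ q * cos (ν / 2) + ta γ q * sin (ν / 2)) * hh ((sg γ q * cos (ν / 2) +
      ta γ q * sin (ν / 2)) * cos (ν / 2 - γ)))) * he

theorem chX_red (γ ν : ℝ) : chX γ (red ν) = chX γ ν := by
  obtain ⟨e, he, h, h1, h2⟩ := trig_red0 ν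
  rw [chX, chX, h1, (h γ).1]
  linear_combination (cos (ν / 2) * cos (ν / 2 - γ)) * he

theorem chY_red (γ ν : ℝ) : chY γ (red ν) = chY γ ν := by
  obtain ⟨e, he, h, h1, h2⟩ := trig_red0 ν
  rw [chY, chY, h2, (h γ).1]
  linear_combination (sin (ν / 2) * cos (ν / 2 - γ)) * he

theorem tan_red (γ ν : ℝ) : tan (red ν / 2 - γ) = tan (ν / 2 - γ) := by
  obtain ⟨k, hk⟩ := red_half ν
  rw [hk, show ν / 2 + k * π - γ = ν / 2 - γ + k * π by ring]
  exact Real.tan_add_int_mul_pi _ _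

theorem EE_swap (ν : ℝ) (q : P) : EE (π - ν) q = Real.exp q.1 * EE ν (-q.1, q.2) := by
  rw [EE, EE, ← Real.exp_add, Real.cos_pi_sub, Real.sin_pi_sub]
  congr 1
  ring

theorem half_swap (γ ν : ℝ) : (π - ν) / 2 - (π / 2 - γ) = -(ν / 2 - γ) := by ring

theorem sg_swap (γ : ℝ) (q : P) : sg (π / 2 - γ) q = ta γ (-q.1, q.2) := by
  rw [sg, ta, Real.cos_pi_div_two_sub, Real.sin_pi_div_two_sub]; simp

theorem ta_swap (γ : ℝ) (q : P) : ta (π / 2 - γ) q = sg γ (-q.1, q.2) := by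
  rw [sg, ta, Real.cos_pi_div_two_sub, Real.sin_pi_div_two_sub]; simp

theorem exp_swap (γ : ℝ) (q : P) : Real.exp (-(sg γ (-q.1, q.2) * cos γ)) =
    Real.exp q.1 * Real.exp (-(ta γ (-q.1, q.2) * sin γ)) := by
  rw [← Real.exp_add]
  congr 1
  have := (coord γ (-q.1, q.2)).1
  simp only at this
  linarith

theorem kk_swap (γ ν : ℝ) (q : P) :
    kk (π / 2 - γ) (π - ν) q = -(Real.exp q.1 * kk γ ν (-q.1, q.2)) := by
  rw [kk_eq, kk_eq, half_swap, sg_swap, ta_swap, Real.sin_neg, Real.cos_neg,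
    show (π - ν) / 2 = π / 2 - ν / 2 by ring, Real.cos_pi_div_two_sub, Real.sin_pi_div_two_sub,
    Real.sin_pi_div_two_sub, exp_swap]
  rw [show ta γ (-q.1, q.2) * sin (ν / 2) + sg γ (-q.1, q.2) * cos (ν / 2) =
    sg γ (-q.1, q.2) * cos (ν / 2) + ta γ (-q.1, q.2) * sin (ν / 2) by ring]
  ring

theorem int_map_red {M : Measure ℝ} {g : ℝ → ℝ} (hg : Measurable g) {f : ℝ → ℝ}
    (hf : Continuous f) (hr : ∀ ν, f (red ν) = f ν) :
    ∫ ν, f ν ∂(M.map fun ν => red (g ν)) = ∫ ν, f (g ν) ∂M := by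
  have h1 : AEMeasurable (fun ν => red (g ν)) M := (meas_red.comp hg).aemeasurable
  rw [integral_map h1 hf.aestronglyMeasurable]
  exact integral_congr_ae (Eventually.of_forall fun ν => hr (g ν))

theorem cont_kk (γ : ℝ) (q : P) : Continuous fun ν => kk γ ν q := by
  have h0 : Continuous hh := smooth_hh.continuous
  simp only [kk_eq]
  fun_prop

theorem W1_swap (M : Measure ℝ) (q : P) : W1 (M.map fun ν => red (π - ν)) q =
    Real.exp q.1 * W1 M (-q.1, q.2) := by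
  rw [W1, int_map_red (by fun_prop) (cont_EE q) (fun ν => EE_red ν q)]
  simp only [EE_swap]
  rw [integral_const_mul, W1]

theorem K1_swap (γ b : ℝ) (M : Measure ℝ) (q : P) :
    K1 (π / 2 - γ) (-b) (M.map fun ν => red (π - ν)) q =
    -(Real.exp q.1 * K1 γ b M (-q.1, q.2)) := by
  rw [K1, int_map_red (by fun_prop) (cont_kk _ q) (fun ν => kk_red _ ν q)]
  simp only [kk_swap]
  rw [integral_neg, integral_const_mul, K1, ta_swap, Real.sin_pi_div_two_sub, exp_swap]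
  ring

theorem supp_map (M : Measure ℝ) {g : ℝ → ℝ} (hg : Measurable g) :
    (M.map fun ν => red (g ν)) (Icc (-π) π)ᶜ = 0 := by
  have h1 : Measurable (fun ν => red (g ν)) := meas_red.comp hg
  rw [Measure.map_apply h1 measurableSet_Icc.compl]
  have : (fun ν => red (g ν)) ⁻¹' (Icc (-π) π)ᶜ = ∅ := by
    ext ν; simp only [mem_preimage, mem_compl_iff, mem_empty_iff_false, iff_false, not_not]
    exact red_mem _
  rw [this]; simp

theorem nz_map {M : Measure ℝ} (h : M ≠ 0) {g : ℝ → ℝ} (hg : Measurable g) :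
    (M.map fun ν => red (g ν)) ≠ 0 := by
  intro h0
  exact h ((Measure.map_eq_zero_iff (meas_red.comp hg).aemeasurable).1 h0)

theorem fin_map {M : Measure ℝ} (h : IsFiniteMeasure M) (g : ℝ → ℝ) :
    IsFiniteMeasure (M.map fun ν => red (g ν)) := inferInstance

/-- composition with a linear map of the plane -/
theorem fderiv_comp_lin {F : P → P} (hF : Differentiable ℝ F) (L : P →L[ℝ] P) (q h : P) :
    fderiv ℝ (fun q => F (L q)) q h = fderiv ℝ F (L q) (L h) := by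
  have := (hF (L q)).hasFDerivAt.comp q (L.hasFDerivAt (x := q))
  have h2 : fderiv ℝ (fun q => F (L q)) q = _ := this.fderiv
  rw [h2]; rfl

end Pool.Agent.EU.D2b

namespace Pool.Agent.EU

open C0 D2a D2b

/-- exchange of the coordinates -/
theorem TypeI.swap {γ b : ℝ} {M : Measure ℝ} {F : P → P} (hF : TypeI γ b M F) :
    TypeI (π / 2 - γ) (-b) (M.map fun ν => red (π - ν))
      (fun q => ((F (-q.1, q.2)).2, (F (-q.1, q.2)).1)) := by
  have hd : Differentiable ℝ (fun q : P => F (-q.1, q.2)) :=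
    hF.diff.comp (by fun_prop : Differentiable ℝ fun q : P => ((-q.1, q.2) : P))
  have hfd : ∀ q h : P, fderiv ℝ (fun q : P => F (-q.1, q.2)) q h =
      fderiv ℝ F (-q.1, q.2) (-h.1, h.2) := fun q h =>
    fderiv_comp_lin hF.diff ((-ContinuousLinearMap.fst ℝ ℝ ℝ).prod
      (ContinuousLinearMap.snd ℝ ℝ ℝ)) q h
  refine ⟨fin_map hF.fin _, supp_map M (by fun_prop), nz_map hF.nz (by fun_prop),
    fun q => ((hd q).snd.prodMk (hd q).fst), fun q h => ?_⟩
  have e1 : fderiv ℝ (fun q : P => ((F (-q.1, q.2)).2, (F (-q.1, q.2)).1)) q h =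
      ((fderiv ℝ (fun q : P => F (-q.1, q.2)) q h).2,
        (fderiv ℝ (fun q : P => F (-q.1, q.2)) q h).1) := by
    have := ((hd q).hasFDerivAt.snd.prodMk (hd q).hasFDerivAt.fst).fderiv
    rw [this]; rfl
  rw [e1, hfd, hF.dF, W1_swap, K1_swap, sg_swap, ta_swap, neg_neg]
  have hq : Real.exp (-q.1) * Real.exp q.1 = 1 := by rw [← Real.exp_add]; simp
  ext
  · simp only; ring
  · simp only
    linear_combination (-(W1 M (-q.1, q.2) * sg γ (-h.1, h.2) +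
      K1 γ b M (-q.1, q.2) * ta γ (-h.1, h.2))) * hq

/-- reflection, `γ = 0` -/
theorem TypeI.refl0 {b : ℝ} {M : Measure ℝ} {F : P → P} (hF : TypeI 0 b M F) :
    TypeI 0 (-b) (M.map fun ν => red (-ν))
      (fun q => ((F (q.1, -q.2)).1, -(F (q.1, -q.2)).2)) := by
  have hd : Differentiable ℝ (fun q : P => F (q.1, -q.2)) :=
    hF.diff.comp (by fun_prop : Differentiable ℝ fun q : P => ((q.1, -q.2) : P))
  have hfd : ∀ q h : P, fderiv ℝ (fun q : P => F (q.1, -q.2)) q h =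
      fderiv ℝ F (q.1, -q.2) (h.1, -h.2) := fun q h =>
    fderiv_comp_lin hF.diff ((ContinuousLinearMap.fst ℝ ℝ ℝ).prod
      (-ContinuousLinearMap.snd ℝ ℝ ℝ)) q h
  refine ⟨fin_map hF.fin _, supp_map M (by fun_prop), nz_map hF.nz (by fun_prop),
    fun q => ((hd q).fst.prodMk (hd q).snd.neg), fun q h => ?_⟩
  have e1 : fderiv ℝ (fun q : P => ((F (q.1, -q.2)).1, -(F (q.1, -q.2)).2)) q h =
      ((fderiv ℝ (fun q : P => F (q.1, -q.2)) q h).1,
        -(fderiv ℝ (fun q : P => F (q.1, -q.2)) q h).2) := by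
    have : fderiv ℝ (fun q : P => ((F (q.1, -q.2)).1, -(F (q.1, -q.2)).2)) q = _ :=
      ((hd q).hasFDerivAt.fst.prodMk (hd q).hasFDerivAt.snd.neg).fderiv
    rw [this]; rfl
  have e2 : W1 (M.map fun ν => red (-ν)) q = W1 M (q.1, -q.2) := by
    rw [W1, int_map_red (by fun_prop) (cont_EE q) (fun ν => EE_red ν q), W1]
    refine integral_congr_ae (Eventually.of_forall fun ν => ?_)
    simp only [EE, Real.cos_neg, Real.sin_neg]
    congr 1; ring
  have e3 : K1 0 (-b) (M.map fun ν => red (-ν)) q = -(K1 0 b M (q.1, -q.2)) := by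
    rw [K1, int_map_red (by fun_prop) (cont_kk _ q) (fun ν => kk_red _ ν q), K1, neg_add,
      ← integral_neg]
    have : ∀ ν, kk 0 (-ν) q = -kk 0 ν (q.1, -q.2) := by
      intro ν
      rw [kk_eq, kk_eq, sg, ta, sg, ta, neg_div]
      simp
    simp only [this]
    simp
  rw [e1, hfd, hF.dF, e2, e3]
  ext
  · simp [sg, ta]
  · simp [sg, ta]; ring

end Pool.Agent.EU

namespace Pool.Agent.EU.D2b

open Pool.Agent.EU Pool.Agent.EU.C0 Pool.Agent.EU.D2a

theorem preconn_mono {g : P → ℝ} (hg : Continuous g)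
    (hm : ∀ τ, Monotone fun σ => g (σ, τ)) {c : ℝ} (hI : OrdConnected {τ | ∃ σ, c < g (σ, τ)}) :
    IsPreconnected {p : P | c < g p} := by
  have key : ∀ x y : P, c < g x → c < g y → x.2 ≤ y.2 →
      ∃ t ⊆ {p : P | c < g p}, x ∈ t ∧ y ∈ t ∧ IsPreconnected t := by
    intro x y hx hy hxy
    obtain ⟨n, hn⟩ := isCompact_Icc.elim_directed_cover (s := Icc x.2 y.2)
      (fun n : ℕ => {τ | c < g ((n : ℝ), τ)})
      (fun n => isOpen_lt continuous_const (hg.comp (by fun_prop)))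
      (fun τ hτ => by
        obtain ⟨σ, hσ⟩ := hI.out ⟨x.1, hx⟩ ⟨y.1, hy⟩ hτ
        obtain ⟨n, hn⟩ := exists_nat_ge σ
        exact mem_iUnion.2 ⟨n, lt_of_lt_of_le hσ (hm τ hn)⟩)
      (directed_of_isDirected_le fun a b hab τ hτ =>
        lt_of_lt_of_le hτ (hm τ (Nat.cast_le.2 hab)))
    set N : ℝ := max (n : ℝ) (max x.1 y.1) with hN
    have hN1 : x.1 ≤ N := (le_max_left _ _).trans (le_max_right _ _)
    have hN2 : y.1 ≤ N := (le_max_right _ _).trans (le_max_right _ _)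
    have hmid : ∀ τ ∈ Icc x.2 y.2, c < g (N, τ) := fun τ hτ =>
      lt_of_lt_of_le (hn hτ) (hm τ (le_max_left _ _))
    refine ⟨(Icc x.1 N ×ˢ {x.2}) ∪ (({N} ×ˢ Icc x.2 y.2) ∪ (Icc y.1 N ×ˢ {y.2})), ?_, ?_, ?_, ?_⟩
    · rintro ⟨σ, τ⟩ (⟨h1, h2⟩ | ⟨h1, h2⟩ | ⟨h1, h2⟩)
      · rw [mem_singleton_iff] at h2
        simp only at h1 h2
        subst h2
        exact lt_of_lt_of_le hx (hm x.2 h1.1)
      · rw [mem_singleton_iff] at h1
        simp only at h1 h2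
        subst h1
        exact hmid τ h2
      · rw [mem_singleton_iff] at h2
        simp only at h1 h2
        subst h2
        exact lt_of_lt_of_le hy (hm y.2 h1.1)
    · exact Or.inl ⟨⟨le_refl _, hN1⟩, rfl⟩
    · exact Or.inr (Or.inr ⟨⟨le_refl _, hN2⟩, rfl⟩)
    · refine IsPreconnected.union (N, x.2) ⟨⟨hN1, le_refl _⟩, rfl⟩ (Or.inl ⟨rfl, le_refl _, hxy⟩)
        (isPreconnected_Icc.prod isPreconnected_singleton) ?_
      exact IsPreconnected.union (N, y.2) ⟨rfl, hxy, le_refl _⟩ ⟨⟨hN2, le_refl _⟩, rfl⟩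
        (isPreconnected_singleton.prod isPreconnected_Icc)
        (isPreconnected_Icc.prod isPreconnected_singleton)
  refine isPreconnected_of_forall_pair fun x hx y hy => ?_
  rcases le_total x.2 y.2 with h | h
  · exact key x y hx hy h
  · obtain ⟨t, h1, h2, h3, h4⟩ := key y x hy hx h
    exact ⟨t, h1, h3, h2, h4⟩

/-- `(e^{n x} - 1) / x` as a multiple of `hh` -/
theorem tendsto_hh (x : ℝ) (k : ℝ) (hk : 0 < k) :
    Tendsto (fun n : ℕ => ENNReal.ofReal (k * ((n : ℝ) * hh (n * x)))) atTop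
      (𝓝 (ENNReal.ofReal k * (ENNReal.ofReal (-x))⁻¹)) := by
  rcases lt_or_ge x 0 with hx | hx
  · have h1 : ∀ n : ℕ, k * ((n : ℝ) * hh (n * x)) = k * ((1 - Real.exp (n * x)) * (-x)⁻¹) := by
      intro n
      have := hh_mul (n * x)
      have hx' : x ≠ 0 := hx.ne
      have h2 : (n : ℝ) * hh (n * x) = (1 - Real.exp (n * x)) * (-x)⁻¹ := by
        field_simp
        linarith
      rw [h2]
    simp only [h1]
    rw [← ENNReal.ofReal_inv_of_pos (by linarith), ← ENNReal.ofReal_mul hk.le]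
    refine ENNReal.tendsto_ofReal ?_
    have h3 : Tendsto (fun n : ℕ => (n : ℝ) * x) atTop atBot :=
      tendsto_natCast_atTop_atTop.atTop_mul_const_of_neg hx
    have h4 := Real.tendsto_exp_atBot.comp h3
    have h5 : Tendsto (fun n : ℕ => k * ((1 - Real.exp (n * x)) * (-x)⁻¹)) atTop
        (𝓝 (k * ((1 - 0) * (-x)⁻¹))) :=
      ((tendsto_const_nhds.sub h4).mul_const _).const_mul k
    simpa using h5
  · have h0 : ENNReal.ofReal (-x) = 0 := ENNReal.ofReal_of_nonpos (by linarith)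
    have hk' : ENNReal.ofReal k ≠ 0 := by simpa using hk
    rw [h0, ENNReal.inv_zero, ENNReal.mul_top hk']
    refine ENNReal.tendsto_ofReal_atTop.comp ?_
    refine tendsto_atTop_mono (f := fun n : ℕ => k * (n : ℝ)) (fun n => ?_)
      (tendsto_natCast_atTop_atTop.const_mul_atTop hk)
    refine mul_le_mul_of_nonneg_left ?_ hk.le
    have h1 : 1 ≤ hh (n * x) := by
      have hnx : 0 ≤ (n : ℝ) * x := by positivity
      rcases hnx.eq_or_lt with h | h
      · rw [← h]; simp [hh]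
      · have := hh_mul (n * x)
        have h2 := Real.add_one_le_exp ((n : ℝ) * x)
        by_contra hcon
        push Not at hcon
        nlinarith
    nlinarith [Nat.cast_nonneg (α := ℝ) n]

/-- continuity (integrated exponentials): the primitive in `σ` -/
theorem prim {M : Measure ℝ} [IsFiniteMeasure M] (hs : M (Icc (-π) π)ᶜ = 0) {ξ ρ : ℝ → ℝ}
    (hξ : ContDiff ℝ ∞ ξ) (hρ : ContDiff ℝ ∞ ρ) {G : ℝ → ℝ} {τ : ℝ}
    (hG : ∀ σ, HasDerivAt G (∫ ν, Real.exp (σ * ξ ν + τ * ρ ν) ∂M) σ) (σ : ℝ) :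
    Integrable (fun ν => Real.exp (τ * ρ ν) * (σ * hh (σ * ξ ν))) M ∧
    G σ - G 0 = ∫ ν, Real.exp (τ * ρ ν) * (σ * hh (σ * ξ ν)) ∂M := by
  have hsm : ContDiff ℝ ∞ (fun x : ℝ × ℝ => Real.exp (τ * ρ x.1) * (x.2 * hh (x.2 * ξ x.1))) := by
    have := smooth_hh
    fun_prop
  have hp := fun s => hasFDerivAt_param (f := fun ν s => Real.exp (τ * ρ ν) * (s * hh (s * ξ ν)))
    M hs hsm s
  refine ⟨(hp σ).2.1, ?_⟩
  have hd : ∀ s, HasDerivAt (fun s => ∫ ν, Real.exp (τ * ρ ν) * (s * hh (s * ξ ν)) ∂M)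
      (∫ ν, Real.exp (s * ξ ν + τ * ρ ν) ∂M) s := by
    intro s
    have h1 := (hp s).2.2.hasDerivAt
    refine h1.congr_deriv ?_
    rw [ContinuousLinearMap.integral_apply (hp s).1]
    refine integral_congr_ae (Eventually.of_forall fun ν => ?_)
    have h2 := ((hasDerivAt_g (ξ ν) s).const_mul (Real.exp (τ * ρ ν))).hasFDerivAt.fderiv
    show (fderiv ℝ (fun s => Real.exp (τ * ρ ν) * (s * hh (s * ξ ν))) s) 1 = _
    rw [h2]
    simp [Real.exp_add, mul_comm]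
  have h3 := is_const_of_deriv_eq_zero (f := fun s => G s - ∫ ν, Real.exp (τ * ρ ν) *
    (s * hh (s * ξ ν)) ∂M) (fun s => ((hG s).sub (hd s)).differentiableAt) (fun s => by
      have h := ((hG s).sub (hd s)).deriv
      rw [sub_self] at h
      exact h) σ 0
  have h4 : ∫ ν, Real.exp (τ * ρ ν) * ((0:ℝ) * hh (0 * ξ ν)) ∂M = 0 := by simp
  rw [h4] at h3
  linarith

/-- if the integral diverges the values are unbounded -/
theorem unbdd {M : Measure ℝ} [IsFiniteMeasure M] (hs : M (Icc (-π) π)ᶜ = 0) {ξ ρ : ℝ → ℝ}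
    (hξ : ContDiff ℝ ∞ ξ) (hρ : ContDiff ℝ ∞ ρ) (hρ1 : ∀ ν, |ρ ν| ≤ 1) {G : ℝ → ℝ} {τ : ℝ}
    (hG : ∀ σ, HasDerivAt G (∫ ν, Real.exp (σ * ξ ν + τ * ρ ν) ∂M) σ)
    (hI : ∫⁻ ν, (ENNReal.ofReal (-(ξ ν)))⁻¹ ∂M = ⊤) (c : ℝ) : ∃ σ, c < G σ := by
  by_contra hcon
  push Not at hcon
  have h1 : ∀ n : ℕ, ∫⁻ ν, ENNReal.ofReal (Real.exp (τ * ρ ν) * ((n : ℝ) * hh (n * ξ ν))) ∂M ≤
      ENNReal.ofReal (c - G 0) := by
    intro n
    obtain ⟨hi, he⟩ := prim hs hξ hρ hG n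
    rw [← ofReal_integral_eq_lintegral_ofReal hi, ← he]
    · exact ENNReal.ofReal_le_ofReal (by linarith [hcon n])
    · refine Eventually.of_forall fun ν => ?_
      have : 0 ≤ hh ((n : ℝ) * ξ ν) := by
        rw [hh]
        exact intervalIntegral.integral_nonneg zero_le_one fun r _ => (Real.exp_pos _).le
      positivity
  have h2 : ∫⁻ ν, ENNReal.ofReal (Real.exp (τ * ρ ν)) * (ENNReal.ofReal (-(ξ ν)))⁻¹ ∂M ≤
      ENNReal.ofReal (c - G 0) := by
    have h3 : ∀ ν, ENNReal.ofReal (Real.exp (τ * ρ ν)) * (ENNReal.ofReal (-(ξ ν)))⁻¹ =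
        liminf (fun n : ℕ => ENNReal.ofReal (Real.exp (τ * ρ ν) * ((n : ℝ) * hh (n * ξ ν)))) atTop :=
      fun ν => (tendsto_hh (ξ ν) (Real.exp (τ * ρ ν)) (Real.exp_pos _)).liminf_eq.symm
    simp only [h3]
    refine (lintegral_liminf_le' fun n => ?_).trans ?_
    · exact (prim hs hξ hρ hG n).1.1.aemeasurable.ennreal_ofReal
    · exact liminf_le_of_le (by isBoundedDefault) fun b hb => by
        obtain ⟨n, hn⟩ := (hb.exists)
        exact hn.trans (h1 n)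
  have h4 : ENNReal.ofReal (Real.exp (-|τ|)) * ∫⁻ ν, (ENNReal.ofReal (-(ξ ν)))⁻¹ ∂M ≤
      ENNReal.ofReal (c - G 0) := by
    rw [← lintegral_const_mul' _ _ ENNReal.ofReal_ne_top]
    refine (lintegral_mono fun ν => ?_).trans h2
    refine mul_le_mul_left ?_ _
    refine ENNReal.ofReal_le_ofReal (Real.exp_le_exp.2 ?_)
    have h5 : |τ * ρ ν| ≤ |τ| := by
      rw [abs_mul]
      exact mul_le_of_le_one_right (abs_nonneg _) (hρ1 ν)
    exact (abs_le.1 h5).1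
  rw [hI, ENNReal.mul_top (by simp [Real.exp_pos])] at h4
  exact absurd h4 (by simp)

/-- if the integral converges the supremum is explicit -/
theorem bdd {M : Measure ℝ} [IsFiniteMeasure M] (hs : M (Icc (-π) π)ᶜ = 0) {ξ ρ : ℝ → ℝ}
    (hξ : ContDiff ℝ ∞ ξ) (hρ : ContDiff ℝ ∞ ρ) (hρ1 : ∀ ν, |ρ ν| ≤ 1) {G : ℝ → ℝ → ℝ}
    (hm : ∫⁻ ν, (ENNReal.ofReal |ξ ν|)⁻¹ ∂M ≠ ⊤ → ∃ m : ℝ → ℝ, (Monotone m ∨ Antitone m) ∧
      ∀ σ τ, G σ τ = m τ + ∫ ν, (Real.exp (σ * ξ ν + τ * ρ ν) - 1) / ξ ν ∂M)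
    (hI : ∫⁻ ν, (ENNReal.ofReal (-(ξ ν)))⁻¹ ∂M ≠ ⊤) (c : ℝ) :
    OrdConnected {τ | ∃ σ, c < G σ τ} := by
  have hmeas : Measurable fun ν : ℝ => (ENNReal.ofReal (-(ξ ν)))⁻¹ := by
    have := hξ.continuous.measurable
    fun_prop
  have hneg : ∀ᵐ ν ∂M, ξ ν < 0 := by
    have := ae_lt_top hmeas hI
    filter_upwards [this] with ν hν
    by_contra hc
    push Not at hc
    rw [ENNReal.ofReal_of_nonpos (by linarith)] at hν
    simp at hν
  have habs : ∫⁻ ν, (ENNReal.ofReal |ξ ν|)⁻¹ ∂M ≠ ⊤ := by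
    have : ∫⁻ ν, (ENNReal.ofReal |ξ ν|)⁻¹ ∂M = ∫⁻ ν, (ENNReal.ofReal (-(ξ ν)))⁻¹ ∂M := by
      refine lintegral_congr_ae ?_
      filter_upwards [hneg] with ν hν
      rw [abs_of_neg hν]
    rw [this]; exact hI
  obtain ⟨m, hmm, hG⟩ := hm habs
  have hw : Integrable (fun ν => (-(ξ ν))⁻¹) M := by
    refine ⟨(hξ.continuous.measurable.neg.inv).aestronglyMeasurable, ?_⟩
    refine lt_of_le_of_lt (lintegral_mono_ae ?_) (lt_top_iff_ne_top.mpr hI)
    filter_upwards [hneg] with ν hν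
    rw [← ENNReal.ofReal_inv_of_pos (by linarith), ← ofReal_norm, norm_inv, Real.norm_eq_abs,
      abs_of_pos (by linarith)]
  have hwE : ∀ σ τ : ℝ, Integrable (fun ν => (-(ξ ν))⁻¹ * Real.exp (σ * ξ ν + τ * ρ ν)) M := by
    intro σ τ
    refine int_weight hs hw ?_
    have := hξ.continuous
    have := hρ.continuous
    fun_prop
  have hsplit : ∀ σ τ : ℝ, ∫ ν, (Real.exp (σ * ξ ν + τ * ρ ν) - 1) / ξ ν ∂M =
      ∫ ν, (-(ξ ν))⁻¹ ∂M - ∫ ν, (-(ξ ν))⁻¹ * Real.exp (σ * ξ ν + τ * ρ ν) ∂M := by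
    intro σ τ
    rw [← integral_sub hw (hwE σ τ)]
    refine integral_congr_ae (Eventually.of_forall fun ν => ?_)
    simp only [inv_neg, div_eq_mul_inv]; ring
  have hlim : ∀ τ : ℝ, Tendsto (fun n : ℕ => ∫ ν, (-(ξ ν))⁻¹ * Real.exp (n * ξ ν + τ * ρ ν) ∂M)
      atTop (𝓝 0) := by
    intro τ
    have h0 : (0:ℝ) = ∫ _ν : ℝ, (0:ℝ) ∂M := by simp
    rw [h0]
    refine tendsto_integral_of_dominated_convergence (fun ν => (-(ξ ν))⁻¹ * Real.exp |τ|)
      (fun n => (hwE n τ).1) (hw.mul_const _) ?_ ?_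
    · intro n
      filter_upwards [hneg] with ν hν
      have hpos : 0 < (-(ξ ν))⁻¹ := inv_pos.2 (by linarith)
      rw [norm_mul, Real.norm_eq_abs, Real.norm_eq_abs, abs_of_pos hpos, abs_of_pos (Real.exp_pos _)]
      refine mul_le_mul_of_nonneg_left (Real.exp_le_exp.2 ?_) hpos.le
      have h5 : |τ * ρ ν| ≤ |τ| := by
        rw [abs_mul]
        exact mul_le_of_le_one_right (abs_nonneg _) (hρ1 ν)
      have h6 : (n : ℝ) * ξ ν ≤ 0 := mul_nonpos_of_nonneg_of_nonpos (Nat.cast_nonneg _) hν.le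
      linarith [(abs_le.1 h5).2]
    · filter_upwards [hneg] with ν hν
      have h3 : Tendsto (fun n : ℕ => (n : ℝ) * ξ ν + τ * ρ ν) atTop atBot :=
        tendsto_atBot_add_const_right _ _
          (tendsto_natCast_atTop_atTop.atTop_mul_const_of_neg hν)
      have h4 := (Real.tendsto_exp_atBot.comp h3).const_mul ((-(ξ ν))⁻¹)
      simpa using h4
  have hiff : {τ | ∃ σ, c < G σ τ} = m ⁻¹' (Ioi (c - ∫ ν, (-(ξ ν))⁻¹ ∂M)) := by
    ext τ
    simp only [mem_ofPred_eq, mem_preimage, mem_Ioi]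
    constructor
    · rintro ⟨σ, hσ⟩
      rw [hG, hsplit] at hσ
      have : 0 ≤ ∫ ν, (-(ξ ν))⁻¹ * Real.exp (σ * ξ ν + τ * ρ ν) ∂M := by
        refine integral_nonneg_of_ae ?_
        filter_upwards [hneg] with ν hν
        have hpos : 0 < (-(ξ ν))⁻¹ := inv_pos.2 (by linarith)
        have := Real.exp_pos (σ * ξ ν + τ * ρ ν)
        simp only [Pi.zero_apply]
        positivity
      linarith
    · intro h
      have h1 : 0 < m τ + ∫ ν, (-(ξ ν))⁻¹ ∂M - c := by linarith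
      obtain ⟨n, hn⟩ := ((hlim τ).eventually (gt_mem_nhds h1)).exists
      refine ⟨n, ?_⟩
      rw [hG, hsplit]
      linarith
  rw [hiff]
  rcases hmm with h | h
  · exact ordConnected_Ioi.preimage_mono h
  · exact ordConnected_Ioi.preimage_anti h

theorem conn_gt {M : Measure ℝ} [IsFiniteMeasure M] (hs : M (Icc (-π) π)ᶜ = 0) {ξ ρ : ℝ → ℝ}
    (hξ : ContDiff ℝ ∞ ξ) (hρ : ContDiff ℝ ∞ ρ) (hρ1 : ∀ ν, |ρ ν| ≤ 1) {G : ℝ → ℝ → ℝ}
    (hc : Continuous fun p : P => G p.1 p.2)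
    (hG : ∀ τ σ, HasDerivAt (fun σ => G σ τ) (∫ ν, Real.exp (σ * ξ ν + τ * ρ ν) ∂M) σ)
    (hm : ∫⁻ ν, (ENNReal.ofReal |ξ ν|)⁻¹ ∂M ≠ ⊤ → ∃ m : ℝ → ℝ, (Monotone m ∨ Antitone m) ∧
      ∀ σ τ, G σ τ = m τ + ∫ ν, (Real.exp (σ * ξ ν + τ * ρ ν) - 1) / ξ ν ∂M) (c : ℝ) :
    IsPreconnected {p : P | c < G p.1 p.2} := by
  refine preconn_mono (g := fun p : P => G p.1 p.2) hc (fun τ => ?_) ?_
  · refine monotone_of_deriv_nonneg (fun σ => (hG τ σ).differentiableAt) fun σ => ?_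
    rw [(hG τ σ).deriv]
    exact integral_nonneg fun ν => (Real.exp_pos _).le
  · by_cases hI : ∫⁻ ν, (ENNReal.ofReal (-(ξ ν)))⁻¹ ∂M = ⊤
    · have : {τ | ∃ σ, c < (fun p : P => G p.1 p.2) (σ, τ)} = univ := by
        ext τ
        simp only [mem_ofPred_eq, mem_univ, iff_true]
        exact unbdd hs hξ hρ hρ1 (hG τ) hI c
      rw [this]
      exact ordConnected_univ
    · exact bdd hs hξ hρ hρ1 hm hI c

theorem conn_lt {M : Measure ℝ} [IsFiniteMeasure M] (hs : M (Icc (-π) π)ᶜ = 0) {ξ ρ : ℝ → ℝ}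
    (hξ : ContDiff ℝ ∞ ξ) (hρ : ContDiff ℝ ∞ ρ) (hρ1 : ∀ ν, |ρ ν| ≤ 1) {G : ℝ → ℝ → ℝ}
    (hc : Continuous fun p : P => G p.1 p.2)
    (hG : ∀ τ σ, HasDerivAt (fun σ => G σ τ) (∫ ν, Real.exp (σ * ξ ν + τ * ρ ν) ∂M) σ)
    (hm : ∫⁻ ν, (ENNReal.ofReal |ξ ν|)⁻¹ ∂M ≠ ⊤ → ∃ m : ℝ → ℝ, (Monotone m ∨ Antitone m) ∧
      ∀ σ τ, G σ τ = m τ + ∫ ν, (Real.exp (σ * ξ ν + τ * ρ ν) - 1) / ξ ν ∂M) (c : ℝ) :
    IsPreconnected {p : P | G p.1 p.2 < c} := by
  have hn : Continuous fun p : P => ((-p.1, p.2) : P) := by fun_prop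
  have h := conn_gt (ξ := fun ν => -(ξ ν)) (ρ := ρ) (G := fun σ τ => -(G (-σ) τ)) hs hξ.neg hρ hρ1
    (hc.comp hn).neg ?_ ?_ (-c)
  · have h2 := h.image (fun p : P => ((-p.1, p.2) : P)) hn.continuousOn
    refine (congrArg IsPreconnected ?_).mp h2
    ext p
    simp only [mem_image, mem_ofPred_eq]
    constructor
    · rintro ⟨x, hx, rfl⟩
      simp only
      linarith
    · intro hp
      exact ⟨(-p.1, p.2), by simp only [neg_neg]; linarith, by simp⟩
  · intro τ σ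
    have h1 : HasDerivAt (fun σ => -(G (-σ) τ)) (-((∫ ν, Real.exp (-σ * ξ ν + τ * ρ ν) ∂M) * (-1)))
        σ := ((hG τ (-σ)).comp σ (hasDerivAt_neg σ)).neg
    refine h1.congr_deriv ?_
    rw [mul_neg_one, neg_neg]
    refine integral_congr_ae (Eventually.of_forall fun ν => ?_)
    simp only; congr 1; ring
  · intro hI
    simp only [abs_neg] at hI
    obtain ⟨m, hmm, h2⟩ := hm hI
    refine ⟨fun τ => -(m τ), ?_, fun σ τ => ?_⟩
    · rcases hmm with h | h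
      · exact Or.inr fun a b hab => neg_le_neg (h hab)
      · exact Or.inl fun a b hab => neg_le_neg (h hab)
    · rw [h2, neg_add, ← integral_neg]
      congr 1
      refine integral_congr_ae (Eventually.of_forall fun ν => ?_)
      simp only
      rw [show σ * -ξ ν = -σ * ξ ν by ring, div_neg]

/-- point with coordinates `σ, τ` in the frame `γ` -/
noncomputable def pt (γ : ℝ) (p : P) : P :=
  (p.1 * cos γ - p.2 * sin γ, p.1 * sin γ + p.2 * cos γ)

theorem pt_coord (γ : ℝ) (q : P) : pt γ (sg γ q, ta γ q) = q := by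
  obtain ⟨h1, h2⟩ := coord γ q
  exact Prod.ext h1.symm h2.symm

theorem sg_pt (γ : ℝ) (p : P) : sg γ (pt γ p) = p.1 := by
  have := Real.sin_sq_add_cos_sq γ
  simp only [sg, pt]
  linear_combination p.1 * this

theorem ta_pt (γ : ℝ) (p : P) : ta γ (pt γ p) = p.2 := by
  have := Real.sin_sq_add_cos_sq γ
  simp only [ta, pt]
  linear_combination p.2 * this

theorem cont_pt (γ : ℝ) : Continuous (pt γ) := by unfold pt; fun_prop

theorem image_pt {γ : ℝ} {S : P → Prop} : pt γ '' {p | S (pt γ p)} = {q | S q} := by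
  ext q
  simp only [mem_image, mem_ofPred_eq]
  constructor
  · rintro ⟨p, hp, rfl⟩; exact hp
  · intro hq
    exact ⟨(sg γ q, ta γ q), by rw [pt_coord]; exact hq, pt_coord γ q⟩

theorem EE_pt (γ ν σ τ : ℝ) : EE ν (pt γ (σ, τ)) =
    Real.exp (σ * chX γ ν + τ * (cos (ν / 2) * sin (ν / 2 - γ))) := by
  rw [EE_eq, chX, Real.cos_sub, Real.sin_sub]
  congr 1
  simp only [pt]
  ring

theorem EE_pt' (γ ν σ τ : ℝ) : Real.exp (-(pt γ (σ, τ)).1) * EE ν (pt γ (σ, τ)) =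
    Real.exp (τ * chY γ ν + σ * -(sin (ν / 2) * sin (ν / 2 - γ))) := by
  rw [EE_eq', chY, Real.cos_sub, Real.sin_sub]
  congr 1
  simp only [pt]
  ring

theorem hasDerivAt_pt1 (γ σ τ : ℝ) : HasDerivAt (fun σ => pt γ (σ, τ)) (cos γ, sin γ) σ := by
  have h1 : HasDerivAt (fun σ : ℝ => σ * cos γ - τ * sin γ) (cos γ) σ := by
    simpa using ((hasDerivAt_id σ).mul_const (cos γ)).sub_const (τ * sin γ)
  have h2 : HasDerivAt (fun σ : ℝ => σ * sin γ + τ * cos γ) (sin γ) σ := by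
    simpa using ((hasDerivAt_id σ).mul_const (sin γ)).add_const (τ * cos γ)
  exact h1.prodMk h2

theorem hasDerivAt_pt2 (γ σ τ : ℝ) : HasDerivAt (fun τ => pt γ (σ, τ)) (-sin γ, cos γ) τ := by
  have h1 : HasDerivAt (fun τ : ℝ => σ * cos γ - τ * sin γ) (-sin γ) τ := by
    simpa using ((hasDerivAt_id τ).mul_const (sin γ)).const_sub (σ * cos γ)
  have h2 : HasDerivAt (fun τ : ℝ => σ * sin γ + τ * cos γ) (cos γ) τ := by
    simpa using ((hasDerivAt_id τ).mul_const (cos γ)).const_add (σ * sin γ)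
  exact h1.prodMk h2

theorem mono_gt (a : ℝ) : Monotone (gt a) :=
  monotone_of_deriv_nonneg (fun t => (hasDerivAt_gt a t).differentiableAt) fun t => by
    rw [(hasDerivAt_gt a t).deriv]; exact (Real.exp_pos _).le

theorem mono_or_anti (k a β : ℝ) : Monotone (fun t => k + β * gt a t) ∨
    Antitone (fun t => k + β * gt a t) := by
  rcases le_total 0 β with h | h
  · exact Or.inl fun x y hxy => by
      simp only
      have := mul_le_mul_of_nonneg_left (mono_gt a hxy) h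
      linarith
  · exact Or.inr fun x y hxy => by
      simp only
      have := mul_le_mul_of_nonpos_left (mono_gt a hxy) h
      linarith

theorem lint_le {M : Measure ℝ} {f g : ℝ → ℝ} (h : ∀ ν, |f ν| ≤ |g ν|)
    (hf : ∫⁻ ν, (ENNReal.ofReal |f ν|)⁻¹ ∂M ≠ ⊤) : ∫⁻ ν, (ENNReal.ofReal |g ν|)⁻¹ ∂M ≠ ⊤ := by
  refine ne_top_of_le_ne_top hf (lintegral_mono fun ν => ?_)
  exact ENNReal.inv_le_inv.2 (ENNReal.ofReal_le_ofReal (h ν))

theorem abs_chX_le (γ ν : ℝ) : |chX γ ν| ≤ |cos (ν / 2 - γ)| := by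
  rw [chX, abs_mul]
  exact mul_le_of_le_one_left (abs_nonneg _) (Real.abs_cos_le_one _)

theorem abs_chY_le (γ ν : ℝ) : |chY γ ν| ≤ |cos (ν / 2 - γ)| := by
  rw [chY, abs_mul]
  exact mul_le_of_le_one_left (abs_nonneg _) (Real.abs_sin_le_one _)

theorem ae_ne {M : Measure ℝ} {f : ℝ → ℝ} (hf : Continuous f)
    (h : ∫⁻ ν, (ENNReal.ofReal |f ν|)⁻¹ ∂M ≠ ⊤) : ∀ᵐ ν ∂M, f ν ≠ 0 := by
  have hm : Measurable fun ν => (ENNReal.ofReal |f ν|)⁻¹ := by
    have := hf.measurable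
    fun_prop
  filter_upwards [ae_lt_top hm h] with ν hν hc
  simp [hc] at hν

end Pool.Agent.EU.D2b

namespace Pool.Agent.EU

open C0 D2a D2b

/-- half plane preimages are connected -/
theorem typeI_conn {γ b : ℝ} {M : Measure ℝ} {F : P → P} (hF : TypeI γ b M F) (c : ℝ) :
    IsPreconnected {q | c < (F q).1} ∧ IsPreconnected {q | (F q).1 < c} ∧
    IsPreconnected {q | c < (F q).2} ∧ IsPreconnected {q | (F q).2 < c} := by
  have hfin := hF.fin
  have hs := hF.supp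
  have hsmX : ContDiff ℝ ∞ (chX γ) := by unfold chX; fun_prop
  have hsmY : ContDiff ℝ ∞ (chY γ) := by unfold chY; fun_prop
  have hs1 : ContDiff ℝ ∞ fun ν : ℝ => cos (ν / 2) * sin (ν / 2 - γ) := by fun_prop
  have hs2 : ContDiff ℝ ∞ fun ν : ℝ => -(sin (ν / 2) * sin (ν / 2 - γ)) := by fun_prop
  have hb1 : ∀ ν : ℝ, |cos (ν / 2) * sin (ν / 2 - γ)| ≤ 1 := fun ν => by
    rw [abs_mul]
    exact mul_le_one₀ (Real.abs_cos_le_one _) (abs_nonneg _) (Real.abs_sin_le_one _)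
  have hb2 : ∀ ν : ℝ, |-(sin (ν / 2) * sin (ν / 2 - γ))| ≤ 1 := fun ν => by
    rw [abs_neg, abs_mul]
    exact mul_le_one₀ (Real.abs_sin_le_one _) (abs_nonneg _) (Real.abs_sin_le_one _)
  have hFc : Continuous F := hF.diff.continuous
  -- first component
  have hcX : Continuous fun p : P => (F (pt γ (p.1, p.2))).1 := by
    have := cont_pt γ
    exact continuous_fst.comp (hFc.comp (this.comp (by fun_prop)))
  have hGX : ∀ τ σ : ℝ, HasDerivAt (fun σ => (F (pt γ (σ, τ))).1)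
      (∫ ν, Real.exp (σ * chX γ ν + τ * (cos (ν / 2) * sin (ν / 2 - γ))) ∂M) σ := by
    intro τ σ
    have h1 := ((diff_F1 hF (pt γ (σ, τ))).hasFDerivAt).comp_hasDerivAt σ (hasDerivAt_pt1 γ σ τ)
    refine h1.congr_deriv ?_
    rw [fderiv_F1 hF, W1]
    simp only [EE_pt]
    have e1 : sg γ (cos γ, sin γ) = 1 := by
      have := Real.sin_sq_add_cos_sq γ
      simp only [sg]; linarith
    have e2 : ta γ (cos γ, sin γ) = 0 := by simp only [ta]; ring
    rw [e1, e2]; ring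
  have hmX : ∫⁻ ν, (ENNReal.ofReal |chX γ ν|)⁻¹ ∂M ≠ ⊤ → ∃ m : ℝ → ℝ, (Monotone m ∨ Antitone m) ∧
      ∀ σ τ, (F (pt γ (σ, τ))).1 = m τ + ∫ ν, (Real.exp (σ * chX γ ν +
        τ * (cos (ν / 2) * sin (ν / 2 - γ))) - 1) / chX γ ν ∂M := by
    intro hI
    refine ⟨fun τ => (F 0).1 + bp γ b M * gt (sin γ) τ, mono_or_anti _ _ _, fun σ τ => ?_⟩
    obtain ⟨-, -, -, h, -, -⟩ := typeI_finite hF (lint_le (abs_chX_le γ) hI) (pt γ (σ, τ))
    rw [ta_pt] at h
    have e1 : ∫ ν, kx (ν / 2) (pt γ (σ, τ)) / cos (ν / 2 - γ) ∂M =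
        ∫ ν, (Real.exp (σ * chX γ ν + τ * (cos (ν / 2) * sin (ν / 2 - γ))) - 1) / chX γ ν ∂M := by
      refine integral_congr_ae ?_
      filter_upwards [ae_ne hsmX.continuous hI] with ν hν
      rw [← EE_pt, EE_eq]
      have h1 := cos_mul_kx (ν / 2) (pt γ (σ, τ))
      rw [mul_comm (cos (ν / 2)) ((pt γ (σ, τ)).1 * cos (ν / 2) + _)] at h1
      rw [← h1]
      rw [chX] at hν ⊢
      rw [mul_div_mul_left _ _ (left_ne_zero_of_mul hν)]
    rw [e1] at h
    linarith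
  -- second component, in the variables `(τ, σ)`
  have hcY : Continuous fun p : P => (F (pt γ (p.2, p.1))).2 := by
    have := cont_pt γ
    exact continuous_snd.comp (hFc.comp (this.comp (by fun_prop)))
  have hGY : ∀ σ τ : ℝ, HasDerivAt (fun τ => (F (pt γ (σ, τ))).2)
      (∫ ν, Real.exp (τ * chY γ ν + σ * -(sin (ν / 2) * sin (ν / 2 - γ))) ∂M) τ := by
    intro σ τ
    have h1 := ((diff_F2 hF (pt γ (σ, τ))).hasFDerivAt).comp_hasDerivAt τ (hasDerivAt_pt2 γ σ τ)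
    refine h1.congr_deriv ?_
    rw [fderiv_F2 hF, W1]
    simp only [← EE_pt']
    have e1 : ta γ (-sin γ, cos γ) = 1 := by
      have := Real.sin_sq_add_cos_sq γ
      simp only [ta]; linarith
    have e2 : sg γ (-sin γ, cos γ) = 0 := by simp only [sg]; ring
    rw [e1, e2, integral_const_mul]; ring
  have hmY : ∫⁻ ν, (ENNReal.ofReal |chY γ ν|)⁻¹ ∂M ≠ ⊤ → ∃ m : ℝ → ℝ, (Monotone m ∨ Antitone m) ∧
      ∀ τ σ, (F (pt γ (σ, τ))).2 = m σ + ∫ ν, (Real.exp (τ * chY γ ν +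
        σ * -(sin (ν / 2) * sin (ν / 2 - γ))) - 1) / chY γ ν ∂M := by
    intro hI
    refine ⟨fun σ => (F 0).2 + (-(bp γ b M)) * gt (cos γ) σ, mono_or_anti _ _ _, fun τ σ => ?_⟩
    obtain ⟨-, -, -, -, h, -⟩ := typeI_finite hF (lint_le (abs_chY_le γ) hI) (pt γ (σ, τ))
    rw [sg_pt] at h
    have e1 : ∫ ν, ky (ν / 2) (pt γ (σ, τ)) / cos (ν / 2 - γ) ∂M =
        ∫ ν, (Real.exp (τ * chY γ ν + σ * -(sin (ν / 2) * sin (ν / 2 - γ))) - 1) /
          chY γ ν ∂M := by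
      refine integral_congr_ae ?_
      filter_upwards [ae_ne hsmY.continuous hI] with ν hν
      rw [← EE_pt', EE_eq']
      have h1 := sin_mul_ky (ν / 2) (pt γ (σ, τ))
      rw [mul_comm (sin (ν / 2)) (-((pt γ (σ, τ)).1 * sin (ν / 2)) + _)] at h1
      rw [← h1]
      rw [chY] at hν ⊢
      rw [mul_div_mul_left _ _ (left_ne_zero_of_mul hν)]
    rw [e1] at h
    linarith
  refine ⟨?_, ?_, ?_, ?_⟩
  · have h := (conn_gt hs hsmX hs1 hb1 hcX hGX hmX c).image (pt γ) (cont_pt γ).continuousOn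
    exact (congrArg IsPreconnected (image_pt (S := fun q => c < (F q).1))).mp h
  · have h := (conn_lt hs hsmX hs1 hb1 hcX hGX hmX c).image (pt γ) (cont_pt γ).continuousOn
    exact (congrArg IsPreconnected (image_pt (S := fun q => (F q).1 < c))).mp h
  · have h := ((conn_gt (G := fun τ σ => (F (pt γ (σ, τ))).2) hs hsmY hs2 hb2 hcY hGY hmY c).image
      Prod.swap continuous_swap.continuousOn).image (pt γ) (cont_pt γ).continuousOn
    refine (congrArg IsPreconnected ?_).mp h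
    rw [← image_pt (γ := γ) (S := fun q => c < (F q).2)]
    congr 1
    ext p
    simp only [mem_image, mem_ofPred_eq]
    constructor
    · rintro ⟨x, hx, rfl⟩; exact hx
    · intro hp; exact ⟨p.swap, hp, by simp⟩
  · have h := ((conn_lt (G := fun τ σ => (F (pt γ (σ, τ))).2) hs hsmY hs2 hb2 hcY hGY hmY c).image
      Prod.swap continuous_swap.continuousOn).image (pt γ) (cont_pt γ).continuousOn
    refine (congrArg IsPreconnected ?_).mp h
    rw [← image_pt (γ := γ) (S := fun q => (F q).2 < c)]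
    congr 1
    ext p
    simp only [mem_image, mem_ofPred_eq]
    constructor
    · rintro ⟨x, hx, rfl⟩; exact hx
    · intro hp; exact ⟨p.swap, hp, by simp⟩

end Pool.Agent.EU
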