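import Pool.Agent.EU.D3bE

/-!
First family, `γ = 0`: the quadrants `X < 0 < Y` and `X, Y < 0`.
-/

set_option autoImplicit false
open scoped ContDiff Topology ENNReal
open Real Set MeasureTheory Filter

namespace Pool.Agent.EU.D3b

open Pool.Agent.EU Pool.Agent.EU.C0 Pool.Agent.EU.D2a

/-! ### reflection -/

theorem chX_neg (ν : ℝ) : chX 0 (red (-ν)) = chX 0 ν := by
  rw [D2b.chX_red, chX, chX]
  have e : -ν / 2 = -(ν / 2) := by ring
  rw [e, sub_zero, sub_zero, cos_neg]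

theorem chY_neg (ν : ℝ) : chY 0 (red (-ν)) = -chY 0 ν := by
  rw [D2b.chY_red, chY, chY]
  have e : -ν / 2 = -(ν / 2) := by ring
  rw [e, sub_zero, sub_zero, cos_neg, sin_neg]
  ring

theorem meas_rn : Measurable fun ν : ℝ => red (-ν) := D2b.meas_red.comp measurable_neg

theorem meas_chX : Measurable (chX 0) := by unfold chX; fun_prop

theorem meas_chY : Measurable (chY 0) := by unfold chY; fun_prop

theorem sc_eq (ν : ℝ) : sin (ν / 2) * cos (ν / 2) = chY 0 ν := by simp [chY]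

theorem c_zero (ν : ℝ) : cos (ν / 2) = 0 ↔ chX 0 ν = 0 := by simp [chX]

theorem lint_chX (M : Measure ℝ) :
    ∫⁻ ν, (ENNReal.ofReal (chX 0 ν))⁻¹ ∂(M.map fun ν => red (-ν)) =
      ∫⁻ ν, (ENNReal.ofReal (chX 0 ν))⁻¹ ∂M := by
  rw [lintegral_map (f := fun ν => (ENNReal.ofReal (chX 0 ν))⁻¹)
    (ENNReal.measurable_ofReal.comp meas_chX).inv meas_rn]
  simp only [chX_neg]

theorem lint_chY (M : Measure ℝ) :
    ∫⁻ ν, (ENNReal.ofReal (-chY 0 ν))⁻¹ ∂(M.map fun ν => red (-ν)) =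
      ∫⁻ ν, (ENNReal.ofReal (chY 0 ν))⁻¹ ∂M := by
  rw [lintegral_map (f := fun ν => (ENNReal.ofReal (-chY 0 ν))⁻¹)
    (ENNReal.measurable_ofReal.comp meas_chY.neg).inv meas_rn]
  simp only [chY_neg, neg_neg]

theorem bp_neg (b : ℝ) (M : Measure ℝ) : bp 0 (-b) (M.map fun ν => red (-ν)) = -bp 0 b M := by
  have hmt : Measurable Real.tan := by
    have : Real.tan = fun x => sin x / cos x := by
      funext x
      exact tan_eq_sin_div_cos x
    rw [this]
    exact measurable_sin.div measurable_cos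
  have hmt2 : Measurable fun ν : ℝ => tan (ν / 2 - 0) :=
    hmt.comp ((measurable_id.div_const 2).sub_const _)
  unfold bp
  rw [integral_map (f := fun ν : ℝ => tan (ν / 2 - 0)) meas_rn.aemeasurable
    hmt2.aestronglyMeasurable]
  have e : ∀ ν : ℝ, tan (red (-ν) / 2 - 0) = -tan (ν / 2 - 0) := by
    intro ν
    rw [D2b.tan_red, ← tan_neg]
    congr 1; ring
  simp only [e]
  rw [integral_neg]
  ring

theorem map_P (M : Measure ℝ) : (M.map fun ν => red (-ν))
    {ν | 0 < sin (ν / 2) * cos (ν / 2) ∨ cos (ν / 2) = 0} =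
    M {ν | sin (ν / 2) * cos (ν / 2) < 0 ∨ cos (ν / 2) = 0} := by
  have a1 : MeasurableSet {ν : ℝ | cos (ν / 2) = 0} :=
    measurableSet_eq_fun (by fun_prop) (by fun_prop)
  have a2 : MeasurableSet {ν : ℝ | 0 < sin (ν / 2) * cos (ν / 2)} :=
    measurableSet_lt (by fun_prop) (by fun_prop)
  have a3 : MeasurableSet {ν : ℝ | 0 < sin (ν / 2) * cos (ν / 2) ∨ cos (ν / 2) = 0} := a2.union a1
  rw [Measure.map_apply meas_rn a3]
  congr 1
  ext ν
  simp only [mem_preimage, mem_ofPred_eq]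
  rw [sc_eq, sc_eq, c_zero, c_zero, chX_neg, chY_neg]
  simp

section

variable {b : ℝ} {M : Measure ℝ} {F : P → P}

theorem cross' (hF : TypeI 0 b M F)
    (hP : M {ν | sin (ν / 2) * cos (ν / 2) < 0 ∨ cos (ν / 2) = 0} ≠ 0) :
    ∃ L > 0, ∀ K : ℝ, ∃ w0, ∀ w ≥ w0, (F (-w, -(L * (1 + w)))).2 - (F 0).2 < -K := by
  rw [← map_P] at hP
  obtain ⟨L, hL, h⟩ := cross hF.refl0 hP
  refine ⟨L, hL, fun K => ?_⟩
  obtain ⟨w0, hw⟩ := h K
  refine ⟨w0, fun w hw' => ?_⟩
  have := hw w hw'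
  simp only [Prod.fst_zero, Prod.snd_zero, neg_zero] at this
  have e : ((0 : ℝ), (0 : ℝ)) = (0 : P) := rfl
  rw [e] at this
  linarith

theorem ivt (hF : TypeI 0 b M F) {w t1 t2 N' : ℝ} (h1 : (F (-w, t1)).2 - (F 0).2 ≤ N')
    (h2 : N' ≤ (F (-w, t2)).2 - (F 0).2) : ∃ t ∈ uIcc t1 t2, (F (-w, t)).2 - (F 0).2 = N' := by
  have hc : Continuous fun t : ℝ => (F (-w, t)).2 - (F 0).2 := by
    have := hF.diff.continuous
    fun_prop
  obtain ⟨t, ht, h⟩ := intermediate_value_uIcc (hc.continuousOn (s := uIcc t1 t2))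
    (mem_uIcc_of_le h1 h2)
  exact ⟨t, ht, h⟩

/-- the second component for large `q₂` -/
theorem Y_top (hF : TypeI 0 b M F) (hc : ∀ᵐ ν ∂M, 0 < cos (ν / 2) ∧ sin (ν / 2) ≤ 0)
    (h0 : ∫⁻ ν, (ENNReal.ofReal |cos (ν / 2 - 0)|)⁻¹ ∂M ≠ ⊤)
    (h3 : ∫⁻ ν, (ENNReal.ofReal (-(chY 0 ν)))⁻¹ ∂M = ⊤) {w : ℝ} (hw : 0 ≤ w) :
    Tendsto (fun m : ℕ => (F (-w, (m : ℝ))).2 - (F 0).2) atTop atTop := by
  have hfin := hF.fin
  have hY : ∀ t : ℝ, Integrable (fun ν => ky (ν / 2) (-w, t) / cos (ν / 2)) M ∧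
      (F (-w, t)).2 - (F 0).2 = -(bp 0 b M * (1 - Real.exp (-(-w)))) +
      ∫ ν, ky (ν / 2) (-w, t) / cos (ν / 2) ∂M := fun t =>
    ⟨(finite_XY hF h0 (-w, t)).2.1, (finite_XY hF h0 (-w, t)).2.2.2.1⟩
  have hky : ∀ (t ν : ℝ), ky (ν / 2) (-w, t) = (-(-w * sin (ν / 2)) + t * cos (ν / 2)) *
      hh ((-(-w * sin (ν / 2)) + t * cos (ν / 2)) * sin (ν / 2)) := fun t ν => ky_eq _ _
  have hsky : ∀ (t ν : ℝ), sin (ν / 2) * ky (ν / 2) (-w, t) =
      Real.exp (w * sin (ν / 2) ^ 2) * Real.exp (t * (cos (ν / 2) * sin (ν / 2))) - 1 := by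
    intro t ν
    have e1 := hh_mul ((-(-w * sin (ν / 2)) + t * cos (ν / 2)) * sin (ν / 2))
    rw [hky, ← Real.exp_add]
    have e2 : w * sin (ν / 2) ^ 2 + t * (cos (ν / 2) * sin (ν / 2)) =
      (-(-w * sin (ν / 2)) + t * cos (ν / 2)) * sin (ν / 2) := by ring
    rw [e2]
    linear_combination e1
  set f : ℕ → ℝ → ℝ := fun m ν => ky (ν / 2) (-w, (m : ℝ)) / cos (ν / 2) -
    ky (ν / 2) (-w, 0) / cos (ν / 2) with hf
  have hfi : ∀ m, Integrable (f m) M := fun m => (hY m).1.sub (hY 0).1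
  have hneg : ∀ (m : ℕ) (ν : ℝ), 0 < cos (ν / 2) → sin (ν / 2) < 0 → f m ν =
      Real.exp (w * sin (ν / 2) ^ 2) * (1 - (Real.exp (cos (ν / 2) * sin (ν / 2))) ^ m) /
        (-chY 0 ν) := by
    intro m ν h1 h2
    have h4 := hsky m ν
    have h5 := hsky 0 ν
    rw [← sc_eq, ← Real.exp_nat_mul]
    simp only [hf]
    rw [div_sub_div_same, div_eq_div_iff h1.ne' (neg_ne_zero.2 (mul_ne_zero h2.ne h1.ne'))]
    rw [zero_mul, Real.exp_zero] at h5
    linear_combination (-cos (ν / 2)) * h4 + cos (ν / 2) * h5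
  have hax : ∀ (m : ℕ) (ν : ℝ), 0 < cos (ν / 2) → sin (ν / 2) = 0 → f m ν = m := by
    intro m ν h1 h2
    simp only [hf]
    rw [hky, hky, h2]
    simp only [mul_zero, neg_zero, zero_add, hh_zero, mul_one, zero_mul, zero_div, sub_zero]
    field_simp
  have ht : Tendsto (fun m => ∫ ν, f m ν ∂M) atTop atTop := by
    refine fatou_top (g := fun ν => (ENNReal.ofReal (-(chY 0 ν)))⁻¹) hfi (fun m => ?_) ?_ h3
    · filter_upwards [hc] with ν hν
      rcases hν.2.lt_or_eq with h1 | h1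
      · rw [hneg m ν hν.1 h1, ← sc_eq]
        have h2 : Real.exp (cos (ν / 2) * sin (ν / 2)) ^ m ≤ 1 := by
          refine pow_le_one₀ (Real.exp_pos _).le ?_
          rw [Real.exp_le_one_iff]
          nlinarith [hν.1]
        have h4 : 0 ≤ -(sin (ν / 2) * cos (ν / 2)) := by nlinarith [hν.1]
        have h5 := Real.exp_pos (w * sin (ν / 2) ^ 2)
        exact div_nonneg (mul_nonneg h5.le (by linarith)) h4
      · rw [hax m ν hν.1 h1]; positivity
    · filter_upwards [hc] with ν hν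
      rcases hν.2.lt_or_eq with h1 | h1
      · have h4 : 0 < -chY 0 ν := by rw [← sc_eq]; nlinarith [hν.1]
        have hlim : Tendsto (fun m : ℕ => f m ν) atTop
            (𝓝 (Real.exp (w * sin (ν / 2) ^ 2) * (1 - 0) / (-chY 0 ν))) := by
          simp_rw [fun m => hneg m ν hν.1 h1]
          refine Tendsto.div_const (Tendsto.const_mul _ (Tendsto.const_sub _ ?_)) _
          refine tendsto_pow_atTop_nhds_zero_of_lt_one (Real.exp_pos _).le ?_
          rw [Real.exp_lt_one_iff]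
          nlinarith [hν.1]
        rw [(ENNReal.tendsto_ofReal hlim).liminf_eq, ← ENNReal.ofReal_inv_of_pos h4]
        refine ENNReal.ofReal_le_ofReal ?_
        rw [inv_eq_one_div, div_le_div_iff_of_pos_right h4]
        have : 1 ≤ Real.exp (w * sin (ν / 2) ^ 2) := Real.one_le_exp (by positivity)
        linarith
      · have hlim : Tendsto (fun m : ℕ => ENNReal.ofReal (f m ν)) atTop (𝓝 ⊤) := by
          rw [ENNReal.tendsto_ofReal_nhds_top]
          simp_rw [fun m => hax m ν hν.1 h1]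
          exact tendsto_natCast_atTop_atTop
        rw [hlim.liminf_eq]
        exact le_top
  have e : ∀ m : ℕ, (F (-w, (m : ℝ))).2 - (F 0).2 = (∫ ν, f m ν ∂M) +
      ((F (-w, 0)).2 - (F 0).2) := by
    intro m
    have h4 := (hY m).2
    have h5 := (hY 0).2
    simp only [hf]
    rw [integral_sub (hY m).1 (hY 0).1]
    linarith
  simp_rw [e]
  exact tendsto_atTop_add_const_right _ _ ht

theorem X_le (hF : TypeI 0 b M F) (hc : ∀ᵐ ν ∂M, 0 < cos (ν / 2) ∧ sin (ν / 2) ≤ 0)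
    (h0 : ∫⁻ ν, (ENNReal.ofReal |cos (ν / 2 - 0)|)⁻¹ ∂M ≠ ⊤) (w : ℝ) {t : ℝ} (ht : 0 ≤ t) :
    (F (-w, t)).1 - (F 0).1 ≤ bp 0 b M * t + ((F (-w, 0)).1 - (F 0).1) := by
  have hX : ∀ t : ℝ, Integrable (fun ν => kx (ν / 2) (-w, t) / cos (ν / 2)) M ∧
      (F (-w, t)).1 - (F 0).1 = bp 0 b M * t + ∫ ν, kx (ν / 2) (-w, t) / cos (ν / 2) ∂M := fun t =>
    ⟨(finite_XY hF h0 (-w, t)).1, (finite_XY hF h0 (-w, t)).2.2.1⟩
  rw [(hX t).2, (hX 0).2]
  have h1 : ∫ ν, kx (ν / 2) (-w, t) / cos (ν / 2) ∂M ≤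
      ∫ ν, kx (ν / 2) (-w, 0) / cos (ν / 2) ∂M := by
    refine integral_mono_ae (hX t).1 (hX 0).1 ?_
    filter_upwards [hc] with ν hν
    have hckx : ∀ t : ℝ, cos (ν / 2) * kx (ν / 2) (-w, t) =
        Real.exp ((-w * cos (ν / 2) + t * sin (ν / 2)) * cos (ν / 2)) - 1 := by
      intro t
      have e1 := hh_mul ((-w * cos (ν / 2) + t * sin (ν / 2)) * cos (ν / 2))
      have e2 : kx (ν / 2) (-w, t) = (-w * cos (ν / 2) + t * sin (ν / 2)) *
        hh ((-w * cos (ν / 2) + t * sin (ν / 2)) * cos (ν / 2)) := kx_eq _ _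
      rw [e2]
      linear_combination e1
    show kx (ν / 2) (-w, t) / cos (ν / 2) ≤ kx (ν / 2) (-w, 0) / cos (ν / 2)
    rw [div_le_div_iff_of_pos_right hν.1]
    refine le_of_mul_le_mul_left ?_ hν.1
    rw [hckx, hckx]
    refine sub_le_sub_right (Real.exp_le_exp.2 ?_) _
    have h2 : t * sin (ν / 2) * cos (ν / 2) ≤ 0 := by
      have : 0 ≤ t * cos (ν / 2) := mul_nonneg ht hν.1.le
      nlinarith [hν.2]
    nlinarith
  linarith

/-- charges on one side: `X < 0 < Y` -/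
theorem notP_U1 (hF : TypeI 0 b M F)
    (h1 : ∫⁻ ν, (ENNReal.ofReal (chX 0 ν))⁻¹ ∂M = ⊤ ∨ bp 0 b M ≠ 0)
    (h3 : ∫⁻ ν, (ENNReal.ofReal (-(chY 0 ν)))⁻¹ ∂M = ⊤ ∨ 0 < bp 0 b M)
    (hc : ∀ᵐ ν ∂M, 0 < cos (ν / 2) ∧ sin (ν / 2) ≤ 0) (K : ℝ) :
    ∃ q, (F q).1 - (F 0).1 < -K ∧ K < (F q).2 - (F 0).2 := by
  have hc' : ∀ᵐ ν ∂M, 0 < cos (ν / 2) := hc.mono fun ν h => h.1
  by_cases h0 : ∫⁻ ν, (ENNReal.ofReal |cos (ν / 2 - 0)|)⁻¹ ∂M = ⊤
  · have hX : ∫⁻ ν, (ENNReal.ofReal (chX 0 ν))⁻¹ ∂M = ⊤ := by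
      by_contra h
      exact I0_of_chX h h0
    have a1 := (X_top hF hc' hX).eventually (eventually_lt_atBot (-K))
    have a2 := (Y_inf hF hc h0).eventually (eventually_gt_atTop K)
    obtain ⟨n, hn1, hn2⟩ := (a1.and a2).exists
    exact ⟨_, hn1, hn2⟩
  · rcases lt_or_ge 0 (bp 0 b M) with hb | hb
    · -- `b' > 0`
      have a1 := fin_X hF hc' h0 (-((K + 2) / bp 0 b M))
      have a2 := (fin_Y hF hc' h0 (-((K + 2) / bp 0 b M))).eventually
        (eventually_gt_nhds (half_lt_self hb))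
      obtain ⟨n0, hn0⟩ := exists_nat_gt (2 * |K| / bp 0 b M)
      obtain ⟨n, ⟨hn1, hn2⟩, hn3⟩ := ((a1.and a2).and (eventually_ge_atTop n0)).exists
      refine ⟨(-(n : ℝ), -((K + 2) / bp 0 b M)), ?_, ?_⟩
      · have e : bp 0 b M * -((K + 2) / bp 0 b M) = -(K + 2) := by field_simp
        rw [e] at hn1
        linarith
      · set Y := (F (-(n : ℝ), -((K + 2) / bp 0 b M))).2 - (F 0).2 with hY
        have h4 : Real.exp n * (Real.exp (-(n : ℝ)) * Y) = Y := by
          rw [← mul_assoc, ← Real.exp_add]; simp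
        have h5 : (n : ℝ) ≤ Real.exp n := by linarith [Real.add_one_le_exp (n : ℝ)]
        have h6 : (n0 : ℝ) ≤ n := by exact_mod_cast hn3
        rw [div_lt_iff₀ hb] at hn0
        have h7 : Real.exp n * (bp 0 b M / 2) < Y := by
          rw [← h4]; exact mul_lt_mul_of_pos_left hn2 (Real.exp_pos _)
        have h8 : (n : ℝ) * bp 0 b M ≤ Real.exp n * bp 0 b M :=
          mul_le_mul_of_nonneg_right h5 hb.le
        have h9 : (n0 : ℝ) * bp 0 b M ≤ n * bp 0 b M := mul_le_mul_of_nonneg_right h6 hb.le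
        have := le_abs_self K
        linarith
    · -- `b' ≤ 0`
      have h3' := h3.resolve_right (not_lt.2 hb)
      by_cases hX : ∫⁻ ν, (ENNReal.ofReal (chX 0 ν))⁻¹ ∂M = ⊤
      · obtain ⟨n, hn⟩ := ((X_top hF hc' hX).eventually (eventually_lt_atBot (-K))).exists
        obtain ⟨m, hm⟩ := ((Y_top hF hc h0 h3' (Nat.cast_nonneg (α := ℝ) n)).eventually
          (eventually_gt_atTop K)).exists
        refine ⟨(-(n : ℝ), (m : ℝ)), ?_, hm⟩
        have h4 := X_le hF hc h0 (n : ℝ) (Nat.cast_nonneg (α := ℝ) m)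
        have h5 : bp 0 b M * (m : ℝ) ≤ 0 :=
          mul_nonpos_of_nonpos_of_nonneg hb (Nat.cast_nonneg m)
        linarith
      · have hb' : bp 0 b M < 0 := lt_of_le_of_ne hb (h1.resolve_left hX)
        obtain ⟨m0, hm0⟩ := exists_nat_gt ((K + ((F (-(1 : ℝ), 0)).1 - (F 0).1)) / -bp 0 b M)
        obtain ⟨m, hm, hmm⟩ := (((Y_top hF hc h0 h3' (w := 1) zero_le_one).eventually
          (eventually_gt_atTop K)).and (eventually_ge_atTop m0)).exists
        refine ⟨(-(1 : ℝ), (m : ℝ)), ?_, hm⟩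
        have h4 := X_le hF hc h0 1 (Nat.cast_nonneg (α := ℝ) m)
        have h6 : (m0 : ℝ) ≤ m := by exact_mod_cast hmm
        rw [div_lt_iff₀ (by linarith)] at hm0
        have h7 : (m0 : ℝ) * -bp 0 b M ≤ m * -bp 0 b M :=
          mul_le_mul_of_nonneg_right h6 (by linarith)
        linarith

/-- charges on one side: `X, Y < 0` -/
theorem notP_U2 (hF : TypeI 0 b M F)
    (h1 : ∫⁻ ν, (ENNReal.ofReal (chX 0 ν))⁻¹ ∂M = ⊤ ∨ bp 0 b M ≠ 0)
    (hc : ∀ᵐ ν ∂M, 0 < cos (ν / 2) ∧ sin (ν / 2) ≤ 0) (K : ℝ) :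
    ∃ q, (F q).1 - (F 0).1 < -K ∧ (F q).2 - (F 0).2 < -K := by
  have hfin := hF.fin
  have hs := hF.supp
  have hc' : ∀ᵐ ν ∂M, 0 < cos (ν / 2) := hc.mono fun ν h => h.1
  -- the main case: `Y (-n, 0) ≥ -K`
  have main : (∫⁻ ν, (ENNReal.ofReal |cos (ν / 2 - 0)|)⁻¹ ∂M = ⊤ ∨ 0 < bp 0 b M) →
      ∃ q, (F q).1 - (F 0).1 < -K ∧ (F q).2 - (F 0).2 < -K := by
    intro hm
    have hY0 : ∀ᶠ n : ℕ in atTop, -(K + 1) ≤ (F (-(n : ℝ), 0)).2 - (F 0).2 := by
      by_cases h0 : ∫⁻ ν, (ENNReal.ofReal |cos (ν / 2 - 0)|)⁻¹ ∂M = ⊤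
      · exact (Y_inf hF hc h0).eventually (eventually_ge_atTop _)
      · have hb := hm.resolve_left h0
        have a2 := (fin_Y hF hc' h0 0).eventually (eventually_gt_nhds (half_lt_self hb))
        obtain ⟨n0, hn0⟩ := exists_nat_gt (2 * |K + 1| / bp 0 b M)
        filter_upwards [a2, eventually_ge_atTop n0] with n hn2 hn3
        set Y := (F (-(n : ℝ), 0)).2 - (F 0).2 with hY
        have h4 : Real.exp n * (Real.exp (-(n : ℝ)) * Y) = Y := by
          rw [← mul_assoc, ← Real.exp_add]; simp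
        have h5 : (n : ℝ) ≤ Real.exp n := by linarith [Real.add_one_le_exp (n : ℝ)]
        have h6 : (n0 : ℝ) ≤ n := by exact_mod_cast hn3
        rw [div_lt_iff₀ hb] at hn0
        have h7 : Real.exp n * (bp 0 b M / 2) < Y := by
          rw [← h4]; exact mul_lt_mul_of_pos_left hn2 (Real.exp_pos _)
        have h8 : (n : ℝ) * bp 0 b M ≤ Real.exp n * bp 0 b M :=
          mul_le_mul_of_nonneg_right h5 hb.le
        have h9 : (n0 : ℝ) * bp 0 b M ≤ n * bp 0 b M := mul_le_mul_of_nonneg_right h6 hb.le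
        have := neg_abs_le (K + 1)
        have := abs_nonneg (K + 1)
        linarith
    by_cases hPm : M {ν | sin (ν / 2) * cos (ν / 2) < 0 ∨ cos (ν / 2) = 0} = 0
    · -- all charges on the axis
      have hax : ∀ᵐ ν ∂M, sin (ν / 2) = 0 ∧ cos (ν / 2) = 1 := by
        have h4 : ∀ᵐ ν ∂M, ¬ (sin (ν / 2) * cos (ν / 2) < 0 ∨ cos (ν / 2) = 0) := by
          rw [ae_iff]
          simp only [not_not]
          exact hPm
        filter_upwards [hc, h4] with ν h5 h6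
        push Not at h6
        have h7 : sin (ν / 2) = 0 := by
          refine le_antisymm h5.2 ?_
          by_contra hn
          push Not at hn
          nlinarith [h6.1, mul_neg_of_neg_of_pos hn h5.1]
        refine ⟨h7, ?_⟩
        have h8 := Real.sin_sq_add_cos_sq (ν / 2)
        rw [h7] at h8
        nlinarith [h5.1]
      have h0 : ∫⁻ ν, (ENNReal.ofReal |cos (ν / 2 - 0)|)⁻¹ ∂M ≠ ⊤ := by
        have : ∫⁻ ν, (ENNReal.ofReal |cos (ν / 2 - 0)|)⁻¹ ∂M = ∫⁻ _ν, 1 ∂M := by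
          refine lintegral_congr_ae ?_
          filter_upwards [hax] with ν h
          rw [sub_zero, h.2]; simp
        rw [this, lintegral_const, one_mul]
        exact measure_ne_top _ _
      have hb := hm.resolve_left h0
      have hM : 0 < M.real univ := by
        rw [measureReal_def]
        refine ENNReal.toReal_pos ?_ (measure_ne_top _ _)
        rw [Ne, Measure.measure_univ_eq_zero]
        exact hF.nz
      have hXm : ∀ m : ℕ, (F (-1, -(m : ℝ))).1 - (F 0).1 ≤ bp 0 b M * -(m : ℝ) := by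
        intro m
        have h4 : (F (-1, -(m : ℝ))).1 - (F 0).1 = bp 0 b M * -(m : ℝ) +
          ∫ ν, kx (ν / 2) (-1, -(m : ℝ)) / cos (ν / 2) ∂M :=
          (finite_XY hF h0 (-1, -(m : ℝ))).2.2.1
        rw [h4]
        have h5 : ∫ ν, kx (ν / 2) (-1, -(m : ℝ)) / cos (ν / 2) ∂M ≤ 0 := by
          refine integral_nonpos_of_ae ?_
          filter_upwards [hax] with ν h
          have e2 : kx (ν / 2) (-1, -(m : ℝ)) = (-1 * cos (ν / 2) + -(m : ℝ) * sin (ν / 2)) *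
            hh ((-1 * cos (ν / 2) + -(m : ℝ) * sin (ν / 2)) * cos (ν / 2)) := kx_eq _ _
          rw [e2, h.1, h.2]
          simp only [mul_zero, mul_one, add_zero, div_one, Pi.zero_apply]
          have := hh_pos (-1)
          linarith
        linarith
      have hYm : ∀ m : ℕ, (F (-1, -(m : ℝ))).2 - (F 0).2 =
          -(bp 0 b M * (1 - Real.exp (-(-1)))) - m * M.real univ := by
        intro m
        have h4 : (F (-1, -(m : ℝ))).2 - (F 0).2 = -(bp 0 b M * (1 - Real.exp (-(-1)))) +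
          ∫ ν, ky (ν / 2) (-1, -(m : ℝ)) / cos (ν / 2) ∂M :=
          (finite_XY hF h0 (-1, -(m : ℝ))).2.2.2.1
        rw [h4]
        have h5 : ∫ ν, ky (ν / 2) (-1, -(m : ℝ)) / cos (ν / 2) ∂M = ∫ _ν, -(m : ℝ) ∂M := by
          refine integral_congr_ae ?_
          filter_upwards [hax] with ν h
          have e2 : ky (ν / 2) (-1, -(m : ℝ)) = (-(-1 * sin (ν / 2)) + -(m : ℝ) * cos (ν / 2)) *
            hh ((-(-1 * sin (ν / 2)) + -(m : ℝ) * cos (ν / 2)) * sin (ν / 2)) := ky_eq _ _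
          rw [e2, h.1, h.2]
          simp [hh_zero]
        rw [h5, integral_const, smul_eq_mul]
        ring
      obtain ⟨m1, hm1⟩ := exists_nat_gt (K / bp 0 b M)
      obtain ⟨m2, hm2⟩ := exists_nat_gt
        ((K - bp 0 b M * (1 - Real.exp (-(-1)))) / M.real univ)
      rw [div_lt_iff₀ hb] at hm1
      rw [div_lt_iff₀ hM] at hm2
      refine ⟨(-1, -((m1 + m2 : ℕ) : ℝ)), ?_, ?_⟩
      · have h4 := hXm (m1 + m2)
        have h5 : 0 ≤ (m2 : ℝ) * bp 0 b M := by positivity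
        push_cast at h4 ⊢
        nlinarith
      · rw [hYm (m1 + m2)]
        have h5 : 0 ≤ (m1 : ℝ) * M.real univ := by positivity
        push_cast
        nlinarith
    · obtain ⟨L, hL, hcr⟩ := cross' hF hPm
      obtain ⟨w1, hw1⟩ := hcr (K + 1)
      obtain ⟨w2, hw2⟩ := level hF h1 hL (-(K + 1)) K
      obtain ⟨n1, hn1⟩ := exists_nat_gt (max w1 w2)
      obtain ⟨n, hn, hnn⟩ := (hY0.and (eventually_ge_atTop n1)).exists
      have h4 : max w1 w2 ≤ (n : ℝ) := hn1.le.trans (by exact_mod_cast hnn)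
      have h5 := hw1 n ((le_max_left _ _).trans h4)
      obtain ⟨t, ht, hYt⟩ := ivt hF (w := (n : ℝ)) h5.le hn
      have hn0 : (0:ℝ) ≤ n := Nat.cast_nonneg n
      have hLn : 0 ≤ L * (1 + (n : ℝ)) := by positivity
      rw [uIcc_of_le (by linarith)] at ht
      refine ⟨(-(n : ℝ), t), ?_, by rw [hYt]; linarith⟩
      refine hw2 (-(n : ℝ), t) (neg_le_neg ((le_max_right _ _).trans h4)) ?_ hYt
      show |t| ≤ L * (1 - -(n : ℝ))
      rw [abs_le, sub_neg_eq_add]
      exact ⟨ht.1, ht.2.trans hLn⟩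
  by_cases h0 : ∫⁻ ν, (ENNReal.ofReal |cos (ν / 2 - 0)|)⁻¹ ∂M = ⊤
  · exact main (Or.inl h0)
  · rcases lt_trichotomy (bp 0 b M) 0 with hb | hb | hb
    · -- `b' < 0`
      have a1 := fin_X hF hc' h0 ((K + 2) / -bp 0 b M)
      have a2 := (fin_Y hF hc' h0 ((K + 2) / -bp 0 b M)).eventually
        (eventually_lt_nhds (show bp 0 b M < bp 0 b M / 2 by linarith))
      obtain ⟨n0, hn0⟩ := exists_nat_gt (2 * |K| / -bp 0 b M)
      obtain ⟨n, ⟨hn1, hn2⟩, hn3⟩ := ((a1.and a2).and (eventually_ge_atTop n0)).exists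
      have hb' : 0 < -bp 0 b M := by linarith
      refine ⟨(-(n : ℝ), (K + 2) / -bp 0 b M), ?_, ?_⟩
      · have e : bp 0 b M * ((K + 2) / -bp 0 b M) = -(K + 2) := by
          have := hb.ne
          field_simp
        rw [e] at hn1
        linarith
      · set Y := (F (-(n : ℝ), (K + 2) / -bp 0 b M)).2 - (F 0).2 with hY
        have h4 : Real.exp n * (Real.exp (-(n : ℝ)) * Y) = Y := by
          rw [← mul_assoc, ← Real.exp_add]; simp
        have h5 : (n : ℝ) ≤ Real.exp n := by linarith [Real.add_one_le_exp (n : ℝ)]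
        have h6 : (n0 : ℝ) ≤ n := by exact_mod_cast hn3
        rw [div_lt_iff₀ hb'] at hn0
        have h7 : Y < Real.exp n * (bp 0 b M / 2) := by
          rw [← h4]; exact mul_lt_mul_of_pos_left hn2 (Real.exp_pos _)
        have h8 : (n : ℝ) * -bp 0 b M ≤ Real.exp n * -bp 0 b M :=
          mul_le_mul_of_nonneg_right h5 hb'.le
        have h9 : (n0 : ℝ) * -bp 0 b M ≤ n * -bp 0 b M := mul_le_mul_of_nonneg_right h6 hb'.le
        have := le_abs_self K
        linarith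
    · -- `b' = 0`
      have hX := h1.resolve_right (not_not.2 hb)
      have hint : Integrable (fun ν : ℝ => sin (ν / 2)) M := int_of_cont hs (by fun_prop)
      have hneg : ∫ ν, sin (ν / 2) ∂M < 0 := by
        have h4 : 0 ≤ ∫ ν, -sin (ν / 2) ∂M := by
          refine integral_nonneg_of_ae ?_
          filter_upwards [hc] with ν h
          simpa using h.2
        rw [integral_neg] at h4
        refine lt_of_le_of_ne (by linarith) fun h5 => ?_
        have h6 : ∫ ν, -sin (ν / 2) ∂M = 0 := by rw [integral_neg, h5, neg_zero]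
        have h7 := (integral_eq_zero_iff_of_nonneg_ae (by
          filter_upwards [hc] with ν h
          simpa using h.2) hint.neg).1 h6
        have h8 : ∫⁻ ν, (ENNReal.ofReal (chX 0 ν))⁻¹ ∂M = ∫⁻ _ν, 1 ∂M := by
          refine lintegral_congr_ae ?_
          filter_upwards [h7] with ν h
          have h9 : sin (ν / 2) = 0 := by simpa using h
          have h10 := Real.sin_sq_add_cos_sq (ν / 2)
          rw [h9] at h10
          have : chX 0 ν = 1 := by
            rw [chX, sub_zero]; nlinarith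
          rw [this]; simp
        rw [hX, lintegral_const, one_mul] at h8
        exact absurd h8.symm (measure_ne_top _ _)
      have hYn : ∀ n : ℕ, (F (-(n : ℝ), 0)).2 - (F 0).2 ≤ n * ∫ ν, sin (ν / 2) ∂M := by
        intro n
        have h4 : (F (-(n : ℝ), 0)).2 - (F 0).2 = -(bp 0 b M * (1 - Real.exp (-(-(n : ℝ))))) +
          ∫ ν, ky (ν / 2) (-(n : ℝ), 0) / cos (ν / 2) ∂M :=
          (finite_XY hF h0 (-(n : ℝ), 0)).2.2.2.1
        rw [h4, hb, zero_mul, neg_zero, zero_add, ← integral_const_mul]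
        refine integral_mono_ae (finite_XY hF h0 (-(n : ℝ), 0)).2.1 (hint.const_mul _) ?_
        filter_upwards [hc] with ν h
        have e2 : ky (ν / 2) (-(n : ℝ), 0) = (-(-(n : ℝ) * sin (ν / 2)) + 0 * cos (ν / 2)) *
          hh ((-(-(n : ℝ) * sin (ν / 2)) + 0 * cos (ν / 2)) * sin (ν / 2)) := ky_eq _ _
        have e3 : (-(-(n : ℝ) * sin (ν / 2)) + 0 * cos (ν / 2)) = n * sin (ν / 2) := by ring
        rw [e3] at e2
        have hn0 : (0:ℝ) ≤ n := Nat.cast_nonneg n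
        have h5 : 1 ≤ hh (n * sin (ν / 2) * sin (ν / 2)) := by
          have h6 := hh_mul (n * sin (ν / 2) * sin (ν / 2))
          have h7 : 0 ≤ n * sin (ν / 2) * sin (ν / 2) := by
            have := mul_self_nonneg (sin (ν / 2))
            nlinarith
          rcases h7.lt_or_eq with h8 | h8
          · have h9 := Real.add_one_le_exp (n * sin (ν / 2) * sin (ν / 2))
            by_contra hcon
            push Not at hcon
            nlinarith
          · rw [← h8, hh_zero]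
        have h6 : ky (ν / 2) (-(n : ℝ), 0) ≤ n * sin (ν / 2) := by
          rw [e2]
          have h7 : (n : ℝ) * sin (ν / 2) ≤ 0 := mul_nonpos_of_nonneg_of_nonpos hn0 h.2
          nlinarith
        show ky (ν / 2) (-(n : ℝ), 0) / cos (ν / 2) ≤ n * sin (ν / 2)
        rw [div_le_iff₀ h.1]
        have h7 : (n : ℝ) * sin (ν / 2) ≤ 0 := mul_nonpos_of_nonneg_of_nonpos hn0 h.2
        have h8 := cos_le_one (ν / 2)
        nlinarith
      obtain ⟨n0, hn0⟩ := exists_nat_gt (K / -∫ ν, sin (ν / 2) ∂M)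
      obtain ⟨n, hn, hnn⟩ := (((X_top hF hc' hX).eventually (eventually_lt_atBot (-K))).and
        (eventually_ge_atTop n0)).exists
      refine ⟨(-(n : ℝ), 0), hn, ?_⟩
      have h4 := hYn n
      have hpos : 0 < -∫ ν, sin (ν / 2) ∂M := by linarith
      rw [div_lt_iff₀ hpos] at hn0
      have h6 : (n0 : ℝ) ≤ n := by exact_mod_cast hnn
      have h7 : (n0 : ℝ) * -(∫ ν, sin (ν / 2) ∂M) ≤ n * -(∫ ν, sin (ν / 2) ∂M) :=
        mul_le_mul_of_nonneg_right h6 hpos.le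
      linarith
    · exact main (Or.inr hb)

/-- both signs present: every level is crossed -/
theorem both (hF : TypeI 0 b M F)
    (h1 : ∫⁻ ν, (ENNReal.ofReal (chX 0 ν))⁻¹ ∂M = ⊤ ∨ bp 0 b M ≠ 0)
    (hp : M {ν | 0 < sin (ν / 2) * cos (ν / 2) ∨ cos (ν / 2) = 0} ≠ 0)
    (hm : M {ν | sin (ν / 2) * cos (ν / 2) < 0 ∨ cos (ν / 2) = 0} ≠ 0) (N' B : ℝ) :
    ∃ q, (F q).1 - (F 0).1 < -B ∧ (F q).2 - (F 0).2 = N' := by
  obtain ⟨L1, hL1, hc1⟩ := cross hF hp
  obtain ⟨L2, hL2, hc2⟩ := cross' hF hm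
  obtain ⟨w1, hw1⟩ := hc1 N'
  obtain ⟨w2, hw2⟩ := hc2 (-N')
  obtain ⟨w3, hw3⟩ := level hF h1 (lt_max_of_lt_left hL1 : 0 < max L1 L2) N' B
  set w := max (max w1 w2) (max w3 0) with hw
  have k1 : w1 ≤ w := (le_max_left _ _).trans (le_max_left _ _)
  have k2 : w2 ≤ w := (le_max_right _ _).trans (le_max_left _ _)
  have k3 : w3 ≤ w := (le_max_left _ _).trans (le_max_right _ _)
  have k4 : 0 ≤ w := (le_max_right _ _).trans (le_max_right _ _)
  have h4 := hw1 w k1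
  have h5 := hw2 w k2
  rw [neg_neg] at h5
  obtain ⟨t, ht, hY⟩ := ivt hF h5.le h4.le
  have hle1 : L1 ≤ max L1 L2 := le_max_left _ _
  have hle2 : L2 ≤ max L1 L2 := le_max_right _ _
  have a1 : L1 * (1 + w) ≤ max L1 L2 * (1 + w) := mul_le_mul_of_nonneg_right hle1 (by linarith)
  have a2 : L2 * (1 + w) ≤ max L1 L2 * (1 + w) := mul_le_mul_of_nonneg_right hle2 (by linarith)
  have a3 : 0 ≤ L1 * (1 + w) := by positivity
  have a4 : 0 ≤ L2 * (1 + w) := by positivity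
  rw [uIcc_of_le (by linarith)] at ht
  refine ⟨(-w, t), hw3 (-w, t) (neg_le_neg k3) ?_ hY, hY⟩
  show |t| ≤ max L1 L2 * (1 - -w)
  rw [abs_le, sub_neg_eq_add]
  exact ⟨by linarith [ht.1], by linarith [ht.2]⟩

end

end Pool.Agent.EU.D3b

namespace Pool.Agent.EU

open D3b

theorem typeI0_U1 {b : ℝ} {M : Measure ℝ} {F : P → P} (hF : TypeI 0 b M F) (h : OntoI0 b M)
    (N : ℝ) : ∃ q, (F q).1 < -N ∧ N < (F q).2 := by
  set K := N + |(F 0).1| + |(F 0).2| + 1 with hK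
  have e1 := abs_le.1 (le_refl |(F 0).1|)
  have e2 := abs_le.1 (le_refl |(F 0).2|)
  have b1 := abs_nonneg (F 0).1
  have b2 := abs_nonneg (F 0).2
  have key : ∃ q, (F q).1 - (F 0).1 < -K ∧ K < (F q).2 - (F 0).2 := by
    by_cases hp : M {ν | 0 < sin (ν / 2) * cos (ν / 2) ∨ cos (ν / 2) = 0} = 0
    · exact notP_U1 hF h.h1 h.h3 (ae_neg hF hp) K
    · by_cases hm : M {ν | sin (ν / 2) * cos (ν / 2) < 0 ∨ cos (ν / 2) = 0} = 0
      · have hF' := hF.refl0
        have hm' := hm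
        rw [← map_P] at hm'
        obtain ⟨q, h1, h2⟩ := notP_U2 hF' (by
          rw [lint_chX, bp_neg]
          exact h.h1.imp id neg_ne_zero.2) (ae_neg hF' hm') K
        have e : ((0 : ℝ), (0 : ℝ)) = (0 : P) := rfl
        simp only [Prod.fst_zero, Prod.snd_zero, neg_zero, e] at h1 h2
        exact ⟨(q.1, -q.2), by linarith, by linarith⟩
      · obtain ⟨q, h1, h2⟩ := both hF h.h1 hp hm (K + 1) K
        exact ⟨q, h1, by linarith⟩
  obtain ⟨q, h1, h2⟩ := key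
  exact ⟨q, by linarith, by linarith⟩

theorem typeI0_U2 {b : ℝ} {M : Measure ℝ} {F : P → P} (hF : TypeI 0 b M F) (h : OntoI0 b M)
    (N : ℝ) : ∃ q, (F q).1 < -N ∧ (F q).2 < -N := by
  set K := N + |(F 0).1| + |(F 0).2| + 1 with hK
  have e1 := abs_le.1 (le_refl |(F 0).1|)
  have e2 := abs_le.1 (le_refl |(F 0).2|)
  have b1 := abs_nonneg (F 0).1
  have b2 := abs_nonneg (F 0).2
  have key : ∃ q, (F q).1 - (F 0).1 < -K ∧ (F q).2 - (F 0).2 < -K := by
    by_cases hp : M {ν | 0 < sin (ν / 2) * cos (ν / 2) ∨ cos (ν / 2) = 0} = 0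
    · exact notP_U2 hF h.h1 (ae_neg hF hp) K
    · by_cases hm : M {ν | sin (ν / 2) * cos (ν / 2) < 0 ∨ cos (ν / 2) = 0} = 0
      · have hF' := hF.refl0
        have hm' := hm
        rw [← map_P] at hm'
        obtain ⟨q, h1, h2⟩ := notP_U1 hF' (by
          rw [lint_chX, bp_neg]
          exact h.h1.imp id neg_ne_zero.2) (by
          rw [lint_chY, bp_neg]
          exact h.h2.imp id fun h => by linarith) (ae_neg hF' hm') K
        have e : ((0 : ℝ), (0 : ℝ)) = (0 : P) := rfl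
        simp only [Prod.fst_zero, Prod.snd_zero, neg_zero, e] at h1 h2
        exact ⟨(q.1, -q.2), by linarith, by linarith⟩
      · obtain ⟨q, h1, h2⟩ := both hF h.h1 hp hm (-(K + 1)) K
        exact ⟨q, h1, by linarith⟩
  obtain ⟨q, h1, h2⟩ := key
  exact ⟨q, by linarith, by linarith⟩

end Pool.Agent.EU
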