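import Pool.Agent.EU.D3a
import Pool.Agent.EU.D3b

/-!
First family, `γ = 0`: all four quadrants are reached.
-/

set_option autoImplicit false
open scoped ContDiff Topology ENNReal
open Real Set MeasureTheory Filter

namespace Pool.Agent.EU

theorem typeI0_quadrants {b : ℝ} {M : Measure ℝ} {F : P → P} (hF : TypeI 0 b M F) (h : OntoI0 b M) :
    (∀ N : ℝ, ∃ q, N < (F q).1 ∧ N < (F q).2) ∧ (∀ N : ℝ, ∃ q, (F q).1 < -N ∧ N < (F q).2) ∧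
    (∀ N : ℝ, ∃ q, (F q).1 < -N ∧ (F q).2 < -N) ∧ (∀ N : ℝ, ∃ q, N < (F q).1 ∧ (F q).2 < -N) :=
  ⟨typeI0_U0 hF h.h3, typeI0_U1 hF h, typeI0_U2 hF h, typeI0_U3 hF h.h2⟩

end Pool.Agent.EU
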