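import Pool.Agent.EU.D2b

/-!
Module D3a: `γ = 0`, the quadrants 0 and 3 and the necessity of the criterion.
-/

set_option autoImplicit false
open scoped ContDiff Topology ENNReal
open Real Set MeasureTheory Filter

namespace Pool.Agent.EU.D3a

open C0 D2a

/-- Fatou in the form used below -/
theorem fatou_gt {M : Measure ℝ} {f : ℕ → ℝ → ℝ} {g : ℝ → ℝ} (hm : ∀ n, Measurable (f n))
    (hint : ∀ n, Integrable (f n) M) (h0 : ∀ n, ∀ᵐ ν ∂M, 0 ≤ f n ν)
    (hlim : ∀ᵐ ν ∂M, Tendsto (fun n => f n ν) atTop (𝓝 (g ν))) {T : ℝ}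
    (hT : T < 0 ∨ ENNReal.ofReal T < ∫⁻ ν, ENNReal.ofReal (g ν) ∂M) :
    ∀ᶠ n in atTop, T < ∫ ν, f n ν ∂M := by
  rcases lt_or_ge T 0 with hT0 | hT0
  · exact Eventually.of_forall fun n => lt_of_lt_of_le hT0 (integral_nonneg_of_ae (h0 n))
  · have hT1 : ENNReal.ofReal T < ∫⁻ ν, ENNReal.ofReal (g ν) ∂M := by
      rcases hT with h | h
      · exact absurd h (not_lt.2 hT0)
      · exact h
    have h1 : ∫⁻ ν, ENNReal.ofReal (g ν) ∂M ≤
        liminf (fun n => ∫⁻ ν, ENNReal.ofReal (f n ν) ∂M) atTop := by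
      calc ∫⁻ ν, ENNReal.ofReal (g ν) ∂M
          = ∫⁻ ν, liminf (fun n => ENNReal.ofReal (f n ν)) atTop ∂M := by
            apply lintegral_congr_ae
            filter_upwards [hlim] with ν hν
            exact ((ENNReal.continuous_ofReal.tendsto _).comp hν).liminf_eq.symm
        _ ≤ _ := lintegral_liminf_le fun n => (hm n).ennreal_ofReal
    have h2 := eventually_lt_of_lt_liminf (lt_of_lt_of_le hT1 h1)
    filter_upwards [h2] with n hn
    rw [← ofReal_integral_eq_lintegral_ofReal (hint n) (h0 n)] at hn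
    exact (ENNReal.ofReal_lt_ofReal_iff_of_nonneg hT0).1 hn

/-- the kernel of the second component -/
noncomputable def jj (φ : ℝ) (q : P) : ℝ :=
  Real.exp (-q.1) * (sin φ * kx φ q) + cos φ * ky φ q

theorem measurable_jj (q : P) : Measurable fun ν => jj (ν / 2) q := by
  have h1 : Continuous fun ν => kx (ν / 2) q := cont_kx q
  have h2 : Continuous fun ν => ky (ν / 2) q :=
    smooth_ky.continuous.comp (by fun_prop : Continuous (fun ν : ℝ => ((ν, q) : ℝ × P)))
  unfold jj
  have : Continuous fun ν => Real.exp (-q.1) * (sin (ν / 2) * kx (ν / 2) q) +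
    cos (ν / 2) * ky (ν / 2) q := by fun_prop
  exact this.measurable

theorem integrable_sk {M : Measure ℝ} [IsFiniteMeasure M] (hs : M (Icc (-π) π)ᶜ = 0) (q : P) :
    Integrable (fun ν => sin (ν / 2) * kx (ν / 2) q) M ∧
    Integrable (fun ν => cos (ν / 2) * ky (ν / 2) q) M :=
  ⟨(hasFDerivAt_param (f := fun ν q => sin (ν / 2) * kx (ν / 2) q) M hs smooth_skx q).2.1,
    (hasFDerivAt_param (f := fun ν q => cos (ν / 2) * ky (ν / 2) q) M hs smooth_cky q).2.1⟩

theorem integrable_jj {M : Measure ℝ} [IsFiniteMeasure M] (hs : M (Icc (-π) π)ᶜ = 0) (q : P) :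
    Integrable (fun ν => jj (ν / 2) q) M :=
  ((integrable_sk hs q).1.const_mul _).add (integrable_sk hs q).2

/-- formula for the second component -/
theorem formula_Y {b : ℝ} {M : Measure ℝ} {F : P → P} (hF : TypeI 0 b M F) (q : P) :
    (F q).2 - (F 0).2 = b * (Real.exp (-q.1) - 1) + ∫ ν, jj (ν / 2) q ∂M := by
  have hfin := hF.fin
  have h1 := typeI_star1 hF q
  have h2 := typeI_star2 hF q
  simp only [sin_zero, cos_zero, zero_mul, one_mul] at h1 h2
  have h3 : ∫ ν, jj (ν / 2) q ∂M = Real.exp (-q.1) * ∫ ν, sin (ν / 2) * kx (ν / 2) q ∂M +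
      ∫ ν, cos (ν / 2) * ky (ν / 2) q ∂M := by
    unfold jj
    rw [integral_add ((integrable_sk hF.supp q).1.const_mul _) (integrable_sk hF.supp q).2,
      integral_const_mul]
  rw [h2, h3]
  linear_combination (Real.exp (-q.1)) * h1

/-- formula for the first component -/
theorem formula_X {b : ℝ} {M : Measure ℝ} {F : P → P} (hF : TypeI 0 b M F) (q : P) :
    (F q).1 - (F 0).1 = b * q.2 + q.1 * M.real univ + ∫ ν, k0 (ν / 2) q ∂M := by
  have := typeI_zero_X hF q
  rw [this]; rfl

theorem integrable_k0 {M : Measure ℝ} [IsFiniteMeasure M] (hs : M (Icc (-π) π)ᶜ = 0) (q : P) :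
    Integrable (fun ν => k0 (ν / 2) q) M :=
  (hasFDerivAt_param (f := fun ν q => k0 (ν / 2) q) M hs smooth_k0 q).2.1

theorem hh_pos (x : ℝ) : 0 < hh x := by
  unfold hh
  apply intervalIntegral.intervalIntegral_pos_of_pos_on
  · exact (by fun_prop : Continuous fun r : ℝ => Real.exp (r * x)).intervalIntegrable _ _
  · intro r _; exact Real.exp_pos _
  · exact zero_lt_one

theorem hh_zero : hh 0 = 1 := by simp [hh]

theorem one_le_hh {x : ℝ} (hx : 0 ≤ x) : 1 ≤ hh x := by
  rcases eq_or_lt_of_le hx with h | h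
  · rw [← h, hh_zero]
  · have h1 := hh_mul x
    have h2 := Real.add_one_le_exp x
    have h3 : x * 1 ≤ x * hh x := by linarith
    exact le_of_mul_le_mul_left h3 h

theorem mm_nonneg (x : ℝ) : 0 ≤ mm x := by
  unfold mm
  apply intervalIntegral.integral_nonneg zero_le_one
  intro r hr
  exact mul_nonneg (by linarith [hr.2]) (Real.exp_pos _).le

theorem half_le_mm {x : ℝ} (hx : 0 ≤ x) : 1 / 2 ≤ mm x := by
  rw [← mm_zero]
  unfold mm
  apply intervalIntegral.integral_mono_on zero_le_one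
  · exact (by fun_prop : Continuous fun r : ℝ => (1 - r) * Real.exp (r * 0)).intervalIntegrable _ _
  · exact (by fun_prop : Continuous fun r : ℝ => (1 - r) * Real.exp (r * x)).intervalIntegrable _ _
  · intro r hr
    apply mul_le_mul_of_nonneg_left _ (by linarith [hr.2])
    exact Real.exp_le_exp.2 (by nlinarith [hr.1])

theorem k0_nonneg (φ : ℝ) (q : P) : 0 ≤ k0 φ q := by
  rw [k0_eq]; exact mul_nonneg (sq_nonneg _) (mm_nonneg _)

/-- `c² k0 = e^x - 1 - x` -/
theorem k0_mul (φ : ℝ) (q : P) : cos φ ^ 2 * k0 φ q =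
    Real.exp ((q.1 * cos φ + q.2 * sin φ) * cos φ) - 1 - (q.1 * cos φ + q.2 * sin φ) * cos φ := by
  have := mm_mul ((q.1 * cos φ + q.2 * sin φ) * cos φ)
  rw [← this, k0_eq]; ring

theorem jj_mul (φ : ℝ) (q : P) : sin φ * cos φ * jj φ q =
    Real.exp (sin φ * (-(q.1 * sin φ) + q.2 * cos φ)) - sin φ ^ 2 * Real.exp (-q.1) -
      cos φ ^ 2 := by
  have h1 := cos_mul_kx φ q
  have h2 := sin_mul_ky φ q
  have h3 : Real.exp (-q.1) * Real.exp (cos φ * (q.1 * cos φ + q.2 * sin φ)) =
      Real.exp (sin φ * (-(q.1 * sin φ) + q.2 * cos φ)) := by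
    rw [← Real.exp_add]
    congr 1
    have := Real.sin_sq_add_cos_sq φ
    linear_combination q.1 * this
  have h4 := Real.sin_sq_add_cos_sq φ
  unfold jj
  linear_combination (sin φ ^ 2 * Real.exp (-q.1)) * h1 + cos φ ^ 2 * h2 + sin φ ^ 2 * h3 +
    (Real.exp (sin φ * (-(q.1 * sin φ) + q.2 * cos φ))) * h4

theorem jj_zero (φ : ℝ) (r : ℝ) : jj φ (0, r) = r * hh (r * (sin φ * cos φ)) := by
  have h4 := Real.sin_sq_add_cos_sq φ
  unfold jj
  rw [kx_eq, ky_eq]
  simp only [neg_zero, Real.exp_zero, zero_mul, zero_add, one_mul]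
  rw [show r * sin φ * cos φ = r * (sin φ * cos φ) by ring,
    show r * cos φ * sin φ = r * (sin φ * cos φ) by ring]
  linear_combination r * hh (r * (sin φ * cos φ)) * h4

theorem jj_sin_zero {φ : ℝ} (h : sin φ = 0) (q : P) : jj φ q = q.2 := by
  have h4 := Real.sin_sq_add_cos_sq φ
  unfold jj
  rw [ky_eq, h]
  simp only [zero_mul, mul_zero, neg_zero, zero_add, hh_zero, mul_one]
  rw [h] at h4
  linear_combination q.2 * h4

theorem jj_eq {φ : ℝ} (h : sin φ * cos φ ≠ 0) (q : P) : jj φ q =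
    (Real.exp (sin φ * (-(q.1 * sin φ) + q.2 * cos φ)) - sin φ ^ 2 * Real.exp (-q.1) -
      cos φ ^ 2) / (sin φ * cos φ) := by
  rw [eq_div_iff h, ← jj_mul]; ring

theorem convex_bound (φ : ℝ) (t : ℝ) :
    Real.exp (sin φ ^ 2 * t) ≤ sin φ ^ 2 * Real.exp t + cos φ ^ 2 := by
  have h4 := Real.sin_sq_add_cos_sq φ
  have := convexOn_exp.2 (mem_univ t) (mem_univ 0) (sq_nonneg (sin φ)) (sq_nonneg (cos φ)) h4
  simpa using this

theorem jj_nonneg {φ : ℝ} (hs : sin φ ≤ 0) (hc : 0 < cos φ) {q : P} (hq : 0 ≤ q.2) :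
    0 ≤ jj φ q := by
  rcases eq_or_lt_of_le hs with h | h
  · rw [jj_sin_zero h]; exact hq
  · have hsc : sin φ * cos φ < 0 := mul_neg_of_neg_of_pos h hc
    have h1 := jj_mul φ q
    have h2 : Real.exp (sin φ * (-(q.1 * sin φ) + q.2 * cos φ)) ≤
        Real.exp (sin φ ^ 2 * (-q.1)) := by
      apply Real.exp_le_exp.2
      have : q.2 * (sin φ * cos φ) ≤ 0 := mul_nonpos_of_nonneg_of_nonpos hq hsc.le
      nlinarith
    have h3 := convex_bound φ (-q.1)
    have h5 : sin φ * cos φ * jj φ q ≤ 0 := by rw [h1]; linarith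
    by_contra hcon
    push Not at hcon
    have := mul_pos_of_neg_of_neg hsc hcon
    linarith


theorem ae_cos_nonneg {M : Measure ℝ} (hs : M (Icc (-π) π)ᶜ = 0) :
    ∀ᵐ ν ∂M, 0 ≤ cos (ν / 2) := by
  filter_upwards [ae_mem hs] with ν hν
  exact Real.cos_nonneg_of_mem_Icc ⟨by linarith [hν.1], by linarith [hν.2]⟩

theorem gt_one_le (σ : ℝ) : gt 1 σ ≤ 1 := by
  have h : ∀ t ∈ uIcc (0:ℝ) σ, HasDerivAt (fun t : ℝ => -Real.exp (-(t * 1)))
      (Real.exp (-(t * 1))) t := by
    intro t _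
    have h1 : HasDerivAt (fun t : ℝ => -(t * 1)) (-1) t := by
      simpa using hasDerivAt_neg' t
    have h2 := h1.exp.fun_neg
    refine h2.congr_deriv ?_
    ring
  unfold gt
  rw [intervalIntegral.integral_eq_sub_of_hasDerivAt h
    ((by fun_prop : Continuous fun t : ℝ => Real.exp (-(t * 1))).intervalIntegrable _ _)]
  simp only [zero_mul, neg_zero, Real.exp_zero]
  have := Real.exp_pos (-(σ * 1))
  linarith

theorem meas_pos {M : Measure ℝ} [IsFiniteMeasure M] {A : Set ℝ} (h : M A ≠ 0) : 0 < M.real A :=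
  ENNReal.toReal_pos h (measure_ne_top _ _)

theorem tendsto_lin {a : ℝ} (ha : 0 < a) (b : ℝ) : Tendsto (fun n : ℕ => (n : ℝ) * a + b) atTop atTop :=
  tendsto_atTop_add_const_right _ _ (tendsto_natCast_atTop_atTop.atTop_mul_const ha)

theorem tendsto_quad {a : ℝ} (ha : 0 < a) (b : ℝ) :
    Tendsto (fun n : ℕ => (n : ℝ) * ((n : ℝ) * a + b)) atTop atTop :=
  tendsto_natCast_atTop_atTop.atTop_mul_atTop₀ (tendsto_lin ha b)

/-- case (a): charges with `sc > 0` or at the cut -/
theorem caseA {b : ℝ} {M : Measure ℝ} {F : P → P} (hF : TypeI 0 b M F)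
    (hA : M {ν | 0 ≤ sin (ν / 2) * cos (ν / 2) ∧ sin (ν / 2) ≠ 0} ≠ 0) (N : ℝ) :
    ∃ q, N < (F q).1 ∧ N < (F q).2 := by
  have hfin := hF.fin
  have hs := hF.supp
  set A : Set ℝ := {ν | 0 ≤ sin (ν / 2) * cos (ν / 2) ∧ sin (ν / 2) ≠ 0} with hAdef
  have hAm : MeasurableSet A := by
    have h1 : MeasurableSet {ν : ℝ | 0 ≤ sin (ν / 2) * cos (ν / 2)} :=
      measurableSet_le measurable_const (by fun_prop)
    have h2 : MeasurableSet {ν : ℝ | sin (ν / 2) = 0} :=
      measurableSet_eq_fun (by fun_prop) measurable_const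
    exact h1.inter h2.compl
  have hμ : 0 < M.real A := meas_pos hA
  set κ : ℝ := ∫ ν, A.indicator (fun ν => sin (ν / 2) ^ 2 / 2) ν ∂M with hκ
  have hint : Integrable (A.indicator fun ν => sin (ν / 2) ^ 2 / 2) M := by
    refine Integrable.indicator ?_ hAm
    refine Integrable.of_bound (by fun_prop : Continuous fun ν : ℝ => sin (ν / 2) ^ 2 / 2).aestronglyMeasurable 1 ?_
    refine Eventually.of_forall fun ν => ?_
    rw [Real.norm_eq_abs, abs_of_nonneg (by positivity)]
    nlinarith [Real.sin_sq_add_cos_sq (ν / 2), sq_nonneg (cos (ν / 2))]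
  have hκ0 : 0 < κ := by
    rw [hκ, integral_pos_iff_support_of_nonneg _ hint]
    · have : Function.support (A.indicator fun ν => sin (ν / 2) ^ 2 / 2) = A := by
        ext ν
        rw [Function.mem_support]
        constructor
        · intro h
          by_contra hn
          exact h (indicator_of_notMem hn _)
        · intro h
          rw [indicator_of_mem h]
          have := h.2
          positivity
      rw [this]
      exact pos_iff_ne_zero.2 hA
    · intro ν
      apply indicator_nonneg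
      intro ν _
      positivity
  have hX : ∀ r : ℝ, 0 ≤ r → r * (r * κ + b) ≤ (F (0, r)).1 - (F 0).1 := by
    intro r hr
    rw [formula_X hF]
    simp only [zero_mul, add_zero]
    have h1 : r ^ 2 * κ ≤ ∫ ν, k0 (ν / 2) (0, r) ∂M := by
      rw [hκ, ← integral_const_mul]
      refine integral_mono (hint.const_mul _) (integrable_k0 hs _) fun ν => ?_
      simp only
      by_cases hν : ν ∈ A
      · rw [indicator_of_mem hν, k0_eq]
        simp only [zero_mul, zero_add]
        have h2 : 1 / 2 ≤ mm (r * sin (ν / 2) * cos (ν / 2)) := by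
          apply half_le_mm
          rw [mul_assoc]
          exact mul_nonneg hr hν.1
        nlinarith [sq_nonneg (r * sin (ν / 2))]
      · rw [indicator_of_notMem hν, mul_zero]
        exact k0_nonneg _ _
    nlinarith
  have hY : ∀ r : ℝ, 0 ≤ r → r * M.real A ≤ (F (0, r)).2 - (F 0).2 := by
    intro r hr
    rw [formula_Y hF]
    simp only [neg_zero, Real.exp_zero, sub_self, mul_zero, zero_add]
    have h1 : r * M.real A = ∫ ν, A.indicator (fun _ => r) ν ∂M := by
      rw [integral_indicator hAm, setIntegral_const, smul_eq_mul, mul_comm]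
    rw [h1]
    refine integral_mono ((integrable_const r).indicator hAm) (integrable_jj hs _) fun ν => ?_
    simp only
    rw [jj_zero]
    by_cases hν : ν ∈ A
    · rw [indicator_of_mem hν]
      have := one_le_hh (mul_nonneg hr hν.1)
      nlinarith
    · rw [indicator_of_notMem hν]
      exact mul_nonneg hr (hh_pos _).le
  have e1 := (tendsto_quad hκ0 b).eventually_gt_atTop (N - (F 0).1)
  have e2 := (tendsto_lin hμ 0).eventually_gt_atTop (N - (F 0).2)
  obtain ⟨n, h1, h2⟩ := (e1.and e2).exists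
  have h3 := hX n (Nat.cast_nonneg n)
  have h4 := hY n (Nat.cast_nonneg n)
  exact ⟨(0, n), by linarith, by linarith⟩

/-- case (b): `q = (n, L)`, given the lower bound of the limit -/
theorem caseB {b : ℝ} {M : Measure ℝ} {F : P → P} (hF : TypeI 0 b M F)
    (hA : ∀ᵐ ν ∂M, sin (ν / 2) ≤ 0 ∧ 0 < cos (ν / 2)) {N L : ℝ} (hL : 0 ≤ L)
    (hg : ENNReal.ofReal (|N - (F 0).2| + |b|) < ∫⁻ ν, ENNReal.ofReal
      (if sin (ν / 2) = 0 then L else -(cos (ν / 2) / sin (ν / 2))) ∂M) :
    ∃ q, N < (F q).1 ∧ N < (F q).2 := by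
  have hfin := hF.fin
  have hs := hF.supp
  have hM : 0 < M.real univ := meas_pos (by simpa using hF.nz)
  have e1 := fatou_gt (M := M) (f := fun n ν => jj (ν / 2) ((n : ℝ), L)) (fun n => measurable_jj _)
    (fun n => integrable_jj hs _) (fun n => by
      filter_upwards [hA] with ν hν
      exact jj_nonneg hν.1 hν.2 hL) (g := fun ν => if sin (ν / 2) = 0 then L else
        -(cos (ν / 2) / sin (ν / 2))) (by
      filter_upwards [hA] with ν hν
      rcases eq_or_lt_of_le hν.1 with h | h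
      · simp only [h, if_true]
        simp only [jj_sin_zero h]
        exact tendsto_const_nhds
      · rw [if_neg h.ne]
        have hsc : sin (ν / 2) * cos (ν / 2) ≠ 0 := (mul_neg_of_neg_of_pos h hν.2).ne
        have hlim : Tendsto (fun n : ℕ => (Real.exp (sin (ν / 2) * (-((n : ℝ) * sin (ν / 2)) +
            L * cos (ν / 2))) - sin (ν / 2) ^ 2 * Real.exp (-(n : ℝ)) - cos (ν / 2) ^ 2) /
            (sin (ν / 2) * cos (ν / 2))) atTop
            (𝓝 ((0 - sin (ν / 2) ^ 2 * 0 - cos (ν / 2) ^ 2) / (sin (ν / 2) * cos (ν / 2)))) := by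
          have t1 : Tendsto (fun n : ℕ => Real.exp (-(n : ℝ))) atTop (𝓝 0) :=
            Real.tendsto_exp_atBot.comp (tendsto_neg_atTop_atBot.comp tendsto_natCast_atTop_atTop)
          have t2 : Tendsto (fun n : ℕ => Real.exp (sin (ν / 2) * (-((n : ℝ) * sin (ν / 2)) +
            L * cos (ν / 2)))) atTop (𝓝 0) := by
            apply Real.tendsto_exp_atBot.comp
            have h2 : 0 < sin (ν / 2) ^ 2 := by
              have := h.ne
              positivity
            have := tendsto_neg_atTop_atBot.comp (tendsto_lin h2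
              (-(L * (sin (ν / 2) * cos (ν / 2)))))
            refine this.congr fun n => ?_
            simp only [Function.comp]
            ring
          exact ((t2.sub (t1.const_mul _)).sub tendsto_const_nhds).div_const _
        have hval : (0 - sin (ν / 2) ^ 2 * 0 - cos (ν / 2) ^ 2) / (sin (ν / 2) * cos (ν / 2)) =
            -(cos (ν / 2) / sin (ν / 2)) := by
          have := h.ne
          have := hν.2.ne'
          field_simp
          ring
        rw [hval] at hlim
        refine hlim.congr fun n => ?_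
        rw [jj_eq hsc]) (Or.inr hg)
  have e2 := (tendsto_lin hM (b * L)).eventually_gt_atTop (N - (F 0).1)
  obtain ⟨n, h1, h2⟩ := (e1.and e2).exists
  refine ⟨((n : ℝ), L), ?_, ?_⟩
  · have h3 := formula_X hF ((n : ℝ), L)
    have h4 : 0 ≤ ∫ ν, k0 (ν / 2) ((n : ℝ), L) ∂M := integral_nonneg fun ν => k0_nonneg _ _
    simp only at h3
    linarith
  · have h3 := formula_Y hF ((n : ℝ), L)
    simp only at h3
    have h4 : Real.exp (-(n : ℝ)) ≤ 1 := Real.exp_le_one_iff.2 (by
      have := Nat.cast_nonneg (α := ℝ) n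
      linarith)
    have h5 := Real.exp_pos (-(n : ℝ))
    have h6 : -|b| ≤ b * (Real.exp (-(n : ℝ)) - 1) := by
      have h7 : |b * (Real.exp (-(n : ℝ)) - 1)| ≤ |b| * 1 := by
        rw [abs_mul]
        apply mul_le_mul_of_nonneg_left _ (abs_nonneg _)
        rw [abs_le]; constructor <;> linarith
      have := neg_abs_le (b * (Real.exp (-(n : ℝ)) - 1))
      linarith
    have h8 := le_abs_self (N - (F 0).2)
    linarith

/-- case (c): all charges in the interior of the quadrant -/
theorem caseC {b : ℝ} {M : Measure ℝ} {F : P → P} (hF : TypeI 0 b M F)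
    (hA : ∀ᵐ ν ∂M, sin (ν / 2) < 0 ∧ 0 < cos (ν / 2))
    (hg : -b < 0 ∨ ENNReal.ofReal (-b) <
      ∫⁻ ν, ENNReal.ofReal (-(sin (ν / 2) / cos (ν / 2))) ∂M) (N : ℝ) :
    ∃ q, N < (F q).1 ∧ N < (F q).2 := by
  have hfin := hF.fin
  have hs := hF.supp
  have mB : ∀ η : ℝ, MeasurableSet {ν : ℝ | η ≤ cos (ν / 2)} := fun η =>
    measurableSet_le measurable_const (by fun_prop)
  have mt : Measurable fun ν : ℝ => -(sin (ν / 2) / cos (ν / 2)) := by fun_prop
  have hposae : ∀ᵐ ν ∂M, 0 < -(sin (ν / 2) / cos (ν / 2)) := by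
    filter_upwards [hA] with ν hν
    have := div_neg_of_neg_of_pos hν.1 hν.2
    linarith
  have iB : ∀ η : ℝ, 0 < η → Integrable
      ({ν : ℝ | η ≤ cos (ν / 2)}.indicator fun ν => -(sin (ν / 2) / cos (ν / 2))) M := by
    intro η hη
    refine Integrable.of_bound (mt.indicator (mB η)).aestronglyMeasurable (1 / η) ?_
    refine Eventually.of_forall fun ν => ?_
    by_cases hν : ν ∈ {ν : ℝ | η ≤ cos (ν / 2)}
    · rw [indicator_of_mem hν, norm_neg, norm_div]
      have h1 : η ≤ ‖cos (ν / 2)‖ := le_trans hν (le_abs_self _)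
      exact div_le_div₀ zero_le_one (Real.abs_sin_le_one _) hη h1
    · rw [indicator_of_notMem hν, norm_zero]; positivity
  have nB : ∀ η : ℝ, ∀ᵐ ν ∂M,
      0 ≤ {ν : ℝ | η ≤ cos (ν / 2)}.indicator (fun ν => -(sin (ν / 2) / cos (ν / 2))) ν := by
    intro η
    filter_upwards [hposae] with ν hν
    by_cases h : ν ∈ {ν : ℝ | η ≤ cos (ν / 2)}
    · rw [indicator_of_mem h]; exact hν.le
    · rw [indicator_of_notMem h]
  have hηp : ∀ k : ℕ, (0:ℝ) < 1 / ((k : ℝ) + 1) := fun k => Nat.one_div_pos_of_nat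
  have e0 := fatou_gt (M := M) (f := fun k ν => {ν : ℝ | 1 / ((k : ℝ) + 1) ≤ cos (ν / 2)}.indicator
      (fun ν => -(sin (ν / 2) / cos (ν / 2))) ν) (fun k => mt.indicator (mB _))
    (fun k => iB _ (hηp k)) (fun k => nB _) (g := fun ν => -(sin (ν / 2) / cos (ν / 2))) (by
      filter_upwards [hA] with ν hν
      refine tendsto_const_nhds.congr' ?_
      have h1 := (tendsto_one_div_add_atTop_nhds_zero_nat (𝕜 := ℝ)).eventually_lt_const hν.2
      filter_upwards [h1] with k hk
      rw [indicator_of_mem]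
      exact hk.le) hg
  obtain ⟨k, hk⟩ := e0.exists
  set η : ℝ := 1 / ((k : ℝ) + 1) with hη
  have hη0 : 0 < η := hηp k
  set B : Set ℝ := {ν : ℝ | η ≤ cos (ν / 2)} with hB
  set τ : ℝ := ∫ ν, B.indicator (fun ν => -(sin (ν / 2) / cos (ν / 2))) ν ∂M with hτ
  have hβ : 0 < b + τ := by
    have : -b < τ := hk
    linarith
  have hτ0 : 0 ≤ τ := integral_nonneg_of_ae (nB η)
  set T : ℝ := N - (F 0).2 with hT
  set L : ℝ := (|T| + 1) / (b + τ) with hL
  have hL0 : 0 < L := by positivity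
  have hL1 : T < (Real.exp L - 1) * (b + τ) := by
    have h1 := Real.add_one_le_exp L
    have h2 : L * (b + τ) = |T| + 1 := div_mul_cancel₀ _ hβ.ne'
    have h3 := le_abs_self T
    nlinarith
  have e1 := fatou_gt (M := M) (f := fun n ν => jj (ν / 2) (-L, (n : ℝ))) (fun n => measurable_jj _)
    (fun n => integrable_jj hs _) (fun n => by
      filter_upwards [hA] with ν hν
      exact jj_nonneg hν.1.le hν.2 (Nat.cast_nonneg n))
    (g := fun ν => Real.exp L * (-(sin (ν / 2) / cos (ν / 2))) + -(cos (ν / 2) / sin (ν / 2)))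
    (by
      filter_upwards [hA] with ν hν
      have hsc : sin (ν / 2) * cos (ν / 2) ≠ 0 := (mul_neg_of_neg_of_pos hν.1 hν.2).ne
      have hlim : Tendsto (fun n : ℕ => (Real.exp (sin (ν / 2) * (-(-L * sin (ν / 2)) +
          (n : ℝ) * cos (ν / 2))) - sin (ν / 2) ^ 2 * Real.exp (- -L) - cos (ν / 2) ^ 2) /
          (sin (ν / 2) * cos (ν / 2))) atTop
          (𝓝 ((0 - sin (ν / 2) ^ 2 * Real.exp (- -L) - cos (ν / 2) ^ 2) /
            (sin (ν / 2) * cos (ν / 2)))) := by
        have t2 : Tendsto (fun n : ℕ => Real.exp (sin (ν / 2) * (-(-L * sin (ν / 2)) +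
          (n : ℝ) * cos (ν / 2)))) atTop (𝓝 0) := by
          apply Real.tendsto_exp_atBot.comp
          have h2 : 0 < -(sin (ν / 2) * cos (ν / 2)) := by
            have := mul_neg_of_neg_of_pos hν.1 hν.2
            linarith
          have := tendsto_neg_atTop_atBot.comp (tendsto_lin h2 (-(L * sin (ν / 2) ^ 2)))
          refine this.congr fun n => ?_
          simp only [Function.comp]
          ring
        exact ((t2.sub tendsto_const_nhds).sub tendsto_const_nhds).div_const _
      have hval : (0 - sin (ν / 2) ^ 2 * Real.exp (- -L) - cos (ν / 2) ^ 2) /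
          (sin (ν / 2) * cos (ν / 2)) =
          Real.exp L * (-(sin (ν / 2) / cos (ν / 2))) + -(cos (ν / 2) / sin (ν / 2)) := by
        have := hν.1.ne
        have := hν.2.ne'
        rw [neg_neg]
        field_simp
        ring
      rw [hval] at hlim
      refine hlim.congr fun n => ?_
      rw [jj_eq hsc]) (T := T - b * (Real.exp L - 1)) (by
      rcases lt_or_ge (T - b * (Real.exp L - 1)) 0 with h | h
      · exact Or.inl h
      · right
        have h1 : T - b * (Real.exp L - 1) < Real.exp L * τ := by nlinarith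
        have h2 : ENNReal.ofReal (Real.exp L * τ) ≤ ∫⁻ ν, ENNReal.ofReal
            (Real.exp L * (-(sin (ν / 2) / cos (ν / 2))) + -(cos (ν / 2) / sin (ν / 2))) ∂M := by
          rw [hτ, ← integral_const_mul, ofReal_integral_eq_lintegral_ofReal
            ((iB η hη0).const_mul _)]
          · apply lintegral_mono_ae
            filter_upwards [hA] with ν hν
            apply ENNReal.ofReal_le_ofReal
            have h3 := div_neg_of_neg_of_pos hν.1 hν.2
            have h4 := div_neg_of_pos_of_neg hν.2 hν.1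
            have h5 := Real.exp_pos L
            by_cases h : ν ∈ B
            · rw [indicator_of_mem h]; linarith
            · rw [indicator_of_notMem h, mul_zero]
              nlinarith
          · filter_upwards [nB η] with ν hν
            exact mul_nonneg (Real.exp_pos L).le hν
        exact lt_of_lt_of_le ((ENNReal.ofReal_lt_ofReal_iff_of_nonneg h).2 h1) h2)
  have e2 := (tendsto_lin hβ (-(L * M.real univ) - M.real univ / η ^ 2)).eventually_gt_atTop
    (N - (F 0).1)
  obtain ⟨n, h1, h2⟩ := (e1.and e2).exists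
  refine ⟨(-L, (n : ℝ)), ?_, ?_⟩
  · have h3 := formula_X hF (-L, (n : ℝ))
    simp only at h3
    have h4 : (n : ℝ) * τ - M.real univ / η ^ 2 ≤ ∫ ν, k0 (ν / 2) (-L, (n : ℝ)) ∂M := by
      have h5 : (n : ℝ) * τ - M.real univ / η ^ 2 =
          ∫ ν, ((n : ℝ) * B.indicator (fun ν => -(sin (ν / 2) / cos (ν / 2))) ν - 1 / η ^ 2) ∂M := by
        rw [integral_sub ((iB η hη0).const_mul _) (integrable_const _), integral_const_mul,
          integral_const, smul_eq_mul, ← hτ]
        ring
      rw [h5]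
      refine integral_mono_ae (((iB η hη0).const_mul _).sub (integrable_const _))
        (integrable_k0 hs _) ?_
      filter_upwards [hA] with ν hν
      have h6 := k0_nonneg (ν / 2) (-L, (n : ℝ))
      have h7 : 0 < 1 / η ^ 2 := by positivity
      by_cases h : ν ∈ B
      · rw [indicator_of_mem h]
        have h8 := k0_mul (ν / 2) (-L, (n : ℝ))
        simp only at h8
        set c := cos (ν / 2) with hc
        set σ := sin (ν / 2) with hσ
        have hc0 : 0 < c := hν.2
        have h9 : η ≤ c := h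
        have h10 := Real.exp_pos ((-L * c + (n : ℝ) * σ) * c)
        have h11 : -1 - (n : ℝ) * σ * c ≤ c ^ 2 * k0 (ν / 2) (-L, (n : ℝ)) := by
          rw [h8]
          have : 0 ≤ L * c ^ 2 := by positivity
          nlinarith
        have h12 : (n : ℝ) * -(σ / c) - 1 / c ^ 2 = (-1 - (n : ℝ) * σ * c) / c ^ 2 := by
          field_simp
          ring
        have h13 : 1 / c ^ 2 ≤ 1 / η ^ 2 := by
          apply one_div_le_one_div_of_le (by positivity)
          exact pow_le_pow_left₀ hη0.le h9 2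
        have h14 : (-1 - (n : ℝ) * σ * c) / c ^ 2 ≤ k0 (ν / 2) (-L, (n : ℝ)) := by
          rw [div_le_iff₀ (by positivity)]; linarith
        linarith
      · rw [indicator_of_notMem h, mul_zero]; linarith
    have h15 : (n : ℝ) * (b + τ) + (-(L * M.real univ) - M.real univ / η ^ 2) =
        b * n + -L * M.real univ + ((n : ℝ) * τ - M.real univ / η ^ 2) := by ring
    linarith
  · have h3 := formula_Y hF (-L, (n : ℝ))
    simp only [neg_neg] at h3
    linarith

end Pool.Agent.EU.D3a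

namespace Pool.Agent.EU

open C0 D2a D3a

theorem typeI0_U0 {b : ℝ} {M : Measure ℝ} {F : P → P} (hF : TypeI 0 b M F)
    (h : ∫⁻ ν, (ENNReal.ofReal (-(chY 0 ν)))⁻¹ ∂M = ⊤ ∨ 0 < bp 0 b M) (N : ℝ) :
    ∃ q, N < (F q).1 ∧ N < (F q).2 := by
  have hfin := hF.fin
  have hs := hF.supp
  by_cases hA : M {ν | 0 ≤ sin (ν / 2) * cos (ν / 2) ∧ sin (ν / 2) ≠ 0} = 0
  swap
  · exact caseA hF hA N
  have hA1 : ∀ᵐ ν ∂M, sin (ν / 2) ≤ 0 ∧ 0 < cos (ν / 2) := by
    have h1 : ∀ᵐ ν ∂M, ¬ (0 ≤ sin (ν / 2) * cos (ν / 2) ∧ sin (ν / 2) ≠ 0) :=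
      measure_eq_zero_iff_ae_notMem.1 hA
    filter_upwards [h1, ae_cos_nonneg hs] with ν h2 h3
    by_cases h4 : sin (ν / 2) = 0
    · refine ⟨h4.le, lt_of_le_of_ne h3 fun h5 => ?_⟩
      have := Real.sin_sq_add_cos_sq (ν / 2)
      rw [h4, ← h5] at this
      norm_num at this
    · have h5 : sin (ν / 2) * cos (ν / 2) < 0 := by
        by_contra h6
        exact h2 ⟨not_lt.1 h6, h4⟩
      have h6 : 0 < cos (ν / 2) := by
        rcases eq_or_lt_of_le h3 with h7 | h7
        · rw [← h7, mul_zero] at h5; exact absurd h5 (lt_irrefl _)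
        · exact h7
      exact ⟨(neg_of_mul_neg_left h5 h6.le).le, h6⟩
  by_cases h0 : M {ν | sin (ν / 2) = 0} = 0
  swap
  · -- case (b) with a charge at `s = 0`
    have hμ : 0 < M.real {ν | sin (ν / 2) = 0} := meas_pos h0
    have hm0 : MeasurableSet {ν : ℝ | sin (ν / 2) = 0} :=
      measurableSet_eq_fun (by fun_prop) measurable_const
    set T : ℝ := |N - (F 0).2| + |b| with hT
    have hT0 : 0 ≤ T := by positivity
    set L : ℝ := (T + 1) / M.real {ν | sin (ν / 2) = 0} with hL
    have hL0 : 0 ≤ L := by positivity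
    have hL1 : L * M.real {ν | sin (ν / 2) = 0} = T + 1 := div_mul_cancel₀ _ hμ.ne'
    refine caseB hF hA1 hL0 ?_
    rw [← hT]
    have h1 : ENNReal.ofReal (L * M.real {ν | sin (ν / 2) = 0}) ≤ ∫⁻ ν, ENNReal.ofReal
        (if sin (ν / 2) = 0 then L else -(cos (ν / 2) / sin (ν / 2))) ∂M := by
      rw [ENNReal.ofReal_mul hL0, ofReal_measureReal, ← setLIntegral_const,
        ← lintegral_indicator hm0]
      refine lintegral_mono fun ν => ?_
      by_cases h : ν ∈ {ν : ℝ | sin (ν / 2) = 0}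
      · rw [indicator_of_mem h, if_pos (show sin (ν / 2) = 0 from h)]
      · rw [indicator_of_notMem h]; exact zero_le
    refine lt_of_lt_of_le ?_ h1
    rw [hL1]
    exact (ENNReal.ofReal_lt_ofReal_iff_of_nonneg hT0).2 (by linarith)
  have hA2 : ∀ᵐ ν ∂M, sin (ν / 2) < 0 ∧ 0 < cos (ν / 2) := by
    have h1 : ∀ᵐ ν ∂M, ¬ (sin (ν / 2) = 0) := measure_eq_zero_iff_ae_notMem.1 h0
    filter_upwards [h1, hA1] with ν h2 h3
    exact ⟨lt_of_le_of_ne h3.1 h2, h3.2⟩
  by_cases hb : ∫⁻ ν, ENNReal.ofReal (-(cos (ν / 2) / sin (ν / 2))) ∂M = ⊤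
  · refine caseB hF hA1 le_rfl ?_
    have h1 : ∫⁻ ν, ENNReal.ofReal
        (if sin (ν / 2) = 0 then (0:ℝ) else -(cos (ν / 2) / sin (ν / 2))) ∂M = ⊤ := by
      rw [← hb]
      apply lintegral_congr_ae
      filter_upwards [hA2] with ν hν
      rw [if_neg hν.1.ne]
    rw [h1]
    exact ENNReal.ofReal_lt_top
  refine caseC hF hA2 ?_ N
  have mt : Measurable fun ν : ℝ => -(sin (ν / 2) / cos (ν / 2)) := by fun_prop
  rcases h with h | h
  · right
    have h1 : ∫⁻ ν, (ENNReal.ofReal (-(chY 0 ν)))⁻¹ ∂M =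
        ∫⁻ ν, ENNReal.ofReal (-(sin (ν / 2) / cos (ν / 2))) ∂M +
        ∫⁻ ν, ENNReal.ofReal (-(cos (ν / 2) / sin (ν / 2))) ∂M := by
      rw [← lintegral_add_left mt.ennreal_ofReal]
      apply lintegral_congr_ae
      filter_upwards [hA2] with ν hν
      have h2 := div_neg_of_neg_of_pos hν.1 hν.2
      have h3 := div_neg_of_pos_of_neg hν.2 hν.1
      have h4 : 0 < -chY 0 ν := by
        have := mul_neg_of_neg_of_pos hν.1 hν.2
        simp only [chY, sub_zero]; linarith
      rw [← ENNReal.ofReal_add (by linarith) (by linarith), ← ENNReal.ofReal_inv_of_pos h4]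
      congr 1
      simp only [chY, sub_zero]
      have h5 := hν.1.ne
      have h6 := hν.2.ne'
      have h7 := Real.sin_sq_add_cos_sq (ν / 2)
      rw [← sub_eq_zero]
      field_simp
      linear_combination h7
    rw [h] at h1
    have h2 : ∫⁻ ν, ENNReal.ofReal (-(sin (ν / 2) / cos (ν / 2))) ∂M = ⊤ := by
      rcases ENNReal.add_eq_top.1 h1.symm with h3 | h3
      · exact h3
      · exact absurd h3 hb
    rw [h2]
    exact ENNReal.ofReal_lt_top
  · rcases lt_or_ge (-b) 0 with hb0 | hb0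
    · exact Or.inl hb0
    right
    by_cases hi : Integrable (fun ν => -(sin (ν / 2) / cos (ν / 2))) M
    · rw [← ofReal_integral_eq_lintegral_ofReal hi]
      · rw [ENNReal.ofReal_lt_ofReal_iff_of_nonneg hb0]
        have h1 : ∫ ν, -(sin (ν / 2) / cos (ν / 2)) ∂M = -∫ ν, tan (ν / 2 - 0) ∂M := by
          rw [← integral_neg]
          congr 1
          ext ν
          rw [sub_zero, Real.tan_eq_sin_div_cos]
        rw [h1]
        unfold bp at h
        linarith
      · filter_upwards [hA2] with ν hν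
        have := div_neg_of_neg_of_pos hν.1 hν.2
        simp only [Pi.zero_apply]; linarith
    · have h1 : ∫⁻ ν, ENNReal.ofReal (-(sin (ν / 2) / cos (ν / 2))) ∂M = ⊤ := by
        by_contra hne
        apply hi
        refine ⟨mt.aestronglyMeasurable, ?_⟩
        rw [hasFiniteIntegral_iff_ofReal]
        · exact lt_top_iff_ne_top.2 hne
        · filter_upwards [hA2] with ν hν
          have := div_neg_of_neg_of_pos hν.1 hν.2
          simp only [Pi.zero_apply]; linarith
      rw [h1]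
      exact ENNReal.ofReal_lt_top

theorem typeI0_U3 {b : ℝ} {M : Measure ℝ} {F : P → P} (hF : TypeI 0 b M F)
    (h : ∫⁻ ν, (ENNReal.ofReal (chY 0 ν))⁻¹ ∂M = ⊤ ∨ bp 0 b M < 0) (N : ℝ) :
    ∃ q, N < (F q).1 ∧ (F q).2 < -N := by
  have hR := TypeI.refl0 hF
  have hmr : Measurable fun ν : ℝ => red (-ν) := D2b.meas_red.comp measurable_neg
  obtain ⟨q, h1, h2⟩ := typeI0_U0 hR (by
    rcases h with h | h
    · left
      rw [lintegral_map (by unfold chY; fun_prop) hmr, ← h]
      congr 1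
      ext ν
      rw [D2b.chY_red]
      congr 2
      simp only [chY, sub_zero]
      rw [neg_div, Real.sin_neg, Real.cos_neg]
      ring
    · right
      unfold bp at h ⊢
      rw [integral_map hmr.aemeasurable (by
        have : Measurable fun ν : ℝ => tan (ν / 2 - 0) := by
          simp only [Real.tan_eq_sin_div_cos]; fun_prop
        exact this.aestronglyMeasurable)]
      have h1 : ∫ ν, tan (red (-ν) / 2 - 0) ∂M = -∫ ν, tan (ν / 2 - 0) ∂M := by
        rw [← integral_neg]
        congr 1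
        ext ν
        rw [D2b.tan_red, sub_zero, sub_zero, neg_div, Real.tan_neg]
      rw [h1]
      linarith) N
  exact ⟨(q.1, -q.2), h1, by linarith⟩

theorem typeI0_necessary {b : ℝ} {M : Measure ℝ} {F : P → P} (hF : TypeI 0 b M F)
    (h : Function.Surjective F) : OntoI0 b M := by
  have hfin := hF.fin
  have hs := hF.supp
  -- general set-up: finiteness of `∫ 1 / (u)_+` with `u ≤ |cos|`
  have gen : ∀ u : ℝ → ℝ, Measurable u → (∀ ν, u ν ≤ |cos (ν / 2 - 0)|) →
      ∫⁻ ν, (ENNReal.ofReal (u ν))⁻¹ ∂M ≠ ⊤ →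
      (∀ᵐ ν ∂M, 0 < u ν) ∧ Integrable (fun ν => (u ν)⁻¹) M ∧
      ∫⁻ ν, (ENNReal.ofReal |cos (ν / 2 - 0)|)⁻¹ ∂M ≠ ⊤ := by
    intro u hu hle hne
    have h1 : ∀ᵐ ν ∂M, 0 < u ν := by
      have := ae_lt_top (by fun_prop : Measurable fun ν => (ENNReal.ofReal (u ν))⁻¹) hne
      filter_upwards [this] with ν hν
      by_contra hc
      rw [ENNReal.ofReal_of_nonpos (not_lt.1 hc)] at hν
      simp at hν
    refine ⟨h1, ⟨hu.inv.aestronglyMeasurable, ?_⟩, ?_⟩
    · rw [hasFiniteIntegral_iff_ofReal]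
      · refine lt_of_le_of_lt (lintegral_mono_ae ?_) (lt_top_iff_ne_top.2 hne)
        filter_upwards [h1] with ν hν
        rw [ENNReal.ofReal_inv_of_pos hν]
      · filter_upwards [h1] with ν hν
        exact (inv_pos.2 hν).le
    · refine ne_top_of_le_ne_top hne (lintegral_mono fun ν => ?_)
      exact ENNReal.inv_le_inv.2 (ENNReal.ofReal_le_ofReal (hle ν))
  refine ⟨?_, ?_, ?_⟩
  · by_contra hcon
    push Not at hcon
    obtain ⟨hc1, hc2⟩ := hcon
    obtain ⟨g1, g2, g3⟩ := gen (chX 0) (by unfold chX; fun_prop) (fun ν => by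
      simp only [chX, sub_zero]
      have h1 := abs_nonneg (cos (ν / 2))
      have h2 := Real.abs_cos_le_one (ν / 2)
      nlinarith [abs_mul_abs_self (cos (ν / 2))]) hc1
    obtain ⟨q, hq⟩ := h ((F 0).1 - (∫ ν, (chX 0 ν)⁻¹ ∂M) - 1, 0)
    obtain ⟨-, i1, -, i2, -, -⟩ := typeI_finite hF g3 q
    rw [hc2, zero_mul, zero_add, hq] at i2
    simp only [sub_zero] at i1 i2
    have h3 : -∫ ν, (chX 0 ν)⁻¹ ∂M ≤ ∫ ν, kx (ν / 2) q / cos (ν / 2) ∂M := by
      rw [← integral_neg]
      refine integral_mono_ae g2.neg i1 ?_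
      filter_upwards [g1] with ν hν
      simp only [chX, sub_zero] at hν ⊢
      have h4 := cos_mul_kx (ν / 2) q
      have h5 := Real.exp_pos (cos (ν / 2) * (q.1 * cos (ν / 2) + q.2 * sin (ν / 2)))
      have h6 : kx (ν / 2) q / cos (ν / 2) =
          (cos (ν / 2) * kx (ν / 2) q) * (cos (ν / 2) * cos (ν / 2))⁻¹ := by
        have : cos (ν / 2) ≠ 0 := fun h0 => by rw [h0, mul_zero] at hν; exact lt_irrefl _ hν
        field_simp
      rw [h6, h4]
      have h7 := inv_pos.2 hν
      nlinarith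
    linarith
  · by_contra hcon
    push Not at hcon
    obtain ⟨hc1, hc2⟩ := hcon
    obtain ⟨g1, g2, g3⟩ := gen (chY 0) (by unfold chY; fun_prop) (fun ν => by
      simp only [chY, sub_zero]
      refine (le_abs_self _).trans ?_
      rw [abs_mul]
      exact mul_le_of_le_one_left (abs_nonneg _) (Real.abs_sin_le_one _)) hc1
    obtain ⟨q, hq⟩ := h (0, (F 0).2 - bp 0 b M - (∫ ν, (chY 0 ν)⁻¹ ∂M) - 1)
    obtain ⟨-, -, i1, -, i2, -⟩ := typeI_finite hF g3 q
    rw [hq] at i2
    simp only [sub_zero, cos_zero] at i1 i2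
    have h3 : -∫ ν, (chY 0 ν)⁻¹ ∂M ≤ ∫ ν, ky (ν / 2) q / cos (ν / 2) ∂M := by
      rw [← integral_neg]
      refine integral_mono_ae g2.neg i1 ?_
      filter_upwards [g1] with ν hν
      simp only [chY, sub_zero] at hν ⊢
      have h4 := sin_mul_ky (ν / 2) q
      have h5 := Real.exp_pos (sin (ν / 2) * (-(q.1 * sin (ν / 2)) + q.2 * cos (ν / 2)))
      have h6 : ky (ν / 2) q / cos (ν / 2) =
          (sin (ν / 2) * ky (ν / 2) q) * (sin (ν / 2) * cos (ν / 2))⁻¹ := by
        have h8 : cos (ν / 2) ≠ 0 := fun h0 => by rw [h0, mul_zero] at hν; exact lt_irrefl _ hν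
        have h9 : sin (ν / 2) ≠ 0 := fun h0 => by rw [h0, zero_mul] at hν; exact lt_irrefl _ hν
        field_simp
      rw [h6, h4]
      have h7 := inv_pos.2 hν
      nlinarith
    have h8 : gt 1 (sg 0 q) ≤ 1 := gt_one_le _
    have h9 : bp 0 b M * gt 1 (sg 0 q) ≤ bp 0 b M * 1 := mul_le_mul_of_nonneg_left h8 hc2
    linarith
  · by_contra hcon
    push Not at hcon
    obtain ⟨hc1, hc2⟩ := hcon
    obtain ⟨g1, g2, g3⟩ := gen (fun ν => -chY 0 ν) (by unfold chY; fun_prop) (fun ν => by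
      simp only [chY, sub_zero]
      refine (neg_le_abs _).trans ?_
      rw [abs_mul]
      exact mul_le_of_le_one_left (abs_nonneg _) (Real.abs_sin_le_one _)) hc1
    obtain ⟨q, hq⟩ := h (0, (F 0).2 - bp 0 b M + (∫ ν, (-chY 0 ν)⁻¹ ∂M) + 1)
    obtain ⟨-, -, i1, -, i2, -⟩ := typeI_finite hF g3 q
    rw [hq] at i2
    simp only [sub_zero, cos_zero] at i1 i2
    have h3 : ∫ ν, ky (ν / 2) q / cos (ν / 2) ∂M ≤ ∫ ν, (-chY 0 ν)⁻¹ ∂M := by
      refine integral_mono_ae i1 g2 ?_
      filter_upwards [g1] with ν hν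
      simp only [chY, sub_zero] at hν ⊢
      have h4 := sin_mul_ky (ν / 2) q
      have h5 := Real.exp_pos (sin (ν / 2) * (-(q.1 * sin (ν / 2)) + q.2 * cos (ν / 2)))
      have h6 : ky (ν / 2) q / cos (ν / 2) =
          -(sin (ν / 2) * ky (ν / 2) q) * (-(sin (ν / 2) * cos (ν / 2)))⁻¹ := by
        have h8 : cos (ν / 2) ≠ 0 := fun h0 => by
          rw [h0, mul_zero, neg_zero] at hν; exact lt_irrefl _ hν
        have h9 : sin (ν / 2) ≠ 0 := fun h0 => by
          rw [h0, zero_mul, neg_zero] at hν; exact lt_irrefl _ hν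
        field_simp
      rw [h6, h4]
      have h7 := inv_pos.2 hν
      nlinarith
    have h8 : gt 1 (sg 0 q) ≤ 1 := gt_one_le _
    have h9 : -(bp 0 b M * gt 1 (sg 0 q)) ≤ -(bp 0 b M * 1) := by nlinarith
    linarith

end Pool.Agent.EU
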