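import Pool.Agent.EU.D2b

/-!
First family, `γ = 0`: the quadrants `X < 0 < Y` and `X, Y < 0`.
-/

set_option autoImplicit false
open scoped ContDiff Topology ENNReal
open Real Set MeasureTheory Filter

namespace Pool.Agent.EU.D3b

open Pool.Agent.EU Pool.Agent.EU.C0 Pool.Agent.EU.D2a

/-! ### kernels -/

/-- `∫₀¹ r e^{r x} dr` -/
noncomputable def nn (x : ℝ) : ℝ := hh x - mm x

theorem nn_mul (x : ℝ) : x ^ 2 * nn x = 1 + (x - 1) * Real.exp x := by
  have h1 := hh_mul x
  have h2 := mm_mul x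
  unfold nn
  linear_combination x * h1 - h2

theorem nn_nonneg (x : ℝ) : 0 ≤ nn x := by
  rcases eq_or_ne x 0 with rfl | hx
  · simp [nn, hh, mm_zero]; norm_num
  · have h1 : 0 ≤ x ^ 2 * nn x := by
      rw [nn_mul]
      have h2 : -x + 1 ≤ Real.exp (-x) := Real.add_one_le_exp _
      have h3 : Real.exp (-x) * Real.exp x = 1 := by rw [← Real.exp_add]; simp
      nlinarith [Real.exp_pos x]
    exact (mul_nonneg_iff_of_pos_left (by positivity)).1 h1

theorem hh_pos (x : ℝ) : 0 < hh x := by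
  rcases eq_or_ne x 0 with rfl | hx
  · simp [hh]
  · have h1 := hh_mul x
    by_contra hn
    push Not at hn
    rcases lt_or_gt_of_ne hx with h | h
    · have : Real.exp x < 1 := by simpa using h
      nlinarith [mul_nonneg_of_nonpos_of_nonpos h.le hn]
    · have : 1 < Real.exp x := Real.one_lt_exp_iff.2 h
      nlinarith [mul_nonneg h.le (neg_nonneg.2 hn)]

theorem hh_zero : hh 0 = 1 := by simp [hh]

/-- the nonnegative kernel of the key identity -/
noncomputable def Hn (ν : ℝ) (q : P) : ℝ :=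
  (q.1 * cos (ν / 2) + q.2 * sin (ν / 2)) ^ 2 *
      nn ((q.1 * cos (ν / 2) + q.2 * sin (ν / 2)) * cos (ν / 2)) +
    Real.exp q.1 * (-q.1 + (-(q.1 * sin (ν / 2)) + q.2 * cos (ν / 2)) ^ 2 *
      hh ((-(q.1 * sin (ν / 2)) + q.2 * cos (ν / 2)) * sin (ν / 2)))

theorem EE_eq2 (ν : ℝ) (q : P) : Real.exp ((q.1 * cos (ν / 2) + q.2 * sin (ν / 2)) * cos (ν / 2)) =
    Real.exp q.1 * Real.exp ((-(q.1 * sin (ν / 2)) + q.2 * cos (ν / 2)) * sin (ν / 2)) := by
  rw [← Real.exp_add]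
  congr 1
  have := Real.sin_sq_add_cos_sq (ν / 2)
  linear_combination q.1 * this

theorem key_pt (ν : ℝ) (q : P) : q.1 + k0 (ν / 2) q - q.2 * (sin (ν / 2) * kx (ν / 2) q) -
    q.2 * Real.exp q.1 * (cos (ν / 2) * ky (ν / 2) q) = -Hn ν q := by
  have e1 := hh_mul ((q.1 * cos (ν / 2) + q.2 * sin (ν / 2)) * cos (ν / 2))
  have e2 := hh_mul ((-(q.1 * sin (ν / 2)) + q.2 * cos (ν / 2)) * sin (ν / 2))
  rw [EE_eq2] at e1
  rw [k0_eq, kx_eq, ky_eq, Hn, nn]
  linear_combination q.1 * e1 - Real.exp q.1 * q.1 * e2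

theorem Hn_nonneg (ν : ℝ) {q : P} (hq : q.1 ≤ 0) : 0 ≤ Hn ν q := by
  unfold Hn
  have h1 := nn_nonneg ((q.1 * cos (ν / 2) + q.2 * sin (ν / 2)) * cos (ν / 2))
  have h2 := (hh_pos ((-(q.1 * sin (ν / 2)) + q.2 * cos (ν / 2)) * sin (ν / 2))).le
  have h3 := Real.exp_pos q.1
  have h4 : 0 ≤ -q.1 := by linarith
  positivity

/-- the kernel of `e^{q₁} Y` -/
noncomputable def jj (ν : ℝ) (q : P) : ℝ :=
  sin (ν / 2) * kx (ν / 2) q + Real.exp q.1 * (cos (ν / 2) * ky (ν / 2) q)

section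

variable {b : ℝ} {M : Measure ℝ} {F : P → P}

theorem cont_ky (q : P) : Continuous fun ν => ky (ν / 2) q :=
  smooth_ky.continuous.comp (by fun_prop : Continuous (fun ν : ℝ => ((ν, q) : ℝ × P)))

theorem cont_k0 (q : P) : Continuous fun ν => k0 (ν / 2) q :=
  smooth_k0.continuous.comp (by fun_prop : Continuous (fun ν : ℝ => ((ν, q) : ℝ × P)))

theorem int_of_cont [IsFiniteMeasure M] (hs : M (Icc (-π) π)ᶜ = 0) {f : ℝ → ℝ}
    (hf : Continuous f) : Integrable f M := by
  refine (int_weight hs (integrable_const 1) hf).congr (Eventually.of_forall fun ν => by simp)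

theorem cont_jj (q : P) : Continuous fun ν => jj ν q := by
  unfold jj
  have h1 := cont_kx q
  have h2 := cont_ky q
  fun_prop

theorem cont_Hn (q : P) : Continuous fun ν => Hn ν q := by
  have h : (fun ν => Hn ν q) = fun ν => -(q.1 + k0 (ν / 2) q - q.2 * (sin (ν / 2) * kx (ν / 2) q) -
    q.2 * Real.exp q.1 * (cos (ν / 2) * ky (ν / 2) q)) := by
    ext ν; rw [key_pt]; ring
  rw [h]
  have h1 := cont_kx q
  have h2 := cont_ky q
  have h3 := cont_k0 q
  fun_prop

theorem eY (hF : TypeI 0 b M F) (q : P) : Real.exp q.1 * ((F q).2 - (F 0).2) =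
    b * (1 - Real.exp q.1) + ∫ ν, jj ν q ∂M := by
  have hfin := hF.fin
  have hs := hF.supp
  have h1 := typeI_star1 hF q
  have h2 := typeI_star2 hF q
  rw [sin_zero, zero_mul] at h1
  rw [cos_zero, one_mul] at h2
  have c1 := cont_kx q
  have c2 := cont_ky q
  have i1 : Integrable (fun ν => sin (ν / 2) * kx (ν / 2) q) M := int_of_cont hs (by fun_prop)
  have i2 : Integrable (fun ν => cos (ν / 2) * ky (ν / 2) q) M := int_of_cont hs (by fun_prop)
  have h3 : ∫ ν, jj ν q ∂M = (∫ ν, sin (ν / 2) * kx (ν / 2) q ∂M) +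
      Real.exp q.1 * ∫ ν, cos (ν / 2) * ky (ν / 2) q ∂M := by
    unfold jj
    rw [integral_add i1 (i2.const_mul _), integral_const_mul]
  have h4 : Real.exp q.1 * Real.exp (-q.1) = 1 := by rw [← Real.exp_add]; simp
  rw [h2, h3]
  linear_combination (K1 0 b M q) * h4 + h1

theorem key_id (hF : TypeI 0 b M F) (q : P) :
    ((F q).1 - (F 0).1) - q.2 * Real.exp q.1 * ((F q).2 - (F 0).2) =
      b * q.2 * Real.exp q.1 - ∫ ν, Hn ν q ∂M := by
  have hfin := hF.fin
  have hs := hF.supp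
  have h1 : (F q).1 - (F 0).1 = b * q.2 + q.1 * M.real univ + ∫ ν, k0 (ν / 2) q ∂M :=
    typeI_zero_X hF q
  have h2 := eY hF q
  have h3 : ∫ ν, Hn ν q ∂M = -(q.1 * M.real univ + (∫ ν, k0 (ν / 2) q ∂M) -
      q.2 * ∫ ν, jj ν q ∂M) := by
    have e : (fun ν => Hn ν q) = fun ν => -((q.1 + k0 (ν / 2) q) - q.2 * jj ν q) := by
      ext ν
      have := key_pt ν q
      unfold jj
      linear_combination this
    rw [e, integral_neg, integral_sub, integral_add, integral_const_mul]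
    · simp [mul_comm]
    · exact integrable_const _
    · exact int_of_cont hs (cont_k0 q)
    · exact (integrable_const _).add (int_of_cont hs (cont_k0 q))
    · exact (int_of_cont hs (cont_jj q)).const_mul _
  rw [h1, h3]
  linear_combination (-q.2) * h2

theorem ae_cos (hF : TypeI 0 b M F) : ∀ᵐ ν ∂M, 0 ≤ cos (ν / 2) := by
  filter_upwards [ae_mem hF.supp] with ν hν
  exact cos_nonneg_of_neg_pi_div_two_le_of_le (by linarith [hν.1]) (by linarith [hν.2])

end

end Pool.Agent.EU.D3b
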