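import Pool.Agent.EU.D3bA

/-!
First family, `γ = 0`: the level lemma.
-/

set_option autoImplicit false
open scoped ContDiff Topology ENNReal
open Real Set MeasureTheory Filter

namespace Pool.Agent.EU.D3b

open Pool.Agent.EU Pool.Agent.EU.C0 Pool.Agent.EU.D2a

theorem fatou_top {M : Measure ℝ} {f : ℕ → ℝ → ℝ} {g : ℝ → ℝ≥0∞}
    (hf : ∀ n, Integrable (f n) M) (h0 : ∀ n, ∀ᵐ ν ∂M, 0 ≤ f n ν)
    (hg : ∀ᵐ ν ∂M, g ν ≤ liminf (fun n => ENNReal.ofReal (f n ν)) atTop)
    (ht : ∫⁻ ν, g ν ∂M = ⊤) : Tendsto (fun n => ∫ ν, f n ν ∂M) atTop atTop := by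
  have h1 : ∀ n, ∫⁻ ν, ENNReal.ofReal (f n ν) ∂M = ENNReal.ofReal (∫ ν, f n ν ∂M) := fun n =>
    (ofReal_integral_eq_lintegral_ofReal (hf n) (h0 n)).symm
  have h2 : ∫⁻ ν, liminf (fun n => ENNReal.ofReal (f n ν)) atTop ∂M ≤
      liminf (fun n => ∫⁻ ν, ENNReal.ofReal (f n ν) ∂M) atTop :=
    lintegral_liminf_le' (fun n => (hf n).aestronglyMeasurable.aemeasurable.ennreal_ofReal)
  have h3 : liminf (fun n => ENNReal.ofReal (∫ ν, f n ν ∂M)) atTop = ⊤ := by
    rw [eq_top_iff, ← ht]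
    calc _ ≤ _ := lintegral_mono_ae hg
      _ ≤ _ := h2
      _ = _ := by simp_rw [h1]
  have h4 : Tendsto (fun n => ENNReal.ofReal (∫ ν, f n ν ∂M)) atTop (𝓝 ⊤) :=
    tendsto_of_le_liminf_of_limsup_le (by rw [h3]) le_top
  exact ENNReal.tendsto_ofReal_nhds_top.1 h4

/-- unbounded truncations -/
theorem trunc_top {M : Measure ℝ} {g : ℝ → ℝ≥0∞} (hg : Measurable g)
    (ht : ∫⁻ ν, g ν ∂M = ⊤) (B : ℝ) : ∃ n : ℕ, ENNReal.ofReal B < ∫⁻ ν, min (g ν) n ∂M := by
  have h1 : ∫⁻ ν, ⨆ n : ℕ, min (g ν) n ∂M = ⨆ n : ℕ, ∫⁻ ν, min (g ν) n ∂M := by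
    refine lintegral_iSup (fun n => hg.min measurable_const) ?_
    intro m n hmn ν
    exact min_le_min le_rfl (by exact_mod_cast hmn)
  have h2 : ∀ ν, ⨆ n : ℕ, min (g ν) (n : ℝ≥0∞) = g ν := by
    intro ν
    refine le_antisymm (iSup_le fun n => min_le_left _ _) ?_
    refine le_of_forall_lt fun c hc => ?_
    obtain ⟨n, hn⟩ := ENNReal.exists_nat_gt (ne_top_of_lt hc)
    exact lt_of_lt_of_le (lt_min hc hn) (le_iSup (fun n : ℕ => min (g ν) (n : ℝ≥0∞)) n)
  simp_rw [h2] at h1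
  rw [ht] at h1
  have h3 : ENNReal.ofReal B < ⨆ n : ℕ, ∫⁻ ν, min (g ν) n ∂M := by
    rw [← h1]; exact ENNReal.ofReal_lt_top
  exact lt_iSup_iff.1 h3

section

variable {b : ℝ} {M : Measure ℝ} {F : P → P}

/-- the lower bound for `(1 - u) e^u`, `u ≤ -1` -/
theorem h_low {x : ℝ} (hx : x ≤ -1) : 1 / 5 ≤ x ^ 2 * nn x := by
  rw [nn_mul]
  have h1 := Real.quadratic_le_exp_of_nonneg (x := -x) (by linarith)
  have h2 : Real.exp (-x) * Real.exp x = 1 := by rw [← Real.exp_add]; simp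
  have h3 := Real.exp_pos x
  have h4 : (1 - x) * (5 / 4) ≤ Real.exp (-x) := by nlinarith
  have h5 : (1 - x) * (5 / 4) * Real.exp x ≤ 1 :=
    (mul_le_mul_of_nonneg_right h4 h3.le).trans h2.le
  nlinarith

set_option maxHeartbeats 1000000 in
/-- pointwise bound near the cut -/
theorem Hn_low {L η : ℝ} (hL : 0 < L) (hη : 0 < η) (hη1 : η ≤ 1 / 2) (hη2 : 16 * L * η ≤ 1)
    {q : P} (hq : q.1 ≤ -1) (hq2 : |q.2| ≤ L * (1 - q.1)) {ν : ℝ} (hc : 0 ≤ cos (ν / 2))
    (hcη : cos (ν / 2) ≤ η) :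
    min ((ENNReal.ofReal (5 * cos (ν / 2) ^ 2))⁻¹) (ENNReal.ofReal (-q.1 / 6)) ≤
      ENNReal.ofReal (Hn ν q) := by
  set c := cos (ν / 2) with hcd
  set s := sin (ν / 2) with hsd
  have hsc : s ^ 2 + c ^ 2 = 1 := Real.sin_sq_add_cos_sq (ν / 2)
  set w := -q.1 with hw
  have hw1 : 1 ≤ w := by linarith
  have hs2 : 3 / 4 ≤ s ^ 2 := by nlinarith
  have hs3 : 1 / 2 ≤ |s| := by
    have : (1 / 2 : ℝ) ^ 2 ≤ |s| ^ 2 := by rw [sq_abs]; linarith
    exact (abs_le_abs_of_nonneg (by norm_num) (abs_nonneg s) |> fun _ => by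
      nlinarith [abs_nonneg s])
  set y := q.1 * c + q.2 * s with hy
  set z := -(q.1 * s) + q.2 * c with hz
  have hH : Hn ν q = y ^ 2 * nn (y * c) + Real.exp q.1 * (-q.1 + z ^ 2 * hh (z * s)) := rfl
  have h1 : 0 ≤ y ^ 2 * nn (y * c) := mul_nonneg (sq_nonneg _) (nn_nonneg _)
  have h2 : 0 ≤ Real.exp q.1 * (-q.1 + z ^ 2 * hh (z * s)) := by
    have := (hh_pos (z * s)).le
    have := Real.exp_pos q.1
    have : 0 ≤ -q.1 := by linarith
    positivity
  rcases le_or_gt (y * c) (-1) with hx | hx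
  · -- `x ≤ -1`
    refine (min_le_left _ _).trans ?_
    have h3 := h_low hx
    have hc0 : 0 < c := by
      rcases hc.lt_or_eq with h | h
      · exact h
      · rw [← h] at hx; norm_num at hx
    rw [← ENNReal.ofReal_inv_of_pos (by positivity)]
    refine ENNReal.ofReal_le_ofReal ?_
    rw [inv_le_iff_one_le_mul₀ (by positivity), hH]
    have : (y * c) ^ 2 * nn (y * c) = c ^ 2 * (y ^ 2 * nn (y * c)) := by ring
    nlinarith [mul_nonneg (sq_nonneg c) h2]
  · refine (min_le_right _ _).trans (ENNReal.ofReal_le_ofReal ?_)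
    -- `J ≥ w E / 2`
    have e1 := hh_mul (z * s)
    have e2 : Real.exp (y * c) = Real.exp q.1 * Real.exp (z * s) := EE_eq2 ν q
    have hE : Real.exp (-1) ≤ Real.exp (y * c) := Real.exp_le_exp.2 hx.le
    have hE1 : (1 / 3 : ℝ) ≤ Real.exp (-1) := by
      have := Real.exp_one_lt_d9
      rw [Real.exp_neg, one_div]
      exact inv_anti₀ (Real.exp_pos 1) (by linarith)
    have hq2c : |q.2 * c| ≤ w / 8 := by
      rw [abs_mul, abs_of_nonneg hc]
      calc |q.2| * c ≤ (L * (1 - q.1)) * η := by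
            apply mul_le_mul hq2 hcη hc
            exact (abs_nonneg _).trans hq2
        _ ≤ w / 8 := by nlinarith
    have hzs : 0 ≤ z * s := by
      have h5 : z * s = w * s ^ 2 + (q.2 * c) * s := by rw [hz, hw]; ring
      have h6 : |(q.2 * c) * s| ≤ w / 8 * |s| := by
        rw [abs_mul]; exact mul_le_mul_of_nonneg_right hq2c (abs_nonneg s)
      have h7 := (abs_le.1 h6).1
      have h8 : s ^ 2 = |s| ^ 2 := (sq_abs s).symm
      rw [h5, h8]
      nlinarith [mul_nonneg (abs_nonneg s) (by linarith : (0:ℝ) ≤ w)]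
    -- `G = e^{q₁} z hh(zs)`
    set G := Real.exp q.1 * (z * hh (z * s)) with hG
    have hsG : s * G = Real.exp (y * c) - Real.exp q.1 := by
      rw [e2, hG]
      linear_combination Real.exp q.1 * e1
    have hsG0 : 0 ≤ s * G := by
      have : s * G = Real.exp q.1 * ((z * s) * hh (z * s)) := by rw [hG]; ring
      rw [this]
      exact mul_nonneg (Real.exp_pos _).le (mul_nonneg hzs (hh_pos _).le)
    have hGE : |G| ≤ 2 * Real.exp (y * c) := by
      have h5 : |s| * |G| ≤ Real.exp (y * c) := by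
        rw [← abs_mul, abs_of_nonneg hsG0, hsG]
        linarith [Real.exp_pos q.1]
      nlinarith [abs_nonneg G]
    have hJ : Real.exp q.1 * (-q.1 + z ^ 2 * hh (z * s)) = w * Real.exp (y * c) + (q.2 * c) * G := by
      rw [e2, hG, hw]
      have : z ^ 2 * hh (z * s) = (-(q.1 * s) + q.2 * c) * (z * hh (z * s)) := by rw [hz]; ring
      rw [this]
      linear_combination (-Real.exp q.1 * q.1) * e1
    have h9 : |(q.2 * c) * G| ≤ w / 8 * (2 * Real.exp (y * c)) := by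
      rw [abs_mul]
      exact mul_le_mul hq2c hGE (abs_nonneg _) (by linarith)
    have h10 := (abs_le.1 h9).1
    have h11 : (1 / 3 : ℝ) ≤ Real.exp (y * c) := hE1.trans hE
    have h12 : w * (1 / 3) ≤ w * Real.exp (y * c) :=
      mul_le_mul_of_nonneg_left h11 (by linarith)
    have h14 : -(w / 4 * Real.exp (y * c)) ≤ (q.2 * c) * G := by
      have : w / 8 * (2 * Real.exp (y * c)) = w / 4 * Real.exp (y * c) := by ring
      rw [← this]; exact h10
    rw [hH, hJ]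
    have h15 : w / 6 ≤ w * Real.exp (y * c) + (q.2 * c) * G := by
      linarith
    exact h15.trans (le_add_of_nonneg_left h1)

theorem level_i (hF : TypeI 0 b M F) (h1 : ∫⁻ ν, (ENNReal.ofReal (chX 0 ν))⁻¹ ∂M = ⊤) {L : ℝ}
    (hL : 0 < L) (B : ℝ) : ∃ w0, ∀ q : P, q.1 ≤ -w0 → |q.2| ≤ L * (1 - q.1) →
      B < ∫ ν, Hn ν q ∂M := by
  have hfin := hF.fin
  have hs := hF.supp
  have hX : ∀ ν, chX 0 ν = cos (ν / 2) ^ 2 := by intro ν; simp [chX, sq]
  set η : ℝ := min (1 / 2) (1 / (16 * L)) with hη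
  have hη0 : 0 < η := by positivity
  have hη1 : η ≤ 1 / 2 := min_le_left _ _
  have hη2 : 16 * L * η ≤ 1 := by
    have : η ≤ 1 / (16 * L) := min_le_right _ _
    rw [le_div_iff₀ (by positivity)] at this
    linarith
  set S : Set ℝ := {ν | cos (ν / 2) ≤ η} with hS
  have hSm : MeasurableSet S := measurableSet_le (by fun_prop) (by fun_prop)
  have hg : Measurable fun ν : ℝ => S.indicator (fun ν => (ENNReal.ofReal (5 * cos (ν / 2) ^ 2))⁻¹) ν :=
    Measurable.indicator (by fun_prop) hSm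
  have htop : ∫⁻ ν, S.indicator (fun ν => (ENNReal.ofReal (5 * cos (ν / 2) ^ 2))⁻¹) ν ∂M = ⊤ := by
    rw [lintegral_indicator hSm]
    have e : ∀ ν : ℝ, (ENNReal.ofReal (5 * cos (ν / 2) ^ 2))⁻¹ =
        (ENNReal.ofReal 5)⁻¹ * (ENNReal.ofReal (chX 0 ν))⁻¹ := by
      intro ν
      rw [hX, ENNReal.ofReal_mul (by norm_num), ENNReal.mul_inv (Or.inl (by simp))
        (Or.inl (by simp))]
    simp_rw [e]
    rw [lintegral_const_mul' _ _ (by simp)]
    have h2 : ∫⁻ ν in S, (ENNReal.ofReal (chX 0 ν))⁻¹ ∂M = ⊤ := by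
      rw [← lintegral_add_compl _ hSm] at h1
      rcases ENNReal.add_eq_top.1 h1 with h | h
      · exact h
      · exfalso
        have h2 : ∫⁻ ν in Sᶜ, (ENNReal.ofReal (chX 0 ν))⁻¹ ∂M ≤
            ∫⁻ ν in Sᶜ, (ENNReal.ofReal (η ^ 2))⁻¹ ∂M := by
          refine setLIntegral_mono' hSm.compl fun ν hν => ?_
          rw [ENNReal.inv_le_inv, hX]
          have : η < cos (ν / 2) := by simpa [hS] using hν
          exact ENNReal.ofReal_le_ofReal (by nlinarith)
        rw [h, lintegral_const] at h2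
        refine absurd (top_le_iff.1 h2) (ENNReal.mul_ne_top ?_ (measure_ne_top _ _))
        rw [ENNReal.inv_ne_top]
        simp; positivity
    rw [h2]
    exact ENNReal.mul_top (by simp)
  obtain ⟨n, hn⟩ := trunc_top hg htop B
  refine ⟨max 1 (6 * n), fun q hq hq2 => ?_⟩
  have hq1 : q.1 ≤ -1 := hq.trans (neg_le_neg (le_max_left _ _))
  have hqn : (n : ℝ) ≤ -q.1 / 6 := by
    have := hq.trans (neg_le_neg (le_max_right _ _))
    linarith
  have hint : Integrable (fun ν => Hn ν q) M := int_of_cont hs (cont_Hn q)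
  have h0 : 0 ≤ᵐ[M] fun ν => Hn ν q := Eventually.of_forall fun ν => Hn_nonneg ν (by linarith)
  have h3 : ENNReal.ofReal B < ENNReal.ofReal (∫ ν, Hn ν q ∂M) := by
    rw [ofReal_integral_eq_lintegral_ofReal hint h0]
    refine hn.trans_le (lintegral_mono_ae ?_)
    filter_upwards [ae_cos hF] with ν hν
    by_cases hνS : ν ∈ S
    · rw [indicator_of_mem hνS]
      refine le_trans (min_le_min le_rfl ?_) (Hn_low hL hη0 hη1 hη2 hq1 hq2 hν hνS)
      rw [← ENNReal.ofReal_natCast]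
      exact ENNReal.ofReal_le_ofReal hqn
    · rw [indicator_of_notMem hνS]; simp
  exact (ENNReal.ofReal_lt_ofReal_iff'.1 h3).1

end

end Pool.Agent.EU.D3b
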