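import Pool.Agent.EU.D3bB

/-!
First family, `γ = 0`: the level lemma, second part.
-/

set_option autoImplicit false
open scoped ContDiff Topology ENNReal
open Real Set MeasureTheory Filter

namespace Pool.Agent.EU.D3b

open Pool.Agent.EU Pool.Agent.EU.C0 Pool.Agent.EU.D2a

theorem hh_le (x : ℝ) : hh x ≤ Real.exp |x| := by
  have h := intervalIntegral.norm_integral_le_of_norm_le_const (a := 0) (b := 1)
    (f := fun r : ℝ => Real.exp (r * x)) (C := Real.exp |x|) (by
      intro r hr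
      rw [uIoc_of_le zero_le_one] at hr
      rw [Real.norm_eq_abs, Real.abs_exp]
      refine Real.exp_le_exp.2 ?_
      calc r * x ≤ |r * x| := le_abs_self _
        _ = r * |x| := by rw [abs_mul, abs_of_pos hr.1]
        _ ≤ 1 * |x| := mul_le_mul_of_nonneg_right hr.2 (abs_nonneg x)
        _ = |x| := one_mul _)
  have h2 : hh x ≤ ‖∫ r in (0:ℝ)..1, Real.exp (r * x)‖ := le_abs_self _
  refine h2.trans (h.trans ?_)
  simp

theorem gt_one (σ : ℝ) : gt 1 σ = 1 - Real.exp (-σ) := by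
  have : ∀ t ∈ uIcc 0 σ, HasDerivAt (fun t : ℝ => -Real.exp (-t)) (Real.exp (-(t * 1))) t := by
    intro t _
    have := ((hasDerivAt_neg t).exp).neg
    refine this.congr_deriv ?_
    simp
  unfold gt
  rw [intervalIntegral.integral_eq_sub_of_hasDerivAt this
    ((by fun_prop : Continuous fun t : ℝ => Real.exp (-(t * 1))).intervalIntegrable _ _)]
  simp
  ring

theorem gt_zero' (τ : ℝ) : gt 0 τ = τ := by simp [gt]

section

variable {b : ℝ} {M : Measure ℝ} {F : P → P}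

theorem finite_XY (hF : TypeI 0 b M F)
    (h0 : ∫⁻ ν, (ENNReal.ofReal |cos (ν / 2 - 0)|)⁻¹ ∂M ≠ ⊤) (q : P) :
    Integrable (fun ν => kx (ν / 2) q / cos (ν / 2)) M ∧
    Integrable (fun ν => ky (ν / 2) q / cos (ν / 2)) M ∧
    (F q).1 - (F 0).1 = bp 0 b M * q.2 + ∫ ν, kx (ν / 2) q / cos (ν / 2) ∂M ∧
    (F q).2 - (F 0).2 = -(bp 0 b M * (1 - Real.exp (-q.1))) + ∫ ν, ky (ν / 2) q / cos (ν / 2) ∂M ∧
    Real.exp q.1 * ((F q).2 - (F 0).2) = bp 0 b M * (1 - Real.exp q.1) +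
      ∫ ν, Real.exp q.1 * (ky (ν / 2) q / cos (ν / 2)) ∂M := by
  obtain ⟨-, h2, h3, h4, h5, -⟩ := typeI_finite hF h0 q
  simp only [sub_zero] at h2 h3 h4 h5
  have e1 : gt (sin 0) (ta 0 q) = q.2 := by
    rw [sin_zero, gt_zero']; simp [ta]
  have e2 : gt (cos 0) (sg 0 q) = 1 - Real.exp (-q.1) := by
    rw [cos_zero, gt_one]; simp [sg]
  rw [e1] at h4
  rw [e2] at h5
  refine ⟨h2, h3, h4, h5, ?_⟩
  have h6 : Real.exp q.1 * Real.exp (-q.1) = 1 := by rw [← Real.exp_add]; simp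
  rw [h5, integral_const_mul]
  linear_combination (bp 0 b M) * h6

theorem I0_of_chX (h : ∫⁻ ν, (ENNReal.ofReal (chX 0 ν))⁻¹ ∂M ≠ ⊤) :
    ∫⁻ ν, (ENNReal.ofReal |cos (ν / 2 - 0)|)⁻¹ ∂M ≠ ⊤ := by
  refine ne_top_of_le_ne_top h (lintegral_mono fun ν => ?_)
  rw [ENNReal.inv_le_inv]
  refine ENNReal.ofReal_le_ofReal ?_
  unfold chX
  rw [sub_zero]
  have h1 := abs_cos_le_one (ν / 2)
  have h2 := abs_nonneg (cos (ν / 2))
  have h3 : cos (ν / 2) * cos (ν / 2) = |cos (ν / 2)| * |cos (ν / 2)| := (abs_mul_abs_self _).symm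
  rw [h3]
  nlinarith

/-- pointwise bound, near the cut -/
theorem ky_near {q : P} (hq : q.1 ≤ 0) {ν : ℝ} (hs : 1 / 2 ≤ |sin (ν / 2)|) :
    Real.exp q.1 * |ky (ν / 2) q| ≤ 2 * Real.exp 1 *
      (1 + ((q.1 * cos (ν / 2) + q.2 * sin (ν / 2)) * cos (ν / 2)) ^ 2 *
        nn ((q.1 * cos (ν / 2) + q.2 * sin (ν / 2)) * cos (ν / 2))) := by
  set x := (q.1 * cos (ν / 2) + q.2 * sin (ν / 2)) * cos (ν / 2) with hx
  have h1 : Real.exp q.1 * (sin (ν / 2) * ky (ν / 2) q) = Real.exp x - Real.exp q.1 := by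
    have e1 := hh_mul ((-(q.1 * sin (ν / 2)) + q.2 * cos (ν / 2)) * sin (ν / 2))
    rw [ky_eq, hx, EE_eq2]
    linear_combination Real.exp q.1 * e1
  have h2 : 0 ≤ x ^ 2 * nn x := mul_nonneg (sq_nonneg _) (nn_nonneg _)
  have hE : Real.exp x ≤ Real.exp 1 * (1 + x ^ 2 * nn x) := by
    rcases le_or_gt x 1 with h | h
    · have := Real.exp_le_exp.2 h
      nlinarith [Real.exp_pos 1]
    · rw [nn_mul]
      have h3 : -(x - 1) + 1 ≤ Real.exp (-(x - 1)) := Real.add_one_le_exp _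
      have h4 : Real.exp x * Real.exp (-(x - 1)) = Real.exp 1 := by
        rw [← Real.exp_add]; ring_nf
      have h5 := mul_le_mul_of_nonneg_left h3 (Real.exp_pos x).le
      rw [h4] at h5
      have h6 : (1 : ℝ) ≤ Real.exp 1 := Real.one_le_exp zero_le_one
      have h7 : 0 ≤ (x - 1) * Real.exp x := mul_nonneg (by linarith) (Real.exp_pos x).le
      nlinarith [mul_nonneg (sub_nonneg.2 h6) h7]
  have hE1 : Real.exp q.1 ≤ Real.exp 1 * (1 + x ^ 2 * nn x) := by
    have h6 : (1 : ℝ) ≤ Real.exp 1 := Real.one_le_exp zero_le_one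
    have h7 : Real.exp q.1 ≤ 1 := by simpa using hq
    nlinarith
  have h3 : |sin (ν / 2)| * (Real.exp q.1 * |ky (ν / 2) q|) ≤ Real.exp 1 * (1 + x ^ 2 * nn x) := by
    have : |sin (ν / 2)| * (Real.exp q.1 * |ky (ν / 2) q|) = |Real.exp x - Real.exp q.1| := by
      rw [← h1, abs_mul, abs_mul, Real.abs_exp]; ring
    rw [this, abs_le]
    constructor
    · linarith [Real.exp_pos x]
    · linarith [Real.exp_pos q.1]
  have h4 : 0 ≤ Real.exp q.1 * |ky (ν / 2) q| := mul_nonneg (Real.exp_pos _).le (abs_nonneg _)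
  nlinarith

/-- pointwise bound, away from the cut -/
theorem ky_far {q : P} (hq : q.1 ≤ 0) (ν : ℝ) {Λ : ℝ} (hΛ : 0 < Λ) :
    Real.exp q.1 * |ky (ν / 2) q| ≤ Hn ν q / Λ + Λ * Real.exp Λ * Real.exp q.1 := by
  set s := sin (ν / 2) with hsd
  set c := cos (ν / 2) with hcd
  set z := -(q.1 * s) + q.2 * c with hz
  have hky : ky (ν / 2) q = z * hh (z * s) := ky_eq _ _
  have hp := hh_pos (z * s)
  have he := Real.exp_pos q.1
  have hH : Real.exp q.1 * (z ^ 2 * hh (z * s)) ≤ Hn ν q := by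
    unfold Hn
    have h1 : 0 ≤ (q.1 * c + q.2 * s) ^ 2 * nn ((q.1 * c + q.2 * s) * c) :=
      mul_nonneg (sq_nonneg _) (nn_nonneg _)
    have h2 : 0 ≤ Real.exp q.1 * -q.1 := mul_nonneg he.le (by linarith)
    show Real.exp q.1 * (z ^ 2 * hh (z * s)) ≤ (q.1 * c + q.2 * s) ^ 2 *
      nn ((q.1 * c + q.2 * s) * c) + Real.exp q.1 * (-q.1 + z ^ 2 * hh (z * s))
    rw [mul_add]
    linarith
  have hH0 : 0 ≤ Hn ν q := Hn_nonneg ν hq
  rw [hky, abs_mul, abs_of_pos hp]
  rcases le_or_gt Λ |z| with h | h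
  · have h1 : Real.exp q.1 * (|z| * hh (z * s)) ≤ Hn ν q / Λ := by
      rw [le_div_iff₀ hΛ]
      refine le_trans ?_ hH
      have : z ^ 2 = |z| * |z| := by rw [← sq, sq_abs]
      rw [this]
      have h2 : |z| * hh (z * s) * Λ ≤ |z| * |z| * hh (z * s) := by
        nlinarith [mul_nonneg (abs_nonneg z) hp.le]
      nlinarith
    have : 0 ≤ Λ * Real.exp Λ * Real.exp q.1 := by positivity
    linarith
  · have h1 : hh (z * s) ≤ Real.exp Λ := by
      refine (hh_le _).trans (Real.exp_le_exp.2 ?_)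
      rw [abs_mul]
      have := abs_sin_le_one (ν / 2)
      have := abs_nonneg z
      nlinarith [abs_nonneg s]
    have h2 : |z| * hh (z * s) ≤ Λ * Real.exp Λ := mul_le_mul h.le h1 hp.le hΛ.le
    have h3 : 0 ≤ Hn ν q / Λ := div_nonneg hH0 hΛ.le
    nlinarith

set_option maxHeartbeats 4000000 in
theorem level_ii (hF : TypeI 0 b M F) (h0 : ∫⁻ ν, (ENNReal.ofReal |cos (ν / 2 - 0)|)⁻¹ ∂M ≠ ⊤)
    (hb : bp 0 b M ≠ 0) (N' B : ℝ) : ∃ w0, ∀ q : P, q.1 ≤ -w0 → (F q).2 - (F 0).2 = N' →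
      B < ∫ ν, Hn ν q ∂M := by
  have hfin := hF.fin
  have hs := hF.supp
  obtain ⟨hic, hne⟩ := int_inv_cos h0
  simp only [sub_zero] at hic hne
  set ε := |bp 0 b M| / 16 with hε
  have hε0 : 0 < ε := by have := abs_pos.2 hb; positivity
  set B' := max B 1 with hB'
  have hB1 : 1 ≤ B' := le_max_right _ _
  set A := 2 * Real.exp 1 with hA
  have hA0 : 0 < A := by positivity
  -- the cut neighbourhood
  set S : ℕ → Set ℝ := fun n => {ν | cos (ν / 2) ≤ 1 / ((n : ℝ) + 2)} with hS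
  have hSm : ∀ n, MeasurableSet (S n) := fun n => measurableSet_le (by fun_prop) (by fun_prop)
  have hanti : Antitone S := by
    intro m n hmn ν hν
    simp only [hS, mem_ofPred_eq] at hν ⊢
    refine hν.trans (one_div_le_one_div_of_le (by positivity) ?_)
    have : (m : ℝ) ≤ n := by exact_mod_cast hmn
    linarith
  have ht : Tendsto (fun n => ∫ ν in S n, |(cos (ν / 2))⁻¹| ∂M) atTop (𝓝 0) := by
    have h1 := tendsto_setIntegral_of_antitone (μ := M) hSm hanti
      (f := fun ν => |(cos (ν / 2))⁻¹|) ⟨0, hic.abs.integrableOn⟩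
    have h2 : M (⋂ n, S n) = 0 := by
      refine measure_mono_null (t := {ν | ¬ (0 < cos (ν / 2))}) ?_ ?_
      · intro ν hν
        simp only [mem_iInter, hS, mem_ofPred_eq] at hν ⊢
        intro hc
        obtain ⟨n, hn⟩ := exists_nat_one_div_lt hc
        have h3 := hν n
        have h4 : 1 / ((n : ℝ) + 2) ≤ 1 / ((n : ℝ) + 1) :=
          one_div_le_one_div_of_le (by positivity) (by linarith)
        linarith
      · rw [← ae_iff]
        filter_upwards [ae_cos hF, hne] with ν h3 h4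
        exact lt_of_le_of_ne h3 (Ne.symm h4)
    rw [setIntegral_measure_zero _ h2] at h1
    exact h1
  have ht1 : ∀ᶠ n : ℕ in atTop, ∫ ν in S n, |(cos (ν / 2))⁻¹| ∂M < ε / A :=
    (tendsto_order.1 ht).2 _ (by positivity)
  have ht2 : ∀ᶠ n : ℕ in atTop, 1 / ((n : ℝ) + 2) < ε / (A * B') := by
    have : Tendsto (fun n : ℕ => 1 / ((n : ℝ) + 2)) atTop (𝓝 0) := by
      refine squeeze_zero (fun n => by positivity) (fun n => ?_)
        (tendsto_one_div_add_atTop_nhds_zero_nat (𝕜 := ℝ))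
      exact one_div_le_one_div_of_le (by positivity) (by linarith)
    exact (tendsto_order.1 this).2 _ (by positivity)
  obtain ⟨n, hn1, hn2⟩ := (ht1.and ht2).exists
  set η : ℝ := 1 / ((n : ℝ) + 2) with hη
  have hη0 : 0 < η := by positivity
  have hη1 : η ≤ 1 / 2 := one_div_le_one_div_of_le (by norm_num) (by
    have : (0:ℝ) ≤ n := Nat.cast_nonneg n
    linarith)
  set Λ := B' / (η * ε) with hΛ
  have hΛ0 : 0 < Λ := by positivity
  -- the constant
  set K := Λ * Real.exp Λ / η * M.real univ + |N'| + 2 * ε + 1 with hK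
  have hK0 : 0 < K := by positivity
  refine ⟨max 1 (-Real.log (ε / K)), fun q hq hY => ?_⟩
  have hq1 : q.1 ≤ -1 := hq.trans (neg_le_neg (le_max_left _ _))
  have hqe : Real.exp q.1 ≤ ε / K := by
    have h1 := hq.trans (neg_le_neg (le_max_right _ _))
    rw [neg_neg] at h1
    calc Real.exp q.1 ≤ Real.exp (Real.log (ε / K)) := Real.exp_le_exp.2 h1
      _ = ε / K := Real.exp_log (by positivity)
  have hqK : Real.exp q.1 * K ≤ ε := by rwa [le_div_iff₀ hK0] at hqe
  by_contra hcon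
  push Not at hcon
  have hHB : ∫ ν, Hn ν q ∂M ≤ B' := hcon.trans (le_max_left _ _)
  obtain ⟨-, hiy, -, -, hYf⟩ := finite_XY hF h0 q
  have hint : Integrable (fun ν => Hn ν q) M := int_of_cont hs (cont_Hn q)
  -- the pointwise estimate
  have hpt : ∀ᵐ ν ∂M, ‖Real.exp q.1 * (ky (ν / 2) q / cos (ν / 2))‖ ≤
      (S n).indicator (fun ν => A * |(cos (ν / 2))⁻¹|) ν + (A * η + 1 / (η * Λ)) * Hn ν q +
        Λ * Real.exp Λ / η * Real.exp q.1 := by
    filter_upwards [ae_cos hF, hne] with ν hc0 hcne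
    have hc : 0 < cos (ν / 2) := lt_of_le_of_ne hc0 (Ne.symm hcne)
    have hH0 : 0 ≤ Hn ν q := Hn_nonneg ν (by linarith)
    have hnorm : ‖Real.exp q.1 * (ky (ν / 2) q / cos (ν / 2))‖ =
        (Real.exp q.1 * |ky (ν / 2) q|) / cos (ν / 2) := by
      rw [Real.norm_eq_abs, abs_mul, abs_div, Real.abs_exp, abs_of_pos hc]; ring
    rw [hnorm, div_le_iff₀ hc]
    by_cases hν : ν ∈ S n
    · rw [indicator_of_mem hν, abs_of_pos (inv_pos.2 hc)]
      have hcη : cos (ν / 2) ≤ η := hν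
      have hsc := Real.sin_sq_add_cos_sq (ν / 2)
      have hs3 : 1 / 2 ≤ |sin (ν / 2)| := by
        have h5 : (1 / 2 : ℝ) ^ 2 ≤ |sin (ν / 2)| ^ 2 := by rw [sq_abs]; nlinarith
        nlinarith [abs_nonneg (sin (ν / 2))]
      have h1 := ky_near (q := q) (ν := ν) (by linarith) hs3
      set c := cos (ν / 2) with hcd
      set y := q.1 * c + q.2 * sin (ν / 2) with hy
      have h2 : y ^ 2 * nn (y * c) ≤ Hn ν q := by
        have h3 : 0 ≤ Real.exp q.1 * (-q.1 + (-(q.1 * sin (ν / 2)) + q.2 * c) ^ 2 *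
            hh ((-(q.1 * sin (ν / 2)) + q.2 * c) * sin (ν / 2))) := by
          have := (hh_pos ((-(q.1 * sin (ν / 2)) + q.2 * c) * sin (ν / 2))).le
          have := Real.exp_pos q.1
          have : 0 ≤ -q.1 := by linarith
          positivity
        exact le_add_of_nonneg_right h3
      have h4 : (y * c) ^ 2 * nn (y * c) ≤ c * (η * Hn ν q) := by
        have h5 : (y * c) ^ 2 * nn (y * c) = c * (c * (y ^ 2 * nn (y * c))) := by ring
        rw [h5]
        refine mul_le_mul_of_nonneg_left ?_ hc.le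
        exact mul_le_mul hcη h2 (mul_nonneg (sq_nonneg _) (nn_nonneg _)) hη0.le
      have h6 : A * c⁻¹ * c = A := by field_simp
      have h7 : 0 ≤ (1 / (η * Λ)) * Hn ν q * c := by positivity
      have h8 : 0 ≤ Λ * Real.exp Λ / η * Real.exp q.1 * c := by positivity
      calc Real.exp q.1 * |ky (ν / 2) q| ≤ A * (1 + (y * c) ^ 2 * nn (y * c)) := h1
        _ ≤ A * (1 + c * (η * Hn ν q)) := by gcongr
        _ ≤ (A * c⁻¹ + (A * η + 1 / (η * Λ)) * Hn ν q +
            Λ * Real.exp Λ / η * Real.exp q.1) * c := by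
          have : (A * c⁻¹ + (A * η + 1 / (η * Λ)) * Hn ν q +
            Λ * Real.exp Λ / η * Real.exp q.1) * c = A * c⁻¹ * c + A * (c * (η * Hn ν q)) +
            (1 / (η * Λ)) * Hn ν q * c + Λ * Real.exp Λ / η * Real.exp q.1 * c := by ring
          rw [this, h6]
          linarith
    · rw [indicator_of_notMem hν, zero_add]
      have hcη : η < cos (ν / 2) := not_le.1 hν
      have h1 := ky_far (q := q) (by linarith) ν hΛ0
      have h3 : 0 ≤ Hn ν q / Λ + Λ * Real.exp Λ * Real.exp q.1 := by positivity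
      have h2 : Hn ν q / Λ + Λ * Real.exp Λ * Real.exp q.1 =
          (1 / (η * Λ) * Hn ν q + Λ * Real.exp Λ / η * Real.exp q.1) * η := by
        field_simp
      have h4 : 0 ≤ 1 / (η * Λ) * Hn ν q + Λ * Real.exp Λ / η * Real.exp q.1 := by positivity
      have h5 : 0 ≤ A * η * Hn ν q * cos (ν / 2) := by positivity
      calc Real.exp q.1 * |ky (ν / 2) q| ≤ Hn ν q / Λ + Λ * Real.exp Λ * Real.exp q.1 := h1
        _ = (1 / (η * Λ) * Hn ν q + Λ * Real.exp Λ / η * Real.exp q.1) * η := h2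
        _ ≤ (1 / (η * Λ) * Hn ν q + Λ * Real.exp Λ / η * Real.exp q.1) * cos (ν / 2) :=
          mul_le_mul_of_nonneg_left hcη.le h4
        _ ≤ _ := by
          have : ((A * η + 1 / (η * Λ)) * Hn ν q + Λ * Real.exp Λ / η * Real.exp q.1) *
            cos (ν / 2) = (1 / (η * Λ) * Hn ν q + Λ * Real.exp Λ / η * Real.exp q.1) *
            cos (ν / 2) + A * η * Hn ν q * cos (ν / 2) := by ring
          rw [this]; linarith
  have hI1 : Integrable ((S n).indicator (fun ν => A * |(cos (ν / 2))⁻¹|)) M :=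
    (hic.abs.const_mul A).indicator (hSm n)
  have hI2 : Integrable (fun ν => (A * η + 1 / (η * Λ)) * Hn ν q) M := hint.const_mul _
  have hnle := norm_integral_le_of_norm_le
    ((hI1.add hI2).add (integrable_const (Λ * Real.exp Λ / η * Real.exp q.1))) hpt
  simp only [Pi.add_apply] at hnle
  have a1 : Integrable (fun x => (S n).indicator (fun ν => A * |(cos (ν / 2))⁻¹|) x +
    (A * η + 1 / (η * Λ)) * Hn x q) M := hI1.add hI2
  rw [integral_add a1 (integrable_const _), integral_add hI1 hI2,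
    integral_indicator (hSm n), integral_const_mul A, integral_const_mul (A * η + 1 / (η * Λ)),
    integral_const] at hnle
  have e1 : A * ∫ ν in S n, |(cos (ν / 2))⁻¹| ∂M ≤ ε := by
    have := mul_le_mul_of_nonneg_left hn1.le hA0.le
    rwa [mul_div_cancel₀ _ hA0.ne'] at this
  have e2 : (A * η + 1 / (η * Λ)) * ∫ ν, Hn ν q ∂M ≤ 2 * ε := by
    have h1 : A * η ≤ ε / B' := by
      rw [le_div_iff₀ (by positivity)]
      have := mul_le_mul_of_nonneg_left hn2.le (by positivity : (0:ℝ) ≤ A * B')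
      have h2 : A * B' * (ε / (A * B')) = ε := by field_simp
      rw [h2] at this
      linarith
    have h2 : 1 / (η * Λ) = ε / B' := by
      rw [hΛ]; field_simp
    have h3 : A * η + 1 / (η * Λ) ≤ 2 * (ε / B') := by rw [h2]; linarith
    calc (A * η + 1 / (η * Λ)) * ∫ ν, Hn ν q ∂M ≤ (A * η + 1 / (η * Λ)) * B' := by
          gcongr
      _ ≤ 2 * (ε / B') * B' := by gcongr
      _ = 2 * ε := by field_simp
  have e3 : Real.exp q.1 * |N'| ≤ ε ∧ M.real univ • (Λ * Real.exp Λ / η * Real.exp q.1) ≤ ε ∧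
      Real.exp q.1 ≤ 1 / 2 := by
    have hp := Real.exp_pos q.1
    have hM : (0:ℝ) ≤ M.real univ := measureReal_nonneg
    have k1 : 0 ≤ Λ * Real.exp Λ / η * M.real univ := by positivity
    have k2 := abs_nonneg N'
    refine ⟨?_, ?_, ?_⟩
    · refine le_trans (mul_le_mul_of_nonneg_left ?_ hp.le) hqK
      rw [hK]; linarith
    · rw [smul_eq_mul]
      have : M.real univ * (Λ * Real.exp Λ / η * Real.exp q.1) =
        Real.exp q.1 * (Λ * Real.exp Λ / η * M.real univ) := by ring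
      rw [this]
      refine le_trans (mul_le_mul_of_nonneg_left ?_ hp.le) hqK
      rw [hK]; linarith
    · have h1 : 2 * ε ≤ K := by rw [hK]; linarith
      have h2 : Real.exp q.1 * (2 * ε) ≤ ε :=
        le_trans (mul_le_mul_of_nonneg_left h1 hp.le) hqK
      nlinarith
  obtain ⟨e4, e5, e6⟩ := e3
  have hfin1 : |∫ ν, Real.exp q.1 * (ky (ν / 2) q / cos (ν / 2)) ∂M| ≤ 4 * ε := by
    rw [← Real.norm_eq_abs]
    linarith
  rw [hY] at hYf
  have h8 : |bp 0 b M * (1 - Real.exp q.1)| ≤ 5 * ε := by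
    have : bp 0 b M * (1 - Real.exp q.1) = Real.exp q.1 * N' -
      ∫ ν, Real.exp q.1 * (ky (ν / 2) q / cos (ν / 2)) ∂M := by linarith
    rw [this]
    refine (abs_sub _ _).trans ?_
    rw [abs_mul, Real.abs_exp]
    linarith
  rw [abs_mul, abs_of_nonneg (by linarith : (0:ℝ) ≤ 1 - Real.exp q.1)] at h8
  have h9 : |bp 0 b M| = 16 * ε := by rw [hε]; ring
  rw [h9] at h8
  nlinarith

end

end Pool.Agent.EU.D3b
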