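import Pool.Agent.EU.D3bC

/-!
First family, `γ = 0`: the crossing of a level of the second component.
-/

set_option autoImplicit false
open scoped ContDiff Topology ENNReal
open Real Set MeasureTheory Filter

namespace Pool.Agent.EU.D3b

open Pool.Agent.EU Pool.Agent.EU.C0 Pool.Agent.EU.D2a

theorem jj_mul (ν : ℝ) (q : P) : sin (ν / 2) * cos (ν / 2) * jj ν q =
    Real.exp ((q.1 * cos (ν / 2) + q.2 * sin (ν / 2)) * cos (ν / 2)) - sin (ν / 2) ^ 2 -
      cos (ν / 2) ^ 2 * Real.exp q.1 := by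
  have e1 := hh_mul ((q.1 * cos (ν / 2) + q.2 * sin (ν / 2)) * cos (ν / 2))
  have e2 := hh_mul ((-(q.1 * sin (ν / 2)) + q.2 * cos (ν / 2)) * sin (ν / 2))
  have e3 := EE_eq2 ν q
  have e4 := Real.sin_sq_add_cos_sq (ν / 2)
  rw [jj, kx_eq, ky_eq]
  linear_combination sin (ν / 2) ^ 2 * e1 + cos (ν / 2) ^ 2 * Real.exp q.1 * e2 -
    cos (ν / 2) ^ 2 * e3 +
      Real.exp ((q.1 * cos (ν / 2) + q.2 * sin (ν / 2)) * cos (ν / 2)) * e4

theorem jj_cut {ν : ℝ} (h : cos (ν / 2) = 0) (q : P) : jj ν q = q.2 := by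
  have e4 := Real.sin_sq_add_cos_sq (ν / 2)
  rw [jj, kx_eq, h]
  simp only [mul_zero, zero_add, hh_zero, mul_one, zero_mul, add_zero]
  rw [h] at e4
  linear_combination q.2 * e4

theorem jj_axis {ν : ℝ} (h : sin (ν / 2) = 0) (q : P) : jj ν q = Real.exp q.1 * q.2 := by
  have e4 := Real.sin_sq_add_cos_sq (ν / 2)
  rw [jj, ky_eq, h]
  simp only [mul_zero, zero_add, hh_zero, mul_one, zero_mul, neg_zero]
  rw [h] at e4
  linear_combination Real.exp q.1 * q.2 * e4

/-- `exp` is convex: the bound for the charges on the other side -/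
theorem exp_conv {c s w : ℝ} (hsc : s ^ 2 + c ^ 2 = 1) :
    Real.exp (-(w * c ^ 2)) ≤ s ^ 2 + c ^ 2 * Real.exp (-w) := by
  have h := convexOn_exp.2 (mem_univ 0) (mem_univ (-w)) (sq_nonneg s) (sq_nonneg c) hsc
  simp only [smul_eq_mul, mul_zero, zero_add, Real.exp_zero, mul_one] at h
  have e : c ^ 2 * -w = -(w * c ^ 2) := by ring
  rwa [e] at h

/-- charges with `s ≤ 0`: nonnegative kernel -/
theorem jj_nonneg {ν : ℝ} (hc : 0 ≤ cos (ν / 2)) (hs : sin (ν / 2) ≤ 0) {q : P}
    (hq2 : 0 ≤ q.2) : 0 ≤ jj ν q := by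
  rcases hc.lt_or_eq with hc | hc
  · rcases hs.lt_or_eq with hs | hs
    · have h1 := jj_mul ν q
      have hsc := Real.sin_sq_add_cos_sq (ν / 2)
      set s := sin (ν / 2) with hsd
      set c := cos (ν / 2) with hcd
      have h2 : Real.exp ((q.1 * c + q.2 * s) * c) ≤ Real.exp (-(-q.1 * c ^ 2)) := by
        refine Real.exp_le_exp.2 ?_
        have : q.2 * s * c ≤ 0 := by
          have h3 : 0 ≤ q.2 * c := by positivity
          nlinarith
        nlinarith
      have h3 := exp_conv (w := -q.1) hsc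
      rw [neg_neg] at h3
      have h4 : s * c < 0 := mul_neg_of_neg_of_pos hs hc
      have h5 : s * c * jj ν q ≤ 0 := by rw [h1]; linarith
      exact nonneg_of_mul_nonpos_right h5 h4
    · rw [jj_axis hs]; positivity
  · rw [jj_cut hc.symm]; exact hq2

theorem jj_low {L w : ℝ} (hL : 0 < L) (hw : 0 ≤ w) {ν : ℝ} (hc : 0 ≤ cos (ν / 2)) :
    -(1 / L) ≤ jj ν (-w, L * (1 + w)) ∧ ((cos (ν / 2) = 0 ∨ (0 < sin (ν / 2) ∧
      2 * cos (ν / 2) ≤ L * sin (ν / 2))) → w * L / 2 ≤ jj ν (-w, L * (1 + w))) := by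
  set q : P := (-w, L * (1 + w)) with hq
  have hq1 : q.1 = -w := rfl
  have hq2 : q.2 = L * (1 + w) := rfl
  have hq20 : 0 ≤ q.2 := by rw [hq2]; positivity
  have hL' : 0 < 1 / L := by positivity
  rcases le_or_gt (sin (ν / 2)) 0 with hs | hs
  · have h1 := jj_nonneg hc hs hq20
    refine ⟨by linarith, ?_⟩
    rintro (h | h)
    · rw [jj_cut h, hq2]; nlinarith
    · exact absurd h.1 (not_lt.2 hs)
  · rcases hc.lt_or_eq with hc | hc
    · have h1 := jj_mul ν q
      have hsc := Real.sin_sq_add_cos_sq (ν / 2)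
      set s := sin (ν / 2) with hsd
      set c := cos (ν / 2) with hcd
      have hsc0 : 0 < s * c := mul_pos hs hc
      have he1 : Real.exp q.1 ≤ 1 := by
        rw [hq1]; simpa using hw
      -- lower bound in the good cone
      have h2 : s * jj ν q ≥ L * (1 + w) * s - w * c := by
        have h3 := Real.add_one_le_exp ((q.1 * c + q.2 * s) * c)
        have h4 : s * c * jj ν q ≥ (q.1 * c + q.2 * s) * c := by
          rw [h1]
          nlinarith [sq_nonneg c]
        rw [hq1, hq2] at h4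
        have h5 : c * (L * (1 + w) * s - w * c) ≤ c * (s * jj ν q) := by nlinarith
        exact le_of_mul_le_mul_left h5 hc
      refine ⟨?_, ?_⟩
      · rcases le_or_gt (L * s) c with h | h
        · -- `j ≥ - s / c`
          have h3 : Real.exp q.1 ≤ Real.exp ((q.1 * c + q.2 * s) * c) := by
            refine Real.exp_le_exp.2 ?_
            have h4 : 0 ≤ q.2 * s * c := by positivity
            have h5 : c ^ 2 ≤ 1 := by nlinarith [sq_nonneg s]
            rw [hq1] at *
            nlinarith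
          have h4 : s * c * jj ν q ≥ -(s ^ 2) := by
            rw [h1]
            have h5 : c ^ 2 ≤ 1 := by nlinarith [sq_nonneg s]
            nlinarith [Real.exp_pos q.1]
          have h5 : c * jj ν q ≥ -s := by
            have h6 : s * (-s) ≤ s * (c * jj ν q) := by nlinarith
            exact le_of_mul_le_mul_left h6 hs
          by_contra hcon
          push Not at hcon
          have h7 : c * jj ν q < c * (-(1 / L)) := mul_lt_mul_of_pos_left hcon hc
          have h8 : s ≤ c * (1 / L) := by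
            rw [mul_one_div, le_div_iff₀ hL]; linarith
          nlinarith
        · have h3 : 0 ≤ s * jj ν q := by
            have : L * (1 + w) * s - w * c = L * s + w * (L * s - c) := by ring
            rw [this] at h2
            have : 0 ≤ w * (L * s - c) := mul_nonneg hw (by linarith)
            have : 0 < L * s := by positivity
            linarith
          have h4 : 0 ≤ jj ν q := (mul_nonneg_iff_of_pos_left hs).1 h3
          linarith
      · rintro (h | h)
        · exact absurd h hc.ne'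
        · have h3 : s * (w * L / 2) ≤ s * jj ν q := by
            have : L * (1 + w) * s - w * c = L * s + w * (L * s - c) := by ring
            rw [this] at h2
            have : w * (L * s / 2) ≤ w * (L * s - c) :=
              mul_le_mul_of_nonneg_left (by linarith [h.2]) hw
            have : 0 < L * s := by positivity
            linarith
          exact le_of_mul_le_mul_left h3 hs
    · rw [jj_cut hc.symm, hq2]
      refine ⟨by nlinarith, fun _ => by nlinarith⟩

section

variable {b : ℝ} {M : Measure ℝ} {F : P → P}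

theorem level (hF : TypeI 0 b M F)
    (h1 : ∫⁻ ν, (ENNReal.ofReal (chX 0 ν))⁻¹ ∂M = ⊤ ∨ bp 0 b M ≠ 0) {L : ℝ}
    (hL : 0 < L) (N' B : ℝ) : ∃ w0, ∀ q : P, q.1 ≤ -w0 → |q.2| ≤ L * (1 - q.1) →
      (F q).2 - (F 0).2 = N' → (F q).1 - (F 0).1 < -B := by
  have key : ∃ w0, ∀ q : P, q.1 ≤ -w0 → |q.2| ≤ L * (1 - q.1) → (F q).2 - (F 0).2 = N' →
      B + |N' + b| * L < ∫ ν, Hn ν q ∂M := by
    by_cases h : ∫⁻ ν, (ENNReal.ofReal (chX 0 ν))⁻¹ ∂M = ⊤
    · obtain ⟨w0, hw⟩ := level_i hF h hL (B + |N' + b| * L)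
      exact ⟨w0, fun q a1 a2 _ => hw q a1 a2⟩
    · obtain ⟨w0, hw⟩ := level_ii hF (I0_of_chX h) (h1.resolve_left h) N' (B + |N' + b| * L)
      exact ⟨w0, fun q a1 _ a3 => hw q a1 a3⟩
  obtain ⟨w0, hw⟩ := key
  refine ⟨w0, fun q a1 a2 a3 => ?_⟩
  have h2 := hw q a1 a2 a3
  have h3 := key_id hF q
  rw [a3] at h3
  have h4 : |(N' + b) * (q.2 * Real.exp q.1)| ≤ |N' + b| * L := by
    rw [abs_mul]
    refine mul_le_mul_of_nonneg_left ?_ (abs_nonneg _)
    rw [abs_mul, Real.abs_exp]
    have h5 : 1 - q.1 ≤ Real.exp (-q.1) := by linarith [Real.add_one_le_exp (-q.1)]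
    have h6 : Real.exp (-q.1) * Real.exp q.1 = 1 := by rw [← Real.exp_add]; simp
    calc |q.2| * Real.exp q.1 ≤ L * (1 - q.1) * Real.exp q.1 :=
          mul_le_mul_of_nonneg_right a2 (Real.exp_pos _).le
      _ ≤ L * Real.exp (-q.1) * Real.exp q.1 := by
          have := Real.exp_pos q.1
          gcongr
      _ = L := by rw [mul_assoc, h6, mul_one]
  have h5 := (abs_le.1 h4).2
  nlinarith

theorem cross (hF : TypeI 0 b M F)
    (hP : M {ν | 0 < sin (ν / 2) * cos (ν / 2) ∨ cos (ν / 2) = 0} ≠ 0) :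
    ∃ L > 0, ∀ K : ℝ, ∃ w0, ∀ w ≥ w0, K < (F (-w, L * (1 + w))).2 - (F 0).2 := by
  have hfin := hF.fin
  have hs := hF.supp
  set T : ℕ → Set ℝ := fun n => {ν | cos (ν / 2) = 0 ∨ (0 < sin (ν / 2) ∧
      2 * cos (ν / 2) ≤ ((n : ℝ) + 1) * sin (ν / 2))} with hT
  have hTm : ∀ n, MeasurableSet (T n) := by
    intro n
    have a1 : MeasurableSet {ν : ℝ | cos (ν / 2) = 0} :=
      measurableSet_eq_fun (by fun_prop) (by fun_prop)
    have a2 : MeasurableSet {ν : ℝ | 0 < sin (ν / 2)} :=
      measurableSet_lt (by fun_prop) (by fun_prop)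
    have a3 : MeasurableSet {ν : ℝ | 2 * cos (ν / 2) ≤ ((n : ℝ) + 1) * sin (ν / 2)} :=
      measurableSet_le (by fun_prop) (by fun_prop)
    exact a1.union (a2.inter a3)
  have hex : ∃ n, M (T n) ≠ 0 := by
    by_contra hcon
    push Not at hcon
    apply hP
    have h1 : M (⋃ n, T n) = 0 := measure_iUnion_null hcon
    have h2 : M {ν | ¬ 0 ≤ cos (ν / 2)} = 0 := ae_iff.1 (ae_cos hF)
    refine measure_mono_null (t := (⋃ n, T n) ∪ {ν | ¬ 0 ≤ cos (ν / 2)}) ?_
      (measure_union_null h1 h2)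
    intro ν hν
    by_cases hc : 0 ≤ cos (ν / 2)
    · left
      rw [mem_iUnion]
      rcases hν with h | h
      · have hc1 : 0 < cos (ν / 2) := by
          rcases hc.lt_or_eq with h3 | h3
          · exact h3
          · rw [← h3] at h; simp at h
        have hs1 : 0 < sin (ν / 2) := by
          by_contra hn
          push Not at hn
          nlinarith
        obtain ⟨n, hn⟩ := exists_nat_gt (2 * cos (ν / 2) / sin (ν / 2))
        refine ⟨n, Or.inr ⟨hs1, ?_⟩⟩
        rw [div_lt_iff₀ hs1] at hn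
        nlinarith
      · exact ⟨0, Or.inl h⟩
    · right; exact hc
  obtain ⟨n, hn⟩ := hex
  set L : ℝ := (n : ℝ) + 1 with hL
  have hL0 : 0 < L := by positivity
  have hm0 : 0 < M.real (T n) := by
    rw [measureReal_def]
    exact ENNReal.toReal_pos hn (measure_ne_top _ _)
  refine ⟨L, hL0, fun K => ?_⟩
  set K' := max K 0 with hK'
  set w1 := (K' + |b| + M.real univ / L + 1) / (L / 2 * M.real (T n)) with hw1
  refine ⟨max 0 w1, fun w hw => ?_⟩
  have hw0 : 0 ≤ w := (le_max_left _ _).trans hw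
  have hww : w1 ≤ w := (le_max_right _ _).trans hw
  have h1 : K' + |b| + M.real univ / L + 1 ≤ w * (L / 2 * M.real (T n)) := by
    rwa [hw1, div_le_iff₀ (by positivity)] at hww
  set q : P := (-w, L * (1 + w)) with hq
  have h2 := eY hF q
  have h3 : -(M.real univ / L) + w * L / 2 * M.real (T n) ≤ ∫ ν, jj ν q ∂M := by
    have i1 : Integrable (fun _ : ℝ => -(1 / L)) M := integrable_const _
    have i2 : Integrable ((T n).indicator fun _ => w * L / 2) M :=
      (integrable_const _).indicator (hTm n)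
    have h4 : ∫ ν, (-(1 / L) + (T n).indicator (fun _ => w * L / 2) ν) ∂M ≤ ∫ ν, jj ν q ∂M := by
      refine integral_mono_ae (i1.add i2) (int_of_cont hs (cont_jj q)) ?_
      filter_upwards [ae_cos hF] with ν hc
      obtain ⟨h5, h6⟩ := jj_low hL0 hw0 hc
      by_cases hν : ν ∈ T n
      · rw [indicator_of_mem hν]
        have := h6 hν
        have : 0 < 1 / L := by positivity
        linarith
      · rw [indicator_of_notMem hν, add_zero]; exact h5
    rw [integral_add i1 i2, integral_const, integral_indicator (hTm n), setIntegral_const,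
      smul_eq_mul, smul_eq_mul] at h4
    have e : M.real univ * -(1 / L) + M.real (T n) * (w * L / 2) =
      -(M.real univ / L) + w * L / 2 * M.real (T n) := by ring
    rwa [e] at h4
  have he : Real.exp q.1 ≤ 1 := by
    have : q.1 = -w := rfl
    rw [this]; simpa using hw0
  have hep := Real.exp_pos q.1
  have h5 : -|b| ≤ b * (1 - Real.exp q.1) := by
    have h6 : |b * (1 - Real.exp q.1)| ≤ |b| := by
      rw [abs_mul, abs_of_nonneg (by linarith : (0:ℝ) ≤ 1 - Real.exp q.1)]
      nlinarith [abs_nonneg b]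
    exact (abs_le.1 h6).1
  have h6 : K' < Real.exp q.1 * ((F q).2 - (F 0).2) := by
    rw [h2]
    linarith
  have hK0 : 0 ≤ K' := le_max_right _ _
  have h7 : 0 < (F q).2 - (F 0).2 := by
    by_contra hcon
    push Not at hcon
    nlinarith
  have h8 : Real.exp q.1 * ((F q).2 - (F 0).2) ≤ (F q).2 - (F 0).2 := by nlinarith
  exact lt_of_le_of_lt (le_max_left K 0) (lt_of_lt_of_le h6 h8)

end

end Pool.Agent.EU.D3b
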