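import Pool.Agent.EU.D3bD

/-!
First family, `γ = 0`: charges on one side only.
-/

set_option autoImplicit false
open scoped ContDiff Topology ENNReal
open Real Set MeasureTheory Filter

namespace Pool.Agent.EU.D3b

open Pool.Agent.EU Pool.Agent.EU.C0 Pool.Agent.EU.D2a

section

variable {b : ℝ} {M : Measure ℝ} {F : P → P}

theorem ae_neg (hF : TypeI 0 b M F)
    (hP : M {ν | 0 < sin (ν / 2) * cos (ν / 2) ∨ cos (ν / 2) = 0} = 0) :
    ∀ᵐ ν ∂M, 0 < cos (ν / 2) ∧ sin (ν / 2) ≤ 0 := by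
  have h1 : ∀ᵐ ν ∂M, ¬ (0 < sin (ν / 2) * cos (ν / 2) ∨ cos (ν / 2) = 0) := by
    rw [ae_iff]
    simp only [not_not]
    exact hP
  filter_upwards [ae_cos hF, h1] with ν hc h
  push Not at h
  have hc1 : 0 < cos (ν / 2) := lt_of_le_of_ne hc (Ne.symm h.2)
  exact ⟨hc1, by by_contra hn; push Not at hn; nlinarith [h.1, mul_pos hn hc1]⟩

theorem X_top (hF : TypeI 0 b M F) (hc : ∀ᵐ ν ∂M, 0 < cos (ν / 2))
    (h1 : ∫⁻ ν, (ENNReal.ofReal (chX 0 ν))⁻¹ ∂M = ⊤) :
    Tendsto (fun n : ℕ => (F (-(n : ℝ), 0)).1 - (F 0).1) atTop atBot := by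
  have hfin := hF.fin
  have hs := hF.supp
  set f : ℕ → ℝ → ℝ := fun n ν => (n : ℝ) - k0 (ν / 2) (-(n : ℝ), 0) with hf
  have hfi : ∀ n, Integrable (f n) M := fun n =>
    (integrable_const _).sub (int_of_cont hs (cont_k0 _))
  have hfX : ∀ n : ℕ, (F (-(n : ℝ), 0)).1 - (F 0).1 = -∫ ν, f n ν ∂M := by
    intro n
    have h2 : (F (-(n : ℝ), 0)).1 - (F 0).1 = b * 0 + (-(n : ℝ)) * M.real univ +
      ∫ ν, k0 (ν / 2) (-(n : ℝ), 0) ∂M := typeI_zero_X hF (-(n : ℝ), 0)
    rw [h2, integral_sub (integrable_const _) (int_of_cont hs (cont_k0 _)), integral_const,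
      smul_eq_mul]
    ring
  have hfe : ∀ n ν, cos (ν / 2) ^ 2 * f n ν = 1 - Real.exp (-(n : ℝ) * cos (ν / 2) ^ 2) := by
    intro n ν
    have h3 := mm_mul ((-(n : ℝ) * cos (ν / 2) + 0 * sin (ν / 2)) * cos (ν / 2))
    have e : (-(n : ℝ) * cos (ν / 2) + 0 * sin (ν / 2)) * cos (ν / 2) =
      -(n : ℝ) * cos (ν / 2) ^ 2 := by ring
    have e2 : k0 (ν / 2) (-(n : ℝ), 0) = (-(n : ℝ) * cos (ν / 2) + 0 * sin (ν / 2)) ^ 2 *
        mm ((-(n : ℝ) * cos (ν / 2) + 0 * sin (ν / 2)) * cos (ν / 2)) := k0_eq _ _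
    simp only [hf]
    rw [e2]
    rw [e] at h3 ⊢
    linear_combination -h3
  have ht : Tendsto (fun n => ∫ ν, f n ν ∂M) atTop atTop := by
    refine fatou_top (g := fun ν => (ENNReal.ofReal (chX 0 ν))⁻¹) hfi (fun n => ?_) ?_ h1
    · filter_upwards [hc] with ν hν
      have h2 := hfe n ν
      have h3 : 0 ≤ cos (ν / 2) ^ 2 * f n ν := by
        rw [h2]
        have : Real.exp (-(n : ℝ) * cos (ν / 2) ^ 2) ≤ 1 := by
          rw [Real.exp_le_one_iff]
          have : (0:ℝ) ≤ n := Nat.cast_nonneg n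
          nlinarith [sq_nonneg (cos (ν / 2))]
        linarith
      exact (mul_nonneg_iff_of_pos_left (by positivity)).1 h3
    · filter_upwards [hc] with ν hν
      have hc2 : 0 < cos (ν / 2) ^ 2 := by positivity
      have hlim : Tendsto (fun n : ℕ => f n ν) atTop (𝓝 (1 / cos (ν / 2) ^ 2)) := by
        have e : ∀ n : ℕ, f n ν = (1 - (Real.exp (-cos (ν / 2) ^ 2)) ^ n) / cos (ν / 2) ^ 2 := by
          intro n
          rw [eq_div_iff hc2.ne', mul_comm, hfe, ← Real.exp_nat_mul]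
          congr 2; ring
        simp_rw [e]
        refine Tendsto.div_const ?_ _
        have := (tendsto_pow_atTop_nhds_zero_of_lt_one (Real.exp_pos (-cos (ν / 2) ^ 2)).le
          (by rw [Real.exp_lt_one_iff]; linarith)).const_sub 1
        simpa using this
      have hlim2 := (ENNReal.tendsto_ofReal hlim).liminf_eq
      rw [hlim2]
      have : chX 0 ν = cos (ν / 2) ^ 2 := by simp [chX, sq]
      rw [this, ← ENNReal.ofReal_inv_of_pos hc2, one_div]
  have : (fun n : ℕ => (F (-(n : ℝ), 0)).1 - (F 0).1) = fun n => -∫ ν, f n ν ∂M := by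
    ext n; exact hfX n
  rw [this]
  exact tendsto_neg_atTop_atBot.comp ht

theorem Y_inf (hF : TypeI 0 b M F) (hc : ∀ᵐ ν ∂M, 0 < cos (ν / 2) ∧ sin (ν / 2) ≤ 0)
    (h0 : ∫⁻ ν, (ENNReal.ofReal |cos (ν / 2 - 0)|)⁻¹ ∂M = ⊤) :
    Tendsto (fun n : ℕ => (F (-(n : ℝ), 0)).2 - (F 0).2) atTop atTop := by
  have hfin := hF.fin
  have hs := hF.supp
  have ht : Tendsto (fun n : ℕ => ∫ ν, jj ν (-(n : ℝ), 0) ∂M) atTop atTop := by
    refine fatou_top (g := fun ν => ENNReal.ofReal (-sin (ν / 2) / cos (ν / 2)))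
      (fun n => int_of_cont hs (cont_jj _)) (fun n => ?_) ?_ ?_
    · filter_upwards [hc] with ν hν
      exact jj_nonneg hν.1.le hν.2 le_rfl
    · filter_upwards [hc] with ν hν
      have hc2 : 0 < cos (ν / 2) ^ 2 := by have := hν.1; positivity
      have hlim : Tendsto (fun n : ℕ => jj ν (-(n : ℝ), 0)) atTop
          (𝓝 (-sin (ν / 2) / cos (ν / 2))) := by
        rcases hν.2.lt_or_eq with hs1 | hs1
        · have e : ∀ n : ℕ, jj ν (-(n : ℝ), 0) = ((Real.exp (-cos (ν / 2) ^ 2)) ^ n -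
              sin (ν / 2) ^ 2 - cos (ν / 2) ^ 2 * (Real.exp (-1)) ^ n) /
              (sin (ν / 2) * cos (ν / 2)) := by
            intro n
            have h2 := jj_mul ν (-(n : ℝ), 0)
            have a1 : (((-(n : ℝ), (0 : ℝ)) : P).1 * cos (ν / 2) +
                ((-(n : ℝ), (0 : ℝ)) : P).2 * sin (ν / 2)) * cos (ν / 2) =
                (n : ℝ) * (-cos (ν / 2) ^ 2) := by simp only; ring
            have a2 : ((-(n : ℝ), (0 : ℝ)) : P).1 = n * (-1) := by simp only; ring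
            rw [a1, a2] at h2
            rw [eq_div_iff (mul_ne_zero hs1.ne hν.1.ne'), mul_comm, h2, ← Real.exp_nat_mul,
              ← Real.exp_nat_mul]
          have e2 : -sin (ν / 2) / cos (ν / 2) = (0 - sin (ν / 2) ^ 2 - cos (ν / 2) ^ 2 * 0) /
              (sin (ν / 2) * cos (ν / 2)) := by
            have := hs1.ne
            have := hν.1.ne'
            field_simp
            ring
          simp_rw [e]
          rw [e2]
          refine Tendsto.div_const ?_ _
          refine Tendsto.sub (Tendsto.sub_const ?_ _) (Tendsto.const_mul _ ?_)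
          · exact tendsto_pow_atTop_nhds_zero_of_lt_one (Real.exp_pos _).le
              (by rw [Real.exp_lt_one_iff]; linarith)
          · exact tendsto_pow_atTop_nhds_zero_of_lt_one (Real.exp_pos _).le
              (by rw [Real.exp_lt_one_iff]; linarith)
        · have e : ∀ n : ℕ, jj ν (-(n : ℝ), 0) = 0 := by
            intro n; rw [jj_axis hs1]; simp
          simp_rw [e, hs1]
          simp
      rw [(ENNReal.tendsto_ofReal hlim).liminf_eq]
    · have h2 : (⊤ : ℝ≥0∞) ≤ ∫⁻ ν, (ENNReal.ofReal (-sin (ν / 2) / cos (ν / 2)) + 1) ∂M := by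
        rw [← h0]
        refine lintegral_mono_ae ?_
        filter_upwards [hc] with ν hν
        have hcp := hν.1
        have hsc := Real.sin_sq_add_cos_sq (ν / 2)
        have hs0 : 0 ≤ -sin (ν / 2) := by linarith [hν.2]
        rw [sub_zero, abs_of_pos hcp, ← ENNReal.ofReal_inv_of_pos hcp, ← ENNReal.ofReal_one,
          ← ENNReal.ofReal_add (by positivity) zero_le_one]
        refine ENNReal.ofReal_le_ofReal ?_
        rw [inv_eq_one_div, div_add_one hcp.ne', div_le_div_iff_of_pos_right hcp]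
        nlinarith
      rw [lintegral_add_right _ measurable_const, lintegral_const, one_mul] at h2
      rcases ENNReal.add_eq_top.1 (top_le_iff.1 h2) with h3 | h3
      · exact h3
      · exact absurd h3 (measure_ne_top _ _)
  rw [tendsto_atTop] at ht ⊢
  intro K
  filter_upwards [ht (max K 0 + |b|)] with n hn
  have h2 := eY hF (-(n : ℝ), 0)
  set q : P := (-(n : ℝ), 0) with hq
  have hq1 : q.1 = -(n : ℝ) := rfl
  have he : Real.exp q.1 ≤ 1 := by
    rw [hq1]; simp
  have hep := Real.exp_pos q.1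
  have h5 : -|b| ≤ b * (1 - Real.exp q.1) := by
    have h6 : |b * (1 - Real.exp q.1)| ≤ |b| := by
      rw [abs_mul, abs_of_nonneg (by linarith : (0:ℝ) ≤ 1 - Real.exp q.1)]
      nlinarith [abs_nonneg b]
    exact (abs_le.1 h6).1
  have h6 : max K 0 ≤ Real.exp q.1 * ((F q).2 - (F 0).2) := by
    rw [h2]; linarith
  have h7 : 0 ≤ (F q).2 - (F 0).2 := by
    by_contra hcon
    push Not at hcon
    have := le_max_right K 0
    nlinarith
  have h8 : Real.exp q.1 * ((F q).2 - (F 0).2) ≤ (F q).2 - (F 0).2 := by nlinarith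
  exact (le_max_left K 0).trans (h6.trans h8)

/-- the general bound for `e^{q₁} ky`, `q₁ = -n` -/
theorem G_bound {n L : ℝ} (hn : 0 ≤ n) (ν : ℝ) :
    Real.exp (-n) * |ky (ν / 2) (-n, L)| ≤
      (n + |L|) * Real.exp |L| * Real.exp (-n * cos (ν / 2) ^ 2) := by
  set s := sin (ν / 2) with hsd
  set c := cos (ν / 2) with hcd
  have hsc : s ^ 2 + c ^ 2 = 1 := Real.sin_sq_add_cos_sq (ν / 2)
  have hky : ky (ν / 2) (-n, L) = (-(-n * s) + L * c) * hh ((-(-n * s) + L * c) * s) := ky_eq _ _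
  have hs1 : |s| ≤ 1 := abs_sin_le_one _
  have hc1 : |c| ≤ 1 := abs_cos_le_one _
  have hL0 := abs_nonneg L
  have h1 : |(-(-n * s) + L * c)| ≤ n + |L| := by
    refine (abs_add_le _ _).trans ?_
    rw [neg_mul, neg_neg, abs_mul, abs_mul, abs_of_nonneg hn]
    nlinarith [abs_nonneg s, abs_nonneg c]
  have h2 : |(-(-n * s) + L * c) * s| ≤ n * s ^ 2 + |L| := by
    have : (-(-n * s) + L * c) * s = n * s ^ 2 + L * (c * s) := by ring
    rw [this]
    refine (abs_add_le _ _).trans ?_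
    rw [abs_of_nonneg (by positivity : (0:ℝ) ≤ n * s ^ 2), abs_mul, abs_mul]
    have : |c| * |s| ≤ 1 := mul_le_one₀ hc1 (abs_nonneg s) hs1
    nlinarith
  have h3 : hh ((-(-n * s) + L * c) * s) ≤ Real.exp (n * s ^ 2 + |L|) :=
    (hh_le _).trans (Real.exp_le_exp.2 h2)
  rw [hky, abs_mul, abs_of_pos (hh_pos _)]
  have h4 : Real.exp (-n) * Real.exp (n * s ^ 2 + |L|) = Real.exp |L| * Real.exp (-n * c ^ 2) := by
    rw [← Real.exp_add, ← Real.exp_add]
    congr 1
    linear_combination n * hsc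
  calc Real.exp (-n) * (|(-(-n * s) + L * c)| * hh ((-(-n * s) + L * c) * s))
      ≤ Real.exp (-n) * ((n + |L|) * Real.exp (n * s ^ 2 + |L|)) := by
        have := hh_pos ((-(-n * s) + L * c) * s)
        gcongr
    _ = (n + |L|) * (Real.exp (-n) * Real.exp (n * s ^ 2 + |L|)) := by ring
    _ = _ := by rw [h4]; ring

theorem G_bound2 {n L : ℝ} (hn : 0 ≤ n) (ν : ℝ) :
    Real.exp (-n) * |ky (ν / 2) (-n, L)| ≤ 2 * (2 + |L|) * Real.exp |L| := by
  set s := sin (ν / 2) with hsd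
  set c := cos (ν / 2) with hcd
  have hsc : s ^ 2 + c ^ 2 = 1 := Real.sin_sq_add_cos_sq (ν / 2)
  have hL0 := abs_nonneg L
  have hs1 : |s| ≤ 1 := abs_sin_le_one _
  have hc1 : |c| ≤ 1 := abs_cos_le_one _
  have heL : 1 ≤ Real.exp |L| := Real.one_le_exp hL0
  rcases le_or_gt (1 / 2) |s| with h | h
  · -- `|s|` large
    have e1 := hh_mul ((-(-n * s) + L * c) * s)
    have e2 := EE_eq2 ν (-n, L)
    have hky : ky (ν / 2) (-n, L) = (-(-n * s) + L * c) * hh ((-(-n * s) + L * c) * s) := ky_eq _ _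
    have e3 : Real.exp (-n) * (s * ky (ν / 2) (-n, L)) =
        Real.exp ((-n * c + L * s) * c) - Real.exp (-n) := by
      rw [hky]
      have : Real.exp ((-n * c + L * s) * c) = Real.exp (-n) *
        Real.exp ((-(-n * s) + L * c) * s) := e2
      rw [this]
      linear_combination Real.exp (-n) * e1
    have h1 : Real.exp ((-n * c + L * s) * c) ≤ Real.exp |L| := by
      refine Real.exp_le_exp.2 ?_
      have : (-n * c + L * s) * c = -(n * c ^ 2) + L * (s * c) := by ring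
      rw [this]
      have h2 : L * (s * c) ≤ |L| := by
        refine (le_abs_self _).trans ?_
        rw [abs_mul, abs_mul]
        have : |s| * |c| ≤ 1 := mul_le_one₀ hs1 (abs_nonneg c) hc1
        nlinarith
      have : 0 ≤ n * c ^ 2 := by positivity
      linarith
    have h2 : Real.exp (-n) ≤ 1 := by simpa using hn
    have h3 : |s| * (Real.exp (-n) * |ky (ν / 2) (-n, L)|) ≤ Real.exp |L| := by
      have : |s| * (Real.exp (-n) * |ky (ν / 2) (-n, L)|) =
          |Real.exp ((-n * c + L * s) * c) - Real.exp (-n)| := by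
        rw [← e3, abs_mul, abs_mul, Real.abs_exp]; ring
      rw [this, abs_le]
      constructor
      · linarith [Real.exp_pos ((-n * c + L * s) * c)]
      · linarith [Real.exp_pos (-n)]
    have h4 : 0 ≤ Real.exp (-n) * |ky (ν / 2) (-n, L)| :=
      mul_nonneg (Real.exp_pos _).le (abs_nonneg _)
    have h5 : Real.exp (-n) * |ky (ν / 2) (-n, L)| ≤ 2 * Real.exp |L| := by nlinarith
    have h6 : 0 ≤ |L| * Real.exp |L| := by positivity
    nlinarith
  · have h1 := G_bound (L := L) hn ν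
    refine h1.trans ?_
    have hc2 : 3 / 4 ≤ c ^ 2 := by
      have : s ^ 2 ≤ 1 / 4 := by
        rw [← sq_abs]; nlinarith [abs_nonneg s]
      linarith
    have h2 : Real.exp (-n * c ^ 2) ≤ Real.exp (-(n * (3 / 4))) :=
      Real.exp_le_exp.2 (by nlinarith)
    have h3 : n * (3 / 4) ≤ Real.exp (n * (3 / 4)) := by
      linarith [Real.add_one_le_exp (n * (3 / 4))]
    have h4 : Real.exp (n * (3 / 4)) * Real.exp (-(n * (3 / 4))) = 1 := by
      rw [← Real.exp_add]; simp
    have h5 : n * Real.exp (-(n * (3 / 4))) ≤ 2 := by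
      have h6 : n * (3 / 4) * Real.exp (-(n * (3 / 4))) ≤ 1 :=
        (mul_le_mul_of_nonneg_right h3 (Real.exp_pos _).le).trans h4.le
      linarith
    have h6 : Real.exp (-(n * (3 / 4))) ≤ 1 := by
      rw [Real.exp_le_one_iff]; nlinarith
    calc (n + |L|) * Real.exp |L| * Real.exp (-n * c ^ 2)
        ≤ (n + |L|) * Real.exp |L| * Real.exp (-(n * (3 / 4))) := by gcongr
      _ = (n * Real.exp (-(n * (3 / 4))) + |L| * Real.exp (-(n * (3 / 4)))) * Real.exp |L| := by
          ring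
      _ ≤ (2 + |L| * 1) * Real.exp |L| := by gcongr
      _ ≤ 2 * (2 + |L|) * Real.exp |L| := by
          have : 0 ≤ (2 + |L|) * Real.exp |L| := by positivity
          nlinarith

theorem fin_Y (hF : TypeI 0 b M F) (hc : ∀ᵐ ν ∂M, 0 < cos (ν / 2))
    (h0 : ∫⁻ ν, (ENNReal.ofReal |cos (ν / 2 - 0)|)⁻¹ ∂M ≠ ⊤) (L : ℝ) :
    Tendsto (fun n : ℕ => Real.exp (-(n : ℝ)) * ((F (-(n : ℝ), L)).2 - (F 0).2)) atTop
      (𝓝 (bp 0 b M)) := by
  have hfin := hF.fin
  obtain ⟨hic, -⟩ := int_inv_cos h0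
  simp only [sub_zero] at hic
  have e : ∀ n : ℕ, Real.exp (-(n : ℝ)) * ((F (-(n : ℝ), L)).2 - (F 0).2) =
      bp 0 b M * (1 - Real.exp (-(n : ℝ))) +
      ∫ ν, Real.exp (-(n : ℝ)) * (ky (ν / 2) (-(n : ℝ), L) / cos (ν / 2)) ∂M := fun n =>
    (finite_XY hF h0 (-(n : ℝ), L)).2.2.2.2
  simp_rw [e]
  have he : Tendsto (fun n : ℕ => Real.exp (-(n : ℝ))) atTop (𝓝 0) :=
    Real.tendsto_exp_neg_atTop_nhds_zero.comp tendsto_natCast_atTop_atTop
  have h1 : Tendsto (fun n : ℕ => bp 0 b M * (1 - Real.exp (-(n : ℝ)))) atTop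
      (𝓝 (bp 0 b M)) := by
    have := (he.const_sub 1).const_mul (bp 0 b M)
    simpa using this
  have h2 : Tendsto (fun n : ℕ => ∫ ν, Real.exp (-(n : ℝ)) *
      (ky (ν / 2) (-(n : ℝ), L) / cos (ν / 2)) ∂M) atTop (𝓝 (∫ _ν : ℝ, (0:ℝ) ∂M)) := by
    refine tendsto_integral_of_dominated_convergence
      (fun ν => 2 * (2 + |L|) * Real.exp |L| * |(cos (ν / 2))⁻¹|) ?_ (hic.abs.const_mul _) ?_ ?_
    · intro n
      exact ((finite_XY hF h0 (-(n : ℝ), L)).2.1.const_mul _).1
    · intro n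
      filter_upwards [hc] with ν hν
      have h3 := G_bound2 (L := L) (Nat.cast_nonneg (α := ℝ) n) ν
      rw [Real.norm_eq_abs, abs_mul, abs_div, Real.abs_exp, abs_inv, ← mul_div_assoc,
        div_eq_mul_inv]
      exact mul_le_mul_of_nonneg_right h3 (by positivity)
    · filter_upwards [hc] with ν hν
      have hc2 : 0 < cos (ν / 2) ^ 2 := by positivity
      set r := Real.exp (-cos (ν / 2) ^ 2) with hr
      have hr0 : 0 ≤ r := (Real.exp_pos _).le
      have hr1 : r < 1 := by rw [hr, Real.exp_lt_one_iff]; linarith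
      have h3 : Tendsto (fun n : ℕ => ((n : ℝ) ^ 1 * r ^ n + |L| * r ^ n) *
          (Real.exp |L| / cos (ν / 2))) atTop (𝓝 ((0 + |L| * 0) * (Real.exp |L| / cos (ν / 2)))) :=
        ((tendsto_pow_const_mul_const_pow_of_lt_one 1 hr0 hr1).add
          ((tendsto_pow_atTop_nhds_zero_of_lt_one hr0 hr1).const_mul _)).mul_const _
      simp only [mul_zero, add_zero, zero_mul] at h3
      refine squeeze_zero_norm (fun n => ?_) h3
      have h4 := G_bound (L := L) (Nat.cast_nonneg (α := ℝ) n) ν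
      have h5 : Real.exp (-(n : ℝ) * cos (ν / 2) ^ 2) = r ^ n := by
        rw [hr, ← Real.exp_nat_mul]; congr 1; ring
      rw [h5] at h4
      rw [Real.norm_eq_abs, abs_mul, abs_div, Real.abs_exp, abs_of_pos hν, ← mul_div_assoc,
        ← mul_div_assoc, div_le_div_iff_of_pos_right hν]
      refine h4.trans (le_of_eq ?_)
      ring
  have h3 := h1.add h2
  simpa using h3

theorem fin_X (hF : TypeI 0 b M F) (hc : ∀ᵐ ν ∂M, 0 < cos (ν / 2))
    (h0 : ∫⁻ ν, (ENNReal.ofReal |cos (ν / 2 - 0)|)⁻¹ ∂M ≠ ⊤) (L : ℝ) :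
    ∀ᶠ n : ℕ in atTop, (F (-(n : ℝ), L)).1 - (F 0).1 ≤ bp 0 b M * L + 1 := by
  have hfin := hF.fin
  obtain ⟨hic, -⟩ := int_inv_cos h0
  simp only [sub_zero] at hic
  have hX : ∀ n : ℕ, Integrable (fun ν => kx (ν / 2) (-(n : ℝ), L) / cos (ν / 2)) M ∧
      (F (-(n : ℝ), L)).1 - (F 0).1 = bp 0 b M * L +
      ∫ ν, kx (ν / 2) (-(n : ℝ), L) / cos (ν / 2) ∂M := fun n =>
    ⟨(finite_XY hF h0 (-(n : ℝ), L)).1, (finite_XY hF h0 (-(n : ℝ), L)).2.2.1⟩
  have h2 : Tendsto (fun n : ℕ => ∫ ν, max (kx (ν / 2) (-(n : ℝ), L) / cos (ν / 2)) 0 ∂M) atTop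
      (𝓝 (∫ _ν : ℝ, (0:ℝ) ∂M)) := by
    refine tendsto_integral_of_dominated_convergence
      (fun ν => |L| * Real.exp |L| * |(cos (ν / 2))⁻¹|) ?_ (hic.abs.const_mul _) ?_ ?_
    · intro n
      exact (hX n).1.pos_part.1
    · intro n
      filter_upwards [hc] with ν hν
      have hcn : 0 ≤ |L| * Real.exp |L| * |(cos (ν / 2))⁻¹| := by positivity
      rw [Real.norm_eq_abs, abs_of_nonneg (le_max_right _ _)]
      refine max_le ?_ hcn
      have hkx : kx (ν / 2) (-(n : ℝ), L) = (-(n : ℝ) * cos (ν / 2) + L * sin (ν / 2)) *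
        hh ((-(n : ℝ) * cos (ν / 2) + L * sin (ν / 2)) * cos (ν / 2)) := kx_eq _ _
      set y := -(n : ℝ) * cos (ν / 2) + L * sin (ν / 2) with hy
      have hn0 : (0:ℝ) ≤ n := Nat.cast_nonneg n
      have hyL : y ≤ |L| := by
        have h3 : L * sin (ν / 2) ≤ |L| := by
          refine (le_abs_self _).trans ?_
          rw [abs_mul]
          have := abs_sin_le_one (ν / 2)
          nlinarith [abs_nonneg L]
        have : 0 ≤ (n : ℝ) * cos (ν / 2) := by positivity
        rw [hy]; linarith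
      rcases le_or_gt y 0 with h | h
      · refine le_trans ?_ hcn
        rw [hkx]
        exact div_nonpos_of_nonpos_of_nonneg (mul_nonpos_of_nonpos_of_nonneg h (hh_pos _).le)
          hν.le
      · rw [hkx, div_eq_mul_inv, abs_of_pos (inv_pos.2 hν)]
        refine mul_le_mul_of_nonneg_right ?_ (inv_pos.2 hν).le
        refine mul_le_mul hyL ?_ (hh_pos _).le (abs_nonneg L)
        refine (hh_le _).trans (Real.exp_le_exp.2 ?_)
        rw [abs_mul, abs_of_pos h, abs_of_pos hν]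
        have := cos_le_one (ν / 2)
        nlinarith [abs_nonneg L]
    · filter_upwards [hc] with ν hν
      obtain ⟨n0, hn0⟩ := exists_nat_gt (|L| / cos (ν / 2))
      refine tendsto_const_nhds.congr' ?_
      filter_upwards [eventually_ge_atTop n0] with n hn
      have hkx : kx (ν / 2) (-(n : ℝ), L) = (-(n : ℝ) * cos (ν / 2) + L * sin (ν / 2)) *
        hh ((-(n : ℝ) * cos (ν / 2) + L * sin (ν / 2)) * cos (ν / 2)) := kx_eq _ _
      rw [hkx]
      symm
      refine max_eq_right ?_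
      refine div_nonpos_of_nonpos_of_nonneg (mul_nonpos_of_nonpos_of_nonneg ?_ (hh_pos _).le)
          hν.le
      have h3 : L * sin (ν / 2) ≤ |L| := by
        refine (le_abs_self _).trans ?_
        rw [abs_mul]
        have := abs_sin_le_one (ν / 2)
        nlinarith [abs_nonneg L]
      rw [div_lt_iff₀ hν] at hn0
      have h4 : (n0 : ℝ) ≤ n := by exact_mod_cast hn
      nlinarith
  simp only [integral_zero] at h2
  have h3 : ∀ᶠ n : ℕ in atTop, ∫ ν, max (kx (ν / 2) (-(n : ℝ), L) / cos (ν / 2)) 0 ∂M < 1 :=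
    (tendsto_order.1 h2).2 _ one_pos
  filter_upwards [h3] with n hn
  rw [(hX n).2]
  have h4 : ∫ ν, kx (ν / 2) (-(n : ℝ), L) / cos (ν / 2) ∂M ≤
      ∫ ν, max (kx (ν / 2) (-(n : ℝ), L) / cos (ν / 2)) 0 ∂M :=
    integral_mono (hX n).1 (hX n).1.pos_part fun ν => le_max_left _ _
  linarith

end

end Pool.Agent.EU.D3b
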