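import Pool.Agent.EU.D5
import Pool.Agent.EU.D2b

/-!
First family, `0 < γ < π / 2`: the quadrant `Y < 0 < X` by exchange of the coordinates.
-/

set_option autoImplicit false
open scoped ContDiff Topology ENNReal
open Real Set MeasureTheory Filter

namespace Pool.Agent.EU

namespace D5

theorem measurable_red : Measurable red := by
  unfold red
  exact Complex.measurable_arg.comp (by fun_prop : Continuous fun ν : ℝ =>
    Complex.exp (ν * Complex.I)).measurable

theorem exists_red (x : ℝ) : ∃ k : ℤ, red x = x + k * (2 * π) := by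
  unfold red
  refine ⟨-toIocDiv Real.two_pi_pos (-π) x, ?_⟩
  rw [Complex.arg_exp_mul_I, toIocMod]
  push_cast
  rw [zsmul_eq_mul]
  ring

theorem chX_red (γ x : ℝ) : chX γ (red x) = chX γ x := by
  obtain ⟨k, hk⟩ := exists_red x
  have h : ∀ y, chX γ y = (cos (y - γ) + cos γ) / 2 := by
    intro y
    unfold chX
    have h1 := cos_add (y / 2) (y / 2 - γ)
    have h2 := cos_sub (y / 2) (y / 2 - γ)
    have e1 : y / 2 + (y / 2 - γ) = y - γ := by ring
    have e2 : y / 2 - (y / 2 - γ) = γ := by ring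
    rw [e1] at h1
    rw [e2] at h2
    linarith
  rw [h, h, hk]
  have e : x + k * (2 * π) - γ = x - γ + k * (2 * π) := by ring
  rw [e, cos_add_int_mul_two_pi]

theorem chX_swap (γ ν : ℝ) : chX (π / 2 - γ) (red (π - ν)) = chY γ ν := by
  rw [chX_red]
  unfold chX chY
  have e1 : (π - ν) / 2 = π / 2 - ν / 2 := by ring
  have e2 : (π - ν) / 2 - (π / 2 - γ) = -(ν / 2 - γ) := by ring
  rw [e2, cos_neg, e1, cos_pi_div_two_sub]

theorem tan_swap (γ ν : ℝ) : tan (red (π - ν) / 2 - (π / 2 - γ)) = -tan (ν / 2 - γ) := by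
  obtain ⟨k, hk⟩ := exists_red (π - ν)
  rw [hk]
  have e : (π - ν + k * (2 * π)) / 2 - (π / 2 - γ) = -(ν / 2 - γ) + k * π := by ring
  rw [e, tan_add_int_mul_pi, tan_neg]

theorem measurable_tan' : Measurable Real.tan := by
  have : Real.tan = fun x => sin x / cos x := by
    funext x
    exact tan_eq_sin_div_cos x
  rw [this]
  exact measurable_sin.div measurable_cos

theorem bp_swap (γ b : ℝ) (M : Measure ℝ) :
    bp (π / 2 - γ) (-b) (M.map fun ν => red (π - ν)) = -bp γ b M := by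
  have hm : Measurable fun ν : ℝ => red (π - ν) :=
    measurable_red.comp (measurable_const.sub measurable_id)
  have hmt : Measurable fun ν : ℝ => tan (ν / 2 - (π / 2 - γ)) :=
    measurable_tan'.comp ((measurable_id.div_const 2).sub_const _)
  unfold bp
  rw [integral_map (f := fun ν : ℝ => tan (ν / 2 - (π / 2 - γ))) hm.aemeasurable
    hmt.aestronglyMeasurable]
  simp only [tan_swap]
  rw [integral_neg]
  ring

theorem lint_swap (γ : ℝ) (M : Measure ℝ) :
    ∫⁻ ν, (ENNReal.ofReal (chX (π / 2 - γ) ν))⁻¹ ∂(M.map fun ν => red (π - ν)) =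
      ∫⁻ ν, (ENNReal.ofReal (chY γ ν))⁻¹ ∂M := by
  have hm : Measurable fun ν : ℝ => red (π - ν) :=
    measurable_red.comp (measurable_const.sub measurable_id)
  have hmX : Measurable (chX (π / 2 - γ)) := by
    unfold chX
    fun_prop
  rw [lintegral_map (f := fun ν => (ENNReal.ofReal (chX (π / 2 - γ) ν))⁻¹)
    (ENNReal.measurable_ofReal.comp hmX).inv hm]
  simp only [chX_swap]

end D5

open D5 in
theorem typeIpos_U3 {γ b : ℝ} {M : Measure ℝ} {F : P → P} (hγ : 0 < γ) (hγ' : γ < π / 2)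
    (hF : TypeI γ b M F) (h : ∫⁻ ν, (ENNReal.ofReal (chY γ ν))⁻¹ ∂M = ⊤ ∨ bp γ b M < 0) (N : ℝ) :
    ∃ q, N < (F q).1 ∧ (F q).2 < -N := by
  have h' : ∫⁻ ν, (ENNReal.ofReal (chX (π / 2 - γ) ν))⁻¹ ∂(M.map fun ν => red (π - ν)) = ⊤ ∨
      0 < bp (π / 2 - γ) (-b) (M.map fun ν => red (π - ν)) := by
    rw [lint_swap, bp_swap]
    exact h.imp id (fun h => by linarith)
  obtain ⟨q, h1, h2⟩ := typeIpos_U1 (by linarith) (by linarith) hF.swap h' N
  exact ⟨(-q.1, q.2), h2, h1⟩

end Pool.Agent.EU
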