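import Pool.Agent.EU.OntoDefs
import Pool.Agent.EU.C345
import Pool.Agent.EU.D5b

/-!
First family, `0 < γ < π / 2`: the quadrant `0 < X, 0 < Y` is reached; the criterion is necessary.
-/

set_option autoImplicit false
open scoped ContDiff Topology ENNReal
open Real Set MeasureTheory Filter

namespace Pool.Agent.EU

namespace D4

open C0 D2a D5

/-! ### general facts -/

theorem hh_pos (x : ℝ) : 0 < hh x := by
  have h := hh_mul x
  rcases lt_trichotomy x 0 with hx | hx | hx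
  · have h1 : Real.exp x - 1 < 0 := by
      have := Real.exp_lt_exp.2 hx
      rw [Real.exp_zero] at this
      linarith
    by_contra hc
    push Not at hc
    have := mul_nonneg_of_nonpos_of_nonpos hx.le hc
    linarith
  · rw [hx]; simp [hh]
  · have h1 : 0 < Real.exp x - 1 := by linarith [Real.one_lt_exp_iff.2 hx]
    by_contra hc
    push Not at hc
    have := mul_nonpos_of_nonneg_of_nonpos hx.le hc
    linarith

theorem one_le_hh {x : ℝ} (hx : 0 ≤ x) : 1 ≤ hh x := by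
  rcases hx.eq_or_lt with h | h
  · rw [← h]; simp [hh]
  · have h1 := hh_mul x
    have h2 := Real.add_one_le_exp x
    by_contra hc
    push Not at hc
    nlinarith

/-- the factor `Z` -/
noncomputable def Zf (γ ν : ℝ) (q : P) : ℝ :=
  (sg γ q * cos (ν / 2) + ta γ q * sin (ν / 2)) *
      hh ((sg γ q * cos (ν / 2) + ta γ q * sin (ν / 2)) * cos (ν / 2 - γ))

theorem EE_Z (γ ν : ℝ) (q : P) :
    EE ν q = Real.exp (-(ta γ q * sin γ)) * (1 + cos (ν / 2 - γ) * Zf γ ν q) := by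
  have h := hh_mul ((sg γ q * cos (ν / 2) + ta γ q * sin (ν / 2)) * cos (ν / 2 - γ))
  rw [← exp_identity γ ν q]
  unfold Zf
  linear_combination (-Real.exp (-(ta γ q * sin γ))) * h

theorem kk_Z (γ ν : ℝ) (q : P) :
    kk γ ν q = sin (ν / 2 - γ) * Real.exp (-(ta γ q * sin γ)) * Zf γ ν q := kk_eq γ ν q

theorem comb1 (γ ν : ℝ) (q : P) : cos γ * EE ν q - sin γ * kk γ ν q =
    Real.exp (-(ta γ q * sin γ)) * (cos γ + cos (ν / 2) * Zf γ ν q) := by
  rw [EE_Z γ, kk_Z]
  have h : cos (ν / 2) = cos (ν / 2 - γ) * cos γ - sin (ν / 2 - γ) * sin γ := by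
    rw [← cos_add]; congr 1; ring
  rw [h]; ring

theorem comb2 (γ ν : ℝ) (q : P) : sin γ * EE ν q + cos γ * kk γ ν q =
    Real.exp (-(ta γ q * sin γ)) * (sin γ + sin (ν / 2) * Zf γ ν q) := by
  rw [EE_Z γ, kk_Z]
  have h : sin (ν / 2) = sin (ν / 2 - γ) * cos γ + cos (ν / 2 - γ) * sin γ := by
    rw [← sin_add]; congr 1; ring
  rw [h]; ring

section

variable {γ b : ℝ} {M : Measure ℝ} {F : P → P}

theorem path1 (hF : TypeI γ b M F) (p v : P) (t : ℝ) :
    HasDerivAt (fun t : ℝ => (F (p + t • v)).1)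
      (W1 M (p + t • v) * sg γ v + K1 γ b M (p + t • v) * ta γ v) t := by
  have h1 : HasDerivAt (fun t : ℝ => p + t • v) v t := by
    have := ((hasDerivAt_id t).smul_const v).const_add p
    simpa using this
  have h2 := (hF.diff (p + t • v)).hasFDerivAt.comp_hasDerivAt t h1
  rw [hF.dF] at h2
  exact (hasFDerivAt_fst (𝕜 := ℝ) (E := ℝ) (F := ℝ)).comp_hasDerivAt t h2

/-- `∂₁ X` -/
noncomputable def X1 (γ b : ℝ) (M : Measure ℝ) (q : P) : ℝ := W1 M q * cos γ - K1 γ b M q * sin γ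

theorem X1_eq (hF : TypeI γ b M F) (q : P) : X1 γ b M q =
    -(b * sin γ * Real.exp (-(ta γ q * sin γ))) + ∫ ν, (cos γ * EE ν q - sin γ * kk γ ν q) ∂M := by
  have := hF.fin
  obtain ⟨i1, i2, -, -⟩ := integrable_kernels (γ := γ) hF.supp q
  rw [integral_sub (i1.const_mul _) (i2.const_mul _), integral_const_mul, integral_const_mul]
  unfold X1 W1 K1
  ring

/-- the map is open -/
theorem isOpenMap_typeI (hF : TypeI γ b M F) : IsOpenMap F := by
  have := hF.fin
  have hs := hF.supp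
  have cW := (W1_smooth M hs).continuous
  have cK := (K1_smooth γ b M hs).continuous
  have hWpos : ∀ q, 0 < W1 M q := by
    intro q
    refine C3.integral_pos_of_pos hF.supp hF.nz ?_ (fun ν => Real.exp_pos _)
    unfold EE
    fun_prop
  have hC1 : ContDiff ℝ 1 F := by
    refine C3.contDiff_one_of_dF hF.diff fun y => ?_
    have : (fun q => fderiv ℝ F q y) = fun q => (W1 M q * sg γ y + K1 γ b M q * ta γ y,
      Real.exp (-q.1) * (W1 M q * ta γ y - K1 γ b M q * sg γ y)) := funext fun q => hF.dF q y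
    rw [this]
    fun_prop
  have hdet : ∀ q, 0 < (fderiv ℝ F q).det := by
    intro q
    rw [C3.det_frame (hF.dF q (cos γ, sin γ)) (hF.dF q (-(sin γ), cos γ)), C3.sg_cs, C3.ta_cs,
      C3.sg_sc, C3.ta_sc]
    have h1 := hWpos q
    have h2 := Real.exp_pos (-q.1)
    have e : (W1 M q * 1 + K1 γ b M q * 0) * (Real.exp (-q.1) * (W1 M q * 1 - K1 γ b M q * 0)) -
        (W1 M q * 0 + K1 γ b M q * 1) * (Real.exp (-q.1) * (W1 M q * 0 - K1 γ b M q * 1)) =
        Real.exp (-q.1) * (W1 M q ^ 2 + K1 γ b M q ^ 2) := by ring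
    rw [e]
    positivity
  have hst : ∀ q, HasStrictFDerivAt F
      ((fderiv ℝ F q).toContinuousLinearEquivOfDetNeZero (hdet q).ne' : P →L[ℝ] P) q := by
    intro q
    rw [ContinuousLinearMap.coe_toContinuousLinearEquivOfDetNeZero]
    exact hC1.contDiffAt.hasStrictFDerivAt (by simp)
  exact isOpenMap_of_hasStrictFDerivAt_equiv hst

/-- preimages of bounded sets are bounded -/
theorem bdd_preimage (hF : TypeI γ b M F) (hs : Function.Surjective F) (R : ℝ) :
    Bornology.IsBounded {q | ‖F q‖ ≤ R} := by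
  have := hF.fin
  have hi : Function.Injective F := (C3.u_of_typeI_aux hF hs (W1_smooth M hF.supp).continuous
    (K1_smooth γ b M hF.supp).continuous).1
  set e : P ≃ₜ P := (Equiv.ofBijective F ⟨hi, hs⟩).toHomeomorphOfContinuousOpen
    hF.diff.continuous (isOpenMap_typeI hF) with he
  have h1 : {q | ‖F q‖ ≤ R} = e.symm '' Metric.closedBall 0 R := by
    rw [e.image_symm]
    ext q
    simp only [mem_preimage, Metric.mem_closedBall, dist_zero_right]
    rfl
  rw [h1]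
  exact ((isCompact_closedBall (0 : P) R).image e.symm.continuous).isBounded

/-! ### the path `(0, r)` -/

theorem Tf_anti {x y t : ℝ} (h : x ≤ y) (ht : 0 ≤ t) : Tf y t ≤ Tf x t := by
  rw [← Tf_eq, ← Tf_eq]
  apply mul_le_mul_of_nonneg_left _ ht
  apply intervalIntegral.integral_mono_on zero_le_one
  · exact (by fun_prop : Continuous fun r : ℝ => Real.exp (r * (-(y * t)))).intervalIntegrable _ _
  · exact (by fun_prop : Continuous fun r : ℝ => Real.exp (r * (-(x * t)))).intervalIntegrable _ _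
  · intro r hr
    apply Real.exp_le_exp.2
    have := mul_le_mul_of_nonneg_right h ht
    nlinarith [hr.1]

/-- `e^{-κ t} Tf (-(y + κ)) t ≤ Tf (-y) t` -/
theorem G_le_T {y κ t : ℝ} (hκ : 0 ≤ κ) (ht : 0 ≤ t) :
    Real.exp (-(κ * t)) * Tf (-(y + κ)) t ≤ Tf (-y) t := by
  rw [← Tf_eq, ← Tf_eq, mul_left_comm]
  apply mul_le_mul_of_nonneg_left _ ht
  rw [← intervalIntegral.integral_const_mul]
  apply intervalIntegral.integral_mono_on zero_le_one
  · exact (by fun_prop : Continuous fun r : ℝ => Real.exp (-(κ * t)) *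
      Real.exp (r * (-(-(y + κ) * t)))).intervalIntegrable _ _
  · exact (by fun_prop : Continuous fun r : ℝ => Real.exp (r * (-(-y * t)))).intervalIntegrable _ _
  · intro r hr
    rw [← Real.exp_add]
    apply Real.exp_le_exp.2
    have h1 : 0 ≤ κ * t * (1 - r) := mul_nonneg (mul_nonneg hκ ht) (by linarith [hr.2])
    nlinarith

/-- `e^{-κ t} Tf (-(y + κ)) t ≤ 1 / κ` for `y ≤ 0` -/
theorem G_le_inv {y κ t : ℝ} (hκ : 0 < κ) (hy : y ≤ 0) (ht : 0 ≤ t) :
    Real.exp (-(κ * t)) * Tf (-(y + κ)) t ≤ 1 / κ := by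
  have h1 : Tf (-(y + κ)) t ≤ Tf (-κ) t := Tf_anti (by linarith) ht
  have h2 : Real.exp (-(κ * t)) * Tf (-κ) t = Tf κ t := by
    have e1 := mul_Tf (-κ) t
    have e2 := mul_Tf κ t
    have e3 : Real.exp (-(κ * t)) * Real.exp (-(-κ * t)) = 1 := by
      rw [← Real.exp_add]; simp
    apply mul_left_cancel₀ hκ.ne'
    rw [e2]
    linear_combination (-Real.exp (-(κ * t))) * e1 + e3
  calc Real.exp (-(κ * t)) * Tf (-(y + κ)) t ≤ Real.exp (-(κ * t)) * Tf (-κ) t :=
        mul_le_mul_of_nonneg_left h1 (Real.exp_pos _).le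
    _ = Tf κ t := h2
    _ ≤ 1 / κ := Tf_le_inv hκ t

theorem G_nonneg {y κ t : ℝ} (ht : 0 ≤ t) : 0 ≤ Real.exp (-(κ * t)) * Tf (-(y + κ)) t :=
  mul_nonneg (Real.exp_pos _).le (Tf_nonneg _ ht)

/-- growth of `G` for `ε ≤ y` -/
theorem G_ge {y κ ε t : ℝ} (hκ : 0 < κ) (hε : 0 < ε) (hy : ε ≤ y) (ht : 0 ≤ t) :
    ε * t / (ε + κ) ≤ Real.exp (-(κ * t)) * Tf (-(y + κ)) t := by
  have h1 : Tf (-(ε + κ)) t ≤ Tf (-(y + κ)) t := Tf_anti (by linarith) ht
  have h2 : Real.exp (-(κ * t)) * Tf (-(ε + κ)) t =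
      (Real.exp (ε * t) - Real.exp (-(κ * t))) / (ε + κ) := by
    have e1 := mul_Tf (-(ε + κ)) t
    have e3 : Real.exp (-(κ * t)) * Real.exp (-(-(ε + κ) * t)) = Real.exp (ε * t) := by
      rw [← Real.exp_add]; congr 1; ring
    rw [eq_div_iff (by positivity)]
    linear_combination (-Real.exp (-(κ * t))) * e1 + e3
  have h3 := Real.add_one_le_exp (ε * t)
  have h4 : Real.exp (-(κ * t)) ≤ 1 := Real.exp_le_one_iff.2 (by
    have := mul_nonneg hκ.le ht; linarith)
  calc ε * t / (ε + κ) ≤ (Real.exp (ε * t) - Real.exp (-(κ * t))) / (ε + κ) := by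
        apply div_le_div_of_nonneg_right _ (by positivity)
        linarith
    _ = Real.exp (-(κ * t)) * Tf (-(ε + κ)) t := h2.symm
    _ ≤ _ := mul_le_mul_of_nonneg_left h1 (Real.exp_pos _).le

/-- `G` along `(0, r)` -/
noncomputable def GG (γ ν r : ℝ) : ℝ := Real.exp (-(sin γ * cos γ * r)) *
  Tf (-(cos (ν / 2) * sin (ν / 2) + sin γ * cos γ)) r

/-- `T` along `(0, r)` -/
noncomputable def TT (ν r : ℝ) : ℝ := Tf (-(cos (ν / 2) * sin (ν / 2))) r

theorem kx_0r (ν r : ℝ) : sin (ν / 2) * kx (ν / 2) (0, r) = sin (ν / 2) ^ 2 * TT ν r := by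
  unfold kx TT
  rw [← Tf_eq]
  have h : ∀ x : ℝ, x * (cos (ν / 2) * (0 * cos (ν / 2) + r * sin (ν / 2))) =
      x * -(-(cos (ν / 2) * sin (ν / 2)) * r) := fun x => by ring
  simp only [h]
  ring

theorem ky_0r (ν r : ℝ) : cos (ν / 2) * ky (ν / 2) (0, r) = cos (ν / 2) ^ 2 * TT ν r := by
  unfold ky TT
  rw [← Tf_eq]
  have h : ∀ x : ℝ, x * (sin (ν / 2) * (-(0 * sin (ν / 2)) + r * cos (ν / 2))) =
      x * -(-(cos (ν / 2) * sin (ν / 2)) * r) := fun x => by ring
  simp only [h]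
  ring

theorem kk_0r (γ ν r : ℝ) : kk γ ν (0, r) = (sin (ν / 2) ^ 2 - sin γ ^ 2) * GG γ ν r := by
  unfold kk GG
  rw [← Tf_eq]
  have e1 : sg γ (0, r) = r * sin γ := by unfold sg; simp
  have e2 : ta γ (0, r) = r * cos γ := by unfold ta; simp
  have hpy := sq_one (ν / 2)
  have hpg := sq_one γ
  have h : ∀ x : ℝ, x * ((r * sin γ * cos (ν / 2) + r * cos γ * sin (ν / 2)) * cos (ν / 2 - γ)) =
      x * -(-(cos (ν / 2) * sin (ν / 2) + sin γ * cos γ) * r) := fun x => by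
    rw [cd_eq]
    linear_combination (x * r * cos γ * sin γ) * hpy + (x * r * cos (ν / 2) * sin (ν / 2)) * hpg
  rw [e1, e2]
  simp only [h]
  rw [intervalIntegral.integral_const_mul, sd_eq]
  have e3 : -(r * cos γ * sin γ) = -(sin γ * cos γ * r) := by ring
  rw [e3]
  set I := ∫ x in (0:ℝ)..1, Real.exp (x * -(-(cos (ν / 2) * sin (ν / 2) + sin γ * cos γ) * r))
  linear_combination (Real.exp (-(sin γ * cos γ * r)) * r * I) *
    (sin (ν / 2) ^ 2 * hpg - sin γ ^ 2 * hpy)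

theorem GG_nonneg (γ ν : ℝ) {r : ℝ} (hr : 0 ≤ r) : 0 ≤ GG γ ν r := G_nonneg hr

theorem GG_le_TT {γ ν r : ℝ} (hγ : 0 ≤ sin γ * cos γ) (hr : 0 ≤ r) : GG γ ν r ≤ TT ν r :=
  G_le_T hγ hr

/-- the two kernels along `(0, r)` -/
noncomputable def f1 (γ ν r : ℝ) : ℝ := sin (ν / 2) ^ 2 * TT ν r -
  (sin (ν / 2) ^ 2 - sin γ ^ 2) * GG γ ν r

noncomputable def f2 (γ ν r : ℝ) : ℝ := cos (ν / 2) ^ 2 * TT ν r +
  (sin (ν / 2) ^ 2 - sin γ ^ 2) * GG γ ν r

theorem f1_ge {γ ν r : ℝ} (hγ : 0 ≤ sin γ * cos γ) (hr : 0 ≤ r) :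
    sin γ ^ 2 * GG γ ν r ≤ f1 γ ν r := by
  unfold f1
  have := mul_le_mul_of_nonneg_left (GG_le_TT (ν := ν) hγ hr) (sq_nonneg (sin (ν / 2)))
  linarith

theorem f2_ge {γ ν r : ℝ} (hγ : 0 ≤ sin γ * cos γ) (hr : 0 ≤ r) :
    cos γ ^ 2 * GG γ ν r ≤ f2 γ ν r := by
  unfold f2
  have h1 := mul_le_mul_of_nonneg_left (GG_le_TT (ν := ν) hγ hr) (sq_nonneg (cos (ν / 2)))
  have h2 := sq_one (ν / 2)
  have h3 := sq_one γ
  have e : cos γ ^ 2 * GG γ ν r = cos (ν / 2) ^ 2 * GG γ ν r +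
      (sin (ν / 2) ^ 2 - sin γ ^ 2) * GG γ ν r := by
    linear_combination (GG γ ν r) * h3 - (GG γ ν r) * h2
  rw [e]
  linarith

theorem X_0r (hF : TypeI γ b M F) (r : ℝ) : Integrable (fun ν => f1 γ ν r) M ∧
    sin γ * ((F (0, r)).1 - (F 0).1) = b * (1 - Real.exp (-(sin γ * cos γ * r))) +
      ∫ ν, f1 γ ν r ∂M := by
  have := hF.fin
  obtain ⟨-, i2, i3, -⟩ := integrable_kernels (γ := γ) hF.supp ((0, r) : P)
  have i3' : Integrable (fun ν => sin (ν / 2) * kx (ν / 2) (0, r)) M := by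
    refine i3.bdd_mul (c := 1) ?_ ?_
    · exact (by fun_prop : Continuous fun ν : ℝ => sin (ν / 2)).aestronglyMeasurable
    · exact Eventually.of_forall fun ν => by
        rw [Real.norm_eq_abs]; exact abs_sin_le_one _
  have e : (fun ν => f1 γ ν r) = fun ν => sin (ν / 2) * kx (ν / 2) (0, r) - kk γ ν (0, r) := by
    funext ν
    rw [kx_0r, kk_0r]; rfl
  refine ⟨by rw [e]; exact i3'.sub i2, ?_⟩
  rw [typeI_star1 hF, e, integral_sub i3' i2]
  unfold K1
  have e2 : ta γ (0, r) * sin γ = sin γ * cos γ * r := by unfold ta; ring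
  rw [e2]
  ring

theorem Y_0r (hF : TypeI γ b M F) (r : ℝ) : Integrable (fun ν => f2 γ ν r) M ∧
    cos γ * ((F (0, r)).2 - (F 0).2) = -(b * (1 - Real.exp (-(sin γ * cos γ * r)))) +
      ∫ ν, f2 γ ν r ∂M := by
  have := hF.fin
  obtain ⟨-, i2, -, i3⟩ := integrable_kernels (γ := γ) hF.supp ((0, r) : P)
  have i3' : Integrable (fun ν => cos (ν / 2) * ky (ν / 2) (0, r)) M := by
    refine i3.bdd_mul (c := 1) ?_ ?_
    · exact (by fun_prop : Continuous fun ν : ℝ => cos (ν / 2)).aestronglyMeasurable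
    · exact Eventually.of_forall fun ν => by
        rw [Real.norm_eq_abs]; exact abs_cos_le_one _
  have e : (fun ν => f2 γ ν r) = fun ν => cos (ν / 2) * ky (ν / 2) (0, r) + kk γ ν (0, r) := by
    funext ν
    rw [ky_0r, kk_0r]; rfl
  refine ⟨by rw [e]; exact i3'.add i2, ?_⟩
  rw [typeI_star2 hF, e, integral_add i3' i2]
  unfold K1
  have e2 : ta γ (0, r) * sin γ = sin γ * cos γ * r := by unfold ta; ring
  rw [e2]
  simp only [neg_zero, Real.exp_zero]
  ring

/-! ### case (a) -/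

theorem meas_cs : Measurable fun ν : ℝ => cos (ν / 2) * sin (ν / 2) := by fun_prop

theorem U0a (hγ : 0 < γ) (hγ' : γ < π / 2) (hF : TypeI γ b M F)
    (h : M {ν | 0 < cos (ν / 2) * sin (ν / 2)} ≠ 0) (N : ℝ) : ∃ q, N < (F q).1 ∧ N < (F q).2 := by
  have := hF.fin
  have hs : 0 < sin γ := sin_pos_of_pos_of_lt_pi hγ (by linarith [pi_pos])
  have hc : 0 < cos γ := cos_pos_of_mem_Ioo ⟨by linarith [pi_pos], hγ'⟩
  have hκ : 0 < sin γ * cos γ := mul_pos hs hc
  obtain ⟨ε, hε, hM⟩ : ∃ ε : ℝ, 0 < ε ∧ M {ν | ε ≤ cos (ν / 2) * sin (ν / 2)} ≠ 0 := by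
    by_contra hcon
    push Not at hcon
    apply h
    have h1 : {ν : ℝ | 0 < cos (ν / 2) * sin (ν / 2)} ⊆
        ⋃ n : ℕ, {ν | 1 / ((n : ℝ) + 1) ≤ cos (ν / 2) * sin (ν / 2)} := by
      intro ν hν
      obtain ⟨n, hn⟩ := exists_nat_one_div_lt (show 0 < cos (ν / 2) * sin (ν / 2) from hν)
      exact mem_iUnion.2 ⟨n, hn.le⟩
    exact measure_mono_null h1 (measure_iUnion_null fun n => hcon _ (by positivity))
  set S : Set ℝ := {ν | ε ≤ cos (ν / 2) * sin (ν / 2)} with hS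
  have hSm : MeasurableSet S := measurableSet_le measurable_const meas_cs
  have hm : 0 < M.real S := ENNReal.toReal_pos hM (measure_ne_top _ _)
  have hint : ∀ (f : ℝ → ℝ → ℝ) (k : ℝ), (0 ≤ k) → (∀ r, 0 ≤ r → ∀ ν, k * GG γ ν r ≤ f ν r) →
      (∀ r, Integrable (fun ν => f ν r) M) → ∀ r, 0 ≤ r →
        M.real S * (k * (ε * r / (ε + sin γ * cos γ))) ≤ ∫ ν, f ν r ∂M := by
    intro f k hk hf hfi r hr
    have h1 : ∫ ν, S.indicator (fun _ => k * (ε * r / (ε + sin γ * cos γ))) ν ∂M =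
        M.real S * (k * (ε * r / (ε + sin γ * cos γ))) := by
      rw [integral_indicator_const _ hSm, smul_eq_mul]
    rw [← h1]
    refine integral_mono ((integrable_const _).indicator hSm) (hfi r) fun ν => ?_
    by_cases hν : ν ∈ S
    · rw [indicator_of_mem hν]
      refine (mul_le_mul_of_nonneg_left ?_ hk).trans (hf r hr ν)
      exact G_ge hκ hε hν hr
    · rw [indicator_of_notMem hν]
      exact (mul_nonneg hk (GG_nonneg γ ν hr)).trans (hf r hr ν)
  have hb : ∀ r : ℝ, 0 ≤ r → |b * (1 - Real.exp (-(sin γ * cos γ * r)))| ≤ |b| := by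
    intro r hr
    rw [abs_mul]
    refine mul_le_of_le_one_right (abs_nonneg _) ?_
    have h1 : Real.exp (-(sin γ * cos γ * r)) ≤ 1 := Real.exp_le_one_iff.2 (by
      have := mul_nonneg hκ.le hr; linarith)
    have h2 := Real.exp_pos (-(sin γ * cos γ * r))
    rw [abs_le]; constructor <;> linarith
  have hA : 0 < ε / (ε + sin γ * cos γ) := by positivity
  have t1 : Tendsto (fun r : ℝ => M.real S * (sin γ ^ 2 * (ε / (ε + sin γ * cos γ))) * r)
      atTop atTop := tendsto_id.const_mul_atTop (by positivity)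
  have t2 : Tendsto (fun r : ℝ => M.real S * (cos γ ^ 2 * (ε / (ε + sin γ * cos γ))) * r)
      atTop atTop := tendsto_id.const_mul_atTop (by positivity)
  obtain ⟨r, hr0, hr1, hr2⟩ := ((eventually_ge_atTop (0:ℝ)).and
    ((t1.eventually_gt_atTop (|b| + sin γ * (N - (F 0).1))).and
      (t2.eventually_gt_atTop (|b| + cos γ * (N - (F 0).2))))).exists
  obtain ⟨i1, e1⟩ := X_0r hF r
  obtain ⟨i2, e2⟩ := Y_0r hF r
  have k1 := hint (f1 γ) (sin γ ^ 2) (sq_nonneg _) (fun r hr ν => f1_ge hκ.le hr)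
    (fun r => (X_0r hF r).1) r hr0
  have k2 := hint (f2 γ) (cos γ ^ 2) (sq_nonneg _) (fun r hr ν => f2_ge hκ.le hr)
    (fun r => (Y_0r hF r).1) r hr0
  have k3 := abs_le.1 (hb r hr0)
  have s1 : M.real S * (sin γ ^ 2 * (ε * r / (ε + sin γ * cos γ))) =
    M.real S * (sin γ ^ 2 * (ε / (ε + sin γ * cos γ))) * r := by ring
  have s2 : M.real S * (cos γ ^ 2 * (ε * r / (ε + sin γ * cos γ))) =
    M.real S * (cos γ ^ 2 * (ε / (ε + sin γ * cos γ))) * r := by ring
  rw [s1] at k1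
  rw [s2] at k2
  refine ⟨(0, r), ?_, ?_⟩
  · have : sin γ * (N - (F 0).1) < sin γ * ((F (0, r)).1 - (F 0).1) := by rw [e1]; linarith
    have := lt_of_mul_lt_mul_left this hs.le
    linarith
  · have : cos γ * (N - (F 0).2) < cos γ * ((F (0, r)).2 - (F 0).2) := by rw [e2]; linarith
    have := lt_of_mul_lt_mul_left this hc.le
    linarith

/-! ### case (b) -/

/-- the charges near the axis -/
def Sb (γ : ℝ) : Set ℝ := {ν | |sin (ν / 2)| < cos γ / 2}

theorem meas_Sb (γ : ℝ) : MeasurableSet (Sb γ) := measurableSet_lt (by fun_prop) measurable_const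

theorem Sb_top [IsFiniteMeasure M] (hc : 0 < cos γ)
    (h : ∫⁻ ν, (ENNReal.ofReal |sin (ν / 2)|)⁻¹ ∂M = ⊤) :
    ∫⁻ ν in Sb γ, (ENNReal.ofReal |sin (ν / 2)|)⁻¹ ∂M = ⊤ := by
  refine split_top (M := M) (meas_Sb γ) (C := (ENNReal.ofReal (cos γ / 2))⁻¹) ?_ ?_ h
  · rw [← ENNReal.ofReal_inv_of_pos (by positivity)]
    exact ENNReal.ofReal_ne_top
  · intro ν hν
    have : ¬ |sin (ν / 2)| < cos γ / 2 := hν
    rw [not_lt] at this
    exact ENNReal.inv_le_inv.2 (ENNReal.ofReal_le_ofReal this)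

theorem Sb_pos [IsFiniteMeasure M] (hc : 0 < cos γ)
    (h : ∫⁻ ν, (ENNReal.ofReal |sin (ν / 2)|)⁻¹ ∂M = ⊤) : 0 < M.real (Sb γ) := by
  refine ENNReal.toReal_pos (fun h0 => ?_) (measure_ne_top _ _)
  have h1 := Sb_top (M := M) hc h
  rw [setLIntegral_measure_zero _ _ h0] at h1
  exact absurd h1 ENNReal.zero_ne_top

/-- pointwise facts in the strip `cos φ · sin φ ≤ 0` -/
theorem strip {ν : ℝ} (hν : ν ∈ Icc (-π) π) (h : ¬ 0 < cos (ν / 2) * sin (ν / 2)) :
    cos (ν / 2) = 0 ∨ (0 < cos (ν / 2) ∧ sin (ν / 2) ≤ 0) := by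
  rcases (cos_nonneg' hν).eq_or_lt with h0 | h0
  · exact Or.inl h0.symm
  · right
    refine ⟨h0, ?_⟩
    by_contra hc
    push Not at hc
    exact h (mul_pos h0 hc)

theorem y_ge {c s cg sg' κ r t : ℝ} (hc : 0 ≤ c) (hs : s ≤ 0) (h1 : s ^ 2 + c ^ 2 = 1)
    (hcg : 0 < cg) (hsg : 0 < sg') (h2 : sg' ^ 2 + cg ^ 2 = 1) (k1 : κ ≤ cg) (k2 : κ ≤ sg')
    (hκ : 0 < κ) (hr : 0 ≤ r) (ht : 0 ≤ t) :
    κ * r - t ≤ r * (c * cg - s * sg') + t * (c * sg' + s * cg) := by
  have c1 : c ≤ 1 := by nlinarith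
  have s1 : -1 ≤ s := by nlinarith
  have a1 : κ ≤ c * cg - s * sg' := by
    have b1 : 1 ≤ c + -s := by nlinarith
    have b2 : κ * c ≤ c * cg := by nlinarith
    have b3 : κ * -s ≤ -s * sg' := by nlinarith
    nlinarith
  have a2 : -1 ≤ c * sg' + s * cg := by
    have b1 : 0 ≤ c * sg' := mul_nonneg hc hsg.le
    have b2 : cg ≤ 1 := by nlinarith
    nlinarith
  have a3 := mul_le_mul_of_nonneg_left a1 hr
  have a4 := mul_le_mul_of_nonneg_left a2 ht
  linarith

/-- coordinates of `(r, t)` -/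
theorem arg_rt (γ ν r t : ℝ) : sg γ (r, t) * cos (ν / 2) + ta γ (r, t) * sin (ν / 2) =
    r * (cos (ν / 2) * cos γ - sin (ν / 2) * sin γ) +
      t * (cos (ν / 2) * sin γ + sin (ν / 2) * cos γ) := by
  unfold sg ta
  ring

/-- lower bound of the kernel of `X1` at `(r, t)` -/
theorem ker_ge (hs : 0 < sin γ) (hc : 0 < cos γ) {κ r t ν : ℝ} (k1 : κ ≤ cos γ) (k2 : κ ≤ sin γ)
    (hκ : 0 < κ) (hr : 0 ≤ r) (ht : 0 ≤ t) (hrt : t ≤ κ * r) (hν : ν ∈ Icc (-π) π)
    (h : ¬ 0 < cos (ν / 2) * sin (ν / 2)) :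
    0 ≤ cos (ν / 2) * Zf γ ν (r, t) ∧
      (ν ∈ Sb γ → (κ * r - t) / 2 ≤ cos (ν / 2) * Zf γ ν (r, t)) := by
  have hpy := sq_one (ν / 2)
  have hpg := sq_one γ
  have hcg1 : cos γ ≤ 1 := cos_le_one γ
  rcases strip hν h with h0 | ⟨h0, h1⟩
  · rw [h0]
    refine ⟨by simp, fun hS => ?_⟩
    exfalso
    have hS' : |sin (ν / 2)| < cos γ / 2 := hS
    have h3 := abs_lt.1 hS'
    rw [h0] at hpy
    nlinarith
  · have hy := y_ge h0.le h1 hpy hc hs hpg k1 k2 hκ hr ht
    have hy0 : 0 ≤ κ * r - t := by linarith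
    unfold Zf
    rw [arg_rt]
    set y := r * (cos (ν / 2) * cos γ - sin (ν / 2) * sin γ) +
      t * (cos (ν / 2) * sin γ + sin (ν / 2) * cos γ) with hydef
    refine ⟨mul_nonneg h0.le (mul_nonneg (by linarith) (hh_pos _).le), fun hS => ?_⟩
    have hS' : |sin (ν / 2)| < cos γ / 2 := hS
    have h3 := abs_lt.1 hS'
    have hc2 : 1 / 2 ≤ cos (ν / 2) := by nlinarith
    have hd : 0 ≤ cos (ν / 2 - γ) := by
      rw [cd_eq]
      have : sin γ ≤ 1 := sin_le_one γ
      nlinarith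
    have h4 : 1 ≤ hh (y * cos (ν / 2 - γ)) := one_le_hh (mul_nonneg (by linarith) hd)
    have h5 : κ * r - t ≤ y * hh (y * cos (ν / 2 - γ)) := by nlinarith
    nlinarith

theorem X1_ge (hs : 0 < sin γ) (hc : 0 < cos γ) (hF : TypeI γ b M F)
    (h : M {ν | 0 < cos (ν / 2) * sin (ν / 2)} = 0) {κ r t : ℝ} (k1 : κ ≤ cos γ) (k2 : κ ≤ sin γ)
    (hκ : 0 < κ) (hr : 0 ≤ r) (ht : 0 ≤ t) (hrt : t ≤ κ * r) :
    Real.exp (-(ta γ (r, t) * sin γ)) * (M.real (Sb γ) * ((κ * r - t) / 2) - |b|) ≤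
      X1 γ b M (r, t) := by
  have := hF.fin
  have hs1 : sin γ ≤ 1 := sin_le_one γ
  obtain ⟨i1, i2, -, -⟩ := integrable_kernels (γ := γ) hF.supp ((r, t) : P)
  set E := Real.exp (-(ta γ (r, t) * sin γ)) with hE
  have hEpos : 0 < E := Real.exp_pos _
  have h1 : ∫ ν, (Sb γ).indicator (fun _ => E * ((κ * r - t) / 2)) ν ∂M =
      M.real (Sb γ) * (E * ((κ * r - t) / 2)) := by
    rw [integral_indicator_const _ (meas_Sb γ), smul_eq_mul]
  have h2 : ∫ ν, (Sb γ).indicator (fun _ => E * ((κ * r - t) / 2)) ν ∂M ≤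
      ∫ ν, (cos γ * EE ν (r, t) - sin γ * kk γ ν (r, t)) ∂M := by
    refine integral_mono_ae ((integrable_const _).indicator (meas_Sb γ))
      ((i1.const_mul _).sub (i2.const_mul _)) ?_
    filter_upwards [ae_supp hF, measure_eq_zero_iff_ae_notMem.1 h] with ν hν hν'
    obtain ⟨g1, g2⟩ := ker_ge hs hc k1 k2 hκ hr ht hrt hν hν'
    show (Sb γ).indicator (fun _ => E * ((κ * r - t) / 2)) ν ≤
      cos γ * EE ν (r, t) - sin γ * kk γ ν (r, t)
    rw [comb1]
    by_cases hS : ν ∈ Sb γ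
    · rw [indicator_of_mem hS]
      apply mul_le_mul_of_nonneg_left _ hEpos.le
      linarith [g2 hS]
    · rw [indicator_of_notMem hS]
      exact mul_nonneg hEpos.le (by linarith)
  rw [X1_eq hF]
  rw [h1] at h2
  have h3 : b * sin γ * E ≤ |b| * E := by
    apply mul_le_mul_of_nonneg_right _ hEpos.le
    calc b * sin γ ≤ |b| * sin γ := mul_le_mul_of_nonneg_right (le_abs_self b) hs.le
      _ ≤ |b| * 1 := mul_le_mul_of_nonneg_left hs1 (abs_nonneg b)
      _ = |b| := mul_one _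
  nlinarith

theorem dX_path (hF : TypeI γ b M F) (L t : ℝ) :
    HasDerivAt (fun t : ℝ => (F (t, L)).1) (X1 γ b M (t, L)) t := by
  have h := path1 hF (0, L) (1, 0) t
  have e : ∀ t : ℝ, ((0, L) : P) + t • ((1, 0) : P) = (t, L) := fun t => by simp
  simp only [e] at h
  have e1 : sg γ ((1, 0) : P) = cos γ := by unfold sg; simp
  have e2 : ta γ ((1, 0) : P) = -sin γ := by unfold ta; simp
  rw [e1, e2] at h
  convert h using 1
  unfold X1
  ring

theorem dY_path (hF : TypeI γ b M F) (r t : ℝ) :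
    HasDerivAt (fun t : ℝ => (F (r, t)).2) (Real.exp (-r) * X1 γ b M (r, t)) t := by
  have h := path_deriv hF (r, 0) (0, 1) t
  have e : ∀ t : ℝ, ((r, 0) : P) + t • ((0, 1) : P) = (r, t) := fun t => by simp
  simp only [e] at h
  have e1 : sg γ ((0, 1) : P) = sin γ := by unfold sg; simp
  have e2 : ta γ ((0, 1) : P) = cos γ := by unfold ta; simp
  rw [e1, e2] at h
  exact h

theorem ta_rt (γ r t : ℝ) : ta γ (r, t) = -(r * sin γ) + t * cos γ := rfl

/-- `X → ∞` along `q₂ = L`, `q₁ → ∞`. -/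
theorem tendsto_X (hs : 0 < sin γ) (hc : 0 < cos γ) (hF : TypeI γ b M F)
    (h : M {ν | 0 < cos (ν / 2) * sin (ν / 2)} = 0)
    (h' : ∫⁻ ν, (ENNReal.ofReal |sin (ν / 2)|)⁻¹ ∂M = ⊤) {L : ℝ} (hL : 0 ≤ L) :
    Tendsto (fun r : ℝ => (F (r, L)).1) atTop atTop := by
  have := hF.fin
  have hm := Sb_pos (M := M) hc h'
  set κ := min (cos γ) (sin γ) with hκdef
  have hκ : 0 < κ := lt_min hc hs
  refine growth (κ := 1) one_pos (f' := fun r => X1 γ b M (r, L)) (fun t => dX_path hF L t) ?_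
  have t1 : Tendsto (fun r : ℝ => M.real (Sb γ) * ((κ * r - L) / 2) - |b|) atTop atTop := by
    have e : (fun r : ℝ => M.real (Sb γ) * ((κ * r - L) / 2) - |b|) = fun r : ℝ =>
        (M.real (Sb γ) * κ / 2) * r + (-(M.real (Sb γ) * L / 2) - |b|) := by
      funext r; ring
    rw [e]
    exact tendsto_atTop_add_const_right _ _ (tendsto_id.const_mul_atTop (by positivity))
  have t2 : Tendsto (fun r : ℝ => κ * r) atTop atTop := tendsto_id.const_mul_atTop hκ
  have t3 : Tendsto (fun r : ℝ => sin γ * r) atTop atTop := tendsto_id.const_mul_atTop hs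
  filter_upwards [t1.eventually_ge_atTop 1, t2.eventually_ge_atTop L,
    t3.eventually_ge_atTop (L * cos γ), eventually_ge_atTop (0:ℝ)] with r h1 h2 h3 h4
  refine le_trans ?_ (X1_ge hs hc hF h (min_le_left _ _) (min_le_right _ _) hκ h4 hL h2)
  have h5 : 1 ≤ Real.exp (-(ta γ (r, L) * sin γ)) := by
    apply Real.one_le_exp
    rw [ta_rt]
    have : 0 ≤ (r * sin γ - L * cos γ) * sin γ := mul_nonneg (by linarith) hs.le
    linarith
  nlinarith

/-- `e^{-r} kk` along `(r, 0)` -/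
theorem kk_r0 (γ ν r : ℝ) : Real.exp (-r) * kk γ ν (r, 0) =
    (cos (ν / 2) * sin (ν / 2) - sin γ * cos γ) *
      (Real.exp (-(cos γ ^ 2 * r)) * Tf (-(-(sin (ν / 2) ^ 2) + cos γ ^ 2)) r) := by
  unfold kk
  rw [← Tf_eq]
  have e1 : sg γ (r, 0) = r * cos γ := by unfold sg; simp
  have e2 : ta γ (r, 0) = -(r * sin γ) := by unfold ta; simp
  have hpy := sq_one (ν / 2)
  have hpg := sq_one γ
  have h : ∀ x : ℝ, x * ((r * cos γ * cos (ν / 2) + -(r * sin γ) * sin (ν / 2)) * cos (ν / 2 - γ)) =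
      x * -(-(-(sin (ν / 2) ^ 2) + cos γ ^ 2) * r) := fun x => by
    rw [cd_eq]
    linear_combination (x * r * cos γ ^ 2) * hpy - (x * r * sin (ν / 2) ^ 2) * hpg
  rw [e1, e2]
  simp only [h]
  rw [intervalIntegral.integral_const_mul, sd_eq]
  have e3 : Real.exp (-(cos γ ^ 2 * r)) = Real.exp (-r) * Real.exp (-(-(r * sin γ) * sin γ)) := by
    rw [← Real.exp_add]; congr 1; linear_combination (-r) * hpg
  rw [e3]
  set I := ∫ x in (0:ℝ)..1, Real.exp (x * -(-(-(sin (ν / 2) ^ 2) + cos γ ^ 2) * r))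
  linear_combination (Real.exp (-r) * Real.exp (-(-(r * sin γ) * sin γ)) * r * I) *
    (cos (ν / 2) * sin (ν / 2) * hpg - sin γ * cos γ * hpy)

theorem ky_r0 (ν r : ℝ) : cos (ν / 2) * ky (ν / 2) (r, 0) =
    -(cos (ν / 2) * sin (ν / 2)) * Tf (sin (ν / 2) ^ 2) r := by
  unfold ky
  rw [← Tf_eq]
  have h : ∀ x : ℝ, x * (sin (ν / 2) * (-(r * sin (ν / 2)) + 0 * cos (ν / 2))) =
      x * -(sin (ν / 2) ^ 2 * r) := fun x => by ring
  simp only [h]
  ring

/-- weight -/
noncomputable def wb (ν : ℝ) : ℝ := max (-(cos (ν / 2) * sin (ν / 2))) 0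

theorem wb_nonneg (ν : ℝ) : 0 ≤ wb ν := le_max_right _ _

theorem cs_abs (ν : ℝ) : |cos (ν / 2) * sin (ν / 2)| ≤ 1 := by
  rw [abs_mul]
  exact mul_le_one₀ (abs_cos_le_one _) (abs_nonneg _) (abs_sin_le_one _)

theorem wb_le_one (ν : ℝ) : wb ν ≤ 1 := by
  apply max_le _ zero_le_one
  linarith [(abs_le.1 (cs_abs ν)).1]

theorem measurable_wb : Measurable wb := by
  unfold wb
  fun_prop

theorem integrable_wbT [IsFiniteMeasure M] {t : ℝ} (ht : 0 ≤ t) :
    Integrable (fun ν => wb ν * Tf (sin (ν / 2) ^ 2) t) M := by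
  have hm : Measurable fun ν : ℝ => sin (ν / 2) ^ 2 := by fun_prop
  refine Integrable.of_bound ((measurable_wb.mul ((measurable_Tf t).comp hm)).aestronglyMeasurable)
    (t * Real.exp t) (Eventually.of_forall fun ν => ?_)
  have h3 := Tf_nonneg (sin (ν / 2) ^ 2) ht
  have h4 : Tf (sin (ν / 2) ^ 2) t ≤ t * Real.exp t := Tf_le (by
    rw [abs_of_nonneg (sq_nonneg _)]
    nlinarith [sq_one (ν / 2), sq_nonneg (cos (ν / 2))]) ht
  rw [Real.norm_of_nonneg (mul_nonneg (wb_nonneg ν) h3)]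
  calc wb ν * Tf (sin (ν / 2) ^ 2) t ≤ 1 * Tf (sin (ν / 2) ^ 2) t :=
        mul_le_mul_of_nonneg_right (wb_le_one ν) h3
    _ ≤ _ := by rw [one_mul]; exact h4

theorem Y_r0 (hs : 0 < sin γ) (hc : 0 < cos γ) (hF : TypeI γ b M F)
    (h : M {ν | 0 < cos (ν / 2) * sin (ν / 2)} = 0) {r : ℝ} (hr : 0 ≤ r) :
    -(2 * |b| + M.real univ / cos γ ^ 2) + ∫ ν, wb ν * Tf (sin (ν / 2) ^ 2) r ∂M ≤
      cos γ * ((F (r, 0)).2 - (F 0).2) := by
  have := hF.fin
  obtain ⟨-, i2, -, i3⟩ := integrable_kernels (γ := γ) hF.supp ((r, 0) : P)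
  have i3' : Integrable (fun ν => cos (ν / 2) * ky (ν / 2) (r, 0)) M := by
    refine i3.bdd_mul (c := 1) ?_ ?_
    · exact (by fun_prop : Continuous fun ν : ℝ => cos (ν / 2)).aestronglyMeasurable
    · exact Eventually.of_forall fun ν => by
        rw [Real.norm_eq_abs]; exact abs_cos_le_one _
  have i2' : Integrable (fun ν => Real.exp (-r) * kk γ ν (r, 0)) M := i2.const_mul _
  have hc2 : 0 < cos γ ^ 2 := by positivity
  have h1 : ∫ ν, (wb ν * Tf (sin (ν / 2) ^ 2) r - 1 / cos γ ^ 2) ∂M ≤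
      ∫ ν, (cos (ν / 2) * ky (ν / 2) (r, 0) + Real.exp (-r) * kk γ ν (r, 0)) ∂M := by
    refine integral_mono_ae ((integrable_wbT hr).sub (integrable_const _)) (i3'.add i2') ?_
    filter_upwards [measure_eq_zero_iff_ae_notMem.1 h] with ν hν
    have hν' : cos (ν / 2) * sin (ν / 2) ≤ 0 := not_lt.1 hν
    simp only [kk_r0, ky_r0]
    have e1 : wb ν = -(cos (ν / 2) * sin (ν / 2)) := by
      unfold wb; exact max_eq_left (by linarith)
    rw [e1]
    have g1 := G_le_inv (y := -(sin (ν / 2) ^ 2)) hc2 (by nlinarith [sq_nonneg (sin (ν / 2))]) hr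
    have g2 := G_nonneg (y := -(sin (ν / 2) ^ 2)) (κ := cos γ ^ 2) hr
    set G := Real.exp (-(cos γ ^ 2 * r)) * Tf (-(-(sin (ν / 2) ^ 2) + cos γ ^ 2)) r
    have g3 : -1 ≤ cos (ν / 2) * sin (ν / 2) - sin γ * cos γ := by
      nlinarith [sq_one (ν / 2), sq_one γ, sq_nonneg (cos (ν / 2) + sin (ν / 2)),
        sq_nonneg (cos γ - sin γ)]
    nlinarith
  rw [integral_sub (integrable_wbT hr) (integrable_const _), integral_const, smul_eq_mul] at h1
  rw [typeI_star2 hF]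
  have h2 : Real.exp (-((r, 0) : P).1) * K1 γ b M (r, 0) - b +
      ∫ ν, cos (ν / 2) * ky (ν / 2) (r, 0) ∂M =
      b * Real.exp (-(cos γ ^ 2 * r)) - b +
      ∫ ν, (cos (ν / 2) * ky (ν / 2) (r, 0) + Real.exp (-r) * kk γ ν (r, 0)) ∂M := by
    rw [integral_add i3' i2', integral_const_mul]
    unfold K1
    have e3 : Real.exp (-(cos γ ^ 2 * r)) = Real.exp (-r) * Real.exp (-(ta γ (r, 0) * sin γ)) := by
      rw [← Real.exp_add, ta_rt]; congr 1; linear_combination (-r) * sq_one γ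
    rw [e3]
    ring
  rw [h2]
  have h3 : Real.exp (-(cos γ ^ 2 * r)) ≤ 1 := Real.exp_le_one_iff.2 (by
    have := mul_nonneg hc2.le hr; linarith)
  have h4 := Real.exp_pos (-(cos γ ^ 2 * r))
  have h5 : -|b| ≤ b * Real.exp (-(cos γ ^ 2 * r)) := by
    have := neg_abs_le b
    nlinarith [abs_nonneg b]
  have h6 := le_abs_self b
  have h7 : M.real univ * (1 / cos γ ^ 2) = M.real univ / cos γ ^ 2 := by ring
  rw [h7] at h1
  linarith

theorem U0b3 (hs : 0 < sin γ) (hc : 0 < cos γ) (hF : TypeI γ b M F)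
    (h : M {ν | 0 < cos (ν / 2) * sin (ν / 2)} = 0)
    (h' : ∫⁻ ν, (ENNReal.ofReal |sin (ν / 2)|)⁻¹ ∂M = ⊤)
    (h0 : M {ν | sin (ν / 2) = 0} = 0) (N : ℝ) : ∃ q, N < (F q).1 ∧ N < (F q).2 := by
  have := hF.fin
  have htop : ∫⁻ ν, ENNReal.ofReal (wb ν) * (ENNReal.ofReal (sin (ν / 2) ^ 2))⁻¹ ∂M = ⊤ := by
    have h1 := Sb_top (M := M) hc h'
    have h2 : ∫⁻ ν in Sb γ, ENNReal.ofReal (1 / 2) * (ENNReal.ofReal |sin (ν / 2)|)⁻¹ ∂M ≤
        ∫⁻ ν in Sb γ, ENNReal.ofReal (wb ν) * (ENNReal.ofReal (sin (ν / 2) ^ 2))⁻¹ ∂M := by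
      apply lintegral_mono_ae
      filter_upwards [ae_restrict_of_ae (s := Sb γ) (ae_supp hF), ae_restrict_mem (meas_Sb γ),
        ae_restrict_of_ae (s := Sb γ) (measure_eq_zero_iff_ae_notMem.1 h),
        ae_restrict_of_ae (s := Sb γ) (measure_eq_zero_iff_ae_notMem.1 h0)] with ν a1 a2 a3 a4
      have a2' : |sin (ν / 2)| < cos γ / 2 := a2
      have a5 := abs_lt.1 a2'
      have hpy := sq_one (ν / 2)
      have hcg1 : cos γ ≤ 1 := cos_le_one γ
      have a4' : sin (ν / 2) ≠ 0 := a4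
      rcases strip a1 a3 with a6 | ⟨a6, a7⟩
      · exfalso
        rw [a6] at hpy
        nlinarith
      · have a8 : sin (ν / 2) < 0 := lt_of_le_of_ne a7 a4'
        have a9 : 1 / 2 ≤ cos (ν / 2) := by nlinarith
        have e1 : wb ν = cos (ν / 2) * |sin (ν / 2)| := by
          unfold wb
          rw [max_eq_left (by nlinarith), abs_of_neg a8]; ring
        have p1 : 0 < |sin (ν / 2)| := abs_pos.2 a4'
        rw [e1, ← sq_abs (sin (ν / 2)), ← ENNReal.ofReal_inv_of_pos p1,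
          ← ENNReal.ofReal_inv_of_pos (by positivity), ← ENNReal.ofReal_mul (by norm_num),
          ← ENNReal.ofReal_mul (by positivity)]
        apply ENNReal.ofReal_le_ofReal
        have e2 : cos (ν / 2) * |sin (ν / 2)| * (|sin (ν / 2)| ^ 2)⁻¹ =
            cos (ν / 2) * |sin (ν / 2)|⁻¹ := by field_simp
        rw [e2]
        exact mul_le_mul_of_nonneg_right a9 (by positivity)
    rw [lintegral_const_mul' _ _ ENNReal.ofReal_ne_top, h1, ENNReal.mul_top
      (ENNReal.ofReal_pos.2 (by norm_num)).ne'] at h2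
    have h3 := top_le_iff.1 h2
    exact top_le_iff.1 (h3 ▸ setLIntegral_le_lintegral (Sb γ) _)
  have k1 := mono_conv (M := M) measurable_wb wb_nonneg wb_le_one
    (ξ := fun ν => sin (ν / 2) ^ 2) (by fun_prop) (fun ν => by
      rw [abs_of_nonneg (sq_nonneg _)]
      nlinarith [sq_one (ν / 2), sq_nonneg (cos (ν / 2))]) htop
    (2 * |b| + M.real univ / cos γ ^ 2 + cos γ * (N - (F 0).2))
  have k2 := ((tendsto_X hs hc hF h h' le_rfl).comp tendsto_natCast_atTop_atTop).eventually_gt_atTop N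
  obtain ⟨n, n1, n2⟩ := (k1.and k2).exists
  refine ⟨((n : ℝ), 0), n2, ?_⟩
  have k3 := Y_r0 hs hc hF h (Nat.cast_nonneg n : (0:ℝ) ≤ n)
  have : cos γ * (N - (F 0).2) < cos γ * ((F (((n : ℝ), 0) : P)).2 - (F 0).2) := by linarith
  have := lt_of_mul_lt_mul_left this hc.le
  linarith

theorem U0b4 (hs : 0 < sin γ) (hc : 0 < cos γ) (hF : TypeI γ b M F)
    (h : M {ν | 0 < cos (ν / 2) * sin (ν / 2)} = 0)
    (h' : ∫⁻ ν, (ENNReal.ofReal |sin (ν / 2)|)⁻¹ ∂M = ⊤)
    (h0 : M {ν | sin (ν / 2) = 0} ≠ 0) (N : ℝ) : ∃ q, N < (F q).1 ∧ N < (F q).2 := by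
  have := hF.fin
  have hcg1 : cos γ ≤ 1 := cos_le_one γ
  have hpg := sq_one γ
  set S0 : Set ℝ := {ν | sin (ν / 2) = 0} with hS0
  have hS0m : MeasurableSet S0 := measurableSet_eq_fun (by fun_prop) measurable_const
  have hm1 : 0 < M.real S0 := ENNReal.toReal_pos h0 (measure_ne_top _ _)
  set κ := min (cos γ) (sin γ) with hκdef
  have hκ : 0 < κ := lt_min hc hs
  -- lower bound for `Y(r, 0)`
  set C := (2 * |b| + M.real univ / cos γ ^ 2) / cos γ with hC
  have hY0 : ∀ r : ℝ, 0 ≤ r → -C ≤ (F (r, 0)).2 - (F 0).2 := by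
    intro r hr
    have k3 := Y_r0 hs hc hF h hr
    have k4 : 0 ≤ ∫ ν, wb ν * Tf (sin (ν / 2) ^ 2) r ∂M :=
      integral_nonneg fun ν => mul_nonneg (wb_nonneg ν) (Tf_nonneg _ hr)
    have k5 : cos γ * -C = -(2 * |b| + M.real univ / cos γ ^ 2) := by
      rw [hC]; field_simp
    have : cos γ * -C ≤ cos γ * ((F (r, 0)).2 - (F 0).2) := by rw [k5]; linarith
    exact le_of_mul_le_mul_left this hc
  -- choose `L`
  obtain ⟨L, hL0, hL⟩ : ∃ L : ℝ, 0 ≤ L ∧ N + C - (F 0).2 + 1 ≤ M.real S0 / 2 * L := by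
    refine ⟨max 0 ((N + C - (F 0).2 + 1) / (M.real S0 / 2)), le_max_left _ _, ?_⟩
    have h3 := le_max_right 0 ((N + C - (F 0).2 + 1) / (M.real S0 / 2))
    have h4 := mul_le_mul_of_nonneg_left h3 (show 0 ≤ M.real S0 / 2 by positivity)
    rwa [mul_div_cancel₀ _ (by positivity)] at h4
  -- the derivative
  have hder : ∀ r t : ℝ, 0 ≤ r → 0 ≤ t → t ≤ κ * r →
      M.real S0 - (|b| + M.real S0 / cos γ) * Real.exp (-(cos γ ^ 2 * r)) ≤
        Real.exp (-r) * X1 γ b M (r, t) := by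
    intro r t hr ht hrt
    obtain ⟨i1, i2, -, -⟩ := integrable_kernels (γ := γ) hF.supp ((r, t) : P)
    set E := Real.exp (-(ta γ (r, t) * sin γ)) with hE
    have hEpos : 0 < E := Real.exp_pos _
    have h1 : ∫ ν, S0.indicator (fun _ => Real.exp r - E / cos γ) ν ∂M =
        M.real S0 * (Real.exp r - E / cos γ) := by
      rw [integral_indicator_const _ hS0m, smul_eq_mul]
    have h2 : ∫ ν, S0.indicator (fun _ => Real.exp r - E / cos γ) ν ∂M ≤
        ∫ ν, (cos γ * EE ν (r, t) - sin γ * kk γ ν (r, t)) ∂M := by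
      refine integral_mono_ae ((integrable_const _).indicator hS0m)
        ((i1.const_mul _).sub (i2.const_mul _)) ?_
      filter_upwards [ae_supp hF, measure_eq_zero_iff_ae_notMem.1 h] with ν hν hν'
      obtain ⟨g1, -⟩ := ker_ge hs hc (min_le_left _ _) (min_le_right _ _) hκ hr ht hrt hν hν'
      show S0.indicator (fun _ => Real.exp r - E / cos γ) ν ≤
        cos γ * EE ν (r, t) - sin γ * kk γ ν (r, t)
      by_cases hS : ν ∈ S0
      · rw [indicator_of_mem hS]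
        have hsn : sin (ν / 2) = 0 := hS
        have hcs : cos (ν / 2) = 1 := by
          have := sq_one (ν / 2)
          rw [hsn] at this
          have h3 := cos_nonneg' hν
          nlinarith
        have e1 : EE ν (r, t) = Real.exp r := by
          rw [D2a.EE_eq, hsn, hcs]; simp
        have e2 := cos_mul_kk γ ν (r, t)
        have e3 : cos (ν / 2 - γ) = cos γ := by rw [cd_eq, hsn, hcs]; ring
        have e4 : sin (ν / 2 - γ) = -sin γ := by rw [sd_eq, hsn, hcs]; ring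
        rw [e3, e4, e1] at e2
        rw [e1]
        have e5 : kk γ ν (r, t) = -sin γ * (Real.exp r - E) / cos γ := by
          rw [eq_div_iff hc.ne', mul_comm]; exact e2
        rw [e5]
        have e6 : cos γ * Real.exp r - sin γ * (-sin γ * (Real.exp r - E) / cos γ) -
            (Real.exp r - E / cos γ) = (Real.exp r * (1 - cos γ) + E * cos γ ^ 2) / cos γ := by
          field_simp
          linear_combination (Real.exp r - E) * hpg
        have e7 : 0 ≤ (Real.exp r * (1 - cos γ) + E * cos γ ^ 2) / cos γ := by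
          have := Real.exp_pos r
          have h8 : 0 ≤ Real.exp r * (1 - cos γ) := mul_nonneg this.le (by linarith)
          positivity
        linarith
      · rw [indicator_of_notMem hS, comb1]
        exact mul_nonneg hEpos.le (by linarith)
    rw [h1] at h2
    have h3 : b * sin γ * E ≤ |b| * E := by
      apply mul_le_mul_of_nonneg_right _ hEpos.le
      calc b * sin γ ≤ |b| * sin γ := mul_le_mul_of_nonneg_right (le_abs_self b) hs.le
        _ ≤ |b| * 1 := mul_le_mul_of_nonneg_left (sin_le_one γ) (abs_nonneg b)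
        _ = |b| := mul_one _
    have h4 : M.real S0 * (Real.exp r - E / cos γ) - |b| * E ≤ X1 γ b M (r, t) := by
      rw [X1_eq hF]; linarith
    have h5 := mul_le_mul_of_nonneg_left h4 (Real.exp_pos (-r)).le
    have h6 : Real.exp (-r) * Real.exp r = 1 := by rw [← Real.exp_add]; simp
    have h7 : Real.exp (-r) * E ≤ Real.exp (-(cos γ ^ 2 * r)) := by
      rw [hE, ← Real.exp_add, ta_rt]
      apply Real.exp_le_exp.2
      have h8 : 0 ≤ t * cos γ * sin γ := by positivity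
      nlinarith
    have h8 : 0 ≤ |b| + M.real S0 / cos γ := by positivity
    have h9 := mul_le_mul_of_nonneg_left h7 h8
    have e : Real.exp (-r) * (M.real S0 * (Real.exp r - E / cos γ) - |b| * E) =
        M.real S0 - (|b| + M.real S0 / cos γ) * (Real.exp (-r) * E) := by
      linear_combination (M.real S0) * h6
    rw [e] at h5
    linarith
  have t1 : Tendsto (fun r : ℝ => (|b| + M.real S0 / cos γ) * Real.exp (-(cos γ ^ 2 * r))) atTop
      (𝓝 0) := by
    have h3 : Tendsto (fun r : ℝ => Real.exp (-(cos γ ^ 2 * r))) atTop (𝓝 0) :=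
      Real.tendsto_exp_neg_atTop_nhds_zero.comp (tendsto_id.const_mul_atTop (by positivity))
    simpa using h3.const_mul (|b| + M.real S0 / cos γ)
  have t2 : Tendsto (fun r : ℝ => κ * r) atTop atTop := tendsto_id.const_mul_atTop hκ
  obtain ⟨r, r1, r2, r3, r4⟩ := ((t1.eventually (gt_mem_nhds (show (0:ℝ) < M.real S0 / 2 by
    positivity))).and ((t2.eventually_ge_atTop L).and ((eventually_ge_atTop (0:ℝ)).and
      ((tendsto_X hs hc hF h h' hL0).eventually_gt_atTop N)))).exists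
  refine ⟨(r, L), r4, ?_⟩
  have hmv := Convex.mul_sub_le_image_sub_of_le_deriv (convex_Icc (0:ℝ) L)
    (f := fun t : ℝ => (F (r, t)).2)
    (fun x _ => (dY_path hF r x).continuousAt.continuousWithinAt)
    (fun x _ => (dY_path hF r x).differentiableAt.differentiableWithinAt) (C := M.real S0 / 2)
    (fun x hx => by
      rw [interior_Icc] at hx
      rw [(dY_path hF r x).deriv]
      have := hder r x r3 hx.1.le (by linarith [hx.2])
      linarith) 0 ⟨le_rfl, hL0⟩ L ⟨hL0, le_rfl⟩ hL0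
  have k := hY0 r r3
  simp only [sub_zero] at hmv
  linarith

theorem U0b (hs : 0 < sin γ) (hc : 0 < cos γ) (hF : TypeI γ b M F)
    (h : M {ν | 0 < cos (ν / 2) * sin (ν / 2)} = 0)
    (h' : ∫⁻ ν, (ENNReal.ofReal |sin (ν / 2)|)⁻¹ ∂M = ⊤) (N : ℝ) :
    ∃ q, N < (F q).1 ∧ N < (F q).2 := by
  by_cases h0 : M {ν | sin (ν / 2) = 0} = 0
  · exact U0b3 hs hc hF h h' h0 N
  · exact U0b4 hs hc hF h h' h0 N

/-- case (c) -/
theorem U0c (hs : 0 < sin γ) (hc : 0 < cos γ) (hF : TypeI γ b M F)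
    (h : M {ν | 0 < cos (ν / 2) * sin (ν / 2)} = 0)
    (h' : ∫⁻ ν, (ENNReal.ofReal |cos (ν / 2)|)⁻¹ ∂M = ⊤) (N : ℝ) :
    ∃ q, N < (F q).1 ∧ N < (F q).2 := by
  have hm : Measurable fun ν : ℝ => red (π - ν) :=
    measurable_red.comp (measurable_const.sub measurable_id)
  have htr : ∀ ν, |sin (red (π - ν) / 2)| = |cos (ν / 2)| ∧
      cos (red (π - ν) / 2) * sin (red (π - ν) / 2) = cos (ν / 2) * sin (ν / 2) := by
    intro ν
    obtain ⟨e, he, h1, h2, h3⟩ := D2b.trig_red0 (π - ν)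
    have e1 : (π - ν) / 2 = π / 2 - ν / 2 := by ring
    rw [e1, Real.cos_pi_div_two_sub] at h2
    rw [e1, Real.sin_pi_div_two_sub] at h3
    rw [h2, h3]
    constructor
    · rw [abs_mul]
      have : |e| = 1 := by
        have : e = 1 ∨ e = -1 := by
          have h4 : (e - 1) * (e + 1) = 0 := by linarith
          rcases mul_eq_zero.1 h4 with h5 | h5
          · left; linarith
          · right; linarith
        rcases this with h5 | h5 <;> rw [h5] <;> simp
      rw [this, one_mul]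
    · linear_combination (cos (ν / 2) * sin (ν / 2)) * he
  obtain ⟨q, h1, h2⟩ := U0b (γ := π / 2 - γ) (by rw [Real.sin_pi_div_two_sub]; exact hc)
    (by rw [Real.cos_pi_div_two_sub]; exact hs) hF.swap (by
      rw [Measure.map_apply hm (measurableSet_lt measurable_const (by fun_prop))]
      have : (fun ν => red (π - ν)) ⁻¹' {ν | 0 < cos (ν / 2) * sin (ν / 2)} =
          {ν | 0 < cos (ν / 2) * sin (ν / 2)} := by
        ext ν
        show 0 < cos (red (π - ν) / 2) * sin (red (π - ν) / 2) ↔ _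
        rw [(htr ν).2]; rfl
      rw [this]; exact h) (by
      rw [lintegral_map (f := fun ν : ℝ => (ENNReal.ofReal |sin (ν / 2)|)⁻¹)
        (ENNReal.measurable_ofReal.comp (by fun_prop)).inv hm]
      simp only [(htr _).1]
      exact h') N
  exact ⟨(-q.1, q.2), h2, h1⟩

/-- the integrand of `h3` -/
noncomputable def g3 (γ ν : ℝ) : ℝ≥0∞ :=
  (ENNReal.ofReal (max (-(chX γ ν)) (-(chY γ ν)) / |cos (ν / 2 - γ)|))⁻¹

theorem g3_pos {γ ν : ℝ} (h : 0 < cos (ν / 2 - γ)) :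
    g3 γ ν = (ENNReal.ofReal (max (-cos (ν / 2)) (-sin (ν / 2))))⁻¹ := by
  unfold g3 chX chY
  congr 2
  rw [abs_of_pos h, div_eq_iff h.ne', max_mul_of_nonneg _ _ h.le]
  congr 1 <;> ring

theorem g3_neg {γ ν : ℝ} (h : cos (ν / 2 - γ) < 0) :
    g3 γ ν = (ENNReal.ofReal (max (cos (ν / 2)) (sin (ν / 2))))⁻¹ := by
  unfold g3 chX chY
  congr 2
  rw [abs_of_neg h, div_eq_iff (by linarith), max_mul_of_nonneg _ _ (by linarith)]
  congr 1 <;> ring

end

end D4

open D4 D5 in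
theorem typeIpos_U0 {γ b : ℝ} {M : Measure ℝ} {F : P → P} (hγ : 0 < γ) (hγ' : γ < π / 2)
    (hF : TypeI γ b M F) (h : ∫⁻ ν in {ν | cos (ν / 2 - γ) ≠ 0},
      (ENNReal.ofReal (max (-(chX γ ν)) (-(chY γ ν)) / |cos (ν / 2 - γ)|))⁻¹ ∂M = ⊤) (N : ℝ) :
    ∃ q, N < (F q).1 ∧ N < (F q).2 := by
  have := hF.fin
  have hs : 0 < sin γ := sin_pos_of_pos_of_lt_pi hγ (by linarith [pi_pos])
  have hc : 0 < cos γ := cos_pos_of_mem_Ioo ⟨by linarith [pi_pos], hγ'⟩
  by_cases h0 : M {ν | 0 < cos (ν / 2) * sin (ν / 2)} = 0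
  swap
  · exact U0a hγ hγ' hF h0 N
  have hle : ∫⁻ ν in {ν | cos (ν / 2 - γ) ≠ 0}, g3 γ ν ∂M ≤
      ∫⁻ ν, ((ENNReal.ofReal |sin (ν / 2)|)⁻¹ + (ENNReal.ofReal |cos (ν / 2)|)⁻¹) ∂M := by
    refine le_trans ?_ (setLIntegral_le_lintegral {ν | cos (ν / 2 - γ) ≠ 0} _)
    apply lintegral_mono_ae
    filter_upwards [ae_restrict_of_ae (s := {ν | cos (ν / 2 - γ) ≠ 0}) (ae_supp hF),
      ae_restrict_mem (measurableSet_eq_fun (f := fun ν : ℝ => cos (ν / 2 - γ)) (by fun_prop)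
        measurable_const).compl,
      ae_restrict_of_ae (s := {ν | cos (ν / 2 - γ) ≠ 0}) (measure_eq_zero_iff_ae_notMem.1 h0)]
      with ν a1 a2 a3
    have a2' : cos (ν / 2 - γ) ≠ 0 := a2
    rcases lt_or_gt_of_ne a2' with a4 | a4
    · rw [g3_neg a4]
      refine le_trans (ENNReal.inv_le_inv.2 (ENNReal.ofReal_le_ofReal ?_)) le_add_self
      rw [abs_of_nonneg (cos_nonneg' a1)]
      exact le_max_left _ _
    · rw [g3_pos a4]
      rcases strip a1 a3 with a5 | ⟨a5, a6⟩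
      · rw [a5]; simp
      · refine le_trans (ENNReal.inv_le_inv.2 (ENNReal.ofReal_le_ofReal ?_)) le_self_add
        rw [abs_of_nonpos a6]
        exact le_max_right _ _
  have htop : ∫⁻ ν, ((ENNReal.ofReal |sin (ν / 2)|)⁻¹ + (ENNReal.ofReal |cos (ν / 2)|)⁻¹) ∂M = ⊤ := by
    have h' : ∫⁻ ν in {ν | cos (ν / 2 - γ) ≠ 0}, g3 γ ν ∂M = ⊤ := h
    rw [h'] at hle
    exact top_le_iff.1 hle
  rw [lintegral_add_left (f := fun ν : ℝ => (ENNReal.ofReal |sin (ν / 2)|)⁻¹)
    (ENNReal.measurable_ofReal.comp (by fun_prop)).inv] at htop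
  rcases ENNReal.add_eq_top.1 htop with h1 | h1
  · exact U0b hs hc hF h0 h1 N
  · exact U0c hs hc hF h0 h1 N

namespace D4

open C0 D2a D5

section

variable {γ b : ℝ} {M : Measure ℝ} {F : P → P}

/-! ### necessity -/

theorem gt_le {a : ℝ} (ha : 0 < a) (τ : ℝ) : gt a τ ≤ 1 / a := by
  have h1 : gt a τ = Tf a τ := by
    unfold gt
    have h2 : ∀ x ∈ uIcc 0 τ, HasDerivAt (Tf a) (Real.exp (-(x * a))) x := fun x _ => by
      have := hasDerivAt_Tf a x
      rwa [mul_comm a x] at this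
    rw [intervalIntegral.integral_eq_sub_of_hasDerivAt h2
      ((by fun_prop : Continuous fun x : ℝ => Real.exp (-(x * a))).intervalIntegrable _ _)]
    have : Tf a 0 = 0 := by unfold Tf; simp
    rw [this, sub_zero]
  rw [h1]
  exact Tf_le_inv ha τ

theorem nec1 (hs : 0 < sin γ) (hF : TypeI γ b M F) (h : Function.Surjective F) :
    ∫⁻ ν, (ENNReal.ofReal (chX γ ν))⁻¹ ∂M = ⊤ ∨ 0 < bp γ b M := by
  have := hF.fin
  by_contra hcon
  push Not at hcon
  obtain ⟨h1, h2⟩ := hcon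
  have hI0 := I0_ne_top h1 hF
  have hmeas : Measurable fun ν => (ENNReal.ofReal (chX γ ν))⁻¹ :=
    (ENNReal.measurable_ofReal.comp (measurable_chX γ)).inv
  have hpos : ∀ᵐ ν ∂M, 0 < chX γ ν := by
    filter_upwards [ae_lt_top hmeas h1] with ν hν
    by_contra hcon
    rw [not_lt] at hcon
    rw [ENNReal.ofReal_of_nonpos hcon, ENNReal.inv_zero] at hν
    exact lt_irrefl _ hν
  have hinv : Integrable (fun ν => (chX γ ν)⁻¹) M := by
    refine (integrable_toReal_of_lintegral_ne_top hmeas.aemeasurable h1).congr ?_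
    filter_upwards [hpos] with ν hν
    rw [ENNReal.toReal_inv, ENNReal.toReal_ofReal hν.le]
  have hlow : ∀ q, bp γ b M * (1 / sin γ) - ∫ ν, (chX γ ν)⁻¹ ∂M ≤ (F q).1 - (F 0).1 := by
    intro q
    obtain ⟨_, hi, _, hXf, _, _⟩ := typeI_finite hF hI0 q
    rw [hXf]
    have h3 : ∫ ν, -(chX γ ν)⁻¹ ∂M ≤ ∫ ν, kx (ν / 2) q / cos (ν / 2 - γ) ∂M := by
      apply integral_mono_ae hinv.neg hi
      filter_upwards [hpos] with ν hν
      have h5 := cos_mul_kx (ν / 2) q
      rw [← D5.EE_eq] at h5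
      have hc0 : cos (ν / 2) ≠ 0 := by
        intro h; unfold chX at hν; rw [h] at hν; simp at hν
      have hd0 : cos (ν / 2 - γ) ≠ 0 := by
        intro h; unfold chX at hν; rw [h] at hν; simp at hν
      have h6 : kx (ν / 2) q / cos (ν / 2 - γ) = (EE ν q - 1) * (chX γ ν)⁻¹ := by
        rw [← h5]
        unfold chX
        field_simp
      have h7 : 0 < (chX γ ν)⁻¹ := inv_pos.2 hν
      have h8 : 0 < EE ν q := Real.exp_pos _
      have h9 : -(chX γ ν)⁻¹ ≤ (EE ν q - 1) * (chX γ ν)⁻¹ := by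
        have h10 := mul_pos h8 h7
        have h11 : (EE ν q - 1) * (chX γ ν)⁻¹ = EE ν q * (chX γ ν)⁻¹ - (chX γ ν)⁻¹ := by ring
        rw [h11]; linarith
      rw [← h6] at h9
      exact h9
    rw [integral_neg] at h3
    have h4 : bp γ b M * (1 / sin γ) ≤ bp γ b M * gt (sin γ) (ta γ q) :=
      mul_le_mul_of_nonpos_left (gt_le hs _) h2
    linarith
  obtain ⟨q, hq⟩ := h ((F 0).1 + (bp γ b M * (1 / sin γ) - ∫ ν, (chX γ ν)⁻¹ ∂M) - 1, 0)
  have h3 := hlow q
  rw [hq] at h3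
  simp only at h3
  linarith

theorem nec2 (hc : 0 < cos γ) (hF : TypeI γ b M F) (h : Function.Surjective F) :
    ∫⁻ ν, (ENNReal.ofReal (chY γ ν))⁻¹ ∂M = ⊤ ∨ bp γ b M < 0 := by
  have h1 := nec1 (γ := π / 2 - γ) (by rw [Real.sin_pi_div_two_sub]; exact hc) hF.swap (by
    intro p
    obtain ⟨q, hq⟩ := h (p.2, p.1)
    refine ⟨(-q.1, q.2), ?_⟩
    simp only [neg_neg]
    rw [show ((q.1, q.2) : P) = q from rfl, hq])
  rw [lint_swap, bp_swap] at h1
  exact h1.imp id (fun h => by linarith)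

theorem TT_le {ν r : ℝ} (h : cos (ν / 2) * sin (ν / 2) < 0) :
    TT ν r ≤ 1 / (-(cos (ν / 2) * sin (ν / 2))) := Tf_le_inv (by linarith) r

theorem nec3 (hs : 0 < sin γ) (hc : 0 < cos γ) (hF : TypeI γ b M F)
    (h : Function.Surjective F) : ∫⁻ ν in {ν | cos (ν / 2 - γ) ≠ 0}, g3 γ ν ∂M = ⊤ := by
  have := hF.fin
  by_contra hcon
  have hκ : 0 < sin γ * cos γ := mul_pos hs hc
  set D : Set ℝ := {ν | cos (ν / 2 - γ) ≠ 0} with hD
  have hDm : MeasurableSet D := (measurableSet_eq_fun (f := fun ν : ℝ => cos (ν / 2 - γ))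
    (by fun_prop) measurable_const).compl
  have hg3m : Measurable (g3 γ) := by
    unfold g3 chX chY
    exact (ENNReal.measurable_ofReal.comp (by fun_prop)).inv
  set g : ℝ → ℝ≥0∞ := D.indicator (g3 γ) with hg
  have hgm : Measurable g := hg3m.indicator hDm
  have hgi : ∫⁻ ν, g ν ∂M ≠ ⊤ := by
    rw [hg, lintegral_indicator hDm]; exact hcon
  have hgfin : ∀ᵐ ν ∂M, g ν < ⊤ := ae_lt_top hgm hgi
  have hgint : Integrable (fun ν => (g ν).toReal) M :=
    integrable_toReal_of_lintegral_ne_top hgm.aemeasurable hgi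
  -- pointwise bounds
  have hpt : ∀ᵐ ν ∂M, ∀ r : ℝ, 0 ≤ r →
      |f1 γ ν r| ≤ (g ν).toReal + (1 / cos γ + 1 / sin γ) ∧
      |f2 γ ν r| ≤ (g ν).toReal + (1 / cos γ + 1 / sin γ) := by
    filter_upwards [ae_supp hF, hgfin] with ν a1 a2 r hr
    have hpy := sq_one (ν / 2)
    have hpg := sq_one γ
    have hc0 := cos_nonneg' a1
    have hc1 := cos_le_one (ν / 2)
    have hs1 := neg_one_le_sin (ν / 2)
    have hsg1 := sin_le_one γ
    have hcg1 := cos_le_one γ
    -- the structure: `s < 0 < c` and a bound for `1 / |s|` and `1 / c`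
    obtain ⟨b1, b2, b3, b4⟩ : sin (ν / 2) < 0 ∧ 0 < cos (ν / 2) ∧
        1 / (-sin (ν / 2)) ≤ (g ν).toReal + 1 / cos γ ∧
        1 / cos (ν / 2) ≤ (g ν).toReal + 1 / sin γ := by
      have hgn : 0 ≤ (g ν).toReal := ENNReal.toReal_nonneg
      rcases lt_trichotomy (cos (ν / 2 - γ)) 0 with hd | hd | hd
      · -- `d < 0`
        have hνD : ν ∈ D := hd.ne
        have e1 : g ν = (ENNReal.ofReal (max (cos (ν / 2)) (sin (ν / 2))))⁻¹ := by
          rw [hg, indicator_of_mem hνD, g3_neg hd]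
        have hd' := hd
        rw [cd_eq] at hd'
        have c1 : sin (ν / 2) < 0 := by
          by_contra hcc
          rw [not_lt] at hcc
          nlinarith [mul_nonneg hc0 hc.le, mul_nonneg hcc hs.le]
        have e2 : max (cos (ν / 2)) (sin (ν / 2)) = cos (ν / 2) := max_eq_left (by linarith)
        rw [e2] at e1
        have c2 : 0 < cos (ν / 2) := by
          rcases hc0.eq_or_lt with h1 | h1
          · exfalso
            rw [e1, ← h1, ENNReal.ofReal_zero, ENNReal.inv_zero] at a2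
            exact lt_irrefl _ a2
          · exact h1
        have e3 : (g ν).toReal = 1 / cos (ν / 2) := by
          rw [e1, ENNReal.toReal_inv, ENNReal.toReal_ofReal hc0, one_div]
        have c3 : cos γ ≤ -sin (ν / 2) := by
          have h1 : cos (ν / 2) * cos γ < (-sin (ν / 2)) * sin γ := by linarith
          have h2 : (cos (ν / 2) * cos γ) ^ 2 < ((-sin (ν / 2)) * sin γ) ^ 2 :=
            pow_lt_pow_left₀ h1 (by positivity) (by norm_num)
          have h3 : cos γ ^ 2 < (-sin (ν / 2)) ^ 2 := by nlinarith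
          exact (lt_of_pow_lt_pow_left₀ 2 (by linarith) h3).le
        refine ⟨c1, c2, ?_, ?_⟩
        · have := one_div_le_one_div_of_le hc c3
          linarith
        · rw [e3]
          have : 0 < 1 / sin γ := by positivity
          linarith
      · -- `d = 0`
        have hd' := hd
        rw [cd_eq] at hd'
        have h1 : cos (ν / 2) * cos γ = (-sin (ν / 2)) * sin γ := by linarith
        have c1 : 0 ≤ -sin (ν / 2) := by
          by_contra hcc
          rw [not_le] at hcc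
          nlinarith [mul_nonneg hc0 hc.le]
        have c2 : cos (ν / 2) = sin γ := by
          have h2 : cos (ν / 2) ^ 2 = sin γ ^ 2 := by
            have h3 : (cos (ν / 2) * cos γ) ^ 2 = ((-sin (ν / 2)) * sin γ) ^ 2 := by rw [h1]
            nlinarith
          nlinarith
        have c3 : -sin (ν / 2) = cos γ := by
          rw [c2] at h1
          have : sin γ * (cos γ - -sin (ν / 2)) = 0 := by linarith
          rcases mul_eq_zero.1 this with h4 | h4
          · exact absurd h4 hs.ne'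
          · linarith
        refine ⟨by linarith, by linarith, ?_, ?_⟩
        · rw [c3]; linarith
        · rw [c2]; linarith
      · -- `0 < d`
        have hνD : ν ∈ D := hd.ne'
        have e1 : g ν = (ENNReal.ofReal (max (-cos (ν / 2)) (-sin (ν / 2))))⁻¹ := by
          rw [hg, indicator_of_mem hνD, g3_pos hd]
        have c1 : sin (ν / 2) < 0 := by
          by_contra hcc
          rw [not_lt] at hcc
          rw [e1, ENNReal.ofReal_of_nonpos (max_le (by linarith) (by linarith)),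
            ENNReal.inv_zero] at a2
          exact lt_irrefl _ a2
        have e2 : max (-cos (ν / 2)) (-sin (ν / 2)) = -sin (ν / 2) := max_eq_right (by linarith)
        rw [e2] at e1
        have e3 : (g ν).toReal = 1 / (-sin (ν / 2)) := by
          rw [e1, ENNReal.toReal_inv, ENNReal.toReal_ofReal (by linarith), one_div]
        have c2 := cos_gt hs hc0 hd c1.le
        refine ⟨c1, by linarith, ?_, ?_⟩
        · rw [e3]
          have : 0 < 1 / cos γ := by positivity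
          linarith
        · have := one_div_le_one_div_of_le hs c2.le
          linarith
    have hy : cos (ν / 2) * sin (ν / 2) < 0 := mul_neg_of_pos_of_neg b2 b1
    have t1 := TT_le (r := r) hy
    have t2 : 0 ≤ TT ν r := Tf_nonneg _ hr
    have t3 := GG_nonneg γ ν hr
    have t4 : GG γ ν r ≤ TT ν r := GG_le_TT hκ.le hr
    have t5 : GG γ ν r ≤ 1 / (sin γ * cos γ) := G_le_inv hκ hy.le hr
    have u1 := f1_ge (ν := ν) hκ.le hr
    have u2 := f2_ge (ν := ν) hκ.le hr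
    have v1 : 0 ≤ f1 γ ν r := le_trans (mul_nonneg (sq_nonneg _) t3) u1
    have v2 : 0 ≤ f2 γ ν r := le_trans (mul_nonneg (sq_nonneg _) t3) u2
    have w1 : sin (ν / 2) ^ 2 * TT ν r ≤ 1 / cos (ν / 2) := by
      calc sin (ν / 2) ^ 2 * TT ν r ≤ sin (ν / 2) ^ 2 * (1 / (-(cos (ν / 2) * sin (ν / 2)))) :=
            mul_le_mul_of_nonneg_left t1 (sq_nonneg _)
        _ = -sin (ν / 2) / cos (ν / 2) := by
            have := b1.ne
            have := b2.ne'
            field_simp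
        _ ≤ 1 / cos (ν / 2) := div_le_div_of_nonneg_right (by linarith) b2.le
    have w2 : cos (ν / 2) ^ 2 * TT ν r ≤ 1 / (-sin (ν / 2)) := by
      calc cos (ν / 2) ^ 2 * TT ν r ≤ cos (ν / 2) ^ 2 * (1 / (-(cos (ν / 2) * sin (ν / 2)))) :=
            mul_le_mul_of_nonneg_left t1 (sq_nonneg _)
        _ = cos (ν / 2) / (-sin (ν / 2)) := by
            have := b1.ne
            have := b2.ne'
            field_simp
        _ ≤ 1 / (-sin (ν / 2)) := div_le_div_of_nonneg_right hc1 (by linarith)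
    have x1 : sin γ ^ 2 * GG γ ν r ≤ 1 / cos γ := by
      calc sin γ ^ 2 * GG γ ν r ≤ sin γ ^ 2 * (1 / (sin γ * cos γ)) :=
            mul_le_mul_of_nonneg_left t5 (sq_nonneg _)
        _ = sin γ / cos γ := by field_simp
        _ ≤ 1 / cos γ := div_le_div_of_nonneg_right hsg1 hc.le
    have x2 : cos γ ^ 2 * GG γ ν r ≤ 1 / sin γ := by
      calc cos γ ^ 2 * GG γ ν r ≤ cos γ ^ 2 * (1 / (sin γ * cos γ)) :=
            mul_le_mul_of_nonneg_left t5 (sq_nonneg _)
        _ = cos γ / sin γ := by field_simp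
        _ ≤ 1 / sin γ := div_le_div_of_nonneg_right hcg1 hs.le
    have y1 : f1 γ ν r = sin (ν / 2) ^ 2 * (TT ν r - GG γ ν r) + sin γ ^ 2 * GG γ ν r := by
      unfold f1; ring
    have y2 : f2 γ ν r = cos (ν / 2) ^ 2 * (TT ν r - GG γ ν r) + cos γ ^ 2 * GG γ ν r := by
      unfold f2
      linear_combination (GG γ ν r) * hpy - (GG γ ν r) * hpg
    have z1 : 0 ≤ sin (ν / 2) ^ 2 * GG γ ν r := mul_nonneg (sq_nonneg _) t3
    have z2 : 0 ≤ cos (ν / 2) ^ 2 * GG γ ν r := mul_nonneg (sq_nonneg _) t3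
    rw [abs_of_nonneg v1, abs_of_nonneg v2, y1, y2]
    constructor <;> nlinarith
  -- boundedness along `(0, r)`
  set C := ∫ ν, ((g ν).toReal + (1 / cos γ + 1 / sin γ)) ∂M with hC
  have hCi : Integrable (fun ν => (g ν).toReal + (1 / cos γ + 1 / sin γ)) M :=
    hgint.add (integrable_const _)
  have hbe : ∀ r : ℝ, 0 ≤ r → |b * (1 - Real.exp (-(sin γ * cos γ * r)))| ≤ |b| := by
    intro r hr
    rw [abs_mul]
    refine mul_le_of_le_one_right (abs_nonneg _) ?_
    have h1 : Real.exp (-(sin γ * cos γ * r)) ≤ 1 := Real.exp_le_one_iff.2 (by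
      have := mul_nonneg hκ.le hr; linarith)
    have h2 := Real.exp_pos (-(sin γ * cos γ * r))
    rw [abs_le]; constructor <;> linarith
  have hX : ∀ r : ℝ, 0 ≤ r → |(F (0, r)).1 - (F 0).1| ≤ (|b| + C) / sin γ := by
    intro r hr
    obtain ⟨i1, e1⟩ := X_0r hF r
    have h1 : |∫ ν, f1 γ ν r ∂M| ≤ C := by
      refine (abs_integral_le_integral_abs).trans (integral_mono_ae i1.abs hCi ?_)
      filter_upwards [hpt] with ν hν using (hν r hr).1
    rw [le_div_iff₀ hs, mul_comm, ← abs_of_pos hs, ← abs_mul, e1]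
    exact (abs_add_le _ _).trans (add_le_add (hbe r hr) h1)
  have hY : ∀ r : ℝ, 0 ≤ r → |(F (0, r)).2 - (F 0).2| ≤ (|b| + C) / cos γ := by
    intro r hr
    obtain ⟨i1, e1⟩ := Y_0r hF r
    have h1 : |∫ ν, f2 γ ν r ∂M| ≤ C := by
      refine (abs_integral_le_integral_abs).trans (integral_mono_ae i1.abs hCi ?_)
      filter_upwards [hpt] with ν hν using (hν r hr).2
    rw [le_div_iff₀ hc, mul_comm, ← abs_of_pos hc, ← abs_mul, e1]
    refine (abs_add_le _ _).trans (add_le_add ?_ h1)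
    rw [abs_neg]; exact hbe r hr
  set R := max (|(F 0).1| + (|b| + C) / sin γ) (|(F 0).2| + (|b| + C) / cos γ) with hR
  have hb := bdd_preimage hF h R
  obtain ⟨B, hB⟩ := hb.exists_norm_le
  have hmem : ∀ r : ℝ, 0 ≤ r → ((0, r) : P) ∈ {q | ‖F q‖ ≤ R} := by
    intro r hr
    show ‖F (0, r)‖ ≤ R
    rw [Prod.norm_def]
    refine max_le_max ?_ ?_
    · rw [Real.norm_eq_abs]
      have h1 := hX r hr
      have h2 := abs_add_le ((F (0, r)).1 - (F 0).1) (F 0).1
      rw [sub_add_cancel] at h2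
      linarith
    · rw [Real.norm_eq_abs]
      have h1 := hY r hr
      have h2 := abs_add_le ((F (0, r)).2 - (F 0).2) (F 0).2
      rw [sub_add_cancel] at h2
      linarith
  have h1 := hB _ (hmem (|B| + 1) (by positivity))
  rw [Prod.norm_def] at h1
  have h2 := le_trans (le_max_right _ _) h1
  simp only [Real.norm_eq_abs] at h2
  rw [abs_of_nonneg (by positivity)] at h2
  linarith [le_abs_self B]

end

end D4

open D4 in
theorem typeIpos_necessary {γ b : ℝ} {M : Measure ℝ} {F : P → P} (hγ : 0 < γ) (hγ' : γ < π / 2)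
    (hF : TypeI γ b M F) (h : Function.Surjective F) : OntoIpos γ b M := by
  have hs : 0 < sin γ := sin_pos_of_pos_of_lt_pi hγ (by linarith [pi_pos])
  have hc : 0 < cos γ := cos_pos_of_mem_Ioo ⟨by linarith [pi_pos], hγ'⟩
  exact ⟨nec1 hs hF h, nec2 hc hF h, nec3 hs hc hF h⟩

end Pool.Agent.EU
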