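import Pool.Agent.EU.OntoDefs
import Pool.Agent.EU.D2a

/-!
First family, `0 < γ < π / 2`: the quadrants `X < 0 < Y` and `Y < 0 < X` are reached.
-/

set_option autoImplicit false
open scoped ContDiff Topology ENNReal
open Real Set MeasureTheory Filter

namespace Pool.Agent.EU

namespace D5

/-! ### the function `∫₀ᵗ e^{-ξ r} dr` -/

/-- `∫₀ᵗ e^{-ξ r} dr` -/
noncomputable def Tf (ξ t : ℝ) : ℝ := if ξ = 0 then t else (1 - Real.exp (-(ξ * t))) / ξ

theorem mul_Tf (ξ t : ℝ) : ξ * Tf ξ t = 1 - Real.exp (-(ξ * t)) := by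
  unfold Tf
  split_ifs with h
  · rw [h]; simp
  · field_simp

theorem Tf_eq (ξ t : ℝ) : t * ∫ r in (0:ℝ)..1, Real.exp (r * (-(ξ * t))) = Tf ξ t := by
  unfold Tf
  split_ifs with h
  · rw [h]; simp
  · by_cases ht : t = 0
    · rw [ht]; simp
    · have hx : -(ξ * t) ≠ 0 := neg_ne_zero.2 (mul_ne_zero h ht)
      rw [intervalIntegral.integral_comp_mul_right (fun x => Real.exp x) hx, integral_exp]
      simp only [zero_mul, one_mul, Real.exp_zero, smul_eq_mul]
      field_simp
      ring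

theorem Tf_nonneg (ξ : ℝ) {t : ℝ} (ht : 0 ≤ t) : 0 ≤ Tf ξ t := by
  rw [← Tf_eq]
  refine mul_nonneg ht (intervalIntegral.integral_nonneg zero_le_one fun r _ => (Real.exp_pos _).le)

theorem hasDerivAt_Tf (ξ t : ℝ) : HasDerivAt (Tf ξ) (Real.exp (-(ξ * t))) t := by
  by_cases h : ξ = 0
  · have e : Tf ξ = fun t => t := by funext t; simp [Tf, h]
    rw [e, h, zero_mul, neg_zero, Real.exp_zero]
    exact hasDerivAt_id' t
  · have e : Tf ξ = fun t => (1 - Real.exp (-(ξ * t))) / ξ := by funext t; simp [Tf, h]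
    rw [e]
    have h1 : HasDerivAt (fun t => -(ξ * t)) (-(ξ * 1)) t :=
      ((hasDerivAt_id' t).const_mul ξ).fun_neg
    have h2 := (h1.exp.const_sub 1).div_const ξ
    have e2 : -(Real.exp (-(ξ * t)) * -(ξ * 1)) / ξ = Real.exp (-(ξ * t)) := by
      field_simp
    rw [e2] at h2
    exact h2

theorem Tf_mono (ξ : ℝ) : Monotone (Tf ξ) :=
  monotone_of_deriv_nonneg (fun t => (hasDerivAt_Tf ξ t).differentiableAt) fun t => by
    rw [(hasDerivAt_Tf ξ t).deriv]
    exact (Real.exp_pos _).le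

theorem Tf_le_inv {ξ : ℝ} (hξ : 0 < ξ) (t : ℝ) : Tf ξ t ≤ 1 / ξ := by
  unfold Tf
  rw [if_neg hξ.ne']
  exact div_le_div_of_nonneg_right (by linarith [Real.exp_pos (-(ξ * t))]) hξ.le

theorem Tf_ge {ξ : ℝ} (hξ : ξ ≤ 0) {t : ℝ} (ht : 0 ≤ t) : t ≤ Tf ξ t := by
  rw [← Tf_eq]
  have h1 : (1 : ℝ) ≤ ∫ r in (0:ℝ)..1, Real.exp (r * (-(ξ * t))) := by
    have h2 : ∫ r in (0:ℝ)..1, (1 : ℝ) ≤ ∫ r in (0:ℝ)..1, Real.exp (r * (-(ξ * t))) := by
      apply intervalIntegral.integral_mono_on zero_le_one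
      · exact intervalIntegrable_const
      · exact (by fun_prop : Continuous fun r : ℝ => Real.exp (r * (-(ξ * t)))).intervalIntegrable _ _
      · intro r hr
        apply Real.one_le_exp
        have : 0 ≤ -(ξ * t) := by nlinarith
        exact mul_nonneg hr.1 this
    simpa using h2
  nlinarith

theorem Tf_le {ξ t : ℝ} (hξ : |ξ| ≤ 1) (ht : 0 ≤ t) : Tf ξ t ≤ t * Real.exp t := by
  rw [← Tf_eq]
  apply mul_le_mul_of_nonneg_left _ ht
  have h2 : ∫ r in (0:ℝ)..1, Real.exp (r * (-(ξ * t))) ≤ ∫ r in (0:ℝ)..1, Real.exp t := by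
    apply intervalIntegral.integral_mono_on zero_le_one
    · exact (by fun_prop : Continuous fun r : ℝ => Real.exp (r * (-(ξ * t)))).intervalIntegrable _ _
    · exact intervalIntegrable_const
    · intro r hr
      apply Real.exp_le_exp.2
      have h3 : |r * (-(ξ * t))| ≤ t := by
        rw [abs_mul, abs_neg, abs_mul, abs_of_nonneg hr.1, abs_of_nonneg ht]
        have h4 : |ξ| * t ≤ t := mul_le_of_le_one_left ht hξ
        have h5 : 0 ≤ |ξ| * t := by positivity
        nlinarith [hr.1, hr.2]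
      exact (le_abs_self _).trans h3
  simpa using h2

theorem tendsto_Tf (ξ : ℝ) :
    Tendsto (fun n : ℕ => ENNReal.ofReal (Tf ξ n)) atTop (𝓝 (ENNReal.ofReal ξ)⁻¹) := by
  rcases le_or_gt ξ 0 with h | h
  · rw [ENNReal.ofReal_of_nonpos h, ENNReal.inv_zero]
    have h1 : Tendsto (fun n : ℕ => Tf ξ n) atTop atTop :=
      tendsto_atTop_mono (fun n : ℕ => Tf_ge h (Nat.cast_nonneg n)) tendsto_natCast_atTop_atTop
    exact ENNReal.tendsto_ofReal_atTop.comp h1
  · rw [← ENNReal.ofReal_inv_of_pos h]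
    apply ENNReal.tendsto_ofReal
    have h1 : Tendsto (fun n : ℕ => Real.exp (-(ξ * n))) atTop (𝓝 0) := by
      apply Real.tendsto_exp_neg_atTop_nhds_zero.comp
      exact tendsto_natCast_atTop_atTop.const_mul_atTop h
    have h2 : Tendsto (fun n : ℕ => (1 - Real.exp (-(ξ * n))) / ξ) atTop (𝓝 ((1 - 0) / ξ)) :=
      (tendsto_const_nhds.sub h1).div_const ξ
    have e : (1 - 0) / ξ = ξ⁻¹ := by simp
    rw [e] at h2
    refine h2.congr fun n => ?_
    unfold Tf
    rw [if_neg h.ne']

theorem measurable_Tf (t : ℝ) : Measurable fun ξ => Tf ξ t := by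
  unfold Tf
  refine Measurable.ite (measurableSet_singleton 0) measurable_const ?_
  exact (measurable_const.sub (Real.measurable_exp.comp
    ((measurable_id.mul_const t).neg))).div measurable_id

/-- monotone convergence -/
theorem mono_conv {M : Measure ℝ} [IsFiniteMeasure M] {w ξ : ℝ → ℝ} (hw : Measurable w)
    (hw0 : ∀ ν, 0 ≤ w ν) (hw1 : ∀ ν, w ν ≤ 1) (hξ : Measurable ξ) (hξ1 : ∀ ν, |ξ ν| ≤ 1)
    (h : ∫⁻ ν, ENNReal.ofReal (w ν) * (ENNReal.ofReal (ξ ν))⁻¹ ∂M = ⊤) (B : ℝ) :
    ∀ᶠ n : ℕ in atTop, B < ∫ ν, w ν * Tf (ξ ν) n ∂M := by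
  have h1 := lintegral_tendsto_of_tendsto_of_monotone (μ := M)
    (f := fun (n : ℕ) ν => ENNReal.ofReal (w ν) * ENNReal.ofReal (Tf (ξ ν) n))
    (F := fun ν => ENNReal.ofReal (w ν) * (ENNReal.ofReal (ξ ν))⁻¹)
    (fun n => ((ENNReal.measurable_ofReal.comp hw).mul
      (ENNReal.measurable_ofReal.comp ((measurable_Tf n).comp hξ))).aemeasurable)
    (Eventually.of_forall fun ν => fun m n hmn => by
      simp only
      gcongr
      exact Tf_mono (ξ ν) (Nat.cast_le.2 hmn))
    (Eventually.of_forall fun ν =>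
      ENNReal.Tendsto.const_mul (tendsto_Tf (ξ ν)) (Or.inr ENNReal.ofReal_ne_top))
  rw [h] at h1
  filter_upwards [h1.eventually (lt_mem_nhds (ENNReal.ofReal_lt_top (r := B)))] with n hn
  have h2 : ∫⁻ ν, ENNReal.ofReal (w ν) * ENNReal.ofReal (Tf (ξ ν) n) ∂M =
      ENNReal.ofReal (∫ ν, w ν * Tf (ξ ν) n ∂M) := by
    rw [ofReal_integral_eq_lintegral_ofReal]
    · refine lintegral_congr fun ν => ?_
      rw [ENNReal.ofReal_mul (hw0 ν)]
    · refine Integrable.of_bound ((hw.mul ((measurable_Tf n).comp hξ)).aestronglyMeasurable)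
        ((n : ℝ) * Real.exp n) (Eventually.of_forall fun ν => ?_)
      have h3 := Tf_nonneg (ξ ν) (Nat.cast_nonneg n : (0:ℝ) ≤ n)
      have h4 := Tf_le (hξ1 ν) (Nat.cast_nonneg n : (0:ℝ) ≤ n)
      rw [Real.norm_of_nonneg (mul_nonneg (hw0 ν) h3)]
      calc w ν * Tf (ξ ν) n ≤ 1 * Tf (ξ ν) n := mul_le_mul_of_nonneg_right (hw1 ν) h3
        _ ≤ _ := by rw [one_mul]; exact h4
    · exact Eventually.of_forall fun ν =>
        mul_nonneg (hw0 ν) (Tf_nonneg (ξ ν) (Nat.cast_nonneg n))
  rw [h2] at hn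
  by_contra hcon
  rw [not_lt] at hcon
  exact absurd hn (not_lt.2 (ENNReal.ofReal_le_ofReal hcon))

/-! ### growth along a path -/

theorem growth {f f' : ℝ → ℝ} {κ : ℝ} (hκ : 0 < κ) (hf : ∀ t, HasDerivAt f (f' t) t)
    (h : ∀ᶠ t in atTop, κ ≤ f' t) : Tendsto f atTop atTop := by
  obtain ⟨t0, ht0⟩ := eventually_atTop.1 h
  have h1 : ∀ t, t0 ≤ t → f t0 + κ * (t - t0) ≤ f t := by
    intro t ht
    have := Convex.mul_sub_le_image_sub_of_le_deriv (convex_Ici t0) (f := f)
      (fun x _ => (hf x).continuousAt.continuousWithinAt)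
      (fun x _ => (hf x).differentiableAt.differentiableWithinAt) (C := κ)
      (fun x hx => by
        rw [interior_Ici] at hx
        rw [(hf x).deriv]
        exact ht0 x (le_of_lt hx)) t0 self_mem_Ici t ht ht
    linarith
  have h2 : Tendsto (fun t => f t0 + κ * (t - t0)) atTop atTop := by
    apply tendsto_atTop_add_const_left
    apply Tendsto.const_mul_atTop hκ
    exact tendsto_atTop_add_const_right _ _ tendsto_id
  apply tendsto_atTop_mono' _ _ h2
  filter_upwards [eventually_ge_atTop t0] with t ht using h1 t ht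

theorem path_deriv {γ b : ℝ} {M : Measure ℝ} {F : P → P} (hF : TypeI γ b M F) (p v : P) (t : ℝ) :
    HasDerivAt (fun t : ℝ => (F (p + t • v)).2)
      (Real.exp (-(p + t • v).1) * (W1 M (p + t • v) * ta γ v - K1 γ b M (p + t • v) * sg γ v))
      t := by
  have h1 : HasDerivAt (fun t : ℝ => p + t • v) v t := by
    have := ((hasDerivAt_id t).smul_const v).const_add p
    simpa using this
  have h2 := (hF.diff (p + t • v)).hasFDerivAt.comp_hasDerivAt t h1
  rw [hF.dF] at h2
  exact (hasFDerivAt_snd (𝕜 := ℝ) (E := ℝ) (F := ℝ)).comp_hasDerivAt t h2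

/-! ### trigonometry -/

section trig

variable {γ ν : ℝ}

theorem cos_nonneg' (h : ν ∈ Icc (-π) π) : 0 ≤ cos (ν / 2) :=
  cos_nonneg_of_neg_pi_div_two_le_of_le (by linarith [h.1]) (by linarith [h.2])

theorem cd_eq (γ ν : ℝ) :
    cos (ν / 2 - γ) = cos (ν / 2) * cos γ + sin (ν / 2) * sin γ := cos_sub _ _

theorem sd_eq (γ ν : ℝ) :
    sin (ν / 2 - γ) = sin (ν / 2) * cos γ - cos (ν / 2) * sin γ := sin_sub _ _

theorem sq_one (x : ℝ) : sin x ^ 2 + cos x ^ 2 = 1 := sin_sq_add_cos_sq x

theorem chX_abs_le (γ ν : ℝ) : |chX γ ν| ≤ 1 := by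
  unfold chX
  rw [abs_mul]
  exact mul_le_one₀ (abs_cos_le_one _) (abs_nonneg _) (abs_cos_le_one _)

theorem measurable_chX (γ : ℝ) : Measurable (chX γ) := by
  unfold chX
  fun_prop

/-- `D sin γ ≤ d cos γ` -/
theorem tan_le (hν : ν ∈ Icc (-π) π) :
    sin (ν / 2 - γ) * sin γ ≤ cos (ν / 2 - γ) * cos γ := by
  have hc := cos_nonneg' hν
  rw [cd_eq, sd_eq]
  nlinarith [sq_one γ]

/-- `c > 0`, `d > 0`, `s < 0` imply `c > sin γ`. -/
theorem cos_gt (hγ : 0 < sin γ) (hc : 0 ≤ cos (ν / 2)) (hd : 0 < cos (ν / 2 - γ))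
    (hs : sin (ν / 2) ≤ 0) : sin γ < cos (ν / 2) := by
  rw [cd_eq] at hd
  have h1 : (-sin (ν / 2)) * sin γ < cos (ν / 2) * cos γ := by linarith
  have h0 : 0 ≤ (-sin (ν / 2)) * sin γ := mul_nonneg (by linarith) hγ.le
  have h2 : ((-sin (ν / 2)) * sin γ) ^ 2 < (cos (ν / 2) * cos γ) ^ 2 :=
    pow_lt_pow_left₀ h1 h0 (by norm_num)
  have h3 : sin γ ^ 2 < cos (ν / 2) ^ 2 := by
    nlinarith [sq_one γ, sq_one (ν / 2)]
  exact lt_of_pow_lt_pow_left₀ 2 hc h3

end trig

/-! ### case A1: the path `τ = 0`, `σ → -∞` -/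

section caseA

variable {γ b : ℝ} {M : Measure ℝ} {F : P → P}

/-- the path -/
noncomputable def pA (γ t : ℝ) : P := (0 : P) + t • ((-cos γ, -sin γ) : P)

theorem pA_fst (γ t : ℝ) : (pA γ t).1 = -(t * cos γ) := by simp [pA]

theorem pA_snd (γ t : ℝ) : (pA γ t).2 = -(t * sin γ) := by simp [pA]

theorem sg_pA (γ t : ℝ) : sg γ (pA γ t) = -t := by
  unfold sg
  rw [pA_fst, pA_snd]
  have := sq_one γ
  linear_combination (-t) * this

theorem ta_pA (γ t : ℝ) : ta γ (pA γ t) = 0 := by
  unfold ta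
  rw [pA_fst, pA_snd]
  ring

theorem kk_pA (γ ν t : ℝ) :
    kk γ ν (pA γ t) = -(cos (ν / 2) * sin (ν / 2 - γ)) * Tf (chX γ ν) t := by
  unfold kk
  rw [sg_pA, ta_pA, ← Tf_eq]
  simp only [zero_mul, neg_zero, Real.exp_zero, mul_one, add_zero]
  rw [intervalIntegral.integral_const_mul]
  have : ∀ r : ℝ, r * (-t * cos (ν / 2) * cos (ν / 2 - γ)) = r * -(chX γ ν * t) := by
    intro r
    unfold chX
    ring
  simp only [this]
  ring

theorem kx_pA (γ ν t : ℝ) : kx (ν / 2) (pA γ t) = -cos (ν / 2 - γ) * Tf (chX γ ν) t := by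
  unfold kx
  rw [pA_fst, pA_snd, ← Tf_eq]
  have e : -(t * cos γ) * cos (ν / 2) + -(t * sin γ) * sin (ν / 2) = -(t * cos (ν / 2 - γ)) := by
    rw [cd_eq]; ring
  rw [e]
  have : ∀ r : ℝ, r * (cos (ν / 2) * -(t * cos (ν / 2 - γ))) = r * -(chX γ ν * t) := by
    intro r
    unfold chX
    ring
  simp only [this]
  ring

theorem ae_supp (hF : TypeI γ b M F) : ∀ᵐ ν ∂M, ν ∈ Icc (-π) π := by
  have h := measure_eq_zero_iff_ae_notMem.1 hF.supp
  filter_upwards [h] with ν hν
  simpa using hν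

theorem X_pA (hγ : 0 < sin γ) (hF : TypeI γ b M F) (t : ℝ) :
    (F (pA γ t)).1 - (F 0).1 = -∫ ν, Tf (chX γ ν) t ∂M := by
  have := hF.fin
  have h1 := typeI_star1 hF (pA γ t)
  obtain ⟨_, i2, i3, _⟩ := integrable_kernels (γ := γ) hF.supp (pA γ t)
  have hK : K1 γ b M (pA γ t) = b + ∫ ν, kk γ ν (pA γ t) ∂M := by
    unfold K1
    rw [ta_pA]
    simp
  have i3' : Integrable (fun ν => sin (ν / 2) * kx (ν / 2) (pA γ t)) M := by
    refine i3.bdd_mul (c := 1) ?_ ?_
    · exact (by fun_prop : Continuous fun ν : ℝ => sin (ν / 2)).aestronglyMeasurable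
    · exact Eventually.of_forall fun ν => by
        rw [Real.norm_eq_abs]; exact abs_sin_le_one _
  have h2 : ∫ ν, sin (ν / 2) * kx (ν / 2) (pA γ t) ∂M - ∫ ν, kk γ ν (pA γ t) ∂M =
      -(sin γ) * ∫ ν, Tf (chX γ ν) t ∂M := by
    rw [← integral_sub i3' i2, ← integral_const_mul]
    congr 1
    funext ν
    rw [kx_pA, kk_pA]
    have e : sin (ν / 2) * cos (ν / 2 - γ) - cos (ν / 2) * sin (ν / 2 - γ) = sin γ := by
      have := sin_sub (ν / 2) (ν / 2 - γ)
      rw [← this]
      congr 1
      ring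
    linear_combination (-(Tf (chX γ ν) t)) * e
  have h3 : sin γ * ((F (pA γ t)).1 - (F 0).1) = sin γ * (-∫ ν, Tf (chX γ ν) t ∂M) := by
    rw [h1, hK]
    linarith
  exact mul_left_cancel₀ hγ.ne' h3

/-- weight -/
noncomputable def wA (γ ν : ℝ) : ℝ := max (-(cos (ν / 2) * sin (ν / 2 - γ))) 0

theorem wA_nonneg (γ ν : ℝ) : 0 ≤ wA γ ν := le_max_right _ _

theorem wA_le_one (γ ν : ℝ) : wA γ ν ≤ 1 := by
  apply max_le _ zero_le_one
  have : |cos (ν / 2) * sin (ν / 2 - γ)| ≤ 1 := by
    rw [abs_mul]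
    exact mul_le_one₀ (abs_cos_le_one _) (abs_nonneg _) (abs_sin_le_one _)
  linarith [(abs_le.1 this).1]

theorem measurable_wA (γ : ℝ) : Measurable (wA γ) := by
  unfold wA
  fun_prop

theorem kk_ge (hs : 0 < sin γ) {ν : ℝ} (hν : ν ∈ Icc (-π) π) (t : ℝ) (hcg : 0 < cos γ) :
    wA γ ν * Tf (chX γ ν) t - cos γ / sin γ ≤ kk γ ν (pA γ t) := by
  rw [kk_pA]
  have hcot : 0 < cos γ / sin γ := div_pos hcg hs
  rcases le_or_gt (cos (ν / 2) * sin (ν / 2 - γ)) 0 with h | h
  · unfold wA
    rw [max_eq_left (by linarith)]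
    linarith
  · unfold wA
    rw [max_eq_right (by linarith), zero_mul, zero_sub]
    have hc := cos_nonneg' hν
    have hc' : 0 < cos (ν / 2) := by
      rcases hc.lt_or_eq with h1 | h1
      · exact h1
      · rw [← h1] at h; simp at h
    have hD : 0 < sin (ν / 2 - γ) := by
      by_contra hcon
      rw [not_lt] at hcon
      nlinarith
    have hle := tan_le (γ := γ) hν
    have hd : 0 < cos (ν / 2 - γ) := by
      have : 0 < sin (ν / 2 - γ) * sin γ := mul_pos hD hs
      by_contra hcon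
      rw [not_lt] at hcon
      nlinarith
    have hξ : 0 < chX γ ν := mul_pos hc' hd
    have h1 := Tf_le_inv hξ t
    have h2 : cos (ν / 2) * sin (ν / 2 - γ) * Tf (chX γ ν) t ≤ cos γ / sin γ := by
      calc cos (ν / 2) * sin (ν / 2 - γ) * Tf (chX γ ν) t
          ≤ cos (ν / 2) * sin (ν / 2 - γ) * (1 / chX γ ν) := mul_le_mul_of_nonneg_left h1 h.le
        _ = sin (ν / 2 - γ) / cos (ν / 2 - γ) := by
            unfold chX
            field_simp
        _ ≤ cos γ / sin γ := by
            rw [div_le_div_iff₀ hd hs]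
            linarith
    linarith

theorem integrable_wT [IsFiniteMeasure M] (γ : ℝ) {t : ℝ} (ht : 0 ≤ t) :
    Integrable (fun ν => wA γ ν * Tf (chX γ ν) t) M := by
  refine Integrable.of_bound (((measurable_wA γ).mul
    ((measurable_Tf t).comp (measurable_chX γ))).aestronglyMeasurable)
    (t * Real.exp t) (Eventually.of_forall fun ν => ?_)
  have h3 := Tf_nonneg (chX γ ν) ht
  have h4 := Tf_le (chX_abs_le γ ν) ht
  rw [Real.norm_of_nonneg (mul_nonneg (wA_nonneg γ ν) h3)]
  calc wA γ ν * Tf (chX γ ν) t ≤ 1 * Tf (chX γ ν) t :=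
        mul_le_mul_of_nonneg_right (wA_le_one γ ν) h3
    _ ≤ _ := by rw [one_mul]; exact h4

theorem caseA (hγ : 0 < γ) (hγ' : γ < π / 2) (hF : TypeI γ b M F)
    (h1 : ∫⁻ ν, (ENNReal.ofReal (chX γ ν))⁻¹ ∂M = ⊤)
    (h2 : ∫⁻ ν, ENNReal.ofReal (wA γ ν) * (ENNReal.ofReal (chX γ ν))⁻¹ ∂M = ⊤) (N : ℝ) :
    ∃ q, (F q).1 < -N ∧ N < (F q).2 := by
  have := hF.fin
  have hs : 0 < sin γ := sin_pos_of_pos_of_lt_pi hγ (by linarith [pi_pos])
  have hc : 0 < cos γ := cos_pos_of_mem_Ioo ⟨by linarith [pi_pos], hγ'⟩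
  have a1 := mono_conv (w := fun _ => 1) (M := M) measurable_const (fun _ => zero_le_one)
    (fun _ => le_rfl) (measurable_chX γ) (chX_abs_le γ) (by simpa using h1) (N + (F 0).1)
  have a2 := mono_conv (M := M) (measurable_wA γ) (wA_nonneg γ) (wA_le_one γ)
    (measurable_chX γ) (chX_abs_le γ) h2 (1 - b + M.real univ * (cos γ / sin γ))
  have hKge : ∀ t : ℝ, 0 ≤ t → b - M.real univ * (cos γ / sin γ) +
      ∫ ν, wA γ ν * Tf (chX γ ν) t ∂M ≤ K1 γ b M (pA γ t) := by
    intro t ht
    obtain ⟨_, i2, _, _⟩ := integrable_kernels (γ := γ) hF.supp (pA γ t)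
    have hK : K1 γ b M (pA γ t) = b + ∫ ν, kk γ ν (pA γ t) ∂M := by
      unfold K1
      rw [ta_pA]
      simp
    rw [hK]
    have h3 : ∫ ν, (wA γ ν * Tf (chX γ ν) t - cos γ / sin γ) ∂M ≤ ∫ ν, kk γ ν (pA γ t) ∂M := by
      apply integral_mono_ae ((integrable_wT γ ht).sub (integrable_const _)) i2
      filter_upwards [ae_supp hF] with ν hν using kk_ge hs hν t hc
    rw [integral_sub (integrable_wT γ ht) (integrable_const _), integral_const, smul_eq_mul] at h3
    linarith
  obtain ⟨n0, hn0⟩ := a2.exists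
  have hK1 : ∀ t : ℝ, (n0 : ℝ) ≤ t → 1 ≤ K1 γ b M (pA γ t) := by
    intro t ht
    have ht0 : 0 ≤ t := (Nat.cast_nonneg n0).trans ht
    have h3 := hKge t ht0
    have h4 : ∫ ν, wA γ ν * Tf (chX γ ν) n0 ∂M ≤ ∫ ν, wA γ ν * Tf (chX γ ν) t ∂M :=
      integral_mono (integrable_wT γ (Nat.cast_nonneg n0)) (integrable_wT γ ht0) fun ν =>
        mul_le_mul_of_nonneg_left (Tf_mono _ ht) (wA_nonneg γ ν)
    linarith
  have hY : Tendsto (fun t : ℝ => (F (pA γ t)).2) atTop atTop := by
    refine growth (κ := 1) one_pos (f' := fun t => Real.exp (-(pA γ t).1) *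
      (W1 M (pA γ t) * ta γ ((-cos γ, -sin γ) : P) -
        K1 γ b M (pA γ t) * sg γ ((-cos γ, -sin γ) : P))) (fun t => path_deriv hF 0 _ t) ?_
    filter_upwards [eventually_ge_atTop (n0 : ℝ)] with t ht
    have ht0 : 0 ≤ t := (Nat.cast_nonneg n0).trans ht
    have e1 : ta γ ((-cos γ, -sin γ) : P) = 0 := by unfold ta; ring
    have e2 : sg γ ((-cos γ, -sin γ) : P) = -1 := by
      unfold sg
      have := sq_one γ
      linear_combination (-1) * this
    rw [e1, e2, pA_fst]
    have h3 : 1 ≤ Real.exp (-(-(t * cos γ))) := Real.one_le_exp (by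
      rw [neg_neg]; positivity)
    have h4 := hK1 t ht
    nlinarith
  have hY' := (hY.comp tendsto_natCast_atTop_atTop).eventually_gt_atTop N
  obtain ⟨n, hn1, hn2⟩ := (a1.and hY').exists
  refine ⟨pA γ n, ?_, hn2⟩
  have h3 := X_pA hs hF n
  simp only [one_mul] at hn1
  linarith

end caseA

/-! ### the hypothesis of case A -/

theorem split_top {M : Measure ℝ} [IsFiniteMeasure M] {f : ℝ → ℝ≥0∞} {S : Set ℝ}
    (hS : MeasurableSet S) {C : ℝ≥0∞} (hC : C ≠ ⊤) (hf : ∀ ν ∉ S, f ν ≤ C)
    (h : ∫⁻ ν, f ν ∂M = ⊤) : ∫⁻ ν in S, f ν ∂M = ⊤ := by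
  rw [← lintegral_add_compl f hS] at h
  rcases ENNReal.add_eq_top.1 h with h1 | h1
  · exact h1
  · exfalso
    have h2 : ∫⁻ ν in Sᶜ, f ν ∂M ≤ ∫⁻ ν in Sᶜ, C ∂M :=
      setLIntegral_mono' hS.compl fun ν hν => hf ν hν
    rw [h1, lintegral_const] at h2
    exact absurd (top_le_iff.1 h2) (ENNReal.mul_ne_top hC (measure_ne_top _ _))

theorem wA_top {γ b : ℝ} {M : Measure ℝ} {F : P → P} (hγ : 0 < γ) (hγ' : γ < π / 2)
    (hF : TypeI γ b M F) (h : ∫⁻ ν, (ENNReal.ofReal |cos (ν / 2 - γ)|)⁻¹ ∂M = ⊤ ∨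
      M {ν | chX γ ν < 0} ≠ 0) :
    ∫⁻ ν, ENNReal.ofReal (wA γ ν) * (ENNReal.ofReal (chX γ ν))⁻¹ ∂M = ⊤ := by
  have := hF.fin
  have hs : 0 < sin γ := sin_pos_of_pos_of_lt_pi hγ (by linarith [pi_pos])
  have hcg : 0 < cos γ := cos_pos_of_mem_Ioo ⟨by linarith [pi_pos], hγ'⟩
  rcases h with h | h
  · -- near the cut
    set S : Set ℝ := {ν | |cos (ν / 2 - γ)| < sin γ / 2} with hS
    have hSm : MeasurableSet S := measurableSet_lt (by fun_prop) measurable_const
    have h1 := split_top (M := M) hSm (C := (ENNReal.ofReal (sin γ / 2))⁻¹)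
      (by
        rw [← ENNReal.ofReal_inv_of_pos (by positivity)]
        exact ENNReal.ofReal_ne_top) (by
        intro ν hν
        rw [hS, mem_ofPred_eq, not_lt] at hν
        exact ENNReal.inv_le_inv.2 (ENNReal.ofReal_le_ofReal hν)) h
    have h2 : ∫⁻ ν in S, ENNReal.ofReal (1 / 2) * (ENNReal.ofReal |cos (ν / 2 - γ)|)⁻¹ ∂M ≤
        ∫⁻ ν in S, ENNReal.ofReal (wA γ ν) * (ENNReal.ofReal (chX γ ν))⁻¹ ∂M := by
      apply lintegral_mono_ae
      have h3 : ∀ᵐ ν ∂(M.restrict S), ν ∈ Icc (-π) π := ae_restrict_of_ae (ae_supp hF)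
      filter_upwards [h3, ae_restrict_mem hSm] with ν hν hνS
      have hνS' : |cos (ν / 2 - γ)| < sin γ / 2 := hνS
      have hc := cos_nonneg' hν
      have hsγ1 : sin γ ≤ 1 := sin_le_one γ
      have hle := tan_le (γ := γ) hν
      have hpy := sq_one (ν / 2 - γ)
      have hd := abs_lt.1 hνS'
      -- `D < 0`
      have hD : sin (ν / 2 - γ) < 0 := by
        by_contra hcon
        rw [not_lt] at hcon
        have h4 : sin (ν / 2 - γ) * sin γ ≤ (sin γ / 2) * 1 := by
          refine hle.trans (mul_le_mul hd.2.le (cos_le_one γ) hcg.le (by positivity))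
        have h5 : sin (ν / 2 - γ) ≤ 1 / 2 := by
          by_contra h6
          rw [not_le] at h6
          nlinarith
        nlinarith
      have hD2 : sin (ν / 2 - γ) ≤ -(1 / 2) := by
        by_contra h6
        rw [not_le] at h6
        nlinarith
      have hcpos : 0 < cos (ν / 2) := by
        rcases hc.lt_or_eq with h1 | h1
        · exact h1
        · exfalso
          have e1 := cd_eq γ ν
          rw [← h1, zero_mul, zero_add] at e1
          have e2 := sq_one (ν / 2)
          rw [← h1] at e2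
          have e3 : cos (ν / 2 - γ) ^ 2 = sin γ ^ 2 := by
            rw [e1]
            have : sin (ν / 2) ^ 2 = 1 := by linarith
            linear_combination (sin γ ^ 2) * this
          have e4 : cos (ν / 2 - γ) ^ 2 < sin γ ^ 2 := by nlinarith
          linarith
      have hw : wA γ ν = -(cos (ν / 2) * sin (ν / 2 - γ)) := by
        unfold wA
        exact max_eq_left (by nlinarith)
      have hwpos : 0 < wA γ ν := by rw [hw]; nlinarith
      rcases le_or_gt (cos (ν / 2 - γ)) 0 with h6 | h6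
      · have h7 : chX γ ν ≤ 0 := by unfold chX; nlinarith
        rw [ENNReal.ofReal_of_nonpos h7, ENNReal.inv_zero, ENNReal.mul_top]
        · exact le_top
        · exact (ENNReal.ofReal_pos.2 hwpos).ne'
      · have hξ : 0 < chX γ ν := mul_pos hcpos h6
        rw [abs_of_pos h6, ← ENNReal.ofReal_inv_of_pos h6, ← ENNReal.ofReal_inv_of_pos hξ,
          ← ENNReal.ofReal_mul (by norm_num), ← ENNReal.ofReal_mul hwpos.le]
        apply ENNReal.ofReal_le_ofReal
        rw [hw]
        unfold chX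
        rw [mul_inv]
        have e : -(cos (ν / 2) * sin (ν / 2 - γ)) * ((cos (ν / 2))⁻¹ * (cos (ν / 2 - γ))⁻¹) =
            -sin (ν / 2 - γ) * (cos (ν / 2 - γ))⁻¹ := by
          field_simp
        rw [e]
        apply mul_le_mul_of_nonneg_right _ (by positivity)
        linarith
    rw [lintegral_const_mul' _ _ ENNReal.ofReal_ne_top, h1, ENNReal.mul_top
      (ENNReal.ofReal_pos.2 (by norm_num)).ne'] at h2
    have h3 := top_le_iff.1 h2
    exact top_le_iff.1 (h3 ▸ setLIntegral_le_lintegral S _)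
  · -- charges with `ξ < 0`
    set S : Set ℝ := {ν | chX γ ν < 0} with hS
    have hSm : MeasurableSet S := measurableSet_lt (measurable_chX γ) measurable_const
    have h2 : ∫⁻ ν in S, (⊤ : ℝ≥0∞) ∂M ≤
        ∫⁻ ν in S, ENNReal.ofReal (wA γ ν) * (ENNReal.ofReal (chX γ ν))⁻¹ ∂M := by
      apply lintegral_mono_ae
      have h3 : ∀ᵐ ν ∂(M.restrict S), ν ∈ Icc (-π) π := ae_restrict_of_ae (ae_supp hF)
      filter_upwards [h3, ae_restrict_mem hSm] with ν hν hνS
      have hνS' : chX γ ν < 0 := hνS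
      have hc := cos_nonneg' hν
      have hcpos : 0 < cos (ν / 2) := by
        rcases hc.lt_or_eq with h1 | h1
        · exact h1
        · exfalso
          unfold chX at hνS'
          rw [← h1] at hνS'
          simp at hνS'
      have hd : cos (ν / 2 - γ) < 0 := by
        by_contra hcon
        rw [not_lt] at hcon
        unfold chX at hνS'
        nlinarith
      have hsn : sin (ν / 2) < 0 := by
        by_contra hcon
        rw [not_lt] at hcon
        rw [cd_eq] at hd
        nlinarith [mul_nonneg hc hcg.le, mul_nonneg hcon hs.le]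
      have hD : sin (ν / 2 - γ) < 0 := by
        rw [sd_eq]
        nlinarith [mul_pos hcpos hs, mul_pos (neg_pos.2 hsn) hcg]
      have hwpos : 0 < wA γ ν := by
        unfold wA
        apply lt_of_lt_of_le _ (le_max_left _ _)
        nlinarith
      rw [ENNReal.ofReal_of_nonpos hνS'.le, ENNReal.inv_zero, ENNReal.mul_top]
      exact (ENNReal.ofReal_pos.2 hwpos).ne'
    rw [lintegral_const, Measure.restrict_apply_univ, ENNReal.top_mul h] at h2
    have h3 := top_le_iff.1 h2
    exact top_le_iff.1 (h3 ▸ setLIntegral_le_lintegral S _)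

/-! ### case A2: `∫ 1/ξ < ∞`, `b' > 0` -/

theorem EE_eq (ν : ℝ) (q : P) :
    EE ν q = Real.exp (cos (ν / 2) * (q.1 * cos (ν / 2) + q.2 * sin (ν / 2))) := by
  unfold EE
  congr 1
  have h1 : cos ν = 2 * cos (ν / 2) ^ 2 - 1 := by
    have := cos_two_mul (ν / 2)
    rwa [mul_div_cancel₀ ν (two_ne_zero)] at this
  have h2 : sin ν = 2 * sin (ν / 2) * cos (ν / 2) := by
    have := sin_two_mul (ν / 2)
    rwa [mul_div_cancel₀ ν (two_ne_zero)] at this
  rw [h1, h2]
  ring

theorem continuous_EE (q : P) : Continuous fun ν => EE ν q := by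
  unfold EE
  fun_prop

section caseA2

variable {γ b : ℝ} {M : Measure ℝ} {F : P → P}

/-- the path `τ = -L`, `σ = -t` -/
noncomputable def pB (γ L t : ℝ) : P :=
  ((L * sin γ, -(L * cos γ)) : P) + t • ((-cos γ, -sin γ) : P)

theorem pB_fst (γ L t : ℝ) : (pB γ L t).1 = L * sin γ - t * cos γ := by
  simp [pB]; ring

theorem pB_snd (γ L t : ℝ) : (pB γ L t).2 = -(L * cos γ) - t * sin γ := by
  simp [pB]; ring

theorem ta_pB (γ L t : ℝ) : ta γ (pB γ L t) = -L := by
  unfold ta
  rw [pB_fst, pB_snd]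
  have := sq_one γ
  linear_combination (-L) * this

theorem EE_pB (γ L t ν : ℝ) : EE ν (pB γ L t) =
    Real.exp (-(chX γ ν * t)) * Real.exp (-(L * (cos (ν / 2) * sin (ν / 2 - γ)))) := by
  rw [EE_eq, pB_fst, pB_snd, ← Real.exp_add]
  congr 1
  unfold chX
  rw [cd_eq, sd_eq]
  ring

theorem I0_ne_top (h : ∫⁻ ν, (ENNReal.ofReal (chX γ ν))⁻¹ ∂M ≠ ⊤) (hF : TypeI γ b M F) :
    ∫⁻ ν, (ENNReal.ofReal |cos (ν / 2 - γ)|)⁻¹ ∂M ≠ ⊤ := by
  refine ne_top_of_le_ne_top h (lintegral_mono_ae ?_)
  filter_upwards [ae_supp hF] with ν hν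
  apply ENNReal.inv_le_inv.2
  apply ENNReal.ofReal_le_ofReal
  unfold chX
  have h1 := cos_nonneg' hν
  have h2 := cos_le_one (ν / 2)
  have h3 := le_abs_self (cos (ν / 2 - γ))
  have h4 := abs_nonneg (cos (ν / 2 - γ))
  nlinarith

theorem caseA2 (hγ : 0 < γ) (hγ' : γ < π / 2) (hF : TypeI γ b M F)
    (h1 : ∫⁻ ν, (ENNReal.ofReal (chX γ ν))⁻¹ ∂M ≠ ⊤) (h2 : 0 < bp γ b M) (N : ℝ) :
    ∃ q, (F q).1 < -N ∧ N < (F q).2 := by
  have := hF.fin
  have hs : 0 < sin γ := sin_pos_of_pos_of_lt_pi hγ (by linarith [pi_pos])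
  have hc : 0 < cos γ := cos_pos_of_mem_Ioo ⟨by linarith [pi_pos], hγ'⟩
  have hI0 := I0_ne_top h1 hF
  have hmeas : Measurable fun ν => (ENNReal.ofReal (chX γ ν))⁻¹ :=
    (ENNReal.measurable_ofReal.comp (measurable_chX γ)).inv
  have hpos : ∀ᵐ ν ∂M, 0 < chX γ ν := by
    filter_upwards [ae_lt_top hmeas h1] with ν hν
    by_contra hcon
    rw [not_lt] at hcon
    rw [ENNReal.ofReal_of_nonpos hcon, ENNReal.inv_zero] at hν
    exact lt_irrefl _ hν
  have hinv : Integrable (fun ν => (chX γ ν)⁻¹) M := by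
    refine (integrable_toReal_of_lintegral_ne_top hmeas.aemeasurable h1).congr ?_
    filter_upwards [hpos] with ν hν
    rw [ENNReal.toReal_inv, ENNReal.toReal_ofReal hν.le]
  -- choose `L`
  obtain ⟨L, hL0, hL⟩ : ∃ L : ℝ, 0 ≤ L ∧ N + (F 0).1 + 2 ≤ bp γ b M * L := by
    refine ⟨max 0 ((N + (F 0).1 + 2) / bp γ b M), le_max_left _ _, ?_⟩
    have h3 := le_max_right 0 ((N + (F 0).1 + 2) / bp γ b M)
    have h4 := mul_le_mul_of_nonneg_left h3 h2.le
    rwa [mul_div_cancel₀ _ h2.ne'] at h4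
  have hexpL : ∀ ν, Real.exp (-(L * (cos (ν / 2) * sin (ν / 2 - γ)))) ≤ Real.exp L := by
    intro ν
    apply Real.exp_le_exp.2
    have h3 : |cos (ν / 2) * sin (ν / 2 - γ)| ≤ 1 := by
      rw [abs_mul]
      exact mul_le_one₀ (abs_cos_le_one _) (abs_nonneg _) (abs_sin_le_one _)
    nlinarith [(abs_le.1 h3).1]
  have hEbd : ∀ᵐ ν ∂M, ∀ t : ℝ, 0 ≤ t → EE ν (pB γ L t) ≤ Real.exp L := by
    filter_upwards [hpos] with ν hν t ht
    rw [EE_pB]
    calc Real.exp (-(chX γ ν * t)) * Real.exp (-(L * (cos (ν / 2) * sin (ν / 2 - γ))))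
        ≤ 1 * Real.exp L := by
          apply mul_le_mul _ (hexpL ν) (Real.exp_pos _).le zero_le_one
          rw [Real.exp_le_one_iff]
          nlinarith
      _ = Real.exp L := one_mul _
  have hElim : ∀ᵐ ν ∂M, Tendsto (fun t : ℝ => EE ν (pB γ L t)) atTop (𝓝 0) := by
    filter_upwards [hpos] with ν hν
    have h3 : Tendsto (fun t : ℝ => Real.exp (-(chX γ ν * t))) atTop (𝓝 0) :=
      Real.tendsto_exp_neg_atTop_nhds_zero.comp (tendsto_id.const_mul_atTop hν)
    have h4 := h3.mul_const (Real.exp (-(L * (cos (ν / 2) * sin (ν / 2 - γ)))))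
    rw [zero_mul] at h4
    refine h4.congr fun t => ?_
    rw [EE_pB]
  have hEpos : ∀ ν (q : P), 0 < EE ν q := fun ν q => Real.exp_pos _
  obtain ⟨htan, _, _, _, _, _⟩ := typeI_finite hF hI0 0
  -- `K`
  have hK : Tendsto (fun t : ℝ => ∫ ν, tan (ν / 2 - γ) * EE ν (pB γ L t) ∂M) atTop (𝓝 0) := by
    have h3 : Tendsto (fun t : ℝ => ∫ ν, tan (ν / 2 - γ) * EE ν (pB γ L t) ∂M) atTop
        (𝓝 (∫ _, (0 : ℝ) ∂M)) := by
      apply tendsto_integral_filter_of_dominated_convergence
        (fun ν => |tan (ν / 2 - γ)| * Real.exp L)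
      · exact Eventually.of_forall fun t => htan.aestronglyMeasurable.mul
          (continuous_EE _).aestronglyMeasurable
      · filter_upwards [eventually_ge_atTop 0] with t ht
        filter_upwards [hEbd] with ν hν
        rw [norm_mul, Real.norm_eq_abs, Real.norm_of_nonneg (hEpos _ _).le]
        exact mul_le_mul_of_nonneg_left (hν t ht) (abs_nonneg _)
      · exact htan.abs.mul_const _
      · filter_upwards [hElim] with ν hν
        have := hν.const_mul (tan (ν / 2 - γ))
        rwa [mul_zero] at this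
    simpa using h3
  have hKK : ∀ᶠ t : ℝ in atTop, bp γ b M / 2 ≤ K1 γ b M (pB γ L t) := by
    have h3 := hK.eventually (lt_mem_nhds (show -(bp γ b M / 2) < 0 by linarith))
    filter_upwards [h3] with t ht
    obtain ⟨_, _, _, _, _, hKf⟩ := typeI_finite hF hI0 (pB γ L t)
    rw [hKf, ta_pB]
    have h4 : 1 ≤ Real.exp (-(-L * sin γ)) := Real.one_le_exp (by nlinarith)
    nlinarith
  have hY : Tendsto (fun t : ℝ => (F (pB γ L t)).2) atTop atTop := by
    refine growth (κ := Real.exp (-(L * sin γ)) * (bp γ b M / 2)) (by positivity)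
      (f' := fun t => Real.exp (-(pB γ L t).1) *
      (W1 M (pB γ L t) * ta γ ((-cos γ, -sin γ) : P) -
        K1 γ b M (pB γ L t) * sg γ ((-cos γ, -sin γ) : P))) (fun t => path_deriv hF _ _ t) ?_
    filter_upwards [hKK, eventually_ge_atTop (0 : ℝ)] with t ht ht0
    have e1 : ta γ ((-cos γ, -sin γ) : P) = 0 := by unfold ta; ring
    have e2 : sg γ ((-cos γ, -sin γ) : P) = -1 := by
      unfold sg
      have := sq_one γ
      linear_combination (-1) * this
    rw [e1, e2, pB_fst]
    have h3 : Real.exp (-(L * sin γ)) ≤ Real.exp (-(L * sin γ - t * cos γ)) := by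
      apply Real.exp_le_exp.2
      nlinarith
    have e3 : W1 M (pB γ L t) * 0 - K1 γ b M (pB γ L t) * -1 = K1 γ b M (pB γ L t) := by ring
    rw [e3]
    exact mul_le_mul h3 ht (by positivity) (Real.exp_pos _).le
  -- `X`
  have hX : Tendsto (fun t : ℝ => ∫ ν, EE ν (pB γ L t) * (chX γ ν)⁻¹ ∂M) atTop (𝓝 0) := by
    have h3 : Tendsto (fun t : ℝ => ∫ ν, EE ν (pB γ L t) * (chX γ ν)⁻¹ ∂M) atTop
        (𝓝 (∫ _, (0 : ℝ) ∂M)) := by
      apply tendsto_integral_filter_of_dominated_convergence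
        (fun ν => Real.exp L * |(chX γ ν)⁻¹|)
      · exact Eventually.of_forall fun t => (continuous_EE _).aestronglyMeasurable.mul
          hinv.aestronglyMeasurable
      · filter_upwards [eventually_ge_atTop 0] with t ht
        filter_upwards [hEbd] with ν hν
        rw [norm_mul, Real.norm_eq_abs ((chX γ ν)⁻¹), Real.norm_of_nonneg (hEpos _ _).le]
        exact mul_le_mul_of_nonneg_right (hν t ht) (abs_nonneg _)
      · exact hinv.abs.const_mul _
      · filter_upwards [hElim] with ν hν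
        have := hν.mul_const ((chX γ ν)⁻¹)
        rwa [zero_mul] at this
    simpa using h3
  have hXX : ∀ᶠ t : ℝ in atTop, (F (pB γ L t)).1 < -N := by
    have h3 := hX.eventually (gt_mem_nhds (show (0 : ℝ) < 1 by norm_num))
    filter_upwards [h3, eventually_ge_atTop (0 : ℝ)] with t ht ht0
    obtain ⟨_, hi, _, hXf, _, _⟩ := typeI_finite hF hI0 (pB γ L t)
    rw [ta_pB] at hXf
    have hiE : Integrable (fun ν => EE ν (pB γ L t) * (chX γ ν)⁻¹) M := by
      refine hinv.bdd_mul (c := Real.exp L) (continuous_EE _).aestronglyMeasurable ?_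
      filter_upwards [hEbd] with ν hν
      rw [Real.norm_of_nonneg (hEpos _ _).le]
      exact hν t ht0
    have h4 : ∫ ν, kx (ν / 2) (pB γ L t) / cos (ν / 2 - γ) ∂M ≤
        ∫ ν, EE ν (pB γ L t) * (chX γ ν)⁻¹ ∂M := by
      apply integral_mono_ae hi hiE
      filter_upwards [hpos] with ν hν
      have h5 := cos_mul_kx (ν / 2) (pB γ L t)
      rw [← EE_eq] at h5
      have hc0 : cos (ν / 2) ≠ 0 := by
        intro h; unfold chX at hν; rw [h] at hν; simp at hν
      have hd0 : cos (ν / 2 - γ) ≠ 0 := by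
        intro h; unfold chX at hν; rw [h] at hν; simp at hν
      have h6 : kx (ν / 2) (pB γ L t) / cos (ν / 2 - γ) = (EE ν (pB γ L t) - 1) * (chX γ ν)⁻¹ := by
        rw [← h5]
        unfold chX
        field_simp
      rw [h6]
      apply mul_le_mul_of_nonneg_right _ (inv_nonneg.2 hν.le)
      linarith
    have h5 : gt (sin γ) (-L) ≤ -L := by
      unfold gt
      rw [intervalIntegral.integral_symm]
      have h6 : ∫ _ in (-L)..0, (1 : ℝ) ≤ ∫ t in (-L)..0, Real.exp (-(t * sin γ)) := by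
        apply intervalIntegral.integral_mono_on (by linarith)
        · exact intervalIntegrable_const
        · exact (by fun_prop : Continuous fun t : ℝ =>
            Real.exp (-(t * sin γ))).intervalIntegrable _ _
        · intro t ht
          apply Real.one_le_exp
          nlinarith [ht.2]
      simp only [intervalIntegral.integral_const, smul_eq_mul, mul_one] at h6
      linarith
    have h6 := mul_le_mul_of_nonneg_left h5 h2.le
    linarith
  obtain ⟨t, ht1, ht2⟩ := (hXX.and (hY.eventually_gt_atTop N)).exists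
  exact ⟨pB γ L t, ht1, ht2⟩

end caseA2

/-! ### case B: the path `q₂ = -L`, `q₁ → -∞` -/

section caseB

variable {γ b : ℝ} {M : Measure ℝ} {F : P → P}

/-- the path `q₁ = -r`, `q₂ = -L` -/
noncomputable def pC (L r : ℝ) : P := ((0, -L) : P) + r • ((-1, 0) : P)

theorem pC_fst (L r : ℝ) : (pC L r).1 = -r := by simp [pC]

theorem pC_snd (L r : ℝ) : (pC L r).2 = -L := by simp [pC]

theorem ta_pC (γ L r : ℝ) : ta γ (pC L r) = r * sin γ - L * cos γ := by
  unfold ta
  rw [pC_fst, pC_snd]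
  ring

theorem EE_pC (L r ν : ℝ) : EE ν (pC L r) =
    Real.exp (-(cos (ν / 2) ^ 2 * r)) * Real.exp (-(L * (cos (ν / 2) * sin (ν / 2)))) := by
  rw [EE_eq, pC_fst, pC_snd, ← Real.exp_add]
  congr 1
  ring

theorem kx_pC (L r ν : ℝ) :
    kx (ν / 2) (pC L r) = -Tf (cos (ν / 2)) (r * cos (ν / 2) + L * sin (ν / 2)) := by
  unfold kx
  rw [pC_fst, pC_snd, ← Tf_eq]
  have e : -r * cos (ν / 2) + -L * sin (ν / 2) = -(r * cos (ν / 2) + L * sin (ν / 2)) := by ring
  rw [e]
  have : ∀ x : ℝ, x * (cos (ν / 2) * -(r * cos (ν / 2) + L * sin (ν / 2))) =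
      x * -(cos (ν / 2) * (r * cos (ν / 2) + L * sin (ν / 2))) := by
    intro x; ring
  simp only [this]
  ring

/-- weight -/
noncomputable def wB (ν : ℝ) : ℝ := max (sin (ν / 2) * cos (ν / 2)) 0

theorem wB_nonneg (ν : ℝ) : 0 ≤ wB ν := le_max_right _ _

theorem wB_le_one (ν : ℝ) : wB ν ≤ 1 := by
  apply max_le _ zero_le_one
  have : |sin (ν / 2) * cos (ν / 2)| ≤ 1 := by
    rw [abs_mul]
    exact mul_le_one₀ (abs_sin_le_one _) (abs_nonneg _) (abs_cos_le_one _)
  exact (abs_le.1 this).2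

theorem measurable_wB : Measurable wB := by
  unfold wB
  fun_prop

open Classical in
/-- indicator of `cos φ = 0` -/
noncomputable def iz (ν : ℝ) : ℝ := if cos (ν / 2) = 0 then 1 else 0

theorem measurable_iz : Measurable iz := by
  unfold iz
  refine Measurable.ite ?_ measurable_const measurable_const
  exact measurableSet_eq_fun (by fun_prop) measurable_const

theorem iz_nonneg (ν : ℝ) : 0 ≤ iz ν := by
  unfold iz
  split_ifs <;> norm_num

theorem iz_le_one (ν : ℝ) : iz ν ≤ 1 := by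
  unfold iz
  split_ifs <;> norm_num

/-- upper bound of `s kx` -/
theorem skx_le (hs : 0 < sin γ) {ν : ℝ} (hν : ν ∈ Icc (-π) π) (h0 : 0 ≤ chX γ ν)
    (hd0 : cos (ν / 2 - γ) ≠ 0) {L r : ℝ} (hL : 0 ≤ L) (hr0 : 0 ≤ r) (hr : L ≤ r * sin γ) :
    sin (ν / 2) * kx (ν / 2) (pC L r) ≤
      1 / sin γ - iz ν * L - wB ν * Tf (cos (ν / 2) ^ 2) r := by
  rw [kx_pC]
  have hc := cos_nonneg' hν
  have hinv : 0 < 1 / sin γ := by positivity
  rcases hc.eq_or_lt with h | h
  · have e1 : iz ν = 1 := by unfold iz; rw [if_pos h.symm]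
    have e2 : wB ν = 0 := by unfold wB; rw [← h]; simp
    have e3 := sq_one (ν / 2)
    rw [← h] at e3
    rw [e1, e2, ← h]
    unfold Tf
    simp only [if_true, mul_zero, zero_add, zero_mul]
    nlinarith
  · have e1 : iz ν = 0 := by unfold iz; rw [if_neg h.ne']
    rw [e1, zero_mul, sub_zero]
    have hd : 0 < cos (ν / 2 - γ) := by
      rcases lt_or_gt_of_ne hd0 with h1 | h1
      · exfalso
        unfold chX at h0
        nlinarith
      · exact h1
    rcases le_or_gt 0 (sin (ν / 2)) with h1 | h1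
    · have e2 : wB ν = sin (ν / 2) * cos (ν / 2) := by
        unfold wB; exact max_eq_left (mul_nonneg h1 hc)
      have e3 : Tf (cos (ν / 2)) (r * cos (ν / 2)) = cos (ν / 2) * Tf (cos (ν / 2) ^ 2) r := by
        have h3 := mul_Tf (cos (ν / 2)) (r * cos (ν / 2))
        have h4 := mul_Tf (cos (ν / 2) ^ 2) r
        have h5 : cos (ν / 2) * (r * cos (ν / 2)) = cos (ν / 2) ^ 2 * r := by ring
        rw [h5] at h3
        apply mul_left_cancel₀ h.ne'
        rw [h3, ← h4]
        ring
      have h2 : Tf (cos (ν / 2)) (r * cos (ν / 2)) ≤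
          Tf (cos (ν / 2)) (r * cos (ν / 2) + L * sin (ν / 2)) :=
        Tf_mono _ (by nlinarith)
      rw [e2]
      have h3 := mul_le_mul_of_nonneg_left h2 h1
      rw [e3] at h3
      linarith
    · have e2 : wB ν = 0 := by
        unfold wB; exact max_eq_right (by nlinarith)
      rw [e2, zero_mul, sub_zero]
      have hcs := cos_gt hs hc hd h1.le
      have hsn := neg_one_le_sin (ν / 2)
      have ht : 0 ≤ r * cos (ν / 2) + L * sin (ν / 2) := by nlinarith
      have h2 := Tf_nonneg (cos (ν / 2)) ht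
      have h3 := Tf_le_inv h (r * cos (ν / 2) + L * sin (ν / 2))
      have h4 : 1 / cos (ν / 2) ≤ 1 / sin γ := one_div_le_one_div_of_le hs hcs.le
      nlinarith

theorem caseB (hγ : 0 < γ) (hγ' : γ < π / 2) (hF : TypeI γ b M F)
    (h1 : ∫⁻ ν, (ENNReal.ofReal (chX γ ν))⁻¹ ∂M = ⊤)
    (h2 : M {ν | chX γ ν < 0} = 0)
    (hI0 : ∫⁻ ν, (ENNReal.ofReal |cos (ν / 2 - γ)|)⁻¹ ∂M ≠ ⊤) (N : ℝ) :
    ∃ q, (F q).1 < -N ∧ N < (F q).2 := by
  have := hF.fin
  have hs : 0 < sin γ := sin_pos_of_pos_of_lt_pi hγ (by linarith [pi_pos])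
  have hc : 0 < cos γ := cos_pos_of_mem_Ioo ⟨by linarith [pi_pos], hγ'⟩
  have hs1 := sin_le_one γ
  have hpy := sq_one γ
  have hmeas : Measurable fun ν => (ENNReal.ofReal |cos (ν / 2 - γ)|)⁻¹ :=
    (ENNReal.measurable_ofReal.comp (by fun_prop)).inv
  have hd0 : ∀ᵐ ν ∂M, cos (ν / 2 - γ) ≠ 0 := by
    filter_upwards [ae_lt_top hmeas hI0] with ν hν h
    rw [h, abs_zero, ENNReal.ofReal_zero, ENNReal.inv_zero] at hν
    exact lt_irrefl _ hν
  have hξ : ∀ᵐ ν ∂M, 0 ≤ chX γ ν := by
    filter_upwards [measure_eq_zero_iff_ae_notMem.1 h2] with ν hν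
    simpa using hν
  have hinv : Integrable (fun ν => |cos (ν / 2 - γ)|⁻¹) M := by
    refine (integrable_toReal_of_lintegral_ne_top hmeas.aemeasurable hI0).congr ?_
    filter_upwards with ν
    rw [ENNReal.toReal_inv, ENNReal.toReal_ofReal (abs_nonneg _)]
  -- a.e. structure
  have hstr : ∀ᵐ ν ∂M, ν ∈ Icc (-π) π ∧ 0 ≤ chX γ ν ∧ cos (ν / 2 - γ) ≠ 0 ∧
      0 ≤ cos (ν / 2) ∧ (0 < cos (ν / 2) → 0 < cos (ν / 2 - γ)) := by
    filter_upwards [ae_supp hF, hξ, hd0] with ν a1 a2 a3
    refine ⟨a1, a2, a3, cos_nonneg' a1, fun h => ?_⟩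
    rcases lt_or_gt_of_ne a3 with h1 | h1
    · exfalso
      unfold chX at a2
      nlinarith
    · exact h1
  -- the charges near `cos φ = 0`
  set S : Set ℝ := {ν | cos (ν / 2) < sin γ / 2} with hS
  have hSm : MeasurableSet S := measurableSet_lt (by fun_prop) measurable_const
  have hSc : ∫⁻ ν in Sᶜ, (ENNReal.ofReal (chX γ ν))⁻¹ ∂M ≠ ⊤ := by
    have h3 : ∫⁻ ν in Sᶜ, (ENNReal.ofReal (chX γ ν))⁻¹ ∂M ≤
        ∫⁻ ν in Sᶜ, (ENNReal.ofReal (sin γ / 2))⁻¹ * (ENNReal.ofReal |cos (ν / 2 - γ)|)⁻¹ ∂M := by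
      apply lintegral_mono_ae
      filter_upwards [ae_restrict_of_ae hstr, ae_restrict_mem hSm.compl] with ν hν hνS
      obtain ⟨a1, a2, a3, a4, a5⟩ := hν
      have hνS' : sin γ / 2 ≤ cos (ν / 2) := by
        rw [hS, mem_compl_iff, mem_ofPred_eq, not_lt] at hνS
        exact hνS
      have hcp : 0 < cos (ν / 2) := by linarith
      have hdp := a5 hcp
      have hX : 0 < chX γ ν := mul_pos hcp hdp
      rw [abs_of_pos hdp, ← ENNReal.ofReal_inv_of_pos hX, ← ENNReal.ofReal_inv_of_pos hdp,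
        ← ENNReal.ofReal_inv_of_pos (by positivity), ← ENNReal.ofReal_mul (by positivity)]
      apply ENNReal.ofReal_le_ofReal
      unfold chX
      rw [mul_inv]
      apply mul_le_mul_of_nonneg_right _ (by positivity)
      exact inv_anti₀ (by positivity) hνS'
    refine ne_top_of_le_ne_top ?_ h3
    rw [lintegral_const_mul' _ _ (by
      rw [← ENNReal.ofReal_inv_of_pos (by positivity)]; exact ENNReal.ofReal_ne_top)]
    refine ENNReal.mul_ne_top (by
      rw [← ENNReal.ofReal_inv_of_pos (by positivity)]; exact ENNReal.ofReal_ne_top) ?_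
    exact ne_top_of_le_ne_top hI0 (setLIntegral_le_lintegral _ _)
  have hStop : ∫⁻ ν in S, (ENNReal.ofReal (chX γ ν))⁻¹ ∂M = ⊤ := by
    rw [← lintegral_add_compl _ hSm] at h1
    rcases ENNReal.add_eq_top.1 h1 with h3 | h3
    · exact h3
    · exact absurd h3 hSc
  have hSpos : 0 < M.real S := by
    rw [Measure.real, ENNReal.toReal_pos_iff]
    refine ⟨?_, measure_lt_top _ _⟩
    rw [pos_iff_ne_zero]
    intro h3
    rw [Measure.restrict_eq_zero.2 h3, lintegral_zero_measure] at hStop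
    exact ENNReal.zero_ne_top hStop
  -- structure on `S`
  have hSs : ∀ ν, ν ∈ S → 0 ≤ cos (ν / 2) → (0 < cos (ν / 2) → 0 < cos (ν / 2 - γ)) →
      (cos (ν / 2) = 0 ∨ (0 < cos (ν / 2) ∧ 1 / 2 ≤ sin (ν / 2))) := by
    intro ν hν h3 h4
    rcases h3.eq_or_lt with h5 | h5
    · exact Or.inl h5.symm
    · right
      refine ⟨h5, ?_⟩
      have h6 : cos (ν / 2) < sin γ / 2 := hν
      have h7 : 0 < sin (ν / 2) := by
        by_contra hcon
        rw [not_lt] at hcon
        have := cos_gt hs h3 (h4 h5) hcon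
        linarith
      have h8 := sq_one (ν / 2)
      nlinarith
  obtain ⟨htan, _, _, _, _, _⟩ := typeI_finite hF hI0 0
  have hEpos : ∀ ν (q : P), 0 < EE ν q := fun ν q => Real.exp_pos _
  -- estimates that hold for every `L ≥ 0`
  have hEbd : ∀ L : ℝ, 0 ≤ L → ∀ ν, ∀ r : ℝ, 0 ≤ r → EE ν (pC L r) ≤ Real.exp L := by
    intro L hL ν r hr
    rw [EE_pC]
    have h3 : |cos (ν / 2) * sin (ν / 2)| ≤ 1 := by
      rw [abs_mul]
      exact mul_le_one₀ (abs_cos_le_one _) (abs_nonneg _) (abs_sin_le_one _)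
    calc Real.exp (-(cos (ν / 2) ^ 2 * r)) * Real.exp (-(L * (cos (ν / 2) * sin (ν / 2))))
        ≤ 1 * Real.exp L := by
          apply mul_le_mul _ _ (Real.exp_pos _).le zero_le_one
          · rw [Real.exp_le_one_iff]
            have : 0 ≤ cos (ν / 2) ^ 2 * r := by positivity
            linarith
          · apply Real.exp_le_exp.2
            nlinarith [(abs_le.1 h3).1]
      _ = Real.exp L := one_mul _
  have hElim : ∀ L ν : ℝ, Tendsto (fun r : ℝ => EE ν (pC L r)) atTop (𝓝 (iz ν)) := by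
    intro L ν
    by_cases h3 : cos (ν / 2) = 0
    · have e1 : iz ν = 1 := by unfold iz; rw [if_pos h3]
      rw [e1]
      refine tendsto_const_nhds.congr fun r => ?_
      rw [EE_pC, h3]
      simp
    · have e1 : iz ν = 0 := by unfold iz; rw [if_neg h3]
      rw [e1]
      have h4 : Tendsto (fun r : ℝ => Real.exp (-(cos (ν / 2) ^ 2 * r))) atTop (𝓝 0) :=
        Real.tendsto_exp_neg_atTop_nhds_zero.comp (tendsto_id.const_mul_atTop (by positivity))
      have h5 := h4.mul_const (Real.exp (-(L * (cos (ν / 2) * sin (ν / 2)))))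
      rw [zero_mul] at h5
      refine h5.congr fun t => ?_
      rw [EE_pC]
  have hK : ∀ L : ℝ, 0 ≤ L → ∀ᶠ r : ℝ in atTop, -1 ≤ K1 γ b M (pC L r) := by
    intro L hL
    have h3 : Tendsto (fun r : ℝ => ∫ ν, tan (ν / 2 - γ) * EE ν (pC L r) ∂M) atTop
        (𝓝 (∫ ν, tan (ν / 2 - γ) * iz ν ∂M)) := by
      apply tendsto_integral_filter_of_dominated_convergence
        (fun ν => |tan (ν / 2 - γ)| * Real.exp L)
      · exact Eventually.of_forall fun t => htan.aestronglyMeasurable.mul
          (continuous_EE _).aestronglyMeasurable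
      · filter_upwards [eventually_ge_atTop 0] with t ht
        filter_upwards with ν
        rw [norm_mul, Real.norm_eq_abs, Real.norm_of_nonneg (hEpos _ _).le]
        exact mul_le_mul_of_nonneg_left (hEbd L hL ν t ht) (abs_nonneg _)
      · exact htan.abs.mul_const _
      · filter_upwards with ν
        exact (hElim L ν).const_mul _
    have h4 : 0 ≤ ∫ ν, tan (ν / 2 - γ) * iz ν ∂M := by
      apply integral_nonneg_of_ae
      filter_upwards [hstr] with ν hν
      by_cases h5 : cos (ν / 2) = 0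
      · have e1 : iz ν = 1 := by unfold iz; rw [if_pos h5]
        rw [e1, Pi.zero_apply, mul_one, tan_eq_sin_div_cos, cd_eq, sd_eq, h5]
        simp only [zero_mul, zero_add, sub_zero]
        have h6 : sin (ν / 2) ≠ 0 := by
          intro h7
          have := sq_one (ν / 2)
          rw [h5, h7] at this
          norm_num at this
        rw [mul_div_mul_left _ _ h6]
        positivity
      · have e1 : iz ν = 0 := by unfold iz; rw [if_neg h5]
        rw [e1]
        simp
    have h5 : Tendsto (fun r : ℝ => bp γ b M * Real.exp (-((r * sin γ - L * cos γ) * sin γ)))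
        atTop (𝓝 0) := by
      have h6 : Tendsto (fun r : ℝ => (r * sin γ - L * cos γ) * sin γ) atTop atTop := by
        apply Tendsto.atTop_mul_const hs
        exact tendsto_atTop_add_const_right _ _ (tendsto_id.atTop_mul_const hs)
      have h7 := (Real.tendsto_exp_neg_atTop_nhds_zero.comp h6).const_mul (bp γ b M)
      rw [mul_zero] at h7
      exact h7
    have h6 := h5.add h3
    filter_upwards [h6.eventually (lt_mem_nhds (show -1 < 0 + ∫ ν, tan (ν / 2 - γ) * iz ν ∂M by
      linarith))] with r hr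
    obtain ⟨_, _, _, _, _, hKf⟩ := typeI_finite hF hI0 (pC L r)
    rw [hKf, ta_pC]
    linarith
  -- `Y`
  have hY : ∀ L : ℝ, 0 ≤ L → Tendsto (fun r : ℝ => (F (pC L r)).2) atTop atTop := by
    intro L hL
    set α : ℝ := 1 - sin γ ^ 2 / 4 with hα
    set β : ℝ := cos γ ^ 2 with hβ
    set I : ℝ := ∫ ν, |cos (ν / 2 - γ)|⁻¹ ∂M with hI
    set A0 : ℝ := M.real S * (1 / 2 * Real.exp (-L)) with hA0
    have hA0pos : 0 < A0 := by positivity
    have hαβ : β < α := by rw [hα, hβ]; nlinarith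
    have hlow : ∀ r : ℝ, 0 ≤ r → A0 * Real.exp (α * r) -
        (I + |bp γ b M|) * Real.exp L * Real.exp (β * r) ≤
        Real.exp r * (W1 M (pC L r) * sin γ + K1 γ b M (pC L r) * cos γ) := by
      intro r hr
      obtain ⟨i1, _, _, _⟩ := integrable_kernels (γ := γ) hF.supp (pC L r)
      obtain ⟨_, _, _, _, _, hKf⟩ := typeI_finite hF hI0 (pC L r)
      have itE : Integrable (fun ν => tan (ν / 2 - γ) * EE ν (pC L r)) M := by
        refine (htan.mul_bdd (c := Real.exp L) (continuous_EE _).aestronglyMeasurable ?_)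
        filter_upwards with ν
        rw [Real.norm_of_nonneg (hEpos _ _).le]
        exact hEbd L hL ν r hr
      have hsplit : Real.exp r * (W1 M (pC L r) * sin γ + K1 γ b M (pC L r) * cos γ) =
          ∫ ν, Real.exp r * (sin γ * EE ν (pC L r) + cos γ * (tan (ν / 2 - γ) * EE ν (pC L r))) ∂M +
          cos γ * bp γ b M * (Real.exp r * Real.exp (-(ta γ (pC L r) * sin γ))) := by
        rw [integral_const_mul, integral_add (i1.const_mul _) (itE.const_mul _),
          integral_const_mul, integral_const_mul, hKf]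
        unfold W1
        ring
      have hint : Integrable (fun ν => Real.exp r * (sin γ * EE ν (pC L r) +
          cos γ * (tan (ν / 2 - γ) * EE ν (pC L r)))) M :=
        ((i1.const_mul _).add (itE.const_mul _)).const_mul _
      have hint2 : Integrable (fun ν => S.indicator (fun _ => (1 / 2 * Real.exp (-L)) *
          Real.exp (α * r)) ν - |cos (ν / 2 - γ)|⁻¹ * (Real.exp L * Real.exp (β * r))) M :=
        ((integrable_const _).indicator hSm).sub (hinv.mul_const _)
      have h3 : ∫ ν, (S.indicator (fun _ => (1 / 2 * Real.exp (-L)) *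
          Real.exp (α * r)) ν - |cos (ν / 2 - γ)|⁻¹ * (Real.exp L * Real.exp (β * r))) ∂M ≤
          ∫ ν, Real.exp r * (sin γ * EE ν (pC L r) +
            cos γ * (tan (ν / 2 - γ) * EE ν (pC L r))) ∂M := by
        apply integral_mono_ae hint2 hint
        filter_upwards [hstr] with ν hν
        obtain ⟨a1, a2, a3, a4, a5⟩ := hν
        have hEE : sin γ * EE ν (pC L r) + cos γ * (tan (ν / 2 - γ) * EE ν (pC L r)) =
            sin (ν / 2) / cos (ν / 2 - γ) * EE ν (pC L r) := by
          rw [tan_eq_sin_div_cos]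
          have e : sin (ν / 2) = sin γ * cos (ν / 2 - γ) + cos γ * sin (ν / 2 - γ) := by
            rw [← sin_add]
            congr 1
            ring
          have hgen : ∀ d D X : ℝ, d ≠ 0 → sin γ * X + cos γ * (D / d * X) =
              (sin γ * d + cos γ * D) / d * X := by
            intro d D X hd
            field_simp
          rw [hgen _ _ _ a3, ← e]
        rw [hEE]
        have hnn : 0 ≤ |cos (ν / 2 - γ)|⁻¹ * (Real.exp L * Real.exp (β * r)) := by positivity
        have hrE : Real.exp r * EE ν (pC L r) = Real.exp (sin (ν / 2) ^ 2 * r) *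
            Real.exp (-(L * (cos (ν / 2) * sin (ν / 2)))) := by
          rw [EE_pC, ← mul_assoc, ← Real.exp_add]
          congr 2
          have := sq_one (ν / 2)
          linear_combination (-r) * this
        have habs : |cos (ν / 2) * sin (ν / 2)| ≤ 1 := by
          rw [abs_mul]
          exact mul_le_one₀ (abs_cos_le_one _) (abs_nonneg _) (abs_sin_le_one _)
        have hupL : Real.exp (-(L * (cos (ν / 2) * sin (ν / 2)))) ≤ Real.exp L := by
          apply Real.exp_le_exp.2
          nlinarith [(abs_le.1 habs).1]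
        have hloL : Real.exp (-L) ≤ Real.exp (-(L * (cos (ν / 2) * sin (ν / 2)))) := by
          apply Real.exp_le_exp.2
          nlinarith [(abs_le.1 habs).2]
        have e4 : Real.exp r * (sin (ν / 2) / cos (ν / 2 - γ) * EE ν (pC L r)) =
            sin (ν / 2) / cos (ν / 2 - γ) * (Real.exp r * EE ν (pC L r)) := by ring
        rw [e4, hrE]
        by_cases hνS : ν ∈ S
        · rw [indicator_of_mem hνS]
          have h5 : 1 / 2 ≤ sin (ν / 2) / cos (ν / 2 - γ) := by
            rcases hSs ν hνS a4 a5 with h6 | ⟨h6, h7⟩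
            · have h8 : sin (ν / 2) ≠ 0 := by
                intro h7
                have := sq_one (ν / 2)
                rw [h6, h7] at this
                norm_num at this
              have e5 : sin (ν / 2) / cos (ν / 2 - γ) = 1 / sin γ := by
                rw [cd_eq, h6, zero_mul, zero_add]
                field_simp
              rw [e5]
              rw [div_le_div_iff₀ (by norm_num) hs]
              linarith
            · have h8 := a5 h6
              rw [le_div_iff₀ h8]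
              have h9 := cos_le_one (ν / 2 - γ)
              nlinarith
          have h6 : α ≤ sin (ν / 2) ^ 2 := by
            have h7 : cos (ν / 2) < sin γ / 2 := hνS
            have h8 := sq_one (ν / 2)
            rw [hα]
            nlinarith
          have h7 : Real.exp (α * r) ≤ Real.exp (sin (ν / 2) ^ 2 * r) :=
            Real.exp_le_exp.2 (mul_le_mul_of_nonneg_right h6 hr)
          calc (1 / 2 * Real.exp (-L)) * Real.exp (α * r) -
                |cos (ν / 2 - γ)|⁻¹ * (Real.exp L * Real.exp (β * r))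
              ≤ 1 / 2 * (Real.exp (α * r) * Real.exp (-L)) := by
                have : (1 / 2 * Real.exp (-L)) * Real.exp (α * r) =
                  1 / 2 * (Real.exp (α * r) * Real.exp (-L)) := by ring
                linarith
            _ ≤ sin (ν / 2) / cos (ν / 2 - γ) * (Real.exp (sin (ν / 2) ^ 2 * r) *
                Real.exp (-(L * (cos (ν / 2) * sin (ν / 2))))) := by
                apply mul_le_mul h5 _ (by positivity) (by linarith)
                exact mul_le_mul h7 hloL (Real.exp_pos _).le (Real.exp_pos _).le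
        · rw [indicator_of_notMem hνS, zero_sub]
          have h6 : 0 < cos (ν / 2) := by
            have h7 : ¬ cos (ν / 2) < sin γ / 2 := hνS
            linarith
          have h7 := a5 h6
          rcases le_or_gt 0 (sin (ν / 2)) with h8 | h8
          · have : 0 ≤ sin (ν / 2) / cos (ν / 2 - γ) * (Real.exp (sin (ν / 2) ^ 2 * r) *
                Real.exp (-(L * (cos (ν / 2) * sin (ν / 2))))) := by positivity
            linarith
          · have h9 := cos_gt hs a4 h7 h8.le
            have h10 : sin (ν / 2) ^ 2 ≤ β := by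
              have := sq_one (ν / 2)
              rw [hβ]
              nlinarith
            have h11 : Real.exp (sin (ν / 2) ^ 2 * r) ≤ Real.exp (β * r) :=
              Real.exp_le_exp.2 (mul_le_mul_of_nonneg_right h10 hr)
            have h12 : Real.exp (sin (ν / 2) ^ 2 * r) *
                Real.exp (-(L * (cos (ν / 2) * sin (ν / 2)))) ≤ Real.exp L * Real.exp (β * r) := by
              rw [mul_comm (Real.exp L)]
              exact mul_le_mul h11 hupL (Real.exp_pos _).le (Real.exp_pos _).le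
            have h13 : -|cos (ν / 2 - γ)|⁻¹ ≤ sin (ν / 2) / cos (ν / 2 - γ) := by
              rw [abs_of_pos h7, div_eq_mul_inv, neg_eq_neg_one_mul]
              exact mul_le_mul_of_nonneg_right (neg_one_le_sin _) (by positivity)
            have h14 : 0 ≤ Real.exp (sin (ν / 2) ^ 2 * r) *
                Real.exp (-(L * (cos (ν / 2) * sin (ν / 2)))) := by positivity
            have h15 := mul_le_mul_of_nonneg_right h13 h14
            have h16 := mul_le_mul_of_nonneg_left h12
              (show 0 ≤ |cos (ν / 2 - γ)|⁻¹ by positivity)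
            linarith
      rw [integral_sub ((integrable_const _).indicator hSm) (hinv.mul_const _),
        integral_indicator_const _ hSm, integral_mul_const, smul_eq_mul] at h3
      have h4 : -(|bp γ b M| * (Real.exp L * Real.exp (β * r))) ≤
          cos γ * bp γ b M * (Real.exp r * Real.exp (-(ta γ (pC L r) * sin γ))) := by
        have e5 : Real.exp r * Real.exp (-(ta γ (pC L r) * sin γ)) =
            Real.exp (β * r) * Real.exp (L * (cos γ * sin γ)) := by
          rw [ta_pC, ← Real.exp_add, ← Real.exp_add]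
          congr 1
          rw [hβ]
          linear_combination (-r) * hpy
        rw [e5]
        have h5 : Real.exp (L * (cos γ * sin γ)) ≤ Real.exp L := by
          apply Real.exp_le_exp.2
          have := cos_le_one γ
          nlinarith [mul_le_one₀ (cos_le_one γ) hs.le hs1]
        have h6 : |cos γ * bp γ b M * (Real.exp (β * r) * Real.exp (L * (cos γ * sin γ)))| ≤
            |bp γ b M| * (Real.exp L * Real.exp (β * r)) := by
          rw [abs_mul, abs_mul, abs_of_pos hc, abs_of_pos (by positivity :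
            0 < Real.exp (β * r) * Real.exp (L * (cos γ * sin γ)))]
          calc cos γ * |bp γ b M| * (Real.exp (β * r) * Real.exp (L * (cos γ * sin γ)))
              ≤ 1 * |bp γ b M| * (Real.exp (β * r) * Real.exp L) := by
                gcongr
                exact cos_le_one γ
            _ = _ := by ring
        linarith [(abs_le.1 h6).1]
      rw [hsplit]
      have e6 : A0 * Real.exp (α * r) - (I + |bp γ b M|) * Real.exp L * Real.exp (β * r) =
          (M.real S * (1 / 2 * Real.exp (-L) * Real.exp (α * r)) -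
            I * (Real.exp L * Real.exp (β * r))) -
          |bp γ b M| * (Real.exp L * Real.exp (β * r)) := by rw [hA0]; ring
      rw [e6]
      linarith
    refine growth (κ := 1) one_pos (f' := fun t => Real.exp (-(pC L t).1) *
      (W1 M (pC L t) * ta γ ((-1, 0) : P) -
        K1 γ b M (pC L t) * sg γ ((-1, 0) : P))) (fun t => path_deriv hF _ _ t) ?_
    have hdom : ∀ᶠ r : ℝ in atTop, 1 ≤ A0 * Real.exp (α * r) -
        (I + |bp γ b M|) * Real.exp L * Real.exp (β * r) := by
      have h5 : Tendsto (fun r : ℝ => A0 * Real.exp ((α - β) * r) -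
          (I + |bp γ b M|) * Real.exp L) atTop atTop := by
        apply tendsto_atTop_add_const_right
        apply Tendsto.const_mul_atTop hA0pos
        exact Real.tendsto_exp_atTop.comp (tendsto_id.const_mul_atTop (by linarith))
      filter_upwards [h5.eventually_ge_atTop 1, eventually_ge_atTop 0] with r hr hr0
      have h6 : 1 ≤ Real.exp (β * r) := Real.one_le_exp (by rw [hβ]; positivity)
      have e7 : A0 * Real.exp (α * r) - (I + |bp γ b M|) * Real.exp L * Real.exp (β * r) =
          Real.exp (β * r) * (A0 * Real.exp ((α - β) * r) -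
          (I + |bp γ b M|) * Real.exp L) := by
        have : Real.exp (α * r) = Real.exp (β * r) * Real.exp ((α - β) * r) := by
          rw [← Real.exp_add]; congr 1; ring
        rw [this]; ring
      rw [e7]
      nlinarith
    filter_upwards [hdom, eventually_ge_atTop 0] with r hr hr0
    have e1 : ta γ ((-1, 0) : P) = sin γ := by unfold ta; ring
    have e2 : sg γ ((-1, 0) : P) = -cos γ := by unfold sg; ring
    rw [e1, e2, pC_fst, neg_neg]
    have h5 := hlow r hr0
    have e3 : W1 M (pC L r) * sin γ - K1 γ b M (pC L r) * -cos γ =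
        W1 M (pC L r) * sin γ + K1 γ b M (pC L r) * cos γ := by ring
    rw [e3]
    linarith
  -- `X`
  have hXle : ∀ L : ℝ, 0 ≤ L → ∀ r : ℝ, 0 ≤ r → L ≤ r * sin γ →
      sin γ * ((F (pC L r)).1 - (F 0).1) ≤ -(K1 γ b M (pC L r)) + b +
        (M.real univ * (1 / sin γ) - (∫ ν, iz ν ∂M) * L -
          ∫ ν, wB ν * Tf (cos (ν / 2) ^ 2) r ∂M) := by
    intro L hL r hr0 hr
    rw [typeI_star1 hF (pC L r)]
    obtain ⟨_, _, i3, _⟩ := integrable_kernels (γ := γ) hF.supp (pC L r)
    have i3' : Integrable (fun ν => sin (ν / 2) * kx (ν / 2) (pC L r)) M := by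
      refine i3.bdd_mul (c := 1) ?_ ?_
      · exact (by fun_prop : Continuous fun ν : ℝ => sin (ν / 2)).aestronglyMeasurable
      · exact Eventually.of_forall fun ν => by
          rw [Real.norm_eq_abs]; exact abs_sin_le_one _
    have iiz : Integrable iz M := by
      refine Integrable.of_bound measurable_iz.aestronglyMeasurable 1
        (Eventually.of_forall fun ν => ?_)
      rw [Real.norm_of_nonneg (iz_nonneg ν)]
      exact iz_le_one ν
    have iw : Integrable (fun ν => wB ν * Tf (cos (ν / 2) ^ 2) r) M := by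
      refine Integrable.of_bound ((measurable_wB.mul ((measurable_Tf r).comp
        (by fun_prop : Measurable fun ν : ℝ => cos (ν / 2) ^ 2))).aestronglyMeasurable)
        (r * Real.exp r) (Eventually.of_forall fun ν => ?_)
      have h3 := Tf_nonneg (cos (ν / 2) ^ 2) hr0
      have h4 := Tf_le (ξ := cos (ν / 2) ^ 2) (by
        rw [abs_of_nonneg (by positivity)]
        have := sq_one (ν / 2)
        nlinarith [sq_nonneg (sin (ν / 2))]) hr0
      rw [Real.norm_of_nonneg (mul_nonneg (wB_nonneg ν) h3)]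
      calc wB ν * Tf (cos (ν / 2) ^ 2) r ≤ 1 * Tf (cos (ν / 2) ^ 2) r :=
            mul_le_mul_of_nonneg_right (wB_le_one ν) h3
        _ ≤ _ := by rw [one_mul]; exact h4
    have h3 : ∫ ν, sin (ν / 2) * kx (ν / 2) (pC L r) ∂M ≤
        ∫ ν, (1 / sin γ - iz ν * L - wB ν * Tf (cos (ν / 2) ^ 2) r) ∂M := by
      apply integral_mono_ae i3' (((integrable_const _).sub (iiz.mul_const L)).sub iw)
      filter_upwards [hstr] with ν hν
      exact skx_le hs hν.1 hν.2.1 hν.2.2.1 hL hr0 hr
    have i5 : Integrable (fun ν => 1 / sin γ - iz ν * L) M :=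
      (integrable_const _).sub (iiz.mul_const L)
    rw [integral_sub i5 iw, integral_sub (integrable_const _) (iiz.mul_const L), integral_const,
      integral_mul_const, smul_eq_mul] at h3
    linarith
  have hTnn : ∀ r : ℝ, 0 ≤ r → 0 ≤ ∫ ν, wB ν * Tf (cos (ν / 2) ^ 2) r ∂M := fun r hr =>
    integral_nonneg fun ν => mul_nonneg (wB_nonneg ν) (Tf_nonneg _ hr)
  set J : ℝ := ∫ ν, iz ν ∂M with hJ
  have hJ0 : 0 ≤ J := integral_nonneg fun ν => iz_nonneg ν
  -- it suffices to find `L` and arbitrarily large `n`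
  have hfin : ∃ L : ℝ, 0 ≤ L ∧ ∀ᶠ n : ℕ in atTop, sin γ * (N + (F 0).1) + 1 + b +
      M.real univ * (1 / sin γ) < J * L + ∫ ν, wB ν * Tf (cos (ν / 2) ^ 2) n ∂M := by
    rcases hJ0.eq_or_lt with hJz | hJpos
    · -- no charge with `cos φ = 0`
      refine ⟨0, le_rfl, ?_⟩
      have hiz : ∀ᵐ ν ∂M, cos (ν / 2) ≠ 0 := by
        have h3 : iz =ᵐ[M] 0 := by
          refine (integral_eq_zero_iff_of_nonneg iz_nonneg ?_).1 hJz.symm
          refine Integrable.of_bound measurable_iz.aestronglyMeasurable 1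
            (Eventually.of_forall fun ν => ?_)
          rw [Real.norm_of_nonneg (iz_nonneg ν)]
          exact iz_le_one ν
        filter_upwards [h3] with ν hν h4
        unfold iz at hν
        rw [if_pos h4] at hν
        simp at hν
      have h3 : ∫⁻ ν, ENNReal.ofReal (wB ν) * (ENNReal.ofReal (cos (ν / 2) ^ 2))⁻¹ ∂M = ⊤ := by
        have h4 : ∫⁻ ν in S, ENNReal.ofReal (sin γ / 4) * (ENNReal.ofReal (chX γ ν))⁻¹ ∂M ≤
            ∫⁻ ν in S, ENNReal.ofReal (wB ν) * (ENNReal.ofReal (cos (ν / 2) ^ 2))⁻¹ ∂M := by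
          apply lintegral_mono_ae
          filter_upwards [ae_restrict_of_ae hstr, ae_restrict_mem hSm, ae_restrict_of_ae hiz]
            with ν hν hνS hz
          obtain ⟨a1, a2, a3, a4, a5⟩ := hν
          rcases hSs ν hνS a4 a5 with h6 | ⟨h6, h7⟩
          · exact absurd h6 hz
          · have h8 := a5 h6
            have hX : 0 < chX γ ν := mul_pos h6 h8
            have hw : wB ν = sin (ν / 2) * cos (ν / 2) := by
              unfold wB; exact max_eq_left (by nlinarith)
            have hwpos : 0 < wB ν := by rw [hw]; exact mul_pos (by linarith) h6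
            have hdge : sin γ / 2 ≤ cos (ν / 2 - γ) := by
              rw [cd_eq]
              nlinarith [mul_pos h6 hc]
            rw [← ENNReal.ofReal_inv_of_pos hX, ← ENNReal.ofReal_inv_of_pos (by positivity),
              ← ENNReal.ofReal_mul (by positivity), ← ENNReal.ofReal_mul hwpos.le]
            apply ENNReal.ofReal_le_ofReal
            rw [hw]
            have e8 : sin (ν / 2) * cos (ν / 2) * (cos (ν / 2) ^ 2)⁻¹ =
                sin (ν / 2) / cos (ν / 2) := by
              field_simp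
            have e9 : sin γ / 4 * (chX γ ν)⁻¹ =
                (sin γ / 4 / cos (ν / 2 - γ)) / cos (ν / 2) := by
              unfold chX
              field_simp
            rw [e8, e9]
            apply div_le_div_of_nonneg_right _ h6.le
            rw [div_le_iff₀ h8]
            nlinarith
        rw [lintegral_const_mul' _ _ ENNReal.ofReal_ne_top, hStop, ENNReal.mul_top
          (ENNReal.ofReal_pos.2 (by positivity)).ne'] at h4
        have h5 := top_le_iff.1 h4
        exact top_le_iff.1 (h5 ▸ setLIntegral_le_lintegral S _)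
      have h4 := mono_conv (M := M) measurable_wB wB_nonneg wB_le_one
        (by fun_prop : Measurable fun ν : ℝ => cos (ν / 2) ^ 2) (fun ν => by
          rw [abs_of_nonneg (by positivity)]
          have := sq_one (ν / 2)
          nlinarith [sq_nonneg (sin (ν / 2))]) h3
        (sin γ * (N + (F 0).1) + 1 + b + M.real univ * (1 / sin γ))
      filter_upwards [h4] with n hn
      linarith
    · refine ⟨max 0 ((sin γ * (N + (F 0).1) + 1 + b + M.real univ * (1 / sin γ) + 1) / J),
        le_max_left _ _, ?_⟩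
      filter_upwards with n
      have h3 := hTnn n (Nat.cast_nonneg n)
      have h4 := le_max_right 0 ((sin γ * (N + (F 0).1) + 1 + b +
        M.real univ * (1 / sin γ) + 1) / J)
      have h5 := mul_le_mul_of_nonneg_left h4 hJpos.le
      rw [mul_div_cancel₀ _ hJpos.ne'] at h5
      linarith
  obtain ⟨L, hL, hev⟩ := hfin
  have hK' := tendsto_natCast_atTop_atTop.eventually (hK L hL)
  have hY' := ((hY L hL).comp tendsto_natCast_atTop_atTop).eventually_gt_atTop N
  have hr' : ∀ᶠ n : ℕ in atTop, L ≤ (n : ℝ) * sin γ :=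
    (tendsto_natCast_atTop_atTop.atTop_mul_const hs).eventually_ge_atTop L
  obtain ⟨n, hn1, hn2, hn3, hn4⟩ := (hev.and (hK'.and (hY'.and hr'))).exists
  refine ⟨pC L n, ?_, hn3⟩
  have h3 := hXle L hL n (Nat.cast_nonneg n) hn4
  have h4 : sin γ * ((F (pC L n)).1 - (F 0).1) < sin γ * (-(N + (F 0).1)) := by
    nlinarith
  have h5 := lt_of_mul_lt_mul_left h4 hs.le
  linarith

end caseB

end D5

open D5 in
theorem typeIpos_U1 {γ b : ℝ} {M : Measure ℝ} {F : P → P} (hγ : 0 < γ) (hγ' : γ < π / 2)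
    (hF : TypeI γ b M F) (h : ∫⁻ ν, (ENNReal.ofReal (chX γ ν))⁻¹ ∂M = ⊤ ∨ 0 < bp γ b M) (N : ℝ) :
    ∃ q, (F q).1 < -N ∧ N < (F q).2 := by
  by_cases h1 : ∫⁻ ν, (ENNReal.ofReal (chX γ ν))⁻¹ ∂M = ⊤
  · by_cases h2 : ∫⁻ ν, (ENNReal.ofReal |cos (ν / 2 - γ)|)⁻¹ ∂M = ⊤ ∨ M {ν | chX γ ν < 0} ≠ 0
    · exact caseA hγ hγ' hF h1 (wA_top hγ hγ' hF h2) N
    · push Not at h2
      exact caseB hγ hγ' hF h1 h2.2 h2.1 N
  · exact caseA2 hγ hγ' hF h1 (h.resolve_left h1) N

end Pool.Agent.EU
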