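import Pool.Agent.EU.D6T

/-!
Module D6: `0 < γ < π / 2`, the third quadrant (both components very negative).
-/

set_option autoImplicit false
open scoped ContDiff Topology ENNReal
open Real Set MeasureTheory Filter

namespace Pool.Agent.EU.D6

variable {γ b N : ℝ} {M : Measure ℝ} {F : P → P}

/-! ### exchange of the coordinates -/

lemma chX_swap (γ ν : ℝ) : chX (π / 2 - γ) (π - ν) = chY γ ν := by
  unfold chX chY
  rw [D2b.half_swap, Real.cos_neg, show (π - ν) / 2 = π / 2 - ν / 2 by ring,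
    Real.cos_pi_div_two_sub]

lemma chY_swap (γ ν : ℝ) : chY (π / 2 - γ) (π - ν) = chX γ ν := by
  unfold chX chY
  rw [D2b.half_swap, Real.cos_neg, show (π - ν) / 2 = π / 2 - ν / 2 by ring,
    Real.sin_pi_div_two_sub]

lemma lint_swap {f : ℝ → ℝ} (hf : Measurable f) (hr : ∀ ν, f (red ν) = f ν) (M : Measure ℝ) :
    ∫⁻ ν, (ENNReal.ofReal (f ν))⁻¹ ∂(M.map fun ν => red (π - ν)) =
      ∫⁻ ν, (ENNReal.ofReal (f (π - ν)))⁻¹ ∂M := by
  have hg : Measurable fun ν : ℝ => red (π - ν) := D2b.meas_red.comp (by fun_prop)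
  rw [lintegral_map (f := fun ν => (ENNReal.ofReal (f ν))⁻¹) hf.ennreal_ofReal.inv hg]
  exact lintegral_congr fun ν => by rw [hr]

lemma chX_int_swap (γ : ℝ) (M : Measure ℝ) :
    ∫⁻ ν, (ENNReal.ofReal (chX (π / 2 - γ) ν))⁻¹ ∂(M.map fun ν => red (π - ν)) =
      ∫⁻ ν, (ENNReal.ofReal (chY γ ν))⁻¹ ∂M := by
  rw [lint_swap (chX_continuous _).measurable (D2b.chX_red _)]
  simp only [chX_swap]

lemma bp_swap (γ b : ℝ) (M : Measure ℝ) :
    bp (π / 2 - γ) (-b) (M.map fun ν => red (π - ν)) = -bp γ b M := by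
  have hg : Measurable fun ν : ℝ => red (π - ν) := D2b.meas_red.comp (by fun_prop)
  have ht : Measurable fun ν : ℝ => tan (ν / 2 - (π / 2 - γ)) := by
    simp only [Real.tan_eq_sin_div_cos]
    fun_prop
  unfold bp
  rw [integral_map hg.aemeasurable ht.aestronglyMeasurable]
  have : ∀ ν, tan (red (π - ν) / 2 - (π / 2 - γ)) = -tan (ν / 2 - γ) := by
    intro ν
    rw [D2b.tan_red, D2b.half_swap, Real.tan_neg]
  simp only [this, integral_neg]
  ring

/-- the map with exchanged coordinates -/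
noncomputable def FF (F : P → P) (q : P) : P := ((F (-q.1, q.2)).2, (F (-q.1, q.2)).1)

lemma FF_zero (F : P → P) : FF F 0 = ((F 0).2, (F 0).1) := by
  unfold FF; simp [Prod.zero_eq_mk]

lemma TT_swap (γ N : ℝ) (F : P → P) (q : P) :
    TT (π / 2 - γ) N (FF F) (-q.1, q.2) = -(Real.exp (-q.1) * TT γ N F q) := by
  unfold TT
  rw [FF_zero]
  unfold FF
  simp only [Real.sin_pi_div_two_sub, Real.cos_pi_div_two_sub, neg_neg, Prod.mk.eta]
  have h : Real.exp (-q.1) * Real.exp q.1 = 1 := by rw [← Real.exp_add]; simp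
  linear_combination (cos γ * (-((F q).2 - (F 0).2)) - N) * h

lemma TT_cont (hF : TypeI γ b M F) (N : ℝ) : Continuous (TT γ N F) := by
  have := hF.diff.continuous
  unfold TT
  fun_prop

lemma half_lt (hγ : 0 < γ) (hγ' : γ < π / 2) : 0 < π / 2 - γ ∧ π / 2 - γ < π / 2 :=
  ⟨by linarith, by linarith⟩

theorem zero (hγ : 0 < γ) (hγ' : γ < π / 2)
    (hF : TypeI γ b M F) (h1 : ∫⁻ ν, (ENNReal.ofReal (chX γ ν))⁻¹ ∂M = ⊤ ∨ 0 < bp γ b M)
    (h2 : ∫⁻ ν, (ENNReal.ofReal (chY γ ν))⁻¹ ∂M = ⊤ ∨ bp γ b M < 0) (N m : ℝ) :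
    ∃ q : P, sg γ q ≤ -m ∧ ta γ q ≤ -m ∧ TT γ N F q = 0 := by
  obtain ⟨q0, a1, a2, a3⟩ := start hγ hγ' hF h1 N m
  obtain ⟨p1, b1, b2, b3⟩ := start (half_lt hγ hγ').1 (half_lt hγ hγ').2 hF.swap
    (by rw [chX_int_swap, bp_swap]; exact h2.imp id (fun h => by linarith)) N m
  change TT (π / 2 - γ) N (FF F) p1 < 0 at b3
  set q1 : P := (-p1.1, p1.2) with hq1
  have b3' : 0 < TT γ N F q1 := by
    have h3 := TT_swap γ N F q1
    have e2 : ((-q1.1, q1.2) : P) = p1 := by rw [hq1]; simp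
    rw [e2] at h3
    rw [h3] at b3
    have h4 : 0 < Real.exp (-q1.1) * TT γ N F q1 := by linarith
    exact pos_of_mul_pos_right h4 (Real.exp_pos _).le
  rw [D2b.sg_swap] at b1
  rw [D2b.ta_swap] at b2
  set R : Set P := {q | sg γ q ≤ -m ∧ ta γ q ≤ -m} with hR
  have hconv : Convex ℝ R := by
    intro x hx y hy s t hs ht hst
    obtain ⟨x1, x2⟩ := hx
    obtain ⟨y1, y2⟩ := hy
    have e1 : sg γ (s • x + t • y) = s * sg γ x + t * sg γ y := by
      unfold sg; simp; ring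
    have e2 : ta γ (s • x + t • y) = s * ta γ x + t * ta γ y := by
      unfold ta; simp; ring
    have g1 := mul_le_mul_of_nonneg_left x1 hs
    have g2 := mul_le_mul_of_nonneg_left y1 ht
    have g3 := mul_le_mul_of_nonneg_left x2 hs
    have g4 := mul_le_mul_of_nonneg_left y2 ht
    have g5 : s * -m + t * -m = -m := by rw [← add_mul, hst, one_mul]
    refine ⟨?_, ?_⟩
    · rw [e1]; linarith
    · rw [e2]; linarith
  have := hconv.isPreconnected.intermediate_value (a := q0) (b := q1) ⟨a1, a2⟩ ⟨b2, b1⟩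
    (TT_cont hF N).continuousOn ⟨a3.le, b3'.le⟩
  obtain ⟨q, hq, hq0⟩ := this
  exact ⟨q, hq.1, hq.2, hq0⟩

end Pool.Agent.EU.D6

namespace Pool.Agent.EU

open D6

theorem typeIpos_U2 {γ b : ℝ} {M : Measure ℝ} {F : P → P} (hγ : 0 < γ) (hγ' : γ < π / 2)
    (hF : TypeI γ b M F) (h1 : ∫⁻ ν, (ENNReal.ofReal (chX γ ν))⁻¹ ∂M = ⊤ ∨ 0 < bp γ b M)
    (h2 : ∫⁻ ν, (ENNReal.ofReal (chY γ ν))⁻¹ ∂M = ⊤ ∨ bp γ b M < 0) (N : ℝ) :
    ∃ q, (F q).1 < -N ∧ (F q).2 < -N := by
  by_contra hcon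
  push Not at hcon
  have hcg := cg_pos hγ hγ'
  have hsg := sg_pos hγ hγ'
  have hs1 : sin γ ≤ 1 := sin_le_one γ
  have hc1 : cos γ ≤ 1 := cos_le_one γ
  set A : ℝ := |N| + |(F 0).1| + |(F 0).2| with hA
  have hA0 : 0 ≤ A := by positivity
  have hA1 : -A + (F 0).1 ≤ -N := by
    have := le_abs_self N; have := le_abs_self (F 0).1; have := abs_nonneg (F 0).2
    linarith
  have hA2 : -A + (F 0).2 ≤ -N := by
    have := le_abs_self N; have := le_abs_self (F 0).2; have := abs_nonneg (F 0).1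
    linarith
  have hz := fun m : ℕ => zero hγ hγ' hF h1 h2 A (m : ℝ)
  choose q hσ hτ hT using hz
  have hσ0 : ∀ n, sg γ (q n) ≤ 0 := fun n => by
    have : (0 : ℝ) ≤ n := Nat.cast_nonneg n
    linarith [hσ n]
  have hτ0 : ∀ n, ta γ (q n) ≤ 0 := fun n => by
    have : (0 : ℝ) ≤ n := Nat.cast_nonneg n
    linarith [hτ n]
  have hf : ∀ n, -A ≤ sin γ * ((F (q n)).1 - (F 0).1) := by
    intro n
    by_contra hlt
    push Not at hlt
    have hX : (F (q n)).1 < -N := by
      by_contra hge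
      push Not at hge
      have h3 : -A ≤ (F (q n)).1 - (F 0).1 := by linarith
      nlinarith
    have hY : (F (q n)).2 < -N := by
      by_contra hge
      push Not at hge
      have h3 : -A ≤ (F (q n)).2 - (F 0).2 := by linarith
      have h4 : -A ≤ cos γ * ((F (q n)).2 - (F 0).2) := by nlinarith
      have h5 := mul_le_mul_of_nonneg_left h4 (Real.exp_pos (q n).1).le
      have h6 := hT n
      unfold TT at h6
      linarith
    exact absurd (hcon (q n) hX) (not_le.2 hY)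
  have hG : ∀ n, -(A * Real.exp (q n).1) ≤ cos γ * Real.exp (q n).1 * ((F (q n)).2 - (F 0).2) := by
    intro n
    have h6 := hT n
    unfold TT at h6
    linarith [hf n]
  have htn : ∀ φ : ℕ → ℕ, StrictMono φ → Tendsto (fun n => -((φ n : ℕ) : ℝ)) atTop atBot :=
    fun φ hφ => tendsto_neg_atTop_atBot.comp (tendsto_natCast_atTop_atTop.comp hφ.tendsto_atTop)
  by_cases hfr : ∃ᶠ n in atTop, (q n).1 ≤ 0
  · obtain ⟨φ, hφ, hq0⟩ := extraction_of_frequently_atTop hfr
    refine main_lemma hγ hγ' hF h1 (N := A) (q := fun n => q (φ n)) ⟨fun n => hσ0 _, fun n => hτ0 _,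
      hq0, ?_, ?_, fun n => hf _, fun n => ?_⟩
    · exact tendsto_atBot_mono (fun n => hσ (φ n)) (htn φ hφ)
    · exact tendsto_atBot_mono (fun n => hτ (φ n)) (htn φ hφ)
    · have g1 := hf (φ n)
      have g2 := hG (φ n)
      have g3 : Real.exp (q (φ n)).1 ≤ 1 := Real.exp_le_one_iff.2 (hq0 n)
      have g4 := mul_le_mul_of_nonneg_left g3 hA0
      linarith
  · have hfr' : ∃ᶠ n in atTop, 0 ≤ (q n).1 := by
      rw [not_frequently] at hfr
      exact (hfr.mono fun n hn => (not_le.1 hn).le).frequently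
    obtain ⟨φ, hφ, hq0⟩ := extraction_of_frequently_atTop hfr'
    have hz : FF F 0 = ((F 0).2, (F 0).1) := FF_zero F
    have hFF : ∀ n, FF F (-(q (φ n)).1, (q (φ n)).2) = ((F (q (φ n))).2, (F (q (φ n))).1) := by
      intro n; unfold FF; simp
    have hee : ∀ n, Real.exp (-(q (φ n)).1) * Real.exp (q (φ n)).1 = 1 := fun n => by
      rw [← Real.exp_add]; simp
    have hYf : ∀ n, -A ≤ cos γ * ((F (q (φ n))).2 - (F 0).2) := by
      intro n
      have g2 := hG (φ n)
      have g3 : 0 ≤ Real.exp (q (φ n)).1 * (cos γ * ((F (q (φ n))).2 - (F 0).2) + A) := by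
        linarith
      have g4 := nonneg_of_mul_nonneg_right g3 (Real.exp_pos _)
      linarith
    refine main_lemma (γ := π / 2 - γ) (b := -b) (M := M.map fun ν => red (π - ν)) (F := FF F)
      (half_lt hγ hγ').1 (half_lt hγ hγ').2 hF.swap
      (by rw [chX_int_swap, bp_swap]; exact h2.imp id (fun h => by linarith)) (N := A)
      (q := fun n => (-(q (φ n)).1, (q (φ n)).2)) ⟨fun n => ?_, fun n => ?_, fun n => ?_, ?_, ?_,
        fun n => ?_, fun n => ?_⟩
    · rw [D2b.sg_swap]; simpa using hτ0 (φ n)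
    · rw [D2b.ta_swap]; simpa using hσ0 (φ n)
    · simpa using hq0 n
    · refine tendsto_atBot_mono (fun n => ?_) (htn φ hφ)
      rw [D2b.sg_swap]; simpa using hτ (φ n)
    · refine tendsto_atBot_mono (fun n => ?_) (htn φ hφ)
      rw [D2b.ta_swap]; simpa using hσ (φ n)
    · rw [hz, hFF, Real.sin_pi_div_two_sub]
      exact hYf n
    · rw [hz, hFF, Real.sin_pi_div_two_sub, Real.cos_pi_div_two_sub]
      simp only
      have g1 := hYf n
      have g2 := hf (φ n)
      have g3 : Real.exp (-(q (φ n)).1) ≤ 1 := Real.exp_le_one_iff.2 (by linarith [hq0 n])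
      have g4 := Real.exp_pos (-(q (φ n)).1)
      have g5 := mul_le_mul_of_nonneg_left g2 g4.le
      have g6 := mul_le_mul_of_nonneg_left g3 hA0
      linarith

end Pool.Agent.EU
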