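import Pool.Agent.EU.D2b

/-!
Module D6, part A: trigonometric relations and pointwise formulas for the kernels.
-/

set_option autoImplicit false
open scoped ContDiff Topology ENNReal
open Real Set MeasureTheory Filter

namespace Pool.Agent.EU.D6

/-! ### trigonometric relations -/

lemma cD_eq (γ ν : ℝ) : cos (ν / 2) * sin (ν / 2 - γ) = chY γ ν - sin γ := by
  unfold chY
  have : sin (ν / 2) * cos (ν / 2 - γ) - cos (ν / 2) * sin (ν / 2 - γ) = sin γ := by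
    rw [← sin_sub]; congr 1; ring
  linarith

lemma sD_eq (γ ν : ℝ) : sin (ν / 2) * sin (ν / 2 - γ) = cos γ - chX γ ν := by
  unfold chX
  have : cos (ν / 2) * cos (ν / 2 - γ) + sin (ν / 2) * sin (ν / 2 - γ) = cos γ := by
    rw [← cos_sub]; congr 1; ring
  linarith

lemma circ_d (γ ν : ℝ) : chX γ ν * cos γ + chY γ ν * sin γ = cos (ν / 2 - γ) ^ 2 := by
  unfold chX chY
  have : cos (ν / 2) * cos γ + sin (ν / 2) * sin γ = cos (ν / 2 - γ) := (cos_sub _ _).symm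
  linear_combination cos (ν / 2 - γ) * this

lemma circ_d' (γ ν : ℝ) : chX γ ν ^ 2 + chY γ ν ^ 2 = cos (ν / 2 - γ) ^ 2 := by
  unfold chX chY
  linear_combination cos (ν / 2 - γ) ^ 2 * sin_sq_add_cos_sq (ν / 2)

lemma circ (γ ν : ℝ) : chX γ ν ^ 2 + chY γ ν ^ 2 = chX γ ν * cos γ + chY γ ν * sin γ := by
  rw [circ_d, circ_d']

lemma q1_eq (γ : ℝ) (q : P) : q.1 = sg γ q * cos γ - ta γ q * sin γ := by
  unfold sg ta; linear_combination (-q.1) * sin_sq_add_cos_sq γ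

lemma q2_eq (γ : ℝ) (q : P) : q.2 = sg γ q * sin γ + ta γ q * cos γ := by
  unfold sg ta; linear_combination (-q.2) * sin_sq_add_cos_sq γ

lemma qphi (γ ν : ℝ) (q : P) : q.1 * cos (ν / 2) + q.2 * sin (ν / 2) =
    sg γ q * cos (ν / 2 - γ) + ta γ q * sin (ν / 2 - γ) := by
  unfold sg ta
  rw [cos_sub, sin_sub]
  linear_combination (-(q.1 * cos (ν / 2) + q.2 * sin (ν / 2))) * sin_sq_add_cos_sq γ

lemma qperp (γ ν : ℝ) (q : P) : -(q.1 * sin (ν / 2)) + q.2 * cos (ν / 2) =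
    -(sg γ q * sin (ν / 2 - γ)) + ta γ q * cos (ν / 2 - γ) := by
  unfold sg ta
  rw [cos_sub, sin_sub]
  linear_combination (-(-(q.1 * sin (ν / 2)) + q.2 * cos (ν / 2))) * sin_sq_add_cos_sq γ

lemma EE_phi (ν : ℝ) (q : P) :
    EE ν q = Real.exp (cos (ν / 2) * (q.1 * cos (ν / 2) + q.2 * sin (ν / 2))) := by
  unfold EE
  congr 1
  have h1 : cos ν = 2 * cos (ν / 2) ^ 2 - 1 := by rw [← cos_two_mul]; congr 1; ring
  have h2 : sin ν = 2 * sin (ν / 2) * cos (ν / 2) := by rw [← sin_two_mul]; congr 1; ring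
  rw [h1, h2]; ring

lemma EE_eq (γ ν : ℝ) (q : P) :
    EE ν q = Real.exp (sg γ q * chX γ ν + ta γ q * (chY γ ν - sin γ)) := by
  rw [EE_phi, qphi γ, ← cD_eq]
  unfold chX
  congr 1; ring

lemma EE_pos (ν : ℝ) (q : P) : 0 < EE ν q := Real.exp_pos _

lemma EE_eq_Ec (γ ν : ℝ) (q : P) :
    EE ν q = Real.exp (-(ta γ q * sin γ)) * Real.exp (sg γ q * chX γ ν + ta γ q * chY γ ν) := by
  rw [EE_eq γ, ← Real.exp_add]; congr 1; ring

lemma EE_eq_q1 (γ ν : ℝ) (q : P) :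
    EE ν q = Real.exp q.1 * Real.exp (-(sg γ q * (cos γ - chX γ ν)) + ta γ q * chY γ ν) := by
  rw [EE_eq γ, ← Real.exp_add]; congr 1
  conv_rhs => rw [q1_eq γ q]
  ring

lemma perp_eq (γ ν : ℝ) (q : P) : sin (ν / 2) * (-(q.1 * sin (ν / 2)) + q.2 * cos (ν / 2)) =
    -(sg γ q * (cos γ - chX γ ν)) + ta γ q * chY γ ν := by
  rw [qperp γ, ← sD_eq]; unfold chY; ring

/-! ### kernels -/

lemma cos_kx (ν : ℝ) (q : P) : cos (ν / 2) * kx (ν / 2) q = EE ν q - 1 := by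
  rw [cos_mul_kx, EE_phi]

lemma exp_sin_ky (ν : ℝ) (q : P) :
    Real.exp q.1 * (sin (ν / 2) * ky (ν / 2) q) = EE ν q - Real.exp q.1 := by
  rw [sin_mul_ky, perp_eq 0, EE_eq_q1 0]; ring

/-- the kernel of `sin γ X + cos γ exp q₁ Y` -/
noncomputable def Sig (ν : ℝ) (q : P) : ℝ :=
  sin (ν / 2) * kx (ν / 2) q + Real.exp q.1 * (cos (ν / 2) * ky (ν / 2) q)

lemma skx_of_ne {ν : ℝ} (h : cos (ν / 2) ≠ 0) (q : P) :
    sin (ν / 2) * kx (ν / 2) q = sin (ν / 2) / cos (ν / 2) * (EE ν q - 1) := by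
  rw [← cos_kx]; field_simp

lemma cky_of_ne {ν : ℝ} (h : sin (ν / 2) ≠ 0) (q : P) :
    Real.exp q.1 * (cos (ν / 2) * ky (ν / 2) q) =
      cos (ν / 2) / sin (ν / 2) * (EE ν q - Real.exp q.1) := by
  rw [← exp_sin_ky]; field_simp

lemma kk_of_ne {γ ν : ℝ} (h : cos (ν / 2 - γ) ≠ 0) (q : P) :
    kk γ ν q = sin (ν / 2 - γ) / cos (ν / 2 - γ) *
      (EE ν q - Real.exp (-(ta γ q * sin γ))) := by
  have := cos_mul_kk γ ν q
  rw [div_mul_eq_mul_div, eq_div_iff h]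
  linarith

lemma kx_of_zero {φ : ℝ} (h : cos φ = 0) (q : P) : sin φ * kx φ q = q.2 := by
  have hs : sin φ ^ 2 = 1 := by have := sin_sq_add_cos_sq φ; rw [h] at this; linarith
  unfold kx
  simp only [h, zero_mul, mul_zero, Real.exp_zero, intervalIntegral.integral_const, sub_zero,
    smul_eq_mul, mul_one, zero_add]
  linear_combination q.2 * hs

lemma ky_of_zero {φ : ℝ} (h : sin φ = 0) (q : P) : cos φ * ky φ q = q.2 := by
  have hs : cos φ ^ 2 = 1 := by have := sin_sq_add_cos_sq φ; rw [h] at this; linarith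
  unfold ky
  simp only [h, zero_mul, mul_zero, Real.exp_zero, intervalIntegral.integral_const, sub_zero,
    smul_eq_mul, mul_one, neg_zero, zero_add]
  linear_combination q.2 * hs

lemma kk_of_zero {γ ν : ℝ} (h : cos (ν / 2 - γ) = 0) (q : P) :
    kk γ ν q = Real.exp (-(ta γ q * sin γ)) * (sg γ q * (-sin γ) + ta γ q * cos γ) := by
  have h1 : cos (ν / 2) * sin (ν / 2 - γ) = - sin γ := by
    rw [cD_eq]; unfold chY; rw [h]; ring
  have h2 : sin (ν / 2) * sin (ν / 2 - γ) = cos γ := by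
    rw [sD_eq]; unfold chX; rw [h]; ring
  unfold kk
  simp only [h, mul_zero, Real.exp_zero, intervalIntegral.integral_const, sub_zero,
    smul_eq_mul, mul_one]
  rw [← h1, ← h2]; ring

/-- `κ`-kernel minus `sin φ kx` away from `ξ = 0` -/
lemma kk_sub_skx {γ ν : ℝ} (h : chX γ ν ≠ 0) (q : P) :
    kk γ ν q - sin (ν / 2) * kx (ν / 2) q =
      (sin γ * (Real.exp (-(ta γ q * sin γ)) - EE ν q) -
        chY γ ν * (Real.exp (-(ta γ q * sin γ)) - 1)) / chX γ ν := by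
  have hc : cos (ν / 2) ≠ 0 := by intro h0; apply h; unfold chX; rw [h0]; ring
  have hd : cos (ν / 2 - γ) ≠ 0 := by intro h0; apply h; unfold chX; rw [h0]; ring
  rw [kk_of_ne hd, skx_of_ne hc]
  have h1 := cD_eq γ ν
  have e1 : sin (ν / 2 - γ) / cos (ν / 2 - γ) = (chY γ ν - sin γ) / chX γ ν := by
    rw [← h1]; unfold chX; rw [mul_div_mul_left _ _ hc]
  have e2 : sin (ν / 2) / cos (ν / 2) = chY γ ν / chX γ ν := by
    unfold chX chY; rw [mul_div_mul_right _ _ hd]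
  rw [e1, e2]; field_simp; ring

/-- `κ`-kernel plus `exp q₁ cos φ ky` away from `η = 0` -/
lemma kk_add_cky {γ ν : ℝ} (h : chY γ ν ≠ 0) (q : P) :
    kk γ ν q + Real.exp q.1 * (cos (ν / 2) * ky (ν / 2) q) =
      (cos γ * (EE ν q - Real.exp (-(ta γ q * sin γ))) +
        chX γ ν * (Real.exp (-(ta γ q * sin γ)) - Real.exp q.1)) / chY γ ν := by
  have hs : sin (ν / 2) ≠ 0 := by intro h0; apply h; unfold chY; rw [h0]; ring
  have hd : cos (ν / 2 - γ) ≠ 0 := by intro h0; apply h; unfold chY; rw [h0]; ring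
  rw [kk_of_ne hd, cky_of_ne hs]
  have h1 := sD_eq γ ν
  have e1 : sin (ν / 2 - γ) / cos (ν / 2 - γ) = (cos γ - chX γ ν) / chY γ ν := by
    rw [← h1]; unfold chY; rw [mul_div_mul_left _ _ hs]
  have e2 : cos (ν / 2) / sin (ν / 2) = chX γ ν / chY γ ν := by
    unfold chX chY; rw [mul_div_mul_right _ _ hd]
  rw [e1, e2]; field_simp; ring

/-! ### geometry of the circle of the points `(chX, chY)`, `0 < γ < π / 2` -/

variable {γ : ℝ}

lemma cg_pos (hγ : 0 < γ) (hγ' : γ < π / 2) : 0 < cos γ :=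
  cos_pos_of_mem_Ioo ⟨by linarith [pi_pos], hγ'⟩

lemma sg_pos (hγ : 0 < γ) (hγ' : γ < π / 2) : 0 < sin γ :=
  sin_pos_of_pos_of_lt_pi hγ (by linarith [pi_pos])

/-- `η < 0` implies `0 < ξ < cos γ` and `|η| ≤ cot γ ξ` -/
lemma chX_pos_of_neg (hγ : 0 < γ) (hγ' : γ < π / 2) {ν : ℝ} (h : chY γ ν < 0) :
    0 < chX γ ν ∧ chX γ ν < cos γ ∧ -(chY γ ν) * sin γ ≤ chX γ ν * cos γ := by
  have hc := cg_pos hγ hγ'
  have hs := sg_pos hγ hγ'
  have h1 := circ γ ν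
  have h2 := circ_d γ ν
  have h3 : 0 ≤ cos (ν / 2 - γ) ^ 2 := sq_nonneg _
  have h4 : -(chY γ ν) * sin γ ≤ chX γ ν * cos γ := by linarith
  have h5 : 0 < -(chY γ ν) * sin γ := mul_pos (by linarith) hs
  have h6 : 0 < chX γ ν := by
    by_contra hn
    push Not at hn
    nlinarith
  refine ⟨h6, ?_, h4⟩
  by_contra hn
  push Not at hn
  nlinarith [mul_nonneg h6.le (sub_nonneg.2 hn), mul_pos (neg_pos.2 h) hs, sq_nonneg (chY γ ν)]

/-- `ξ ≤ 0` implies `0 ≤ η ≤ sin γ`, and `η < sin γ` unless `cos φ = 0` -/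
lemma chY_of_chX_nonpos (hγ : 0 < γ) (hγ' : γ < π / 2) {ν : ℝ} (h : chX γ ν ≤ 0) :
    0 ≤ chY γ ν ∧ chY γ ν ≤ sin γ ∧ (cos (ν / 2) ≠ 0 → chY γ ν < sin γ) := by
  have hc := cg_pos hγ hγ'
  have hs := sg_pos hγ hγ'
  have h1 := circ γ ν
  have h0 : 0 ≤ chY γ ν := by
    by_contra hn
    push Not at hn
    exact absurd h (not_le.2 (chX_pos_of_neg hγ hγ' hn).1)
  have h2 : chX γ ν * (chX γ ν - cos γ) = chY γ ν * (sin γ - chY γ ν) := by linarith
  have h3 : 0 ≤ chX γ ν * (chX γ ν - cos γ) := by nlinarith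
  have h4 : chY γ ν ≤ sin γ := by
    by_contra hn
    push Not at hn
    nlinarith [mul_pos (lt_trans hs hn) (sub_pos.2 hn)]
  refine ⟨h0, h4, fun hcn => lt_of_le_of_ne h4 fun heq => ?_⟩
  rw [heq, sub_self, mul_zero] at h2
  have hx : chX γ ν = 0 := by
    rcases mul_eq_zero.1 h2 with h5 | h5
    · exact h5
    · linarith
  have hd : cos (ν / 2 - γ) = 0 := by
    unfold chX at hx
    rcases mul_eq_zero.1 hx with h5 | h5
    · exact absurd h5 hcn
    · exact h5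
  unfold chY at heq
  rw [hd, mul_zero] at heq
  exact absurd heq hs.ne

end Pool.Agent.EU.D6
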