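import Pool.Agent.EU.D6A

/-!
Module D6, part B: the main lemma (two Fatou arguments).
-/

set_option autoImplicit false
open scoped ContDiff Topology ENNReal
open Real Set MeasureTheory Filter

namespace Pool.Agent.EU.D6

variable {γ : ℝ}

/-! ### pointwise bounds for `Sig` on the quadrant `σ, τ ≤ 0`, `q₁ ≤ 0` -/

lemma q2_nonpos (hγ : 0 < γ) (hγ' : γ < π / 2) {q : P} (hσ : sg γ q ≤ 0) (hτ : ta γ q ≤ 0) :
    q.2 ≤ 0 := by
  rw [q2_eq γ q]
  have := mul_nonneg (neg_nonneg.2 hσ) (sg_pos hγ hγ').le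
  have := mul_nonneg (neg_nonneg.2 hτ) (cg_pos hγ hγ').le
  linarith

lemma Sig_of_ne {ν : ℝ} (hc : cos (ν / 2) ≠ 0) (hs : sin (ν / 2) ≠ 0) (q : P) :
    Sig ν q = sin (ν / 2) / cos (ν / 2) * (EE ν q - 1) +
      cos (ν / 2) / sin (ν / 2) * (EE ν q - Real.exp q.1) := by
  unfold Sig; rw [skx_of_ne hc, cky_of_ne hs]

lemma Sig_c0 {ν : ℝ} (hc : cos (ν / 2) = 0) (q : P) : Sig ν q = q.2 := by
  unfold Sig; rw [kx_of_zero hc, hc]; ring

lemma Sig_s0 {ν : ℝ} (hs : sin (ν / 2) = 0) (q : P) : Sig ν q = Real.exp q.1 * q.2 := by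
  unfold Sig; rw [ky_of_zero hs, hs]; ring

/-- `η < 0` -/
lemma neg_Sig_of_neg (hγ : 0 < γ) (hγ' : γ < π / 2) {ν : ℝ} (h : chY γ ν < 0) {q : P}
    (hσ : sg γ q ≤ 0) (hτ : ta γ q ≤ 0) (hq : q.1 ≤ 0) :
    EE ν q ≤ 1 + cos γ / sin γ - Sig ν q := by
  obtain ⟨hx0, hx1, hx2⟩ := chX_pos_of_neg hγ hγ' h
  have hsg := sg_pos hγ hγ'
  have hc : cos (ν / 2) ≠ 0 := by intro h0; apply hx0.ne'; unfold chX; rw [h0]; ring
  have hs : sin (ν / 2) ≠ 0 := by intro h0; apply h.ne; unfold chY; rw [h0]; ring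
  have hd : cos (ν / 2 - γ) ≠ 0 := by intro h0; apply hx0.ne'; unfold chX; rw [h0]; ring
  set t : ℝ := -(chY γ ν) / chX γ ν with ht
  have ht0 : 0 < t := div_pos (by linarith) hx0
  have htc : t ≤ cos γ / sin γ := by
    rw [ht, div_le_div_iff₀ hx0 hsg]; linarith
  have e1 : sin (ν / 2) / cos (ν / 2) = -t := by
    rw [ht]; unfold chX chY; rw [neg_div, neg_neg, mul_div_mul_right _ _ hd]
  have e2 : cos (ν / 2) / sin (ν / 2) = -t⁻¹ := by
    rw [← inv_div, e1, inv_neg]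
  have hE : Real.exp q.1 ≤ EE ν q := by
    rw [EE_eq_q1 γ]
    have h1 : 0 ≤ -(sg γ q * (cos γ - chX γ ν)) + ta γ q * chY γ ν := by
      nlinarith [mul_nonneg (neg_nonneg.2 hσ) (sub_nonneg.2 hx1.le),
        mul_nonneg (neg_nonneg.2 hτ) (neg_nonneg.2 h.le)]
    exact le_mul_of_one_le_right (Real.exp_pos _).le (Real.one_le_exp h1)
  have hq' : Real.exp q.1 ≤ 1 := Real.exp_le_one_iff.2 hq
  have hq0 : 0 < Real.exp q.1 := Real.exp_pos _
  rw [Sig_of_ne hc hs, e1, e2]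
  have h2 : 1 ≤ t + t⁻¹ := by
    have : 2 ≤ t + t⁻¹ := by
      have h3 : t * t⁻¹ = 1 := mul_inv_cancel₀ ht0.ne'
      nlinarith [sq_nonneg (t - 1), inv_pos.2 ht0, sq_nonneg (t - t⁻¹), sq_nonneg (t + t⁻¹)]
    linarith
  have h3 : (EE ν q - Real.exp q.1) * 1 ≤ (EE ν q - Real.exp q.1) * (t + t⁻¹) :=
    mul_le_mul_of_nonneg_left h2 (by linarith)
  have h4 : t * (1 - Real.exp q.1) ≤ t := by nlinarith
  nlinarith

/-- `ξ ≤ 0` and `cos φ ≠ 0` -/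
lemma neg_Sig_of_nonpos (hγ : 0 < γ) (hγ' : γ < π / 2) {ν : ℝ} (h : chX γ ν ≤ 0)
    (hc : cos (ν / 2) ≠ 0) {q : P} (hσ : sg γ q ≤ 0) (hτ : ta γ q ≤ 0) (hq : q.1 ≤ 0) :
    EE ν q ≤ 1 - Sig ν q ∧ Real.exp (-(ta γ q) * (sin γ - chY γ ν)) ≤ EE ν q := by
  obtain ⟨hy0, hy1, hy2⟩ := chY_of_chX_nonpos hγ hγ' h
  have hy3 := hy2 hc
  have hcg := cg_pos hγ hγ'
  have hs : sin (ν / 2) ≠ 0 := by
    intro h0
    have := sD_eq γ ν
    rw [h0, zero_mul] at this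
    linarith
  have hsc : sin (ν / 2) / cos (ν / 2) < 0 := by
    have h1 := sD_eq γ ν
    have h2 := cD_eq γ ν
    have hD : sin (ν / 2 - γ) ≠ 0 := by
      intro h0; rw [h0, mul_zero] at h1; linarith
    have h3 : sin (ν / 2) / cos (ν / 2) = (cos γ - chX γ ν) / (chY γ ν - sin γ) := by
      rw [← h1, ← h2, mul_div_mul_right _ _ hD]
    rw [h3]
    exact div_neg_of_pos_of_neg (by linarith) (by linarith)
  set t : ℝ := -(sin (ν / 2) / cos (ν / 2)) with ht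
  have ht0 : 0 < t := by rw [ht]; linarith
  have e1 : sin (ν / 2) / cos (ν / 2) = -t := by rw [ht, neg_neg]
  have e2 : cos (ν / 2) / sin (ν / 2) = -t⁻¹ := by
    rw [← inv_div, e1, inv_neg]
  have hEx : Real.exp (-(ta γ q) * (sin γ - chY γ ν)) ≤ EE ν q := by
    rw [EE_eq γ]
    apply Real.exp_le_exp.2
    nlinarith [mul_nonneg (neg_nonneg.2 hσ) (neg_nonneg.2 h)]
  have hE : 1 ≤ EE ν q := by
    refine le_trans (Real.one_le_exp ?_) hEx
    exact mul_nonneg (by linarith) (by linarith)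
  have hq' : Real.exp q.1 ≤ 1 := Real.exp_le_one_iff.2 hq
  refine ⟨?_, hEx⟩
  rw [Sig_of_ne hc hs, e1, e2]
  have h2 : 1 ≤ t + t⁻¹ := by
    have h3 : t * t⁻¹ = 1 := mul_inv_cancel₀ ht0.ne'
    nlinarith [sq_nonneg (t - 1), inv_pos.2 ht0, sq_nonneg (t - t⁻¹), sq_nonneg (t + t⁻¹)]
  have h3 : (EE ν q - 1) * 1 ≤ (EE ν q - 1) * (t + t⁻¹) :=
    mul_le_mul_of_nonneg_left h2 (by linarith)
  have h4 : 0 ≤ t⁻¹ * (1 - Real.exp q.1) := mul_nonneg (inv_pos.2 ht0).le (by linarith)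
  nlinarith

/-- `ξ > 0`, `η > 0`: closed form and bounds -/
lemma pos_pos_facts (hγ : 0 < γ) (hγ' : γ < π / 2) {ν : ℝ} (hx : 0 < chX γ ν) (hy : 0 < chY γ ν)
    {q : P} (hσ : sg γ q ≤ 0) (hτ : ta γ q ≤ 0) (hq : q.1 ≤ 0) :
    0 < sin (ν / 2) * cos (ν / 2) ∧
    EE ν q ≤ Real.exp (sin (ν / 2) * cos (ν / 2) * q.2) ∧
    (sin (ν / 2) ^ 2 - EE ν q) / (sin (ν / 2) * cos (ν / 2)) ≤ - Sig ν q ∧ Sig ν q ≤ 0 := by
  have hc : cos (ν / 2) ≠ 0 := by intro h0; apply hx.ne'; unfold chX; rw [h0]; ring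
  have hs : sin (ν / 2) ≠ 0 := by intro h0; apply hy.ne'; unfold chY; rw [h0]; ring
  have hsc : 0 < sin (ν / 2) * cos (ν / 2) := by
    have h1 : 0 < (sin (ν / 2) * cos (ν / 2)) * cos (ν / 2 - γ) ^ 2 := by
      have : (sin (ν / 2) * cos (ν / 2)) * cos (ν / 2 - γ) ^ 2 = chX γ ν * chY γ ν := by
        unfold chX chY; ring
      rw [this]; positivity
    exact pos_of_mul_pos_left h1 (sq_nonneg _)
  have hq2 := q2_nonpos hγ hγ' hσ hτ
  have hE1 : EE ν q ≤ Real.exp (cos (ν / 2) ^ 2 * q.1) := by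
    rw [EE_phi]; apply Real.exp_le_exp.2
    nlinarith [mul_nonneg hsc.le (neg_nonneg.2 hq2)]
  have hE2 : EE ν q ≤ Real.exp (sin (ν / 2) * cos (ν / 2) * q.2) := by
    rw [EE_phi]; apply Real.exp_le_exp.2
    nlinarith [mul_nonneg (sq_nonneg (cos (ν / 2))) (neg_nonneg.2 hq)]
  have hE3 : Real.exp (cos (ν / 2) ^ 2 * q.1) ≤
      cos (ν / 2) ^ 2 * Real.exp q.1 + sin (ν / 2) ^ 2 := by
    have := convexOn_exp.2 (mem_univ q.1) (mem_univ (0 : ℝ)) (sq_nonneg (cos (ν / 2)))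
      (sq_nonneg (sin (ν / 2))) (by linarith [sin_sq_add_cos_sq (ν / 2)])
    simpa using this
  have hform : Sig ν q = (EE ν q - sin (ν / 2) ^ 2 - cos (ν / 2) ^ 2 * Real.exp q.1) /
      (sin (ν / 2) * cos (ν / 2)) := by
    rw [Sig_of_ne hc hs]
    field_simp
    linear_combination (EE ν q) * sin_sq_add_cos_sq (ν / 2)
  refine ⟨hsc, hE2, ?_, ?_⟩
  · rw [hform, ← neg_div]
    apply div_le_div_of_nonneg_right _ hsc.le
    have := mul_nonneg (sq_nonneg (cos (ν / 2))) (Real.exp_pos q.1).le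
    linarith
  · rw [hform]
    exact div_nonpos_of_nonpos_of_nonneg (by linarith) hsc.le

lemma Sig_nonpos_of_pos (hγ : 0 < γ) (hγ' : γ < π / 2) {ν : ℝ} (hx : 0 < chX γ ν)
    (hy : 0 ≤ chY γ ν) {q : P} (hσ : sg γ q ≤ 0) (hτ : ta γ q ≤ 0) (hq : q.1 ≤ 0) :
    Sig ν q ≤ 0 := by
  rcases hy.lt_or_eq with hy | hy
  · exact (pos_pos_facts hγ hγ' hx hy hσ hτ hq).2.2.2
  · have hs : sin (ν / 2) = 0 := by
      unfold chX at hx; unfold chY at hy
      rcases mul_eq_zero.1 hy.symm with h | h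
      · exact h
      · rw [h, mul_zero] at hx; exact absurd hx (lt_irrefl _)
    rw [Sig_s0 hs]
    exact mul_nonpos_of_nonneg_of_nonpos (Real.exp_pos _).le (q2_nonpos hγ hγ' hσ hτ)

/-- `1 + cot γ - Sig` is nonnegative and bounds `E` on `η < 0` -/
lemma one_sub_Sig_nonneg (hγ : 0 < γ) (hγ' : γ < π / 2) (ν : ℝ) {q : P}
    (hσ : sg γ q ≤ 0) (hτ : ta γ q ≤ 0) (hq : q.1 ≤ 0) :
    0 ≤ 1 + cos γ / sin γ - Sig ν q := by
  have hcot : 0 ≤ cos γ / sin γ := (div_pos (cg_pos hγ hγ') (sg_pos hγ hγ')).le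
  rcases lt_or_ge (chY γ ν) 0 with hy | hy
  · exact (EE_pos ν q).le.trans (neg_Sig_of_neg hγ hγ' hy hσ hτ hq)
  rcases le_or_gt (chX γ ν) 0 with hx | hx
  · by_cases hc : cos (ν / 2) = 0
    · rw [Sig_c0 hc]; linarith [q2_nonpos hγ hγ' hσ hτ]
    · have h1 := (neg_Sig_of_nonpos hγ hγ' hx hc hσ hτ hq).1
      have := EE_pos ν q
      linarith
  · linarith [Sig_nonpos_of_pos hγ hγ' hx hy hσ hτ hq]

/-! ### integrals -/

lemma fatou_on {M : Measure ℝ} {f : ℕ → ℝ → ℝ} (hm : ∀ n, AEMeasurable (f n) M)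
    {g : ℝ → ℝ≥0∞} {A : Set ℝ} (hA : MeasurableSet A)
    (hg : ∀ ν ∈ A, g ν ≤ liminf (fun n => ENNReal.ofReal (f n ν)) atTop) {C : ℝ≥0∞}
    (hC : ∀ᶠ n in atTop, ∫⁻ ν, ENNReal.ofReal (f n ν) ∂M ≤ C) : ∫⁻ ν in A, g ν ∂M ≤ C := by
  calc ∫⁻ ν in A, g ν ∂M ≤ ∫⁻ ν in A, liminf (fun n => ENNReal.ofReal (f n ν)) atTop ∂M :=
        setLIntegral_mono' hA hg
    _ ≤ ∫⁻ ν, liminf (fun n => ENNReal.ofReal (f n ν)) atTop ∂M := setLIntegral_le_lintegral _ _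
    _ ≤ liminf (fun n => ∫⁻ ν, ENNReal.ofReal (f n ν) ∂M) atTop :=
        lintegral_liminf_le' (fun n => (hm n).ennreal_ofReal)
    _ ≤ C := by
      refine (liminf_le_liminf hC).trans ?_
      simp

variable {b : ℝ} {M : Measure ℝ} {F : P → P}

lemma chX_continuous (γ : ℝ) : Continuous (chX γ) := by unfold chX; fun_prop
lemma chY_continuous (γ : ℝ) : Continuous (chY γ) := by unfold chY; fun_prop

lemma int_EE (hF : TypeI γ b M F) (q : P) : Integrable (fun ν => EE ν q) M := by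
  have := hF.fin
  exact (integrable_kernels (γ := γ) hF.supp q).1

lemma int_kk (hF : TypeI γ b M F) (q : P) : Integrable (fun ν => kk γ ν q) M := by
  have := hF.fin
  exact (integrable_kernels (γ := γ) hF.supp q).2.1

lemma int_skx (hF : TypeI γ b M F) (q : P) :
    Integrable (fun ν => sin (ν / 2) * kx (ν / 2) q) M := by
  have := hF.fin
  refine (integrable_kernels (γ := γ) hF.supp q).2.2.1.bdd_mul (c := 1)
    (by fun_prop : Continuous fun ν : ℝ => sin (ν / 2)).aestronglyMeasurable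
    (ae_of_all _ fun ν => ?_)
  rw [Real.norm_eq_abs]; exact abs_sin_le_one _

lemma int_cky (hF : TypeI γ b M F) (q : P) :
    Integrable (fun ν => cos (ν / 2) * ky (ν / 2) q) M := by
  have := hF.fin
  refine (integrable_kernels (γ := γ) hF.supp q).2.2.2.bdd_mul (c := 1)
    (by fun_prop : Continuous fun ν : ℝ => cos (ν / 2)).aestronglyMeasurable
    (ae_of_all _ fun ν => ?_)
  rw [Real.norm_eq_abs]; exact abs_cos_le_one _

lemma int_Sig (hF : TypeI γ b M F) (q : P) : Integrable (fun ν => Sig ν q) M := by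
  unfold Sig
  exact (int_skx hF q).add ((int_cky hF q).const_mul _)

lemma S_formula (hF : TypeI γ b M F) (q : P) :
    sin γ * ((F q).1 - (F 0).1) + cos γ * Real.exp q.1 * ((F q).2 - (F 0).2) =
      b * (1 - Real.exp q.1) + ∫ ν, Sig ν q ∂M := by
  have h1 := typeI_star1 hF q
  have h2 := typeI_star2 hF q
  have h3 : ∫ ν, Sig ν q ∂M = ∫ ν, sin (ν / 2) * kx (ν / 2) q ∂M +
      Real.exp q.1 * ∫ ν, cos (ν / 2) * ky (ν / 2) q ∂M := by
    unfold Sig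
    rw [integral_add (int_skx hF q) ((int_cky hF q).const_mul _), integral_const_mul]
  have h4 : Real.exp q.1 * Real.exp (-q.1) = 1 := by rw [← Real.exp_add]; simp
  rw [h3, h1]
  linear_combination Real.exp q.1 * h2 + K1 γ b M q * h4

lemma f_formula (hF : TypeI γ b M F) (q : P) :
    sin γ * ((F q).1 - (F 0).1) = -b * (Real.exp (-(ta γ q * sin γ)) - 1) -
      ∫ ν, (kk γ ν q - sin (ν / 2) * kx (ν / 2) q) ∂M := by
  rw [typeI_star1 hF q, integral_sub (int_kk hF q) (int_skx hF q)]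
  unfold K1
  ring

end Pool.Agent.EU.D6
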