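import Pool.Agent.EU.D6B

/-!
Module D6, part M: the main lemma.
-/

set_option autoImplicit false
open scoped ContDiff Topology ENNReal
open Real Set MeasureTheory Filter

namespace Pool.Agent.EU.D6

variable {γ b N : ℝ} {M : Measure ℝ} {F : P → P}

/-- bound for the integral of `1 + cot γ - Sig` -/
lemma int_bound (hF : TypeI γ b M F) {q : P} (hq : q.1 ≤ 0)
    (hS : -(2 * N) ≤ sin γ * ((F q).1 - (F 0).1) +
      cos γ * Real.exp q.1 * ((F q).2 - (F 0).2)) :
    ∫ ν, (1 + cos γ / sin γ - Sig ν q) ∂M ≤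
      (1 + cos γ / sin γ) * M.real univ + 2 * N + |b| := by
  have := hF.fin
  rw [integral_sub (integrable_const _) (int_Sig hF q), integral_const, smul_eq_mul]
  rw [S_formula hF q] at hS
  have h0 : 0 ≤ 1 - Real.exp q.1 := by linarith [Real.exp_le_one_iff.2 hq]
  have h2 : 1 - Real.exp q.1 ≤ 1 := by linarith [Real.exp_pos q.1]
  have h1 : b * (1 - Real.exp q.1) ≤ |b| := by
    calc b * (1 - Real.exp q.1) ≤ |b| * (1 - Real.exp q.1) :=
          mul_le_mul_of_nonneg_right (le_abs_self b) h0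
      _ ≤ |b| * 1 := mul_le_mul_of_nonneg_left h2 (abs_nonneg b)
      _ = |b| := mul_one _
  linarith

/-- a sequence of points on which the main lemma works -/
structure Seq (γ N : ℝ) (F : P → P) (q : ℕ → P) : Prop where
  σ0 : ∀ n, sg γ (q n) ≤ 0
  τ0 : ∀ n, ta γ (q n) ≤ 0
  q0 : ∀ n, (q n).1 ≤ 0
  σt : Tendsto (fun n => sg γ (q n)) atTop atBot
  τt : Tendsto (fun n => ta γ (q n)) atTop atBot
  f0 : ∀ n, -N ≤ sin γ * ((F (q n)).1 - (F 0).1)
  S0 : ∀ n, -(2 * N) ≤ sin γ * ((F (q n)).1 - (F 0).1) +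
      cos γ * Real.exp (q n).1 * ((F (q n)).2 - (F 0).2)

lemma Seq.q2t (hγ : 0 < γ) (hγ' : γ < π / 2) {q : ℕ → P} (hq : Seq γ N F q) :
    Tendsto (fun n => (q n).2) atTop atBot := by
  have h1 : Tendsto (fun n => sg γ (q n) * sin γ) atTop atBot :=
    hq.σt.atBot_mul_const (sg_pos hγ hγ')
  refine tendsto_atBot_mono (fun n => ?_) h1
  rw [q2_eq γ (q n)]
  have := mul_nonneg (neg_nonneg.2 (hq.τ0 n)) (cg_pos hγ hγ').le
  linarith

lemma J1_finite (hγ : 0 < γ) (hγ' : γ < π / 2) (hF : TypeI γ b M F) {q : ℕ → P}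
    (hq : Seq γ N F q) :
    ∫⁻ ν in {ν | 0 ≤ chY γ ν}, (ENNReal.ofReal (chX γ ν))⁻¹ ∂M ≠ ⊤ := by
  have := hF.fin
  have hcg := cg_pos hγ hγ'
  have hsg := sg_pos hγ hγ'
  set κ : ℝ := min (cos γ) (sin γ / 4) with hκ
  have hκ0 : 0 < κ := lt_min hcg (by positivity)
  have hcot : 0 ≤ cos γ / sin γ := (div_pos hcg hsg).le
  set C : ℝ := (1 + cos γ / sin γ) * M.real univ + 2 * N + |b| with hC
  have hA : MeasurableSet {ν : ℝ | 0 ≤ chY γ ν} :=
    measurableSet_le measurable_const (chY_continuous γ).measurable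
  have key := fatou_on (M := M) (f := fun n ν => 1 + cos γ / sin γ - Sig ν (q n))
    (fun n => ((integrable_const _).sub (int_Sig hF (q n))).aemeasurable)
    (g := fun ν => ENNReal.ofReal κ * (ENNReal.ofReal (chX γ ν))⁻¹) hA ?_
    (C := ENNReal.ofReal C) ?_
  · rw [lintegral_const_mul' _ _ ENNReal.ofReal_ne_top] at key
    intro htop
    rw [htop, ENNReal.mul_top (by simpa using hκ0)] at key
    exact absurd key (by simp)
  · intro ν hν
    have hν' : 0 ≤ chY γ ν := hν
    rcases le_or_gt (chX γ ν) 0 with hx | hx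
    · -- the limit is infinite
      have htend : Tendsto (fun n => 1 + cos γ / sin γ - Sig ν (q n)) atTop atTop := by
        by_cases hc : cos (ν / 2) = 0
        · have h1 : Tendsto (fun n => -(q n).2) atTop atTop := tendsto_neg_atBot_atTop.comp (hq.q2t hγ hγ')
          refine tendsto_atTop_mono (fun n => ?_) h1
          rw [Sig_c0 hc]; linarith
        · have hy3 := (chY_of_chX_nonpos hγ hγ' hx).2.2 hc
          have h1 : Tendsto (fun n => -(ta γ (q n)) * (sin γ - chY γ ν)) atTop atTop :=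
            (tendsto_neg_atBot_atTop.comp hq.τt).atTop_mul_const (by linarith)
          have h2 := Real.tendsto_exp_atTop.comp h1
          refine tendsto_atTop_mono (fun n => ?_) h2
          obtain ⟨h3, h4⟩ := neg_Sig_of_nonpos hγ hγ' hx hc (hq.σ0 n) (hq.τ0 n) (hq.q0 n)
          simp only [Function.comp_apply]
          linarith
      have h5 : liminf (fun n => ENNReal.ofReal (1 + cos γ / sin γ - Sig ν (q n))) atTop = ⊤ :=
        (ENNReal.tendsto_ofReal_atTop.comp htend).liminf_eq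
      rw [h5]
      exact le_top
    · have hev : ∀ᶠ n in atTop, κ / chX γ ν ≤ 1 + cos γ / sin γ - Sig ν (q n) := by
        rcases le_or_gt (chY γ ν) (sin γ / 2) with hy | hy
        · -- `ξ ≥ cos γ`
          have h1 : cos γ ≤ chX γ ν := by
            have h2 := circ γ ν
            by_contra hn
            push Not at hn
            nlinarith [mul_pos hx (sub_pos.2 hn), mul_nonneg hν' (by linarith : 0 ≤ sin γ - chY γ ν)]
          refine Eventually.of_forall fun n => ?_
          have h3 := Sig_nonpos_of_pos hγ hγ' hx hν' (hq.σ0 n) (hq.τ0 n) (hq.q0 n)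
          have h4 : κ / chX γ ν ≤ 1 := by
            rw [div_le_one hx]; exact (min_le_left _ _).trans h1
          linarith
        · have hy0 : 0 < chY γ ν := by linarith
          have hsc := (pos_pos_facts hγ hγ' hx hy0 (hq.σ0 0) (hq.τ0 0) (hq.q0 0)).1
          have h1 : Tendsto (fun n => sin (ν / 2) * cos (ν / 2) * (q n).2) atTop atBot :=
            (hq.q2t hγ hγ').const_mul_atBot hsc
          have h2 := Real.tendsto_exp_atBot.comp h1
          have hs : sin (ν / 2) ≠ 0 := by intro h0; rw [h0, zero_mul] at hsc; exact absurd hsc (lt_irrefl _)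
          have hc : cos (ν / 2) ≠ 0 := by intro h0; rw [h0, mul_zero] at hsc; exact absurd hsc (lt_irrefl _)
          have hd : cos (ν / 2 - γ) ≠ 0 := by intro h0; apply hx.ne'; unfold chX; rw [h0]; ring
          have hs2 : 0 < sin (ν / 2) ^ 2 / 2 := by positivity
          filter_upwards [h2.eventually (gt_mem_nhds hs2)] with n hn
          obtain ⟨-, h3, h4, -⟩ := pos_pos_facts hγ hγ' hx hy0 (hq.σ0 n) (hq.τ0 n) (hq.q0 n)
          simp only [Function.comp_apply] at hn
          have h5 : sin (ν / 2) ^ 2 / 2 / (sin (ν / 2) * cos (ν / 2)) ≤ - Sig ν (q n) := by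
            refine le_trans ?_ h4
            apply div_le_div_of_nonneg_right _ hsc.le
            linarith
          have h6 : sin (ν / 2) ^ 2 / 2 / (sin (ν / 2) * cos (ν / 2)) = chY γ ν / 2 / chX γ ν := by
            unfold chX chY
            generalize cos (ν / 2 - γ) = d at hd ⊢
            field_simp
          have h7 : κ / chX γ ν ≤ chY γ ν / 2 / chX γ ν := by
            apply div_le_div_of_nonneg_right _ hx.le
            have := min_le_right (cos γ) (sin γ / 4)
            linarith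
          linarith
      have e1 : ENNReal.ofReal κ * (ENNReal.ofReal (chX γ ν))⁻¹ = ENNReal.ofReal (κ / chX γ ν) := by
        rw [ENNReal.ofReal_div_of_pos hx, div_eq_mul_inv]
      show ENNReal.ofReal κ * (ENNReal.ofReal (chX γ ν))⁻¹ ≤ _
      rw [e1]
      exact le_liminf_of_le (by isBoundedDefault) (hev.mono fun n hn => ENNReal.ofReal_le_ofReal hn)
  · refine Eventually.of_forall fun n => ?_
    have hi : Integrable (fun ν => 1 + cos γ / sin γ - Sig ν (q n)) M :=
      (integrable_const _).sub (int_Sig hF (q n))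
    rw [← ofReal_integral_eq_lintegral_ofReal hi
      (ae_of_all _ fun ν => one_sub_Sig_nonneg hγ hγ' ν (hq.σ0 n) (hq.τ0 n) (hq.q0 n))]
    exact ENNReal.ofReal_le_ofReal (int_bound hF (hq.q0 n) (hq.S0 n))

lemma ae_chX_pos (hγ : 0 < γ) (hγ' : γ < π / 2) (hF : TypeI γ b M F) {q : ℕ → P}
    (hq : Seq γ N F q) : ∀ᵐ ν ∂M, 0 < chX γ ν := by
  have hA : MeasurableSet {ν : ℝ | 0 ≤ chY γ ν} :=
    measurableSet_le measurable_const (chY_continuous γ).measurable
  have h1 := J1_finite hγ hγ' hF hq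
  have h2 := ae_lt_top (μ := M.restrict {ν | 0 ≤ chY γ ν})
    (f := fun ν => (ENNReal.ofReal (chX γ ν))⁻¹)
    ((chX_continuous γ).measurable.ennreal_ofReal.inv) h1
  rw [ae_restrict_iff' hA] at h2
  filter_upwards [h2] with ν hν
  rcases lt_or_ge (chY γ ν) 0 with hy | hy
  · exact (chX_pos_of_neg hγ hγ' hy).1
  · have h3 := hν hy
    by_contra hn
    push Not at hn
    rw [ENNReal.ofReal_eq_zero.2 hn] at h3
    simp at h3

/-- the mass of `E` on `η < 0` is bounded -/
lemma int_E_bound (hγ : 0 < γ) (hγ' : γ < π / 2) (hF : TypeI γ b M F) {q : ℕ → P}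
    (hq : Seq γ N F q) (n : ℕ) :
    ∫ ν in {ν | chY γ ν < 0}, EE ν (q n) ∂M ≤
      (1 + cos γ / sin γ) * M.real univ + 2 * N + |b| := by
  have := hF.fin
  have hA : MeasurableSet {ν : ℝ | chY γ ν < 0} :=
    measurableSet_lt (chY_continuous γ).measurable measurable_const
  refine le_trans ?_ (int_bound hF (hq.q0 n) (hq.S0 n))
  rw [← integral_indicator hA]
  refine integral_mono ((int_EE hF (q n)).indicator hA)
    ((integrable_const _).sub (int_Sig hF (q n))) fun ν => ?_
  by_cases hν : chY γ ν < 0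
  · rw [indicator_of_mem (show ν ∈ {ν | chY γ ν < 0} from hν)]
    exact neg_Sig_of_neg hγ hγ' hν (hq.σ0 n) (hq.τ0 n) (hq.q0 n)
  · rw [indicator_of_notMem (show ν ∉ {ν | chY γ ν < 0} from hν)]
    exact one_sub_Sig_nonneg hγ hγ' ν (hq.σ0 n) (hq.τ0 n) (hq.q0 n)

lemma E_le_one (hγ : 0 < γ) (hγ' : γ < π / 2) {ν : ℝ} (hx : 0 < chX γ ν) (hy : 0 ≤ chY γ ν)
    {q : P} (hσ : sg γ q ≤ 0) (hτ : ta γ q ≤ 0) (hq : q.1 ≤ 0) : EE ν q ≤ 1 := by
  have hd : cos (ν / 2 - γ) ≠ 0 := by intro h0; apply hx.ne'; unfold chX; rw [h0]; ring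
  have hsc : 0 ≤ sin (ν / 2) * cos (ν / 2) := by
    have h1 : 0 ≤ (sin (ν / 2) * cos (ν / 2)) * cos (ν / 2 - γ) ^ 2 := by
      have : (sin (ν / 2) * cos (ν / 2)) * cos (ν / 2 - γ) ^ 2 = chX γ ν * chY γ ν := by
        unfold chX chY; ring
      rw [this]; positivity
    have h2 : 0 < cos (ν / 2 - γ) ^ 2 := by positivity
    exact nonneg_of_mul_nonneg_left h1 h2
  rw [EE_phi]
  apply Real.exp_le_one_iff.2
  have h3 := q2_nonpos hγ hγ' hσ hτ
  nlinarith [mul_nonneg hsc (neg_nonneg.2 h3), mul_nonneg (sq_nonneg (cos (ν / 2))) (neg_nonneg.2 hq)]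

lemma gt_eq {a : ℝ} (ha : a ≠ 0) (τ : ℝ) : gt a τ = (1 - Real.exp (-(τ * a))) / a := by
  unfold gt
  have h : ∀ x ∈ uIcc (0 : ℝ) τ,
      HasDerivAt (fun t => Real.exp (-(t * a)) * (-(1 / a))) (Real.exp (-(x * a))) x := by
    intro x _
    have h1 : HasDerivAt (fun t : ℝ => -(t * a)) (-a) x := by
      simpa using (hasDerivAt_id x).mul_const (-a)
    have h2 := (h1.exp).mul_const (-(1 / a))
    have h3 : Real.exp (-(x * a)) * (-a) * (-(1 / a)) = Real.exp (-(x * a)) := by field_simp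
    rw [h3] at h2
    exact h2
  rw [intervalIntegral.integral_eq_sub_of_hasDerivAt h
    ((by fun_prop : Continuous fun t : ℝ => Real.exp (-(t * a))).intervalIntegrable _ _)]
  simp
  ring

lemma inv_chX_integrable (hae : ∀ᵐ ν ∂M, 0 < chX γ ν)
    (hI : ∫⁻ ν, (ENNReal.ofReal (chX γ ν))⁻¹ ∂M ≠ ⊤) :
    Integrable (fun ν => (chX γ ν)⁻¹) M := by
  refine ⟨(chX_continuous γ).measurable.inv.aestronglyMeasurable, ?_⟩
  unfold HasFiniteIntegral
  refine lt_of_le_of_lt (lintegral_mono_ae ?_) (lt_top_iff_ne_top.2 hI)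
  filter_upwards [hae] with ν hν
  rw [Real.enorm_eq_ofReal (inv_pos.2 hν).le, ENNReal.ofReal_inv_of_pos hν]

lemma I0_finite (hI : ∫⁻ ν, (ENNReal.ofReal (chX γ ν))⁻¹ ∂M ≠ ⊤) :
    ∫⁻ ν, (ENNReal.ofReal |cos (ν / 2 - γ)|)⁻¹ ∂M ≠ ⊤ := by
  refine ne_top_of_le_ne_top hI (lintegral_mono fun ν => ?_)
  rw [ENNReal.inv_le_inv]
  apply ENNReal.ofReal_le_ofReal
  unfold chX
  calc cos (ν / 2) * cos (ν / 2 - γ) ≤ |cos (ν / 2) * cos (ν / 2 - γ)| := le_abs_self _
    _ = |cos (ν / 2)| * |cos (ν / 2 - γ)| := abs_mul _ _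
    _ ≤ 1 * |cos (ν / 2 - γ)| := mul_le_mul_of_nonneg_right (abs_cos_le_one _) (abs_nonneg _)
    _ = _ := one_mul _

lemma kx_div {ν : ℝ} (h : chX γ ν ≠ 0) (q : P) :
    kx (ν / 2) q / cos (ν / 2 - γ) = (EE ν q - 1) / chX γ ν := by
  have hc : cos (ν / 2) ≠ 0 := by intro h0; apply h; unfold chX; rw [h0]; ring
  have hd : cos (ν / 2 - γ) ≠ 0 := by intro h0; apply h; unfold chX; rw [h0]; ring
  rw [← cos_kx]; unfold chX
  rw [mul_div_mul_left _ _ hc]

/-- the case of finite `∫ 1 / ξ` -/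
lemma R3_false (hγ : 0 < γ) (hγ' : γ < π / 2) (hF : TypeI γ b M F)
    (hI : ∫⁻ ν, (ENNReal.ofReal (chX γ ν))⁻¹ ∂M ≠ ⊤) (hb : 0 < bp γ b M) {q : ℕ → P}
    (hq : Seq γ N F q) : False := by
  have := hF.fin
  have hcg := cg_pos hγ hγ'
  have hsg := sg_pos hγ hγ'
  have hae := ae_chX_pos hγ hγ' hF hq
  have hinv := inv_chX_integrable hae hI
  have hA : MeasurableSet {ν : ℝ | chY γ ν < 0} :=
    measurableSet_lt (chY_continuous γ).measurable measurable_const
  set C : ℝ := (1 + cos γ / sin γ) * M.real univ + 2 * N + |b| with hC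
  set cot : ℝ := cos γ / sin γ with hcot
  set b' : ℝ := bp γ b M with hb'
  set B : ℕ → Set ℝ := fun n => {ν | -(ta γ (q n)) * chX γ ν < 1} with hB
  have hBm : ∀ n, MeasurableSet (B n) := fun n =>
    measurableSet_lt ((chX_continuous γ).measurable.const_mul _) measurable_const
  set ε : ℕ → ℝ := fun n => ∫ ν, (B n).indicator (fun ν => (chX γ ν)⁻¹) ν ∂M with hε
  have hε0 : Tendsto ε atTop (𝓝 0) := by
    have h0 : (0 : ℝ) = ∫ ν, (0 : ℝ) ∂M := by simp
    rw [h0]
    refine tendsto_integral_of_dominated_convergence (fun ν => ‖(chX γ ν)⁻¹‖)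
      (fun n => (hinv.indicator (hBm n)).aestronglyMeasurable) hinv.norm ?_ ?_
    · intro n
      refine ae_of_all _ fun ν => ?_
      exact norm_indicator_le_norm_self _ _
    · filter_upwards [hae] with ν hν
      have h1 : Tendsto (fun n => -(ta γ (q n)) * chX γ ν) atTop atTop :=
        (tendsto_neg_atBot_atTop.comp hq.τt).atTop_mul_const hν
      refine tendsto_const_nhds.congr' ?_
      filter_upwards [h1.eventually_ge_atTop 1] with n hn
      rw [indicator_of_notMem]
      show ¬ (-(ta γ (q n)) * chX γ ν < 1)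
      exact not_lt.2 hn
  -- the main inequality
  have hmain : ∀ n, b' * (Real.exp (-(ta γ (q n) * sin γ)) - 1) ≤
      N + sin γ * (-(ta γ (q n)) * C + Real.exp cot * Real.exp (-(ta γ (q n) * sin γ)) * ε n) := by
    intro n
    obtain ⟨-, hki, -, hX, -, -⟩ := typeI_finite hF (I0_finite hI) (q n)
    set Ec : ℝ := Real.exp (-(ta γ (q n) * sin γ)) with hEc
    have hτ := hq.τ0 n
    have h1 : ∫ ν, kx (ν / 2) (q n) / cos (ν / 2 - γ) ∂M ≤
        -(ta γ (q n)) * C + Real.exp cot * Ec * ε n := by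
      have hi1 : Integrable (fun ν => -(ta γ (q n)) * ({ν | chY γ ν < 0} : Set ℝ).indicator
          (fun ν => EE ν (q n)) ν) M := ((int_EE hF (q n)).indicator hA).const_mul _
      have hi2 : Integrable (fun ν => Real.exp cot * Ec *
          (B n).indicator (fun ν => (chX γ ν)⁻¹) ν) M := (hinv.indicator (hBm n)).const_mul _
      have h2 : ∫ ν, kx (ν / 2) (q n) / cos (ν / 2 - γ) ∂M ≤
          ∫ ν, (-(ta γ (q n)) * ({ν | chY γ ν < 0} : Set ℝ).indicator (fun ν => EE ν (q n)) ν +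
            Real.exp cot * Ec * (B n).indicator (fun ν => (chX γ ν)⁻¹) ν) ∂M := by
        refine integral_mono_ae hki (hi1.add hi2) ?_
        filter_upwards [hae] with ν hν
        show kx (ν / 2) (q n) / cos (ν / 2 - γ) ≤
          -(ta γ (q n)) * ({ν | chY γ ν < 0} : Set ℝ).indicator (fun ν => EE ν (q n)) ν +
            Real.exp cot * Ec * (B n).indicator (fun ν => (chX γ ν)⁻¹) ν
        rw [kx_div hν.ne']
        have hnn2 : 0 ≤ Real.exp cot * Ec * (B n).indicator (fun ν => (chX γ ν)⁻¹) ν := by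
          refine mul_nonneg (by positivity) (indicator_apply_nonneg fun _ => ?_)
          exact (inv_pos.2 hν).le
        rcases lt_or_ge (chY γ ν) 0 with hy | hy
        · rw [indicator_of_mem (show ν ∈ {ν | chY γ ν < 0} from hy)]
          have hnn1 : 0 ≤ -(ta γ (q n)) * EE ν (q n) :=
            mul_nonneg (by linarith) (EE_pos ν (q n)).le
          by_cases hb1 : -(ta γ (q n)) * chX γ ν < 1
          · rw [indicator_of_mem (show ν ∈ B n from hb1)]
            have hE : EE ν (q n) ≤ Real.exp cot * Ec := by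
              rw [EE_eq_Ec γ, mul_comm (Real.exp cot)]
              refine mul_le_mul_of_nonneg_left (Real.exp_le_exp.2 ?_) (Real.exp_pos _).le
              have h3 := (chX_pos_of_neg hγ hγ' hy).2.2
              have h4 : ta γ (q n) * chY γ ν ≤ cot := by
                have h5 : -(chY γ ν) ≤ cot * chX γ ν := by
                  rw [hcot, div_mul_eq_mul_div, le_div_iff₀ hsg]; linarith
                have h6 : 0 < cot := div_pos hcg hsg
                calc ta γ (q n) * chY γ ν = -(ta γ (q n)) * -(chY γ ν) := by ring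
                  _ ≤ -(ta γ (q n)) * (cot * chX γ ν) :=
                      mul_le_mul_of_nonneg_left h5 (by linarith)
                  _ = cot * (-(ta γ (q n)) * chX γ ν) := by ring
                  _ ≤ cot * 1 := mul_le_mul_of_nonneg_left hb1.le h6.le
                  _ = cot := mul_one _
              have h7 : sg γ (q n) * chX γ ν ≤ 0 :=
                mul_nonpos_of_nonpos_of_nonneg (hq.σ0 n) hν.le
              linarith
            have h8 : (EE ν (q n) - 1) / chX γ ν ≤ Real.exp cot * Ec * (chX γ ν)⁻¹ := by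
              rw [div_eq_mul_inv]
              exact mul_le_mul_of_nonneg_right (by linarith) (inv_pos.2 hν).le
            linarith
          · push Not at hb1
            have h9 : (EE ν (q n) - 1) / chX γ ν ≤ -(ta γ (q n)) * EE ν (q n) := by
              rw [div_le_iff₀ hν]
              have := mul_le_mul_of_nonneg_right hb1 (EE_pos ν (q n)).le
              linarith
            linarith
        · rw [indicator_of_notMem (show ν ∉ {ν | chY γ ν < 0} from not_lt.2 hy)]
          have hE := E_le_one hγ hγ' hν hy (hq.σ0 n) (hq.τ0 n) (hq.q0 n)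
          have : (EE ν (q n) - 1) / chX γ ν ≤ 0 :=
            div_nonpos_of_nonpos_of_nonneg (by linarith) hν.le
          linarith
      refine h2.trans ?_
      rw [integral_add hi1 hi2, integral_const_mul, integral_const_mul, integral_indicator hA]
      have h3 := mul_le_mul_of_nonneg_left (int_E_bound hγ hγ' hF hq n)
        (by linarith : 0 ≤ -(ta γ (q n)))
      linarith
    have h4 := hq.f0 n
    rw [hX, gt_eq hsg.ne', ← hEc, ← hb'] at h4
    have h5 : sin γ * (b' * ((1 - Ec) / sin γ) +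
        ∫ ν, kx (ν / 2) (q n) / cos (ν / 2 - γ) ∂M) =
        b' * (1 - Ec) + sin γ * ∫ ν, kx (ν / 2) (q n) / cos (ν / 2 - γ) ∂M := by
      field_simp
    rw [h5] at h4
    have h6 := mul_le_mul_of_nonneg_left h1 hsg.le
    linarith
  -- the limit
  set a : ℕ → ℝ := fun n => -(ta γ (q n)) * sin γ with ha
  have hat : Tendsto a atTop atTop := (tendsto_neg_atBot_atTop.comp hq.τt).atTop_mul_const hsg
  have hlim : Tendsto (fun n => (N + b') * Real.exp (-(a n)) + C * (a n ^ 1 * Real.exp (-(a n))) +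
      sin γ * Real.exp cot * ε n) atTop (𝓝 ((N + b') * 0 + C * 0 + sin γ * Real.exp cot * 0)) := by
    have h1 : Tendsto (fun n => Real.exp (-(a n))) atTop (𝓝 0) :=
      Real.tendsto_exp_neg_atTop_nhds_zero.comp hat
    have h2 : Tendsto (fun n => a n ^ 1 * Real.exp (-(a n))) atTop (𝓝 0) :=
      (Real.tendsto_pow_mul_exp_neg_atTop_nhds_zero 1).comp hat
    exact ((h1.const_mul _).add (h2.const_mul _)).add (hε0.const_mul _)
  have hle : ∀ n, b' ≤ (N + b') * Real.exp (-(a n)) + C * (a n ^ 1 * Real.exp (-(a n))) +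
      sin γ * Real.exp cot * ε n := by
    intro n
    have h1 := hmain n
    have h2 : -(ta γ (q n) * sin γ) = a n := by simp only [ha]; ring
    rw [h2] at h1
    have h3 : Real.exp (a n) * Real.exp (-(a n)) = 1 := by rw [← Real.exp_add]; simp
    have h4 := mul_le_mul_of_nonneg_right h1 (Real.exp_pos (-(a n))).le
    have e1 : b' * (Real.exp (a n) - 1) * Real.exp (-(a n)) = b' - b' * Real.exp (-(a n)) := by
      linear_combination b' * h3
    have e2 : (N + sin γ * (-(ta γ (q n)) * C + Real.exp cot * Real.exp (a n) * ε n)) *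
        Real.exp (-(a n)) = N * Real.exp (-(a n)) + C * (a n ^ 1 * Real.exp (-(a n))) +
        sin γ * Real.exp cot * ε n := by
      have : a n = -(ta γ (q n)) * sin γ := rfl
      rw [pow_one]
      linear_combination (sin γ * Real.exp cot * ε n) * h3 -
        (C * Real.exp (-(a n))) * this
    rw [e1, e2] at h4
    linarith
  have h9 := ge_of_tendsto' hlim hle
  simp at h9
  linarith

/-- in the case `∫_{η < 0} 1 / ξ = ∞` the ratio `τ / σ` tends to zero -/
lemma ratio (hγ : 0 < γ) (hγ' : γ < π / 2) (hF : TypeI γ b M F)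
    (hJ : ∫⁻ ν in {ν | chY γ ν < 0}, (ENNReal.ofReal (chX γ ν))⁻¹ ∂M = ⊤) {q : ℕ → P}
    (hq : Seq γ N F q) {ρ : ℝ} (hρ : 0 < ρ) :
    ∀ᶠ n in atTop, -(ta γ (q n)) ≤ ρ * -(sg γ (q n)) := by
  have := hF.fin
  have hsg := sg_pos hγ hγ'
  by_contra hcon
  rw [not_eventually] at hcon
  set C : ℝ := (1 + cos γ / sin γ) * M.real univ + 2 * N + |b| with hC
  set A : Set ℝ := {ν | chY γ ν < 0} with hA0
  have hA : MeasurableSet A :=
    measurableSet_lt (chY_continuous γ).measurable measurable_const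
  set A' : Set ℝ := A ∩ {ν | chX γ ν ≤ ρ * sin γ / 2} with hA'0
  have hA' : MeasurableSet A' := hA.inter
    (measurableSet_le (chX_continuous γ).measurable measurable_const)
  have hpos : M A' ≠ 0 := by
    intro h0
    have h1 : ∀ᵐ ν ∂(M.restrict A), (ENNReal.ofReal (chX γ ν))⁻¹ ≤
        (ENNReal.ofReal (ρ * sin γ / 2))⁻¹ := by
      rw [ae_restrict_iff' hA]
      have h2 : ∀ᵐ ν ∂M, ν ∉ A' := by
        rw [ae_iff]; simpa using h0
      filter_upwards [h2] with ν hν hνA
      rw [ENNReal.inv_le_inv]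
      apply ENNReal.ofReal_le_ofReal
      by_contra hn
      push Not at hn
      exact hν ⟨hνA, hn.le⟩
    have h3 := lintegral_mono_ae h1
    rw [hJ, lintegral_const] at h3
    have h4 : (ENNReal.ofReal (ρ * sin γ / 2))⁻¹ * (M.restrict A) univ ≠ ⊤ := by
      refine ENNReal.mul_ne_top ?_ (measure_ne_top _ _)
      rw [Ne, ENNReal.inv_eq_top, ENNReal.ofReal_eq_zero, not_le]
      positivity
    exact h4 (top_le_iff.1 h3)
  have hpos' : 0 < M.real A' := by
    rw [Measure.real, ENNReal.toReal_pos_iff]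
    exact ⟨pos_iff_ne_zero.2 hpos, (measure_lt_top M A')⟩
  have htend : Tendsto (fun n => M.real A' * Real.exp (-(ta γ (q n)) * (sin γ / 2))) atTop atTop := by
    have h1 : Tendsto (fun n => -(ta γ (q n)) * (sin γ / 2)) atTop atTop :=
      (tendsto_neg_atBot_atTop.comp hq.τt).atTop_mul_const (by positivity)
    exact (Real.tendsto_exp_atTop.comp h1).const_mul_atTop hpos'
  obtain ⟨n, hn1, hn2⟩ := (hcon.and_eventually (htend.eventually_gt_atTop C)).exists
  rw [not_le] at hn1
  have hEA : ∀ ν ∈ A', Real.exp (-(ta γ (q n)) * (sin γ / 2)) ≤ EE ν (q n) := by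
    rintro ν ⟨hνA, hνx⟩
    have hy : chY γ ν < 0 := hνA
    have hx0 := (chX_pos_of_neg hγ hγ' hy).1
    have hνx' : chX γ ν ≤ ρ * sin γ / 2 := hνx
    rw [EE_eq γ]
    apply Real.exp_le_exp.2
    have h1 : -(sg γ (q n)) * chX γ ν ≤ -(ta γ (q n)) * (sin γ / 2) := by
      have h2 : -(sg γ (q n)) * chX γ ν ≤ -(sg γ (q n)) * (ρ * sin γ / 2) :=
        mul_le_mul_of_nonneg_left hνx' (by linarith [hq.σ0 n])
      have h3 : -(sg γ (q n)) * (ρ * sin γ / 2) = (ρ * -(sg γ (q n))) * (sin γ / 2) := by ring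
      have h4 : (ρ * -(sg γ (q n))) * (sin γ / 2) ≤ -(ta γ (q n)) * (sin γ / 2) :=
        mul_le_mul_of_nonneg_right hn1.le (by positivity)
      linarith
    have h5 : 0 ≤ -(ta γ (q n)) * -(chY γ ν) :=
      mul_nonneg (by linarith [hq.τ0 n]) (by linarith)
    nlinarith
  have h6 : M.real A' * Real.exp (-(ta γ (q n)) * (sin γ / 2)) ≤ ∫ ν in A', EE ν (q n) ∂M := by
    have h7 : ∫ ν in A', Real.exp (-(ta γ (q n)) * (sin γ / 2)) ∂M =
        M.real A' * Real.exp (-(ta γ (q n)) * (sin γ / 2)) := by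
      rw [setIntegral_const, smul_eq_mul]
    rw [← h7]
    exact setIntegral_mono_on (integrable_const _).integrableOn (int_EE hF (q n)).integrableOn hA' hEA
  have h8 : ∫ ν in A', EE ν (q n) ∂M ≤ ∫ ν in A, EE ν (q n) ∂M :=
    setIntegral_mono_set (int_EE hF (q n)).integrableOn (ae_of_all _ fun ν => (EE_pos ν (q n)).le)
      (inter_subset_left.eventuallyLE)
  have h9 := int_E_bound hγ hγ' hF hq n
  linarith

/-- the case of infinite `∫_{η < 0} 1 / ξ` -/
lemma R1_false (hγ : 0 < γ) (hγ' : γ < π / 2) (hF : TypeI γ b M F)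
    (hJ : ∫⁻ ν in {ν | chY γ ν < 0}, (ENNReal.ofReal (chX γ ν))⁻¹ ∂M = ⊤) {q : ℕ → P}
    (hq : Seq γ N F q) : False := by
  have := hF.fin
  have hcg := cg_pos hγ hγ'
  have hsg := sg_pos hγ hγ'
  have hae := ae_chX_pos hγ hγ' hF hq
  have hcot : 0 < cos γ / sin γ := div_pos hcg hsg
  set cot : ℝ := cos γ / sin γ with hcotdef
  have hA : MeasurableSet {ν : ℝ | chY γ ν < 0} :=
    measurableSet_lt (chY_continuous γ).measurable measurable_const
  set C : ℝ := |b| + |N| + cot * M.real univ with hC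
  -- the functions
  set Ec : ℕ → ℝ := fun n => Real.exp (-(ta γ (q n) * sin γ)) with hEc
  have hEc1 : ∀ n, 1 ≤ Ec n := fun n => by
    apply Real.one_le_exp
    have := mul_nonneg (neg_nonneg.2 (hq.τ0 n)) hsg.le
    linarith
  set g : ℕ → ℝ → ℝ := fun n ν =>
    (cot * Ec n + (kk γ ν (q n) - sin (ν / 2) * kx (ν / 2) (q n))) / Ec n with hg
  have hgi : ∀ n, Integrable (g n) M := fun n =>
    ((integrable_const _).add ((int_kk hF (q n)).sub (int_skx hF (q n)))).div_const _
  have hgint : ∀ n, ∫ ν, g n ν ∂M ≤ C := by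
    intro n
    have h1 := f_formula hF (q n)
    have h2 := hq.f0 n
    rw [h1] at h2
    have hE0 : 0 < Ec n := lt_of_lt_of_le one_pos (hEc1 n)
    have h3 : ∫ ν, g n ν ∂M = (cot * Ec n * M.real univ +
        ∫ ν, (kk γ ν (q n) - sin (ν / 2) * kx (ν / 2) (q n)) ∂M) / Ec n := by
      have hi2 : Integrable (fun ν => kk γ ν (q n) - sin (ν / 2) * kx (ν / 2) (q n)) M :=
        (int_kk hF (q n)).sub (int_skx hF (q n))
      simp only [hg]
      rw [integral_div, integral_add (integrable_const _) hi2, integral_const, smul_eq_mul]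
      ring
    rw [h3, div_le_iff₀ hE0]
    have h4 : -b * (Ec n - 1) ≤ |b| * Ec n := by
      have h5 : -b * (Ec n - 1) ≤ |b| * (Ec n - 1) :=
        mul_le_mul_of_nonneg_right (neg_le_abs b) (by linarith [hEc1 n])
      have := abs_nonneg b
      nlinarith
    have h6 : N ≤ |N| * Ec n := by
      have := le_abs_self N
      have h7 := abs_nonneg N
      nlinarith [hEc1 n]
    simp only [hC]
    have h8 : -b * (Real.exp (-(ta γ (q n) * sin γ)) - 1) = -b * (Ec n - 1) := rfl
    rw [h8] at h2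
    linarith
  -- nonnegativity for large `n`
  have hrat := ratio hγ hγ' hF hJ hq (ρ := sin γ / cos γ) (div_pos hsg hcg)
  have hEle : ∀ᶠ n in atTop, ∀ ν, chY γ ν < 0 →
      sg γ (q n) * chX γ ν + ta γ (q n) * chY γ ν ≤ 0 := by
    filter_upwards [hrat] with n hn ν hy
    obtain ⟨hx0, -, hx2⟩ := chX_pos_of_neg hγ hγ' hy
    have h1 : -(ta γ (q n)) * cos γ ≤ sin γ * -(sg γ (q n)) := by
      rw [div_mul_eq_mul_div, le_div_iff₀ hcg] at hn
      exact hn
    have h2 : -(ta γ (q n)) * cos γ * -(chY γ ν) ≤ sin γ * -(sg γ (q n)) * -(chY γ ν) :=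
      mul_le_mul_of_nonneg_right h1 (by linarith)
    have h3 : -(sg γ (q n)) * (-(chY γ ν) * sin γ) ≤ -(sg γ (q n)) * (chX γ ν * cos γ) :=
      mul_le_mul_of_nonneg_left hx2 (by linarith [hq.σ0 n])
    have h4 : (sg γ (q n) * chX γ ν + ta γ (q n) * chY γ ν) * cos γ ≤ 0 := by nlinarith
    by_contra hcon
    push Not at hcon
    exact absurd h4 (not_le.2 (mul_pos hcon hcg))
  have hlow : ∀ n, (∀ ν, chY γ ν < 0 → sg γ (q n) * chX γ ν + ta γ (q n) * chY γ ν ≤ 0) →
      ∀ ν, chY γ ν < 0 →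
      sin γ * (1 - Real.exp (sg γ (q n) * chX γ ν + ta γ (q n) * chY γ ν)) / chX γ ν ≤ g n ν := by
    intro n hn ν hy
    obtain ⟨hx0, -, hx2⟩ := chX_pos_of_neg hγ hγ' hy
    have hE0 : 0 < Ec n := lt_of_lt_of_le one_pos (hEc1 n)
    simp only [hg]
    rw [kk_sub_skx hx0.ne', le_div_iff₀ hE0]
    have h1 : EE ν (q n) = Ec n * Real.exp (sg γ (q n) * chX γ ν + ta γ (q n) * chY γ ν) :=
      EE_eq_Ec γ ν (q n)
    have h2 : Real.exp (-(ta γ (q n) * sin γ)) = Ec n := rfl
    rw [h1, h2]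
    set e := Real.exp (sg γ (q n) * chX γ ν + ta γ (q n) * chY γ ν) with he
    have h3 : sin γ * (1 - e) / chX γ ν * Ec n = (sin γ * (Ec n - Ec n * e)) / chX γ ν := by ring
    rw [h3]
    have h4 : (sin γ * (Ec n - Ec n * e)) / chX γ ν ≤
        (sin γ * (Ec n - Ec n * e) - chY γ ν * (Ec n - 1)) / chX γ ν := by
      apply div_le_div_of_nonneg_right _ hx0.le
      have := mul_nonneg (by linarith : 0 ≤ -(chY γ ν)) (by linarith [hEc1 n] : 0 ≤ Ec n - 1)
      linarith
    have h5 : 0 ≤ cot * Ec n := by positivity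
    linarith
  have hnn : ∀ᶠ n in atTop, 0 ≤ᵐ[M] g n := by
    filter_upwards [hEle] with n hn
    filter_upwards [hae] with ν hν
    show 0 ≤ g n ν
    rcases lt_or_ge (chY γ ν) 0 with hy | hy
    · refine le_trans ?_ (hlow n hn ν hy)
      have h1 := Real.exp_le_one_iff.2 (hn ν hy)
      exact div_nonneg (mul_nonneg hsg.le (by linarith)) hν.le
    · have hE0 : 0 < Ec n := lt_of_lt_of_le one_pos (hEc1 n)
      simp only [hg]
      rw [kk_sub_skx hν.ne']
      apply div_nonneg _ hE0.le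
      have hE1 := E_le_one hγ hγ' hν hy (hq.σ0 n) (hq.τ0 n) (hq.q0 n)
      have h2 : Real.exp (-(ta γ (q n) * sin γ)) = Ec n := rfl
      rw [h2]
      -- `(sin γ - η) / ξ ≥ - cot γ`
      have h3 : -cot * chX γ ν ≤ sin γ - chY γ ν := by
        have h4 := circ γ ν
        rcases le_or_gt (chY γ ν) (sin γ) with hys | hys
        · have := mul_nonneg hcot.le hν.le
          linarith
        · have h7 : (chY γ ν - sin γ) * sin γ ≤ chX γ ν * cos γ := by nlinarith
          have h8 : chY γ ν - sin γ ≤ cot * chX γ ν := by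
            rw [hcotdef, div_mul_eq_mul_div, le_div_iff₀ hsg]; linarith
          linarith
      have h5 : -cot * (Ec n - 1) ≤ (sin γ - chY γ ν) * (Ec n - 1) / chX γ ν := by
        rw [le_div_iff₀ hν]
        have := mul_le_mul_of_nonneg_right h3 (by linarith [hEc1 n] : 0 ≤ Ec n - 1)
        linarith
      have h6 : (sin γ - chY γ ν) * (Ec n - 1) / chX γ ν ≤
          (sin γ * (Ec n - EE ν (q n)) - chY γ ν * (Ec n - 1)) / chX γ ν := by
        apply div_le_div_of_nonneg_right _ hν.le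
        nlinarith
      nlinarith
  -- Fatou
  have key := fatou_on (M := M) (f := g) (fun n => (hgi n).aemeasurable)
    (g := fun ν => ENNReal.ofReal (sin γ / 2) * (ENNReal.ofReal (chX γ ν))⁻¹) hA ?_
    (C := ENNReal.ofReal C) ?_
  · rw [lintegral_const_mul' _ _ ENNReal.ofReal_ne_top, hJ,
      ENNReal.mul_top (by simp only [ne_eq, ENNReal.ofReal_eq_zero, not_le]; positivity)] at key
    exact absurd key (by simp)
  · intro ν hν
    have hy : chY γ ν < 0 := hν
    obtain ⟨hx0, -, hx2⟩ := chX_pos_of_neg hγ hγ' hy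
    have e1 : ENNReal.ofReal (sin γ / 2) * (ENNReal.ofReal (chX γ ν))⁻¹ =
        ENNReal.ofReal (sin γ / 2 / chX γ ν) := by
      rw [ENNReal.ofReal_div_of_pos hx0]
      exact (div_eq_mul_inv _ _).symm
    show ENNReal.ofReal (sin γ / 2) * (ENNReal.ofReal (chX γ ν))⁻¹ ≤ _
    rw [e1]
    -- the exponent tends to `-∞`
    set ρ : ℝ := chX γ ν / (2 * -(chY γ ν)) with hρ
    have hρ0 : 0 < ρ := div_pos hx0 (by linarith)
    have hrat2 := ratio hγ hγ' hF hJ hq hρ0
    have htend : Tendsto (fun n => sg γ (q n) * (chX γ ν / 2)) atTop atBot :=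
      hq.σt.atBot_mul_const (by positivity)
    have hexp := (Real.tendsto_exp_atBot.comp htend).eventually (gt_mem_nhds (by norm_num : (0:ℝ) < 1 / 2))
    refine le_liminf_of_le (by isBoundedDefault) ?_
    filter_upwards [hrat2, hexp, hEle] with n hn1 hn2 hn3
    apply ENNReal.ofReal_le_ofReal
    refine le_trans ?_ (hlow n hn3 ν hy)
    have h1 : sg γ (q n) * chX γ ν + ta γ (q n) * chY γ ν ≤ sg γ (q n) * (chX γ ν / 2) := by
      have h2 : -(ta γ (q n)) * -(chY γ ν) ≤ ρ * -(sg γ (q n)) * -(chY γ ν) :=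
        mul_le_mul_of_nonneg_right hn1 (by linarith)
      have h3 : ρ * -(sg γ (q n)) * -(chY γ ν) = -(sg γ (q n)) * (chX γ ν / 2) := by
        have hyne : chY γ ν ≠ 0 := hy.ne
        rw [hρ]; field_simp
      nlinarith
    have h4 : Real.exp (sg γ (q n) * chX γ ν + ta γ (q n) * chY γ ν) ≤ 1 / 2 :=
      (Real.exp_le_exp.2 h1).trans (le_of_lt hn2)
    apply div_le_div_of_nonneg_right _ hx0.le
    nlinarith
  · filter_upwards [hnn] with n hn
    rw [← ofReal_integral_eq_lintegral_ofReal (hgi n) hn]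
    exact ENNReal.ofReal_le_ofReal (hgint n)

/-- the main lemma -/
theorem main_lemma (hγ : 0 < γ) (hγ' : γ < π / 2) (hF : TypeI γ b M F)
    (h1 : ∫⁻ ν, (ENNReal.ofReal (chX γ ν))⁻¹ ∂M = ⊤ ∨ 0 < bp γ b M) {q : ℕ → P}
    (hq : Seq γ N F q) : False := by
  by_cases hI : ∫⁻ ν, (ENNReal.ofReal (chX γ ν))⁻¹ ∂M = ⊤
  · refine R1_false hγ hγ' hF ?_ hq
    have hA : MeasurableSet {ν : ℝ | chY γ ν < 0} :=
      measurableSet_lt (chY_continuous γ).measurable measurable_const
    have h2 := lintegral_add_compl (μ := M) (fun ν => (ENNReal.ofReal (chX γ ν))⁻¹) hA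
    rw [hI] at h2
    by_contra hcon
    have h3 : {ν : ℝ | chY γ ν < 0}ᶜ = {ν | 0 ≤ chY γ ν} := by
      ext ν; simp
    rw [h3] at h2
    exact (ENNReal.add_ne_top.2 ⟨hcon, J1_finite hγ hγ' hF hq⟩) h2
  · exact R3_false hγ hγ' hF hI (h1.resolve_left hI) hq

end Pool.Agent.EU.D6
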