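import Pool.Agent.EU.D6M

/-!
Module D6, part S: the starting point of the path.
-/

set_option autoImplicit false
open scoped ContDiff Topology ENNReal
open Real Set MeasureTheory Filter

namespace Pool.Agent.EU.D6

variable {γ b N : ℝ} {M : Measure ℝ} {F : P → P}

/-- the point with coordinates `σ, τ` -/
noncomputable def pt (γ σ τ : ℝ) : P := (σ * cos γ - τ * sin γ, σ * sin γ + τ * cos γ)

lemma sg_pt (γ σ τ : ℝ) : sg γ (pt γ σ τ) = σ := by
  unfold sg pt; simp only; linear_combination σ * sin_sq_add_cos_sq γ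

lemma ta_pt (γ σ τ : ℝ) : ta γ (pt γ σ τ) = τ := by
  unfold ta pt; simp only; linear_combination τ * sin_sq_add_cos_sq γ

lemma chX_le_one (γ ν : ℝ) : |chX γ ν| ≤ 1 := by
  unfold chX; rw [abs_mul]
  exact mul_le_one₀ (abs_cos_le_one _) (abs_nonneg _) (abs_cos_le_one _)

lemma chY_le_one (γ ν : ℝ) : |chY γ ν| ≤ 1 := by
  unfold chY; rw [abs_mul]
  exact mul_le_one₀ (abs_sin_le_one _) (abs_nonneg _) (abs_cos_le_one _)

/-! ### lower bounds for the kernel of `cos γ exp q₁ Y` -/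

/-- `ξ ≤ 0` -/
lemma Gam_low (hγ : 0 < γ) (hγ' : γ < π / 2) {ν : ℝ} (h : chX γ ν ≤ 0) {q : P}
    (hR : 1 ≤ -(sg γ q) * cos γ) :
    -(-(ta γ q) * cos γ * Real.exp (-(ta γ q * sin γ))) ≤
      kk γ ν q + Real.exp q.1 * (cos (ν / 2) * ky (ν / 2) q) := by
  obtain ⟨hy0, hy1, -⟩ := chY_of_chX_nonpos hγ hγ' h
  have hcg := cg_pos hγ hγ'
  have hsg := sg_pos hγ hγ'
  set Ec : ℝ := Real.exp (-(ta γ q * sin γ)) with hEc
  have hE0 : 0 < Ec := Real.exp_pos _
  rcases hy0.lt_or_eq with hy | hy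
  · rw [kk_add_cky hy.ne', le_div_iff₀ hy]
    have h1 : Ec * (sg γ q * chX γ ν + ta γ q * chY γ ν) ≤ EE ν q - Ec := by
      rw [EE_eq_Ec γ, ← hEc]
      have := Real.add_one_le_exp (sg γ q * chX γ ν + ta γ q * chY γ ν)
      nlinarith
    have h2 : 0 ≤ -(chX γ ν) * Real.exp q.1 := mul_nonneg (by linarith) (Real.exp_pos _).le
    have h3 : cos γ * (Ec * (sg γ q * chX γ ν + ta γ q * chY γ ν)) ≤ cos γ * (EE ν q - Ec) :=
      mul_le_mul_of_nonneg_left h1 hcg.le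
    have h4 : 0 ≤ Ec * (-(chX γ ν)) * (-(sg γ q) * cos γ - 1) :=
      mul_nonneg (mul_nonneg hE0.le (by linarith)) (by linarith)
    nlinarith
  · -- the cut
    have hc1 := circ γ ν
    rw [← hy] at hc1
    have hx : chX γ ν = 0 := by nlinarith
    have hd : cos (ν / 2 - γ) = 0 := by
      have := circ_d γ ν
      rw [hx, ← hy] at this
      have h5 : cos (ν / 2 - γ) ^ 2 = 0 := by linarith
      exact pow_eq_zero_iff (two_ne_zero) |>.1 h5
    have hs1 : sin (ν / 2) * sin (ν / 2 - γ) = cos γ := by rw [sD_eq, hx]; ring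
    have hc1 : cos (ν / 2) * sin (ν / 2 - γ) = -sin γ := by rw [cD_eq, ← hy]; ring
    have hs : sin (ν / 2) ≠ 0 := by intro h0; rw [h0, zero_mul] at hs1; exact hcg.ne hs1
    have hD : sin (ν / 2 - γ) ≠ 0 := by intro h0; rw [h0, mul_zero] at hs1; exact hcg.ne hs1
    have h6 : cos (ν / 2) / sin (ν / 2) = -sin γ / cos γ := by
      rw [← hc1, ← hs1, mul_div_mul_right _ _ hD]
    rw [kk_of_zero hd, cky_of_ne hs, h6, ← hEc]
    have h7 : EE ν q = Ec := by rw [EE_eq_Ec γ, hx, ← hy, ← hEc]; simp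
    rw [h7]
    have h8 : -sin γ / cos γ * (Ec - Real.exp q.1) ≥ -sin γ / cos γ * Ec := by
      have : 0 ≤ sin γ / cos γ * Real.exp q.1 := by positivity
      have e : -sin γ / cos γ * (Ec - Real.exp q.1) =
          -sin γ / cos γ * Ec + sin γ / cos γ * Real.exp q.1 := by ring
      rw [e]; linarith
    have h9 : 0 ≤ Ec * (sin γ * (-(sg γ q) * cos γ - 1) / cos γ) :=
      mul_nonneg hE0.le (div_nonneg (mul_nonneg hsg.le (by linarith)) hcg.le)
    have h10 : Ec * (sin γ * (-(sg γ q) * cos γ - 1) / cos γ) =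
        Ec * (sg γ q * (-sin γ)) + -sin γ / cos γ * Ec := by
      field_simp; ring
    nlinarith

lemma tan_low (hγ : 0 < γ) (hγ' : γ < π / 2) {ν : ℝ} (hx : 0 < chX γ ν) (_hy : 0 ≤ chY γ ν) :
    -(cos γ / sin γ) * chX γ ν ≤ sin γ - chY γ ν := by
  have hcg := cg_pos hγ hγ'
  have hsg := sg_pos hγ hγ'
  have hcot : 0 < cos γ / sin γ := div_pos hcg hsg
  have h4 := circ γ ν
  rcases le_or_gt (chY γ ν) (sin γ) with hys | hys
  · have := mul_nonneg hcot.le hx.le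
    linarith
  · have h7 : (chY γ ν - sin γ) * sin γ ≤ chX γ ν * cos γ := by nlinarith
    have h8 : chY γ ν - sin γ ≤ cos γ / sin γ * chX γ ν := by
      rw [div_mul_eq_mul_div, le_div_iff₀ hsg]; linarith
    linarith

lemma kk_of_chX_ne {ν : ℝ} (h : chX γ ν ≠ 0) (q : P) :
    kk γ ν q = (sin γ - chY γ ν) / chX γ ν * (Real.exp (-(ta γ q * sin γ)) - EE ν q) := by
  have hc : cos (ν / 2) ≠ 0 := by intro h0; apply h; unfold chX; rw [h0]; ring
  have hd : cos (ν / 2 - γ) ≠ 0 := by intro h0; apply h; unfold chX; rw [h0]; ring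
  have h1 := cD_eq γ ν
  have e1 : sin (ν / 2 - γ) / cos (ν / 2 - γ) = (chY γ ν - sin γ) / chX γ ν := by
    rw [← h1]; unfold chX; rw [mul_div_mul_left _ _ hc]
  rw [kk_of_ne hd, e1]; ring

/-- `ξ > 0`, `η ≥ 0` -/
lemma kk_low (hγ : 0 < γ) (hγ' : γ < π / 2) {ν : ℝ} (hx : 0 < chX γ ν) (hy : 0 ≤ chY γ ν) {q : P}
    (hσ : sg γ q ≤ 0) (hτ : ta γ q ≤ 0) (hq : q.1 ≤ 0) :
    -(cos γ / sin γ) * Real.exp (-(ta γ q * sin γ)) ≤ kk γ ν q := by
  have hcg := cg_pos hγ hγ'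
  have hsg := sg_pos hγ hγ'
  have hcot : 0 < cos γ / sin γ := div_pos hcg hsg
  rw [kk_of_chX_ne hx.ne']
  have hE := E_le_one hγ hγ' hx hy hσ hτ hq
  have hE0 := EE_pos ν q
  have hEc : 1 ≤ Real.exp (-(ta γ q * sin γ)) := by
    apply Real.one_le_exp
    have := mul_nonneg (neg_nonneg.2 hτ) hsg.le
    linarith
  have h1 : -(cos γ / sin γ) ≤ (sin γ - chY γ ν) / chX γ ν := by
    rw [le_div_iff₀ hx]; exact tan_low hγ hγ' hx hy
  have h2 := mul_le_mul_of_nonneg_right h1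
    (by linarith : 0 ≤ Real.exp (-(ta γ q * sin γ)) - EE ν q)
  have h3 : 0 ≤ cos γ / sin γ * EE ν q := by positivity
  nlinarith

/-- `η < 0` -/
lemma kk_low' (hγ : 0 < γ) (hγ' : γ < π / 2) {ν : ℝ} (hy : chY γ ν < 0) {q : P}
    (h : sg γ q * chX γ ν + ta γ q * chY γ ν ≤ 0) : 0 ≤ kk γ ν q := by
  have hsg := sg_pos hγ hγ'
  obtain ⟨hx, -, -⟩ := chX_pos_of_neg hγ hγ' hy
  rw [kk_of_chX_ne hx.ne']
  apply mul_nonneg (div_nonneg (by linarith) hx.le)
  rw [EE_eq_Ec γ]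
  have h1 := Real.exp_le_one_iff.2 h
  have h2 := Real.exp_pos (-(ta γ q * sin γ))
  nlinarith

/-- `ξ > 0`, `η ≥ 0` -/
lemma cky_low (hγ : 0 < γ) (hγ' : γ < π / 2) {ν : ℝ} (hx : 0 < chX γ ν) (hy : 0 ≤ chY γ ν) {q : P}
    (hσ : sg γ q ≤ 0) (hτ : ta γ q ≤ 0) (hq : q.1 ≤ 0) :
    Real.exp q.1 * q.2 ≤ Real.exp q.1 * (cos (ν / 2) * ky (ν / 2) q) := by
  have hd : cos (ν / 2 - γ) ≠ 0 := by intro h0; apply hx.ne'; unfold chX; rw [h0]; ring
  have hq2 := q2_nonpos hγ hγ' hσ hτ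
  have hsc : 0 ≤ sin (ν / 2) * cos (ν / 2) := by
    have h1 : 0 ≤ (sin (ν / 2) * cos (ν / 2)) * cos (ν / 2 - γ) ^ 2 := by
      have : (sin (ν / 2) * cos (ν / 2)) * cos (ν / 2 - γ) ^ 2 = chX γ ν * chY γ ν := by
        unfold chX chY; ring
      rw [this]; positivity
    have h2 : 0 < cos (ν / 2 - γ) ^ 2 := by positivity
    exact nonneg_of_mul_nonneg_left h1 h2
  by_cases hs : sin (ν / 2) = 0
  · rw [ky_of_zero hs]
  · rw [cky_of_ne hs]
    have hcs : 0 ≤ cos (ν / 2) / sin (ν / 2) := by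
      have : cos (ν / 2) / sin (ν / 2) = (sin (ν / 2) * cos (ν / 2)) / sin (ν / 2) ^ 2 := by
        field_simp
      rw [this]; positivity
    have h1 : Real.exp q.1 * (sin (ν / 2) * (-(q.1 * sin (ν / 2)) + q.2 * cos (ν / 2))) ≤
        EE ν q - Real.exp q.1 := by
      rw [EE_eq_q1 γ, ← perp_eq]
      have := Real.add_one_le_exp (sin (ν / 2) * (-(q.1 * sin (ν / 2)) + q.2 * cos (ν / 2)))
      have h2 := Real.exp_pos q.1
      nlinarith
    have h3 := mul_le_mul_of_nonneg_left h1 hcs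
    have h4 : cos (ν / 2) / sin (ν / 2) *
        (Real.exp q.1 * (sin (ν / 2) * (-(q.1 * sin (ν / 2)) + q.2 * cos (ν / 2)))) =
        Real.exp q.1 * (sin (ν / 2) * cos (ν / 2) * -q.1 + cos (ν / 2) ^ 2 * q.2) := by
      field_simp
    rw [h4] at h3
    refine le_trans ?_ h3
    apply mul_le_mul_of_nonneg_left _ (Real.exp_pos _).le
    have h5 : cos (ν / 2) ^ 2 ≤ 1 := cos_sq_le_one _
    nlinarith [mul_nonneg hsc (neg_nonneg.2 hq)]

/-- `η < 0` -/
lemma cky_low' (hγ : 0 < γ) (hγ' : γ < π / 2) {ν : ℝ} (hy : chY γ ν < 0) {q : P}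
    (hσ : sg γ q ≤ 0) (hτ : ta γ q ≤ 0) :
    -(4 / cos γ) * EE ν q - (2 * -(sg γ q) + -(ta γ q)) *
      (Real.exp (-(ta γ q * sin γ)) * Real.exp (-(ta γ q)) *
        Real.exp (sg γ q * (cos γ / 2))) ≤
      Real.exp q.1 * (cos (ν / 2) * ky (ν / 2) q) := by
  have hcg := cg_pos hγ hγ'
  have hsg := sg_pos hγ hγ'
  obtain ⟨hx, hx1, hx2⟩ := chX_pos_of_neg hγ hγ' hy
  have hs : sin (ν / 2) ≠ 0 := by intro h0; apply hy.ne; unfold chY; rw [h0]; ring
  have hd : cos (ν / 2 - γ) ≠ 0 := by intro h0; apply hy.ne; unfold chY; rw [h0]; ring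
  have e2 : cos (ν / 2) / sin (ν / 2) = chX γ ν / chY γ ν := by
    unfold chX chY; rw [mul_div_mul_right _ _ hd]
  have hcirc := circ γ ν
  set Y : ℝ := -(chY γ ν) with hY
  have hY0 : 0 < Y := by rw [hY]; linarith
  have hYe : chY γ ν = -Y := by rw [hY]; ring
  have hY1 : Y ≤ 1 := by
    have := (abs_le.1 (chY_le_one γ ν)).1
    linarith
  have hrat : chX γ ν * (cos γ - chX γ ν) = Y * (sin γ + Y) := by
    rw [hYe] at hcirc; linarith
  have hs1 : sin γ ≤ 1 := sin_le_one γ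
  have hE0 := EE_pos ν q
  have hq0 := Real.exp_pos q.1
  rw [cky_of_ne hs, e2, hYe]
  have e3 : chX γ ν / -Y * (EE ν q - Real.exp q.1) = -(chX γ ν / Y * (EE ν q - Real.exp q.1)) := by
    rw [div_neg]; ring
  rw [e3]
  have hnn : 0 ≤ (2 * -(sg γ q) + -(ta γ q)) *
      (Real.exp (-(ta γ q * sin γ)) * Real.exp (-(ta γ q)) *
        Real.exp (sg γ q * (cos γ / 2))) := by
    apply mul_nonneg (by linarith) (by positivity)
  rcases le_or_gt (chX γ ν) (cos γ / 2) with hc | hc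
  · -- near the cut
    have h1 : chX γ ν / Y ≤ 4 / cos γ := by
      rw [div_le_div_iff₀ hY0 hcg]
      have h2 : chX γ ν * (cos γ / 2) ≤ chX γ ν * (cos γ - chX γ ν) :=
        mul_le_mul_of_nonneg_left (by linarith) hx.le
      have h3 : Y * (sin γ + Y) ≤ Y * 2 := mul_le_mul_of_nonneg_left (by linarith) hY0.le
      linarith
    have h4 : chX γ ν / Y * (EE ν q - Real.exp q.1) ≤ 4 / cos γ * EE ν q := by
      have h5 : chX γ ν / Y * (EE ν q - Real.exp q.1) ≤ chX γ ν / Y * EE ν q :=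
        mul_le_mul_of_nonneg_left (by linarith) (div_nonneg hx.le hY0.le)
      exact h5.trans (mul_le_mul_of_nonneg_right h1 hE0.le)
    linarith
  · -- away from the cut
    set y : ℝ := -(sg γ q * (cos γ - chX γ ν)) + ta γ q * chY γ ν with hy'
    have hy0 : 0 ≤ y := by
      rw [hy', hYe]
      nlinarith [mul_nonneg (neg_nonneg.2 hσ) (sub_nonneg.2 hx1.le),
        mul_nonneg (neg_nonneg.2 hτ) hY0.le]
    have h1 : EE ν q - Real.exp q.1 ≤ y * EE ν q := by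
      have hEq : EE ν q = Real.exp q.1 * Real.exp y := EE_eq_q1 γ ν q
      rw [hEq]
      have h2 : 1 - y ≤ Real.exp (-y) := by have := Real.add_one_le_exp (-y); linarith
      have h3 : Real.exp (-y) * Real.exp y = 1 := by rw [← Real.exp_add]; simp
      have h4 := mul_le_mul_of_nonneg_right h2 (Real.exp_pos y).le
      rw [h3] at h4
      nlinarith
    have h5 : chX γ ν / Y * y ≤ 2 * -(sg γ q) + -(ta γ q) := by
      rw [div_mul_eq_mul_div, div_le_iff₀ hY0]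
      have h6 : chX γ ν * y = -(sg γ q) * (chX γ ν * (cos γ - chX γ ν)) +
          -(ta γ q) * chX γ ν * Y := by
        rw [hy', hYe]; ring
      rw [h6, hrat]
      have hX1 : chX γ ν ≤ 1 := (abs_le.1 (chX_le_one γ ν)).2
      have h7 : -(sg γ q) * (Y * (sin γ + Y)) ≤ -(sg γ q) * (Y * 2) := by
        apply mul_le_mul_of_nonneg_left _ (by linarith)
        exact mul_le_mul_of_nonneg_left (by linarith) hY0.le
      have h8 : -(ta γ q) * chX γ ν * Y ≤ -(ta γ q) * 1 * Y := by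
        apply mul_le_mul_of_nonneg_right _ hY0.le
        exact mul_le_mul_of_nonneg_left hX1 (by linarith)
      nlinarith
    have h9 : EE ν q ≤ Real.exp (-(ta γ q * sin γ)) * Real.exp (-(ta γ q)) *
        Real.exp (sg γ q * (cos γ / 2)) := by
      rw [EE_eq γ, ← Real.exp_add, ← Real.exp_add]
      apply Real.exp_le_exp.2
      rw [hYe]
      have h10 : sg γ q * chX γ ν ≤ sg γ q * (cos γ / 2) :=
        mul_le_mul_of_nonpos_left hc.le hσ
      nlinarith [mul_nonneg (neg_nonneg.2 hτ) (sub_nonneg.2 hY1)]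
    have h11 : chX γ ν / Y * (EE ν q - Real.exp q.1) ≤
        (2 * -(sg γ q) + -(ta γ q)) * (Real.exp (-(ta γ q * sin γ)) * Real.exp (-(ta γ q)) *
        Real.exp (sg γ q * (cos γ / 2))) := by
      calc chX γ ν / Y * (EE ν q - Real.exp q.1) ≤ chX γ ν / Y * (y * EE ν q) :=
            mul_le_mul_of_nonneg_left h1 (div_nonneg hx.le hY0.le)
        _ = (chX γ ν / Y * y) * EE ν q := by ring
        _ ≤ (2 * -(sg γ q) + -(ta γ q)) * EE ν q := mul_le_mul_of_nonneg_right h5 hE0.le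
        _ ≤ _ := mul_le_mul_of_nonneg_left h9 (by linarith)
    have h12 : 0 ≤ 4 / cos γ * EE ν q := by positivity
    linarith

end Pool.Agent.EU.D6
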