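import Pool.Agent.EU.D6S

/-!
Module D6, part T: the starting point of the path, limits.
-/

set_option autoImplicit false
open scoped ContDiff Topology ENNReal
open Real Set MeasureTheory Filter

namespace Pool.Agent.EU.D6

variable {γ b N : ℝ} {M : Measure ℝ} {F : P → P}

/-- the error term -/
noncomputable def Rr (γ : ℝ) (q : P) : ℝ :=
  (2 * -(sg γ q) + -(ta γ q)) *
      (Real.exp (-(ta γ q * sin γ)) * Real.exp (-(ta γ q)) * Real.exp (sg γ q * (cos γ / 2)))

lemma Rr_nonneg {q : P} (hσ : sg γ q ≤ 0) (hτ : ta γ q ≤ 0) : 0 ≤ Rr γ q := by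
  unfold Rr
  exact mul_nonneg (by linarith) (by positivity)

lemma cky_low_all (hγ : 0 < γ) (hγ' : γ < π / 2) {ν : ℝ} (hx : 0 < chX γ ν) {q : P}
    (hσ : sg γ q ≤ 0) (hτ : ta γ q ≤ 0) (hq : q.1 ≤ 0) :
    Real.exp q.1 * q.2 - Rr γ q - 4 / cos γ * EE ν q ≤
      Real.exp q.1 * (cos (ν / 2) * ky (ν / 2) q) := by
  have h0 : 0 ≤ 4 / cos γ * EE ν q :=
    mul_nonneg (by have := cg_pos hγ hγ'; positivity) (EE_pos ν q).le
  have hR := Rr_nonneg hσ hτ
  have hq2 := q2_nonpos hγ hγ' hσ hτ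
  rcases le_or_gt 0 (chY γ ν) with hy | hy
  · have := cky_low hγ hγ' hx hy hσ hτ hq
    linarith
  · have := cky_low' hγ hγ' hy hσ hτ
    have h1 : Real.exp q.1 * q.2 ≤ 0 := mul_nonpos_of_nonneg_of_nonpos (Real.exp_pos _).le hq2
    unfold Rr at *
    linarith

lemma tend_exp {a : ℝ} (ha : 0 < a) :
    Tendsto (fun n : ℕ => Real.exp (-(a * (n : ℝ)))) atTop (𝓝 0) := by
  have h2 : Tendsto (fun n : ℕ => a * (n : ℝ)) atTop atTop :=
    tendsto_natCast_atTop_atTop.const_mul_atTop ha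
  exact Real.tendsto_exp_neg_atTop_nhds_zero.comp h2

lemma tend_nexp {a : ℝ} (ha : 0 < a) :
    Tendsto (fun n : ℕ => (n : ℝ) * Real.exp (-(a * (n : ℝ)))) atTop (𝓝 0) := by
  have h1 := Real.tendsto_pow_mul_exp_neg_atTop_nhds_zero 1
  have h2 : Tendsto (fun n : ℕ => a * (n : ℝ)) atTop atTop :=
    tendsto_natCast_atTop_atTop.const_mul_atTop ha
  have h3 := (h1.comp h2).const_mul (1 / a)
  rw [mul_zero] at h3
  refine h3.congr fun n => ?_
  simp only [Function.comp, pow_one]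
  field_simp

/-- the sequence of points -/
noncomputable def pn (γ L : ℝ) (n : ℕ) : P := pt γ (-(n : ℝ)) (-L)

lemma pn_q1 (γ L : ℝ) (n : ℕ) : (pn γ L n).1 = L * sin γ + -(cos γ * (n : ℝ)) := by
  unfold pn pt; simp only; ring

lemma pn_q2 (γ L : ℝ) (n : ℕ) : (pn γ L n).2 = -(n : ℝ) * sin γ - L * cos γ := by
  unfold pn pt; simp only; ring

lemma pn_sg (γ L : ℝ) (n : ℕ) : sg γ (pn γ L n) = -(n : ℝ) := sg_pt _ _ _
lemma pn_ta (γ L : ℝ) (n : ℕ) : ta γ (pn γ L n) = -L := ta_pt _ _ _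

lemma pn_exp (hγ : 0 < γ) (hγ' : γ < π / 2) (L : ℝ) :
    Tendsto (fun n : ℕ => Real.exp (pn γ L n).1) atTop (𝓝 0) := by
  have h := (tend_exp (cg_pos hγ hγ')).const_mul (Real.exp (L * sin γ))
  rw [mul_zero] at h
  refine h.congr fun n => ?_
  rw [pn_q1, Real.exp_add]

lemma pn_err (hγ : 0 < γ) (hγ' : γ < π / 2) (L : ℝ) :
    Tendsto (fun n : ℕ => Real.exp (pn γ L n).1 * (pn γ L n).2 - Rr γ (pn γ L n)) atTop (𝓝 0) := by
  have hcg := cg_pos hγ hγ'
  have hc2 : 0 < cos γ / 2 := by linarith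
  have h1 := (tend_nexp hcg).const_mul (-(Real.exp (L * sin γ) * sin γ))
  have h2 := (tend_exp hcg).const_mul (-(Real.exp (L * sin γ) * (L * cos γ)))
  have h3 := (tend_nexp hc2).const_mul (-(2 * (Real.exp (L * sin γ) * Real.exp L)))
  have h4 := (tend_exp hc2).const_mul (-(L * (Real.exp (L * sin γ) * Real.exp L)))
  have h5 := ((h1.add h2).add h3).add h4
  simp only [mul_zero, add_zero] at h5
  refine h5.congr fun n => ?_
  have e1 : Real.exp (pn γ L n).1 = Real.exp (L * sin γ) * Real.exp (-(cos γ * (n : ℝ))) := by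
    rw [pn_q1, Real.exp_add]
  unfold Rr
  rw [e1, pn_q2, pn_sg, pn_ta]
  have e2 : -(-L * sin γ) = L * sin γ := by ring
  have e3 : -(n : ℝ) * (cos γ / 2) = -(cos γ / 2 * (n : ℝ)) := by ring
  rw [e2, e3, neg_neg, neg_neg]
  ring

/-- `E` along the sequence -/
lemma pn_EE (γ L ν : ℝ) (n : ℕ) :
    EE ν (pn γ L n) = EE ν (pn γ L 0) * Real.exp (-(chX γ ν * (n : ℝ))) := by
  rw [EE_eq γ, EE_eq γ, pn_sg, pn_ta, pn_sg, pn_ta, ← Real.exp_add]
  congr 1
  push_cast
  ring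

lemma pn_EE0 (γ ν : ℝ) {L : ℝ} (hL : 0 ≤ L) : Real.exp (-(2 * L)) ≤ EE ν (pn γ L 0) ∧
    EE ν (pn γ L 0) ≤ Real.exp (2 * L) := by
  rw [EE_eq γ, pn_sg, pn_ta]
  have h1 := abs_le.1 (chY_le_one γ ν)
  have h2 : sin γ ≤ 1 := sin_le_one γ
  have h3 : -1 ≤ sin γ := neg_one_le_sin γ
  constructor
  · apply Real.exp_le_exp.2
    push_cast
    nlinarith
  · apply Real.exp_le_exp.2
    push_cast
    nlinarith

lemma dct (hF : TypeI γ b M F) (hae : ∀ᵐ ν ∂M, 0 < chX γ ν) {L : ℝ} (hL : 0 ≤ L) {H : ℝ → ℝ}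
    (hH : Integrable H M) :
    Tendsto (fun n : ℕ => ∫ ν, H ν * EE ν (pn γ L n) ∂M) atTop (𝓝 0) := by
  have h0 : (0 : ℝ) = ∫ _ν, (0 : ℝ) ∂M := by simp
  rw [h0]
  refine tendsto_integral_of_dominated_convergence (fun ν => Real.exp (2 * L) * |H ν|) ?_ ?_ ?_ ?_
  · intro n
    exact hH.aestronglyMeasurable.mul (int_EE hF _).aestronglyMeasurable
  · exact (hH.abs.const_mul _)
  · intro n
    filter_upwards [hae] with ν hν
    rw [Real.norm_eq_abs, abs_mul, abs_of_pos (EE_pos ν _), mul_comm]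
    apply mul_le_mul_of_nonneg_right _ (abs_nonneg _)
    rw [pn_EE]
    have h1 := (pn_EE0 γ ν hL).2
    have h2 : Real.exp (-(chX γ ν * (n : ℝ))) ≤ 1 := by
      apply Real.exp_le_one_iff.2
      have : 0 ≤ chX γ ν * (n : ℝ) := mul_nonneg hν.le (Nat.cast_nonneg n)
      linarith
    have h3 := EE_pos ν (pn γ L 0)
    nlinarith
  · filter_upwards [hae] with ν hν
    have h1 := ((tend_exp hν).const_mul (H ν * EE ν (pn γ L 0)))
    rw [mul_zero] at h1
    refine h1.congr fun n => ?_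
    rw [pn_EE γ L ν n]; ring

/-- the function whose zeros we want -/
noncomputable def TT (γ N : ℝ) (F : P → P) (q : P) : ℝ :=
  sin γ * ((F q).1 - (F 0).1) - cos γ * Real.exp q.1 * ((F q).2 - (F 0).2) +
    N * (1 - Real.exp q.1)

lemma G_formula (hF : TypeI γ b M F) (q : P) :
    cos γ * Real.exp q.1 * ((F q).2 - (F 0).2) =
      K1 γ b M q - b * Real.exp q.1 + ∫ ν, Real.exp q.1 * (cos (ν / 2) * ky (ν / 2) q) ∂M := by
  rw [integral_const_mul]
  have h2 := typeI_star2 hF q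
  have h4 : Real.exp q.1 * Real.exp (-q.1) = 1 := by rw [← Real.exp_add]; simp
  linear_combination Real.exp q.1 * h2 + K1 γ b M q * h4

lemma start_finite (hγ : 0 < γ) (hγ' : γ < π / 2) (hF : TypeI γ b M F)
    (hI : ∫⁻ ν, (ENNReal.ofReal (chX γ ν))⁻¹ ∂M ≠ ⊤) (hb : 0 < bp γ b M) (N m : ℝ) :
    ∃ q : P, sg γ q ≤ -m ∧ ta γ q ≤ -m ∧ TT γ N F q < 0 := by
  have := hF.fin
  have hcg := cg_pos hγ hγ'
  have hsg := sg_pos hγ hγ'
  have hae : ∀ᵐ ν ∂M, 0 < chX γ ν := by
    have h2 := ae_lt_top (μ := M) (f := fun ν => (ENNReal.ofReal (chX γ ν))⁻¹)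
      ((chX_continuous γ).measurable.ennreal_ofReal.inv) hI
    filter_upwards [h2] with ν hν
    by_contra hcon
    push Not at hcon
    rw [ENNReal.ofReal_eq_zero.2 hcon] at hν
    simp at hν
  have hI0 := I0_finite hI
  have hinv := inv_chX_integrable hae hI
  set B : ℝ := bp γ b M with hB
  set L : ℝ := max (max m 0) ((|N| + 3) / (B * sin γ)) with hLdef
  have hLm : m ≤ L := (le_max_left _ _).trans (le_max_left _ _)
  have hL0 : 0 ≤ L := (le_max_right m 0).trans (le_max_left _ _)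
  have hLN : |N| + 3 ≤ B * (L * sin γ) := by
    have h1 : (|N| + 3) / (B * sin γ) ≤ L := le_max_right _ _
    rw [div_le_iff₀ (mul_pos hb hsg)] at h1
    linarith
  have htan : Integrable (fun ν => tan (ν / 2 - γ)) M := (typeI_finite hF hI0 0).1
  have t1 := (dct hF hae hL0 hinv).const_mul (sin γ)
  have t2 := dct hF hae hL0 htan
  have t3 := (dct hF hae hL0 (integrable_const (1 : ℝ))).const_mul (4 / cos γ)
  have t4 := (pn_exp hγ hγ' L).const_mul b
  have t5 := (pn_err hγ hγ' L).mul_const (M.real univ)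
  have t6 := ((((t1.sub t2).add t3).add t4).sub t5)
  simp only [mul_zero, zero_mul, add_zero, sub_zero] at t6
  have e1 := (tendsto_order.1 t6).2 1 one_pos
  have e2 := (tendsto_natCast_atTop_atTop (R := ℝ)).eventually_ge_atTop (max m (L * sin γ / cos γ))
  obtain ⟨n, hn1, hn2⟩ := (e1.and e2).exists
  have hnm : m ≤ (n : ℝ) := (le_max_left _ _).trans hn2
  have hnL : L * sin γ ≤ (n : ℝ) * cos γ := by
    have := (le_max_right m (L * sin γ / cos γ)).trans hn2
    rwa [div_le_iff₀ hcg] at this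
  refine ⟨pn γ L n, by rw [pn_sg]; linarith, by rw [pn_ta]; linarith, ?_⟩
  set q : P := pn γ L n with hq
  have hσ : sg γ q ≤ 0 := by rw [hq, pn_sg]; have : (0 : ℝ) ≤ n := Nat.cast_nonneg n; linarith
  have hτ : ta γ q ≤ 0 := by rw [hq, pn_ta]; linarith
  have hq1 : q.1 ≤ 0 := by rw [hq, pn_q1]; linarith
  obtain ⟨-, -, -, hX, -, hK⟩ := typeI_finite hF hI0 q
  have hEc : Real.exp (-(ta γ q * sin γ)) = Real.exp (L * sin γ) := by
    rw [hq, pn_ta]; congr 1; ring
  have hgt : B * gt (sin γ) (ta γ q) * sin γ = B * (1 - Real.exp (L * sin γ)) := by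
    rw [gt_eq hsg.ne', hEc]; field_simp
  -- bound for `f`
  have hf : sin γ * ((F q).1 - (F 0).1) ≤
      B * (1 - Real.exp (L * sin γ)) + sin γ * ∫ ν, (chX γ ν)⁻¹ * EE ν q ∂M := by
    rw [hX]
    have hi : ∫ ν, kx (ν / 2) q / cos (ν / 2 - γ) ∂M ≤ ∫ ν, (chX γ ν)⁻¹ * EE ν q ∂M := by
      apply integral_mono_ae (typeI_finite hF hI0 q).2.1
      · -- integrability
        have h1 : Integrable (fun ν => kx (ν / 2) q / cos (ν / 2 - γ) + (chX γ ν)⁻¹) M :=
          (typeI_finite hF hI0 q).2.1.add hinv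
        refine h1.congr ?_
        filter_upwards [hae] with ν hν
        rw [kx_div hν.ne', div_eq_mul_inv]; ring
      · filter_upwards [hae] with ν hν
        rw [kx_div hν.ne', div_eq_mul_inv]
        have : 0 < (chX γ ν)⁻¹ := inv_pos.2 hν
        nlinarith
    have := mul_le_mul_of_nonneg_left hi hsg.le
    linarith
  -- bound for `G`
  have hG : B * Real.exp (L * sin γ) + ∫ ν, tan (ν / 2 - γ) * EE ν q ∂M - b * Real.exp q.1 +
      ((Real.exp q.1 * q.2 - Rr γ q) * M.real univ - 4 / cos γ * ∫ ν, 1 * EE ν q ∂M) ≤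
      cos γ * Real.exp q.1 * ((F q).2 - (F 0).2) := by
    rw [G_formula hF q, hK, hEc]
    have hi : ∫ ν, (Real.exp q.1 * q.2 - Rr γ q - 4 / cos γ * EE ν q) ∂M ≤
        ∫ ν, Real.exp q.1 * (cos (ν / 2) * ky (ν / 2) q) ∂M := by
      apply integral_mono_ae
      · exact (integrable_const _).sub ((int_EE hF q).const_mul _)
      · exact (int_cky hF q).const_mul _
      · filter_upwards [hae] with ν hν
        exact cky_low_all hγ hγ' hν hσ hτ hq1
    rw [integral_sub (integrable_const _) ((int_EE hF q).const_mul _), integral_const,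
      integral_const_mul, smul_eq_mul] at hi
    simp only [one_mul]
    linarith
  have hNe : N * (1 - Real.exp q.1) ≤ |N| := by
    have h1 : Real.exp q.1 ≤ 1 := Real.exp_le_one_iff.2 hq1
    have h2 := Real.exp_pos q.1
    have h3 := le_abs_self N
    have h4 := abs_nonneg N
    nlinarith
  have hexp : L * sin γ + 1 ≤ Real.exp (L * sin γ) := Real.add_one_le_exp _
  have hBe : B * (L * sin γ + 1) ≤ B * Real.exp (L * sin γ) :=
    mul_le_mul_of_nonneg_left hexp hb.le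
  have hA := abs_nonneg N
  have hB0 : 0 < B := hb
  unfold TT
  linarith

/-- the function whose integral tends to infinity -/
noncomputable def An (γ L : ℝ) (n : ℕ) (ν : ℝ) : ℝ :=
  (kk γ ν (pn γ L n) - sin (ν / 2) * kx (ν / 2) (pn γ L n)) -
    (kk γ ν (pn γ L 0) - sin (ν / 2) * kx (ν / 2) (pn γ L 0))

lemma An_of_ne {ν : ℝ} (h : chX γ ν ≠ 0) (L : ℝ) (n : ℕ) :
    An γ L n ν = sin γ * EE ν (pn γ L 0) * (1 - Real.exp (-(chX γ ν * (n : ℝ)))) / chX γ ν := by
  unfold An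
  rw [kk_sub_skx h, kk_sub_skx h, pn_EE γ L ν n, pn_ta, pn_ta]
  field_simp
  ring

lemma An_of_zero (hγ : 0 < γ) (hγ' : γ < π / 2) {ν : ℝ} (h : chX γ ν = 0) {L : ℝ} (hL : 0 ≤ L)
    (n : ℕ) : (n : ℝ) * sin γ ≤ An γ L n ν := by
  have hsg := sg_pos hγ hγ'
  have hcg := cg_pos hγ hγ'
  have hn : (0 : ℝ) ≤ n := Nat.cast_nonneg n
  have hcD := cD_eq γ ν
  have hsD := sD_eq γ ν
  have hEE : ∀ n : ℕ, EE ν (pn γ L n) = EE ν (pn γ L 0) := by
    intro n
    rw [pn_EE, h]; simp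
  by_cases hc : cos (ν / 2) = 0
  · have hd : cos (ν / 2 - γ) ≠ 0 := by
      intro h0
      have hy : chY γ ν = 0 := by unfold chY; rw [h0]; ring
      rw [hc, hy] at hcD
      linarith
    unfold An
    rw [kk_of_ne hd, kk_of_ne hd, kx_of_zero hc, kx_of_zero hc, hEE n, pn_ta, pn_ta, pn_q2, pn_q2]
    push_cast
    nlinarith
  · have hd : cos (ν / 2 - γ) = 0 := by
      unfold chX at h
      exact (mul_eq_zero.1 h).resolve_left hc
    unfold An
    rw [kk_of_zero hd, kk_of_zero hd, skx_of_ne hc, skx_of_ne hc, hEE n, pn_ta, pn_ta, pn_sg, pn_sg]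
    have h1 : 1 ≤ Real.exp (-(-L * sin γ)) := by
      apply Real.one_le_exp
      have := mul_nonneg hL hsg.le
      linarith
    push_cast
    have h2 : 0 ≤ (n : ℝ) * sin γ := mul_nonneg hn hsg.le
    nlinarith

lemma An_nonneg (hγ : 0 < γ) (hγ' : γ < π / 2) {L : ℝ} (hL : 0 ≤ L) (n : ℕ) (ν : ℝ) :
    0 ≤ An γ L n ν := by
  have hsg := sg_pos hγ hγ'
  have hn : (0 : ℝ) ≤ n := Nat.cast_nonneg n
  by_cases h : chX γ ν = 0
  · exact (mul_nonneg hn hsg.le).trans (An_of_zero hγ hγ' h hL n)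
  · rw [An_of_ne h]
    have hE := EE_pos ν (pn γ L 0)
    rw [mul_div_assoc]
    apply mul_nonneg (mul_pos hsg hE).le
    rcases lt_or_gt_of_ne h with h | h
    · apply div_nonneg_of_nonpos _ h.le
      have : 1 ≤ Real.exp (-(chX γ ν * (n : ℝ))) := by
        apply Real.one_le_exp
        nlinarith
      linarith
    · apply div_nonneg _ h.le
      have : Real.exp (-(chX γ ν * (n : ℝ))) ≤ 1 := by
        apply Real.exp_le_one_iff.2
        nlinarith
      linarith

lemma An_int (hF : TypeI γ b M F) (L : ℝ) (n : ℕ) : Integrable (An γ L n) M := by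
  unfold An
  exact ((int_kk hF _).sub (int_skx hF _)).sub ((int_kk hF _).sub (int_skx hF _))

lemma An_liminf (hγ : 0 < γ) (hγ' : γ < π / 2) {L : ℝ} (hL : 0 ≤ L) (ν : ℝ) :
    ENNReal.ofReal (sin γ * Real.exp (-(2 * L))) * (ENNReal.ofReal (chX γ ν))⁻¹ ≤
      liminf (fun n => ENNReal.ofReal (An γ L n ν)) atTop := by
  have hsg := sg_pos hγ hγ'
  have hE0 := (pn_EE0 γ ν hL).1
  rcases le_or_gt (chX γ ν) 0 with h | h
  · -- the limit is infinite
    have key : Tendsto (fun n : ℕ => An γ L n ν) atTop atTop := by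
      rcases h.lt_or_eq with h | h
      · have h1 : Tendsto (fun n : ℕ => sin γ * EE ν (pn γ L 0) * (n : ℝ)) atTop atTop :=
          tendsto_natCast_atTop_atTop.const_mul_atTop (mul_pos hsg (EE_pos _ _))
        refine tendsto_atTop_mono (fun n => ?_) h1
        rw [An_of_ne h.ne, mul_div_assoc]
        apply mul_le_mul_of_nonneg_left _ (mul_pos hsg (EE_pos _ _)).le
        rw [le_div_iff_of_neg h]
        have := Real.add_one_le_exp (-(chX γ ν * (n : ℝ)))
        linarith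
      · have h1 : Tendsto (fun n : ℕ => (n : ℝ) * sin γ) atTop atTop :=
          tendsto_natCast_atTop_atTop.atTop_mul_const hsg
        exact tendsto_atTop_mono (fun n => An_of_zero hγ hγ' h hL n) h1
    have h2 : Tendsto (fun n : ℕ => ENNReal.ofReal (An γ L n ν)) atTop (𝓝 ⊤) :=
      ENNReal.tendsto_ofReal_atTop.comp key
    rw [h2.liminf_eq]
    exact le_top
  · have h1 : Tendsto (fun n : ℕ => An γ L n ν) atTop
        (𝓝 (sin γ * EE ν (pn γ L 0) * (1 - 0) / chX γ ν)) := by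
      have := (((tendsto_const_nhds (x := (1 : ℝ))).sub (tend_exp h)).const_mul
        (sin γ * EE ν (pn γ L 0))).div_const (chX γ ν)
      refine this.congr fun n => ?_
      rw [An_of_ne h.ne']
    have h2 := (ENNReal.tendsto_ofReal h1)
    rw [h2.liminf_eq, ← ENNReal.ofReal_inv_of_pos h, ← ENNReal.ofReal_mul (by positivity)]
    apply ENNReal.ofReal_le_ofReal
    rw [sub_zero, mul_one, div_eq_mul_inv]
    apply mul_le_mul_of_nonneg_right _ (inv_pos.2 h).le
    exact mul_le_mul_of_nonneg_left hE0 hsg.le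

lemma f_tend (hγ : 0 < γ) (hγ' : γ < π / 2) (hF : TypeI γ b M F)
    (hI : ∫⁻ ν, (ENNReal.ofReal (chX γ ν))⁻¹ ∂M = ⊤) {L : ℝ} (hL : 0 ≤ L) (C : ℝ) :
    ∀ᶠ n : ℕ in atTop, sin γ * ((F (pn γ L n)).1 - (F 0).1) < C := by
  have hsg := sg_pos hγ hγ'
  have h1 : ∫⁻ ν, liminf (fun n => ENNReal.ofReal (An γ L n ν)) atTop ∂M = ⊤ := by
    rw [eq_top_iff]
    calc (⊤ : ℝ≥0∞) = ENNReal.ofReal (sin γ * Real.exp (-(2 * L))) *
          ∫⁻ ν, (ENNReal.ofReal (chX γ ν))⁻¹ ∂M := by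
          rw [hI, ENNReal.mul_top]
          have : 0 < sin γ * Real.exp (-(2 * L)) := by positivity
          simpa using this
      _ = ∫⁻ ν, ENNReal.ofReal (sin γ * Real.exp (-(2 * L))) *
          (ENNReal.ofReal (chX γ ν))⁻¹ ∂M := by
          rw [lintegral_const_mul]
          exact (chX_continuous γ).measurable.ennreal_ofReal.inv
      _ ≤ _ := lintegral_mono fun ν => An_liminf hγ hγ' hL ν
  have h2 : ∫⁻ ν, liminf (fun n => ENNReal.ofReal (An γ L n ν)) atTop ∂M ≤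
      liminf (fun n => ∫⁻ ν, ENNReal.ofReal (An γ L n ν) ∂M) atTop :=
    lintegral_liminf_le' fun n => (An_int hF L n).aemeasurable.ennreal_ofReal
  rw [h1, top_le_iff] at h2
  set D : ℝ := -b * (Real.exp (L * sin γ) - 1) -
    ∫ ν, (kk γ ν (pn γ L 0) - sin (ν / 2) * kx (ν / 2) (pn γ L 0)) ∂M - C with hD
  have h3 : ∀ᶠ n : ℕ in atTop, ENNReal.ofReal D < ∫⁻ ν, ENNReal.ofReal (An γ L n ν) ∂M := by
    refine eventually_lt_of_lt_liminf ?_ (by isBoundedDefault)
    rw [h2]; exact ENNReal.ofReal_lt_top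
  filter_upwards [h3] with n hn
  rw [← ofReal_integral_eq_lintegral_ofReal (An_int hF L n)
    (ae_of_all _ fun ν => An_nonneg hγ hγ' hL n ν)] at hn
  have h4 : D < ∫ ν, An γ L n ν ∂M := by
    by_contra hcon
    push Not at hcon
    exact absurd hn (not_lt.2 (ENNReal.ofReal_le_ofReal hcon))
  have h5 : ∫ ν, An γ L n ν ∂M =
      ∫ ν, (kk γ ν (pn γ L n) - sin (ν / 2) * kx (ν / 2) (pn γ L n)) ∂M -
      ∫ ν, (kk γ ν (pn γ L 0) - sin (ν / 2) * kx (ν / 2) (pn γ L 0)) ∂M := by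
    unfold An
    exact integral_sub ((int_kk hF _).sub (int_skx hF _)) ((int_kk hF _).sub (int_skx hF _))
  rw [f_formula hF, pn_ta]
  have e1 : -(-L * sin γ) = L * sin γ := by ring
  rw [e1]
  rw [h5] at h4
  linarith

lemma start_infinite (hγ : 0 < γ) (hγ' : γ < π / 2) (hF : TypeI γ b M F)
    (hI : ∫⁻ ν, (ENNReal.ofReal (chX γ ν))⁻¹ ∂M = ⊤) (N m : ℝ) :
    ∃ q : P, sg γ q ≤ -m ∧ ta γ q ≤ -m ∧ TT γ N F q < 0 := by
  have := hF.fin
  have hcg := cg_pos hγ hγ'
  have hsg := sg_pos hγ hγ'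
  set L : ℝ := max m 0 with hLdef
  have hLm : m ≤ L := le_max_left _ _
  have hL0 : 0 ≤ L := le_max_right m 0
  set Ec : ℝ := Real.exp (L * sin γ) with hEcd
  have hEc0 : 0 < Ec := Real.exp_pos _
  have hEc1 : 1 ≤ Ec := Real.one_le_exp (mul_nonneg hL0 hsg.le)
  set D : ℝ := L * cos γ * Ec + cos γ / sin γ * Ec + 4 / cos γ * Ec + 1 with hD
  have e1 := f_tend hγ hγ' hF hI hL0 (b * Ec - |b| - D * M.real univ - |N|)
  have e2 := (tendsto_natCast_atTop_atTop (R := ℝ)).eventually_ge_atTop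
    (max (max m (L * sin γ / cos γ)) (max (L * cos γ / sin γ) (1 / cos γ)))
  have e3 := (tendsto_order.1 (pn_err hγ hγ' L)).1 (-1) (by norm_num)
  obtain ⟨n, ⟨hn1, hn2⟩, hn3⟩ := ((e1.and e2).and e3).exists
  have hnm : m ≤ (n : ℝ) := ((le_max_left _ _).trans (le_max_left _ _)).trans hn2
  have hnL : L * sin γ ≤ (n : ℝ) * cos γ := by
    have := ((le_max_right m (L * sin γ / cos γ)).trans (le_max_left _ _)).trans hn2
    rwa [div_le_iff₀ hcg] at this
  have hnL' : L * cos γ ≤ (n : ℝ) * sin γ := by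
    have := ((le_max_left (L * cos γ / sin γ) (1 / cos γ)).trans (le_max_right _ _)).trans hn2
    rwa [div_le_iff₀ hsg] at this
  have hn1' : 1 ≤ (n : ℝ) * cos γ := by
    have := ((le_max_right (L * cos γ / sin γ) (1 / cos γ)).trans (le_max_right _ _)).trans hn2
    rwa [div_le_iff₀ hcg] at this
  refine ⟨pn γ L n, by rw [pn_sg]; linarith, by rw [pn_ta]; linarith, ?_⟩
  have hσe : sg γ (pn γ L n) = -(n : ℝ) := pn_sg γ L n
  have hτe : ta γ (pn γ L n) = -L := pn_ta γ L n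
  set q : P := pn γ L n with hq
  have hn0 : (0 : ℝ) ≤ n := Nat.cast_nonneg n
  have hσ : sg γ q ≤ 0 := by rw [hσe]; linarith
  have hτ : ta γ q ≤ 0 := by rw [hτe]; linarith
  have hq1 : q.1 ≤ 0 := by rw [hq, pn_q1]; linarith
  have hEc : Real.exp (-(ta γ q * sin γ)) = Ec := by
    rw [hτe, hEcd]; congr 1; ring
  have hcot : 0 < cos γ / sin γ := div_pos hcg hsg
  -- pointwise bound
  have hpt : ∀ ν, -D ≤ kk γ ν q + Real.exp q.1 * (cos (ν / 2) * ky (ν / 2) q) := by
    intro ν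
    have p1 : 0 ≤ L * cos γ * Ec := by positivity
    have p2 : 0 ≤ cos γ / sin γ * Ec := by positivity
    have p3 : 0 ≤ 4 / cos γ * Ec := by positivity
    rcases le_or_gt (chX γ ν) 0 with hx | hx
    · have h1 := Gam_low hγ hγ' hx (q := q) (by rw [hσe]; linarith)
      rw [hEc, hτe] at h1
      rw [hD]
      linarith
    · have hexp : sg γ q * chX γ ν + ta γ q * chY γ ν ≤ 0 := by
        rw [hσe, hτe]
        rcases le_or_gt 0 (chY γ ν) with hy | hy
        · have := mul_nonneg hn0 hx.le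
          have := mul_nonneg hL0 hy
          linarith
        · obtain ⟨-, -, h3⟩ := chX_pos_of_neg hγ hγ' hy
          have h4 : L * (-(chY γ ν) * sin γ) ≤ L * (chX γ ν * cos γ) :=
            mul_le_mul_of_nonneg_left h3 hL0
          have h5 : chX γ ν * (L * cos γ) ≤ chX γ ν * ((n : ℝ) * sin γ) :=
            mul_le_mul_of_nonneg_left hnL' hx.le
          have h6 : (L * (-(chY γ ν))) * sin γ ≤ ((n : ℝ) * chX γ ν) * sin γ := by linarith
          have h7 := le_of_mul_le_mul_right h6 hsg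
          linarith
      have hE : EE ν q ≤ Ec := by
        rw [EE_eq_Ec γ, hEc]
        have := Real.exp_le_one_iff.2 hexp
        nlinarith
      have hE' : 4 / cos γ * EE ν q ≤ 4 / cos γ * Ec :=
        mul_le_mul_of_nonneg_left hE (by positivity)
      have h1 := cky_low_all hγ hγ' hx hσ hτ hq1
      have h2 : -(cos γ / sin γ) * Ec ≤ kk γ ν q := by
        rcases le_or_gt 0 (chY γ ν) with hy | hy
        · have := kk_low hγ hγ' hx hy hσ hτ hq1
          rwa [hEc] at this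
        · have := kk_low' hγ hγ' hy hexp
          linarith
      rw [hD]
      linarith
  have hG : b * Ec - |b| - D * M.real univ ≤ cos γ * Real.exp q.1 * ((F q).2 - (F 0).2) := by
    rw [G_formula hF q]
    unfold K1
    rw [hEc]
    have h1 : ∫ ν, (-D : ℝ) ∂M ≤
        ∫ ν, (kk γ ν q + Real.exp q.1 * (cos (ν / 2) * ky (ν / 2) q)) ∂M := by
      apply integral_mono (integrable_const _) ((int_kk hF q).add ((int_cky hF q).const_mul _))
      intro ν
      exact hpt ν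
    rw [integral_add (int_kk hF q) ((int_cky hF q).const_mul _), integral_const, smul_eq_mul] at h1
    have h2 : b * Real.exp q.1 ≤ |b| := by
      have h3 : Real.exp q.1 ≤ 1 := Real.exp_le_one_iff.2 hq1
      have h4 := Real.exp_pos q.1
      have h5 := le_abs_self b
      have h6 := abs_nonneg b
      nlinarith
    linarith
  have hNe : N * (1 - Real.exp q.1) ≤ |N| := by
    have h1 : Real.exp q.1 ≤ 1 := Real.exp_le_one_iff.2 hq1
    have h2 := Real.exp_pos q.1
    have h3 := le_abs_self N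
    have h4 := abs_nonneg N
    nlinarith
  unfold TT
  linarith

theorem start (hγ : 0 < γ) (hγ' : γ < π / 2) (hF : TypeI γ b M F)
    (h1 : ∫⁻ ν, (ENNReal.ofReal (chX γ ν))⁻¹ ∂M = ⊤ ∨ 0 < bp γ b M) (N m : ℝ) :
    ∃ q : P, sg γ q ≤ -m ∧ ta γ q ≤ -m ∧ TT γ N F q < 0 := by
  by_cases hI : ∫⁻ ν, (ENNReal.ofReal (chX γ ν))⁻¹ ∂M = ⊤
  · exact start_infinite hγ hγ' hF hI N m
  · exact start_finite hγ hγ' hF hI (h1.resolve_left hI) N m

end Pool.Agent.EU.D6
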