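import Mathlib

/-!
Common definitions for the classification of the entire solutions of `u₁₁ u₂₂ = 1`.
The plane is `P = ℝ × ℝ`, `d1`, `d2` are the partial derivatives.
`Sol A v` : `A = log u₂₂`, `v = u₁₂` for a smooth entire solution `u`.
-/

set_option autoImplicit false

open scoped ContDiff Topology
open Real Set

namespace Pool.Agent.EU

/-- The plane. -/
abbrev P : Type := ℝ × ℝ

section partials

variable {E : Type*} [NormedAddCommGroup E] [NormedSpace ℝ E]

/-- The partial derivative with respect to the first variable. -/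
noncomputable def d1 (f : P → E) (x : P) : E := fderiv ℝ f x (1, 0)

/-- The partial derivative with respect to the second variable. -/
noncomputable def d2 (f : P → E) (x : P) : E := fderiv ℝ f x (0, 1)

theorem fderiv_apply_eq (f : P → E) (x y : P) :
    fderiv ℝ f x y = y.1 • d1 f x + y.2 • d2 f x := by
  have : y = y.1 • ((1 : ℝ), (0 : ℝ)) + y.2 • ((0 : ℝ), (1 : ℝ)) := by
    ext <;> simp
  conv_lhs => rw [this, map_add, map_smul, map_smul]
  rfl

theorem hasDerivAt_d1 {f : P → E} {x : P} (h : DifferentiableAt ℝ f x) :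
    HasDerivAt (fun s => f (s, x.2)) (d1 f x) x.1 := by
  have h1 : HasFDerivAt f (fderiv ℝ f x) (x.1, x.2) := h.hasFDerivAt
  have h2 : HasDerivAt (fun s : ℝ => ((s, x.2) : P)) (1, 0) x.1 :=
    (hasDerivAt_id x.1).prodMk (hasDerivAt_const x.1 x.2)
  exact h1.comp_hasDerivAt x.1 h2

theorem hasDerivAt_d2 {f : P → E} {x : P} (h : DifferentiableAt ℝ f x) :
    HasDerivAt (fun s => f (x.1, s)) (d2 f x) x.2 := by
  have h1 : HasFDerivAt f (fderiv ℝ f x) (x.1, x.2) := h.hasFDerivAt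
  have h2 : HasDerivAt (fun s : ℝ => ((x.1, s) : P)) (0, 1) x.2 :=
    (hasDerivAt_const x.2 x.1).prodMk (hasDerivAt_id x.2)
  exact h1.comp_hasDerivAt x.2 h2

theorem contDiff_d1 {f : P → E} {n m : WithTop ℕ∞} (h : ContDiff ℝ n f) (hmn : m + 1 ≤ n) :
    ContDiff ℝ m (d1 f) :=
  (h.fderiv_right hmn).clm_apply contDiff_const

theorem contDiff_d2 {f : P → E} {n m : WithTop ℕ∞} (h : ContDiff ℝ n f) (hmn : m + 1 ≤ n) :
    ContDiff ℝ m (d2 f) :=
  (h.fderiv_right hmn).clm_apply contDiff_const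

theorem smooth_d1 {f : P → E} (h : ContDiff ℝ ∞ f) : ContDiff ℝ ∞ (d1 f) :=
  contDiff_d1 h (by simp)

theorem smooth_d2 {f : P → E} (h : ContDiff ℝ ∞ f) : ContDiff ℝ ∞ (d2 f) :=
  contDiff_d2 h (by simp)

/-- Mixed second partial derivatives agree. -/
theorem d1_d2_comm {f : P → E} (h : ContDiff ℝ 2 f) (x : P) : d1 (d2 f) x = d2 (d1 f) x := by
  have hs : IsSymmSndFDerivAt ℝ f x := h.contDiffAt.isSymmSndFDerivAt (by simp)
  have hd : DifferentiableAt ℝ (fderiv ℝ f) x :=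
    ((h.fderiv_right (m := 1) (by norm_num)).differentiable (by norm_num)).differentiableAt
  have e1 : d1 (d2 f) x = fderiv ℝ (fderiv ℝ f) x (1, 0) (0, 1) := by
    have : HasFDerivAt (fun y => fderiv ℝ f y (0, 1))
        ((ContinuousLinearMap.apply ℝ E ((0 : ℝ), (1 : ℝ))).comp (fderiv ℝ (fderiv ℝ f) x)) x :=
      (ContinuousLinearMap.apply ℝ E ((0 : ℝ), (1 : ℝ))).hasFDerivAt.comp x hd.hasFDerivAt
    show fderiv ℝ (fun y => fderiv ℝ f y (0, 1)) x (1, 0) = _
    rw [this.fderiv]; rfl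
  have e2 : d2 (d1 f) x = fderiv ℝ (fderiv ℝ f) x (0, 1) (1, 0) := by
    have : HasFDerivAt (fun y => fderiv ℝ f y (1, 0))
        ((ContinuousLinearMap.apply ℝ E ((1 : ℝ), (0 : ℝ))).comp (fderiv ℝ (fderiv ℝ f) x)) x :=
      (ContinuousLinearMap.apply ℝ E ((1 : ℝ), (0 : ℝ))).hasFDerivAt.comp x hd.hasFDerivAt
    show fderiv ℝ (fun y => fderiv ℝ f y (1, 0)) x (0, 1) = _
    rw [this.fderiv]; rfl
  rw [e1, e2]
  exact hs _ _

end partials

/-- `A = log u₂₂`, `v = u₁₂` for a smooth entire solution of `u₁₁ u₂₂ = 1`: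
`∂₁ v = -e^{-A} ∂₂ A`, `∂₂ v = e^A ∂₁ A`. -/
structure Sol (A v : P → ℝ) : Prop where
  cA : ContDiff ℝ ∞ A
  cv : ContDiff ℝ ∞ v
  h1 : ∀ x, d1 v x = -(Real.exp (-(A x)) * d2 A x)
  h2 : ∀ x, d2 v x = Real.exp (A x) * d1 A x

/-- The map `Φ = (A, v)` from the plane to the plane. -/
def pair (A v : P → ℝ) (x : P) : P := (A x, v x)

/-- The map `Φ = A + i v` from the plane to `ℂ`. -/
def cpair (A v : P → ℝ) (x : P) : ℂ := ⟨A x, v x⟩

/-- The Jacobian of `Φ` (also the energy density of `A`). -/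
noncomputable def jac (A : P → ℝ) (x : P) : ℝ :=
  Real.exp (A x) * (d1 A x) ^ 2 + Real.exp (-(A x)) * (d2 A x) ^ 2

end Pool.Agent.EU
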