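import Pool.Agent.EU.Area

/-!
Module R0: local Hölder continuity of the second derivatives of an entire `C²` solution of
`u₁₁ u₂₂ = 1` (Morrey's argument for quasiregular gradient maps of difference quotients).
-/

set_option autoImplicit false
open scoped ContDiff Topology
open Real Set MeasureTheory Filter Metric

namespace Pool.Agent.EU

section curl

theorem cont_d1 {g : P → ℝ} (hg : ContDiff ℝ 1 g) : Continuous (d1 g) :=
  (contDiff_d1 (m := 0) hg (by norm_num)).continuous

theorem cont_d2 {g : P → ℝ} (hg : ContDiff ℝ 1 g) : Continuous (d2 g) :=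
  (contDiff_d2 (m := 0) hg (by norm_num)).continuous

theorem hasDerivAt_line {g : P → ℝ} (hg : ContDiff ℝ 1 g) (x e : P) (t : ℝ) :
    HasDerivAt (fun t : ℝ => g (x + t • e)) (fderiv ℝ g (x + t • e) e) t := by
  have h1 : HasDerivAt (fun t : ℝ => x + t • e) e t := by
    simpa using ((hasDerivAt_id t).smul_const e).const_add x
  exact ((hg.differentiable (by norm_num)) (x + t • e)).hasFDerivAt.comp_hasDerivAt t h1

/-- differentiation of `h ↦ ∫ a (x + h e) b x`. -/
theorem hasDerivAt_shift {a b : P → ℝ} (ha : ContDiff ℝ 1 a) (hb : Continuous b) {K : Set P}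
    (hK : IsCompact K) (e : P)
    (hz : ∀ h : ℝ, |h| < 1 → ∀ x ∉ K, fderiv ℝ a (x + h • e) e * b x = 0)
    (hz' : ∀ x ∉ K, a x * b x = 0) :
    HasDerivAt (fun h : ℝ => ∫ x, a (x + h • e) * b x) (∫ x, fderiv ℝ a x e * b x) 0 := by
  have hac : Continuous fun p : ℝ × P => fderiv ℝ a (p.2 + p.1 • e) e * b p.2 := by
    have h1 : Continuous fun y => fderiv ℝ a y e :=
      (ha.continuous_fderiv (by norm_num)).clm_apply continuous_const
    exact (h1.comp (by fun_prop)).mul (hb.comp continuous_snd)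
  obtain ⟨C, hC⟩ := ((isCompact_Icc (a := (-1 : ℝ)) (b := 1)).prod hK).exists_bound_of_continuousOn
    hac.continuousOn
  have key := hasDerivAt_integral_of_dominated_loc_of_deriv_le (μ := (volume : Measure P))
    (F := fun h x => a (x + h • e) * b x) (F' := fun h x => fderiv ℝ a (x + h • e) e * b x)
    (x₀ := (0 : ℝ)) (s := Metric.ball (0 : ℝ) 1) (bound := K.indicator fun _ => C)
    (Metric.ball_mem_nhds _ one_pos) ?_ ?_ ?_ ?_ ?_ ?_
  · have := key.2
    simpa using this
  · refine Eventually.of_forall fun h => ?_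
    exact ((ha.continuous.comp (by fun_prop)).mul hb).aestronglyMeasurable
  · simp only [zero_smul, add_zero]
    refine (ha.continuous.mul hb).integrable_of_hasCompactSupport ?_
    exact HasCompactSupport.intro hK hz'
  · exact (hac.comp (Continuous.prodMk continuous_const continuous_id)).aestronglyMeasurable
  · refine Eventually.of_forall fun x h hh => ?_
    have hh' : |h| < 1 := by simpa using hh
    by_cases hx : x ∈ K
    · rw [indicator_of_mem hx]
      exact hC (h, x) ⟨⟨(abs_lt.1 hh').1.le, (abs_lt.1 hh').2.le⟩, hx⟩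
    · rw [indicator_of_notMem hx, hz h hh' x hx]
      simp
  · exact (integrable_indicator_iff hK.measurableSet).2
      (integrableOn_const (hs := hK.measure_lt_top.ne))
  · refine Eventually.of_forall fun x h _ => ?_
    exact (hasDerivAt_line ha x e h).mul_const _

/-- `∫ dψ ∧ dg = 0` for `C¹` functions, `ψ` compactly supported. -/
theorem curl_free {ψ g : P → ℝ} (hψ : ContDiff ℝ 1 ψ) (hc : HasCompactSupport ψ)
    (hg : ContDiff ℝ 1 g) : ∫ x, (d1 ψ x * d2 g x - d2 ψ x * d1 g x) = 0 := by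
  have hd1c : HasCompactSupport (d1 ψ) := hc.fderiv_apply ℝ _
  have hd2c : HasCompactSupport (d2 ψ) := hc.fderiv_apply ℝ _
  -- a big compact set
  obtain ⟨R, hR⟩ := hc.isCompact.isBounded.subset_closedBall (0 : P)
  set K : Set P := closedBall (0 : P) (R + 1) with hKdef
  have hK : IsCompact K := isCompact_closedBall _ _
  have hsupp : ∀ x : P, R < ‖x‖ → ψ x = 0 := by
    intro x hx
    by_contra h
    have := hR (subset_tsupport ψ h)
    rw [mem_closedBall_zero_iff] at this
    linarith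
  have hsupp' : ∀ x : P, R < ‖x‖ → fderiv ℝ ψ x = 0 := by
    intro x hx
    by_contra h
    have := hR (support_fderiv_subset ℝ h)
    rw [mem_closedBall_zero_iff] at this
    linarith
  have hA : HasDerivAt (fun h : ℝ => ∫ x, ψ (x + h • ((0, 1) : P)) * d1 g x)
      (∫ x, fderiv ℝ ψ x (0, 1) * d1 g x) 0 := by
    refine hasDerivAt_shift hψ (cont_d1 hg) hK (0, 1) ?_ ?_
    · intro h hh x hx
      have h1 : R + 1 < ‖x‖ := by
        by_contra hcon
        exact hx (mem_closedBall_zero_iff.2 (not_lt.1 hcon))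
      have h2 : ‖x‖ ≤ ‖x + h • ((0, 1) : P)‖ + ‖h • ((0, 1) : P)‖ := by
        have := norm_sub_le (x + h • ((0, 1) : P)) (h • ((0, 1) : P))
        simpa using this
      have h3 : ‖h • ((0, 1) : P)‖ ≤ |h| := by
        rw [norm_smul, Real.norm_eq_abs]
        have : ‖((0, 1) : P)‖ = 1 := by simp [Prod.norm_def]
        rw [this, mul_one]
      rw [hsupp' _ (by linarith)]
      simp
    · intro x hx
      have h1 : R + 1 < ‖x‖ := by
        by_contra hcon
        exact hx (mem_closedBall_zero_iff.2 (not_lt.1 hcon))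
      rw [hsupp x (by linarith)]
      simp
  have hC : HasDerivAt (fun h : ℝ => ∫ x, g (x + h • ((0, -1) : P)) * d1 ψ x)
      (∫ x, fderiv ℝ g x (0, -1) * d1 ψ x) 0 := by
    refine hasDerivAt_shift hg (cont_d1 hψ) hK (0, -1) ?_ ?_
    · intro h hh x hx
      have h1 : R + 1 < ‖x‖ := by
        by_contra hcon
        exact hx (mem_closedBall_zero_iff.2 (not_lt.1 hcon))
      rw [d1, hsupp' x (by linarith)]
      simp
    · intro x hx
      have h1 : R + 1 < ‖x‖ := by
        by_contra hcon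
        exact hx (mem_closedBall_zero_iff.2 (not_lt.1 hcon))
      rw [d1, hsupp' x (by linarith)]
      simp
  have hB : ∀ h : ℝ, ∫ x, ψ (x + h • ((0, 1) : P)) * d1 g x =
      - ∫ x, g (x + h • ((0, -1) : P)) * d1 ψ x := by
    intro h
    set φ : P → ℝ := fun x => ψ (x + h • ((0, 1) : P)) with hφ
    have hφ1 : ContDiff ℝ 1 φ := hψ.comp (contDiff_id.add contDiff_const)
    have hφc : HasCompactSupport φ := hc.comp_homeomorph (Homeomorph.addRight _)
    have i1 := integral_fderiv_zero (hφ1.mul hg) hφc.mul_right (1, 0)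
    have c1 : ∀ x, fderiv ℝ (fun x => φ x * g x) x (1, 0) = d1 φ x * g x + φ x * d1 g x := by
      intro x
      rw [fderiv_fun_mul (hφ1.differentiable (by norm_num) x) (hg.differentiable (by norm_num) x)]
      simp only [_root_.add_apply, _root_.smul_apply, smul_eq_mul, d1]
      ring
    have j1 : Integrable (fun x => d1 φ x * g x) :=
      ((cont_d1 hφ1).mul hg.continuous).integrable_of_hasCompactSupport
        ((hφc.fderiv_apply ℝ _).mul_right)
    have j2 : Integrable (fun x => φ x * d1 g x) :=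
      (hφ1.continuous.mul (cont_d1 hg)).integrable_of_hasCompactSupport hφc.mul_right
    have h0 : ∫ x, (d1 φ x * g x + φ x * d1 g x) = 0 := by
      rw [← i1]
      exact integral_congr_ae (Eventually.of_forall fun x => (c1 x).symm)
    rw [integral_add j1 j2] at h0
    have e1 : ∫ x, g (x + h • ((0, -1) : P)) * d1 ψ x = ∫ x, d1 φ x * g x := by
      rw [← integral_add_right_eq_self (μ := (volume : Measure P))
        (fun x => g (x + h • ((0, -1) : P)) * d1 ψ x) (h • ((0, 1) : P))]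
      refine integral_congr_ae (Eventually.of_forall fun x => ?_)
      have e2 : x + h • ((0, 1) : P) + h • ((0, -1) : P) = x := by
        ext <;> simp
      have e3 : d1 φ x = d1 ψ (x + h • ((0, 1) : P)) := by
        simp only [d1, hφ]
        rw [fderiv_comp_add_right]
      simp only
      rw [e2, e3, mul_comm]
    rw [e1]
    linarith
  have hB' : (fun h : ℝ => ∫ x, ψ (x + h • ((0, 1) : P)) * d1 g x) =
      fun h => - ∫ x, g (x + h • ((0, -1) : P)) * d1 ψ x := funext hB
  rw [hB'] at hA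
  have hu := hA.unique hC.neg
  have j1 : Integrable (fun x => d1 ψ x * d2 g x) :=
    ((cont_d1 hψ).mul (cont_d2 hg)).integrable_of_hasCompactSupport hd1c.mul_right
  have j2 : Integrable (fun x => d2 ψ x * d1 g x) :=
    ((cont_d2 hψ).mul (cont_d1 hg)).integrable_of_hasCompactSupport hd2c.mul_right
  rw [integral_sub j1 j2]
  have e4 : ∫ x, fderiv ℝ g x (0, -1) * d1 ψ x = - ∫ x, d1 ψ x * d2 g x := by
    rw [← integral_neg]
    refine integral_congr_ae (Eventually.of_forall fun x => ?_)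
    have : ((0, -1) : P) = -(0, 1) := by ext <;> simp
    simp only [d2]
    rw [this, map_neg]
    ring
  rw [e4, neg_neg] at hu
  have hu' : ∫ x, d2 ψ x * d1 g x = ∫ x, d1 ψ x * d2 g x := hu
  rw [hu']
  ring

end curl


section maxprinciple

theorem contDiff_sqpos : ContDiff ℝ 1 (fun t : ℝ => (max t 0) ^ 2) := by
  have hd : ∀ t : ℝ, HasDerivAt (fun t : ℝ => (max t 0) ^ 2) (2 * max t 0) t := by
    intro t
    rcases lt_trichotomy t 0 with ht | ht | ht
    · have : (fun t : ℝ => (max t 0) ^ 2) =ᶠ[𝓝 t] fun _ => 0 := by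
        filter_upwards [Iio_mem_nhds ht] with s hs
        rw [max_eq_right (le_of_lt hs)]; simp
      rw [max_eq_right ht.le, mul_zero]
      exact (hasDerivAt_const t (0:ℝ)).congr_of_eventuallyEq this
    · subst ht
      simp only [max_self, mul_zero]
      rw [hasDerivAt_iff_isLittleO]
      simp only [max_self, sub_zero, smul_zero]
      rw [Asymptotics.isLittleO_iff]
      intro c hc
      filter_upwards [Metric.ball_mem_nhds (0:ℝ) hc] with s hs
      have hs' : |s| < c := by simpa using hs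
      have h1 : max s 0 ≤ |s| := max_le (le_abs_self s) (abs_nonneg s)
      have h0 : 0 ≤ max s 0 := le_max_right _ _
      rw [Real.norm_eq_abs, Real.norm_eq_abs]
      have : (max s 0) ^ 2 - 0 ^ 2 = (max s 0) ^ 2 := by ring
      rw [this, abs_of_nonneg (by positivity)]
      nlinarith [abs_nonneg s]
    · have : (fun t : ℝ => (max t 0) ^ 2) =ᶠ[𝓝 t] fun t => t ^ 2 := by
        filter_upwards [Ioi_mem_nhds ht] with s hs
        rw [max_eq_left (le_of_lt hs)]
      rw [max_eq_left ht.le]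
      have h2 := (hasDerivAt_pow 2 t).congr_of_eventuallyEq this
      simpa using h2
  rw [contDiff_one_iff_deriv]
  refine ⟨fun t => (hd t).differentiableAt, ?_⟩
  have : deriv (fun t : ℝ => (max t 0) ^ 2) = fun t => 2 * max t 0 := funext fun t => (hd t).deriv
  rw [this]
  fun_prop

theorem deriv_sqpos (t : ℝ) (ht : 0 ≤ t) : HasDerivAt (fun t : ℝ => (max t 0) ^ 2) (2 * max t 0) t := by
  have h1 : deriv (fun t : ℝ => (max t 0) ^ 2) t = 2 * max t 0 := by
    rcases eq_or_lt_of_le ht with ht | ht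
    · subst ht
      simp only [max_self, mul_zero]
      have hmin : IsLocalMin (fun t : ℝ => (max t 0) ^ 2) 0 := by
        refine Eventually.of_forall fun s => ?_
        simp only [max_self]
        have : (0:ℝ) ^ 2 ≤ (max s 0) ^ 2 := by
          rw [zero_pow two_ne_zero]; exact sq_nonneg _
        exact this
      exact hmin.deriv_eq_zero
    · have : (fun t : ℝ => (max t 0) ^ 2) =ᶠ[𝓝 t] fun t => t ^ 2 := by
        filter_upwards [Ioi_mem_nhds ht] with s hs
        rw [max_eq_left (le_of_lt hs)]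
      rw [this.deriv_eq, max_eq_left ht.le]
      simp
  rw [← h1]
  exact (contDiff_sqpos.differentiable (by norm_num) t).hasDerivAt

/-- monotonicity: the components of a quasiregular `C¹` map satisfy the maximum principle. -/
theorem max_qr {f g : P → ℝ} (hf : ContDiff ℝ 1 f) (hg : ContDiff ℝ 1 g) {Ω : Set P}
    (hΩ : IsOpen Ω) (hb : Bornology.IsBounded Ω) {K : ℝ}
    (hE : ∀ x ∈ Ω, (d1 f x) ^ 2 + (d2 f x) ^ 2 ≤ K * (d1 f x * d2 g x - d2 f x * d1 g x))
    (hK : 0 < K) {M : ℝ} (hM : ∀ x ∈ frontier Ω, f x ≤ M) : ∀ x ∈ closure Ω, f x ≤ M := by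
  classical
  intro x0 hx0
  by_contra hcon
  have hcon' : M < f x0 := not_le.1 hcon
  set M' : ℝ := (f x0 + M) / 2 with hM'
  have hMM' : M < M' := by rw [hM']; linarith
  have hM'x : M' < f x0 := by rw [hM']; linarith
  have hx0Ω : x0 ∈ Ω := by
    by_contra h
    have : x0 ∈ frontier Ω := by
      rw [hΩ.frontier_eq]; exact ⟨hx0, h⟩
    have := hM x0 this
    linarith
  set s : P → ℝ := fun x => (max (f x - M') 0) ^ 2 with hs
  have hs1 : ContDiff ℝ 1 s := contDiff_sqpos.comp (hf.sub contDiff_const)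
  set ψ : P → ℝ := Ω.indicator s with hψ
  -- locally `ψ = s` or `ψ = 0`
  have hin : ∀ x ∈ Ω, ψ =ᶠ[𝓝 x] s := by
    intro x hx
    filter_upwards [hΩ.mem_nhds hx] with y hy
    rw [hψ, indicator_of_mem hy]
  have hout : ∀ x ∉ Ω, ψ =ᶠ[𝓝 x] fun _ => 0 := by
    intro x hx
    by_cases hxc : x ∈ closure Ω
    · have hxf : x ∈ frontier Ω := by rw [hΩ.frontier_eq]; exact ⟨hxc, hx⟩
      have h1 : f x < M' := lt_of_le_of_lt (hM x hxf) hMM'
      filter_upwards [hf.continuous.continuousAt.eventually_lt_const h1] with y hy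
      by_cases hyΩ : y ∈ Ω
      · rw [hψ, indicator_of_mem hyΩ, hs]
        simp only
        rw [max_eq_right (by linarith)]; simp
      · rw [hψ, indicator_of_notMem hyΩ]
    · filter_upwards [isClosed_closure.isOpen_compl.mem_nhds hxc] with y hy
      have : y ∉ Ω := fun h => hy (subset_closure h)
      rw [hψ, indicator_of_notMem this]
  have hψ1 : ContDiff ℝ 1 ψ := by
    rw [contDiff_iff_contDiffAt]
    intro x
    by_cases hx : x ∈ Ω
    · exact hs1.contDiffAt.congr_of_eventuallyEq (hin x hx)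
    · exact (contDiffAt_const (c := (0:ℝ))).congr_of_eventuallyEq (hout x hx)
  have hcl : IsCompact (closure Ω) := hb.isCompact_closure
  have hψc : HasCompactSupport ψ := by
    refine HasCompactSupport.intro hcl ?_
    intro x hx
    rw [hψ, indicator_of_notMem fun h => hx (subset_closure h)]
  have hds : ∀ x e, M' ≤ f x → fderiv ℝ s x e = 2 * max (f x - M') 0 * fderiv ℝ f x e := by
    intro x e hx
    have h1 := deriv_sqpos (f x - M') (by linarith)
    have h2 : HasFDerivAt (fun x => f x - M') (fderiv ℝ f x) x :=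
      ((hf.differentiable (by norm_num)) x).hasFDerivAt.sub_const M'
    have h3 := h1.comp_hasFDerivAt x h2
    have h4 : fderiv ℝ s x = _ := h3.fderiv
    rw [h4]
    simp
  have hds' : ∀ x e, f x < M' → fderiv ℝ s x e = 0 := by
    intro x e hx
    have : s =ᶠ[𝓝 x] fun _ => 0 := by
      filter_upwards [hf.continuous.continuousAt.eventually_lt_const hx] with y hy
      rw [hs]; simp only
      rw [max_eq_right (by linarith)]; simp
    rw [this.fderiv_eq]; simp
  have hd : ∀ x e, fderiv ℝ ψ x e = Ω.indicator (fun x => 2 * max (f x - M') 0 * fderiv ℝ f x e) x := by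
    intro x e
    by_cases hx : x ∈ Ω
    · rw [(hin x hx).fderiv_eq, indicator_of_mem hx]
      rcases le_or_gt M' (f x) with h | h
      · exact hds x e h
      · rw [hds' x e h, max_eq_right (by linarith)]; simp
    · rw [(hout x hx).fderiv_eq, indicator_of_notMem hx]; simp
  have hd1 : ∀ x, d1 ψ x = Ω.indicator (fun x => 2 * max (f x - M') 0 * d1 f x) x :=
    fun x => hd x (1, 0)
  have hd2 : ∀ x, d2 ψ x = Ω.indicator (fun x => 2 * max (f x - M') 0 * d2 f x) x :=
    fun x => hd x (0, 1)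
  have h0 := curl_free hψ1 hψc hg
  have hval : ∀ x, d1 ψ x * d2 g x - d2 ψ x * d1 g x =
      Ω.indicator (fun x => 2 * max (f x - M') 0 * (d1 f x * d2 g x - d2 f x * d1 g x)) x := by
    intro x
    rw [hd1, hd2]
    by_cases hx : x ∈ Ω
    · simp only [indicator_of_mem hx]
      ring
    · simp only [indicator_of_notMem hx]
      ring
  have hJ0 : ∀ x ∈ Ω, 0 ≤ d1 f x * d2 g x - d2 f x * d1 g x := by
    intro x hx
    have := hE x hx
    by_contra hneg
    have h5 : K * (d1 f x * d2 g x - d2 f x * d1 g x) < 0 := mul_neg_of_pos_of_neg hK (not_le.1 hneg)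
    nlinarith [sq_nonneg (d1 f x), sq_nonneg (d2 f x)]
  have hnn : ∀ x, 0 ≤ d1 ψ x * d2 g x - d2 ψ x * d1 g x := by
    intro x
    rw [hval]
    by_cases hx : x ∈ Ω
    · rw [indicator_of_mem hx]
      exact mul_nonneg (mul_nonneg zero_le_two (le_max_right _ _)) (hJ0 x hx)
    · rw [indicator_of_notMem hx]
  have hcont : Continuous fun x => d1 ψ x * d2 g x - d2 ψ x * d1 g x :=
    ((cont_d1 hψ1).mul (cont_d2 hg)).sub ((cont_d2 hψ1).mul (cont_d1 hg))
  have hcs : HasCompactSupport fun x => d1 ψ x * d2 g x - d2 ψ x * d1 g x :=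
    ((hψc.fderiv_apply ℝ (1, 0)).mul_right).sub ((hψc.fderiv_apply ℝ (0, 1)).mul_right)
  have hzero : ∀ x, d1 ψ x * d2 g x - d2 ψ x * d1 g x = 0 := by
    by_contra hne
    push Not at hne
    obtain ⟨x, hx⟩ := hne
    have := hcont.integral_pos_of_hasCompactSupport_nonneg_nonzero (μ := (volume : Measure P))
      hcs hnn hx
    linarith
  have hfd : ∀ x, fderiv ℝ ψ x = 0 := by
    intro x
    have hpart : d1 ψ x = 0 ∧ d2 ψ x = 0 := by
      rw [hd1, hd2]
      by_cases hx : x ∈ Ω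
      · simp only [indicator_of_mem hx]
        have hz := hzero x
        rw [hval, indicator_of_mem hx] at hz
        rcases mul_eq_zero.1 hz with h | h
        · rw [h]; simp
        · have := hE x hx
          rw [h, mul_zero] at this
          have h1 : d1 f x = 0 := by nlinarith [sq_nonneg (d1 f x), sq_nonneg (d2 f x)]
          have h2 : d2 f x = 0 := by nlinarith [sq_nonneg (d1 f x), sq_nonneg (d2 f x)]
          rw [h1, h2]; simp
      · simp [indicator_of_notMem hx]
    refine ContinuousLinearMap.ext fun y => ?_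
    rw [fderiv_apply_eq, hpart.1, hpart.2]
    simp
  have hconst := is_const_of_fderiv_eq_zero (hψ1.differentiable (by norm_num)) hfd
  -- a point outside
  obtain ⟨y, hy⟩ : ∃ y, y ∉ closure Ω := by
    by_contra h
    push Not at h
    have : closure Ω = univ := eq_univ_of_forall h
    rw [this] at hcl
    exact noncompact_univ P hcl
  have h1 := hconst x0 y
  rw [hψ, indicator_of_mem hx0Ω, indicator_of_notMem fun h => hy (subset_closure h), hs] at h1
  simp only at h1
  rw [max_eq_left (by linarith)] at h1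
  have : f x0 - M' = 0 := by
    exact pow_eq_zero_iff (two_ne_zero) |>.1 h1
  linarith

end maxprinciple


section courant_lebesgue

theorem sq_sub_le {φ φ' : ℝ → ℝ} (hd : ∀ t, HasDerivAt φ (φ' t) t) (hc : Continuous φ')
    {a b s t : ℝ} (hs : s ∈ Icc a b) (ht : t ∈ Icc a b) :
    (φ t - φ s) ^ 2 ≤ (b - a) * ∫ τ in Icc a b, (φ' τ) ^ 2 := by
  -- the ordered case
  have key : ∀ s t : ℝ, s ∈ Icc a b → t ∈ Icc a b → s < t →
      (φ t - φ s) ^ 2 ≤ (b - a) * ∫ τ in Icc a b, (φ' τ) ^ 2 := by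
    intro s t hs ht hst
    have h1 : ∫ τ in s..t, φ' τ = φ t - φ s :=
      intervalIntegral.integral_eq_sub_of_hasDerivAt (fun τ _ => hd τ) (hc.intervalIntegrable _ _)
    set l : ℝ := (φ t - φ s) / (t - s) with hl
    have h2 : 0 ≤ ∫ τ in s..t, (φ' τ - l) ^ 2 :=
      intervalIntegral.integral_nonneg hst.le fun τ _ => sq_nonneg _
    have h3 : ∫ τ in s..t, (φ' τ - l) ^ 2 =
        (∫ τ in s..t, (φ' τ) ^ 2) - 2 * l * (φ t - φ s) + l ^ 2 * (t - s) := by
      have e : ∀ τ, (φ' τ - l) ^ 2 = (φ' τ) ^ 2 - 2 * l * φ' τ + l ^ 2 := fun τ => by ring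
      simp_rw [e]
      have i1 : IntervalIntegrable (fun τ => (φ' τ) ^ 2) volume s t :=
        (hc.pow 2).intervalIntegrable _ _
      have i2 : IntervalIntegrable (fun τ => 2 * l * φ' τ) volume s t :=
        (continuous_const.mul hc).intervalIntegrable _ _
      rw [intervalIntegral.integral_add (i1.sub i2) intervalIntegrable_const,
        intervalIntegral.integral_sub i1 i2, intervalIntegral.integral_const_mul, h1,
        intervalIntegral.integral_const]
      simp only [smul_eq_mul]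
      ring
    have hts : 0 < t - s := sub_pos.2 hst
    have h4 : l * (t - s) = φ t - φ s := by
      rw [hl]; field_simp
    have h5 : (φ t - φ s) ^ 2 ≤ (t - s) * ∫ τ in s..t, (φ' τ) ^ 2 := by
      rw [h3] at h2
      have h6 : l * (φ t - φ s) ≤ ∫ τ in s..t, (φ' τ) ^ 2 := by
        have : l ^ 2 * (t - s) = l * (φ t - φ s) := by rw [← h4]; ring
        linarith
      calc (φ t - φ s) ^ 2 = (t - s) * (l * (φ t - φ s)) := by rw [← h4]; ring
        _ ≤ _ := mul_le_mul_of_nonneg_left h6 hts.le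
    have h7 : ∫ τ in s..t, (φ' τ) ^ 2 ≤ ∫ τ in Icc a b, (φ' τ) ^ 2 := by
      rw [intervalIntegral.integral_of_le hst.le]
      refine setIntegral_mono_set ((hc.pow 2).continuousOn.integrableOn_compact isCompact_Icc)
        (Eventually.of_forall fun τ => sq_nonneg _) ?_
      exact LE.le.eventuallyLE fun τ hτ => ⟨hs.1.trans hτ.1.le, hτ.2.trans ht.2⟩
    have h8 : 0 ≤ ∫ τ in s..t, (φ' τ) ^ 2 :=
      intervalIntegral.integral_nonneg hst.le fun τ _ => sq_nonneg _
    have h9 : t - s ≤ b - a := by linarith [hs.1, ht.2]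
    calc (φ t - φ s) ^ 2 ≤ (t - s) * ∫ τ in s..t, (φ' τ) ^ 2 := h5
      _ ≤ (b - a) * ∫ τ in s..t, (φ' τ) ^ 2 := mul_le_mul_of_nonneg_right h9 h8
      _ ≤ _ := mul_le_mul_of_nonneg_left h7 (by linarith)
  rcases lt_trichotomy s t with h | h | h
  · exact key s t hs ht h
  · subst h
    rw [sub_self, zero_pow two_ne_zero]
    refine mul_nonneg (by linarith [hs.1, hs.2]) ?_
    exact integral_nonneg fun τ => sq_nonneg _
  · have := key t s ht hs h
    have e : (φ t - φ s) ^ 2 = (φ s - φ t) ^ 2 := by ring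
    rw [e]; exact this

theorem good_vline {F : P → ℝ} (hF : Continuous F) {a b : ℝ} (c d : ℝ) (hab : a < b) :
    ∃ x ∈ Icc a b, (b - a) * ∫ τ in Icc c d, F (x, τ) ≤ ∫ p in Icc a b ×ˢ Icc c d, F p := by
  have hint : IntegrableOn F (Icc a b ×ˢ Icc c d) (volume.prod volume) :=
    hF.continuousOn.integrableOn_compact (isCompact_Icc.prod isCompact_Icc)
  have e1 : ∫ p in Icc a b ×ˢ Icc c d, F p = ∫ x in Icc a b, ∫ τ in Icc c d, F (x, τ) := by
    rw [Measure.volume_eq_prod, setIntegral_prod _ hint]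
  have hint' : IntegrableOn (fun x => ∫ τ in Icc c d, F (x, τ)) (Icc a b) := by
    have := hint
    rw [IntegrableOn, ← Measure.prod_restrict] at this
    exact this.integral_prod_left
  have hvol : volume (Icc a b) ≠ 0 := by
    rw [Real.volume_Icc]; simpa using hab
  obtain ⟨x, hx, hle⟩ := exists_le_setAverage (μ := (volume : Measure ℝ)) (s := Icc a b) hvol
    (by rw [Real.volume_Icc]; exact ENNReal.ofReal_ne_top) hint'
  refine ⟨x, hx, ?_⟩
  rw [setAverage_eq, Measure.real, Real.volume_Icc, ENNReal.toReal_ofReal (by linarith),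
    ← e1, smul_eq_mul] at hle
  have hba : 0 < b - a := by linarith
  calc (b - a) * ∫ τ in Icc c d, F (x, τ) ≤ (b - a) * ((b - a)⁻¹ * ∫ p in Icc a b ×ˢ Icc c d, F p) :=
        mul_le_mul_of_nonneg_left hle hba.le
    _ = _ := by field_simp

theorem good_hline {F : P → ℝ} (hF : Continuous F) {c d : ℝ} (a b : ℝ) (hcd : c < d) :
    ∃ y ∈ Icc c d, (d - c) * ∫ s in Icc a b, F (s, y) ≤ ∫ p in Icc a b ×ˢ Icc c d, F p := by
  obtain ⟨y, hy, h⟩ := good_vline (F := fun p => F p.swap) (hF.comp continuous_swap) a b hcd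
  refine ⟨y, hy, ?_⟩
  have e := setIntegral_prod_swap (μ := (volume : Measure ℝ)) (ν := (volume : Measure ℝ))
    (Icc a b) (Icc c d) F
  rw [← Measure.volume_eq_prod] at e
  rw [e] at h
  simpa using h

theorem mem_cball {x z : P} {r : ℝ} :
    x ∈ closedBall z r ↔ |x.1 - z.1| ≤ r ∧ |x.2 - z.2| ≤ r := by
  rw [Metric.mem_closedBall, Prod.dist_eq, max_le_iff, Real.dist_eq, Real.dist_eq]

theorem mem_oball {x z : P} {r : ℝ} :
    x ∈ ball z r ↔ |x.1 - z.1| < r ∧ |x.2 - z.2| < r := by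
  rw [Metric.mem_ball, Prod.dist_eq, max_lt_iff, Real.dist_eq, Real.dist_eq]

/-- gradient square -/
noncomputable def gsq (f : P → ℝ) (x : P) : ℝ := (d1 f x) ^ 2 + (d2 f x) ^ 2

theorem gsq_nonneg (f : P → ℝ) (x : P) : 0 ≤ gsq f x :=
  add_nonneg (sq_nonneg _) (sq_nonneg _)

theorem cont_gsq {f : P → ℝ} (hf : ContDiff ℝ 1 f) : Continuous (gsq f) :=
  ((cont_d1 hf).pow 2).add ((cont_d2 hf).pow 2)

theorem osc_le {f g : P → ℝ} (hf : ContDiff ℝ 1 f) (hg : ContDiff ℝ 1 g) {z : P} {r K : ℝ}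
    (hr : 0 < r) (hK : 0 < K)
    (hE : ∀ x ∈ closedBall z (2 * r), gsq f x ≤ K * (d1 f x * d2 g x - d2 f x * d1 g x)) :
    ∀ x ∈ closedBall z r, ∀ y ∈ closedBall z r,
      (f x - f y) ^ 2 ≤ 64 * ∫ p in closedBall z (2 * r) \ ball z r, gsq f p := by
  set A : ℝ := ∫ p in closedBall z (2 * r) \ ball z r, gsq f p with hA
  have hA0 : 0 ≤ A := integral_nonneg fun p => gsq_nonneg f p
  have hintA : IntegrableOn (gsq f) (closedBall z (2 * r) \ ball z r) :=
    ((cont_gsq hf).continuousOn.integrableOn_compact (isCompact_closedBall _ _)).mono_set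
      sdiff_subset
  have hmeasA : MeasurableSet (closedBall z (2 * r) \ ball z r) :=
    measurableSet_closedBall.diff measurableSet_ball
  set δ : ℝ := 2 * √A with hδ
  have hδ0 : 0 ≤ δ := by positivity
  have hδ2 : δ ^ 2 = 4 * A := by rw [hδ, mul_pow, Real.sq_sqrt hA0]; norm_num
  -- integrals over sub-rectangles
  have sub : ∀ (S : Set P) (G : P → ℝ), Continuous G → (∀ p, 0 ≤ G p) → (∀ p, G p ≤ gsq f p) →
      S ⊆ closedBall z (2 * r) \ ball z r → MeasurableSet S → ∫ p in S, G p ≤ A := by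
    intro S G hG hG0 hGle hS hSm
    calc ∫ p in S, G p ≤ ∫ p in S, gsq f p := by
          refine setIntegral_mono ?_ (hintA.mono_set hS) hGle
          exact (hG.continuousOn.integrableOn_compact (isCompact_closedBall z (2 * r))).mono_set
            (hS.trans sdiff_subset)
      _ ≤ A := setIntegral_mono_set hintA (Eventually.of_forall fun p => gsq_nonneg f p)
            (LE.le.eventuallyLE hS)
  have c2 : Continuous fun p => (d2 f p) ^ 2 := (cont_d2 hf).pow 2
  have c1 : Continuous fun p => (d1 f p) ^ 2 := (cont_d1 hf).pow 2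
  -- vertical lines
  have vert : ∀ a b : ℝ, b - a = r → (∀ s ∈ Icc a b, r ≤ |s - z.1| ∧ |s - z.1| ≤ 2 * r) →
      ∃ x ∈ Icc a b, ∀ s ∈ Icc (z.2 - 2 * r) (z.2 + 2 * r), ∀ t ∈ Icc (z.2 - 2 * r) (z.2 + 2 * r),
        |f (x, t) - f (x, s)| ≤ δ := by
    intro a b hab hs
    obtain ⟨x, hx, hle⟩ := good_vline c2 (z.2 - 2 * r) (z.2 + 2 * r) (show a < b by linarith)
    refine ⟨x, hx, fun s hs' t ht' => ?_⟩
    have h1 : ∫ p in Icc a b ×ˢ Icc (z.2 - 2 * r) (z.2 + 2 * r), (d2 f p) ^ 2 ≤ A := by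
      refine sub _ _ c2 (fun p => sq_nonneg _) (fun p => ?_) ?_
        (measurableSet_Icc.prod measurableSet_Icc)
      · simp only [gsq]; nlinarith [sq_nonneg (d1 f p)]
      · rintro ⟨p1, p2⟩ ⟨hp1, hp2⟩
        have := hs p1 hp1
        refine ⟨mem_cball.2 ⟨this.2, abs_le.2 ⟨by linarith [hp2.1], by linarith [hp2.2]⟩⟩, ?_⟩
        intro hb
        have := (mem_oball.1 hb).1
        simp only at this
        linarith [(hs p1 hp1).1]
    have hfd : Differentiable ℝ f := hf.differentiable (by norm_num)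
    have h2 := sq_sub_le (φ := fun t => f (x, t)) (φ' := fun t => d2 f (x, t))
      (fun t => hasDerivAt_d2 (x := (x, t)) (hfd (x, t)))
      ((cont_d2 hf).comp (by fun_prop)) hs' ht'
    have h3 : (f (x, t) - f (x, s)) ^ 2 ≤ δ ^ 2 := by
      rw [hδ2]
      calc (f (x, t) - f (x, s)) ^ 2
          ≤ (z.2 + 2 * r - (z.2 - 2 * r)) * ∫ τ in Icc (z.2 - 2 * r) (z.2 + 2 * r),
            (d2 f (x, τ)) ^ 2 := h2
        _ = 4 * ((b - a) * ∫ τ in Icc (z.2 - 2 * r) (z.2 + 2 * r), (d2 f (x, τ)) ^ 2) := by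
            rw [hab]; ring
        _ ≤ 4 * A := by linarith
    exact abs_le_of_sq_le_sq h3 hδ0
  -- horizontal lines
  have horiz : ∀ a b : ℝ, b - a = r → (∀ s ∈ Icc a b, r ≤ |s - z.2| ∧ |s - z.2| ≤ 2 * r) →
      ∃ y ∈ Icc a b, ∀ s ∈ Icc (z.1 - 2 * r) (z.1 + 2 * r), ∀ t ∈ Icc (z.1 - 2 * r) (z.1 + 2 * r),
        |f (t, y) - f (s, y)| ≤ δ := by
    intro a b hab hs
    obtain ⟨y, hy, hle⟩ := good_hline c1 (z.1 - 2 * r) (z.1 + 2 * r) (show a < b by linarith)
    refine ⟨y, hy, fun s hs' t ht' => ?_⟩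
    have h1 : ∫ p in Icc (z.1 - 2 * r) (z.1 + 2 * r) ×ˢ Icc a b, (d1 f p) ^ 2 ≤ A := by
      refine sub _ _ c1 (fun p => sq_nonneg _) (fun p => ?_) ?_
        (measurableSet_Icc.prod measurableSet_Icc)
      · simp only [gsq]; nlinarith [sq_nonneg (d2 f p)]
      · rintro ⟨p1, p2⟩ ⟨hp1, hp2⟩
        have := hs p2 hp2
        refine ⟨mem_cball.2 ⟨abs_le.2 ⟨by linarith [hp1.1], by linarith [hp1.2]⟩, this.2⟩, ?_⟩
        intro hb
        have := (mem_oball.1 hb).2
        simp only at this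
        linarith [(hs p2 hp2).1]
    have hfd : Differentiable ℝ f := hf.differentiable (by norm_num)
    have h2 := sq_sub_le (φ := fun t => f (t, y)) (φ' := fun t => d1 f (t, y))
      (fun t => hasDerivAt_d1 (x := (t, y)) (hfd (t, y)))
      ((cont_d1 hf).comp (by fun_prop)) hs' ht'
    have h3 : (f (t, y) - f (s, y)) ^ 2 ≤ δ ^ 2 := by
      rw [hδ2]
      calc (f (t, y) - f (s, y)) ^ 2
          ≤ (z.1 + 2 * r - (z.1 - 2 * r)) * ∫ τ in Icc (z.1 - 2 * r) (z.1 + 2 * r),
            (d1 f (τ, y)) ^ 2 := h2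
        _ = 4 * ((b - a) * ∫ τ in Icc (z.1 - 2 * r) (z.1 + 2 * r), (d1 f (τ, y)) ^ 2) := by
            rw [hab]; ring
        _ ≤ 4 * A := by linarith
    exact abs_le_of_sq_le_sq h3 hδ0
  have absR : ∀ c s : ℝ, s ∈ Icc (c + r) (c + 2 * r) → r ≤ |s - c| ∧ |s - c| ≤ 2 * r := by
    intro c s hs
    have : 0 ≤ s - c := by linarith [hs.1]
    rw [abs_of_nonneg this]
    exact ⟨by linarith [hs.1], by linarith [hs.2]⟩
  have absL : ∀ c s : ℝ, s ∈ Icc (c - 2 * r) (c - r) → r ≤ |s - c| ∧ |s - c| ≤ 2 * r := by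
    intro c s hs
    have : s - c ≤ 0 := by linarith [hs.2]
    rw [abs_of_nonpos this]
    exact ⟨by linarith [hs.2], by linarith [hs.1]⟩
  obtain ⟨xR, hxR, hvR⟩ := vert (z.1 + r) (z.1 + 2 * r) (by ring) (absR z.1)
  obtain ⟨xL, hxL, hvL⟩ := vert (z.1 - 2 * r) (z.1 - r) (by ring) (absL z.1)
  obtain ⟨yT, hyT, hhT⟩ := horiz (z.2 + r) (z.2 + 2 * r) (by ring) (absR z.2)
  obtain ⟨yB, hyB, hhB⟩ := horiz (z.2 - 2 * r) (z.2 - r) (by ring) (absL z.2)
  set Ω : Set P := Ioo xL xR ×ˢ Ioo yB yT with hΩdef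
  have hΩ : IsOpen Ω := isOpen_Ioo.prod isOpen_Ioo
  have hLR : xL < xR := by linarith [hxR.1, hxL.2]
  have hBT : yB < yT := by linarith [hyT.1, hyB.2]
  have hcl : closure Ω = Icc xL xR ×ˢ Icc yB yT := by
    rw [hΩdef, closure_prod_eq, closure_Ioo hLR.ne, closure_Ioo hBT.ne]
  have hb : Bornology.IsBounded Ω := by
    have : Bornology.IsBounded (Icc xL xR ×ˢ Icc yB yT : Set P) :=
      (isCompact_Icc.prod isCompact_Icc).isBounded
    rw [← hcl] at this
    exact this.subset subset_closure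
  set c : ℝ := f (xR, yT) with hc
  have mx : ∀ p1, xL ≤ p1 → p1 ≤ xR → p1 ∈ Icc (z.1 - 2 * r) (z.1 + 2 * r) := fun p1 h1 h2 =>
    ⟨by linarith [hxL.1], by linarith [hxR.2]⟩
  have my : ∀ p2, yB ≤ p2 → p2 ≤ yT → p2 ∈ Icc (z.2 - 2 * r) (z.2 + 2 * r) := fun p2 h1 h2 =>
    ⟨by linarith [hyB.1], by linarith [hyT.2]⟩
  have hfr : ∀ p ∈ frontier Ω, |f p - c| ≤ 2 * δ := by
    rintro ⟨p1, p2⟩ hp
    rw [hΩ.frontier_eq, hcl] at hp
    obtain ⟨⟨⟨h1, h2⟩, h3, h4⟩, hn⟩ := hp
    simp only at h1 h2 h3 h4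
    have hcase : p1 = xR ∨ p2 = yT ∨ p1 = xL ∨ p2 = yB := by
      by_contra hcon
      push Not at hcon
      obtain ⟨n1, n2, n3, n4⟩ := hcon
      exact hn ⟨⟨lt_of_le_of_ne h1 (Ne.symm n3), lt_of_le_of_ne h2 n1⟩,
        ⟨lt_of_le_of_ne h3 (Ne.symm n4), lt_of_le_of_ne h4 n2⟩⟩
    rcases hcase with h | h | h | h
    · subst h
      have := hvR yT (my yT hBT.le le_rfl) p2 (my p2 h3 h4)
      linarith
    · subst h
      have := hhT xR (mx xR hLR.le le_rfl) p1 (mx p1 h1 h2)
      linarith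
    · subst h
      have e1 := hvL yT (my yT hBT.le le_rfl) p2 (my p2 h3 h4)
      have e2 := hhT xR (mx xR hLR.le le_rfl) p1 (mx p1 h1 h2)
      have : |f (p1, p2) - c| ≤ |f (p1, p2) - f (p1, yT)| + |f (p1, yT) - c| := abs_sub_le _ _ _
      linarith
    · subst h
      have e1 := hhB xR (mx xR hLR.le le_rfl) p1 (mx p1 h1 h2)
      have e2 := hvR yT (my yT hBT.le le_rfl) p2 (my p2 h3 h4)
      have : |f (p1, p2) - c| ≤ |f (p1, p2) - f (xR, p2)| + |f (xR, p2) - c| := abs_sub_le _ _ _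
      linarith
  have hclsub : closure Ω ⊆ closedBall z (2 * r) := by
    rw [hcl]
    rintro ⟨p1, p2⟩ ⟨⟨h1, h2⟩, h3, h4⟩
    have m1 := mx p1 h1 h2
    have m2 := my p2 h3 h4
    exact mem_cball.2 ⟨abs_le.2 ⟨by linarith [m1.1], by linarith [m1.2]⟩,
      abs_le.2 ⟨by linarith [m2.1], by linarith [m2.2]⟩⟩
  have hup : ∀ x ∈ closure Ω, f x ≤ c + 2 * δ :=
    max_qr hf hg hΩ hb (fun x hx => hE x (hclsub (subset_closure hx))) hK
      (fun x hx => by have := (abs_le.1 (hfr x hx)).2; linarith)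
  have hlo : ∀ x ∈ closure Ω, -f x ≤ -c + 2 * δ := by
    have hd1n : ∀ h : P → ℝ, ∀ x, d1 (fun y => -h y) x = - d1 h x := by
      intro h x
      simp only [d1]
      rw [fderiv_fun_neg]; rfl
    have hd2n : ∀ h : P → ℝ, ∀ x, d2 (fun y => -h y) x = - d2 h x := by
      intro h x
      simp only [d2]
      rw [fderiv_fun_neg]; rfl
    refine max_qr (f := fun y => -f y) (g := fun y => -g y) (K := K) hf.neg hg.neg hΩ hb ?_ hK ?_
    · intro x hx
      have := hE x (hclsub (subset_closure hx))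
      simp only [hd1n, hd2n]
      simp only [gsq] at this
      linarith
    · intro x hx
      have := (abs_le.1 (hfr x hx)).1
      linarith
  intro x hx y hy
  have hsubΩ : closedBall z r ⊆ closure Ω := by
    rw [hcl]
    intro p hp
    obtain ⟨h1, h2⟩ := mem_cball.1 hp
    rw [abs_le] at h1 h2
    exact ⟨⟨by linarith [hxL.2], by linarith [hxR.1]⟩, by linarith [hyB.2], by linarith [hyT.1]⟩
  have hx' := hsubΩ hx
  have hy' := hsubΩ hy
  have u1 := hup x hx'
  have u2 := hup y hy'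
  have l1 := hlo x hx'
  have l2 := hlo y hy'
  have : |f x - f y| ≤ 4 * δ := abs_le.2 ⟨by linarith, by linarith⟩
  have h4 : (f x - f y) ^ 2 ≤ (4 * δ) ^ 2 := sq_le_sq' (by linarith [(abs_le.1 this).1])
    (abs_le.1 this).2
  calc (f x - f y) ^ 2 ≤ (4 * δ) ^ 2 := h4
    _ = 64 * A := by rw [mul_pow, hδ2]; ring

end courant_lebesgue


section holefill

theorem exists_cutoff : ∃ B : ℝ, 0 < B ∧ ∀ (z : P) (r : ℝ), 0 < r → ∃ η : P → ℝ,
    ContDiff ℝ 1 η ∧ (∀ x, 0 ≤ η x) ∧ (∀ x, η x ≤ 1) ∧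
    (∀ x ∈ closedBall z r, η x = 1) ∧ (∀ x ∉ closedBall z (2 * r), η x = 0) ∧
    (∀ x, |d1 η x| ≤ B / r ∧ |d2 η x| ≤ B / r) ∧
    (∀ x ∉ closedBall z (2 * r) \ ball z r, d1 η x = 0 ∧ d2 η x = 0) := by
  let φ : ContDiffBump (0 : P) := ⟨1, 2, one_pos, one_lt_two⟩
  have hφ : ContDiff ℝ 1 φ := φ.contDiff
  have hφc : HasCompactSupport φ := φ.hasCompactSupport
  have hfd : Continuous (fderiv ℝ φ) := hφ.continuous_fderiv (by norm_num)
  obtain ⟨C, hC⟩ := (hφc.fderiv ℝ).exists_bound_of_continuous hfd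
  have hCn : 0 ≤ C := (norm_nonneg _).trans (hC 0)
  refine ⟨C + 1, by linarith, fun z r hr => ?_⟩
  have hsc : ContDiff ℝ 1 (fun x : P => r⁻¹ • (x - z)) :=
    (contDiff_id.sub contDiff_const).const_smul r⁻¹
  set η : P → ℝ := fun x => φ (r⁻¹ • (x - z)) with hη
  have hη1 : ContDiff ℝ 1 η := hφ.comp hsc
  have hnorm : ∀ x : P, ‖r⁻¹ • (x - z)‖ = r⁻¹ * dist x z := by
    intro x
    rw [norm_smul, Real.norm_eq_abs, abs_of_pos (inv_pos.2 hr), dist_eq_norm]
  have hder : ∀ x e, fderiv ℝ η x e = r⁻¹ * fderiv ℝ φ (r⁻¹ • (x - z)) e := by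
    intro x e
    have h1 : HasFDerivAt (fun x : P => r⁻¹ • (x - z)) (r⁻¹ • ContinuousLinearMap.id ℝ P) x :=
      ((hasFDerivAt_id x).sub_const z).const_smul r⁻¹
    have h2 := ((hφ.differentiable (by norm_num)) (r⁻¹ • (x - z))).hasFDerivAt.comp x h1
    have h3 : fderiv ℝ η x = _ := h2.fderiv
    rw [h3]
    simp
  have hone : ∀ x ∈ closedBall z r, η x = 1 := by
    intro x hx
    apply φ.one_of_mem_closedBall
    rw [mem_closedBall_zero_iff, hnorm]
    have : dist x z ≤ r := hx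
    show r⁻¹ * dist x z ≤ 1
    rw [inv_mul_le_iff₀ hr]; linarith
  have hzero : ∀ x ∉ closedBall z (2 * r), η x = 0 := by
    intro x hx
    have hx' : 2 * r < dist x z := by
      by_contra h; exact hx (not_lt.1 h)
    apply φ.zero_of_le_dist
    rw [dist_zero_right, hnorm]
    show 2 ≤ r⁻¹ * dist x z
    rw [le_inv_mul_iff₀ hr]; linarith
  have hbd : ∀ x e, ‖e‖ ≤ 1 → |fderiv ℝ η x e| ≤ (C + 1) / r := by
    intro x e he
    rw [hder, abs_mul, abs_of_pos (inv_pos.2 hr), div_eq_inv_mul]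
    apply mul_le_mul_of_nonneg_left _ (inv_pos.2 hr).le
    have h1 := ContinuousLinearMap.le_opNorm (fderiv ℝ φ (r⁻¹ • (x - z))) e
    rw [Real.norm_eq_abs] at h1
    have h2 := hC (r⁻¹ • (x - z))
    have h3 : ‖fderiv ℝ φ (r⁻¹ • (x - z))‖ * ‖e‖ ≤ C * 1 :=
      mul_le_mul h2 he (norm_nonneg _) hCn
    linarith
  have hann : ∀ x ∉ closedBall z (2 * r) \ ball z r, fderiv ℝ η x = 0 := by
    intro x hx
    by_cases hb : x ∈ ball z r
    · have : η =ᶠ[𝓝 x] fun _ => 1 := by
        filter_upwards [isOpen_ball.mem_nhds hb] with y hy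
        exact hone y (ball_subset_closedBall hy)
      rw [this.fderiv_eq]; simp
    · have hc : x ∉ closedBall z (2 * r) := fun h => hx ⟨h, hb⟩
      have : η =ᶠ[𝓝 x] fun _ => 0 := by
        filter_upwards [isClosed_closedBall.isOpen_compl.mem_nhds hc] with y hy
        exact hzero y hy
      rw [this.fderiv_eq]; simp
  refine ⟨η, hη1, fun x => φ.nonneg, fun x => φ.le_one, hone, hzero, ?_, ?_⟩
  · intro x
    exact ⟨hbd x (1, 0) (by simp [Prod.norm_def]), hbd x (0, 1) (by simp [Prod.norm_def])⟩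
  · intro x hx
    rw [d1, d2, hann x hx]; simp

theorem vol_cball (z : P) {r : ℝ} (hr : 0 ≤ r) : volume.real (closedBall z r) = 4 * r ^ 2 := by
  obtain ⟨a, b⟩ := z
  have h : closedBall ((a, b) : P) r = closedBall a r ×ˢ closedBall b r := by
    rw [closedBall_prod_same]
  rw [h, Measure.real, Measure.volume_eq_prod, Measure.prod_prod, Real.volume_closedBall,
    Real.volume_closedBall, ENNReal.toReal_mul, ENNReal.toReal_ofReal (by positivity)]
  ring

/-- the jacobian -/
noncomputable def jc (f g : P → ℝ) (x : P) : ℝ := d1 f x * d2 g x - d2 f x * d1 g x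

theorem cont_jc {f g : P → ℝ} (hf : ContDiff ℝ 1 f) (hg : ContDiff ℝ 1 g) :
    Continuous (jc f g) :=
  ((cont_d1 hf).mul (cont_d2 hg)).sub ((cont_d2 hf).mul (cont_d1 hg))

/-- the energy density -/
noncomputable def en (f g : P → ℝ) (x : P) : ℝ := gsq f x + gsq g x

theorem en_nonneg (f g : P → ℝ) (x : P) : 0 ≤ en f g x :=
  add_nonneg (gsq_nonneg _ _) (gsq_nonneg _ _)

theorem cont_en {f g : P → ℝ} (hf : ContDiff ℝ 1 f) (hg : ContDiff ℝ 1 g) :
    Continuous (en f g) := (cont_gsq hf).add (cont_gsq hg)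

theorem caccio_id {f g η : P → ℝ} (hf : ContDiff ℝ 1 f) (hg : ContDiff ℝ 1 g)
    (hη : ContDiff ℝ 1 η) (hc : HasCompactSupport η) (c : ℝ) :
    ∫ x, (η x) ^ 2 * jc f g x =
      ∫ x, -(2 * η x * (f x - c) * (d1 η x * d2 g x - d2 η x * d1 g x)) := by
  set ψ : P → ℝ := fun x => (η x) ^ 2 * (f x - c) with hψ
  have hψ1 : ContDiff ℝ 1 ψ := (hη.pow 2).mul (hf.sub contDiff_const)
  have hηc2 : HasCompactSupport fun x => (η x) ^ 2 := by
    have : (fun x => (η x) ^ 2) = fun x => η x * η x := by ext x; ring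
    rw [this]; exact hc.mul_right
  have hψc : HasCompactSupport ψ := hηc2.mul_right
  have hd : ∀ x e, fderiv ℝ ψ x e = 2 * η x * fderiv ℝ η x e * (f x - c) +
      (η x) ^ 2 * fderiv ℝ f x e := by
    intro x e
    have h1 : HasFDerivAt η (fderiv ℝ η x) x := (hη.differentiable (by norm_num) x).hasFDerivAt
    have h2 : HasFDerivAt (fun x => f x - c) (fderiv ℝ f x) x :=
      (hf.differentiable (by norm_num) x).hasFDerivAt.sub_const c
    have h3 := (h1.pow 2).mul h2
    have h4 : fderiv ℝ ψ x = _ := h3.fderiv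
    rw [h4]
    simp
    ring
  have hd1 : ∀ x, d1 ψ x = 2 * η x * d1 η x * (f x - c) + (η x) ^ 2 * d1 f x := fun x => hd x _
  have hd2 : ∀ x, d2 ψ x = 2 * η x * d2 η x * (f x - c) + (η x) ^ 2 * d2 f x := fun x => hd x _
  have h0 := curl_free hψ1 hψc hg
  have i1 : Integrable fun x => (η x) ^ 2 * jc f g x :=
    ((hη.continuous.pow 2).mul (cont_jc hf hg)).integrable_of_hasCompactSupport hηc2.mul_right
  have i2 : Integrable fun x => 2 * η x * (f x - c) * (d1 η x * d2 g x - d2 η x * d1 g x) := by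
    refine Continuous.integrable_of_hasCompactSupport ?_ ?_
    · exact ((continuous_const.mul hη.continuous).mul (hf.continuous.sub continuous_const)).mul
        (((cont_d1 hη).mul (cont_d2 hg)).sub ((cont_d2 hη).mul (cont_d1 hg)))
    · refine HasCompactSupport.mul_right ?_
      refine HasCompactSupport.mul_right ?_
      exact hc.mul_left
  rw [integral_neg]
  have e : ∫ x, (d1 ψ x * d2 g x - d2 ψ x * d1 g x) =
      ∫ x, ((η x) ^ 2 * jc f g x +
        2 * η x * (f x - c) * (d1 η x * d2 g x - d2 η x * d1 g x)) := by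
    refine integral_congr_ae (Eventually.of_forall fun x => ?_)
    simp only
    rw [hd1, hd2, jc]
    ring
  rw [e, integral_add i1 i2] at h0
  linarith

/-- hole filling -/
theorem hole_filling : ∃ B : ℝ, 1 ≤ B ∧ ∀ (f g : P → ℝ), ContDiff ℝ 1 f → ContDiff ℝ 1 g →
    ∀ (z : P) (r K : ℝ), 0 < r → 0 < K →
    (∀ x ∈ closedBall z (4 * r), en f g x ≤ K * jc f g x) →
    ∫ x in ball z r, en f g x ≤ K * B * ∫ x in ball z (5 * r) \ ball z r, en f g x := by
  obtain ⟨B, hB, hcut⟩ := exists_cutoff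
  refine ⟨2048 * B ^ 2 + 1, by nlinarith [sq_nonneg B], ?_⟩
  intro f g hf hg z r K hr hK hE
  obtain ⟨η, hη1, hη0, hηle, hηone, hηz, hηB, hηann⟩ := hcut z r hr
  have hηc : HasCompactSupport η :=
    HasCompactSupport.intro (isCompact_closedBall z (2 * r)) hηz
  set Z : Set P := closedBall z (2 * r) \ ball z r with hZ
  have hZm : MeasurableSet Z := measurableSet_closedBall.diff measurableSet_ball
  have cen := cont_en hf hg
  -- oscillation
  set T : ℝ := ∫ x in ball z (5 * r) \ ball z r, en f g x with hT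
  have hintT : IntegrableOn (en f g) (ball z (5 * r) \ ball z r) :=
    (cen.continuousOn.integrableOn_compact (isCompact_closedBall z (5 * r))).mono_set
      (sdiff_subset.trans ball_subset_closedBall)
  have hosc : ∀ x ∈ closedBall z (2 * r), (f x - f z) ^ 2 ≤ 64 * T := by
    intro x hx
    have h1 := osc_le hf hg (z := z) (r := 2 * r) (K := K) (by linarith) hK
      (fun y hy => by
        have e1 : (2:ℝ) * (2 * r) = 4 * r := by ring
        rw [e1] at hy
        have := hE y hy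
        have h2 : gsq f y ≤ en f g y := by simp only [en]; linarith [gsq_nonneg g y]
        simp only [jc] at this
        linarith) x hx z (mem_closedBall_self (by linarith))
    refine h1.trans ?_
    have e2 : (2:ℝ) * (2 * r) = 4 * r := by ring
    rw [e2]
    have hsub : closedBall z (4 * r) \ ball z (2 * r) ⊆ ball z (5 * r) \ ball z r := by
      intro y hy
      refine ⟨?_, ?_⟩
      · have : dist y z ≤ 4 * r := hy.1
        exact mem_ball.2 (by linarith)
      · intro hb
        have : dist y z < r := hb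
        exact hy.2 (mem_ball.2 (by linarith))
    have h3 : ∫ p in closedBall z (4 * r) \ ball z (2 * r), gsq f p ≤ T := by
      calc ∫ p in closedBall z (4 * r) \ ball z (2 * r), gsq f p
          ≤ ∫ p in closedBall z (4 * r) \ ball z (2 * r), en f g p := by
            refine setIntegral_mono ?_ (hintT.mono_set hsub) (fun p => ?_)
            · exact ((cont_gsq hf).continuousOn.integrableOn_compact
                (isCompact_closedBall z (4 * r))).mono_set sdiff_subset
            · simp only [en]; linarith [gsq_nonneg g p]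
        _ ≤ T := setIntegral_mono_set hintT (Eventually.of_forall fun p => en_nonneg f g p)
            (LE.le.eventuallyLE hsub)
    linarith
  have hT0 : 0 ≤ T := integral_nonneg fun x => en_nonneg f g x
  -- chain
  have i0 : Integrable fun x => (η x) ^ 2 * en f g x := by
    refine ((hη1.continuous.pow 2).mul cen).integrable_of_hasCompactSupport ?_
    refine HasCompactSupport.intro (isCompact_closedBall z (2 * r)) fun x hx => ?_
    simp [hηz x hx]
  have i1 : Integrable fun x => (η x) ^ 2 * jc f g x := by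
    refine ((hη1.continuous.pow 2).mul (cont_jc hf hg)).integrable_of_hasCompactSupport ?_
    refine HasCompactSupport.intro (isCompact_closedBall z (2 * r)) fun x hx => ?_
    simp [hηz x hx]
  have s1 : ∫ x in ball z r, en f g x ≤ ∫ x, (η x) ^ 2 * en f g x := by
    rw [← integral_indicator measurableSet_ball]
    refine integral_mono ?_ i0 (fun x => ?_)
    · exact (integrable_indicator_iff measurableSet_ball).2
        ((cen.continuousOn.integrableOn_compact (isCompact_closedBall z r)).mono_set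
          ball_subset_closedBall)
    · by_cases hx : x ∈ ball z r
      · rw [indicator_of_mem hx]
        simp only
        rw [hηone x (ball_subset_closedBall hx)]; linarith
      · rw [indicator_of_notMem hx]
        exact mul_nonneg (sq_nonneg _) (en_nonneg f g x)
  have s2 : ∫ x, (η x) ^ 2 * en f g x ≤ ∫ x, K * ((η x) ^ 2 * jc f g x) := by
    refine integral_mono i0 (i1.const_mul K) (fun x => ?_)
    simp only
    by_cases hx : x ∈ closedBall z (2 * r)
    · have := hE x (closedBall_subset_closedBall (by linarith) hx)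
      have h4 := mul_le_mul_of_nonneg_left this (sq_nonneg (η x))
      linarith
    · rw [hηz x hx]; simp
  rw [integral_const_mul, caccio_id hf hg hη1 hηc (f z)] at s2
  have hZint : IntegrableOn (fun x => 2 * (64 * T) * (B / r) ^ 2 + en f g x) Z := by
    refine ((continuous_const.add cen).continuousOn.integrableOn_compact
      (isCompact_closedBall z (2 * r))).mono_set sdiff_subset
  have s3 : ∫ x, -(2 * η x * (f x - f z) * (d1 η x * d2 g x - d2 η x * d1 g x)) ≤
      ∫ x in Z, (2 * (64 * T) * (B / r) ^ 2 + en f g x) := by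
    rw [← integral_indicator hZm]
    refine integral_mono ?_ ((integrable_indicator_iff hZm).2 hZint) (fun x => ?_)
    · refine Continuous.integrable_of_hasCompactSupport ?_ ?_
      · exact (((continuous_const.mul hη1.continuous).mul (hf.continuous.sub continuous_const)).mul
          (((cont_d1 hη1).mul (cont_d2 hg)).sub ((cont_d2 hη1).mul (cont_d1 hg)))).neg
      · refine HasCompactSupport.intro (isCompact_closedBall z (2 * r)) fun x hx => ?_
        simp [hηz x hx]
    · simp only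
      by_cases hx : x ∈ Z
      · rw [indicator_of_mem hx]
        obtain ⟨b1, b2⟩ := hηB x
        have ho := hosc x hx.1
        have hBr : 0 ≤ B / r := by positivity
        set a : ℝ := |f x - f z| with ha
        have ha2 : a ^ 2 ≤ 64 * T := by rw [ha, sq_abs]; exact ho
        have ha0 : 0 ≤ a := abs_nonneg _
        have h5 : -(2 * η x * (f x - f z) * (d1 η x * d2 g x - d2 η x * d1 g x)) ≤
            2 * (a * (B / r)) * (|d1 g x| + |d2 g x|) := by
          refine (neg_le_abs _).trans ?_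
          have e3 : |2 * η x * (f x - f z) * (d1 η x * d2 g x - d2 η x * d1 g x)| =
              2 * (η x * a) * |d1 η x * d2 g x - d2 η x * d1 g x| := by
            rw [abs_mul, abs_mul, abs_mul, abs_of_nonneg (hη0 x), ← ha,
              abs_of_pos (two_pos : (0:ℝ) < 2)]
            ring
          rw [e3]
          have e4 : |d1 η x * d2 g x - d2 η x * d1 g x| ≤ (B / r) * (|d1 g x| + |d2 g x|) := by
            refine (abs_sub _ _).trans ?_
            rw [abs_mul, abs_mul]
            nlinarith [mul_le_mul_of_nonneg_right b1 (abs_nonneg (d2 g x)),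
              mul_le_mul_of_nonneg_right b2 (abs_nonneg (d1 g x))]
          have e5 : η x * a ≤ a := by nlinarith [hηle x, hη0 x]
          calc 2 * (η x * a) * |d1 η x * d2 g x - d2 η x * d1 g x|
              ≤ 2 * a * ((B / r) * (|d1 g x| + |d2 g x|)) := by
                apply mul_le_mul (by linarith) e4 (abs_nonneg _) (by positivity)
            _ = _ := by ring
        have h6 : 2 * (a * (B / r)) * (|d1 g x| + |d2 g x|) ≤
            2 * (a * (B / r)) ^ 2 + (|d1 g x| + |d2 g x|) ^ 2 / 2 := by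
          nlinarith [sq_nonneg (2 * (a * (B / r)) - (|d1 g x| + |d2 g x|))]
        have h7 : (|d1 g x| + |d2 g x|) ^ 2 / 2 ≤ en f g x := by
          have e6 : (|d1 g x| + |d2 g x|) ^ 2 / 2 ≤ gsq g x := by
            simp only [gsq]
            nlinarith [sq_nonneg (|d1 g x| - |d2 g x|), sq_abs (d1 g x), sq_abs (d2 g x)]
          simp only [en]; linarith [gsq_nonneg f x]
        have h8 : 2 * (a * (B / r)) ^ 2 ≤ 2 * (64 * T) * (B / r) ^ 2 := by
          rw [mul_pow]
          nlinarith [sq_nonneg (B / r)]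
        linarith
      · rw [indicator_of_notMem hx, (hηann x hx).1, (hηann x hx).2]
        simp
  have s4 : ∫ x in Z, (2 * (64 * T) * (B / r) ^ 2 + en f g x) ≤ (2048 * B ^ 2 + 1) * T := by
    have hZsub : Z ⊆ ball z (5 * r) \ ball z r := by
      intro y hy
      refine ⟨?_, hy.2⟩
      have : dist y z ≤ 2 * r := hy.1
      exact mem_ball.2 (by linarith)
    have i3 : IntegrableOn (en f g) Z := hintT.mono_set hZsub
    have hvfin : volume Z ≠ ⊤ :=
      ((measure_mono sdiff_subset).trans_lt (measure_closedBall_lt_top (x := z) (r := 2 * r))).ne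
    have i4 : IntegrableOn (fun _ : P => 2 * (64 * T) * (B / r) ^ 2) Z :=
      integrableOn_const (hs := hvfin)
    rw [integral_add i4 i3]
    have h9 : ∫ x in Z, en f g x ≤ T :=
      setIntegral_mono_set hintT (Eventually.of_forall fun p => en_nonneg f g p)
        (LE.le.eventuallyLE hZsub)
    have h10 : ∫ _ in Z, 2 * (64 * T) * (B / r) ^ 2 ≤ 2048 * B ^ 2 * T := by
      rw [setIntegral_const, smul_eq_mul]
      have hv : volume.real Z ≤ 4 * (2 * r) ^ 2 := by
        rw [← vol_cball z (by linarith : 0 ≤ 2 * r)]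
        exact measureReal_mono sdiff_subset (measure_closedBall_lt_top).ne
      have hpos : 0 ≤ 2 * (64 * T) * (B / r) ^ 2 := by positivity
      calc volume.real Z * (2 * (64 * T) * (B / r) ^ 2)
          ≤ (4 * (2 * r) ^ 2) * (2 * (64 * T) * (B / r) ^ 2) :=
            mul_le_mul_of_nonneg_right hv hpos
        _ = 2048 * B ^ 2 * T := by field_simp; ring
    linarith
  calc ∫ x in ball z r, en f g x ≤ K *
      ∫ x, -(2 * η x * (f x - f z) * (d1 η x * d2 g x - d2 η x * d1 g x)) := s1.trans s2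
    _ ≤ K * ((2048 * B ^ 2 + 1) * T) := mul_le_mul_of_nonneg_left (s3.trans s4) hK.le
    _ = _ := by ring

/-- energy bound -/
theorem energy_bound : ∃ B : ℝ, 1 ≤ B ∧ ∀ (f g : P → ℝ), ContDiff ℝ 1 f → ContDiff ℝ 1 g →
    ∀ (z : P) (K M : ℝ), 0 < K → 0 ≤ M → (∀ x ∈ closedBall z 2, |f x| ≤ M) →
    (∀ x ∈ closedBall z 2, en f g x ≤ K * jc f g x) →
    ∫ x in ball z 1, en f g x ≤ B * K ^ 2 * M ^ 2 := by
  obtain ⟨B, hB, hcut⟩ := exists_cutoff
  refine ⟨128 * B ^ 2 + 1, by nlinarith [sq_nonneg B], ?_⟩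
  intro f g hf hg z K M hK hM0 hM hE
  obtain ⟨η, hη1, hη0, hηle, hηone, hηz, hηB, hηann⟩ := hcut z 1 one_pos
  have e21 : (2:ℝ) * 1 = 2 := by norm_num
  rw [e21] at hηz hηann
  have hηc : HasCompactSupport η :=
    HasCompactSupport.intro (isCompact_closedBall z 2) hηz
  have cen := cont_en hf hg
  have i0 : Integrable fun x => (η x) ^ 2 * en f g x := by
    refine ((hη1.continuous.pow 2).mul cen).integrable_of_hasCompactSupport ?_
    refine HasCompactSupport.intro (isCompact_closedBall z 2) fun x hx => ?_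
    simp [hηz x hx]
  have i1 : Integrable fun x => (η x) ^ 2 * jc f g x := by
    refine ((hη1.continuous.pow 2).mul (cont_jc hf hg)).integrable_of_hasCompactSupport ?_
    refine HasCompactSupport.intro (isCompact_closedBall z 2) fun x hx => ?_
    simp [hηz x hx]
  have s1 : ∫ x in ball z 1, en f g x ≤ ∫ x, (η x) ^ 2 * en f g x := by
    rw [← integral_indicator measurableSet_ball]
    refine integral_mono ?_ i0 (fun x => ?_)
    · exact (integrable_indicator_iff measurableSet_ball).2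
        ((cen.continuousOn.integrableOn_compact (isCompact_closedBall z 1)).mono_set
          ball_subset_closedBall)
    · by_cases hx : x ∈ ball z 1
      · rw [indicator_of_mem hx]
        simp only
        rw [hηone x (ball_subset_closedBall hx)]; linarith
      · rw [indicator_of_notMem hx]
        exact mul_nonneg (sq_nonneg _) (en_nonneg f g x)
  have s2 : ∫ x, (η x) ^ 2 * en f g x ≤ ∫ x, K * ((η x) ^ 2 * jc f g x) := by
    refine integral_mono i0 (i1.const_mul K) (fun x => ?_)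
    simp only
    by_cases hx : x ∈ closedBall z 2
    · have := hE x hx
      have h4 := mul_le_mul_of_nonneg_left this (sq_nonneg (η x))
      linarith
    · rw [hηz x hx]; simp
  rw [integral_const_mul, caccio_id hf hg hη1 hηc 0, ← integral_const_mul] at s2
  have hmc : MeasurableSet (closedBall z (2:ℝ)) := measurableSet_closedBall
  have iC : Integrable ((closedBall z (2:ℝ)).indicator fun _ => 4 * K ^ 2 * M ^ 2 * B ^ 2) :=
    (integrable_indicator_iff hmc).2
      (integrableOn_const (hs := (measure_closedBall_lt_top (x := z) (r := (2:ℝ))).ne))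
  have s3 : ∫ x, K * -(2 * η x * (f x - 0) * (d1 η x * d2 g x - d2 η x * d1 g x)) ≤
      ∫ x, ((1 / 2) * ((η x) ^ 2 * en f g x) +
        (closedBall z (2:ℝ)).indicator (fun _ => 4 * K ^ 2 * M ^ 2 * B ^ 2) x) := by
    refine integral_mono ?_ ((i0.const_mul _).add iC) (fun x => ?_)
    · refine Continuous.integrable_of_hasCompactSupport ?_ ?_
      · exact continuous_const.mul
          (((continuous_const.mul hη1.continuous).mul (hf.continuous.sub continuous_const)).mul
          (((cont_d1 hη1).mul (cont_d2 hg)).sub ((cont_d2 hη1).mul (cont_d1 hg)))).neg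
      · refine HasCompactSupport.intro (isCompact_closedBall z 2) fun x hx => ?_
        simp [hηz x hx]
    · by_cases hx : x ∈ closedBall z (2:ℝ)
      · rw [indicator_of_mem hx]
        obtain ⟨b1, b2⟩ := hηB x
        rw [div_one] at b1 b2
        have hfM := hM x hx
        have q1 : (d1 η x) ^ 2 ≤ B ^ 2 := sq_le_sq' (abs_le.1 b1).1 (abs_le.1 b1).2
        have q2 : (d2 η x) ^ 2 ≤ B ^ 2 := sq_le_sq' (abs_le.1 b2).1 (abs_le.1 b2).2
        have q3 : (f x) ^ 2 ≤ M ^ 2 := sq_le_sq' (abs_le.1 hfM).1 (abs_le.1 hfM).2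
        have h1 : K * -(2 * η x * (f x - 0) * (d1 η x * d2 g x - d2 η x * d1 g x)) ≤
            (1 / 2) * ((η x) ^ 2 * (d2 g x) ^ 2) + 2 * K ^ 2 * ((f x) ^ 2 * (d1 η x) ^ 2) +
            ((1 / 2) * ((η x) ^ 2 * (d1 g x) ^ 2) + 2 * K ^ 2 * ((f x) ^ 2 * (d2 η x) ^ 2)) := by
          nlinarith [sq_nonneg (η x * d2 g x + 2 * K * (f x * d1 η x)),
            sq_nonneg (η x * d1 g x - 2 * K * (f x * d2 η x))]
        have h2 : (f x) ^ 2 * (d1 η x) ^ 2 ≤ M ^ 2 * B ^ 2 :=
          mul_le_mul q3 q1 (sq_nonneg _) (sq_nonneg _)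
        have h3 : (f x) ^ 2 * (d2 η x) ^ 2 ≤ M ^ 2 * B ^ 2 :=
          mul_le_mul q3 q2 (sq_nonneg _) (sq_nonneg _)
        have h4 : (η x) ^ 2 * (d2 g x) ^ 2 + (η x) ^ 2 * (d1 g x) ^ 2 ≤ (η x) ^ 2 * en f g x := by
          rw [← mul_add]
          apply mul_le_mul_of_nonneg_left _ (sq_nonneg _)
          simp only [en]
          have := gsq_nonneg f x
          simp only [gsq] at this ⊢
          linarith
        have hK2 : 0 ≤ 2 * K ^ 2 := by positivity
        have h5 := mul_le_mul_of_nonneg_left h2 hK2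
        have h6 := mul_le_mul_of_nonneg_left h3 hK2
        linarith
      · rw [indicator_of_notMem hx, hηz x hx]
        simp
  have e9 : ∫ x, (1 / 2 : ℝ) * ((η x) ^ 2 * en f g x) = (1 / 2) * ∫ x, (η x) ^ 2 * en f g x :=
    integral_const_mul _ _
  rw [integral_add (i0.const_mul _) iC, e9] at s3
  have hconst : ∫ x, (closedBall z (2:ℝ)).indicator (fun _ => 4 * K ^ 2 * M ^ 2 * B ^ 2) x =
      64 * K ^ 2 * M ^ 2 * B ^ 2 := by
    rw [integral_indicator hmc, setIntegral_const, vol_cball z (by norm_num), smul_eq_mul]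
    ring
  rw [hconst] at s3
  have hfin : ∫ x, (η x) ^ 2 * en f g x ≤ 128 * K ^ 2 * M ^ 2 * B ^ 2 := by linarith
  have hlast : 128 * K ^ 2 * M ^ 2 * B ^ 2 ≤ (128 * B ^ 2 + 1) * K ^ 2 * M ^ 2 := by
    have : 0 ≤ K ^ 2 * M ^ 2 := by positivity
    have e : (128 * B ^ 2 + 1) * K ^ 2 * M ^ 2 = 128 * K ^ 2 * M ^ 2 * B ^ 2 + K ^ 2 * M ^ 2 := by
      ring
    linarith
  linarith

end holefill

section morrey

theorem d1_neg (h : P → ℝ) (x : P) : d1 (fun y => -h y) x = - d1 h x := by
  simp only [d1]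
  rw [fderiv_fun_neg]; rfl

theorem d2_neg (h : P → ℝ) (x : P) : d2 (fun y => -h y) x = - d2 h x := by
  simp only [d2]
  rw [fderiv_fun_neg]; rfl

/-- Morrey: quasiregular `C¹` maps are Hölder continuous with uniform constants. -/
theorem morrey (K : ℝ) (hK : 1 ≤ K) : ∃ α : ℝ, 0 < α ∧ α < 1 ∧ ∃ C : ℝ, 0 ≤ C ∧
    ∀ (f g : P → ℝ), ContDiff ℝ 1 f → ContDiff ℝ 1 g → ∀ (x : P) (M : ℝ), 0 ≤ M →
      (∀ y ∈ closedBall x 2, |f y| ≤ M) → (∀ y ∈ closedBall x 2, en f g y ≤ K * jc f g y) →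
      ∀ y, ‖x - y‖ ≤ 1 → |f x - f y| ≤ C * M * ‖x - y‖ ^ α := by
  obtain ⟨B1, hB1, hhole⟩ := hole_filling
  obtain ⟨B2, hB2, hener⟩ := energy_bound
  have hK0 : 0 < K := by linarith
  set D : ℝ := K * B1 with hD
  have hD1 : 1 ≤ D := by rw [hD]; nlinarith
  set θ : ℝ := D / (1 + D) with hθ
  have hθ0 : 0 < θ := by positivity
  have hθ1 : θ < 1 := by rw [hθ, div_lt_one (by linarith)]; linarith
  have hθh : 1 / 2 ≤ θ := by rw [hθ, div_le_div_iff₀ (by norm_num) (by linarith)]; linarith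
  have hlog5 : 0 < Real.log 5 := Real.log_pos (by norm_num)
  set α : ℝ := -Real.log θ / (2 * Real.log 5) with hα
  have hlogθ : Real.log θ < 0 := Real.log_neg hθ0 hθ1
  have hα0 : 0 < α := by
    rw [hα]; exact div_pos (by linarith) (by linarith)
  have hα1 : α < 1 := by
    rw [hα, div_lt_one (by linarith)]
    have h1 : Real.log (1 / 2) ≤ Real.log θ := Real.log_le_log (by norm_num) hθh
    have h2 : Real.log (1 / 2) = - Real.log 2 := by rw [one_div, Real.log_inv]
    have h3 : Real.log 2 < Real.log 5 := Real.log_lt_log (by norm_num) (by norm_num)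
    rw [h2] at h1
    linarith
  have h5θ : (5:ℝ) ^ (-(2 * α)) = θ := by
    rw [Real.rpow_def_of_pos (by norm_num), hα]
    have : Real.log 5 * -(2 * (-Real.log θ / (2 * Real.log 5))) = Real.log θ := by
      field_simp
    rw [this, Real.exp_log hθ0]
  refine ⟨α, hα0, hα1, 120 * (B2 * K) + 6, by positivity, ?_⟩
  intro f g hf hg x M hM0 hM hE y hy
  have cen := cont_en hf hg
  -- decay of the energy
  have hdec : ∀ k : ℕ, ∫ p in ball x ((5:ℝ)⁻¹ ^ k), en f g p ≤ θ ^ k * (B2 * K ^ 2 * M ^ 2) := by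
    intro k
    induction k with
    | zero =>
      simp only [pow_zero, one_mul]
      exact hener f g hf hg x K M hK0 hM0 hM hE
    | succ k ih =>
      set r : ℝ := (5:ℝ)⁻¹ ^ (k + 1) with hr
      have hr0 : 0 < r := by positivity
      have h5r : 5 * r = (5:ℝ)⁻¹ ^ k := by rw [hr, pow_succ]; field_simp
      have hle1 : (5:ℝ)⁻¹ ^ k ≤ 1 := pow_le_one₀ (by norm_num) (by norm_num)
      have h1 := hhole f g hf hg x r K hr0 hK0 (fun p hp =>
        hE p (closedBall_subset_closedBall (by linarith) hp))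
      have hint : IntegrableOn (en f g) (ball x (5 * r)) :=
        (cen.continuousOn.integrableOn_compact (isCompact_closedBall x (5 * r))).mono_set
          ball_subset_closedBall
      have h2 : ∫ p in ball x (5 * r) \ ball x r, en f g p =
          (∫ p in ball x (5 * r), en f g p) - ∫ p in ball x r, en f g p :=
        setIntegral_sdiff measurableSet_ball hint (ball_subset_ball (by linarith))
      rw [h2, ← hD] at h1
      set e1 := ∫ p in ball x r, en f g p
      set e5 := ∫ p in ball x (5 * r), en f g p with he5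
      have h3 : e1 ≤ θ * e5 := by
        rw [hθ, div_mul_eq_mul_div, le_div_iff₀ (by linarith)]
        linarith
      rw [h5r] at he5
      rw [← he5] at ih
      calc e1 ≤ θ * e5 := h3
        _ ≤ θ * (θ ^ k * (B2 * K ^ 2 * M ^ 2)) := mul_le_mul_of_nonneg_left ih hθ0.le
        _ = _ := by rw [pow_succ]; ring
  set ρ : ℝ := ‖x - y‖ with hρ
  rcases eq_or_lt_of_le (norm_nonneg (x - y)) with h0 | hpos
  · have hxy : x = y := by
      have : ‖x - y‖ = 0 := h0.symm
      exact sub_eq_zero.1 (norm_eq_zero.1 this)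
    rw [← hxy, sub_self, abs_zero]
    positivity
  have hρ0 : 0 < ρ := hpos
  have hBK : 1 ≤ B2 * K := by nlinarith
  by_cases hbig : 1 < 3 * ρ
  · -- large distance
    have h1 : |f x - f y| ≤ 2 * M := by
      have a1 := hM x (mem_closedBall_self (by norm_num))
      have a2 := hM y (by rw [Metric.mem_closedBall, dist_comm, dist_eq_norm]; linarith)
      have := abs_sub (f x) (f y)
      linarith
    have h2 : (1:ℝ) / 3 ≤ ρ ^ α := by
      have e1 : ((1:ℝ) / 3) ^ α ≤ ρ ^ α :=
        Real.rpow_le_rpow (by norm_num) (by linarith) hα0.le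
      have e2 : ((1:ℝ) / 3) ^ (1:ℝ) ≤ ((1:ℝ) / 3) ^ α :=
        Real.rpow_le_rpow_of_exponent_ge (by norm_num) (by norm_num) hα1.le
      rw [Real.rpow_one] at e2
      linarith
    have h3 : 2 * M ≤ 6 * M * ρ ^ α := by nlinarith
    have h4 : 0 ≤ 120 * (B2 * K) * M * ρ ^ α := by positivity
    calc |f x - f y| ≤ 6 * M * ρ ^ α := h1.trans h3
      _ ≤ (120 * (B2 * K) + 6) * M * ρ ^ α := by nlinarith
  · have hsmall : 3 * ρ ≤ 1 := not_lt.1 hbig
    -- choose k
    obtain ⟨k, hk1, hk2⟩ := exists_nat_pow_near_of_lt_one (x := 3 * ρ) (y := (5:ℝ)⁻¹)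
      (by linarith) hsmall (by norm_num) (by norm_num)
    have hosc := osc_le hf hg (z := x) (r := ρ) (K := K) hρ0 hK0 (fun p hp => by
        have := hE p (closedBall_subset_closedBall (by linarith) hp)
        have h2 : gsq f p ≤ en f g p := by simp only [en]; linarith [gsq_nonneg g p]
        simp only [jc] at this
        linarith) x (mem_closedBall_self hρ0.le) y
        (by rw [Metric.mem_closedBall, dist_comm, dist_eq_norm])
    have hintb : IntegrableOn (en f g) (ball x ((5:ℝ)⁻¹ ^ k)) :=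
      (cen.continuousOn.integrableOn_compact (isCompact_closedBall x ((5:ℝ)⁻¹ ^ k))).mono_set
        ball_subset_closedBall
    have hsub : closedBall x (2 * ρ) \ ball x ρ ⊆ ball x ((5:ℝ)⁻¹ ^ k) := by
      intro p hp
      have : dist p x ≤ 2 * ρ := hp.1
      exact mem_ball.2 (by linarith)
    have h1 : ∫ p in closedBall x (2 * ρ) \ ball x ρ, gsq f p ≤
        ∫ p in ball x ((5:ℝ)⁻¹ ^ k), en f g p := by
      calc ∫ p in closedBall x (2 * ρ) \ ball x ρ, gsq f p
          ≤ ∫ p in closedBall x (2 * ρ) \ ball x ρ, en f g p := by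
            refine setIntegral_mono ?_ (hintb.mono_set hsub) (fun p => ?_)
            · exact ((cont_gsq hf).continuousOn.integrableOn_compact
                (isCompact_closedBall x (2 * ρ))).mono_set sdiff_subset
            · simp only [en]; linarith [gsq_nonneg g p]
        _ ≤ _ := setIntegral_mono_set hintb (Eventually.of_forall fun p => en_nonneg f g p)
            (LE.le.eventuallyLE hsub)
    have h2 : (f x - f y) ^ 2 ≤ 64 * (θ ^ k * (B2 * K ^ 2 * M ^ 2)) := by
      linarith [hdec k]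
    -- θ^k ≤ (15 ρ)^{2α}
    have h3 : θ ^ k ≤ (15 * ρ) ^ (2 * α) := by
      have e1 : θ ^ k = ((5:ℝ)⁻¹ ^ k) ^ (2 * α) := by
        rw [← h5θ, ← Real.rpow_natCast, ← Real.rpow_mul (by norm_num), ← Real.rpow_natCast,
          Real.inv_rpow (by norm_num), ← Real.rpow_neg (by norm_num),
          ← Real.rpow_mul (by norm_num)]
        congr 1; ring
      rw [e1]
      apply Real.rpow_le_rpow (by positivity) _ (by linarith)
      have : (5:ℝ)⁻¹ ^ (k + 1) < 3 * ρ := hk1
      rw [pow_succ] at this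
      linarith
    have h4 : (15 * ρ) ^ (2 * α) = ((15 * ρ) ^ α) ^ 2 := by
      rw [← Real.rpow_natCast, ← Real.rpow_mul (by positivity)]
      congr 1; push_cast; ring
    have h5 : (15 * ρ) ^ α ≤ 15 * ρ ^ α := by
      rw [Real.mul_rpow (by norm_num) hρ0.le]
      apply mul_le_mul_of_nonneg_right _ (by positivity)
      calc (15:ℝ) ^ α ≤ 15 ^ (1:ℝ) := Real.rpow_le_rpow_of_exponent_le (by norm_num) hα1.le
        _ = 15 := Real.rpow_one _
    have h6 : (f x - f y) ^ 2 ≤ (120 * (B2 * K) * M * ρ ^ α) ^ 2 := by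
      have e1 : θ ^ k ≤ (15 * ρ ^ α) ^ 2 := by
        rw [h4] at h3
        exact h3.trans (pow_le_pow_left₀ (by positivity) h5 2)
      have e2 : B2 * K ^ 2 * M ^ 2 ≤ (B2 * K * M) ^ 2 := by
        have : B2 ≤ B2 ^ 2 := by nlinarith
        have h7 : 0 ≤ K ^ 2 * M ^ 2 := by positivity
        nlinarith
      calc (f x - f y) ^ 2 ≤ 64 * (θ ^ k * (B2 * K ^ 2 * M ^ 2)) := h2
        _ ≤ 64 * ((15 * ρ ^ α) ^ 2 * (B2 * K * M) ^ 2) := by
            apply mul_le_mul_of_nonneg_left _ (by norm_num)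
            exact mul_le_mul e1 e2 (by positivity) (by positivity)
        _ = (120 * (B2 * K) * M * ρ ^ α) ^ 2 := by ring
    have h7 : |f x - f y| ≤ 120 * (B2 * K) * M * ρ ^ α :=
      abs_le_of_sq_le_sq h6 (by positivity)
    have h8 : 0 ≤ 6 * M * ρ ^ α := by positivity
    calc |f x - f y| ≤ 120 * (B2 * K) * M * ρ ^ α := h7
      _ ≤ (120 * (B2 * K) + 6) * M * ρ ^ α := by nlinarith

end morrey

section final

theorem fderiv_quot {a : P → ℝ} (ha : ContDiff ℝ 1 a) (t : ℝ) (e y v : P) :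
    fderiv ℝ (fun y => t⁻¹ * (a (y + t • e) - a y)) y v =
      t⁻¹ * (fderiv ℝ a (y + t • e) v - fderiv ℝ a y v) := by
  have hd := ha.differentiable (by norm_num)
  have h1 : HasFDerivAt (fun y => a (y + t • e)) (fderiv ℝ a (y + t • e)) y := by
    have h0 : HasFDerivAt (fun y : P => y + t • e) (ContinuousLinearMap.id ℝ P) y :=
      (hasFDerivAt_id y).add_const _
    have := (hd (y + t • e)).hasFDerivAt.comp y h0
    rwa [ContinuousLinearMap.comp_id] at this
  have h2 := (h1.sub (hd y).hasFDerivAt).const_mul t⁻¹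
  have h3 : fderiv ℝ (fun y => t⁻¹ * (a (y + t • e) - a y)) y = _ := h2.fderiv
  rw [h3]
  simp

theorem tendsto_quot {a : P → ℝ} (ha : ContDiff ℝ 1 a) (x e : P) :
    Tendsto (fun t : ℝ => t⁻¹ * (a (x + t • e) - a x)) (𝓝[>] 0) (𝓝 (fderiv ℝ a x e)) := by
  have h1 := (hasDerivAt_line ha x e 0).tendsto_slope_zero_right
  simpa using h1

theorem contDiff_quot {a : P → ℝ} {n : WithTop ℕ∞} (ha : ContDiff ℝ n a) (t : ℝ) (e : P) :
    ContDiff ℝ n (fun y => t⁻¹ * (a (y + t • e) - a y)) :=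
  contDiff_const.mul ((ha.comp (contDiff_id.add contDiff_const)).sub ha)

theorem holder_D2 {u : P → ℝ} (hu : ContDiff ℝ 2 u) (hpos : ∀ x, 0 < d1 (d1 u) x)
    (h : ∀ x, d1 (d1 u) x * d2 (d2 u) x = 1) (R : ℝ) :
    ∃ α : ℝ, 0 < α ∧ α < 1 ∧ ∃ C : ℝ, 0 ≤ C ∧ ∀ x y : P, ‖x‖ ≤ R → ‖y‖ ≤ R →
      |d1 (d1 u) x - d1 (d1 u) y| ≤ C * ‖x - y‖ ^ α ∧
      |d1 (d2 u) x - d1 (d2 u) y| ≤ C * ‖x - y‖ ^ α ∧
      |d2 (d2 u) x - d2 (d2 u) y| ≤ C * ‖x - y‖ ^ α := by
  have hu1 : ContDiff ℝ 1 (d1 u) := contDiff_d1 hu (by norm_num)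
  have hu2 : ContDiff ℝ 1 (d2 u) := contDiff_d2 hu (by norm_num)
  have c11 : Continuous (d1 (d1 u)) := cont_d1 hu1
  have c12 : Continuous (d1 (d2 u)) := cont_d1 hu2
  have c22 : Continuous (d2 (d2 u)) := cont_d2 hu2
  have hsym : ∀ x, d2 (d1 u) x = d1 (d2 u) x := fun x => (d1_d2_comm hu x).symm
  set S : Set P := closedBall (0 : P) (|R| + 4) with hS
  have hSc : IsCompact S := isCompact_closedBall _ _
  obtain ⟨C1, hC1⟩ := hSc.exists_bound_of_continuousOn c11.continuousOn
  obtain ⟨C2, hC2⟩ := hSc.exists_bound_of_continuousOn c12.continuousOn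
  obtain ⟨C3, hC3⟩ := hSc.exists_bound_of_continuousOn c22.continuousOn
  set Λ : ℝ := max 1 (max C1 (max C2 C3)) with hΛ
  have hΛ1 : 1 ≤ Λ := le_max_left _ _
  have b11 : ∀ x ∈ S, |d1 (d1 u) x| ≤ Λ := fun x hx =>
    (hC1 x hx).trans ((le_max_left _ _).trans (le_max_right _ _))
  have b12 : ∀ x ∈ S, |d1 (d2 u) x| ≤ Λ := fun x hx =>
    (hC2 x hx).trans ((le_max_left _ _).trans ((le_max_right _ _).trans (le_max_right _ _)))
  have b22 : ∀ x ∈ S, |d2 (d2 u) x| ≤ Λ := fun x hx =>
    (hC3 x hx).trans ((le_max_right _ _).trans ((le_max_right _ _).trans (le_max_right _ _)))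
  obtain ⟨α, hα0, hα1, C0, hC0, hmor⟩ := morrey (2 * Λ ^ 2) (by nlinarith)
  refine ⟨α, hα0, hα1, C0 * (2 * Λ) + 2 * Λ, by positivity, ?_⟩
  -- the quasiregularity of difference quotients
  have hen : ∀ (e : P) (t : ℝ), ‖e‖ ≤ 1 → 0 < t → t ≤ 1 → ∀ y ∈ closedBall (0 : P) (|R| + 2),
      en (fun y => t⁻¹ * (d2 u (y + t • e) - d2 u y)) (fun y => t⁻¹ * (d1 u (y + t • e) - d1 u y)) y
        ≤ 2 * Λ ^ 2 * jc (fun y => t⁻¹ * (d2 u (y + t • e) - d2 u y))
          (fun y => t⁻¹ * (d1 u (y + t • e) - d1 u y)) y := by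
    intro e t he ht0 ht1 y hy
    have hy' : ‖y‖ ≤ |R| + 2 := mem_closedBall_zero_iff.1 hy
    have hyS : y ∈ S := mem_closedBall_zero_iff.2 (by linarith)
    have hte : ‖t • e‖ ≤ 1 := by
      rw [norm_smul, Real.norm_eq_abs, abs_of_pos ht0]; nlinarith [norm_nonneg e]
    have hyS' : y + t • e ∈ S := mem_closedBall_zero_iff.2 (by
      have := norm_add_le y (t • e); linarith)
    have e11 : d1 (fun y => t⁻¹ * (d1 u (y + t • e) - d1 u y)) y =
        t⁻¹ * (d1 (d1 u) (y + t • e) - d1 (d1 u) y) := fderiv_quot hu1 t e y _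
    have e12 : d2 (fun y => t⁻¹ * (d1 u (y + t • e) - d1 u y)) y =
        t⁻¹ * (d1 (d2 u) (y + t • e) - d1 (d2 u) y) := by
      rw [← hsym, ← hsym]; exact fderiv_quot hu1 t e y _
    have e21 : d1 (fun y => t⁻¹ * (d2 u (y + t • e) - d2 u y)) y =
        t⁻¹ * (d1 (d2 u) (y + t • e) - d1 (d2 u) y) := fderiv_quot hu2 t e y _
    have e22 : d2 (fun y => t⁻¹ * (d2 u (y + t • e) - d2 u y)) y =
        t⁻¹ * (d2 (d2 u) (y + t • e) - d2 (d2 u) y) := fderiv_quot hu2 t e y _
    simp only [en, gsq, jc]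
    rw [e11, e12, e21, e22]
    set p := d1 (d1 u) y
    set p' := d1 (d1 u) (y + t • e)
    set q := d2 (d2 u) y
    set q' := d2 (d2 u) (y + t • e)
    set b := t⁻¹ * (d1 (d2 u) (y + t • e) - d1 (d2 u) y)
    have hp0 : 0 < p := hpos y
    have hp0' : 0 < p' := hpos _
    have hpq : p * q = 1 := h y
    have hpq' : p' * q' = 1 := h _
    have hq0 : 0 < q := by
      by_contra hcon
      have : p * q ≤ 0 := mul_nonpos_of_nonneg_of_nonpos hp0.le (not_lt.1 hcon)
      linarith
    have hq0' : 0 < q' := by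
      by_contra hcon
      have : p' * q' ≤ 0 := mul_nonpos_of_nonneg_of_nonpos hp0'.le (not_lt.1 hcon)
      linarith
    have hpΛ : p ≤ Λ := (le_abs_self _).trans (b11 y hyS)
    have hpΛ' : p' ≤ Λ := (le_abs_self _).trans (b11 _ hyS')
    have hqΛ : q ≤ Λ := (le_abs_self _).trans (b22 y hyS)
    have hqΛ' : q' ≤ Λ := (le_abs_self _).trans (b22 _ hyS')
    set s := t⁻¹ * (p' - p) with hs
    have hqs : t⁻¹ * (q' - q) = - (s * (q * q')) := by
      have : q' - q = -(p' - p) * (q * q') := by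
        calc q' - q = (p * q) * q' - (p' * q') * q := by rw [hpq, hpq']; ring
          _ = _ := by ring
      rw [this, hs]; ring
    rw [hqs]
    -- with P = q q'
    set Q := q * q' with hQ
    have hQ0 : 0 < Q := mul_pos hq0 hq0'
    have hQΛ : Q ≤ Λ ^ 2 := by rw [hQ, sq]; exact mul_le_mul hqΛ hqΛ' hq0'.le (by linarith)
    have hQinv : 1 ≤ Λ ^ 2 * Q := by
      have h1 : p * p' ≤ Λ ^ 2 := by rw [sq]; exact mul_le_mul hpΛ hpΛ' hp0'.le (by linarith)
      have h2 : (p * p') * Q = 1 := by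
        rw [hQ]; calc (p * p') * (q * q') = (p * q) * (p' * q') := by ring
          _ = 1 := by rw [hpq, hpq']; ring
      calc 1 = (p * p') * Q := h2.symm
        _ ≤ Λ ^ 2 * Q := mul_le_mul_of_nonneg_right h1 hQ0.le
    have hs2 : 0 ≤ s ^ 2 := sq_nonneg _
    have hb2 : 0 ≤ b ^ 2 := sq_nonneg _
    have hΛ2 : 1 ≤ Λ ^ 2 := one_le_pow₀ hΛ1
    have k1 : s ^ 2 ≤ Λ ^ 2 * Q * s ^ 2 := by
      calc s ^ 2 = 1 * s ^ 2 := (one_mul _).symm
        _ ≤ Λ ^ 2 * Q * s ^ 2 := mul_le_mul_of_nonneg_right hQinv hs2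
    have k2 : s ^ 2 * Q ^ 2 ≤ Λ ^ 2 * Q * s ^ 2 := by
      have h1 : Q ^ 2 ≤ Λ ^ 2 * Q := by rw [sq]; exact mul_le_mul_of_nonneg_right hQΛ hQ0.le
      have h2 := mul_le_mul_of_nonneg_right h1 hs2
      linarith
    have k3 : b ^ 2 ≤ Λ ^ 2 * b ^ 2 := by
      calc b ^ 2 = 1 * b ^ 2 := (one_mul _).symm
        _ ≤ Λ ^ 2 * b ^ 2 := mul_le_mul_of_nonneg_right hΛ2 hb2
    have k4 : b ^ 2 + (-(s * Q)) ^ 2 + (s ^ 2 + b ^ 2) = s ^ 2 + s ^ 2 * Q ^ 2 + 2 * b ^ 2 := by ring
    have k5 : 2 * Λ ^ 2 * (b * b - -(s * Q) * s) = 2 * (Λ ^ 2 * Q * s ^ 2) + 2 * (Λ ^ 2 * b ^ 2) := by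
      ring
    rw [k4, k5]
    linarith
  -- sup bounds of difference quotients
  have hsup : ∀ (a : P → ℝ), ContDiff ℝ 1 a → (∀ x ∈ S, |d1 a x| ≤ Λ) → (∀ x ∈ S, |d2 a x| ≤ Λ) →
      ∀ (e : P) (t : ℝ), ‖e‖ ≤ 1 → 0 < t → t ≤ 1 → ∀ y ∈ closedBall (0 : P) (|R| + 2),
      |t⁻¹ * (a (y + t • e) - a y)| ≤ 2 * Λ := by
    intro a ha ha1 ha2 e t he ht0 ht1 y hy
    have hy' : ‖y‖ ≤ |R| + 2 := mem_closedBall_zero_iff.1 hy
    have hyS : y ∈ S := mem_closedBall_zero_iff.2 (by linarith)
    have hte : ‖t • e‖ ≤ t := by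
      rw [norm_smul, Real.norm_eq_abs, abs_of_pos ht0]; nlinarith [norm_nonneg e]
    have hyS' : y + t • e ∈ S := mem_closedBall_zero_iff.2 (by
      have := norm_add_le y (t • e); linarith)
    have hb : ∀ x ∈ S, ‖fderiv ℝ a x‖ ≤ 2 * Λ := by
      intro x hx
      refine ContinuousLinearMap.opNorm_le_bound _ (by linarith) fun v => ?_
      rw [fderiv_apply_eq]
      have v1 : ‖v.1‖ ≤ ‖v‖ := norm_fst_le v
      have v2 : ‖v.2‖ ≤ ‖v‖ := norm_snd_le v
      have w1 : ‖v.1 • d1 a x‖ ≤ ‖v‖ * Λ := by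
        rw [norm_smul]
        exact mul_le_mul v1 (ha1 x hx) (norm_nonneg _) (norm_nonneg _)
      have w2 : ‖v.2 • d2 a x‖ ≤ ‖v‖ * Λ := by
        rw [norm_smul]
        exact mul_le_mul v2 (ha2 x hx) (norm_nonneg _) (norm_nonneg _)
      have := norm_add_le (v.1 • d1 a x) (v.2 • d2 a x)
      linarith
    have hmv := (convex_closedBall (0 : P) (|R| + 4)).norm_image_sub_le_of_norm_fderiv_le
      (fun x _ => ha.differentiable (by norm_num) x) hb hyS hyS'
    rw [add_sub_cancel_left, Real.norm_eq_abs] at hmv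
    rw [abs_mul, abs_of_pos (inv_pos.2 ht0), inv_mul_le_iff₀ ht0]
    calc |a (y + t • e) - a y| ≤ 2 * Λ * ‖t • e‖ := hmv
      _ ≤ 2 * Λ * t := mul_le_mul_of_nonneg_left hte (by linarith)
      _ = t * (2 * Λ) := by ring
  -- Hölder bounds of difference quotients
  have hq2 : ∀ (e : P) (t : ℝ), ‖e‖ ≤ 1 → 0 < t → t ≤ 1 → ∀ x y : P, ‖x‖ ≤ R → ‖x - y‖ ≤ 1 →
      |t⁻¹ * (d2 u (x + t • e) - d2 u x) - t⁻¹ * (d2 u (y + t • e) - d2 u y)| ≤
        C0 * (2 * Λ) * ‖x - y‖ ^ α := by
    intro e t he ht0 ht1 x y hx hxy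
    have hsub : closedBall x 2 ⊆ closedBall (0 : P) (|R| + 2) := by
      intro z hz
      have h1 : dist z x ≤ 2 := hz
      rw [dist_eq_norm] at h1
      rw [mem_closedBall_zero_iff]
      have := norm_add_le (z - x) x
      rw [sub_add_cancel] at this
      linarith [le_abs_self R]
    exact hmor _ _ (contDiff_quot hu2 t e) (contDiff_quot hu1 t e) x (2 * Λ) (by linarith)
      (fun z hz => hsup (d2 u) hu2 b12 b22 e t he ht0 ht1 z (hsub hz))
      (fun z hz => hen e t he ht0 ht1 z (hsub hz)) y hxy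
  have hq1 : ∀ (e : P) (t : ℝ), ‖e‖ ≤ 1 → 0 < t → t ≤ 1 → ∀ x y : P, ‖x‖ ≤ R → ‖x - y‖ ≤ 1 →
      |t⁻¹ * (d1 u (x + t • e) - d1 u x) - t⁻¹ * (d1 u (y + t • e) - d1 u y)| ≤
        C0 * (2 * Λ) * ‖x - y‖ ^ α := by
    intro e t he ht0 ht1 x y hx hxy
    have hsub : closedBall x 2 ⊆ closedBall (0 : P) (|R| + 2) := by
      intro z hz
      have h1 : dist z x ≤ 2 := hz
      rw [dist_eq_norm] at h1
      rw [mem_closedBall_zero_iff]
      have := norm_add_le (z - x) x
      rw [sub_add_cancel] at this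
      linarith [le_abs_self R]
    refine hmor _ (fun y => -(t⁻¹ * (d2 u (y + t • e) - d2 u y))) (contDiff_quot hu1 t e)
      (contDiff_quot hu2 t e).neg x (2 * Λ) (by linarith)
      (fun z hz => hsup (d1 u) hu1 b11 (fun x hx => by rw [hsym]; exact b12 x hx) e t he ht0 ht1 z
        (hsub hz)) (fun z hz => ?_) y hxy
    have h1 := hen e t he ht0 ht1 z (hsub hz)
    simp only [en, gsq, jc] at h1 ⊢
    rw [d1_neg, d2_neg]
    linarith
  -- pass to the limit
  have hlim : ∀ (a : P → ℝ), ContDiff ℝ 1 a → ∀ (e : P), ∀ x y : P,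
      (∀ t : ℝ, 0 < t → t ≤ 1 → |t⁻¹ * (a (x + t • e) - a x) - t⁻¹ * (a (y + t • e) - a y)| ≤
        C0 * (2 * Λ) * ‖x - y‖ ^ α) →
      |fderiv ℝ a x e - fderiv ℝ a y e| ≤ C0 * (2 * Λ) * ‖x - y‖ ^ α := by
    intro a ha e x y hb
    have h1 := ((tendsto_quot ha x e).sub (tendsto_quot ha y e)).abs
    refine le_of_tendsto h1 ?_
    filter_upwards [Ioc_mem_nhdsGT (show (0:ℝ) < 1 by norm_num)] with t ht
    exact hb t ht.1 ht.2
  have n10 : ‖((1, 0) : P)‖ ≤ 1 := by simp [Prod.norm_def]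
  have n01 : ‖((0, 1) : P)‖ ≤ 1 := by simp [Prod.norm_def]
  intro x y hx hy
  have hxS : x ∈ S := mem_closedBall_zero_iff.2 (by linarith [le_abs_self R])
  have hyS : y ∈ S := mem_closedBall_zero_iff.2 (by linarith [le_abs_self R])
  by_cases hxy : ‖x - y‖ ≤ 1
  · have hadd : C0 * (2 * Λ) * ‖x - y‖ ^ α ≤ (C0 * (2 * Λ) + 2 * Λ) * ‖x - y‖ ^ α := by
      have : 0 ≤ 2 * Λ * ‖x - y‖ ^ α := by positivity
      nlinarith
    refine ⟨?_, ?_, ?_⟩
    · exact (hlim (d1 u) hu1 (1, 0) x y
        (fun t h0 h1 => hq1 (1, 0) t n10 h0 h1 x y hx hxy)).trans hadd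
    · exact (hlim (d2 u) hu2 (1, 0) x y
        (fun t h0 h1 => hq2 (1, 0) t n10 h0 h1 x y hx hxy)).trans hadd
    · exact (hlim (d2 u) hu2 (0, 1) x y
        (fun t h0 h1 => hq2 (0, 1) t n01 h0 h1 x y hx hxy)).trans hadd
  · have h1 : 1 ≤ ‖x - y‖ ^ α := Real.one_le_rpow (not_le.1 hxy).le hα0.le
    have hbig : ∀ a : P → ℝ, (∀ x ∈ S, |a x| ≤ Λ) →
        |a x - a y| ≤ (C0 * (2 * Λ) + 2 * Λ) * ‖x - y‖ ^ α := by
      intro a ha
      have h2 : |a x - a y| ≤ 2 * Λ := by
        have := abs_sub (a x) (a y)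
        linarith [ha x hxS, ha y hyS]
      have h3 : 0 ≤ C0 * (2 * Λ) := by positivity
      nlinarith
    exact ⟨hbig _ b11, hbig _ b12, hbig _ b22⟩

end final

end Pool.Agent.EU
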