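import Pool.Agent.EU.R2Final
import Pool.Agent.EU.R0

/-!
Module R: a `C²` solution of `u₁₁ u₂₂ = 1` on the plane with `u₁₁ > 0` is `C^∞`.
-/

set_option autoImplicit false
open scoped ContDiff Topology Interval
open Real Set MeasureTheory Filter

namespace Pool.Agent.EU

theorem smooth_of_C2 {u : P → ℝ} (hu : ContDiff ℝ 2 u) (hpos : ∀ x, 0 < d1 (d1 u) x)
    (h : ∀ x, d1 (d1 u) x * d2 (d2 u) x = 1) : ContDiff ℝ ∞ u := by
  have hcomm : d1 (d2 u) = d2 (d1 u) := by ext x; exact d1_d2_comm hu x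
  have key : ∀ g : P → ℝ, Continuous g →
      (∀ R : ℝ, ∃ α : ℝ, 0 < α ∧ α < 1 ∧ ∃ C : ℝ, 0 ≤ C ∧ ∀ x y : P, ‖x‖ ≤ R → ‖y‖ ≤ R →
        |g x - g y| ≤ C * ‖x - y‖ ^ α) → Reg.UH (fun _ : Unit => g) := by
    intro g hg H R _
    obtain ⟨α, h0, h1, C, hC, hH⟩ := H R
    obtain ⟨C0, hC0⟩ := Reg.UB.of_cont (ι := Unit) hg R
    refine ⟨|C0| + C, α, by positivity, h0, h1.le, fun _ x y hx hy => ⟨?_, ?_⟩⟩
    · exact (hC0 () x hx).trans ((le_abs_self _).trans (by linarith))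
    · refine (hH x y hx hy).trans (mul_le_mul_of_nonneg_right ?_ (by positivity))
      have := abs_nonneg C0
      linarith
  refine Reg.smooth_of_holder hu hpos h (key _ (Reg.cont_d11 hu) ?_) (key _ (Reg.cont_d21 hu) ?_)
    (key _ (Reg.cont_d22 hu) ?_)
  · intro R
    obtain ⟨α, h0, h1, C, hC, H⟩ := holder_D2 hu hpos h R
    exact ⟨α, h0, h1, C, hC, fun x y hx hy => (H x y hx hy).1⟩
  · intro R
    obtain ⟨α, h0, h1, C, hC, H⟩ := holder_D2 hu hpos h R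
    refine ⟨α, h0, h1, C, hC, fun x y hx hy => ?_⟩
    rw [← hcomm]
    exact (H x y hx hy).2.1
  · intro R
    obtain ⟨α, h0, h1, C, hC, H⟩ := holder_D2 hu hpos h R
    exact ⟨α, h0, h1, C, hC, fun x y hx hy => (H x y hx hy).2.2⟩

end Pool.Agent.EU
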