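import Pool.Agent.EU.Conv

/-!
Rotation of the plane by a quarter turn.
-/

set_option autoImplicit false
open scoped ContDiff Topology
open Real Set MeasureTheory Filter

namespace Pool.Agent.EU

theorem rot_smooth {n : WithTop ℕ∞} : ContDiff ℝ n rot := by unfold rot; fun_prop

theorem fderiv_rot (x h : P) : fderiv ℝ rot x h = rot h := by
  have h1 : HasFDerivAt (fun x : P => ((-x.2, x.1) : P))
      ((-(ContinuousLinearMap.snd ℝ ℝ ℝ)).prod (ContinuousLinearMap.fst ℝ ℝ ℝ)) x :=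
    ((ContinuousLinearMap.snd ℝ ℝ ℝ).hasFDerivAt.neg).prodMk
      (ContinuousLinearMap.fst ℝ ℝ ℝ).hasFDerivAt
  show fderiv ℝ (fun x : P => ((-x.2, x.1) : P)) x h = _
  rw [h1.fderiv]; rfl

theorem d1_rot {f : P → ℝ} (hf : Differentiable ℝ f) (x : P) :
    d1 (fun x => f (rot x)) x = d2 f (rot x) := by
  have h := (hf (rot x)).hasFDerivAt.comp x
    ((rot_smooth (n := 1)).differentiable (by norm_num) x).hasFDerivAt
  show fderiv ℝ (f ∘ rot) x (1, 0) = _
  rw [h.fderiv]
  show fderiv ℝ f (rot x) (fderiv ℝ rot x (1, 0)) = _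
  rw [fderiv_rot]
  unfold d2 rot
  simp

theorem d2_rot {f : P → ℝ} (hf : Differentiable ℝ f) (x : P) :
    d2 (fun x => f (rot x)) x = -(d1 f (rot x)) := by
  have h := (hf (rot x)).hasFDerivAt.comp x
    ((rot_smooth (n := 1)).differentiable (by norm_num) x).hasFDerivAt
  show fderiv ℝ (f ∘ rot) x (0, 1) = _
  rw [h.fderiv]
  show fderiv ℝ f (rot x) (fderiv ℝ rot x (0, 1)) = _
  rw [fderiv_rot, show rot ((0, 1) : P) = -((1, 0) : P) by unfold rot; simp, map_neg]
  rfl

theorem d1_neg_fun (f : P → ℝ) (x : P) : d1 (fun x => -f x) x = -(d1 f x) := by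
  unfold d1; rw [fderiv_fun_neg]; rfl

theorem d2_neg_fun (f : P → ℝ) (x : P) : d2 (fun x => -f x) x = -(d2 f x) := by
  unfold d2; rw [fderiv_fun_neg]; rfl

theorem hess_rot {u : P → ℝ} (hu : ContDiff ℝ 2 u) (x : P) :
    d1 (d1 fun x => u (rot x)) x = d2 (d2 u) (rot x) ∧
    d2 (d1 fun x => u (rot x)) x = -(d2 (d1 u) (rot x)) ∧
    d2 (d2 fun x => u (rot x)) x = d1 (d1 u) (rot x) := by
  have hd : Differentiable ℝ u := hu.differentiable (by norm_num)
  have hd1 : Differentiable ℝ (d1 u) := (contDiff_d1 hu (m := 1) (by norm_num)).differentiable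
    (by norm_num)
  have hd2 : Differentiable ℝ (d2 u) := (contDiff_d2 hu (m := 1) (by norm_num)).differentiable
    (by norm_num)
  have e1 : (d1 fun x => u (rot x)) = fun x => d2 u (rot x) := funext fun x => d1_rot hd x
  have e2 : (d2 fun x => u (rot x)) = fun x => -(d1 u (rot x)) := funext fun x => d2_rot hd x
  refine ⟨?_, ?_, ?_⟩
  · rw [e1, d1_rot hd2]
  · rw [e1, d2_rot hd2, d1_d2_comm hu]
  · rw [e2, d2_neg_fun, d2_rot hd1, neg_neg]

theorem entire_rot {u : P → ℝ} (h : IsEntireSolution u) : IsEntireSolution fun x => u (rot x) := by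
  rw [isEntireSolution_iff] at h ⊢
  obtain ⟨hs, hp, he⟩ := h
  refine ⟨hs.comp rot_smooth, fun x => ?_, fun x => ?_⟩
  · rw [(hess_rot hs x).1]
    have h1 := he (rot x)
    have h2 := hp (rot x)
    by_contra hc
    push Not at hc
    have := mul_nonpos_of_nonneg_of_nonpos h2.le hc
    rw [h1] at this
    linarith
  · rw [(hess_rot hs x).1, (hess_rot hs x).2.2, mul_comm]; exact he (rot x)

theorem rot4 (x : P) : rot^[4] x = x := by
  simp [rot]

theorem iter_rot {u : P → ℝ} (h : IsEntireSolution u) (k : ℕ) :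
    IsEntireSolution fun x => u (rot^[k] x) := by
  induction k with
  | zero => simpa using h
  | succ n ih =>
    have := entire_rot ih
    simpa [Function.iterate_succ] using this

theorem iter_rot_iff {u : P → ℝ} (k : ℕ) :
    (IsEntireSolution fun x => u (rot^[k] x)) ↔ IsEntireSolution u := by
  refine ⟨fun h => ?_, fun h => iter_rot h k⟩
  have h1 := iter_rot h (3 * k)
  have e : ∀ x : P, rot^[k] (rot^[3 * k] x) = x := by
    intro x
    rw [← Function.iterate_add_apply, show k + 3 * k = 4 * k by ring, Function.iterate_mul]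
    have : rot^[4] = id := funext rot4
    rw [this, Function.iterate_id]; rfl
  simpa [e] using h1

/-- inverse of the quarter turn, as a homeomorphism -/
def rotInv : P ≃ₜ P where
  toFun x := (x.2, -x.1)
  invFun x := (-x.2, x.1)
  left_inv x := by simp
  right_inv x := by simp
  continuous_toFun := by fun_prop
  continuous_invFun := by fun_prop

theorem rot_rotInv (x : P) : rot (rotInv x) = x := by
  show ((- -x.1, x.2) : P) = x
  simp

/-- the properties of `F` for solutions of the first family -/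
structure Good (γ : ℝ) (F : P ≃ₜ P) (u : P → ℝ) : Prop where
  sm : ContDiff ℝ ∞ F
  s1 : ∀ q : P, d1 (fun q => (F q).2) q = -(Real.exp (-q.1) * d2 (fun q => (F q).1) q)
  s2 : ∀ q : P, d2 (fun q => (F q).2) q = Real.exp (-q.1) * d1 (fun q => (F q).1) q
  s0 : ∀ q : P, d1 (fun q => (F q).1) q ≠ 0 ∨ d2 (fun q => (F q).1) q ≠ 0
  pos : ∀ q : P, 0 ≤ cos γ * d1 (fun q => (F q).1) q + sin γ * d2 (fun q => (F q).1) q
  hess : HessI F u

theorem d1_comp_neg {f : P → ℝ} (hf : Differentiable ℝ f) (q : P) :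
    d1 (fun q => f (-q)) q = -(d1 f (-q)) := by
  have h := (hf (-q)).hasFDerivAt.comp q (hasFDerivAt_id q).neg
  show fderiv ℝ (f ∘ fun q => -q) q (1, 0) = _
  have h' : fderiv ℝ (f ∘ fun q => -q) q = _ := h.fderiv
  rw [h']
  show fderiv ℝ f (-q) (-(1, 0)) = _
  rw [map_neg]; rfl

theorem d2_comp_neg {f : P → ℝ} (hf : Differentiable ℝ f) (q : P) :
    d2 (fun q => f (-q)) q = -(d2 f (-q)) := by
  have h := (hf (-q)).hasFDerivAt.comp q (hasFDerivAt_id q).neg
  show fderiv ℝ (f ∘ fun q => -q) q (0, 1) = _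
  have h' : fderiv ℝ (f ∘ fun q => -q) q = _ := h.fderiv
  rw [h']
  show fderiv ℝ f (-q) (-(0, 1)) = _
  rw [map_neg]; rfl

theorem good_rot {γ : ℝ} {F : P ≃ₜ P} {u : P → ℝ} (h : Good γ F u) :
    Good (γ - π / 2) ((Homeomorph.neg P).trans (F.trans rotInv)) fun x => u (rot x) := by
  have hF : Differentiable ℝ F := h.sm.differentiable (by simp)
  have hX : Differentiable ℝ (fun q => (F q).1) := fun q => (hF q).fst
  have hY : Differentiable ℝ (fun q => (F q).2) := fun q => (hF q).snd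
  have eF : ∀ q, ((Homeomorph.neg P).trans (F.trans rotInv)) q = ((F (-q)).2, -(F (-q)).1) :=
    fun q => rfl
  have e1 : ∀ q, d1 (fun q => (((Homeomorph.neg P).trans (F.trans rotInv)) q).1) q =
      -(d1 (fun q => (F q).2) (-q)) := fun q => d1_comp_neg hY q
  have e2 : ∀ q, d2 (fun q => (((Homeomorph.neg P).trans (F.trans rotInv)) q).1) q =
      -(d2 (fun q => (F q).2) (-q)) := fun q => d2_comp_neg hY q
  have e3 : ∀ q, d1 (fun q => (((Homeomorph.neg P).trans (F.trans rotInv)) q).2) q =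
      d1 (fun q => (F q).1) (-q) := fun q => by
    show d1 (fun q => -((fun q => (F q).1) (-q))) q = _
    rw [d1_neg_fun, d1_comp_neg hX, neg_neg]
  have e4 : ∀ q, d2 (fun q => (((Homeomorph.neg P).trans (F.trans rotInv)) q).2) q =
      d2 (fun q => (F q).1) (-q) := fun q => by
    show d2 (fun q => -((fun q => (F q).1) (-q))) q = _
    rw [d2_neg_fun, d2_comp_neg hX, neg_neg]
  have hE : ∀ q : P, Real.exp (-q.1) * Real.exp (-(-q).1) = 1 := by
    intro q; rw [← Real.exp_add]; simp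
  have s1' : ∀ q : P, d1 (fun q => (F q).2) (-q) =
      -(Real.exp (-(-q).1) * d2 (fun q => (F q).1) (-q)) := fun q => h.s1 (-q)
  have s2' : ∀ q : P, d2 (fun q => (F q).2) (-q) =
      Real.exp (-(-q).1) * d1 (fun q => (F q).1) (-q) := fun q => h.s2 (-q)
  refine ⟨?_, ?_, ?_, ?_, ?_, ?_⟩
  · show ContDiff ℝ ∞ fun q => ((F (-q)).2, -(F (-q)).1)
    have := h.sm.comp (contDiff_neg (𝕜 := ℝ) (F := P) (n := ∞))
    exact (contDiff_snd.comp this).prodMk (contDiff_fst.comp this).neg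
  · intro q
    rw [e3, e2, s2']
    linear_combination (-(d1 (fun q => (F q).1) (-q))) * hE q
  · intro q
    rw [e4, e1, s1']
    linear_combination (-(d2 (fun q => (F q).1) (-q))) * hE q
  · intro q
    rw [e1, e2, s1', s2']
    rcases h.s0 (-q) with h0 | h0
    · right
      simpa using h0
    · left
      simpa using h0
  · intro q
    rw [e1, e2, s1', s2', Real.cos_sub_pi_div_two, Real.sin_sub_pi_div_two]
    have := mul_nonneg (Real.exp_pos (-(-q).1)).le (h.pos (-q))
    linarith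
  · have hr : ∀ q, rot (((Homeomorph.neg P).trans (F.trans rotInv)) q) = F (-q) := fun q =>
      rot_rotInv _
    refine ⟨h.hess.c2.comp rot_smooth, fun q => ?_, fun q => ?_, fun q => ?_⟩
    · rw [(hess_rot h.hess.c2 _).1, hr, h.hess.h22]; rfl
    · rw [(hess_rot h.hess.c2 _).2.1, hr, h.hess.h12]; simp
    · rw [(hess_rot h.hess.c2 _).2.2, hr, h.hess.h11]; simp

theorem good_iter {γ : ℝ} {F : P ≃ₜ P} {u : P → ℝ} (h : Good γ F u) (k : ℕ) :
    ∃ F', Good (γ - k * (π / 2)) F' fun x => u (rot^[k] x) := by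
  induction k with
  | zero => exact ⟨F, by simpa using h⟩
  | succ n ih =>
    obtain ⟨F', hF'⟩ := ih
    have h1 := good_rot hF'
    have e : γ - (n : ℝ) * (π / 2) - π / 2 = γ - ((n + 1 : ℕ) : ℝ) * (π / 2) := by
      push_cast; ring
    rw [e] at h1
    refine ⟨_, (?_ : Good (γ - ((n + 1 : ℕ) : ℝ) * (π / 2)) ((Homeomorph.neg P).trans (F'.trans rotInv))
      fun x => u (rot^[n + 1] x))⟩
    have e' : (fun x => u (rot^[n + 1] x)) = fun x => u (rot^[n] (rot x)) := by
      funext x; rw [Function.iterate_succ_apply]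
    rw [e']
    exact h1

/-- reduction of `γ` to `[0, π/2)`. -/
theorem good_reduce {γ : ℝ} {F : P ≃ₜ P} {u : P → ℝ} (h : Good γ F u) :
    ∃ k < 4, ∃ γ' ∈ Ico 0 (π / 2), ∃ F', Good γ' F' fun x => u (rot^[k] x) := by
  have hπ := Real.pi_pos
  set γ1 := toIcoMod Real.two_pi_pos 0 γ with hγ1
  have hm : γ1 ∈ Ico (0:ℝ) (0 + 2 * π) := toIcoMod_mem_Ico _ _ _
  rw [zero_add] at hm
  have hg : Good γ1 F u := by
    refine ⟨h.sm, h.s1, h.s2, h.s0, fun q => ?_, h.hess⟩
    have e : γ1 = γ - toIcoDiv Real.two_pi_pos 0 γ • (2 * π) := rfl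
    have e' : γ1 = γ - (toIcoDiv Real.two_pi_pos 0 γ : ℝ) * (2 * π) := by
      rw [e, zsmul_eq_mul]
    have c1 : cos γ1 = cos γ := by rw [e', Real.cos_sub_int_mul_two_pi]
    have c2 : sin γ1 = sin γ := by rw [e', Real.sin_sub_int_mul_two_pi]
    rw [c1, c2]
    exact h.pos q
  set k := ⌊γ1 / (π / 2)⌋₊ with hk
  have h2 : (0:ℝ) < π / 2 := by positivity
  have h3 : 0 ≤ γ1 / (π / 2) := div_nonneg hm.1 h2.le
  have h4 : (k : ℝ) ≤ γ1 / (π / 2) := Nat.floor_le h3
  have h5 : γ1 / (π / 2) < k + 1 := Nat.lt_floor_add_one _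
  rw [le_div_iff₀ h2] at h4
  rw [div_lt_iff₀ h2] at h5
  have hk4 : k < 4 := by
    by_contra hc
    push Not at hc
    have : (4 : ℝ) ≤ k := by exact_mod_cast hc
    nlinarith [hm.2]
  obtain ⟨F', hF'⟩ := good_iter hg k
  exact ⟨k, hk4, _, ⟨by linarith, by linarith⟩, F', hF'⟩

end Pool.Agent.EU
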