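import Pool.Agent.EU.Main
import Pool.Agent.EU.Rot
import Pool.Agent.EU.R

/-!
Assembly of the classification (without the surjectivity criteria).
-/

set_option autoImplicit false
open scoped ContDiff Topology
open Real Set MeasureTheory Filter

namespace Pool.Agent.EU

theorem quad_derivs (a a' c l m n : ℝ) (x : P) :
    ContDiff ℝ ∞ (fun x : P => (a * x.1 ^ 2 + a' * x.2 ^ 2) / 2 + c * x.1 * x.2 + l * x.1 + m * x.2 + n) ∧
    d1 (d1 fun x : P => (a * x.1 ^ 2 + a' * x.2 ^ 2) / 2 + c * x.1 * x.2 + l * x.1 + m * x.2 + n) x = a ∧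
    d2 (d1 fun x : P => (a * x.1 ^ 2 + a' * x.2 ^ 2) / 2 + c * x.1 * x.2 + l * x.1 + m * x.2 + n) x = c ∧
    d2 (d2 fun x : P => (a * x.1 ^ 2 + a' * x.2 ^ 2) / 2 + c * x.1 * x.2 + l * x.1 + m * x.2 + n) x = a' := by
  set w : P → ℝ := fun x : P => (a * x.1 ^ 2 + a' * x.2 ^ 2) / 2 + c * x.1 * x.2 + l * x.1 + m * x.2 + n
    with hw
  have hs : ContDiff ℝ ∞ w := by unfold w; fun_prop
  have dif : ∀ {f : P → ℝ}, ContDiff ℝ ∞ f → ∀ q, DifferentiableAt ℝ f q :=
    fun h q => h.differentiable (by simp) q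
  have e1 : d1 w = fun x => a * x.1 + c * x.2 + l := by
    funext x
    refine d1_eqOf (dif hs x) (φ := fun s => (a * s ^ 2 + a' * x.2 ^ 2) / 2 + c * s * x.2 + l * s + m * x.2 + n)
      (fun s => rfl) ?_
    have h1 : HasDerivAt (fun s : ℝ => (a * s ^ 2 + a' * x.2 ^ 2) / 2) (a * (2 * x.1) / 2) x.1 := by
      have := (((hasDerivAt_pow 2 x.1).const_mul a).add_const (a' * x.2 ^ 2)).div_const 2
      simpa using this
    have h2 : HasDerivAt (fun s : ℝ => c * s * x.2) (c * x.2) x.1 := by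
      have := ((hasDerivAt_id x.1).const_mul c).mul_const x.2
      simpa using this
    have h3 : HasDerivAt (fun s : ℝ => l * s) l x.1 := by
      have := (hasDerivAt_id x.1).const_mul l
      simpa using this
    have h4 : HasDerivAt (fun s => (a * s ^ 2 + a' * x.2 ^ 2) / 2 + c * s * x.2 + l * s + m * x.2 + n)
        (a * (2 * x.1) / 2 + c * x.2 + l) x.1 := (((h1.add h2).add h3).add_const (m * x.2)).add_const n
    have e : a * (2 * x.1) / 2 + c * x.2 + l = a * x.1 + c * x.2 + l := by ring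
    rw [e] at h4
    exact h4
  have e2 : d2 w = fun x => a' * x.2 + c * x.1 + m := by
    funext x
    refine d2_eqOf (dif hs x) (φ := fun s => (a * x.1 ^ 2 + a' * s ^ 2) / 2 + c * x.1 * s + l * x.1 + m * s + n)
      (fun s => rfl) ?_
    have h1 : HasDerivAt (fun s : ℝ => (a * x.1 ^ 2 + a' * s ^ 2) / 2) (a' * (2 * x.2) / 2) x.2 := by
      have := (((hasDerivAt_pow 2 x.2).const_mul a').const_add (a * x.1 ^ 2)).div_const 2
      simpa using this
    have h2 : HasDerivAt (fun s : ℝ => c * x.1 * s) (c * x.1) x.2 := by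
      have := (hasDerivAt_id x.2).const_mul (c * x.1)
      simpa using this
    have h3 : HasDerivAt (fun s : ℝ => m * s) m x.2 := by
      have := (hasDerivAt_id x.2).const_mul m
      simpa using this
    have h4 : HasDerivAt (fun s => (a * x.1 ^ 2 + a' * s ^ 2) / 2 + c * x.1 * s + l * x.1 + m * s + n)
        (a' * (2 * x.2) / 2 + c * x.1 + m) x.2 := (((h1.add h2).add_const (l * x.1)).add h3).add_const n
    have e : a' * (2 * x.2) / 2 + c * x.1 + m = a' * x.2 + c * x.1 + m := by ring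
    rw [e] at h4
    exact h4
  refine ⟨hs, ?_, ?_, ?_⟩
  · rw [e1]
    have hs1 : ContDiff ℝ ∞ (fun x : P => a * x.1 + c * x.2 + l) := by fun_prop
    refine d1_eqOf (dif hs1 x) (φ := fun s => a * s + c * x.2 + l) (fun s => rfl) ?_
    have := (((hasDerivAt_id x.1).const_mul a).add_const (c * x.2)).add_const l
    simpa using this
  · rw [e1]
    have hs1 : ContDiff ℝ ∞ (fun x : P => a * x.1 + c * x.2 + l) := by fun_prop
    refine d2_eqOf (dif hs1 x) (φ := fun s => a * x.1 + c * s + l) (fun s => rfl) ?_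
    have := (((hasDerivAt_id x.2).const_mul c).const_add (a * x.1)).add_const l
    simpa using this
  · rw [e2]
    have hs1 : ContDiff ℝ ∞ (fun x : P => a' * x.2 + c * x.1 + m) := by fun_prop
    refine d2_eqOf (dif hs1 x) (φ := fun s => a' * s + c * x.1 + m) (fun s => rfl) ?_
    have := (((hasDerivAt_id x.2).const_mul a').add_const (c * x.1)).add_const m
    simpa using this

theorem quadratic_entire {u : P → ℝ} (h : IsQuadratic u) : IsEntireSolution u := by
  obtain ⟨a, c, l, m, n, ha, hu⟩ := h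
  obtain rfl : u = _ := funext hu
  rw [isEntireSolution_iff]
  refine ⟨(quad_derivs a a⁻¹ c l m n 0).1.of_le two_le_inf, fun x => ?_, fun x => ?_⟩
  · rw [(quad_derivs a a⁻¹ c l m n x).2.1]; exact ha
  · rw [(quad_derivs a a⁻¹ c l m n x).2.1, (quad_derivs a a⁻¹ c l m n x).2.2.2]
    exact mul_inv_cancel₀ ha.ne'

/-- solutions from the Hessian conditions -/
theorem entire_of_hessI {F : P → P} {u : P → ℝ} (h : HessI F u) (hs : Function.Surjective F) :
    IsEntireSolution u := by
  rw [isEntireSolution_iff]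
  refine ⟨h.c2, fun x => ?_, fun x => ?_⟩
  · obtain ⟨q, rfl⟩ := hs x
    rw [h.h11]; exact Real.exp_pos _
  · obtain ⟨q, rfl⟩ := hs x
    rw [h.h11, h.h22, ← Real.exp_add]; simp

theorem entire_of_hessII {h0 v0 : ℝ} {F : P → P} {u : P → ℝ} (h : HessII h0 v0 F u)
    (hs : Function.Surjective F) : IsEntireSolution u := by
  rw [isEntireSolution_iff]
  refine ⟨h.c2, fun x => ?_, fun x => ?_⟩
  · obtain ⟨q, rfl⟩ := hs x
    rw [h.h11]; exact Real.exp_pos _
  · obtain ⟨q, rfl⟩ := hs x
    rw [h.h11, h.h22, ← Real.exp_add]; simp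

/-- **Classification**, necessity. -/
theorem entire_cases {u : P → ℝ} (h : IsEntireSolution u) : IsQuadratic u ∨
    (∃ k < 4, ∃ γ ∈ Ico 0 (π / 2), ∃ (b : ℝ) (M : Measure ℝ) (F : P → P), TypeI γ b M F ∧
      Function.Bijective F ∧ HessI F fun x => u (rot^[k] x)) ∨
    (∃ (h0 v0 b : ℝ) (M : Measure ℝ) (F : P → P), TypeII h0 b M F ∧ Function.Bijective F ∧
      HessII h0 v0 F u) := by
  obtain ⟨hc2, hp, he⟩ := isEntireSolution_iff.1 h
  have hsm : ContDiff ℝ ∞ u := smooth_of_C2 hc2 hp he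
  have hsol := sol_of_u hsm hp he
  have hp2 : ∀ x, 0 < d2 (d2 u) x := by
    intro x
    by_contra hc
    push Not at hc
    have := mul_nonpos_of_nonneg_of_nonpos (hp x).le hc
    rw [he x] at this
    linarith
  set A : P → ℝ := fun x => Real.log (d2 (d2 u) x) with hA
  have e22 : ∀ x, d2 (d2 u) x = Real.exp (A x) := fun x => (Real.exp_log (hp2 x)).symm
  have e11 : ∀ x, d1 (d1 u) x = Real.exp (-(A x)) := by
    intro x
    have h1 := he x
    rw [e22] at h1
    rw [Real.exp_neg]
    exact eq_inv_of_mul_eq_one_left h1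
  by_cases hne : ∃ x y, A x ≠ A y
  · right
    rcases sol_structure hsol hne with ⟨γ, F, hF, h1, h2, h3, h4, h5⟩ | ⟨h0, v0, b, M, F, hF, h5⟩
    · left
      have hg : Good γ F u := by
        refine ⟨hF, h1, h2, h3, h4, hsm.of_le two_le_inf, fun q => ?_, fun q => ?_, fun q => ?_⟩
        · rw [e11, (h5 q).1]
        · exact (h5 q).2
        · rw [e22, (h5 q).1]
      obtain ⟨k, hk, γ', hγ', F', hF'⟩ := good_reduce hg
      obtain ⟨b, M, hT⟩ := typeI_of_pos F' hF'.sm hF'.s1 hF'.s2 hF'.s0 γ' hF'.pos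
      exact ⟨k, hk, γ', hγ', b, M, F', hT, F'.bijective, hF'.hess⟩
    · right
      refine ⟨h0, v0, b, M, F, hF, F.bijective, hsm.of_le two_le_inf, fun q => ?_, fun q => ?_,
        fun q => ?_⟩
      · rw [e11, (h5 q).1]
      · exact (h5 q).2
      · rw [e22, (h5 q).1]
  · left
    push Not at hne
    set a := A 0 with ha
    have hAc : ∀ x, A x = a := fun x => hne x 0
    have hdA1 : ∀ x, d1 A x = 0 := by
      intro x
      have : A = fun _ => a := funext hAc
      unfold d1; rw [this]; simp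
    have hdA2 : ∀ x, d2 A x = 0 := by
      intro x
      have : A = fun _ => a := funext hAc
      unfold d2; rw [this]; simp
    set v : P → ℝ := d2 (d1 u) with hv
    have hvd : Differentiable ℝ v := hsol.cv.differentiable (by simp)
    have hvc : ∀ x, v x = v 0 := by
      intro x
      refine is_const_of_fderiv_eq_zero hvd (fun y => ?_) x 0
      ext
      · show fderiv ℝ v y (1, 0) = 0
        have : d1 v y = 0 := by rw [hsol.h1, hdA2]; simp
        exact this
      · show fderiv ℝ v y (0, 1) = 0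
        have : d2 v y = 0 := by rw [hsol.h2, hdA1]; simp
        exact this
    obtain ⟨l, m, n, hlmn⟩ := affine_of_hess_eq hc2
      ((quad_derivs (Real.exp (-a)) (Real.exp a) (v 0) 0 0 0 0).1.of_le two_le_inf)
      (fun x => by rw [(quad_derivs (Real.exp (-a)) (Real.exp a) (v 0) 0 0 0 x).2.1, e11, hAc])
      (fun x => by rw [(quad_derivs (Real.exp (-a)) (Real.exp a) (v 0) 0 0 0 x).2.2.1]; exact hvc x)
      (fun x => by rw [(quad_derivs (Real.exp (-a)) (Real.exp a) (v 0) 0 0 0 x).2.2.2, e22, hAc])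
    refine ⟨Real.exp (-a), v 0, l, m, n, Real.exp_pos _, fun x => ?_⟩
    rw [hlmn x, Real.exp_neg, inv_inv]
    ring

theorem map_unique {F G : P → P} (hF : Differentiable ℝ F) (hG : Differentiable ℝ G)
    (hd : ∀ q, fderiv ℝ F q = fderiv ℝ G q) (h0 : F 0 = G 0) : F = G := by
  have h1 : Differentiable ℝ (fun q => F q - G q) := hF.sub hG
  have h2 : ∀ q, fderiv ℝ (fun q => F q - G q) q = 0 := by
    intro q
    rw [fderiv_fun_sub (hF q) (hG q), hd q, sub_self]
  funext q
  have := is_const_of_fderiv_eq_zero h1 h2 q 0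
  simp only [h0, sub_self] at this
  exact sub_eq_zero.1 this

theorem typeI_unique {γ b : ℝ} {M : Measure ℝ} {F G : P → P} (hF : TypeI γ b M F)
    (hG : TypeI γ b M G) (h0 : F 0 = G 0) : F = G :=
  map_unique hF.diff hG.diff (fun q => ContinuousLinearMap.ext fun h => by
    rw [hF.dF, hG.dF]) h0

theorem typeII_unique {h0 b : ℝ} {M : Measure ℝ} {F G : P → P} (hF : TypeII h0 b M F)
    (hG : TypeII h0 b M G) (h : F 0 = G 0) : F = G :=
  map_unique hF.diff hG.diff (fun q => ContinuousLinearMap.ext fun h => by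
    rw [hF.dF, hG.dF]) h

/-- solutions belonging to a surjective map of the first family -/
theorem exists_uI {γ b : ℝ} {M : Measure ℝ} {F : P → P} (hF : TypeI γ b M F)
    (hs : Function.Surjective F) (k : ℕ) : ∃ u : P → ℝ, HessI F fun x => u (rot^[k] x) := by
  obtain ⟨-, u, hu, h⟩ := u_of_typeI hF hs
  have h0 : HessI F u := ⟨hu.of_le (by norm_num), fun q => (h q).1, fun q => (h q).2.1,
    fun q => (h q).2.2⟩
  refine ⟨fun x => u (rot^[3 * k] x), ?_⟩
  have e : ∀ x : P, rot^[3 * k] (rot^[k] x) = x := by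
    intro x
    rw [← Function.iterate_add_apply, show 3 * k + k = 4 * k by ring, Function.iterate_mul]
    have : rot^[4] = id := funext rot4
    rw [this, Function.iterate_id]; rfl
  simpa [e] using h0

theorem exists_uII {h0 b : ℝ} {M : Measure ℝ} {F : P → P} (hF : TypeII h0 b M F)
    (hs : Function.Surjective F) (v0 : ℝ) : ∃ u : P → ℝ, HessII h0 v0 F u := by
  obtain ⟨-, u, hu, h⟩ := u_of_typeII (v0 := v0) hF hs
  exact ⟨u, hu.of_le (by norm_num), fun q => (h q).1, fun q => (h q).2.1, fun q => (h q).2.2⟩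

theorem unique_uI {F : P → P} (hs : Function.Surjective F) {u w : P → ℝ} (hu : HessI F u)
    (hw : HessI F w) : ∃ l m n : ℝ, ∀ x : P, u x = w x + l * x.1 + m * x.2 + n :=
  affine_of_hess_eq hu.c2 hw.c2
    (fun x => by obtain ⟨q, rfl⟩ := hs x; rw [hu.h11, hw.h11])
    (fun x => by obtain ⟨q, rfl⟩ := hs x; rw [hu.h12, hw.h12])
    (fun x => by obtain ⟨q, rfl⟩ := hs x; rw [hu.h22, hw.h22])

theorem unique_uII {h0 v0 : ℝ} {F : P → P} (hs : Function.Surjective F) {u w : P → ℝ}
    (hu : HessII h0 v0 F u) (hw : HessII h0 v0 F w) :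
    ∃ l m n : ℝ, ∀ x : P, u x = w x + l * x.1 + m * x.2 + n :=
  affine_of_hess_eq hu.c2 hw.c2
    (fun x => by obtain ⟨q, rfl⟩ := hs x; rw [hu.h11, hw.h11])
    (fun x => by obtain ⟨q, rfl⟩ := hs x; rw [hu.h12, hw.h12])
    (fun x => by obtain ⟨q, rfl⟩ := hs x; rw [hu.h22, hw.h22])

/-- affine functions are preserved by the rotations -/
theorem affine_iter {f : P → ℝ} (k : ℕ) (h : ∃ l m n : ℝ, ∀ x : P, f (rot^[k] x) = l * x.1 + m * x.2 + n) :
    ∃ l m n : ℝ, ∀ x : P, f x = l * x.1 + m * x.2 + n := by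
  induction k with
  | zero => simpa using h
  | succ j ih =>
    apply ih
    obtain ⟨l, m, n, h⟩ := h
    refine ⟨-m, l, n, fun x => ?_⟩
    have h1 := h (rotInv x)
    rw [Function.iterate_succ_apply, rot_rotInv] at h1
    rw [h1]
    show l * x.2 + m * -x.1 + n = _
    ring

end Pool.Agent.EU
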