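import Pool.Agent.EU.ClassDefs
import Pool.Agent.EU.D0
import Pool.Agent.EU.D1
import Pool.Agent.EU.D2b
import Pool.Agent.EU.D3
import Pool.Agent.EU.D4
import Pool.Agent.EU.D5
import Pool.Agent.EU.D5b
import Pool.Agent.EU.D6

/-!
The surjectivity criterion for the first family.
-/

set_option autoImplicit false
open scoped ContDiff Topology ENNReal
open Real Set MeasureTheory Filter

namespace Pool.Agent.EU

theorem typeI_onto_iff {γ b : ℝ} {M : Measure ℝ} {F : P → P} (h0 : γ ∈ Ico 0 (π / 2))
    (hF : TypeI γ b M F) : Function.Surjective F ↔ OntoI γ b M := by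
  rcases eq_or_lt_of_le h0.1 with h | h
  · subst h
    constructor
    · exact fun hs => Or.inl ⟨rfl, typeI0_necessary hF hs⟩
    · rintro (⟨-, h⟩ | ⟨h, -⟩)
      · obtain ⟨u0, u1, u2, u3⟩ := typeI0_quadrants hF h
        exact onto_of_quadrants hF.diff.continuous (fun c => (typeI_conn hF c).1)
          (fun c => (typeI_conn hF c).2.1) (fun c => (typeI_conn hF c).2.2.1)
          (fun c => (typeI_conn hF c).2.2.2) u0 u1 u2 u3
      · exact absurd h (lt_irrefl _)
  · constructor
    · exact fun hs => Or.inr ⟨h, typeIpos_necessary h h0.2 hF hs⟩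
    · rintro (⟨h', -⟩ | ⟨-, hc⟩)
      · exact absurd h' h.ne'
      · exact onto_of_quadrants hF.diff.continuous (fun c => (typeI_conn hF c).1)
          (fun c => (typeI_conn hF c).2.1) (fun c => (typeI_conn hF c).2.2.1)
          (fun c => (typeI_conn hF c).2.2.2) (typeIpos_U0 h h0.2 hF hc.h3)
          (typeIpos_U1 h h0.2 hF hc.h1) (typeIpos_U2 h h0.2 hF hc.h1 hc.h2)
          (typeIpos_U3 h h0.2 hF hc.h2)

end Pool.Agent.EU
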