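import Pool.Agent.EU.Uniq2
import Pool.Agent.EU.Onto

/-!
The classification of the entire solutions of `u₁₁ u₂₂ = 1`.
-/

set_option autoImplicit false
open scoped ContDiff Topology
open Real Set MeasureTheory Filter

namespace Pool.Agent.EU

/-- the list is complete and correct -/
theorem final_list (u : P → ℝ) : IsEntireSolution u ↔ IsQuadratic u ∨
    (∃ k < 4, ∃ γ ∈ Ico 0 (π / 2), ∃ (b : ℝ) (M : Measure ℝ) (F : P → P),
      TypeI γ b M F ∧ OntoI γ b M ∧ HessI F fun x => u (rot^[k] x)) ∨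
    (∃ (h0 v0 b : ℝ) (M : Measure ℝ) (F : P → P),
      TypeII h0 b M F ∧ OntoII M ∧ HessII h0 v0 F u) := by
  constructor
  · intro h
    rcases entire_cases h with h | ⟨k, hk, γ, hγ, b, M, F, hT, hF, hu⟩ | ⟨h0, v0, b, M, F, hT, hF, hu⟩
    · exact Or.inl h
    · exact Or.inr (Or.inl ⟨k, hk, γ, hγ, b, M, F, hT, (typeI_onto_iff hγ hT).1 hF.2, hu⟩)
    · exact Or.inr (Or.inr ⟨h0, v0, b, M, F, hT, (typeII_onto_iff hT).1 hF.2, hu⟩)
  · rintro (h | ⟨k, hk, γ, hγ, b, M, F, hT, hF, hu⟩ | ⟨h0, v0, b, M, F, hT, hF, hu⟩)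
    · exact quadratic_entire h
    · exact (iter_rot_iff k).1 (entire_of_hessI hu ((typeI_onto_iff hγ hT).2 hF))
    · exact entire_of_hessII hu ((typeII_onto_iff hT).2 hF)

/-- adding an affine function does not change the Hessian -/
theorem hess_affine {u w : P → ℝ} (hu : ContDiff ℝ 2 u) (l m n : ℝ)
    (hw : ∀ x, w x = u x + l * x.1 + m * x.2 + n) : ContDiff ℝ 2 w ∧
    (∀ x, d1 (d1 w) x = d1 (d1 u) x) ∧ (∀ x, d2 (d1 w) x = d2 (d1 u) x) ∧
    ∀ x, d2 (d2 w) x = d2 (d2 u) x := by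
  obtain rfl : w = fun x => u x + l * x.1 + m * x.2 + n := funext hw
  have hc : ContDiff ℝ 2 (fun x : P => u x + l * x.1 + m * x.2 + n) := by fun_prop
  have hd : ∀ x h : P, fderiv ℝ (fun x : P => u x + l * x.1 + m * x.2 + n) x h =
      fderiv ℝ u x h + l * h.1 + m * h.2 := by
    intro x h
    have h1 : HasFDerivAt u (fderiv ℝ u x) x := (hu.differentiable (by norm_num) x).hasFDerivAt
    have h2 : HasFDerivAt (fun x : P => l * x.1) (l • ContinuousLinearMap.fst ℝ ℝ ℝ) x :=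
      (ContinuousLinearMap.fst ℝ ℝ ℝ).hasFDerivAt.const_mul l
    have h3 : HasFDerivAt (fun x : P => m * x.2) (m • ContinuousLinearMap.snd ℝ ℝ ℝ) x :=
      (ContinuousLinearMap.snd ℝ ℝ ℝ).hasFDerivAt.const_mul m
    have h4 : HasFDerivAt (fun x : P => u x + l * x.1 + m * x.2 + n) _ x :=
      ((h1.add h2).add h3).add_const n
    rw [h4.fderiv]
    rfl
  have e1 : d1 (fun x : P => u x + l * x.1 + m * x.2 + n) = fun x => d1 u x + l := by
    funext x
    show fderiv ℝ (fun x : P => u x + l * x.1 + m * x.2 + n) x (1, 0) = _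
    rw [hd]; simp [d1]
  have e2 : d2 (fun x : P => u x + l * x.1 + m * x.2 + n) = fun x => d2 u x + m := by
    funext x
    show fderiv ℝ (fun x : P => u x + l * x.1 + m * x.2 + n) x (0, 1) = _
    rw [hd]; simp [d2]
  refine ⟨hc, fun x => ?_, fun x => ?_, fun x => ?_⟩
  · rw [e1]; unfold d1; rw [fderiv_add_const]
  · rw [e1]; unfold d2; rw [fderiv_add_const]
  · rw [e2]; unfold d2; rw [fderiv_add_const]

theorem affine_rot (k : ℕ) (l m n : ℝ) : ∃ l' m' n' : ℝ, ∀ x : P,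
    l * (rot^[k] x).1 + m * (rot^[k] x).2 + n = l' * x.1 + m' * x.2 + n' := by
  induction k with
  | zero => exact ⟨l, m, n, fun x => rfl⟩
  | succ j ih =>
    obtain ⟨l1, m1, n1, h1⟩ := ih
    refine ⟨m1, -l1, n1, fun x => ?_⟩
    rw [Function.iterate_succ_apply, h1 (rot x)]
    show l1 * -x.2 + m1 * x.1 + n1 = _
    ring

/-- all solutions belonging to a given surjective map, first family -/
theorem all_uI {γ b : ℝ} {M : Measure ℝ} {F : P → P} (hF : TypeI γ b M F)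
    (hs : Function.Surjective F) (k : ℕ) : ∃ u : P → ℝ, ∀ w : P → ℝ,
      (HessI F fun x => w (rot^[k] x)) ↔ ∃ l m n : ℝ, ∀ x, w x = u x + l * x.1 + m * x.2 + n := by
  obtain ⟨u, hu⟩ := exists_uI hF hs k
  refine ⟨u, fun w => ⟨fun hw => ?_, ?_⟩⟩
  · obtain ⟨l, m, n, h⟩ := affine_iter (f := fun x => w x - u x) k (by
      obtain ⟨l, m, n, h⟩ := unique_uI hs hw hu
      exact ⟨l, m, n, fun x => by rw [h x]; ring⟩)
    exact ⟨l, m, n, fun x => by have := h x; linarith⟩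
  · rintro ⟨l, m, n, h⟩
    obtain ⟨l', m', n', h'⟩ := affine_rot k l m n
    obtain ⟨c1, c2, c3, c4⟩ := hess_affine (w := fun x => w (rot^[k] x)) hu.c2 l' m' n' fun x => by
      rw [h (rot^[k] x)]
      have := h' x
      linarith
    exact ⟨c1, fun q => by rw [c2, hu.h11], fun q => by rw [c3, hu.h12], fun q => by rw [c4, hu.h22]⟩

/-- all solutions belonging to a given surjective map, second family -/
theorem all_uII {h0 b : ℝ} {M : Measure ℝ} {F : P → P} (hF : TypeII h0 b M F)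
    (hs : Function.Surjective F) (v0 : ℝ) : ∃ u : P → ℝ, ∀ w : P → ℝ,
      HessII h0 v0 F w ↔ ∃ l m n : ℝ, ∀ x, w x = u x + l * x.1 + m * x.2 + n := by
  obtain ⟨u, hu⟩ := exists_uII hF hs v0
  refine ⟨u, fun w => ⟨fun hw => unique_uII hs hw hu, ?_⟩⟩
  rintro ⟨l, m, n, h⟩
  obtain ⟨c1, c2, c3, c4⟩ := hess_affine hu.c2 l m n h
  exact ⟨c1, fun q => by rw [c2, hu.h11], fun q => by rw [c3, hu.h12], fun q => by rw [c4, hu.h22]⟩

/-- existence and uniqueness of the maps -/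
theorem typeI_existsUnique (γ b : ℝ) (M : Measure ℝ) [IsFiniteMeasure M]
    (hs : M (Icc (-π) π)ᶜ = 0) (hM : M ≠ 0) (p : P) : ∃! F : P → P, TypeI γ b M F ∧ F 0 = p := by
  obtain ⟨F, -, h1, h2⟩ := typeI_exists γ b M hs hM p
  exact ⟨F, ⟨h2, h1⟩, fun G hG => typeI_unique hG.1 h2 (hG.2.trans h1.symm)⟩

theorem typeII_existsUnique (h0 b : ℝ) (M : Measure ℝ) [IsFiniteMeasure M]
    (hs : M (Icc (-π) π)ᶜ = 0) (hM : M ≠ 0) (p : P) : ∃! F : P → P, TypeII h0 b M F ∧ F 0 = p := by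
  obtain ⟨F, -, h1, h2⟩ := typeII_exists h0 b M hs hM p
  exact ⟨F, ⟨h2, h1⟩, fun G hG => typeII_unique hG.1 h2 (hG.2.trans h1.symm)⟩

theorem typeI_smooth {γ b : ℝ} {M : Measure ℝ} {F : P → P} (hF : TypeI γ b M F) :
    ContDiff ℝ ∞ F := by
  have := hF.fin
  obtain ⟨G, h1, h2, h3⟩ := typeI_exists γ b M hF.supp hF.nz (F 0)
  rwa [typeI_unique hF h3 h2.symm]

theorem typeII_smooth {h0 b : ℝ} {M : Measure ℝ} {F : P → P} (hF : TypeII h0 b M F) :
    ContDiff ℝ ∞ F := by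
  have := hF.fin
  obtain ⟨G, h1, h2, h3⟩ := typeII_exists h0 b M hF.supp hF.nz (F 0)
  rwa [typeII_unique hF h3 h2.symm]

end Pool.Agent.EU
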