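import Pool.Agent.EU.S2Sqrt

set_option autoImplicit false
open scoped ContDiff Topology ENNReal
open Real Set MeasureTheory Filter

namespace Pool.Agent.EU.S2

open Pool.Agent.EU

variable {A v : P → ℝ}

/-- `lin m E` composed with `ℂ ≃ P` as a continuous linear equivalence. -/
theorem exists_equiv {m : ℂ} {E : ℝ} (hm : m ≠ 0) (hE : E ≠ 0) :
    ∃ T : P ≃L[ℝ] P, (T : P →L[ℝ] P) =
      (Complex.equivRealProdCLM : ℂ →L[ℝ] P).comp (lin m E) := by
  have hinj : Function.Injective ((Complex.equivRealProdCLM : ℂ →L[ℝ] P).comp (lin m E)) := by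
    rw [injective_iff_map_eq_zero]
    intro y hy
    have h1 : Complex.equivRealProdCLM (lin m E y) = 0 := hy
    rw [map_eq_zero_iff _ Complex.equivRealProdCLM.injective] at h1
    exact lin_inj hm hE h1
  let T0 : P ≃ₗ[ℝ] P := LinearEquiv.ofInjectiveEndo
    ((Complex.equivRealProdCLM : ℂ →L[ℝ] P).comp (lin m E) : P →ₗ[ℝ] P) hinj
  refine ⟨T0.toContinuousLinearEquiv, ?_⟩
  refine ContinuousLinearMap.ext fun y => ?_
  rfl

theorem pair_eq_iff {x y : P} : pair A v x = pair A v y ↔ cpair A v x = cpair A v y := by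
  rw [cpair_eq]
  exact (Complex.equivRealProdCLM.symm.injective.eq_iff).symm

theorem d1_d1_cpair (hs : Sol A v) (x : P) :
    d1 (d1 (cpair A v)) x = ⟨d1 (d1 A) x, d1 (d1 v) x⟩ := by
  have h1 : d1 (cpair A v) = Complex.equivRealProdCLM.symm ∘ fun x => (d1 A x, d1 v x) := by
    funext x; exact d1_cpair hs x
  have hA : DifferentiableAt ℝ (d1 A) x := ((smooth_d1 hs.cA).differentiable (by simp)).differentiableAt
  have hv : DifferentiableAt ℝ (d1 v) x := ((smooth_d1 hs.cv).differentiable (by simp)).differentiableAt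
  rw [h1]
  show fderiv ℝ (Complex.equivRealProdCLM.symm ∘ fun x => (d1 A x, d1 v x)) x (1, 0) = _
  rw [Complex.equivRealProdCLM.symm.comp_fderiv]
  show Complex.equivRealProdCLM.symm (fderiv ℝ (fun x => (d1 A x, d1 v x)) x (1, 0)) = _
  rw [hA.fderiv_prodMk hv]
  rfl

/-- Local injectivity of `Φ` from a square root. -/
theorem injOn_of_sqrt {ζ : P → ℂ} (hζc : Continuous ζ) {z : ℂ}
    (hζ : ∀ x, ζ x ^ 2 = cpair A v x - z) (hinj : Function.Injective ζ) {x : P} (hx : ζ x ≠ 0) :
    ∃ r > 0, InjOn (pair A v) (Metric.ball x r) := by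
  have h1 : ∀ᶠ y in 𝓝 x, ‖ζ y - ζ x‖ < ‖ζ x‖ := by
    have : Filter.Tendsto (fun y => ‖ζ y - ζ x‖) (𝓝 x) (𝓝 ‖ζ x - ζ x‖) :=
      ((hζc.sub continuous_const).norm).tendsto x
    simp only [sub_self, norm_zero] at this
    exact this.eventually (gt_mem_nhds (norm_pos_iff.2 hx))
  obtain ⟨r, hr, h2⟩ := Metric.eventually_nhds_iff_ball.1 h1
  refine ⟨r, hr, fun y1 hy1 y2 hy2 he => ?_⟩
  have he' := pair_eq_iff.1 he
  have h3 : ζ y1 ^ 2 = ζ y2 ^ 2 := by rw [hζ, hζ, he']
  rcases sq_eq_sq_iff_eq_or_eq_neg.1 h3 with h | h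
  · exact hinj h
  · exfalso
    have e : (2 : ℂ) * ζ x = -((ζ y1 - ζ x) + (ζ y2 - ζ x)) := by rw [h]; ring
    have h4 : ‖(2 : ℂ) * ζ x‖ ≤ ‖ζ y1 - ζ x‖ + ‖ζ y2 - ζ x‖ := by
      rw [e, norm_neg]; exact norm_add_le _ _
    rw [norm_mul, Complex.norm_ofNat] at h4
    linarith [h2 y1 hy1, h2 y2 hy2]

theorem isConnected_compl (p : P) : IsConnected ({p}ᶜ : Set P) := by
  apply isConnected_compl_singleton_of_one_lt_rank
  have : (1 : ℕ) < Module.finrank ℝ P := by simp [P]
  exact_mod_cast Module.lt_rank_of_lt_finrank this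

theorem struct_two_of (hs : Sol A v) (ho : IsOpenMap (pair A v))
    (hp : Tendsto (pair A v) (cocompact P) (cocompact P))
    (h2 : ∀ z, {x | pair A v x = z}.encard ≤ 2)
    (h2' : ∀ᵐ z : P, {x | pair A v x = z}.encard = 2)
    (cap1 : ∀ (p : P) (r : ℝ), 0 < r → InjOn (pair A v) (Metric.ball p r) → jac A p ≠ 0)
    (cap2 : ∀ (p : P) (r : ℝ), 0 < r →
      (∀ z, {x | x ∈ Metric.ball p r ∧ pair A v x = z}.encard ≤ 2) → jac A p = 0 →
      ¬ (d1 (d1 A) p = 0 ∧ d1 (d1 v) p = 0)) :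
    ∃ (z1 : P) (F : P ≃ₜ P), (∀ q, A (F q) = z1.1 + q.1 ^ 2 - q.2 ^ 2) ∧
      (∀ q, v (F q) = z1.2 + 2 * q.1 * q.2) ∧ ContDiff ℝ 1 F ∧ ContDiff ℝ 1 F.symm ∧
      (∀ q, q ≠ 0 → ContDiffAt ℝ ∞ F q) := by
  have hcd : ContDiff ℝ ∞ (pair A v) := contDiff_pair hs
  have hc := hcd.continuous
  obtain ⟨hcl, hsurj⟩ := surj_of hc ho hp
  obtain ⟨τ, hτc, hτ1, hτ2, hττ⟩ := exists_involution hc ho hcl h2
  have hd : ∀ W : Set P, IsOpen W → W.Nonempty → ∃ z ∈ W, {x | pair A v x = z}.encard = 2 := by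
    intro W hW hne
    obtain ⟨z, hz1, hz2⟩ := (Measure.dense_of_ae h2').inter_open_nonempty W hW hne
    exact ⟨z, hz1, hz2⟩
  obtain ⟨p, hfix⟩ := exists_fixed hτc hττ
  have hpf : ∀ y, pair A v y = pair A v p → y = p := by
    intro y hy
    rcases hτ2 p y hy with h | h
    · exact h
    · rw [h, hfix]
  have hnot : ∀ U ∈ 𝓝 p, ¬ InjOn (pair A v) U := fun U hU => not_injOn_nhds hcl hd hpf hU
  have hjac : jac A p = 0 := by
    by_contra hne
    have hdet : (fderiv ℝ (pair A v) p).det ≠ 0 := by rw [det_eq_jac hs]; exact hne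
    obtain ⟨U, hU, hi⟩ := exists_injOn_nhds (hcd.of_le (by norm_cast)) hdet
    exact hnot U hU hi
  have hg0 : d1 (cpair A v) p = 0 := by
    by_contra hne
    exact (jac_ne_iff hs p).2 hne hjac
  have hc2 : d1 (d1 (cpair A v)) p ≠ 0 := by
    intro h0
    rw [d1_d1_cpair hs] at h0
    refine cap2 p 1 one_pos (fun z => ?_) hjac ⟨congrArg Complex.re h0, congrArg Complex.im h0⟩
    exact (Set.encard_le_encard (fun x hx => hx.2)).trans (h2 z)
  obtain ⟨ζ, m, hζ2, hζd, hmc, hmp, hmx, hζf⟩ := exists_sqrt hs hg0 hc2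
    (fun x hx => hpf x (pair_eq_iff.2 hx))
  have hζc : Continuous ζ := continuous_iff_continuousAt.2 fun x => (hζf x).continuousAt
  have hζ1 : ContDiff ℝ 1 ζ := by
    rw [contDiff_one_iff_fderiv]
    refine ⟨fun x => (hζf x).differentiableAt, ?_⟩
    have : fderiv ℝ ζ = fun x => lin (m x) (Real.exp (A x)) := funext fun x => (hζf x).fderiv
    rw [this]
    exact continuous_lin hmc (Real.continuous_exp.comp hs.cA.continuous)
  have hζ0 : ∀ x, ζ x = 0 ↔ x = p := by
    intro x
    constructor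
    · intro h
      have := hζ2 x
      rw [h] at this
      exact hpf x (pair_eq_iff.2 (sub_eq_zero.1 (by rw [← this]; ring)))
    · intro h
      have := hζ2 x
      rw [h, sub_self] at this
      rw [h]
      exact pow_eq_zero_iff (two_ne_zero) |>.1 this
  -- the map to the plane
  set Z : P → P := fun x => Complex.equivRealProdCLM (ζ x) with hZ
  have hZ1 : ContDiff ℝ 1 Z := Complex.equivRealProdCLM.contDiff.comp hζ1
  have hZf : ∀ x, HasFDerivAt Z
      ((Complex.equivRealProdCLM : ℂ →L[ℝ] P).comp (lin (m x) (Real.exp (A x)))) x := by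
    intro x
    exact (Complex.equivRealProdCLM.hasFDerivAt).comp x (hζf x)
  have hZs : ∀ x, HasStrictFDerivAt Z
      ((Complex.equivRealProdCLM : ℂ →L[ℝ] P).comp (lin (m x) (Real.exp (A x)))) x := by
    intro x
    have := hZ1.contDiffAt.hasStrictFDerivAt (x := x) (by norm_num)
    rwa [(hZf x).fderiv] at this
  -- local injectivity of `ζ` at `p`
  obtain ⟨U, hU, hUi⟩ : ∃ U ∈ 𝓝 p, InjOn ζ U := by
    obtain ⟨T, hT⟩ := exists_equiv hmp (Real.exp_ne_zero (A p))
    have hst : HasStrictFDerivAt Z (T : P →L[ℝ] P) p := by rw [hT]; exact hZs p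
    refine ⟨(hst.toOpenPartialHomeomorph Z).source,
      (hst.toOpenPartialHomeomorph Z).open_source.mem_nhds
        hst.mem_toOpenPartialHomeomorph_source, ?_⟩
    have := (hst.toOpenPartialHomeomorph Z).injOn
    rw [hst.toOpenPartialHomeomorph_coe] at this
    intro x hx y hy hxy
    exact this hx hy (by rw [hZ]; simp only [hxy])
  -- the sign
  have hsq : ∀ x, ζ (τ x) = ζ x ∨ ζ (τ x) = -ζ x := by
    intro x
    have : ζ (τ x) ^ 2 = ζ x ^ 2 := by rw [hζ2, hζ2, pair_eq_iff.1 (hτ1 x)]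
    exact sq_eq_sq_iff_eq_or_eq_neg.1 this
  have hsign : ∀ x, ζ (τ x) = -ζ x := by
    have hcp : IsClosed {x | ζ (τ x) = ζ x} := isClosed_eq (hζc.comp hτc) hζc
    have hcm : IsClosed {x | ζ (τ x) = -ζ x} := isClosed_eq (hζc.comp hτc) hζc.neg
    have hpre := isPreconnected_closed_iff.1 (isConnected_compl p).isPreconnected _ _ hcp hcm
      (fun x _ => hsq x)
    have hplus : ¬ (({p}ᶜ : Set P) ∩ {x | ζ (τ x) = -ζ x} = ∅) := by
      intro hem
      have hall : ∀ x, ζ (τ x) = ζ x := by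
        intro x
        by_cases hx : x = p
        · rw [hx, hfix]
        · rcases hsq x with h | h
          · exact h
          · exact absurd (show x ∈ ({p}ᶜ : Set P) ∩ {x | ζ (τ x) = -ζ x} from ⟨hx, h⟩)
              (by rw [hem]; simp)
      refine hnot U hU fun x hx y hy hxy => ?_
      rcases hτ2 x y hxy.symm with h | h
      · exact h.symm
      · refine hUi hx hy ?_
        rw [h, hall]
    have hminus : ({p}ᶜ : Set P) ∩ {x | ζ (τ x) = ζ x} = ∅ := by
      by_contra hne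
      obtain ⟨x, hx1, hx2, hx3⟩ := hpre (nonempty_iff_ne_empty.2 hne) (nonempty_iff_ne_empty.2 hplus)
      have h3 : ζ x = 0 := by
        have h4 : ζ x = -ζ x := hx2.symm.trans hx3
        linear_combination h4 / 2
      exact hx1 ((hζ0 x).1 h3)
    intro x
    by_cases hx : x = p
    · rw [hx, hfix, (hζ0 p).2 rfl, neg_zero]
    · rcases hsq x with h | h
      · exact absurd (show x ∈ ({p}ᶜ : Set P) ∩ {x | ζ (τ x) = ζ x} from ⟨hx, h⟩)
          (by rw [hminus]; simp)
      · exact h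
  have hinj : Function.Injective ζ := by
    intro x y hxy
    have h1 : pair A v y = pair A v x := by
      rw [pair_eq_iff]
      have h3 := hζ2 x
      have h4 := hζ2 y
      rw [hxy] at h3
      linear_combination h4.symm.trans h3 |>.symm |>.symm
    rcases hτ2 x y h1 with h | h
    · exact h.symm
    · rw [h, hsign] at hxy
      have h3 : ζ x = 0 := by linear_combination hxy / 2
      have h4 := (hζ0 x).1 h3
      rw [h, h4, hfix]
  have hsurjζ : Function.Surjective ζ := by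
    intro w
    obtain ⟨x, hx⟩ := hsurj (Complex.equivRealProdCLM (w ^ 2 + cpair A v p))
    have h1 : cpair A v x = w ^ 2 + cpair A v p := by
      have h0 : cpair A v x = Complex.equivRealProdCLM.symm (pair A v x) := rfl
      rw [h0, hx]
      exact ContinuousLinearEquiv.symm_apply_apply _ _
    have h3 : ζ x ^ 2 = w ^ 2 := by rw [hζ2, h1]; ring
    rcases sq_eq_sq_iff_eq_or_eq_neg.1 h3 with h | h
    · exact ⟨x, h⟩
    · exact ⟨τ x, by rw [hsign, h, neg_neg]⟩
  have hm0 : ∀ x, m x ≠ 0 := by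
    intro x
    by_cases hx : x = p
    · rw [hx]; exact hmp
    · have hζx : ζ x ≠ 0 := fun h => hx ((hζ0 x).1 h)
      obtain ⟨r, hr, hi⟩ := injOn_of_sqrt hζc hζ2 hinj hζx
      rw [hmx x hx]
      exact div_ne_zero ((jac_ne_iff hs x).1 (cap1 x r hr hi)) (mul_ne_zero two_ne_zero hζx)
  have hbij : Function.Bijective Z :=
    Complex.equivRealProdCLM.bijective.comp ⟨hinj, hsurjζ⟩
  choose T hT using fun x => exists_equiv (hm0 x) (Real.exp_ne_zero (A x))
  have hZT : ∀ x, HasStrictFDerivAt Z (T x : P →L[ℝ] P) x := fun x => by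
    rw [hT]; exact hZs x
  have hopen : IsOpenMap Z := isOpenMap_of_hasStrictFDerivAt_equiv hZT
  let G : P ≃ₜ P := (Equiv.ofBijective Z hbij).toHomeomorphOfContinuousOpen hZ1.continuous hopen
  have hGZ : ∀ x, G x = Z x := fun x => rfl
  have hGZ' : (G : P → P) = Z := rfl
  have hGs : ∀ q, ζ (G.symm q) = Complex.equivRealProdCLM.symm q := by
    intro q
    have h1 : Complex.equivRealProdCLM (ζ (G.symm q)) = q := G.apply_symm_apply q
    rw [eq_comm, ContinuousLinearEquiv.symm_apply_eq]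
    exact h1.symm
  have hval : ∀ q : P, cpair A v (G.symm q) = cpair A v p + (Complex.equivRealProdCLM.symm q) ^ 2 := by
    intro q
    rw [← hGs q, hζ2]; ring
  refine ⟨pair A v p, G.symm, ?_, ?_, ?_, ?_, ?_⟩
  · intro q
    have h1 := congrArg Complex.re (hval q)
    simp [cpair, sq] at h1
    rw [h1, pair]; ring
  · intro q
    have h1 := congrArg Complex.im (hval q)
    simp [cpair, sq] at h1
    rw [h1, pair]; ring
  · exact G.contDiff_symm (f₀' := T) (fun x => (hZT x).hasFDerivAt) hZ1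
  · exact hZ1
  · intro q hq
    have hne : G.symm q ≠ p := by
      intro h
      have h1 := hGs q
      rw [h, (hζ0 p).2 rfl] at h1
      apply hq
      have h3 := congrArg Complex.equivRealProdCLM h1
      simp only [ContinuousLinearEquiv.apply_symm_apply, map_zero] at h3
      exact h3.symm
    refine G.toOpenPartialHomeomorph.contDiffAt_symm (f₀' := T (G.symm q)) (mem_univ q)
      (hZT (G.symm q)).hasFDerivAt ?_
    exact (Complex.equivRealProdCLM.contDiff.contDiffAt).comp _ (hζd _ hne)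

theorem struct_one_of (hs : Sol A v) (ho : IsOpenMap (pair A v))
    (hp : Tendsto (pair A v) (cocompact P) (cocompact P))
    (h1 : ∀ z, {x | pair A v x = z}.encard ≤ 1)
    (cap1 : ∀ (p : P) (r : ℝ), 0 < r → InjOn (pair A v) (Metric.ball p r) → jac A p ≠ 0) :
    ∃ F : P ≃ₜ P, (∀ q, pair A v (F q) = q) ∧ ContDiff ℝ ∞ F := by
  have hcd : ContDiff ℝ ∞ (pair A v) := contDiff_pair hs
  have hc := hcd.continuous
  obtain ⟨hcl, hsurj⟩ := surj_of hc ho hp
  have hinj : Function.Injective (pair A v) := by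
    intro x y hxy
    exact (Set.encard_le_one_iff.1 (h1 (pair A v y))) x y hxy rfl
  let G : P ≃ₜ P := (Equiv.ofBijective _ ⟨hinj, hsurj⟩).toHomeomorphOfContinuousOpen hc ho
  refine ⟨G.symm, fun q => G.apply_symm_apply q, ?_⟩
  have hdet : ∀ x, (fderiv ℝ (pair A v) x).det ≠ 0 := fun x => by
    rw [det_eq_jac hs]; exact cap1 x 1 one_pos hinj.injOn
  refine G.contDiff_symm
    (f₀' := fun x => (fderiv ℝ (pair A v) x).toContinuousLinearEquivOfDetNeZero (hdet x))
    (fun x => ?_) hcd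
  rw [ContinuousLinearMap.coe_toContinuousLinearEquivOfDetNeZero]
  exact (hcd.differentiable (by simp)).differentiableAt.hasFDerivAt

end Pool.Agent.EU.S2
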