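import Pool.Agent.EU.Cap
import Pool.Agent.EU.S2
import Pool.Agent.EU.C012
import Pool.Agent.EU.C345

set_option autoImplicit false
open scoped ContDiff Topology
open Real Set MeasureTheory Filter

namespace Pool.Agent.EU

theorem struct_two {A v : P → ℝ} (hs : Sol A v) (ho : IsOpenMap (pair A v))
    (hp : Tendsto (pair A v) (cocompact P) (cocompact P))
    (h2 : ∀ z, {x | pair A v x = z}.encard ≤ 2)
    (h2' : ∀ᵐ z : P, {x | pair A v x = z}.encard = 2) :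
    ∃ (z1 : P) (F : P ≃ₜ P), (∀ q, A (F q) = z1.1 + q.1 ^ 2 - q.2 ^ 2) ∧
      (∀ q, v (F q) = z1.2 + 2 * q.1 * q.2) ∧ ContDiff ℝ 1 F ∧ ContDiff ℝ 1 F.symm ∧
      (∀ q, q ≠ 0 → ContDiffAt ℝ ∞ F q) :=
  S2.struct_two_of hs ho hp h2 h2' (fun _ _ hr hi => jac_ne_zero_of_inj hs hr hi)
    (fun _ _ hr hi hj => second_ne_zero hs hr hi hj)

theorem struct_one {A v : P → ℝ} (hs : Sol A v) (ho : IsOpenMap (pair A v))
    (hp : Tendsto (pair A v) (cocompact P) (cocompact P))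
    (h1 : ∀ z, {x | pair A v x = z}.encard ≤ 1) :
    ∃ F : P ≃ₜ P, (∀ q, pair A v (F q) = q) ∧ ContDiff ℝ ∞ F :=
  S2.struct_one_of hs ho hp h1 (fun _ _ hr hi => jac_ne_zero_of_inj hs hr hi)

/-- From a surjective `TypeI` map to a solution. -/
theorem u_of_typeI {γ b : ℝ} {M : Measure ℝ} {F : P → P} (hF : TypeI γ b M F)
    (hsurj : Function.Surjective F) :
    Function.Injective F ∧ ∃ u : P → ℝ, ContDiff ℝ 3 u ∧ ∀ q : P, d1 (d1 u) (F q) = Real.exp (-q.1) ∧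
      d2 (d1 u) (F q) = q.2 ∧ d2 (d2 u) (F q) = Real.exp q.1 :=
  haveI := hF.fin
  C3.u_of_typeI_aux hF hsurj (W1_smooth M hF.supp).continuous (K1_smooth γ b M hF.supp).continuous

theorem u_of_typeII {h0 v0 b : ℝ} {M : Measure ℝ} {F : P → P} (hF : TypeII h0 b M F)
    (hsurj : Function.Surjective F) :
    Function.Injective F ∧ ∃ u : P → ℝ, ContDiff ℝ 3 u ∧ ∀ q : P,
      d1 (d1 u) (F q) = Real.exp (-(h0 + q.1 ^ 2 - q.2 ^ 2)) ∧
      d2 (d1 u) (F q) = v0 + 2 * q.1 * q.2 ∧ d2 (d2 u) (F q) = Real.exp (h0 + q.1 ^ 2 - q.2 ^ 2) :=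
  haveI := hF.fin
  C3.u_of_typeII_aux hF hsurj (Th_facts.1.continuous) (Th_facts.2.2.1)
    (W2_smooth M hF.supp).continuous (K2_smooth b M hF.supp).continuous

end Pool.Agent.EU
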