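import Pool.Agent.EU.HillsEnergy

set_option autoImplicit false
open scoped ContDiff Topology
open Real Set MeasureTheory Filter

namespace Pool.Agent.EU

/-! ### Symmetries of the system -/

/-- reflection in the first coordinate, as a continuous linear map -/
noncomputable def reflL : P →L[ℝ] P :=
  (-(ContinuousLinearMap.fst ℝ ℝ ℝ)).prod (ContinuousLinearMap.snd ℝ ℝ ℝ)

theorem reflL_apply (x : P) : reflL x = (-x.1, x.2) := rfl

/-- exchange of the coordinates, as a continuous linear map -/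
noncomputable def swapL : P →L[ℝ] P :=
  (ContinuousLinearMap.snd ℝ ℝ ℝ).prod (ContinuousLinearMap.fst ℝ ℝ ℝ)

theorem swapL_apply (x : P) : swapL x = (x.2, x.1) := rfl

theorem d1_comp_reflL {f : P → ℝ} (hf : Differentiable ℝ f) (x : P) :
    d1 (fun x => f (reflL x)) x = -(d1 f (reflL x)) := by
  have h : HasFDerivAt (fun x => f (reflL x)) ((fderiv ℝ f (reflL x)).comp reflL) x :=
    (hf _).hasFDerivAt.comp x reflL.hasFDerivAt
  unfold d1
  rw [h.fderiv]
  simp only [ContinuousLinearMap.comp_apply, reflL_apply]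
  have : ((-(1:ℝ), (0:ℝ)) : P) = -((1:ℝ), (0:ℝ)) := by ext <;> simp
  rw [this, map_neg]

theorem d2_comp_reflL {f : P → ℝ} (hf : Differentiable ℝ f) (x : P) :
    d2 (fun x => f (reflL x)) x = d2 f (reflL x) := by
  have h : HasFDerivAt (fun x => f (reflL x)) ((fderiv ℝ f (reflL x)).comp reflL) x :=
    (hf _).hasFDerivAt.comp x reflL.hasFDerivAt
  unfold d2
  rw [h.fderiv]
  simp only [ContinuousLinearMap.comp_apply, reflL_apply]
  have : ((-(0:ℝ), (1:ℝ)) : P) = ((0:ℝ), (1:ℝ)) := by ext <;> simp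
  rw [this]

theorem d1_comp_swapL {f : P → ℝ} (hf : Differentiable ℝ f) (x : P) :
    d1 (fun x => f (swapL x)) x = d2 f (swapL x) := by
  have h : HasFDerivAt (fun x => f (swapL x)) ((fderiv ℝ f (swapL x)).comp swapL) x :=
    (hf _).hasFDerivAt.comp x swapL.hasFDerivAt
  unfold d1 d2
  rw [h.fderiv]
  rfl

theorem d2_comp_swapL {f : P → ℝ} (hf : Differentiable ℝ f) (x : P) :
    d2 (fun x => f (swapL x)) x = d1 f (swapL x) := by
  have h : HasFDerivAt (fun x => f (swapL x)) ((fderiv ℝ f (swapL x)).comp swapL) x :=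
    (hf _).hasFDerivAt.comp x swapL.hasFDerivAt
  unfold d1 d2
  rw [h.fderiv]
  rfl

theorem d1_neg (f : P → ℝ) (x : P) : d1 (fun x => -(f x)) x = -(d1 f x) := by
  unfold d1
  rw [show (fun x => -(f x)) = -f from rfl, fderiv_neg]; rfl

theorem d2_neg (f : P → ℝ) (x : P) : d2 (fun x => -(f x)) x = -(d2 f x) := by
  unfold d2
  rw [show (fun x => -(f x)) = -f from rfl, fderiv_neg]; rfl

theorem Sol.reflect {A v : P → ℝ} (hs : Sol A v) :
    Sol (fun x => A (reflL x)) (fun x => -(v (reflL x))) := by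
  have hA := hs.cA.differentiable (by simp)
  have hv := hs.cv.differentiable (by simp)
  refine ⟨hs.cA.comp reflL.contDiff, (hs.cv.comp reflL.contDiff).neg, ?_, ?_⟩
  · intro x
    rw [d1_neg, d1_comp_reflL hv, d2_comp_reflL hA, hs.h1]; ring
  · intro x
    rw [d2_neg, d2_comp_reflL hv, d1_comp_reflL hA, hs.h2]; ring

theorem Sol.swap {A v : P → ℝ} (hs : Sol A v) :
    Sol (fun x => -(A (swapL x))) (fun x => v (swapL x)) := by
  have hA := hs.cA.differentiable (by simp)
  have hv := hs.cv.differentiable (by simp)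
  refine ⟨(hs.cA.comp swapL.contDiff).neg, hs.cv.comp swapL.contDiff, ?_, ?_⟩
  · intro x
    rw [d2_neg, d1_comp_swapL hv, d2_comp_swapL hA, hs.h2, neg_neg]; ring
  · intro x
    rw [d1_neg, d2_comp_swapL hv, d1_comp_swapL hA, hs.h1]; ring

/-! ### Components and joinedness -/

theorem joined_of_mem_comp {F : Set P} (hF : IsOpen F) {x y : P} (hx : x ∈ F)
    (hy : y ∈ connectedComponentIn F x) : JoinedIn F x y := by
  have hC : IsConnected (connectedComponentIn F x) :=
    ⟨⟨_, mem_connectedComponentIn hx⟩, isPreconnected_connectedComponentIn⟩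
  have hP := hF.connectedComponentIn.isConnected_iff_isPathConnected.1 hC
  exact (hP.joinedIn _ (mem_connectedComponentIn hx) _ hy).mono (connectedComponentIn_subset _ _)

theorem mem_comp_of_joined {F : Set P} {x y : P} (h : JoinedIn F x y) :
    y ∈ connectedComponentIn F x := by
  obtain ⟨γ, hγ⟩ := h
  have h1 : IsPreconnected (range γ) := isPreconnected_range γ.continuous
  have h2 : range γ ⊆ F := by rintro _ ⟨t, rfl⟩; exact hγ t
  exact (h1.subset_connectedComponentIn ⟨0, γ.source⟩ h2) ⟨1, γ.target⟩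

/-- the region `{E > m}` inside a rectangle around `x0` -/
def hillRect (A : P → ℝ) (m K T : ℝ) (x0 : P) : Set P :=
  {y : P | m < Real.exp (A y)} ∩ {y : P | |y.1 - x0.1| < K ∧ |y.2 - x0.2| < T}

theorem isOpen_hillRect {A : P → ℝ} (hA : Continuous A) (m K T : ℝ) (x0 : P) :
    IsOpen (hillRect A m K T x0) := by
  have h0 : Continuous fun y : P => Real.exp (A y) := by fun_prop
  have h1 : Continuous fun y : P => |y.1 - x0.1| := by fun_prop
  have h2 : Continuous fun y : P => |y.2 - x0.2| := by fun_prop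
  have e0 : IsOpen {y : P | m < Real.exp (A y)} := isOpen_lt continuous_const h0
  have e1 : IsOpen {y : P | |y.1 - x0.1| < K} := isOpen_lt h1 continuous_const
  have e2 : IsOpen {y : P | |y.2 - x0.2| < T} := isOpen_lt h2 continuous_const
  exact e0.inter (e1.inter e2)

/-- the cutoff profile -/
noncomputable def rho0 (t : ℝ) : ℝ :=
  Real.smoothTransition ((t - 0.17) / 0.08) * Real.smoothTransition ((0.7 - t) / 0.2)

theorem rho0_smooth : ContDiff ℝ ∞ rho0 := by
  unfold rho0
  exact (Real.smoothTransition.contDiff.comp (by fun_prop)).mul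
    (Real.smoothTransition.contDiff.comp (by fun_prop))

theorem rho0_one {t : ℝ} (h1 : 1 / 4 ≤ t) (h2 : t ≤ 1 / 2) : rho0 t = 1 := by
  unfold rho0
  rw [Real.smoothTransition.one_of_one_le, Real.smoothTransition.one_of_one_le, mul_one]
  · rw [le_div_iff₀ (by norm_num)]; linarith
  · rw [le_div_iff₀ (by norm_num)]; linarith

theorem rho0_zero {t : ℝ} (h : t ≤ 0.17 ∨ 0.7 ≤ t) : rho0 t = 0 := by
  unfold rho0
  rcases h with h | h
  · rw [Real.smoothTransition.zero_of_nonpos, zero_mul]
    exact div_nonpos_of_nonpos_of_nonneg (by linarith) (by norm_num)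
  · rw [Real.smoothTransition.zero_of_nonpos (x := (0.7 - t) / 0.2), mul_zero]
    exact div_nonpos_of_nonpos_of_nonneg (by linarith) (by norm_num)

/-- The Dirichlet energy of the profile. -/
noncomputable def Crho : ℝ := ∫ t in Icc (1/8 : ℝ) (3/4), (deriv rho0 t) ^ 2

theorem Crho_nonneg : 0 ≤ Crho := integral_nonneg fun _ => sq_nonneg _

theorem energy_scaled {K : ℝ} (hK : 0 < K) :
    ∫ t in Icc (K / 8) (3 * K / 4), (deriv (fun t => rho0 (t / K)) t) ^ 2 = Crho / K := by
  have hd : ∀ t, deriv (fun t => rho0 (t / K)) t = deriv rho0 (t / K) / K := by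
    intro t
    have h1 : HasDerivAt rho0 (deriv rho0 (t / K)) (t / K) :=
      (rho0_smooth.differentiable (by simp) _).hasDerivAt
    have h2 : HasDerivAt (fun t : ℝ => t / K) (1 / K) t := (hasDerivAt_id t).div_const K
    have h3 : HasDerivAt (fun t => rho0 (t / K)) (deriv rho0 (t / K) * (1 / K)) t :=
      HasDerivAt.comp (h₂ := rho0) t h1 h2
    rw [h3.deriv]; ring
  rw [integral_Icc_eq_integral_Ioc, ← intervalIntegral.integral_of_le (by linarith)]
  have h3 : ∫ t in (K/8)..(3*K/4), (deriv (fun t => rho0 (t / K)) t) ^ 2 =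
      ∫ t in (K/8)..(3*K/4), (deriv rho0 (t / K)) ^ 2 / K ^ 2 := by
    refine intervalIntegral.integral_congr fun t _ => ?_
    simp only [hd t]; ring
  rw [h3, intervalIntegral.integral_div,
    intervalIntegral.integral_comp_div (fun t => (deriv rho0 t) ^ 2) hK.ne', smul_eq_mul,
    show K / 8 / K = 1 / 8 by field_simp, show 3 * K / 4 / K = 3 / 4 by field_simp, Crho,
    integral_Icc_eq_integral_Ioc, ← intervalIntegral.integral_of_le (by norm_num)]
  field_simp

/-- The critical height. -/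
noncomputable def mcrit (a : ℝ) : ℝ := Real.exp (a + 1) + 1 + 2880 * Real.exp (a + 1) ^ 2 * Crho

theorem mcrit_pos (a : ℝ) : 0 < mcrit a := by
  have := Crho_nonneg
  unfold mcrit; positivity

/-- Two different hills cannot both go to the right at arbitrarily large scales. -/
theorem no_two_right {A v : P → ℝ} (hs : Sol A v) {a : ℝ} {x1 x2 : P}
    (hx1 : a < A x1) (hx2 : a < A x2)
    (hnj : ¬ JoinedIn {y | a < A y} x1 x2)
    (hfr : ∃ᶠ n : ℕ in atTop,
      (∃ y, JoinedIn (hillRect A (mcrit a) n (3 * n / (2 * mcrit a)) x1) x1 y ∧ 7 * n / 8 < y.1 - x1.1) ∧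
      (∃ y, JoinedIn (hillRect A (mcrit a) n (3 * n / (2 * mcrit a)) x2) x2 y ∧ 7 * n / 8 < y.1 - x2.1)) :
    False := by
  set m := mcrit a with hm
  have hm0 : 0 < m := mcrit_pos a
  have hAc : Continuous A := hs.cA.continuous
  have hOpen : IsOpen {y | a < A y} := isOpen_lt continuous_const hAc
  have hdisj : Disjoint (connectedComponentIn {y | a < A y} x1)
      (connectedComponentIn {y | a < A y} x2) := by
    rw [Set.disjoint_left]
    intro z hz1 hz2
    apply hnj
    apply joined_of_mem_comp hOpen hx1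
    rw [connectedComponentIn_eq hz1, ← connectedComponentIn_eq hz2]
    exact mem_connectedComponentIn hx2
  -- choose a large n
  have hlarge : ∀ᶠ n : ℕ in atTop, (|x1.1| ≤ n / 8 ∧ |x2.1| ≤ n / 8) ∧
      (|x1.2| ≤ 3 * n / (2 * m) ∧ |x2.2| ≤ 3 * n / (2 * m)) ∧ (1:ℝ) ≤ n := by
    have h1 : ∀ C c : ℝ, 0 < c → ∀ᶠ n : ℕ in atTop, C ≤ c * n := by
      intro C c hc
      have : Tendsto (fun n : ℕ => c * (n:ℝ)) atTop atTop :=
        tendsto_natCast_atTop_atTop.const_mul_atTop hc
      exact this.eventually_ge_atTop C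
    filter_upwards [h1 |x1.1| (1/8) (by norm_num), h1 |x2.1| (1/8) (by norm_num),
      h1 |x1.2| (3 / (2 * m)) (by positivity), h1 |x2.2| (3 / (2 * m)) (by positivity),
      h1 1 1 one_pos] with n ha hb hc hd he
    refine ⟨⟨by linarith, by linarith⟩, ⟨?_, ?_⟩, by linarith⟩
    · calc |x1.2| ≤ _ := hc
        _ = _ := by ring
    · calc |x2.2| ≤ _ := hd
        _ = _ := by ring
  obtain ⟨n, ⟨⟨y1, hj1, hy1⟩, ⟨y2, hj2, hy2⟩⟩, ⟨hA1, hA2⟩, ⟨hB1, hB2⟩, hn1⟩ := (hfr.and_eventually hlarge).exists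
  set K : ℝ := (n : ℝ) with hK
  have hK0 : 0 < K := by linarith
  set h : ℝ := 3 * K / m with hh
  have hh0 : 0 < h := by positivity
  -- crossing pieces
  have hpiece : ∀ x y : P, |x.1| ≤ K / 8 → |x.2| ≤ 3 * K / (2 * m) →
      JoinedIn (hillRect A m K (3 * K / (2 * m)) x) x y → 7 * K / 8 < y.1 - x.1 →
      ∃ α : ℝ → P, ContinuousOn α (Icc 0 1) ∧ (α 0).1 = K / 8 ∧ (α 1).1 = 3 * K / 4 ∧
        (∀ s ∈ Icc (0:ℝ) 1, K / 8 ≤ (α s).1 ∧ (α s).1 ≤ 3 * K / 4 ∧ |(α s).2| < h) ∧
        (∀ s ∈ Icc (0:ℝ) 1, a + 1 ≤ A (α s)) ∧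
        α '' Icc 0 1 ⊆ connectedComponentIn {y | a < A y} x := by
    intro x y hx1 hx2 hj hy
    obtain ⟨γ, hγ⟩ := hj
    have hext : ∀ s ∈ Icc (0:ℝ) 1, γ.extend s ∈ hillRect A m K (3 * K / (2 * m)) x := by
      intro s hs
      rw [γ.extend_apply hs]; exact hγ _
    have hx1' := abs_le.1 hx1
    obtain ⟨α, hαc, hα0, hα1, hαr, hαsub⟩ := crossing_piece (l := K / 8) (r := 3 * K / 4) (by linarith)
      (γ := fun s => γ.extend s) γ.continuous_extend.continuousOn
      (by simp only [Path.extend_zero]; linarith [hx1'.2])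
      (by simp only [Path.extend_one]; linarith [hx1'.1])
    have hmem : ∀ s ∈ Icc (0:ℝ) 1, α s ∈ hillRect A m K (3 * K / (2 * m)) x := by
      intro s hs
      obtain ⟨u, hu, hus⟩ := hαsub ⟨s, hs, rfl⟩
      rw [← hus]; exact hext u hu
    have hexpm : ∀ z : P, m < Real.exp (A z) → a + 1 ≤ A z := by
      intro z hz
      have h1 : Real.exp (a + 1) < Real.exp (A z) := by
        refine lt_of_le_of_lt ?_ hz
        rw [hm]; unfold mcrit
        have := Crho_nonneg
        have : 0 ≤ 1 + 2880 * Real.exp (a + 1) ^ 2 * Crho := by positivity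
        linarith
      exact (Real.exp_lt_exp.1 h1).le
    refine ⟨α, hαc, hα0, hα1, ?_, ?_, ?_⟩
    · intro s hs
      refine ⟨(hαr s hs).1, (hαr s hs).2, ?_⟩
      have h1 := (hmem s hs).2.2
      have h2 : |(α s).2| ≤ |(α s).2 - x.2| + |x.2| := by
        have := abs_add_le ((α s).2 - x.2) x.2
        simpa using this
      have h3 : h = 3 * K / (2 * m) + 3 * K / (2 * m) := by rw [hh]; field_simp; norm_num
      linarith
    · intro s hs
      exact hexpm _ (hmem s hs).1
    · refine hαsub.trans ?_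
      have hpre : IsPreconnected ((fun s => γ.extend s) '' Icc 0 1) :=
        isPreconnected_Icc.image _ γ.continuous_extend.continuousOn
      refine hpre.subset_connectedComponentIn ⟨0, by simp, by simp⟩ ?_
      rintro _ ⟨s, hs, rfl⟩
      have := hexpm _ (hext s hs).1
      show a < A _
      linarith
  obtain ⟨α, hαc, hα0, hα1, hαr, hαb, hαV⟩ := hpiece x1 y1 hA1 hB1 hj1 hy1
  obtain ⟨β, hβc, hβ0, hβ1, hβr, hβb, hβV⟩ := hpiece x2 y2 hA2 hB2 hj2 hy2
  have hmain := hills_strip hs (a := a) (l := K / 8) (r := 3 * K / 4) (h := h) (l' := K / 4)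
    (r' := K / 2) hh0 (by linarith) (by linarith) (by linarith) hαc hβc hαr hβr hα0 hα1 hβ0 hβ1
    hαb hβb hαV hβV hdisj (η := fun t => rho0 (t / K))
    ((rho0_smooth.comp (by fun_prop)).of_le (by exact_mod_cast le_top)) ?_ ?_
  · rw [energy_scaled hK0] at hmain
    have hC := Crho_nonneg
    -- numerical contradiction
    have e1 : (K / 2 - K / 4) * (Real.exp (-(a + 1)) / (8 * h)) = Real.exp (-(a + 1)) * m / 96 := by
      rw [hh]; field_simp; norm_num
    have e2 : 10 * Real.exp (a + 1) * h * (Crho / K) = 30 * Real.exp (a + 1) * Crho / m := by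
      rw [hh]; field_simp; ring
    rw [e1, e2, Real.exp_neg] at hmain
    set e := Real.exp (a + 1) with he
    have he0 : 0 < e := Real.exp_pos _
    have h1 : m ^ 2 ≤ 2880 * e ^ 2 * Crho := by
      have h2 : e⁻¹ * m / 96 * (96 * e * m) ≤ 30 * e * Crho / m * (96 * e * m) := by gcongr
      have h3 : e⁻¹ * m / 96 * (96 * e * m) = m ^ 2 := by field_simp
      have h4 : 30 * e * Crho / m * (96 * e * m) = 2880 * e ^ 2 * Crho := by field_simp; ring
      linarith
    have h5 : m = e + 1 + 2880 * e ^ 2 * Crho := by rw [hm]; rfl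
    have h6 : 1 ≤ m := by
      rw [h5]
      have : 0 ≤ 2880 * e ^ 2 * Crho := by positivity
      linarith
    have h7 : m ≤ m ^ 2 := by nlinarith
    linarith
  · intro t ht
    apply rho0_zero
    rcases ht with ht | ht
    · left
      rw [div_le_iff₀ hK0]; linarith
    · right
      rw [le_div_iff₀ hK0]; linarith
  · intro t ht
    apply rho0_one
    · rw [le_div_iff₀ hK0]; linarith [ht.1]
    · rw [div_le_iff₀ hK0]; linarith [ht.2]

theorem joinedIn_reflL {F : Set P} {x y : P} (h : JoinedIn F x y) :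
    JoinedIn {z | reflL z ∈ F} (reflL x) (reflL y) := by
  obtain ⟨γ, hγ⟩ := h
  have hinv : ∀ z, reflL (reflL z) = z := fun z => by simp [reflL_apply]
  refine ⟨⟨⟨fun u => reflL (γ u), reflL.continuous.comp γ.continuous⟩, ?_, ?_⟩, ?_⟩
  · show reflL (γ 0) = _
    rw [γ.source]
  · show reflL (γ 1) = _
    rw [γ.target]
  · intro u
    show reflL (reflL (γ u)) ∈ F
    rw [hinv]; exact hγ u

/-- The hills lemma. -/
theorem hills {A v : P → ℝ} (hs : Sol A v) (a : ℝ) (x : Fin 3 → P) (hx : ∀ i, a < A (x i)) :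
    ∃ i j, i ≠ j ∧ x j ∈ connectedComponentIn {y | a < A y} (x i) := by
  have hAc : Continuous A := hs.cA.continuous
  have hOpen : IsOpen {y | a < A y} := isOpen_lt continuous_const hAc
  by_cases hne : ∃ x y, A x ≠ A y
  swap
  · push Not at hne
    have huniv : {y | a < A y} = univ := by
      refine eq_univ_of_forall fun y => ?_
      show a < A y
      rw [hne y (x 0)]; exact hx 0
    refine ⟨0, 1, by decide, ?_⟩
    rw [huniv]
    exact mem_comp_of_joined ((pathConnectedSpace_iff_univ.1 inferInstance).joinedIn _ (mem_univ _) _ (mem_univ _))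
  by_contra hcon
  push Not at hcon
  set m := mcrit a with hm
  have hm0 : 0 < m := mcrit_pos a
  -- high points in the components
  have hhigh : ∀ i, ∃ y, JoinedIn {y | a < A y} (x i) y ∧ 2 * m < Real.exp (A y) := by
    intro i
    obtain ⟨y, hy, hyA⟩ := comp_unbdd hs hne (hx i) (Real.log (2 * m))
    refine ⟨y, joined_of_mem_comp hOpen (hx i) hy, ?_⟩
    calc 2 * m = Real.exp (Real.log (2 * m)) := (Real.exp_log (by positivity)).symm
      _ < _ := Real.exp_lt_exp.2 hyA
  choose w hwj hwm using hhigh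
  have hwa : ∀ i, a < A (w i) := fun i => (hwj i).target_mem
  have hwn : ∀ i j, i ≠ j → ¬ JoinedIn {y | a < A y} (w i) (w j) := by
    intro i j hij hJ
    exact hcon i j hij (mem_comp_of_joined (((hwj i).trans hJ).trans (hwj j).symm))
  set R : Fin 3 → ℕ → Prop := fun i n => ∃ y, JoinedIn (hillRect A m n (3 * n / (2 * m)) (w i)) (w i) y ∧
    7 * n / 8 < y.1 - (w i).1 with hR
  set L : Fin 3 → ℕ → Prop := fun i n => ∃ y, JoinedIn (hillRect A m n (3 * n / (2 * m)) (w i)) (w i) y ∧
    7 * n / 8 < (w i).1 - y.1 with hL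
  have hRL : ∀ i (n : ℕ), 0 < n → R i n ∨ L i n := by
    intro i n hn
    have hn' : (0:ℝ) < n := by exact_mod_cast hn
    have hmax : max m (3 * (n:ℝ) / (2 * (3 * n / (2 * m)))) = m := by
      have : 3 * (n:ℝ) / (2 * (3 * n / (2 * m))) = m := by field_simp
      rw [this, max_self]
    obtain ⟨y, hy, hyK⟩ := barrier hs (x0 := w i) (m := m) (K := n) (T := 3 * n / (2 * m)) hm0 hn'
      (by positivity) (by rw [hmax]; exact hwm i) (K' := 7 * n / 8) (by linarith)
    have hmem : w i ∈ hillRect A m n (3 * n / (2 * m)) (w i) := by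
      refine ⟨?_, ?_, ?_⟩
      · show m < Real.exp (A (w i))
        linarith [hwm i]
      · simpa using hn'
      · simp only [sub_self, abs_zero]; positivity
    have hj := joined_of_mem_comp (isOpen_hillRect hAc m n (3 * n / (2 * m)) (w i)) hmem hy
    rcases lt_abs.1 hyK with h | h
    · exact Or.inl ⟨y, hj, h⟩
    · exact Or.inr ⟨y, hj, by linarith⟩
  have hRR : ∀ i j, i ≠ j → ∀ᶠ n in atTop, ¬ (R i n ∧ R j n) := by
    intro i j hij
    by_contra hc
    exact no_two_right hs (hwa i) (hwa j) (hwn i j hij) hc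
  have hLL : ∀ i j, i ≠ j → ∀ᶠ n in atTop, ¬ (L i n ∧ L j n) := by
    intro i j hij
    by_contra hc
    have hinv : ∀ z, reflL (reflL z) = z := fun z => by simp [reflL_apply]
    refine no_two_right hs.reflect (a := a) (x1 := reflL (w i)) (x2 := reflL (w j)) ?_ ?_ ?_ ?_
    · show a < A (reflL (reflL (w i)))
      rw [hinv]; exact hwa i
    · show a < A (reflL (reflL (w j)))
      rw [hinv]; exact hwa j
    · intro hJ
      have := joinedIn_reflL hJ
      rw [hinv, hinv] at this
      refine hwn i j hij (this.mono ?_)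
      intro z hz
      simpa [hinv] using hz
    · have hconv : ∀ k (n : ℕ), L k n → ∃ y, JoinedIn (hillRect (fun x => A (reflL x)) (mcrit a) n
          (3 * n / (2 * mcrit a)) (reflL (w k))) (reflL (w k)) y ∧ 7 * n / 8 < y.1 - (reflL (w k)).1 := by
        rintro k n ⟨y, hj, hy⟩
        refine ⟨reflL y, ?_, ?_⟩
        · refine (joinedIn_reflL hj).mono ?_
          rintro z ⟨hz1, hz2, hz3⟩
          refine ⟨hz1, ?_, ?_⟩
          · rw [reflL_apply] at hz2 ⊢
            simp only at hz2 ⊢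
            rw [← abs_neg]
            convert hz2 using 2
            ring
          · exact hz3
        · rw [reflL_apply, reflL_apply]
          simp only
          linarith
      exact Filter.Frequently.mono hc fun n hn => ⟨hconv i n hn.1, hconv j n hn.2⟩
  have hev := (((hRR 0 1 (by decide)).and (hRR 0 2 (by decide))).and (hRR 1 2 (by decide))).and
    (((hLL 0 1 (by decide)).and (hLL 0 2 (by decide))).and (hLL 1 2 (by decide)))
  obtain ⟨n, ⟨⟨⟨r01, r02⟩, r12⟩, ⟨⟨l01, l02⟩, l12⟩⟩, hn0⟩ := (hev.and (eventually_gt_atTop 0)).exists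
  clear_value R L
  rcases hRL 0 n hn0 with a0 | a0 <;> rcases hRL 1 n hn0 with a1 | a1 <;>
    rcases hRL 2 n hn0 with a2 | a2
  · exact r01 ⟨a0, a1⟩
  · exact r01 ⟨a0, a1⟩
  · exact r02 ⟨a0, a2⟩
  · exact l12 ⟨a1, a2⟩
  · exact r12 ⟨a1, a2⟩
  · exact l02 ⟨a0, a2⟩
  · exact l01 ⟨a0, a1⟩
  · exact l01 ⟨a0, a1⟩

theorem joinedIn_swapL {F : Set P} {x y : P} (h : JoinedIn F x y) :
    JoinedIn {z | swapL z ∈ F} (swapL x) (swapL y) := by
  obtain ⟨γ, hγ⟩ := h
  have hinv : ∀ z, swapL (swapL z) = z := fun z => by simp [swapL_apply]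
  refine ⟨⟨⟨fun u => swapL (γ u), swapL.continuous.comp γ.continuous⟩, ?_, ?_⟩, ?_⟩
  · show swapL (γ 0) = _
    rw [γ.source]
  · show swapL (γ 1) = _
    rw [γ.target]
  · intro u
    show swapL (swapL (γ u)) ∈ F
    rw [hinv]; exact hγ u

theorem valleys {A v : P → ℝ} (hs : Sol A v) (a : ℝ) (x : Fin 3 → P) (hx : ∀ i, A (x i) < a) :
    ∃ i j, i ≠ j ∧ x j ∈ connectedComponentIn {y | A y < a} (x i) := by
  have hinv : ∀ z, swapL (swapL z) = z := fun z => by simp [swapL_apply]
  have hAc : Continuous A := hs.cA.continuous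
  obtain ⟨i, j, hij, h⟩ := hills hs.swap (-a) (fun i => swapL (x i)) (fun i => by
    simp only [hinv]; linarith [hx i])
  refine ⟨i, j, hij, ?_⟩
  have hO : IsOpen {y | -a < -(A (swapL y))} :=
    isOpen_lt continuous_const (by have := swapL.continuous; fun_prop)
  have hj := joined_of_mem_comp hO (x := swapL (x i)) (by
    show -a < -(A (swapL (swapL (x i))))
    rw [hinv]; linarith [hx i]) h
  have := joinedIn_swapL hj
  rw [hinv, hinv] at this
  refine mem_comp_of_joined (this.mono ?_)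
  intro z hz
  have : -a < -(A (swapL (swapL z))) := hz
  rw [hinv] at this
  show A z < a
  linarith

end Pool.Agent.EU
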