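import Pool.Agent.EU.HillsSlice

set_option autoImplicit false
open scoped ContDiff Topology
open Real Set MeasureTheory

namespace Pool.Agent.EU

theorem hasDerivAt_max_sq (x : ℝ) : HasDerivAt (fun x : ℝ => (max x 0) ^ 2) (2 * max x 0) x := by
  rcases lt_trichotomy x 0 with hx | hx | hx
  · rw [max_eq_right hx.le]
    have : (fun x : ℝ => (max x 0) ^ 2) =ᶠ[𝓝 x] fun _ => 0 := by
      filter_upwards [Iio_mem_nhds hx] with y hy
      rw [max_eq_right (le_of_lt hy)]; ring
    simpa using (hasDerivAt_const x (0:ℝ)).congr_of_eventuallyEq this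
  · subst hx
    have h1 : (fun h : ℝ => (max h 0) ^ 2) =O[𝓝 0] fun h : ℝ => h ^ 2 := by
      refine Asymptotics.IsBigO.of_bound 1 (Filter.Eventually.of_forall fun h => ?_)
      rw [one_mul, Real.norm_eq_abs, Real.norm_eq_abs, abs_pow, abs_pow]
      rcases le_total h 0 with hh | hh
      · rw [max_eq_right hh, abs_zero, zero_pow (by norm_num)]; positivity
      · rw [max_eq_left hh]
    have h2 : (fun h : ℝ => (max h 0) ^ 2) =o[𝓝 0] fun h : ℝ => h :=
      h1.trans_isLittleO (by simpa using (Asymptotics.isLittleO_pow_id (𝕜 := ℝ) (n := 2) (by norm_num)))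
    rw [hasDerivAt_iff_isLittleO_nhds_zero]
    simpa using h2
  · rw [max_eq_left hx.le]
    have : (fun x : ℝ => (max x 0) ^ 2) =ᶠ[𝓝 x] fun x => x ^ 2 := by
      filter_upwards [Ioi_mem_nhds hx] with y hy
      rw [max_eq_left (le_of_lt hy)]
    simpa using (hasDerivAt_pow 2 x).congr_of_eventuallyEq this

theorem sq_integral_le {φ : ℝ → ℝ} (hφ : Continuous φ) {y q : ℝ} (hyq : y < q) :
    (∫ u in y..q, φ u) ^ 2 ≤ (q - y) * ∫ u in y..q, (φ u) ^ 2 := by
  set m : ℝ := (∫ u in y..q, φ u) / (q - y) with hm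
  have hpos : 0 < q - y := sub_pos.2 hyq
  have h0 : 0 ≤ ∫ u in y..q, (φ u - m) ^ 2 :=
    intervalIntegral.integral_nonneg hyq.le (fun u _ => sq_nonneg _)
  have hi1 : IntervalIntegrable (fun u => (φ u) ^ 2) volume y q := (hφ.pow 2).intervalIntegrable _ _
  have hi2 : IntervalIntegrable (fun u => 2 * m * φ u) volume y q :=
    (hφ.const_mul _).intervalIntegrable _ _
  have h1 : ∫ u in y..q, (φ u - m) ^ 2 =
      (∫ u in y..q, (φ u) ^ 2) - 2 * m * (∫ u in y..q, φ u) + (q - y) * m ^ 2 := by
    have : (fun u => (φ u - m) ^ 2) = fun u => ((φ u) ^ 2 - 2 * m * φ u) + m ^ 2 := by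
      ext u; ring
    rw [this, intervalIntegral.integral_add (hi1.sub hi2) (by simp),
      intervalIntegral.integral_sub hi1 hi2, intervalIntegral.integral_const_mul,
      intervalIntegral.integral_const, smul_eq_mul]
  have h2 : (∫ u in y..q, φ u) = m * (q - y) := by
    rw [hm]; field_simp
  rw [h1, h2] at h0
  rw [h2]
  nlinarith [mul_nonneg hpos.le h0]

/-- One-dimensional lower bound for the energy. -/
theorem slice_energy {f : ℝ → ℝ} (hf : ContDiff ℝ 1 f) {b h y q : ℝ} (hh : 0 < h) (hyq : y < q)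
    (hqy : q - y ≤ 2 * h) (hy : b ≤ f y) (hq : f q ≤ b - 1) :
    1 / (8 * h) ≤ ∫ u in y..q, (max (b - f u) 0) ^ 2 * (deriv f u) ^ 2 := by
  have hfd : ∀ u, HasDerivAt f (deriv f u) u := fun u =>
    (hf.differentiable (by norm_num) u).hasDerivAt
  have hfc : Continuous (deriv f) := hf.continuous_deriv le_rfl
  set φ : ℝ → ℝ := fun u => -(max (b - f u) 0 * deriv f u) with hφ
  have hφc : Continuous φ := by
    have := hf.continuous
    rw [hφ]; fun_prop
  have hd : ∀ u, HasDerivAt (fun u => (max (b - f u) 0) ^ 2 / 2) (φ u) u := by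
    intro u
    have h1 := (hasDerivAt_max_sq (b - f u)).comp u ((hfd u).const_sub b)
    have h2 := h1.div_const 2
    refine h2.congr_deriv ?_
    rw [hφ]; ring
  have hftc : ∫ u in y..q, φ u = (max (b - f q) 0) ^ 2 / 2 - (max (b - f y) 0) ^ 2 / 2 :=
    intervalIntegral.integral_eq_sub_of_hasDerivAt (fun u _ => hd u)
      (hφc.intervalIntegrable _ _)
  have h1 : (max (b - f y) 0) = 0 := max_eq_right (by linarith)
  have h2 : (1:ℝ) ≤ max (b - f q) 0 := le_max_of_le_left (by linarith)
  have h3 : 1 / 2 ≤ ∫ u in y..q, φ u := by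
    rw [hftc, h1]
    nlinarith
  have h4 := sq_integral_le hφc hyq
  have h5 : (fun u => (φ u) ^ 2) = fun u => (max (b - f u) 0) ^ 2 * (deriv f u) ^ 2 := by
    ext u; rw [hφ]; ring
  rw [h5] at h4
  set I := ∫ u in y..q, (max (b - f u) 0) ^ 2 * (deriv f u) ^ 2 with hI
  have hI0 : 0 ≤ I := intervalIntegral.integral_nonneg hyq.le (fun u _ => by positivity)
  have h6 : 1 / 4 ≤ 2 * h * I := by
    have h7 : (1/2:ℝ) ^ 2 ≤ (∫ u in y..q, φ u) ^ 2 := by gcongr
    have h8 : (q - y) * I ≤ 2 * h * I := by gcongr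
    nlinarith
  rw [div_le_iff₀ (by positivity)]
  nlinarith

/-- The energy comparison for two crossing paths of different hills. -/
theorem hills_strip {A v : P → ℝ} (hs : Sol A v) {a l r h l' r' : ℝ} (hh : 0 < h)
    (hl : l < l') (hlr : l' < r') (hr : r' < r) {α β : ℝ → P}
    (hα : ContinuousOn α (Icc 0 1)) (hβ : ContinuousOn β (Icc 0 1))
    (hαr : ∀ s ∈ Icc (0:ℝ) 1, l ≤ (α s).1 ∧ (α s).1 ≤ r ∧ |(α s).2| < h)
    (hβr : ∀ s ∈ Icc (0:ℝ) 1, l ≤ (β s).1 ∧ (β s).1 ≤ r ∧ |(β s).2| < h)
    (hα0 : (α 0).1 = l) (hα1 : (α 1).1 = r) (hβ0 : (β 0).1 = l) (hβ1 : (β 1).1 = r)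
    (hαb : ∀ s ∈ Icc (0:ℝ) 1, a + 1 ≤ A (α s)) (hβb : ∀ s ∈ Icc (0:ℝ) 1, a + 1 ≤ A (β s))
    {x1 x2 : P} (hαV : α '' Icc 0 1 ⊆ connectedComponentIn {y | a < A y} x1)
    (hβV : β '' Icc 0 1 ⊆ connectedComponentIn {y | a < A y} x2)
    (hVV : Disjoint (connectedComponentIn {y | a < A y} x1) (connectedComponentIn {y | a < A y} x2))
    {η : ℝ → ℝ} (hη : ContDiff ℝ 1 η)
    (hηs : ∀ t, t ≤ l + (r - l) / 16 ∨ r - (r - l) / 16 ≤ t → η t = 0)
    (hη1 : ∀ t ∈ Icc l' r', η t = 1) :
    (r' - l') * (Real.exp (-(a + 1)) / (8 * h)) ≤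
      10 * Real.exp (a + 1) * h * ∫ t in Icc l r, (deriv η t) ^ 2 := by
  have hAc : Continuous A := hs.cA.continuous
  set b := a + 1 with hb
  set D := stripD A b l r h with hD
  have hDo : IsOpen D := isOpen_stripD hAc b l r h
  have hcacc := caccioppoli_strip hs (b := b) (l := l) (r := r) (y0 := 0) (h := h)
    (by linarith) hh (D := D) (fun x hx => by
      have := stripD_sub hx
      refine ⟨this.2.1, this.2.2.1, ?_⟩
      rw [sub_zero]; exact this.2.2.2.le)
    (fun x hx => (stripD_sub hx).1) hDo (isOpen_stripO_diff hAc b l r h) hη hηs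
  refine le_trans ?_ hcacc
  -- jac continuous
  have hd1c : Continuous (d1 A) := (smooth_d1 hs.cA).continuous
  have hd2c : Continuous (d2 A) := (smooth_d2 hs.cA).continuous
  have hjc : Continuous (jac A) := by
    unfold jac; fun_prop
  have hηc : Continuous η := hη.continuous
  have hj0 : ∀ x, 0 ≤ jac A x := fun x => by unfold jac; positivity
  set g : P → ℝ := fun x => (η x.1) ^ 2 * (b - A x) ^ 2 * jac A x with hg
  have hgc : Continuous g := by rw [hg]; fun_prop
  have hg0 : ∀ x, 0 ≤ g x := fun x => by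
    have := hj0 x
    rw [hg]; positivity
  have hDK : D ⊆ Icc l r ×ˢ Icc (-h) h := by
    intro x hx
    have := stripD_sub hx
    have h2 := abs_lt.1 this.2.2.2
    exact ⟨⟨this.2.1.le, this.2.2.1.le⟩, ⟨h2.1.le, h2.2.le⟩⟩
  have hKc : IsCompact (Icc l r ×ˢ Icc (-h) h : Set P) := isCompact_Icc.prod isCompact_Icc
  have hgi : IntegrableOn g D volume := (hgc.continuousOn.integrableOn_compact hKc).mono_set hDK
  have hGi : Integrable (D.indicator g) volume := hgi.integrable_indicator hDo.measurableSet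
  rw [← integral_indicator hDo.measurableSet]
  rw [Measure.volume_eq_prod] at hGi ⊢
  rw [integral_prod _ hGi]
  -- slices
  have hslice : ∀ t ∈ Icc l' r', Real.exp (-b) / (8 * h) ≤ ∫ y, D.indicator g (t, y) := by
    intro t ht
    obtain ⟨y, q, hyq, hqy, hAy, hAq, hmem⟩ := slice_claim hAc (a := a) (b := b) hh
      (by linarith [ht.1] : l < t) (by linarith [ht.2] : t < r) hα hβ hαr hβr hα0 hα1 hβ0 hβ1
      hαb hβb hαV hβV hVV
    set f : ℝ → ℝ := fun u => A (t, u) with hf
    have hfs : ContDiff ℝ ∞ f := hs.cA.comp (by fun_prop)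
    have hf' : ∀ u, deriv f u = d2 A (t, u) := by
      intro u
      exact (hasDerivAt_d2 (x := ((t, u) : P))
        (hs.cA.differentiable (by simp) _)).deriv
    have hse := slice_energy (f := f) (hfs.of_le (by exact_mod_cast le_top)) (b := b) hh hyq hqy hAy (by linarith)
    have hDt : IsOpen {u : ℝ | ((t, u) : P) ∈ D} := hDo.preimage (by fun_prop)
    have hDtK : {u : ℝ | ((t, u) : P) ∈ D} ⊆ Icc (-h) h := fun u hu => (hDK hu).2
    have hgt : Continuous fun u => g (t, u) := by fun_prop
    have hslint : Integrable (fun u => D.indicator g (t, u)) volume := by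
      have : (fun u => D.indicator g (t, u)) =
          {u : ℝ | ((t, u) : P) ∈ D}.indicator (fun u => g (t, u)) := by
        ext u; rfl
      rw [this]
      exact ((hgt.continuousOn.integrableOn_compact isCompact_Icc).mono_set
        hDtK).integrable_indicator hDt.measurableSet
    have hpt : ∀ u ∈ Ioc y q, u ≠ q → Real.exp (-b) * ((max (b - f u) 0) ^ 2 * (deriv f u) ^ 2) ≤
        D.indicator g (t, u) := by
      intro u hu huq
      have hu' : u ∈ Ioo y q := ⟨hu.1, lt_of_le_of_ne hu.2 huq⟩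
      rcases lt_or_ge (f u) b with hfb | hfb
      · have hmD := hmem u hu' hfb
        rw [indicator_of_mem hmD, hg]
        simp only
        rw [hη1 t ht, max_eq_left (by linarith), hf' u]
        have h1 : Real.exp (-b) ≤ Real.exp (-(A (t, u))) := by
          apply Real.exp_le_exp.2
          have : A (t, u) < b := hfb
          linarith
        have h2 : Real.exp (-(A (t, u))) * (d2 A (t, u)) ^ 2 ≤ jac A (t, u) := by
          unfold jac
          have : 0 ≤ Real.exp (A (t, u)) * (d1 A (t, u)) ^ 2 := by positivity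
          linarith
        have h3 : Real.exp (-b) * (d2 A (t, u)) ^ 2 ≤ jac A (t, u) := by
          refine le_trans ?_ h2
          gcongr
        have h4 : (b - f u) ^ 2 * (Real.exp (-b) * (d2 A (t, u)) ^ 2) ≤ (b - f u) ^ 2 * jac A (t, u) := by
          gcongr
        calc Real.exp (-b) * ((b - f u) ^ 2 * (d2 A (t, u)) ^ 2)
            = (b - f u) ^ 2 * (Real.exp (-b) * (d2 A (t, u)) ^ 2) := by ring
          _ ≤ (b - f u) ^ 2 * jac A (t, u) := h4
          _ = 1 ^ 2 * (b - A (t, u)) ^ 2 * jac A (t, u) := by rw [hf]; ring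
      · rw [max_eq_right (by linarith)]
        simp only [ne_eq, OfNat.ofNat_ne_zero, not_false_eq_true, zero_pow, zero_mul, mul_zero]
        exact indicator_nonneg (fun x _ => hg0 x) _
    have hfc : Continuous (deriv f) := by
      exact hfs.continuous_deriv (by simp)
    have hfc0 : Continuous f := hfs.continuous
    have hint : ∫ u in y..q, Real.exp (-b) * ((max (b - f u) 0) ^ 2 * (deriv f u) ^ 2) ≤
        ∫ u in Ioc y q, D.indicator g (t, u) := by
      rw [intervalIntegral.integral_of_le hyq.le]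
      refine integral_mono_ae ?_ (hslint.integrableOn) ?_
      · have : Continuous fun u => Real.exp (-b) * ((max (b - f u) 0) ^ 2 * (deriv f u) ^ 2) := by
          fun_prop
        exact (this.continuousOn.integrableOn_compact (isCompact_Icc (a := y) (b := q))).mono_set
          Ioc_subset_Icc_self
      · refine (ae_restrict_iff' measurableSet_Ioc).2 ?_
        have : ∀ᵐ u : ℝ, u ≠ q := by
          simp [ae_iff, measure_singleton]
        filter_upwards [this] with u hu hu'
        exact hpt u hu' hu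
    have hle : ∫ u in Ioc y q, D.indicator g (t, u) ≤ ∫ u, D.indicator g (t, u) :=
      setIntegral_le_integral hslint (Filter.Eventually.of_forall fun u =>
        indicator_nonneg (fun x _ => hg0 x) _)
    rw [intervalIntegral.integral_const_mul] at hint
    calc Real.exp (-b) / (8 * h) = Real.exp (-b) * (1 / (8 * h)) := by ring
      _ ≤ Real.exp (-b) * ∫ u in y..q, (max (b - f u) 0) ^ 2 * (deriv f u) ^ 2 := by gcongr
      _ ≤ _ := hint.trans hle
  have hinner : Integrable (fun t => ∫ y, D.indicator g (t, y)) volume := hGi.integral_prod_left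
  have h0inner : ∀ t, 0 ≤ ∫ y, D.indicator g (t, y) := fun t =>
    integral_nonneg fun y => indicator_nonneg (fun x _ => hg0 x) _
  calc (r' - l') * (Real.exp (-b) / (8 * h))
      = ∫ t in Icc l' r', Real.exp (-b) / (8 * h) := by
        rw [setIntegral_const, smul_eq_mul, Measure.real, Real.volume_Icc,
          ENNReal.toReal_ofReal (by linarith)]
    _ ≤ ∫ t in Icc l' r', ∫ y, D.indicator g (t, y) := by
        refine setIntegral_mono_on ?_ hinner.integrableOn measurableSet_Icc hslice
        exact integrableOn_const (by simp)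
    _ ≤ ∫ t, ∫ y, D.indicator g (t, y) :=
        setIntegral_le_integral hinner (Filter.Eventually.of_forall h0inner)

end Pool.Agent.EU
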