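import Pool.Agent.EU.HillsTopo

set_option autoImplicit false
open scoped ContDiff Topology
open Real Set MeasureTheory

namespace Pool.Agent.EU

/-- The open set `{A < b}` in the strip. -/
def stripO (A : P → ℝ) (b l r : ℝ) : Set P := {x | A x < b ∧ l < x.1 ∧ x.1 < r}

/-- The union of the components of `stripO` contained in the band. -/
def stripD (A : P → ℝ) (b l r h : ℝ) : Set P :=
  {x | x ∈ stripO A b l r ∧ connectedComponentIn (stripO A b l r) x ⊆ {y | |y.2| < h}}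

theorem isOpen_stripO {A : P → ℝ} (hA : Continuous A) (b l r : ℝ) : IsOpen (stripO A b l r) := by
  have : stripO A b l r = {x | A x < b} ∩ ({x | l < x.1} ∩ {x | x.1 < r}) := rfl
  rw [this]
  exact (isOpen_lt hA continuous_const).inter
    ((isOpen_lt continuous_const continuous_fst).inter (isOpen_lt continuous_fst continuous_const))

theorem isOpen_stripD {A : P → ℝ} (hA : Continuous A) (b l r h : ℝ) :
    IsOpen (stripD A b l r h) := by
  rw [isOpen_iff_mem_nhds]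
  rintro x ⟨hx, hx'⟩
  have hO := isOpen_stripO hA b l r
  have hC : IsOpen (connectedComponentIn (stripO A b l r) x) := hO.connectedComponentIn
  refine Filter.mem_of_superset (hC.mem_nhds (mem_connectedComponentIn hx)) ?_
  intro y hy
  refine ⟨connectedComponentIn_subset _ _ hy, ?_⟩
  rw [← connectedComponentIn_eq hy]
  exact hx'

theorem isOpen_stripO_diff {A : P → ℝ} (hA : Continuous A) (b l r h : ℝ) :
    IsOpen (stripO A b l r \ stripD A b l r h) := by
  rw [isOpen_iff_mem_nhds]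
  rintro x ⟨hx, hx'⟩
  have hO := isOpen_stripO hA b l r
  have hC : IsOpen (connectedComponentIn (stripO A b l r) x) := hO.connectedComponentIn
  refine Filter.mem_of_superset (hC.mem_nhds (mem_connectedComponentIn hx)) ?_
  intro y hy
  refine ⟨connectedComponentIn_subset _ _ hy, ?_⟩
  rintro ⟨h1, h2⟩
  rw [← connectedComponentIn_eq hy] at h2
  exact hx' ⟨hx, h2⟩

theorem stripD_sub {A : P → ℝ} {b l r h : ℝ} {x : P} (hx : x ∈ stripD A b l r h) :
    A x < b ∧ l < x.1 ∧ x.1 < r ∧ |x.2| < h :=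
  ⟨hx.1.1, hx.1.2.1, hx.1.2.2, hx.2 (mem_connectedComponentIn hx.1)⟩

/-- The slice claim. -/
theorem slice_claim {A : P → ℝ} (hA : Continuous A) {a b l r h t : ℝ} (hh : 0 < h)
    (hlt : l < t) (htr : t < r) {α β : ℝ → P}
    (hα : ContinuousOn α (Icc 0 1)) (hβ : ContinuousOn β (Icc 0 1))
    (hαr : ∀ s ∈ Icc (0:ℝ) 1, l ≤ (α s).1 ∧ (α s).1 ≤ r ∧ |(α s).2| < h)
    (hβr : ∀ s ∈ Icc (0:ℝ) 1, l ≤ (β s).1 ∧ (β s).1 ≤ r ∧ |(β s).2| < h)
    (hα0 : (α 0).1 = l) (hα1 : (α 1).1 = r) (hβ0 : (β 0).1 = l) (hβ1 : (β 1).1 = r)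
    (hαb : ∀ s ∈ Icc (0:ℝ) 1, b ≤ A (α s)) (hβb : ∀ s ∈ Icc (0:ℝ) 1, b ≤ A (β s))
    {x1 x2 : P} (hαV : α '' Icc 0 1 ⊆ connectedComponentIn {y | a < A y} x1)
    (hβV : β '' Icc 0 1 ⊆ connectedComponentIn {y | a < A y} x2)
    (hVV : Disjoint (connectedComponentIn {y | a < A y} x1) (connectedComponentIn {y | a < A y} x2)) :
    ∃ y q : ℝ, y < q ∧ q - y ≤ 2 * h ∧ b ≤ A (t, y) ∧ A (t, q) ≤ a ∧
      ∀ y' ∈ Ioo y q, A (t, y') < b → ((t, y') : P) ∈ stripD A b l r h := by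
  have hKα : IsCompact (α '' Icc 0 1) := isCompact_Icc.image_of_continuousOn hα
  have hKβ : IsCompact (β '' Icc 0 1) := isCompact_Icc.image_of_continuousOn hβ
  have hd : Disjoint (α '' Icc 0 1) (β '' Icc 0 1) := hVV.mono hαV hβV
  have hcomp : ∀ γ : ℝ → P, IsCompact (γ '' Icc 0 1) →
      (∀ s ∈ Icc (0:ℝ) 1, l ≤ (γ s).1 ∧ (γ s).1 ≤ r ∧ |(γ s).2| < h) →
      IsCompact {y : ℝ | ((t, y) : P) ∈ γ '' Icc 0 1} := by
    intro γ hK hγ
    have hcl : IsClosed {y : ℝ | ((t, y) : P) ∈ γ '' Icc 0 1} :=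
      hK.isClosed.preimage (by fun_prop)
    refine (isCompact_Icc (a := -h) (b := h)).of_isClosed_subset hcl ?_
    rintro y ⟨s, hs, hsy⟩
    have := (hγ s hs).2.2
    rw [hsy] at this
    exact ⟨(abs_lt.1 this).1.le, (abs_lt.1 this).2.le⟩
  have hne : ∀ γ : ℝ → P, ContinuousOn γ (Icc 0 1) → (γ 0).1 = l → (γ 1).1 = r →
      ∃ y : ℝ, ((t, y) : P) ∈ γ '' Icc 0 1 := by
    intro γ hγ h0 h1
    have hf : ContinuousOn (fun s => (γ s).1) (Icc 0 1) := continuous_fst.comp_continuousOn hγ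
    obtain ⟨s, hs, hst⟩ := intermediate_value_Icc zero_le_one hf
      (show t ∈ Icc ((γ 0).1) ((γ 1).1) from ⟨by rw [h0]; exact hlt.le, by rw [h1]; exact htr.le⟩)
    refine ⟨(γ s).2, s, hs, ?_⟩
    simp only at hst
    rw [← hst]
  have hTα := hcomp α hKα hαr
  have hTβ := hcomp β hKβ hβr
  obtain ⟨y1, hy1⟩ := hne α hα hα0 hα1
  obtain ⟨y2, hy2⟩ := hne β hβ hβ0 hβ1
  obtain ⟨⟨ya, yb⟩, ⟨hya, hyb⟩, hmin⟩ := (hTα.prod hTβ).exists_isMinOn ⟨(y1, y2), hy1, hy2⟩
    (f := fun p : ℝ × ℝ => |p.1 - p.2|) (by fun_prop)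
  have hmin' : ∀ u v : ℝ, ((t, u) : P) ∈ α '' Icc 0 1 → ((t, v) : P) ∈ β '' Icc 0 1 →
      |ya - yb| ≤ |u - v| := fun u v hu hv => hmin (show ((u, v) : ℝ × ℝ) ∈ _ from ⟨hu, hv⟩)
  simp only at hya hyb
  have hab : ya ≠ yb := by
    rintro rfl
    exact hd.le_bot ⟨hya, hyb⟩
  have hfree : ∀ y ∈ uIcc ya yb, y ≠ ya → y ≠ yb →
      ((t, y) : P) ∉ α '' Icc 0 1 ∧ ((t, y) : P) ∉ β '' Icc 0 1 := by
    intro y hy h1 h2
    have hlt1 : |y - yb| < |ya - yb| := by
      rw [mem_uIcc] at hy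
      rcases hy with hy | hy
      · have : ya < y := lt_of_le_of_ne hy.1 (Ne.symm h1)
        rw [abs_of_nonpos (by linarith [hy.2]), abs_of_nonpos (by linarith [hy.2])]
        linarith
      · have : y < ya := lt_of_le_of_ne hy.2 h1
        rw [abs_of_nonneg (by linarith [hy.1]), abs_of_nonneg (by linarith [hy.1])]
        linarith
    have hlt2 : |ya - y| < |ya - yb| := by
      rw [mem_uIcc] at hy
      rcases hy with hy | hy
      · have : y < yb := lt_of_le_of_ne hy.2 h2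
        rw [abs_of_nonpos (by linarith [hy.1]), abs_of_nonpos (by linarith [hy.1])]
        linarith
      · have : yb < y := lt_of_le_of_ne hy.1 (Ne.symm h2)
        rw [abs_of_nonneg (by linarith [hy.2]), abs_of_nonneg (by linarith [hy.2])]
        linarith
    constructor
    · intro hc
      have := hmin' y yb hc hyb
      linarith
    · intro hc
      have := hmin' ya y hya hc
      linarith
  have hyah : |ya| < h := by
    obtain ⟨s, hs, hsy⟩ := hya
    have := (hαr s hs).2.2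
    rwa [hsy] at this
  have hybh : |yb| < h := by
    obtain ⟨s, hs, hsy⟩ := hyb
    have := (hβr s hs).2.2
    rwa [hsy] at this
  -- a point with `A ≤ a` between
  have hq : ∃ q ∈ uIcc ya yb, A (t, q) ≤ a := by
    by_contra hcon
    push Not at hcon
    have hseg : IsPreconnected ((fun y : ℝ => ((t, y) : P)) '' uIcc ya yb) :=
      (isPreconnected_uIcc).image _ (by fun_prop)
    have hsub : ((fun y : ℝ => ((t, y) : P)) '' uIcc ya yb) ⊆ {y | a < A y} := by
      rintro x ⟨y, hy, rfl⟩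
      exact hcon y hy
    have h1 : ((t, ya) : P) ∈ connectedComponentIn {y | a < A y} x1 := hαV hya
    have h2 : ((t, yb) : P) ∈ connectedComponentIn {y | a < A y} x2 := hβV hyb
    have h3 := hseg.subset_connectedComponentIn (x := ((t, ya) : P)) ⟨ya, left_mem_uIcc, rfl⟩ hsub
    rw [← connectedComponentIn_eq h1] at h3
    exact hVV.le_bot ⟨h3 ⟨yb, right_mem_uIcc, rfl⟩, h2⟩
  obtain ⟨q, hq, hqa⟩ := hq
  have hAa : b ≤ A (t, ya) := by
    obtain ⟨s, hs, hsy⟩ := hya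
    rw [← hsy]; exact hαb s hs
  have hAb : b ≤ A (t, yb) := by
    obtain ⟨s, hs, hsy⟩ := hyb
    rw [← hsy]; exact hβb s hs
  have hsubV : ∀ (x z : P), z ∈ connectedComponentIn {y | a < A y} x → a < A z :=
    fun x z hz => connectedComponentIn_subset {y | a < A y} x hz
  have haa : a < A (t, ya) := hsubV _ _ (hαV hya)
  have hbb : a < A (t, yb) := hsubV _ _ (hβV hyb)
  have hqa' : q ≠ ya := by rintro rfl; linarith
  have hqb' : q ≠ yb := by rintro rfl; linarith
  -- membership in D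
  have hD : ∀ y' ∈ uIcc ya yb, y' ≠ ya → y' ≠ yb → A (t, y') < b →
      ((t, y') : P) ∈ stripD A b l r h := by
    intro y' hy' h1 h2 hAy
    have hO : ((t, y') : P) ∈ stripO A b l r := ⟨hAy, hlt, htr⟩
    refine ⟨hO, ?_⟩
    intro q' hq'
    by_contra hcon
    rw [mem_setOf_eq, not_lt] at hcon
    set G := connectedComponentIn (stripO A b l r) ((t, y') : P) with hG
    have hGo : IsOpen G := (isOpen_stripO hA b l r).connectedComponentIn
    have hGc : IsConnected G := ⟨⟨_, mem_connectedComponentIn hO⟩, isPreconnected_connectedComponentIn⟩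
    have hGp : IsPathConnected G := hGo.isConnected_iff_isPathConnected.1 hGc
    have hJ : JoinedIn G (t, y') q' := hGp.joinedIn _ (mem_connectedComponentIn hO) _ hq'
    have hGs : ∀ x ∈ G, l ≤ x.1 ∧ x.1 ≤ r := by
      intro x hx
      have := connectedComponentIn_subset _ _ hx
      exact ⟨this.2.1.le, this.2.2.le⟩
    have hGd : ∀ γ : ℝ → P, (∀ s ∈ Icc (0:ℝ) 1, b ≤ A (γ s)) → Disjoint G (γ '' Icc 0 1) := by
      intro γ hγ
      rw [Set.disjoint_left]
      rintro x hx ⟨s, hs, rfl⟩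
      have := (connectedComponentIn_subset _ _ hx).1
      linarith [hγ s hs]
    rcases le_abs.1 hcon with hc | hc
    · exact topo_up hh hlt.le htr.le hα hβ hαr hβr hα0 hα1 hβ0 hβ1 hd hya hyb hy' h1 h2 hfree hGs
        (hGd α hαb) (hGd β hβb) hc hJ
    · exact topo_down hh hlt.le htr.le hα hβ hαr hβr hα0 hα1 hβ0 hβ1 hd hya hyb hy' h1 h2 hfree hGs
        (hGd α hαb) (hGd β hβb) (by linarith) hJ
  rw [abs_lt] at hyah hybh
  rcases lt_or_gt_of_ne hab with hlt' | hlt'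
  · rw [uIcc_of_le hlt'.le] at hq
    have h1 : ya < q := lt_of_le_of_ne hq.1 (Ne.symm hqa')
    refine ⟨ya, q, h1, by linarith [hq.2], hAa, hqa, ?_⟩
    intro y' hy' hAy
    refine hD y' ?_ (ne_of_gt hy'.1) ?_ hAy
    · rw [uIcc_of_le hlt'.le]; exact ⟨hy'.1.le, by linarith [hy'.2, hq.2]⟩
    · rintro rfl; linarith [hy'.2, hq.2]
  · rw [uIcc_of_ge hlt'.le] at hq
    have h1 : yb < q := lt_of_le_of_ne hq.1 (Ne.symm hqb')
    refine ⟨yb, q, h1, by linarith [hq.2], hAb, hqa, ?_⟩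
    intro y' hy' hAy
    refine hD y' ?_ ?_ (ne_of_gt hy'.1) hAy
    · rw [uIcc_of_ge hlt'.le]; exact ⟨hy'.1.le, by linarith [hy'.2, hq.2]⟩
    · rintro rfl; linarith [hy'.2, hq.2]

end Pool.Agent.EU
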