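import Pool.Agent.EU.T
import Pool.Agent.EU.B
import Pool.Agent.EU.L
import Pool.Agent.EU.Area

set_option autoImplicit false
open scoped ContDiff Topology
open Real Set

namespace Pool.Agent.EU

/-- joined form of the crossing lemma -/
theorem crossing_joined {l r H : ℝ} {β : ℝ → P} (hβ : ContinuousOn β (Icc 0 1))
    (hβr : ∀ s ∈ Icc (0:ℝ) 1, β s ∈ Icc l r ×ˢ Icc (-H) H)
    (hβ0 : (β 0).1 = l) (hβ1 : (β 1).1 = r) {F : Set P} {p q : P}
    (hF : F ⊆ Icc l r ×ˢ Icc (-H) H) (hd : Disjoint F (β '' Icc 0 1))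
    (hp : p.2 = -H) (hq : q.2 = H) : ¬ JoinedIn F p q := by
  rintro ⟨γ, hγ⟩
  have hc : ContinuousOn (fun s : ℝ => γ.extend s) (Icc 0 1) := γ.continuous_extend.continuousOn
  have hmem : ∀ s ∈ Icc (0:ℝ) 1, γ.extend s ∈ F := by
    intro s hs
    rw [γ.extend_apply hs]
    exact hγ _
  obtain ⟨s, hs, t, ht, hst⟩ := crossing (a := l) (b := r) (c := -H) (d := H) hβ hc hβr
    (fun s hs => hF (hmem s hs)) hβ0 hβ1 (by simp [hp]) (by simp [hq])
  exact hd.le_bot ⟨hmem t ht, by rw [← hst]; exact ⟨s, hs, rfl⟩⟩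

/-- A vertical segment is joined. -/
theorem joined_vert {F : Set P} {t y y' : ℝ} (h : ∀ z ∈ uIcc y y', ((t, z) : P) ∈ F) :
    JoinedIn F (t, y) (t, y') := by
  refine ⟨⟨⟨fun s => (t, y + (s : ℝ) * (y' - y)), by fun_prop⟩, by simp, by simp⟩, ?_⟩
  intro s
  refine h _ ?_
  have hs0 := s.2.1
  have hs1 := s.2.2
  rcases le_total y y' with hyy | hyy
  · rw [uIcc_of_le hyy]
    constructor
    · nlinarith
    · nlinarith
  · rw [uIcc_of_ge hyy]
    constructor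
    · nlinarith
    · nlinarith

/-- A piece of a path is joined. -/
theorem joined_piece {F : Set P} {α : ℝ → P} (hα : ContinuousOn α (Icc 0 1)) {s s' : ℝ}
    (hs : s ∈ Icc (0:ℝ) 1) (hs' : s' ∈ Icc (0:ℝ) 1) (h : ∀ u ∈ Icc (0:ℝ) 1, α u ∈ F) :
    JoinedIn F (α s) (α s') := by
  have hconv : ∀ u : ℝ, u ∈ Icc (0:ℝ) 1 → s + u * (s' - s) ∈ Icc (0:ℝ) 1 := by
    intro u hu
    obtain ⟨hu0, hu1⟩ := hu
    obtain ⟨h1, h2⟩ := hs
    obtain ⟨h3, h4⟩ := hs'
    constructor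
    · nlinarith
    · nlinarith
  refine ⟨⟨⟨fun u => α (s + (u : ℝ) * (s' - s)), ?_⟩, by simp, by simp⟩, ?_⟩
  · refine hα.comp_continuous (by fun_prop) (fun u => hconv _ u.2)
  · intro u
    exact h _ (hconv _ u.2)

/-- The topological heart of the hills lemma (upper case). -/
theorem topo_up {l r h t : ℝ} (hh : 0 < h) (htl : l ≤ t) (htr : t ≤ r) {α β : ℝ → P}
    (hα : ContinuousOn α (Icc 0 1)) (hβ : ContinuousOn β (Icc 0 1))
    (hαr : ∀ s ∈ Icc (0:ℝ) 1, l ≤ (α s).1 ∧ (α s).1 ≤ r ∧ |(α s).2| < h)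
    (hβr : ∀ s ∈ Icc (0:ℝ) 1, l ≤ (β s).1 ∧ (β s).1 ≤ r ∧ |(β s).2| < h)
    (hα0 : (α 0).1 = l) (hα1 : (α 1).1 = r) (hβ0 : (β 0).1 = l) (hβ1 : (β 1).1 = r)
    (hd : Disjoint (α '' Icc 0 1) (β '' Icc 0 1)) {ya yb y0 : ℝ}
    (hya : ((t, ya) : P) ∈ α '' Icc 0 1) (hyb : ((t, yb) : P) ∈ β '' Icc 0 1)
    (hy0 : y0 ∈ uIcc ya yb) (hy0a : y0 ≠ ya) (hy0b : y0 ≠ yb)
    (hfree : ∀ y ∈ uIcc ya yb, y ≠ ya → y ≠ yb → ((t, y) : P) ∉ α '' Icc 0 1 ∧ ((t, y) : P) ∉ β '' Icc 0 1)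
    {G : Set P} (hGs : ∀ x ∈ G, l ≤ x.1 ∧ x.1 ≤ r) (hGα : Disjoint G (α '' Icc 0 1))
    (hGβ : Disjoint G (β '' Icc 0 1)) {q' : P} (hq' : h ≤ q'.2) :
    ¬ JoinedIn G (t, y0) q' := by
  intro hG
  -- a bound for the second coordinates of the path
  obtain ⟨γ, hγ⟩ := hG
  obtain ⟨H0, hH0⟩ : ∃ H0 : ℝ, ∀ u : unitInterval, |(γ u).2| ≤ H0 := by
    have : IsCompact (range fun u => |(γ u).2|) := isCompact_range (by fun_prop)
    obtain ⟨C, hC⟩ := this.bddAbove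
    exact ⟨C, fun u => hC ⟨u, rfl⟩⟩
  set H : ℝ := max H0 h with hH
  have hhH : h ≤ H := le_max_right _ _
  -- the compact sets of heights
  have hKα : IsCompact (α '' Icc 0 1) := isCompact_Icc.image_of_continuousOn hα
  have hKβ : IsCompact (β '' Icc 0 1) := isCompact_Icc.image_of_continuousOn hβ
  have hT : IsCompact {y : ℝ | ((t, y) : P) ∈ α '' Icc 0 1 ∪ β '' Icc 0 1} := by
    have hcl : IsClosed {y : ℝ | ((t, y) : P) ∈ α '' Icc 0 1 ∪ β '' Icc 0 1} :=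
      (hKα.union hKβ).isClosed.preimage (by fun_prop)
    refine (isCompact_Icc (a := -h) (b := h)).of_isClosed_subset hcl ?_
    rintro y (⟨s, hs, hsy⟩ | ⟨s, hs, hsy⟩)
    · have := (hαr s hs).2.2
      rw [hsy] at this
      exact ⟨(abs_lt.1 this).1.le, (abs_lt.1 this).2.le⟩
    · have := (hβr s hs).2.2
      rw [hsy] at this
      exact ⟨(abs_lt.1 this).1.le, (abs_lt.1 this).2.le⟩
  obtain ⟨ym, hym, hmin⟩ := hT.exists_isLeast ⟨ya, Or.inl hya⟩
  have hmin' : ∀ y, ((t, y) : P) ∈ α '' Icc 0 1 ∪ β '' Icc 0 1 → ym ≤ y := fun y hy => hmin hy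
  -- general argument, symmetric in the two paths
  have key : ∀ (α β : ℝ → P), ContinuousOn α (Icc 0 1) → ContinuousOn β (Icc 0 1) →
      (∀ s ∈ Icc (0:ℝ) 1, l ≤ (α s).1 ∧ (α s).1 ≤ r ∧ |(α s).2| < h) →
      (∀ s ∈ Icc (0:ℝ) 1, l ≤ (β s).1 ∧ (β s).1 ≤ r ∧ |(β s).2| < h) →
      (β 0).1 = l → (β 1).1 = r → Disjoint (α '' Icc 0 1) (β '' Icc 0 1) →
      ∀ ya, ((t, ya) : P) ∈ α '' Icc 0 1 →
      (∀ y ∈ uIcc ya y0, ((t, y) : P) ∉ β '' Icc 0 1) →
      Disjoint G (β '' Icc 0 1) → ((t, ym) : P) ∈ α '' Icc 0 1 →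
      (∀ y, ((t, y) : P) ∈ β '' Icc 0 1 → ym ≤ y) → (∀ y ∈ uIcc ya y0, |y| ≤ H) → False := by
    intro α β hα hβ hαr hβr hβ0 hβ1 hd ya hya hfree hGβ hymα hminβ hyH
    set F : Set P := (Icc l r ×ˢ Icc (-H) H) \ (β '' Icc 0 1) with hF
    have hymβ : ((t, ym) : P) ∉ β '' Icc 0 1 := fun hc => hd.le_bot ⟨hymα, hc⟩
    have hymh : |ym| < h := by
      obtain ⟨s, hs, hsy⟩ := hymα
      have := (hαr s hs).2.2
      rwa [hsy] at this
    have j1 : JoinedIn F (t, -H) (t, ym) := by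
      apply joined_vert
      intro z hz
      have hle : -H ≤ ym := by
        have := (abs_lt.1 hymh).1
        linarith
      rw [uIcc_of_le hle] at hz
      refine ⟨⟨⟨htl, htr⟩, ⟨hz.1, ?_⟩⟩, ?_⟩
      · have := (abs_lt.1 hymh).2
        linarith [hz.2]
      · intro hc
        have h1 := hminβ z hc
        have h2 : z = ym := le_antisymm hz.2 h1
        exact hymβ (h2 ▸ hc)
    have j2 : JoinedIn F (t, ym) (t, ya) := by
      obtain ⟨s, hs, hsy⟩ := hymα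
      obtain ⟨s', hs', hsy'⟩ := hya
      rw [← hsy, ← hsy']
      apply joined_piece hα hs hs'
      intro u hu
      have := hαr u hu
      refine ⟨⟨⟨this.1, this.2.1⟩, ⟨?_, ?_⟩⟩, ?_⟩
      · have := (abs_lt.1 this.2.2).1
        linarith
      · have := (abs_lt.1 this.2.2).2
        linarith
      · intro hc
        exact hd.le_bot ⟨⟨u, hu, rfl⟩, hc⟩
    have j3 : JoinedIn F (t, ya) (t, y0) := by
      apply joined_vert
      intro z hz
      have hzH := hyH z hz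
      exact ⟨⟨⟨htl, htr⟩, ⟨(abs_le.1 hzH).1, (abs_le.1 hzH).2⟩⟩, hfree z hz⟩
    have j4 : JoinedIn F (t, y0) q' := by
      refine ⟨γ, fun u => ?_⟩
      have h1 := hGs _ (hγ u)
      have h2 := hH0 u
      have h3 : |(γ u).2| ≤ H := h2.trans (le_max_left _ _)
      exact ⟨⟨⟨h1.1, h1.2⟩, ⟨(abs_le.1 h3).1, (abs_le.1 h3).2⟩⟩, fun hc => hGβ.le_bot ⟨hγ u, hc⟩⟩
    have hq'G : q' ∈ G := by
      have := hγ 1
      rwa [γ.target] at this
    have hq'H : q'.2 ≤ H := by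
      have := hH0 1
      rw [γ.target] at this
      exact (le_abs_self _).trans (this.trans (le_max_left _ _))
    have j5 : JoinedIn F q' (q'.1, H) := by
      have : JoinedIn F (q'.1, q'.2) (q'.1, H) := by
        apply joined_vert
        intro z hz
        rw [uIcc_of_le hq'H] at hz
        refine ⟨⟨⟨(hGs _ hq'G).1, (hGs _ hq'G).2⟩, ⟨?_, hz.2⟩⟩, ?_⟩
        · linarith [hz.1]
        · rintro ⟨s, hs, hsy⟩
          have := (hβr s hs).2.2
          rw [hsy] at this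
          have := (abs_lt.1 this).2
          simp only at this
          linarith [hz.1]
      exact this
    have jj := (((j1.trans j2).trans j3).trans j4).trans j5
    refine crossing_joined (H := H) hβ ?_ hβ0 hβ1 (F := F) sdiff_subset ?_ ?_ ?_ jj
    · intro s hs
      have := hβr s hs
      refine ⟨⟨this.1, this.2.1⟩, ⟨?_, ?_⟩⟩
      · have := (abs_lt.1 this.2.2).1
        linarith
      · have := (abs_lt.1 this.2.2).2
        linarith
    · exact disjoint_sdiff_left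
    · rfl
    · rfl
  have hyah : |ya| < h := by
    obtain ⟨s, hs, hsy⟩ := hya
    have := (hαr s hs).2.2
    rwa [hsy] at this
  have hybh : |yb| < h := by
    obtain ⟨s, hs, hsy⟩ := hyb
    have := (hβr s hs).2.2
    rwa [hsy] at this
  have hub : ∀ y ∈ uIcc ya yb, |y| ≤ H := by
    intro y hy
    rw [mem_uIcc] at hy
    rw [abs_lt] at hyah hybh
    rw [abs_le]
    rcases hy with hy | hy
    · constructor <;> linarith [hy.1, hy.2, hyah.1, hybh.2]
    · constructor <;> linarith [hy.1, hy.2, hyah.2, hybh.1]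
  have hsub1 : uIcc ya y0 ⊆ uIcc ya yb := uIcc_subset_uIcc_left hy0
  have hsub2 : uIcc yb y0 ⊆ uIcc ya yb := by
    rw [uIcc_comm ya yb]
    exact uIcc_subset_uIcc_left (by rwa [uIcc_comm])
  rcases hym with hymα | hymβ
  · refine key α β hα hβ hαr hβr hβ0 hβ1 hd ya hya ?_ hGβ hymα (fun y hy => hmin' y (Or.inr hy))
      (fun y hy => hub y (hsub1 hy))
    intro y hy hc
    by_cases h1 : y = ya
    · subst h1
      exact hd.le_bot ⟨hya, hc⟩
    · have hyb' : y ≠ yb := by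
        rintro rfl
        rw [mem_uIcc] at hy hy0
        rcases hy with hy | hy <;> rcases hy0 with hy0 | hy0
        · exact hy0b (le_antisymm hy0.2 hy.2)
        · exact hy0b (by linarith [hy.1, hy.2, hy0.1, hy0.2])
        · exact hy0b (by linarith [hy.1, hy.2, hy0.1, hy0.2])
        · exact hy0b (le_antisymm hy.1 hy0.1)
      exact (hfree y (hsub1 hy) h1 hyb').2 hc
  · refine key β α hβ hα hβr hαr hα0 hα1 hd.symm yb hyb ?_ hGα hymβ
      (fun y hy => hmin' y (Or.inl hy)) (fun y hy => hub y (hsub2 hy))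
    intro y hy hc
    by_cases h1 : y = yb
    · subst h1
      exact hd.le_bot ⟨hc, hyb⟩
    · have hya' : y ≠ ya := by
        rintro rfl
        rw [mem_uIcc] at hy hy0
        rcases hy with hy | hy <;> rcases hy0 with hy0 | hy0
        · exact hy0a (by linarith [hy.1, hy.2, hy0.1, hy0.2])
        · exact hy0a (by linarith [hy.1, hy.2, hy0.1, hy0.2])
        · exact hy0a (by linarith [hy.1, hy.2, hy0.1, hy0.2])
        · exact hy0a (by linarith [hy.1, hy.2, hy0.1, hy0.2])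
      exact (hfree y (hsub2 hy) hya' h1).1 hc

/-- reflection in the second coordinate -/
def refl2 (x : P) : P := (x.1, -x.2)

theorem topo_down {l r h t : ℝ} (hh : 0 < h) (htl : l ≤ t) (htr : t ≤ r) {α β : ℝ → P}
    (hα : ContinuousOn α (Icc 0 1)) (hβ : ContinuousOn β (Icc 0 1))
    (hαr : ∀ s ∈ Icc (0:ℝ) 1, l ≤ (α s).1 ∧ (α s).1 ≤ r ∧ |(α s).2| < h)
    (hβr : ∀ s ∈ Icc (0:ℝ) 1, l ≤ (β s).1 ∧ (β s).1 ≤ r ∧ |(β s).2| < h)
    (hα0 : (α 0).1 = l) (hα1 : (α 1).1 = r) (hβ0 : (β 0).1 = l) (hβ1 : (β 1).1 = r)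
    (hd : Disjoint (α '' Icc 0 1) (β '' Icc 0 1)) {ya yb y0 : ℝ}
    (hya : ((t, ya) : P) ∈ α '' Icc 0 1) (hyb : ((t, yb) : P) ∈ β '' Icc 0 1)
    (hy0 : y0 ∈ uIcc ya yb) (hy0a : y0 ≠ ya) (hy0b : y0 ≠ yb)
    (hfree : ∀ y ∈ uIcc ya yb, y ≠ ya → y ≠ yb → ((t, y) : P) ∉ α '' Icc 0 1 ∧ ((t, y) : P) ∉ β '' Icc 0 1)
    {G : Set P} (hGs : ∀ x ∈ G, l ≤ x.1 ∧ x.1 ≤ r) (hGα : Disjoint G (α '' Icc 0 1))
    (hGβ : Disjoint G (β '' Icc 0 1)) {q' : P} (hq' : q'.2 ≤ -h) :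
    ¬ JoinedIn G (t, y0) q' := by
  have hrc : Continuous refl2 := by unfold refl2; fun_prop
  have hinv : ∀ x, refl2 (refl2 x) = x := fun x => by simp [refl2]
  have himg : ∀ (γ : ℝ → P) (x : P), x ∈ (fun s => refl2 (γ s)) '' Icc 0 1 ↔
      refl2 x ∈ γ '' Icc 0 1 := by
    intro γ x
    constructor
    · rintro ⟨s, hs, rfl⟩
      exact ⟨s, hs, (hinv _).symm⟩
    · rintro ⟨s, hs, hsx⟩
      exact ⟨s, hs, by simp only; rw [hsx, hinv]⟩
  have hneg : ∀ y ∈ uIcc (-ya) (-yb), -y ∈ uIcc ya yb := by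
    intro y hy
    rw [mem_uIcc] at hy ⊢
    rcases hy with hy | hy
    · right; constructor <;> linarith [hy.1, hy.2]
    · left; constructor <;> linarith [hy.1, hy.2]
  intro hJ
  refine topo_up hh htl htr (α := fun s => refl2 (α s)) (β := fun s => refl2 (β s))
    (hrc.comp_continuousOn hα) (hrc.comp_continuousOn hβ) ?_ ?_ hα0 hα1 hβ0 hβ1 ?_
    (ya := -ya) (yb := -yb) (y0 := -y0) ?_ ?_ ?_ ?_ ?_ ?_ (G := refl2 ⁻¹' G) ?_ ?_ ?_
    (q' := refl2 q') ?_ ?_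
  · intro s hs
    have := hαr s hs
    refine ⟨this.1, this.2.1, ?_⟩
    show |-(α s).2| < h
    rw [abs_neg]; exact this.2.2
  · intro s hs
    have := hβr s hs
    refine ⟨this.1, this.2.1, ?_⟩
    show |-(β s).2| < h
    rw [abs_neg]; exact this.2.2
  · rw [Set.disjoint_left]
    intro x hx hx'
    rw [himg] at hx hx'
    exact hd.le_bot ⟨hx, hx'⟩
  · rw [himg]; simpa [refl2] using hya
  · rw [himg]; simpa [refl2] using hyb
  · rw [mem_uIcc] at hy0 ⊢
    rcases hy0 with hy | hy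
    · right; constructor <;> linarith [hy.1, hy.2]
    · left; constructor <;> linarith [hy.1, hy.2]
  · intro hc; exact hy0a (by linarith)
  · intro hc; exact hy0b (by linarith)
  · intro y hy h1 h2
    rw [himg, himg]
    exact hfree (-y) (hneg y hy) (fun hc => h1 (by linarith)) (fun hc => h2 (by linarith))
  · intro x hx
    exact hGs (refl2 x) hx
  · rw [Set.disjoint_left]
    intro x hx hx'
    rw [himg] at hx'
    exact hGα.le_bot ⟨hx, hx'⟩
  · rw [Set.disjoint_left]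
    intro x hx hx'
    rw [himg] at hx'
    exact hGβ.le_bot ⟨hx, hx'⟩
  · show h ≤ -q'.2
    linarith
  · obtain ⟨γ, hγ⟩ := hJ
    refine ⟨⟨⟨fun u => refl2 (γ u), hrc.comp γ.continuous⟩, ?_, ?_⟩, ?_⟩
    · show refl2 (γ 0) = _
      rw [γ.source]; rfl
    · show refl2 (γ 1) = _
      rw [γ.target]
    · intro u
      show refl2 (refl2 (γ u)) ∈ G
      rw [hinv]; exact hγ u

/-- Extraction of a crossing piece of a path. -/
theorem crossing_piece {l r : ℝ} (hlr : l < r) {γ : ℝ → P} (hγ : ContinuousOn γ (Icc 0 1))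
    (h0 : (γ 0).1 ≤ l) (h1 : r ≤ (γ 1).1) :
    ∃ α : ℝ → P, ContinuousOn α (Icc 0 1) ∧ (α 0).1 = l ∧ (α 1).1 = r ∧
      (∀ s ∈ Icc (0:ℝ) 1, l ≤ (α s).1 ∧ (α s).1 ≤ r) ∧ α '' Icc 0 1 ⊆ γ '' Icc 0 1 := by
  have hf : ContinuousOn (fun s => (γ s).1) (Icc 0 1) := continuous_fst.comp_continuousOn hγ
  -- first time where the first coordinate is ≥ r
  set S1 : Set ℝ := {s ∈ Icc (0:ℝ) 1 | r ≤ (γ s).1} with hS1
  have hS1c : IsCompact S1 := by
    have : IsClosed S1 := by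
      have := hf.preimage_isClosed_of_isClosed isClosed_Icc (isClosed_Ici (a := r))
      exact this
    exact isCompact_Icc.of_isClosed_subset this (fun s hs => hs.1)
  obtain ⟨s1, hs1, hs1min⟩ := hS1c.exists_isLeast ⟨1, ⟨by simp, h1⟩⟩
  set S0 : Set ℝ := {s ∈ Icc (0:ℝ) s1 | (γ s).1 ≤ l} with hS0
  have hs11 : s1 ≤ 1 := hs1.1.2
  have hS0c : IsCompact S0 := by
    have : IsClosed S0 := by
      have := (hf.mono (Icc_subset_Icc_right hs11)).preimage_isClosed_of_isClosed isClosed_Icc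
        (isClosed_Iic (a := l))
      exact this
    exact isCompact_Icc.of_isClosed_subset this (fun s hs => hs.1)
  obtain ⟨s0, hs0, hs0max⟩ := hS0c.exists_isGreatest ⟨0, ⟨⟨le_rfl, hs1.1.1⟩, h0⟩⟩
  have hs01 : s0 ≤ s1 := hs0.1.2
  have hs1r : (γ s1).1 = r := by
    refine le_antisymm ?_ hs1.2
    by_contra hcon
    push Not at hcon
    have hiv := intermediate_value_Icc hs1.1.1 (hf.mono (Icc_subset_Icc_right hs11))
    have hm : r ∈ Icc ((γ 0).1) ((γ s1).1) := ⟨by linarith, hcon.le⟩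
    obtain ⟨u, hu, hur⟩ := hiv hm
    have hule : s1 ≤ u := hs1min ⟨⟨hu.1, hu.2.trans hs11⟩, by simpa using hur.ge⟩
    have : u = s1 := le_antisymm hu.2 hule
    rw [this] at hur
    simp only at hur
    linarith
  have hs0l : (γ s0).1 = l := by
    refine le_antisymm hs0.2 ?_
    by_contra hcon
    push Not at hcon
    have hiv := intermediate_value_Icc hs01 (hf.mono (Icc_subset_Icc hs0.1.1 hs11))
    have hm : l ∈ Icc ((γ s0).1) ((γ s1).1) := ⟨hcon.le, by rw [hs1r]; exact hlr.le⟩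
    obtain ⟨u, hu, hur⟩ := hiv hm
    have hule : u ≤ s0 := hs0max ⟨⟨hs0.1.1.trans hu.1, hu.2⟩, by simpa using hur.le⟩
    have : u = s0 := le_antisymm hule hu.1
    rw [this] at hur
    simp only at hur
    linarith
  refine ⟨fun u => γ (s0 + u * (s1 - s0)), ?_, by simp [hs0l], by simp [hs1r], ?_, ?_⟩
  · refine hγ.comp (by fun_prop) ?_
    intro u hu
    obtain ⟨hu0, hu1⟩ := hu
    have := hs0.1.1
    constructor
    · nlinarith
    · nlinarith
  · intro u hu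
    obtain ⟨hu0, hu1⟩ := hu
    have h3 : s0 ≤ s0 + u * (s1 - s0) := by nlinarith
    have h4 : s0 + u * (s1 - s0) ≤ s1 := by nlinarith
    have h5 : 0 ≤ s0 := hs0.1.1
    constructor
    · by_contra hcon
      push Not at hcon
      have := hs0max ⟨⟨h5.trans h3, h4⟩, hcon.le⟩
      have h6 : s0 + u * (s1 - s0) = s0 := le_antisymm this h3
      rw [h6] at hcon
      linarith
    · by_contra hcon
      push Not at hcon
      have := hs1min ⟨⟨h5.trans h3, h4.trans hs11⟩, hcon.le⟩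
      have h6 : s0 + u * (s1 - s0) = s1 := le_antisymm h4 this
      rw [h6] at hcon
      linarith
  · rintro x ⟨u, hu, rfl⟩
    obtain ⟨hu0, hu1⟩ := hu
    have := hs0.1.1
    exact ⟨s0 + u * (s1 - s0), ⟨by nlinarith, by nlinarith⟩, rfl⟩

end Pool.Agent.EU
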