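import Pool.Agent.EU.Defs
import Pool.Agent.EU.Area
import Pool.Agent.EU.B

/-!
The map `Φ = (A, v)` of a nonconstant entire solution is open (once a.e. fibre is finite), and the
bound for a.e. fibre of an open map holds for every fibre.
-/

set_option autoImplicit false
open scoped ContDiff Topology ENNReal
open Real Set MeasureTheory Filter

namespace Pool.Agent.EU

theorem fiber_le_of_ae {f : P → P} (hc : Continuous f) (ho : IsOpenMap f) {n : ℕ}
    (hN : ∀ᵐ z : P, {x | f x = z}.encard ≤ n) : ∀ z, {x | f x = z}.encard ≤ n := by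
  have _ := hc
  intro z
  by_contra hlt
  rw [not_le] at hlt
  have h1 : ((n + 1 : ℕ) : ℕ∞) ≤ {x | f x = z}.encard := by
    have := Order.add_one_le_of_lt hlt
    simpa using this
  obtain ⟨t, ht, hcard⟩ := Set.exists_subset_encard_eq h1
  have hfin : t.Finite := Set.finite_of_encard_eq_coe hcard
  obtain ⟨U, hU, hUd⟩ := hfin.t2_separation
  have hWo : IsOpen (⋂ x ∈ t, f '' (U x)) :=
    hfin.isOpen_biInter fun x _ => ho _ (hU x).2
  have hne : (⋂ x ∈ t, f '' (U x)).Nonempty := by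
    refine ⟨z, ?_⟩
    rw [mem_iInter₂]
    intro x hx
    exact ⟨x, (hU x).1, ht hx⟩
  have hd := Measure.dense_of_ae hN
  obtain ⟨w, hw1, hw2⟩ := hd.exists_mem_open hWo hne
  rw [mem_iInter₂] at hw2
  choose! g hg1 hg2 using hw2
  have hinj : InjOn g t := by
    intro x hx y hy hxy
    by_contra hne'
    have := hUd hx hy hne'
    exact (Set.disjoint_left.1 this) (hg1 x hx) (hxy ▸ hg1 y hy)
  have h2 : (g '' t).encard ≤ {x | f x = w}.encard := by
    apply Set.encard_le_encard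
    rintro _ ⟨x, hx, rfl⟩
    exact hg2 x hx
  rw [hinj.encard_image, hcard] at h2
  have h3 : ((n + 1 : ℕ) : ℕ∞) ≤ n := h2.trans hw1
  have h4 : n + 1 ≤ n := by exact_mod_cast h3
  omega

/-! ### the weight `q` -/

/-- `1 / (t log² t)` for `0 < t < 1/4`, where `t = |z|²`. -/
noncomputable def qw (z : P) : ℝ≥0∞ :=
  if 0 < z.1 ^ 2 + z.2 ^ 2 ∧ z.1 ^ 2 + z.2 ^ 2 < 1 / 4 then
    ENNReal.ofReal (1 / ((z.1 ^ 2 + z.2 ^ 2) * (Real.log (z.1 ^ 2 + z.2 ^ 2)) ^ 2)) else 0

theorem measurable_qw : Measurable qw := by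
  unfold qw
  have ht : Measurable fun z : P => z.1 ^ 2 + z.2 ^ 2 := by fun_prop
  refine Measurable.ite ?_ ?_ measurable_const
  · exact (measurableSet_lt measurable_const ht).inter (measurableSet_lt ht measurable_const)
  · exact ENNReal.measurable_ofReal.comp
      ((ht.mul ((Real.measurable_log.comp ht).pow_const 2)).const_div 1)

/-- pointwise bound of the weight by dyadic boxes -/
theorem qw_le (z : P) : qw z ≤ ∑' k : ℕ,
    (Icc (-(1 / 2 : ℝ) ^ (k + 1)) ((1 / 2 : ℝ) ^ (k + 1)) ×ˢ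
      Icc (-(1 / 2 : ℝ) ^ (k + 1)) ((1 / 2 : ℝ) ^ (k + 1))).indicator
      (fun _ : P => ENNReal.ofReal (4 ^ (k + 2) / ((k : ℝ) + 1) ^ 2)) z := by
  unfold qw
  split_ifs with h
  swap
  · exact zero_le
  obtain ⟨h0, h1⟩ := h
  set t := z.1 ^ 2 + z.2 ^ 2 with ht
  -- find k with 4^{-(k+2)} ≤ t < 4^{-(k+1)}
  have hex : ∃ m : ℕ, (1 / 4 : ℝ) ^ (m + 2) ≤ t := by
    obtain ⟨m, hm⟩ := exists_pow_lt_of_lt_one h0 (by norm_num : (1 / 4 : ℝ) < 1)
    refine ⟨m, le_of_lt (lt_of_le_of_lt ?_ hm)⟩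
    exact pow_le_pow_of_le_one (by norm_num) (by norm_num) (by omega)
  classical
  obtain ⟨k, hk, hk'⟩ : ∃ k : ℕ, (1 / 4 : ℝ) ^ (k + 2) ≤ t ∧ t < (1 / 4 : ℝ) ^ (k + 1) := by
    refine ⟨Nat.find hex, Nat.find_spec hex, ?_⟩
    rcases Nat.eq_zero_or_pos (Nat.find hex) with h2 | h2
    · rw [h2]; simpa using h1
    · have := Nat.find_min hex (m := Nat.find hex - 1) (by omega)
      rw [not_le] at this
      have e : Nat.find hex - 1 + 2 = Nat.find hex + 1 := by omega
      rw [e] at this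
      exact this
  refine le_trans ?_ (ENNReal.le_tsum k)
  have hpow : (1 / 4 : ℝ) ^ (k + 1) = ((1 / 2 : ℝ) ^ (k + 1)) ^ 2 := by
    rw [← pow_mul, mul_comm, pow_mul]; norm_num
  have hb : ∀ c : ℝ, c ^ 2 ≤ t → c ∈ Icc (-(1 / 2 : ℝ) ^ (k + 1)) ((1 / 2 : ℝ) ^ (k + 1)) := by
    intro c hc
    have : c ^ 2 < ((1 / 2 : ℝ) ^ (k + 1)) ^ 2 := by rw [← hpow]; exact lt_of_le_of_lt hc hk'
    have h3 := abs_lt_of_sq_lt_sq this (by positivity)
    exact ⟨(abs_lt.1 h3).1.le, (abs_lt.1 h3).2.le⟩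
  have hz : z ∈ (Icc (-(1 / 2 : ℝ) ^ (k + 1)) ((1 / 2 : ℝ) ^ (k + 1)) ×ˢ
      Icc (-(1 / 2 : ℝ) ^ (k + 1)) ((1 / 2 : ℝ) ^ (k + 1))) :=
    ⟨hb _ (by rw [ht]; nlinarith [sq_nonneg z.2]), hb _ (by rw [ht]; nlinarith [sq_nonneg z.1])⟩
  rw [indicator_of_mem hz]
  apply ENNReal.ofReal_le_ofReal
  have hlog : (k : ℝ) + 1 ≤ -Real.log t := by
    have h4 : Real.log t ≤ Real.log ((1 / 4 : ℝ) ^ (k + 1)) := Real.log_le_log h0 hk'.le
    rw [Real.log_pow] at h4
    have h5 : Real.log (1 / 4) ≤ -1 := by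
      rw [Real.log_le_iff_le_exp (by norm_num)]
      have := Real.exp_one_lt_d9
      rw [Real.exp_neg, le_inv_comm₀ (by norm_num) (Real.exp_pos 1)]
      linarith
    push_cast at h4
    nlinarith [(Nat.cast_nonneg k : (0:ℝ) ≤ k)]
  have hsq : ((k : ℝ) + 1) ^ 2 ≤ (Real.log t) ^ 2 := by
    have := pow_le_pow_left₀ (by positivity : (0:ℝ) ≤ (k:ℝ) + 1) hlog 2
    simpa using this
  have hk2 : (1 / 4 : ℝ) ^ (k + 2) * ((k : ℝ) + 1) ^ 2 ≤ t * (Real.log t) ^ 2 :=
    mul_le_mul hk hsq (by positivity) h0.le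
  have hp : (0 : ℝ) < (1 / 4 : ℝ) ^ (k + 2) * ((k : ℝ) + 1) ^ 2 := by positivity
  calc 1 / (t * (Real.log t) ^ 2) ≤ 1 / ((1 / 4 : ℝ) ^ (k + 2) * ((k : ℝ) + 1) ^ 2) :=
        one_div_le_one_div_of_le hp hk2
    _ = 4 ^ (k + 2) / ((k : ℝ) + 1) ^ 2 := by
        rw [one_div_pow]; field_simp

theorem lintegral_qw : ∫⁻ z, qw z ≠ ⊤ := by
  have h1 : ∫⁻ z, qw z ≤ ∑' k : ℕ, ENNReal.ofReal (16 / ((k : ℝ) + 1) ^ 2) := by
    refine (lintegral_mono qw_le).trans ?_
    rw [lintegral_tsum]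
    swap
    · intro k
      exact (measurable_const.indicator (measurableSet_Icc.prod measurableSet_Icc)).aemeasurable
    refine ENNReal.tsum_le_tsum fun k => ?_
    rw [lintegral_indicator_const (measurableSet_Icc.prod measurableSet_Icc)]
    have hnn : (0 : ℝ) ≤ (1 / 2 : ℝ) ^ (k + 1) - -(1 / 2 : ℝ) ^ (k + 1) := by
      have : (0 : ℝ) ≤ (1 / 2 : ℝ) ^ (k + 1) := by positivity
      linarith
    rw [Measure.volume_eq_prod, Measure.prod_prod, Real.volume_Icc, ← ENNReal.ofReal_mul hnn,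
      ← ENNReal.ofReal_mul (by positivity)]
    apply ENNReal.ofReal_le_ofReal
    have hpow : ((1 / 2 : ℝ) ^ (k + 1)) * ((1 / 2 : ℝ) ^ (k + 1)) = 1 / 4 ^ (k + 1) := by
      rw [← mul_pow, ← one_div_pow]; norm_num
    have : 4 ^ (k + 2) / ((k : ℝ) + 1) ^ 2 *
        (((1 / 2 : ℝ) ^ (k + 1) - -(1 / 2 : ℝ) ^ (k + 1)) *
          ((1 / 2 : ℝ) ^ (k + 1) - -(1 / 2 : ℝ) ^ (k + 1))) =
        4 * 4 ^ (k + 2) / ((k : ℝ) + 1) ^ 2 * (((1 / 2 : ℝ) ^ (k + 1)) * ((1 / 2 : ℝ) ^ (k + 1))) := by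
      ring
    rw [this, hpow]
    apply le_of_eq
    field_simp
    ring
  refine ne_top_of_le_ne_top ?_ h1
  have hs : Summable fun k : ℕ => 16 / ((k : ℝ) + 1) ^ 2 := by
    have := (Real.summable_one_div_nat_add_rpow 1 2).2 (by norm_num)
    have h2 : Summable fun k : ℕ => 1 / ((k : ℝ) + 1) ^ 2 := by
      refine this.congr fun k => ?_
      rw [abs_of_nonneg (by positivity)]
      norm_num
    refine (h2.mul_left 16).congr fun k => by ring
  rw [← ENNReal.ofReal_tsum_of_nonneg (fun k => by positivity) hs]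
  exact ENNReal.ofReal_ne_top

/-! ### one variable -/

theorem line_aux {s s' : ℝ → ℝ} (hs : ∀ x, HasDerivAt s (s' x) x) (hs' : Continuous s')
    (h0 : ∀ x, 0 ≤ s x)
    (hF : ∫⁻ x, (if 0 < s x ∧ s x < 1 / 4 then
      ENNReal.ofReal ((s' x) ^ 2 / ((s x) ^ 2 * (Real.log (s x)) ^ 2)) else 0) ≠ ⊤)
    {x0 x1 : ℝ} (hx : x0 < x1) (hx0 : s x0 = 0) (hx1 : 0 < s x1) : False := by
  have hsc : Continuous s := continuous_iff_continuousAt.2 fun x => (hs x).continuousAt
  -- last zero before x1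
  obtain ⟨a, ha0, ha1, hapos⟩ : ∃ a, s a = 0 ∧ a < x1 ∧ ∀ x ∈ Ioc a x1, 0 < s x := by
    have hK : IsCompact (Icc x0 x1 ∩ s ⁻¹' {0}) :=
      isCompact_Icc.inter_right (isClosed_singleton.preimage hsc)
    obtain ⟨a, ha, hmax⟩ := hK.exists_isGreatest ⟨x0, ⟨left_mem_Icc.2 hx.le, hx0⟩⟩
    refine ⟨a, ha.2, lt_of_le_of_ne ha.1.2 ?_, ?_⟩
    · rintro rfl
      exact hx1.ne' ha.2
    · intro x hxx
      refine lt_of_le_of_ne (h0 x) fun he => ?_
      have := hmax ⟨⟨ha.1.1.trans hxx.1.le, hxx.2⟩, he.symm⟩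
      exact absurd this (not_le.2 hxx.1)
  -- `b` with `s < 1/4` on `[a, b]`
  obtain ⟨b, hab, hb1, hb⟩ : ∃ b, a < b ∧ b ≤ x1 ∧ ∀ x ∈ Ioc a b, 0 < s x ∧ s x < 1 / 4 := by
    have h1 : ∀ᶠ x in 𝓝 a, s x < 1 / 4 := by
      apply hsc.continuousAt.eventually_lt continuousAt_const
      rw [ha0]; norm_num
    obtain ⟨ε, hε, h2⟩ := Metric.eventually_nhds_iff.1 h1
    refine ⟨min x1 (a + ε / 2), lt_min ha1 (by linarith), min_le_left _ _, fun x hxx => ?_⟩
    have h3 : x ≤ x1 := hxx.2.trans (min_le_left _ _)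
    have h4 : x ≤ a + ε / 2 := hxx.2.trans (min_le_right _ _)
    refine ⟨hapos x ⟨hxx.1, h3⟩, h2 ?_⟩
    rw [Real.dist_eq, abs_of_pos (by linarith [hxx.1])]
    linarith
  set F : ℝ → ℝ≥0∞ := fun x => (if 0 < s x ∧ s x < 1 / 4 then
      ENNReal.ofReal ((s' x) ^ 2 / ((s x) ^ 2 * (Real.log (s x)) ^ 2)) else 0) with hFdef
  set M : ℝ := (∫⁻ x, F x).toReal with hM
  have hlogneg : ∀ x ∈ Ioc a b, Real.log (s x) < 0 := fun x hxx =>
    Real.log_neg (hb x hxx).1 (by linarith [(hb x hxx).2])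
  set h : ℝ → ℝ := fun x => Real.log (-Real.log (s x)) with hh
  set h' : ℝ → ℝ := fun x => s' x / (s x * Real.log (s x)) with hh'
  have hder : ∀ x ∈ Ioc a b, HasDerivAt h (h' x) x := by
    intro x hxx
    have e1 : HasDerivAt h (-(s' x / s x) / (-Real.log (s x))) x :=
      ((hs x).log (hb x hxx).1.ne').neg.log (neg_pos.2 (hlogneg x hxx)).ne'
    have e2 : h' x = -(s' x / s x) / (-Real.log (s x)) := by
      rw [hh']
      have := (hb x hxx).1.ne'
      have := (hlogneg x hxx).ne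
      field_simp
    rw [e2]
    exact e1
  have hcont : ∀ c ∈ Ioc a b, ContinuousOn h' (Icc c b) := by
    intro c hc x hxx
    have hxm : x ∈ Ioc a b := ⟨hc.1.trans_le hxx.1, hxx.2⟩
    apply ContinuousAt.continuousWithinAt
    apply (hs'.continuousAt).div
    · exact (hsc.continuousAt).mul ((hsc.continuousAt).log (hb x hxm).1.ne')
    · exact mul_ne_zero (hb x hxm).1.ne' (hlogneg x hxm).ne
  have hbound : ∀ c ∈ Ioc a b, h c ≤ |h b| + ((b - a) + M) := by
    intro c hc
    have hFTC : ∫ x in c..b, h' x = h b - h c := by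
      apply intervalIntegral.integral_eq_sub_of_hasDerivAt
      · intro x hxx
        rw [uIcc_of_le hc.2] at hxx
        exact hder x ⟨hc.1.trans_le hxx.1, hxx.2⟩
      · apply ContinuousOn.intervalIntegrable
        rw [uIcc_of_le hc.2]
        exact hcont c hc
    have h5 : |∫ x in c..b, h' x| ≤ ∫ x in c..b, (1 + (h' x) ^ 2) := by
      have h6 : |∫ x in c..b, h' x| ≤ ∫ x in c..b, |h' x| := by
        simpa using intervalIntegral.abs_integral_le_integral_abs (f := h') (μ := volume) hc.2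
      refine h6.trans ?_
      apply intervalIntegral.integral_mono_on hc.2
      · apply ContinuousOn.intervalIntegrable
        rw [uIcc_of_le hc.2]
        exact (hcont c hc).abs
      · apply ContinuousOn.intervalIntegrable
        rw [uIcc_of_le hc.2]
        exact continuousOn_const.add ((hcont c hc).pow 2)
      · intro x _
        rw [← sq_abs (h' x)]
        nlinarith [sq_nonneg (|h' x| - 1), abs_nonneg (h' x)]
    have h7 : ∫ x in c..b, (1 + (h' x) ^ 2) = (b - c) + ∫ x in c..b, (h' x) ^ 2 := by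
      rw [intervalIntegral.integral_add]
      · simp
      · exact intervalIntegrable_const
      · apply ContinuousOn.intervalIntegrable
        rw [uIcc_of_le hc.2]
        exact ((hcont c hc).pow 2)
    have h8 : ∫ x in c..b, (h' x) ^ 2 ≤ M := by
      rw [intervalIntegral.integral_of_le hc.2,
        integral_eq_lintegral_of_nonneg_ae (Eventually.of_forall fun x => sq_nonneg _)]
      · rw [hM]
        apply ENNReal.toReal_mono hF
        refine le_trans ?_ (setLIntegral_le_lintegral (Ioc c b) F)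
        apply setLIntegral_mono' measurableSet_Ioc
        intro x hxx
        have hxm : x ∈ Ioc a b := ⟨hc.1.trans hxx.1, hxx.2⟩
        rw [hFdef]
        simp only [if_pos (hb x hxm)]
        apply ENNReal.ofReal_le_ofReal
        apply le_of_eq
        rw [hh']
        simp only
        rw [div_pow, mul_pow]
      · apply ContinuousOn.aestronglyMeasurable _ measurableSet_Ioc
        exact ((hcont c hc).pow 2).mono Ioc_subset_Icc_self
    rw [hFTC, h7] at h5
    have h9 := (abs_le.1 h5).1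
    have h10 := le_abs_self (h b)
    linarith [hc.1]
  -- `h → ∞` at `a`
  have htend : Tendsto h (𝓝[>] a) atTop := by
    apply Real.tendsto_log_atTop.comp
    apply tendsto_neg_atBot_atTop.comp
    have h11 : Tendsto s (𝓝[>] a) (𝓝[>] 0) := by
      apply tendsto_nhdsWithin_of_tendsto_nhds_of_eventually_within
      · have := hsc.continuousAt (x := a)
        rw [ContinuousAt, ha0] at this
        exact this.mono_left nhdsWithin_le_nhds
      · filter_upwards [Ioc_mem_nhdsGT hab] with x hxx using (hb x hxx).1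
    exact Real.tendsto_log_nhdsGT_zero.comp h11
  have h12 := (htend.eventually_gt_atTop (|h b| + ((b - a) + M))).and (Ioc_mem_nhdsGT hab)
  obtain ⟨c, hc1, hc2⟩ := h12.exists
  exact absurd (hbound c hc2) (not_le.2 hc1)

theorem line_dich {s s' : ℝ → ℝ} (hs : ∀ x, HasDerivAt s (s' x) x) (hs' : Continuous s')
    (h0 : ∀ x, 0 ≤ s x)
    (hF : ∫⁻ x, (if 0 < s x ∧ s x < 1 / 4 then
      ENNReal.ofReal ((s' x) ^ 2 / ((s x) ^ 2 * (Real.log (s x)) ^ 2)) else 0) ≠ ⊤)
    {x1 : ℝ} (hx1 : s x1 ≠ 0) : ∀ x, s x ≠ 0 := by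
  intro x hx
  have hpos : 0 < s x1 := lt_of_le_of_ne (h0 x1) hx1.symm
  rcases lt_trichotomy x x1 with h | h | h
  · exact line_aux hs hs' h0 hF h hx hpos
  · rw [h] at hx; exact hx1 hx
  · -- reflect
    have := line_aux (s := fun y => s (-y)) (s' := fun y => -(s' (-y))) (x0 := -x) (x1 := -x1)
      (fun y => by
        have := (hs (-y)).comp y (hasDerivAt_neg y)
        simpa [Function.comp_def] using this)
      (hs'.comp continuous_neg).neg (fun y => h0 _) ?_ (by linarith) (by simpa using hx)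
      (by simpa using hpos)
    · exact this
    · have e := lintegral_neg_eq_self (μ := (volume : Measure ℝ)) (fun x => (if 0 < s x ∧ s x < 1 / 4 then
        ENNReal.ofReal ((s' x) ^ 2 / ((s x) ^ 2 * (Real.log (s x)) ^ 2)) else 0))
      rw [← e] at hF
      simpa using hF

/-! ### the energy of `log log` -/

section energy

variable {A v : P → ℝ}

theorem contDiff_pair (hs : Sol A v) : ContDiff ℝ ∞ (pair A v) := hs.cA.prodMk hs.cv

theorem det_pair (hs : Sol A v) (x : P) : (fderiv ℝ (pair A v) x).det = jac A x := by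
  have hf : fderiv ℝ (pair A v) x = (fderiv ℝ A x).prod (fderiv ℝ v x) :=
    (diffA hs x).fderiv_prodMk (diffv hs x)
  rw [det_eq]
  have e1 : d1 (pair A v) x = (d1 A x, d1 v x) := by unfold d1; rw [hf]; rfl
  have e2 : d2 (pair A v) x = (d2 A x, d2 v x) := by unfold d2; rw [hf]; rfl
  rw [e1, e2]
  simp only
  rw [hs.h1, hs.h2]
  unfold jac
  ring

theorem lintegral_energy (hs : Sol A v)
    (hN : ∀ᵐ z : P, {x | pair A v x = z}.encard ≤ 4) (z0 : P) :
    ∫⁻ x, qw (pair A v x - z0) * ENNReal.ofReal (jac A x) ≠ ⊤ := by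
  have hm : Measurable fun w : P => qw (w - z0) := measurable_qw.comp (measurable_id.sub_const z0)
  have h1 := area_formula (f := pair A v) ((contDiff_pair hs).of_le (by simp))
    MeasurableSet.univ (h := fun w => qw (w - z0)) hm
  rw [Measure.restrict_univ] at h1
  have h2 : ∫⁻ x, qw (pair A v x - z0) * ENNReal.ofReal (jac A x) =
      ∫⁻ x, qw (pair A v x - z0) * ENNReal.ofReal |(fderiv ℝ (pair A v) x).det| := by
    congr 1
    funext x
    rw [det_pair hs, abs_of_nonneg (jac_nonneg x)]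
  rw [h2, h1]
  have h3 : ∫⁻ w, qw (w - z0) * (({x | x ∈ univ ∧ pair A v x = w}.encard : ℕ∞) : ℝ≥0∞) ≤
      ∫⁻ w, qw (w - z0) * 4 := by
    apply lintegral_mono_ae
    filter_upwards [hN] with w hw
    have e : {x | x ∈ univ ∧ pair A v x = w} = {x | pair A v x = w} := by simp
    rw [e]
    gcongr
    exact_mod_cast hw
  refine ne_top_of_le_ne_top ?_ h3
  rw [lintegral_mul_const _ hm, lintegral_sub_right_eq_self (fun w => qw w) z0]
  exact ENNReal.mul_ne_top lintegral_qw (by simp)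

/-- the energy density of `log (-log s)` in a direction. -/
noncomputable def dens (s s' : ℝ) : ℝ≥0∞ :=
  if 0 < s ∧ s < 1 / 4 then ENNReal.ofReal (s' ^ 2 / (s ^ 2 * (Real.log s) ^ 2)) else 0

theorem measurable_dens : Measurable fun p : ℝ × ℝ => dens p.1 p.2 := by
  unfold dens
  refine Measurable.ite ?_ ?_ measurable_const
  · exact (measurableSet_lt measurable_const measurable_fst).inter
      (measurableSet_lt measurable_fst measurable_const)
  · exact ENNReal.measurable_ofReal.comp ((measurable_snd.pow_const 2).div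
      ((measurable_fst.pow_const 2).mul ((Real.measurable_log.comp measurable_fst).pow_const 2)))

theorem dens_le {z : ℂ} {x : P} {s' : ℝ}
    (hb : |A x - z.re| < 1 → s' ^ 2 ≤ 4 * rexp (|z.re| + 1) * (sq A v z x * jac A x)) :
    dens (sq A v z x) s' ≤ ENNReal.ofReal (4 * rexp (|z.re| + 1)) *
      (qw (pair A v x - (z.re, z.im)) * ENNReal.ofReal (jac A x)) := by
  unfold dens
  split_ifs with h
  swap
  · exact zero_le
  have hq : qw (pair A v x - (z.re, z.im)) =
      ENNReal.ofReal (1 / (sq A v z x * (Real.log (sq A v z x)) ^ 2)) := by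
    have e : (pair A v x - (z.re, z.im)).1 ^ 2 + (pair A v x - (z.re, z.im)).2 ^ 2 =
      sq A v z x := rfl
    unfold qw
    rw [e, if_pos h]
  rw [hq]
  have hlog : Real.log (sq A v z x) < 0 := Real.log_neg h.1 (by linarith [h.2])
  have hlog1 := hlog.ne
  have hlog2 : 0 < (Real.log (sq A v z x)) ^ 2 := by positivity
  have hA : |A x - z.re| < 1 := by
    have h2 : (A x - z.re) ^ 2 ≤ sq A v z x := by
      unfold sq; nlinarith [sq_nonneg (v x - z.im)]
    have : (A x - z.re) ^ 2 < 1 ^ 2 := by linarith [h.2]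
    exact abs_lt_of_sq_lt_sq this (by norm_num)
  have hb' := hb hA
  have h0 := h.1
  rw [← ENNReal.ofReal_mul (by positivity), ← ENNReal.ofReal_mul (by positivity)]
  apply ENNReal.ofReal_le_ofReal
  rw [div_le_iff₀ (by positivity)]
  refine hb'.trans (le_of_eq ?_)
  field_simp

theorem dens1_le (hs : Sol A v) (z : ℂ) (x : P) :
    dens (sq A v z x) (d1 (sq A v z) x) ≤ ENNReal.ofReal (4 * rexp (|z.re| + 1)) *
      (qw (pair A v x - (z.re, z.im)) * ENNReal.ofReal (jac A x)) := by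
  apply dens_le
  intro hA
  have hg := grad_sq hs z x
  have he := exp_mul_neg (A x)
  have h1 : rexp (-(A x)) ≤ rexp (|z.re| + 1) := by
    apply Real.exp_le_exp.2
    have := (abs_lt.1 hA).1
    have := neg_abs_le z.re
    linarith
  have hp : 0 ≤ 4 * sq A v z x * jac A x := by
    have := jac_nonneg (A := A) x
    have : 0 ≤ sq A v z x := by unfold sq; positivity
    positivity
  have h2 : (d1 (sq A v z) x) ^ 2 ≤ rexp (-(A x)) * (4 * sq A v z x * jac A x) := by
    rw [← hg]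
    have : rexp (-(A x)) * (rexp (A x) * (d1 (sq A v z) x) ^ 2 + rexp (-(A x)) * (d2 (sq A v z) x) ^ 2) =
      (rexp (A x) * rexp (-(A x))) * (d1 (sq A v z) x) ^ 2 +
        (rexp (-(A x)) * (d2 (sq A v z) x)) ^ 2 := by ring
    rw [this, he]
    nlinarith [sq_nonneg (rexp (-(A x)) * (d2 (sq A v z) x))]
  have h3 := mul_le_mul_of_nonneg_right h1 hp
  linarith

theorem dens2_le (hs : Sol A v) (z : ℂ) (x : P) :
    dens (sq A v z x) (d2 (sq A v z) x) ≤ ENNReal.ofReal (4 * rexp (|z.re| + 1)) *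
      (qw (pair A v x - (z.re, z.im)) * ENNReal.ofReal (jac A x)) := by
  apply dens_le
  intro hA
  have hg := grad_sq hs z x
  have he := exp_mul_neg (A x)
  have h1 : rexp (A x) ≤ rexp (|z.re| + 1) := by
    apply Real.exp_le_exp.2
    have := (abs_lt.1 hA).2
    have := le_abs_self z.re
    linarith
  have hp : 0 ≤ 4 * sq A v z x * jac A x := by
    have := jac_nonneg (A := A) x
    have : 0 ≤ sq A v z x := by unfold sq; positivity
    positivity
  have h2 : (d2 (sq A v z) x) ^ 2 ≤ rexp (A x) * (4 * sq A v z x * jac A x) := by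
    rw [← hg]
    have : rexp (A x) * (rexp (A x) * (d1 (sq A v z) x) ^ 2 + rexp (-(A x)) * (d2 (sq A v z) x) ^ 2) =
      (rexp (A x) * rexp (-(A x))) * (d2 (sq A v z) x) ^ 2 +
        (rexp (A x) * (d1 (sq A v z) x)) ^ 2 := by ring
    rw [this, he]
    nlinarith [sq_nonneg (rexp (A x) * (d1 (sq A v z) x))]
  have h3 := mul_le_mul_of_nonneg_right h1 hp
  linarith

theorem lintegral_dens1 (hs : Sol A v) (hN : ∀ᵐ z : P, {x | pair A v x = z}.encard ≤ 4) (z : ℂ) :
    ∫⁻ x, dens (sq A v z x) (d1 (sq A v z) x) ≠ ⊤ := by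
  refine ne_top_of_le_ne_top ?_ (lintegral_mono (dens1_le hs z))
  rw [lintegral_const_mul' _ _ ENNReal.ofReal_ne_top]
  exact ENNReal.mul_ne_top ENNReal.ofReal_ne_top (lintegral_energy hs hN _)

theorem lintegral_dens2 (hs : Sol A v) (hN : ∀ᵐ z : P, {x | pair A v x = z}.encard ≤ 4) (z : ℂ) :
    ∫⁻ x, dens (sq A v z x) (d2 (sq A v z) x) ≠ ⊤ := by
  refine ne_top_of_le_ne_top ?_ (lintegral_mono (dens2_le hs z))
  rw [lintegral_const_mul' _ _ ENNReal.ofReal_ne_top]
  exact ENNReal.mul_ne_top ENNReal.ofReal_ne_top (lintegral_energy hs hN _)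

theorem sq_nonneg' (z : ℂ) (x : P) : 0 ≤ sq A v z x := by unfold sq; positivity

theorem horiz (hs : Sol A v) (hN : ∀ᵐ z : P, {x | pair A v x = z}.encard ≤ 4) (z : ℂ) :
    ∀ᵐ y : ℝ, (∃ x1, sq A v z (x1, y) ≠ 0) → ∀ x, sq A v z (x, y) ≠ 0 := by
  have hsm := smooth_sq hs z
  have hm : Measurable fun x : P => dens (sq A v z x) (d1 (sq A v z) x) :=
    measurable_dens.comp (hsm.continuous.measurable.prodMk (smooth_d1 hsm).continuous.measurable)
  have h1 := lintegral_dens1 hs hN z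
  rw [Measure.volume_eq_prod, lintegral_prod_symm _ hm.aemeasurable] at h1
  have h2 := ae_lt_top hm.lintegral_prod_left' h1
  filter_upwards [h2] with y hy
  rintro ⟨x1, hx1⟩
  have hd : Differentiable ℝ (sq A v z) := hsm.differentiable (by simp)
  exact line_dich (s := fun x => sq A v z (x, y)) (s' := fun x => d1 (sq A v z) (x, y))
    (fun x => hasDerivAt_d1 (x := (x, y)) (hd _))
    ((smooth_d1 hsm).continuous.comp (continuous_id.prodMk continuous_const))
    (fun x => sq_nonneg' _ _) hy.ne hx1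

theorem vert (hs : Sol A v) (hN : ∀ᵐ z : P, {x | pair A v x = z}.encard ≤ 4) (z : ℂ) :
    ∀ᵐ x : ℝ, (∃ y1, sq A v z (x, y1) ≠ 0) → ∀ y, sq A v z (x, y) ≠ 0 := by
  have hsm := smooth_sq hs z
  have hm : Measurable fun x : P => dens (sq A v z x) (d2 (sq A v z) x) :=
    measurable_dens.comp (hsm.continuous.measurable.prodMk (smooth_d2 hsm).continuous.measurable)
  have h1 := lintegral_dens2 hs hN z
  rw [Measure.volume_eq_prod, lintegral_prod _ hm.aemeasurable] at h1
  have h2 := ae_lt_top hm.lintegral_prod_right' h1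
  filter_upwards [h2] with x hx
  rintro ⟨y1, hy1⟩
  have hd : Differentiable ℝ (sq A v z) := hsm.differentiable (by simp)
  exact line_dich (s := fun y => sq A v z (x, y)) (s' := fun y => d2 (sq A v z) (x, y))
    (fun y => hasDerivAt_d2 (x := (x, y)) (hd _))
    ((smooth_d2 hsm).continuous.comp (continuous_const.prodMk continuous_id))
    (fun x => sq_nonneg' _ _) hx.ne hy1

theorem lines (hs : Sol A v) (hN : ∀ᵐ z : P, {x | pair A v x = z}.encard ≤ 4) (z : ℂ)
    (hZ : ∃ p, sq A v z p ≠ 0) :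
    (∀ᵐ x : ℝ, ∀ y, sq A v z (x, y) ≠ 0) ∧ (∀ᵐ y : ℝ, ∀ x, sq A v z (x, y) ≠ 0) := by
  have hH := horiz hs hN z
  have hV := vert hs hN z
  obtain ⟨p, hp⟩ := hZ
  have hc : Continuous (sq A v z) := (smooth_sq hs z).continuous
  -- a horizontal line disjoint from Z
  have ho : IsOpen {y : ℝ | sq A v z (p.1, y) ≠ 0} :=
    isOpen_ne.preimage (hc.comp (continuous_const.prodMk continuous_id))
  obtain ⟨y0, hy0, hy0'⟩ := (Measure.dense_of_ae hH).exists_mem_open ho ⟨p.2, hp⟩
  have hline := hy0 ⟨p.1, hy0'⟩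
  have hV' : ∀ᵐ x : ℝ, ∀ y, sq A v z (x, y) ≠ 0 := by
    filter_upwards [hV] with x hx using hx ⟨y0, hline x⟩
  refine ⟨hV', ?_⟩
  obtain ⟨x0, hx0⟩ := (Measure.dense_of_ae hV').nonempty
  filter_upwards [hH] with y hy using hy ⟨x0, hx0 y⟩

theorem exists_rect (hs : Sol A v) (hN : ∀ᵐ z : P, {x | pair A v x = z}.encard ≤ 4) (z : ℂ)
    (hZ : ∃ p, sq A v z p ≠ 0) (p : P) {ε : ℝ} (hε : 0 < ε) :
    ∃ R : Set P, IsOpen R ∧ p ∈ R ∧ closure R ⊆ Metric.closedBall p ε ∧
      ∀ x ∈ frontier R, sq A v z x ≠ 0 := by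
  obtain ⟨hX, hY⟩ := lines hs hN z hZ
  have hX' := Measure.dense_of_ae hX
  have hY' := Measure.dense_of_ae hY
  obtain ⟨a1, ha1, ha1'⟩ := hX'.exists_mem_open (isOpen_Ioo (a := p.1 - ε) (b := p.1))
    (nonempty_Ioo.2 (by linarith))
  obtain ⟨b1, hb1, hb1'⟩ := hX'.exists_mem_open (isOpen_Ioo (a := p.1) (b := p.1 + ε))
    (nonempty_Ioo.2 (by linarith))
  obtain ⟨a2, ha2, ha2'⟩ := hY'.exists_mem_open (isOpen_Ioo (a := p.2 - ε) (b := p.2))
    (nonempty_Ioo.2 (by linarith))
  obtain ⟨b2, hb2, hb2'⟩ := hY'.exists_mem_open (isOpen_Ioo (a := p.2) (b := p.2 + ε))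
    (nonempty_Ioo.2 (by linarith))
  have h1 : a1 < b1 := ha1'.2.trans hb1'.1
  have h2 : a2 < b2 := ha2'.2.trans hb2'.1
  refine ⟨Ioo a1 b1 ×ˢ Ioo a2 b2, isOpen_Ioo.prod isOpen_Ioo, ⟨⟨ha1'.2, hb1'.1⟩, ha2'.2, hb2'.1⟩,
    ?_, ?_⟩
  · rw [closure_prod_eq, closure_Ioo h1.ne, closure_Ioo h2.ne]
    rintro ⟨x, y⟩ ⟨hx, hy⟩
    simp only at hx hy
    rw [Metric.mem_closedBall, Prod.dist_eq, max_le_iff]
    constructor
    · rw [Real.dist_eq, abs_le]
      constructor <;> simp only <;> linarith [hx.1, hx.2, ha1'.1, hb1'.2]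
    · rw [Real.dist_eq, abs_le]
      constructor <;> simp only <;> linarith [hy.1, hy.2, ha2'.1, hb2'.2]
  · intro x hx
    rw [frontier_prod_eq, frontier_Ioo h1, frontier_Ioo h2] at hx
    rcases hx with ⟨_, hx | hx⟩ | ⟨hx | hx, _⟩
    · have := ha2 x.1
      rw [← hx] at this
      exact this
    · have := hb2 x.1
      rw [← (show x.2 = b2 from hx)] at this
      exact this
    · have := ha1 x.2
      rw [← hx] at this
      exact this
    · have := hb1 x.2
      rw [← (show x.1 = b1 from hx)] at this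
      exact this

end energy

theorem isOpenMap_pair {A v : P → ℝ} (hs : Sol A v) (hne : ∃ x y, A x ≠ A y)
    (hN : ∀ᵐ z : P, {x | pair A v x = z}.encard ≤ 4) : IsOpenMap (pair A v) := by
  rw [isOpenMap_iff_nhds_le]
  intro p W hW
  rw [mem_map] at hW
  obtain ⟨ε, hε, hball⟩ := Metric.nhds_basis_closedBall.mem_iff.1 hW
  have hsq : ∀ z : ℂ, ∀ x : P, sq A v z x = 0 ↔ cpair A v x = z := by
    intro z x
    rw [sq_eq]
    rw [pow_eq_zero_iff (by norm_num), norm_eq_zero, sub_eq_zero]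
  have hZ : ∃ q, sq A v (cpair A v p) q ≠ 0 := by
    by_contra hcon
    push Not at hcon
    obtain ⟨x, y, hxy⟩ := hne
    apply hxy
    have h1 := (hsq _ x).1 (hcon x)
    have h2 := (hsq _ y).1 (hcon y)
    have := congrArg Complex.re (h1.trans h2.symm)
    exact this
  obtain ⟨R, hRo, hpR, hRc, hRf⟩ := exists_rect hs hN (cpair A v p) hZ p hε
  have hbd : Bornology.IsBounded R :=
    (Metric.isBounded_closedBall (x := p) (r := ε)).subset (subset_closure.trans hRc)
  have hK : IsCompact (frontier R) :=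
    Metric.isCompact_of_isClosed_isBounded isClosed_frontier
      ((Metric.isBounded_closedBall (x := p) (r := ε)).subset (frontier_subset_closure.trans hRc))
  -- a lower bound on the frontier
  have hcont : Continuous (cpair A v) := by
    have : cpair A v = fun x => (A x : ℂ) + (v x : ℂ) * Complex.I := by
      funext x
      apply Complex.ext <;> simp [cpair]
    rw [this]
    exact (Complex.continuous_ofReal.comp hs.cA.continuous).add
      ((Complex.continuous_ofReal.comp hs.cv.continuous).mul continuous_const)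
  obtain ⟨δ, hδ, hδb⟩ : ∃ δ > 0, ∀ x ∈ frontier R, 2 * δ ≤ ‖cpair A v x - cpair A v p‖ := by
    rcases (frontier R).eq_empty_or_nonempty with he | hne'
    · exact ⟨1, one_pos, by rw [he]; simp⟩
    · obtain ⟨x0, hx0, hmin⟩ := hK.exists_isMinOn hne'
        (f := fun x => ‖cpair A v x - cpair A v p‖)
        ((hcont.sub continuous_const).norm.continuousOn)
      have hpos : 0 < ‖cpair A v x0 - cpair A v p‖ := by
        rw [norm_pos_iff, sub_ne_zero]
        intro h
        exact hRf x0 hx0 ((hsq _ _).2 h)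
      refine ⟨‖cpair A v x0 - cpair A v p‖ / 2, by positivity, fun x hx => ?_⟩
      have := hmin hx
      simp only [mem_ofPred_eq] at this
      linarith
  -- the ball is covered
  have hcov : ∀ z : ℂ, ‖cpair A v p - z‖ < δ → ∃ x ∈ closure R, cpair A v x = z := by
    intro z hz
    by_contra hcon
    push Not at hcon
    have h1 := min_modulus hs hRo hbd hcon (δ := δ) (by
      intro x hx
      have h2 := hδb x hx
      have h3 : ‖cpair A v x - cpair A v p‖ ≤ ‖cpair A v x - z‖ + ‖cpair A v p - z‖ := by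
        have : cpair A v x - cpair A v p = (cpair A v x - z) - (cpair A v p - z) := by ring
        rw [this]
        exact norm_sub_le _ _
      linarith) p (subset_closure hpR)
    linarith
  -- conclusion
  rw [Metric.mem_nhds_iff]
  refine ⟨δ / 2, by positivity, fun w hw => ?_⟩
  obtain ⟨x, hx, hxw⟩ := hcov ⟨w.1, w.2⟩ (by
    rw [Metric.mem_ball, Prod.dist_eq, max_lt_iff, Real.dist_eq, Real.dist_eq] at hw
    have h1 := hw.1
    have h2 := hw.2
    have h3 : ‖cpair A v p - ⟨w.1, w.2⟩‖ ≤ |(cpair A v p - ⟨w.1, w.2⟩).re| +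
        |(cpair A v p - ⟨w.1, w.2⟩).im| := Complex.norm_le_abs_re_add_abs_im _
    have e1 : (cpair A v p - ⟨w.1, w.2⟩).re = -(w.1 - (pair A v p).1) := by
      simp [cpair, pair]
    have e2 : (cpair A v p - ⟨w.1, w.2⟩).im = -(w.2 - (pair A v p).2) := by
      simp [cpair, pair]
    rw [e1, e2, abs_neg, abs_neg] at h3
    linarith)
  have : pair A v x = w := by
    have e1 := congrArg Complex.re hxw
    have e2 := congrArg Complex.im hxw
    exact Prod.ext e1 e2
  rw [← this]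
  exact hball (hRc hx)

end Pool.Agent.EU
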