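import Pool.Agent.EU.Defs
import Pool.Agent.EU.Area
import Pool.Agent.EU.B
import Pool.Agent.EU.L
import Pool.Agent.EU.Open

/-!
The map `Φ = (A, v)` of a nonconstant entire solution is proper.
-/

set_option autoImplicit false
open scoped ContDiff Topology ENNReal
open Real Set MeasureTheory Filter

namespace Pool.Agent.EU

namespace Pro

/-! ### one variable -/

/-- small energy on a segment gives small oscillation. -/
theorem osc_line {g g' : ℝ → ℝ} (hg : ∀ x, HasDerivAt g (g' x) x) (hg' : Continuous g')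
    {R η : ℝ} (hR : 0 < R) (hη : 0 < η)
    (hE : (∫⁻ x, ENNReal.ofReal ((g' x) ^ 2)) ≤ ENNReal.ofReal (η ^ 2 / (2 * R))) {a b : ℝ}
    (hab : a ≤ b) (ha : -R ≤ a) (hb : b ≤ R) : |g b - g a| ≤ η := by
  have hFTC : ∫ x in a..b, g' x = g b - g a := by
    apply intervalIntegral.integral_eq_sub_of_hasDerivAt
    · intro x _
      exact hg x
    · exact hg'.intervalIntegrable _ _
  rw [← hFTC]
  have hsqint : ∫ x in a..b, (g' x) ^ 2 ≤ η ^ 2 / (2 * R) := by
    rw [intervalIntegral.integral_of_le hab,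
      integral_eq_lintegral_of_nonneg_ae (Eventually.of_forall fun x => sq_nonneg _)
        (by fun_prop)]
    refine ENNReal.toReal_le_of_le_ofReal (by positivity) ?_
    exact (setLIntegral_le_lintegral _ _).trans hE
  have h1 : |∫ x in a..b, g' x| ≤ ∫ x in a..b, |g' x| := by
    simpa using intervalIntegral.abs_integral_le_integral_abs (f := g') (μ := volume) hab
  have h2 : ∫ x in a..b, |g' x| ≤ ∫ x in a..b, (η / (4 * R) + (R / η) * (g' x) ^ 2) := by
    apply intervalIntegral.integral_mono_on hab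
    · exact hg'.abs.intervalIntegrable _ _
    · exact (continuous_const.add (continuous_const.mul (hg'.pow 2))).intervalIntegrable _ _
    · intro x _
      rw [← sq_abs (g' x)]
      have h3 : 0 ≤ (|g' x| * (2 * R) - η) ^ 2 := sq_nonneg _
      have h4 : η / (4 * R) + R / η * |g' x| ^ 2 - |g' x| =
        (|g' x| * (2 * R) - η) ^ 2 / (4 * R * η) := by
        field_simp
        ring
      have h5 : 0 ≤ (|g' x| * (2 * R) - η) ^ 2 / (4 * R * η) := by positivity
      linarith
  have h3 : ∫ x in a..b, (η / (4 * R) + (R / η) * (g' x) ^ 2) =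
      (b - a) * (η / (4 * R)) + (R / η) * ∫ x in a..b, (g' x) ^ 2 := by
    rw [intervalIntegral.integral_add, intervalIntegral.integral_const,
      intervalIntegral.integral_const_mul, smul_eq_mul]
    · exact intervalIntegrable_const
    · exact (continuous_const.mul (hg'.pow 2)).intervalIntegrable _ _
  have h4 : (b - a) * (η / (4 * R)) ≤ (2 * R) * (η / (4 * R)) :=
    mul_le_mul_of_nonneg_right (by linarith) (by positivity)
  have h5 : (R / η) * ∫ x in a..b, (g' x) ^ 2 ≤ (R / η) * (η ^ 2 / (2 * R)) :=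
    mul_le_mul_of_nonneg_left hsqint (by positivity)
  have h6 : (2 * R) * (η / (4 * R)) + (R / η) * (η ^ 2 / (2 * R)) = η := by
    field_simp
    ring
  linarith

/-- an integrable function is small compared to `1/R` for arbitrarily large `R`. -/
theorem exists_small {E : ℝ → ℝ≥0∞} (hE : ∫⁻ R, E R ≠ ⊤) {ε : ℝ} (hε : 0 < ε) (R0 : ℝ) :
    ∃ R, R0 < R ∧ 0 < R ∧ E R ≤ ENNReal.ofReal (ε / R) := by
  by_contra hcon
  push Not at hcon
  have h1 : ∫⁻ R in Ioi (max R0 1), ENNReal.ofReal (ε / R) ≤ ∫⁻ R, E R := by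
    refine le_trans ?_ (setLIntegral_le_lintegral (Ioi (max R0 1)) E)
    apply setLIntegral_mono' measurableSet_Ioi
    intro R hR
    rw [mem_Ioi, max_lt_iff] at hR
    exact (hcon R hR.1 (by linarith [hR.2])).le
  have h2 : IntegrableOn (fun R : ℝ => ε / R) (Ioi (max R0 1)) := by
    refine ⟨by fun_prop, ?_⟩
    rw [hasFiniteIntegral_iff_ofReal]
    · exact lt_of_le_of_lt h1 (lt_top_iff_ne_top.2 hE)
    · filter_upwards [ae_restrict_mem measurableSet_Ioi] with R hR
      rw [mem_Ioi, max_lt_iff] at hR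
      have : 0 < R := by linarith [hR.2]
      simp only [Pi.zero_apply]
      positivity
  have h3 : IntegrableOn (fun R : ℝ => R⁻¹) (Ioi (max R0 1)) := by
    have h4 : IntegrableOn (fun R : ℝ => ε⁻¹ * (ε / R)) (Ioi (max R0 1)) := h2.const_mul (ε⁻¹)
    refine h4.congr_fun (fun R hR => ?_) measurableSet_Ioi
    simp only
    rw [div_eq_mul_inv, ← mul_assoc, inv_mul_cancel₀ hε.ne', one_mul]
  exact not_integrableOn_Ioi_inv h3

/-! ### the truncated square -/

section trunc

variable {A v : P → ℝ}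

/-- the truncation. -/
noncomputable def tr (A v : P → ℝ) (z : ℂ) (x : P) : ℝ := (max (1 - sq A v z x) 0) ^ 3

theorem tr_facts (hs : Sol A v) (z : ℂ) : ContDiff ℝ 2 (tr A v z) ∧
    (∀ x, d1 (tr A v z) x = 3 * (max (1 - sq A v z x) 0) ^ 2 * -d1 (sq A v z) x) ∧
    (∀ x, d2 (tr A v z) x = 3 * (max (1 - sq A v z x) 0) ^ 2 * -d2 (sq A v z) x) := by
  have hf : ContDiff ℝ 2 (fun x => 1 - sq A v z x) :=
    contDiff_const.sub ((smooth_sq hs z).of_le (by norm_cast))
  have hsd : Differentiable ℝ (sq A v z) := (smooth_sq hs z).differentiable (by simp)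
  have ho : IsOpen {x : P | 0 < 1 - sq A v z x} := isOpen_lt continuous_const hf.continuous
  have key := cube_lemma hf (D := univ) (by simpa using ho) (by simp)
  simp only [indicator_univ] at key
  have e1 : ∀ x, d1 (fun x => 1 - sq A v z x) x = -d1 (sq A v z) x := by
    intro x
    unfold d1
    rw [fderiv_const_sub]
    rfl
  have e2 : ∀ x, d2 (fun x => 1 - sq A v z x) x = -d2 (sq A v z) x := by
    intro x
    unfold d2
    rw [fderiv_const_sub]
    rfl
  refine ⟨key.1, fun x => ?_, fun x => ?_⟩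
  · rw [← e1]; exact key.2.1 x
  · rw [← e2]; exact key.2.2.1 x

/-- indicator of the unit disc around `z`. -/
noncomputable def ind (z : ℂ) (w : P) : ℝ≥0∞ :=
  if (w.1 - z.re) ^ 2 + (w.2 - z.im) ^ 2 < 1 then 1 else 0

theorem measurable_ind (z : ℂ) : Measurable (ind z) := by
  unfold ind
  refine Measurable.ite ?_ measurable_const measurable_const
  exact measurableSet_lt (by fun_prop) measurable_const

theorem lintegral_ind (z : ℂ) : ∫⁻ w, ind z w ≠ ⊤ := by
  have h1 : ∫⁻ w, ind z w ≤ ∫⁻ w, (Icc (z.re - 1) (z.re + 1) ×ˢ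
      Icc (z.im - 1) (z.im + 1)).indicator (fun _ : P => (1 : ℝ≥0∞)) w := by
    apply lintegral_mono
    intro w
    unfold ind
    split_ifs with h
    · rw [indicator_of_mem]
      have h2 : (w.1 - z.re) ^ 2 < 1 ^ 2 := by nlinarith [sq_nonneg (w.2 - z.im)]
      have h3 : (w.2 - z.im) ^ 2 < 1 ^ 2 := by nlinarith [sq_nonneg (w.1 - z.re)]
      have h4 := abs_lt.1 (abs_lt_of_sq_lt_sq h2 (by norm_num))
      have h5 := abs_lt.1 (abs_lt_of_sq_lt_sq h3 (by norm_num))
      exact ⟨⟨by linarith [h4.1], by linarith [h4.2]⟩, by linarith [h5.1], by linarith [h5.2]⟩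
    · exact zero_le
  refine ne_top_of_le_ne_top ?_ h1
  rw [lintegral_indicator_const (measurableSet_Icc.prod measurableSet_Icc), Measure.volume_eq_prod,
    Measure.prod_prod, Real.volume_Icc, Real.volume_Icc]
  exact ENNReal.mul_ne_top ENNReal.one_ne_top (ENNReal.mul_ne_top ENNReal.ofReal_ne_top
    ENNReal.ofReal_ne_top)

theorem lintegral_ind_jac (hs : Sol A v)
    (hN : ∀ᵐ z : P, {x | pair A v x = z}.encard ≤ 4) (z : ℂ) :
    ∫⁻ x, ind z (pair A v x) * ENNReal.ofReal (jac A x) ≠ ⊤ := by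
  have hm := measurable_ind z
  have h1 := area_formula (f := pair A v) ((contDiff_pair hs).of_le (by simp))
    MeasurableSet.univ (h := ind z) hm
  rw [Measure.restrict_univ] at h1
  have h2 : ∫⁻ x, ind z (pair A v x) * ENNReal.ofReal (jac A x) =
      ∫⁻ x, ind z (pair A v x) * ENNReal.ofReal |(fderiv ℝ (pair A v) x).det| := by
    congr 1
    funext x
    rw [det_pair hs, abs_of_nonneg (jac_nonneg x)]
  rw [h2, h1]
  have h3 : ∫⁻ w, ind z w * (({x | x ∈ univ ∧ pair A v x = w}.encard : ℕ∞) : ℝ≥0∞) ≤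
      ∫⁻ w, ind z w * 4 := by
    apply lintegral_mono_ae
    filter_upwards [hN] with w hw
    have e : {x | x ∈ univ ∧ pair A v x = w} = {x | pair A v x = w} := by simp
    rw [e]
    gcongr
    exact_mod_cast hw
  refine ne_top_of_le_ne_top ?_ h3
  rw [lintegral_mul_const _ hm]
  exact ENNReal.mul_ne_top (lintegral_ind z) (by simp)

theorem grad_le {z : ℂ} {x : P} {s' : ℝ}
    (hb : |A x - z.re| < 1 → s' ^ 2 ≤ 4 * rexp (|z.re| + 1) * (sq A v z x * jac A x)) :
    ENNReal.ofReal ((3 * (max (1 - sq A v z x) 0) ^ 2 * -s') ^ 2) ≤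
      ENNReal.ofReal (36 * rexp (|z.re| + 1)) *
      (ind z (pair A v x) * ENNReal.ofReal (jac A x)) := by
  have e : (pair A v x).1 = A x := rfl
  have e' : (pair A v x).2 = v x := rfl
  have es : (A x - z.re) ^ 2 + (v x - z.im) ^ 2 = sq A v z x := rfl
  unfold ind
  rw [e, e', es]
  split_ifs with h
  swap
  · have : max (1 - sq A v z x) 0 = 0 := max_eq_right (by linarith)
    rw [this]
    simp
  have h0 : 0 ≤ sq A v z x := sq_nonneg' z x
  have hA : |A x - z.re| < 1 := by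
    have h2 : (A x - z.re) ^ 2 ≤ sq A v z x := by
      unfold sq; nlinarith [sq_nonneg (v x - z.im)]
    have : (A x - z.re) ^ 2 < 1 ^ 2 := by linarith
    exact abs_lt_of_sq_lt_sq this (by norm_num)
  have hb' := hb hA
  rw [one_mul, ← ENNReal.ofReal_mul (by positivity)]
  apply ENNReal.ofReal_le_ofReal
  have hm0 : 0 ≤ max (1 - sq A v z x) 0 := le_max_right _ _
  have hm1 : max (1 - sq A v z x) 0 ≤ 1 := max_le (by linarith) (by norm_num)
  have hm4 : (max (1 - sq A v z x) 0) ^ 4 ≤ 1 := pow_le_one₀ hm0 hm1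
  have hj := jac_nonneg (A := A) x
  have h5 : 4 * rexp (|z.re| + 1) * (sq A v z x * jac A x) ≤ 4 * rexp (|z.re| + 1) * jac A x := by
    apply mul_le_mul_of_nonneg_left _ (by positivity)
    nlinarith
  calc (3 * (max (1 - sq A v z x) 0) ^ 2 * -s') ^ 2 =
      9 * (max (1 - sq A v z x) 0) ^ 4 * s' ^ 2 := by ring
    _ ≤ 9 * 1 * s' ^ 2 := by gcongr
    _ ≤ 9 * 1 * (4 * rexp (|z.re| + 1) * jac A x) := by gcongr; linarith
    _ = 36 * rexp (|z.re| + 1) * jac A x := by ring

theorem grad1_le (hs : Sol A v) (z : ℂ) (x : P) :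
    ENNReal.ofReal ((d1 (tr A v z) x) ^ 2) ≤ ENNReal.ofReal (36 * rexp (|z.re| + 1)) *
      (ind z (pair A v x) * ENNReal.ofReal (jac A x)) := by
  rw [(tr_facts hs z).2.1 x]
  apply grad_le
  intro hA
  have hg := grad_sq hs z x
  have he := exp_mul_neg (A x)
  have h1 : rexp (-(A x)) ≤ rexp (|z.re| + 1) := by
    apply Real.exp_le_exp.2
    have := (abs_lt.1 hA).1
    have := neg_abs_le z.re
    linarith
  have hp : 0 ≤ 4 * sq A v z x * jac A x := by
    have := jac_nonneg (A := A) x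
    have : 0 ≤ sq A v z x := by unfold sq; positivity
    positivity
  have h2 : (d1 (sq A v z) x) ^ 2 ≤ rexp (-(A x)) * (4 * sq A v z x * jac A x) := by
    rw [← hg]
    have : rexp (-(A x)) * (rexp (A x) * (d1 (sq A v z) x) ^ 2 + rexp (-(A x)) * (d2 (sq A v z) x) ^ 2) =
      (rexp (A x) * rexp (-(A x))) * (d1 (sq A v z) x) ^ 2 +
        (rexp (-(A x)) * (d2 (sq A v z) x)) ^ 2 := by ring
    rw [this, he]
    nlinarith [sq_nonneg (rexp (-(A x)) * (d2 (sq A v z) x))]
  have h3 := mul_le_mul_of_nonneg_right h1 hp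
  linarith

theorem grad2_le (hs : Sol A v) (z : ℂ) (x : P) :
    ENNReal.ofReal ((d2 (tr A v z) x) ^ 2) ≤ ENNReal.ofReal (36 * rexp (|z.re| + 1)) *
      (ind z (pair A v x) * ENNReal.ofReal (jac A x)) := by
  rw [(tr_facts hs z).2.2 x]
  apply grad_le
  intro hA
  have hg := grad_sq hs z x
  have he := exp_mul_neg (A x)
  have h1 : rexp (A x) ≤ rexp (|z.re| + 1) := by
    apply Real.exp_le_exp.2
    have := (abs_lt.1 hA).2
    have := le_abs_self z.re
    linarith
  have hp : 0 ≤ 4 * sq A v z x * jac A x := by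
    have := jac_nonneg (A := A) x
    have : 0 ≤ sq A v z x := by unfold sq; positivity
    positivity
  have h2 : (d2 (sq A v z) x) ^ 2 ≤ rexp (A x) * (4 * sq A v z x * jac A x) := by
    rw [← hg]
    have : rexp (A x) * (rexp (A x) * (d1 (sq A v z) x) ^ 2 + rexp (-(A x)) * (d2 (sq A v z) x) ^ 2) =
      (rexp (A x) * rexp (-(A x))) * (d2 (sq A v z) x) ^ 2 +
        (rexp (A x) * (d1 (sq A v z) x)) ^ 2 := by ring
    rw [this, he]
    nlinarith [sq_nonneg (rexp (A x) * (d1 (sq A v z) x))]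
  have h3 := mul_le_mul_of_nonneg_right h1 hp
  linarith

theorem lintegral_grad1 (hs : Sol A v) (hN : ∀ᵐ z : P, {x | pair A v x = z}.encard ≤ 4) (z : ℂ) :
    ∫⁻ x, ENNReal.ofReal ((d1 (tr A v z) x) ^ 2) ≠ ⊤ := by
  refine ne_top_of_le_ne_top ?_ (lintegral_mono (grad1_le hs z))
  rw [lintegral_const_mul' _ _ ENNReal.ofReal_ne_top]
  exact ENNReal.mul_ne_top ENNReal.ofReal_ne_top (lintegral_ind_jac hs hN _)

theorem lintegral_grad2 (hs : Sol A v) (hN : ∀ᵐ z : P, {x | pair A v x = z}.encard ≤ 4) (z : ℂ) :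
    ∫⁻ x, ENNReal.ofReal ((d2 (tr A v z) x) ^ 2) ≠ ⊤ := by
  refine ne_top_of_le_ne_top ?_ (lintegral_mono (grad2_le hs z))
  rw [lintegral_const_mul' _ _ ENNReal.ofReal_ne_top]
  exact ENNReal.mul_ne_top ENNReal.ofReal_ne_top (lintegral_ind_jac hs hN _)

/-- the total energy on the sides of the square of half-side `R`. -/
noncomputable def En (A v : P → ℝ) (z : ℂ) (R : ℝ) : ℝ≥0∞ :=
  ((∫⁻ x : ℝ, ENNReal.ofReal ((d1 (tr A v z) (x, R)) ^ 2)) +
    (∫⁻ x : ℝ, ENNReal.ofReal ((d1 (tr A v z) (x, -R)) ^ 2))) +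
  ((∫⁻ y : ℝ, ENNReal.ofReal ((d2 (tr A v z) (R, y)) ^ 2)) +
    (∫⁻ y : ℝ, ENNReal.ofReal ((d2 (tr A v z) (-R, y)) ^ 2)))

theorem lintegral_En (hs : Sol A v) (hN : ∀ᵐ z : P, {x | pair A v x = z}.encard ≤ 4) (z : ℂ) :
    ∫⁻ R, En A v z R ≠ ⊤ := by
  have hc1 : Continuous (d1 (tr A v z)) :=
    (contDiff_d1 (tr_facts hs z).1 (m := 1) (by norm_num)).continuous
  have hc2 : Continuous (d2 (tr A v z)) :=
    (contDiff_d2 (tr_facts hs z).1 (m := 1) (by norm_num)).continuous
  have hm1 : Measurable fun x : P => ENNReal.ofReal ((d1 (tr A v z) x) ^ 2) :=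
    ENNReal.measurable_ofReal.comp (hc1.pow 2).measurable
  have hm2 : Measurable fun x : P => ENNReal.ofReal ((d2 (tr A v z) x) ^ 2) :=
    ENNReal.measurable_ofReal.comp (hc2.pow 2).measurable
  have h1 := lintegral_grad1 hs hN z
  rw [Measure.volume_eq_prod, lintegral_prod_symm _ hm1.aemeasurable] at h1
  have h2 := lintegral_grad2 hs hN z
  rw [Measure.volume_eq_prod, lintegral_prod _ hm2.aemeasurable] at h2
  have hm1' := hm1.lintegral_prod_left' (μ := (volume : Measure ℝ))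
  have hm2' := hm2.lintegral_prod_right' (ν := (volume : Measure ℝ))
  have h1' := lintegral_neg_eq_self (μ := (volume : Measure ℝ))
    (fun y => ∫⁻ x : ℝ, ENNReal.ofReal ((d1 (tr A v z) (x, y)) ^ 2))
  have h2' := lintegral_neg_eq_self (μ := (volume : Measure ℝ))
    (fun x => ∫⁻ y : ℝ, ENNReal.ofReal ((d2 (tr A v z) (x, y)) ^ 2))
  have hmn : Measurable fun y : ℝ => ∫⁻ x : ℝ, ENNReal.ofReal ((d1 (tr A v z) (x, -y)) ^ 2) :=
    hm1'.comp measurable_neg
  have hms : Measurable fun R : ℝ => (∫⁻ x : ℝ, ENNReal.ofReal ((d1 (tr A v z) (x, R)) ^ 2)) +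
      (∫⁻ x : ℝ, ENNReal.ofReal ((d1 (tr A v z) (x, -R)) ^ 2)) := hm1'.add hmn
  unfold En
  rw [lintegral_add_left hms, lintegral_add_left hm1', lintegral_add_left hm2', h1', h2']
  exact ENNReal.add_ne_top.2 ⟨ENNReal.add_ne_top.2 ⟨h1, h1⟩, ENNReal.add_ne_top.2 ⟨h2, h2⟩⟩

/-- the boundary of the square -/
def bd (R : ℝ) : Set P :=
  {x | (|x.1| ≤ R ∧ (x.2 = R ∨ x.2 = -R)) ∨ (|x.2| ≤ R ∧ (x.1 = R ∨ x.1 = -R))}

/-- small oscillation on the boundary of arbitrarily large squares. -/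
theorem exists_good (hs : Sol A v) (hN : ∀ᵐ z : P, {x | pair A v x = z}.encard ≤ 4) (z : ℂ)
    (R0 : ℝ) : ∃ R, R0 < R ∧ 0 < R ∧ ∀ x ∈ bd R, ∀ y ∈ bd R,
      |tr A v z x - tr A v z y| ≤ 1 / 4 := by
  obtain ⟨R, hR0, hR, hE⟩ := exists_small (lintegral_En hs hN z)
    (ε := (1 / 16) ^ 2 / 2) (by norm_num) R0
  refine ⟨R, hR0, hR, ?_⟩
  have hE' : En A v z R ≤ ENNReal.ofReal ((1 / 16 : ℝ) ^ 2 / (2 * R)) := by
    refine hE.trans (le_of_eq ?_)
    congr 1
    field_simp
  have hd : Differentiable ℝ (tr A v z) := (tr_facts hs z).1.differentiable (by norm_num)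
  have hc1 : Continuous (d1 (tr A v z)) :=
    (contDiff_d1 (tr_facts hs z).1 (m := 1) (by norm_num)).continuous
  have hc2 : Continuous (d2 (tr A v z)) :=
    (contDiff_d2 (tr_facts hs z).1 (m := 1) (by norm_num)).continuous
  unfold En at hE'
  have hor : ∀ y : ℝ, (∫⁻ x : ℝ, ENNReal.ofReal ((d1 (tr A v z) (x, y)) ^ 2)) ≤
      ENNReal.ofReal ((1 / 16 : ℝ) ^ 2 / (2 * R)) → ∀ x : ℝ, |x| ≤ R →
      |tr A v z (x, y) - tr A v z (-R, y)| ≤ 1 / 16 := by
    intro y hy x hx
    exact osc_line (g := fun x => tr A v z (x, y)) (g' := fun x => d1 (tr A v z) (x, y))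
      (fun x => hasDerivAt_d1 (x := (x, y)) (hd _))
      (hc1.comp (continuous_id.prodMk continuous_const)) hR (by norm_num) hy
      (abs_le.1 hx).1 le_rfl (abs_le.1 hx).2
  have ver : ∀ x : ℝ, (∫⁻ y : ℝ, ENNReal.ofReal ((d2 (tr A v z) (x, y)) ^ 2)) ≤
      ENNReal.ofReal ((1 / 16 : ℝ) ^ 2 / (2 * R)) → ∀ y : ℝ, |y| ≤ R →
      |tr A v z (x, y) - tr A v z (x, -R)| ≤ 1 / 16 := by
    intro x hx y hy
    exact osc_line (g := fun y => tr A v z (x, y)) (g' := fun y => d2 (tr A v z) (x, y))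
      (fun y => hasDerivAt_d2 (x := (x, y)) (hd _))
      (hc2.comp (continuous_const.prodMk continuous_id)) hR (by norm_num) hx
      (abs_le.1 hy).1 le_rfl (abs_le.1 hy).2
  have t1 := hor R ((le_add_right le_self_add).trans hE')
  have t2 := hor (-R) ((le_add_right le_add_self).trans hE')
  have t3 := ver R ((le_add_left le_self_add).trans hE')
  have t4 := ver (-R) ((le_add_left le_add_self).trans hE')
  have hRR : |R| ≤ R := by rw [abs_of_pos hR]
  have hRR' : |-R| ≤ R := by rw [abs_neg, abs_of_pos hR]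
  have all : ∀ x ∈ bd R, |tr A v z x - tr A v z (-R, -R)| ≤ 1 / 8 := by
    rintro ⟨x, y⟩ (⟨hx, hy | hy⟩ | ⟨hy, hx | hx⟩)
    · simp only at hx hy
      subst hy
      have := abs_le.1 (t1 x hx)
      have := abs_le.1 (t4 _ hRR)
      rw [abs_le]
      constructor <;> linarith
    · simp only at hx hy
      subst hy
      have := abs_le.1 (t2 x hx)
      rw [abs_le]
      constructor <;> linarith
    · simp only at hx hy
      subst hx
      have := abs_le.1 (t3 y hy)
      have := abs_le.1 (t2 _ hRR)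
      rw [abs_le]
      constructor <;> linarith
    · simp only at hx hy
      subst hx
      have := abs_le.1 (t4 y hy)
      rw [abs_le]
      constructor <;> linarith
  intro x hx y hy
  have := abs_le.1 (all x hx)
  have := abs_le.1 (all y hy)
  rw [abs_le]
  constructor <;> linarith

/-- the open square -/
def sqr (R : ℝ) : Set P := Ioo (-R) R ×ˢ Ioo (-R) R

theorem isOpen_sqr (R : ℝ) : IsOpen (sqr R) := isOpen_Ioo.prod isOpen_Ioo

theorem bounded_sqr (R : ℝ) : Bornology.IsBounded (sqr R) :=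
  (Metric.isBounded_Ioo _ _).prod (Metric.isBounded_Ioo _ _)

theorem frontier_sqr {R : ℝ} (hR : 0 < R) : frontier (sqr R) ⊆ bd R := by
  intro x hx
  unfold sqr at hx
  rw [frontier_prod_eq, frontier_Ioo (by linarith), closure_Ioo (by linarith)] at hx
  rcases hx with ⟨h1, h2 | h2⟩ | ⟨h1 | h1, h2⟩
  · exact Or.inl ⟨abs_le.2 h1, Or.inr h2⟩
  · exact Or.inl ⟨abs_le.2 h1, Or.inl h2⟩
  · exact Or.inr ⟨abs_le.2 h2, Or.inr h1⟩
  · exact Or.inr ⟨abs_le.2 h2, Or.inl h1⟩

end trunc

theorem tr_of_sq_le {A v : P → ℝ} {z : ℂ} {x : P} (h : sq A v z x ≤ 1 / 4) :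
    27 / 64 ≤ tr A v z x := by
  unfold tr
  have h1 : (3 / 4 : ℝ) ≤ max (1 - sq A v z x) 0 := le_trans (by linarith) (le_max_left _ _)
  calc (27 / 64 : ℝ) = (3 / 4) ^ 3 := by norm_num
    _ ≤ _ := pow_le_pow_left₀ (by norm_num) h1 3

theorem sq_of_tr_pos {A v : P → ℝ} {z : ℂ} {x : P} (h : 0 < tr A v z x) : sq A v z x ≤ 1 := by
  by_contra hcon
  rw [not_le] at hcon
  unfold tr at h
  rw [max_eq_right (by linarith)] at h
  norm_num at h

theorem continuous_cpair {A v : P → ℝ} (hs : Sol A v) : Continuous (cpair A v) := by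
  have : cpair A v = fun x => (A x : ℂ) + (v x : ℂ) * Complex.I := by
    funext x
    apply Complex.ext <;> simp [cpair]
  rw [this]
  exact (Complex.continuous_ofReal.comp hs.cA.continuous).add
    ((Complex.continuous_ofReal.comp hs.cv.continuous).mul continuous_const)

/-- for all large good squares the modulus is at least `1/2` on the boundary. -/
theorem exists_good' {A v : P → ℝ} (hs : Sol A v) (hne : ∃ x y, A x ≠ A y)
    (hN : ∀ᵐ z : P, {x | pair A v x = z}.encard ≤ 4) (z : ℂ) :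
    ∃ R0 : ℝ, ∀ R1 : ℝ, R0 < R1 → ∃ R, R1 < R ∧ 0 < R ∧ ∀ x ∈ bd R, 1 / 4 ≤ sq A v z x := by
  by_contra hcon
  push Not at hcon
  obtain ⟨a, b, hab⟩ := hne
  apply hab
  apply liouville hs (M := z.re + 1)
  intro x
  -- a good square containing `x` where some boundary point has small modulus
  obtain ⟨R1, hR1, hR1'⟩ := hcon (max |x.1| |x.2|)
  obtain ⟨R, hR, hR0, hosc⟩ := exists_good hs hN z R1
  obtain ⟨y, hy, hys⟩ := hR1' R hR hR0
  have hbd : ∀ p ∈ bd R, sq A v z p ≤ 1 := by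
    intro p hp
    apply sq_of_tr_pos
    have h1 := tr_of_sq_le hys.le
    have h2 := abs_le.1 (hosc p hp y hy)
    linarith
  have hmod := max_modulus hs (isOpen_sqr R) (bounded_sqr R) (z := z) (δ := 1) (by
    intro p hp
    have h1 := hbd p (frontier_sqr hR0 hp)
    rw [sq_eq] at h1
    have h2 : ‖cpair A v p - z‖ ^ 2 ≤ 1 ^ 2 := by linarith
    exact le_of_sq_le_sq h2 (by norm_num))
  have hx : x ∈ closure (sqr R) := by
    apply subset_closure
    have h1 := le_max_left |x.1| |x.2|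
    have h2 := le_max_right |x.1| |x.2|
    have h3 : |x.1| < R := by linarith
    have h4 : |x.2| < R := by linarith
    exact ⟨abs_lt.1 h3, abs_lt.1 h4⟩
  have h1 := hmod x hx
  have h2 := (Complex.abs_re_le_norm (cpair A v x - z)).trans h1
  have h3 := (abs_le.1 h2).2
  have h4 : (cpair A v x - z).re = A x - z.re := rfl
  rw [h4] at h3
  linarith

/-- the local statement: the preimage of a small disc is bounded. -/
theorem local_bound {A v : P → ℝ} (hs : Sol A v) (hne : ∃ x y, A x ≠ A y)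
    (hN : ∀ᵐ z : P, {x | pair A v x = z}.encard ≤ 4) (ho : IsOpenMap (pair A v)) (z : ℂ) :
    ∃ R : ℝ, ∀ x : P, ‖cpair A v x - z‖ < 1 / 2 → ‖x‖ ≤ R := by
  have hfib := fiber_le_of_ae (contDiff_pair hs).continuous ho hN (z.re, z.im)
  have hfin : {x | pair A v x = (z.re, z.im)}.Finite := by
    apply Set.finite_of_encard_le_coe (k := 4)
    exact hfib
  obtain ⟨C, hC⟩ := hfin.isBounded.exists_norm_le
  obtain ⟨R0, hR0⟩ := exists_good' hs hne hN z
  obtain ⟨R, hR, hRpos, hRb⟩ := hR0 (max (max R0 C) 0 + 1) (by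
    have := le_max_left (max R0 C) 0
    have := le_max_left R0 C
    linarith)
  have hR0R : R0 < R := by
    have := le_max_left (max R0 C) 0
    have := le_max_left R0 C
    linarith
  have hCR : C < R := by
    have := le_max_left (max R0 C) 0
    have := le_max_right R0 C
    linarith
  refine ⟨R, fun x hx => ?_⟩
  by_contra hxR
  rw [not_le] at hxR
  obtain ⟨R', hR', hR'pos, hR'b⟩ := hR0 (max ‖x‖ R) (lt_of_lt_of_le hR0R (le_max_right _ _))
  have hxR' : ‖x‖ < R' := lt_of_le_of_lt (le_max_left _ _) hR'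
  have hRR' : R < R' := lt_of_le_of_lt (le_max_right _ _) hR'
  -- the annulus
  set G : Set P := sqr R' \ closure (sqr R) with hG
  have hcl : closure (sqr R) = Icc (-R) R ×ˢ Icc (-R) R := by
    unfold sqr
    rw [closure_prod_eq, closure_Ioo (by linarith)]
  have hGo : IsOpen G := (isOpen_sqr R').sdiff isClosed_closure
  have hGb : Bornology.IsBounded G := (bounded_sqr R').subset sdiff_subset
  have hGc : closure G ⊆ (sqr R)ᶜ := by
    apply closure_minimal _ (isOpen_sqr R).isClosed_compl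
    intro p hp
    exact fun h => hp.2 (subset_closure h)
  have hfr : frontier G ⊆ bd R' ∪ bd R := by
    intro p hp
    rw [hGo.frontier_eq] at hp
    have hp1 : p ∈ closure (sqr R') := closure_mono sdiff_subset hp.1
    by_cases h : p ∈ sqr R'
    · right
      have h2 : p ∈ closure (sqr R) := by
        by_contra h3
        exact hp.2 ⟨h, h3⟩
      apply frontier_sqr hRpos
      rw [(isOpen_sqr R).frontier_eq]
      exact ⟨h2, hGc hp.1⟩
    · left
      apply frontier_sqr hR'pos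
      rw [(isOpen_sqr R').frontier_eq]
      exact ⟨hp1, h⟩
  have hsq : ∀ p, 1 / 4 ≤ sq A v z p → 1 / 2 ≤ ‖cpair A v p - z‖ := by
    intro p hp
    rw [sq_eq] at hp
    have h2 : (1 / 2 : ℝ) ^ 2 ≤ ‖cpair A v p - z‖ ^ 2 := by linarith
    exact le_of_sq_le_sq h2 (norm_nonneg _)
  have hxG : x ∈ G := by
    rw [Prod.norm_def, max_lt_iff, Real.norm_eq_abs, Real.norm_eq_abs] at hxR'
    refine ⟨⟨abs_lt.1 hxR'.1, abs_lt.1 hxR'.2⟩, ?_⟩
    rw [hcl]
    rintro ⟨h1, h2⟩
    rw [Prod.norm_def, lt_max_iff, Real.norm_eq_abs, Real.norm_eq_abs] at hxR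
    rcases hxR with h | h
    · exact absurd (abs_le.2 h1) (not_le.2 h)
    · exact absurd (abs_le.2 h2) (not_le.2 h)
  have hmin := min_modulus hs hGo hGb (z := z) (δ := 1 / 2) (by
    intro p hp heq
    have h1 : pair A v p = (z.re, z.im) := by
      have e1 := congrArg Complex.re heq
      have e2 := congrArg Complex.im heq
      exact Prod.ext e1 e2
    have h2 := hC p h1
    rw [Prod.norm_def, max_le_iff, Real.norm_eq_abs, Real.norm_eq_abs] at h2
    apply hGc hp
    exact ⟨abs_lt.1 (lt_of_le_of_lt h2.1 hCR), abs_lt.1 (lt_of_le_of_lt h2.2 hCR)⟩) (by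
    intro p hp
    rcases hfr hp with h | h
    · exact hsq p (hR'b p h)
    · exact hsq p (hRb p h)) x (subset_closure hxG)
  linarith

end Pro

open Pro in
theorem proper_pair {A v : P → ℝ} (hs : Sol A v) (hne : ∃ x y, A x ≠ A y)
    (hN : ∀ᵐ z : P, {x | pair A v x = z}.encard ≤ 4) (ho : IsOpenMap (pair A v)) :
    Tendsto (pair A v) (cocompact P) (cocompact P) := by
  rw [(Filter.hasBasis_cocompact).tendsto_iff Filter.hasBasis_cocompact]
  intro K hK
  have key : ∃ R : ℝ, ∀ x, pair A v x ∈ K → ‖x‖ ≤ R := by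
    refine hK.induction_on (p := fun K => ∃ R : ℝ, ∀ x, pair A v x ∈ K → ‖x‖ ≤ R)
      ⟨0, fun x hx => absurd hx (notMem_empty _)⟩ ?_ ?_ ?_
    · rintro s t hst ⟨R, hR⟩
      exact ⟨R, fun x hx => hR x (hst hx)⟩
    · rintro s t ⟨R, hR⟩ ⟨R', hR'⟩
      refine ⟨max R R', fun x hx => ?_⟩
      rcases hx with hx | hx
      · exact (hR x hx).trans (le_max_left _ _)
      · exact (hR' x hx).trans (le_max_right _ _)
    · intro w _
      obtain ⟨R, hR⟩ := local_bound hs hne hN ho ⟨w.1, w.2⟩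
      refine ⟨Metric.ball w (1 / 4), mem_nhdsWithin_of_mem_nhds
        (Metric.ball_mem_nhds w (by norm_num)), R, fun x hx => hR x ?_⟩
      rw [Metric.mem_ball, Prod.dist_eq, max_lt_iff, Real.dist_eq, Real.dist_eq] at hx
      have h3 : ‖cpair A v x - ⟨w.1, w.2⟩‖ ≤ |(cpair A v x - ⟨w.1, w.2⟩).re| +
          |(cpair A v x - ⟨w.1, w.2⟩).im| := Complex.norm_le_abs_re_add_abs_im _
      have e1 : (cpair A v x - ⟨w.1, w.2⟩).re = (pair A v x).1 - w.1 := rfl
      have e2 : (cpair A v x - ⟨w.1, w.2⟩).im = (pair A v x).2 - w.2 := rfl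
      rw [e1, e2] at h3
      linarith [hx.1, hx.2]
  obtain ⟨R, hR⟩ := key
  refine ⟨Metric.closedBall 0 R, isCompact_closedBall _ _, fun x hx hxK => hx ?_⟩
  rw [mem_closedBall_zero_iff]
  exact hR x hxK

end Pool.Agent.EU
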