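import Pool.Agent.EU.N4
import Pool.Agent.EU.C6
import Pool.Agent.EU.Open
import Pool.Agent.EU.Proper
import Pool.Agent.EU.Glue

set_option autoImplicit false
open scoped ContDiff Topology ENNReal
open Real Set MeasureTheory Filter

namespace Pool.Agent.EU

theorem ae_regular {A v : P → ℝ} (hs : Sol A v) :
    ∀ᵐ z : P, ∀ x, pair A v x = z → jac A x ≠ 0 := by
  have h := critical_values_null ((smooth_pair hs).of_le (by simp) : ContDiff ℝ 1 (pair A v))
  rw [ae_iff]
  refine measure_mono_null ?_ h
  intro z hz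
  have hz' : ¬ ∀ x, pair A v x = z → jac A x ≠ 0 := hz
  push Not at hz'
  obtain ⟨x, hx, hj⟩ := hz'
  exact ⟨x, by show (fderiv ℝ (pair A v) x).det = 0; rw [det_pair hs]; exact hj, hx⟩

theorem ae_fiber_le_four {A v : P → ℝ} (hs : Sol A v) :
    ∀ᵐ z : P, {x | pair A v x = z}.encard ≤ 4 := by
  filter_upwards [ae_regular hs] with z hz
  exact fiber_le_four hs hz

/-- the lower level sets at high levels are connected -/
theorem exists_preconnected {A v : P → ℝ} (hs : Sol A v) (hne : ∃ x y, A x ≠ A y) :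
    ∃ a0, ∀ a, a0 < a → IsPreconnected {y | A y < a} := by
  have hAc : Continuous A := hs.cA.continuous
  have hO : ∀ a, IsOpen {y | A y < a} := fun a => isOpen_lt hAc continuous_const
  -- every point of `{A < a}` is joined to a point of `{A < 0}` inside `{A < a}`
  have hlow : ∀ a, ∀ x, A x < a → ∃ y, A y < 0 ∧ JoinedIn {y | A y < a} x y := by
    intro a x hx
    obtain ⟨y, hy, hy0⟩ := comp_unbdd' hs hne hx 0
    exact ⟨y, hy0, joined_of_mem_comp (hO a) hx hy⟩
  have hgoal : ∀ a, (∀ x y, A x < a → A y < a → JoinedIn {y | A y < a} x y) →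
      IsPreconnected {y | A y < a} := by
    intro a h
    rcases {y | A y < a}.eq_empty_or_nonempty with h0 | ⟨x, hx⟩
    · rw [h0]; exact isPreconnected_empty
    · have : IsPathConnected {y | A y < a} := ⟨x, hx, fun {y} hy => h x y hx hy⟩
      exact this.isConnected.isPreconnected
  by_cases hcase : ∀ x y, A x < 0 → A y < 0 → JoinedIn {y | A y < 0} x y
  · refine ⟨0, fun a ha => hgoal a fun x y hx hy => ?_⟩
    obtain ⟨x', hx', jx⟩ := hlow a x hx
    obtain ⟨y', hy', jy⟩ := hlow a y hy
    exact (jx.trans ((hcase x' y' hx' hy').mono fun z (hz : A z < 0) => lt_trans hz ha)).trans jy.symm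
  · push Not at hcase
    obtain ⟨x1, x2, h1, h2, h12⟩ := hcase
    -- the segment from `x1` to `x2`
    have hseg : IsCompact ((fun t : ℝ => x1 + t • (x2 - x1)) '' Icc 0 1) :=
      isCompact_Icc.image (by fun_prop)
    obtain ⟨B, hB⟩ := hseg.bddAbove_image (f := A) hAc.continuousOn
    refine ⟨max B 0, fun a ha => hgoal a ?_⟩
    have haB : B < a := lt_of_le_of_lt (le_max_left _ _) ha
    have ha0 : 0 < a := lt_of_le_of_lt (le_max_right _ _) ha
    have j12 : JoinedIn {y | A y < a} x1 x2 := by
      have h3 : JoinedIn {y | A y < a} (x1 + (0:ℝ) • (x2 - x1)) (x1 + (1:ℝ) • (x2 - x1)) := by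
        apply joined_seg
        intro t ht
        rw [uIcc_of_le zero_le_one] at ht
        exact lt_of_le_of_lt (hB ⟨_, ⟨t, ht, rfl⟩, rfl⟩) haB
      simpa using h3
    have hall : ∀ x, A x < a → JoinedIn {y | A y < a} x1 x := by
      intro x hx
      obtain ⟨x', hx', jx⟩ := hlow a x hx
      obtain ⟨i, j, hij, hv⟩ := valleys hs 0 ![x1, x2, x'] (fun i => by
        fin_cases i
        · exact h1
        · exact h2
        · exact hx')
      have hsub : {y | A y < 0} ⊆ {y | A y < a} := fun z (hz : A z < 0) => lt_trans hz ha0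
      have hj : ∀ z w, A z < 0 → w ∈ connectedComponentIn {y | A y < 0} z →
          JoinedIn {y | A y < 0} z w := fun z w hz hw => joined_of_mem_comp (hO 0) hz hw
      have h1x : JoinedIn {y | A y < a} x1 x' := by
        fin_cases i <;> fin_cases j
        · exact absurd rfl hij
        · exact absurd (hj _ _ h1 hv) h12
        · exact (hj _ _ h1 hv).mono hsub
        · exact absurd (hj _ _ h2 hv).symm h12
        · exact absurd rfl hij
        · exact j12.trans ((hj _ _ h2 hv).mono hsub)
        · exact ((hj _ _ hx' hv).mono hsub).symm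
        · exact j12.trans ((hj _ _ hx' hv).mono hsub).symm
        · exact absurd rfl hij
      exact h1x.trans jx.symm
    intro x y hx hy
    exact (hall x hx).symm.trans (hall y hy)

/-- the generic number of preimages -/
theorem degree {A v : P → ℝ} (hs : Sol A v) (hne : ∃ x y, A x ≠ A y)
    (ho : IsOpenMap (pair A v)) (hp : Tendsto (pair A v) (cocompact P) (cocompact P)) :
    (∀ᵐ z : P, {x | pair A v x = z}.encard = 1) ∨ (∀ᵐ z : P, {x | pair A v x = z}.encard = 2) := by
  obtain ⟨d, hd⟩ := degree_const (smooth_pair hs) hp (fun x => by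
    rw [det_pair hs]; exact jac_nonneg x)
  have hd0 : d ≠ 0 := by
    rintro rfl
    have hopen : IsOpen (range (pair A v)) := ho.isOpen_range
    have hdense := MeasureTheory.Measure.dense_of_ae hd
    obtain ⟨z, ⟨x, hx⟩, hz⟩ := hdense.inter_open_nonempty _ hopen (range_nonempty _)
    have hz' : {x | pair A v x = z}.encard = 0 := by simpa using hz
    rw [encard_eq_zero] at hz'
    have : x ∈ {x | pair A v x = z} := hx
    rw [hz'] at this
    exact this
  have hd2 : d ≤ 2 := by
    obtain ⟨a0, ha0⟩ := exists_preconnected hs hne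
    have hopen : IsOpen {z : P | a0 < z.1} := isOpen_lt continuous_const continuous_fst
    have hdense := MeasureTheory.Measure.dense_of_ae (hd.and (ae_regular hs))
    obtain ⟨z, hz, hz1, hz2⟩ := hdense.inter_open_nonempty _ hopen
      ⟨(a0 + 1, 0), by show a0 < a0 + 1; linarith⟩
    have := fiber_le_two hs hz2 (ha0 z.1 hz)
    rw [hz1] at this
    exact_mod_cast this
  interval_cases d
  · exact absurd rfl hd0
  · left; simpa using hd
  · right; simpa using hd

/-- derivative of the inverse: the linear system. -/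
theorem system_of_inv {A v : P → ℝ} (hs : Sol A v) {F : P → P} {H S : P → ℝ} {q : P}
    (hF : DifferentiableAt ℝ F q) (hH : ∀ q, A (F q) = H q) (hS : ∀ q, v (F q) = S q)
    (h1 : d1 H q = d2 S q) (h2 : d2 H q = -(d1 S q))
    (h0 : ¬ (d1 H q = 0 ∧ d2 H q = 0)) :
    d1 (fun q => (F q).2) q = -(Real.exp (-(H q)) * d2 (fun q => (F q).1) q) ∧
    d2 (fun q => (F q).2) q = Real.exp (-(H q)) * d1 (fun q => (F q).1) q := by
  have hA : DifferentiableAt ℝ A (F q) := hs.cA.differentiable (by simp) _
  have hv : DifferentiableAt ℝ v (F q) := hs.cv.differentiable (by simp) _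
  have hX : HasFDerivAt (fun q => (F q).1) ((ContinuousLinearMap.fst ℝ ℝ ℝ).comp (fderiv ℝ F q)) q :=
    (ContinuousLinearMap.fst ℝ ℝ ℝ).hasFDerivAt.comp q hF.hasFDerivAt
  have hY : HasFDerivAt (fun q => (F q).2) ((ContinuousLinearMap.snd ℝ ℝ ℝ).comp (fderiv ℝ F q)) q :=
    (ContinuousLinearMap.snd ℝ ℝ ℝ).hasFDerivAt.comp q hF.hasFDerivAt
  have key : ∀ {f g : P → ℝ}, DifferentiableAt ℝ f (F q) → (∀ q, f (F q) = g q) → ∀ h : P,
      fderiv ℝ g q h = (fderiv ℝ (fun q => (F q).1) q h) * d1 f (F q) +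
        (fderiv ℝ (fun q => (F q).2) q h) * d2 f (F q) := by
    intro f g hf hg h
    have e : g = fun q => f (F q) := funext fun q => (hg q).symm
    have h3 : HasFDerivAt g ((fderiv ℝ f (F q)).comp (fderiv ℝ F q)) q := by
      rw [e]; exact hf.hasFDerivAt.comp q hF.hasFDerivAt
    rw [h3.fderiv, hX.fderiv, hY.fderiv]
    show fderiv ℝ f (F q) (fderiv ℝ F q h) = _
    rw [fderiv_apply_eq]
    rfl
  have a1 : d1 H q = d1 (fun q => (F q).1) q * d1 A (F q) + d1 (fun q => (F q).2) q * d2 A (F q) :=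
    key hA hH _
  have a2 : d2 H q = d2 (fun q => (F q).1) q * d1 A (F q) + d2 (fun q => (F q).2) q * d2 A (F q) :=
    key hA hH _
  have a3 : d1 S q = d1 (fun q => (F q).1) q * d1 v (F q) + d1 (fun q => (F q).2) q * d2 v (F q) :=
    key hv hS _
  have a4 : d2 S q = d2 (fun q => (F q).1) q * d1 v (F q) + d2 (fun q => (F q).2) q * d2 v (F q) :=
    key hv hS _
  rw [hs.h1, hs.h2, hH q] at a3 a4
  set X1 := d1 (fun q => (F q).1) q
  set X2 := d2 (fun q => (F q).1) q
  set Y1 := d1 (fun q => (F q).2) q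
  set Y2 := d2 (fun q => (F q).2) q
  set a := d1 A (F q)
  set b := d2 A (F q)
  have hE : Real.exp (H q) * Real.exp (-(H q)) = 1 := by rw [← Real.exp_add]; simp
  have hE'0 : 0 < Real.exp (-(H q)) := Real.exp_pos _
  set E := Real.exp (H q)
  set E' := Real.exp (-(H q))
  have e1 : a * (Y2 - E' * X1) - E' * b * (Y1 + E' * X2) = 0 := by
    rw [a1, a4] at h1
    linear_combination (-E') * h1 + (-(a * Y2)) * hE
  have e2 : a * (Y1 + E' * X2) + E' * b * (Y2 - E' * X1) = 0 := by
    rw [a2, a3] at h2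
    linear_combination E' * h2 - (a * Y1) * hE
  have hab : 0 < a ^ 2 + (E' * b) ^ 2 := by
    by_contra hn
    push Not at hn
    have h3 : a ^ 2 = 0 := le_antisymm (by nlinarith [sq_nonneg (E' * b)]) (sq_nonneg _)
    have h4 : (E' * b) ^ 2 = 0 := le_antisymm (by nlinarith [sq_nonneg a]) (sq_nonneg _)
    have h5 : a = 0 := by simpa using h3
    have h6 : b = 0 := by
      have : E' * b = 0 := by simpa using h4
      rcases mul_eq_zero.1 this with h | h
      · exact absurd h hE'0.ne'
      · exact h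
    exact h0 ⟨by rw [a1, h5, h6]; ring, by rw [a2, h5, h6]; ring⟩
  have p0 : (a ^ 2 + (E' * b) ^ 2) * (Y1 + E' * X2) = 0 := by
    linear_combination a * e2 - E' * b * e1
  have r0 : (a ^ 2 + (E' * b) ^ 2) * (Y2 - E' * X1) = 0 := by
    linear_combination a * e1 + E' * b * e2
  constructor
  · rcases mul_eq_zero.1 p0 with h | h
    · exact absurd h hab.ne'
    · linarith
  · rcases mul_eq_zero.1 r0 with h | h
    · exact absurd h hab.ne'
    · linarith

/-- Structure of the nonconstant solutions of the first order system. -/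
theorem sol_structure {A v : P → ℝ} (hs : Sol A v) (hne : ∃ x y, A x ≠ A y) :
    (∃ (γ : ℝ) (F : P ≃ₜ P), ContDiff ℝ ∞ F ∧
      (∀ q : P, d1 (fun q => (F q).2) q = -(Real.exp (-q.1) * d2 (fun q => (F q).1) q)) ∧
      (∀ q : P, d2 (fun q => (F q).2) q = Real.exp (-q.1) * d1 (fun q => (F q).1) q) ∧
      (∀ q : P, d1 (fun q => (F q).1) q ≠ 0 ∨ d2 (fun q => (F q).1) q ≠ 0) ∧
      (∀ q : P, 0 ≤ cos γ * d1 (fun q => (F q).1) q + sin γ * d2 (fun q => (F q).1) q) ∧
      ∀ q, A (F q) = q.1 ∧ v (F q) = q.2) ∨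
    (∃ (h0 v0 b : ℝ) (M : Measure ℝ) (F : P ≃ₜ P), TypeII h0 b M F ∧
      ∀ q, A (F q) = h0 + q.1 ^ 2 - q.2 ^ 2 ∧ v (F q) = v0 + 2 * q.1 * q.2) := by
  have hN := ae_fiber_le_four hs
  have ho := isOpenMap_pair hs hne hN
  have hp := proper_pair hs hne hN ho
  have hc : Continuous (pair A v) := (smooth_pair hs).continuous
  have dif : ∀ {f : P → ℝ}, ContDiff ℝ ∞ f → ∀ q, DifferentiableAt ℝ f q :=
    fun h q => h.differentiable (by simp) q
  rcases degree hs hne ho hp with hd | hd
  · left
    have h1 : ∀ z, {x | pair A v x = z}.encard ≤ 1 := by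
      intro z
      have := fiber_le_of_ae hc ho (n := 1) (by
        filter_upwards [hd] with z hz
        rw [hz]; simp) z
      simpa using this
    obtain ⟨F, hF, hFs⟩ := struct_one hs ho hp h1
    have hA : ∀ q, A (F q) = q.1 := fun q => congrArg Prod.fst (hF q)
    have hv : ∀ q, v (F q) = q.2 := fun q => congrArg Prod.snd (hF q)
    have c1 : ContDiff ℝ ∞ (fun q : P => q.1) := by fun_prop
    have c2 : ContDiff ℝ ∞ (fun q : P => q.2) := by fun_prop
    have k11 : ∀ q, d1 (fun q : P => q.1) q = 1 := fun q =>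
      d1_eqOf (dif c1 q) (φ := fun s => s) (fun s => rfl) (hasDerivAt_id _)
    have k12 : ∀ q, d2 (fun q : P => q.1) q = 0 := fun q =>
      d2_eqOf (dif c1 q) (φ := fun s => q.1) (fun s => rfl) (hasDerivAt_const _ _)
    have k21 : ∀ q, d1 (fun q : P => q.2) q = 0 := fun q =>
      d1_eqOf (dif c2 q) (φ := fun s => q.2) (fun s => rfl) (hasDerivAt_const _ _)
    have k22 : ∀ q, d2 (fun q : P => q.2) q = 1 := fun q =>
      d2_eqOf (dif c2 q) (φ := fun s => s) (fun s => rfl) (hasDerivAt_id _)
    have hsys : ∀ q, _ := fun q => system_of_inv hs (F := F) (H := fun q => q.1) (S := fun q => q.2)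
      (q := q) (hFs.differentiable (by simp) q) hA hv (by rw [k11, k22]) (by rw [k12, k21]; simp)
      (by rw [k11]; simp)
    have hnz : ∀ q : P, d1 (fun q => (F q).1) q ≠ 0 ∨ d2 (fun q => (F q).1) q ≠ 0 := by
      intro q
      by_contra hcon
      push Not at hcon
      have hX : HasFDerivAt (fun q => (F q).1) ((ContinuousLinearMap.fst ℝ ℝ ℝ).comp (fderiv ℝ F q)) q :=
        (ContinuousLinearMap.fst ℝ ℝ ℝ).hasFDerivAt.comp q (hFs.differentiable (by simp) q).hasFDerivAt
      have hY : HasFDerivAt (fun q => (F q).2) ((ContinuousLinearMap.snd ℝ ℝ ℝ).comp (fderiv ℝ F q)) q :=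
        (ContinuousLinearMap.snd ℝ ℝ ℝ).hasFDerivAt.comp q (hFs.differentiable (by simp) q).hasFDerivAt
      have hz : fderiv ℝ F q (1, 0) = 0 := by
        apply Prod.ext
        · have : d1 (fun q => (F q).1) q = (fderiv ℝ F q (1, 0)).1 := by
            unfold d1; rw [hX.fderiv]; rfl
          rw [← this]; exact hcon.1
        · have : d1 (fun q => (F q).2) q = (fderiv ℝ F q (1, 0)).2 := by
            unfold d1; rw [hY.fderiv]; rfl
          rw [← this, (hsys q).1, hcon.2]; simp
      have hcomp : HasFDerivAt (fun q => A (F q)) ((fderiv ℝ A (F q)).comp (fderiv ℝ F q)) q :=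
        (dif hs.cA (F q)).hasFDerivAt.comp q (hFs.differentiable (by simp) q).hasFDerivAt
      have h3 : d1 (fun q => A (F q)) q = 0 := by
        unfold d1
        rw [hcomp.fderiv]
        show fderiv ℝ A (F q) (fderiv ℝ F q (1, 0)) = 0
        rw [hz, map_zero]
      rw [show (fun q => A (F q)) = fun q : P => q.1 from funext hA, k11] at h3
      exact one_ne_zero h3
    obtain ⟨γ, hγ⟩ := pos_one F hFs (fun q => (hsys q).1) (fun q => (hsys q).2) hnz
    exact ⟨γ, F, hFs, fun q => (hsys q).1, fun q => (hsys q).2, hnz, hγ, fun q => ⟨hA q, hv q⟩⟩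
  · right
    have h2 : ∀ z, {x | pair A v x = z}.encard ≤ 2 := by
      intro z
      have := fiber_le_of_ae hc ho (n := 2) (by
        filter_upwards [hd] with z hz
        rw [hz]; simp) z
      simpa using this
    obtain ⟨z1, F, hA, hv, hF, hF', hFs⟩ := struct_two hs ho hp h2 hd
    set H : P → ℝ := fun q => z1.1 + q.1 ^ 2 - q.2 ^ 2 with hH
    set S : P → ℝ := fun q => z1.2 + 2 * q.1 * q.2 with hS
    have c1 : ContDiff ℝ ∞ H := by unfold H; fun_prop
    have c2 : ContDiff ℝ ∞ S := by unfold S; fun_prop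
    have k11 : ∀ q, d1 H q = 2 * q.1 := fun q => by
      refine d1_eqOf (dif c1 q) (φ := fun s => z1.1 + s ^ 2 - q.2 ^ 2) (fun s => rfl) ?_
      simpa using ((hasDerivAt_pow 2 q.1).const_add z1.1).sub_const (q.2 ^ 2)
    have k12 : ∀ q, d2 H q = -(2 * q.2) := fun q => by
      refine d2_eqOf (dif c1 q) (φ := fun s => z1.1 + q.1 ^ 2 - s ^ 2) (fun s => rfl) ?_
      simpa using (hasDerivAt_pow 2 q.2).const_sub (z1.1 + q.1 ^ 2)
    have k21 : ∀ q, d1 S q = 2 * q.2 := fun q => by
      refine d1_eqOf (dif c2 q) (φ := fun s => z1.2 + 2 * s * q.2) (fun s => rfl) ?_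
      have := (((hasDerivAt_id q.1).const_mul 2).mul_const q.2).const_add z1.2
      simpa using this
    have k22 : ∀ q, d2 S q = 2 * q.1 := fun q => by
      refine d2_eqOf (dif c2 q) (φ := fun s => z1.2 + 2 * q.1 * s) (fun s => rfl) ?_
      have := ((hasDerivAt_id q.2).const_mul (2 * q.1)).const_add z1.2
      simpa using this
    have hsys : ∀ q : P, q ≠ 0 →
        d1 (fun q => (F q).2) q = -(Real.exp (-(H q)) * d2 (fun q => (F q).1) q) ∧
        d2 (fun q => (F q).2) q = Real.exp (-(H q)) * d1 (fun q => (F q).1) q := by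
      intro q hq
      refine system_of_inv hs (F := F) (H := H) (S := S)
        (q := q) (hF.differentiable (by norm_num) q) hA hv (by rw [k11, k22]) (by rw [k12, k21]) ?_
      rw [k11, k12]
      rintro ⟨e1, e2⟩
      exact hq (Prod.ext (by simpa using e1) (by simpa using e2))
    have hX : ContDiff ℝ 1 (fun q => (F q).1) := hF.fst
    have hY : ContDiff ℝ 1 (fun q => (F q).2) := hF.snd
    have cX1 : Continuous (d1 fun q => (F q).1) := (contDiff_d1 hX (m := 0) (by simp)).continuous
    have cX2 : Continuous (d2 fun q => (F q).1) := (contDiff_d2 hX (m := 0) (by simp)).continuous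
    have cY1 : Continuous (d1 fun q => (F q).2) := (contDiff_d1 hY (m := 0) (by simp)).continuous
    have cY2 : Continuous (d2 fun q => (F q).2) := (contDiff_d2 hY (m := 0) (by simp)).continuous
    have hdense : Dense {q : P | q ≠ 0} := dense_compl_singleton 0
    have s1 : ∀ q, d1 (fun q => (F q).2) q = -(Real.exp (-(H q)) * d2 (fun q => (F q).1) q) := by
      have := Continuous.ext_on hdense cY1
        (show Continuous fun q => -(Real.exp (-(H q)) * d2 (fun q => (F q).1) q) by
          have := c1.continuous; fun_prop) (fun q hq => (hsys q hq).1)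
      exact fun q => congrFun this q
    have s2 : ∀ q, d2 (fun q => (F q).2) q = Real.exp (-(H q)) * d1 (fun q => (F q).1) q := by
      have := Continuous.ext_on hdense cY2
        (show Continuous fun q => Real.exp (-(H q)) * d1 (fun q => (F q).1) q by
          have := c1.continuous; fun_prop) (fun q hq => (hsys q hq).2)
      exact fun q => congrFun this q
    obtain ⟨b, M, hT | hT⟩ := typeII_of_sys F hF hF' hFs z1.1 s1 s2
    · exact ⟨z1.1, z1.2, b, M, F, hT, fun q => ⟨hA q, hv q⟩⟩
    · refine ⟨z1.1, z1.2, b, M, (Homeomorph.neg P).trans F, hT, fun q => ⟨?_, ?_⟩⟩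
      · show A (F (-q)) = _
        rw [hA]; simp
      · show v (F (-q)) = _
        rw [hv]; simp

end Pool.Agent.EU
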