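import Pool.Agent.EU.Hills

set_option autoImplicit false
open scoped ContDiff Topology ENNReal
open Real Set MeasureTheory Filter

namespace Pool.Agent.EU

theorem jac_ne_zero_grad {A : P → ℝ} {p : P} (h : jac A p ≠ 0) :
    0 < (d1 A p) ^ 2 + (d2 A p) ^ 2 := by
  by_contra hn
  push Not at hn
  have h1 : (d1 A p) ^ 2 = 0 := le_antisymm (by nlinarith [sq_nonneg (d2 A p)]) (sq_nonneg _)
  have h2 : (d2 A p) ^ 2 = 0 := le_antisymm (by nlinarith [sq_nonneg (d1 A p)]) (sq_nonneg _)
  exact h (by unfold jac; rw [h1, h2]; ring)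

theorem fderiv_pair {A v : P → ℝ} (hs : Sol A v) (x : P) :
    d1 (pair A v) x = (d1 A x, d1 v x) ∧ d2 (pair A v) x = (d2 A x, d2 v x) := by
  have hA := (hs.cA.differentiable (by simp) x).hasFDerivAt
  have hv := (hs.cv.differentiable (by simp) x).hasFDerivAt
  have h : HasFDerivAt (pair A v) ((fderiv ℝ A x).prod (fderiv ℝ v x)) x := hA.prodMk hv
  constructor
  · unfold d1; rw [h.fderiv]; rfl
  · unfold d2; rw [h.fderiv]; rfl

theorem det_pair {A v : P → ℝ} (hs : Sol A v) (x : P) :
    (fderiv ℝ (pair A v) x).det = jac A x := by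
  rw [det_eq, (fderiv_pair hs x).1, (fderiv_pair hs x).2]
  simp only
  rw [hs.h1, hs.h2]
  unfold jac
  ring

theorem smooth_pair {A v : P → ℝ} (hs : Sol A v) : ContDiff ℝ ∞ (pair A v) :=
  hs.cA.prodMk hs.cv

/-- the direction of the gradient, and a small step. -/
structure Step (A : P → ℝ) (p e : P) (ε : ℝ) : Prop where
  unit : e.1 ^ 2 + e.2 ^ 2 = 1
  pos : 0 < ε
  grad : ∃ r > 0, ∀ y : P, fderiv ℝ A p y = r * (y.1 * e.1 + y.2 * e.2)
  up : ∀ s : ℝ, 0 < s → s ≤ ε → A p < A (p + s • e)
  down : ∀ s : ℝ, 0 < s → s ≤ ε → A (p - s • e) < A p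

/-- one-sided behaviour from a positive directional derivative -/
theorem eventually_lt_of_dir {A : P → ℝ} {p y : P} (hA : DifferentiableAt ℝ A p)
    (h : 0 < fderiv ℝ A p y) : ∀ᶠ s in 𝓝[>] (0:ℝ), A p < A (p + s • y) := by
  have h1 : HasDerivAt (fun s : ℝ => A (p + s • y)) (fderiv ℝ A p y) 0 := by
    have h2 : HasDerivAt (fun s : ℝ => p + s • y) y 0 := by
      have := ((hasDerivAt_id (0:ℝ)).smul_const y).const_add p
      simpa using this
    have h3 : HasFDerivAt A (fderiv ℝ A p) (p + (0:ℝ) • y) := by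
      simpa using hA.hasFDerivAt
    exact h3.comp_hasDerivAt (0:ℝ) h2
  have h4 := (hasDerivAt_iff_tendsto_slope.1 h1).eventually (lt_mem_nhds h)
  have h5 : ∀ᶠ s in 𝓝[>] (0:ℝ), 0 < slope (fun s : ℝ => A (p + s • y)) 0 s :=
    h4.filter_mono (nhdsWithin_mono _ (fun s hs => ne_of_gt hs))
  filter_upwards [h5, self_mem_nhdsWithin] with s hs hs0
  rw [slope_def_field] at hs
  have hs0' : (0:ℝ) < s := hs0
  have : 0 < A (p + s • y) - A (p + (0:ℝ) • y) := by
    have := (div_pos_iff_of_pos_right (sub_pos.2 hs0')).1 hs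
    exact this
  simpa using this

theorem eventually_gt_of_dir {A : P → ℝ} {p y : P} (hA : DifferentiableAt ℝ A p)
    (h : fderiv ℝ A p y < 0) : ∀ᶠ s in 𝓝[>] (0:ℝ), A (p + s • y) < A p := by
  have := eventually_lt_of_dir (A := fun x => -(A x)) (p := p) (y := y) hA.neg
    (by rw [show (fun x => -(A x)) = -A from rfl, fderiv_neg]; simpa using h)
  filter_upwards [this] with s hs
  linarith

theorem exists_le_of_eventually {Q : ℝ → Prop} (h : ∀ᶠ s in 𝓝[>] (0:ℝ), Q s) :
    ∃ ε > 0, ∀ s, 0 < s → s ≤ ε → Q s := by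
  rw [eventually_nhdsWithin_iff, Metric.eventually_nhds_iff] at h
  obtain ⟨ε, hε, h⟩ := h
  refine ⟨ε / 2, by positivity, fun s hs hs' => h ?_ hs⟩
  rw [Real.dist_eq, sub_zero, abs_of_pos hs]; linarith

theorem exists_step {A : P → ℝ} (hA : ContDiff ℝ ∞ A) {p : P} (h : jac A p ≠ 0) :
    ∃ e ε, Step A p e ε := by
  have hg := jac_ne_zero_grad h
  set r := Real.sqrt ((d1 A p) ^ 2 + (d2 A p) ^ 2) with hr
  have hr0 : 0 < r := Real.sqrt_pos.2 hg
  have hr2 : r ^ 2 = (d1 A p) ^ 2 + (d2 A p) ^ 2 := Real.sq_sqrt hg.le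
  set e : P := (d1 A p / r, d2 A p / r) with he
  have hunit : e.1 ^ 2 + e.2 ^ 2 = 1 := by
    rw [he]; simp only [div_pow]; rw [← add_div, ← hr2]; field_simp
  have hgrad : ∀ y : P, fderiv ℝ A p y = r * (y.1 * e.1 + y.2 * e.2) := by
    intro y
    rw [fderiv_apply_eq, he]
    simp only [smul_eq_mul]
    field_simp
  have hd : DifferentiableAt ℝ A p := hA.differentiable (by simp) p
  have hu : ∀ᶠ s in 𝓝[>] (0:ℝ), A p < A (p + s • e) := by
    apply eventually_lt_of_dir hd
    rw [hgrad]
    have : e.1 * e.1 + e.2 * e.2 = 1 := by linear_combination hunit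
    rw [this, mul_one]; exact hr0
  have hl : ∀ᶠ s in 𝓝[>] (0:ℝ), A (p + s • (-e)) < A p := by
    apply eventually_gt_of_dir hd
    rw [hgrad]
    have : (-e).1 * e.1 + (-e).2 * e.2 = -1 := by
      simp only [Prod.fst_neg, Prod.snd_neg]; linear_combination -hunit
    rw [this]; linarith
  obtain ⟨ε, hε, h1⟩ := exists_le_of_eventually (hu.and hl)
  refine ⟨e, ε, hunit, hε, ⟨r, hr0, hgrad⟩, fun s hs hs' => (h1 s hs hs').1, fun s hs hs' => ?_⟩
  have := (h1 s hs hs').2
  rwa [smul_neg, ← sub_eq_add_neg] at this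

/-- segment in the direction `e` -/
theorem joined_seg {F : Set P} {p e : P} {s t : ℝ} (h : ∀ z ∈ uIcc s t, p + z • e ∈ F) :
    JoinedIn F (p + s • e) (p + t • e) := by
  have h1 : IsPreconnected ((fun z : ℝ => p + z • e) '' uIcc s t) :=
    (isPreconnected_uIcc).image _ (by fun_prop)
  refine ⟨⟨⟨fun u => p + (s + u * (t - s)) • e, by fun_prop⟩, by simp, by simp⟩, ?_⟩
  intro u
  refine h _ ?_
  have hu := u.2
  rcases le_total s t with hst | hst
  · rw [uIcc_of_le hst]
    constructor
    · nlinarith [hu.1, hu.2]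
    · nlinarith [hu.1, hu.2]
  · rw [uIcc_of_ge hst]
    constructor
    · nlinarith [hu.1, hu.2]
    · nlinarith [hu.1, hu.2]

/-- Two regular points with the same value of `Φ` cannot share both the hill and the valley. -/
theorem no_share {A v : P → ℝ} (hs : Sol A v) {p p' e e' : P} {ε ε' : ℝ} (hpp : p ≠ p')
    (hz : pair A v p = pair A v p') (hj : jac A p ≠ 0) (h : Step A p e ε) (h' : Step A p' e' ε')
    (hup : JoinedIn {y | A p < A y} (p + ε • e) (p' + ε' • e'))
    (hdn : JoinedIn {y | A y < A p} (p - ε • e) (p' - ε' • e')) : False := by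
  have hAc : Continuous A := hs.cA.continuous
  have hvc : Continuous v := hs.cv.continuous
  have hAp : A p' = A p := (congrArg Prod.fst hz).symm
  have hvp : v p' = v p := (congrArg Prod.snd hz).symm
  set a := A p with ha
  set c := v p with hc
  set G : Set P := {y | A y ≠ a} ∪ {p'} with hG
  -- the path
  set ε0 := min ε (1/4) with hε0
  have hε00 : 0 < ε0 := lt_min h.pos (by norm_num)
  have hε0' : ε0 ≤ ε := min_le_left _ _
  have hε0'' : ε0 < 1/2 := lt_of_le_of_lt (min_le_right _ _) (by norm_num)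
  have j1 : JoinedIn G (p + ε0 • e) (p + ε • e) := by
    apply joined_seg
    intro z hz
    rw [uIcc_of_le hε0'] at hz
    left
    exact (h.up z (hε00.trans_le hz.1) hz.2).ne'
  have j2 : JoinedIn G (p + ε • e) (p' + ε' • e') :=
    hup.mono fun y hy => Or.inl (ne_of_gt hy)
  have j3 : JoinedIn G (p' + ε' • e') (p' + (-ε') • e') := by
    apply joined_seg
    intro z hz
    have hε' := h'.pos
    rw [uIcc_of_ge (by linarith)] at hz
    rcases lt_trichotomy z 0 with hz0 | hz0 | hz0
    · left
      have := h'.down (-z) (by linarith) (by linarith [hz.1])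
      rw [neg_smul, sub_neg_eq_add, hAp] at this
      exact this.ne
    · right
      simp [hz0]
    · left
      have := h'.up z hz0 hz.2
      rw [hAp] at this
      exact this.ne'
  have j4 : JoinedIn G (p' + (-ε') • e') (p - ε • e) := by
    rw [neg_smul, ← sub_eq_add_neg]
    exact (hdn.mono fun y hy => Or.inl (ne_of_lt hy)).symm
  have j5 : JoinedIn G (p - ε • e) (p - ε0 • e) := by
    have : JoinedIn G (p + (-ε) • e) (p + (-ε0) • e) := by
      apply joined_seg
      intro z hz
      rw [uIcc_of_le (by linarith)] at hz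
      left
      have := h.down (-z) (by linarith [hz.2]) (by linarith [hz.1])
      rw [neg_smul, sub_neg_eq_add] at this
      exact this.ne
    rwa [neg_smul, neg_smul, ← sub_eq_add_neg, ← sub_eq_add_neg] at this
  obtain ⟨β, hβ⟩ := (((j1.trans j2).trans j3).trans j4).trans j5
  have hpG : p ∉ G := by
    rintro (h1 | h1)
    · exact h1 rfl
    · exact hpp h1
  -- the loop
  let J : ℝ → P := fun s => if s ≤ ε0 then p + s • e else
    if 1 - ε0 ≤ s then p - (1 - s) • e else β.extend ((s - ε0) / (1 - 2 * ε0))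
  have hden : 0 < 1 - 2 * ε0 := by linarith
  have hJc : Continuous J := by
    refine Continuous.if_le (by fun_prop) ?_ continuous_id continuous_const ?_
    · refine Continuous.if_le (by fun_prop) ?_ continuous_const continuous_id ?_
      · exact β.continuous_extend.comp (by fun_prop)
      · intro s hs'
        have : (s - ε0) / (1 - 2 * ε0) = 1 := by
          rw [← hs']; rw [div_eq_one_iff_eq hden.ne']; ring
        rw [this, Path.extend_one]
        rw [← hs']
        congr 2; ring
    · intro s hs'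
      subst hs'
      rw [if_neg (by linarith), sub_self, zero_div, Path.extend_zero]
  have hJ0 : ∀ s ∈ Icc (0:ℝ) ε0, J s = p + s • e := fun s hs => if_pos hs.2
  have hJ1 : ∀ s ∈ Icc (0:ℝ) ε0, J (1 - s) = p - s • e := by
    intro s hs
    show (if 1 - s ≤ ε0 then _ else _) = _
    rw [if_neg (by linarith [hs.2]), if_pos (by linarith [hs.2]), sub_sub_cancel]
  have hJmid : ∀ s, ε0 < s → s < 1 - ε0 → J s ∈ G := by
    intro s h1 h2
    show (if s ≤ ε0 then _ else _) ∈ G
    rw [if_neg (by linarith), if_neg (by linarith)]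
    have : (s - ε0) / (1 - 2 * ε0) ∈ Icc (0:ℝ) 1 := by
      constructor
      · exact div_nonneg (by linarith) hden.le
      · rw [div_le_one hden]; linarith
    rw [β.extend_apply this]
    exact hβ _
  have hJA : ∀ s ∈ Ioo (0:ℝ) 1, J s ∈ G := by
    intro s hs
    rcases le_or_gt s ε0 with h1 | h1
    · rw [hJ0 s ⟨hs.1.le, h1⟩]
      left
      exact (h.up s hs.1 (h1.trans hε0')).ne'
    · rcases lt_or_ge s (1 - ε0) with h2 | h2
      · exact hJmid s h1 h2
      · have := hJ1 (1 - s) ⟨by linarith [hs.2], by linarith⟩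
        rw [sub_sub_cancel] at this
        rw [this]
        left
        exact (h.down (1 - s) (by linarith [hs.2]) (by linarith)).ne
  have hJne : ∀ s ∈ Ioo (0:ℝ) 1, J s ≠ p := by
    intro s hs h1
    exact hpG (h1 ▸ hJA s hs)
  have hJa : ∀ x ∈ J '' Icc 0 1, A x = a → v x = c := by
    rintro x ⟨s, hs, rfl⟩ hx
    rcases eq_or_lt_of_le hs.1 with h0 | h0
    · rw [hJ0 s ⟨hs.1, by rw [← h0]; exact hε00.le⟩, ← h0]; simp [hc]
    · rcases eq_or_lt_of_le hs.2 with h1 | h1
      · have := hJ1 0 ⟨le_rfl, hε00.le⟩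
        rw [sub_zero] at this
        rw [h1, this]; simp [hc]
      · rcases hJA s ⟨h0, h1⟩ with h2 | h2
        · exact absurd hx h2
        · rw [h2, hvp]
  obtain ⟨Ω, o1, o2, o3, o4, o5, σ, hσ, δ, hδ, hΩ⟩ := loop_sep hJc.continuousOn h.unit hε00 hε0''
    hJ0 hJ1 hJne
  -- a point of `{A = a} ∩ Ω` with `v ≠ c`
  have hy : ∃ y ∈ Ω, A y = a ∧ v y ≠ c := by
    obtain ⟨r, hr, hgrad⟩ := h.grad
    have hσ2 : σ * σ = 1 := by rcases hσ with h | h <;> rw [h] <;> norm_num
    set w : P := (-(σ * e.2), σ * e.1) with hw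
    have hA1 : DifferentiableAt ℝ A p := hs.cA.differentiable (by simp) p
    have e1 : ∀ᶠ s in 𝓝[>] (0:ℝ), A p < A (p + s • (w + e)) := by
      apply eventually_lt_of_dir hA1
      rw [hgrad]
      have : (w + e).1 * e.1 + (w + e).2 * e.2 = 1 := by
        simp only [hw, Prod.fst_add, Prod.snd_add]; linear_combination h.unit
      rw [this, mul_one]; exact hr
    have e2 : ∀ᶠ s in 𝓝[>] (0:ℝ), A (p + s • (w - e)) < A p := by
      apply eventually_gt_of_dir hA1
      rw [hgrad]
      have : (w - e).1 * e.1 + (w - e).2 * e.2 = -1 := by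
        simp only [hw, Prod.fst_sub, Prod.snd_sub]; linear_combination -h.unit
      rw [this]; linarith
    obtain ⟨η, hη, h12⟩ := exists_le_of_eventually (e1.and e2)
    obtain ⟨U, hU, hinj⟩ := exists_injOn_nhds ((smooth_pair hs).of_le (by simp))
      (x := p) (by rw [det_pair hs]; exact hj)
    obtain ⟨ρ, hρ, hball⟩ := Metric.mem_nhds_iff.1 hU
    set t := min η (min (ρ / 4) (δ / 4)) with ht
    have ht0 : 0 < t := lt_min hη (lt_min (by positivity) (by positivity))
    have htη : t ≤ η := min_le_left _ _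
    have htρ : t ≤ ρ / 4 := (min_le_right _ _).trans (min_le_left _ _)
    have htδ : t ≤ δ / 4 := (min_le_right _ _).trans (min_le_right _ _)
    obtain ⟨q1, q2⟩ := h12 t ht0 htη
    have hcont : ContinuousOn (fun s : ℝ => A (p + (t • w + s • e))) (Icc (-t) t) := by
      have : Continuous fun s : ℝ => A (p + (t • w + s • e)) := hAc.comp (by fun_prop)
      exact this.continuousOn
    have hiv := intermediate_value_Icc (by linarith : -t ≤ t) hcont
    have hmem : a ∈ Icc (A (p + (t • w + (-t) • e))) (A (p + (t • w + t • e))) := by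
      constructor
      · have : t • w + (-t) • e = t • (w - e) := by rw [smul_sub, neg_smul]; rfl
        rw [this]; exact q2.le
      · rw [← smul_add]; exact q1.le
    obtain ⟨s, hs', hsA⟩ := hiv hmem
    have hwn : ‖w‖ ≤ 1 := by
      have h1 : e.1 ^ 2 ≤ 1 := by nlinarith [sq_nonneg e.2, h.unit]
      have h2 : e.2 ^ 2 ≤ 1 := by nlinarith [sq_nonneg e.1, h.unit]
      have hσa : |σ| = 1 := by rcases hσ with h | h <;> rw [h] <;> norm_num
      rw [Prod.norm_def]
      apply max_le
      · rw [Real.norm_eq_abs]; simp only [hw]; rw [abs_neg, abs_mul, hσa, one_mul]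
        exact abs_le_one_iff_mul_self_le_one.2 (by nlinarith)
      · rw [Real.norm_eq_abs]; simp only [hw]; rw [abs_mul, hσa, one_mul]
        exact abs_le_one_iff_mul_self_le_one.2 (by nlinarith)
    have hen : ‖e‖ ≤ 1 := by
      have h1 : e.1 ^ 2 ≤ 1 := by nlinarith [sq_nonneg e.2, h.unit]
      have h2 : e.2 ^ 2 ≤ 1 := by nlinarith [sq_nonneg e.1, h.unit]
      rw [Prod.norm_def]
      apply max_le
      · rw [Real.norm_eq_abs]
        exact abs_le_one_iff_mul_self_le_one.2 (by nlinarith)
      · rw [Real.norm_eq_abs]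
        exact abs_le_one_iff_mul_self_le_one.2 (by nlinarith)
    have hnorm : ‖t • w + s • e‖ ≤ 2 * t := by
      have h1 : ‖t • w‖ ≤ t := by
        rw [norm_smul, Real.norm_eq_abs, abs_of_pos ht0]
        exact mul_le_of_le_one_right ht0.le hwn
      have h2 : ‖s • e‖ ≤ t := by
        rw [norm_smul, Real.norm_eq_abs]
        calc |s| * ‖e‖ ≤ |s| * 1 := by gcongr
          _ = |s| := mul_one _
          _ ≤ t := abs_le.2 hs'
      linarith [norm_add_le (t • w) (s • e)]
    refine ⟨p + (t • w + s • e), hΩ _ (by linarith) ?_, hsA, ?_⟩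
    · have : (t • w + s • e).2 * e.1 - (t • w + s • e).1 * e.2 = t * σ := by
        simp only [hw, Prod.fst_add, Prod.snd_add, Prod.smul_fst, Prod.smul_snd, smul_eq_mul]
        linear_combination t * σ * h.unit
      rw [this]
      have : σ * (t * σ) = t := by linear_combination t * hσ2
      rw [this]; exact ht0
    · intro hv
      have hpU : p ∈ U := mem_of_mem_nhds hU
      have hyU : p + (t • w + s • e) ∈ U := by
        apply hball
        rw [Metric.mem_ball, dist_eq_norm, add_sub_cancel_left]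
        linarith
      have heq : pair A v (p + (t • w + s • e)) = pair A v p := by
        unfold pair
        exact Prod.ext hsA hv
      have := hinj hyU hpU heq
      have h3 : t • w + s • e = 0 := by simpa using this
      have h4 : (t • w + s • e).2 * e.1 - (t • w + s • e).1 * e.2 = t * σ := by
        simp only [hw, Prod.fst_add, Prod.snd_add, Prod.smul_fst, Prod.smul_snd, smul_eq_mul]
        linear_combination t * σ * h.unit
      rw [h3] at h4
      simp only [Prod.fst_zero, Prod.snd_zero, zero_mul, sub_zero] at h4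
      have h5 : t * σ * σ = 0 := by rw [← h4]; ring
      have : t = 0 := by linear_combination h5 - t * hσ2
      linarith
  obtain ⟨y, hyΩ, hyA, hyv⟩ := hy
  -- choose the sign
  obtain ⟨s, hs1, hsy⟩ : ∃ s : ℝ, (s = 1 ∨ s = -1) ∧ 0 < s * (v y - c) := by
    rcases lt_or_gt_of_ne hyv with h1 | h1
    · exact ⟨-1, Or.inr rfl, by linarith⟩
    · exact ⟨1, Or.inl rfl, by linarith⟩
  have hss : s * s = 1 := by rcases hs1 with h | h <;> rw [h] <;> norm_num
  have hcl : IsCompact (closure Ω) := o3.isCompact_closure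
  have hZ : IsCompact (closure Ω ∩ {x | A x = a}) :=
    hcl.inter_right (isClosed_eq hAc continuous_const)
  obtain ⟨y0, hy0, hmax⟩ := hZ.exists_isMaxOn ⟨y, subset_closure hyΩ, hyA⟩
    (f := fun x => s * v x) (by fun_prop)
  have hy0v : s * c < s * v y0 := by
    have : s * v y ≤ s * v y0 := hmax ⟨subset_closure hyΩ, hyA⟩
    nlinarith
  set T := s * v y0 with hT
  have hfr : ∀ x ∈ frontier Ω, cpair A v x ≠ ⟨a, s * T⟩ := by
    intro x hx hx'
    have h1 : A x = a := congrArg Complex.re hx'
    have h2 : v x = s * T := congrArg Complex.im hx'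
    have h3 := hJa x (o5 hx) h1
    rw [h3] at h2
    have : s * c = T := by rw [h2]; linear_combination T * hss
    linarith
  have hcp : Continuous (cpair A v) := by
    have : cpair A v = fun x => ((A x : ℂ) + (v x : ℂ) * Complex.I) := by
      funext x
      apply Complex.ext <;> simp [cpair]
    rw [this]; fun_prop
  -- positive distance on the frontier
  obtain ⟨d, hd, hdist⟩ : ∃ d > 0, ∀ x ∈ frontier Ω, 2 * d ≤ ‖cpair A v x - ⟨a, s * T⟩‖ := by
    have hfc : IsCompact (frontier Ω) := hcl.of_isClosed_subset isClosed_frontier frontier_subset_closure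
    rcases (frontier Ω).eq_empty_or_nonempty with h0 | h0
    · exact ⟨1, one_pos, by rw [h0]; simp⟩
    · obtain ⟨x0, hx0, hmin⟩ := hfc.exists_isMinOn h0
        (f := fun x => ‖cpair A v x - ⟨a, s * T⟩‖) (by fun_prop)
      refine ⟨‖cpair A v x0 - ⟨a, s * T⟩‖ / 2, ?_, fun x hx => ?_⟩
      · have := norm_pos_iff.2 (sub_ne_zero.2 (hfr x0 hx0))
        positivity
      · have : ‖cpair A v x0 - ⟨a, s * T⟩‖ ≤ ‖cpair A v x - ⟨a, s * T⟩‖ := hmin hx
        linarith
  set η := d / 2 with hη
  set z : ℂ := ⟨a, s * (T + η)⟩ with hzdef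
  have hzz : ‖z - ⟨a, s * T⟩‖ = η := by
    have h1 : z - ⟨a, s * T⟩ = ((s * η : ℝ) : ℂ) * Complex.I := by
      rw [hzdef]; apply Complex.ext <;> simp; ring
    have hsa : |s| = 1 := by rcases hs1 with h | h <;> rw [h] <;> norm_num
    rw [h1, norm_mul, Complex.norm_I, mul_one, Complex.norm_real, Real.norm_eq_abs, abs_mul, hsa,
      one_mul, abs_of_pos (by positivity)]
  have hznot : ∀ x ∈ closure Ω, cpair A v x ≠ z := by
    intro x hx hx'
    have h1 : A x = a := congrArg Complex.re hx'
    have h2 : v x = s * (T + η) := congrArg Complex.im hx'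
    have h3 : s * v x ≤ T := hmax ⟨hx, h1⟩
    have : s * v x = T + η := by rw [h2]; linear_combination (T + η) * hss
    have : 0 < η := by positivity
    linarith
  have hmm := min_modulus hs o1 o3 hznot (δ := d) (fun x hx => by
    have h1 := hdist x hx
    have h2 : ‖cpair A v x - ⟨a, s * T⟩‖ ≤ ‖cpair A v x - z‖ + ‖z - ⟨a, s * T⟩‖ := by
      have := norm_add_le (cpair A v x - z) (z - ⟨a, s * T⟩)
      rwa [sub_add_sub_cancel] at this
    rw [hzz] at h2
    have : 0 < d := hd
    linarith) y0 hy0.1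
  have h3 : cpair A v y0 = ⟨a, s * T⟩ := by
    apply Complex.ext
    · exact hy0.2
    · show v y0 = s * T
      rw [hT]; linear_combination -(v y0) * hss
  rw [h3, ← norm_neg, neg_sub, hzz] at hmm
  linarith

/-- three points with the same value of `Φ`, all on the same hill: impossible -/
theorem no_three {A v : P → ℝ} (hs : Sol A v) {z : P} (x e : Fin 3 → P) (ε : Fin 3 → ℝ)
    (hx : ∀ i, pair A v (x i) = z) (hj : ∀ i, jac A (x i) ≠ 0) (hst : ∀ i, Step A (x i) (e i) (ε i))
    (hinj : Function.Injective x)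
    (hup : ∀ i j, JoinedIn {y | z.1 < A y} (x i + ε i • e i) (x j + ε j • e j)) : False := by
  have hAx : ∀ i, A (x i) = z.1 := fun i => congrArg Prod.fst (hx i)
  obtain ⟨i, j, hij, hv⟩ := valleys hs z.1 (fun i => x i - ε i • e i) (fun i => by
    have := (hst i).down (ε i) (hst i).pos le_rfl
    rwa [hAx] at this)
  have hdn := joined_of_mem_comp (isOpen_lt hs.cA.continuous continuous_const) (by
    have := (hst i).down (ε i) (hst i).pos le_rfl
    rwa [hAx] at this) hv
  refine no_share hs (fun h => hij (hinj h)) ((hx i).trans (hx j).symm) (hj i) (hst i) (hst j) ?_ ?_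
  · rw [hAx]; exact hup i j
  · rw [hAx]; exact hdn

theorem fiber_le_four {A v : P → ℝ} (hs : Sol A v) {z : P}
    (hz : ∀ x, pair A v x = z → jac A x ≠ 0) : {x | pair A v x = z}.encard ≤ 4 := by
  classical
  by_contra hcon
  push Not at hcon
  obtain ⟨t, ht, htc⟩ : ∃ t ⊆ {x | pair A v x = z}, t.encard = 5 := by
    apply exists_subset_encard_eq
    have : (4:ℕ∞) + 1 ≤ {x | pair A v x = z}.encard := Order.add_one_le_of_lt hcon
    calc (5:ℕ∞) = 4 + 1 := by norm_num
      _ ≤ _ := this
  have htf : t.Finite := finite_of_encard_eq_coe (k := 5) (by simpa using htc)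
  set T : Finset P := htf.toFinset with hT
  have hTc : T.card = 5 := by
    have := htf.encard_eq_coe_toFinset_card
    rw [htc] at this
    exact_mod_cast this.symm
  have hTm : ∀ x ∈ T, pair A v x = z := fun x hx => ht (htf.mem_toFinset.1 hx)
  have hstep : ∀ x : P, ∃ q : P × ℝ, pair A v x = z → Step A x q.1 q.2 := by
    intro x
    by_cases hx : pair A v x = z
    · obtain ⟨e, ε, h⟩ := exists_step hs.cA (hz x hx)
      exact ⟨(e, ε), fun _ => h⟩
    · exact ⟨0, fun h => absurd h hx⟩
  choose q hq using hstep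
  have hAx : ∀ x ∈ T, A x = z.1 := fun x hx => congrArg Prod.fst (hTm x hx)
  have hup : ∀ x ∈ T, z.1 < A (x + (q x).2 • (q x).1) := by
    intro x hx
    have := (hq x (hTm x hx)).up _ (hq x (hTm x hx)).pos le_rfl
    rwa [hAx x hx] at this
  have hO : IsOpen {y | z.1 < A y} := isOpen_lt continuous_const hs.cA.continuous
  let f : P → Set P := fun x => connectedComponentIn {y | z.1 < A y} (x + (q x).2 • (q x).1)
  have himg : (T.image f).card ≤ 2 := by
    by_contra h
    push Not at h
    obtain ⟨c1, c2, c3, h1, h2, h3, n12, n13, n23⟩ := Finset.two_lt_card_iff.1 h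
    obtain ⟨x1, m1, r1⟩ := Finset.mem_image.1 h1
    obtain ⟨x2, m2, r2⟩ := Finset.mem_image.1 h2
    obtain ⟨x3, m3, r3⟩ := Finset.mem_image.1 h3
    let y : Fin 3 → P := ![x1, x2, x3]
    have hy : ∀ i, y i ∈ T := by
      intro i; fin_cases i <;> simp [y, m1, m2, m3]
    obtain ⟨i, j, hij, hh⟩ := hills hs z.1 (fun i => y i + (q (y i)).2 • (q (y i)).1)
      (fun i => hup _ (hy i))
    have he : f (y i) = f (y j) := connectedComponentIn_eq hh
    have hf : ∀ i, f (y i) = ![c1, c2, c3] i := by
      intro i; fin_cases i <;> simp [y, r1, r2, r3]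
    rw [hf, hf] at he
    fin_cases i <;> fin_cases j <;> simp_all
  obtain ⟨c, hc, hcard⟩ := Finset.exists_lt_card_fiber_of_mul_lt_card_of_maps_to
    (s := T) (t := T.image f) (f := f) (n := 2) (fun a ha => Finset.mem_image_of_mem f ha)
    (by rw [hTc]; omega)
  obtain ⟨x1, x2, x3, m1, m2, m3, n12, n13, n23⟩ := Finset.two_lt_card_iff.1 hcard
  rw [Finset.mem_filter] at m1 m2 m3
  let y : Fin 3 → P := ![x1, x2, x3]
  have hy : ∀ i, y i ∈ T ∧ f (y i) = c := by
    intro i; fin_cases i <;> simp [y, m1, m2, m3]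
  have hyinj : Function.Injective y := by
    intro i j hij
    fin_cases i <;> fin_cases j <;>
      first
      | rfl
      | exact absurd hij n12
      | exact absurd hij n13
      | exact absurd hij n23
      | exact absurd hij.symm n12
      | exact absurd hij.symm n13
      | exact absurd hij.symm n23
  refine no_three hs y (fun i => (q (y i)).1) (fun i => (q (y i)).2) (fun i => hTm _ (hy i).1)
    (fun i => hz _ (hTm _ (hy i).1)) (fun i => hq _ (hTm _ (hy i).1)) hyinj ?_
  intro i j
  apply joined_of_mem_comp hO (hup _ (hy i).1)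
  have h1 : f (y i) = f (y j) := (hy i).2.trans (hy j).2.symm
  show _ ∈ f (y i)
  rw [h1]
  exact mem_connectedComponentIn (hup _ (hy j).1)

theorem fiber_le_two {A v : P → ℝ} (hs : Sol A v) {z : P}
    (hz : ∀ x, pair A v x = z → jac A x ≠ 0) (hc : IsPreconnected {y | A y < z.1}) :
    {x | pair A v x = z}.encard ≤ 2 := by
  classical
  by_contra hcon
  push Not at hcon
  obtain ⟨t, ht, htc⟩ : ∃ t ⊆ {x | pair A v x = z}, t.encard = 3 := by
    apply exists_subset_encard_eq
    have : (2:ℕ∞) + 1 ≤ {x | pair A v x = z}.encard := Order.add_one_le_of_lt hcon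
    calc (3:ℕ∞) = 2 + 1 := by norm_num
      _ ≤ _ := this
  obtain ⟨x1, x2, x3, n12, n13, n23, rfl⟩ := encard_eq_three.1 htc
  have hxm : ∀ i, pair A v (![x1, x2, x3] i) = z := by
    intro i
    apply ht
    fin_cases i <;> simp
  choose e ε hst using fun i => exists_step hs.cA (hz _ (hxm i))
  have hAx : ∀ i, A (![x1, x2, x3] i) = z.1 := fun i => congrArg Prod.fst (hxm i)
  have hup : ∀ i, z.1 < A (![x1, x2, x3] i + ε i • e i) := by
    intro i
    have := (hst i).up _ (hst i).pos le_rfl
    rwa [hAx] at this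
  have hdn : ∀ i, A (![x1, x2, x3] i - ε i • e i) < z.1 := by
    intro i
    have := (hst i).down _ (hst i).pos le_rfl
    rwa [hAx] at this
  obtain ⟨i, j, hij, hh⟩ := hills hs z.1 (fun i => ![x1, x2, x3] i + ε i • e i) hup
  have hne : ![x1, x2, x3] i ≠ ![x1, x2, x3] j := by
    fin_cases i <;> fin_cases j <;>
      first
      | exact absurd rfl hij
      | exact n12
      | exact n13
      | exact n23
      | exact n12.symm
      | exact n13.symm
      | exact n23.symm
  refine no_share hs hne ((hxm i).trans (hxm j).symm) (hz _ (hxm i)) (hst i) (hst j) ?_ ?_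
  · rw [hAx]
    exact joined_of_mem_comp (isOpen_lt continuous_const hs.cA.continuous) (hup i) hh
  · rw [hAx]
    exact joined_of_mem_comp (isOpen_lt hs.cA.continuous continuous_const) (hdn i)
      (hc.subset_connectedComponentIn (hdn i) Subset.rfl (hdn j))

end Pool.Agent.EU
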