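import Pool.Agent.EU.Defs

/-!
Circle means: the pointwise representation of the second derivatives of a `C²` function.
-/

set_option autoImplicit false
open scoped ContDiff Topology Interval
open Real Set MeasureTheory Filter

namespace Pool.Agent.EU.Reg

theorem hasDerivAt_param {F F' : ℝ → ℝ → ℂ} (hF : Continuous (fun p : ℝ × ℝ => F p.1 p.2))
    (hF' : Continuous (fun p : ℝ × ℝ => F' p.1 p.2))
    (hd : ∀ r θ, HasDerivAt (fun r => F r θ) (F' r θ) r) (a b r : ℝ) :
    HasDerivAt (fun r => ∫ θ in a..b, F r θ) (∫ θ in a..b, F' r θ) r := by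
  have hK : IsCompact (Icc (r - 1) (r + 1) ×ˢ [[a, b]]) := isCompact_Icc.prod isCompact_uIcc
  obtain ⟨C, hC⟩ := hK.exists_bound_of_continuousOn hF'.continuousOn
  have h := intervalIntegral.hasDerivAt_integral_of_dominated_loc_of_deriv_le (μ := volume)
    (F := F) (F' := F') (x₀ := r) (s := Icc (r - 1) (r + 1)) (a := a) (b := b) (bound := fun _ => C)
    (Icc_mem_nhds (by linarith) (by linarith))
    (Eventually.of_forall fun x => (hF.comp (by fun_prop : Continuous fun t : ℝ => (x, t))).aestronglyMeasurable)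
    ((hF.comp (by fun_prop : Continuous fun t : ℝ => (r, t))).intervalIntegrable _ _)
    ((hF'.comp (by fun_prop : Continuous fun t : ℝ => (r, t))).aestronglyMeasurable)
    (Eventually.of_forall fun t ht x hx => hC (x, t) ⟨hx, uIoc_subset_uIcc ht⟩)
    intervalIntegrable_const
    (Eventually.of_forall fun t _ x _ => hd x t)
  exact h.2

/-- the point at angle `θ` on the ellipse of size `r`. -/
noncomputable def ell (x0 : P) (s t r θ : ℝ) : P := (x0.1 + s * r * cos θ, x0.2 + t * r * sin θ)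

/-- the complex gradient on the ellipse. -/
noncomputable def gg (w : P → ℝ) (x0 : P) (s t r θ : ℝ) : ℂ :=
  ((s * d1 w (ell x0 s t r θ) : ℝ) : ℂ) - Complex.I * ((t * d2 w (ell x0 s t r θ) : ℝ) : ℂ)

/-- the unit complex number. -/
noncomputable def em (θ : ℝ) : ℂ := (cos θ : ℂ) - Complex.I * (sin θ : ℂ)

noncomputable def KK (w : P → ℝ) (x0 : P) (s t r : ℝ) : ℂ :=
  ∫ θ in (0:ℝ)..(2 * π), gg w x0 s t r θ * em θ

noncomputable def ggr (w : P → ℝ) (x0 : P) (s t r θ : ℝ) : ℂ :=
  ((s * (s * cos θ * d1 (d1 w) (ell x0 s t r θ) + t * sin θ * d2 (d1 w) (ell x0 s t r θ)) : ℝ) : ℂ) -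
  Complex.I * ((t * (s * cos θ * d2 (d1 w) (ell x0 s t r θ) + t * sin θ * d2 (d2 w) (ell x0 s t r θ)) : ℝ) : ℂ)

noncomputable def ggt (w : P → ℝ) (x0 : P) (s t r θ : ℝ) : ℂ :=
  ((s * (-(s * r * sin θ) * d1 (d1 w) (ell x0 s t r θ) + t * r * cos θ * d2 (d1 w) (ell x0 s t r θ)) : ℝ) : ℂ) -
  Complex.I * ((t * (-(s * r * sin θ) * d2 (d1 w) (ell x0 s t r θ) + t * r * cos θ * d2 (d2 w) (ell x0 s t r θ)) : ℝ) : ℂ)

noncomputable def LL (w : P → ℝ) (x0 : P) (s t r θ : ℝ) : ℝ :=
  s ^ 2 * d1 (d1 w) (ell x0 s t r θ) + t ^ 2 * d2 (d2 w) (ell x0 s t r θ)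

noncomputable def DD (w : P → ℝ) (x0 : P) (s t : ℝ) : ℂ :=
  ((s ^ 2 * d1 (d1 w) x0 - t ^ 2 * d2 (d2 w) x0 : ℝ) : ℂ) - 2 * Complex.I * ((s * t * d2 (d1 w) x0 : ℝ) : ℂ)

theorem hasDerivAt_em (θ : ℝ) : HasDerivAt em (-Complex.I * em θ) θ := by
  have h1 : HasDerivAt (fun θ : ℝ => ((cos θ : ℝ) : ℂ)) ((-sin θ : ℝ) : ℂ) θ :=
    (hasDerivAt_cos θ).ofReal_comp
  have h2 : HasDerivAt (fun θ : ℝ => ((sin θ : ℝ) : ℂ)) ((cos θ : ℝ) : ℂ) θ :=
    (hasDerivAt_sin θ).ofReal_comp
  have h := h1.sub (h2.const_mul Complex.I)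
  refine (h.congr_deriv ?_)
  unfold em
  push_cast
  have : Complex.I * Complex.I = -1 := Complex.I_mul_I
  linear_combination (-(Complex.sin θ)) * this

theorem continuous_em : Continuous em := by
  unfold em; fun_prop

theorem norm_em (θ : ℝ) : ‖em θ‖ = 1 := by
  have : em θ = Complex.exp (((-θ : ℝ) : ℂ) * Complex.I) := by
    rw [Complex.exp_mul_I]
    unfold em
    push_cast
    rw [Complex.cos_neg, Complex.sin_neg]
    ring
  rw [this, Complex.norm_exp_ofReal_mul_I]

theorem d12 {w : P → ℝ} (hw : ContDiff ℝ 2 w) (x : P) : d1 (d2 w) x = d2 (d1 w) x := d1_d2_comm hw x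

section
variable {w : P → ℝ} (hw : ContDiff ℝ 2 w) (x0 : P) (s t : ℝ)
include hw

theorem cont_d1 : Continuous (d1 w) := (contDiff_d1 (m := 1) hw (by norm_num)).continuous
theorem cont_d2 : Continuous (d2 w) := (contDiff_d2 (m := 1) hw (by norm_num)).continuous
theorem diff_d1 : Differentiable ℝ (d1 w) := (contDiff_d1 (m := 1) hw (by norm_num)).differentiable (by norm_num)
theorem diff_d2 : Differentiable ℝ (d2 w) := (contDiff_d2 (m := 1) hw (by norm_num)).differentiable (by norm_num)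
theorem cont_d11 : Continuous (d1 (d1 w)) :=
  (contDiff_d1 (m := 0) (contDiff_d1 (m := 1) hw (by norm_num)) (by norm_num)).continuous
theorem cont_d22 : Continuous (d2 (d2 w)) :=
  (contDiff_d2 (m := 0) (contDiff_d2 (m := 1) hw (by norm_num)) (by norm_num)).continuous
theorem cont_d21 : Continuous (d2 (d1 w)) :=
  (contDiff_d2 (m := 0) (contDiff_d1 (m := 1) hw (by norm_num)) (by norm_num)).continuous

theorem continuous_gg : Continuous (fun p : ℝ × ℝ => gg w x0 s t p.1 p.2) := by
  have h1 := cont_d1 hw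
  have h2 := cont_d2 hw
  unfold gg ell
  fun_prop

theorem continuous_ggr : Continuous (fun p : ℝ × ℝ => ggr w x0 s t p.1 p.2) := by
  have h1 := cont_d11 hw
  have h2 := cont_d22 hw
  have h3 := cont_d21 hw
  unfold ggr ell
  fun_prop

theorem continuous_ggt : Continuous (fun p : ℝ × ℝ => ggt w x0 s t p.1 p.2) := by
  have h1 := cont_d11 hw
  have h2 := cont_d22 hw
  have h3 := cont_d21 hw
  unfold ggt ell
  fun_prop

theorem continuous_LL : Continuous (fun p : ℝ × ℝ => LL w x0 s t p.1 p.2) := by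
  have h1 := cont_d11 hw
  have h2 := cont_d22 hw
  unfold LL ell
  fun_prop

omit hw in
theorem hasDerivAt_ell_r (r θ : ℝ) :
    HasDerivAt (fun r => ell x0 s t r θ) ((s * cos θ, t * sin θ) : P) r := by
  unfold ell
  have h1 : HasDerivAt (fun r : ℝ => x0.1 + s * r * cos θ) (s * cos θ) r := by
    have := (((hasDerivAt_id r).const_mul s).mul_const (cos θ)).const_add x0.1
    simpa using this
  have h2 : HasDerivAt (fun r : ℝ => x0.2 + t * r * sin θ) (t * sin θ) r := by
    have := (((hasDerivAt_id r).const_mul t).mul_const (sin θ)).const_add x0.2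
    simpa using this
  exact h1.prodMk h2

omit hw in
theorem hasDerivAt_ell_t (r θ : ℝ) :
    HasDerivAt (fun θ => ell x0 s t r θ) ((-(s * r * sin θ), t * r * cos θ) : P) θ := by
  unfold ell
  have h1 : HasDerivAt (fun θ : ℝ => x0.1 + s * r * cos θ) (-(s * r * sin θ)) θ := by
    have := ((hasDerivAt_cos θ).const_mul (s * r)).const_add x0.1
    simpa using this
  have h2 : HasDerivAt (fun θ : ℝ => x0.2 + t * r * sin θ) (t * r * cos θ) θ := by
    exact ((hasDerivAt_sin θ).const_mul (t * r)).const_add x0.2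
  exact h1.prodMk h2

theorem hasDerivAt_gg_r (r θ : ℝ) :
    HasDerivAt (fun r => gg w x0 s t r θ) (ggr w x0 s t r θ) r := by
  have e := hasDerivAt_ell_r x0 s t r θ
  have h1 := ((diff_d1 hw (ell x0 s t r θ)).hasFDerivAt.comp_hasDerivAt r e).const_mul s
  have h2 := ((diff_d2 hw (ell x0 s t r θ)).hasFDerivAt.comp_hasDerivAt r e).const_mul t
  have h := h1.ofReal_comp.sub (h2.ofReal_comp.const_mul Complex.I)
  refine h.congr_deriv ?_
  rw [fderiv_apply_eq, fderiv_apply_eq, d12 hw]
  unfold ggr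
  simp only [smul_eq_mul]

theorem hasDerivAt_gg_t (r θ : ℝ) :
    HasDerivAt (fun θ => gg w x0 s t r θ) (ggt w x0 s t r θ) θ := by
  have e := hasDerivAt_ell_t x0 s t r θ
  have h1 := ((diff_d1 hw (ell x0 s t r θ)).hasFDerivAt.comp_hasDerivAt θ e).const_mul s
  have h2 := ((diff_d2 hw (ell x0 s t r θ)).hasFDerivAt.comp_hasDerivAt θ e).const_mul t
  have h := h1.ofReal_comp.sub (h2.ofReal_comp.const_mul Complex.I)
  refine h.congr_deriv ?_
  rw [fderiv_apply_eq, fderiv_apply_eq, d12 hw]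
  unfold ggt
  simp only [smul_eq_mul]

theorem hasDerivAt_KK (r : ℝ) :
    HasDerivAt (KK w x0 s t) (∫ θ in (0:ℝ)..(2 * π), ggr w x0 s t r θ * em θ) r := by
  have hc := continuous_em
  have hg := continuous_gg hw x0 s t
  have hg' := continuous_ggr hw x0 s t
  refine hasDerivAt_param (F := fun r θ => gg w x0 s t r θ * em θ)
    (F' := fun r θ => ggr w x0 s t r θ * em θ) ?_ ?_ ?_ _ _ _
  · exact hg.mul (hc.comp continuous_snd)
  · exact hg'.mul (hc.comp continuous_snd)
  · intro r θ
    exact (hasDerivAt_gg_r hw x0 s t r θ).mul_const _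

omit hw in
theorem ggr_eq (r θ : ℝ) :
    (r : ℂ) * ggr w x0 s t r θ = -Complex.I * ggt w x0 s t r θ + (r : ℂ) * (LL w x0 s t r θ : ℂ) * em θ := by
  unfold ggr ggt LL em
  push_cast
  have : Complex.I * Complex.I = -1 := Complex.I_mul_I
  linear_combination (-((t:ℂ) * (-((s:ℂ) * r * Complex.sin θ) * ((d2 (d1 w) (ell x0 s t r θ) : ℝ) : ℂ) +
     t * r * Complex.cos θ * ((d2 (d2 w) (ell x0 s t r θ) : ℝ) : ℂ)))) * this

omit hw in
theorem em_two_pi : em (2 * π) = 1 := by unfold em; simp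

omit hw in
theorem em_zero : em 0 = 1 := by unfold em; simp

omit hw in
theorem gg_two_pi (r : ℝ) : gg w x0 s t r (2 * π) = gg w x0 s t r 0 := by
  unfold gg ell; simp

omit hw in
theorem integral_em : ∫ θ in (0:ℝ)..(2 * π), em θ = 0 := by
  have h : ∀ θ ∈ uIcc (0:ℝ) (2 * π), HasDerivAt (fun θ => Complex.I * em θ) (em θ) θ := by
    intro θ _
    refine ((hasDerivAt_em θ).const_mul Complex.I).congr_deriv ?_
    have : Complex.I * Complex.I = -1 := Complex.I_mul_I
    linear_combination (-em θ) * this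
  rw [intervalIntegral.integral_eq_sub_of_hasDerivAt h (continuous_em.intervalIntegrable _ _),
    em_two_pi, em_zero, sub_self]

omit hw in
theorem integral_em_sq : ∫ θ in (0:ℝ)..(2 * π), em θ * em θ = 0 := by
  have h : ∀ θ ∈ uIcc (0:ℝ) (2 * π),
      HasDerivAt (fun θ => Complex.I / 2 * (em θ * em θ)) (em θ * em θ) θ := by
    intro θ _
    refine (((hasDerivAt_em θ).mul (hasDerivAt_em θ)).const_mul (Complex.I / 2)).congr_deriv ?_
    have : Complex.I * Complex.I = -1 := Complex.I_mul_I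
    linear_combination (-(em θ * em θ)) * this
  rw [intervalIntegral.integral_eq_sub_of_hasDerivAt h
    ((continuous_em.mul continuous_em).intervalIntegrable _ _), em_two_pi, em_zero, sub_self]

theorem KK_deriv_eq (r : ℝ) :
    (r : ℂ) * ∫ θ in (0:ℝ)..(2 * π), ggr w x0 s t r θ * em θ =
      KK w x0 s t r + (r : ℂ) * ∫ θ in (0:ℝ)..(2 * π), (LL w x0 s t r θ : ℂ) * (em θ * em θ) := by
  have hc := continuous_em
  have hslice : Continuous (fun θ : ℝ => (r, θ)) := by fun_prop
  have cg : Continuous (gg w x0 s t r) := (continuous_gg hw x0 s t).comp hslice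
  have cgt : Continuous (ggt w x0 s t r) := (continuous_ggt hw x0 s t).comp hslice
  have cL : Continuous (LL w x0 s t r) := (continuous_LL hw x0 s t).comp hslice
  have cLc : Continuous (fun θ => (LL w x0 s t r θ : ℂ)) := Complex.continuous_ofReal.comp cL
  have hparts : ∫ θ in (0:ℝ)..(2 * π), em θ * ggt w x0 s t r θ =
      Complex.I * KK w x0 s t r := by
    rw [intervalIntegral.integral_mul_deriv_eq_deriv_mul (fun θ _ => hasDerivAt_em θ)
      (fun θ _ => hasDerivAt_gg_t hw x0 s t r θ)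
      ((continuous_const.mul hc).intervalIntegrable _ _) (cgt.intervalIntegrable _ _)]
    rw [em_two_pi, em_zero, gg_two_pi]
    unfold KK
    rw [← intervalIntegral.integral_const_mul, sub_self, zero_sub, ← intervalIntegral.integral_neg]
    congr 1
    ext θ
    ring
  have hstep : ∀ θ : ℝ, (r : ℂ) * (ggr w x0 s t r θ * em θ) =
      -Complex.I * (em θ * ggt w x0 s t r θ) +
        (r : ℂ) * ((LL w x0 s t r θ : ℂ) * (em θ * em θ)) := by
    intro θ
    have := ggr_eq (w := w) x0 s t r θ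
    linear_combination (em θ) * this
  rw [← intervalIntegral.integral_const_mul]
  simp_rw [hstep]
  rw [intervalIntegral.integral_add, intervalIntegral.integral_const_mul,
    intervalIntegral.integral_const_mul, hparts]
  · have : Complex.I * Complex.I = -1 := Complex.I_mul_I
    linear_combination (-KK w x0 s t r) * this
  · exact (continuous_const.mul (hc.mul cgt)).intervalIntegrable _ _
  · exact (continuous_const.mul (cLc.mul (hc.mul hc))).intervalIntegrable _ _

omit hw in
theorem KK_zero : KK w x0 s t 0 = 0 := by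
  have : ∀ θ : ℝ, gg w x0 s t 0 θ * em θ = gg w x0 s t 0 0 * em θ := by
    intro θ; unfold gg ell; simp
  unfold KK
  simp_rw [this]
  rw [intervalIntegral.integral_const_mul, integral_em, mul_zero]

omit hw in
theorem integral_cos_em : ∫ θ in (0:ℝ)..(2 * π), (cos θ : ℂ) * em θ = π := by
  have h1 : ∫ θ in (0:ℝ)..(2 * π), (cos θ : ℂ) * em θ =
      ((∫ θ in (0:ℝ)..(2 * π), cos θ ^ 2 : ℝ) : ℂ) -
        Complex.I * ((∫ θ in (0:ℝ)..(2 * π), sin θ * cos θ : ℝ) : ℂ) := by
    rw [← intervalIntegral.integral_ofReal, ← intervalIntegral.integral_ofReal,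
      ← intervalIntegral.integral_const_mul, ← intervalIntegral.integral_sub]
    · congr 1
      ext θ
      unfold em
      push_cast
      ring
    · exact (Continuous.intervalIntegrable (by fun_prop) _ _)
    · exact (Continuous.intervalIntegrable (by fun_prop) _ _)
  rw [h1, integral_cos_sq, integral_sin_mul_cos₁]
  simp

omit hw in
theorem integral_sin_em : ∫ θ in (0:ℝ)..(2 * π), (sin θ : ℂ) * em θ = -Complex.I * π := by
  have h1 : ∫ θ in (0:ℝ)..(2 * π), (sin θ : ℂ) * em θ =
      ((∫ θ in (0:ℝ)..(2 * π), sin θ * cos θ : ℝ) : ℂ) -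
        Complex.I * ((∫ θ in (0:ℝ)..(2 * π), sin θ ^ 2 : ℝ) : ℂ) := by
    rw [← intervalIntegral.integral_ofReal, ← intervalIntegral.integral_ofReal,
      ← intervalIntegral.integral_const_mul, ← intervalIntegral.integral_sub]
    · congr 1
      ext θ
      unfold em
      push_cast
      ring
    · exact (Continuous.intervalIntegrable (by fun_prop) _ _)
    · exact (Continuous.intervalIntegrable (by fun_prop) _ _)
  rw [h1, integral_sin_sq, integral_sin_mul_cos₁]
  simp

omit hw in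
/-- the derivative of `K` at `0`. -/
theorem KK_deriv_zero : ∫ θ in (0:ℝ)..(2 * π), ggr w x0 s t 0 θ * em θ = π * DD w x0 s t := by
  have hell : ∀ θ, ell x0 s t 0 θ = x0 := by intro θ; unfold ell; simp
  have hstep : ∀ θ : ℝ, ggr w x0 s t 0 θ * em θ =
      (((s ^ 2 * d1 (d1 w) x0 : ℝ) : ℂ) - Complex.I * ((s * t * d2 (d1 w) x0 : ℝ) : ℂ)) *
        ((cos θ : ℂ) * em θ) +
      (((s * t * d2 (d1 w) x0 : ℝ) : ℂ) - Complex.I * ((t ^ 2 * d2 (d2 w) x0 : ℝ) : ℂ)) *
        ((sin θ : ℂ) * em θ) := by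
    intro θ
    unfold ggr
    rw [hell]
    push_cast
    ring
  simp_rw [hstep]
  rw [intervalIntegral.integral_add, intervalIntegral.integral_const_mul,
    intervalIntegral.integral_const_mul, integral_cos_em, integral_sin_em]
  · unfold DD
    push_cast
    have : Complex.I * Complex.I = -1 := Complex.I_mul_I
    linear_combination ((t:ℂ) ^ 2 * ((d2 (d2 w) x0 : ℝ) : ℂ) * π) * this
  · have := continuous_em
    exact (Continuous.intervalIntegrable (by fun_prop) _ _)
  · have := continuous_em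
    exact (Continuous.intervalIntegrable (by fun_prop) _ _)

/-- the core estimate. -/
theorem core_estimate {ρ α M l : ℝ} (hρ : 0 < ρ) (hα : 0 < α) (hM : 0 ≤ M)
    (hL : ∀ r, 0 < r → r ≤ ρ → ∀ θ, |LL w x0 s t r θ - l| ≤ M * r ^ α) :
    ‖KK w x0 s t ρ / ρ - π * DD w x0 s t‖ ≤ 2 * π * M * ρ ^ α / α := by
  have hc := continuous_em
  -- bound of the derivative
  have hbound : ∀ r, 0 < r → r ≤ ρ →
      ‖∫ θ in (0:ℝ)..(2 * π), (LL w x0 s t r θ : ℂ) * (em θ * em θ)‖ ≤ 2 * π * M * r ^ α := by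
    intro r hr hr'
    have hslice : Continuous (fun θ : ℝ => (r, θ)) := by fun_prop
    have cL : Continuous (LL w x0 s t r) := (continuous_LL hw x0 s t).comp hslice
    have cLc : Continuous (fun θ => (LL w x0 s t r θ : ℂ)) := Complex.continuous_ofReal.comp cL
    have e : ∫ θ in (0:ℝ)..(2 * π), (LL w x0 s t r θ : ℂ) * (em θ * em θ) =
        ∫ θ in (0:ℝ)..(2 * π), ((LL w x0 s t r θ - l : ℝ) : ℂ) * (em θ * em θ) := by
      have : ∀ θ : ℝ, ((LL w x0 s t r θ - l : ℝ) : ℂ) * (em θ * em θ) =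
          (LL w x0 s t r θ : ℂ) * (em θ * em θ) - (l : ℂ) * (em θ * em θ) := by
        intro θ; push_cast; ring
      simp_rw [this]
      rw [intervalIntegral.integral_sub, intervalIntegral.integral_const_mul, integral_em_sq,
        mul_zero, sub_zero]
      · exact (cLc.mul (hc.mul hc)).intervalIntegrable _ _
      · exact (continuous_const.mul (hc.mul hc)).intervalIntegrable _ _
    rw [e]
    have := intervalIntegral.norm_integral_le_of_norm_le_const (a := 0) (b := 2 * π)
      (f := fun θ => ((LL w x0 s t r θ - l : ℝ) : ℂ) * (em θ * em θ)) (C := M * r ^ α) (by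
        intro θ _
        rw [norm_mul, norm_mul, norm_em, mul_one, mul_one, Complex.norm_real, Real.norm_eq_abs]
        exact hL r hr hr' θ)
    rw [sub_zero, abs_of_pos (by positivity)] at this
    linarith
  -- the quotient
  set k : ℝ → ℂ := fun r => KK w x0 s t r / r with hk
  have hkd : ∀ r : ℝ, 0 < r → HasDerivAt k
      ((r : ℂ)⁻¹ * ∫ θ in (0:ℝ)..(2 * π), (LL w x0 s t r θ : ℂ) * (em θ * em θ)) r := by
    intro r hr
    have hr0 : (r : ℂ) ≠ 0 := by exact_mod_cast hr.ne'
    have h1 := (hasDerivAt_KK hw x0 s t r).div ((hasDerivAt_id r).ofReal_comp) (by simpa using hr0)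
    refine (h1.congr_deriv ?_)
    have h2 := KK_deriv_eq hw x0 s t r
    simp only [id]
    generalize (∫ θ in (0:ℝ)..(2 * π), (LL w x0 s t r θ : ℂ) * (em θ * em θ)) = J at h2 ⊢
    generalize (∫ θ in (0:ℝ)..(2 * π), ggr w x0 s t r θ * em θ) = J' at h2 ⊢
    rw [div_eq_iff (pow_ne_zero 2 hr0)]
    have e : (r : ℂ)⁻¹ * J * (r : ℂ) ^ 2 = r * J := by
      field_simp
    rw [e]
    push_cast
    linear_combination h2
  have hlim : Tendsto k (𝓝[>] 0) (𝓝 (π * DD w x0 s t)) := by
    have h0 := hasDerivAt_KK hw x0 s t 0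
    rw [KK_deriv_zero] at h0
    have h1 := h0.tendsto_slope
    have h2 : Tendsto (slope (KK w x0 s t) 0) (𝓝[>] 0) (𝓝 (π * DD w x0 s t)) :=
      h1.mono_left (nhdsWithin_mono _ (fun x hx => (ne_of_gt hx)))
    refine h2.congr' ?_
    filter_upwards [self_mem_nhdsWithin] with r hr
    rw [slope_def_module, KK_zero, sub_zero, sub_zero]
    simp only [hk]
    rw [Complex.real_smul]
    push_cast
    ring
  have hmain : ∀ ε, 0 < ε → ε ≤ ρ → ‖k ρ - k ε‖ ≤ 2 * π * M * ρ ^ α / α := by
    intro ε hε hερ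
    have hB : ∀ x ∈ Icc ε ρ, HasDerivAt (fun x : ℝ => 2 * π * M * x ^ α / α)
        (2 * π * M * x ^ (α - 1)) x := by
      intro x hx
      have hx0 : 0 < x := lt_of_lt_of_le hε hx.1
      have h1 := ((Real.hasDerivAt_rpow_const (x := x) (p := α) (Or.inl hx0.ne')).const_mul
        (2 * π * M)).div_const α
      refine h1.congr_deriv ?_
      field_simp
    have key := image_norm_le_of_norm_deriv_right_le_deriv_boundary' (a := ε) (b := ρ)
      (f := fun x => k x - k ε)
      (f' := fun r => (r : ℂ)⁻¹ * ∫ θ in (0:ℝ)..(2 * π), (LL w x0 s t r θ : ℂ) * (em θ * em θ))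
      (B := fun x => 2 * π * M * x ^ α / α) (B' := fun x => 2 * π * M * x ^ (α - 1))
      (fun x hx => ((hkd x (lt_of_lt_of_le hε hx.1)).continuousAt.sub
        continuousAt_const).continuousWithinAt)
      (fun x hx => ((hkd x (lt_of_lt_of_le hε hx.1)).sub_const _).hasDerivWithinAt)
      (by
        simp only [sub_self, norm_zero]
        positivity)
      (fun x hx => (hB x hx).continuousAt.continuousWithinAt)
      (fun x hx => (hB x ⟨hx.1, hx.2.le⟩).hasDerivWithinAt)
      (by
        intro x hx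
        have hx0 : 0 < x := lt_of_lt_of_le hε hx.1
        have := hbound x hx0 hx.2.le
        rw [norm_mul, norm_inv, Complex.norm_real, Real.norm_eq_abs, abs_of_pos hx0,
          rpow_sub_one hx0.ne']
        calc x⁻¹ * _ ≤ x⁻¹ * (2 * π * M * x ^ α) := by gcongr
          _ = 2 * π * M * (x ^ α / x) := by ring)
    exact key (right_mem_Icc.mpr hερ)
  have hle : Tendsto (fun ε => ‖k ρ - k ε‖) (𝓝[>] 0) (𝓝 ‖k ρ - π * DD w x0 s t‖) :=
    (tendsto_const_nhds.sub hlim).norm
  refine le_of_tendsto hle ?_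
  filter_upwards [Ioo_mem_nhdsGT hρ] with ε hε
  exact hmain ε hε.1 hε.2.le

end

end Pool.Agent.EU.Reg
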