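import Pool.Agent.EU.R1Core

/-!
Locally uniformly bounded / Hoelder families of functions on the plane.
-/

set_option autoImplicit false
open scoped ContDiff Topology Interval
open Real Set MeasureTheory Filter

namespace Pool.Agent.EU.Reg

/-- locally uniformly bounded family. -/
def UB {ι : Type*} (f : ι → P → ℝ) : Prop := ∀ R : ℝ, ∃ C : ℝ, ∀ i x, ‖x‖ ≤ R → |f i x| ≤ C

/-- Hoelder on a ball. -/
def HB {ι : Type*} (R C β : ℝ) (f : ι → P → ℝ) : Prop :=
  ∀ i x y, ‖x‖ ≤ R → ‖y‖ ≤ R → |f i x| ≤ C ∧ |f i x - f i y| ≤ C * ‖x - y‖ ^ β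

/-- locally uniformly Hoelder family. -/
def UH {ι : Type*} (f : ι → P → ℝ) : Prop :=
  ∀ R : ℝ, 0 < R → ∃ C β : ℝ, 0 ≤ C ∧ 0 < β ∧ β ≤ 1 ∧ HB R C β f

variable {ι : Type*}

theorem HB.mono {R R' C C' β : ℝ} {f : ι → P → ℝ} (h : HB R C β f) (hR : R' ≤ R) (hC : C ≤ C') :
    HB R' C' β f := by
  intro i x y hx hy
  obtain ⟨h1, h2⟩ := h i x y (hx.trans hR) (hy.trans hR)
  exact ⟨h1.trans hC, h2.trans (by gcongr)⟩

theorem HB.exp {R C β β' : ℝ} {f : ι → P → ℝ} (h : HB R C β f) (hR : 0 < R) (hC : 0 ≤ C)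
    (hβ' : 0 < β') (hβ : β' ≤ β) (hβ1 : β ≤ 1) : HB R (C * (2 * R + 1)) β' f := by
  intro i x y hx hy
  obtain ⟨h1, h2⟩ := h i x y hx hy
  refine ⟨h1.trans (by nlinarith), h2.trans ?_⟩
  rw [mul_assoc]
  gcongr
  have hn : ‖x - y‖ ≤ 2 * R + 1 := by
    have := norm_sub_le x y
    linarith
  rcases eq_or_lt_of_le (norm_nonneg (x - y)) with h0 | h0
  · rw [← h0, zero_rpow hβ'.ne', zero_rpow (by linarith)]
    simp
  · have : ‖x - y‖ ^ β = ‖x - y‖ ^ (β - β') * ‖x - y‖ ^ β' := by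
      rw [← rpow_add h0]; congr 1; ring
    rw [this]
    gcongr
    calc ‖x - y‖ ^ (β - β') ≤ (2 * R + 1) ^ (β - β') :=
          rpow_le_rpow h0.le hn (by linarith)
      _ ≤ (2 * R + 1) ^ (1 : ℝ) := rpow_le_rpow_of_exponent_le (by linarith) (by linarith)
      _ = 2 * R + 1 := rpow_one _

theorem UH.ub {f : ι → P → ℝ} (h : UH f) : UB f := by
  intro R
  obtain ⟨C, β, _, _, _, h⟩ := h (max R 1) (by positivity)
  exact ⟨C, fun i x hx => (h i x x (hx.trans (le_max_left _ _)) (hx.trans (le_max_left _ _))).1⟩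

/-- two families with common constants -/
theorem UH.two {ι' : Type*} {f : ι → P → ℝ} {g : ι' → P → ℝ} (hf : UH f) (hg : UH g) (R : ℝ) (hR : 0 < R) :
    ∃ C β : ℝ, 1 ≤ C ∧ 0 < β ∧ β ≤ 1 ∧ HB R C β f ∧ HB R C β g := by
  obtain ⟨C1, β1, c1, p1, q1, h1⟩ := hf R hR
  obtain ⟨C2, β2, c2, p2, q2, h2⟩ := hg R hR
  have e1 := h1.exp hR c1 (lt_min p1 p2) (min_le_left β1 β2) q1
  have e2 := h2.exp hR c2 (lt_min p1 p2) (min_le_right β1 β2) q2
  refine ⟨max 1 (max (C1 * (2 * R + 1)) (C2 * (2 * R + 1))), min β1 β2, le_max_left _ _,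
    lt_min p1 p2, (min_le_left _ _).trans q1, e1.mono le_rfl ?_, e2.mono le_rfl ?_⟩
  · exact (le_max_left _ _).trans (le_max_right _ _)
  · exact (le_max_right _ _).trans (le_max_right _ _)

theorem UH.add {f g : ι → P → ℝ} (hf : UH f) (hg : UH g) : UH (fun i x => f i x + g i x) := by
  intro R hR
  obtain ⟨C, β, hC, h0, h1, h2, h3⟩ := hf.two hg R hR
  refine ⟨2 * C, β, by linarith, h0, h1, fun i x y hx hy => ?_⟩
  obtain ⟨a1, a2⟩ := h2 i x y hx hy
  obtain ⟨b1, b2⟩ := h3 i x y hx hy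
  refine ⟨(abs_add_le _ _).trans (by linarith), ?_⟩
  calc |f i x + g i x - (f i y + g i y)| = |(f i x - f i y) + (g i x - g i y)| := by ring_nf
    _ ≤ _ := abs_add_le _ _
    _ ≤ 2 * C * ‖x - y‖ ^ β := by linarith

theorem UH.mul {f g : ι → P → ℝ} (hf : UH f) (hg : UH g) : UH (fun i x => f i x * g i x) := by
  intro R hR
  obtain ⟨C, β, hC, h0, h1, h2, h3⟩ := hf.two hg R hR
  refine ⟨2 * C ^ 2, β, by positivity, h0, h1, fun i x y hx hy => ?_⟩
  obtain ⟨a1, a2⟩ := h2 i x y hx hy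
  obtain ⟨b1, b2⟩ := h3 i x y hx hy
  obtain ⟨b1', -⟩ := h3 i y x hy hx
  have hC0 : 0 ≤ C := by linarith
  have hn : 0 ≤ ‖x - y‖ ^ β := by positivity
  constructor
  · rw [abs_mul]
    have := mul_le_mul a1 b1 (abs_nonneg _) hC0
    nlinarith
  · calc |f i x * g i x - f i y * g i y| = |(f i x - f i y) * g i y + f i x * (g i x - g i y)| := by
          ring_nf
      _ ≤ |f i x - f i y| * |g i y| + |f i x| * |g i x - g i y| := by
          rw [← abs_mul, ← abs_mul]; exact abs_add_le _ _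
      _ ≤ (C * ‖x - y‖ ^ β) * C + C * (C * ‖x - y‖ ^ β) := by
          gcongr
      _ = 2 * C ^ 2 * ‖x - y‖ ^ β := by ring

theorem UH.const (c : ℝ) : UH (fun (_ : ι) (_ : P) => c) := by
  intro R _
  refine ⟨|c|, 1, abs_nonneg _, one_pos, le_rfl, fun i x y _ _ => ⟨le_rfl, ?_⟩⟩
  rw [sub_self, abs_zero]
  positivity

theorem UH.const_mul {f : ι → P → ℝ} (hf : UH f) (c : ℝ) : UH (fun i x => c * f i x) :=
  (UH.const c).mul hf

theorem UH.neg {f : ι → P → ℝ} (hf : UH f) : UH (fun i x => -f i x) := by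
  have := hf.const_mul (-1)
  simpa using this

theorem UH.sub {f g : ι → P → ℝ} (hf : UH f) (hg : UH g) : UH (fun i x => f i x - g i x) := by
  have := hf.add hg.neg
  simpa [sub_eq_add_neg] using this

/-- composition with a function Lipschitz and bounded on the relevant range -/
theorem UH.comp_lip {f : ι → P → ℝ} (hf : UH f) {φ : ℝ → ℝ}
    (hφ : ∀ R : ℝ, 0 < R → ∃ K : ℝ, 0 ≤ K ∧ ∀ i x, ‖x‖ ≤ R → |φ (f i x)| ≤ K ∧
      ∀ y, ‖y‖ ≤ R → |φ (f i x) - φ (f i y)| ≤ K * |f i x - f i y|) :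
    UH (fun i x => φ (f i x)) := by
  intro R hR
  obtain ⟨C, β, hC, h0, h1, h2⟩ := hf R hR
  obtain ⟨K, hK, h3⟩ := hφ R hR
  refine ⟨K * (C + 1), β, by positivity, h0, h1, fun i x y hx hy => ?_⟩
  obtain ⟨a1, a2⟩ := h2 i x y hx hy
  obtain ⟨b1, b2⟩ := h3 i x hx
  refine ⟨b1.trans (by nlinarith), (b2 y hy).trans ?_⟩
  have hn : 0 ≤ ‖x - y‖ ^ β := by positivity
  calc K * |f i x - f i y| ≤ K * (C * ‖x - y‖ ^ β) := by gcongr
    _ ≤ K * (C + 1) * ‖x - y‖ ^ β := by nlinarith [mul_nonneg hK hn]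

/-- locally uniformly bounded below by a positive constant -/
def UL (f : ι → P → ℝ) : Prop := ∀ R : ℝ, ∃ l : ℝ, 0 < l ∧ ∀ i x, ‖x‖ ≤ R → l ≤ f i x

theorem UH.inv {f : ι → P → ℝ} (hf : UH f) (hl : UL f) : UH (fun i x => (f i x)⁻¹) := by
  refine hf.comp_lip (φ := fun t => t⁻¹) ?_
  intro R hR
  obtain ⟨l, hl0, hl⟩ := hl R
  refine ⟨l⁻¹ + l⁻¹ * l⁻¹, by positivity, fun i x hx => ?_⟩
  have hx0 := hl i x hx
  have hfx : 0 < f i x := hl0.trans_le hx0
  constructor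
  · rw [abs_of_pos (by positivity)]
    have : (f i x)⁻¹ ≤ l⁻¹ := inv_anti₀ hl0 hx0
    have : 0 ≤ l⁻¹ * l⁻¹ := by positivity
    linarith
  · intro y hy
    have hy0 := hl i y hy
    have hfy : 0 < f i y := hl0.trans_le hy0
    have e : (f i x)⁻¹ - (f i y)⁻¹ = -((f i x)⁻¹ * (f i y)⁻¹ * (f i x - f i y)) := by
      field_simp
      ring
    rw [e, abs_neg, abs_mul, abs_of_pos (by positivity : 0 < (f i x)⁻¹ * (f i y)⁻¹)]
    gcongr
    calc (f i x)⁻¹ * (f i y)⁻¹ ≤ l⁻¹ * l⁻¹ := by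
          have := inv_anti₀ hl0 hx0
          have := inv_anti₀ hl0 hy0
          gcongr
      _ ≤ _ := by
          have : 0 ≤ l⁻¹ := by positivity
          linarith

theorem UH.sqrt {f : ι → P → ℝ} (hf : UH f) (hl : UL f) : UH (fun i x => √(f i x)) := by
  refine hf.comp_lip (φ := fun t => √t) ?_
  intro R hR
  obtain ⟨l, hl0, hl⟩ := hl R
  obtain ⟨C, hC⟩ := hf.ub R
  refine ⟨√(|C|) + (√l)⁻¹, by positivity, fun i x hx => ?_⟩
  have hx0 := hl i x hx
  have hfx : 0 < f i x := hl0.trans_le hx0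
  have hsl : 0 < √l := sqrt_pos.mpr hl0
  constructor
  · rw [abs_of_nonneg (sqrt_nonneg _)]
    have h1 : √(f i x) ≤ √(|C|) := sqrt_le_sqrt ((le_abs_self _).trans ((hC i x hx).trans (le_abs_self _)))
    have : 0 ≤ (√l)⁻¹ := by positivity
    linarith
  · intro y hy
    have hy0 := hl i y hy
    have hfy : 0 < f i y := hl0.trans_le hy0
    have h1 : √l ≤ √(f i x) := sqrt_le_sqrt hx0
    have h2 : 0 < √(f i y) := sqrt_pos.mpr hfy
    have e : √(f i x) - √(f i y) = (f i x - f i y) * (√(f i x) + √(f i y))⁻¹ := by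
      have : (√(f i x) + √(f i y)) ≠ 0 := by positivity
      rw [eq_mul_inv_iff_mul_eq₀ this]
      have e1 := mul_self_sqrt hfx.le
      have e2 := mul_self_sqrt hfy.le
      linear_combination e1 - e2
    rw [e, abs_mul, mul_comm, abs_of_pos (by positivity : 0 < (√(f i x) + √(f i y))⁻¹)]
    gcongr
    calc (√(f i x) + √(f i y))⁻¹ ≤ (√l)⁻¹ := inv_anti₀ hsl (by linarith)
      _ ≤ _ := by
          have : 0 ≤ √(|C|) := sqrt_nonneg _
          linarith

/-- translation -/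
theorem UH.translate {f : ι → P → ℝ} (hf : UH f) {v : ι → P} {B : ℝ} (hB : 0 ≤ B) (hv : ∀ i, ‖v i‖ ≤ B) :
    UH (fun i x => f i (x + v i)) := by
  intro R hR
  obtain ⟨C, β, hC, h0, h1, h2⟩ := hf (R + B) (by linarith)
  refine ⟨C, β, hC, h0, h1, fun i x y hx hy => ?_⟩
  have := h2 i (x + v i) (y + v i) ((norm_add_le _ _).trans (add_le_add hx (hv i)))
    ((norm_add_le _ _).trans (add_le_add hy (hv i)))
  simpa using this

/-- a single function regarded as a family over another index type -/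
theorem UH.reindex {ι' : Type*} {f : ι → P → ℝ} (hf : UH f) (e : ι' → ι) :
    UH (fun j => f (e j)) := by
  intro R hR
  obtain ⟨C, β, hC, h0, h1, h2⟩ := hf R hR
  exact ⟨C, β, hC, h0, h1, fun i x y hx hy => h2 (e i) x y hx hy⟩

theorem UL.translate {f : ι → P → ℝ} (hf : UL f) {v : ι → P} {B : ℝ} (hv : ∀ i, ‖v i‖ ≤ B) :
    UL (fun i x => f i (x + v i)) := by
  intro R
  obtain ⟨l, hl0, hl⟩ := hf (R + B)
  exact ⟨l, hl0, fun i x hx => hl i _ ((norm_add_le _ _).trans (add_le_add hx (hv i)))⟩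

theorem UB.translate {f : ι → P → ℝ} (hf : UB f) {v : ι → P} {B : ℝ} (hv : ∀ i, ‖v i‖ ≤ B) :
    UB (fun i x => f i (x + v i)) := by
  intro R
  obtain ⟨C, hC⟩ := hf (R + B)
  exact ⟨C, fun i x hx => hC i _ ((norm_add_le _ _).trans (add_le_add hx (hv i)))⟩

/-- mean value inequality on a ball in terms of partial derivatives -/
theorem abs_sub_le_of_partials {g : P → ℝ} (hg : Differentiable ℝ g) {R C : ℝ}
    (h : ∀ x, ‖x‖ ≤ R → |d1 g x| + |d2 g x| ≤ C) {x y : P} (hx : ‖x‖ ≤ R) (hy : ‖y‖ ≤ R) :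
    |g x - g y| ≤ C * ‖x - y‖ := by
  have hconv : Convex ℝ (Metric.closedBall (0 : P) R) := convex_closedBall _ _
  have hb : ∀ z ∈ Metric.closedBall (0 : P) R, ‖fderiv ℝ g z‖ ≤ C := by
    intro z hz
    have hz' : ‖z‖ ≤ R := by simpa using hz
    have h0 := h z hz'
    have hC : 0 ≤ C := le_trans (by positivity) h0
    refine ContinuousLinearMap.opNorm_le_bound _ hC ?_
    intro y
    rw [fderiv_apply_eq, Real.norm_eq_abs]
    have h1 : |y.1| ≤ ‖y‖ := norm_fst_le y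
    have h2 : |y.2| ≤ ‖y‖ := norm_snd_le y
    calc |y.1 • d1 g z + y.2 • d2 g z| ≤ |y.1| * |d1 g z| + |y.2| * |d2 g z| := by
          rw [smul_eq_mul, smul_eq_mul, ← abs_mul, ← abs_mul]; exact abs_add_le _ _
      _ ≤ ‖y‖ * |d1 g z| + ‖y‖ * |d2 g z| := by gcongr
      _ = (|d1 g z| + |d2 g z|) * ‖y‖ := by ring
      _ ≤ C * ‖y‖ := by gcongr
  have := hconv.norm_image_sub_le_of_norm_fderiv_le (𝕜 := ℝ) (f := g)
    (fun z _ => hg z) hb (x := y) (y := x) (by simpa using hy) (by simpa using hx)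
  simpa [Real.norm_eq_abs] using this

theorem UH.of_lip {g : ι → P → ℝ} (hg : ∀ i, Differentiable ℝ (g i)) (h0 : UB g)
    (h1 : UB fun i => d1 (g i)) (h2 : UB fun i => d2 (g i)) : UH g := by
  intro R hR
  obtain ⟨C0, hC0⟩ := h0 R
  obtain ⟨C1, hC1⟩ := h1 R
  obtain ⟨C2, hC2⟩ := h2 R
  refine ⟨|C0| + (|C1| + |C2|), 1, by positivity, one_pos, le_rfl, fun i x y hx hy => ⟨?_, ?_⟩⟩
  · have := (hC0 i x hx).trans (le_abs_self _)
    have : 0 ≤ |C1| + |C2| := by positivity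
    linarith
  · rw [rpow_one]
    have := abs_sub_le_of_partials (hg i) (R := R) (C := |C1| + |C2|) (fun z hz => by
      have := (hC1 i z hz).trans (le_abs_self _)
      have := (hC2 i z hz).trans (le_abs_self _)
      linarith) hx hy
    have h3 : 0 ≤ |C0| * ‖x - y‖ := by positivity
    nlinarith

theorem UB.of_cont {f : P → ℝ} (hf : Continuous f) : UB (fun _ : ι => f) := by
  intro R
  obtain ⟨C, hC⟩ := (isCompact_closedBall (0 : P) R).exists_bound_of_continuousOn hf.continuousOn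
  exact ⟨C, fun _ x hx => hC x (by simpa using hx)⟩

theorem UL.of_cont {f : P → ℝ} (hf : Continuous f) (hpos : ∀ x, 0 < f x) : UL (fun _ : ι => f) := by
  intro R
  rcases lt_or_ge R 0 with hR | hR
  · exact ⟨1, one_pos, fun _ x hx => absurd (norm_nonneg x) (by linarith)⟩
  · obtain ⟨z, _, hz⟩ := (isCompact_closedBall (0 : P) R).exists_isMinOn
      ⟨0, by simpa using hR⟩ hf.continuousOn
    exact ⟨f z, hpos z, fun _ x hx => hz (by simpa using hx)⟩

end Pool.Agent.EU.Reg
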