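import Pool.Agent.EU.R1Hol

/-!
Interior Schauder estimate for `a w₁₁ + b w₂₂ = f` in the plane.
-/

set_option autoImplicit false
open scoped ContDiff Topology Interval
open Real Set MeasureTheory Filter

namespace Pool.Agent.EU.Reg

/-- size of the second derivatives. -/
noncomputable def SS (w : P → ℝ) (x : P) : ℝ :=
  |d1 (d1 w) x| + |d2 (d1 w) x| + |d2 (d2 w) x|

/-- the quantitative hypotheses. -/
structure Bnd (R Λ α : ℝ) (w a b f : P → ℝ) : Prop where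
  hw : ContDiff ℝ 2 w
  eq : ∀ x, ‖x‖ ≤ R → a x * d1 (d1 w) x + b x * d2 (d2 w) x = f x
  a1 : ∀ x, ‖x‖ ≤ R → Λ⁻¹ ≤ a x ∧ a x ≤ Λ
  b1 : ∀ x, ‖x‖ ≤ R → Λ⁻¹ ≤ b x ∧ b x ≤ Λ
  f1 : ∀ x, ‖x‖ ≤ R → |f x| ≤ Λ
  aH : ∀ x y, ‖x‖ ≤ R → ‖y‖ ≤ R → |a x - a y| ≤ Λ * ‖x - y‖ ^ α
  bH : ∀ x y, ‖x‖ ≤ R → ‖y‖ ≤ R → |b x - b y| ≤ Λ * ‖x - y‖ ^ α
  fH : ∀ x y, ‖x‖ ≤ R → ‖y‖ ≤ R → |f x - f y| ≤ Λ * ‖x - y‖ ^ α
  g1 : ∀ x, ‖x‖ ≤ R → |d1 w x| ≤ Λ
  g2 : ∀ x, ‖x‖ ≤ R → |d2 w x| ≤ Λ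

theorem ell_dist {x0 : P} {s t r Λ : ℝ} (hs : 0 ≤ s) (hs' : s ≤ Λ) (ht : 0 ≤ t) (ht' : t ≤ Λ)
    (hr : 0 ≤ r) (θ : ℝ) : ‖ell x0 s t r θ - x0‖ ≤ Λ * r := by
  unfold ell
  have hc := abs_cos_le_one θ
  have hsn := abs_sin_le_one θ
  refine norm_prod_le_iff.mpr ⟨?_, ?_⟩
  · have : (((x0.1 + s * r * cos θ, x0.2 + t * r * sin θ) : P) - x0).1 = s * r * cos θ := by
      simp
    rw [this, Real.norm_eq_abs, abs_mul, abs_of_nonneg (by positivity)]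
    have : 0 ≤ Λ := ht.trans ht'
    calc s * r * |cos θ| ≤ Λ * r * 1 := by gcongr
      _ = Λ * r := mul_one _
  · have : (((x0.1 + s * r * cos θ, x0.2 + t * r * sin θ) : P) - x0).2 = t * r * sin θ := by
      simp
    rw [this, Real.norm_eq_abs, abs_mul, abs_of_nonneg (by positivity)]
    calc t * r * |sin θ| ≤ Λ * r * 1 := by
          have : 0 ≤ Λ := ht.trans ht'
          gcongr
      _ = Λ * r := mul_one _

section
variable {R Λ α : ℝ} {w a b f : P → ℝ}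

theorem DD_re (x0 : P) (s t : ℝ) :
    (DD w x0 s t).re = s ^ 2 * d1 (d1 w) x0 - t ^ 2 * d2 (d2 w) x0 := by
  simp only [DD, Complex.sub_re, Complex.ofReal_re, Complex.mul_re, Complex.mul_im, Complex.I_re,
    Complex.I_im, Complex.ofReal_im, Complex.re_ofNat, Complex.im_ofNat]
  ring

theorem DD_im (x0 : P) (s t : ℝ) :
    (DD w x0 s t).im = -(2 * (s * t) * d2 (d1 w) x0) := by
  simp only [DD, Complex.sub_im, Complex.ofReal_re, Complex.mul_re, Complex.mul_im, Complex.I_re,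
    Complex.I_im, Complex.ofReal_im, Complex.re_ofNat, Complex.im_ofNat]
  ring

theorem Bnd.sqrt_a (h : Bnd R Λ α w a b f) (hΛ : 1 ≤ Λ) {x : P} (hx : ‖x‖ ≤ R) :
    0 < √(a x) ∧ √(a x) ≤ Λ ∧ √(a x) ^ 2 = a x := by
  have hpos : 0 < a x := lt_of_lt_of_le (by positivity) (h.a1 x hx).1
  refine ⟨sqrt_pos.mpr hpos, ?_, sq_sqrt hpos.le⟩
  rw [Real.sqrt_le_left (by linarith)]
  have := (h.a1 x hx).2
  nlinarith

theorem Bnd.sqrt_b (h : Bnd R Λ α w a b f) (hΛ : 1 ≤ Λ) {x : P} (hx : ‖x‖ ≤ R) :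
    0 < √(b x) ∧ √(b x) ≤ Λ ∧ √(b x) ^ 2 = b x := by
  have hpos : 0 < b x := lt_of_lt_of_le (by positivity) (h.b1 x hx).1
  refine ⟨sqrt_pos.mpr hpos, ?_, sq_sqrt hpos.le⟩
  rw [Real.sqrt_le_left (by linarith)]
  have := (h.b1 x hx).2
  nlinarith

theorem Bnd.core (h : Bnd R Λ α w a b f) (hΛ : 1 ≤ Λ) (hα : 0 < α) (hα1 : α ≤ 1) {x0 : P}
    {ρ m : ℝ} (hρ : 0 < ρ) (hρR : ‖x0‖ + Λ * ρ ≤ R) (hm : 0 ≤ m)
    (hS : ∀ y, ‖y - x0‖ ≤ Λ * ρ → SS w y ≤ m) :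
    ‖KK w x0 √(a x0) √(b x0) ρ / ρ - π * DD w x0 √(a x0) √(b x0)‖ ≤
      2 * π * (Λ ^ 2 * (1 + m)) * ρ ^ α / α := by
  have hx0 : ‖x0‖ ≤ R := by nlinarith
  obtain ⟨hs0, hs1, hs2⟩ := h.sqrt_a hΛ hx0
  obtain ⟨ht0, ht1, ht2⟩ := h.sqrt_b hΛ hx0
  refine core_estimate h.hw x0 _ _ (l := f x0) hρ hα (by positivity) ?_
  intro r hr hrρ θ
  set X := ell x0 √(a x0) √(b x0) r θ with hX
  have hd : ‖X - x0‖ ≤ Λ * r := ell_dist hs0.le hs1 ht0.le ht1 hr.le θ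
  have hd' : ‖X - x0‖ ≤ Λ * ρ := hd.trans (by gcongr)
  have hXR : ‖X‖ ≤ R := by
    have : ‖X‖ ≤ ‖x0‖ + ‖X - x0‖ := by
      calc ‖X‖ = ‖x0 + (X - x0)‖ := by congr 1; abel
        _ ≤ _ := norm_add_le _ _
    linarith
  have hpow : Λ * ‖X - x0‖ ^ α ≤ Λ ^ 2 * r ^ α := by
    calc Λ * ‖X - x0‖ ^ α ≤ Λ * (Λ * r) ^ α := by gcongr
      _ = Λ * (Λ ^ α * r ^ α) := by rw [mul_rpow (by linarith) hr.le]
      _ ≤ Λ * (Λ ^ (1:ℝ) * r ^ α) := by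
          gcongr
      _ = Λ ^ 2 * r ^ α := by rw [rpow_one]; ring
  have e1 := (h.aH X x0 hXR hx0).trans hpow
  have e2 := (h.bH X x0 hXR hx0).trans hpow
  have e3 := (h.fH X x0 hXR hx0).trans hpow
  have e4 := hS X hd'
  unfold SS at e4
  have e5 := h.eq X hXR
  have hq : LL w x0 √(a x0) √(b x0) r θ - f x0 =
      -(a X - a x0) * d1 (d1 w) X + (-(b X - b x0) * d2 (d2 w) X) + (f X - f x0) := by
    unfold LL
    rw [hs2, ht2, ← hX]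
    linear_combination e5
  rw [hq]
  have h0 : 0 ≤ Λ ^ 2 * r ^ α := by positivity
  calc |-(a X - a x0) * d1 (d1 w) X + (-(b X - b x0) * d2 (d2 w) X) + (f X - f x0)|
      ≤ |a X - a x0| * |d1 (d1 w) X| + |b X - b x0| * |d2 (d2 w) X| + |f X - f x0| := by
        refine (abs_add_le _ _).trans (add_le_add_left ((abs_add_le _ _).trans_eq ?_) _)
        rw [abs_mul, abs_mul, abs_neg, abs_neg]
    _ ≤ (Λ ^ 2 * r ^ α) * |d1 (d1 w) X| + (Λ ^ 2 * r ^ α) * |d2 (d2 w) X| + Λ ^ 2 * r ^ α := by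
        gcongr
    _ ≤ Λ ^ 2 * (1 + m) * r ^ α := by
        have : |d1 (d1 w) X| + |d2 (d2 w) X| ≤ m := by
          have := abs_nonneg (d2 (d1 w) X)
          linarith
        nlinarith

theorem Bnd.KK_le (h : Bnd R Λ α w a b f) (hΛ : 1 ≤ Λ) {x0 : P}
    {ρ : ℝ} (hρ : 0 < ρ) (hρR : ‖x0‖ + Λ * ρ ≤ R) :
    ‖KK w x0 √(a x0) √(b x0) ρ‖ ≤ 4 * π * Λ ^ 2 := by
  have hx0 : ‖x0‖ ≤ R := by nlinarith
  obtain ⟨hs0, hs1, hs2⟩ := h.sqrt_a hΛ hx0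
  obtain ⟨ht0, ht1, ht2⟩ := h.sqrt_b hΛ hx0
  unfold KK
  have := intervalIntegral.norm_integral_le_of_norm_le_const (a := 0) (b := 2 * π)
      (f := fun θ => gg w x0 √(a x0) √(b x0) ρ θ * em θ) (C := 2 * Λ ^ 2) (by
        intro θ _
        rw [norm_mul, norm_em, mul_one]
        set X := ell x0 √(a x0) √(b x0) ρ θ with hX
        have hd : ‖X - x0‖ ≤ Λ * ρ := ell_dist hs0.le hs1 ht0.le ht1 hρ.le θ
        have hXR : ‖X‖ ≤ R := by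
          have : ‖X‖ ≤ ‖x0‖ + ‖X - x0‖ := by
            calc ‖X‖ = ‖x0 + (X - x0)‖ := by congr 1; abel
              _ ≤ _ := norm_add_le _ _
          linarith
        unfold gg
        rw [← hX]
        refine (norm_sub_le _ _).trans ?_
        rw [norm_mul, Complex.norm_I, one_mul, Complex.norm_real, Complex.norm_real,
          Real.norm_eq_abs, Real.norm_eq_abs, abs_mul, abs_mul, abs_of_pos hs0, abs_of_pos ht0]
        have g1 := h.g1 X hXR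
        have g2 := h.g2 X hXR
        calc √(a x0) * |d1 w X| + √(b x0) * |d2 w X| ≤ Λ * Λ + Λ * Λ := by gcongr
          _ = 2 * Λ ^ 2 := by ring)
  rw [sub_zero, abs_of_pos (by positivity)] at this
  linarith

/-- the second derivatives are controlled by `DD`. -/
theorem Bnd.SS_le_DD (h : Bnd R Λ α w a b f) (hΛ : 1 ≤ Λ) {x0 : P} (hx0 : ‖x0‖ ≤ R) :
    SS w x0 ≤ Λ ^ 2 + 2 * Λ * ‖DD w x0 √(a x0) √(b x0)‖ := by
  obtain ⟨hs0, hs1, hs2⟩ := h.sqrt_a hΛ hx0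
  obtain ⟨ht0, ht1, ht2⟩ := h.sqrt_b hΛ hx0
  set s := √(a x0)
  set t := √(b x0)
  set D := ‖DD w x0 s t‖ with hD
  have hre : |s ^ 2 * d1 (d1 w) x0 - t ^ 2 * d2 (d2 w) x0| ≤ D := by
    have := Complex.abs_re_le_norm (DD w x0 s t)
    rwa [DD_re] at this
  have him : 2 * (s * t) * |d2 (d1 w) x0| ≤ D := by
    have := Complex.abs_im_le_norm (DD w x0 s t)
    rw [DD_im, abs_neg, abs_mul, abs_of_pos (by positivity : 0 < 2 * (s * t))] at this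
    exact this
  have heq := h.eq x0 hx0
  have hf := h.f1 x0 hx0
  have ha := h.a1 x0 hx0
  have hb := h.b1 x0 hx0
  have hΛ0 : 0 < Λ := by linarith
  have hst : Λ⁻¹ ≤ s * t := by
    have h1 : (Λ⁻¹) ^ 2 ≤ (s * t) ^ 2 := by
      rw [mul_pow, hs2, ht2]
      have : 0 ≤ Λ⁻¹ := by positivity
      nlinarith [ha.1, hb.1]
    exact (pow_le_pow_iff_left₀ (by positivity) (by positivity) two_ne_zero).mp h1
  have h11 : |d1 (d1 w) x0| ≤ Λ * (Λ + D) / 2 := by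
    have e : 2 * a x0 * d1 (d1 w) x0 = f x0 + (s ^ 2 * d1 (d1 w) x0 - t ^ 2 * d2 (d2 w) x0) := by
      rw [hs2, ht2]; linear_combination heq
    have h1 : 2 * a x0 * |d1 (d1 w) x0| ≤ Λ + D := by
      have hpos : 0 < a x0 := lt_of_lt_of_le (by positivity) ha.1
      calc 2 * a x0 * |d1 (d1 w) x0| = |2 * a x0 * d1 (d1 w) x0| := by
            rw [abs_mul, abs_of_pos (by positivity : 0 < 2 * a x0)]
        _ ≤ |f x0| + |s ^ 2 * d1 (d1 w) x0 - t ^ 2 * d2 (d2 w) x0| := by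
            rw [e]; exact abs_add_le _ _
        _ ≤ Λ + D := add_le_add hf hre
    have h2 : 2 * Λ⁻¹ * |d1 (d1 w) x0| ≤ Λ + D := le_trans (by gcongr; exact ha.1) h1
    have h3 : |d1 (d1 w) x0| = Λ / 2 * (2 * Λ⁻¹ * |d1 (d1 w) x0|) := by field_simp
    rw [h3]
    calc Λ / 2 * (2 * Λ⁻¹ * |d1 (d1 w) x0|) ≤ Λ / 2 * (Λ + D) := by gcongr
      _ = _ := by ring
  have h22 : |d2 (d2 w) x0| ≤ Λ * (Λ + D) / 2 := by
    have e : 2 * b x0 * d2 (d2 w) x0 = f x0 - (s ^ 2 * d1 (d1 w) x0 - t ^ 2 * d2 (d2 w) x0) := by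
      rw [hs2, ht2]; linear_combination heq
    have h1 : 2 * b x0 * |d2 (d2 w) x0| ≤ Λ + D := by
      have hpos : 0 < b x0 := lt_of_lt_of_le (by positivity) hb.1
      calc 2 * b x0 * |d2 (d2 w) x0| = |2 * b x0 * d2 (d2 w) x0| := by
            rw [abs_mul, abs_of_pos (by positivity : 0 < 2 * b x0)]
        _ ≤ |f x0| + |s ^ 2 * d1 (d1 w) x0 - t ^ 2 * d2 (d2 w) x0| := by
            rw [e]; exact abs_sub _ _
        _ ≤ Λ + D := add_le_add hf hre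
    have h2 : 2 * Λ⁻¹ * |d2 (d2 w) x0| ≤ Λ + D := le_trans (by gcongr; exact hb.1) h1
    have h3 : |d2 (d2 w) x0| = Λ / 2 * (2 * Λ⁻¹ * |d2 (d2 w) x0|) := by field_simp
    rw [h3]
    calc Λ / 2 * (2 * Λ⁻¹ * |d2 (d2 w) x0|) ≤ Λ / 2 * (Λ + D) := by gcongr
      _ = _ := by ring
  have h12 : |d2 (d1 w) x0| ≤ Λ * D / 2 := by
    have h2 : 2 * Λ⁻¹ * |d2 (d1 w) x0| ≤ D := le_trans (by gcongr) him
    have h3 : |d2 (d1 w) x0| = Λ / 2 * (2 * Λ⁻¹ * |d2 (d1 w) x0|) := by field_simp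
    rw [h3]
    calc Λ / 2 * (2 * Λ⁻¹ * |d2 (d1 w) x0|) ≤ Λ / 2 * D := by gcongr
      _ = _ := by ring
  have hD0 : 0 ≤ D := norm_nonneg _
  unfold SS
  nlinarith [mul_nonneg hΛ0.le hD0]

theorem Bnd.SS_le (h : Bnd R Λ α w a b f) (hΛ : 1 ≤ Λ) (hα : 0 < α) (hα1 : α ≤ 1) {x0 : P}
    {ρ m : ℝ} (hρ : 0 < ρ) (hρR : ‖x0‖ + Λ * ρ ≤ R) (hm : 0 ≤ m)
    (hS : ∀ y, ‖y - x0‖ ≤ Λ * ρ → SS w y ≤ m) :
    SS w x0 ≤ Λ ^ 2 + 8 * Λ ^ 3 / ρ + 4 * Λ ^ 3 * (1 + m) * ρ ^ α / α := by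
  have hx0 : ‖x0‖ ≤ R := by nlinarith
  have h1 := h.core hΛ hα hα1 hρ hρR hm hS
  have h2 := h.KK_le hΛ hρ hρR
  have h3 := h.SS_le_DD hΛ hx0
  set K := KK w x0 √(a x0) √(b x0) ρ
  set D := DD w x0 √(a x0) √(b x0)
  have h4 : ‖K / ρ‖ ≤ 4 * π * Λ ^ 2 / ρ := by
    rw [norm_div, Complex.norm_real, Real.norm_eq_abs, abs_of_pos hρ]
    gcongr
  have h5 : π * ‖D‖ ≤ 4 * π * Λ ^ 2 / ρ + 2 * π * (Λ ^ 2 * (1 + m)) * ρ ^ α / α := by
    have e : π * ‖D‖ = ‖(π : ℂ) * D‖ := by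
      rw [norm_mul, Complex.norm_real, Real.norm_eq_abs, abs_of_pos pi_pos]
    rw [e]
    calc ‖(π : ℂ) * D‖ = ‖K / ρ - (K / ρ - π * D)‖ := by congr 1; ring
      _ ≤ ‖K / ρ‖ + ‖K / ρ - π * D‖ := norm_sub_le _ _
      _ ≤ _ := add_le_add h4 h1
  have h6 : ‖D‖ ≤ 4 * Λ ^ 2 / ρ + 2 * (Λ ^ 2 * (1 + m)) * ρ ^ α / α := by
    have hpi := pi_pos
    have e : 4 * π * Λ ^ 2 / ρ + 2 * π * (Λ ^ 2 * (1 + m)) * ρ ^ α / α =
      π * (4 * Λ ^ 2 / ρ + 2 * (Λ ^ 2 * (1 + m)) * ρ ^ α / α) := by ring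
    rw [e] at h5
    exact le_of_mul_le_mul_left h5 hpi
  calc SS w x0 ≤ Λ ^ 2 + 2 * Λ * ‖D‖ := h3
    _ ≤ Λ ^ 2 + 2 * Λ * (4 * Λ ^ 2 / ρ + 2 * (Λ ^ 2 * (1 + m)) * ρ ^ α / α) := by gcongr
    _ = _ := by ring

end

theorem continuous_SS {w : P → ℝ} (hw : ContDiff ℝ 2 w) : Continuous (SS w) := by
  have h1 := cont_d11 hw
  have h2 := cont_d22 hw
  have h3 := cont_d21 hw
  unfold SS
  fun_prop

theorem SS_nonneg (w : P → ℝ) (x : P) : 0 ≤ SS w x := by unfold SS; positivity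

/-- the a priori bound. -/
theorem apriori {R Λ α : ℝ} (hR : 0 < R) (hΛ : 1 ≤ Λ) (hα : 0 < α) (hα1 : α ≤ 1) :
    ∃ C : ℝ, 0 ≤ C ∧ ∀ w a b f : P → ℝ, Bnd (2 * R) Λ α w a b f →
      ∀ x, ‖x‖ ≤ 3 * R / 2 → SS w x ≤ C := by
  have hΛ0 : 0 < Λ := by linarith
  set q : ℝ := α / (16 * Λ ^ 3) with hq
  have hq0 : 0 < q := by positivity
  set κ : ℝ := min (1 / 2) (q ^ (1 / α) / (2 * R)) with hκ
  have hκ0 : 0 < κ := lt_min (by norm_num) (by positivity)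
  have hκ1 : κ ≤ 1 / 2 := min_le_left _ _
  have hκ2 : (2 * R * κ) ^ α ≤ q := by
    have h1 : 2 * R * κ ≤ q ^ (1 / α) := by
      have := min_le_right (1 / 2 : ℝ) (q ^ (1 / α) / (2 * R))
      rw [← hκ, le_div_iff₀ (by positivity)] at this
      linarith
    calc (2 * R * κ) ^ α ≤ (q ^ (1 / α)) ^ α := by gcongr
      _ = q := by rw [← rpow_mul hq0.le, one_div_mul_cancel hα.ne', rpow_one]
  refine ⟨2 * (4 * R * Λ ^ 2 + 16 * Λ ^ 4 / κ + R) / R, by positivity, ?_⟩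
  intro w a b f h x hx
  have hcont : Continuous (fun y : P => (2 * R - ‖y‖) * SS w y) := by
    have := continuous_SS h.hw
    fun_prop
  obtain ⟨z, hzm, hz⟩ := (isCompact_closedBall (0 : P) (2 * R)).exists_isMaxOn
    ⟨0, by simpa using hR.le⟩ hcont.continuousOn
  have hzR : ‖z‖ ≤ 2 * R := by simpa using hzm
  set N := (2 * R - ‖z‖) * SS w z with hN
  have hN0 : 0 ≤ N := mul_nonneg (by linarith) (SS_nonneg _ _)
  have hmax : ∀ y : P, ‖y‖ ≤ 2 * R → (2 * R - ‖y‖) * SS w y ≤ N := by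
    intro y hy
    exact hz (by simpa using hy)
  have hNle : N ≤ 4 * R * Λ ^ 2 + 16 * Λ ^ 4 / κ + R := by
    rcases eq_or_lt_of_le hzR with h0 | h0
    · have : N = 0 := by rw [hN, h0]; ring
      rw [this]
      positivity
    · set d := 2 * R - ‖z‖ with hd
      have hd0 : 0 < d := by linarith
      have hd2 : d ≤ 2 * R := by have := norm_nonneg z; linarith
      set ρ := κ * d / Λ with hρ
      have hρ0 : 0 < ρ := by positivity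
      have hΛρ : Λ * ρ = κ * d := by rw [hρ]; field_simp
      have hkd : κ * d ≤ d / 2 := by nlinarith
      have hS : ∀ y, ‖y - z‖ ≤ Λ * ρ → SS w y ≤ 2 * N / d := by
        intro y hy
        have h1 : ‖y‖ ≤ ‖z‖ + ‖y - z‖ := by
          calc ‖y‖ = ‖z + (y - z)‖ := by congr 1; abel
            _ ≤ _ := norm_add_le _ _
        have h2 : d / 2 ≤ 2 * R - ‖y‖ := by linarith
        have h3 := hmax y (by linarith)
        rw [le_div_iff₀ hd0]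
        have := SS_nonneg w y
        nlinarith
      have key := h.SS_le hΛ hα hα1 hρ0 (by linarith) (m := 2 * N / d) (by positivity) hS
      have hpow : ρ ^ α ≤ q := by
        refine le_trans (rpow_le_rpow hρ0.le ?_ hα.le) hκ2
        rw [hρ, div_le_iff₀ hΛ0]
        calc κ * d ≤ κ * (2 * R) := by gcongr
          _ = 2 * R * κ * 1 := by ring
          _ ≤ 2 * R * κ * Λ := by gcongr
      have hterm : 4 * Λ ^ 3 * (1 + 2 * N / d) * ρ ^ α / α ≤ (1 + 2 * N / d) / 4 := by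
        calc 4 * Λ ^ 3 * (1 + 2 * N / d) * ρ ^ α / α ≤ 4 * Λ ^ 3 * (1 + 2 * N / d) * q / α := by
              gcongr
          _ = (1 + 2 * N / d) / 4 := by
              rw [hq]; field_simp; ring
      have key2 : SS w z ≤ Λ ^ 2 + 8 * Λ ^ 3 / ρ + (1 + 2 * N / d) / 4 := by linarith
      have key3 : N ≤ d * Λ ^ 2 + 8 * Λ ^ 4 / κ + (d + 2 * N) / 4 := by
        calc N = d * SS w z := hN
          _ ≤ d * (Λ ^ 2 + 8 * Λ ^ 3 / ρ + (1 + 2 * N / d) / 4) := by gcongr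
          _ = _ := by
              rw [hρ]; field_simp
      have h4 : d * Λ ^ 2 ≤ 2 * R * Λ ^ 2 := by gcongr
      have h5 : 0 ≤ 8 * Λ ^ 4 / κ := by positivity
      have e : 16 * Λ ^ 4 / κ = 2 * (8 * Λ ^ 4 / κ) := by ring
      rw [e]
      nlinarith
  have h6 := hmax x (by linarith)
  rw [le_div_iff₀ hR]
  have := SS_nonneg w x
  nlinarith

end Pool.Agent.EU.Reg
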