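import Pool.Agent.EU.R1Main

/-!
Hoelder estimate for the second derivatives; the Schauder estimate for families.
-/

set_option autoImplicit false
open scoped ContDiff Topology Interval
open Real Set MeasureTheory Filter

namespace Pool.Agent.EU.Reg

theorem Bnd.sqrt_sub {R Λ α : ℝ} {w a b f : P → ℝ} (h : Bnd R Λ α w a b f) (hΛ : 1 ≤ Λ) {x y : P}
    (hx : ‖x‖ ≤ R) (hy : ‖y‖ ≤ R) :
    |√(a x) - √(a y)| ≤ Λ ^ 2 * ‖x - y‖ ^ α ∧ |√(b x) - √(b y)| ≤ Λ ^ 2 * ‖x - y‖ ^ α := by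
  have key : ∀ p q : ℝ, Λ⁻¹ ≤ p → Λ⁻¹ ≤ q → |p - q| ≤ Λ * ‖x - y‖ ^ α →
      |√p - √q| ≤ Λ ^ 2 * ‖x - y‖ ^ α := by
    intro p q hp hq hpq
    have hΛ0 : 0 < Λ := by linarith
    have hp0 : 0 < p := lt_of_lt_of_le (by positivity) hp
    have hq0 : 0 < q := lt_of_lt_of_le (by positivity) hq
    have h1 : Λ⁻¹ ≤ √p := by
      rw [Real.le_sqrt' (by positivity)]
      refine le_trans ?_ hp
      have : Λ⁻¹ ≤ 1 := inv_le_one_of_one_le₀ hΛ
      have : 0 < Λ⁻¹ := by positivity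
      nlinarith
    have h2 : 0 ≤ √q := sqrt_nonneg _
    have e : |√p - √q| * (√p + √q) = |p - q| := by
      have h3 : 0 ≤ √p + √q := by positivity
      have h4 : |√p - √q| * (√p + √q) = |(√p - √q) * (√p + √q)| := by
        rw [abs_mul, abs_of_nonneg h3]
      rw [h4]
      congr 1
      have e1 := mul_self_sqrt hp0.le
      have e2 := mul_self_sqrt hq0.le
      linear_combination e1 - e2
    have h4 : |√p - √q| * Λ⁻¹ ≤ Λ * ‖x - y‖ ^ α := by
      refine le_trans ?_ hpq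
      rw [← e]
      gcongr
      linarith
    calc |√p - √q| = (|√p - √q| * Λ⁻¹) * Λ := by field_simp
      _ ≤ (Λ * ‖x - y‖ ^ α) * Λ := by gcongr
      _ = _ := by ring
  exact ⟨key _ _ (h.a1 x hx).1 (h.a1 y hy).1 (h.aH x y hx hy),
    key _ _ (h.b1 x hx).1 (h.b1 y hy).1 (h.bH x y hx hy)⟩

theorem norm_le_add_sub (x z : P) : ‖z‖ ≤ ‖x‖ + ‖z - x‖ := by
  calc ‖z‖ = ‖x + (z - x)‖ := by congr 1; abel
    _ ≤ _ := norm_add_le _ _

theorem holder_DD {R Λ α : ℝ} (hR : 0 < R) (hΛ : 1 ≤ Λ) (hα : 0 < α) (hα1 : α ≤ 1) :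
    ∃ C : ℝ, 0 ≤ C ∧ ∀ w a b f : P → ℝ, Bnd (2 * R) Λ α w a b f →
      (∀ x, ‖x‖ ≤ 3 * R / 2 → SS w x ≤ C) ∧
      ∀ x y, ‖x‖ ≤ R → ‖y‖ ≤ R → ‖x - y‖ ≤ 1 →
        ‖DD w x √(a x) √(b x) - DD w y √(a y) √(b y)‖ ≤ C * ‖x - y‖ ^ (α ^ 2 / 2) := by
  obtain ⟨C1, hC10, hC1⟩ := apriori hR hΛ hα hα1
  have hΛ0 : 0 < Λ := by linarith
  set ρ0 : ℝ := min (R / (2 * Λ)) 1 with hρ0
  have hρ0p : 0 < ρ0 := lt_min (by positivity) one_pos
  have hρ01 : ρ0 ≤ 1 := min_le_right _ _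
  have hρ02 : Λ * ρ0 ≤ R / 2 := by
    have := min_le_left (R / (2 * Λ)) 1
    rw [← hρ0, le_div_iff₀ (by positivity)] at this
    linarith
  set C2 : ℝ := 2 * (Λ ^ 3 + Λ * C1 * (1 + Λ ^ 2)) with hC2
  have hC20 : 0 ≤ C2 := by positivity
  refine ⟨C1 + (2 * C2 / ρ0 + 4 * Λ ^ 2 * (1 + C1) / α), by positivity, ?_⟩
  intro w a b f h
  have hSS := hC1 w a b f h
  refine ⟨fun x hx => (hSS x hx).trans (by
    have : 0 ≤ 2 * C2 / ρ0 + 4 * Λ ^ 2 * (1 + C1) / α := by positivity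
    linarith), ?_⟩
  intro x y hx hy hδ1
  set δ := ‖x - y‖ with hδ
  rcases eq_or_lt_of_le (norm_nonneg (x - y)) with h0 | h0
  · have : x = y := by
      rw [← sub_eq_zero, ← norm_eq_zero, ← h0]
    rw [this, sub_self, norm_zero]
    positivity
  have hδ0 : 0 < δ := h0
  set r := ρ0 * δ ^ (α / 2) with hr
  have hr0 : 0 < r := by positivity
  have hrρ : r ≤ ρ0 := by
    calc r ≤ ρ0 * 1 := by
          rw [hr]; gcongr
          exact rpow_le_one hδ0.le hδ1 (by positivity)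
      _ = ρ0 := mul_one _
  have hr1 : r ≤ 1 := hrρ.trans hρ01
  have hΛr : Λ * r ≤ R / 2 := le_trans (by gcongr) hρ02
  have hball : ∀ z : P, ‖z‖ ≤ R → ∀ z', ‖z' - z‖ ≤ Λ * r → ‖z'‖ ≤ 3 * R / 2 := by
    intro z hz z' hz'
    have := norm_le_add_sub z z'
    linarith
  have cx := h.core hΛ hα hα1 (x0 := x) hr0 (by linarith) hC10
    (fun z hz => hSS z (hball x hx z hz))
  have cy := h.core hΛ hα hα1 (x0 := y) hr0 (by linarith) hC10
    (fun z hz => hSS z (hball y hy z hz))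
  obtain ⟨sx0, sx1, sx2⟩ := h.sqrt_a hΛ (x := x) (by linarith)
  obtain ⟨tx0, tx1, tx2⟩ := h.sqrt_b hΛ (x := x) (by linarith)
  obtain ⟨sy0, sy1, sy2⟩ := h.sqrt_a hΛ (x := y) (by linarith)
  obtain ⟨ty0, ty1, ty2⟩ := h.sqrt_b hΛ (x := y) (by linarith)
  obtain ⟨hs, ht⟩ := h.sqrt_sub hΛ (x := x) (y := y) (by linarith) (by linarith)
  rw [← hδ] at hs ht
  have hδα : δ ≤ δ ^ α := by
    calc δ = δ ^ (1:ℝ) := (rpow_one _).symm
      _ ≤ δ ^ α := rpow_le_rpow_of_exponent_ge hδ0 hδ1 hα1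
  have hδα0 : 0 < δ ^ α := by positivity
  -- difference of the circle means
  have hg : ∀ θ : ℝ, ‖gg w x √(a x) √(b x) r θ - gg w y √(a y) √(b y) r θ‖ ≤ C2 * δ ^ α := by
    intro θ
    set X := ell x √(a x) √(b x) r θ with hX
    set Y := ell y √(a y) √(b y) r θ with hY
    have dX : ‖X - x‖ ≤ Λ * r := ell_dist sx0.le sx1 tx0.le tx1 hr0.le θ
    have dY : ‖Y - y‖ ≤ Λ * r := ell_dist sy0.le sy1 ty0.le ty1 hr0.le θ
    have nX := hball x hx X dX
    have nY := hball y hy Y dY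
    have hXY : ‖X - Y‖ ≤ (1 + Λ ^ 2) * δ ^ α := by
      have hc := abs_cos_le_one θ
      have hsn := abs_sin_le_one θ
      have hx1 : |x.1 - y.1| ≤ δ := norm_fst_le (x - y)
      have hx2 : |x.2 - y.2| ≤ δ := norm_snd_le (x - y)
      refine norm_prod_le_iff.mpr ⟨?_, ?_⟩
      · have e : (X - Y).1 = (x.1 - y.1) + (√(a x) - √(a y)) * (r * cos θ) := by
          rw [hX, hY]; unfold ell; simp; ring
        rw [e, Real.norm_eq_abs]
        calc |(x.1 - y.1) + (√(a x) - √(a y)) * (r * cos θ)|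
            ≤ |x.1 - y.1| + |√(a x) - √(a y)| * (r * |cos θ|) := by
              refine (abs_add_le _ _).trans_eq ?_
              rw [abs_mul, abs_mul, abs_of_pos hr0]
          _ ≤ δ + (Λ ^ 2 * δ ^ α) * (1 * 1) := by gcongr
          _ ≤ _ := by linarith
      · have e : (X - Y).2 = (x.2 - y.2) + (√(b x) - √(b y)) * (r * sin θ) := by
          rw [hX, hY]; unfold ell; simp; ring
        rw [e, Real.norm_eq_abs]
        calc |(x.2 - y.2) + (√(b x) - √(b y)) * (r * sin θ)|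
            ≤ |x.2 - y.2| + |√(b x) - √(b y)| * (r * |sin θ|) := by
              refine (abs_add_le _ _).trans_eq ?_
              rw [abs_mul, abs_mul, abs_of_pos hr0]
          _ ≤ δ + (Λ ^ 2 * δ ^ α) * (1 * 1) := by gcongr
          _ ≤ _ := by linarith
    have w1 : |d1 w X - d1 w Y| ≤ C1 * ‖X - Y‖ :=
      abs_sub_le_of_partials (diff_d1 h.hw) (R := 3 * R / 2) (fun z hz => by
        have := hSS z hz
        unfold SS at this
        have := abs_nonneg (d2 (d2 w) z)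
        linarith) nX nY
    have w2 : |d2 w X - d2 w Y| ≤ C1 * ‖X - Y‖ :=
      abs_sub_le_of_partials (diff_d2 h.hw) (R := 3 * R / 2) (fun z hz => by
        have := hSS z hz
        unfold SS at this
        have := abs_nonneg (d1 (d1 w) z)
        rw [d12 h.hw]
        linarith) nX nY
    have w1' : |d1 w X - d1 w Y| ≤ C1 * ((1 + Λ ^ 2) * δ ^ α) := w1.trans (by gcongr)
    have w2' : |d2 w X - d2 w Y| ≤ C1 * ((1 + Λ ^ 2) * δ ^ α) := w2.trans (by gcongr)
    have g1 := h.g1 X (by linarith)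
    have g2 := h.g2 X (by linarith)
    have e : gg w x √(a x) √(b x) r θ - gg w y √(a y) √(b y) r θ =
        (((√(a x) - √(a y)) * d1 w X + √(a y) * (d1 w X - d1 w Y) : ℝ) : ℂ) -
        Complex.I * (((√(b x) - √(b y)) * d2 w X + √(b y) * (d2 w X - d2 w Y) : ℝ) : ℂ) := by
      unfold gg
      rw [← hX, ← hY]
      push_cast
      ring
    rw [e]
    refine (norm_sub_le _ _).trans ?_
    rw [norm_mul, Complex.norm_I, one_mul, Complex.norm_real, Complex.norm_real,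
      Real.norm_eq_abs, Real.norm_eq_abs]
    have b1 : |(√(a x) - √(a y)) * d1 w X + √(a y) * (d1 w X - d1 w Y)| ≤
        (Λ ^ 2 * δ ^ α) * Λ + Λ * (C1 * ((1 + Λ ^ 2) * δ ^ α)) := by
      refine (abs_add_le _ _).trans ?_
      rw [abs_mul, abs_mul, abs_of_pos sy0]
      gcongr
    have b2 : |(√(b x) - √(b y)) * d2 w X + √(b y) * (d2 w X - d2 w Y)| ≤
        (Λ ^ 2 * δ ^ α) * Λ + Λ * (C1 * ((1 + Λ ^ 2) * δ ^ α)) := by
      refine (abs_add_le _ _).trans ?_
      rw [abs_mul, abs_mul, abs_of_pos ty0]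
      gcongr
    calc _ ≤ ((Λ ^ 2 * δ ^ α) * Λ + Λ * (C1 * ((1 + Λ ^ 2) * δ ^ α))) +
        ((Λ ^ 2 * δ ^ α) * Λ + Λ * (C1 * ((1 + Λ ^ 2) * δ ^ α))) := add_le_add b1 b2
      _ = C2 * δ ^ α := by rw [hC2]; ring
  have hK : ‖KK w x √(a x) √(b x) r - KK w y √(a y) √(b y) r‖ ≤ 2 * π * (C2 * δ ^ α) := by
    have hslice : Continuous (fun θ : ℝ => (r, θ)) := by fun_prop
    have c1 : Continuous (fun θ => gg w x √(a x) √(b x) r θ * em θ) :=
      ((continuous_gg h.hw x √(a x) √(b x)).comp hslice).mul continuous_em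
    have c2 : Continuous (fun θ => gg w y √(a y) √(b y) r θ * em θ) :=
      ((continuous_gg h.hw y √(a y) √(b y)).comp hslice).mul continuous_em
    unfold KK
    rw [← intervalIntegral.integral_sub (c1.intervalIntegrable _ _) (c2.intervalIntegrable _ _)]
    have := intervalIntegral.norm_integral_le_of_norm_le_const (a := 0) (b := 2 * π)
      (f := fun θ => gg w x √(a x) √(b x) r θ * em θ - gg w y √(a y) √(b y) r θ * em θ)
      (C := C2 * δ ^ α) (by
        intro θ _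
        rw [← sub_mul, norm_mul, norm_em, mul_one]
        exact hg θ)
    rw [sub_zero, abs_of_pos (by positivity)] at this
    linarith
  set Kx := KK w x √(a x) √(b x) r
  set Ky := KK w y √(a y) √(b y) r
  set Dx := DD w x √(a x) √(b x)
  set Dy := DD w y √(a y) √(b y)
  have hrα : r ^ α ≤ δ ^ (α ^ 2 / 2) := by
    rw [hr, mul_rpow hρ0p.le (by positivity), ← rpow_mul hδ0.le]
    calc ρ0 ^ α * δ ^ (α / 2 * α) ≤ 1 * δ ^ (α / 2 * α) := by
          gcongr
          exact rpow_le_one hρ0p.le hρ01 hα.le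
      _ = δ ^ (α ^ 2 / 2) := by rw [one_mul]; congr 1; ring
  have hKr : ‖(Kx - Ky) / r‖ ≤ 2 * π * C2 / ρ0 * δ ^ (α ^ 2 / 2) := by
    rw [norm_div, Complex.norm_real, Real.norm_eq_abs, abs_of_pos hr0, div_le_iff₀ hr0]
    have e : δ ^ α ≤ δ ^ (α ^ 2 / 2) * δ ^ (α / 2) := by
      rw [← rpow_add hδ0]
      exact rpow_le_rpow_of_exponent_ge hδ0 hδ1 (by nlinarith)
    calc ‖Kx - Ky‖ ≤ 2 * π * (C2 * δ ^ α) := hK
      _ ≤ 2 * π * (C2 * (δ ^ (α ^ 2 / 2) * δ ^ (α / 2))) := by gcongr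
      _ = _ := by rw [hr]; field_simp
  have hfin : π * ‖Dx - Dy‖ ≤ 2 * π * C2 / ρ0 * δ ^ (α ^ 2 / 2) +
      2 * (2 * π * (Λ ^ 2 * (1 + C1)) * δ ^ (α ^ 2 / 2) / α) := by
    have e : π * ‖Dx - Dy‖ = ‖(π : ℂ) * (Dx - Dy)‖ := by
      rw [norm_mul, Complex.norm_real, Real.norm_eq_abs, abs_of_pos pi_pos]
    have cx' : ‖Kx / r - π * Dx‖ ≤ 2 * π * (Λ ^ 2 * (1 + C1)) * δ ^ (α ^ 2 / 2) / α :=
      cx.trans (by gcongr)
    have cy' : ‖Ky / r - π * Dy‖ ≤ 2 * π * (Λ ^ 2 * (1 + C1)) * δ ^ (α ^ 2 / 2) / α :=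
      cy.trans (by gcongr)
    rw [e]
    calc ‖(π : ℂ) * (Dx - Dy)‖ = ‖(Kx - Ky) / r - ((Kx / r - π * Dx) - (Ky / r - π * Dy))‖ := by
          congr 1; ring
      _ ≤ ‖(Kx - Ky) / r‖ + ‖(Kx / r - π * Dx) - (Ky / r - π * Dy)‖ := norm_sub_le _ _
      _ ≤ ‖(Kx - Ky) / r‖ + (‖Kx / r - π * Dx‖ + ‖Ky / r - π * Dy‖) := by
          gcongr; exact norm_sub_le _ _
      _ ≤ _ := by linarith
  have hfin2 : ‖Dx - Dy‖ ≤ (2 * C2 / ρ0 + 4 * Λ ^ 2 * (1 + C1) / α) * δ ^ (α ^ 2 / 2) := by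
    refine le_of_mul_le_mul_left (hfin.trans_eq ?_) pi_pos
    ring
  refine hfin2.trans (mul_le_mul_of_nonneg_right ?_ (by positivity))
  linarith

variable {ι : Type*}

theorem UH.sum {ι' : Type*} {f : ι → P → ℝ} {g : ι' → P → ℝ} (hf : UH f) (hg : UH g) :
    UH (Sum.elim f g) := by
  intro R hR
  obtain ⟨C, β, hC, h0, h1, h2, h3⟩ := hf.two hg R hR
  refine ⟨C, β, by linarith, h0, h1, fun i x y hx hy => ?_⟩
  rcases i with i | i
  · exact h2 i x y hx hy
  · exact h3 i x y hx hy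

theorem exists_bnd {w a b f : ι → P → ℝ} (hw : ∀ i, ContDiff ℝ 2 (w i)) (ha : UH a) (hb : UH b)
    (hf : UH f) (hal : UL a) (hbl : UL b) (h1 : UB fun i => d1 (w i)) (h2 : UB fun i => d2 (w i))
    (heq : ∀ i x, a i x * d1 (d1 (w i)) x + b i x * d2 (d2 (w i)) x = f i x) (R : ℝ) (hR : 0 < R) :
    ∃ Λ α : ℝ, 1 ≤ Λ ∧ 0 < α ∧ α ≤ 1 ∧ ∀ i, Bnd R Λ α (w i) (a i) (b i) (f i) := by
  obtain ⟨C, α, hC, h0, hα1, H⟩ := (ha.sum (hb.sum hf)) R hR
  obtain ⟨la, la0, hla⟩ := hal R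
  obtain ⟨lb, lb0, hlb⟩ := hbl R
  obtain ⟨C1, hC1⟩ := h1 R
  obtain ⟨C2, hC2⟩ := h2 R
  set Λ : ℝ := 1 + C + la⁻¹ + lb⁻¹ + |C1| + |C2| with hΛ
  have p1 : 0 < la⁻¹ := by positivity
  have p2 : 0 < lb⁻¹ := by positivity
  have p3 := abs_nonneg C1
  have p4 := abs_nonneg C2
  have hΛ1 : 1 ≤ Λ := by linarith
  have hCΛ : C ≤ Λ := by linarith
  have hla' : Λ⁻¹ ≤ la := by
    rw [inv_le_comm₀ (by linarith) la0]; linarith
  have hlb' : Λ⁻¹ ≤ lb := by
    rw [inv_le_comm₀ (by linarith) lb0]; linarith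
  refine ⟨Λ, α, hΛ1, h0, hα1, fun i => ?_⟩
  have Ha : ∀ x y, ‖x‖ ≤ R → ‖y‖ ≤ R → |a i x| ≤ C ∧ |a i x - a i y| ≤ C * ‖x - y‖ ^ α :=
    fun x y hx hy => H (Sum.inl i) x y hx hy
  have Hb : ∀ x y, ‖x‖ ≤ R → ‖y‖ ≤ R → |b i x| ≤ C ∧ |b i x - b i y| ≤ C * ‖x - y‖ ^ α :=
    fun x y hx hy => H (Sum.inr (Sum.inl i)) x y hx hy
  have Hf : ∀ x y, ‖x‖ ≤ R → ‖y‖ ≤ R → |f i x| ≤ C ∧ |f i x - f i y| ≤ C * ‖x - y‖ ^ α :=
    fun x y hx hy => H (Sum.inr (Sum.inr i)) x y hx hy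
  exact {
    hw := hw i
    eq := fun x _ => heq i x
    a1 := fun x hx => ⟨hla'.trans (hla i x hx), (le_abs_self _).trans ((Ha x x hx hx).1.trans hCΛ)⟩
    b1 := fun x hx => ⟨hlb'.trans (hlb i x hx), (le_abs_self _).trans ((Hb x x hx hx).1.trans hCΛ)⟩
    f1 := fun x hx => (Hf x x hx hx).1.trans hCΛ
    aH := fun x y hx hy => (Ha x y hx hy).2.trans (by gcongr)
    bH := fun x y hx hy => (Hb x y hx hy).2.trans (by gcongr)
    fH := fun x y hx hy => (Hf x y hx hy).2.trans (by gcongr)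
    g1 := fun x hx => (hC1 i x hx).trans ((le_abs_self _).trans (by linarith))
    g2 := fun x hx => (hC2 i x hx).trans ((le_abs_self _).trans (by linarith)) }

/-- Schauder estimate for families. -/
theorem schauder {w a b f : ι → P → ℝ} (hw : ∀ i, ContDiff ℝ 2 (w i)) (ha : UH a) (hb : UH b)
    (hf : UH f) (hal : UL a) (hbl : UL b) (h1 : UB fun i => d1 (w i)) (h2 : UB fun i => d2 (w i))
    (heq : ∀ i x, a i x * d1 (d1 (w i)) x + b i x * d2 (d2 (w i)) x = f i x) :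
    UH (fun i => d1 (d1 (w i))) ∧ UH (fun i => d2 (d1 (w i))) ∧ UH (fun i => d2 (d2 (w i))) := by
  -- the combinations controlled by `DD`
  have hD : UH (fun i x => a i x * d1 (d1 (w i)) x - b i x * d2 (d2 (w i)) x) ∧
      UH (fun i x => √(a i x) * √(b i x) * d2 (d1 (w i)) x) := by
    have key : ∀ R : ℝ, 0 < R → ∃ C β : ℝ, 0 ≤ C ∧ 0 < β ∧ β ≤ 1 ∧
        HB R C β (fun i x => a i x * d1 (d1 (w i)) x - b i x * d2 (d2 (w i)) x) ∧
        HB R C β (fun i x => √(a i x) * √(b i x) * d2 (d1 (w i)) x) := by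
      intro R hR
      obtain ⟨Λ, α, hΛ, hα, hα1, hB⟩ := exists_bnd hw ha hb hf hal hbl h1 h2 heq (2 * R) (by linarith)
      obtain ⟨C, hC, H⟩ := holder_DD hR hΛ hα hα1
      have hβ : α ^ 2 / 2 ≤ 1 := by nlinarith
      have bound1 : ∀ i x, ‖x‖ ≤ R → |a i x * d1 (d1 (w i)) x - b i x * d2 (d2 (w i)) x| ≤
          2 * (Λ ^ 2 * C) := by
        intro i x hx
        have h := hB i
        have hS := (H _ _ _ _ h).1 x (by linarith)
        unfold SS at hS
        have e1 := (h.a1 x (by linarith))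
        have e2 := (h.b1 x (by linarith))
        have ia : |a i x| ≤ Λ := by
          rw [abs_of_nonneg]; exact e1.2
          exact le_trans (by positivity) e1.1
        have ib : |b i x| ≤ Λ := by
          rw [abs_of_nonneg]; exact e2.2
          exact le_trans (by positivity) e2.1
        have i1 := abs_nonneg (d1 (d1 (w i)) x)
        have i2 := abs_nonneg (d2 (d1 (w i)) x)
        have i3 := abs_nonneg (d2 (d2 (w i)) x)
        calc |a i x * d1 (d1 (w i)) x - b i x * d2 (d2 (w i)) x|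
            ≤ |a i x| * |d1 (d1 (w i)) x| + |b i x| * |d2 (d2 (w i)) x| := by
              refine (abs_sub _ _).trans_eq ?_
              rw [abs_mul, abs_mul]
          _ ≤ Λ * C + Λ * C := by
              gcongr
              · linarith
              · linarith
          _ ≤ 2 * (Λ ^ 2 * C) := by
              have : Λ * C ≤ Λ ^ 2 * C := by
                have : 0 ≤ (Λ - 1) * (Λ * C) := by
                  have : 0 ≤ Λ - 1 := by linarith
                  positivity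
                nlinarith
              linarith
      have bound2 : ∀ i x, ‖x‖ ≤ R → |√(a i x) * √(b i x) * d2 (d1 (w i)) x| ≤
          2 * (Λ ^ 2 * C) := by
        intro i x hx
        have h := hB i
        have hS := (H _ _ _ _ h).1 x (by linarith)
        unfold SS at hS
        obtain ⟨s0, s1, -⟩ := h.sqrt_a hΛ (x := x) (by linarith)
        obtain ⟨t0, t1, -⟩ := h.sqrt_b hΛ (x := x) (by linarith)
        have i1 := abs_nonneg (d1 (d1 (w i)) x)
        have i2 := abs_nonneg (d2 (d1 (w i)) x)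
        have i3 := abs_nonneg (d2 (d2 (w i)) x)
        rw [abs_mul, abs_of_pos (by positivity)]
        calc √(a i x) * √(b i x) * |d2 (d1 (w i)) x| ≤ Λ * Λ * C := by
              gcongr
              linarith
          _ ≤ 2 * (Λ ^ 2 * C) := by
              have : 0 ≤ Λ ^ 2 * C := by positivity
              nlinarith
      refine ⟨C + 4 * (Λ ^ 2 * C), α ^ 2 / 2, by positivity, by positivity, hβ, ?_, ?_⟩
      · intro i x y hx hy
        have b1 := bound1 i x hx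
        have b2 := bound1 i y hy
        have hΛC : 0 ≤ Λ ^ 2 * C := by positivity
        refine ⟨by linarith, ?_⟩
        rcases le_total ‖x - y‖ 1 with h | h
        · have h3 := (H _ _ _ _ (hB i)).2 x y hx hy h
          have h4 := (Complex.abs_re_le_norm _).trans h3
          rw [Complex.sub_re, DD_re, DD_re, ((hB i).sqrt_a hΛ (x := x) (by linarith)).2.2,
            ((hB i).sqrt_b hΛ (x := x) (by linarith)).2.2,
            ((hB i).sqrt_a hΛ (x := y) (by linarith)).2.2,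
            ((hB i).sqrt_b hΛ (x := y) (by linarith)).2.2] at h4
          refine h4.trans (mul_le_mul_of_nonneg_right (by linarith) (by positivity))
        · have h5 : 1 ≤ ‖x - y‖ ^ (α ^ 2 / 2) := one_le_rpow h (by positivity)
          calc _ ≤ 2 * (Λ ^ 2 * C) + 2 * (Λ ^ 2 * C) := (abs_sub _ _).trans (add_le_add b1 b2)
            _ ≤ (C + 4 * (Λ ^ 2 * C)) * 1 := by linarith
            _ ≤ _ := by gcongr
      · intro i x y hx hy
        have b1 := bound2 i x hx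
        have b2 := bound2 i y hy
        have hΛC : 0 ≤ Λ ^ 2 * C := by positivity
        refine ⟨by linarith, ?_⟩
        rcases le_total ‖x - y‖ 1 with h | h
        · have h3 := (H _ _ _ _ (hB i)).2 x y hx hy h
          have h4 := (Complex.abs_im_le_norm _).trans h3
          rw [Complex.sub_im, DD_im, DD_im] at h4
          have e : |√(a i x) * √(b i x) * d2 (d1 (w i)) x - √(a i y) * √(b i y) * d2 (d1 (w i)) y| =
              |-(2 * (√(a i x) * √(b i x)) * d2 (d1 (w i)) x) -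
                -(2 * (√(a i y) * √(b i y)) * d2 (d1 (w i)) y)| / 2 := by
            rw [eq_div_iff two_ne_zero, ← abs_two, ← abs_mul, ← abs_neg]
            congr 1
            rw [abs_two]
            ring
          rw [e]
          have h6 : 0 ≤ C * ‖x - y‖ ^ (α ^ 2 / 2) := by positivity
          have h7 : 0 ≤ Λ ^ 2 * C * ‖x - y‖ ^ (α ^ 2 / 2) := by positivity
          linarith
        · have h5 : 1 ≤ ‖x - y‖ ^ (α ^ 2 / 2) := one_le_rpow h (by positivity)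
          calc _ ≤ 2 * (Λ ^ 2 * C) + 2 * (Λ ^ 2 * C) := (abs_sub _ _).trans (add_le_add b1 b2)
            _ ≤ (C + 4 * (Λ ^ 2 * C)) * 1 := by linarith
            _ ≤ _ := by gcongr
    constructor
    · intro R hR
      obtain ⟨C, β, p1, p2, p3, p4, -⟩ := key R hR
      exact ⟨C, β, p1, p2, p3, p4⟩
    · intro R hR
      obtain ⟨C, β, p1, p2, p3, -, p4⟩ := key R hR
      exact ⟨C, β, p1, p2, p3, p4⟩
  have hapos : ∀ i x, 0 < a i x := by
    intro i x
    obtain ⟨l, l0, hl⟩ := hal ‖x‖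
    exact l0.trans_le (hl i x le_rfl)
  have hbpos : ∀ i x, 0 < b i x := by
    intro i x
    obtain ⟨l, l0, hl⟩ := hbl ‖x‖
    exact l0.trans_le (hl i x le_rfl)
  have hal' : UL (fun i x => √(a i x)) := by
    intro R
    obtain ⟨l, l0, hl⟩ := hal R
    exact ⟨√l, sqrt_pos.mpr l0, fun i x hx => sqrt_le_sqrt (hl i x hx)⟩
  have hbl' : UL (fun i x => √(b i x)) := by
    intro R
    obtain ⟨l, l0, hl⟩ := hbl R
    exact ⟨√l, sqrt_pos.mpr l0, fun i x hx => sqrt_le_sqrt (hl i x hx)⟩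
  refine ⟨?_, ?_, ?_⟩
  · have h := ((hf.add hD.1).mul (ha.inv hal)).const_mul (1 / 2)
    convert h using 3 with i x
    have := (hapos i x).ne'
    have e := heq i x
    field_simp
    linear_combination e
  · have h := (hD.2.mul ((ha.sqrt hal).inv hal')).mul ((hb.sqrt hbl).inv hbl')
    convert h using 3 with i x
    have := (sqrt_pos.mpr (hapos i x)).ne'
    have := (sqrt_pos.mpr (hbpos i x)).ne'
    field_simp
  · have h := ((hf.sub hD.1).mul (hb.inv hbl)).const_mul (1 / 2)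
    convert h using 3 with i x
    have := (hbpos i x).ne'
    have e := heq i x
    field_simp
    linear_combination e

end Pool.Agent.EU.Reg
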