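import Pool.Agent.EU.R1Schauder

/-!
Difference quotients with uniform Hoelder bounds.
-/

set_option autoImplicit false
open scoped ContDiff Topology Interval
open Real Set MeasureTheory Filter

namespace Pool.Agent.EU.Reg

/-- step sizes -/
abbrev HH : Type := {h : ℝ // 0 < h ∧ h ≤ 1}

/-- difference quotient -/
noncomputable def dq (g : P → ℝ) (e : P) (h : HH) (x : P) : ℝ := (g (x + (h : ℝ) • e) - g x) / h

/-- dyadic steps -/
noncomputable def hk (k : ℕ) : HH := ⟨(1 / 2) ^ k, by positivity, pow_le_one₀ (by norm_num) (by norm_num)⟩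

theorem dq_halve (g : P → ℝ) (e : P) (k : ℕ) (x : P) :
    dq g e (hk k) x - dq g e (hk (k + 1)) x =
      (dq g e (hk (k + 1)) (x + ((hk (k + 1) : ℝ)) • e) - dq g e (hk (k + 1)) x) / 2 := by
  unfold dq
  have h1 : ((hk k : HH) : ℝ) = 2 * ((hk (k + 1) : HH) : ℝ) := by
    simp only [hk]; rw [pow_succ]; ring
  have h2 : 0 < ((hk (k + 1) : HH) : ℝ) := (hk (k + 1)).2.1
  rw [h1]
  have e1 : x + (2 * ((hk (k + 1) : HH) : ℝ)) • e = x + ((hk (k + 1) : HH) : ℝ) • e + ((hk (k + 1) : HH) : ℝ) • e := by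
    rw [two_mul, add_smul, add_assoc]
  rw [e1]
  field_simp
  ring

theorem dq_limit {g : P → ℝ} (hg : Continuous g) {e : P} (he : ‖e‖ ≤ 1) (hq : UH (dq g e)) :
    ∃ G : P → ℝ, UH (fun _ : Unit => G) ∧
      ∀ x : P, ∀ s : ℝ, HasDerivAt (fun s : ℝ => g (x + s • e)) (G (x + s • e)) s := by
  -- geometric estimate
  have geo : ∀ R : ℝ, 0 < R → ∃ C r : ℝ, 0 ≤ C ∧ 0 < r ∧ r < 1 ∧ ∀ k x, ‖x‖ ≤ R →
      dist (dq g e (hk k) x) (dq g e (hk (k + 1)) x) ≤ C * r ^ k := by
    intro R hR
    obtain ⟨C, β, hC, h0, h1, hH⟩ := hq (R + 1) (by linarith)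
    refine ⟨C, (1 / 2) ^ β, hC, by positivity, rpow_lt_one (by norm_num) (by norm_num) h0, ?_⟩
    intro k x hx
    have hpos := (hk (k + 1)).2.1
    have hle := (hk (k + 1)).2.2
    have hn : ‖((hk (k + 1) : HH) : ℝ) • e‖ ≤ ((hk (k + 1) : HH) : ℝ) := by
      rw [norm_smul, Real.norm_eq_abs, abs_of_pos hpos]
      nlinarith [norm_nonneg e]
    have h2 := (hH (hk (k + 1)) (x + ((hk (k + 1) : HH) : ℝ) • e) x
      ((norm_add_le _ _).trans (by linarith)) (by linarith)).2
    rw [Real.dist_eq, dq_halve, abs_div, abs_two]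
    have h3 : ‖x + ((hk (k + 1) : HH) : ℝ) • e - x‖ ^ β ≤ ((1 / 2 : ℝ) ^ β) ^ k := by
      rw [add_sub_cancel_left]
      calc ‖((hk (k + 1) : HH) : ℝ) • e‖ ^ β ≤ (((hk (k + 1) : HH) : ℝ)) ^ β :=
            rpow_le_rpow (norm_nonneg _) hn h0.le
        _ ≤ ((1 / 2 : ℝ) ^ k) ^ β := by
            refine rpow_le_rpow hpos.le ?_ h0.le
            simp only [hk]
            exact pow_le_pow_of_le_one (by norm_num) (by norm_num) (Nat.le_succ k)
        _ = ((1 / 2 : ℝ) ^ β) ^ k := by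
            rw [← rpow_natCast, ← rpow_mul (by norm_num), mul_comm, rpow_mul (by norm_num), rpow_natCast]
    calc |dq g e (hk (k + 1)) (x + ((hk (k + 1) : HH) : ℝ) • e) - dq g e (hk (k + 1)) x| / 2
        ≤ |dq g e (hk (k + 1)) (x + ((hk (k + 1) : HH) : ℝ) • e) - dq g e (hk (k + 1)) x| := by
          have := abs_nonneg (dq g e (hk (k + 1)) (x + ((hk (k + 1) : HH) : ℝ) • e) - dq g e (hk (k + 1)) x)
          linarith
      _ ≤ C * ((1 / 2 : ℝ) ^ β) ^ k := h2.trans (by gcongr)
  have hlim : ∀ x : P, ∃ l : ℝ, Tendsto (fun k => dq g e (hk k) x) atTop (𝓝 l) := by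
    intro x
    obtain ⟨C, r, _, _, hr, hd⟩ := geo (‖x‖ + 1) (by positivity)
    exact cauchySeq_tendsto_of_complete
      (cauchySeq_of_le_geometric r C hr (fun k => hd k x (by linarith)))
  choose G hG using hlim
  have hunif : ∀ R : ℝ, 0 < R → TendstoUniformlyOn (fun k => dq g e (hk k)) G atTop
      {x | ‖x‖ ≤ R} := by
    intro R hR
    obtain ⟨C, r, hC, hr0, hr, hd⟩ := geo R hR
    rw [Metric.tendstoUniformlyOn_iff]
    intro ε hε
    have h1 : Tendsto (fun k : ℕ => C * r ^ k / (1 - r)) atTop (𝓝 0) := by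
      have := ((tendsto_pow_atTop_nhds_zero_of_lt_one hr0.le hr).const_mul C).div_const (1 - r)
      simpa using this
    filter_upwards [h1.eventually (gt_mem_nhds hε)] with k hk' x hx
    rw [dist_comm]
    exact (dist_le_of_le_geometric_of_tendsto r C hr (fun k => hd k x hx) (hG x) k).trans_lt hk'
  refine ⟨G, ?_, ?_⟩
  · intro R hR
    obtain ⟨C, β, hC, h0, h1, hH⟩ := hq R hR
    refine ⟨C, β, hC, h0, h1, fun _ x y hx hy => ⟨?_, ?_⟩⟩
    · exact le_of_tendsto (hG x).abs (Eventually.of_forall fun k => (hH (hk k) x x hx hx).1)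
    · exact le_of_tendsto ((hG x).sub (hG y)).abs
        (Eventually.of_forall fun k => (hH (hk k) x y hx hy).2)
  · intro x s
    set φ : ℝ → ℝ := fun s => g (x + s • e) with hφ
    have hφc : Continuous φ := by
      rw [hφ]; fun_prop
    set F : ℝ → ℝ := fun s => ∫ τ in (0:ℝ)..s, φ τ with hF
    have hFd : ∀ s, HasDerivAt F (φ s) s := fun s =>
      intervalIntegral.integral_hasDerivAt_right (hφc.intervalIntegrable _ _)
        (hφc.stronglyMeasurableAtFilter _ _) hφc.continuousAt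
    have hk0 : Tendsto (fun k => ((hk k : HH) : ℝ)) atTop (𝓝 0) := by
      simp only [hk]
      exact tendsto_pow_atTop_nhds_zero_of_lt_one (by norm_num) (by norm_num)
    have key := hasDerivAt_of_tendstoUniformlyOn (l := atTop) (s := Ioo (s - 1) (s + 1)) isOpen_Ioo
      (f := fun (k : ℕ) (s : ℝ) => (F (s + (hk k : ℝ)) - F s) / (hk k : ℝ))
      (f' := fun (k : ℕ) (s : ℝ) => dq g e (hk k) (x + s • e))
      (g := φ) (g' := fun s => G (x + s • e)) (x := s) ?_ ?_ ?_ ⟨by linarith, by linarith⟩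
    · exact key
    · have h1 := hunif (‖x‖ + |s| + 1) (by positivity)
      intro u hu
      filter_upwards [h1 u hu] with k hk' t ht
      refine hk' _ ?_
      show ‖x + t • e‖ ≤ ‖x‖ + |s| + 1
      have h2 : |t| ≤ |s| + 1 := by
        have : |t - s| ≤ 1 := abs_le.mpr ⟨by linarith [ht.1], by linarith [ht.2]⟩
        calc |t| = |s + (t - s)| := by congr 1; ring
          _ ≤ _ := abs_add_le _ _
          _ ≤ _ := by linarith
      calc ‖x + t • e‖ ≤ ‖x‖ + ‖t • e‖ := norm_add_le _ _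
        _ ≤ ‖x‖ + |t| * 1 := by
            rw [norm_smul, Real.norm_eq_abs]; gcongr
        _ ≤ _ := by linarith
    · refine Eventually.of_forall fun k t _ => ?_
      have h1 : HasDerivAt (fun s => F (s + (hk k : ℝ))) (φ (t + (hk k : ℝ))) t :=
        (hFd (t + (hk k : ℝ))).comp_add_const t (hk k : ℝ)
      have h2 := (h1.sub (hFd t)).div_const (hk k : ℝ)
      refine h2.congr_deriv ?_
      simp only [hφ, dq, add_smul, add_assoc]
    · intro t _
      have h1 := (hFd t).tendsto_slope_zero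
      have h2 : Tendsto (fun k => ((hk k : HH) : ℝ)) atTop (𝓝[≠] 0) :=
        tendsto_nhdsWithin_iff.mpr ⟨hk0, Eventually.of_forall fun k => (hk k).2.1.ne'⟩
      refine (h1.comp h2).congr fun k => ?_
      simp only [Function.comp_apply, smul_eq_mul]
      rw [div_eq_inv_mul]

/-- `C¹` from continuous partial derivatives. -/
theorem contDiff_one_of_partials {g G1 G2 : P → ℝ} (c1 : Continuous G1) (c2 : Continuous G2)
    (h1 : ∀ x : P, HasDerivAt (fun s => g (s, x.2)) (G1 x) x.1)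
    (h2 : ∀ x : P, HasDerivAt (fun s => g (x.1, s)) (G2 x) x.2) :
    ContDiff ℝ 1 g ∧ d1 g = G1 ∧ d2 g = G2 := by
  have key : ∀ x : P, HasFDerivAt g ((ContinuousLinearMap.toSpanSingleton ℝ (G1 x)).coprod
      (ContinuousLinearMap.toSpanSingleton ℝ (G2 x))) x := by
    intro x
    have c1' : Continuous (fun v : P => ContinuousLinearMap.toSpanSingleton ℝ (G1 v)) :=
      (ContinuousLinearMap.toSpanSingletonCLE (𝕜 := ℝ) (E := ℝ)).continuous.comp c1
    have c2' : Continuous (fun v : P => ContinuousLinearMap.toSpanSingleton ℝ (G2 v)) :=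
      (ContinuousLinearMap.toSpanSingletonCLE (𝕜 := ℝ) (E := ℝ)).continuous.comp c2
    have := hasStrictFDerivAt_uncurry_coprod (𝕜 := ℝ) (u := x) (f := fun a b => g (a, b))
      (f₁ := fun a b => ContinuousLinearMap.toSpanSingleton ℝ (G1 (a, b)))
      (f₂ := fun a b => ContinuousLinearMap.toSpanSingleton ℝ (G2 (a, b)))
      (Eventually.of_forall fun v => (h1 v).hasFDerivAt)
      (Eventually.of_forall fun v => (h2 v).hasFDerivAt)
      c1'.continuousAt c2'.continuousAt
    exact this.hasFDerivAt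
  have e1 : d1 g = G1 := by
    ext x
    unfold d1
    rw [(key x).fderiv]
    simp
  have e2 : d2 g = G2 := by
    ext x
    unfold d2
    rw [(key x).fderiv]
    simp
  refine ⟨?_, e1, e2⟩
  rw [contDiff_one_iff_fderiv]
  refine ⟨fun x => (key x).differentiableAt, ?_⟩
  have : fderiv ℝ g = fun x => (ContinuousLinearMap.toSpanSingleton ℝ (G1 x)).coprod
      (ContinuousLinearMap.toSpanSingleton ℝ (G2 x)) := by
    ext1 x
    exact (key x).fderiv
  rw [this]
  have e : (fun x => (ContinuousLinearMap.toSpanSingleton ℝ (G1 x)).coprod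
      (ContinuousLinearMap.toSpanSingleton ℝ (G2 x))) =
      fun x => G1 x • (ContinuousLinearMap.fst ℝ ℝ ℝ) + G2 x • (ContinuousLinearMap.snd ℝ ℝ ℝ) := by
    ext1 x
    ext <;> simp
  rw [e]
  exact (c1.smul continuous_const).add (c2.smul continuous_const)

theorem UH.continuous {f : P → ℝ} (hf : UH (fun _ : Unit => f)) : Continuous f := by
  rw [continuous_iff_continuousAt]
  intro x
  obtain ⟨C, β, hC, h0, h1, hH⟩ := hf (‖x‖ + 1) (by positivity)
  rw [ContinuousAt, tendsto_iff_dist_tendsto_zero]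
  have h2 : Tendsto (fun y : P => C * ‖y - x‖ ^ β) (𝓝 x) (𝓝 0) := by
    have h3 : Tendsto (fun y : P => ‖y - x‖) (𝓝 x) (𝓝 0) := by
      have : Continuous (fun y : P => ‖y - x‖) := by fun_prop
      simpa using this.tendsto x
    have h4 := (h3.rpow_const (p := β) (Or.inr h0.le)).const_mul C
    simpa [zero_rpow h0.ne'] using h4
  refine squeeze_zero' (Eventually.of_forall fun _ => dist_nonneg) ?_ h2
  filter_upwards [Metric.ball_mem_nhds x one_pos] with y hy
  rw [Real.dist_eq]
  refine (hH () y x ?_ (by linarith)).2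
  have : ‖y - x‖ < 1 := by rwa [← dist_eq_norm]
  have := norm_le_add_sub x y
  linarith

/-- uniform Hoelder bounds for the difference quotients give `C^{1,Hoelder}`. -/
theorem c1_of_dq {g : P → ℝ} (hg : Continuous g) (h1 : UH (dq g (1, 0))) (h2 : UH (dq g (0, 1))) :
    ContDiff ℝ 1 g ∧ UH (fun _ : Unit => d1 g) ∧ UH (fun _ : Unit => d2 g) := by
  obtain ⟨G1, hG1, H1⟩ := dq_limit hg (e := (1, 0)) (by simp [Prod.norm_def]) h1
  obtain ⟨G2, hG2, H2⟩ := dq_limit hg (e := (0, 1)) (by simp [Prod.norm_def]) h2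
  obtain ⟨k1, k2, k3⟩ := contDiff_one_of_partials (g := g) hG1.continuous hG2.continuous
    (fun x => by
      have := H1 (0, x.2) x.1
      simpa using this)
    (fun x => by
      have := H2 (x.1, 0) x.2
      simpa using this)
  rw [k2, k3]
  exact ⟨k1, hG1, hG2⟩

end Pool.Agent.EU.Reg
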