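import Pool.Agent.EU.R2Lin

/-!
Smoothness of `C^{2,Hoelder}` solutions of `u₁₁ u₂₂ = 1`.
-/

set_option autoImplicit false
open scoped ContDiff Topology Interval
open Real Set MeasureTheory Filter

namespace Pool.Agent.EU.Reg

theorem CH_three {u : P → ℝ} (hu : ContDiff ℝ 2 u) (hpos : ∀ x, 0 < d1 (d1 u) x)
    (h : ∀ x, d1 (d1 u) x * d2 (d2 u) x = 1) (hH : CH 2 u) : CH 3 u := by
  have hpos2 : ∀ x, 0 < d2 (d2 u) x := by
    intro x
    by_contra hc
    push Not at hc
    have := h x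
    nlinarith [hpos x, mul_nonneg (hpos x).le (neg_nonneg.mpr hc)]
  have key : ∀ e : P, ‖e‖ ≤ 1 →
      UH (dq (d1 (d1 u)) e) ∧ UH (dq (d2 (d1 u)) e) ∧ UH (dq (d2 (d2 u)) e) := by
    intro e he
    have du := hu.differentiable (by norm_num)
    have du1 := diff_d1 hu
    have du2 := diff_d2 hu
    have e11 : ∀ h : HH, d1 (d1 (dq u e h)) = dq (d1 (d1 u)) e h := fun h => by
      rw [d1_dq e du, d1_dq e du1]
    have e21 : ∀ h : HH, d2 (d1 (dq u e h)) = dq (d2 (d1 u)) e h := fun h => by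
      rw [d1_dq e du, d2_dq e du1]
    have e22 : ∀ h : HH, d2 (d2 (dq u e h)) = dq (d2 (d2 u)) e h := fun h => by
      rw [d2_dq e du, d2_dq e du2]
    have UH11 : UH (fun _ : Unit => d1 (d1 u)) := hH.2.1.2.1
    have UH22 : UH (fun _ : Unit => d2 (d2 u)) := hH.2.2.2.2
    have hv : ∀ h : HH, ‖(h : ℝ) • e‖ ≤ 1 := fun h => (norm_hh_smul he h).trans h.2.2
    have S := schauder (ι := HH) (w := fun h => dq u e h)
      (a := fun h x => d2 (d2 u) (x + (h : ℝ) • e))
      (b := fun _ x => d1 (d1 u) x)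
      (f := fun _ _ => 0)
      (fun h => contDiff_dq e hu h)
      ((UH22.reindex (fun _ : HH => ())).translate zero_le_one hv)
      (UH11.reindex (fun _ : HH => ()))
      (UH.const 0)
      ((UL.of_cont (ι := HH) (cont_d22 hu) hpos2).translate hv)
      (UL.of_cont (ι := HH) (cont_d11 hu) hpos)
      (by
        have := UB.dq (contDiff_d1 (m := 1) hu (by norm_num)) he
        refine (by simpa only [d1_dq e du] using this))
      (by
        have := UB.dq (contDiff_d2 (m := 1) hu (by norm_num)) he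
        refine (by simpa only [d2_dq e du] using this))
      (by
        intro k x
        rw [e11, e22]
        have h1 := h x
        have h2 := h (x + (k : ℝ) • e)
        have h3 := k.2.1.ne'
        unfold dq
        field_simp
        linear_combination h2 - h1)
    simp only [e11, e21, e22] at S
    exact S
  obtain ⟨p1, p2, p3⟩ := key (1, 0) norm_e1
  obtain ⟨q1, q2, q3⟩ := key (0, 1) norm_e2
  have c11 := c1_of_dq (cont_d11 hu) p1 q1
  have c21 := c1_of_dq (cont_d21 hu) p2 q2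
  have c22 := c1_of_dq (cont_d22 hu) p3 q3
  have hcomm : d1 (d2 u) = d2 (d1 u) := by ext x; exact d12 hu x
  refine ⟨hu.of_le (by norm_num), ⟨contDiff_d1 (m := 1) hu (by norm_num), c11, c21⟩,
    ⟨contDiff_d2 (m := 1) hu (by norm_num), ?_, c22⟩⟩
  rw [hcomm]
  exact c21

theorem CH_all {u : P → ℝ} (hpos : ∀ x, 0 < d1 (d1 u) x)
    (h : ∀ x, d1 (d1 u) x * d2 (d2 u) x = 1) (hH : CH 3 u) : ∀ n : ℕ, CH (n + 3) u := by
  have hpos2 : ∀ x, 0 < d2 (d2 u) x := by
    intro x
    by_contra hc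
    push Not at hc
    have := h x
    nlinarith [hpos x, mul_nonneg (hpos x).le (neg_nonneg.mpr hc)]
  have hu3 : ContDiff ℝ 3 u := hH.contDiff
  have hu2 : ContDiff ℝ 2 u := hu3.of_le (by norm_num)
  have hcomm : d1 (d2 u) = d2 (d1 u) := by ext x; exact d12 hu2 x
  have c1w : ContDiff ℝ 2 (d1 u) := hH.2.1.contDiff
  have c2w : ContDiff ℝ 2 (d2 u) := hH.2.2.contDiff
  have d11 : Differentiable ℝ (d1 (d1 u)) := diff_d1 c1w
  have d22 : Differentiable ℝ (d2 (d2 u)) := diff_d2 c2w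
  have hfun : (fun x => d1 (d1 u) x * d2 (d2 u) x) = fun _ => 1 := funext h
  have E1 : ∀ x, d2 (d2 u) x * d1 (d1 (d1 u)) x + d1 (d1 u) x * d2 (d2 (d1 u)) x = 0 := by
    intro x
    have e1 : d1 (fun x => d1 (d1 u) x * d2 (d2 u) x) x = 0 := by rw [hfun, d1_const]
    rw [d1_mul d11 d22] at e1
    have e2 : d1 (d2 (d2 u)) x = d2 (d2 (d1 u)) x := by
      rw [d12 c2w, hcomm]
    simp only [e2] at e1
    linear_combination e1
  have E2 : ∀ x, d2 (d2 u) x * d1 (d1 (d2 u)) x + d1 (d1 u) x * d2 (d2 (d2 u)) x = 0 := by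
    intro x
    have e1 : d2 (fun x => d1 (d1 u) x * d2 (d2 u) x) x = 0 := by rw [hfun, d2_const]
    rw [d2_mul d11 d22] at e1
    have e2 : d2 (d1 (d1 u)) x = d1 (d1 (d2 u)) x := by
      rw [hcomm, d12 c1w]
    simp only [e2] at e1
    linear_combination e1
  intro n
  induction n with
  | zero => exact hH
  | succ n ih =>
    have a1 : CH (n + 1) (d2 (d2 u)) := ih.2.2.2.2
    have a2 : CH (n + 1) (d1 (d1 u)) := ih.2.1.2.1
    refine ⟨ih.1, ?_, ?_⟩
    · exact linear_reg (n + 1) a1 a2 (CH.const _ 0) hpos2 hpos (ih.2.1.mono (by omega)) E1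
    · exact linear_reg (n + 1) a1 a2 (CH.const _ 0) hpos2 hpos (ih.2.2.mono (by omega)) E2

theorem smooth_of_holder {u : P → ℝ} (hu : ContDiff ℝ 2 u) (hpos : ∀ x, 0 < d1 (d1 u) x)
    (h : ∀ x, d1 (d1 u) x * d2 (d2 u) x = 1) (h11 : UH (fun _ : Unit => d1 (d1 u)))
    (h21 : UH (fun _ : Unit => d2 (d1 u))) (h22 : UH (fun _ : Unit => d2 (d2 u))) :
    ContDiff ℝ ∞ u := by
  have hcomm : d1 (d2 u) = d2 (d1 u) := by ext x; exact d12 hu x
  have H2 : CH 2 u := by
    refine ⟨hu.of_le (by norm_num), ⟨contDiff_d1 (m := 1) hu (by norm_num), h11, h21⟩,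
      ⟨contDiff_d2 (m := 1) hu (by norm_num), ?_, h22⟩⟩
    show UH (fun _ : Unit => d1 (d2 u))
    rw [hcomm]
    exact h21
  have H3 := CH_three hu hpos h H2
  have hall := CH_all hpos h H3
  rw [contDiff_infty]
  intro n
  exact ((hall n).mono (by omega : n ≤ n + 3)).contDiff

end Pool.Agent.EU.Reg
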