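import Pool.Agent.EU.R2DQ

/-!
Higher regularity for linear equations `a w₁₁ + b w₂₂ = f`.
-/

set_option autoImplicit false
open scoped ContDiff Topology Interval
open Real Set MeasureTheory Filter

namespace Pool.Agent.EU.Reg

section rules

theorem d1_mul {f g : P → ℝ} (hf : Differentiable ℝ f) (hg : Differentiable ℝ g) :
    d1 (fun x => f x * g x) = fun x => d1 f x * g x + f x * d1 g x := by
  ext x
  have := ((hf x).hasFDerivAt.mul (hg x).hasFDerivAt).fderiv
  unfold d1
  rw [show (fun x => f x * g x) = f * g from rfl, this]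
  simp
  ring

theorem d2_mul {f g : P → ℝ} (hf : Differentiable ℝ f) (hg : Differentiable ℝ g) :
    d2 (fun x => f x * g x) = fun x => d2 f x * g x + f x * d2 g x := by
  ext x
  have := ((hf x).hasFDerivAt.mul (hg x).hasFDerivAt).fderiv
  unfold d2
  rw [show (fun x => f x * g x) = f * g from rfl, this]
  simp
  ring

theorem d1_add {f g : P → ℝ} (hf : Differentiable ℝ f) (hg : Differentiable ℝ g) :
    d1 (fun x => f x + g x) = fun x => d1 f x + d1 g x := by
  ext x
  have := ((hf x).hasFDerivAt.add (hg x).hasFDerivAt).fderiv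
  unfold d1
  rw [show (fun x => f x + g x) = f + g from rfl, this]
  simp

theorem d2_add {f g : P → ℝ} (hf : Differentiable ℝ f) (hg : Differentiable ℝ g) :
    d2 (fun x => f x + g x) = fun x => d2 f x + d2 g x := by
  ext x
  have := ((hf x).hasFDerivAt.add (hg x).hasFDerivAt).fderiv
  unfold d2
  rw [show (fun x => f x + g x) = f + g from rfl, this]
  simp

theorem d1_const (c : ℝ) : d1 (fun _ : P => c) = fun _ => 0 := by
  ext x; unfold d1; simp

theorem d2_const (c : ℝ) : d2 (fun _ : P => c) = fun _ => 0 := by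
  ext x; unfold d2; simp

theorem d1_inv {f : P → ℝ} (hf : Differentiable ℝ f) (h0 : ∀ x, f x ≠ 0) :
    d1 (fun x => (f x)⁻¹) = fun x => -(d1 f x * ((f x)⁻¹ * (f x)⁻¹)) := by
  ext x
  have := (hasDerivAt_inv (h0 x)).comp_hasFDerivAt x (hf x).hasFDerivAt
  unfold d1
  have h2 := this.fderiv
  rw [show (fun x => (f x)⁻¹) = (fun y => y⁻¹) ∘ f from rfl, h2]
  simp
  ring

theorem d2_inv {f : P → ℝ} (hf : Differentiable ℝ f) (h0 : ∀ x, f x ≠ 0) :
    d2 (fun x => (f x)⁻¹) = fun x => -(d2 f x * ((f x)⁻¹ * (f x)⁻¹)) := by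
  ext x
  have := (hasDerivAt_inv (h0 x)).comp_hasFDerivAt x (hf x).hasFDerivAt
  unfold d2
  have h2 := this.fderiv
  rw [show (fun x => (f x)⁻¹) = (fun y => y⁻¹) ∘ f from rfl, h2]
  simp
  ring

theorem fderiv_eq_partials (f : P → ℝ) :
    fderiv ℝ f = fun x => d1 f x • (ContinuousLinearMap.fst ℝ ℝ ℝ) +
      d2 f x • (ContinuousLinearMap.snd ℝ ℝ ℝ) := by
  ext1 x
  ext <;> simp [d1, d2]

end rules

/-- the classes `C^{n, Hoelder}`. -/
def CH : ℕ → (P → ℝ) → Prop
  | 0, f => UH (fun _ : Unit => f)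
  | n + 1, f => ContDiff ℝ 1 f ∧ CH n (d1 f) ∧ CH n (d2 f)

theorem CH.continuous {n : ℕ} {f : P → ℝ} (h : CH n f) : Continuous f := by
  cases n with
  | zero => exact UH.continuous h
  | succ n => exact h.1.continuous

theorem CH.pred {n : ℕ} : ∀ {f : P → ℝ}, CH (n + 1) f → CH n f := by
  induction n with
  | zero =>
    intro f h
    exact UH.of_lip (fun _ => h.1.differentiable (by norm_num)) (UB.of_cont h.1.continuous)
      (UB.of_cont h.2.1.continuous) (UB.of_cont h.2.2.continuous)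
  | succ n ih =>
    intro f h
    exact ⟨h.1, ih h.2.1, ih h.2.2⟩

theorem CH.mono {m n : ℕ} (hmn : m ≤ n) {f : P → ℝ} (h : CH n f) : CH m f := by
  induction n, hmn using Nat.le_induction with
  | base => exact h
  | succ n _ ih => exact ih h.pred

theorem CH.const (n : ℕ) (c : ℝ) : CH n (fun _ => c) := by
  induction n generalizing c with
  | zero => exact UH.const c
  | succ n ih =>
    refine ⟨contDiff_const, ?_, ?_⟩
    · rw [d1_const]; exact ih 0
    · rw [d2_const]; exact ih 0

theorem CH.add {n : ℕ} : ∀ {f g : P → ℝ}, CH n f → CH n g → CH n (fun x => f x + g x) := by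
  induction n with
  | zero => intro f g hf hg; exact UH.add hf hg
  | succ n ih =>
    intro f g hf hg
    have df := hf.1.differentiable (by norm_num)
    have dg := hg.1.differentiable (by norm_num)
    refine ⟨hf.1.add hg.1, ?_, ?_⟩
    · rw [d1_add df dg]; exact ih hf.2.1 hg.2.1
    · rw [d2_add df dg]; exact ih hf.2.2 hg.2.2

theorem CH.mul {n : ℕ} : ∀ {f g : P → ℝ}, CH n f → CH n g → CH n (fun x => f x * g x) := by
  induction n with
  | zero => intro f g hf hg; exact UH.mul hf hg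
  | succ n ih =>
    intro f g hf hg
    have df := hf.1.differentiable (by norm_num)
    have dg := hg.1.differentiable (by norm_num)
    refine ⟨hf.1.mul hg.1, ?_, ?_⟩
    · rw [d1_mul df dg]; exact (ih hf.2.1 hg.pred).add (ih hf.pred hg.2.1)
    · rw [d2_mul df dg]; exact (ih hf.2.2 hg.pred).add (ih hf.pred hg.2.2)

theorem CH.neg {n : ℕ} {f : P → ℝ} (h : CH n f) : CH n (fun x => -f x) := by
  have := (CH.const n (-1)).mul h
  simpa using this

theorem CH.sub {n : ℕ} {f g : P → ℝ} (hf : CH n f) (hg : CH n g) : CH n (fun x => f x - g x) := by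
  have := hf.add hg.neg
  simpa [sub_eq_add_neg] using this

theorem CH.contDiff {n : ℕ} : ∀ {f : P → ℝ}, CH n f → ContDiff ℝ n f := by
  induction n with
  | zero => intro f h; exact contDiff_zero.mpr h.continuous
  | succ n ih =>
    intro f h
    have : ContDiff ℝ ((n : WithTop ℕ∞) + 1) f := by
      rw [contDiff_succ_iff_fderiv]
      refine ⟨h.1.differentiable (by norm_num), by simp, ?_⟩
      rw [fderiv_eq_partials]
      exact ((ih h.2.1).smul contDiff_const).add ((ih h.2.2).smul contDiff_const)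
    exact_mod_cast this

section dq
variable (e : P)

theorem hasFDerivAt_dq {g : P → ℝ} (hg : Differentiable ℝ g) (h : HH) (x : P) :
    HasFDerivAt (dq g e h) ((h : ℝ)⁻¹ • (fderiv ℝ g (x + (h : ℝ) • e) - fderiv ℝ g x)) x := by
  have h1 : HasFDerivAt (fun x => g (x + (h : ℝ) • e)) (fderiv ℝ g (x + (h : ℝ) • e)) x := by
    have := (hg (x + (h : ℝ) • e)).hasFDerivAt.comp x
      ((hasFDerivAt_id (𝕜 := ℝ) x).add_const ((h : ℝ) • e))
    simpa [Function.comp_def] using this
  have h2 := (h1.sub (hg x).hasFDerivAt).const_smul ((h : ℝ)⁻¹)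
  refine h2.congr_of_eventuallyEq (Eventually.of_forall fun y => ?_)
  simp [dq, div_eq_inv_mul]

theorem d1_dq {g : P → ℝ} (hg : Differentiable ℝ g) (h : HH) : d1 (dq g e h) = dq (d1 g) e h := by
  ext x
  unfold d1
  rw [(hasFDerivAt_dq e hg h x).fderiv]
  simp [dq, div_eq_inv_mul]

theorem d2_dq {g : P → ℝ} (hg : Differentiable ℝ g) (h : HH) : d2 (dq g e h) = dq (d2 g) e h := by
  ext x
  unfold d2
  rw [(hasFDerivAt_dq e hg h x).fderiv]
  simp [dq, div_eq_inv_mul]

theorem contDiff_dq {g : P → ℝ} {n : WithTop ℕ∞} (hg : ContDiff ℝ n g) (h : HH) :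
    ContDiff ℝ n (dq g e h) := by
  have h1 : ContDiff ℝ n (fun x => g (x + (h : ℝ) • e)) :=
    hg.comp (contDiff_id.add contDiff_const)
  exact (h1.sub hg).div_const _

end dq

theorem norm_hh_smul {e : P} (he : ‖e‖ ≤ 1) (h : HH) : ‖(h : ℝ) • e‖ ≤ h := by
  rw [norm_smul, Real.norm_eq_abs, abs_of_pos h.2.1]
  nlinarith [h.2.1, norm_nonneg e]

theorem UB.dq {g : P → ℝ} (hg : ContDiff ℝ 1 g) {e : P} (he : ‖e‖ ≤ 1) : UB (dq g e) := by
  intro R
  have hc1 : Continuous (d1 g) := (contDiff_d1 (m := 0) hg (by norm_num)).continuous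
  have hc2 : Continuous (d2 g) := (contDiff_d2 (m := 0) hg (by norm_num)).continuous
  obtain ⟨C1, hC1⟩ := UB.of_cont (ι := Unit) hc1 (R + 1)
  obtain ⟨C2, hC2⟩ := UB.of_cont (ι := Unit) hc2 (R + 1)
  refine ⟨|C1| + |C2|, fun h x hx => ?_⟩
  have hn := norm_hh_smul he h
  have h1 := h.2.1
  have h2 := h.2.2
  have := abs_sub_le_of_partials (hg.differentiable (by norm_num)) (R := R + 1) (C := |C1| + |C2|)
    (fun z hz => by
      have := (hC1 () z hz).trans (le_abs_self _)
      have := (hC2 () z hz).trans (le_abs_self _)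
      linarith) (x := x + (h : ℝ) • e) (y := x)
    ((norm_add_le _ _).trans (by linarith)) (by linarith)
  unfold Pool.Agent.EU.Reg.dq
  rw [abs_div, abs_of_pos h1, div_le_iff₀ h1]
  refine this.trans ?_
  rw [add_sub_cancel_left]
  gcongr

theorem UH.dq_of {g D : P → ℝ} (hg : ContDiff ℝ 1 g) {e : P} (he : ‖e‖ ≤ 1)
    (hD : UH (fun _ : Unit => D)) (hd : ∀ x, fderiv ℝ g x e = D x) : UH (dq g e) := by
  intro R hR
  obtain ⟨C0, hC0⟩ := UB.dq hg he R
  obtain ⟨C, β, hC, h0, h1, hH⟩ := hD (R + 1) (by linarith)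
  refine ⟨|C0| + C, β, by positivity, h0, h1, fun h x y hx hy => ⟨?_, ?_⟩⟩
  · exact (hC0 h x hx).trans ((le_abs_self _).trans (by linarith))
  · have hp := h.2.1
    have hl := h.2.2
    have hder : ∀ (z : P) (t : ℝ), HasDerivAt (fun t : ℝ => g (z + t • e)) (D (z + t • e)) t := by
      intro z t
      have h2 : HasDerivAt (fun t : ℝ => z + t • e) e t := by
        have := ((hasDerivAt_id t).smul_const e).const_add z
        simpa using this
      have h3 := (hg.differentiable (by norm_num) (z + t • e)).hasFDerivAt.comp_hasDerivAt t h2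
      rw [hd] at h3
      exact h3
    have key := Convex.norm_image_sub_le_of_norm_hasDerivWithin_le (𝕜 := ℝ)
      (f := fun t : ℝ => g (x + t • e) - g (y + t • e))
      (f' := fun t => D (x + t • e) - D (y + t • e)) (s := Icc 0 (h : ℝ)) (x := 0) (y := (h : ℝ))
      (C := C * ‖x - y‖ ^ β)
      (fun t _ => ((hder x t).sub (hder y t)).hasDerivWithinAt)
      (fun t ht => by
        have ht1 : ‖t • e‖ ≤ 1 := by
          rw [norm_smul, Real.norm_eq_abs, abs_of_nonneg ht.1]
          have := ht.2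
          have := ht.1
          nlinarith [norm_nonneg e]
        have := (hH () (x + t • e) (y + t • e) ((norm_add_le _ _).trans (by linarith))
          ((norm_add_le _ _).trans (by linarith))).2
        simpa [Real.norm_eq_abs] using this)
      (convex_Icc _ _) ⟨le_rfl, hp.le⟩ ⟨hp.le, le_rfl⟩
    simp only [zero_smul, add_zero, sub_zero, Real.norm_eq_abs, abs_of_pos hp] at key
    have e1 : dq g e h x - dq g e h y =
        (g (x + (h : ℝ) • e) - g (y + (h : ℝ) • e) - (g x - g y)) / h := by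
      unfold Pool.Agent.EU.Reg.dq
      ring
    rw [e1, abs_div, abs_of_pos hp, div_le_iff₀ hp]
    refine key.trans ?_
    have : 0 ≤ |C0| * ‖x - y‖ ^ β * h := by positivity
    nlinarith

theorem norm_e1 : ‖((1, 0) : P)‖ ≤ 1 := by simp [Prod.norm_def]
theorem norm_e2 : ‖((0, 1) : P)‖ ≤ 1 := by simp [Prod.norm_def]

/-- one more derivative for the linear equation. -/
theorem base_lin {w a b f : P → ℝ} (hw : CH 2 w) (ha : CH 1 a) (hb : CH 1 b) (hf : CH 1 f)
    (ha0 : ∀ x, 0 < a x) (hb0 : ∀ x, 0 < b x)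
    (heq : ∀ x, a x * d1 (d1 w) x + b x * d2 (d2 w) x = f x) : CH 2 (d1 w) ∧ CH 2 (d2 w) := by
  have hw2 : ContDiff ℝ 2 w := hw.contDiff
  have key : ∀ e : P, ‖e‖ ≤ 1 → UH (dq a e) → UH (dq b e) → UH (dq f e) →
      UH (dq (d1 (d1 w)) e) ∧ UH (dq (d2 (d1 w)) e) ∧ UH (dq (d2 (d2 w)) e) := by
    intro e he qa qb qf
    have dw := hw2.differentiable (by norm_num)
    have dw1 := diff_d1 hw2
    have dw2 := diff_d2 hw2
    have e11 : ∀ h : HH, d1 (d1 (dq w e h)) = dq (d1 (d1 w)) e h := fun h => by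
      rw [d1_dq e dw, d1_dq e dw1]
    have e21 : ∀ h : HH, d2 (d1 (dq w e h)) = dq (d2 (d1 w)) e h := fun h => by
      rw [d1_dq e dw, d2_dq e dw1]
    have e22 : ∀ h : HH, d2 (d2 (dq w e h)) = dq (d2 (d2 w)) e h := fun h => by
      rw [d2_dq e dw, d2_dq e dw2]
    have UHa : UH (fun _ : Unit => a) := ha.pred
    have UHb : UH (fun _ : Unit => b) := hb.pred
    have UH11 : UH (fun _ : Unit => d1 (d1 w)) := hw.2.1.2.1
    have UH22 : UH (fun _ : Unit => d2 (d2 w)) := hw.2.2.2.2
    have hv : ∀ h : HH, ‖(h : ℝ) • e‖ ≤ 1 := fun h => (norm_hh_smul he h).trans h.2.2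
    have S := schauder (ι := HH) (w := fun h => dq w e h) (a := fun h x => a (x + (h : ℝ) • e))
      (b := fun h x => b (x + (h : ℝ) • e))
      (f := fun h x => dq f e h x - dq a e h x * d1 (d1 w) x - dq b e h x * d2 (d2 w) x)
      (fun h => contDiff_dq e hw2 h)
      ((UHa.reindex (fun _ : HH => ())).translate zero_le_one hv)
      ((UHb.reindex (fun _ : HH => ())).translate zero_le_one hv)
      ((qf.sub (qa.mul (UH11.reindex (fun _ : HH => ())))).sub
        (qb.mul (UH22.reindex (fun _ : HH => ()))))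
      ((UL.of_cont (ι := HH) ha.continuous ha0).translate hv)
      ((UL.of_cont (ι := HH) hb.continuous hb0).translate hv)
      (by
        have := UB.dq (contDiff_d1 (m := 1) hw2 (by norm_num)) he
        refine (by simpa only [d1_dq e dw] using this))
      (by
        have := UB.dq (contDiff_d2 (m := 1) hw2 (by norm_num)) he
        refine (by simpa only [d2_dq e dw] using this))
      (by
        intro h x
        rw [e11, e22]
        have h1 := heq x
        have h2 := heq (x + (h : ℝ) • e)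
        have h3 := h.2.1.ne'
        unfold dq
        field_simp
        linear_combination h2 - h1)
    simp only [e11, e21, e22] at S
    exact S
  obtain ⟨p1, p2, p3⟩ := key (1, 0) norm_e1
    (UH.dq_of ha.1 norm_e1 ha.2.1 (fun _ => rfl))
    (UH.dq_of hb.1 norm_e1 hb.2.1 (fun _ => rfl)) (UH.dq_of hf.1 norm_e1 hf.2.1 (fun _ => rfl))
  obtain ⟨q1, q2, q3⟩ := key (0, 1) norm_e2
    (UH.dq_of ha.1 norm_e2 ha.2.2 (fun _ => rfl))
    (UH.dq_of hb.1 norm_e2 hb.2.2 (fun _ => rfl)) (UH.dq_of hf.1 norm_e2 hf.2.2 (fun _ => rfl))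
  have c11 := c1_of_dq (cont_d11 hw2) p1 q1
  have c21 := c1_of_dq (cont_d21 hw2) p2 q2
  have c22 := c1_of_dq (cont_d22 hw2) p3 q3
  have hcomm : d1 (d2 w) = d2 (d1 w) := by ext x; exact d12 hw2 x
  refine ⟨⟨contDiff_d1 (m := 1) hw2 (by norm_num), c11, c21⟩,
    ⟨contDiff_d2 (m := 1) hw2 (by norm_num), ?_, c22⟩⟩
  rw [hcomm]
  exact c21

/-- linear regularity. -/
theorem linear_reg (n : ℕ) : ∀ {w a b f : P → ℝ}, CH n a → CH n b → CH n f →
    (∀ x, 0 < a x) → (∀ x, 0 < b x) → CH 2 w →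
    (∀ x, a x * d1 (d1 w) x + b x * d2 (d2 w) x = f x) → CH (n + 2) w := by
  induction n with
  | zero => intro w a b f _ _ _ _ _ hw _; exact hw
  | succ n ih =>
    intro w a b f ha hb hf ha0 hb0 hw heq
    have hwn : CH (n + 2) w := ih ha.pred hb.pred hf.pred ha0 hb0 hw heq
    obtain ⟨k1, k2⟩ := base_lin hw (ha.mono (by omega)) (hb.mono (by omega)) (hf.mono (by omega))
      ha0 hb0 heq
    have hw2 : ContDiff ℝ 2 w := hw.contDiff
    have hcomm : d1 (d2 w) = d2 (d1 w) := by ext x; exact d12 hw2 x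
    have c1w : ContDiff ℝ 2 (d1 w) := k1.contDiff
    have c2w : ContDiff ℝ 2 (d2 w) := k2.contDiff
    have da := ha.1.differentiable (by norm_num)
    have db := hb.1.differentiable (by norm_num)
    have d11 : Differentiable ℝ (d1 (d1 w)) := diff_d1 c1w
    have d22 : Differentiable ℝ (d2 (d2 w)) := diff_d2 c2w
    have hfun : (fun x => a x * d1 (d1 w) x + b x * d2 (d2 w) x) = f := funext heq
    refine ⟨hw2.of_le (by norm_num), ?_, ?_⟩
    · refine ih (w := d1 w) (f := fun x => d1 f x - d1 a x * d1 (d1 w) x - d1 b x * d2 (d2 w) x)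
        ha.pred hb.pred ?_ ha0 hb0 k1 ?_
      · exact (hf.2.1.sub (ha.2.1.mul hwn.2.1.2.1)).sub (hb.2.1.mul hwn.2.2.2.2)
      · intro x
        have e1 : d1 f x = (d1 a x * d1 (d1 w) x + a x * d1 (d1 (d1 w)) x) +
            (d1 b x * d2 (d2 w) x + b x * d1 (d2 (d2 w)) x) := by
          rw [← hfun, d1_add (f := fun x => a x * d1 (d1 w) x) (g := fun x => b x * d2 (d2 w) x)
            (da.mul d11) (db.mul d22), d1_mul da d11, d1_mul db d22]
        have e2 : d1 (d2 (d2 w)) x = d2 (d2 (d1 w)) x := by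
          rw [d12 c2w, hcomm]
        rw [e1, e2]
        ring
    · refine ih (w := d2 w) (f := fun x => d2 f x - d2 a x * d1 (d1 w) x - d2 b x * d2 (d2 w) x)
        ha.pred hb.pred ?_ ha0 hb0 k2 ?_
      · exact (hf.2.2.sub (ha.2.2.mul hwn.2.1.2.1)).sub (hb.2.2.mul hwn.2.2.2.2)
      · intro x
        have e1 : d2 f x = (d2 a x * d1 (d1 w) x + a x * d2 (d1 (d1 w)) x) +
            (d2 b x * d2 (d2 w) x + b x * d2 (d2 (d2 w)) x) := by
          rw [← hfun, d2_add (f := fun x => a x * d1 (d1 w) x) (g := fun x => b x * d2 (d2 w) x)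
            (da.mul d11) (db.mul d22), d2_mul da d11, d2_mul db d22]
        have e2 : d1 (d1 (d2 w)) x = d2 (d1 (d1 w)) x := by
          rw [hcomm, d12 c1w]
        rw [e1, e2]
        ring

end Pool.Agent.EU.Reg
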