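import Mathlib

/-!
Module REP-A: two solutions of `(p w')' = p q w` (`q > 0`, `0 < p r ≤ r` near `0`) which are
bounded near `0` are proportional.
-/

set_option autoImplicit false

open Filter Topology Set

namespace Pool.Agent.EU.RepA

/-- `w` solves `(p w')' = p q w` on `(0, ∞)`; `z = p w'`. -/
structure Sol (p q w z : ℝ → ℝ) : Prop where
  dw : ∀ r, 0 < r → HasDerivAt w (z r / p r) r
  dz : ∀ r, 0 < r → HasDerivAt z (p r * q r * w r) r

section

variable {p q w z R y : ℝ → ℝ}

lemma Sol.deriv_prod (h : Sol p q w z) (r : ℝ) (hr : 0 < r) :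
    HasDerivAt (fun r => w r * z r) (z r ^ 2 / p r + p r * q r * w r ^ 2) r := by
  have := (h.dw r hr).mul (h.dz r hr)
  have e : (fun r => w r * z r) = w * z := rfl
  rw [e]
  refine this.congr_deriv ?_
  ring

lemma mono_of_deriv {f f' : ℝ → ℝ} (h : ∀ r, 0 < r → HasDerivAt f (f' r) r)
    (h0 : ∀ r, 0 < r → 0 ≤ f' r) : MonotoneOn f (Ioi 0) := by
  apply monotoneOn_of_deriv_nonneg (convex_Ioi 0)
  · intro r hr
    exact (h r hr).continuousAt.continuousWithinAt
  · intro r hr
    rw [interior_Ioi] at hr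
    exact (h r hr).differentiableAt.differentiableWithinAt
  · intro r hr
    rw [interior_Ioi] at hr
    rw [(h r hr).deriv]
    exact h0 r hr

lemma Sol.mono (h : Sol p q w z) (hp : ∀ r, 0 < r → 0 < p r) (hq : ∀ r, 0 < r → 0 < q r) :
    MonotoneOn (fun r => w r * z r) (Ioi 0) := by
  apply mono_of_deriv h.deriv_prod
  intro r hr
  have h1 := hp r hr
  have h2 := hq r hr
  positivity

/-- a nonnegative monotone function cannot dominate a multiple of `-log` near `0` -/
lemma Sol.nonneg (h : Sol p q w z) (hp : ∀ r, 0 < r → 0 < p r) (hq : ∀ r, 0 < r → 0 < q r)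
    (hpr : ∀ r, 0 < r → r ≤ 1 → p r ≤ r) {B : ℝ} (hB : ∀ r, 0 < r → r ≤ 1 → |w r| ≤ B) :
    ∀ r, 0 < r → 0 ≤ w r * z r := by
  intro r₁ hr₁
  by_contra hneg
  push Not at hneg
  set δ : ℝ := -(w r₁ * z r₁) with hδ
  have hδ0 : 0 < δ := by rw [hδ]; linarith
  set r₀ : ℝ := min r₁ 1 with hr₀
  have hr₀0 : 0 < r₀ := lt_min hr₁ one_pos
  have hbd : ∀ r, 0 < r → r ≤ r₀ → w r * z r ≤ -δ := by
    intro r hr hrr
    have := h.mono hp hq (mem_Ioi.2 hr) (mem_Ioi.2 hr₁) (hrr.trans (min_le_left _ _))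
    simp only at this
    rw [hδ]; linarith
  -- the function w^2 + 2 δ log r is antitone on (0, r₀]
  have hanti : AntitoneOn (fun r => w r ^ 2 + 2 * δ * Real.log r) (Ioc 0 r₀) := by
    have hd : ∀ r ∈ Ioc 0 r₀, HasDerivAt (fun r => w r ^ 2 + 2 * δ * Real.log r)
        (2 * (w r * z r) / p r + 2 * δ * r⁻¹) r := by
      intro r hr
      have h1 := (h.dw r hr.1).pow 2
      have h2 := (Real.hasDerivAt_log hr.1.ne').const_mul (2 * δ)
      have h3 := h1.add h2
      refine h3.congr_deriv ?_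
      push_cast
      ring
    apply antitoneOn_of_deriv_nonpos (convex_Ioc 0 r₀)
    · intro r hr
      exact (hd r hr).continuousAt.continuousWithinAt
    · intro r hr
      exact (hd r (interior_subset hr)).differentiableAt.differentiableWithinAt
    · intro r hr
      have hr' := interior_subset hr
      rw [(hd r hr').deriv]
      have hr1 : r ≤ 1 := hr'.2.trans (min_le_right _ _)
      have e1 := hbd r hr'.1 hr'.2
      have e2 := hpr r hr'.1 hr1
      have e3 := hp r hr'.1
      have e4 : 2 * (w r * z r) / p r ≤ -(2 * δ) / p r :=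
        div_le_div_of_nonneg_right (by linarith) e3.le
      have e5 : -(2 * δ) / p r ≤ -(2 * δ) / r := by
        rw [neg_div, neg_div]
        apply neg_le_neg
        exact div_le_div_of_nonneg_left (by linarith) e3 e2
      have e6 : -(2 * δ) / r + 2 * δ * r⁻¹ = 0 := by
        field_simp
        ring
      linarith
  -- contradiction with boundedness
  have hB0 : 0 ≤ B := (abs_nonneg _).trans (hB r₀ hr₀0 (min_le_right _ _))
  set c₀ : ℝ := w r₀ ^ 2 + 2 * δ * Real.log r₀ with hc₀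
  set N : ℝ := (B ^ 2 + 1 + |c₀|) / (2 * δ) with hN
  set ε : ℝ := min r₀ (Real.exp (-N)) with hε
  have hε0 : 0 < ε := lt_min hr₀0 (Real.exp_pos _)
  have h1 := hanti (⟨hε0, min_le_left _ _⟩ : ε ∈ Ioc 0 r₀) (⟨hr₀0, le_rfl⟩ : r₀ ∈ Ioc 0 r₀)
    (min_le_left _ _)
  simp only at h1
  have h2 : Real.log ε ≤ -N := by
    calc Real.log ε ≤ Real.log (Real.exp (-N)) := Real.log_le_log hε0 (min_le_right _ _)
      _ = -N := Real.log_exp _
  have h3 : w ε ^ 2 ≤ B ^ 2 := by
    rw [← sq_abs]
    exact pow_le_pow_left₀ (abs_nonneg _) (hB ε hε0 ((min_le_left _ _).trans (min_le_right _ _))) 2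
  have h4 : 2 * δ * Real.log ε ≤ -(B ^ 2 + 1 + |c₀|) := by
    have := mul_le_mul_of_nonneg_left h2 (by positivity : (0 : ℝ) ≤ 2 * δ)
    have e : 2 * δ * (-N) = -(B ^ 2 + 1 + |c₀|) := by
      rw [hN]; field_simp
    linarith
  have h5 := neg_abs_le c₀
  linarith

/-- the Wronskian is constant -/
lemma wronskian_const (h : Sol p q w z) (h' : Sol p q R y) {r s : ℝ} (hr : 0 < r) (hs : 0 < s) :
    z r * R r - w r * y r = z s * R s - w s * y s := by
  have hd : ∀ r, 0 < r → HasDerivAt (fun r => z r * R r - w r * y r) 0 r := by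
    intro r hr
    have h1 := ((h.dz r hr).mul (h'.dw r hr)).sub ((h.dw r hr).mul (h'.dz r hr))
    have e : (fun r => z r * R r - w r * y r) = z * R - w * y := rfl
    rw [e]
    refine h1.congr_deriv ?_
    ring
  have hdiff : DifferentiableOn ℝ (fun r => z r * R r - w r * y r) (Ioi 0) := fun r hr =>
    (hd r hr).differentiableAt.differentiableWithinAt
  have := (convex_Ioi (0 : ℝ)).is_const_of_fderivWithin_eq_zero hdiff (fun r hr => by
    rw [fderivWithin_of_isOpen isOpen_Ioi hr, (hd r hr).hasFDerivAt.fderiv]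
    ext
    simp) hr hs
  exact this

/-- the Wronskian of two bounded solutions vanishes -/
lemma wronskian_zero (h : Sol p q w z) (h' : Sol p q R y) (hp : ∀ r, 0 < r → 0 < p r)
    (hq : ∀ r, 0 < r → 0 < q r)
    (hpr : ∀ r, 0 < r → r ≤ 1 → p r ≤ r) {B : ℝ} (hB : ∀ r, 0 < r → r ≤ 1 → |w r| ≤ B)
    (hB' : ∀ r, 0 < r → r ≤ 1 → |R r| ≤ B) {r : ℝ} (hr : 0 < r) :
    z r * R r - w r * y r = 0 := by
  by_contra hne
  set W : ℝ := z r * R r - w r * y r with hW
  have hWc : ∀ s, 0 < s → z s * R s - w s * y s = W := fun s hs => wronskian_const h h' hs hr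
  have hB0 : 0 ≤ B := (abs_nonneg _).trans (hB 1 one_pos le_rfl)
  have hBpos : 0 < B ^ 2 + 1 := by positivity
  set κ : ℝ := W ^ 2 / (2 * (B ^ 2 + 1)) with hκ
  have hκ0 : 0 < κ := by
    have : 0 < W ^ 2 := by positivity
    positivity
  -- lower bound for z^2 + y^2
  have hlow : ∀ s, 0 < s → s ≤ 1 → κ ≤ z s ^ 2 + y s ^ 2 := by
    intro s hs hs1
    have e1 := hWc s hs
    have e2 : w s ^ 2 ≤ B ^ 2 := by
      rw [← sq_abs]; exact pow_le_pow_left₀ (abs_nonneg _) (hB s hs hs1) 2
    have e3 : R s ^ 2 ≤ B ^ 2 := by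
      rw [← sq_abs]; exact pow_le_pow_left₀ (abs_nonneg _) (hB' s hs hs1) 2
    have e4 : W ^ 2 ≤ (z s ^ 2 + y s ^ 2) * (R s ^ 2 + w s ^ 2) := by
      rw [← e1]
      nlinarith [sq_nonneg (z s * w s + y s * R s)]
    have e5 : (z s ^ 2 + y s ^ 2) * (R s ^ 2 + w s ^ 2) ≤ (z s ^ 2 + y s ^ 2) * (2 * (B ^ 2 + 1)) :=
      mul_le_mul_of_nonneg_left (by linarith) (by positivity)
    rw [hκ, div_le_iff₀ (by positivity)]
    linarith
  have hmono : MonotoneOn (fun s => w s * z s + R s * y s - κ * Real.log s) (Ioc 0 1) := by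
    have hd : ∀ s ∈ Ioc (0 : ℝ) 1, HasDerivAt (fun s => w s * z s + R s * y s - κ * Real.log s)
        ((z s ^ 2 / p s + p s * q s * w s ^ 2) + (y s ^ 2 / p s + p s * q s * R s ^ 2)
          - κ * s⁻¹) s := by
      intro s hs
      exact ((h.deriv_prod s hs.1).add (h'.deriv_prod s hs.1)).sub
        ((Real.hasDerivAt_log hs.1.ne').const_mul κ)
    apply monotoneOn_of_deriv_nonneg (convex_Ioc 0 1)
    · intro s hs
      exact (hd s hs).continuousAt.continuousWithinAt
    · intro s hs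
      exact (hd s (interior_subset hs)).differentiableAt.differentiableWithinAt
    · intro s hs
      have hs' := interior_subset hs
      rw [(hd s hs').deriv]
      have e1 := hlow s hs'.1 hs'.2
      have e2 := hpr s hs'.1 hs'.2
      have e3 := hp s hs'.1
      have e4 := hq s hs'.1
      have e5 : κ * s⁻¹ ≤ (z s ^ 2 + y s ^ 2) / p s := by
        rw [← div_eq_mul_inv]
        exact div_le_div₀ (by positivity) e1 e3 e2
      have e6 : (z s ^ 2 + y s ^ 2) / p s = z s ^ 2 / p s + y s ^ 2 / p s := add_div _ _ _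
      have e7 : 0 ≤ p s * q s * w s ^ 2 := by positivity
      have e8 : 0 ≤ p s * q s * R s ^ 2 := by positivity
      linarith
  set c₀ : ℝ := w 1 * z 1 + R 1 * y 1 - κ * Real.log 1 with hc₀
  set N : ℝ := (|c₀| + 1) / κ with hN
  set ε : ℝ := min 1 (Real.exp (-N)) with hε
  have hε0 : 0 < ε := lt_min one_pos (Real.exp_pos _)
  have h1 := hmono (⟨hε0, min_le_left _ _⟩ : ε ∈ Ioc (0 : ℝ) 1) (⟨one_pos, le_rfl⟩ : (1 : ℝ) ∈ Ioc (0 : ℝ) 1)
    (min_le_left _ _)
  simp only at h1
  have h2 : Real.log ε ≤ -N := by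
    calc Real.log ε ≤ Real.log (Real.exp (-N)) := Real.log_le_log hε0 (min_le_right _ _)
      _ = -N := Real.log_exp _
  have h4 : κ * Real.log ε ≤ -(|c₀| + 1) := by
    have := mul_le_mul_of_nonneg_left h2 hκ0.le
    have e : κ * (-N) = -(|c₀| + 1) := by
      rw [hN]; field_simp
    linarith
  have h5 := h.nonneg hp hq hpr hB ε hε0
  have h6 := h'.nonneg hp hq hpr hB' ε hε0
  have h7 := le_abs_self c₀
  linarith

/-- Two solutions of `(p w')' = p q w` bounded near `0` are proportional. -/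
theorem proportional (h : Sol p q w z) (h' : Sol p q R y) (hp : ∀ r, 0 < r → 0 < p r)
    (hq : ∀ r, 0 < r → 0 < q r)
    (hpr : ∀ r, 0 < r → r ≤ 1 → p r ≤ r) {B : ℝ} (hB : ∀ r, 0 < r → r ≤ 1 → |w r| ≤ B)
    (hB' : ∀ r, 0 < r → r ≤ 1 → |R r| ≤ B) {r₀ : ℝ} (hR : ∀ r, r₀ ≤ r → 0 < R r) :
    ∃ c : ℝ, ∀ r, 0 < r → w r = c * R r := by
  set s₀ : ℝ := max r₀ 1 with hs₀
  have hs₀0 : 0 < s₀ := lt_of_lt_of_le one_pos (le_max_right _ _)
  have hRs : ∀ r, s₀ ≤ r → 0 < R r := fun r hr => hR r ((le_max_left _ _).trans hr)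
  set c : ℝ := w s₀ / R s₀ with hc
  refine ⟨c, ?_⟩
  -- w = c R for large r
  have hlarge : ∀ r, s₀ ≤ r → w r = c * R r := by
    intro r hr
    have hd : ∀ s ∈ Icc s₀ r, HasDerivAt (fun s => w s / R s) 0 s := by
      intro s hs
      have hs0 : 0 < s := lt_of_lt_of_le hs₀0 hs.1
      have h1 := (h.dw s hs0).div (h'.dw s hs0) (hRs s hs.1).ne'
      have h2 := wronskian_zero h h' hp hq hpr hB hB' hs0
      have h3 : (z s / p s * R s - w s * (y s / p s)) / R s ^ 2 = 0 := by
        have e : z s / p s * R s - w s * (y s / p s) = (z s * R s - w s * y s) / p s := by ring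
        rw [e, h2]
        simp
      rw [h3] at h1
      exact h1
    have hconst := constant_of_has_deriv_right_zero (f := fun s => w s / R s) (a := s₀) (b := r)
      (fun s hs => (hd s hs).continuousAt.continuousWithinAt)
      (fun s hs => (hd s ⟨hs.1, hs.2.le⟩).hasDerivWithinAt) r ⟨hr, le_rfl⟩
    have hRr := hRs r hr
    have hconst' : w r / R r = w s₀ / R s₀ := hconst
    rw [← hc] at hconst'
    rw [← hconst']
    field_simp
  -- the difference
  have hv : Sol p q (fun r => w r - c * R r) (fun r => z r - c * y r) := by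
    constructor
    · intro r hr
      have := (h.dw r hr).sub ((h'.dw r hr).const_mul c)
      refine this.congr_deriv ?_
      ring
    · intro r hr
      have := (h.dz r hr).sub ((h'.dz r hr).const_mul c)
      refine this.congr_deriv ?_
      ring
  have hvB : ∀ r, 0 < r → r ≤ 1 → |w r - c * R r| ≤ B + |c| * B := by
    intro r hr hr1
    calc |w r - c * R r| ≤ |w r| + |c * R r| := abs_sub _ _
      _ = |w r| + |c| * |R r| := by rw [abs_mul]
      _ ≤ B + |c| * B := add_le_add (hB r hr hr1)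
          (mul_le_mul_of_nonneg_left (hB' r hr hr1) (abs_nonneg _))
  have hnn := hv.nonneg hp hq hpr hvB
  have hmono := hv.mono hp hq
  have hzero : ∀ r, 0 < r → (w r - c * R r) * (z r - c * y r) = 0 := by
    intro r hr
    have h1 := hnn r hr
    have h2 := hmono (mem_Ioi.2 hr) (mem_Ioi.2 (lt_of_lt_of_le hs₀0 (le_max_right r s₀)))
      (le_max_left r s₀)
    simp only at h1 h2
    have h3 := hlarge (max r s₀) (le_max_right _ _)
    rw [h3] at h2
    linarith
  intro r hr
  have hd := hv.deriv_prod r hr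
  have hev : (fun r => (w r - c * R r) * (z r - c * y r)) =ᶠ[𝓝 r] fun _ => 0 := by
    filter_upwards [lt_mem_nhds hr] with s hs
    exact hzero s hs
  have hd0 : HasDerivAt (fun r => (w r - c * R r) * (z r - c * y r)) 0 r :=
    (hasDerivAt_const r (0 : ℝ)).congr_of_eventuallyEq hev
  have huniq := hd.unique hd0
  have e1 := hp r hr
  have e2 := hq r hr
  have e3 : 0 ≤ (z r - c * y r) ^ 2 / p r := by positivity
  have e4 : p r * q r * (w r - c * R r) ^ 2 = 0 := by
    have : 0 ≤ p r * q r * (w r - c * R r) ^ 2 := by positivity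
    linarith
  have e5 : (w r - c * R r) ^ 2 = 0 := by
    rcases mul_eq_zero.1 e4 with h | h
    · exact absurd h (by positivity)
    · exact h
  have e6 := pow_eq_zero_iff (two_ne_zero) |>.1 e5
  linarith

end

end Pool.Agent.EU.RepA
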