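import Pool.Agent.EU.Defs
import Pool.Agent.EU.RepA

/-!
Module REP-B: the Fourier coefficients on circles of a solution of
`Y₁₁ + Y₂₂ - 2 lam (q₁ Y₁ + q₂ Y₂) = μ Y` (off the origin) satisfy
`(p w')' = p (μ + k²/r²) w`, `p = r exp(-lam r²)`.
-/

set_option autoImplicit false

open Filter Topology Set Real MeasureTheory intervalIntegral

namespace Pool.Agent.EU.RepB

/-- polar coordinates -/
noncomputable def pol (r b : ℝ) : P := (r * cos b, r * sin b)

lemma pol_ne_zero {r : ℝ} (hr : 0 < r) (b : ℝ) : pol r b ≠ 0 := by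
  intro h
  have h1 : r * cos b = 0 := congrArg Prod.fst h
  have h2 : r * sin b = 0 := congrArg Prod.snd h
  have h3 : cos b = 0 := by
    rcases mul_eq_zero.1 h1 with h | h
    · exact absurd h hr.ne'
    · exact h
  have h4 : sin b = 0 := by
    rcases mul_eq_zero.1 h2 with h | h
    · exact absurd h hr.ne'
    · exact h
  have := sin_sq_add_cos_sq b
  rw [h3, h4] at this
  norm_num at this

lemma continuous_pol : Continuous (fun x : ℝ × ℝ => pol x.1 x.2) := by
  unfold pol
  fun_prop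

lemma continuousOn_comp_pol {g : P → ℝ} (hg : ∀ q, q ≠ 0 → ContinuousAt g q) :
    ContinuousOn (fun x : ℝ × ℝ => g (pol x.1 x.2)) (Ioi 0 ×ˢ univ) := by
  intro x hx
  have h1 : ContinuousAt g (pol x.1 x.2) := hg _ (pol_ne_zero hx.1 _)
  exact (h1.comp (f := fun x : ℝ × ℝ => pol x.1 x.2) continuous_pol.continuousAt).continuousWithinAt

/-- differentiation under the integral sign -/
lemma hasDerivAt_param {F F' : ℝ → ℝ → ℝ} {s : Set ℝ} (hs : IsOpen s)
    (hF : ContinuousOn (fun x : ℝ × ℝ => F x.1 x.2) (s ×ˢ univ))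
    (hF' : ContinuousOn (fun x : ℝ × ℝ => F' x.1 x.2) (s ×ˢ univ))
    (hd : ∀ r ∈ s, ∀ b, HasDerivAt (fun r => F r b) (F' r b) r) {r₀ : ℝ} (hr₀ : r₀ ∈ s)
    (a b : ℝ) :
    HasDerivAt (fun r => ∫ t in a..b, F r t) (∫ t in a..b, F' r₀ t) r₀ := by
  obtain ⟨δ, hδ, hball⟩ := Metric.isOpen_iff.1 hs r₀ hr₀
  have hsub : Metric.closedBall r₀ (δ / 2) ⊆ s :=
    (Metric.closedBall_subset_ball (by linarith)).trans hball
  have hcomp : IsCompact (Metric.closedBall r₀ (δ / 2) ×ˢ uIcc a b) :=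
    (isCompact_closedBall _ _).prod isCompact_uIcc
  have hbd := hcomp.exists_bound_of_continuousOn
    (hF'.mono (prod_mono hsub (subset_univ _)))
  obtain ⟨C, hC⟩ := hbd
  have hsl : ∀ r ∈ s, Continuous (fun t => F r t) := by
    intro r hr
    rw [← continuousOn_univ]
    exact hF.comp (Continuous.continuousOn (by fun_prop : Continuous fun t : ℝ => (r, t)))
      (fun t _ => ⟨hr, mem_univ _⟩)
  have hsl' : ∀ r ∈ s, Continuous (fun t => F' r t) := by
    intro r hr
    rw [← continuousOn_univ]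
    exact hF'.comp (Continuous.continuousOn (by fun_prop : Continuous fun t : ℝ => (r, t)))
      (fun t _ => ⟨hr, mem_univ _⟩)
  have key := intervalIntegral.hasDerivAt_integral_of_dominated_loc_of_deriv_le (𝕜 := ℝ)
    (μ := volume) (F := F) (F' := F') (x₀ := r₀) (a := a) (b := b)
    (s := Metric.ball r₀ (δ / 2)) (bound := fun _ => C) (Metric.ball_mem_nhds _ (by linarith))
    (by
      filter_upwards [hs.mem_nhds hr₀] with r hr
      exact (hsl r hr).aestronglyMeasurable)
    ((hsl r₀ hr₀).intervalIntegrable _ _)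
    ((hsl' r₀ hr₀).aestronglyMeasurable)
    (by
      refine ae_of_all _ fun t ht r hr => ?_
      exact hC (r, t) ⟨Metric.ball_subset_closedBall hr, uIoc_subset_uIcc ht⟩)
    intervalIntegrable_const
    (by
      refine ae_of_all _ fun t _ r hr => ?_
      exact hd r (hsub (Metric.ball_subset_closedBall hr)) t)
  exact key.2

section

variable {f : P → ℝ}

lemma hasDerivAt_pol_r {r b : ℝ} (h : DifferentiableAt ℝ f (pol r b)) :
    HasDerivAt (fun r => f (pol r b)) (cos b * d1 f (pol r b) + sin b * d2 f (pol r b)) r := by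
  have h2 : HasDerivAt (fun s : ℝ => pol s b) (cos b, sin b) r := by
    unfold pol
    have e1 : HasDerivAt (fun s : ℝ => s * cos b) (cos b) r := by
      simpa using (hasDerivAt_id r).mul_const (cos b)
    have e2 : HasDerivAt (fun s : ℝ => s * sin b) (sin b) r := by
      simpa using (hasDerivAt_id r).mul_const (sin b)
    exact e1.prodMk e2
  have h3 := h.hasFDerivAt.comp_hasDerivAt r h2
  rw [fderiv_apply_eq] at h3
  exact h3

lemma hasDerivAt_pol_b {r b : ℝ} (h : DifferentiableAt ℝ f (pol r b)) :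
    HasDerivAt (fun b => f (pol r b))
      (-(r * sin b) * d1 f (pol r b) + r * cos b * d2 f (pol r b)) b := by
  have h2 : HasDerivAt (fun s : ℝ => pol r s) (-(r * sin b), r * cos b) b := by
    unfold pol
    have e1 : HasDerivAt (fun s : ℝ => r * cos s) (-(r * sin b)) b := by
      have := (hasDerivAt_cos b).const_mul r
      refine this.congr_deriv ?_
      ring
    have e2 : HasDerivAt (fun s : ℝ => r * sin s) (r * cos b) b := by
      exact (hasDerivAt_sin b).const_mul r
    exact e1.prodMk e2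
  have h3 := h.hasFDerivAt.comp_hasDerivAt b h2
  rw [fderiv_apply_eq] at h3
  exact h3

end

section main

lemma ccd {f : P → ℝ} (hf : ∀ q, q ≠ 0 → ContDiffAt ℝ 1 f q) :
    (∀ q, q ≠ 0 → ContinuousAt (d1 f) q) ∧ (∀ q, q ≠ 0 → ContinuousAt (d2 f) q) := by
  constructor
  · intro q hq
    have h0 : ContDiffAt ℝ 0 (fderiv ℝ f) q := (hf q hq).fderiv_right (by norm_num)
    have : ContDiffAt ℝ 0 (d1 f) q := h0.clm_apply contDiffAt_const
    exact this.continuousAt
  · intro q hq
    have h0 : ContDiffAt ℝ 0 (fderiv ℝ f) q := (hf q hq).fderiv_right (by norm_num)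
    have : ContDiffAt ℝ 0 (d2 f) q := h0.clm_apply contDiffAt_const
    exact this.continuousAt

variable {Y : P → ℝ} (hY2 : ∀ q, q ≠ 0 → ContDiffAt ℝ 2 Y q)

include hY2

lemma diffY {q : P} (hq : q ≠ 0) : DifferentiableAt ℝ Y q :=
  (hY2 q hq).differentiableAt (by norm_num)

lemma cdfY {q : P} (hq : q ≠ 0) : ContDiffAt ℝ 1 (fderiv ℝ Y) q :=
  (hY2 q hq).fderiv_right (by norm_num)

lemma cd1 {q : P} (hq : q ≠ 0) : ContDiffAt ℝ 1 (d1 Y) q :=
  (cdfY hY2 hq).clm_apply contDiffAt_const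

lemma cd2 {q : P} (hq : q ≠ 0) : ContDiffAt ℝ 1 (d2 Y) q :=
  (cdfY hY2 hq).clm_apply contDiffAt_const

lemma comm12 {q : P} (hq : q ≠ 0) : d1 (d2 Y) q = d2 (d1 Y) q := by
  have hs : IsSymmSndFDerivAt ℝ Y q := (hY2 q hq).isSymmSndFDerivAt (by simp)
  have hd : DifferentiableAt ℝ (fderiv ℝ Y) q := (cdfY hY2 hq).differentiableAt (by norm_num)
  have e1 : d1 (d2 Y) q = fderiv ℝ (fderiv ℝ Y) q (1, 0) (0, 1) := by
    have : HasFDerivAt (fun y => fderiv ℝ Y y (0, 1))
        ((ContinuousLinearMap.apply ℝ ℝ ((0 : ℝ), (1 : ℝ))).comp (fderiv ℝ (fderiv ℝ Y) q)) q :=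
      (ContinuousLinearMap.apply ℝ ℝ ((0 : ℝ), (1 : ℝ))).hasFDerivAt.comp q hd.hasFDerivAt
    show fderiv ℝ (fun y => fderiv ℝ Y y (0, 1)) q (1, 0) = _
    rw [this.fderiv]; rfl
  have e2 : d2 (d1 Y) q = fderiv ℝ (fderiv ℝ Y) q (0, 1) (1, 0) := by
    have : HasFDerivAt (fun y => fderiv ℝ Y y (1, 0))
        ((ContinuousLinearMap.apply ℝ ℝ ((1 : ℝ), (0 : ℝ))).comp (fderiv ℝ (fderiv ℝ Y) q)) q :=
      (ContinuousLinearMap.apply ℝ ℝ ((1 : ℝ), (0 : ℝ))).hasFDerivAt.comp q hd.hasFDerivAt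
    show fderiv ℝ (fun y => fderiv ℝ Y y (1, 0)) q (0, 1) = _
    rw [this.fderiv]; rfl
  rw [e1, e2]
  exact hs _ _

/-- first radial derivative -/
lemma hd_r {r : ℝ} (hr : 0 < r) (b : ℝ) : HasDerivAt (fun r => Y (pol r b))
    (cos b * d1 Y (pol r b) + sin b * d2 Y (pol r b)) r :=
  hasDerivAt_pol_r (diffY hY2 (pol_ne_zero hr b))

lemma hd_rr {r : ℝ} (hr : 0 < r) (b : ℝ) :
    HasDerivAt (fun r => cos b * d1 Y (pol r b) + sin b * d2 Y (pol r b))
      (cos b ^ 2 * d1 (d1 Y) (pol r b) + 2 * (cos b * sin b) * d2 (d1 Y) (pol r b)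
        + sin b ^ 2 * d2 (d2 Y) (pol r b)) r := by
  have hq := pol_ne_zero hr b
  have h1 := (hasDerivAt_pol_r ((cd1 hY2 hq).differentiableAt (by norm_num))).const_mul (cos b)
  have h2 := (hasDerivAt_pol_r ((cd2 hY2 hq).differentiableAt (by norm_num))).const_mul (sin b)
  refine (h1.add h2).congr_deriv ?_
  rw [comm12 hY2 hq]
  ring

lemma hd_b {r : ℝ} (hr : 0 < r) (b : ℝ) : HasDerivAt (fun b => Y (pol r b))
    (-(r * sin b) * d1 Y (pol r b) + r * cos b * d2 Y (pol r b)) b :=
  hasDerivAt_pol_b (diffY hY2 (pol_ne_zero hr b))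

lemma hd_bb {r : ℝ} (hr : 0 < r) (b : ℝ) :
    HasDerivAt (fun b => -(r * sin b) * d1 Y (pol r b) + r * cos b * d2 Y (pol r b))
      (-(r * cos b) * d1 Y (pol r b) - r * sin b * d2 Y (pol r b)
        + r ^ 2 * (sin b ^ 2 * d1 (d1 Y) (pol r b) - 2 * (cos b * sin b) * d2 (d1 Y) (pol r b)
        + cos b ^ 2 * d2 (d2 Y) (pol r b))) b := by
  have hq := pol_ne_zero hr b
  have h1 := hasDerivAt_pol_b ((cd1 hY2 hq).differentiableAt (by norm_num))
  have h2 := hasDerivAt_pol_b ((cd2 hY2 hq).differentiableAt (by norm_num))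
  have h3 : HasDerivAt (fun b => -(r * sin b)) (-(r * cos b)) b :=
    ((hasDerivAt_sin b).const_mul r).neg
  have h4 : HasDerivAt (fun b => r * cos b) (r * -sin b) b := (hasDerivAt_cos b).const_mul r
  refine ((h3.mul h1).add (h4.mul h2)).congr_deriv ?_
  rw [comm12 hY2 hq]
  ring

/-- angular integration by parts -/
lemma int_bb {r : ℝ} (hr : 0 < r) {κ : ℝ} {φ φ' : ℝ → ℝ} (hφ : ∀ b, HasDerivAt φ (φ' b) b)
    (hφ' : ∀ b, HasDerivAt φ' (-(κ ^ 2 * φ b)) b)
    (hp : φ π = φ (-π)) (hp' : φ' π = φ' (-π)) :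
    ∫ b in (-π)..π, ((-(r * cos b) * d1 Y (pol r b) - r * sin b * d2 Y (pol r b)
        + r ^ 2 * (sin b ^ 2 * d1 (d1 Y) (pol r b) - 2 * (cos b * sin b) * d2 (d1 Y) (pol r b)
        + cos b ^ 2 * d2 (d2 Y) (pol r b))) * φ b + κ ^ 2 * (Y (pol r b) * φ b)) = 0 := by
  have hφc : Continuous φ := continuous_iff_continuousAt.2 fun b => (hφ b).continuousAt
  have hφc' : Continuous φ' := continuous_iff_continuousAt.2 fun b => (hφ' b).continuousAt
  have hY0 : ∀ q, q ≠ 0 → ContinuousAt Y q := fun q hq => (hY2 q hq).continuousAt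
  obtain ⟨c11, c21⟩ := ccd (fun q hq => cd1 hY2 hq)
  obtain ⟨-, c22⟩ := ccd (fun q hq => cd2 hY2 hq)
  have c1 : ∀ q, q ≠ 0 → ContinuousAt (d1 Y) q := fun q hq => (cd1 hY2 hq).continuousAt
  have c2 : ∀ q, q ≠ 0 → ContinuousAt (d2 Y) q := fun q hq => (cd2 hY2 hq).continuousAt
  have hsl : ∀ {g : P → ℝ}, (∀ q, q ≠ 0 → ContinuousAt g q) → Continuous (fun t => g (pol r t)) := by
    intro g hg
    rw [← continuousOn_univ]
    exact (continuousOn_comp_pol hg).comp
      (Continuous.continuousOn (by fun_prop : Continuous fun t : ℝ => (r, t)))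
      (fun t _ => ⟨hr, mem_univ _⟩)
  have k0 := hsl hY0
  have k1 := hsl c1
  have k2 := hsl c2
  have k11 := hsl c11
  have k21 := hsl c21
  have k22 := hsl c22
  have hd : ∀ b : ℝ, HasDerivAt (fun b => (-(r * sin b) * d1 Y (pol r b) + r * cos b * d2 Y (pol r b)) * φ b
      - Y (pol r b) * φ' b)
      ((-(r * cos b) * d1 Y (pol r b) - r * sin b * d2 Y (pol r b)
        + r ^ 2 * (sin b ^ 2 * d1 (d1 Y) (pol r b) - 2 * (cos b * sin b) * d2 (d1 Y) (pol r b)
        + cos b ^ 2 * d2 (d2 Y) (pol r b))) * φ b + κ ^ 2 * (Y (pol r b) * φ b)) b := by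
    intro b
    have h1 := (hd_bb hY2 hr b).mul (hφ b)
    have h2 := (hd_b hY2 hr b).mul (hφ' b)
    refine (h1.sub h2).congr_deriv ?_
    ring
  rw [integral_eq_sub_of_hasDerivAt (fun b _ => hd b)]
  · have e : pol r (-π) = pol r π := by
      unfold pol
      simp
    rw [e, hp, hp']
    simp
  · apply Continuous.intervalIntegrable
    exact (((((((continuous_const.mul continuous_cos).neg.mul k1).sub
      ((continuous_const.mul continuous_sin).mul k2)).add (continuous_const.mul
      ((((continuous_sin.pow 2).mul k11).sub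
      ((continuous_const.mul (continuous_cos.mul continuous_sin)).mul k21)).add
      ((continuous_cos.pow 2).mul k22)))).mul hφc)).add (continuous_const.mul (k0.mul hφc)))

end main

theorem fourier_sol {lam μ : ℝ} {Y : P → ℝ} (hY2 : ∀ q, q ≠ 0 → ContDiffAt ℝ 2 Y q)
    (hY : ∀ q : P, q ≠ 0 →
      d1 (d1 Y) q + d2 (d2 Y) q - 2 * lam * (q.1 * d1 Y q + q.2 * d2 Y q) = μ * Y q)
    {κ : ℝ} {φ φ' : ℝ → ℝ} (hφ : ∀ b, HasDerivAt φ (φ' b) b)
    (hφ' : ∀ b, HasDerivAt φ' (-(κ ^ 2 * φ b)) b)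
    (hp : φ π = φ (-π)) (hp' : φ' π = φ' (-π)) :
    RepA.Sol (fun r => r * exp (-(lam * r ^ 2))) (fun r => μ + κ ^ 2 / r ^ 2)
      (fun r => ∫ b in (-π)..π, Y (pol r b) * φ b)
      (fun r => r * exp (-(lam * r ^ 2)) *
        ∫ b in (-π)..π, (cos b * d1 Y (pol r b) + sin b * d2 Y (pol r b)) * φ b) := by
  have hφc : Continuous φ := continuous_iff_continuousAt.2 fun b => (hφ b).continuousAt
  have hY0 : ∀ q, q ≠ 0 → ContinuousAt Y q := fun q hq => (hY2 q hq).continuousAt
  obtain ⟨c11, c21⟩ := ccd (fun q hq => cd1 hY2 hq)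
  obtain ⟨-, c22⟩ := ccd (fun q hq => cd2 hY2 hq)
  have c1 : ∀ q, q ≠ 0 → ContinuousAt (d1 Y) q := fun q hq => (cd1 hY2 hq).continuousAt
  have c2 : ∀ q, q ≠ 0 → ContinuousAt (d2 Y) q := fun q hq => (cd2 hY2 hq).continuousAt
  have K0 := continuousOn_comp_pol hY0
  have K1 := continuousOn_comp_pol c1
  have K2 := continuousOn_comp_pol c2
  have K11 := continuousOn_comp_pol c11
  have K21 := continuousOn_comp_pol c21
  have K22 := continuousOn_comp_pol c22
  have hcos : ContinuousOn (fun x : ℝ × ℝ => cos x.2) (Ioi 0 ×ˢ univ) := by fun_prop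
  have hsin : ContinuousOn (fun x : ℝ × ℝ => sin x.2) (Ioi 0 ×ˢ univ) := by fun_prop
  have hph : ContinuousOn (fun x : ℝ × ℝ => φ x.2) (Ioi 0 ×ˢ univ) :=
    (hφc.comp continuous_snd).continuousOn
  have hsl : ∀ {g : P → ℝ}, (∀ q, q ≠ 0 → ContinuousAt g q) → ∀ r, 0 < r →
      Continuous (fun t => g (pol r t)) := by
    intro g hg r hr
    rw [← continuousOn_univ]
    exact (continuousOn_comp_pol hg).comp
      (Continuous.continuousOn (by fun_prop : Continuous fun t : ℝ => (r, t)))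
      (fun t _ => ⟨hr, mem_univ _⟩)
  -- first derivative
  have D1 : ∀ r, 0 < r → HasDerivAt (fun r => ∫ b in (-π)..π, Y (pol r b) * φ b)
      (∫ b in (-π)..π, (cos b * d1 Y (pol r b) + sin b * d2 Y (pol r b)) * φ b) r := by
    intro r hr
    refine hasDerivAt_param (F := fun r b => Y (pol r b) * φ b)
      (F' := fun r b => (cos b * d1 Y (pol r b) + sin b * d2 Y (pol r b)) * φ b) isOpen_Ioi
      (K0.mul hph) (((hcos.mul K1).add (hsin.mul K2)).mul hph) ?_ hr _ _
    intro r hr b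
    exact (hd_r hY2 hr b).mul_const (φ b)
  have D2 : ∀ r, 0 < r → HasDerivAt
      (fun r => ∫ b in (-π)..π, (cos b * d1 Y (pol r b) + sin b * d2 Y (pol r b)) * φ b)
      (∫ b in (-π)..π, (cos b ^ 2 * d1 (d1 Y) (pol r b) + 2 * (cos b * sin b) * d2 (d1 Y) (pol r b)
        + sin b ^ 2 * d2 (d2 Y) (pol r b)) * φ b) r := by
    intro r hr
    refine hasDerivAt_param
      (F := fun r b => (cos b * d1 Y (pol r b) + sin b * d2 Y (pol r b)) * φ b)
      (F' := fun r b => (cos b ^ 2 * d1 (d1 Y) (pol r b) + 2 * (cos b * sin b) * d2 (d1 Y) (pol r b)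
        + sin b ^ 2 * d2 (d2 Y) (pol r b)) * φ b) isOpen_Ioi
      (((hcos.mul K1).add (hsin.mul K2)).mul hph)
      ((((hcos.pow 2).mul K11).add ((continuousOn_const.mul (hcos.mul hsin)).mul K21)
        |>.add ((hsin.pow 2).mul K22)).mul hph) ?_ hr _ _
    intro r hr b
    exact (hd_rr hY2 hr b).mul_const (φ b)
  constructor
  · intro r hr
    have hpos : 0 < r * exp (-(lam * r ^ 2)) := mul_pos hr (exp_pos _)
    refine (D1 r hr).congr_deriv ?_
    rw [mul_div_cancel_left₀ _ hpos.ne']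
  · intro r hr
    have hp0 : HasDerivAt (fun r : ℝ => r * exp (-(lam * r ^ 2)))
        ((1 / r - 2 * lam * r) * (r * exp (-(lam * r ^ 2)))) r := by
      have h1 : HasDerivAt (fun r : ℝ => -(lam * r ^ 2)) (-(lam * (2 * r))) r := by
        have := ((hasDerivAt_pow 2 r).const_mul lam).neg
        refine this.congr_deriv ?_
        push_cast
        ring
      have h2 := (hasDerivAt_id r).mul h1.exp
      refine h2.congr_deriv ?_
      simp only [id]
      field_simp
      ring
    refine (hp0.mul (D2 r hr)).congr_deriv ?_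
    have I0 := int_bb hY2 hr hφ hφ' hp hp'
    have k0 := hsl hY0 r hr
    have k1 := hsl c1 r hr
    have k2 := hsl c2 r hr
    have k11 := hsl c11 r hr
    have k21 := hsl c21 r hr
    have k22 := hsl c22 r hr
    have hint1 : IntervalIntegrable (fun b => Y (pol r b) * φ b) volume (-π) π := by
      apply Continuous.intervalIntegrable
      exact k0.mul hφc
    have hint2 : IntervalIntegrable
        (fun b => (cos b * d1 Y (pol r b) + sin b * d2 Y (pol r b)) * φ b) volume (-π) π := by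
      apply Continuous.intervalIntegrable
      fun_prop
    have hint3 : IntervalIntegrable (fun b => ((-(r * cos b) * d1 Y (pol r b) - r * sin b * d2 Y (pol r b)
        + r ^ 2 * (sin b ^ 2 * d1 (d1 Y) (pol r b) - 2 * (cos b * sin b) * d2 (d1 Y) (pol r b)
        + cos b ^ 2 * d2 (d2 Y) (pol r b))) * φ b + κ ^ 2 * (Y (pol r b) * φ b))) volume (-π) π := by
      apply Continuous.intervalIntegrable
      exact (((((((continuous_const.mul continuous_cos).neg.mul k1).sub
      ((continuous_const.mul continuous_sin).mul k2)).add (continuous_const.mul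
      ((((continuous_sin.pow 2).mul k11).sub
      ((continuous_const.mul (continuous_cos.mul continuous_sin)).mul k21)).add
      ((continuous_cos.pow 2).mul k22)))).mul hφc)).add (continuous_const.mul (k0.mul hφc)))
    have e1 : (∫ b in (-π)..π, (cos b ^ 2 * d1 (d1 Y) (pol r b)
        + 2 * (cos b * sin b) * d2 (d1 Y) (pol r b) + sin b ^ 2 * d2 (d2 Y) (pol r b)) * φ b)
        = (μ + κ ^ 2 / r ^ 2) * (∫ b in (-π)..π, Y (pol r b) * φ b)
          - (1 / r - 2 * lam * r) *
            (∫ b in (-π)..π, (cos b * d1 Y (pol r b) + sin b * d2 Y (pol r b)) * φ b)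
          - (1 / r ^ 2) * 0 := by
      rw [← I0, ← intervalIntegral.integral_const_mul, ← intervalIntegral.integral_const_mul,
        ← intervalIntegral.integral_const_mul, ← intervalIntegral.integral_sub,
        ← intervalIntegral.integral_sub]
      · apply intervalIntegral.integral_congr
        intro b _
        have hq := pol_ne_zero hr b
        have hpde := hY _ hq
        have hc := sin_sq_add_cos_sq b
        have hq1 : (pol r b).1 = r * cos b := rfl
        have hq2 : (pol r b).2 = r * sin b := rfl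
        rw [hq1, hq2] at hpde
        simp only
        generalize d1 (d1 Y) (pol r b) = a11 at *
        generalize d2 (d1 Y) (pol r b) = a12 at *
        generalize d2 (d2 Y) (pol r b) = a22 at *
        generalize d1 Y (pol r b) = a1 at *
        generalize d2 Y (pol r b) = a2 at *
        generalize Y (pol r b) = a0 at *
        have hs2 : sin b ^ 2 = 1 - cos b ^ 2 := by linarith
        have e2 : μ * a0 = a11 + a22 - 2 * lam * (r * cos b * a1 + r * sin b * a2) := hpde.symm
        have e3 : (μ + κ ^ 2 / r ^ 2) * (a0 * φ b)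
            - (1 / r - 2 * lam * r) * ((cos b * a1 + sin b * a2) * φ b)
            - 1 / r ^ 2 * ((-(r * cos b) * a1 - r * sin b * a2
              + r ^ 2 * (sin b ^ 2 * a11 - 2 * (cos b * sin b) * a12 + cos b ^ 2 * a22)) * φ b
              + κ ^ 2 * (a0 * φ b))
            = (μ * a0) * φ b + 2 * lam * r * ((cos b * a1 + sin b * a2) * φ b)
              - (sin b ^ 2 * a11 - 2 * (cos b * sin b) * a12 + cos b ^ 2 * a22) * φ b := by
          field_simp
          ring
        rw [e3, e2, hs2]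
        ring
      · exact (hint1.const_mul _).sub (hint2.const_mul _)
      · exact hint3.const_mul _
      · exact hint1.const_mul _
      · exact hint2.const_mul _
    rw [e1]
    ring

end Pool.Agent.EU.RepB
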