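import Mathlib

/-!
Module REP-M: measure theoretic part of the representation theorem: weak limits with prescribed
trigonometric moments, uniqueness by Fourier coefficients, Fubini for the moments.
-/

set_option autoImplicit false

open Filter Topology Set Real MeasureTheory intervalIntegral
open scoped NNReal BoundedContinuousFunction

namespace Pool.Agent.EU.RepM

/-- a bounded continuous function from a bounded continuous real function -/
lemma bcf_exists {f : ℝ → ℝ} (hf : Continuous f) {B : ℝ} (hB : ∀ x, |f x| ≤ B) :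
    ∃ g : ℝ →ᵇ ℝ, ∀ x, g x = f x :=
  ⟨BoundedContinuousFunction.ofNormedAddCommGroup f hf B (by simpa using hB), fun _ => rfl⟩

theorem moments_of_limit {C : ℝ} {μ : ℕ → Measure ℝ} (hfin : ∀ n, IsFiniteMeasure (μ n))
    (hsupp : ∀ n, μ n (Icc (-π) π)ᶜ = 0) (hmass : ∀ n, (μ n).real univ ≤ C)
    {a b : ℕ → ℝ} (ha : ∀ k : ℕ, Tendsto (fun n => ∫ ν, cos (k * ν) ∂(μ n)) atTop (𝓝 (a k)))
    (hb : ∀ k : ℕ, Tendsto (fun n => ∫ ν, sin (k * ν) ∂(μ n)) atTop (𝓝 (b k))) :
    ∃ M : Measure ℝ, IsFiniteMeasure M ∧ M (Icc (-π) π)ᶜ = 0 ∧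
      (∀ k : ℕ, ∫ ν, cos (k * ν) ∂M = a k) ∧ (∀ k : ℕ, ∫ ν, sin (k * ν) ∂M = b k) := by
  have hC : 0 ≤ C := le_trans measureReal_nonneg (hmass 0)
  set T : Set (FiniteMeasure ℝ) := {m | m.mass ≤ C.toNNReal ∧ m (Icc (-π) π)ᶜ = 0} with hT
  have hTc : IsCompact T :=
    isCompact_setOfPred_finiteMeasure_le_of_isCompact C.toNNReal isCompact_Icc
  set m : ℕ → FiniteMeasure ℝ := fun n => ⟨μ n, hfin n⟩ with hm
  have hmem : ∀ n, m n ∈ T := by
    intro n
    refine ⟨?_, ?_⟩
    · rw [← NNReal.coe_le_coe, Real.coe_toNNReal C hC]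
      exact hmass n
    · rw [FiniteMeasure.null_iff_toMeasure_null]
      exact hsupp n
  let U : Ultrafilter ℕ := Filter.hyperfilter ℕ
  have hU : (U : Filter ℕ) ≤ atTop := by
    have := Filter.hyperfilter_le_cofinite (α := ℕ)
    rwa [Nat.cofinite_eq_atTop] at this
  obtain ⟨M, hM, hlim⟩ := isCompact_iff_ultrafilter_le_nhds.1 hTc (U.map m)
    (by
      rw [Ultrafilter.coe_map, le_principal_iff, mem_map]
      exact Filter.univ_mem' hmem)
  have hlim' : Tendsto m (U : Filter ℕ) (𝓝 M) := hlim
  rw [FiniteMeasure.tendsto_iff_forall_integral_tendsto] at hlim'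
  refine ⟨(M : Measure ℝ), inferInstance, ?_, ?_, ?_⟩
  · exact (FiniteMeasure.null_iff_toMeasure_null _ _).1 hM.2
  · intro k
    obtain ⟨g, hg⟩ := bcf_exists (f := fun x => cos (k * x)) (by fun_prop) (B := 1)
      (fun x => abs_cos_le_one _)
    have h1 := hlim' g
    simp only [hg] at h1
    exact tendsto_nhds_unique h1 ((ha k).mono_left hU)
  · intro k
    obtain ⟨g, hg⟩ := bcf_exists (f := fun x => sin (k * x)) (by fun_prop) (B := 1)
      (fun x => abs_sin_le_one _)
    have h1 := hlim' g
    simp only [hg] at h1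
    exact tendsto_nhds_unique h1 ((hb k).mono_left hU)

/-- A continuous `2π`-periodic function with vanishing Fourier coefficients is zero. -/
theorem eq_zero_of_coeffs {f : ℝ → ℝ} (hf : Continuous f) (hp : Function.Periodic f (2 * π))
    (hc : ∀ k : ℕ, ∫ x in (-π)..π, f x * cos (k * x) = 0)
    (hs : ∀ k : ℕ, ∫ x in (-π)..π, f x * sin (k * x) = 0) : ∀ x, f x = 0 := by
  have : Fact (0 < 2 * π) := ⟨by positivity⟩
  set F : C(AddCircle (2 * π), ℂ) :=
    ⟨fun z => ((hp.lift z : ℝ) : ℂ), by
      refine Complex.continuous_ofReal.comp ?_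
      exact continuous_coinduced_dom.2 hf⟩ with hF
  have hFx : ∀ x : ℝ, F (x : AddCircle (2 * π)) = (f x : ℂ) := fun x => rfl
  have hint : ∀ n : ℤ, ∫ x in (-π)..π, ((f x * cos (n * x) : ℝ) : ℂ) = 0 := by
    intro n
    rw [intervalIntegral.integral_ofReal]
    rcases Int.eq_nat_or_neg n with ⟨k, rfl | rfl⟩
    · simpa using hc k
    · simpa using hc k
  have hint' : ∀ n : ℤ, ∫ x in (-π)..π, ((f x * sin (n * x) : ℝ) : ℂ) = 0 := by
    intro n
    rw [intervalIntegral.integral_ofReal]
    rcases Int.eq_nat_or_neg n with ⟨k, rfl | rfl⟩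
    · simpa using hs k
    · simpa using hs k
  have hcoef : ∀ n : ℤ, fourierCoeff F n = 0 := by
    intro n
    rw [fourierCoeff_eq_intervalIntegral F n (-π)]
    have e1 : -π + 2 * π = π := by ring
    rw [e1]
    have e2 : ∀ x : ℝ, (fourier (-n) (x : AddCircle (2 * π)) : ℂ) • F (x : AddCircle (2 * π)) =
        ((f x * cos (n * x) : ℝ) : ℂ) - Complex.I * ((f x * sin (n * x) : ℝ) : ℂ) := by
      intro x
      rw [fourier_coe_apply, hFx]
      have e3 : (2 * π * Complex.I * ((-n : ℤ) : ℂ) * x / ((2 * π : ℝ) : ℂ) : ℂ) =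
          ((-(n * x) : ℝ) : ℂ) * Complex.I := by
        have hpi : (π : ℂ) ≠ 0 := by exact_mod_cast pi_ne_zero
        push_cast
        field_simp
      rw [e3, Complex.exp_mul_I, ← Complex.ofReal_cos, ← Complex.ofReal_sin, Real.cos_neg,
        Real.sin_neg]
      push_cast
      rw [smul_eq_mul]
      ring
    have e4 : (∫ x in (-π)..π, (fourier (-n) (x : AddCircle (2 * π)) : ℂ) •
        F (x : AddCircle (2 * π))) = 0 := by
      calc _ = ∫ x in (-π)..π, (((f x * cos (n * x) : ℝ) : ℂ) -
            Complex.I * ((f x * sin (n * x) : ℝ) : ℂ)) := by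
            refine intervalIntegral.integral_congr fun x _ => e2 x
        _ = (∫ x in (-π)..π, ((f x * cos (n * x) : ℝ) : ℂ)) -
            ∫ x in (-π)..π, Complex.I * ((f x * sin (n * x) : ℝ) : ℂ) := by
            refine intervalIntegral.integral_sub ?_ ?_
            · exact Continuous.intervalIntegrable (by fun_prop) _ _
            · exact Continuous.intervalIntegrable (by fun_prop) _ _
        _ = 0 := by
            rw [intervalIntegral.integral_const_mul, hint, hint']
            simp
    rw [e4, smul_zero]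
  have hsum : Summable (fourierCoeff F) := by
    have : fourierCoeff F = fun _ => (0 : ℂ) := funext hcoef
    rw [this]
    exact summable_zero
  have h1 := hasSum_fourier_series_of_summable hsum
  have h2 : F = 0 := by
    refine h1.unique ?_
    have : (fun i : ℤ => fourierCoeff F i • (fourier i : C(AddCircle (2 * π), ℂ))) =
        fun _ => 0 := by
      funext i
      rw [hcoef, zero_smul]
    rw [this]
    exact hasSum_zero
  intro x
  have h3 : F (x : AddCircle (2 * π)) = 0 := by rw [h2]; rfl
  rw [hFx] at h3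
  exact_mod_cast h3

/-- Continuous `2π`-periodic functions with the same Fourier coefficients are equal. -/
theorem eq_of_coeffs {f g : ℝ → ℝ} (hf : Continuous f) (hg : Continuous g)
    (hfp : Function.Periodic f (2 * π)) (hgp : Function.Periodic g (2 * π))
    (hc : ∀ k : ℕ, ∫ x in (-π)..π, f x * cos (k * x) = ∫ x in (-π)..π, g x * cos (k * x))
    (hs : ∀ k : ℕ, ∫ x in (-π)..π, f x * sin (k * x) = ∫ x in (-π)..π, g x * sin (k * x)) :
    f = g := by
  funext x
  have := eq_zero_of_coeffs (f := fun x => f x - g x) (hf.sub hg)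
    (fun x => by simp only; rw [hfp x, hgp x]) ?_ ?_ x
  · linarith
  · intro k
    have : (fun x => (f x - g x) * cos (k * x)) =
        fun x => f x * cos (k * x) - g x * cos (k * x) := by funext x; ring
    rw [this, intervalIntegral.integral_sub, hc k, sub_self]
    · exact Continuous.intervalIntegrable (by fun_prop) _ _
    · exact Continuous.intervalIntegrable (by fun_prop) _ _
  · intro k
    have : (fun x => (f x - g x) * sin (k * x)) =
        fun x => f x * sin (k * x) - g x * sin (k * x) := by funext x; ring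
    rw [this, intervalIntegral.integral_sub, hs k, sub_self]
    · exact Continuous.intervalIntegrable (by fun_prop) _ _
    · exact Continuous.intervalIntegrable (by fun_prop) _ _

/-! ### Fubini -/

/-- swapping an interval integral of a bounded continuous kernel with a finite measure -/
lemma swap {M : Measure ℝ} [IsFiniteMeasure M] {K : ℝ → ℝ → ℝ}
    (hK : Continuous (fun x : ℝ × ℝ => K x.1 x.2)) {B : ℝ} (hB : ∀ b ν, |K b ν| ≤ B) :
    ∫ b in (-π)..π, (∫ ν, K b ν ∂M) = ∫ ν, (∫ b in (-π)..π, K b ν) ∂M := by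
  have hle : (-π : ℝ) ≤ π := by linarith [pi_pos]
  rw [intervalIntegral.integral_of_le hle]
  simp only [intervalIntegral.integral_of_le hle]
  refine MeasureTheory.integral_integral_swap ?_
  refine ⟨hK.aestronglyMeasurable, ?_⟩
  refine MeasureTheory.HasFiniteIntegral.of_bounded (C := B) ?_
  exact Filter.Eventually.of_forall fun x => hB x.1 x.2

/-- the integral over a period of an odd integrand vanishes -/
lemma odd_zero (Θ : ℝ → ℝ) (r : ℝ) (k : ℕ) :
    ∫ b in (-π)..π, Θ (r * cos b) * sin (k * b) = 0 := by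
  have h1 : ∫ b in (-π)..π, Θ (r * cos (-b)) * sin (k * (-b)) =
      ∫ b in (-π)..π, Θ (r * cos b) * sin (k * b) := by
    have := intervalIntegral.integral_comp_neg (a := -π) (b := π)
      (fun b => Θ (r * cos b) * sin (k * b))
    simpa using this
  have h2 : ∫ b in (-π)..π, Θ (r * cos (-b)) * sin (k * (-b)) =
      -∫ b in (-π)..π, Θ (r * cos b) * sin (k * b) := by
    rw [← intervalIntegral.integral_neg]
    refine intervalIntegral.integral_congr fun b _ => ?_
    show Θ (r * cos (-b)) * sin (k * (-b)) = -(Θ (r * cos b) * sin (k * b))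
    rw [cos_neg, mul_neg, sin_neg]
    ring
  linarith

lemma shift {Θ : ℝ → ℝ} (r : ℝ) (ν : ℝ) (φ : ℝ → ℝ)
    (hφ : Function.Periodic φ (2 * π)) :
    ∫ b in (-π)..π, Θ (r * cos (b - ν)) * φ b =
      ∫ b in (-π)..π, Θ (r * cos b) * φ (b + ν) := by
  have hper : Function.Periodic (fun b => Θ (r * cos b) * φ (b + ν)) (2 * π) := by
    intro b
    simp only
    rw [cos_add_two_pi, show b + 2 * π + ν = b + ν + 2 * π by ring, hφ]
  have h1 : ∫ b in (-π)..π, Θ (r * cos (b - ν)) * φ b =
      ∫ b in (-π)..π, (fun b => Θ (r * cos b) * φ (b + ν)) (b - ν) := by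
    refine intervalIntegral.integral_congr fun b _ => ?_
    show _ = Θ (r * cos (b - ν)) * φ (b - ν + ν)
    rw [sub_add_cancel]
  rw [h1, intervalIntegral.integral_comp_sub_right (fun b => Θ (r * cos b) * φ (b + ν)) ν]
  have h2 := hper.intervalIntegral_add_eq (-π - ν) (-π)
  rw [show -π - ν + 2 * π = π - ν by ring, show -π + 2 * π = π by ring] at h2
  exact h2

theorem fubini_cos {M : Measure ℝ} [IsFiniteMeasure M] {Θ : ℝ → ℝ} (hΘ : Continuous Θ)
    (r : ℝ) (k : ℕ) :
    ∫ b in (-π)..π, (∫ ν, Θ (r * cos (b - ν)) ∂M) * cos (k * b) =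
      (∫ b in (-π)..π, Θ (r * cos b) * cos (k * b)) * ∫ ν, cos (k * ν) ∂M := by
  obtain ⟨B, hB⟩ := (isCompact_Icc (a := -|r|) (b := |r|)).exists_bound_of_continuousOn
    hΘ.continuousOn
  have hB' : ∀ t, |Θ (r * cos t)| ≤ B := by
    intro t
    refine hB _ ?_
    rw [mem_Icc, ← abs_le, abs_mul]
    calc |r| * |cos t| ≤ |r| * 1 := by gcongr; exact abs_cos_le_one t
      _ = |r| := mul_one _
  have h1 : ∀ b, (∫ ν, Θ (r * cos (b - ν)) ∂M) * cos (k * b) =
      ∫ ν, Θ (r * cos (b - ν)) * cos (k * b) ∂M := fun b => (MeasureTheory.integral_mul_const _ _).symm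
  simp only [h1]
  rw [swap (K := fun b ν => Θ (r * cos (b - ν)) * cos (k * b)) (by fun_prop) (B := B)]
  · have h2 : ∀ ν, ∫ b in (-π)..π, Θ (r * cos (b - ν)) * cos (k * b) =
        (∫ b in (-π)..π, Θ (r * cos b) * cos (k * b)) * cos (k * ν) := by
      intro ν
      rw [shift (Θ := Θ) r ν (fun b => cos (k * b))]
      · have h3 : ∀ b, Θ (r * cos b) * cos (k * (b + ν)) =
            Θ (r * cos b) * cos (k * b) * cos (k * ν) -
              Θ (r * cos b) * sin (k * b) * sin (k * ν) := by
          intro b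
          rw [mul_add, cos_add]
          ring
        simp only [h3]
        rw [intervalIntegral.integral_sub, intervalIntegral.integral_mul_const,
          intervalIntegral.integral_mul_const, odd_zero]
        · ring
        · exact Continuous.intervalIntegrable (by fun_prop) _ _
        · exact Continuous.intervalIntegrable (by fun_prop) _ _
      · intro b
        simp only
        rw [mul_add, show (k : ℝ) * (2 * π) = k * (2 * π) from rfl, cos_add_nat_mul_two_pi]
    simp only [h2]
    exact MeasureTheory.integral_const_mul _ _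
  · intro b ν
    rw [abs_mul]
    calc |Θ (r * cos (b - ν))| * |cos (k * b)| ≤ B * 1 :=
        mul_le_mul (hB' _) (abs_cos_le_one _) (abs_nonneg _)
          ((abs_nonneg _).trans (hB' 0))
      _ = B := mul_one _

theorem fubini_sin {M : Measure ℝ} [IsFiniteMeasure M] {Θ : ℝ → ℝ} (hΘ : Continuous Θ)
    (r : ℝ) (k : ℕ) :
    ∫ b in (-π)..π, (∫ ν, Θ (r * cos (b - ν)) ∂M) * sin (k * b) =
      (∫ b in (-π)..π, Θ (r * cos b) * cos (k * b)) * ∫ ν, sin (k * ν) ∂M := by
  obtain ⟨B, hB⟩ := (isCompact_Icc (a := -|r|) (b := |r|)).exists_bound_of_continuousOn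
    hΘ.continuousOn
  have hB' : ∀ t, |Θ (r * cos t)| ≤ B := by
    intro t
    refine hB _ ?_
    rw [mem_Icc, ← abs_le, abs_mul]
    calc |r| * |cos t| ≤ |r| * 1 := by gcongr; exact abs_cos_le_one t
      _ = |r| := mul_one _
  have h1 : ∀ b, (∫ ν, Θ (r * cos (b - ν)) ∂M) * sin (k * b) =
      ∫ ν, Θ (r * cos (b - ν)) * sin (k * b) ∂M := fun b => (MeasureTheory.integral_mul_const _ _).symm
  simp only [h1]
  rw [swap (K := fun b ν => Θ (r * cos (b - ν)) * sin (k * b)) (by fun_prop) (B := B)]
  · have h2 : ∀ ν, ∫ b in (-π)..π, Θ (r * cos (b - ν)) * sin (k * b) =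
        (∫ b in (-π)..π, Θ (r * cos b) * cos (k * b)) * sin (k * ν) := by
      intro ν
      rw [shift (Θ := Θ) r ν (fun b => sin (k * b))]
      · have h3 : ∀ b, Θ (r * cos b) * sin (k * (b + ν)) =
            Θ (r * cos b) * sin (k * b) * cos (k * ν) +
              Θ (r * cos b) * cos (k * b) * sin (k * ν) := by
          intro b
          rw [mul_add, sin_add]
          ring
        simp only [h3]
        rw [intervalIntegral.integral_add, intervalIntegral.integral_mul_const,
          intervalIntegral.integral_mul_const, odd_zero]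
        · ring
        · exact Continuous.intervalIntegrable (by fun_prop) _ _
        · exact Continuous.intervalIntegrable (by fun_prop) _ _
      · intro b
        simp only
        rw [mul_add, sin_add_nat_mul_two_pi]
    simp only [h2]
    exact MeasureTheory.integral_const_mul _ _
  · intro b ν
    rw [abs_mul]
    calc |Θ (r * cos (b - ν))| * |sin (k * b)| ≤ B * 1 :=
        mul_le_mul (hB' _) (abs_sin_le_one _) (abs_nonneg _)
          ((abs_nonneg _).trans (hB' 0))
      _ = B := mul_one _

end Pool.Agent.EU.RepM
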