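import Pool.Agent.EU.T
import Pool.Agent.EU.Area

set_option autoImplicit false
open scoped ContDiff Topology ENNReal
open Real Set MeasureTheory Filter

namespace Pool.Agent.EU.S2

open Pool.Agent.EU

/-! ### The linear maps `y ↦ m (y₁ + i E y₂)` -/

/-- The real linear map `y ↦ m (y₁ + i E y₂)`. -/
noncomputable def lin (m : ℂ) (E : ℝ) : P →L[ℝ] ℂ :=
  (ContinuousLinearMap.fst ℝ ℝ ℝ).smulRight m +
    (ContinuousLinearMap.snd ℝ ℝ ℝ).smulRight (m * (Complex.I * E))

theorem lin_apply (m : ℂ) (E : ℝ) (y : P) : lin m E y = m * (y.1 + Complex.I * E * y.2) := by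
  simp only [lin, add_apply, ContinuousLinearMap.smulRight_apply,
    ContinuousLinearMap.coe_fst', ContinuousLinearMap.coe_snd', Complex.real_smul]
  ring

theorem lin_smul (m n : ℂ) (E : ℝ) : lin (m * n) E = m • lin n E := by
  refine ContinuousLinearMap.ext fun y => ?_
  simp [lin_apply, mul_assoc]

theorem continuous_lin {m : P → ℂ} {E : P → ℝ} (hm : Continuous m) (hE : Continuous E) :
    Continuous (fun x => lin (m x) (E x)) := by
  unfold lin
  refine Continuous.add ?_ ?_
  · exact ((ContinuousLinearMap.smulRightL ℝ P ℂ (ContinuousLinearMap.fst ℝ ℝ ℝ)).continuous).comp hm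
  · exact ((ContinuousLinearMap.smulRightL ℝ P ℂ (ContinuousLinearMap.snd ℝ ℝ ℝ)).continuous).comp
      (hm.mul (continuous_const.mul (Complex.continuous_ofReal.comp hE)))

theorem lin_inj {m : ℂ} {E : ℝ} (hm : m ≠ 0) (hE : E ≠ 0) {y : P} (h : lin m E y = 0) : y = 0 := by
  rw [lin_apply] at h
  have h1 := (mul_eq_zero.1 h).resolve_left hm
  have hre := congrArg Complex.re h1
  have him := congrArg Complex.im h1
  simp at hre him
  ext
  · exact hre
  · exact him.resolve_left hE

/-- lower bound for `|y₁ + i E y₂|`. -/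
theorem le_norm_lin_one {E : ℝ} (hE : 0 < E) (y : P) : min 1 E * ‖y‖ ≤ ‖lin 1 E y‖ := by
  rw [lin_apply, one_mul]
  have h1 : |y.1| ≤ ‖(y.1 + Complex.I * E * y.2 : ℂ)‖ := by
    have := Complex.abs_re_le_norm (y.1 + Complex.I * E * y.2 : ℂ)
    simpa using this
  have h2 : E * |y.2| ≤ ‖(y.1 + Complex.I * E * y.2 : ℂ)‖ := by
    have := Complex.abs_im_le_norm (y.1 + Complex.I * E * y.2 : ℂ)
    simp only [Complex.add_im, Complex.ofReal_im, Complex.mul_im, Complex.I_re, Complex.I_im,
      Complex.ofReal_re, Complex.mul_re] at this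
    have e : (0 + ((0 * E - 1 * 0) * 0 + (0 * 0 + 1 * E) * y.2) : ℝ) = E * y.2 := by ring
    rw [e, abs_mul, abs_of_pos hE] at this
    exact this
  rw [Prod.norm_def]
  rcases le_total ‖y.1‖ ‖y.2‖ with h | h
  · rw [max_eq_right h]
    calc min 1 E * ‖y.2‖ ≤ E * ‖y.2‖ := by gcongr; exact min_le_right _ _
      _ ≤ _ := h2
  · rw [max_eq_left h]
    calc min 1 E * ‖y.1‖ ≤ 1 * ‖y.1‖ := by gcongr; exact min_le_left _ _
      _ ≤ _ := by rw [one_mul]; exact h1

/-! ### The complex function `f = A + i v` -/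

variable {A v : P → ℝ}

theorem cpair_eq (A v : P → ℝ) : cpair A v = Complex.equivRealProdCLM.symm ∘ pair A v := by
  funext x; rfl

theorem contDiff_pair (hs : Sol A v) : ContDiff ℝ ∞ (pair A v) := hs.cA.prodMk hs.cv

theorem contDiff_cpair (hs : Sol A v) : ContDiff ℝ ∞ (cpair A v) := by
  rw [cpair_eq]
  exact Complex.equivRealProdCLM.symm.contDiff.comp (contDiff_pair hs)

theorem fderiv_pair (hs : Sol A v) (x y : P) :
    fderiv ℝ (pair A v) x y = (fderiv ℝ A x y, fderiv ℝ v x y) := by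
  have hA : DifferentiableAt ℝ A x := (hs.cA.differentiable (by simp)).differentiableAt
  have hv : DifferentiableAt ℝ v x := (hs.cv.differentiable (by simp)).differentiableAt
  have : fderiv ℝ (pair A v) x = (fderiv ℝ A x).prod (fderiv ℝ v x) := hA.fderiv_prodMk hv
  rw [this]; rfl

theorem fderiv_cpair (hs : Sol A v) (x y : P) :
    fderiv ℝ (cpair A v) x y = ⟨fderiv ℝ A x y, fderiv ℝ v x y⟩ := by
  rw [cpair_eq, Complex.equivRealProdCLM.symm.comp_fderiv]
  show Complex.equivRealProdCLM.symm (fderiv ℝ (pair A v) x y) = _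
  rw [fderiv_pair hs]; rfl

theorem d1_cpair (hs : Sol A v) (x : P) : d1 (cpair A v) x = ⟨d1 A x, d1 v x⟩ := fderiv_cpair hs x _
theorem d2_cpair (hs : Sol A v) (x : P) : d2 (cpair A v) x = ⟨d2 A x, d2 v x⟩ := fderiv_cpair hs x _

theorem d2_cpair_eq (hs : Sol A v) (x : P) :
    d2 (cpair A v) x = Complex.I * (Real.exp (A x) : ℝ) * d1 (cpair A v) x := by
  rw [d1_cpair hs, d2_cpair hs, hs.h1, hs.h2]
  have hE : Real.exp (A x) * Real.exp (-(A x)) = 1 := by rw [← Real.exp_add]; simp
  generalize Real.exp (A x) = E at *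
  generalize Real.exp (-(A x)) = E' at *
  apply Complex.ext
  · simp
    linear_combination (-(d2 A x)) * hE
  · simp

theorem fderiv_cpair_lin (hs : Sol A v) (x : P) :
    fderiv ℝ (cpair A v) x = lin (d1 (cpair A v) x) (Real.exp (A x)) := by
  refine ContinuousLinearMap.ext fun y => ?_
  rw [fderiv_apply_eq, d2_cpair_eq hs, lin_apply]
  simp only [Complex.real_smul]
  ring

theorem jac_eq (hs : Sol A v) (x : P) : jac A x = Real.exp (A x) * ‖d1 (cpair A v) x‖ ^ 2 := by
  rw [d1_cpair hs, jac, ← Complex.normSq_eq_norm_sq, Complex.normSq_mk, hs.h1]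
  have hE : Real.exp (A x) * Real.exp (-(A x)) = 1 := by rw [← Real.exp_add]; simp
  linear_combination (-(Real.exp (-(A x)) * d2 A x ^ 2)) * hE

theorem jac_ne_iff (hs : Sol A v) (x : P) : jac A x ≠ 0 ↔ d1 (cpair A v) x ≠ 0 := by
  rw [jac_eq hs]
  simp [Real.exp_ne_zero]

theorem det_eq_jac (hs : Sol A v) (x : P) : (fderiv ℝ (pair A v) x).det = jac A x := by
  rw [det_eq]
  have h1 : d1 (pair A v) x = (d1 A x, d1 v x) := fderiv_pair hs x _
  have h2 : d2 (pair A v) x = (d2 A x, d2 v x) := fderiv_pair hs x _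
  rw [h1, h2, jac]
  simp only [hs.h1, hs.h2]
  ring

theorem d1_eq {f : P → ℂ} {D : P →L[ℝ] ℂ} {x : P} (h : HasFDerivAt f D x) : d1 f x = D (1, 0) := by
  rw [d1, h.fderiv]

theorem d2_eq {f : P → ℂ} {D : P →L[ℝ] ℂ} {x : P} (h : HasFDerivAt f D x) : d2 f x = D (0, 1) := by
  rw [d2, h.fderiv]

/-- The derivative of `g = f₁` at a critical point. -/
theorem hasFDerivAt_g (hs : Sol A v) {p : P} (hp : d1 (cpair A v) p = 0) :
    HasFDerivAt (d1 (cpair A v)) (lin (d1 (d1 (cpair A v)) p) (Real.exp (A p))) p := by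
  have hg : ContDiff ℝ ∞ (d1 (cpair A v)) := smooth_d1 (contDiff_cpair hs)
  have hgd : DifferentiableAt ℝ (d1 (cpair A v)) p := (hg.differentiable (by simp)).differentiableAt
  have h1 := hgd.hasFDerivAt
  have e : fderiv ℝ (d1 (cpair A v)) p = lin (d1 (d1 (cpair A v)) p) (Real.exp (A p)) := by
    refine ContinuousLinearMap.ext fun y => ?_
    rw [fderiv_apply_eq, lin_apply]
    have hcomm := d1_d2_comm ((contDiff_cpair hs).of_le (by norm_cast)) p
    rw [← hcomm]
    have h2 : d2 (cpair A v) = fun x => Complex.I * (Real.exp (A x) : ℝ) * d1 (cpair A v) x := by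
      funext x; exact d2_cpair_eq hs x
    rw [h2]
    have hA : HasFDerivAt A (fderiv ℝ A p) p :=
      (hs.cA.differentiable (by simp)).differentiableAt.hasFDerivAt
    have hE : DifferentiableAt ℝ (fun x => Complex.I * ((Real.exp (A x) : ℝ) : ℂ)) p := by
      have : DifferentiableAt ℝ (fun x => ((Real.exp (A x) : ℝ) : ℂ)) p :=
        Complex.ofRealCLM.differentiableAt.comp p hA.exp.differentiableAt
      exact this.const_mul _
    have h3 := (hE.hasFDerivAt.mul hgd.hasFDerivAt)
    have h4 : d1 (fun x => Complex.I * (Real.exp (A x) : ℝ) * d1 (cpair A v) x) p =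
        Complex.I * (Real.exp (A p) : ℝ) * d1 (d1 (cpair A v)) p := by
      refine (d1_eq (f := fun x => Complex.I * (Real.exp (A x) : ℝ) * d1 (cpair A v) x) h3).trans ?_
      simp only [add_apply, smul_apply, smul_eq_mul, d1]
      have hp' : (fderiv ℝ (cpair A v) p) (1, 0) = 0 := hp
      rw [hp', zero_mul, add_zero]
    rw [h4]
    simp only [Complex.real_smul]
    ring
  rw [e] at h1
  exact h1

open Asymptotics in
theorem isLittleO_sq {F : P → ℂ} {F' : P → P →L[ℝ] ℂ} {p : P} (hF : ∀ x, HasFDerivAt F (F' x) x)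
    (h0 : F p = 0) (ho : F' =o[𝓝 p] fun x => x - p) : F =o[𝓝 p] fun x => ‖x - p‖ ^ 2 := by
  rw [isLittleO_iff]
  intro c hc
  obtain ⟨δ, hδ, h1⟩ := Metric.eventually_nhds_iff_ball.1 ((isLittleO_iff.1 ho) hc)
  refine Metric.eventually_nhds_iff_ball.2 ⟨δ, hδ, fun x hx => ?_⟩
  have hx' : ‖x - p‖ < δ := by rwa [mem_ball_iff_norm] at hx
  have hbd : ∀ y ∈ Metric.closedBall p ‖x - p‖, ‖F' y‖ ≤ c * ‖x - p‖ := by
    intro y hy
    have hy' : ‖y - p‖ ≤ ‖x - p‖ := by rwa [mem_closedBall_iff_norm] at hy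
    have := h1 y (by rw [mem_ball_iff_norm]; exact lt_of_le_of_lt hy' hx')
    exact this.trans (mul_le_mul_of_nonneg_left hy' hc.le)
  have h2 := Convex.norm_image_sub_le_of_norm_hasFDerivWithin_le (𝕜 := ℝ)
    (fun y (_ : y ∈ Metric.closedBall p ‖x - p‖) => (hF y).hasFDerivWithinAt) hbd
    (convex_closedBall p ‖x - p‖) (Metric.mem_closedBall_self (norm_nonneg _))
    (by rw [mem_closedBall_iff_norm] : x ∈ Metric.closedBall p ‖x - p‖)
  rw [h0, sub_zero] at h2
  rw [Real.norm_eq_abs, abs_of_nonneg (by positivity)]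
  calc ‖F x‖ ≤ c * ‖x - p‖ * ‖x - p‖ := h2
    _ = c * ‖x - p‖ ^ 2 := by ring

open Asymptotics in
theorem isBigO_lin {E : ℝ} (hE : 0 < E) (p : P) :
    (fun x : P => x - p) =O[𝓝 p] fun x => lin 1 E (x - p) := by
  have hm : 0 < min 1 E := lt_min one_pos hE
  refine IsBigO.of_bound (min 1 E)⁻¹ (Filter.Eventually.of_forall fun x => ?_)
  have := le_norm_lin_one hE (x - p)
  rw [inv_mul_eq_div, le_div_iff₀ hm, mul_comm]
  exact this

open Asymptotics in
/-- First order expansion of `g = f₁` at a critical point. -/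
theorem g_littleO (hs : Sol A v) {p : P} (hp : d1 (cpair A v) p = 0) :
    (fun x => d1 (cpair A v) x - d1 (d1 (cpair A v)) p * lin 1 (Real.exp (A p)) (x - p)) =o[𝓝 p]
      fun x => x - p := by
  have h := (hasFDerivAt_g hs hp).isLittleO
  refine h.congr_left fun x => ?_
  rw [hp, sub_zero]
  congr 1
  rw [lin_apply, lin_apply, one_mul]

open Asymptotics in
theorem tendsto_g (hs : Sol A v) {p : P} (hp : d1 (cpair A v) p = 0) :
    Tendsto (fun x => d1 (cpair A v) x / lin 1 (Real.exp (A p)) (x - p)) (𝓝[≠] p)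
      (𝓝 (d1 (d1 (cpair A v)) p)) := by
  have h1 := ((g_littleO hs hp).trans_isBigO (isBigO_lin (Real.exp_pos (A p)) p)).tendsto_div_nhds_zero
  have h2 := (h1.mono_left (nhdsWithin_le_nhds (s := {p}ᶜ))).const_add (d1 (d1 (cpair A v)) p)
  rw [add_zero] at h2
  refine h2.congr' ?_
  filter_upwards [self_mem_nhdsWithin] with x hx
  have hL : lin 1 (Real.exp (A p)) (x - p) ≠ 0 := fun h =>
    hx (sub_eq_zero.1 (lin_inj one_ne_zero (Real.exp_ne_zero _) h))
  field_simp
  ring

open Asymptotics in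
theorem tendsto_f (hs : Sol A v) {p : P} (hp : d1 (cpair A v) p = 0) :
    Tendsto (fun x => (cpair A v x - cpair A v p) / (lin 1 (Real.exp (A p)) (x - p)) ^ 2) (𝓝[≠] p)
      (𝓝 (d1 (d1 (cpair A v)) p / 2)) := by
  set c2 := d1 (d1 (cpair A v)) p with hc2
  set L := lin 1 (Real.exp (A p)) with hL
  have hf : ∀ x, HasFDerivAt (cpair A v) (lin (d1 (cpair A v) x) (Real.exp (A x))) x := by
    intro x
    rw [← fderiv_cpair_lin hs x]
    exact ((contDiff_cpair hs).differentiable (by simp)).differentiableAt.hasFDerivAt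
  have hFd : ∀ x, HasFDerivAt (fun x => cpair A v x - cpair A v p - c2 / 2 * (L (x - p)) ^ 2)
      (lin (d1 (cpair A v) x) (Real.exp (A x)) - (c2 * L (x - p)) • L) x := by
    intro x
    have h1 : HasFDerivAt (fun x => L (x - p)) L x := by
      have := (L.hasFDerivAt (x := x - p)).comp x ((hasFDerivAt_id x).sub_const p)
      exact this
    have h2 := ((hf x).sub_const (cpair A v p)).sub ((h1.pow 2).const_mul (c2 / 2))
    refine h2.congr_fderiv ?_
    refine ContinuousLinearMap.ext fun y => ?_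
    simp
    ring
  have hsmall : (fun x => lin (d1 (cpair A v) x) (Real.exp (A x)) - (c2 * L (x - p)) • L) =o[𝓝 p]
      fun x => x - p := by
    have e : (fun x => lin (d1 (cpair A v) x) (Real.exp (A x)) - (c2 * L (x - p)) • L) =
        fun x => (d1 (cpair A v) x - c2 * L (x - p)) • L +
          d1 (cpair A v) x • (lin 1 (Real.exp (A x)) - L) := by
      funext x
      have h1 : lin (d1 (cpair A v) x) (Real.exp (A x)) =
          d1 (cpair A v) x • lin 1 (Real.exp (A x)) := by
        rw [← lin_smul, mul_one]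
      rw [h1]
      module
    rw [e]
    refine IsLittleO.add ?_ ?_
    · have h1 := (g_littleO hs hp)
      have h2 : (fun _ : P => L) =O[𝓝 p] fun _ => (1 : ℝ) := isBigO_const_const _ one_ne_zero _
      have h3 := h1.norm_right.smul_isBigO h2
      simp only [smul_eq_mul, mul_one] at h3
      exact h3.of_norm_right
    · have h1 : (fun x => d1 (cpair A v) x) =O[𝓝 p] fun x => x - p := by
        have := (hasFDerivAt_g hs hp).isBigO_sub
        rw [hp] at this
        simpa using this
      have h2 : (fun x => lin 1 (Real.exp (A x)) - L) =o[𝓝 p] fun _ => (1 : ℝ) := by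
        rw [isLittleO_one_iff]
        have hc : Continuous (fun x => lin 1 (Real.exp (A x))) :=
          continuous_lin continuous_const (Real.continuous_exp.comp hs.cA.continuous)
        have := (hc.tendsto p).sub_const L
        rwa [hL, sub_self] at this
      have h3 := h1.norm_right.smul_isLittleO h2
      simp only [smul_eq_mul, mul_one] at h3
      exact h3.of_norm_right
  have hF := isLittleO_sq hFd (by simp) hsmall
  have hO : (fun x : P => ‖x - p‖ ^ 2) =O[𝓝 p] fun x => (L (x - p)) ^ 2 :=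
    ((isBigO_lin (Real.exp_pos (A p)) p).norm_left).pow 2
  have h1 := (hF.trans_isBigO hO).tendsto_div_nhds_zero
  have h2 := (h1.mono_left (nhdsWithin_le_nhds (s := {p}ᶜ))).const_add (c2 / 2)
  rw [add_zero] at h2
  refine h2.congr' ?_
  filter_upwards [self_mem_nhdsWithin] with x hx
  have hL : L (x - p) ≠ 0 := fun h =>
    hx (sub_eq_zero.1 (lin_inj one_ne_zero (Real.exp_ne_zero _) h))
  field_simp
  ring

end Pool.Agent.EU.S2
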