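import Pool.Agent.EU.S2Top
import Pool.Agent.EU.S2Loc

set_option autoImplicit false
open scoped ContDiff Topology ENNReal
open Real Set MeasureTheory Filter

namespace Pool.Agent.EU.S2

open Pool.Agent.EU

variable {A v : P → ℝ}

open Asymptotics in
theorem exists_sqrt (hs : Sol A v) {p : P} (hp : d1 (cpair A v) p = 0)
    (hc2 : d1 (d1 (cpair A v)) p ≠ 0) (hfib : ∀ x, cpair A v x = cpair A v p → x = p) :
    ∃ (ζ m : P → ℂ), (∀ x, ζ x ^ 2 = cpair A v x - cpair A v p) ∧
      (∀ x, x ≠ p → ContDiffAt ℝ ∞ ζ x) ∧ Continuous m ∧ m p ≠ 0 ∧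
      (∀ x, x ≠ p → m x = d1 (cpair A v) x / (2 * ζ x)) ∧
      ∀ x, HasFDerivAt ζ (lin (m x) (Real.exp (A x))) x := by
  classical
  have hfc : ContDiff ℝ ∞ (cpair A v) := contDiff_cpair hs
  set f := cpair A v with hf
  set L := lin 1 (Real.exp (A p)) with hL
  set c2 := d1 (d1 f) p with hc2def
  have hLne : ∀ x, x ≠ p → L (x - p) ≠ 0 := fun x hx h =>
    hx (sub_eq_zero.1 (lin_inj one_ne_zero (Real.exp_ne_zero _) h))
  have hLc : ContDiff ℝ ∞ (fun x => L (x - p)) := L.contDiff.comp (contDiff_id.sub contDiff_const)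
  set k : P → ℂ := Function.update (fun x => (f x - f p) / (L (x - p)) ^ 2) p (c2 / 2) with hk
  have hkp : k p = c2 / 2 := by rw [hk]; exact Function.update_self _ _ _
  have hkx : ∀ x, x ≠ p → k x = (f x - f p) / (L (x - p)) ^ 2 := fun x hx => by
    rw [hk]; exact Function.update_of_ne hx _ _
  have hkev : ∀ x, x ≠ p → k =ᶠ[𝓝 x] fun x => (f x - f p) / (L (x - p)) ^ 2 := by
    intro x hx
    filter_upwards [isOpen_ne.mem_nhds hx] with y hy
    exact hkx y hy
  have hkd : ∀ x, x ≠ p → ContDiffAt ℝ ∞ k x := by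
    intro x hx
    refine ContDiffAt.congr_of_eventuallyEq ?_ (hkev x hx)
    have h1 : ContDiffAt ℝ ∞ (fun x => ((L (x - p)) ^ 2)⁻¹) x :=
      (hLc.pow 2).contDiffAt.inv (pow_ne_zero _ (hLne x hx))
    simp only [div_eq_mul_inv]
    exact (hfc.sub contDiff_const).contDiffAt.mul h1
  have hkc : Continuous k := by
    rw [continuous_iff_continuousAt]
    intro x
    by_cases hx : x = p
    · subst hx
      exact continuousAt_update_same.2 (tendsto_f hs hp)
    · exact (hkd x hx).continuousAt
  have hk0 : ∀ x, k x ≠ 0 := by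
    intro x
    by_cases hx : x = p
    · rw [hx, hkp]; exact div_ne_zero hc2 two_ne_zero
    · rw [hkx x hx]
      exact div_ne_zero (sub_ne_zero.2 fun h => hx (hfib x h)) (pow_ne_zero _ (hLne x hx))
  obtain ⟨g, hg, hge⟩ := exists_clog hkc hk0
  have hgd : ∀ x, x ≠ p → ContDiffAt ℝ ∞ g x := fun x hx => contDiffAt_of_exp_eq (hkd x hx) hg hge
  set e : P → ℂ := fun x => Complex.exp (g x / 2) with he
  have hec : Continuous e := Complex.continuous_exp.comp (hg.div_const 2)
  have he2 : ∀ x, e x ^ 2 = k x := by
    intro x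
    rw [← hge x, he, ← Complex.exp_nat_mul]
    congr 1; push_cast; ring
  have he0 : ∀ x, e x ≠ 0 := fun x => Complex.exp_ne_zero _
  have hζ2 : ∀ x, (L (x - p) * e x) ^ 2 = f x - f p := by
    intro x
    rw [mul_pow, he2]
    by_cases hx : x = p
    · rw [hx]; simp
    · rw [hkx x hx, mul_div_cancel₀ _ (pow_ne_zero _ (hLne x hx))]
  have hζd : ∀ x, x ≠ p → ContDiffAt ℝ ∞ (fun x => L (x - p) * e x) x := by
    intro x hx
    exact hLc.contDiffAt.mul ((hgd x hx).div_const 2).cexp
  have hζ0 : ∀ x, x ≠ p → L (x - p) * e x ≠ 0 := fun x hx => mul_ne_zero (hLne x hx) (he0 x)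
  have hmx : ∀ x, x ≠ p → Function.update (fun x => d1 f x / (2 * (L (x - p) * e x))) p (e p) x =
      d1 f x / (2 * (L (x - p) * e x)) := fun x hx => Function.update_of_ne hx _ _
  have hmp : Function.update (fun x => d1 f x / (2 * (L (x - p) * e x))) p (e p) p = e p :=
    Function.update_self _ _ _
  refine ⟨fun x => L (x - p) * e x, Function.update (fun x => d1 f x / (2 * (L (x - p) * e x))) p (e p),
    hζ2, hζd, ?_, ?_, hmx, ?_⟩
  · rw [continuous_iff_continuousAt]
    intro x
    by_cases hx : x = p
    · subst hx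
      rw [continuousAt_update_same]
      have h1 : Tendsto (fun y => d1 f y / L (y - x)) (𝓝[≠] x) (𝓝 c2) := tendsto_g hs hp
      have h2 : Tendsto (fun y => 1 / (2 * e y)) (𝓝[≠] x) (𝓝 (1 / (2 * e x))) := by
        refine ((tendsto_const_nhds.div ((hec.tendsto x).const_mul 2) ?_)).mono_left nhdsWithin_le_nhds
        exact mul_ne_zero two_ne_zero (he0 x)
      have h3 := h1.mul h2
      have h4 : c2 * (1 / (2 * e x)) = e x := by
        have : c2 = 2 * e x ^ 2 := by rw [he2, hkp]; ring
        rw [this]
        field_simp [he0 x]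
      rw [h4] at h3
      refine h3.congr' ?_
      filter_upwards [self_mem_nhdsWithin] with y hy
      have := hLne y hy
      have := he0 y
      field_simp
    · refine ContinuousAt.congr ?_ (f := fun x => d1 f x / (2 * (L (x - p) * e x))) ?_
      · exact ((smooth_d1 hfc).continuous.continuousAt).div
          (continuousAt_const.mul (hLc.continuous.continuousAt.mul hec.continuousAt))
          (mul_ne_zero two_ne_zero (hζ0 x hx))
      · filter_upwards [isOpen_ne.mem_nhds hx] with y hy
        exact (hmx y hy).symm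
  · rw [hmp]; exact he0 p
  · intro x
    by_cases hx : x = p
    · rw [hx, hmp]
      have e1 : lin (e p) (Real.exp (A p)) = e p • L := by rw [hL, ← lin_smul, mul_one]
      rw [e1, hasFDerivAt_iff_isLittleO]
      have h1 : (fun x : P => L (x - p)) =O[𝓝 p] fun x => x - p := L.isBigO_comp _ _
      have h2 : (fun x => e x - e p) =o[𝓝 p] fun _ => (1 : ℝ) := by
        rw [isLittleO_one_iff]
        have := (hec.tendsto p).sub_const (e p)
        rwa [sub_self] at this
      have h3 := h1.norm_right.mul_isLittleO h2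
      simp only [mul_one] at h3
      refine h3.of_norm_right.congr_left fun y => ?_
      simp
      ring
    · rw [hmx x hx]
      have h1 : DifferentiableAt ℝ (fun x => L (x - p) * e x) x :=
        (hζd x hx).differentiableAt (by simp)
      have h2 := h1.hasFDerivAt
      have h3 := h2.pow 2
      have h4 : HasFDerivAt (fun x => (L (x - p) * e x) ^ 2) (fderiv ℝ f x) x := by
        have : (fun x => (L (x - p) * e x) ^ 2) = fun x => f x - f p := funext hζ2
        rw [this]
        exact ((hfc.differentiable (by simp)).differentiableAt.hasFDerivAt).sub_const _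
      have h5 := h3.unique h4
      have h6 : lin (d1 f x / (2 * (L (x - p) * e x))) (Real.exp (A x)) =
          fderiv ℝ (fun x => L (x - p) * e x) x := by
        refine ContinuousLinearMap.ext fun y => ?_
        have h7 : 2 * (L (x - p) * e x) * fderiv ℝ (fun x => L (x - p) * e x) x y =
            d1 f x * (y.1 + Complex.I * (Real.exp (A x) : ℝ) * y.2) := by
          have h9 : fderiv ℝ f x = lin (d1 f x) (Real.exp (A x)) := fderiv_cpair_lin hs x
          rw [h9] at h5
          have h10 := congrArg (fun T : P →L[ℝ] ℂ => T y) h5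
          simp only [lin_apply, smul_apply, smul_eq_mul, nsmul_eq_mul] at h10
          rw [← h10]
          norm_num
        rw [lin_apply]
        have h8 := hζ0 x hx
        rw [div_mul_eq_mul_div, ← h7, mul_div_assoc, mul_comm, div_mul_cancel₀]
        exact mul_ne_zero two_ne_zero h8
      rw [h6]
      exact h2

end Pool.Agent.EU.S2
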