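import Pool.Agent.EU.T
import Pool.Agent.EU.Area

set_option autoImplicit false
open scoped ContDiff Topology ENNReal
open Real Set MeasureTheory Filter

namespace Pool.Agent.EU.S2

open Pool.Agent.EU

/-! ### The involution of a two-sheeted open closed map -/

section inv
variable {X Y : Type*} [TopologicalSpace X] [T2Space X] [TopologicalSpace Y]

omit [TopologicalSpace X] [T2Space X] [TopologicalSpace Y] in
theorem not_three {f : X → Y} (h2 : ∀ z, {x | f x = z}.encard ≤ 2) {a b c : X}
    (hab : f a = f b) (hac : f a = f c) (h1 : a ≠ b) (h3 : a ≠ c) : b = c := by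
  by_contra hbc
  have hs : ({a, b, c} : Set X) ⊆ {x | f x = f a} := by
    intro x hx
    rcases hx with rfl | rfl | rfl
    · rfl
    · exact hab.symm
    · exact hac.symm
  have := (Set.encard_le_encard hs).trans (h2 (f a))
  rw [Set.encard_insert_of_notMem (by simp [h1, h3]), Set.encard_pair hbc] at this
  norm_num at this

theorem exists_involution {f : X → Y} (hc : Continuous f) (ho : IsOpenMap f) (hcl : IsClosedMap f)
    (h2 : ∀ z, {x | f x = z}.encard ≤ 2) :
    ∃ τ : X → X, Continuous τ ∧ (∀ x, f (τ x) = f x) ∧ (∀ x y, f y = f x → y = x ∨ y = τ x) ∧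
      ∀ x, τ (τ x) = x := by
  classical
  have hex : ∀ x, ∃ y, f y = f x ∧ (∀ w, f w = f x → w = x ∨ w = y) := by
    intro x
    by_cases h : ∃ y, y ≠ x ∧ f y = f x
    · obtain ⟨y, hy, hfy⟩ := h
      refine ⟨y, hfy, fun w hw => ?_⟩
      by_cases hwx : w = x
      · exact Or.inl hwx
      · right
        exact not_three h2 (hw.symm) (hfy.symm) (fun h => hwx h.symm) (fun h => hy h.symm)
    · push Not at h
      exact ⟨x, rfl, fun w hw => Or.inl (by by_contra h'; exact h w h' hw)⟩
  choose τ hτ1 hτ2 using hex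
  have hττ : ∀ x, τ (τ x) = x := by
    intro x
    have h1 := hτ2 (τ x) x (hτ1 x).symm
    rcases h1 with h1 | h1
    · rw [← h1, ← h1]
    · exact h1.symm
  refine ⟨τ, ?_, hτ1, hτ2, hττ⟩
  rw [continuous_iff_continuousAt]
  intro x
  by_cases hx : τ x = x
  · intro U hU
    rw [hx] at hU
    obtain ⟨V, hVU, hVo, hxV⟩ := mem_nhds_iff.1 hU
    have hW : IsOpen (f '' Vᶜ)ᶜ := (hcl _ hVo.isClosed_compl).isOpen_compl
    have hmem : f x ∈ (f '' Vᶜ)ᶜ := by
      rintro ⟨y, hy, hfy⟩
      rcases hτ2 x y hfy with h | h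
      · exact hy (h ▸ hxV)
      · rw [hx] at h; exact hy (h ▸ hxV)
    have : f ⁻¹' (f '' Vᶜ)ᶜ ∈ 𝓝 x := hc.continuousAt.preimage_mem_nhds (hW.mem_nhds hmem)
    rw [Filter.mem_map]
    refine mem_of_superset this ?_
    intro y hy
    by_contra hn
    exact hy ⟨τ y, fun h => hn (hVU h), hτ1 y⟩
  · intro U hU
    obtain ⟨V1, V2, hV1, hV2, h1, h2', hd⟩ := t2_separation hx
    obtain ⟨V, hVU, hVo, hxV⟩ := mem_nhds_iff.1 (Filter.inter_mem hU (hV1.mem_nhds h1))
    have h3 : f '' V ∈ 𝓝 (f x) := by
      rw [← hτ1 x]; exact (ho V hVo).mem_nhds ⟨_, hxV, rfl⟩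
    have h4 : f ⁻¹' (f '' V) ∩ V2 ∈ 𝓝 x :=
      inter_mem (hc.continuousAt.preimage_mem_nhds h3) (hV2.mem_nhds h2')
    rw [Filter.mem_map]
    refine mem_of_superset h4 ?_
    rintro y ⟨⟨w, hw, hfw⟩, hy2⟩
    rcases hτ2 y w hfw with h | h
    · exact absurd rfl (hd.ne_of_mem (hVU hw).2 (h ▸ hy2))
    · show τ y ∈ U
      rw [← h]; exact (hVU hw).1

omit [T2Space X] in
/-- A point which is alone in its fibre has no neighbourhood on which `f` is injective. -/
theorem not_injOn_nhds {f : X → Y} (hcl : IsClosedMap f)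
    (hd : ∀ W : Set Y, IsOpen W → W.Nonempty → ∃ z ∈ W, {x | f x = z}.encard = 2) {p : X}
    (hp : ∀ y, f y = f p → y = p) {U : Set X} (hU : U ∈ 𝓝 p) : ¬ InjOn f U := by
  intro hi
  obtain ⟨V, hVU, hVo, hxV⟩ := mem_nhds_iff.1 hU
  have hW : IsOpen (f '' Vᶜ)ᶜ := (hcl _ hVo.isClosed_compl).isOpen_compl
  have hmem : f p ∈ (f '' Vᶜ)ᶜ := by
    rintro ⟨y, hy, hfy⟩
    exact hy (hp y hfy ▸ hxV)
  obtain ⟨z, hz, h2⟩ := hd _ hW ⟨_, hmem⟩
  obtain ⟨a, b, hab, hs⟩ := Set.encard_eq_two.1 h2
  have ha : f a = z := by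
    have : a ∈ {x | f x = z} := by rw [hs]; simp
    exact this
  have hb : f b = z := by
    have : b ∈ {x | f x = z} := by rw [hs]; simp
    exact this
  have hin : ∀ x, f x = z → x ∈ U := by
    intro x hx
    by_contra hn
    exact hz ⟨x, fun h => hn (hVU h), hx⟩
  exact hab (hi (hin a ha) (hin b hb) (ha.trans hb.symm))

end inv

theorem surj_of {f : P → P} (hc : Continuous f) (ho : IsOpenMap f)
    (hp : Tendsto f (cocompact P) (cocompact P)) : IsClosedMap f ∧ Function.Surjective f := by
  have hpr : IsProperMap f := isProperMap_iff_tendsto_cocompact.2 ⟨hc, hp⟩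
  have hcl := hpr.isClosedMap
  refine ⟨hcl, ?_⟩
  have h1 : IsClopen (range f) := ⟨hcl.isClosed_range, ho.isOpen_range⟩
  exact range_eq_univ.1 (h1.eq_univ (range_nonempty f))

/-- A continuous function whose exponential is constant is constant. -/
theorem const_of_exp {S : Type*} [TopologicalSpace S] [PreconnectedSpace S] {h : S → ℂ}
    (hc : Continuous h) {c : ℂ} (he : ∀ x, Complex.exp (h x) = c) (x y : S) : h x = h y := by
  have hclopen : IsClopen {z | h z = h y} := by
    constructor
    · exact isClosed_eq hc continuous_const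
    · rw [isOpen_iff_mem_nhds]
      intro z hz
      have h1 : ∀ᶠ w in 𝓝 z, ‖h w - h z‖ < 1 := by
        have : Filter.Tendsto (fun y => ‖h y - h z‖) (𝓝 z) (𝓝 ‖h z - h z‖) :=
          ((hc.sub continuous_const).norm).tendsto z
        simp only [sub_self, norm_zero] at this
        exact this.eventually (gt_mem_nhds one_pos)
      filter_upwards [h1] with w hw
      have h2 : Complex.exp (h w - h z) = 1 := by
        rw [Complex.exp_sub, he, he, div_self]
        rw [← he z]; exact Complex.exp_ne_zero _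
      rw [Complex.exp_eq_one_iff] at h2
      obtain ⟨n, hn⟩ := h2
      have him : |(h w - h z).im| < 1 := lt_of_le_of_lt (Complex.abs_im_le_norm _) hw
      rw [hn] at him
      have e : ((n : ℂ) * (2 * π * Complex.I)).im = n * (2 * π) := by
        simp
      rw [e, abs_mul, abs_of_pos (by positivity : (0:ℝ) < 2 * π)] at him
      have hpi := Real.pi_gt_three
      have hn0 : |(n : ℝ)| < 1 := by
        by_contra hcon
        push Not at hcon
        nlinarith
      have hn1 : n = 0 := by
        have : |n| < 1 := by exact_mod_cast hn0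
        exact Int.abs_lt_one_iff.1 this
      rw [hn1] at hn
      simp only [Int.cast_zero, zero_mul] at hn
      have hz' : h z = h y := hz
      show h w = h y
      rw [← hz']
      exact sub_eq_zero.1 hn
  have h1 := hclopen.eq_univ ⟨y, rfl⟩
  have h2 : x ∈ {z | h z = h y} := by rw [h1]; exact mem_univ x
  exact h2

/-- Every continuous involution of the plane has a fixed point. -/
theorem exists_fixed {τ : P → P} (hτ : Continuous τ) (h : ∀ x, τ (τ x) = x) : ∃ p, τ p = p := by
  by_contra hn
  push Not at hn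
  have hκc : Continuous (fun x : P => Complex.equivRealProdCLM.symm (x - τ x)) :=
    Complex.equivRealProdCLM.symm.continuous.comp (continuous_id.sub hτ)
  have hκ0 : ∀ x : P, Complex.equivRealProdCLM.symm (x - τ x) ≠ 0 := by
    intro x h0
    have : x - τ x = 0 := by
      have := congrArg Complex.equivRealProdCLM h0
      simp only [ContinuousLinearEquiv.apply_symm_apply, map_zero] at this
      exact this
    exact hn x (sub_eq_zero.1 this).symm
  obtain ⟨g, hg, hge⟩ := exists_clog hκc hκ0
  have he : ∀ x, Complex.exp (g (τ x) - g x) = -1 := by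
    intro x
    rw [Complex.exp_sub, hge, hge, h]
    have e : (Complex.equivRealProdCLM.symm (τ x - x)) =
        -(Complex.equivRealProdCLM.symm (x - τ x)) := by
      rw [← map_neg, neg_sub]
    rw [e, neg_div, div_self (hκ0 x)]
  have hc : Continuous (fun x => g (τ x) - g x) := (hg.comp hτ).sub hg
  have h1 := const_of_exp hc he 0 (τ 0)
  simp only [h] at h1
  have h0 : g (τ 0) - g 0 = 0 := by linear_combination h1 / 2
  have h3 := he 0
  rw [h0, Complex.exp_zero] at h3
  norm_num at h3

/-- local smoothness of a continuous logarithm. -/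
theorem contDiffAt_of_exp_eq {n : WithTop ℕ∞} {f L : P → ℂ} {x : P} (hf : ContDiffAt ℝ n f x)
    (hL : Continuous L) (h : ∀ x, Complex.exp (L x) = f x) : ContDiffAt ℝ n L x := by
  have hloc : ∀ᶠ y in 𝓝 x, L y = L x + Complex.log (f y / f x) := by
    have h1 : ∀ᶠ y in 𝓝 x, ‖L y - L x‖ < 1 := by
      have : Filter.Tendsto (fun y => ‖L y - L x‖) (𝓝 x) (𝓝 ‖L x - L x‖) :=
        ((hL.sub continuous_const).norm).tendsto x
      simp only [sub_self, norm_zero] at this
      exact this.eventually (gt_mem_nhds one_pos)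
    filter_upwards [h1] with y hy
    have him : |(L y - L x).im| < 1 := lt_of_le_of_lt (Complex.abs_im_le_norm _) hy
    have hpi := Real.pi_gt_three
    have e : f y / f x = Complex.exp (L y - L x) := by
      rw [Complex.exp_sub, h, h]
    rw [e, Complex.log_exp (by linarith [(abs_lt.1 him).1]) (by linarith [(abs_lt.1 him).2])]
    ring
  have h2 : ContDiffAt ℝ n (fun y => L x + Complex.log (f y / f x)) x := by
    refine contDiffAt_const.add ?_
    have hfx : f x ≠ 0 := by rw [← h x]; exact Complex.exp_ne_zero _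
    have h3 : ContDiffAt ℝ n (fun y => f y / f x) x := hf.div_const _
    have h4 : ContDiffAt ℝ n Complex.log (f x / f x) := by
      rw [div_self hfx]
      exact (Complex.contDiffAt_log (by simp [Complex.slitPlane])).restrict_scalars ℝ
    exact h4.comp x h3
  exact h2.congr_of_eventuallyEq hloc

end Pool.Agent.EU.S2
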