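import Pool.Agent.EU.Defs

/-!
Module T: topology of the plane (continuous logarithm, crossing lemma, loop separation,
saddle lemma).
-/

set_option autoImplicit false

open scoped ContDiff Topology
open Real Set

namespace Pool.Agent.EU.Topo

open Pool.Agent.EU

section log

variable {E : Type*} [NormedAddCommGroup E] [NormedSpace ℝ E]

/-- A continuous nowhere zero complex function on a real normed space has a continuous
logarithm. -/
theorem exists_log (f : E → ℂ) (hf : Continuous f) (h0 : ∀ x, f x ≠ 0) :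
    ∃ L : E → ℂ, Continuous L ∧ ∀ x, Complex.exp (L x) = f x := by
  have : LocallyPathConnectedSpace E := inferInstance
  have : ContractibleSpace E := inferInstance
  have : SimplyConnectedSpace E := inferInstance
  obtain ⟨F, ⟨_, hF⟩, -⟩ := IsCoveringMapOn.existsUnique_continuousMap_lifts
    Complex.isCoveringMapOn_exp (⟨f, hf⟩ : C(E, ℂ)) (a₀ := 0) (e₀ := Complex.log (f 0))
    (by simpa using Complex.exp_log (h0 0)) (by intro a; simpa using h0 a)
  refine ⟨F, F.continuous, fun x => ?_⟩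
  exact congrFun hF x

/-- Smooth version. -/
theorem contDiff_of_exp_eq {n : WithTop ℕ∞} (f L : E → ℂ) (hf : ContDiff ℝ n f)
    (hL : Continuous L) (h : ∀ x, Complex.exp (L x) = f x) : ContDiff ℝ n L := by
  rw [contDiff_iff_contDiffAt]
  intro x
  have hloc : ∀ᶠ y in 𝓝 x, L y = L x + Complex.log (f y / f x) := by
    have h1 : ∀ᶠ y in 𝓝 x, ‖L y - L x‖ < 1 := by
      have : Filter.Tendsto (fun y => ‖L y - L x‖) (𝓝 x) (𝓝 ‖L x - L x‖) :=
        ((hL.sub continuous_const).norm).tendsto x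
      simp only [sub_self, norm_zero] at this
      exact this.eventually (gt_mem_nhds one_pos)
    filter_upwards [h1] with y hy
    have him : |(L y - L x).im| < 1 := lt_of_le_of_lt (Complex.abs_im_le_norm _) hy
    have hpi := Real.pi_gt_three
    have e : f y / f x = Complex.exp (L y - L x) := by
      rw [Complex.exp_sub, h, h]
    rw [e, Complex.log_exp (by linarith [(abs_lt.1 him).1]) (by linarith [(abs_lt.1 him).2])]
    ring
  have h2 : ContDiffAt ℝ n (fun y => L x + Complex.log (f y / f x)) x := by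
    refine contDiffAt_const.add ?_
    have hfx : f x ≠ 0 := by rw [← h x]; exact Complex.exp_ne_zero _
    have h3 : ContDiffAt ℝ n (fun y => f y / f x) x := hf.contDiffAt.div_const _
    have h4 : ContDiffAt ℝ n Complex.log (f x / f x) := by
      rw [div_self hfx]
      exact (Complex.contDiffAt_log (by simp [Complex.slitPlane])).restrict_scalars ℝ
    exact h4.comp x h3
  exact h2.congr_of_eventuallyEq hloc

theorem exists_smooth_log {n : WithTop ℕ∞} (f : E → ℂ) (hf : ContDiff ℝ n f) (h0 : ∀ x, f x ≠ 0) :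
    ∃ L : E → ℂ, ContDiff ℝ n L ∧ ∀ x, Complex.exp (L x) = f x := by
  obtain ⟨L, hL, h⟩ := exists_log f hf.continuous h0
  exact ⟨L, contDiff_of_exp_eq f L hf hL h, h⟩

end log

/-! ### arc lemma and crossing lemma -/

/-- If `sin (θ + φ) ≥ 0` along an interval then `θ + φ` stays in one interval
`[2πk, 2πk + π]`. -/
theorem arc {θ : ℝ → ℝ} {a b : ℝ} (hθ : ContinuousOn θ (Icc a b)) (φ : ℝ)
    (h : ∀ t ∈ Icc a b, 0 ≤ Real.sin (θ t + φ)) :
    ∃ k : ℤ, ∀ t ∈ Icc a b, 2 * π * k ≤ θ t + φ ∧ θ t + φ ≤ 2 * π * k + π := by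
  have hpi := Real.pi_pos
  rcases lt_or_ge b a with hab | hab
  · exact ⟨0, fun t ht => absurd (ht.1.trans ht.2) (not_le.2 hab)⟩
  have ha : a ∈ Icc a b := ⟨le_rfl, hab⟩
  set k : ℤ := ⌊(θ a + φ) / (2 * π)⌋ with hk
  have hk1 : 2 * π * k ≤ θ a + φ := by
    have := Int.floor_le ((θ a + φ) / (2 * π))
    rw [le_div_iff₀ (by positivity)] at this
    linarith
  have hk2 : θ a + φ < 2 * π * k + 2 * π := by
    have := Int.lt_floor_add_one ((θ a + φ) / (2 * π))
    rw [div_lt_iff₀ (by positivity)] at this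
    have h3 : ((k : ℝ) + 1) * (2 * π) = 2 * π * k + 2 * π := by ring
    linarith
  have hneg : ∀ x : ℝ, 2 * π * k + π < x → x < 2 * π * k + 2 * π → Real.sin x < 0 := by
    intro x h1 h2
    have := Real.sin_neg_of_neg_of_neg_pi_lt (x := x - ((k + 1 : ℤ) : ℝ) * (2 * π))
      (by push_cast; linarith) (by push_cast; linarith)
    rwa [Real.sin_sub_int_mul_two_pi] at this
  have hneg' : ∀ x : ℝ, 2 * π * k - π < x → x < 2 * π * k → Real.sin x < 0 := by
    intro x h1 h2
    have := Real.sin_neg_of_neg_of_neg_pi_lt (x := x - (k : ℝ) * (2 * π))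
      (by linarith) (by linarith)
    rwa [Real.sin_sub_int_mul_two_pi] at this
  have hk3 : θ a + φ ≤ 2 * π * k + π := by
    by_contra hcon
    push Not at hcon
    exact absurd (h a ha) (not_le.2 (hneg _ hcon hk2))
  have hord : ((fun t => θ t + φ) '' Icc a b).OrdConnected :=
    (isPreconnected_Icc.image _ (hθ.add continuousOn_const)).ordConnected
  refine ⟨k, fun t ht => ⟨?_, ?_⟩⟩
  · by_contra hcon
    push Not at hcon
    obtain ⟨y, hy1, hy2, hy3, hy4⟩ : ∃ y, θ t + φ ≤ y ∧ y ≤ θ a + φ ∧ 2 * π * k - π < y ∧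
        y < 2 * π * k :=
      ⟨max (θ t + φ) (2 * π * k - π / 2), le_max_left _ _, max_le (by linarith) (by linarith),
        lt_of_lt_of_le (by linarith) (le_max_right _ _), max_lt hcon (by linarith)⟩
    obtain ⟨s, hs, hs'⟩ := hord.out (mem_image_of_mem _ ht) (mem_image_of_mem _ ha) ⟨hy1, hy2⟩
    have h1 := h s hs
    simp only at hs'
    rw [hs'] at h1
    exact absurd h1 (not_le.2 (hneg' _ hy3 hy4))
  · by_contra hcon
    push Not at hcon
    obtain ⟨y, hy1, hy2, hy3, hy4⟩ : ∃ y, θ a + φ ≤ y ∧ y ≤ θ t + φ ∧ 2 * π * k + π < y ∧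
        y < 2 * π * k + 2 * π := by
      refine ⟨min (θ t + φ) (2 * π * k + 3 * π / 2), le_min (by linarith) (by linarith),
        min_le_left _ _, lt_min hcon (by linarith), lt_of_le_of_lt (min_le_right _ _) (by linarith)⟩
    obtain ⟨s, hs, hs'⟩ := hord.out (mem_image_of_mem _ ha) (mem_image_of_mem _ ht) ⟨hy1, hy2⟩
    have h1 := h s hs
    simp only at hs'
    rw [hs'] at h1
    exact absurd h1 (not_le.2 (hneg _ hy3 hy4))

/-- strict version of `arc`. -/
theorem arc_strict {θ : ℝ → ℝ} {a b : ℝ} (hθ : ContinuousOn θ (Icc a b)) (φ : ℝ)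
    (h : ∀ t ∈ Icc a b, 0 < Real.sin (θ t + φ)) :
    ∃ k : ℤ, ∀ t ∈ Icc a b, 2 * π * k < θ t + φ ∧ θ t + φ < 2 * π * k + π := by
  obtain ⟨k, hk⟩ := arc hθ φ (fun t ht => (h t ht).le)
  refine ⟨k, fun t ht => ⟨lt_of_le_of_ne (hk t ht).1 ?_, lt_of_le_of_ne (hk t ht).2 ?_⟩⟩
  · intro he
    have := h t ht
    rw [← he, show 2 * π * (k : ℝ) = 0 + k * (2 * π) by ring, Real.sin_add_int_mul_two_pi,
      Real.sin_zero] at this
    exact lt_irrefl _ this
  · intro he
    have := h t ht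
    rw [he, show 2 * π * (k : ℝ) + π = π + k * (2 * π) by ring, Real.sin_add_int_mul_two_pi,
      Real.sin_pi] at this
    exact lt_irrefl _ this

theorem int_le_of {k m : ℤ} {c : ℝ} (h : 2 * π * (k : ℝ) ≤ 2 * π * m + c) (hc : c < 2 * π) :
    k ≤ m := by
  have hpi := Real.pi_pos
  by_contra hcon
  push Not at hcon
  have h1 : ((m : ℝ) + 1) ≤ k := by exact_mod_cast hcon
  nlinarith

theorem re_exp_eq (z : ℂ) : (Complex.exp z).re = Real.exp z.re * Real.cos z.im :=
  Complex.exp_re z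

theorem im_exp_eq (z : ℂ) : (Complex.exp z).im = Real.exp z.re * Real.sin z.im :=
  Complex.exp_im z

/-- clamping to `[0, 1]` -/
noncomputable def clamp (x : ℝ) : ℝ := max 0 (min 1 x)

theorem continuous_clamp : Continuous clamp := by unfold clamp; fun_prop

theorem clamp_mem (x : ℝ) : clamp x ∈ Icc (0:ℝ) 1 :=
  ⟨le_max_left _ _, max_le zero_le_one (min_le_left _ _)⟩

theorem clamp_of_mem {x : ℝ} (h : x ∈ Icc (0:ℝ) 1) : clamp x = x := by
  unfold clamp
  rw [min_eq_right h.2, max_eq_right h.1]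

theorem continuous_comp_clamp {F : Type*} [TopologicalSpace F] {f : ℝ → F}
    (hf : ContinuousOn f (Icc 0 1)) : Continuous (fun x => f (clamp x)) :=
  hf.comp_continuous continuous_clamp clamp_mem

theorem crossing {a b c d : ℝ} {α β : ℝ → P}
    (hα : ContinuousOn α (Icc 0 1)) (hβ : ContinuousOn β (Icc 0 1))
    (hαr : ∀ s ∈ Icc (0:ℝ) 1, α s ∈ Icc a b ×ˢ Icc c d)
    (hβr : ∀ s ∈ Icc (0:ℝ) 1, β s ∈ Icc a b ×ˢ Icc c d)
    (hα0 : (α 0).1 = a) (hα1 : (α 1).1 = b) (hβ0 : (β 0).2 = c) (hβ1 : (β 1).2 = d) :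
    ∃ s ∈ Icc (0:ℝ) 1, ∃ t ∈ Icc (0:ℝ) 1, α s = β t := by
  by_contra hcon
  push Not at hcon
  set G : P → ℂ := fun x => ⟨(α (clamp x.1)).1 - (β (clamp x.2)).1,
    (α (clamp x.1)).2 - (β (clamp x.2)).2⟩ with hG
  have hαc : Continuous (fun x : P => α (clamp x.1)) := (continuous_comp_clamp hα).comp continuous_fst
  have hβc : Continuous (fun x : P => β (clamp x.2)) := (continuous_comp_clamp hβ).comp continuous_snd
  have hGc : Continuous G := by
    have h1 : Continuous (fun x : P => (((α (clamp x.1)).1 - (β (clamp x.2)).1 : ℝ) : ℂ) +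
      (((α (clamp x.1)).2 - (β (clamp x.2)).2 : ℝ) : ℂ) * Complex.I) := by
      have := hαc.fst; have := hαc.snd; have := hβc.fst; have := hβc.snd
      fun_prop
    refine h1.congr fun x => ?_
    apply Complex.ext <;> simp [hG]
  have hG0 : ∀ x, G x ≠ 0 := by
    intro x h0
    refine hcon _ (clamp_mem x.1) _ (clamp_mem x.2) ?_
    have h1 := congrArg Complex.re h0
    have h2 := congrArg Complex.im h0
    simp only [hG, Complex.zero_re, Complex.zero_im] at h1 h2
    exact Prod.ext (by linarith) (by linarith)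
  obtain ⟨L, hL, hLG⟩ := exists_log G hGc hG0
  have hz : (0:ℝ) ∈ Icc (0:ℝ) 1 := ⟨le_rfl, zero_le_one⟩
  have ho : (1:ℝ) ∈ Icc (0:ℝ) 1 := ⟨zero_le_one, le_rfl⟩
  have hre : ∀ s ∈ Icc (0:ℝ) 1, ∀ t ∈ Icc (0:ℝ) 1,
      Real.exp (L (s, t)).re * Real.cos (L (s, t)).im = (α s).1 - (β t).1 := by
    intro s hs t ht
    rw [← re_exp_eq, hLG]
    simp only [hG, clamp_of_mem hs, clamp_of_mem ht]
  have him : ∀ s ∈ Icc (0:ℝ) 1, ∀ t ∈ Icc (0:ℝ) 1,
      Real.exp (L (s, t)).re * Real.sin (L (s, t)).im = (α s).2 - (β t).2 := by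
    intro s hs t ht
    rw [← im_exp_eq, hLG]
    simp only [hG, clamp_of_mem hs, clamp_of_mem ht]
  -- sides
  have hc1 : ∀ t : ℝ, ContinuousOn (fun s : ℝ => (L (s, t)).im) (Icc 0 1) := fun t =>
    (Complex.continuous_im.comp (hL.comp (by fun_prop))).continuousOn
  have hc2 : ∀ s : ℝ, ContinuousOn (fun t : ℝ => (L (s, t)).im) (Icc 0 1) := fun t =>
    (Complex.continuous_im.comp (hL.comp (by fun_prop))).continuousOn
  -- bottom
  obtain ⟨k, hk⟩ := arc (hc1 0) 0 (by
    intro s hs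
    have h1 := him s hs 0 hz
    have h2 : c ≤ (α s).2 := (hαr s hs).2.1
    rw [hβ0] at h1
    rw [add_zero]
    by_contra hneg
    push Not at hneg
    nlinarith [Real.exp_pos (L (s, 0)).re])
  -- top
  obtain ⟨n, hn⟩ := arc (hc1 1) π (by
    intro s hs
    have h1 := him s hs 1 ho
    have h2 : (α s).2 ≤ d := (hαr s hs).2.2
    rw [hβ1] at h1
    rw [Real.sin_add_pi]
    by_contra hneg
    push Not at hneg
    nlinarith [Real.exp_pos (L (s, 1)).re])
  -- right
  obtain ⟨m, hm⟩ := arc (hc2 1) (π / 2) (by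
    intro t ht
    have h1 := hre 1 ho t ht
    have h2 : (β t).1 ≤ b := (hβr t ht).1.2
    rw [hα1] at h1
    rw [Real.sin_add_pi_div_two]
    by_contra hneg
    push Not at hneg
    nlinarith [Real.exp_pos (L (1, t)).re])
  -- left
  obtain ⟨j, hj⟩ := arc (hc2 0) (-(π / 2)) (by
    intro t ht
    have h1 := hre 0 hz t ht
    have h2 : a ≤ (β t).1 := (hβr t ht).1.1
    rw [hα0] at h1
    rw [← sub_eq_add_neg, Real.sin_sub_pi_div_two]
    by_contra hneg
    push Not at hneg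
    nlinarith [Real.exp_pos (L (0, t)).re])
  have hpi := Real.pi_pos
  have k0 := hk 0 hz
  have k1 := hk 1 ho
  have m0 := hm 0 hz
  have m1 := hm 1 ho
  have n0 := hn 0 hz
  have n1 := hn 1 ho
  have j0 := hj 0 hz
  have j1 := hj 1 ho
  have e1 : k ≤ m := int_le_of (c := π) (by linarith [k1.1, m0.2]) (by linarith)
  have e3 : m ≤ n := int_le_of (c := π) (by linarith [m1.1, n1.2]) (by linarith)
  have e5 : n ≤ j + 1 := int_le_of (c := π) (by push_cast; linarith [n0.1, j1.2]) (by linarith)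
  have e6 : j + 1 ≤ n := int_le_of (c := 3 * π / 2) (by push_cast; linarith [n0.2, j1.1]) (by linarith)
  have e7 : j ≤ k := int_le_of (c := π) (by linarith [j0.1, k0.2]) (by linarith)
  have e8 : k ≤ j := int_le_of (c := 3 * π / 2) (by linarith [j0.2, k0.1]) (by linarith)
  have e2 : m ≤ k := int_le_of (c := 3 * π / 2) (by linarith [k1.2, m0.1]) (by linarith)
  have e4 : n ≤ m := int_le_of (c := 3 * π / 2) (by linarith [m1.2, n1.1]) (by linarith)
  omega

/-! ### loop separation -/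

theorem eq_of_exp_eq_one {f : ℝ → ℂ} (hf : ContinuousOn f (Icc 0 1))
    (h : ∀ t ∈ Icc (0:ℝ) 1, Complex.exp (f t) = 1) : f 0 = f 1 := by
  have hpi := Real.pi_pos
  have hz : (0:ℝ) ∈ Icc (0:ℝ) 1 := ⟨le_rfl, zero_le_one⟩
  have ho : (1:ℝ) ∈ Icc (0:ℝ) 1 := ⟨zero_le_one, le_rfl⟩
  have key : ∀ t ∈ Icc (0:ℝ) 1, ∃ m : ℤ, f t = m * (2 * π * Complex.I) := fun t ht =>
    Complex.exp_eq_one_iff.1 (h t ht)
  have hfim : ContinuousOn (fun t => (f t).im) (Icc 0 1) :=
    Complex.continuous_im.comp_continuousOn hf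
  obtain ⟨k, hk⟩ := arc_strict hfim (π / 2) (by
    intro t ht
    rw [Real.sin_add_pi_div_two]
    obtain ⟨m, hm⟩ := key t ht
    rw [hm]
    have : ((m : ℂ) * (2 * π * Complex.I)).im = m * (2 * π) := by simp
    rw [this, Real.cos_int_mul_two_pi]
    exact one_pos)
  obtain ⟨m0, h0⟩ := key 0 hz
  obtain ⟨m1, h1⟩ := key 1 ho
  have k0 := hk 0 hz
  have k1 := hk 1 ho
  have e0 : (f 0).im = m0 * (2 * π) := by rw [h0]; simp
  have e1 : (f 1).im = m1 * (2 * π) := by rw [h1]; simp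
  simp only [e0, e1] at k0 k1
  have a1 : k ≤ m0 := int_le_of (c := π / 2) (by linarith [k0.1]) (by linarith)
  have a2 : m0 ≤ k := int_le_of (c := π / 2) (by linarith [k0.2]) (by linarith)
  have a3 : k ≤ m1 := int_le_of (c := π / 2) (by linarith [k1.1]) (by linarith)
  have a4 : m1 ≤ k := int_le_of (c := π / 2) (by linarith [k1.2]) (by linarith)
  have : m0 = m1 := by omega
  rw [h0, h1, this]

/-- The core of the loop separation: the two sides of a segment of a loop through `0`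
cannot be joined in the complement of the loop. -/
theorem loop_core {c δ : ℝ → ℂ} (hc : ContinuousOn c (Icc 0 1)) (hδ : ContinuousOn δ (Icc 0 1))
    {ε t r : ℝ} (hε : 0 < ε) (hε' : ε < 1 / 2) (ht : 0 < t) (hr : 3 * t < r)
    (h0 : ∀ s ∈ Icc (0:ℝ) ε, c s = s) (h1 : ∀ s ∈ Icc (0:ℝ) ε, c (1 - s) = -s)
    (hm : ∀ s ∈ Icc ε (1 - ε), r ≤ ‖c s‖)
    (hδ0 : δ 0 = -(t * Complex.I)) (hδ1 : δ 1 = t * Complex.I)
    (hne : ∀ s ∈ Icc (0:ℝ) 1, ∀ τ ∈ Icc (0:ℝ) 1, c s ≠ δ τ) : False := by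
  have hpi := Real.pi_pos
  have hz : (0:ℝ) ∈ Icc (0:ℝ) 1 := ⟨le_rfl, zero_le_one⟩
  have ho : (1:ℝ) ∈ Icc (0:ℝ) 1 := ⟨zero_le_one, le_rfl⟩
  set G : P → ℂ := fun x => c (clamp x.1) - δ (clamp x.2) with hG
  have hGc : Continuous G :=
    ((continuous_comp_clamp hc).comp continuous_fst).sub ((continuous_comp_clamp hδ).comp continuous_snd)
  obtain ⟨L, hL, hLG⟩ := exists_log G hGc
    (fun x => sub_ne_zero.2 (hne _ (clamp_mem x.1) _ (clamp_mem x.2)))
  have hexp : ∀ s ∈ Icc (0:ℝ) 1, ∀ τ ∈ Icc (0:ℝ) 1, Complex.exp (L (s, τ)) = c s - δ τ := by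
    intro s hs τ hτ
    rw [hLG]
    simp only [hG, clamp_of_mem hs, clamp_of_mem hτ]
  have hc1 : ∀ t : ℝ, Continuous (fun s : ℝ => L (s, t)) := fun t => hL.comp (by fun_prop)
  have hc2 : ∀ s : ℝ, Continuous (fun t : ℝ => L (s, t)) := fun t => hL.comp (by fun_prop)
  have hc0 : c 0 = 0 := by simpa using h0 0 ⟨le_rfl, hε.le⟩
  have hc1' : c 1 = 0 := by simpa using h1 0 ⟨le_rfl, hε.le⟩
  -- D 0 = D 1
  have hD : L (1, 0) - L (0, 0) = L (1, 1) - L (0, 1) := by
    refine eq_of_exp_eq_one (f := fun τ => L (1, τ) - L (0, τ))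
      ((hc2 1).sub (hc2 0)).continuousOn ?_
    intro τ hτ
    rw [Complex.exp_sub, hexp 1 ho τ hτ, hexp 0 hz τ hτ, hc0, hc1', div_self]
    have h5 := sub_ne_zero.2 (hne 0 hz τ hτ)
    rwa [hc0] at h5
  -- upper function `θ1 s = Im L (s, 0)`, with `exp = c s + i t`
  -- lower function `θ0 s = Im L (s, 1)`, with `exp = c s - i t`
  have re1 : ∀ s ∈ Icc (0:ℝ) 1, Real.exp (L (s, 0)).re * Real.cos (L (s, 0)).im = (c s).re := by
    intro s hs
    rw [← re_exp_eq, hexp s hs 0 hz, hδ0]; simp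
  have im1 : ∀ s ∈ Icc (0:ℝ) 1, Real.exp (L (s, 0)).re * Real.sin (L (s, 0)).im = (c s).im + t := by
    intro s hs
    rw [← im_exp_eq, hexp s hs 0 hz, hδ0]; simp
  have re0 : ∀ s ∈ Icc (0:ℝ) 1, Real.exp (L (s, 1)).re * Real.cos (L (s, 1)).im = (c s).re := by
    intro s hs
    rw [← re_exp_eq, hexp s hs 1 ho, hδ1]; simp
  have im0 : ∀ s ∈ Icc (0:ℝ) 1, Real.exp (L (s, 1)).re * Real.sin (L (s, 1)).im = (c s).im - t := by
    intro s hs
    rw [← im_exp_eq, hexp s hs 1 ho, hδ1]; simp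
  have posof : ∀ {x y z : ℝ}, Real.exp x * y = z → 0 < z → 0 < y := by
    intro x y z h hz
    by_contra hcon
    push Not at hcon
    nlinarith [Real.exp_pos x]
  have zeroof : ∀ {x y : ℝ}, Real.exp x * y = 0 → y = 0 := by
    intro x y h
    rcases mul_eq_zero.1 h with h | h
    · exact absurd h (Real.exp_pos x).ne'
    · exact h
  have inc1 : Icc (0:ℝ) ε ⊆ Icc 0 1 := Icc_subset_Icc le_rfl (by linarith)
  have inc2 : Icc (1 - ε) 1 ⊆ Icc (0:ℝ) 1 := Icc_subset_Icc (by linarith) le_rfl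
  have inc3 : Icc ε (1 - ε) ⊆ Icc (0:ℝ) 1 := Icc_subset_Icc hε.le (by linarith)
  have hcR : ∀ s ∈ Icc (1 - ε) (1:ℝ), c s = -((1 - s : ℝ) : ℂ) := by
    intro s hs
    have := h1 (1 - s) ⟨by linarith [hs.2], by linarith [hs.1]⟩
    rw [sub_sub_cancel] at this
    exact this
  -- left part
  obtain ⟨a, ha⟩ := arc_strict (a := 0) (b := ε) (θ := fun s => (L (s, 0)).im)
    (Complex.continuous_im.comp (hc1 0)).continuousOn 0 (by
      intro s hs
      rw [add_zero]
      refine posof (im1 s (inc1 hs)) ?_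
      rw [h0 s hs]; simpa using ht)
  obtain ⟨b, hb⟩ := arc_strict (a := 0) (b := ε) (θ := fun s => (L (s, 1)).im)
    (Complex.continuous_im.comp (hc1 1)).continuousOn π (by
      intro s hs
      rw [Real.sin_add_pi]
      have h2 := im0 s (inc1 hs)
      rw [h0 s hs, Complex.ofReal_im] at h2
      exact posof (x := (L (s, 1)).re) (z := t) (by linarith) ht)
  -- right part
  obtain ⟨a', ha'⟩ := arc_strict (a := 1 - ε) (b := 1) (θ := fun s => (L (s, 0)).im)
    (Complex.continuous_im.comp (hc1 0)).continuousOn 0 (by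
      intro s hs
      rw [add_zero]
      refine posof (im1 s (inc2 hs)) ?_
      rw [hcR s hs, ← Complex.ofReal_neg, Complex.ofReal_im, zero_add]; exact ht)
  obtain ⟨b', hb'⟩ := arc_strict (a := 1 - ε) (b := 1) (θ := fun s => (L (s, 1)).im)
    (Complex.continuous_im.comp (hc1 1)).continuousOn π (by
      intro s hs
      rw [Real.sin_add_pi]
      have h2 := im0 s (inc2 hs)
      rw [hcR s hs, ← Complex.ofReal_neg, Complex.ofReal_im] at h2
      exact posof (x := (L (s, 1)).re) (z := t) (by linarith) ht)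
  -- middle
  obtain ⟨n, hn⟩ := arc_strict (a := ε) (b := 1 - ε) (θ := fun s => (L (s, 0) - L (s, 1)).im)
    (Complex.continuous_im.comp ((hc1 0).sub (hc1 1))).continuousOn (π / 2) (by
      intro s hs
      rw [Real.sin_add_pi_div_two]
      have h2 := re_exp_eq (L (s, 0) - L (s, 1))
      rw [Complex.exp_sub, hexp s (inc3 hs) 0 hz, hexp s (inc3 hs) 1 ho, hδ0, hδ1] at h2
      refine posof h2.symm ?_
      have hcs := hm s hs
      set w := c s with hw
      have hwt : ‖w - t * Complex.I‖ > 2 * t := by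
        have h3 : ‖(t : ℂ) * Complex.I‖ = t := by
          rw [norm_mul, Complex.norm_I, Complex.norm_real, Real.norm_eq_abs, abs_of_pos ht, mul_one]
        have h4 := norm_sub_norm_le w (t * Complex.I)
        rw [h3] at h4
        linarith
      have hne0 : w - t * Complex.I ≠ 0 := by
        intro h5
        rw [h5, norm_zero] at hwt
        linarith
      have h6 : (w - -(t * Complex.I)) / (w - t * Complex.I) =
          1 + (2 * t * Complex.I) / (w - t * Complex.I) := by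
        field_simp
        ring
      rw [h6, Complex.add_re, Complex.one_re]
      have h7 : ‖(2 * t * Complex.I) / (w - t * Complex.I)‖ < 1 := by
        rw [norm_div, div_lt_one (norm_pos_iff.2 hne0)]
        have h8 : ‖2 * (t : ℂ) * Complex.I‖ = 2 * t := by
          rw [norm_mul, norm_mul, Complex.norm_I, Complex.norm_real, Real.norm_eq_abs,
            abs_of_pos ht, mul_one]
          simp
        rw [h8]; exact hwt
      have h9 := (abs_lt.1 (lt_of_le_of_lt (Complex.abs_re_le_norm _) h7)).1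
      linarith)
  -- values at the end points
  have sc : ∀ (k : ℤ) (x : ℝ), 2 * π * k < x → x < 2 * π * k + π → Real.cos x = 0 →
      x = 2 * π * k + π / 2 := by
    intro k x h1 h2 h3
    have h4 : Real.cos (x - k * (2 * π)) = 0 := by rw [Real.cos_sub_int_mul_two_pi]; exact h3
    have h5 := Real.injOn_cos (x₁ := x - k * (2 * π)) (x₂ := π / 2)
      ⟨by linarith, by linarith⟩ ⟨by linarith, by linarith⟩ (by rw [h4, Real.cos_pi_div_two])
    linarith
  have sc1 : ∀ (k : ℤ) (x : ℝ), 2 * π * k < x → x < 2 * π * k + π → 0 < Real.cos x →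
      x < 2 * π * k + π / 2 := by
    intro k x h1 h2 h3
    by_contra hcon
    push Not at hcon
    have h4 : Real.cos (x - k * (2 * π)) ≤ 0 :=
      Real.cos_nonpos_of_pi_div_two_le_of_le (by linarith) (by linarith)
    rw [Real.cos_sub_int_mul_two_pi] at h4
    linarith
  have sc2 : ∀ (k : ℤ) (x : ℝ), 2 * π * k < x → x < 2 * π * k + π → Real.cos x < 0 →
      2 * π * k + π / 2 < x := by
    intro k x h1 h2 h3
    by_contra hcon
    push Not at hcon
    have h4 : 0 ≤ Real.cos (x - k * (2 * π)) :=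
      Real.cos_nonneg_of_neg_pi_div_two_le_of_le (by linarith) (by linarith)
    rw [Real.cos_sub_int_mul_two_pi] at h4
    linarith
  have m0 : (0:ℝ) ∈ Icc (0:ℝ) ε := ⟨le_rfl, hε.le⟩
  have mε : ε ∈ Icc (0:ℝ) ε := ⟨hε.le, le_rfl⟩
  have mε' : ε ∈ Icc ε (1 - ε) := ⟨le_rfl, by linarith⟩
  have m1 : (1:ℝ) ∈ Icc (1 - ε) 1 := ⟨by linarith, le_rfl⟩
  have me : (1 - ε) ∈ Icc (1 - ε) (1:ℝ) := ⟨le_rfl, by linarith⟩
  have me' : (1 - ε) ∈ Icc ε (1 - ε) := ⟨by linarith, le_rfl⟩
  -- at 0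
  have c10 : (L (0, 0)).im = 2 * π * a + π / 2 := by
    have h2 := ha 0 m0
    have h3 := re1 0 hz
    rw [hc0, Complex.zero_re] at h3
    have := sc a _ h2.1 h2.2 (by rw [add_zero]; exact zeroof h3)
    linarith
  have c00 : (L (0, 1)).im = 2 * π * b - π / 2 := by
    have h2 := hb 0 m0
    have h3 := re0 0 hz
    rw [hc0, Complex.zero_re] at h3
    have := sc b _ h2.1 h2.2 (by rw [Real.cos_add_pi, zeroof h3, neg_zero])
    linarith
  have c11 : (L (1, 0)).im = 2 * π * a' + π / 2 := by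
    have h2 := ha' 1 m1
    have h3 := re1 1 ho
    rw [hc1', Complex.zero_re] at h3
    have := sc a' _ h2.1 h2.2 (by rw [add_zero]; exact zeroof h3)
    linarith
  have c01 : (L (1, 1)).im = 2 * π * b' - π / 2 := by
    have h2 := hb' 1 m1
    have h3 := re0 1 ho
    rw [hc1', Complex.zero_re] at h3
    have := sc b' _ h2.1 h2.2 (by rw [Real.cos_add_pi, zeroof h3, neg_zero])
    linarith
  -- at ε
  have d1 : 2 * π * a < (L (ε, 0)).im ∧ (L (ε, 0)).im < 2 * π * a + π / 2 := by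
    have h2 := ha ε mε
    have h3 := re1 ε (inc1 mε)
    rw [h0 ε mε, Complex.ofReal_re] at h3
    have := sc1 a _ h2.1 h2.2 (by rw [add_zero]; exact posof h3 hε)
    exact ⟨by linarith [h2.1], by linarith⟩
  have d2 : 2 * π * b - π / 2 < (L (ε, 1)).im ∧ (L (ε, 1)).im < 2 * π * b := by
    have h2 := hb ε mε
    have h3 := re0 ε (inc1 mε)
    rw [h0 ε mε, Complex.ofReal_re] at h3
    have h4 := posof h3 hε
    have := sc2 b _ h2.1 h2.2 (by rw [Real.cos_add_pi]; linarith)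
    exact ⟨by linarith [h2.1], by linarith [h2.2]⟩
  -- at 1 - ε
  have hcme := hcR (1 - ε) me
  rw [sub_sub_cancel] at hcme
  have d3 : 2 * π * a' + π / 2 < (L (1 - ε, 0)).im ∧ (L (1 - ε, 0)).im < 2 * π * a' + π := by
    have h2 := ha' (1 - ε) me
    have h3 := re1 (1 - ε) (inc2 me)
    rw [hcme, ← Complex.ofReal_neg, Complex.ofReal_re] at h3
    have h4 : 0 < -Real.cos (L (1 - ε, 0)).im :=
      posof (x := (L (1 - ε, 0)).re) (z := ε) (by linarith) hε
    have := sc2 a' _ h2.1 h2.2 (by rw [add_zero]; linarith)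
    exact ⟨by linarith, by linarith [h2.2]⟩
  have d4 : 2 * π * b' - π < (L (1 - ε, 1)).im ∧ (L (1 - ε, 1)).im < 2 * π * b' - π / 2 := by
    have h2 := hb' (1 - ε) me
    have h3 := re0 (1 - ε) (inc2 me)
    rw [hcme, ← Complex.ofReal_neg, Complex.ofReal_re] at h3
    have h4 : 0 < -Real.cos (L (1 - ε, 1)).im :=
      posof (x := (L (1 - ε, 1)).re) (z := ε) (by linarith) hε
    have := sc1 b' _ h2.1 h2.2 (by rw [Real.cos_add_pi]; exact h4)
    exact ⟨by linarith [h2.1], by linarith⟩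
  have f1 := hn ε mε'
  have f2 := hn (1 - ε) me'
  simp only [Complex.sub_im] at f1 f2
  -- conclusions
  have g1 : n ≤ a - b := int_le_of (c := 3 * π / 2)
    (by push_cast; linarith [f1.1, d1.2, d2.1]) (by linarith)
  have g2 : a - b ≤ n := int_le_of (c := π / 2)
    (by push_cast; linarith [f1.2, d1.1, d2.2]) (by linarith)
  have g3 : n ≤ a' - b' + 1 := int_le_of (c := π / 2)
    (by push_cast; linarith [f2.1, d3.2, d4.1]) (by linarith)
  have g4 : a' - b' + 1 ≤ n := int_le_of (c := 3 * π / 2)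
    (by push_cast; linarith [f2.2, d3.1, d4.2]) (by linarith)
  have hD' := congrArg Complex.im hD
  simp only [Complex.sub_im] at hD'
  have hab : (a : ℝ) - b = a' - b' := by
    have : 2 * π * ((a : ℝ) - b) = 2 * π * (a' - b') := by linarith
    exact mul_left_cancel₀ (by positivity) this
  have hab' : a - b = a' - b' := by exact_mod_cast hab
  omega

/-- Components of the complement of a closed set. -/
theorem comp_props {F : Type*} [TopologicalSpace F] [LocallyConnectedSpace F] {K : Set F}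
    (hK : IsClosed K) {x : F} (hx : x ∉ K) :
    IsOpen (connectedComponentIn Kᶜ x) ∧ IsConnected (connectedComponentIn Kᶜ x) ∧
      Disjoint (connectedComponentIn Kᶜ x) K ∧ frontier (connectedComponentIn Kᶜ x) ⊆ K := by
  have ho : IsOpen (connectedComponentIn Kᶜ x) := hK.isOpen_compl.connectedComponentIn
  refine ⟨ho, isConnected_connectedComponentIn_iff.2 hx, ?_, ?_⟩
  · rw [Set.disjoint_left]
    intro y hy hyK
    exact connectedComponentIn_subset _ _ hy hyK
  · intro y hy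
    by_contra hyK
    have h1 : IsOpen (connectedComponentIn Kᶜ y) := hK.isOpen_compl.connectedComponentIn
    have h2 : y ∈ connectedComponentIn Kᶜ y := mem_connectedComponentIn hyK
    have h3 : y ∈ closure (connectedComponentIn Kᶜ x) := frontier_subset_closure hy
    obtain ⟨z, hz1, hz2⟩ := mem_closure_iff.1 h3 _ h1 h2
    have e1 := connectedComponentIn_eq hz1
    have e2 := connectedComponentIn_eq hz2
    have h4 : y ∈ connectedComponentIn Kᶜ x := by rw [e2, ← e1]; exact h2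
    rw [ho.frontier_eq] at hy
    exact hy.2 h4

theorem isPreconnected_norm_gt (R : ℝ) : IsPreconnected {w : ℂ | R < ‖w‖} := by
  rcases lt_or_ge R 0 with hR | hR
  · have : {w : ℂ | R < ‖w‖} = univ := by
      ext w; simpa using lt_of_lt_of_le hR (norm_nonneg w)
    rw [this]; exact isPreconnected_univ
  have h1 : IsPreconnected ((Ioi R) ×ˢ (univ : Set ℝ)) :=
    isPreconnected_Ioi.prod isPreconnected_univ
  have h2 : {w : ℂ | R < ‖w‖} = (fun x : ℝ × ℝ => (x.1 : ℂ) * Complex.exp (x.2 * Complex.I)) ''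
      ((Ioi R) ×ˢ (univ : Set ℝ)) := by
    ext w
    constructor
    · intro hw
      exact ⟨(‖w‖, w.arg), ⟨hw, mem_univ _⟩, Complex.norm_mul_exp_arg_mul_I w⟩
    · rintro ⟨x, hx, rfl⟩
      have hx1 : R < x.1 := hx.1
      simp only [mem_ofPred_eq, norm_mul, Complex.norm_exp_ofReal_mul_I, mul_one, Complex.norm_real,
        Real.norm_eq_abs]
      rwa [abs_of_pos (lt_of_le_of_lt hR hx1)]
  rw [h2]
  refine h1.image _ ?_
  fun_prop

/-- Loop separation in `ℂ`. -/
theorem loop_sepC {c : ℝ → ℂ} (hc : ContinuousOn c (Icc 0 1)) {ε : ℝ} (hε : 0 < ε)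
    (hε' : ε < 1 / 2)
    (h0 : ∀ s ∈ Icc (0:ℝ) ε, c s = s) (h1 : ∀ s ∈ Icc (0:ℝ) ε, c (1 - s) = -s)
    (hne : ∀ s ∈ Ioo (0:ℝ) 1, c s ≠ 0) :
    ∃ Ω : Set ℂ, IsOpen Ω ∧ IsConnected Ω ∧ Bornology.IsBounded Ω ∧
      Disjoint Ω (c '' Icc 0 1) ∧ frontier Ω ⊆ c '' Icc 0 1 ∧
      ∃ σ : ℝ, (σ = 1 ∨ σ = -1) ∧ ∃ δ > 0, ∀ w : ℂ, ‖w‖ < δ → 0 < σ * w.im → w ∈ Ω := by
  set K : Set ℂ := c '' Icc 0 1 with hKdef
  have hKc : IsCompact K := isCompact_Icc.image_of_continuousOn hc
  have hKcl : IsClosed K := hKc.isClosed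
  have inc3 : Icc ε (1 - ε) ⊆ Icc (0:ℝ) 1 := Icc_subset_Icc hε.le (by linarith)
  obtain ⟨r, hr, hm⟩ : ∃ r > 0, ∀ s ∈ Icc ε (1 - ε), r ≤ ‖c s‖ := by
    obtain ⟨s, hs, hsm⟩ := isCompact_Icc.exists_isMinOn (⟨ε, le_rfl, by linarith⟩ : (Icc ε (1 - ε)).Nonempty)
      ((hc.mono inc3).norm)
    exact ⟨‖c s‖, norm_pos_iff.2 (hne s ⟨by linarith [hs.1], by linarith [hs.2]⟩), fun s' hs' => hsm hs'⟩
  set d : ℝ := min ε r with hd
  have hd0 : 0 < d := lt_min hε hr
  -- half discs avoid `K`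
  have hhalf : ∀ w : ℂ, ‖w‖ < d → w.im ≠ 0 → w ∉ K := by
    rintro w hw hwi ⟨s, hs, rfl⟩
    rcases le_or_gt s ε with h | h
    · rw [h0 s ⟨hs.1, h⟩] at hwi
      simp at hwi
    · rcases le_or_gt (1 - ε) s with h' | h'
      · have h2 := h1 (1 - s) ⟨by linarith [hs.2], by linarith⟩
        rw [sub_sub_cancel] at h2
        rw [h2, ← Complex.ofReal_neg] at hwi
        simp at hwi
      · exact absurd (lt_of_le_of_lt (hm s ⟨h.le, h'.le⟩) hw) (not_lt.2 (min_le_right _ _))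
  set t : ℝ := d / 4 with ht
  have ht0 : 0 < t := by positivity
  have htr : 3 * t < r := by
    have : d ≤ r := min_le_right _ _
    linarith
  have hxp : ∀ σ : ℝ, (σ = 1 ∨ σ = -1) → ‖(σ * t : ℂ) * Complex.I‖ = t ∧
      ((σ * t : ℂ) * Complex.I).im = σ * t := by
    intro σ hσ
    constructor
    · rw [norm_mul, norm_mul, Complex.norm_I, Complex.norm_real, Complex.norm_real,
        Real.norm_eq_abs, Real.norm_eq_abs, abs_of_pos ht0]
      rcases hσ with rfl | rfl <;> simp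
    · simp
  have hxK : ∀ σ : ℝ, (σ = 1 ∨ σ = -1) → (σ * t : ℂ) * Complex.I ∉ K := by
    intro σ hσ
    refine hhalf _ ?_ ?_
    · rw [(hxp σ hσ).1]; linarith
    · rw [(hxp σ hσ).2]
      rcases hσ with rfl | rfl <;> simp <;> exact ht0.ne'
  -- half discs lie in the components
  have hcomp : ∀ σ : ℝ, (σ = 1 ∨ σ = -1) → ∀ w : ℂ, ‖w‖ < d → 0 < σ * w.im →
      w ∈ connectedComponentIn Kᶜ ((σ * t : ℂ) * Complex.I) := by
    intro σ hσ w hw hwi
    have hconv : Convex ℝ {w : ℂ | ‖w‖ < d ∧ 0 < σ * w.im} := by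
      have h2 : Convex ℝ (Metric.ball (0:ℂ) d) := convex_ball 0 d
      have h3 : Convex ℝ {w : ℂ | 0 < σ * w.im} := by
        intro x hx y hy a b ha hb hab
        simp only [mem_ofPred_eq] at hx hy ⊢
        have e1 : (a • x + b • y).im = a * x.im + b * y.im := by simp
        rw [e1]
        rcases ha.eq_or_lt with rfl | ha'
        · have : b = 1 := by linarith
          subst this
          linarith
        · nlinarith [mul_nonneg hb hy.le, mul_pos ha' hx]
      have : {w : ℂ | ‖w‖ < d ∧ 0 < σ * w.im} = Metric.ball (0:ℂ) d ∩ {w : ℂ | 0 < σ * w.im} := by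
        ext w; simp
      rw [this]
      exact h2.inter h3
    refine hconv.isPreconnected.subset_connectedComponentIn ?_ ?_ ⟨hw, hwi⟩
    · refine ⟨by rw [(hxp σ hσ).1]; linarith, ?_⟩
      rw [(hxp σ hσ).2]
      rcases hσ with rfl | rfl <;> simp <;> linarith
    · rintro y ⟨hy1, hy2⟩
      refine hhalf y hy1 ?_
      intro h; rw [h, mul_zero] at hy2; exact lt_irrefl _ hy2
  -- separation
  have hsep : (((-1 : ℝ) : ℂ) * t) * Complex.I ∉
      connectedComponentIn Kᶜ ((((1 : ℝ) : ℂ) * t) * Complex.I) := by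
    intro hmem
    obtain ⟨o1, o2, o3, -⟩ := comp_props hKcl (hxK 1 (Or.inl rfl))
    have hpc := (IsOpen.isConnected_iff_isPathConnected o1).1 o2
    obtain ⟨γ, hγ⟩ := hpc.joinedIn _ hmem _ (mem_connectedComponentIn (hxK 1 (Or.inl rfl)))
    refine loop_core hc (δ := fun τ => γ.extend τ) γ.continuous_extend.continuousOn hε hε' ht0 htr
      h0 h1 hm ?_ ?_ ?_
    · rw [γ.extend_zero]; push_cast; ring
    · rw [γ.extend_one]; push_cast; ring
    · intro s hs τ hτ he
      have h2 : γ.extend τ ∈ connectedComponentIn Kᶜ ((((1 : ℝ) : ℂ) * t) * Complex.I) := by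
        rw [γ.extend_apply hτ]; exact hγ _
      exact Set.disjoint_left.1 o3 h2 (he ▸ mem_image_of_mem _ hs)
  -- one of them is bounded
  have hbd : ∃ σ : ℝ, (σ = 1 ∨ σ = -1) ∧
      Bornology.IsBounded (connectedComponentIn Kᶜ ((σ * t : ℂ) * Complex.I)) := by
    obtain ⟨R, hR⟩ := hKc.isBounded.subset_closedBall (0:ℂ)
    have hbig : {w : ℂ | R < ‖w‖} ⊆ Kᶜ := by
      intro w hw hwK
      have := hR hwK
      rw [mem_closedBall_zero_iff] at this
      exact absurd hw (not_lt.2 this)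
    by_contra hcon
    push Not at hcon
    have hmeet : ∀ σ : ℝ, (σ = 1 ∨ σ = -1) →
        ∃ w, R < ‖w‖ ∧ w ∈ connectedComponentIn Kᶜ ((σ * t : ℂ) * Complex.I) := by
      intro σ hσ
      by_contra hno
      push Not at hno
      refine hcon σ hσ ((Metric.isBounded_closedBall (x := (0:ℂ)) (r := R)).subset ?_)
      intro w hw
      rw [mem_closedBall_zero_iff]
      by_contra h
      exact hno w (not_le.1 h) hw
    obtain ⟨w1, hw1, hw1'⟩ := hmeet 1 (Or.inl rfl)
    obtain ⟨w2, hw2, hw2'⟩ := hmeet (-1) (Or.inr rfl)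
    have e1 := connectedComponentIn_eq hw1'
    have e2 := connectedComponentIn_eq hw2'
    have h3 : w2 ∈ connectedComponentIn Kᶜ w1 :=
      (isPreconnected_norm_gt R).subset_connectedComponentIn hw1 hbig hw2
    have e3 := connectedComponentIn_eq h3
    refine hsep ?_
    rw [e1, e3, ← e2]
    exact mem_connectedComponentIn (hxK (-1) (Or.inr rfl))
  obtain ⟨σ, hσ, hb⟩ := hbd
  obtain ⟨o1, o2, o3, o4⟩ := comp_props hKcl (hxK σ hσ)
  exact ⟨_, o1, o2, hb, o3, o4, σ, hσ, d, hd0, hcomp σ hσ⟩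

theorem loop_sep {J : ℝ → P} (hJ : ContinuousOn J (Icc 0 1)) {p e : P}
    (he : e.1 ^ 2 + e.2 ^ 2 = 1) {ε : ℝ} (hε : 0 < ε) (hε' : ε < 1 / 2)
    (h0 : ∀ s ∈ Icc (0:ℝ) ε, J s = p + s • e) (h1 : ∀ s ∈ Icc (0:ℝ) ε, J (1 - s) = p - s • e)
    (hne : ∀ s ∈ Ioo (0:ℝ) 1, J s ≠ p) :
    ∃ Ω : Set P, IsOpen Ω ∧ IsConnected Ω ∧ Bornology.IsBounded Ω ∧
      Disjoint Ω (J '' Icc 0 1) ∧ frontier Ω ⊆ J '' Icc 0 1 ∧
      ∃ σ : ℝ, (σ = 1 ∨ σ = -1) ∧ ∃ δ > 0, ∀ y : P, ‖y‖ < δ →
        0 < σ * (y.2 * e.1 - y.1 * e.2) → p + y ∈ Ω := by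
  let ψ : P ≃ₜ ℂ :=
    { toFun := fun x => (((x.1 - p.1) * e.1 + (x.2 - p.2) * e.2 : ℝ) : ℂ) +
        (((x.2 - p.2) * e.1 - (x.1 - p.1) * e.2 : ℝ) : ℂ) * Complex.I
      invFun := fun w => (p.1 + (w.re * e.1 - w.im * e.2), p.2 + (w.re * e.2 + w.im * e.1))
      left_inv := by
        intro x
        ext
        · simp; linear_combination (x.1 - p.1) * he
        · simp; linear_combination (x.2 - p.2) * he
      right_inv := by
        intro w
        apply Complex.ext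
        · simp; linear_combination w.re * he
        · simp; linear_combination w.im * he
      continuous_toFun := by fun_prop
      continuous_invFun := by fun_prop }
  have ψre : ∀ x, (ψ x).re = (x.1 - p.1) * e.1 + (x.2 - p.2) * e.2 := by
    intro x; simp [ψ]
  have ψim : ∀ x, (ψ x).im = (x.2 - p.2) * e.1 - (x.1 - p.1) * e.2 := by
    intro x; simp [ψ]
  obtain ⟨Ω, o1, o2, o3, o4, o5, σ, hσ, d, hd, hΩ⟩ := loop_sepC (c := fun s => ψ (J s))
    (ψ.continuous.comp_continuousOn hJ) hε hε'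
    (by
      intro s hs
      rw [h0 s hs]
      apply Complex.ext
      · rw [ψre]; simp; linear_combination s * he
      · rw [ψim]; simp; ring)
    (by
      intro s hs
      rw [h1 s hs]
      apply Complex.ext
      · rw [ψre]; simp; linear_combination -s * he
      · rw [ψim]; simp; ring)
    (by
      intro s hs h
      refine hne s hs (ψ.injective ?_)
      rw [h]
      apply Complex.ext
      · rw [ψre]; simp
      · rw [ψim]; simp)
  have himg : (fun s => ψ (J s)) '' Icc 0 1 = ψ '' (J '' Icc 0 1) := by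
    rw [← image_comp]; rfl
  rw [himg] at o4 o5
  refine ⟨ψ ⁻¹' Ω, ψ.continuous.isOpen_preimage _ o1, ?_, ?_, ?_, ?_, σ, hσ, d / 2, by positivity, ?_⟩
  · exact ψ.isConnected_preimage.2 o2
  · have h2 : IsCompact (ψ.symm '' closure Ω) := o3.isCompact_closure.image ψ.symm.continuous
    refine h2.isBounded.subset ?_
    intro x hx
    exact ⟨ψ x, subset_closure hx, ψ.symm_apply_apply x⟩
  · rw [Set.disjoint_left] at o4 ⊢
    intro x hx hx'
    exact o4 hx (mem_image_of_mem _ hx')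
  · rw [← ψ.preimage_frontier]
    intro x hx
    obtain ⟨y, hy, hyx⟩ := o5 hx
    rw [← ψ.injective hyx]; exact hy
  · intro y hy hy2
    have e1 : (ψ (p + y)).re = y.1 * e.1 + y.2 * e.2 := by rw [ψre]; simp
    have e2 : (ψ (p + y)).im = y.2 * e.1 - y.1 * e.2 := by rw [ψim]; simp
    refine hΩ _ ?_ (by rw [e2]; exact hy2)
    have hy1' : |y.1| < d / 2 := lt_of_le_of_lt (norm_fst_le y) hy
    have hy2' : |y.2| < d / 2 := lt_of_le_of_lt (norm_snd_le y) hy
    have h3 : ‖ψ (p + y)‖ ^ 2 < d ^ 2 := by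
      rw [← Complex.normSq_eq_norm_sq, Complex.normSq_apply, e1, e2]
      have h4 : (y.1 * e.1 + y.2 * e.2) * (y.1 * e.1 + y.2 * e.2) +
          (y.2 * e.1 - y.1 * e.2) * (y.2 * e.1 - y.1 * e.2) =
          (y.1 ^ 2 + y.2 ^ 2) * (e.1 ^ 2 + e.2 ^ 2) := by ring
      rw [h4, he, mul_one]
      have h5 : y.1 ^ 2 ≤ (d / 2) ^ 2 := by
        rw [← sq_abs y.1]; exact pow_le_pow_left₀ (abs_nonneg _) hy1'.le 2
      have h6 : y.2 ^ 2 ≤ (d / 2) ^ 2 := by
        rw [← sq_abs y.2]; exact pow_le_pow_left₀ (abs_nonneg _) hy2'.le 2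
      nlinarith
    exact lt_of_pow_lt_pow_left₀ 2 hd.le h3

theorem not_preconn {X : P → ℝ} (hX : Continuous X) {p e : P} (he : e.1 ^ 2 + e.2 ^ 2 = 1)
    (hmin : ∀ Ω : Set P, IsOpen Ω → Bornology.IsBounded Ω → (∀ y ∈ frontier Ω, X p ≤ X y) →
      ∀ y ∈ Ω, X p ≤ X y) {ε : ℝ} (hε : 0 < ε)
    (hpos : ∀ s : ℝ, s ≠ 0 → |s| ≤ ε → X p < X (p + s • e))
    (hneg : ∀ s : ℝ, s ≠ 0 → |s| ≤ ε → X (p + s • ((-e.2, e.1) : P)) < X p) :
    ¬ IsPreconnected {x | X p < X x} := by
  intro hpre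
  set d : ℝ := min ε (1 / 4) with hd
  have hd0 : 0 < d := lt_min hε (by norm_num)
  have hdε : d ≤ ε := min_le_left _ _
  have hd4 : d ≤ 1 / 4 := min_le_right _ _
  have hop : IsOpen {x | X p < X x} := isOpen_lt continuous_const hX
  have hm1 : p + d • e ∈ {x | X p < X x} := hpos d hd0.ne' (by rw [abs_of_pos hd0]; exact hdε)
  have hm2 : p - d • e ∈ {x | X p < X x} := by
    have := hpos (-d) (neg_ne_zero.2 hd0.ne') (by rw [abs_neg, abs_of_pos hd0]; exact hdε)
    rwa [neg_smul, ← sub_eq_add_neg] at this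
  have hpc : IsPathConnected {x | X p < X x} :=
    (IsOpen.isConnected_iff_isPathConnected hop).1 ⟨⟨_, hm1⟩, hpre⟩
  obtain ⟨γ, hγ⟩ := hpc.joinedIn _ hm1 _ hm2
  set J : ℝ → P := fun s => if s ≤ d then p + s • e else
    (if s ≤ 1 - d then γ.extend ((s - d) / (1 - 2 * d)) else p - (1 - s) • e) with hJdef
  have hden : (1 - 2 * d) ≠ 0 := by
    have : 0 < 1 - 2 * d := by linarith
    exact this.ne'
  have hquot : (1 - d - d) / (1 - 2 * d) = 1 := by
    rw [show 1 - d - d = 1 - 2 * d by ring]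
    exact div_self hden
  have hJc : Continuous J := by
    refine Continuous.if_le (by fun_prop) ?_ continuous_id continuous_const ?_
    · refine Continuous.if_le (γ.continuous_extend.comp (by fun_prop)) (by fun_prop) continuous_id
        continuous_const ?_
      intro s hs
      have hs' : s = 1 - d := hs
      rw [hs', hquot, γ.extend_one,
        show 1 - (1 - d) = d by ring]
    · intro s hs
      have hs' : s = d := hs
      rw [if_pos (by rw [hs']; linarith), hs', sub_self, zero_div, γ.extend_zero]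
  have hJ0 : ∀ s ∈ Icc (0:ℝ) d, J s = p + s • e := by
    intro s hs
    simp only [hJdef]
    rw [if_pos hs.2]
  have hJ1 : ∀ s ∈ Icc (0:ℝ) d, J (1 - s) = p - s • e := by
    intro s hs
    simp only [hJdef]
    rw [if_neg (by linarith [hs.2])]
    rcases hs.2.eq_or_lt with h | h
    · rw [if_pos (by linarith), h, hquot,
        γ.extend_one]
    · rw [if_neg (by linarith), sub_sub_cancel]
  have hJpos : ∀ s ∈ Ioo (0:ℝ) 1, X p < X (J s) := by
    intro s hs
    rcases le_or_gt s d with h | h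
    · rw [hJ0 s ⟨hs.1.le, h⟩]
      exact hpos s hs.1.ne' (by rw [abs_of_pos hs.1]; linarith)
    · rcases le_or_gt s (1 - d) with h' | h'
      · simp only [hJdef]
        rw [if_neg (not_le.2 h), if_pos h']
        have h2 : (s - d) / (1 - 2 * d) ∈ Icc (0:ℝ) 1 := by
          constructor
          · exact div_nonneg (by linarith) (by linarith)
          · rw [div_le_one (by linarith)]; linarith
        rw [γ.extend_apply h2]
        exact hγ _
      · have h3 := hJ1 (1 - s) ⟨by linarith [hs.2], by linarith⟩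
        rw [sub_sub_cancel] at h3
        rw [h3]
        have h4 := hpos (-(1 - s)) (neg_ne_zero.2 (by linarith [hs.2]))
          (by rw [abs_neg, abs_of_pos (by linarith [hs.2])]; linarith)
        rwa [neg_smul, ← sub_eq_add_neg] at h4
  obtain ⟨Ω, o1, -, o3, -, o5, σ, hσ, δ, hδ, hΩ⟩ := loop_sep hJc.continuousOn (p := p) he hd0
    (by linarith) hJ0 hJ1 (by
      intro s hs h
      have := hJpos s hs
      rw [h] at this
      exact lt_irrefl _ this)
  have hfr : ∀ y ∈ frontier Ω, X p ≤ X y := by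
    intro y hy
    obtain ⟨s, hs, rfl⟩ := o5 hy
    rcases hs.1.eq_or_lt with h | h
    · rw [← h, hJ0 0 ⟨le_rfl, hd0.le⟩]; simp
    · rcases hs.2.eq_or_lt with h' | h'
      · have := hJ1 0 ⟨le_rfl, hd0.le⟩
        rw [h']
        rw [sub_zero] at this
        rw [this]; simp
      · exact (hJpos s ⟨h, h'⟩).le
  have hall := hmin Ω o1 o3 hfr
  have hσ1 : |σ| = 1 := by rcases hσ with rfl | rfl <;> simp
  have hσ2 : σ * σ = 1 := by rcases hσ with rfl | rfl <;> simp
  set s : ℝ := min ε (δ / 2) with hs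
  have hs0 : 0 < s := lt_min hε (by positivity)
  have hsδ : s < δ := lt_of_le_of_lt (min_le_right _ _) (by linarith)
  have he1 : |e.1| ≤ 1 := by
    rw [← sq_le_one_iff_abs_le_one]; nlinarith [sq_nonneg e.2]
  have he2 : |e.2| ≤ 1 := by
    rw [← sq_le_one_iff_abs_le_one]; nlinarith [sq_nonneg e.1]
  have hmem : p + (σ * s) • ((-e.2, e.1) : P) ∈ Ω := by
    refine hΩ _ ?_ ?_
    · rw [norm_smul, norm_mul, Real.norm_eq_abs, hσ1, Real.norm_eq_abs, abs_of_pos hs0, one_mul]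
      have : ‖((-e.2, e.1) : P)‖ ≤ 1 := by
        rw [Prod.norm_def]
        simp only [norm_neg, Real.norm_eq_abs]
        exact max_le he2 he1
      nlinarith
    · have : ((σ * s) • ((-e.2, e.1) : P)).2 * e.1 - ((σ * s) • ((-e.2, e.1) : P)).1 * e.2 =
          σ * s * (e.1 ^ 2 + e.2 ^ 2) := by simp; ring
      rw [this, he, mul_one, ← mul_assoc, hσ2, one_mul]
      exact hs0
  have h5 := hall _ hmem
  have h6 := hneg (σ * s) (mul_ne_zero (by rintro rfl; simp at hσ1) hs0.ne')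
    (by rw [abs_mul, hσ1, one_mul, abs_of_pos hs0]; exact min_le_left _ _)
  linarith

end Pool.Agent.EU.Topo

namespace Pool.Agent.EU

/-- Crossing lemma. -/
theorem crossing {a b c d : ℝ} {α β : ℝ → P}
    (hα : ContinuousOn α (Icc 0 1)) (hβ : ContinuousOn β (Icc 0 1))
    (hαr : ∀ s ∈ Icc (0:ℝ) 1, α s ∈ Icc a b ×ˢ Icc c d)
    (hβr : ∀ s ∈ Icc (0:ℝ) 1, β s ∈ Icc a b ×ˢ Icc c d)
    (hα0 : (α 0).1 = a) (hα1 : (α 1).1 = b) (hβ0 : (β 0).2 = c) (hβ1 : (β 1).2 = d) :
    ∃ s ∈ Icc (0:ℝ) 1, ∃ t ∈ Icc (0:ℝ) 1, α s = β t :=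
  Topo.crossing hα hβ hαr hβr hα0 hα1 hβ0 hβ1

/-- Continuous logarithm on the plane. -/
theorem exists_clog {f : P → ℂ} (hf : Continuous f) (h0 : ∀ x, f x ≠ 0) :
    ∃ g : P → ℂ, Continuous g ∧ ∀ x, Complex.exp (g x) = f x := Topo.exists_log f hf h0

/-- Smooth logarithm on the plane. -/
theorem exists_clog_smooth {f : P → ℂ} (hf : ContDiff ℝ ∞ f) (h0 : ∀ x, f x ≠ 0) :
    ∃ g : P → ℂ, ContDiff ℝ ∞ g ∧ ∀ x, Complex.exp (g x) = f x := Topo.exists_smooth_log f hf h0

/-- Loop separation. -/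
theorem loop_sep {J : ℝ → P} (hJ : ContinuousOn J (Icc 0 1)) {p e : P}
    (he : e.1 ^ 2 + e.2 ^ 2 = 1) {ε : ℝ} (hε : 0 < ε) (hε' : ε < 1 / 2)
    (h0 : ∀ s ∈ Icc (0:ℝ) ε, J s = p + s • e) (h1 : ∀ s ∈ Icc (0:ℝ) ε, J (1 - s) = p - s • e)
    (hne : ∀ s ∈ Ioo (0:ℝ) 1, J s ≠ p) :
    ∃ Ω : Set P, IsOpen Ω ∧ IsConnected Ω ∧ Bornology.IsBounded Ω ∧
      Disjoint Ω (J '' Icc 0 1) ∧ frontier Ω ⊆ J '' Icc 0 1 ∧
      ∃ σ : ℝ, (σ = 1 ∨ σ = -1) ∧ ∃ δ > 0, ∀ y : P, ‖y‖ < δ →
        0 < σ * (y.2 * e.1 - y.1 * e.2) → p + y ∈ Ω :=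
  Topo.loop_sep hJ he hε hε' h0 h1 hne

/-- Saddle lemma. -/
theorem not_preconn {X : P → ℝ} (hX : Continuous X) {p e : P} (he : e.1 ^ 2 + e.2 ^ 2 = 1)
    (hmin : ∀ Ω : Set P, IsOpen Ω → Bornology.IsBounded Ω → (∀ y ∈ frontier Ω, X p ≤ X y) →
      ∀ y ∈ Ω, X p ≤ X y) {ε : ℝ} (hε : 0 < ε)
    (hpos : ∀ s : ℝ, s ≠ 0 → |s| ≤ ε → X p < X (p + s • e))
    (hneg : ∀ s : ℝ, s ≠ 0 → |s| ≤ ε → X (p + s • ((-e.2, e.1) : P)) < X p) :
    ¬ IsPreconnected {x | X p < X x} :=
  Topo.not_preconn hX he hmin hε hpos hneg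

end Pool.Agent.EU
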