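import Pool.Agent.EU.Defs

/-!
The two explicit families of entire solutions of `u₁₁ u₂₂ = 1`.
-/

set_option autoImplicit false
open scoped ContDiff Topology ENNReal
open Real Set MeasureTheory Filter

namespace Pool.Agent.EU

/-- coordinate in direction `γ` -/
noncomputable def sg (γ : ℝ) (q : P) : ℝ := q.1 * cos γ + q.2 * sin γ

/-- coordinate in direction `γ + π/2` -/
noncomputable def ta (γ : ℝ) (q : P) : ℝ := -(q.1 * sin γ) + q.2 * cos γ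

/-- exponential solutions `exp (cos φ (q₁ cos φ + q₂ sin φ))`, `φ = ν / 2` -/
noncomputable def EE (ν : ℝ) (q : P) : ℝ := Real.exp ((q.1 * (1 + cos ν) + q.2 * sin ν) / 2)

/-- `tan (φ - γ) (E_φ - e^{-τ sin γ})`, `φ = ν / 2`, with the removable singularity removed -/
noncomputable def kk (γ ν : ℝ) (q : P) : ℝ :=
  sin (ν / 2 - γ) * Real.exp (-(ta γ q * sin γ)) *
    ∫ r in (0:ℝ)..1, (sg γ q * cos (ν / 2) + ta γ q * sin (ν / 2)) *
      Real.exp (r * ((sg γ q * cos (ν / 2) + ta γ q * sin (ν / 2)) * cos (ν / 2 - γ)))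

noncomputable def W1 (M : Measure ℝ) (q : P) : ℝ := ∫ ν, EE ν q ∂M

noncomputable def K1 (γ b : ℝ) (M : Measure ℝ) (q : P) : ℝ :=
  b * Real.exp (-(ta γ q * sin γ)) + ∫ ν, kk γ ν q ∂M

/-- first family: `dx₁ = W dσ + κ dτ`, `dx₂ = e^{-q₁} (W dτ - κ dσ)` -/
structure TypeI (γ b : ℝ) (M : Measure ℝ) (F : P → P) : Prop where
  fin : IsFiniteMeasure M
  supp : M (Icc (-π) π)ᶜ = 0
  nz : M ≠ 0
  diff : Differentiable ℝ F
  dF : ∀ q h : P, fderiv ℝ F q h =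
    (W1 M q * sg γ h + K1 γ b M q * ta γ h,
      Real.exp (-q.1) * (W1 M q * ta γ h - K1 γ b M q * sg γ h))

/-- `N(t) = e^{t²} ∫_{-∞}^t e^{-s²} ds` -/
noncomputable def Nf (t : ℝ) : ℝ := Real.exp (t ^ 2) * ∫ s in Iic t, Real.exp (-s ^ 2)

/-- `Θ(t) = 1 + 2 t N(t)` -/
noncomputable def Th (t : ℝ) : ℝ := 1 + 2 * t * Nf t

noncomputable def W2 (M : Measure ℝ) (q : P) : ℝ := ∫ ν, Th (q.1 * cos ν + q.2 * sin ν) ∂M

noncomputable def K2 (b : ℝ) (M : Measure ℝ) (q : P) : ℝ :=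
  b + ∫ ν, 2 * (q.1 * sin ν - q.2 * cos ν) * Nf (q.1 * cos ν + q.2 * sin ν) ∂M

/-- second family: `dx₁ = e^{-q₂²} (W dq₁ + κ dq₂)`, `dx₂ = e^{-h₀-q₁²} (W dq₂ - κ dq₁)` -/
structure TypeII (h0 b : ℝ) (M : Measure ℝ) (F : P → P) : Prop where
  fin : IsFiniteMeasure M
  supp : M (Icc (-π) π)ᶜ = 0
  nz : M ≠ 0
  diff : Differentiable ℝ F
  dF : ∀ q h : P, fderiv ℝ F q h =
    (Real.exp (-q.2 ^ 2) * (W2 M q * h.1 + K2 b M q * h.2),
      Real.exp (-h0 - q.1 ^ 2) * (W2 M q * h.2 - K2 b M q * h.1))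

end Pool.Agent.EU
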