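import Pool.Agent.EU.C012
import Pool.Agent.EU.ClassDefs

/-!
The measure `M` is determined, on the circle, by the functions `W1 M`, `W2 M`.
-/

set_option autoImplicit false
open scoped ContDiff Topology
open Real Set MeasureTheory Filter ProbabilityTheory

namespace Pool.Agent.EU

theorem measurable_circ : Measurable circ := by unfold circ; fun_prop

theorem exp_int {M : Measure ℝ} [IsFiniteMeasure M] (θ : ℝ) :
    integrableExpSet (fun ν => cos (ν - θ)) M = univ := by
  refine eq_univ_of_forall fun t => ?_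
  show Integrable (fun ν => Real.exp (t * cos (ν - θ))) M
  refine Integrable.of_bound (by fun_prop) (Real.exp |t|) (Eventually.of_forall fun ν => ?_)
  rw [Real.norm_eq_abs, abs_of_pos (Real.exp_pos _), Real.exp_le_exp]
  calc t * cos (ν - θ) ≤ |t * cos (ν - θ)| := le_abs_self _
    _ = |t| * |cos (ν - θ)| := abs_mul _ _
    _ ≤ |t| * 1 := mul_le_mul_of_nonneg_left (abs_cos_le_one _) (abs_nonneg _)
    _ = |t| := mul_one _

theorem proj_eq_of_mgf {M M' : Measure ℝ} [IsFiniteMeasure M] [IsFiniteMeasure M'] (θ : ℝ)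
    (h : mgf (fun ν => cos (ν - θ)) M = mgf (fun ν => cos (ν - θ)) M') :
    M.map (fun ν => cos (ν - θ)) = M'.map (fun ν => cos (ν - θ)) := by
  have hm : Measurable fun ν => cos (ν - θ) := by fun_prop
  have h0 : M univ = M' univ := by
    have h1 := congrFun h 0
    simp only [mgf_zero'] at h1
    have h2 : M.real univ = M'.real univ := h1
    rw [Measure.real, Measure.real, ENNReal.toReal_eq_toReal_iff' (measure_ne_top _ _)
      (measure_ne_top _ _)] at h2
    exact h2
  have hz : M = 0 ↔ M' = 0 := by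
    rw [← Measure.measure_univ_eq_zero, ← Measure.measure_univ_eq_zero, h0]
  have h3 := eqOn_complexMGF_of_mgf' h hz
  refine Measure.ext_of_complexMGF_eq hm.aemeasurable hm.aemeasurable (funext fun z => h3 ?_)
  rw [exp_int]
  simp

theorem map_circ_eq {M M' : Measure ℝ} [IsFiniteMeasure M] [IsFiniteMeasure M']
    (h : ∀ θ, M.map (fun ν => cos (ν - θ)) = M'.map (fun ν => cos (ν - θ))) :
    M.map circ = M'.map circ := by
  have : IsFiniteMeasure (M.map circ) := Measure.isFiniteMeasure_map M circ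
  have : IsFiniteMeasure (M'.map circ) := Measure.isFiniteMeasure_map M' circ
  refine Measure.ext_of_charFunDual (funext fun L => ?_)
  obtain ⟨r, θ, e1, e2⟩ : ∃ r θ : ℝ, L (1, 0) = r * cos θ ∧ L (0, 1) = r * sin θ := by
    set z : ℂ := ⟨L (1, 0), L (0, 1)⟩ with hz
    refine ⟨‖z‖, Complex.arg z, ?_, ?_⟩
    · rw [Complex.norm_mul_cos_arg]
    · rw [Complex.norm_mul_sin_arg]
  have hL : ∀ ν, L (circ ν) = r * cos (ν - θ) := by
    intro ν
    have : circ ν = cos ν • ((1, 0) : P) + sin ν • ((0, 1) : P) := by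
      unfold circ; ext <;> simp
    rw [this, map_add, map_smul, map_smul, e1, e2, Real.cos_sub]
    simp only [smul_eq_mul]
    ring
  have key : ∀ N : Measure ℝ, charFunDual (N.map circ) L =
      ∫ y, Complex.exp ((r * y : ℝ) * Complex.I) ∂(N.map fun ν => cos (ν - θ)) := by
    intro N
    rw [charFunDual_apply, integral_map measurable_circ.aemeasurable (by fun_prop),
      integral_map (by fun_prop) (by fun_prop)]
    simp only [hL]
  rw [key, key, h θ]

theorem W1_polar (M : Measure ℝ) (t θ : ℝ) :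
    W1 M (2 * t * cos θ, 2 * t * sin θ) = Real.exp (t * cos θ) * mgf (fun ν => cos (ν - θ)) M t := by
  unfold W1 mgf
  rw [← integral_const_mul]
  congr 1
  funext ν
  show Real.exp ((2 * t * cos θ * (1 + cos ν) + 2 * t * sin θ * sin ν) / 2) =
    Real.exp (t * cos θ) * Real.exp (t * cos (ν - θ))
  rw [← Real.exp_add, Real.cos_sub]
  congr 1
  ring

/-- **uniqueness of the measure**, first family -/
theorem measure_unique_I {M M' : Measure ℝ} [IsFiniteMeasure M] [IsFiniteMeasure M']
    (h : ∀ q, W1 M q = W1 M' q) : M.map circ = M'.map circ := by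
  refine map_circ_eq fun θ => proj_eq_of_mgf θ (funext fun t => ?_)
  have := h (2 * t * cos θ, 2 * t * sin θ)
  rw [W1_polar, W1_polar] at this
  exact mul_left_cancel₀ (Real.exp_pos _).ne' this

/-! ### second family -/

theorem Th_smooth : ContDiff ℝ ∞ Th := Th_facts.1

theorem hasDerivAt_DTh (n : ℕ) (t : ℝ) :
    HasDerivAt (iteratedDeriv n Th) (iteratedDeriv (n + 1) Th t) t := by
  rw [iteratedDeriv_succ]
  refine DifferentiableAt.hasDerivAt ?_
  exact (Th_smooth.differentiable_iteratedDeriv n (WithTop.coe_lt_coe.2 (WithTop.coe_lt_top _))) t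

theorem DTh_rec (n : ℕ) : ∀ t : ℝ, iteratedDeriv (n + 2) Th t =
    2 * t * iteratedDeriv (n + 1) Th t + (2 * n + 4) * iteratedDeriv n Th t := by
  induction n with
  | zero =>
    intro t
    have := Th_facts.2.2.2.2.2.2.1 t
    rw [show (0 + 2) = 1 + 1 by rfl, iteratedDeriv_succ, iteratedDeriv_one, iteratedDeriv_zero]
    rw [this]
    simp
  | succ n ih =>
    intro t
    have h1 : HasDerivAt (fun t => 2 * t * iteratedDeriv (n + 1) Th t +
        (2 * n + 4) * iteratedDeriv n Th t)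
        ((2 * 1) * iteratedDeriv (n + 1) Th t + 2 * t * iteratedDeriv (n + 1 + 1) Th t +
          (2 * n + 4) * iteratedDeriv (n + 1) Th t) t :=
      (((hasDerivAt_id t).const_mul 2).mul (hasDerivAt_DTh (n + 1) t)).add
        ((hasDerivAt_DTh n t).const_mul _)
    have h2 : iteratedDeriv (n + 2) Th = fun t => 2 * t * iteratedDeriv (n + 1) Th t +
        (2 * n + 4) * iteratedDeriv n Th t := funext ih
    have h3 : iteratedDeriv (n + 3) Th t = deriv (iteratedDeriv (n + 2) Th) t := by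
      rw [iteratedDeriv_succ]
    rw [h2, h1.deriv] at h3
    show iteratedDeriv (n + 3) Th t = _
    rw [h3]
    push_cast
    ring

theorem DTh_pos (n : ℕ) : 0 < iteratedDeriv n Th 0 := by
  have h : 0 < iteratedDeriv n Th 0 ∧ 0 < iteratedDeriv (n + 1) Th 0 := by
    induction n with
    | zero =>
      rw [iteratedDeriv_zero, zero_add, iteratedDeriv_one]
      refine ⟨Th_facts.2.2.1 0, ?_⟩
      have h1 := Th_facts.2.2.2.2.2.2.2.1 0
      have h2 := Th_facts.2.2.2.1 0
      simp only [mul_zero, zero_mul, sub_zero] at h1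
      rw [h1]
      linarith
    | succ n ih =>
      refine ⟨ih.2, ?_⟩
      rw [show n + 1 + 1 = n + 2 by ring, DTh_rec]
      simp only [mul_zero, zero_mul, zero_add]
      exact mul_pos (by positivity) ih.1
  exact h.1

/-- derivatives of `t ↦ ∫ Xⁿ Th⁽ⁿ⁾(t X)` -/
theorem hasDerivAt_mom (M : Measure ℝ) [IsFiniteMeasure M] {X : ℝ → ℝ} (hX : Continuous X)
    (hb : ∀ ν, |X ν| ≤ 1) (n : ℕ) (t : ℝ) :
    HasDerivAt (fun t => ∫ ν, X ν ^ n * iteratedDeriv n Th (t * X ν) ∂M)
      (∫ ν, X ν ^ (n + 1) * iteratedDeriv (n + 1) Th (t * X ν) ∂M) t := by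
  have hc : ∀ n, Continuous (iteratedDeriv n Th) := fun n =>
    Th_smooth.continuous_iteratedDeriv n (by exact_mod_cast le_top)
  have hbd : ∀ m : ℕ, ∃ C, ∀ s : ℝ, |s| ≤ |t| + 1 → |iteratedDeriv m Th s| ≤ C := by
    intro m
    obtain ⟨C, hC⟩ := (isCompact_Icc (a := -(|t| + 1)) (b := |t| + 1)).exists_bound_of_continuousOn
      (f := iteratedDeriv m Th) (hc m).continuousOn
    exact ⟨C, fun s hs => hC s (abs_le.1 hs)⟩
  obtain ⟨C0, hC0⟩ := hbd n
  obtain ⟨C, hC⟩ := hbd (n + 1)
  have hcn : ∀ m : ℕ, ∀ s : ℝ, Continuous fun ν => X ν ^ m * iteratedDeriv m Th (s * X ν) :=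
    fun m s => (hX.pow m).mul ((hc m).comp (continuous_const.mul hX))
  have hpow : ∀ m : ℕ, ∀ ν, |X ν ^ m| ≤ 1 := fun m ν => by
    rw [abs_pow]; exact pow_le_one₀ (abs_nonneg _) (hb ν)
  have harg : ∀ s ν : ℝ, |s| ≤ |t| + 1 → |s * X ν| ≤ |t| + 1 := fun s ν hs => by
    rw [abs_mul]
    calc |s| * |X ν| ≤ |s| * 1 := mul_le_mul_of_nonneg_left (hb ν) (abs_nonneg _)
      _ ≤ |t| + 1 := by rw [mul_one]; exact hs
  refine (hasDerivAt_integral_of_dominated_loc_of_deriv_le (𝕜 := ℝ)
    (F := fun s ν => X ν ^ n * iteratedDeriv n Th (s * X ν))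
    (F' := fun s ν => X ν ^ (n + 1) * iteratedDeriv (n + 1) Th (s * X ν))
    (bound := fun _ => C) (Metric.ball_mem_nhds t one_pos) ?_ ?_ ?_ ?_ (integrable_const C) ?_).2
  · exact Eventually.of_forall fun s => (hcn n s).aestronglyMeasurable
  · refine Integrable.of_bound (hcn n t).aestronglyMeasurable C0 (Eventually.of_forall fun ν => ?_)
    rw [norm_mul, Real.norm_eq_abs, Real.norm_eq_abs]
    calc |X ν ^ n| * |iteratedDeriv n Th (t * X ν)| ≤ 1 * C0 :=
          mul_le_mul (hpow n ν) (hC0 _ (harg t ν (by linarith))) (abs_nonneg _) zero_le_one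
      _ = C0 := one_mul _
  · exact (hcn (n + 1) t).aestronglyMeasurable
  · refine Eventually.of_forall fun ν s hs => ?_
    have hs' : |s| ≤ |t| + 1 := by
      have h1 : |s - t| < 1 := by simpa [Real.dist_eq] using hs
      have h2 : |s| ≤ |s - t| + |t| := by
        have := abs_add_le (s - t) t
        simpa using this
      linarith
    rw [norm_mul, Real.norm_eq_abs, Real.norm_eq_abs]
    calc |X ν ^ (n + 1)| * |iteratedDeriv (n + 1) Th (s * X ν)| ≤ 1 * C :=
          mul_le_mul (hpow _ ν) (hC _ (harg s ν hs')) (abs_nonneg _) zero_le_one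
      _ = C := one_mul _
  · refine Eventually.of_forall fun ν s _ => ?_
    have h1 : HasDerivAt (fun s => s * X ν) (1 * X ν) s := (hasDerivAt_id s).mul_const (X ν)
    have h2 : HasDerivAt (fun s => X ν ^ n * iteratedDeriv n Th (s * X ν))
        (X ν ^ n * (iteratedDeriv (n + 1) Th (s * X ν) * (1 * X ν))) s :=
      ((hasDerivAt_DTh n (s * X ν)).comp s h1).const_mul (X ν ^ n)
    have e : X ν ^ n * (iteratedDeriv (n + 1) Th (s * X ν) * (1 * X ν)) =
        X ν ^ (n + 1) * iteratedDeriv (n + 1) Th (s * X ν) := by ring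
    rw [e] at h2
    exact h2

theorem mom_eq {M M' : Measure ℝ} [IsFiniteMeasure M] [IsFiniteMeasure M'] {X : ℝ → ℝ}
    (hX : Continuous X) (hb : ∀ ν, |X ν| ≤ 1)
    (h : ∀ t : ℝ, ∫ ν, Th (t * X ν) ∂M = ∫ ν, Th (t * X ν) ∂M') (n : ℕ) :
    ∫ ν, X ν ^ n ∂M = ∫ ν, X ν ^ n ∂M' := by
  have key : ∀ n : ℕ, ∀ t : ℝ, ∫ ν, X ν ^ n * iteratedDeriv n Th (t * X ν) ∂M =
      ∫ ν, X ν ^ n * iteratedDeriv n Th (t * X ν) ∂M' := by
    intro n
    induction n with
    | zero => intro t; simpa using h t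
    | succ n ih =>
      intro t
      have h1 := hasDerivAt_mom M hX hb n t
      have h2 := hasDerivAt_mom M' hX hb n t
      have h3 : (fun t => ∫ ν, X ν ^ n * iteratedDeriv n Th (t * X ν) ∂M) =
        fun t => ∫ ν, X ν ^ n * iteratedDeriv n Th (t * X ν) ∂M' := funext ih
      rw [h3] at h1
      exact h1.unique h2
  have h1 := key n 0
  simp only [zero_mul, integral_mul_const] at h1
  exact mul_right_cancel₀ (DTh_pos n).ne' h1

theorem hasSum_mgf (M : Measure ℝ) [IsFiniteMeasure M] {X : ℝ → ℝ}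
    (hX : Continuous X) (hb : ∀ ν, |X ν| ≤ 1) (t : ℝ) :
    HasSum (fun n : ℕ => t ^ n / (n.factorial : ℝ) * ∫ ν, X ν ^ n ∂M) (mgf X M t) := by
  have h1 : ∀ n : ℕ, Integrable (fun ν => t ^ n / (n.factorial : ℝ) * X ν ^ n) M := by
    intro n
    refine Integrable.const_mul ?_ _
    refine Integrable.of_bound (hX.pow n).aestronglyMeasurable 1 (Eventually.of_forall fun ν => ?_)
    rw [Real.norm_eq_abs, abs_pow]; exact pow_le_one₀ (abs_nonneg _) (hb ν)
  have h2 : Summable fun n : ℕ => ∫ ν, ‖t ^ n / (n.factorial : ℝ) * X ν ^ n‖ ∂M := by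
    have h3 : Summable fun n : ℕ => (|t| ^ n / (n.factorial : ℝ)) * M.real univ :=
      (Real.summable_pow_div_factorial |t|).mul_right _
    refine Summable.of_nonneg_of_le (fun n => integral_nonneg fun ν => norm_nonneg _) (fun n => ?_) h3
    calc ∫ ν, ‖t ^ n / (n.factorial : ℝ) * X ν ^ n‖ ∂M ≤ ∫ ν, |t| ^ n / (n.factorial : ℝ) ∂M := by
          refine integral_mono (h1 n).norm (integrable_const _) fun ν => ?_
          show ‖t ^ n / (n.factorial : ℝ) * X ν ^ n‖ ≤ |t| ^ n / (n.factorial : ℝ)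
          rw [norm_mul, norm_div, norm_pow, norm_pow, Real.norm_natCast, Real.norm_eq_abs,
            Real.norm_eq_abs]
          refine mul_le_of_le_one_right (by positivity) ?_
          exact pow_le_one₀ (abs_nonneg _) (hb ν)
      _ = (|t| ^ n / (n.factorial : ℝ)) * M.real univ := by
          rw [integral_const, smul_eq_mul, mul_comm]
  have h4 := hasSum_integral_of_summable_integral_norm h1 h2
  have h5 : ∫ ν, (∑' n : ℕ, t ^ n / (n.factorial : ℝ) * X ν ^ n) ∂M = mgf X M t := by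
    unfold mgf
    congr 1
    funext ν
    have := (NormedSpace.expSeries_div_hasSum_exp (t * X ν)).tsum_eq
    rw [← Real.exp_eq_exp_ℝ] at this
    show _ = Real.exp (t * X ν)
    rw [← this]
    congr 1
    funext n
    rw [mul_pow]; ring
  rw [h5] at h4
  have e : (fun n : ℕ => t ^ n / (n.factorial : ℝ) * ∫ ν, X ν ^ n ∂M) =
      fun n : ℕ => ∫ ν, t ^ n / (n.factorial : ℝ) * X ν ^ n ∂M := by
    funext n
    rw [integral_const_mul]
  rw [e]
  exact h4

theorem W2_polar (M : Measure ℝ) (t θ : ℝ) :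
    W2 M (t * cos θ, t * sin θ) = ∫ ν, Th (t * cos (ν - θ)) ∂M := by
  unfold W2
  congr 1
  funext ν
  congr 1
  rw [Real.cos_sub]; ring

/-- **uniqueness of the measure**, second family -/
theorem measure_unique_II {M M' : Measure ℝ} [IsFiniteMeasure M] [IsFiniteMeasure M']
    (h : ∀ q, W2 M q = W2 M' q) : M.map circ = M'.map circ := by
  refine map_circ_eq fun θ => proj_eq_of_mgf θ (funext fun t => ?_)
  have hX : Continuous fun ν => cos (ν - θ) := by fun_prop
  have hb : ∀ ν, |cos (ν - θ)| ≤ 1 := fun ν => abs_cos_le_one _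
  have hm := mom_eq (M := M) (M' := M') hX hb fun t => by
    rw [← W2_polar, ← W2_polar]; exact h _
  have h1 := hasSum_mgf M hX hb t
  have h2 := hasSum_mgf M' hX hb t
  have e : (fun n : ℕ => t ^ n / (n.factorial : ℝ) * ∫ ν, cos (ν - θ) ^ n ∂M) =
      fun n : ℕ => t ^ n / (n.factorial : ℝ) * ∫ ν, cos (ν - θ) ^ n ∂M' := by
    funext n; rw [hm n]
  rw [e] at h1
  exact h1.unique h2

end Pool.Agent.EU
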