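import Pool.Agent.EU.Fin
import Pool.Agent.EU.Uniq

/-!
Uniqueness of the data in the classification.
-/

set_option autoImplicit false
open scoped ContDiff Topology
open Real Set MeasureTheory Filter

namespace Pool.Agent.EU

/-! ### first family -/

theorem hessI_unique {F G : P → P} {u : P → ℝ} (hs : Function.Surjective F) (h1 : HessI F u)
    (h2 : HessI G u) : F = G := by
  funext q
  obtain ⟨p, hp⟩ := hs (G q)
  have e1 : p.1 = q.1 := by
    have := h1.h22 p
    rw [hp, h2.h22] at this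
    exact (Real.exp_injective this).symm
  have e2 : p.2 = q.2 := by
    have := h1.h12 p
    rw [hp, h2.h12] at this
    exact this.symm
  rw [← hp, show p = q from Prod.ext e1 e2]

theorem sg_ta_frame (γ : ℝ) : sg γ (cos γ, sin γ) = 1 ∧ ta γ (cos γ, sin γ) = 0 ∧
    sg γ (-sin γ, cos γ) = 0 ∧ ta γ (-sin γ, cos γ) = 1 := by
  have h := Real.cos_sq_add_sin_sq γ
  refine ⟨?_, ?_, ?_, ?_⟩
  · show cos γ * cos γ + sin γ * sin γ = 1; linarith
  · show -(cos γ * sin γ) + sin γ * cos γ = 0; ring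
  · show -sin γ * cos γ + cos γ * sin γ = 0; ring
  · show -(-sin γ * sin γ) + cos γ * cos γ = 1; linarith

theorem K1_zero (γ b : ℝ) (M : Measure ℝ) : K1 γ b M 0 = b := by
  have h1 : ∀ ν, kk γ ν 0 = 0 := by
    intro ν
    unfold kk sg ta
    simp
  have h2 : ta γ 0 = 0 := by unfold ta; simp
  unfold K1
  simp [h1, h2]

/-- uniqueness of `b` and `M` for given `γ`, `F`. -/
theorem typeI_params {γ b b' : ℝ} {M M' : Measure ℝ} {F : P → P} (h : TypeI γ b M F)
    (h' : TypeI γ b' M' F) : b = b' ∧ M.map circ = M'.map circ := by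
  have := h.fin
  have := h'.fin
  obtain ⟨f1, f2, f3, f4⟩ := sg_ta_frame γ
  have hW : ∀ q, W1 M q = W1 M' q := by
    intro q
    have h1 := h.dF q (cos γ, sin γ)
    rw [h'.dF q] at h1
    have h2 := congrArg Prod.fst h1
    simp only [f1, f2, mul_one, mul_zero, add_zero] at h2
    exact h2.symm
  have hK : ∀ q, K1 γ b M q = K1 γ b' M' q := by
    intro q
    have h1 := h.dF q (-sin γ, cos γ)
    rw [h'.dF q] at h1
    have h2 := congrArg Prod.fst h1
    simp only [f3, f4, mul_one, mul_zero, zero_add] at h2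
    exact h2.symm
  refine ⟨?_, measure_unique_I hW⟩
  have := hK 0
  rwa [K1_zero, K1_zero] at this

/-- the possible values of `γ` for a given map `F`. -/
theorem typeI_gamma {γ0 b0 : ℝ} {M0 : Measure ℝ} {F : P → P} (hT : TypeI γ0 b0 M0 F)
    (hs : Function.Surjective F) (γ : ℝ) : (∃ (b : ℝ) (M : Measure ℝ), TypeI γ b M F) ↔
      ∀ q, 0 ≤ cos γ * d1 (fun q => (F q).1) q + sin γ * d2 (fun q => (F q).1) q := by
  constructor
  · rintro ⟨b, M, h⟩ q
    have := h.fin
    have hX : HasFDerivAt (fun q => (F q).1) ((ContinuousLinearMap.fst ℝ ℝ ℝ).comp (fderiv ℝ F q)) q :=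
      (ContinuousLinearMap.fst ℝ ℝ ℝ).hasFDerivAt.comp q (h.diff q).hasFDerivAt
    have e1 : cos γ * d1 (fun q => (F q).1) q + sin γ * d2 (fun q => (F q).1) q =
        fderiv ℝ (fun q => (F q).1) q (cos γ, sin γ) := by
      rw [fderiv_apply_eq]; rfl
    have e2 : fderiv ℝ (fun q => (F q).1) q (cos γ, sin γ) = W1 M q := by
      rw [hX.fderiv]
      show (fderiv ℝ F q (cos γ, sin γ)).1 = _
      rw [h.dF]
      obtain ⟨f1, f2, -, -⟩ := sg_ta_frame γ
      simp only [f1, f2, mul_one, mul_zero, add_zero]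
    rw [e1, e2]
    exact integral_nonneg fun ν => (Real.exp_pos _).le
  · intro hpos
    obtain ⟨u, hu⟩ := exists_uI hT hs 0
    have hu' : HessI F u := by simpa using hu
    have hent := entire_of_hessI hu' hs
    obtain ⟨hc2, hp, he⟩ := isEntireSolution_iff.1 hent
    have hsm : ContDiff ℝ ∞ u := smooth_of_C2 hc2 hp he
    have hsol := sol_of_u hsm hp he
    have hA : ∀ q, Real.log (d2 (d2 u) (F q)) = q.1 := fun q => by rw [hu'.h22, Real.log_exp]
    have hne : ∃ x y, Real.log (d2 (d2 u) x) ≠ Real.log (d2 (d2 u) y) := by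
      refine ⟨F (1, 0), F 0, ?_⟩
      rw [hA, hA]; simp
    rcases sol_structure hsol hne with ⟨γ', F', hF', h1, h2, h3, -, h5⟩ | ⟨h0, v0, b, M, F', hF', h5⟩
    · have e : ∀ q, F' q = F q := by
        intro q
        obtain ⟨p, hp'⟩ := hs (F' q)
        have e1 : p.1 = q.1 := by rw [← hA p, hp']; exact (h5 q).1
        have e2 : p.2 = q.2 := by rw [← hu'.h12 p, hp']; exact (h5 q).2
        rw [← hp', show p = q from Prod.ext e1 e2]
      have e' : (F' : P → P) = F := funext e
      have hpos' : ∀ q, 0 ≤ cos γ * d1 (fun q => (F' q).1) q + sin γ * d2 (fun q => (F' q).1) q := by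
        intro q
        have e'' : (fun q => (F' q).1) = fun q => (F q).1 := funext fun q => by rw [e q]
        rw [e'']; exact hpos q
      obtain ⟨b, M, h⟩ := typeI_of_pos F' hF' h1 h2 h3 γ hpos'
      rw [e'] at h
      exact ⟨b, M, h⟩
    · exfalso
      obtain ⟨p, hp'⟩ := hs (F' (1, 0))
      obtain ⟨r, hr'⟩ := hs (F' (-1, 0))
      have e1 : p.1 = r.1 := by
        rw [← hA p, ← hA r, hp', hr']
        have k1 := (h5 (1, 0)).1
        have k2 := (h5 (-1, 0)).1
        simp only at k1 k2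
        rw [k1, k2]; ring
      have e2 : p.2 = r.2 := by
        rw [← hu'.h12 p, ← hu'.h12 r, hp', hr']
        have k1 := (h5 (1, 0)).2
        have k2 := (h5 (-1, 0)).2
        rw [k1, k2]; simp
      have e3 : F' (1, 0) = F' (-1, 0) := by
        rw [← hp', ← hr', show p = r from Prod.ext e1 e2]
      have := congrArg Prod.fst (F'.injective e3)
      norm_num at this

/-! ### second family -/

theorem K2_zero (b : ℝ) (M : Measure ℝ) : K2 b M 0 = b := by
  unfold K2; simp

theorem W2_zero_pos {M : Measure ℝ} [IsFiniteMeasure M] (h : M ≠ 0) : 0 < W2 M 0 := by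
  have h1 : W2 M 0 = M.real univ * Th 0 := by
    unfold W2; simp [mul_comm]
  rw [h1]
  refine mul_pos ?_ (Th_facts.2.2.1 0)
  rw [Measure.real, ENNReal.toReal_pos_iff]
  exact ⟨Measure.measure_univ_pos.2 h, measure_lt_top _ _⟩

theorem typeII_params {h0 b b' : ℝ} {M M' : Measure ℝ} {F : P → P} (h : TypeII h0 b M F)
    (h' : TypeII h0 b' M' F) : b = b' ∧ M.map circ = M'.map circ := by
  have := h.fin
  have := h'.fin
  have hW : ∀ q, W2 M q = W2 M' q := by
    intro q
    have h1 := h.dF q (1, 0)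
    rw [h'.dF q] at h1
    have h2 := congrArg Prod.fst h1
    simp only [mul_one, mul_zero, add_zero] at h2
    exact (mul_left_cancel₀ (Real.exp_pos _).ne' h2).symm
  have hK : ∀ q, K2 b M q = K2 b' M' q := by
    intro q
    have h1 := h.dF q (0, 1)
    rw [h'.dF q] at h1
    have h2 := congrArg Prod.fst h1
    simp only [mul_one, mul_zero, zero_add] at h2
    exact (mul_left_cancel₀ (Real.exp_pos _).ne' h2).symm
  refine ⟨?_, measure_unique_II hW⟩
  have := hK 0
  rwa [K2_zero, K2_zero] at this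

theorem sq_eq_iff (p q : P) (h1 : p.1 ^ 2 - p.2 ^ 2 = q.1 ^ 2 - q.2 ^ 2)
    (h2 : p.1 * p.2 = q.1 * q.2) : p = q ∨ p = -q := by
  set z : ℂ := ⟨p.1, p.2⟩ with hz
  set w : ℂ := ⟨q.1, q.2⟩ with hw
  have h : z * z = w * w := by
    apply Complex.ext
    · rw [Complex.mul_re, Complex.mul_re]
      show p.1 * p.1 - p.2 * p.2 = q.1 * q.1 - q.2 * q.2
      linarith
    · rw [Complex.mul_im, Complex.mul_im]
      show p.1 * p.2 + p.2 * p.1 = q.1 * q.2 + q.2 * q.1
      linarith
  rcases mul_self_eq_mul_self_iff.1 h with h | h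
  · left
    exact Prod.ext (congrArg Complex.re h) (congrArg Complex.im h)
  · right
    exact Prod.ext (congrArg Complex.re h) (congrArg Complex.im h)

theorem hessII_unique {h0 v0 b h0' v0' b' : ℝ} {M M' : Measure ℝ} {F F' : P → P} {u : P → ℝ}
    (hT : TypeII h0 b M F) (hT' : TypeII h0' b' M' F') (hF : Function.Bijective F)
    (hF' : Function.Bijective F') (h : HessII h0 v0 F u) (h' : HessII h0' v0' F' u) :
    h0 = h0' ∧ v0 = v0' ∧ F = F' := by
  have := hT.fin
  have := hT'.fin
  -- points with the same image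
  have key : ∀ p q : P, F p = F' q → h0 + p.1 ^ 2 - p.2 ^ 2 = h0' + q.1 ^ 2 - q.2 ^ 2 ∧
      v0 + 2 * p.1 * p.2 = v0' + 2 * q.1 * q.2 := by
    intro p q hpq
    have e1 := h.h22 p
    rw [hpq, h'.h22] at e1
    have e2 := h.h12 p
    rw [hpq, h'.h12] at e2
    exact ⟨(Real.exp_injective e1).symm, e2.symm⟩
  have hz : h0 = h0' ∧ v0 = v0' := by
    obtain ⟨p, hp⟩ := hF.2 (F' 0)
    obtain ⟨k1, k2⟩ := key p 0 hp
    obtain ⟨q, hq⟩ := hF'.2 (F (-p))
    obtain ⟨k3, k4⟩ := key (-p) q hq.symm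
    simp only [Prod.fst_neg, Prod.snd_neg, Prod.fst_zero, Prod.snd_zero] at k1 k2 k3 k4
    have hq0 : q = 0 := by
      have a1 : q.1 ^ 2 - q.2 ^ 2 = (0 : P).1 ^ 2 - (0 : P).2 ^ 2 := by
        show q.1 ^ 2 - q.2 ^ 2 = (0 : ℝ) ^ 2 - (0 : ℝ) ^ 2
        linarith
      have a2 : q.1 * q.2 = (0 : P).1 * (0 : P).2 := by
        show q.1 * q.2 = (0 : ℝ) * (0 : ℝ)
        linarith
      have := sq_eq_iff q 0 a1 a2
      simpa using this
    rw [hq0] at hq
    have hpp : p = -p := hF.1 (hp.trans hq)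
    have hp0 : p = 0 := by
      have h1 := congrArg Prod.fst hpp
      have h2 := congrArg Prod.snd hpp
      simp only [Prod.fst_neg, Prod.snd_neg] at h1 h2
      exact Prod.ext (by simp; linarith) (by simp; linarith)
    rw [hp0] at k1 k2
    simp at k1 k2
    exact ⟨k1, k2⟩
  refine ⟨hz.1, hz.2, ?_⟩
  obtain ⟨rfl, rfl⟩ := hz
  have hpm : ∀ q, F' q = F q ∨ F' q = F (-q) := by
    intro q
    obtain ⟨p, hp⟩ := hF.2 (F' q)
    obtain ⟨k1, k2⟩ := key p q hp
    rcases sq_eq_iff p q (by linarith) (by linarith) with rfl | rfl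
    · exact Or.inl hp.symm
    · exact Or.inr hp.symm
  have c1 : IsClosed {q | F' q = F q} := isClosed_eq hT'.diff.continuous hT.diff.continuous
  have c2 : IsClosed {q | F' q = F (-q)} :=
    isClosed_eq hT'.diff.continuous (hT.diff.continuous.comp continuous_neg)
  have hconn : IsPreconnected ({0}ᶜ : Set P) := by
    refine (isConnected_compl_singleton_of_one_lt_rank ?_ 0).isPreconnected
    rw [← Module.finrank_eq_rank]
    simp
  rw [isPreconnected_iff_subset_of_disjoint_closed] at hconn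
  have hcase := hconn _ _ c1 c2 (fun q _ => hpm q) (by
    rw [eq_empty_iff_forall_notMem]
    rintro q ⟨hq, h1, h2⟩
    have h3 : F q = F (-q) := (show F' q = F q from h1).symm.trans h2
    have h4 := hF.1 h3
    apply hq
    have h5 := congrArg Prod.fst h4
    have h6 := congrArg Prod.snd h4
    simp only [Prod.fst_neg, Prod.snd_neg] at h5 h6
    exact Prod.ext (by simp; linarith) (by simp; linarith))
  have hz0 : F' 0 = F 0 := by
    rcases hpm 0 with h1 | h1
    · exact h1
    · simpa using h1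
  rcases hcase with hc | hc
  · funext q
    by_cases hq : q = 0
    · rw [hq]; exact hz0.symm
    · exact (show F' q = F q from hc hq).symm
  · exfalso
    have e : F' = fun q => F (-q) := by
      funext q
      by_cases hq : q = 0
      · rw [hq, hz0, neg_zero]
      · exact hc hq
    have hd : HasFDerivAt F' ((fderiv ℝ F (-0)).comp (-(ContinuousLinearMap.id ℝ P))) 0 := by
      rw [e]
      exact (hT.diff (-0)).hasFDerivAt.comp 0 (hasFDerivAt_id 0).neg
    have h1 : (fderiv ℝ F' 0 (1, 0)).1 = -(fderiv ℝ F 0 (1, 0)).1 := by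
      rw [hd.fderiv]
      show (fderiv ℝ F (-0) (-(1, 0))).1 = _
      rw [neg_zero, map_neg]; rfl
    rw [hT.dF, hT'.dF] at h1
    simp at h1
    have h2 := W2_zero_pos hT.nz
    have h3 := W2_zero_pos hT'.nz
    linarith

/-! ### the three classes are disjoint -/

theorem quad_rot {u : P → ℝ} (h : IsQuadratic u) : IsQuadratic fun x => u (rot x) := by
  obtain ⟨a, c, l, m, n, ha, hu⟩ := h
  refine ⟨a⁻¹, -c, m, -l, n, inv_pos.2 ha, fun x => ?_⟩
  show u (-x.2, x.1) = _
  rw [hu, inv_inv]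
  ring

theorem quad_iter {u : P → ℝ} (h : IsQuadratic u) (k : ℕ) : IsQuadratic fun x => u (rot^[k] x) := by
  induction k with
  | zero => simpa using h
  | succ n ih =>
    have := quad_rot ih
    simpa [Function.iterate_succ] using this

theorem quad_second {u : P → ℝ} (h : IsQuadratic u) (x y : P) : d2 (d2 u) x = d2 (d2 u) y := by
  obtain ⟨a, c, l, m, n, ha, hu⟩ := h
  obtain rfl : u = _ := funext hu
  rw [(quad_derivs a a⁻¹ c l m n x).2.2.2, (quad_derivs a a⁻¹ c l m n y).2.2.2]

theorem quad_not_I {u : P → ℝ} (h : IsQuadratic u) (k : ℕ) (F : P → P) :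
    ¬ HessI F fun x => u (rot^[k] x) := by
  intro hh
  have h1 := quad_second (quad_iter h k) (F (1, 0)) (F 0)
  rw [hh.h22, hh.h22] at h1
  have := Real.exp_injective h1
  simp at this

theorem quad_not_II {u : P → ℝ} (h : IsQuadratic u) (h0 v0 : ℝ) (F : P → P) :
    ¬ HessII h0 v0 F u := by
  intro hh
  have h1 := quad_second h (F (1, 0)) (F 0)
  rw [hh.h22, hh.h22] at h1
  have := Real.exp_injective h1
  simp at this

theorem inj_rot {u : P → ℝ} (h : IsEntireSolution u)
    (hi : ∀ x y, d2 (d2 fun x => u (rot x)) x = d2 (d2 fun x => u (rot x)) y →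
      d2 (d1 fun x => u (rot x)) x = d2 (d1 fun x => u (rot x)) y → x = y) :
    ∀ x y, d2 (d2 u) x = d2 (d2 u) y → d2 (d1 u) x = d2 (d1 u) y → x = y := by
  obtain ⟨hs, hp, he⟩ := isEntireSolution_iff.1 h
  intro x y h1 h2
  have h3 := hi (rotInv x) (rotInv y)
  rw [(hess_rot hs _).2.2, (hess_rot hs _).2.2, (hess_rot hs _).2.1, (hess_rot hs _).2.1,
    rot_rotInv, rot_rotInv] at h3
  refine rotInv.injective (h3 ?_ (by rw [h2]))
  have e1 := he x
  have e2 := he y
  rw [h1] at e1
  have h4 : d2 (d2 u) y ≠ 0 := by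
    intro h5; rw [h5, mul_zero] at e2; exact zero_ne_one e2
  exact mul_right_cancel₀ h4 (e1.trans e2.symm)

theorem inj_iter {u : P → ℝ} (h : IsEntireSolution u) (k : ℕ)
    (hi : ∀ x y, d2 (d2 fun x => u (rot^[k] x)) x = d2 (d2 fun x => u (rot^[k] x)) y →
      d2 (d1 fun x => u (rot^[k] x)) x = d2 (d1 fun x => u (rot^[k] x)) y → x = y) :
    ∀ x y, d2 (d2 u) x = d2 (d2 u) y → d2 (d1 u) x = d2 (d1 u) y → x = y := by
  induction k with
  | zero => simpa using hi
  | succ n ih =>
    refine ih (inj_rot (iter_rot h n) ?_)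
    simpa [Function.iterate_succ] using hi

theorem I_not_II {u : P → ℝ} {k : ℕ} {F : P → P} (hF : Function.Surjective F)
    (hI : HessI F fun x => u (rot^[k] x)) {h0 v0 : ℝ} {G : P → P} (hG : Function.Injective G) :
    ¬ HessII h0 v0 G u := by
  intro hII
  have hent : IsEntireSolution u := (iter_rot_iff k).1 (entire_of_hessI hI hF)
  have hinj := inj_iter hent k (by
    intro x y h1 h2
    obtain ⟨p, rfl⟩ := hF x
    obtain ⟨q, rfl⟩ := hF y
    rw [hI.h22, hI.h22] at h1
    rw [hI.h12, hI.h12] at h2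
    rw [show p = q from Prod.ext (Real.exp_injective h1) h2])
  have h1 := hinj (G (1, 0)) (G (-1, 0)) (by rw [hII.h22, hII.h22]; simp)
    (by rw [hII.h12, hII.h12]; simp)
  have := congrArg Prod.fst (hG h1)
  norm_num at this

end Pool.Agent.EU
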